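import Pool.Agent.TOPW.R6109.Tm_1
import Pool.Agent.TOPW.R6109.Tm_2
import Pool.Agent.TOPW.R6109.Tm_3
import Pool.Agent.TOPW.R6109.Tm_4
import Pool.Agent.TOPW.R6109.Tp_1
import Pool.Agent.TOPW.R6109.Tp_2
import Pool.Agent.TOPW.R6109.Ts_1
import Pool.Agent.TOPW.R6109.Ts_2
import Pool.Agent.TOPW.R6109.Ts_3
import Pool.Agent.TOPW.R6109.Ts_4
import Pool.Agent.TOPW.R6109.Ts_5
import Pool.Agent.TOPW.R6109.Ts_6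
import Pool.Agent.TOPW.R6109.Ts_7
import Pool.Agent.TOPW.R6109.Ts_8
import Pool.Agent.Helper64.TOP.Rg
import Pool.Agent.Helper6.TOP.Cell

set_option autoImplicit false
set_option linter.all false
set_option maxRecDepth 100000

namespace Pool.Agent.TOPR.R6109.Inst

open Helper80.CW.DL Pool.Agent.Helper6.TOP Pool.Agent.TOPR.R6109
open Pool.Agent.Helper31.SR.FinT

def tS_0 : UT := (UT.cut true (UT.cut true (UT.cut true (UT.cut true (UT.cut false (UT.cut false (UT.cut false (UT.cut false UT.leaf UT.out) UT.out) UT.out) UT.out) (UT.cut false (UT.cut false (UT.cut false (UT.cut false UT.leaf UT.leaf) UT.out) UT.out) UT.out)) (UT.cut true (UT.cut false (UT.cut false (UT.cut false (UT.cut false UT.leaf UT.leaf) (UT.cut false UT.leaf UT.out)) UT.out) UT.out) (UT.cut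 false (UT.cut false (UT.cut false (UT.cut false UT.leaf UT.leaf) (UT.cut false UT.leaf UT.leaf)) UT.out) UT.out))) (UT.cut true (UT.cut true (UT.cut false (UT.cut false (UT.cut false (UT.cut false UT.leaf UT.leaf) (UT.cut false UT.leaf UT.leaf)) (UT.cut false (UT.cut false UT.leaf UT.out) UT.out)) UT.out) (UT.cut false (UT.cut false (UT.cut false (UT.cut false UT.leaf UT.leaf) (UT.cut false UT.leaf UT.leaf)) (UT.cut false (UT.cut false UT.leaf UT.leaf) UT.out)) UT.out)) (UT.cut true (UT.cut false (UT.cut false (UT.cut false (UT.cut false UT.leaf UT.leaf) (UT.cut false UT.leaf UT.leaf)) (UT.cut false (UT.cut false UT.leaf UT.leaf) (UT.cut false UT.leaf UT.out))) UT.out) (UT.cut false (UT.cut false (UT.cut false (UT.cut false UT.leaf UT.leaf) (UT.cut false UT.leaf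 UT.leaf)) (UT.cut false (UT.cut false UT.leaf UT.leaf) (UT.cut false UT.leaf UT.leaf))) UT.out)))) (UT.cut true (UT.cut true (UT.cut true (UT.cut false (UT.cut false (UT.cut false (UT.cut false UT.leaf UT.leaf) (UT.cut false UT.leaf UT.leaf)) (UT.cut false (UT.cut false UT.leaf UT.leaf) (UT.cut false UT.leaf UT.leaf))) (UT.cut false (UT.cut false (UT.cut false UT.leaf UT.out) UT.out) UT.out)) (UT.cut false (UT.cut false (UT.cut false (UT.cut false UT.leaf UT.leaf) (UT.cut false UT.leaf UT.leaf)) (UT.cut false (UT.cut false UT.leaf UT.leaf) (UT.cut false UT.leaf UT.leaf))) (UT.cut false (UT.cut false (UT.cut false UT.leaf UT.leaf) UT.out) UT.out))) (UT.cut true (UT.cut false (UT.cut false (UT.cut false (UT.cut false UT.leaf UT.leaf) (UT.cut false UT.leaf UT.leaf))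 (UT.cut false (UT.cut false UT.leaf UT.leaf) (UT.cut false UT.leaf UT.leaf))) (UT.cut false (UT.cut false (UT.cut false UT.leaf UT.leaf) (UT.cut false UT.leaf UT.out)) UT.out)) (UT.cut false (UT.cut false (UT.cut false (UT.cut false (UT.cut false UT.leaf UT.leaf) (UT.cut false UT.leaf UT.leaf)) (UT.cut false UT.leaf UT.leaf)) (UT.cut false (UT.cut false UT.leaf UT.leaf) (UT.cut false UT.leaf UT.leaf))) (UT.cut false (UT.cut false (UT.cut false UT.leaf UT.leaf) (UT.cut false UT.leaf UT.leaf)) UT.out)))) (UT.cut true (UT.cut true (UT.cut false (UT.cut false (UT.cut false (UT.cut false (UT.cut false (UT.cut true UT.leaf UT.leaf) UT.leaf) (UT.cut false UT.leaf UT.leaf)) (UT.cut false UT.leaf UT.leaf)) (UT.cut false (UT.cut false UT.leaf UT.leaf) (UT.cut false UT.leaf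 UT.leaf))) (UT.cut false (UT.cut false (UT.cut false UT.leaf UT.leaf) (UT.cut false UT.leaf UT.out)) UT.out)) (UT.cut false (UT.cut false (UT.cut false (UT.cut false (UT.cut false (UT.cut true UT.leaf UT.out) UT.leaf) (UT.cut false UT.leaf UT.leaf)) (UT.cut false UT.leaf UT.leaf)) (UT.cut false (UT.cut false UT.leaf UT.out) UT.out)) UT.out)) UT.out)))

def TS : UT := tS_0

def LS_0 : List UC := [⟨5, 0, 5, 0⟩, ⟨5, 1, 5, 0⟩, ⟨5, 1, 5, 1⟩, ⟨5, 2, 5, 0⟩, ⟨5, 2, 5, 1⟩, ⟨5, 2, 5, 2⟩, ⟨5, 3, 5, 0⟩, ⟨5, 3, 5, 1⟩, ⟨5, 3, 5, 2⟩, ⟨5, 3, 5, 3⟩, ⟨5, 4, 5, 0⟩, ⟨5, 4, 5, 1⟩, ⟨5, 4, 5, 2⟩, ⟨5, 4, 5, 3⟩, ⟨5, 4, 5, 4⟩, ⟨5, 5, 5, 0⟩, ⟨5, 5, 5, 1⟩, ⟨5, 5, 5, 2⟩, ⟨5, 5, 5, 3⟩, ⟨5, 5, 5, 4⟩, ⟨5, 5, 5, 5⟩, ⟨5, 6, 5, 0⟩, ⟨5, 6, 5, 1⟩, ⟨5, 6, 5, 2⟩, ⟨5, 6, 5, 3⟩, ⟨5, 6, 5, 4⟩, ⟨5, 6,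 5, 5⟩, ⟨5, 6, 5, 6⟩, ⟨5, 7, 5, 0⟩, ⟨5, 7, 5, 1⟩, ⟨5, 7, 5, 2⟩, ⟨5, 7, 5, 3⟩]

theorem aS_0 : AllC (PSc c) LS_0 := AllC.cons Pool.Agent.TOPW.R6109.Ts_1.cellS_5_0_5_0 (AllC.cons Pool.Agent.TOPW.R6109.Ts_1.cellS_5_1_5_0 (AllC.cons Pool.Agent.TOPW.R6109.Ts_1.cellS_5_1_5_1 (AllC.cons Pool.Agent.TOPW.R6109.Ts_1.cellS_5_2_5_0 (AllC.cons Pool.Agent.TOPW.R6109.Ts_1.cellS_5_2_5_1 (AllC.cons Pool.Agent.TOPW.R6109.Ts_1.cellS_5_2_5_2 (AllC.cons Pool.Agent.TOPW.R6109.Ts_1.cellS_5_3_5_0 (AllC.cons Pool.Agent.TOPW.R6109.Ts_1.cellS_5_3_5_1 (AllC.cons Pool.Agent.TOPW.R6109.Ts_1.cellS_5_3_5_2 (AllC.cons Pool.Agent.TOPW.R6109.Ts_1.cellS_5_3_5_3 (AllC.cons Pool.Agent.TOPW.R6109.Ts_1.cellS_5_4_5_0 (AllC.cons Pool.Agent.TOPW.R6109.Ts_1.cellS_5_4_5_1 (AllC.cons Pool.Agent.TOPW.R6109.Ts_1.cellS_5_4_5_2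 (AllC.cons Pool.Agent.TOPW.R6109.Ts_1.cellS_5_4_5_3 (AllC.cons Pool.Agent.TOPW.R6109.Ts_1.cellS_5_4_5_4 (AllC.cons Pool.Agent.TOPW.R6109.Ts_1.cellS_5_5_5_0 (AllC.cons Pool.Agent.TOPW.R6109.Ts_2.cellS_5_5_5_1 (AllC.cons Pool.Agent.TOPW.R6109.Ts_2.cellS_5_5_5_2 (AllC.cons Pool.Agent.TOPW.R6109.Ts_2.cellS_5_5_5_3 (AllC.cons Pool.Agent.TOPW.R6109.Ts_2.cellS_5_5_5_4 (AllC.cons Pool.Agent.TOPW.R6109.Ts_2.cellS_5_5_5_5 (AllC.cons Pool.Agent.TOPW.R6109.Ts_2.cellS_5_6_5_0 (AllC.cons Pool.Agent.TOPW.R6109.Ts_2.cellS_5_6_5_1 (AllC.cons Pool.Agent.TOPW.R6109.Ts_2.cellS_5_6_5_2 (AllC.cons Pool.Agent.TOPW.R6109.Ts_2.cellS_5_6_5_3 (AllC.cons Pool.Agent.TOPW.R6109.Ts_2.cellS_5_6_5_4 (AllC.cons Pool.Agent.TOPW.R6109.Ts_3.cellS_5_6_5_5 (AllC.cons Pool.Agent.TOPW.R6109.Ts_3.cellS_5_6_5_6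 (AllC.cons Pool.Agent.TOPW.R6109.Ts_3.cellS_5_7_5_0 (AllC.cons Pool.Agent.TOPW.R6109.Ts_3.cellS_5_7_5_1 (AllC.cons Pool.Agent.TOPW.R6109.Ts_3.cellS_5_7_5_2 (AllC.cons Pool.Agent.TOPW.R6109.Ts_3.cellS_5_7_5_3 (AllC.nil))))))))))))))))))))))))))))))))

def LS_1 : List UC := [⟨5, 7, 5, 4⟩, ⟨5, 7, 5, 5⟩, ⟨5, 7, 5, 6⟩, ⟨5, 7, 5, 7⟩, ⟨5, 8, 5, 0⟩, ⟨5, 8, 5, 1⟩, ⟨5, 8, 5, 2⟩, ⟨5, 8, 5, 3⟩, ⟨5, 8, 5, 4⟩, ⟨5, 8, 5, 5⟩, ⟨5, 8, 5, 6⟩, ⟨5, 8, 5, 7⟩, ⟨5, 8, 5, 8⟩, ⟨5, 9, 5, 0⟩, ⟨5, 9, 5, 1⟩, ⟨5, 9, 5, 2⟩, ⟨5, 9, 5, 3⟩, ⟨5, 9, 5, 4⟩, ⟨5, 9, 5, 5⟩, ⟨5, 9, 5, 6⟩, ⟨5, 9, 5, 7⟩, ⟨5, 9, 5, 8⟩, ⟨5, 9, 5, 9⟩, ⟨5, 10, 5, 0⟩, ⟨5, 10, 5, 1⟩, ⟨5, 10, 5, 2⟩, ⟨5, 10, 5, 3⟩, ⟨5, 10, 5, 4⟩, ⟨5, 10, 5, 5⟩, ⟨5, 10, 5, 6⟩, ⟨5, 10, 5, 7⟩, ⟨5, 10, 5, 8⟩]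

theorem aS_1 : AllC (PSc c) LS_1 := AllC.cons Pool.Agent.TOPW.R6109.Ts_3.cellS_5_7_5_4 (AllC.cons Pool.Agent.TOPW.R6109.Ts_3.cellS_5_7_5_5 (AllC.cons Pool.Agent.TOPW.R6109.Ts_3.cellS_5_7_5_6 (AllC.cons Pool.Agent.TOPW.R6109.Ts_3.cellS_5_7_5_7 (AllC.cons Pool.Agent.TOPW.R6109.Ts_3.cellS_5_8_5_0 (AllC.cons Pool.Agent.TOPW.R6109.Ts_3.cellS_5_8_5_1 (AllC.cons Pool.Agent.TOPW.R6109.Ts_4.cellS_5_8_5_2 (AllC.cons Pool.Agent.TOPW.R6109.Ts_4.cellS_5_8_5_3 (AllC.cons Pool.Agent.TOPW.R6109.Ts_4.cellS_5_8_5_4 (AllC.cons Pool.Agent.TOPW.R6109.Ts_4.cellS_5_8_5_5 (AllC.cons Pool.Agent.TOPW.R6109.Ts_4.cellS_5_8_5_6 (AllC.cons Pool.Agent.TOPW.R6109.Ts_4.cellS_5_8_5_7 (AllC.cons Pool.Agent.TOPW.R6109.Ts_4.cellS_5_8_5_8 (AllC.cons Pool.Agent.TOPW.R6109.Ts_4.cellS_5_9_5_0 (AllC.cons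 Pool.Agent.TOPW.R6109.Ts_4.cellS_5_9_5_1 (AllC.cons Pool.Agent.TOPW.R6109.Ts_4.cellS_5_9_5_2 (AllC.cons Pool.Agent.TOPW.R6109.Ts_4.cellS_5_9_5_3 (AllC.cons Pool.Agent.TOPW.R6109.Ts_4.cellS_5_9_5_4 (AllC.cons Pool.Agent.TOPW.R6109.Ts_5.cellS_5_9_5_5 (AllC.cons Pool.Agent.TOPW.R6109.Ts_5.cellS_5_9_5_6 (AllC.cons Pool.Agent.TOPW.R6109.Ts_5.cellS_5_9_5_7 (AllC.cons Pool.Agent.TOPW.R6109.Ts_5.cellS_5_9_5_8 (AllC.cons Pool.Agent.TOPW.R6109.Ts_5.cellS_5_9_5_9 (AllC.cons Pool.Agent.TOPW.R6109.Ts_5.cellS_5_10_5_0 (AllC.cons Pool.Agent.TOPW.R6109.Ts_5.cellS_5_10_5_1 (AllC.cons Pool.Agent.TOPW.R6109.Ts_5.cellS_5_10_5_2 (AllC.cons Pool.Agent.TOPW.R6109.Ts_5.cellS_5_10_5_3 (AllC.cons Pool.Agent.TOPW.R6109.Ts_5.cellS_5_10_5_4 (AllC.cons Pool.Agent.TOPW.R6109.Ts_5.cellS_5_10_5_5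 (AllC.cons Pool.Agent.TOPW.R6109.Ts_5.cellS_5_10_5_6 (AllC.cons Pool.Agent.TOPW.R6109.Ts_5.cellS_5_10_5_7 (AllC.cons Pool.Agent.TOPW.R6109.Ts_5.cellS_5_10_5_8 (AllC.nil))))))))))))))))))))))))))))))))

def LS_2 : List UC := [⟨5, 10, 5, 9⟩, ⟨5, 10, 5, 10⟩, ⟨5, 11, 6, 0⟩, ⟨5, 11, 6, 1⟩, ⟨5, 11, 6, 2⟩, ⟨5, 11, 6, 3⟩, ⟨5, 11, 5, 2⟩, ⟨5, 11, 5, 3⟩, ⟨5, 11, 5, 4⟩, ⟨5, 11, 5, 5⟩, ⟨5, 11, 5, 6⟩, ⟨5, 11, 5, 7⟩, ⟨5, 11, 5, 8⟩, ⟨5, 11, 5, 9⟩, ⟨5, 11, 5, 10⟩, ⟨5, 11, 5, 11⟩, ⟨6, 24, 6, 0⟩, ⟨6, 25, 6, 0⟩, ⟨5, 12, 6, 1⟩, ⟨5, 12, 6, 2⟩, ⟨5, 12, 6, 3⟩, ⟨5, 12, 5, 2⟩, ⟨5, 12, 5, 3⟩, ⟨5, 12, 5, 4⟩, ⟨5, 12, 5, 5⟩, ⟨5, 12, 5, 6⟩, ⟨5, 12, 5, 7⟩, ⟨5, 12, 5, 8⟩, ⟨5, 12, 5, 9⟩, ⟨5, 12, 5, 10⟩, ⟨6, 26, 6, 0⟩, ⟨5, 13, 6, 1⟩]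

theorem aS_2 : AllC (PSc c) LS_2 := AllC.cons Pool.Agent.TOPW.R6109.Ts_6.cellS_5_10_5_9 (AllC.cons Pool.Agent.TOPW.R6109.Ts_6.cellS_5_10_5_10 (AllC.cons Pool.Agent.TOPW.R6109.Ts_6.cellS_5_11_6_0 (AllC.cons Pool.Agent.TOPW.R6109.Ts_6.cellS_5_11_6_1 (AllC.cons Pool.Agent.TOPW.R6109.Ts_6.cellS_5_11_6_2 (AllC.cons Pool.Agent.TOPW.R6109.Ts_7.cellS_5_11_6_3 (AllC.cons Pool.Agent.TOPW.R6109.Ts_6.cellS_5_11_5_2 (AllC.cons Pool.Agent.TOPW.R6109.Ts_6.cellS_5_11_5_3 (AllC.cons Pool.Agent.TOPW.R6109.Ts_6.cellS_5_11_5_4 (AllC.cons Pool.Agent.TOPW.R6109.Ts_6.cellS_5_11_5_5 (AllC.cons Pool.Agent.TOPW.R6109.Ts_6.cellS_5_11_5_6 (AllC.cons Pool.Agent.TOPW.R6109.Ts_6.cellS_5_11_5_7 (AllC.cons Pool.Agent.TOPW.R6109.Ts_6.cellS_5_11_5_8 (AllC.cons Pool.Agent.TOPW.R6109.Ts_6.cellS_5_11_5_9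 (AllC.cons Pool.Agent.TOPW.R6109.Ts_6.cellS_5_11_5_10 (AllC.cons Pool.Agent.TOPW.R6109.Ts_6.cellS_5_11_5_11 (AllC.cons Pool.Agent.TOPW.R6109.Ts_8.cellS_6_24_6_0 (AllC.cons Pool.Agent.TOPW.R6109.Ts_8.cellS_6_25_6_0 (AllC.cons Pool.Agent.TOPW.R6109.Ts_7.cellS_5_12_6_1 (AllC.cons Pool.Agent.TOPW.R6109.Ts_7.cellS_5_12_6_2 (AllC.cons Pool.Agent.TOPW.R6109.Ts_7.cellS_5_12_6_3 (AllC.cons Pool.Agent.TOPW.R6109.Ts_7.cellS_5_12_5_2 (AllC.cons Pool.Agent.TOPW.R6109.Ts_7.cellS_5_12_5_3 (AllC.cons Pool.Agent.TOPW.R6109.Ts_7.cellS_5_12_5_4 (AllC.cons Pool.Agent.TOPW.R6109.Ts_7.cellS_5_12_5_5 (AllC.cons Pool.Agent.TOPW.R6109.Ts_7.cellS_5_12_5_6 (AllC.cons Pool.Agent.TOPW.R6109.Ts_7.cellS_5_12_5_7 (AllC.cons Pool.Agent.TOPW.R6109.Ts_7.cellS_5_12_5_8 (AllC.cons Pool.Agent.TOPW.R6109.Ts_7.cellS_5_12_5_9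 (AllC.cons Pool.Agent.TOPW.R6109.Ts_7.cellS_5_12_5_10 (AllC.cons Pool.Agent.TOPW.R6109.Ts_8.cellS_6_26_6_0 (AllC.cons Pool.Agent.TOPW.R6109.Ts_8.cellS_5_13_6_1 (AllC.nil))))))))))))))))))))))))))))))))

def LS_3 : List UC := [⟨5, 13, 6, 2⟩, ⟨5, 13, 6, 3⟩, ⟨5, 13, 5, 2⟩, ⟨5, 13, 5, 3⟩, ⟨5, 13, 5, 4⟩]

theorem aS_3 : AllC (PSc c) LS_3 := AllC.cons Pool.Agent.TOPW.R6109.Ts_8.cellS_5_13_6_2 (AllC.cons Pool.Agent.TOPW.R6109.Ts_8.cellS_5_13_6_3 (AllC.cons Pool.Agent.TOPW.R6109.Ts_8.cellS_5_13_5_2 (AllC.cons Pool.Agent.TOPW.R6109.Ts_8.cellS_5_13_5_3 (AllC.cons Pool.Agent.TOPW.R6109.Ts_8.cellS_5_13_5_4 (AllC.nil)))))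

def LLS : List UC := ((LS_0 ++ LS_1) ++ (LS_2 ++ LS_3))

theorem allS : AllC (PSc c) LLS := (AllC.append (AllC.append aS_0 aS_1) (AllC.append aS_2 aS_3))

theorem tokS : TS.ok rootU = true := by decide +kernel

theorem tlS : TS.leaves rootU = LLS := by decide +kernel

def tP_0 : UT := (UT.cut true (UT.cut true (UT.cut true (UT.cut true (UT.cut false (UT.cut false (UT.cut false (UT.cut false UT.leaf UT.out) UT.out) UT.out) UT.out) (UT.cut false (UT.cut false (UT.cut false (UT.cut false UT.leaf UT.leaf) UT.out) UT.out) UT.out)) (UT.cut true (UT.cut false (UT.cut false (UT.cut false (UT.cut false UT.leaf UT.leaf) (UT.cut false UT.leaf UT.out)) UT.out) UT.out) (UT.cut false (UT.cut false (UT.cut false (UT.cut false UT.leaf UT.leaf) (UT.cut false UT.leaf UT.leaf))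 UT.out) UT.out))) (UT.cut true (UT.cut true (UT.cut false (UT.cut false (UT.cut false (UT.cut false UT.leaf UT.leaf) (UT.cut false UT.leaf UT.leaf)) (UT.cut false (UT.cut false UT.leaf UT.out) UT.out)) UT.out) (UT.cut false (UT.cut false (UT.cut false (UT.cut false UT.leaf UT.leaf) (UT.cut false UT.leaf (UT.cut true UT.leaf (UT.cut false UT.leaf (UT.cut true UT.leaf UT.leaf))))) (UT.cut false (UT.cut false (UT.cut true (UT.cut false UT.leaf UT.leaf) (UT.cut false (UT.cut true UT.leaf UT.leaf) UT.leaf)) UT.leaf) UT.out)) UT.out)) (UT.cut true (UT.cut false (UT.cut false (UT.cut false (UT.cut false UT.leaf UT.leaf) (UT.cut true (UT.cut false UT.leaf (UT.cut false UT.leaf UT.leaf)) (UT.cut false UT.leaf UT.leaf))) (UT.cut false (UT.cut false (UT.cut true UT.leaf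 UT.leaf) UT.leaf) (UT.cut false UT.leaf UT.out))) UT.out) (UT.cut false (UT.cut false (UT.cut false (UT.cut false UT.leaf UT.leaf) (UT.cut false UT.leaf UT.leaf)) (UT.cut false (UT.cut false UT.leaf UT.leaf) (UT.cut false UT.leaf UT.leaf))) UT.out)))) (UT.cut true (UT.cut true (UT.cut true (UT.cut false (UT.cut false (UT.cut false (UT.cut false UT.leaf UT.leaf) (UT.cut false UT.leaf UT.leaf)) (UT.cut false (UT.cut false UT.leaf UT.leaf) (UT.cut false UT.leaf UT.leaf))) (UT.cut false (UT.cut false (UT.cut false UT.leaf UT.out) UT.out) UT.out)) (UT.cut false (UT.cut false (UT.cut false (UT.cut false UT.leaf UT.leaf) (UT.cut false UT.leaf UT.leaf)) (UT.cut false (UT.cut false UT.leaf UT.leaf) (UT.cut false UT.leaf UT.leaf))) (UT.cut false (UT.cut false (UT.cut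 false UT.leaf UT.leaf) UT.out) UT.out))) (UT.cut true (UT.cut false (UT.cut false (UT.cut false (UT.cut false UT.leaf UT.leaf) (UT.cut false UT.leaf UT.leaf)) (UT.cut false (UT.cut false UT.leaf UT.leaf) (UT.cut false UT.leaf UT.leaf))) (UT.cut false (UT.cut false (UT.cut false UT.leaf UT.leaf) (UT.cut false UT.leaf UT.out)) UT.out)) (UT.cut false (UT.cut false (UT.cut false (UT.cut false UT.leaf UT.leaf) (UT.cut false UT.leaf UT.leaf)) (UT.cut false (UT.cut false UT.leaf UT.leaf) (UT.cut false UT.leaf UT.leaf))) (UT.cut false (UT.cut false (UT.cut false UT.leaf UT.leaf) (UT.cut false UT.leaf UT.leaf)) UT.out)))) (UT.cut true (UT.cut true (UT.cut false (UT.cut false (UT.cut false (UT.cut false (UT.cut true UT.leaf UT.leaf) UT.leaf) (UT.cut false UT.leaf UT.leaf))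 (UT.cut false (UT.cut false UT.leaf UT.leaf) (UT.cut false UT.leaf UT.leaf))) (UT.cut false (UT.cut false (UT.cut false UT.leaf UT.leaf) (UT.cut false UT.leaf UT.out)) UT.out)) (UT.cut false (UT.cut false (UT.cut false (UT.cut false (UT.cut true UT.leaf UT.out) UT.leaf) (UT.cut false UT.leaf UT.leaf)) (UT.cut false (UT.cut false UT.leaf UT.out) UT.out)) UT.out)) UT.out)))

def TP : UT := tP_0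

def LP_0 : List UC := [⟨5, 0, 5, 0⟩, ⟨5, 1, 5, 0⟩, ⟨5, 1, 5, 1⟩, ⟨5, 2, 5, 0⟩, ⟨5, 2, 5, 1⟩, ⟨5, 2, 5, 2⟩, ⟨5, 3, 5, 0⟩, ⟨5, 3, 5, 1⟩, ⟨5, 3, 5, 2⟩, ⟨5, 3, 5, 3⟩, ⟨5, 4, 5, 0⟩, ⟨5, 4, 5, 1⟩, ⟨5, 4, 5, 2⟩, ⟨5, 4, 5, 3⟩, ⟨5, 4, 5, 4⟩, ⟨5, 5, 5, 0⟩, ⟨5, 5, 5, 1⟩, ⟨5, 5, 5, 2⟩, ⟨6, 10, 5, 3⟩, ⟨6, 11, 6, 6⟩, ⟨7, 22, 6, 7⟩, ⟨7, 23, 6, 7⟩, ⟨6, 10, 6, 8⟩, ⟨6, 10, 6, 9⟩, ⟨7, 22, 6, 8⟩, ⟨7, 23, 6, 8⟩, ⟨6, 11, 6, 9⟩, ⟨5, 5, 5, 5⟩, ⟨5, 6, 5, 0⟩, ⟨5, 6, 5, 1⟩, ⟨6, 12, 5, 2⟩, ⟨6, 12, 6, 6⟩]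

theorem aP_0 : AllC (PPc c) LP_0 := AllC.cons Pool.Agent.TOPW.R6109.Tp_1.cellP_5_0_5_0 (AllC.cons Pool.Agent.TOPW.R6109.Tp_1.cellP_5_1_5_0 (AllC.cons Pool.Agent.TOPW.R6109.Tp_1.cellP_5_1_5_1 (AllC.cons Pool.Agent.TOPW.R6109.Tp_1.cellP_5_2_5_0 (AllC.cons Pool.Agent.TOPW.R6109.Tp_1.cellP_5_2_5_1 (AllC.cons Pool.Agent.TOPW.R6109.Tp_1.cellP_5_2_5_2 (AllC.cons Pool.Agent.TOPW.R6109.Tp_1.cellP_5_3_5_0 (AllC.cons Pool.Agent.TOPW.R6109.Tp_1.cellP_5_3_5_1 (AllC.cons Pool.Agent.TOPW.R6109.Tp_1.cellP_5_3_5_2 (AllC.cons Pool.Agent.TOPW.R6109.Tp_1.cellP_5_3_5_3 (AllC.cons Pool.Agent.TOPW.R6109.Tp_1.cellP_5_4_5_0 (AllC.cons Pool.Agent.TOPW.R6109.Tp_1.cellP_5_4_5_1 (AllC.cons Pool.Agent.TOPW.R6109.Tp_1.cellP_5_4_5_2 (AllC.cons Pool.Agent.TOPW.R6109.Tp_1.cellP_5_4_5_3 (AllC.cons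 Pool.Agent.TOPW.R6109.Tp_1.cellP_5_4_5_4 (AllC.cons Pool.Agent.TOPW.R6109.Tp_1.cellP_5_5_5_0 (AllC.cons Pool.Agent.TOPW.R6109.Tp_1.cellP_5_5_5_1 (AllC.cons Pool.Agent.TOPW.R6109.Tp_1.cellP_5_5_5_2 (AllC.cons Pool.Agent.TOPW.R6109.Tp_2.cellP_6_10_5_3 (AllC.cons Pool.Agent.TOPW.R6109.Tp_2.cellP_6_11_6_6 (AllC.cons Pool.Agent.TOPW.R6109.Tp_2.cellP_7_22_6_7 (AllC.cons Pool.Agent.TOPW.R6109.Tp_2.cellP_7_23_6_7 (AllC.cons Pool.Agent.TOPW.R6109.Tp_2.cellP_6_10_6_8 (AllC.cons Pool.Agent.TOPW.R6109.Tp_2.cellP_6_10_6_9 (AllC.cons Pool.Agent.TOPW.R6109.Tp_2.cellP_7_22_6_8 (AllC.cons Pool.Agent.TOPW.R6109.Tp_2.cellP_7_23_6_8 (AllC.cons Pool.Agent.TOPW.R6109.Tp_2.cellP_6_11_6_9 (AllC.cons Pool.Agent.TOPW.R6109.Tp_1.cellP_5_5_5_5 (AllC.cons Pool.Agent.TOPW.R6109.Tp_1.cellP_5_6_5_0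 (AllC.cons Pool.Agent.TOPW.R6109.Tp_1.cellP_5_6_5_1 (AllC.cons Pool.Agent.TOPW.R6109.Tp_2.cellP_6_12_5_2 (AllC.cons Pool.Agent.TOPW.R6109.Tp_2.cellP_6_12_6_6 (AllC.nil))))))))))))))))))))))))))))))))

def LP_1 : List UC := [⟨6, 12, 6, 7⟩, ⟨6, 13, 5, 2⟩, ⟨6, 13, 5, 3⟩, ⟨6, 12, 5, 4⟩, ⟨6, 13, 5, 4⟩, ⟨5, 6, 5, 5⟩, ⟨5, 6, 5, 6⟩, ⟨5, 7, 5, 0⟩, ⟨5, 7, 5, 1⟩, ⟨5, 7, 5, 2⟩, ⟨5, 7, 5, 3⟩, ⟨5, 7, 5, 4⟩, ⟨5, 7, 5, 5⟩, ⟨5, 7, 5, 6⟩, ⟨5, 7, 5, 7⟩, ⟨5, 8, 5, 0⟩, ⟨5, 8, 5, 1⟩, ⟨5, 8, 5, 2⟩, ⟨5, 8, 5, 3⟩, ⟨5, 8, 5, 4⟩, ⟨5, 8, 5, 5⟩, ⟨5, 8, 5, 6⟩, ⟨5, 8, 5, 7⟩, ⟨5, 8, 5, 8⟩, ⟨5, 9, 5, 0⟩, ⟨5, 9, 5, 1⟩, ⟨5, 9, 5, 2⟩, ⟨5, 9, 5, 3⟩, ⟨5, 9, 5, 4⟩, ⟨5, 9, 5, 5⟩, ⟨5, 9, 5, 6⟩, ⟨5, 9, 5, 7⟩]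

theorem aP_1 : AllC (PPc c) LP_1 := AllC.cons Pool.Agent.TOPW.R6109.Tp_2.cellP_6_12_6_7 (AllC.cons Pool.Agent.TOPW.R6109.Tp_2.cellP_6_13_5_2 (AllC.cons Pool.Agent.TOPW.R6109.Tp_2.cellP_6_13_5_3 (AllC.cons Pool.Agent.TOPW.R6109.Tp_2.cellP_6_12_5_4 (AllC.cons Pool.Agent.TOPW.R6109.Tp_2.cellP_6_13_5_4 (AllC.cons Pool.Agent.TOPW.R6109.Tp_1.cellP_5_6_5_5 (AllC.cons Pool.Agent.TOPW.R6109.Tp_1.cellP_5_6_5_6 (AllC.cons Pool.Agent.TOPW.R6109.Tp_1.cellP_5_7_5_0 (AllC.cons Pool.Agent.TOPW.R6109.Tp_1.cellP_5_7_5_1 (AllC.cons Pool.Agent.TOPW.R6109.Tp_1.cellP_5_7_5_2 (AllC.cons Pool.Agent.TOPW.R6109.Tp_1.cellP_5_7_5_3 (AllC.cons Pool.Agent.TOPW.R6109.Tp_1.cellP_5_7_5_4 (AllC.cons Pool.Agent.TOPW.R6109.Tp_1.cellP_5_7_5_5 (AllC.cons Pool.Agent.TOPW.R6109.Tp_1.cellP_5_7_5_6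 (AllC.cons Pool.Agent.TOPW.R6109.Tp_1.cellP_5_7_5_7 (AllC.cons Pool.Agent.TOPW.R6109.Tp_1.cellP_5_8_5_0 (AllC.cons Pool.Agent.TOPW.R6109.Tp_1.cellP_5_8_5_1 (AllC.cons Pool.Agent.TOPW.R6109.Tp_1.cellP_5_8_5_2 (AllC.cons Pool.Agent.TOPW.R6109.Tp_1.cellP_5_8_5_3 (AllC.cons Pool.Agent.TOPW.R6109.Tp_1.cellP_5_8_5_4 (AllC.cons Pool.Agent.TOPW.R6109.Tp_1.cellP_5_8_5_5 (AllC.cons Pool.Agent.TOPW.R6109.Tp_1.cellP_5_8_5_6 (AllC.cons Pool.Agent.TOPW.R6109.Tp_1.cellP_5_8_5_7 (AllC.cons Pool.Agent.TOPW.R6109.Tp_1.cellP_5_8_5_8 (AllC.cons Pool.Agent.TOPW.R6109.Tp_1.cellP_5_9_5_0 (AllC.cons Pool.Agent.TOPW.R6109.Tp_1.cellP_5_9_5_1 (AllC.cons Pool.Agent.TOPW.R6109.Tp_1.cellP_5_9_5_2 (AllC.cons Pool.Agent.TOPW.R6109.Tp_1.cellP_5_9_5_3 (AllC.cons Pool.Agent.TOPW.R6109.Tp_1.cellP_5_9_5_4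 (AllC.cons Pool.Agent.TOPW.R6109.Tp_2.cellP_5_9_5_5 (AllC.cons Pool.Agent.TOPW.R6109.Tp_2.cellP_5_9_5_6 (AllC.cons Pool.Agent.TOPW.R6109.Tp_2.cellP_5_9_5_7 (AllC.nil))))))))))))))))))))))))))))))))

def LP_2 : List UC := [⟨5, 9, 5, 8⟩, ⟨5, 9, 5, 9⟩, ⟨5, 10, 5, 0⟩, ⟨5, 10, 5, 1⟩, ⟨5, 10, 5, 2⟩, ⟨5, 10, 5, 3⟩, ⟨5, 10, 5, 4⟩, ⟨5, 10, 5, 5⟩, ⟨5, 10, 5, 6⟩, ⟨5, 10, 5, 7⟩, ⟨5, 10, 5, 8⟩, ⟨5, 10, 5, 9⟩, ⟨5, 10, 5, 10⟩, ⟨5, 11, 5, 0⟩, ⟨5, 11, 5, 1⟩, ⟨5, 11, 5, 2⟩, ⟨5, 11, 5, 3⟩, ⟨5, 11, 5, 4⟩, ⟨5, 11, 5, 5⟩, ⟨5, 11, 5, 6⟩, ⟨5, 11, 5, 7⟩, ⟨5, 11, 5, 8⟩, ⟨5, 11, 5, 9⟩, ⟨5, 11, 5, 10⟩, ⟨5, 11, 5, 11⟩, ⟨6, 24, 5, 0⟩, ⟨6, 25, 5, 0⟩, ⟨5, 12, 5, 1⟩, ⟨5, 12, 5, 2⟩, ⟨5, 12, 5, 3⟩, ⟨5, 12, 5, 4⟩, ⟨5, 12, 5, 5⟩]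

theorem aP_2 : AllC (PPc c) LP_2 := AllC.cons Pool.Agent.TOPW.R6109.Tp_2.cellP_5_9_5_8 (AllC.cons Pool.Agent.TOPW.R6109.Tp_2.cellP_5_9_5_9 (AllC.cons Pool.Agent.TOPW.R6109.Tp_2.cellP_5_10_5_0 (AllC.cons Pool.Agent.TOPW.R6109.Tp_2.cellP_5_10_5_1 (AllC.cons Pool.Agent.TOPW.R6109.Tp_2.cellP_5_10_5_2 (AllC.cons Pool.Agent.TOPW.R6109.Tp_2.cellP_5_10_5_3 (AllC.cons Pool.Agent.TOPW.R6109.Tp_2.cellP_5_10_5_4 (AllC.cons Pool.Agent.TOPW.R6109.Tp_2.cellP_5_10_5_5 (AllC.cons Pool.Agent.TOPW.R6109.Tp_2.cellP_5_10_5_6 (AllC.cons Pool.Agent.TOPW.R6109.Tp_2.cellP_5_10_5_7 (AllC.cons Pool.Agent.TOPW.R6109.Tp_2.cellP_5_10_5_8 (AllC.cons Pool.Agent.TOPW.R6109.Tp_2.cellP_5_10_5_9 (AllC.cons Pool.Agent.TOPW.R6109.Tp_2.cellP_5_10_5_10 (AllC.cons Pool.Agent.TOPW.R6109.Tp_2.cellP_5_11_5_0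 (AllC.cons Pool.Agent.TOPW.R6109.Tp_2.cellP_5_11_5_1 (AllC.cons Pool.Agent.TOPW.R6109.Tp_2.cellP_5_11_5_2 (AllC.cons Pool.Agent.TOPW.R6109.Tp_2.cellP_5_11_5_3 (AllC.cons Pool.Agent.TOPW.R6109.Tp_2.cellP_5_11_5_4 (AllC.cons Pool.Agent.TOPW.R6109.Tp_2.cellP_5_11_5_5 (AllC.cons Pool.Agent.TOPW.R6109.Tp_2.cellP_5_11_5_6 (AllC.cons Pool.Agent.TOPW.R6109.Tp_2.cellP_5_11_5_7 (AllC.cons Pool.Agent.TOPW.R6109.Tp_2.cellP_5_11_5_8 (AllC.cons Pool.Agent.TOPW.R6109.Tp_2.cellP_5_11_5_9 (AllC.cons Pool.Agent.TOPW.R6109.Tp_2.cellP_5_11_5_10 (AllC.cons Pool.Agent.TOPW.R6109.Tp_2.cellP_5_11_5_11 (AllC.cons Pool.Agent.TOPW.R6109.Tp_2.cellP_6_24_5_0 (AllC.cons Pool.Agent.TOPW.R6109.Tp_2.cellP_6_25_5_0 (AllC.cons Pool.Agent.TOPW.R6109.Tp_2.cellP_5_12_5_1 (AllC.cons Pool.Agent.TOPW.R6109.Tp_2.cellP_5_12_5_2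 (AllC.cons Pool.Agent.TOPW.R6109.Tp_2.cellP_5_12_5_3 (AllC.cons Pool.Agent.TOPW.R6109.Tp_2.cellP_5_12_5_4 (AllC.cons Pool.Agent.TOPW.R6109.Tp_2.cellP_5_12_5_5 (AllC.nil))))))))))))))))))))))))))))))))

def LP_3 : List UC := [⟨5, 12, 5, 6⟩, ⟨5, 12, 5, 7⟩, ⟨5, 12, 5, 8⟩, ⟨5, 12, 5, 9⟩, ⟨5, 12, 5, 10⟩, ⟨6, 26, 5, 0⟩, ⟨5, 13, 5, 1⟩, ⟨5, 13, 5, 2⟩, ⟨5, 13, 5, 3⟩, ⟨5, 13, 5, 4⟩]

theorem aP_3 : AllC (PPc c) LP_3 := AllC.cons Pool.Agent.TOPW.R6109.Tp_2.cellP_5_12_5_6 (AllC.cons Pool.Agent.TOPW.R6109.Tp_2.cellP_5_12_5_7 (AllC.cons Pool.Agent.TOPW.R6109.Tp_2.cellP_5_12_5_8 (AllC.cons Pool.Agent.TOPW.R6109.Tp_2.cellP_5_12_5_9 (AllC.cons Pool.Agent.TOPW.R6109.Tp_2.cellP_5_12_5_10 (AllC.cons Pool.Agent.TOPW.R6109.Tp_2.cellP_6_26_5_0 (AllC.cons Pool.Agent.TOPW.R6109.Tp_2.cellP_5_13_5_1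 (AllC.cons Pool.Agent.TOPW.R6109.Tp_2.cellP_5_13_5_2 (AllC.cons Pool.Agent.TOPW.R6109.Tp_2.cellP_5_13_5_3 (AllC.cons Pool.Agent.TOPW.R6109.Tp_2.cellP_5_13_5_4 (AllC.nil))))))))))

def LLP : List UC := ((LP_0 ++ LP_1) ++ (LP_2 ++ LP_3))

theorem allP : AllC (PPc c) LLP := (AllC.append (AllC.append aP_0 aP_1) (AllC.append aP_2 aP_3))

theorem tokP : TP.ok rootU = true := by decide +kernel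

theorem tlP : TP.leaves rootU = LLP := by decide +kernel

def tM_0 : UT := (UT.cut true (UT.cut true (UT.cut true (UT.cut true (UT.cut false (UT.cut false (UT.cut false (UT.cut false UT.leaf UT.out) UT.out) UT.out) UT.out) (UT.cut false (UT.cut false (UT.cut false (UT.cut false UT.leaf UT.leaf) UT.out) UT.out) UT.out)) (UT.cut true (UT.cut false (UT.cut false (UT.cut false (UT.cut false UT.leaf UT.leaf) (UT.cut false UT.leaf UT.out)) UT.out) UT.out) (UT.cut false (UT.cut false (UT.cut false (UT.cut false UT.leaf UT.leaf) (UT.cut false UT.leaf UT.leaf)) UT.out) UT.out))) (UT.cut true (UT.cut true (UT.cut false (UT.cut false (UT.cut false (UT.cut false UT.leaf UT.leaf) (UT.cut false UT.leaf UT.leaf)) (UT.cut false (UT.cut false UT.leaf UT.out) UT.out)) UT.out)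 (UT.cut false (UT.cut false (UT.cut false (UT.cut false UT.leaf UT.leaf) (UT.cut false UT.leaf UT.leaf)) (UT.cut false (UT.cut false UT.leaf UT.leaf) UT.out)) UT.out)) (UT.cut true (UT.cut false (UT.cut false (UT.cut false (UT.cut false UT.leaf UT.leaf) (UT.cut false UT.leaf UT.leaf)) (UT.cut false (UT.cut false UT.leaf UT.leaf) (UT.cut false UT.leaf UT.out))) UT.out) (UT.cut false (UT.cut false (UT.cut false (UT.cut false UT.leaf UT.leaf) (UT.cut false UT.leaf UT.leaf)) (UT.cut false (UT.cut false UT.leaf UT.leaf) (UT.cut false UT.leaf UT.leaf))) UT.out)))) (UT.cut true (UT.cut true (UT.cut true (UT.cut false (UT.cut false (UT.cut false (UT.cut false UT.leaf UT.leaf) (UT.cut false UT.leaf UT.leaf)) (UT.cut false (UT.cut false UT.leaf UT.leaf) (UT.cut false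 UT.leaf UT.leaf))) (UT.cut false (UT.cut false (UT.cut false UT.leaf UT.out) UT.out) UT.out)) (UT.cut false (UT.cut false (UT.cut false (UT.cut false UT.leaf UT.leaf) (UT.cut false UT.leaf UT.leaf)) (UT.cut false (UT.cut false UT.leaf UT.leaf) (UT.cut false UT.leaf UT.leaf))) (UT.cut false (UT.cut false (UT.cut false UT.leaf UT.leaf) UT.out) UT.out))) (UT.cut true (UT.cut false (UT.cut false (UT.cut false (UT.cut false UT.leaf UT.leaf) (UT.cut false (UT.cut true UT.leaf UT.leaf) UT.leaf)) (UT.cut false (UT.cut false UT.leaf UT.leaf) (UT.cut false UT.leaf UT.leaf))) (UT.cut false (UT.cut false (UT.cut false UT.leaf UT.leaf) (UT.cut false UT.leaf UT.out)) UT.out)) (UT.cut false (UT.cut false (UT.cut false (UT.cut true (UT.cut false UT.leaf UT.leaf) (UT.cut false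 UT.leaf UT.leaf)) (UT.cut false (UT.cut false (UT.cut true UT.leaf UT.leaf) UT.leaf) (UT.cut false UT.leaf UT.leaf))) (UT.cut false (UT.cut false UT.leaf UT.leaf) (UT.cut false UT.leaf UT.leaf))) (UT.cut false (UT.cut false (UT.cut false UT.leaf UT.leaf) (UT.cut false UT.leaf UT.leaf)) UT.out)))) (UT.cut true (UT.cut true (UT.cut false (UT.cut false (UT.cut false (UT.cut true (UT.cut false UT.leaf (UT.cut false UT.leaf UT.leaf)) (UT.cut false (UT.cut false UT.leaf UT.leaf) (UT.cut false UT.leaf UT.leaf))) (UT.cut false (UT.cut true (UT.cut false UT.leaf UT.leaf) (UT.cut false UT.leaf UT.leaf)) UT.leaf)) (UT.cut false (UT.cut false UT.leaf UT.leaf) (UT.cut false UT.leaf UT.leaf))) (UT.cut false (UT.cut false (UT.cut false UT.leaf UT.leaf) (UT.cut false UT.leaf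 UT.out)) UT.out)) (UT.cut false (UT.cut false (UT.cut false (UT.cut true (UT.cut false (UT.cut false UT.leaf UT.leaf) UT.leaf) UT.out) (UT.cut false (UT.cut false UT.leaf (UT.cut true UT.leaf UT.out)) UT.leaf)) (UT.cut false (UT.cut false UT.leaf UT.out) UT.out)) UT.out)) UT.out)))

def TM : UT := tM_0

def LM_0 : List UC := [⟨5, 0, 5, 0⟩, ⟨5, 1, 5, 0⟩, ⟨5, 1, 5, 1⟩, ⟨5, 2, 5, 0⟩, ⟨5, 2, 5, 1⟩, ⟨5, 2, 5, 2⟩, ⟨5, 3, 5, 0⟩, ⟨5, 3, 5, 1⟩, ⟨5, 3, 5, 2⟩, ⟨5, 3, 5, 3⟩, ⟨5, 4, 5, 0⟩, ⟨5, 4, 5, 1⟩, ⟨5, 4, 5, 2⟩, ⟨5, 4, 5, 3⟩, ⟨5, 4, 5, 4⟩, ⟨5, 5, 5, 0⟩, ⟨5, 5, 5, 1⟩, ⟨5, 5, 5, 2⟩, ⟨5, 5, 5, 3⟩, ⟨5, 5, 5, 4⟩, ⟨5, 5, 5, 5⟩, ⟨5, 6, 5, 0⟩, ⟨5, 6, 5, 1⟩, ⟨5, 6, 5, 2⟩, ⟨5, 6, 5, 3⟩, ⟨5, 6, 5, 4⟩, ⟨5, 6, 5, 5⟩, ⟨5, 6, 5, 6⟩, ⟨5, 7, 5, 0⟩, ⟨5, 7, 5, 1⟩, ⟨5, 7, 5, 2⟩, ⟨5, 7,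 5, 3⟩]

theorem aM_0 : AllC (PMc c) LM_0 := AllC.cons Pool.Agent.TOPW.R6109.Tm_1.cellM_5_0_5_0 (AllC.cons Pool.Agent.TOPW.R6109.Tm_1.cellM_5_1_5_0 (AllC.cons Pool.Agent.TOPW.R6109.Tm_1.cellM_5_1_5_1 (AllC.cons Pool.Agent.TOPW.R6109.Tm_1.cellM_5_2_5_0 (AllC.cons Pool.Agent.TOPW.R6109.Tm_1.cellM_5_2_5_1 (AllC.cons Pool.Agent.TOPW.R6109.Tm_1.cellM_5_2_5_2 (AllC.cons Pool.Agent.TOPW.R6109.Tm_1.cellM_5_3_5_0 (AllC.cons Pool.Agent.TOPW.R6109.Tm_1.cellM_5_3_5_1 (AllC.cons Pool.Agent.TOPW.R6109.Tm_1.cellM_5_3_5_2 (AllC.cons Pool.Agent.TOPW.R6109.Tm_1.cellM_5_3_5_3 (AllC.cons Pool.Agent.TOPW.R6109.Tm_1.cellM_5_4_5_0 (AllC.cons Pool.Agent.TOPW.R6109.Tm_1.cellM_5_4_5_1 (AllC.cons Pool.Agent.TOPW.R6109.Tm_1.cellM_5_4_5_2 (AllC.cons Pool.Agent.TOPW.R6109.Tm_1.cellM_5_4_5_3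 (AllC.cons Pool.Agent.TOPW.R6109.Tm_1.cellM_5_4_5_4 (AllC.cons Pool.Agent.TOPW.R6109.Tm_1.cellM_5_5_5_0 (AllC.cons Pool.Agent.TOPW.R6109.Tm_1.cellM_5_5_5_1 (AllC.cons Pool.Agent.TOPW.R6109.Tm_1.cellM_5_5_5_2 (AllC.cons Pool.Agent.TOPW.R6109.Tm_1.cellM_5_5_5_3 (AllC.cons Pool.Agent.TOPW.R6109.Tm_1.cellM_5_5_5_4 (AllC.cons Pool.Agent.TOPW.R6109.Tm_1.cellM_5_5_5_5 (AllC.cons Pool.Agent.TOPW.R6109.Tm_1.cellM_5_6_5_0 (AllC.cons Pool.Agent.TOPW.R6109.Tm_1.cellM_5_6_5_1 (AllC.cons Pool.Agent.TOPW.R6109.Tm_1.cellM_5_6_5_2 (AllC.cons Pool.Agent.TOPW.R6109.Tm_1.cellM_5_6_5_3 (AllC.cons Pool.Agent.TOPW.R6109.Tm_1.cellM_5_6_5_4 (AllC.cons Pool.Agent.TOPW.R6109.Tm_1.cellM_5_6_5_5 (AllC.cons Pool.Agent.TOPW.R6109.Tm_1.cellM_5_6_5_6 (AllC.cons Pool.Agent.TOPW.R6109.Tm_1.cellM_5_7_5_0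 (AllC.cons Pool.Agent.TOPW.R6109.Tm_1.cellM_5_7_5_1 (AllC.cons Pool.Agent.TOPW.R6109.Tm_1.cellM_5_7_5_2 (AllC.cons Pool.Agent.TOPW.R6109.Tm_1.cellM_5_7_5_3 (AllC.nil))))))))))))))))))))))))))))))))

def LM_1 : List UC := [⟨5, 7, 5, 4⟩, ⟨5, 7, 5, 5⟩, ⟨5, 7, 5, 6⟩, ⟨5, 7, 5, 7⟩, ⟨5, 8, 5, 0⟩, ⟨5, 8, 5, 1⟩, ⟨5, 8, 5, 2⟩, ⟨5, 8, 5, 3⟩, ⟨5, 8, 5, 4⟩, ⟨5, 8, 5, 5⟩, ⟨5, 8, 5, 6⟩, ⟨5, 8, 5, 7⟩, ⟨5, 8, 5, 8⟩, ⟨5, 9, 5, 0⟩, ⟨5, 9, 5, 1⟩, ⟨5, 9, 5, 2⟩, ⟨5, 9, 5, 3⟩, ⟨5, 9, 5, 4⟩, ⟨5, 9, 5, 5⟩, ⟨5, 9, 5, 6⟩, ⟨5, 9, 5, 7⟩, ⟨5, 9, 5, 8⟩, ⟨5, 9, 5, 9⟩, ⟨5, 10, 5, 0⟩, ⟨5, 10, 5, 1⟩, ⟨6, 20, 5, 2⟩, ⟨6, 21, 5, 2⟩, ⟨5, 10, 5, 3⟩, ⟨5, 10, 5, 4⟩, ⟨5, 10, 5, 5⟩, ⟨5, 10, 5, 6⟩, ⟨5, 10, 5, 7⟩]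

theorem aM_1 : AllC (PMc c) LM_1 := AllC.cons Pool.Agent.TOPW.R6109.Tm_1.cellM_5_7_5_4 (AllC.cons Pool.Agent.TOPW.R6109.Tm_1.cellM_5_7_5_5 (AllC.cons Pool.Agent.TOPW.R6109.Tm_1.cellM_5_7_5_6 (AllC.cons Pool.Agent.TOPW.R6109.Tm_2.cellM_5_7_5_7 (AllC.cons Pool.Agent.TOPW.R6109.Tm_2.cellM_5_8_5_0 (AllC.cons Pool.Agent.TOPW.R6109.Tm_2.cellM_5_8_5_1 (AllC.cons Pool.Agent.TOPW.R6109.Tm_2.cellM_5_8_5_2 (AllC.cons Pool.Agent.TOPW.R6109.Tm_2.cellM_5_8_5_3 (AllC.cons Pool.Agent.TOPW.R6109.Tm_2.cellM_5_8_5_4 (AllC.cons Pool.Agent.TOPW.R6109.Tm_2.cellM_5_8_5_5 (AllC.cons Pool.Agent.TOPW.R6109.Tm_2.cellM_5_8_5_6 (AllC.cons Pool.Agent.TOPW.R6109.Tm_2.cellM_5_8_5_7 (AllC.cons Pool.Agent.TOPW.R6109.Tm_2.cellM_5_8_5_8 (AllC.cons Pool.Agent.TOPW.R6109.Tm_2.cellM_5_9_5_0 (AllC.cons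 Pool.Agent.TOPW.R6109.Tm_2.cellM_5_9_5_1 (AllC.cons Pool.Agent.TOPW.R6109.Tm_2.cellM_5_9_5_2 (AllC.cons Pool.Agent.TOPW.R6109.Tm_2.cellM_5_9_5_3 (AllC.cons Pool.Agent.TOPW.R6109.Tm_2.cellM_5_9_5_4 (AllC.cons Pool.Agent.TOPW.R6109.Tm_2.cellM_5_9_5_5 (AllC.cons Pool.Agent.TOPW.R6109.Tm_2.cellM_5_9_5_6 (AllC.cons Pool.Agent.TOPW.R6109.Tm_2.cellM_5_9_5_7 (AllC.cons Pool.Agent.TOPW.R6109.Tm_2.cellM_5_9_5_8 (AllC.cons Pool.Agent.TOPW.R6109.Tm_2.cellM_5_9_5_9 (AllC.cons Pool.Agent.TOPW.R6109.Tm_2.cellM_5_10_5_0 (AllC.cons Pool.Agent.TOPW.R6109.Tm_2.cellM_5_10_5_1 (AllC.cons Pool.Agent.TOPW.R6109.Tm_3.cellM_6_20_5_2 (AllC.cons Pool.Agent.TOPW.R6109.Tm_3.cellM_6_21_5_2 (AllC.cons Pool.Agent.TOPW.R6109.Tm_2.cellM_5_10_5_3 (AllC.cons Pool.Agent.TOPW.R6109.Tm_2.cellM_5_10_5_4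 (AllC.cons Pool.Agent.TOPW.R6109.Tm_2.cellM_5_10_5_5 (AllC.cons Pool.Agent.TOPW.R6109.Tm_2.cellM_5_10_5_6 (AllC.cons Pool.Agent.TOPW.R6109.Tm_2.cellM_5_10_5_7 (AllC.nil))))))))))))))))))))))))))))))))

def LM_2 : List UC := [⟨5, 10, 5, 8⟩, ⟨5, 10, 5, 9⟩, ⟨5, 10, 5, 10⟩, ⟨6, 22, 5, 0⟩, ⟨6, 22, 5, 1⟩, ⟨6, 23, 5, 0⟩, ⟨6, 23, 5, 1⟩, ⟨6, 22, 6, 4⟩, ⟨6, 23, 6, 4⟩, ⟨5, 11, 6, 5⟩, ⟨5, 11, 6, 6⟩, ⟨5, 11, 6, 7⟩, ⟨5, 11, 5, 4⟩, ⟨5, 11, 5, 5⟩, ⟨5, 11, 5, 6⟩, ⟨5, 11, 5, 7⟩, ⟨5, 11, 5, 8⟩, ⟨5, 11, 5, 9⟩, ⟨5, 11, 5, 10⟩, ⟨5, 11, 5, 11⟩, ⟨6, 24, 5, 0⟩, ⟨6, 24, 6, 2⟩, ⟨6, 24, 6, 3⟩, ⟨6, 25, 6, 0⟩, ⟨6, 25, 6, 1⟩, ⟨6, 25, 6, 2⟩, ⟨6, 25, 6, 3⟩, ⟨6, 24, 6, 4⟩, ⟨6, 24, 6, 5⟩, ⟨6, 25, 6, 4⟩, ⟨6, 25, 6, 5⟩, ⟨5, 12, 5, 3⟩]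

theorem aM_2 : AllC (PMc c) LM_2 := AllC.cons Pool.Agent.TOPW.R6109.Tm_2.cellM_5_10_5_8 (AllC.cons Pool.Agent.TOPW.R6109.Tm_2.cellM_5_10_5_9 (AllC.cons Pool.Agent.TOPW.R6109.Tm_2.cellM_5_10_5_10 (AllC.cons Pool.Agent.TOPW.R6109.Tm_3.cellM_6_22_5_0 (AllC.cons Pool.Agent.TOPW.R6109.Tm_3.cellM_6_22_5_1 (AllC.cons Pool.Agent.TOPW.R6109.Tm_3.cellM_6_23_5_0 (AllC.cons Pool.Agent.TOPW.R6109.Tm_3.cellM_6_23_5_1 (AllC.cons Pool.Agent.TOPW.R6109.Tm_3.cellM_6_22_6_4 (AllC.cons Pool.Agent.TOPW.R6109.Tm_4.cellM_6_23_6_4 (AllC.cons Pool.Agent.TOPW.R6109.Tm_3.cellM_5_11_6_5 (AllC.cons Pool.Agent.TOPW.R6109.Tm_3.cellM_5_11_6_6 (AllC.cons Pool.Agent.TOPW.R6109.Tm_3.cellM_5_11_6_7 (AllC.cons Pool.Agent.TOPW.R6109.Tm_2.cellM_5_11_5_4 (AllC.cons Pool.Agent.TOPW.R6109.Tm_2.cellM_5_11_5_5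 (AllC.cons Pool.Agent.TOPW.R6109.Tm_2.cellM_5_11_5_6 (AllC.cons Pool.Agent.TOPW.R6109.Tm_3.cellM_5_11_5_7 (AllC.cons Pool.Agent.TOPW.R6109.Tm_3.cellM_5_11_5_8 (AllC.cons Pool.Agent.TOPW.R6109.Tm_3.cellM_5_11_5_9 (AllC.cons Pool.Agent.TOPW.R6109.Tm_3.cellM_5_11_5_10 (AllC.cons Pool.Agent.TOPW.R6109.Tm_3.cellM_5_11_5_11 (AllC.cons Pool.Agent.TOPW.R6109.Tm_4.cellM_6_24_5_0 (AllC.cons Pool.Agent.TOPW.R6109.Tm_4.cellM_6_24_6_2 (AllC.cons Pool.Agent.TOPW.R6109.Tm_4.cellM_6_24_6_3 (AllC.cons Pool.Agent.TOPW.R6109.Tm_4.cellM_6_25_6_0 (AllC.cons Pool.Agent.TOPW.R6109.Tm_4.cellM_6_25_6_1 (AllC.cons Pool.Agent.TOPW.R6109.Tm_4.cellM_6_25_6_2 (AllC.cons Pool.Agent.TOPW.R6109.Tm_4.cellM_6_25_6_3 (AllC.cons Pool.Agent.TOPW.R6109.Tm_4.cellM_6_24_6_4 (AllC.cons Pool.Agent.TOPW.R6109.Tm_4.cellM_6_24_6_5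 (AllC.cons Pool.Agent.TOPW.R6109.Tm_4.cellM_6_25_6_4 (AllC.cons Pool.Agent.TOPW.R6109.Tm_4.cellM_6_25_6_5 (AllC.cons Pool.Agent.TOPW.R6109.Tm_3.cellM_5_12_5_3 (AllC.nil))))))))))))))))))))))))))))))))

def LM_3 : List UC := [⟨5, 12, 5, 4⟩, ⟨5, 12, 5, 5⟩, ⟨5, 12, 5, 6⟩, ⟨5, 12, 5, 7⟩, ⟨5, 12, 5, 8⟩, ⟨5, 12, 5, 9⟩, ⟨5, 12, 5, 10⟩, ⟨6, 26, 6, 0⟩, ⟨6, 26, 6, 1⟩, ⟨6, 26, 5, 1⟩, ⟨5, 13, 6, 4⟩, ⟨6, 26, 6, 5⟩, ⟨5, 13, 5, 3⟩, ⟨5, 13, 5, 4⟩]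

theorem aM_3 : AllC (PMc c) LM_3 := AllC.cons Pool.Agent.TOPW.R6109.Tm_3.cellM_5_12_5_4 (AllC.cons Pool.Agent.TOPW.R6109.Tm_3.cellM_5_12_5_5 (AllC.cons Pool.Agent.TOPW.R6109.Tm_3.cellM_5_12_5_6 (AllC.cons Pool.Agent.TOPW.R6109.Tm_3.cellM_5_12_5_7 (AllC.cons Pool.Agent.TOPW.R6109.Tm_3.cellM_5_12_5_8 (AllC.cons Pool.Agent.TOPW.R6109.Tm_3.cellM_5_12_5_9 (AllC.cons Pool.Agent.TOPW.R6109.Tm_3.cellM_5_12_5_10 (AllC.cons Pool.Agent.TOPW.R6109.Tm_4.cellM_6_26_6_0 (AllC.cons Pool.Agent.TOPW.R6109.Tm_4.cellM_6_26_6_1 (AllC.cons Pool.Agent.TOPW.R6109.Tm_4.cellM_6_26_5_1 (AllC.cons Pool.Agent.TOPW.R6109.Tm_3.cellM_5_13_6_4 (AllC.cons Pool.Agent.TOPW.R6109.Tm_4.cellM_6_26_6_5 (AllC.cons Pool.Agent.TOPW.R6109.Tm_3.cellM_5_13_5_3 (AllC.cons Pool.Agent.TOPW.R6109.Tm_3.cellM_5_13_5_4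 (AllC.nil))))))))))))))

def LLM : List UC := ((LM_0 ++ LM_1) ++ (LM_2 ++ LM_3))

theorem allM : AllC (PMc c) LLM := (AllC.append (AllC.append aM_0 aM_1) (AllC.append aM_2 aM_3))

theorem tokM : TM.ok rootU = true := by decide +kernel

theorem tlM : TM.leaves rootU = LLM := by decide +kernel

theorem rok : rootOK c = true := by decide +kernel

theorem aff (u p : Helper80.CW.DL.V3) (hu : u.1 ^ 2 + u.2.1 ^ 2 + u.2.2 ^ 2 = 1) (h3 : 0 ≤ u.2.2)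
    (h2 : u.2.2 ≤ u.2.1) (h1 : u.2.1 ≤ u.1) : c.AffS u p :=
  affS_all3 rok TS TP TM LLS LLP LLM tokS tlS allS tokP tlP allP tokM tlM allM u p hu h3 h2 h1

theorem okB' : Pool.Agent.Helper64.TOP.okB c 6108999 6113501 10000000 182220 1000000000000 = true := by decide +kernel

/-- **the range** -/
theorem top : Top 0.6109 0.61135 :=
  Pool.Agent.Helper64.TOP.top_rg okB' (by norm_num) (by norm_num) aff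

end Pool.Agent.TOPR.R6109.Inst
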