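import Pool.Agent.Helper6.TOP.Br2

set_option autoImplicit false
set_option linter.all false
set_option maxRecDepth 100000

namespace Pool.Agent.TOPR.R6109

open Helper10.PC hiding V3
open Helper80.CW.DL Pool.Agent.Helper6.TOP

/-- `p` scaled by `2 ^ mu`, degree in `p` at most `dp`, degree in `u` at most `Kd` -/
def mu : ℕ := 12
def dp : ℕ := 6
def Kd : ℕ := 11

/-- exponents of `u` -/
def AL : List Al := [(0, 0, 0), (0, 0, 2), (0, 0, 5), (0, 0, 6), (0, 0, 7), (0, 0, 8), (0, 0, 9), (0, 0, 10), (0, 0, 11), (0, 1, 1), (0, 1, 4), (0, 1, 5), (0, 1, 6), (0, 1, 7), (0, 1, 8), (0, 1, 9), (0, 1, 10), (0, 2, 0), (0, 2, 3), (0, 2, 4), (0, 2, 5), (0, 2, 6), (0, 2, 7), (0, 2, 8), (0, 2, 9), (0, 3, 2), (0, 3, 3), (0, 3, 4), (0, 3, 5), (0, 3, 6), (0, 3, 7), (0, 3, 8), (0, 4, 1), (0, 4, 2), (0, 4, 3), (0, 4, 4), (0, 4, 5), (0, 4, 6), (0, 4, 7), (0, 5, 0), (0, 5, 1), (0, 5, 2), (0, 5, 3), (0, 5, 4), (0, 5, 5), (0, 5, 6), (0, 6, 0), (0, 6, 1), (0, 6, 2), (0, 6, 3),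 (0, 6, 4), (0, 6, 5), (0, 7, 0), (0, 7, 1), (0, 7, 2), (0, 7, 3), (0, 7, 4), (0, 8, 0), (0, 8, 1), (0, 8, 2), (0, 8, 3), (0, 9, 0), (0, 9, 1), (0, 9, 2), (0, 10, 0), (0, 10, 1), (0, 11, 0), (1, 0, 4), (1, 0, 5), (1, 0, 6), (1, 0, 7), (1, 0, 8), (1, 0, 9), (1, 0, 10), (1, 1, 3), (1, 1, 4), (1, 1, 5), (1, 1, 6), (1, 1, 7), (1, 1, 8), (1, 1, 9), (1, 2, 2), (1, 2, 3), (1, 2, 4), (1, 2, 5), (1, 2, 6), (1, 2, 7), (1, 2, 8), (1, 3, 1), (1, 3, 2), (1, 3, 3), (1, 3, 4), (1, 3, 5), (1, 3, 6), (1, 3, 7), (1, 4, 0), (1, 4, 1), (1, 4, 2), (1, 4, 3), (1, 4, 4), (1, 4, 5), (1, 4, 6), (1, 5, 0), (1, 5, 1), (1, 5, 2), (1, 5, 3), (1, 5, 4), (1, 5, 5), (1, 6, 0), (1, 6, 1), (1, 6, 2), (1, 6, 3), (1, 6, 4), (1, 7, 0), (1, 7, 1), (1, 7, 2), (1, 7, 3), (1, 8, 0), (1, 8, 1), (1, 8, 2), (1, 9, 0), (1, 9, 1), (1, 10, 0), (2, 0, 0), (2, 0, 3), (2, 0, 4), (2, 0, 5), (2, 0, 6), (2, 0, 7), (2, 0, 8), (2, 0, 9), (2, 1, 2), (2, 1, 3), (2, 1, 4), (2, 1, 5), (2, 1, 6), (2, 1, 7),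 (2, 1, 8), (2, 2, 1), (2, 2, 2), (2, 2, 3), (2, 2, 4), (2, 2, 5), (2, 2, 6), (2, 2, 7), (2, 3, 0), (2, 3, 1), (2, 3, 2), (2, 3, 3), (2, 3, 4), (2, 3, 5), (2, 3, 6), (2, 4, 0), (2, 4, 1), (2, 4, 2), (2, 4, 3), (2, 4, 4), (2, 4, 5), (2, 5, 0), (2, 5, 1), (2, 5, 2), (2, 5, 3), (2, 5, 4), (2, 6, 0), (2, 6, 1), (2, 6, 2), (2, 6, 3), (2, 7, 0), (2, 7, 1), (2, 7, 2), (2, 8, 0), (2, 8, 1), (2, 9, 0), (3, 0, 2), (3, 0, 3), (3, 0, 4), (3, 0, 5), (3, 0, 6), (3, 0, 7), (3, 0, 8), (3, 1, 1), (3, 1, 2), (3, 1, 3), (3, 1, 4), (3, 1, 5), (3, 1, 6), (3, 1, 7), (3, 2, 0), (3, 2, 1), (3, 2, 2), (3, 2, 3), (3, 2, 4), (3, 2, 5), (3, 2, 6), (3, 3, 0), (3, 3, 1), (3, 3, 2), (3, 3, 3), (3, 3, 4), (3, 3, 5), (3, 4, 0), (3, 4, 1), (3, 4, 2), (3, 4, 3), (3, 4, 4), (3, 5, 0), (3, 5, 1), (3, 5, 2), (3, 5, 3), (3, 6, 0), (3, 6, 1), (3, 6, 2), (3, 7, 0), (3, 7, 1), (3, 8, 0), (4, 0, 1), (4, 0, 2), (4, 0, 3), (4, 0, 4), (4, 0, 5), (4, 0, 6), (4, 0, 7), (4, 1, 0), (4, 1, 1), (4,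 1, 2), (4, 1, 3), (4, 1, 4), (4, 1, 5), (4, 1, 6), (4, 2, 0), (4, 2, 1), (4, 2, 2), (4, 2, 3), (4, 2, 4), (4, 2, 5), (4, 3, 0), (4, 3, 1), (4, 3, 2), (4, 3, 3), (4, 3, 4), (4, 4, 0), (4, 4, 1), (4, 4, 2), (4, 4, 3), (4, 5, 0), (4, 5, 1), (4, 5, 2), (4, 6, 0), (4, 6, 1), (4, 7, 0), (5, 0, 0), (5, 0, 1), (5, 0, 2), (5, 0, 3), (5, 0, 4), (5, 0, 5), (5, 0, 6), (5, 1, 0), (5, 1, 1), (5, 1, 2), (5, 1, 3), (5, 1, 4), (5, 1, 5), (5, 2, 0), (5, 2, 1), (5, 2, 2), (5, 2, 3), (5, 2, 4), (5, 3, 0), (5, 3, 1), (5, 3, 2), (5, 3, 3), (5, 4, 0), (5, 4, 1), (5, 4, 2), (5, 5, 0), (5, 5, 1), (5, 6, 0), (6, 0, 0), (6, 0, 1), (6, 0, 2), (6, 0, 3), (6, 0, 4), (6, 0, 5), (6, 1, 0), (6, 1, 1), (6, 1, 2), (6, 1, 3), (6, 1, 4), (6, 2, 0), (6, 2, 1), (6, 2, 2), (6, 2, 3), (6, 3, 0), (6, 3, 1), (6, 3, 2), (6, 4, 0), (6, 4, 1), (6, 5, 0), (7, 0, 0), (7, 0, 1), (7, 0, 2), (7, 0, 3), (7, 0, 4), (7, 1, 0), (7, 1, 1), (7, 1, 2), (7, 1, 3), (7, 2, 0), (7, 2, 1), (7, 2, 2), (7, 3,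 0), (7, 3, 1), (7, 4, 0), (8, 0, 0), (8, 0, 1), (8, 0, 2), (8, 0, 3), (8, 1, 0), (8, 1, 1), (8, 1, 2), (8, 2, 0), (8, 2, 1), (8, 3, 0), (9, 0, 0), (9, 0, 1), (9, 0, 2), (9, 1, 0), (9, 1, 1), (9, 2, 0), (10, 0, 0), (10, 0, 1), (10, 1, 0), (11, 0, 0)]


def lQp_0 : List (T ℤ) := [(P (nat_lit 5034231565398356583608483840000)), (P (nat_lit 0)), (T.h (T.h (T.h (P (nat_lit 0)) (T.h (P (nat_lit 10017191180407088564301463552)) (T.h (P (nat_lit 0)) (T.h (M (nat_lit 2249542807684005232639)) (T.h (P (nat_lit 0)) (P (nat_lit 2442926698725376))))))) (T.h (P (nat_lit 0)) (T.h (T.h (P (nat_lit 0)) (T.h (P (nat_lit 25151176110106820476928)) (T.h (P (nat_lit 0)) (M (nat_lit 17031200713637887))))) (T.h (P (nat_lit 0)) (T.h (T.h (P (nat_lit 0)) (P (nat_lit 24686970010140672))) (P (nat_lit 0))))))) (T.h (T.h (P (nat_lit 0)) (T.h (T.h (M (nat_lit 868305541875677324640255)) (T.h (P (nat_lit 0)) (T.h (P (nat_lit 97397380587978752)) (T.h (P (nat_lit 0)) (M (nat_lit 24380342005103))))))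 (T.h (P (nat_lit 0)) (T.h (T.h (M (nat_lit 38366446287021146111)) (T.h (P (nat_lit 0)) (P (nat_lit 28156273543704)))) (T.h (P (nat_lit 0)) (M (nat_lit 13573732110455))))))) (T.h (T.h (T.h (P (nat_lit 0)) (T.h (P (nat_lit 25151176110106820476928)) (T.h (P (nat_lit 0)) (M (nat_lit 17031200713637887))))) (T.h (P (nat_lit 0)) (T.h (T.h (P (nat_lit 0)) (P (nat_lit 8153435818164224))) (P (nat_lit 0))))) (T.h (T.h (P (nat_lit 0)) (T.h (T.h (M (nat_lit 38366446287021146111)) (T.h (P (nat_lit 0)) (P (nat_lit 28156273543704)))) (T.h (P (nat_lit 0)) (M (nat_lit 82900738593679))))) (T.h (T.h (T.h (P (nat_lit 0)) (P (nat_lit 24686970010140672))) (P (nat_lit 0))) (T.h (T.h (P (nat_lit 0)) (M (nat_lit 13573732110455))) (P (nat_lit 0)))))))), (T.h (T.h (T.h (P (nat_lit 99726052038256347958477034881024)) (T.h (P (nat_lit 0)) (T.h (M (nat_lit 12917193599314809325617151)) (T.h (P (nat_lit 0)) (T.h (P (nat_lit 21631471958110502912)) (T.h (P (nat_lit 0)) (P (nat_lit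 2914549128000)))))))) (T.h (P (nat_lit 0)) (T.h (T.h (P (nat_lit 12879479387556197198462976)) (T.h (P (nat_lit 0)) (T.h (M (nat_lit 43050933782990290943)) (T.h (P (nat_lit 0)) (P (nat_lit 20467126355184)))))) (T.h (P (nat_lit 0)) (T.h (T.h (P (nat_lit 19390578843768061952)) (T.h (P (nat_lit 0)) (M (nat_lit 104478078703183)))) (T.h (P (nat_lit 0)) (P (nat_lit 56203593949792)))))))) (T.h (T.h (P (nat_lit 0)) (T.h (T.h (P (nat_lit 0)) (T.h (P (nat_lit 25414173094073549717504)) (T.h (P (nat_lit 0)) (M (nat_lit 77076485201985535))))) (T.h (P (nat_lit 0)) (T.h (T.h (P (nat_lit 0)) (P (nat_lit 85390695730020352))) (P (nat_lit 0)))))) (T.h (T.h (T.h (P (nat_lit 12879479387556197198462976)) (T.h (P (nat_lit 0)) (T.h (M (nat_lit 43050933782990290943)) (T.h (P (nat_lit 0)) (P (nat_lit 20467126355184)))))) (T.h (P (nat_lit 0)) (T.h (T.h (M (nat_lit 163569657816085954559)) (T.h (P (nat_lit 0)) (P (nat_lit 5095877684832)))) (T.h (P (nat_lit 0)) (M (nat_lit 373272336818415))))))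 (T.h (T.h (P (nat_lit 0)) (T.h (T.h (P (nat_lit 0)) (P (nat_lit 85390695730020352))) (P (nat_lit 0)))) (T.h (T.h (T.h (P (nat_lit 19390578843768061952)) (T.h (P (nat_lit 0)) (M (nat_lit 104478078703183)))) (T.h (P (nat_lit 0)) (M (nat_lit 373272336818415)))) (T.h (P (nat_lit 0)) (P (nat_lit 56203593949792)))))))), (T.h (T.h (T.h (P (nat_lit 0)) (T.h (M (nat_lit 15398477962580553354767761407)) (T.h (P (nat_lit 0)) (T.h (P (nat_lit 15035128725152324386816)) (T.h (P (nat_lit 0)) (M (nat_lit 2436278359752703))))))) (T.h (P (nat_lit 0)) (T.h (T.h (P (nat_lit 0)) (T.h (M (nat_lit 34570120424241787568127)) (T.h (P (nat_lit 0)) (P (nat_lit 32946150440730624))))) (T.h (P (nat_lit 0)) (T.h (T.h (P (nat_lit 0)) (M (nat_lit 73782082795405311))) (P (nat_lit 0))))))) (T.h (T.h (P (nat_lit 0)) (T.h (T.h (P (nat_lit 6529010842166020662099968)) (T.h (P (nat_lit 0)) (T.h (M (nat_lit 13935718119319273471)) (T.h (P (nat_lit 0)) (P (nat_lit 53358334410624)))))) (T.h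 (P (nat_lit 0)) (T.h (T.h (P (nat_lit 52608712282749272064)) (T.h (P (nat_lit 0)) (M (nat_lit 43662999342143)))) (T.h (P (nat_lit 0)) (P (nat_lit 15377323687936))))))) (T.h (T.h (T.h (P (nat_lit 0)) (T.h (M (nat_lit 34570120424241787568127)) (T.h (P (nat_lit 0)) (P (nat_lit 32946150440730624))))) (T.h (P (nat_lit 0)) (T.h (T.h (P (nat_lit 0)) (M (nat_lit 1586111751258111))) (P (nat_lit 0))))) (T.h (T.h (P (nat_lit 0)) (T.h (T.h (P (nat_lit 52608712282749272064)) (T.h (P (nat_lit 0)) (M (nat_lit 43662999342143)))) (T.h (P (nat_lit 0)) (P (nat_lit 80852307497216))))) (T.h (T.h (T.h (P (nat_lit 0)) (M (nat_lit 73782082795405311))) (P (nat_lit 0))) (T.h (T.h (P (nat_lit 0)) (P (nat_lit 15377323687936))) (P (nat_lit 0)))))))), (T.h (T.h (T.h (M (nat_lit 104756641487949524293953746108415)) (T.h (P (nat_lit 0)) (T.h (P (nat_lit 12972378171370217360326656)) (T.h (P (nat_lit 0)) (T.h (M (nat_lit 21943154770180046847)) (T.h (P (nat_lit 0)) (M (nat_lit 1776113164223))))))))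 (T.h (P (nat_lit 0)) (T.h (T.h (M (nat_lit 12700455064882736074326015)) (T.h (P (nat_lit 0)) (T.h (P (nat_lit 41641252604608512000)) (T.h (P (nat_lit 0)) (M (nat_lit 20140321589711)))))) (T.h (P (nat_lit 0)) (T.h (T.h (M (nat_lit 19312137227118575615)) (T.h (P (nat_lit 0)) (P (nat_lit 101867935691088)))) (T.h (P (nat_lit 0)) (M (nat_lit 56803544022671)))))))) (T.h (T.h (P (nat_lit 0)) (T.h (T.h (P (nat_lit 0)) (T.h (M (nat_lit 21864202026945664253951)) (T.h (P (nat_lit 0)) (P (nat_lit 70499875456942080))))) (T.h (P (nat_lit 0)) (T.h (T.h (P (nat_lit 0)) (M (nat_lit 86681298974244863))) (P (nat_lit 0)))))) (T.h (T.h (T.h (M (nat_lit 12700455064882736074326015)) (T.h (P (nat_lit 0)) (T.h (P (nat_lit 41641252604608512000)) (T.h (P (nat_lit 0)) (M (nat_lit 20140321589711)))))) (T.h (P (nat_lit 0)) (T.h (T.h (P (nat_lit 165826099962076725248)) (T.h (P (nat_lit 0)) (P (nat_lit 911442555360)))) (T.h (P (nat_lit 0)) (P (nat_lit 372699232900704)))))) (T.h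 (T.h (P (nat_lit 0)) (T.h (T.h (P (nat_lit 0)) (M (nat_lit 86681298974244863))) (P (nat_lit 0)))) (T.h (T.h (T.h (M (nat_lit 19312137227118575615)) (T.h (P (nat_lit 0)) (P (nat_lit 101867935691088)))) (T.h (P (nat_lit 0)) (P (nat_lit 372699232900704)))) (T.h (P (nat_lit 0)) (M (nat_lit 56803544022671)))))))), (T.h (T.h (T.h (P (nat_lit 0)) (T.h (P (nat_lit 5327367447308101761250623488)) (T.h (P (nat_lit 0)) (T.h (M (nat_lit 11388161166645179449343)) (T.h (P (nat_lit 0)) (M (nat_lit 2424986506887167))))))) (T.h (P (nat_lit 0)) (T.h (T.h (P (nat_lit 0)) (T.h (P (nat_lit 10353613219124626849792)) (T.h (P (nat_lit 0)) (M (nat_lit 18332168273657855))))) (T.h (P (nat_lit 0)) (T.h (T.h (P (nat_lit 0)) (P (nat_lit 46361229398966272))) (P (nat_lit 0))))))) (T.h (T.h (P (nat_lit 0)) (T.h (T.h (M (nat_lit 5308504745692747890950143)) (T.h (P (nat_lit 0)) (P (nat_lit 10827735736636145664)))) (T.h (P (nat_lit 0)) (M (nat_lit 14637703011229499391))))) (T.h (T.h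 (T.h (P (nat_lit 0)) (T.h (P (nat_lit 10353613219124626849792)) (T.h (P (nat_lit 0)) (M (nat_lit 18332168273657855))))) (T.h (P (nat_lit 0)) (T.h (T.h (P (nat_lit 0)) (P (nat_lit 414807634083840))) (P (nat_lit 0))))) (T.h (T.h (P (nat_lit 0)) (M (nat_lit 14637703011229499391))) (T.h (T.h (T.h (P (nat_lit 0)) (P (nat_lit 46361229398966272))) (P (nat_lit 0))) (P (nat_lit 0))))))), (P (nat_lit 0))]
def lQp_1 : List (T ℤ) := [(P (nat_lit 0)), (P (nat_lit 0)), (T.h (T.h (P (nat_lit 0)) (T.h (T.h (P (nat_lit 1336912724198935606375481344)) (T.h (P (nat_lit 0)) (T.h (P (nat_lit 14528311290590639685632)) (T.h (P (nat_lit 0)) (P (nat_lit 1098191121285120)))))) (T.h (P (nat_lit 0)) (T.h (T.h (M (nat_lit 16607238043340504039423)) (T.h (P (nat_lit 0)) (M (nat_lit 31286343396327423)))) (T.h (P (nat_lit 0)) (M (nat_lit 14287706602635263))))))) (T.h (T.h (T.h (P (nat_lit 0)) (T.h (P (nat_lit 7711323027092271844556800)) (T.h (P (nat_lit 0)) (T.h (M (nat_lit 1941185707053678591))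 (T.h (P (nat_lit 0)) (M (nat_lit 10067002337967))))))) (T.h (P (nat_lit 0)) (T.h (T.h (P (nat_lit 0)) (T.h (P (nat_lit 16284901690493108224)) (T.h (P (nat_lit 0)) (P (nat_lit 12711245874064))))) (T.h (P (nat_lit 0)) (T.h (T.h (P (nat_lit 0)) (P (nat_lit 20176616691848))) (P (nat_lit 0))))))) (T.h (T.h (P (nat_lit 0)) (T.h (T.h (M (nat_lit 9934466073729626537983)) (T.h (P (nat_lit 0)) (M (nat_lit 17872552192311295)))) (T.h (P (nat_lit 0)) (M (nat_lit 32654557935075327))))) (T.h (T.h (T.h (P (nat_lit 0)) (T.h (P (nat_lit 17975258696120270848)) (T.h (P (nat_lit 0)) (M (nat_lit 13950046079655))))) (T.h (P (nat_lit 0)) (T.h (T.h (P (nat_lit 0)) (M (nat_lit 18669837897143))) (P (nat_lit 0))))) (T.h (T.h (P (nat_lit 0)) (M (nat_lit 1253650768494591))) (T.h (T.h (T.h (P (nat_lit 0)) (P (nat_lit 19714268702256))) (P (nat_lit 0))) (P (nat_lit 0)))))))), (T.h (T.h (P (nat_lit 0)) (T.h (T.h (P (nat_lit 0)) (T.h (P (nat_lit 26738224194884310258417664)) (T.h (P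 (nat_lit 0)) (T.h (P (nat_lit 10879051756713541632)) (T.h (P (nat_lit 0)) (M (nat_lit 14450944174591))))))) (T.h (P (nat_lit 0)) (T.h (T.h (P (nat_lit 0)) (T.h (P (nat_lit 7431377113195741184)) (T.h (P (nat_lit 0)) (P (nat_lit 6020971354256))))) (T.h (P (nat_lit 0)) (T.h (T.h (P (nat_lit 0)) (P (nat_lit 40339979884256))) (P (nat_lit 0)))))))) (T.h (T.h (T.h (P (nat_lit 23735099046155115220969717760)) (T.h (P (nat_lit 0)) (T.h (P (nat_lit 13919576347252589854720)) (T.h (P (nat_lit 0)) (M (nat_lit 42531209117253631)))))) (T.h (P (nat_lit 0)) (T.h (T.h (M (nat_lit 79357771058813610229759)) (T.h (P (nat_lit 0)) (P (nat_lit 14821950289199104)))) (T.h (P (nat_lit 0)) (M (nat_lit 112594984012251135)))))) (T.h (T.h (P (nat_lit 0)) (T.h (T.h (P (nat_lit 0)) (T.h (M (nat_lit 1972893016427331583)) (T.h (P (nat_lit 0)) (M (nat_lit 4144068559599))))) (T.h (P (nat_lit 0)) (T.h (T.h (P (nat_lit 0)) (P (nat_lit 1500860940832))) (P (nat_lit 0)))))) (T.h (T.h (T.h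 (P (nat_lit 2222835744462361067520)) (T.h (P (nat_lit 0)) (M (nat_lit 57975825390141439)))) (T.h (P (nat_lit 0)) (M (nat_lit 192391894413017087)))) (T.h (T.h (P (nat_lit 0)) (T.h (T.h (P (nat_lit 0)) (P (nat_lit 50708355223312))) (P (nat_lit 0)))) (P (nat_lit 21314379690999808))))))), (T.h (T.h (P (nat_lit 0)) (T.h (T.h (P (nat_lit 261693461976339468041322496)) (T.h (P (nat_lit 0)) (T.h (M (nat_lit 12263181683475735379967)) (T.h (P (nat_lit 0)) (M (nat_lit 52709437456547839)))))) (T.h (P (nat_lit 0)) (T.h (T.h (P (nat_lit 36544984058959734243328)) (T.h (P (nat_lit 0)) (M (nat_lit 16066539524325375)))) (T.h (P (nat_lit 0)) (P (nat_lit 92595113484189696))))))) (T.h (T.h (T.h (P (nat_lit 0)) (T.h (M (nat_lit 2396886317862536817410047)) (T.h (P (nat_lit 0)) (T.h (P (nat_lit 329372831294947328)) (T.h (P (nat_lit 0)) (P (nat_lit 11754251825088))))))) (T.h (P (nat_lit 0)) (T.h (T.h (P (nat_lit 0)) (T.h (M (nat_lit 34541195107701358591)) (T.h (P (nat_lit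 0)) (M (nat_lit 11941010524991))))) (T.h (P (nat_lit 0)) (T.h (T.h (P (nat_lit 0)) (M (nat_lit 27782914614783))) (P (nat_lit 0))))))) (T.h (T.h (P (nat_lit 0)) (T.h (T.h (M (nat_lit 58005716067570298126335)) (T.h (P (nat_lit 0)) (P (nat_lit 66179228307161088)))) (T.h (P (nat_lit 0)) (M (nat_lit 307809057127432191))))) (T.h (T.h (T.h (P (nat_lit 0)) (T.h (M (nat_lit 1986026304863993855)) (T.h (P (nat_lit 0)) (P (nat_lit 29851112519424))))) (T.h (P (nat_lit 0)) (T.h (T.h (P (nat_lit 0)) (P (nat_lit 39626086326080))) (P (nat_lit 0))))) (T.h (T.h (P (nat_lit 0)) (M (nat_lit 147754045441376255))) (T.h (T.h (T.h (P (nat_lit 0)) (M (nat_lit 15417053138367))) (P (nat_lit 0))) (P (nat_lit 0)))))))), (T.h (T.h (P (nat_lit 0)) (T.h (T.h (P (nat_lit 0)) (T.h (M (nat_lit 29625130931332275844939775)) (T.h (P (nat_lit 0)) (T.h (M (nat_lit 19032430414556823551)) (T.h (P (nat_lit 0)) (P (nat_lit 8704128682512))))))) (T.h (P (nat_lit 0)) (T.h (T.h (P (nat_lit 0))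 (T.h (P (nat_lit 6323371610589888512)) (T.h (P (nat_lit 0)) (M (nat_lit 11727087712703))))) (T.h (P (nat_lit 0)) (T.h (T.h (P (nat_lit 0)) (M (nat_lit 38574100311983))) (P (nat_lit 0)))))))) (T.h (T.h (T.h (M (nat_lit 24801631326153345891410378751)) (T.h (P (nat_lit 0)) (T.h (M (nat_lit 810895736184433016831)) (T.h (P (nat_lit 0)) (P (nat_lit 21529164191711232)))))) (T.h (P (nat_lit 0)) (T.h (T.h (P (nat_lit 69850975083097497796608)) (T.h (P (nat_lit 0)) (M (nat_lit 41801263281635327)))) (T.h (P (nat_lit 0)) (P (nat_lit 104265922317058048)))))) (T.h (T.h (P (nat_lit 0)) (T.h (T.h (P (nat_lit 0)) (T.h (M (nat_lit 16352020845905838079)) (T.h (P (nat_lit 0)) (P (nat_lit 18560116891440))))) (T.h (P (nat_lit 0)) (T.h (T.h (P (nat_lit 0)) (P (nat_lit 22287634534368))) (P (nat_lit 0)))))) (T.h (T.h (T.h (P (nat_lit 878716978990749319168)) (T.h (P (nat_lit 0)) (P (nat_lit 75654353308729344)))) (T.h (P (nat_lit 0)) (P (nat_lit 198609520576053248)))) (T.h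 (T.h (P (nat_lit 0)) (T.h (T.h (P (nat_lit 0)) (M (nat_lit 53556555107663))) (P (nat_lit 0)))) (M (nat_lit 14991615373983743))))))), (T.h (T.h (P (nat_lit 0)) (T.h (T.h (M (nat_lit 2431989740396183413638299647)) (T.h (P (nat_lit 0)) (T.h (P (nat_lit 2389731705158014861312)) (T.h (P (nat_lit 0)) (P (nat_lit 737280053051392)))))) (T.h (P (nat_lit 0)) (T.h (T.h (M (nat_lit 13155666161854431887359)) (T.h (P (nat_lit 0)) (P (nat_lit 84716766919393280)))) (T.h (P (nat_lit 0)) (M (nat_lit 86333522932170751))))))) (T.h (T.h (T.h (P (nat_lit 0)) (T.h (M (nat_lit 2731529024111075150266367)) (T.h (P (nat_lit 0)) (M (nat_lit 2922520119437426687))))) (T.h (P (nat_lit 0)) (T.h (T.h (P (nat_lit 0)) (M (nat_lit 43502318328160976895))) (P (nat_lit 0))))) (T.h (T.h (P (nat_lit 0)) (T.h (T.h (P (nat_lit 67764700985457142398976)) (T.h (P (nat_lit 0)) (P (nat_lit 13085180765306880)))) (T.h (P (nat_lit 0)) (P (nat_lit 344310799049883648))))) (T.h (T.h (T.h (P (nat_lit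 0)) (P (nat_lit 14446821862908362752))) (P (nat_lit 0))) (T.h (T.h (P (nat_lit 0)) (P (nat_lit 157432470344531968))) (P (nat_lit 0))))))), (P (nat_lit 0))]
def lQp_2 : List (T ℤ) := [(P (nat_lit 0)), (P (nat_lit 0)), (T.h (T.h (T.h (P (nat_lit 0)) (T.h (P (nat_lit 4046437473873126187115479040)) (T.h (P (nat_lit 0)) (T.h (M (nat_lit 8629264156460652167167)) (T.h (P (nat_lit 0)) (M (nat_lit 5566547675250687))))))) (T.h (P (nat_lit 0)) (T.h (T.h (P (nat_lit 0)) (T.h (M (nat_lit 35381343235723547901951)) (T.h (P (nat_lit 0)) (M (nat_lit 9534341900369919))))) (T.h (P (nat_lit 0)) (T.h (T.h (P (nat_lit 0)) (M (nat_lit 8045505186660351))) (P (nat_lit 0))))))) (T.h (T.h (P (nat_lit 0)) (T.h (T.h (P (nat_lit 11771323360378338012037120)) (T.h (P (nat_lit 0)) (T.h (P (nat_lit 53348559484627189760)) (T.h (P (nat_lit 0)) (P (nat_lit 8729655611432)))))) (T.h (P (nat_lit 0)) (T.h (T.h (P (nat_lit 7721819484343762944)) (T.h (P (nat_lit 0)) (P (nat_lit 24789354920256))))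 (T.h (P (nat_lit 0)) (M (nat_lit 9351027505655))))))) (T.h (T.h (T.h (P (nat_lit 0)) (T.h (M (nat_lit 11058639795145398026239)) (T.h (P (nat_lit 0)) (M (nat_lit 460861854810111))))) (T.h (P (nat_lit 0)) (T.h (T.h (P (nat_lit 0)) (P (nat_lit 6060853009612800))) (P (nat_lit 0))))) (T.h (T.h (P (nat_lit 0)) (T.h (T.h (P (nat_lit 21742454913363869696)) (T.h (P (nat_lit 0)) (M (nat_lit 22199166475135)))) (T.h (P (nat_lit 0)) (M (nat_lit 23745552648631))))) (T.h (T.h (T.h (P (nat_lit 0)) (P (nat_lit 1899368817328128))) (P (nat_lit 0))) (T.h (T.h (P (nat_lit 0)) (M (nat_lit 4863280810599))) (P (nat_lit 0)))))))), (T.h (T.h (T.h (P (nat_lit 86809079186767951930205203857408)) (T.h (P (nat_lit 0)) (T.h (M (nat_lit 2344628487712069071667199)) (T.h (P (nat_lit 0)) (T.h (M (nat_lit 29021417438497996799)) (T.h (P (nat_lit 0)) (M (nat_lit 15472739090591)))))))) (T.h (P (nat_lit 0)) (T.h (T.h (M (nat_lit 36443918426805068705562623)) (T.h (P (nat_lit 0)) (T.h (M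 (nat_lit 47842095524028088319)) (T.h (P (nat_lit 0)) (P (nat_lit 28335036564160)))))) (T.h (P (nat_lit 0)) (T.h (T.h (M (nat_lit 61090529252569251839)) (T.h (P (nat_lit 0)) (M (nat_lit 8128876489663)))) (T.h (P (nat_lit 0)) (M (nat_lit 61045729373567)))))))) (T.h (T.h (P (nat_lit 0)) (T.h (T.h (P (nat_lit 0)) (T.h (P (nat_lit 59848340049032927772672)) (T.h (P (nat_lit 0)) (P (nat_lit 34322871671980032))))) (T.h (P (nat_lit 0)) (T.h (T.h (P (nat_lit 0)) (P (nat_lit 164587619966582784))) (P (nat_lit 0)))))) (T.h (T.h (T.h (P (nat_lit 36031400753696434022252544)) (T.h (P (nat_lit 0)) (T.h (M (nat_lit 16327763553652047871)) (T.h (P (nat_lit 0)) (M (nat_lit 35169845347711)))))) (T.h (P (nat_lit 0)) (T.h (T.h (M (nat_lit 61134090232989220863)) (T.h (P (nat_lit 0)) (M (nat_lit 22178401775167)))) (T.h (P (nat_lit 0)) (M (nat_lit 93345869782831)))))) (T.h (T.h (P (nat_lit 0)) (T.h (T.h (P (nat_lit 0)) (P (nat_lit 3353098598154240))) (P (nat_lit 0)))) (T.h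 (T.h (T.h (P (nat_lit 58528156815194062848)) (T.h (P (nat_lit 0)) (M (nat_lit 22396963694271)))) (T.h (P (nat_lit 0)) (M (nat_lit 7076939740079)))) (T.h (P (nat_lit 0)) (P (nat_lit 32079931261568)))))))), (T.h (T.h (T.h (P (nat_lit 0)) (T.h (M (nat_lit 18765722672698315194899628031)) (T.h (P (nat_lit 0)) (T.h (M (nat_lit 23579592421698636349439)) (T.h (P (nat_lit 0)) (M (nat_lit 12000930136850431))))))) (T.h (P (nat_lit 0)) (T.h (T.h (P (nat_lit 0)) (T.h (P (nat_lit 30521886510044407660544)) (T.h (P (nat_lit 0)) (P (nat_lit 104514075428454400))))) (T.h (P (nat_lit 0)) (T.h (T.h (P (nat_lit 0)) (P (nat_lit 52964942878146560))) (P (nat_lit 0))))))) (T.h (T.h (P (nat_lit 0)) (T.h (T.h (M (nat_lit 24835050078617542714195967)) (T.h (P (nat_lit 0)) (T.h (M (nat_lit 128900549409064878079)) (T.h (P (nat_lit 0)) (P (nat_lit 26860824312192)))))) (T.h (P (nat_lit 0)) (T.h (T.h (M (nat_lit 92842694536798928895)) (T.h (P (nat_lit 0)) (M (nat_lit 63976585455807))))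 (T.h (P (nat_lit 0)) (P (nat_lit 22372417272256))))))) (T.h (T.h (T.h (P (nat_lit 0)) (T.h (M (nat_lit 115058167568772116774911)) (T.h (P (nat_lit 0)) (M (nat_lit 25670652112863231))))) (T.h (P (nat_lit 0)) (T.h (T.h (P (nat_lit 0)) (P (nat_lit 31961302718545920))) (P (nat_lit 0))))) (T.h (T.h (P (nat_lit 0)) (T.h (T.h (M (nat_lit 42386563146822189055)) (T.h (P (nat_lit 0)) (P (nat_lit 6299933357696)))) (T.h (P (nat_lit 0)) (P (nat_lit 141777948044416))))) (T.h (T.h (T.h (P (nat_lit 0)) (M (nat_lit 103189076392050687))) (P (nat_lit 0))) (T.h (T.h (P (nat_lit 0)) (P (nat_lit 3655923658688))) (P (nat_lit 0)))))))), (T.h (T.h (T.h (M (nat_lit 205475608593708555075071942590463)) (T.h (P (nat_lit 0)) (T.h (M (nat_lit 606963566151509353693183)) (T.h (P (nat_lit 0)) (T.h (P (nat_lit 37129636244552155136)) (T.h (P (nat_lit 0)) (P (nat_lit 14645707618464)))))))) (T.h (P (nat_lit 0)) (T.h (T.h (P (nat_lit 30647609676432405136670720)) (T.h (P (nat_lit 0)) (T.h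 (P (nat_lit 160391609105522884608)) (T.h (P (nat_lit 0)) (M (nat_lit 77309147628143)))))) (T.h (P (nat_lit 0)) (T.h (T.h (P (nat_lit 24552213189067014144)) (T.h (P (nat_lit 0)) (P (nat_lit 134195146157664)))) (T.h (P (nat_lit 0)) (P (nat_lit 8713460479392)))))))) (T.h (T.h (P (nat_lit 0)) (T.h (T.h (P (nat_lit 0)) (T.h (M (nat_lit 115192297782243615571967)) (T.h (P (nat_lit 0)) (M (nat_lit 20318761883959295))))) (T.h (P (nat_lit 0)) (T.h (T.h (P (nat_lit 0)) (M (nat_lit 300902337197998079))) (P (nat_lit 0)))))) (T.h (T.h (T.h (M (nat_lit 49326294657994179987111935)) (T.h (P (nat_lit 0)) (T.h (P (nat_lit 54087894479375695872)) (T.h (P (nat_lit 0)) (P (nat_lit 26406644853168)))))) (T.h (P (nat_lit 0)) (T.h (T.h (P (nat_lit 211642940836456431616)) (T.h (P (nat_lit 0)) (P (nat_lit 14513604933888)))) (T.h (P (nat_lit 0)) (P (nat_lit 499241730033216)))))) (T.h (T.h (P (nat_lit 0)) (T.h (T.h (P (nat_lit 0)) (M (nat_lit 78731064540430335))) (P (nat_lit 0))))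 (T.h (T.h (T.h (M (nat_lit 98340197006326104063)) (T.h (P (nat_lit 0)) (P (nat_lit 133240626359424)))) (T.h (P (nat_lit 0)) (P (nat_lit 352154342018448)))) (T.h (P (nat_lit 0)) (M (nat_lit 87410689135199)))))))), (T.h (T.h (T.h (P (nat_lit 0)) (T.h (P (nat_lit 5287393795622230931927990272)) (T.h (P (nat_lit 0)) (T.h (P (nat_lit 10997930159462676430848)) (T.h (P (nat_lit 0)) (P (nat_lit 21976945639718912))))))) (T.h (P (nat_lit 0)) (T.h (T.h (P (nat_lit 0)) (T.h (P (nat_lit 37042947306702845771776)) (T.h (P (nat_lit 0)) (M (nat_lit 78374196030734335))))) (T.h (P (nat_lit 0)) (T.h (T.h (P (nat_lit 0)) (P (nat_lit 17184947940786176))) (P (nat_lit 0))))))) (T.h (T.h (P (nat_lit 0)) (T.h (T.h (P (nat_lit 7968129611153399804329984)) (T.h (P (nat_lit 0)) (M (nat_lit 28063542199158046719)))) (T.h (P (nat_lit 0)) (P (nat_lit 28918869486353776640))))) (T.h (T.h (T.h (P (nat_lit 0)) (T.h (P (nat_lit 11470395129475534684160)) (T.h (P (nat_lit 0)) (P (nat_lit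 28259372670091264))))) (T.h (P (nat_lit 0)) (T.h (T.h (P (nat_lit 0)) (P (nat_lit 21820328043151360))) (P (nat_lit 0))))) (T.h (T.h (P (nat_lit 0)) (P (nat_lit 34246235936746635264))) (T.h (T.h (T.h (P (nat_lit 0)) (P (nat_lit 48452197856411648))) (P (nat_lit 0))) (P (nat_lit 0))))))), (P (nat_lit 0))]
def lQp_3 : List (T ℤ) := [(P (nat_lit 0)), (T.h (T.h (P (nat_lit 0)) (T.h (T.h (P (nat_lit 4046437473873126187115479040)) (T.h (P (nat_lit 0)) (T.h (M (nat_lit 35381343235723547901951)) (T.h (P (nat_lit 0)) (M (nat_lit 8045505186660351)))))) (T.h (P (nat_lit 0)) (T.h (T.h (M (nat_lit 8629264156460652167167)) (T.h (P (nat_lit 0)) (M (nat_lit 9534341900369919)))) (T.h (P (nat_lit 0)) (M (nat_lit 5566547675250687))))))) (T.h (T.h (T.h (P (nat_lit 0)) (T.h (P (nat_lit 11771323360378338012037120)) (T.h (P (nat_lit 0)) (T.h (P (nat_lit 7721819484343762944)) (T.h (P (nat_lit 0)) (M (nat_lit 9351027505655))))))) (T.h (P (nat_lit 0)) (T.h (T.h (P (nat_lit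 0)) (T.h (P (nat_lit 53348559484627189760)) (T.h (P (nat_lit 0)) (P (nat_lit 24789354920256))))) (T.h (P (nat_lit 0)) (T.h (T.h (P (nat_lit 0)) (P (nat_lit 8729655611432))) (P (nat_lit 0))))))) (T.h (T.h (P (nat_lit 0)) (T.h (T.h (M (nat_lit 11058639795145398026239)) (T.h (P (nat_lit 0)) (P (nat_lit 6060853009612800)))) (T.h (P (nat_lit 0)) (M (nat_lit 460861854810111))))) (T.h (T.h (T.h (P (nat_lit 0)) (T.h (P (nat_lit 21742454913363869696)) (T.h (P (nat_lit 0)) (M (nat_lit 23745552648631))))) (T.h (P (nat_lit 0)) (T.h (T.h (P (nat_lit 0)) (M (nat_lit 22199166475135))) (P (nat_lit 0))))) (T.h (T.h (P (nat_lit 0)) (P (nat_lit 1899368817328128))) (T.h (T.h (T.h (P (nat_lit 0)) (M (nat_lit 4863280810599))) (P (nat_lit 0))) (P (nat_lit 0)))))))), (T.h (T.h (P (nat_lit 0)) (T.h (T.h (P (nat_lit 0)) (T.h (M (nat_lit 32853814453015003422261247)) (T.h (P (nat_lit 0)) (T.h (M (nat_lit 46199622579093766143)) (T.h (P (nat_lit 0)) (M (nat_lit 5456481312047)))))))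 (T.h (P (nat_lit 0)) (T.h (T.h (P (nat_lit 0)) (T.h (M (nat_lit 46199622579093766143)) (T.h (P (nat_lit 0)) (P (nat_lit 48640495562304))))) (T.h (P (nat_lit 0)) (T.h (T.h (P (nat_lit 0)) (M (nat_lit 5456481312047))) (P (nat_lit 0)))))))) (T.h (T.h (T.h (P (nat_lit 58407741708197557844689551360)) (T.h (P (nat_lit 0)) (T.h (P (nat_lit 14328093330667368087552)) (T.h (P (nat_lit 0)) (P (nat_lit 95200758005841920)))))) (T.h (P (nat_lit 0)) (T.h (T.h (P (nat_lit 14328093330667368087552)) (T.h (P (nat_lit 0)) (P (nat_lit 381346097611210752)))) (T.h (P (nat_lit 0)) (P (nat_lit 95200758005841920)))))) (T.h (T.h (P (nat_lit 0)) (T.h (T.h (P (nat_lit 0)) (T.h (M (nat_lit 119575697819151892479)) (T.h (P (nat_lit 0)) (M (nat_lit 64596591120223))))) (T.h (P (nat_lit 0)) (T.h (T.h (P (nat_lit 0)) (M (nat_lit 64596591120223))) (P (nat_lit 0)))))) (T.h (T.h (T.h (P (nat_lit 24155213164710625017856)) (T.h (P (nat_lit 0)) (P (nat_lit 4706952372207616)))) (T.h (P (nat_lit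 0)) (P (nat_lit 4706952372207616)))) (T.h (T.h (P (nat_lit 0)) (T.h (T.h (P (nat_lit 0)) (P (nat_lit 18546753362336))) (P (nat_lit 0)))) (P (nat_lit 450914590064640))))))), (T.h (T.h (P (nat_lit 0)) (T.h (T.h (M (nat_lit 3590745101603317330175066111)) (T.h (P (nat_lit 0)) (T.h (M (nat_lit 63497192389272894701567)) (T.h (P (nat_lit 0)) (P (nat_lit 56846165451276288)))))) (T.h (P (nat_lit 0)) (T.h (T.h (P (nat_lit 20755233146715930361856)) (T.h (P (nat_lit 0)) (P (nat_lit 77251621451530240)))) (T.h (P (nat_lit 0)) (M (nat_lit 58160947801522175))))))) (T.h (T.h (T.h (P (nat_lit 0)) (T.h (P (nat_lit 80418422512579686147555328)) (T.h (P (nat_lit 0)) (T.h (P (nat_lit 59806517900091588608)) (T.h (P (nat_lit 0)) (M (nat_lit 8349296421311))))))) (T.h (P (nat_lit 0)) (T.h (T.h (P (nat_lit 0)) (T.h (P (nat_lit 104085129146604191744)) (T.h (P (nat_lit 0)) (M (nat_lit 42822324891903))))) (T.h (P (nat_lit 0)) (T.h (T.h (P (nat_lit 0)) (M (nat_lit 127027661279103)))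 (P (nat_lit 0))))))) (T.h (T.h (P (nat_lit 0)) (T.h (T.h (M (nat_lit 124166508171363386130431)) (T.h (P (nat_lit 0)) (P (nat_lit 34854012157460480)))) (T.h (P (nat_lit 0)) (M (nat_lit 68489507773218815))))) (T.h (T.h (T.h (P (nat_lit 0)) (T.h (P (nat_lit 178498018031653879808)) (T.h (P (nat_lit 0)) (P (nat_lit 19914028257664))))) (T.h (P (nat_lit 0)) (T.h (T.h (P (nat_lit 0)) (P (nat_lit 17335854132352))) (P (nat_lit 0))))) (T.h (T.h (P (nat_lit 0)) (M (nat_lit 36867882448781311))) (T.h (T.h (T.h (P (nat_lit 0)) (P (nat_lit 8739903821824))) (P (nat_lit 0))) (P (nat_lit 0)))))))), (T.h (T.h (P (nat_lit 0)) (T.h (T.h (P (nat_lit 0)) (T.h (P (nat_lit 55057915343755458021163008)) (T.h (P (nat_lit 0)) (T.h (P (nat_lit 161023069026907062272)) (T.h (P (nat_lit 0)) (P (nat_lit 45005981788656))))))) (T.h (P (nat_lit 0)) (T.h (T.h (P (nat_lit 0)) (T.h (P (nat_lit 166545932273294770176)) (T.h (P (nat_lit 0)) (M (nat_lit 35467958383919))))) (T.h (P (nat_lit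 0)) (T.h (T.h (P (nat_lit 0)) (M (nat_lit 18638776481903))) (P (nat_lit 0)))))))) (T.h (T.h (T.h (M (nat_lit 86573778126472935022694236159)) (T.h (P (nat_lit 0)) (T.h (M (nat_lit 38674386700585597403135)) (T.h (P (nat_lit 0)) (M (nat_lit 1512243294584831)))))) (T.h (P (nat_lit 0)) (T.h (T.h (P (nat_lit 60821576642137342083072)) (T.h (P (nat_lit 0)) (M (nat_lit 556794615299260415)))) (T.h (P (nat_lit 0)) (P (nat_lit 45815686882213888)))))) (T.h (T.h (P (nat_lit 0)) (T.h (T.h (P (nat_lit 0)) (T.h (P (nat_lit 321466405071154577408)) (T.h (P (nat_lit 0)) (P (nat_lit 73574799128352))))) (T.h (P (nat_lit 0)) (T.h (T.h (P (nat_lit 0)) (P (nat_lit 3848439743712))) (P (nat_lit 0)))))) (T.h (T.h (T.h (M (nat_lit 49032214689452727992319)) (T.h (P (nat_lit 0)) (M (nat_lit 33527803763163135)))) (T.h (P (nat_lit 0)) (P (nat_lit 257381685080227840)))) (T.h (T.h (P (nat_lit 0)) (T.h (T.h (P (nat_lit 0)) (M (nat_lit 36795851005967))) (P (nat_lit 0)))) (M (nat_lit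 22307162351419391))))))), (T.h (T.h (P (nat_lit 0)) (T.h (T.h (P (nat_lit 485246316002040588049317888)) (T.h (P (nat_lit 0)) (T.h (P (nat_lit 116266967700160330596352)) (T.h (P (nat_lit 0)) (P (nat_lit 16022553870106624)))))) (T.h (P (nat_lit 0)) (T.h (T.h (P (nat_lit 47953310490409918529536)) (T.h (P (nat_lit 0)) (P (nat_lit 97934611223642112)))) (T.h (P (nat_lit 0)) (P (nat_lit 7655420903981056))))))) (T.h (T.h (T.h (P (nat_lit 0)) (T.h (M (nat_lit 28478335506665354741940223)) (T.h (P (nat_lit 0)) (M (nat_lit 7399312085391245311))))) (T.h (P (nat_lit 0)) (T.h (T.h (P (nat_lit 0)) (M (nat_lit 379707384477398335487))) (P (nat_lit 0))))) (T.h (T.h (P (nat_lit 0)) (T.h (T.h (P (nat_lit 156873228732256518930432)) (T.h (P (nat_lit 0)) (P (nat_lit 56832365739311104)))) (T.h (P (nat_lit 0)) (P (nat_lit 455296650780803072))))) (T.h (T.h (T.h (P (nat_lit 0)) (M (nat_lit 46219789068006326271))) (P (nat_lit 0))) (T.h (T.h (P (nat_lit 0)) (P (nat_lit 151896253560815616)))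 (P (nat_lit 0))))))), (P (nat_lit 0)), (P (nat_lit 0))]
def lQp_4 : List (T ℤ) := [(T.h (T.h (T.h (P (nat_lit 0)) (T.h (P (nat_lit 1336912724198935606375481344)) (T.h (P (nat_lit 0)) (T.h (M (nat_lit 16607238043340504039423)) (T.h (P (nat_lit 0)) (M (nat_lit 14287706602635263))))))) (T.h (P (nat_lit 0)) (T.h (T.h (P (nat_lit 0)) (T.h (P (nat_lit 14528311290590639685632)) (T.h (P (nat_lit 0)) (M (nat_lit 31286343396327423))))) (T.h (P (nat_lit 0)) (T.h (T.h (P (nat_lit 0)) (P (nat_lit 1098191121285120))) (P (nat_lit 0))))))) (T.h (T.h (P (nat_lit 0)) (T.h (T.h (P (nat_lit 7711323027092271844556800)) (T.h (P (nat_lit 0)) (T.h (P (nat_lit 16284901690493108224)) (T.h (P (nat_lit 0)) (P (nat_lit 20176616691848)))))) (T.h (P (nat_lit 0)) (T.h (T.h (M (nat_lit 1941185707053678591)) (T.h (P (nat_lit 0)) (P (nat_lit 12711245874064)))) (T.h (P (nat_lit 0)) (M (nat_lit 10067002337967))))))) (T.h (T.h (T.h (P (nat_lit 0)) (T.h (M (nat_lit 9934466073729626537983))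 (T.h (P (nat_lit 0)) (M (nat_lit 32654557935075327))))) (T.h (P (nat_lit 0)) (T.h (T.h (P (nat_lit 0)) (M (nat_lit 17872552192311295))) (P (nat_lit 0))))) (T.h (T.h (P (nat_lit 0)) (T.h (T.h (P (nat_lit 17975258696120270848)) (T.h (P (nat_lit 0)) (M (nat_lit 18669837897143)))) (T.h (P (nat_lit 0)) (M (nat_lit 13950046079655))))) (T.h (T.h (T.h (P (nat_lit 0)) (M (nat_lit 1253650768494591))) (P (nat_lit 0))) (T.h (T.h (P (nat_lit 0)) (P (nat_lit 19714268702256))) (P (nat_lit 0)))))))), (T.h (T.h (T.h (P (nat_lit 86809079186767951930205203857408)) (T.h (P (nat_lit 0)) (T.h (M (nat_lit 36443918426805068705562623)) (T.h (P (nat_lit 0)) (T.h (M (nat_lit 61090529252569251839)) (T.h (P (nat_lit 0)) (M (nat_lit 61045729373567)))))))) (T.h (P (nat_lit 0)) (T.h (T.h (M (nat_lit 2344628487712069071667199)) (T.h (P (nat_lit 0)) (T.h (M (nat_lit 47842095524028088319)) (T.h (P (nat_lit 0)) (M (nat_lit 8128876489663)))))) (T.h (P (nat_lit 0)) (T.h (T.h (M (nat_lit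 29021417438497996799)) (T.h (P (nat_lit 0)) (P (nat_lit 28335036564160)))) (T.h (P (nat_lit 0)) (M (nat_lit 15472739090591)))))))) (T.h (T.h (P (nat_lit 0)) (T.h (T.h (P (nat_lit 0)) (T.h (P (nat_lit 59848340049032927772672)) (T.h (P (nat_lit 0)) (P (nat_lit 164587619966582784))))) (T.h (P (nat_lit 0)) (T.h (T.h (P (nat_lit 0)) (P (nat_lit 34322871671980032))) (P (nat_lit 0)))))) (T.h (T.h (T.h (P (nat_lit 36031400753696434022252544)) (T.h (P (nat_lit 0)) (T.h (M (nat_lit 61134090232989220863)) (T.h (P (nat_lit 0)) (M (nat_lit 93345869782831)))))) (T.h (P (nat_lit 0)) (T.h (T.h (M (nat_lit 16327763553652047871)) (T.h (P (nat_lit 0)) (M (nat_lit 22178401775167)))) (T.h (P (nat_lit 0)) (M (nat_lit 35169845347711)))))) (T.h (T.h (P (nat_lit 0)) (T.h (T.h (P (nat_lit 0)) (P (nat_lit 3353098598154240))) (P (nat_lit 0)))) (T.h (T.h (T.h (P (nat_lit 58528156815194062848)) (T.h (P (nat_lit 0)) (M (nat_lit 7076939740079)))) (T.h (P (nat_lit 0)) (M (nat_lit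 22396963694271)))) (T.h (P (nat_lit 0)) (P (nat_lit 32079931261568)))))))), (T.h (T.h (T.h (P (nat_lit 0)) (T.h (M (nat_lit 3590745101603317330175066111)) (T.h (P (nat_lit 0)) (T.h (P (nat_lit 20755233146715930361856)) (T.h (P (nat_lit 0)) (M (nat_lit 58160947801522175))))))) (T.h (P (nat_lit 0)) (T.h (T.h (P (nat_lit 0)) (T.h (M (nat_lit 63497192389272894701567)) (T.h (P (nat_lit 0)) (P (nat_lit 77251621451530240))))) (T.h (P (nat_lit 0)) (T.h (T.h (P (nat_lit 0)) (P (nat_lit 56846165451276288))) (P (nat_lit 0))))))) (T.h (T.h (P (nat_lit 0)) (T.h (T.h (P (nat_lit 80418422512579686147555328)) (T.h (P (nat_lit 0)) (T.h (P (nat_lit 104085129146604191744)) (T.h (P (nat_lit 0)) (M (nat_lit 127027661279103)))))) (T.h (P (nat_lit 0)) (T.h (T.h (P (nat_lit 59806517900091588608)) (T.h (P (nat_lit 0)) (M (nat_lit 42822324891903)))) (T.h (P (nat_lit 0)) (M (nat_lit 8349296421311))))))) (T.h (T.h (T.h (P (nat_lit 0)) (T.h (M (nat_lit 124166508171363386130431))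 (T.h (P (nat_lit 0)) (M (nat_lit 68489507773218815))))) (T.h (P (nat_lit 0)) (T.h (T.h (P (nat_lit 0)) (P (nat_lit 34854012157460480))) (P (nat_lit 0))))) (T.h (T.h (P (nat_lit 0)) (T.h (T.h (P (nat_lit 178498018031653879808)) (T.h (P (nat_lit 0)) (P (nat_lit 17335854132352)))) (T.h (P (nat_lit 0)) (P (nat_lit 19914028257664))))) (T.h (T.h (T.h (P (nat_lit 0)) (M (nat_lit 36867882448781311))) (P (nat_lit 0))) (T.h (T.h (P (nat_lit 0)) (P (nat_lit 8739903821824))) (P (nat_lit 0)))))))), (T.h (T.h (T.h (M (nat_lit 205350043513454281615841085620223)) (T.h (P (nat_lit 0)) (T.h (P (nat_lit 75599948516729912213635072)) (T.h (P (nat_lit 0)) (T.h (P (nat_lit 64015524220947660800)) (T.h (P (nat_lit 0)) (P (nat_lit 75877149067776)))))))) (T.h (P (nat_lit 0)) (T.h (T.h (P (nat_lit 75599948516729912213635072)) (T.h (P (nat_lit 0)) (T.h (P (nat_lit 269115735241874472960)) (T.h (P (nat_lit 0)) (P (nat_lit 43617723863328)))))) (T.h (P (nat_lit 0)) (T.h (T.h (P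 (nat_lit 64015524220947660800)) (T.h (P (nat_lit 0)) (P (nat_lit 43617723863328)))) (T.h (P (nat_lit 0)) (P (nat_lit 75877149067776)))))))) (T.h (T.h (P (nat_lit 0)) (T.h (T.h (P (nat_lit 0)) (T.h (M (nat_lit 391552516520223247958015)) (T.h (P (nat_lit 0)) (M (nat_lit 351998504184446975))))) (T.h (P (nat_lit 0)) (T.h (T.h (P (nat_lit 0)) (M (nat_lit 351998504184446975))) (P (nat_lit 0)))))) (T.h (T.h (T.h (M (nat_lit 19719680482569520888676351)) (T.h (P (nat_lit 0)) (T.h (P (nat_lit 25093411247801499648)) (T.h (P (nat_lit 0)) (P (nat_lit 73651491357984)))))) (T.h (P (nat_lit 0)) (T.h (T.h (P (nat_lit 25093411247801499648)) (T.h (P (nat_lit 0)) (P (nat_lit 43934860796544)))) (T.h (P (nat_lit 0)) (P (nat_lit 73651491357984)))))) (T.h (T.h (P (nat_lit 0)) (T.h (T.h (P (nat_lit 0)) (M (nat_lit 210496298919526399))) (P (nat_lit 0)))) (T.h (T.h (T.h (M (nat_lit 74665272753331896319)) (T.h (P (nat_lit 0)) (P (nat_lit 74071766674224)))) (T.h (P (nat_lit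 0)) (P (nat_lit 74071766674224)))) (T.h (P (nat_lit 0)) (M (nat_lit 70822787459903)))))))), (T.h (T.h (T.h (P (nat_lit 0)) (T.h (P (nat_lit 11248579222122020348964634624)) (T.h (P (nat_lit 0)) (T.h (P (nat_lit 47210703150660263608320)) (T.h (P (nat_lit 0)) (P (nat_lit 113838962049777664))))))) (T.h (P (nat_lit 0)) (T.h (T.h (P (nat_lit 0)) (T.h (P (nat_lit 251163479293727797673984)) (T.h (P (nat_lit 0)) (P (nat_lit 15489028619730944))))) (T.h (P (nat_lit 0)) (T.h (T.h (P (nat_lit 0)) (M (nat_lit 1355874914500607))) (P (nat_lit 0))))))) (T.h (T.h (P (nat_lit 0)) (T.h (T.h (M (nat_lit 33206684731157785694175231)) (T.h (P (nat_lit 0)) (M (nat_lit 352605878129642176511)))) (T.h (P (nat_lit 0)) (M (nat_lit 274170867548684287))))) (T.h (T.h (T.h (P (nat_lit 0)) (T.h (P (nat_lit 110268998513681254842368)) (T.h (P (nat_lit 0)) (P (nat_lit 83781578424385536))))) (T.h (P (nat_lit 0)) (T.h (T.h (P (nat_lit 0)) (P (nat_lit 22622444845334528))) (P (nat_lit 0)))))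 (T.h (T.h (P (nat_lit 0)) (P (nat_lit 13623357689722568704))) (T.h (T.h (T.h (P (nat_lit 0)) (P (nat_lit 25337783715266560))) (P (nat_lit 0))) (P (nat_lit 0))))))), (P (nat_lit 0)), (P (nat_lit 0)), (T.h (T.h (P (nat_lit 0)) (T.h (T.h (P (nat_lit 10017191180407088564301463552)) (T.h (P (nat_lit 0)) (T.h (P (nat_lit 25151176110106820476928)) (T.h (P (nat_lit 0)) (P (nat_lit 24686970010140672)))))) (T.h (P (nat_lit 0)) (T.h (T.h (M (nat_lit 2249542807684005232639)) (T.h (P (nat_lit 0)) (M (nat_lit 17031200713637887)))) (T.h (P (nat_lit 0)) (P (nat_lit 2442926698725376))))))) (T.h (T.h (T.h (P (nat_lit 0)) (T.h (M (nat_lit 868305541875677324640255)) (T.h (P (nat_lit 0)) (T.h (M (nat_lit 38366446287021146111)) (T.h (P (nat_lit 0)) (M (nat_lit 13573732110455))))))) (T.h (P (nat_lit 0)) (T.h (T.h (P (nat_lit 0)) (T.h (P (nat_lit 97397380587978752)) (T.h (P (nat_lit 0)) (P (nat_lit 28156273543704))))) (T.h (P (nat_lit 0)) (T.h (T.h (P (nat_lit 0)) (M (nat_lit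 24380342005103))) (P (nat_lit 0))))))) (T.h (T.h (P (nat_lit 0)) (T.h (T.h (P (nat_lit 25151176110106820476928)) (T.h (P (nat_lit 0)) (P (nat_lit 8153435818164224)))) (T.h (P (nat_lit 0)) (M (nat_lit 17031200713637887))))) (T.h (T.h (T.h (P (nat_lit 0)) (T.h (M (nat_lit 38366446287021146111)) (T.h (P (nat_lit 0)) (M (nat_lit 82900738593679))))) (T.h (P (nat_lit 0)) (T.h (T.h (P (nat_lit 0)) (P (nat_lit 28156273543704))) (P (nat_lit 0))))) (T.h (T.h (P (nat_lit 0)) (P (nat_lit 24686970010140672))) (T.h (T.h (T.h (P (nat_lit 0)) (M (nat_lit 13573732110455))) (P (nat_lit 0))) (P (nat_lit 0))))))))]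
def lQp_5 : List (T ℤ) := [(T.h (T.h (P (nat_lit 0)) (T.h (T.h (P (nat_lit 0)) (T.h (P (nat_lit 26738224194884310258417664)) (T.h (P (nat_lit 0)) (T.h (P (nat_lit 7431377113195741184)) (T.h (P (nat_lit 0)) (P (nat_lit 40339979884256))))))) (T.h (P (nat_lit 0)) (T.h (T.h (P (nat_lit 0)) (T.h (P (nat_lit 10879051756713541632)) (T.h (P (nat_lit 0)) (P (nat_lit 6020971354256))))) (T.h (P (nat_lit 0)) (T.h (T.h (P (nat_lit 0)) (M (nat_lit 14450944174591))) (P (nat_lit 0)))))))) (T.h (T.h (T.h (P (nat_lit 23735099046155115220969717760)) (T.h (P (nat_lit 0)) (T.h (M (nat_lit 79357771058813610229759)) (T.h (P (nat_lit 0)) (M (nat_lit 112594984012251135)))))) (T.h (P (nat_lit 0)) (T.h (T.h (P (nat_lit 13919576347252589854720)) (T.h (P (nat_lit 0)) (P (nat_lit 14821950289199104)))) (T.h (P (nat_lit 0)) (M (nat_lit 42531209117253631)))))) (T.h (T.h (P (nat_lit 0)) (T.h (T.h (P (nat_lit 0)) (T.h (M (nat_lit 1972893016427331583)) (T.h (P (nat_lit 0)) (P (nat_lit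 1500860940832))))) (T.h (P (nat_lit 0)) (T.h (T.h (P (nat_lit 0)) (M (nat_lit 4144068559599))) (P (nat_lit 0)))))) (T.h (T.h (T.h (P (nat_lit 2222835744462361067520)) (T.h (P (nat_lit 0)) (M (nat_lit 192391894413017087)))) (T.h (P (nat_lit 0)) (M (nat_lit 57975825390141439)))) (T.h (T.h (P (nat_lit 0)) (T.h (T.h (P (nat_lit 0)) (P (nat_lit 50708355223312))) (P (nat_lit 0)))) (P (nat_lit 21314379690999808))))))), (T.h (T.h (P (nat_lit 0)) (T.h (T.h (M (nat_lit 18765722672698315194899628031)) (T.h (P (nat_lit 0)) (T.h (P (nat_lit 30521886510044407660544)) (T.h (P (nat_lit 0)) (P (nat_lit 52964942878146560)))))) (T.h (P (nat_lit 0)) (T.h (T.h (M (nat_lit 23579592421698636349439)) (T.h (P (nat_lit 0)) (P (nat_lit 104514075428454400)))) (T.h (P (nat_lit 0)) (M (nat_lit 12000930136850431))))))) (T.h (T.h (T.h (P (nat_lit 0)) (T.h (M (nat_lit 24835050078617542714195967)) (T.h (P (nat_lit 0)) (T.h (M (nat_lit 92842694536798928895)) (T.h (P (nat_lit 0)) (P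 (nat_lit 22372417272256))))))) (T.h (P (nat_lit 0)) (T.h (T.h (P (nat_lit 0)) (T.h (M (nat_lit 128900549409064878079)) (T.h (P (nat_lit 0)) (M (nat_lit 63976585455807))))) (T.h (P (nat_lit 0)) (T.h (T.h (P (nat_lit 0)) (P (nat_lit 26860824312192))) (P (nat_lit 0))))))) (T.h (T.h (P (nat_lit 0)) (T.h (T.h (M (nat_lit 115058167568772116774911)) (T.h (P (nat_lit 0)) (P (nat_lit 31961302718545920)))) (T.h (P (nat_lit 0)) (M (nat_lit 25670652112863231))))) (T.h (T.h (T.h (P (nat_lit 0)) (T.h (M (nat_lit 42386563146822189055)) (T.h (P (nat_lit 0)) (P (nat_lit 141777948044416))))) (T.h (P (nat_lit 0)) (T.h (T.h (P (nat_lit 0)) (P (nat_lit 6299933357696))) (P (nat_lit 0))))) (T.h (T.h (P (nat_lit 0)) (M (nat_lit 103189076392050687))) (T.h (T.h (T.h (P (nat_lit 0)) (P (nat_lit 3655923658688))) (P (nat_lit 0))) (P (nat_lit 0)))))))), (T.h (T.h (P (nat_lit 0)) (T.h (T.h (P (nat_lit 0)) (T.h (P (nat_lit 55057915343755458021163008)) (T.h (P (nat_lit 0)) (T.h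 (P (nat_lit 166545932273294770176)) (T.h (P (nat_lit 0)) (M (nat_lit 18638776481903))))))) (T.h (P (nat_lit 0)) (T.h (T.h (P (nat_lit 0)) (T.h (P (nat_lit 161023069026907062272)) (T.h (P (nat_lit 0)) (M (nat_lit 35467958383919))))) (T.h (P (nat_lit 0)) (T.h (T.h (P (nat_lit 0)) (P (nat_lit 45005981788656))) (P (nat_lit 0)))))))) (T.h (T.h (T.h (M (nat_lit 86573778126472935022694236159)) (T.h (P (nat_lit 0)) (T.h (P (nat_lit 60821576642137342083072)) (T.h (P (nat_lit 0)) (P (nat_lit 45815686882213888)))))) (T.h (P (nat_lit 0)) (T.h (T.h (M (nat_lit 38674386700585597403135)) (T.h (P (nat_lit 0)) (M (nat_lit 556794615299260415)))) (T.h (P (nat_lit 0)) (M (nat_lit 1512243294584831)))))) (T.h (T.h (P (nat_lit 0)) (T.h (T.h (P (nat_lit 0)) (T.h (P (nat_lit 321466405071154577408)) (T.h (P (nat_lit 0)) (P (nat_lit 3848439743712))))) (T.h (P (nat_lit 0)) (T.h (T.h (P (nat_lit 0)) (P (nat_lit 73574799128352))) (P (nat_lit 0)))))) (T.h (T.h (T.h (M (nat_lit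 49032214689452727992319)) (T.h (P (nat_lit 0)) (P (nat_lit 257381685080227840)))) (T.h (P (nat_lit 0)) (M (nat_lit 33527803763163135)))) (T.h (T.h (P (nat_lit 0)) (T.h (T.h (P (nat_lit 0)) (M (nat_lit 36795851005967))) (P (nat_lit 0)))) (M (nat_lit 22307162351419391))))))), (T.h (T.h (P (nat_lit 0)) (T.h (T.h (P (nat_lit 11248579222122020348964634624)) (T.h (P (nat_lit 0)) (T.h (P (nat_lit 251163479293727797673984)) (T.h (P (nat_lit 0)) (M (nat_lit 1355874914500607)))))) (T.h (P (nat_lit 0)) (T.h (T.h (P (nat_lit 47210703150660263608320)) (T.h (P (nat_lit 0)) (P (nat_lit 15489028619730944)))) (T.h (P (nat_lit 0)) (P (nat_lit 113838962049777664))))))) (T.h (T.h (T.h (P (nat_lit 0)) (T.h (M (nat_lit 33206684731157785694175231)) (T.h (P (nat_lit 0)) (M (nat_lit 274170867548684287))))) (T.h (P (nat_lit 0)) (T.h (T.h (P (nat_lit 0)) (M (nat_lit 352605878129642176511))) (P (nat_lit 0))))) (T.h (T.h (P (nat_lit 0)) (T.h (T.h (P (nat_lit 110268998513681254842368))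 (T.h (P (nat_lit 0)) (P (nat_lit 22622444845334528)))) (T.h (P (nat_lit 0)) (P (nat_lit 83781578424385536))))) (T.h (T.h (T.h (P (nat_lit 0)) (P (nat_lit 13623357689722568704))) (P (nat_lit 0))) (T.h (T.h (P (nat_lit 0)) (P (nat_lit 25337783715266560))) (P (nat_lit 0))))))), (P (nat_lit 0)), (P (nat_lit 0)), (T.h (T.h (T.h (P (nat_lit 99726052038256347958477034881024)) (T.h (P (nat_lit 0)) (T.h (P (nat_lit 12879479387556197198462976)) (T.h (P (nat_lit 0)) (T.h (P (nat_lit 19390578843768061952)) (T.h (P (nat_lit 0)) (P (nat_lit 56203593949792)))))))) (T.h (P (nat_lit 0)) (T.h (T.h (M (nat_lit 12917193599314809325617151)) (T.h (P (nat_lit 0)) (T.h (M (nat_lit 43050933782990290943)) (T.h (P (nat_lit 0)) (M (nat_lit 104478078703183)))))) (T.h (P (nat_lit 0)) (T.h (T.h (P (nat_lit 21631471958110502912)) (T.h (P (nat_lit 0)) (P (nat_lit 20467126355184)))) (T.h (P (nat_lit 0)) (P (nat_lit 2914549128000)))))))) (T.h (T.h (P (nat_lit 0)) (T.h (T.h (P (nat_lit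 0)) (T.h (P (nat_lit 25414173094073549717504)) (T.h (P (nat_lit 0)) (P (nat_lit 85390695730020352))))) (T.h (P (nat_lit 0)) (T.h (T.h (P (nat_lit 0)) (M (nat_lit 77076485201985535))) (P (nat_lit 0)))))) (T.h (T.h (T.h (P (nat_lit 12879479387556197198462976)) (T.h (P (nat_lit 0)) (T.h (M (nat_lit 163569657816085954559)) (T.h (P (nat_lit 0)) (M (nat_lit 373272336818415)))))) (T.h (P (nat_lit 0)) (T.h (T.h (M (nat_lit 43050933782990290943)) (T.h (P (nat_lit 0)) (P (nat_lit 5095877684832)))) (T.h (P (nat_lit 0)) (P (nat_lit 20467126355184)))))) (T.h (T.h (P (nat_lit 0)) (T.h (T.h (P (nat_lit 0)) (P (nat_lit 85390695730020352))) (P (nat_lit 0)))) (T.h (T.h (T.h (P (nat_lit 19390578843768061952)) (T.h (P (nat_lit 0)) (M (nat_lit 373272336818415)))) (T.h (P (nat_lit 0)) (M (nat_lit 104478078703183)))) (T.h (P (nat_lit 0)) (P (nat_lit 56203593949792)))))))), (T.h (T.h (T.h (P (nat_lit 0)) (T.h (P (nat_lit 261693461976339468041322496)) (T.h (P (nat_lit 0))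 (T.h (P (nat_lit 36544984058959734243328)) (T.h (P (nat_lit 0)) (P (nat_lit 92595113484189696))))))) (T.h (P (nat_lit 0)) (T.h (T.h (P (nat_lit 0)) (T.h (M (nat_lit 12263181683475735379967)) (T.h (P (nat_lit 0)) (M (nat_lit 16066539524325375))))) (T.h (P (nat_lit 0)) (T.h (T.h (P (nat_lit 0)) (M (nat_lit 52709437456547839))) (P (nat_lit 0))))))) (T.h (T.h (P (nat_lit 0)) (T.h (T.h (M (nat_lit 2396886317862536817410047)) (T.h (P (nat_lit 0)) (T.h (M (nat_lit 34541195107701358591)) (T.h (P (nat_lit 0)) (M (nat_lit 27782914614783)))))) (T.h (P (nat_lit 0)) (T.h (T.h (P (nat_lit 329372831294947328)) (T.h (P (nat_lit 0)) (M (nat_lit 11941010524991)))) (T.h (P (nat_lit 0)) (P (nat_lit 11754251825088))))))) (T.h (T.h (T.h (P (nat_lit 0)) (T.h (M (nat_lit 58005716067570298126335)) (T.h (P (nat_lit 0)) (M (nat_lit 307809057127432191))))) (T.h (P (nat_lit 0)) (T.h (T.h (P (nat_lit 0)) (P (nat_lit 66179228307161088))) (P (nat_lit 0))))) (T.h (T.h (P (nat_lit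 0)) (T.h (T.h (M (nat_lit 1986026304863993855)) (T.h (P (nat_lit 0)) (P (nat_lit 39626086326080)))) (T.h (P (nat_lit 0)) (P (nat_lit 29851112519424))))) (T.h (T.h (T.h (P (nat_lit 0)) (M (nat_lit 147754045441376255))) (P (nat_lit 0))) (T.h (T.h (P (nat_lit 0)) (M (nat_lit 15417053138367))) (P (nat_lit 0))))))))]
def lQp_6 : List (T ℤ) := [(T.h (T.h (T.h (M (nat_lit 205475608593708555075071942590463)) (T.h (P (nat_lit 0)) (T.h (P (nat_lit 30647609676432405136670720)) (T.h (P (nat_lit 0)) (T.h (P (nat_lit 24552213189067014144)) (T.h (P (nat_lit 0)) (P (nat_lit 8713460479392)))))))) (T.h (P (nat_lit 0)) (T.h (T.h (M (nat_lit 606963566151509353693183)) (T.h (P (nat_lit 0)) (T.h (P (nat_lit 160391609105522884608)) (T.h (P (nat_lit 0)) (P (nat_lit 134195146157664)))))) (T.h (P (nat_lit 0)) (T.h (T.h (P (nat_lit 37129636244552155136)) (T.h (P (nat_lit 0)) (M (nat_lit 77309147628143)))) (T.h (P (nat_lit 0)) (P (nat_lit 14645707618464)))))))) (T.h (T.h (P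 (nat_lit 0)) (T.h (T.h (P (nat_lit 0)) (T.h (M (nat_lit 115192297782243615571967)) (T.h (P (nat_lit 0)) (M (nat_lit 300902337197998079))))) (T.h (P (nat_lit 0)) (T.h (T.h (P (nat_lit 0)) (M (nat_lit 20318761883959295))) (P (nat_lit 0)))))) (T.h (T.h (T.h (M (nat_lit 49326294657994179987111935)) (T.h (P (nat_lit 0)) (T.h (P (nat_lit 211642940836456431616)) (T.h (P (nat_lit 0)) (P (nat_lit 499241730033216)))))) (T.h (P (nat_lit 0)) (T.h (T.h (P (nat_lit 54087894479375695872)) (T.h (P (nat_lit 0)) (P (nat_lit 14513604933888)))) (T.h (P (nat_lit 0)) (P (nat_lit 26406644853168)))))) (T.h (T.h (P (nat_lit 0)) (T.h (T.h (P (nat_lit 0)) (M (nat_lit 78731064540430335))) (P (nat_lit 0)))) (T.h (T.h (T.h (M (nat_lit 98340197006326104063)) (T.h (P (nat_lit 0)) (P (nat_lit 352154342018448)))) (T.h (P (nat_lit 0)) (P (nat_lit 133240626359424)))) (T.h (P (nat_lit 0)) (M (nat_lit 87410689135199)))))))), (T.h (T.h (T.h (P (nat_lit 0)) (T.h (P (nat_lit 485246316002040588049317888))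 (T.h (P (nat_lit 0)) (T.h (P (nat_lit 47953310490409918529536)) (T.h (P (nat_lit 0)) (P (nat_lit 7655420903981056))))))) (T.h (P (nat_lit 0)) (T.h (T.h (P (nat_lit 0)) (T.h (P (nat_lit 116266967700160330596352)) (T.h (P (nat_lit 0)) (P (nat_lit 97934611223642112))))) (T.h (P (nat_lit 0)) (T.h (T.h (P (nat_lit 0)) (P (nat_lit 16022553870106624))) (P (nat_lit 0))))))) (T.h (T.h (P (nat_lit 0)) (T.h (T.h (M (nat_lit 28478335506665354741940223)) (T.h (P (nat_lit 0)) (M (nat_lit 379707384477398335487)))) (T.h (P (nat_lit 0)) (M (nat_lit 7399312085391245311))))) (T.h (T.h (T.h (P (nat_lit 0)) (T.h (P (nat_lit 156873228732256518930432)) (T.h (P (nat_lit 0)) (P (nat_lit 455296650780803072))))) (T.h (P (nat_lit 0)) (T.h (T.h (P (nat_lit 0)) (P (nat_lit 56832365739311104))) (P (nat_lit 0))))) (T.h (T.h (P (nat_lit 0)) (M (nat_lit 46219789068006326271))) (T.h (T.h (T.h (P (nat_lit 0)) (P (nat_lit 151896253560815616))) (P (nat_lit 0))) (P (nat_lit 0))))))),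 (P (nat_lit 0)), (P (nat_lit 0)), (T.h (T.h (P (nat_lit 0)) (T.h (T.h (M (nat_lit 15398477962580553354767761407)) (T.h (P (nat_lit 0)) (T.h (M (nat_lit 34570120424241787568127)) (T.h (P (nat_lit 0)) (M (nat_lit 73782082795405311)))))) (T.h (P (nat_lit 0)) (T.h (T.h (P (nat_lit 15035128725152324386816)) (T.h (P (nat_lit 0)) (P (nat_lit 32946150440730624)))) (T.h (P (nat_lit 0)) (M (nat_lit 2436278359752703))))))) (T.h (T.h (T.h (P (nat_lit 0)) (T.h (P (nat_lit 6529010842166020662099968)) (T.h (P (nat_lit 0)) (T.h (P (nat_lit 52608712282749272064)) (T.h (P (nat_lit 0)) (P (nat_lit 15377323687936))))))) (T.h (P (nat_lit 0)) (T.h (T.h (P (nat_lit 0)) (T.h (M (nat_lit 13935718119319273471)) (T.h (P (nat_lit 0)) (M (nat_lit 43662999342143))))) (T.h (P (nat_lit 0)) (T.h (T.h (P (nat_lit 0)) (P (nat_lit 53358334410624))) (P (nat_lit 0))))))) (T.h (T.h (P (nat_lit 0)) (T.h (T.h (M (nat_lit 34570120424241787568127)) (T.h (P (nat_lit 0)) (M (nat_lit 1586111751258111))))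 (T.h (P (nat_lit 0)) (P (nat_lit 32946150440730624))))) (T.h (T.h (T.h (P (nat_lit 0)) (T.h (P (nat_lit 52608712282749272064)) (T.h (P (nat_lit 0)) (P (nat_lit 80852307497216))))) (T.h (P (nat_lit 0)) (T.h (T.h (P (nat_lit 0)) (M (nat_lit 43662999342143))) (P (nat_lit 0))))) (T.h (T.h (P (nat_lit 0)) (M (nat_lit 73782082795405311))) (T.h (T.h (T.h (P (nat_lit 0)) (P (nat_lit 15377323687936))) (P (nat_lit 0))) (P (nat_lit 0)))))))), (T.h (T.h (P (nat_lit 0)) (T.h (T.h (P (nat_lit 0)) (T.h (M (nat_lit 29625130931332275844939775)) (T.h (P (nat_lit 0)) (T.h (P (nat_lit 6323371610589888512)) (T.h (P (nat_lit 0)) (M (nat_lit 38574100311983))))))) (T.h (P (nat_lit 0)) (T.h (T.h (P (nat_lit 0)) (T.h (M (nat_lit 19032430414556823551)) (T.h (P (nat_lit 0)) (M (nat_lit 11727087712703))))) (T.h (P (nat_lit 0)) (T.h (T.h (P (nat_lit 0)) (P (nat_lit 8704128682512))) (P (nat_lit 0)))))))) (T.h (T.h (T.h (M (nat_lit 24801631326153345891410378751)) (T.h (P (nat_lit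 0)) (T.h (P (nat_lit 69850975083097497796608)) (T.h (P (nat_lit 0)) (P (nat_lit 104265922317058048)))))) (T.h (P (nat_lit 0)) (T.h (T.h (M (nat_lit 810895736184433016831)) (T.h (P (nat_lit 0)) (M (nat_lit 41801263281635327)))) (T.h (P (nat_lit 0)) (P (nat_lit 21529164191711232)))))) (T.h (T.h (P (nat_lit 0)) (T.h (T.h (P (nat_lit 0)) (T.h (M (nat_lit 16352020845905838079)) (T.h (P (nat_lit 0)) (P (nat_lit 22287634534368))))) (T.h (P (nat_lit 0)) (T.h (T.h (P (nat_lit 0)) (P (nat_lit 18560116891440))) (P (nat_lit 0)))))) (T.h (T.h (T.h (P (nat_lit 878716978990749319168)) (T.h (P (nat_lit 0)) (P (nat_lit 198609520576053248)))) (T.h (P (nat_lit 0)) (P (nat_lit 75654353308729344)))) (T.h (T.h (P (nat_lit 0)) (T.h (T.h (P (nat_lit 0)) (M (nat_lit 53556555107663))) (P (nat_lit 0)))) (M (nat_lit 14991615373983743))))))), (T.h (T.h (P (nat_lit 0)) (T.h (T.h (P (nat_lit 5287393795622230931927990272)) (T.h (P (nat_lit 0)) (T.h (P (nat_lit 37042947306702845771776))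 (T.h (P (nat_lit 0)) (P (nat_lit 17184947940786176)))))) (T.h (P (nat_lit 0)) (T.h (T.h (P (nat_lit 10997930159462676430848)) (T.h (P (nat_lit 0)) (M (nat_lit 78374196030734335)))) (T.h (P (nat_lit 0)) (P (nat_lit 21976945639718912))))))) (T.h (T.h (T.h (P (nat_lit 0)) (T.h (P (nat_lit 7968129611153399804329984)) (T.h (P (nat_lit 0)) (P (nat_lit 28918869486353776640))))) (T.h (P (nat_lit 0)) (T.h (T.h (P (nat_lit 0)) (M (nat_lit 28063542199158046719))) (P (nat_lit 0))))) (T.h (T.h (P (nat_lit 0)) (T.h (T.h (P (nat_lit 11470395129475534684160)) (T.h (P (nat_lit 0)) (P (nat_lit 21820328043151360)))) (T.h (P (nat_lit 0)) (P (nat_lit 28259372670091264))))) (T.h (T.h (T.h (P (nat_lit 0)) (P (nat_lit 34246235936746635264))) (P (nat_lit 0))) (T.h (T.h (P (nat_lit 0)) (P (nat_lit 48452197856411648))) (P (nat_lit 0))))))), (P (nat_lit 0))]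
def lQp_7 : List (T ℤ) := [(P (nat_lit 0)), (T.h (T.h (T.h (M (nat_lit 104756641487949524293953746108415)) (T.h (P (nat_lit 0)) (T.h (M (nat_lit 12700455064882736074326015)) (T.h (P (nat_lit 0)) (T.h (M (nat_lit 19312137227118575615)) (T.h (P (nat_lit 0)) (M (nat_lit 56803544022671)))))))) (T.h (P (nat_lit 0)) (T.h (T.h (P (nat_lit 12972378171370217360326656)) (T.h (P (nat_lit 0)) (T.h (P (nat_lit 41641252604608512000)) (T.h (P (nat_lit 0)) (P (nat_lit 101867935691088)))))) (T.h (P (nat_lit 0)) (T.h (T.h (M (nat_lit 21943154770180046847)) (T.h (P (nat_lit 0)) (M (nat_lit 20140321589711)))) (T.h (P (nat_lit 0)) (M (nat_lit 1776113164223)))))))) (T.h (T.h (P (nat_lit 0)) (T.h (T.h (P (nat_lit 0)) (T.h (M (nat_lit 21864202026945664253951)) (T.h (P (nat_lit 0)) (M (nat_lit 86681298974244863))))) (T.h (P (nat_lit 0)) (T.h (T.h (P (nat_lit 0)) (P (nat_lit 70499875456942080))) (P (nat_lit 0)))))) (T.h (T.h (T.h (M (nat_lit 12700455064882736074326015)) (T.h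 (P (nat_lit 0)) (T.h (P (nat_lit 165826099962076725248)) (T.h (P (nat_lit 0)) (P (nat_lit 372699232900704)))))) (T.h (P (nat_lit 0)) (T.h (T.h (P (nat_lit 41641252604608512000)) (T.h (P (nat_lit 0)) (P (nat_lit 911442555360)))) (T.h (P (nat_lit 0)) (M (nat_lit 20140321589711)))))) (T.h (T.h (P (nat_lit 0)) (T.h (T.h (P (nat_lit 0)) (M (nat_lit 86681298974244863))) (P (nat_lit 0)))) (T.h (T.h (T.h (M (nat_lit 19312137227118575615)) (T.h (P (nat_lit 0)) (P (nat_lit 372699232900704)))) (T.h (P (nat_lit 0)) (P (nat_lit 101867935691088)))) (T.h (P (nat_lit 0)) (M (nat_lit 56803544022671)))))))), (T.h (T.h (T.h (P (nat_lit 0)) (T.h (M (nat_lit 2431989740396183413638299647)) (T.h (P (nat_lit 0)) (T.h (M (nat_lit 13155666161854431887359)) (T.h (P (nat_lit 0)) (M (nat_lit 86333522932170751))))))) (T.h (P (nat_lit 0)) (T.h (T.h (P (nat_lit 0)) (T.h (P (nat_lit 2389731705158014861312)) (T.h (P (nat_lit 0)) (P (nat_lit 84716766919393280))))) (T.h (P (nat_lit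 0)) (T.h (T.h (P (nat_lit 0)) (P (nat_lit 737280053051392))) (P (nat_lit 0))))))) (T.h (T.h (P (nat_lit 0)) (T.h (T.h (M (nat_lit 2731529024111075150266367)) (T.h (P (nat_lit 0)) (M (nat_lit 43502318328160976895)))) (T.h (P (nat_lit 0)) (M (nat_lit 2922520119437426687))))) (T.h (T.h (T.h (P (nat_lit 0)) (T.h (P (nat_lit 67764700985457142398976)) (T.h (P (nat_lit 0)) (P (nat_lit 344310799049883648))))) (T.h (P (nat_lit 0)) (T.h (T.h (P (nat_lit 0)) (P (nat_lit 13085180765306880))) (P (nat_lit 0))))) (T.h (T.h (P (nat_lit 0)) (P (nat_lit 14446821862908362752))) (T.h (T.h (T.h (P (nat_lit 0)) (P (nat_lit 157432470344531968))) (P (nat_lit 0))) (P (nat_lit 0))))))), (P (nat_lit 0)), (P (nat_lit 0)), (T.h (T.h (P (nat_lit 0)) (T.h (T.h (P (nat_lit 5327367447308101761250623488)) (T.h (P (nat_lit 0)) (T.h (P (nat_lit 10353613219124626849792)) (T.h (P (nat_lit 0)) (P (nat_lit 46361229398966272)))))) (T.h (P (nat_lit 0)) (T.h (T.h (M (nat_lit 11388161166645179449343))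 (T.h (P (nat_lit 0)) (M (nat_lit 18332168273657855)))) (T.h (P (nat_lit 0)) (M (nat_lit 2424986506887167))))))) (T.h (T.h (T.h (P (nat_lit 0)) (T.h (M (nat_lit 5308504745692747890950143)) (T.h (P (nat_lit 0)) (M (nat_lit 14637703011229499391))))) (T.h (P (nat_lit 0)) (T.h (T.h (P (nat_lit 0)) (P (nat_lit 10827735736636145664))) (P (nat_lit 0))))) (T.h (T.h (P (nat_lit 0)) (T.h (T.h (P (nat_lit 10353613219124626849792)) (T.h (P (nat_lit 0)) (P (nat_lit 414807634083840)))) (T.h (P (nat_lit 0)) (M (nat_lit 18332168273657855))))) (T.h (T.h (T.h (P (nat_lit 0)) (M (nat_lit 14637703011229499391))) (P (nat_lit 0))) (T.h (T.h (P (nat_lit 0)) (P (nat_lit 46361229398966272))) (P (nat_lit 0))))))), (P (nat_lit 0)), (P (nat_lit 0))]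
def lQp_8 : List (T ℤ) := [(P (nat_lit 0)), (P (nat_lit 0)), (P (nat_lit 0)), (T.h (T.h (P (nat_lit 0)) (T.h (T.h (P (nat_lit 0)) (T.h (P (nat_lit 7711323027092271844556800)) (T.h (P (nat_lit 0)) (T.h (M (nat_lit 1941185707053678591)) (T.h (P (nat_lit 0)) (M (nat_lit 10067002337967))))))) (T.h (P (nat_lit 0)) (T.h (T.h (P (nat_lit 0)) (T.h (P (nat_lit 17975258696120270848)) (T.h (P (nat_lit 0)) (M (nat_lit 13950046079655))))) (T.h (P (nat_lit 0)) (T.h (T.h (P (nat_lit 0)) (P (nat_lit 19714268702256))) (P (nat_lit 0)))))))) (T.h (T.h (T.h (P (nat_lit 1336912724198935606375481344)) (T.h (P (nat_lit 0)) (T.h (P (nat_lit 14528311290590639685632)) (T.h (P (nat_lit 0)) (P (nat_lit 1098191121285120)))))) (T.h (P (nat_lit 0)) (T.h (T.h (M (nat_lit 9934466073729626537983)) (T.h (P (nat_lit 0)) (M (nat_lit 17872552192311295)))) (T.h (P (nat_lit 0)) (M (nat_lit 1253650768494591)))))) (T.h (T.h (P (nat_lit 0)) (T.h (T.h (P (nat_lit 0)) (T.h (P (nat_lit 16284901690493108224))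 (T.h (P (nat_lit 0)) (P (nat_lit 12711245874064))))) (T.h (P (nat_lit 0)) (T.h (T.h (P (nat_lit 0)) (M (nat_lit 18669837897143))) (P (nat_lit 0)))))) (T.h (T.h (T.h (M (nat_lit 16607238043340504039423)) (T.h (P (nat_lit 0)) (M (nat_lit 31286343396327423)))) (T.h (P (nat_lit 0)) (M (nat_lit 32654557935075327)))) (T.h (T.h (P (nat_lit 0)) (T.h (T.h (P (nat_lit 0)) (P (nat_lit 20176616691848))) (P (nat_lit 0)))) (M (nat_lit 14287706602635263))))))), (T.h (T.h (P (nat_lit 0)) (T.h (T.h (P (nat_lit 23735099046155115220969717760)) (T.h (P (nat_lit 0)) (T.h (P (nat_lit 13919576347252589854720)) (T.h (P (nat_lit 0)) (M (nat_lit 42531209117253631)))))) (T.h (P (nat_lit 0)) (T.h (T.h (P (nat_lit 2222835744462361067520)) (T.h (P (nat_lit 0)) (M (nat_lit 57975825390141439)))) (T.h (P (nat_lit 0)) (P (nat_lit 21314379690999808))))))) (T.h (T.h (T.h (P (nat_lit 0)) (T.h (P (nat_lit 26738224194884310258417664)) (T.h (P (nat_lit 0)) (T.h (P (nat_lit 10879051756713541632))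 (T.h (P (nat_lit 0)) (M (nat_lit 14450944174591))))))) (T.h (P (nat_lit 0)) (T.h (T.h (P (nat_lit 0)) (T.h (M (nat_lit 1972893016427331583)) (T.h (P (nat_lit 0)) (M (nat_lit 4144068559599))))) (T.h (P (nat_lit 0)) (T.h (T.h (P (nat_lit 0)) (P (nat_lit 50708355223312))) (P (nat_lit 0))))))) (T.h (T.h (P (nat_lit 0)) (T.h (T.h (M (nat_lit 79357771058813610229759)) (T.h (P (nat_lit 0)) (P (nat_lit 14821950289199104)))) (T.h (P (nat_lit 0)) (M (nat_lit 192391894413017087))))) (T.h (T.h (T.h (P (nat_lit 0)) (T.h (P (nat_lit 7431377113195741184)) (T.h (P (nat_lit 0)) (P (nat_lit 6020971354256))))) (T.h (P (nat_lit 0)) (T.h (T.h (P (nat_lit 0)) (P (nat_lit 1500860940832))) (P (nat_lit 0))))) (T.h (T.h (P (nat_lit 0)) (M (nat_lit 112594984012251135))) (T.h (T.h (T.h (P (nat_lit 0)) (P (nat_lit 40339979884256))) (P (nat_lit 0))) (P (nat_lit 0)))))))), (T.h (T.h (P (nat_lit 0)) (T.h (T.h (P (nat_lit 0)) (T.h (M (nat_lit 2396886317862536817410047)) (T.h (P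 (nat_lit 0)) (T.h (P (nat_lit 329372831294947328)) (T.h (P (nat_lit 0)) (P (nat_lit 11754251825088))))))) (T.h (P (nat_lit 0)) (T.h (T.h (P (nat_lit 0)) (T.h (M (nat_lit 1986026304863993855)) (T.h (P (nat_lit 0)) (P (nat_lit 29851112519424))))) (T.h (P (nat_lit 0)) (T.h (T.h (P (nat_lit 0)) (M (nat_lit 15417053138367))) (P (nat_lit 0)))))))) (T.h (T.h (T.h (P (nat_lit 261693461976339468041322496)) (T.h (P (nat_lit 0)) (T.h (M (nat_lit 12263181683475735379967)) (T.h (P (nat_lit 0)) (M (nat_lit 52709437456547839)))))) (T.h (P (nat_lit 0)) (T.h (T.h (M (nat_lit 58005716067570298126335)) (T.h (P (nat_lit 0)) (P (nat_lit 66179228307161088)))) (T.h (P (nat_lit 0)) (M (nat_lit 147754045441376255)))))) (T.h (T.h (P (nat_lit 0)) (T.h (T.h (P (nat_lit 0)) (T.h (M (nat_lit 34541195107701358591)) (T.h (P (nat_lit 0)) (M (nat_lit 11941010524991))))) (T.h (P (nat_lit 0)) (T.h (T.h (P (nat_lit 0)) (P (nat_lit 39626086326080))) (P (nat_lit 0)))))) (T.h (T.h (T.h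 (P (nat_lit 36544984058959734243328)) (T.h (P (nat_lit 0)) (M (nat_lit 16066539524325375)))) (T.h (P (nat_lit 0)) (M (nat_lit 307809057127432191)))) (T.h (T.h (P (nat_lit 0)) (T.h (T.h (P (nat_lit 0)) (M (nat_lit 27782914614783))) (P (nat_lit 0)))) (P (nat_lit 92595113484189696))))))), (T.h (T.h (P (nat_lit 0)) (T.h (T.h (M (nat_lit 24801631326153345891410378751)) (T.h (P (nat_lit 0)) (T.h (M (nat_lit 810895736184433016831)) (T.h (P (nat_lit 0)) (P (nat_lit 21529164191711232)))))) (T.h (P (nat_lit 0)) (T.h (T.h (P (nat_lit 878716978990749319168)) (T.h (P (nat_lit 0)) (P (nat_lit 75654353308729344)))) (T.h (P (nat_lit 0)) (M (nat_lit 14991615373983743))))))) (T.h (T.h (T.h (P (nat_lit 0)) (T.h (M (nat_lit 29625130931332275844939775)) (T.h (P (nat_lit 0)) (T.h (M (nat_lit 19032430414556823551)) (T.h (P (nat_lit 0)) (P (nat_lit 8704128682512))))))) (T.h (P (nat_lit 0)) (T.h (T.h (P (nat_lit 0)) (T.h (M (nat_lit 16352020845905838079)) (T.h (P (nat_lit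 0)) (P (nat_lit 18560116891440))))) (T.h (P (nat_lit 0)) (T.h (T.h (P (nat_lit 0)) (M (nat_lit 53556555107663))) (P (nat_lit 0))))))) (T.h (T.h (P (nat_lit 0)) (T.h (T.h (P (nat_lit 69850975083097497796608)) (T.h (P (nat_lit 0)) (M (nat_lit 41801263281635327)))) (T.h (P (nat_lit 0)) (P (nat_lit 198609520576053248))))) (T.h (T.h (T.h (P (nat_lit 0)) (T.h (P (nat_lit 6323371610589888512)) (T.h (P (nat_lit 0)) (M (nat_lit 11727087712703))))) (T.h (P (nat_lit 0)) (T.h (T.h (P (nat_lit 0)) (P (nat_lit 22287634534368))) (P (nat_lit 0))))) (T.h (T.h (P (nat_lit 0)) (P (nat_lit 104265922317058048))) (T.h (T.h (T.h (P (nat_lit 0)) (M (nat_lit 38574100311983))) (P (nat_lit 0))) (P (nat_lit 0)))))))), (T.h (T.h (P (nat_lit 0)) (T.h (T.h (P (nat_lit 0)) (T.h (M (nat_lit 2731529024111075150266367)) (T.h (P (nat_lit 0)) (M (nat_lit 2922520119437426687))))) (T.h (P (nat_lit 0)) (T.h (T.h (P (nat_lit 0)) (P (nat_lit 14446821862908362752))) (P (nat_lit 0)))))) (T.h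 (T.h (T.h (M (nat_lit 2431989740396183413638299647)) (T.h (P (nat_lit 0)) (T.h (P (nat_lit 2389731705158014861312)) (T.h (P (nat_lit 0)) (P (nat_lit 737280053051392)))))) (T.h (P (nat_lit 0)) (T.h (T.h (P (nat_lit 67764700985457142398976)) (T.h (P (nat_lit 0)) (P (nat_lit 13085180765306880)))) (T.h (P (nat_lit 0)) (P (nat_lit 157432470344531968)))))) (T.h (T.h (P (nat_lit 0)) (T.h (T.h (P (nat_lit 0)) (M (nat_lit 43502318328160976895))) (P (nat_lit 0)))) (T.h (T.h (T.h (M (nat_lit 13155666161854431887359)) (T.h (P (nat_lit 0)) (P (nat_lit 84716766919393280)))) (T.h (P (nat_lit 0)) (P (nat_lit 344310799049883648)))) (T.h (P (nat_lit 0)) (M (nat_lit 86333522932170751)))))))]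
def lQp_9 : List (T ℤ) := [(P (nat_lit 0)), (P (nat_lit 0)), (T.h (T.h (T.h (P (nat_lit 0)) (T.h (P (nat_lit 0)) (T.h (M (nat_lit 231600349026101198061567)) (T.h (P (nat_lit 0)) (T.h (M (nat_lit 844542684713451519)) (T.h (P (nat_lit 0)) (M (nat_lit 2001849057247)))))))) (T.h (P (nat_lit 0)) (T.h (T.h (P (nat_lit 3928032781046310399639552)) (T.h (P (nat_lit 0)) (T.h (P (nat_lit 16144163762708938752)) (T.h (P (nat_lit 0)) (M (nat_lit 3214488030463)))))) (T.h (P (nat_lit 0)) (T.h (T.h (M (nat_lit 8649608026065469439)) (T.h (P (nat_lit 0)) (P (nat_lit 493387832048)))) (T.h (P (nat_lit 0)) (M (nat_lit 9660305695471)))))))) (T.h (T.h (P (nat_lit 0)) (T.h (T.h (P (nat_lit 0)) (T.h (P (nat_lit 385480514967894491136)) (T.h (P (nat_lit 0)) (M (nat_lit 391341705789439))))) (T.h (P (nat_lit 0)) (T.h (T.h (P (nat_lit 0)) (M (nat_lit 8812788919631871))) (P (nat_lit 0)))))) (T.h (T.h (T.h (P (nat_lit 3928032781046310399639552)) (T.h (P (nat_lit 0)) (T.h (P (nat_lit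 16144163762708938752)) (T.h (P (nat_lit 0)) (M (nat_lit 3214488030463)))))) (T.h (P (nat_lit 0)) (T.h (T.h (M (nat_lit 5377221110599254015)) (T.h (P (nat_lit 0)) (P (nat_lit 637453984352)))) (T.h (P (nat_lit 0)) (P (nat_lit 1435002260480)))))) (T.h (T.h (P (nat_lit 0)) (T.h (T.h (P (nat_lit 0)) (M (nat_lit 8812788919631871))) (P (nat_lit 0)))) (T.h (T.h (T.h (M (nat_lit 8649608026065469439)) (T.h (P (nat_lit 0)) (P (nat_lit 493387832048)))) (T.h (P (nat_lit 0)) (P (nat_lit 1435002260480)))) (T.h (P (nat_lit 0)) (M (nat_lit 9660305695471)))))))), (T.h (T.h (T.h (P (nat_lit 0)) (T.h (P (nat_lit 939231405214339478568566784)) (T.h (P (nat_lit 0)) (T.h (P (nat_lit 5845085690589601595392)) (T.h (P (nat_lit 0)) (P (nat_lit 5015311072231424))))))) (T.h (P (nat_lit 0)) (T.h (T.h (P (nat_lit 0)) (T.h (P (nat_lit 17027837181526034874368)) (T.h (P (nat_lit 0)) (M (nat_lit 34454543240347647))))) (T.h (P (nat_lit 0)) (T.h (T.h (P (nat_lit 0)) (P (nat_lit 5975307047600128)))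 (P (nat_lit 0))))))) (T.h (T.h (P (nat_lit 0)) (T.h (T.h (M (nat_lit 2299170196782604928155647)) (T.h (P (nat_lit 0)) (T.h (P (nat_lit 19379500169371320320)) (T.h (P (nat_lit 0)) (P (nat_lit 3163502112640)))))) (T.h (P (nat_lit 0)) (T.h (T.h (M (nat_lit 29984986299287732223)) (T.h (P (nat_lit 0)) (P (nat_lit 7964610238816)))) (T.h (P (nat_lit 0)) (M (nat_lit 57105588554927))))))) (T.h (T.h (T.h (P (nat_lit 0)) (T.h (P (nat_lit 17027837181526034874368)) (T.h (P (nat_lit 0)) (M (nat_lit 34454543240347647))))) (T.h (P (nat_lit 0)) (T.h (T.h (P (nat_lit 0)) (M (nat_lit 32323892618592255))) (P (nat_lit 0))))) (T.h (T.h (P (nat_lit 0)) (T.h (T.h (M (nat_lit 29984986299287732223)) (T.h (P (nat_lit 0)) (P (nat_lit 7964610238816)))) (T.h (P (nat_lit 0)) (M (nat_lit 33666772764575))))) (T.h (T.h (T.h (P (nat_lit 0)) (P (nat_lit 5975307047600128))) (P (nat_lit 0))) (T.h (T.h (P (nat_lit 0)) (M (nat_lit 57105588554927))) (P (nat_lit 0)))))))), (T.h (T.h (T.h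 (P (nat_lit 14100600292722984911817907634176)) (T.h (P (nat_lit 0)) (T.h (M (nat_lit 20814658395147442166169599)) (T.h (P (nat_lit 0)) (T.h (P (nat_lit 85689377122313830400)) (T.h (P (nat_lit 0)) (P (nat_lit 1272988433792)))))))) (T.h (P (nat_lit 0)) (T.h (T.h (M (nat_lit 19878225937938211091251199)) (T.h (P (nat_lit 0)) (T.h (M (nat_lit 173861728751022243839)) (T.h (P (nat_lit 0)) (P (nat_lit 60194524575488)))))) (T.h (P (nat_lit 0)) (T.h (T.h (P (nat_lit 27102934920853454848)) (T.h (P (nat_lit 0)) (P (nat_lit 23700434462528)))) (T.h (P (nat_lit 0)) (P (nat_lit 11718924976896)))))))) (T.h (T.h (P (nat_lit 0)) (T.h (T.h (P (nat_lit 0)) (T.h (P (nat_lit 197518166172726972121088)) (T.h (P (nat_lit 0)) (P (nat_lit 41940980879982592))))) (T.h (P (nat_lit 0)) (T.h (T.h (P (nat_lit 0)) (P (nat_lit 91112112846929920))) (P (nat_lit 0)))))) (T.h (T.h (T.h (M (nat_lit 19878225937938211091251199)) (T.h (P (nat_lit 0)) (T.h (M (nat_lit 173861728751022243839))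 (T.h (P (nat_lit 0)) (P (nat_lit 60194524575488)))))) (T.h (P (nat_lit 0)) (T.h (T.h (M (nat_lit 130767476210412814335)) (T.h (P (nat_lit 0)) (P (nat_lit 16099247337344)))) (T.h (P (nat_lit 0)) (M (nat_lit 28074662345023)))))) (T.h (T.h (P (nat_lit 0)) (T.h (T.h (P (nat_lit 0)) (P (nat_lit 91112112846929920))) (P (nat_lit 0)))) (T.h (T.h (T.h (P (nat_lit 27102934920853454848)) (T.h (P (nat_lit 0)) (P (nat_lit 23700434462528)))) (T.h (P (nat_lit 0)) (M (nat_lit 28074662345023)))) (T.h (P (nat_lit 0)) (P (nat_lit 11718924976896)))))))), (T.h (T.h (T.h (P (nat_lit 0)) (T.h (M (nat_lit 1892847221745848228151033855)) (T.h (P (nat_lit 0)) (T.h (M (nat_lit 30608946642825443803135)) (T.h (P (nat_lit 0)) (P (nat_lit 41383730525405184))))))) (T.h (P (nat_lit 0)) (T.h (T.h (P (nat_lit 0)) (T.h (M (nat_lit 84377462207756476874751)) (T.h (P (nat_lit 0)) (P (nat_lit 112684429692944384))))) (T.h (P (nat_lit 0)) (T.h (T.h (P (nat_lit 0)) (M (nat_lit 4353750354378751)))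 (P (nat_lit 0))))))) (T.h (T.h (P (nat_lit 0)) (T.h (T.h (P (nat_lit 52806908929216563881443328)) (T.h (P (nat_lit 0)) (T.h (M (nat_lit 82738826853778194431)) (T.h (P (nat_lit 0)) (P (nat_lit 93337690111776)))))) (T.h (P (nat_lit 0)) (T.h (T.h (P (nat_lit 82011797848584093696)) (T.h (P (nat_lit 0)) (M (nat_lit 38582463213215)))) (T.h (P (nat_lit 0)) (P (nat_lit 68505149127168))))))) (T.h (T.h (T.h (P (nat_lit 0)) (T.h (M (nat_lit 84377462207756476874751)) (T.h (P (nat_lit 0)) (P (nat_lit 112684429692944384))))) (T.h (P (nat_lit 0)) (T.h (T.h (P (nat_lit 0)) (P (nat_lit 117937861708251136))) (P (nat_lit 0))))) (T.h (T.h (P (nat_lit 0)) (T.h (T.h (P (nat_lit 82011797848584093696)) (T.h (P (nat_lit 0)) (M (nat_lit 38582463213215)))) (T.h (P (nat_lit 0)) (P (nat_lit 31906044562176))))) (T.h (T.h (T.h (P (nat_lit 0)) (M (nat_lit 4353750354378751))) (P (nat_lit 0))) (T.h (T.h (P (nat_lit 0)) (P (nat_lit 68505149127168))) (P (nat_lit 0)))))))), (T.h (T.h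 (T.h (M (nat_lit 12287190180425606716005116018687)) (T.h (P (nat_lit 0)) (T.h (P (nat_lit 3836605376147847800422400)) (T.h (P (nat_lit 0)) (P (nat_lit 34747549758858985472)))))) (T.h (P (nat_lit 0)) (T.h (T.h (P (nat_lit 822633096902632366145536)) (T.h (P (nat_lit 0)) (P (nat_lit 65115326894967881728)))) (T.h (P (nat_lit 0)) (P (nat_lit 6177230466576285696)))))) (T.h (T.h (P (nat_lit 0)) (T.h (T.h (P (nat_lit 0)) (T.h (M (nat_lit 126306685842223500623871)) (T.h (P (nat_lit 0)) (P (nat_lit 101851870552260608))))) (T.h (P (nat_lit 0)) (T.h (T.h (P (nat_lit 0)) (M (nat_lit 56164324190060543))) (P (nat_lit 0)))))) (T.h (T.h (T.h (P (nat_lit 822633096902632366145536)) (T.h (P (nat_lit 0)) (P (nat_lit 65115326894967881728)))) (T.h (P (nat_lit 0)) (P (nat_lit 183649484888055218176)))) (T.h (T.h (P (nat_lit 0)) (T.h (T.h (P (nat_lit 0)) (M (nat_lit 56164324190060543))) (P (nat_lit 0)))) (P (nat_lit 6177230466576285696)))))), (P (nat_lit 0))]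
def lQp_10 : List (T ℤ) := [(P (nat_lit 0)), (T.h (T.h (P (nat_lit 0)) (T.h (T.h (P (nat_lit 0)) (T.h (P (nat_lit 11846287897371344409460736)) (T.h (P (nat_lit 0)) (T.h (P (nat_lit 2067421660583034880)) (T.h (P (nat_lit 0)) (M (nat_lit 2269114281607))))))) (T.h (P (nat_lit 0)) (T.h (T.h (P (nat_lit 0)) (T.h (P (nat_lit 2067421660583034880)) (T.h (P (nat_lit 0)) (M (nat_lit 15762047440479))))) (T.h (P (nat_lit 0)) (T.h (T.h (P (nat_lit 0)) (M (nat_lit 2269114281607))) (P (nat_lit 0)))))))) (T.h (T.h (T.h (P (nat_lit 15402168289072731171697197056)) (T.h (P (nat_lit 0)) (T.h (M (nat_lit 11981056555094214967295)) (T.h (P (nat_lit 0)) (M (nat_lit 4957158622429183)))))) (T.h (P (nat_lit 0)) (T.h (T.h (M (nat_lit 11981056555094214967295)) (T.h (P (nat_lit 0)) (P (nat_lit 10988538740539392)))) (T.h (P (nat_lit 0)) (M (nat_lit 4957158622429183)))))) (T.h (T.h (P (nat_lit 0)) (T.h (T.h (P (nat_lit 0)) (T.h (P (nat_lit 14151673906531926016)) (T.h (P (nat_lit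 0)) (M (nat_lit 1225760817911))))) (T.h (P (nat_lit 0)) (T.h (T.h (P (nat_lit 0)) (M (nat_lit 1225760817911))) (P (nat_lit 0)))))) (T.h (T.h (T.h (P (nat_lit 8933566045147298267136)) (T.h (P (nat_lit 0)) (M (nat_lit 6111597523468287)))) (T.h (P (nat_lit 0)) (M (nat_lit 6111597523468287)))) (T.h (T.h (P (nat_lit 0)) (T.h (T.h (P (nat_lit 0)) (P (nat_lit 40523289780496))) (P (nat_lit 0)))) (M (nat_lit 4700088185651199))))))), (T.h (T.h (P (nat_lit 0)) (T.h (T.h (P (nat_lit 10079987083909034611327369216)) (T.h (P (nat_lit 0)) (T.h (M (nat_lit 37782109535124318060543)) (T.h (P (nat_lit 0)) (M (nat_lit 75512122738147327)))))) (T.h (P (nat_lit 0)) (T.h (T.h (M (nat_lit 45300279559282594152447)) (T.h (P (nat_lit 0)) (M (nat_lit 47073572298719231)))) (T.h (P (nat_lit 0)) (M (nat_lit 23378992595042303))))))) (T.h (T.h (T.h (P (nat_lit 0)) (T.h (M (nat_lit 6799619440246064861413375)) (T.h (P (nat_lit 0)) (T.h (M (nat_lit 12514945616788324351)) (T.h (P (nat_lit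 0)) (M (nat_lit 35685065481487))))))) (T.h (P (nat_lit 0)) (T.h (T.h (P (nat_lit 0)) (T.h (M (nat_lit 17705015762189549567)) (T.h (P (nat_lit 0)) (M (nat_lit 1228216181215))))) (T.h (P (nat_lit 0)) (T.h (T.h (P (nat_lit 0)) (M (nat_lit 6049335980319))) (P (nat_lit 0))))))) (T.h (T.h (P (nat_lit 0)) (T.h (T.h (M (nat_lit 11310640369533815095295)) (T.h (P (nat_lit 0)) (P (nat_lit 151495464121647104)))) (T.h (P (nat_lit 0)) (P (nat_lit 6315630857781248))))) (T.h (T.h (T.h (P (nat_lit 0)) (T.h (P (nat_lit 39462934967496998912)) (T.h (P (nat_lit 0)) (M (nat_lit 13381475394175))))) (T.h (P (nat_lit 0)) (T.h (T.h (P (nat_lit 0)) (P (nat_lit 31589154588192))) (P (nat_lit 0))))) (T.h (T.h (P (nat_lit 0)) (M (nat_lit 73608423624703999))) (T.h (T.h (T.h (P (nat_lit 0)) (P (nat_lit 15958812818176))) (P (nat_lit 0))) (P (nat_lit 0)))))))), (T.h (T.h (P (nat_lit 0)) (T.h (T.h (P (nat_lit 0)) (T.h (M (nat_lit 92849442016214720519864319)) (T.h (P (nat_lit 0)) (T.h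 (M (nat_lit 4879699560999419903)) (T.h (P (nat_lit 0)) (P (nat_lit 80261662914944))))))) (T.h (P (nat_lit 0)) (T.h (T.h (P (nat_lit 0)) (T.h (P (nat_lit 18730425569333215232)) (T.h (P (nat_lit 0)) (P (nat_lit 52990702494400))))) (T.h (P (nat_lit 0)) (T.h (T.h (P (nat_lit 0)) (M (nat_lit 1918557931519))) (P (nat_lit 0)))))))) (T.h (T.h (T.h (P (nat_lit 2329533710682329323256414208)) (T.h (P (nat_lit 0)) (T.h (P (nat_lit 54157787946408185167872)) (T.h (P (nat_lit 0)) (M (nat_lit 188300657747984383)))))) (T.h (P (nat_lit 0)) (T.h (T.h (M (nat_lit 4759270580204760727551)) (T.h (P (nat_lit 0)) (M (nat_lit 105894992781311999)))) (T.h (P (nat_lit 0)) (P (nat_lit 4352544021512192)))))) (T.h (T.h (P (nat_lit 0)) (T.h (T.h (P (nat_lit 0)) (T.h (P (nat_lit 37162643078086918144)) (T.h (P (nat_lit 0)) (M (nat_lit 127847904933183))))) (T.h (P (nat_lit 0)) (T.h (T.h (P (nat_lit 0)) (P (nat_lit 24709703586560))) (P (nat_lit 0)))))) (T.h (T.h (T.h (M (nat_lit 44316061718040580980735))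 (T.h (P (nat_lit 0)) (M (nat_lit 126055557227184127)))) (T.h (P (nat_lit 0)) (P (nat_lit 58487381201682432)))) (T.h (T.h (P (nat_lit 0)) (T.h (T.h (P (nat_lit 0)) (M (nat_lit 1144468606655))) (P (nat_lit 0)))) (P (nat_lit 46707744146751488))))))), (T.h (T.h (P (nat_lit 0)) (T.h (T.h (M (nat_lit 72478261872372897710639939583)) (T.h (P (nat_lit 0)) (T.h (M (nat_lit 29227457131615847710719)) (T.h (P (nat_lit 0)) (P (nat_lit 120914351725740032)))))) (T.h (P (nat_lit 0)) (T.h (T.h (P (nat_lit 87123053949393083301888)) (T.h (P (nat_lit 0)) (P (nat_lit 155218703881830400)))) (T.h (P (nat_lit 0)) (M (nat_lit 23341432239112191))))))) (T.h (T.h (T.h (P (nat_lit 0)) (T.h (P (nat_lit 103001419594148129347207168)) (T.h (P (nat_lit 0)) (T.h (M (nat_lit 54963012511008292863)) (T.h (P (nat_lit 0)) (P (nat_lit 32752559787552))))))) (T.h (P (nat_lit 0)) (T.h (T.h (P (nat_lit 0)) (T.h (M (nat_lit 68199807893534408703)) (T.h (P (nat_lit 0)) (M (nat_lit 3247963595855)))))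 (T.h (P (nat_lit 0)) (T.h (T.h (P (nat_lit 0)) (M (nat_lit 139411251903167))) (P (nat_lit 0))))))) (T.h (T.h (P (nat_lit 0)) (T.h (T.h (M (nat_lit 155514434487671085596671)) (T.h (P (nat_lit 0)) (P (nat_lit 26519925572091904)))) (T.h (P (nat_lit 0)) (P (nat_lit 139103987127779328))))) (T.h (T.h (T.h (P (nat_lit 0)) (T.h (M (nat_lit 77790327255810965503)) (T.h (P (nat_lit 0)) (P (nat_lit 12834186665184))))) (T.h (P (nat_lit 0)) (T.h (T.h (P (nat_lit 0)) (M (nat_lit 215827605369791))) (P (nat_lit 0))))) (T.h (T.h (P (nat_lit 0)) (P (nat_lit 98322677260517376))) (T.h (T.h (T.h (P (nat_lit 0)) (M (nat_lit 45849852608687))) (P (nat_lit 0))) (P (nat_lit 0)))))))), (T.h (T.h (P (nat_lit 0)) (T.h (T.h (P (nat_lit 0)) (T.h (P (nat_lit 18488068673796538873413632)) (T.h (P (nat_lit 0)) (M (nat_lit 13067073905649254399))))) (T.h (P (nat_lit 0)) (T.h (T.h (P (nat_lit 0)) (P (nat_lit 3412449340189310976))) (P (nat_lit 0)))))) (T.h (T.h (T.h (P (nat_lit 1043116937690069580088606720))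 (T.h (P (nat_lit 0)) (T.h (M (nat_lit 12925985027821664206847)) (T.h (P (nat_lit 0)) (P (nat_lit 70522602099113984)))))) (T.h (P (nat_lit 0)) (T.h (T.h (P (nat_lit 101464149854981390860288)) (T.h (P (nat_lit 0)) (M (nat_lit 21950935167303679)))) (T.h (P (nat_lit 0)) (P (nat_lit 273430289931173888)))))) (T.h (T.h (P (nat_lit 0)) (T.h (T.h (P (nat_lit 0)) (P (nat_lit 3225623507505250304))) (P (nat_lit 0)))) (T.h (T.h (T.h (M (nat_lit 61764923110046956519423)) (T.h (P (nat_lit 0)) (P (nat_lit 121260396594069504)))) (T.h (P (nat_lit 0)) (P (nat_lit 293207130200866816)))) (T.h (P (nat_lit 0)) (M (nat_lit 114189388980387839))))))), (P (nat_lit 0)), (P (nat_lit 0))]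
def lQp_11 : List (T ℤ) := [(T.h (T.h (T.h (P (nat_lit 0)) (T.h (P (nat_lit 0)) (T.h (P (nat_lit 3928032781046310399639552)) (T.h (P (nat_lit 0)) (T.h (M (nat_lit 8649608026065469439)) (T.h (P (nat_lit 0)) (M (nat_lit 9660305695471)))))))) (T.h (P (nat_lit 0)) (T.h (T.h (M (nat_lit 231600349026101198061567)) (T.h (P (nat_lit 0)) (T.h (P (nat_lit 16144163762708938752)) (T.h (P (nat_lit 0)) (P (nat_lit 493387832048)))))) (T.h (P (nat_lit 0)) (T.h (T.h (M (nat_lit 844542684713451519)) (T.h (P (nat_lit 0)) (M (nat_lit 3214488030463)))) (T.h (P (nat_lit 0)) (M (nat_lit 2001849057247)))))))) (T.h (T.h (P (nat_lit 0)) (T.h (T.h (P (nat_lit 0)) (T.h (P (nat_lit 385480514967894491136)) (T.h (P (nat_lit 0)) (M (nat_lit 8812788919631871))))) (T.h (P (nat_lit 0)) (T.h (T.h (P (nat_lit 0)) (M (nat_lit 391341705789439))) (P (nat_lit 0)))))) (T.h (T.h (T.h (P (nat_lit 3928032781046310399639552)) (T.h (P (nat_lit 0)) (T.h (M (nat_lit 5377221110599254015)) (T.h (P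 (nat_lit 0)) (P (nat_lit 1435002260480)))))) (T.h (P (nat_lit 0)) (T.h (T.h (P (nat_lit 16144163762708938752)) (T.h (P (nat_lit 0)) (P (nat_lit 637453984352)))) (T.h (P (nat_lit 0)) (M (nat_lit 3214488030463)))))) (T.h (T.h (P (nat_lit 0)) (T.h (T.h (P (nat_lit 0)) (M (nat_lit 8812788919631871))) (P (nat_lit 0)))) (T.h (T.h (T.h (M (nat_lit 8649608026065469439)) (T.h (P (nat_lit 0)) (P (nat_lit 1435002260480)))) (T.h (P (nat_lit 0)) (P (nat_lit 493387832048)))) (T.h (P (nat_lit 0)) (M (nat_lit 9660305695471)))))))), (T.h (T.h (T.h (P (nat_lit 0)) (T.h (P (nat_lit 10079987083909034611327369216)) (T.h (P (nat_lit 0)) (T.h (M (nat_lit 45300279559282594152447)) (T.h (P (nat_lit 0)) (M (nat_lit 23378992595042303))))))) (T.h (P (nat_lit 0)) (T.h (T.h (P (nat_lit 0)) (T.h (M (nat_lit 37782109535124318060543)) (T.h (P (nat_lit 0)) (M (nat_lit 47073572298719231))))) (T.h (P (nat_lit 0)) (T.h (T.h (P (nat_lit 0)) (M (nat_lit 75512122738147327))) (P (nat_lit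 0))))))) (T.h (T.h (P (nat_lit 0)) (T.h (T.h (M (nat_lit 6799619440246064861413375)) (T.h (P (nat_lit 0)) (T.h (M (nat_lit 17705015762189549567)) (T.h (P (nat_lit 0)) (M (nat_lit 6049335980319)))))) (T.h (P (nat_lit 0)) (T.h (T.h (M (nat_lit 12514945616788324351)) (T.h (P (nat_lit 0)) (M (nat_lit 1228216181215)))) (T.h (P (nat_lit 0)) (M (nat_lit 35685065481487))))))) (T.h (T.h (T.h (P (nat_lit 0)) (T.h (M (nat_lit 11310640369533815095295)) (T.h (P (nat_lit 0)) (P (nat_lit 6315630857781248))))) (T.h (P (nat_lit 0)) (T.h (T.h (P (nat_lit 0)) (P (nat_lit 151495464121647104))) (P (nat_lit 0))))) (T.h (T.h (P (nat_lit 0)) (T.h (T.h (P (nat_lit 39462934967496998912)) (T.h (P (nat_lit 0)) (P (nat_lit 31589154588192)))) (T.h (P (nat_lit 0)) (M (nat_lit 13381475394175))))) (T.h (T.h (T.h (P (nat_lit 0)) (M (nat_lit 73608423624703999))) (P (nat_lit 0))) (T.h (T.h (P (nat_lit 0)) (P (nat_lit 15958812818176))) (P (nat_lit 0)))))))), (T.h (T.h (T.h (M (nat_lit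 21520037286728407769033360801791)) (T.h (P (nat_lit 0)) (T.h (M (nat_lit 32593995845760491378966527)) (T.h (P (nat_lit 0)) (T.h (M (nat_lit 50382098732544950271)) (T.h (P (nat_lit 0)) (P (nat_lit 3869997229440)))))))) (T.h (P (nat_lit 0)) (T.h (T.h (M (nat_lit 32593995845760491378966527)) (T.h (P (nat_lit 0)) (T.h (P (nat_lit 156838974676478722048)) (T.h (P (nat_lit 0)) (P (nat_lit 22036195153536)))))) (T.h (P (nat_lit 0)) (T.h (T.h (M (nat_lit 50382098732544950271)) (T.h (P (nat_lit 0)) (P (nat_lit 22036195153536)))) (T.h (P (nat_lit 0)) (P (nat_lit 3869997229440)))))))) (T.h (T.h (P (nat_lit 0)) (T.h (T.h (P (nat_lit 0)) (T.h (M (nat_lit 191967605361147471986687)) (T.h (P (nat_lit 0)) (M (nat_lit 231257191597735935))))) (T.h (P (nat_lit 0)) (T.h (T.h (P (nat_lit 0)) (M (nat_lit 231257191597735935))) (P (nat_lit 0)))))) (T.h (T.h (T.h (P (nat_lit 150799623545482001323655168)) (T.h (P (nat_lit 0)) (T.h (P (nat_lit 2972981622955048960)) (T.h (P (nat_lit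 0)) (P (nat_lit 5998670132480)))))) (T.h (P (nat_lit 0)) (T.h (T.h (P (nat_lit 2972981622955048960)) (T.h (P (nat_lit 0)) (M (nat_lit 63864146695807)))) (T.h (P (nat_lit 0)) (P (nat_lit 5998670132480)))))) (T.h (T.h (P (nat_lit 0)) (T.h (T.h (P (nat_lit 0)) (M (nat_lit 143974309221105663))) (P (nat_lit 0)))) (T.h (T.h (T.h (P (nat_lit 90644100694493102080)) (T.h (P (nat_lit 0)) (P (nat_lit 52873795194880)))) (T.h (P (nat_lit 0)) (P (nat_lit 52873795194880)))) (T.h (P (nat_lit 0)) (P (nat_lit 17293522131840)))))))), (T.h (T.h (T.h (P (nat_lit 0)) (T.h (M (nat_lit 1388833709443735624582430719)) (T.h (P (nat_lit 0)) (T.h (P (nat_lit 87650396103575026532352)) (T.h (P (nat_lit 0)) (P (nat_lit 78829327298969600))))))) (T.h (P (nat_lit 0)) (T.h (T.h (P (nat_lit 0)) (T.h (M (nat_lit 1652790154048969900031)) (T.h (P (nat_lit 0)) (P (nat_lit 218623802189496320))))) (T.h (P (nat_lit 0)) (T.h (T.h (P (nat_lit 0)) (P (nat_lit 60744512777912320))) (P (nat_lit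 0))))))) (T.h (T.h (P (nat_lit 0)) (T.h (T.h (P (nat_lit 153413495533932063255166976)) (T.h (P (nat_lit 0)) (T.h (M (nat_lit 136039828561613291519)) (T.h (P (nat_lit 0)) (M (nat_lit 22262947040159)))))) (T.h (P (nat_lit 0)) (T.h (T.h (M (nat_lit 110231245384298004479)) (T.h (P (nat_lit 0)) (M (nat_lit 165739260395375)))) (T.h (P (nat_lit 0)) (P (nat_lit 77442952494384))))))) (T.h (T.h (T.h (P (nat_lit 0)) (T.h (M (nat_lit 68126053748545643610111)) (T.h (P (nat_lit 0)) (P (nat_lit 69140507328200704))))) (T.h (P (nat_lit 0)) (T.h (T.h (P (nat_lit 0)) (P (nat_lit 367559157077147648))) (P (nat_lit 0))))) (T.h (T.h (P (nat_lit 0)) (T.h (T.h (P (nat_lit 387258353633040793600)) (T.h (P (nat_lit 0)) (M (nat_lit 127505483758511)))) (T.h (P (nat_lit 0)) (M (nat_lit 2395349943695))))) (T.h (T.h (T.h (P (nat_lit 0)) (P (nat_lit 141085513302016))) (P (nat_lit 0))) (T.h (T.h (P (nat_lit 0)) (P (nat_lit 31976606021472))) (P (nat_lit 0)))))))), (T.h (T.h (T.h (M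 (nat_lit 19245058767597118072917487255551)) (T.h (P (nat_lit 0)) (T.h (P (nat_lit 49064869503036694296788992)) (T.h (P (nat_lit 0)) (P (nat_lit 58062886536468234240)))))) (T.h (P (nat_lit 0)) (T.h (T.h (P (nat_lit 8849924118460195124805632)) (T.h (P (nat_lit 0)) (P (nat_lit 78300033919217565696)))) (T.h (P (nat_lit 0)) (M (nat_lit 22472147538827804671)))))) (T.h (T.h (P (nat_lit 0)) (T.h (T.h (P (nat_lit 0)) (T.h (P (nat_lit 171507145602860729761792)) (T.h (P (nat_lit 0)) (P (nat_lit 11742295132012544))))) (T.h (P (nat_lit 0)) (T.h (T.h (P (nat_lit 0)) (M (nat_lit 200573530775551999))) (P (nat_lit 0)))))) (T.h (T.h (T.h (M (nat_lit 59825625941170914374713343)) (T.h (P (nat_lit 0)) (P (nat_lit 45880012597962473472)))) (T.h (P (nat_lit 0)) (P (nat_lit 218013063006075748352)))) (T.h (T.h (P (nat_lit 0)) (T.h (T.h (P (nat_lit 0)) (M (nat_lit 189747104945602559))) (P (nat_lit 0)))) (M (nat_lit 12951678390250766335)))))), (P (nat_lit 0)), (P (nat_lit 0)),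 (T.h (T.h (P (nat_lit 0)) (T.h (T.h (P (nat_lit 0)) (T.h (P (nat_lit 7711323027092271844556800)) (T.h (P (nat_lit 0)) (T.h (P (nat_lit 17975258696120270848)) (T.h (P (nat_lit 0)) (P (nat_lit 19714268702256))))))) (T.h (P (nat_lit 0)) (T.h (T.h (P (nat_lit 0)) (T.h (M (nat_lit 1941185707053678591)) (T.h (P (nat_lit 0)) (M (nat_lit 13950046079655))))) (T.h (P (nat_lit 0)) (T.h (T.h (P (nat_lit 0)) (M (nat_lit 10067002337967))) (P (nat_lit 0)))))))) (T.h (T.h (T.h (P (nat_lit 1336912724198935606375481344)) (T.h (P (nat_lit 0)) (T.h (M (nat_lit 9934466073729626537983)) (T.h (P (nat_lit 0)) (M (nat_lit 1253650768494591)))))) (T.h (P (nat_lit 0)) (T.h (T.h (P (nat_lit 14528311290590639685632)) (T.h (P (nat_lit 0)) (M (nat_lit 17872552192311295)))) (T.h (P (nat_lit 0)) (P (nat_lit 1098191121285120)))))) (T.h (T.h (P (nat_lit 0)) (T.h (T.h (P (nat_lit 0)) (T.h (P (nat_lit 16284901690493108224)) (T.h (P (nat_lit 0)) (M (nat_lit 18669837897143))))) (T.h (P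 (nat_lit 0)) (T.h (T.h (P (nat_lit 0)) (P (nat_lit 12711245874064))) (P (nat_lit 0)))))) (T.h (T.h (T.h (M (nat_lit 16607238043340504039423)) (T.h (P (nat_lit 0)) (M (nat_lit 32654557935075327)))) (T.h (P (nat_lit 0)) (M (nat_lit 31286343396327423)))) (T.h (T.h (P (nat_lit 0)) (T.h (T.h (P (nat_lit 0)) (P (nat_lit 20176616691848))) (P (nat_lit 0)))) (M (nat_lit 14287706602635263)))))))]
def lQp_12 : List (T ℤ) := [(T.h (T.h (P (nat_lit 0)) (T.h (T.h (P (nat_lit 939231405214339478568566784)) (T.h (P (nat_lit 0)) (T.h (P (nat_lit 17027837181526034874368)) (T.h (P (nat_lit 0)) (P (nat_lit 5975307047600128)))))) (T.h (P (nat_lit 0)) (T.h (T.h (P (nat_lit 5845085690589601595392)) (T.h (P (nat_lit 0)) (M (nat_lit 34454543240347647)))) (T.h (P (nat_lit 0)) (P (nat_lit 5015311072231424))))))) (T.h (T.h (T.h (P (nat_lit 0)) (T.h (M (nat_lit 2299170196782604928155647)) (T.h (P (nat_lit 0)) (T.h (M (nat_lit 29984986299287732223)) (T.h (P (nat_lit 0)) (M (nat_lit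 57105588554927))))))) (T.h (P (nat_lit 0)) (T.h (T.h (P (nat_lit 0)) (T.h (P (nat_lit 19379500169371320320)) (T.h (P (nat_lit 0)) (P (nat_lit 7964610238816))))) (T.h (P (nat_lit 0)) (T.h (T.h (P (nat_lit 0)) (P (nat_lit 3163502112640))) (P (nat_lit 0))))))) (T.h (T.h (P (nat_lit 0)) (T.h (T.h (P (nat_lit 17027837181526034874368)) (T.h (P (nat_lit 0)) (M (nat_lit 32323892618592255)))) (T.h (P (nat_lit 0)) (M (nat_lit 34454543240347647))))) (T.h (T.h (T.h (P (nat_lit 0)) (T.h (M (nat_lit 29984986299287732223)) (T.h (P (nat_lit 0)) (M (nat_lit 33666772764575))))) (T.h (P (nat_lit 0)) (T.h (T.h (P (nat_lit 0)) (P (nat_lit 7964610238816))) (P (nat_lit 0))))) (T.h (T.h (P (nat_lit 0)) (P (nat_lit 5975307047600128))) (T.h (T.h (T.h (P (nat_lit 0)) (M (nat_lit 57105588554927))) (P (nat_lit 0))) (P (nat_lit 0)))))))), (T.h (T.h (P (nat_lit 0)) (T.h (T.h (P (nat_lit 0)) (T.h (M (nat_lit 92849442016214720519864319)) (T.h (P (nat_lit 0)) (T.h (P (nat_lit 18730425569333215232))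 (T.h (P (nat_lit 0)) (M (nat_lit 1918557931519))))))) (T.h (P (nat_lit 0)) (T.h (T.h (P (nat_lit 0)) (T.h (M (nat_lit 4879699560999419903)) (T.h (P (nat_lit 0)) (P (nat_lit 52990702494400))))) (T.h (P (nat_lit 0)) (T.h (T.h (P (nat_lit 0)) (P (nat_lit 80261662914944))) (P (nat_lit 0)))))))) (T.h (T.h (T.h (P (nat_lit 2329533710682329323256414208)) (T.h (P (nat_lit 0)) (T.h (M (nat_lit 4759270580204760727551)) (T.h (P (nat_lit 0)) (P (nat_lit 4352544021512192)))))) (T.h (P (nat_lit 0)) (T.h (T.h (P (nat_lit 54157787946408185167872)) (T.h (P (nat_lit 0)) (M (nat_lit 105894992781311999)))) (T.h (P (nat_lit 0)) (M (nat_lit 188300657747984383)))))) (T.h (T.h (P (nat_lit 0)) (T.h (T.h (P (nat_lit 0)) (T.h (P (nat_lit 37162643078086918144)) (T.h (P (nat_lit 0)) (P (nat_lit 24709703586560))))) (T.h (P (nat_lit 0)) (T.h (T.h (P (nat_lit 0)) (M (nat_lit 127847904933183))) (P (nat_lit 0)))))) (T.h (T.h (T.h (M (nat_lit 44316061718040580980735)) (T.h (P (nat_lit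 0)) (P (nat_lit 58487381201682432)))) (T.h (P (nat_lit 0)) (M (nat_lit 126055557227184127)))) (T.h (T.h (P (nat_lit 0)) (T.h (T.h (P (nat_lit 0)) (M (nat_lit 1144468606655))) (P (nat_lit 0)))) (P (nat_lit 46707744146751488))))))), (T.h (T.h (P (nat_lit 0)) (T.h (T.h (M (nat_lit 1388833709443735624582430719)) (T.h (P (nat_lit 0)) (T.h (M (nat_lit 1652790154048969900031)) (T.h (P (nat_lit 0)) (P (nat_lit 60744512777912320)))))) (T.h (P (nat_lit 0)) (T.h (T.h (P (nat_lit 87650396103575026532352)) (T.h (P (nat_lit 0)) (P (nat_lit 218623802189496320)))) (T.h (P (nat_lit 0)) (P (nat_lit 78829327298969600))))))) (T.h (T.h (T.h (P (nat_lit 0)) (T.h (P (nat_lit 153413495533932063255166976)) (T.h (P (nat_lit 0)) (T.h (M (nat_lit 110231245384298004479)) (T.h (P (nat_lit 0)) (P (nat_lit 77442952494384))))))) (T.h (P (nat_lit 0)) (T.h (T.h (P (nat_lit 0)) (T.h (M (nat_lit 136039828561613291519)) (T.h (P (nat_lit 0)) (M (nat_lit 165739260395375))))) (T.h (P (nat_lit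 0)) (T.h (T.h (P (nat_lit 0)) (M (nat_lit 22262947040159))) (P (nat_lit 0))))))) (T.h (T.h (P (nat_lit 0)) (T.h (T.h (M (nat_lit 68126053748545643610111)) (T.h (P (nat_lit 0)) (P (nat_lit 367559157077147648)))) (T.h (P (nat_lit 0)) (P (nat_lit 69140507328200704))))) (T.h (T.h (T.h (P (nat_lit 0)) (T.h (P (nat_lit 387258353633040793600)) (T.h (P (nat_lit 0)) (M (nat_lit 2395349943695))))) (T.h (P (nat_lit 0)) (T.h (T.h (P (nat_lit 0)) (M (nat_lit 127505483758511))) (P (nat_lit 0))))) (T.h (T.h (P (nat_lit 0)) (P (nat_lit 141085513302016))) (T.h (T.h (T.h (P (nat_lit 0)) (P (nat_lit 31976606021472))) (P (nat_lit 0))) (P (nat_lit 0)))))))), (T.h (T.h (P (nat_lit 0)) (T.h (T.h (P (nat_lit 0)) (T.h (M (nat_lit 120814795054612235002314751)) (T.h (P (nat_lit 0)) (P (nat_lit 107041884051731382272))))) (T.h (P (nat_lit 0)) (T.h (T.h (P (nat_lit 0)) (P (nat_lit 107041884051731382272))) (P (nat_lit 0)))))) (T.h (T.h (T.h (P (nat_lit 29465771449952636056513806336))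 (T.h (P (nat_lit 0)) (T.h (P (nat_lit 35933518468873375973376)) (T.h (P (nat_lit 0)) (P (nat_lit 116566425178505216)))))) (T.h (P (nat_lit 0)) (T.h (T.h (P (nat_lit 35933518468873375973376)) (T.h (P (nat_lit 0)) (M (nat_lit 206294093546192895)))) (T.h (P (nat_lit 0)) (P (nat_lit 116566425178505216)))))) (T.h (T.h (P (nat_lit 0)) (T.h (T.h (P (nat_lit 0)) (P (nat_lit 179113940030792400896))) (P (nat_lit 0)))) (T.h (T.h (T.h (P (nat_lit 3651158552685087555584)) (T.h (P (nat_lit 0)) (P (nat_lit 36771961311526912)))) (T.h (P (nat_lit 0)) (P (nat_lit 36771961311526912)))) (T.h (P (nat_lit 0)) (M (nat_lit 82143803782594559))))))), (P (nat_lit 0)), (P (nat_lit 0)), (T.h (T.h (T.h (P (nat_lit 0)) (T.h (P (nat_lit 23735099046155115220969717760)) (T.h (P (nat_lit 0)) (T.h (P (nat_lit 2222835744462361067520)) (T.h (P (nat_lit 0)) (P (nat_lit 21314379690999808))))))) (T.h (P (nat_lit 0)) (T.h (T.h (P (nat_lit 0)) (T.h (P (nat_lit 13919576347252589854720)) (T.h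 (P (nat_lit 0)) (M (nat_lit 57975825390141439))))) (T.h (P (nat_lit 0)) (T.h (T.h (P (nat_lit 0)) (M (nat_lit 42531209117253631))) (P (nat_lit 0))))))) (T.h (T.h (P (nat_lit 0)) (T.h (T.h (P (nat_lit 26738224194884310258417664)) (T.h (P (nat_lit 0)) (T.h (M (nat_lit 1972893016427331583)) (T.h (P (nat_lit 0)) (P (nat_lit 50708355223312)))))) (T.h (P (nat_lit 0)) (T.h (T.h (P (nat_lit 10879051756713541632)) (T.h (P (nat_lit 0)) (M (nat_lit 4144068559599)))) (T.h (P (nat_lit 0)) (M (nat_lit 14450944174591))))))) (T.h (T.h (T.h (P (nat_lit 0)) (T.h (M (nat_lit 79357771058813610229759)) (T.h (P (nat_lit 0)) (M (nat_lit 192391894413017087))))) (T.h (P (nat_lit 0)) (T.h (T.h (P (nat_lit 0)) (P (nat_lit 14821950289199104))) (P (nat_lit 0))))) (T.h (T.h (P (nat_lit 0)) (T.h (T.h (P (nat_lit 7431377113195741184)) (T.h (P (nat_lit 0)) (P (nat_lit 1500860940832)))) (T.h (P (nat_lit 0)) (P (nat_lit 6020971354256))))) (T.h (T.h (T.h (P (nat_lit 0)) (M (nat_lit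 112594984012251135))) (P (nat_lit 0))) (T.h (T.h (P (nat_lit 0)) (P (nat_lit 40339979884256))) (P (nat_lit 0)))))))), (T.h (T.h (T.h (P (nat_lit 14100600292722984911817907634176)) (T.h (P (nat_lit 0)) (T.h (M (nat_lit 19878225937938211091251199)) (T.h (P (nat_lit 0)) (T.h (P (nat_lit 27102934920853454848)) (T.h (P (nat_lit 0)) (P (nat_lit 11718924976896)))))))) (T.h (P (nat_lit 0)) (T.h (T.h (M (nat_lit 20814658395147442166169599)) (T.h (P (nat_lit 0)) (T.h (M (nat_lit 173861728751022243839)) (T.h (P (nat_lit 0)) (P (nat_lit 23700434462528)))))) (T.h (P (nat_lit 0)) (T.h (T.h (P (nat_lit 85689377122313830400)) (T.h (P (nat_lit 0)) (P (nat_lit 60194524575488)))) (T.h (P (nat_lit 0)) (P (nat_lit 1272988433792)))))))) (T.h (T.h (P (nat_lit 0)) (T.h (T.h (P (nat_lit 0)) (T.h (P (nat_lit 197518166172726972121088)) (T.h (P (nat_lit 0)) (P (nat_lit 91112112846929920))))) (T.h (P (nat_lit 0)) (T.h (T.h (P (nat_lit 0)) (P (nat_lit 41940980879982592))) (P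 (nat_lit 0)))))) (T.h (T.h (T.h (M (nat_lit 19878225937938211091251199)) (T.h (P (nat_lit 0)) (T.h (M (nat_lit 130767476210412814335)) (T.h (P (nat_lit 0)) (M (nat_lit 28074662345023)))))) (T.h (P (nat_lit 0)) (T.h (T.h (M (nat_lit 173861728751022243839)) (T.h (P (nat_lit 0)) (P (nat_lit 16099247337344)))) (T.h (P (nat_lit 0)) (P (nat_lit 60194524575488)))))) (T.h (T.h (P (nat_lit 0)) (T.h (T.h (P (nat_lit 0)) (P (nat_lit 91112112846929920))) (P (nat_lit 0)))) (T.h (T.h (T.h (P (nat_lit 27102934920853454848)) (T.h (P (nat_lit 0)) (M (nat_lit 28074662345023)))) (T.h (P (nat_lit 0)) (P (nat_lit 23700434462528)))) (T.h (P (nat_lit 0)) (P (nat_lit 11718924976896))))))))]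
def lQp_13 : List (T ℤ) := [(T.h (T.h (T.h (P (nat_lit 0)) (T.h (M (nat_lit 72478261872372897710639939583)) (T.h (P (nat_lit 0)) (T.h (P (nat_lit 87123053949393083301888)) (T.h (P (nat_lit 0)) (M (nat_lit 23341432239112191))))))) (T.h (P (nat_lit 0)) (T.h (T.h (P (nat_lit 0)) (T.h (M (nat_lit 29227457131615847710719)) (T.h (P (nat_lit 0)) (P (nat_lit 155218703881830400))))) (T.h (P (nat_lit 0)) (T.h (T.h (P (nat_lit 0)) (P (nat_lit 120914351725740032))) (P (nat_lit 0))))))) (T.h (T.h (P (nat_lit 0)) (T.h (T.h (P (nat_lit 103001419594148129347207168)) (T.h (P (nat_lit 0)) (T.h (M (nat_lit 68199807893534408703)) (T.h (P (nat_lit 0)) (M (nat_lit 139411251903167)))))) (T.h (P (nat_lit 0)) (T.h (T.h (M (nat_lit 54963012511008292863)) (T.h (P (nat_lit 0)) (M (nat_lit 3247963595855)))) (T.h (P (nat_lit 0)) (P (nat_lit 32752559787552))))))) (T.h (T.h (T.h (P (nat_lit 0)) (T.h (M (nat_lit 155514434487671085596671)) (T.h (P (nat_lit 0)) (P (nat_lit 139103987127779328)))))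 (T.h (P (nat_lit 0)) (T.h (T.h (P (nat_lit 0)) (P (nat_lit 26519925572091904))) (P (nat_lit 0))))) (T.h (T.h (P (nat_lit 0)) (T.h (T.h (M (nat_lit 77790327255810965503)) (T.h (P (nat_lit 0)) (M (nat_lit 215827605369791)))) (T.h (P (nat_lit 0)) (P (nat_lit 12834186665184))))) (T.h (T.h (T.h (P (nat_lit 0)) (P (nat_lit 98322677260517376))) (P (nat_lit 0))) (T.h (T.h (P (nat_lit 0)) (M (nat_lit 45849852608687))) (P (nat_lit 0)))))))), (T.h (T.h (T.h (M (nat_lit 19245058767597118072917487255551)) (T.h (P (nat_lit 0)) (T.h (P (nat_lit 8849924118460195124805632)) (T.h (P (nat_lit 0)) (M (nat_lit 22472147538827804671)))))) (T.h (P (nat_lit 0)) (T.h (T.h (P (nat_lit 49064869503036694296788992)) (T.h (P (nat_lit 0)) (P (nat_lit 78300033919217565696)))) (T.h (P (nat_lit 0)) (P (nat_lit 58062886536468234240)))))) (T.h (T.h (P (nat_lit 0)) (T.h (T.h (P (nat_lit 0)) (T.h (P (nat_lit 171507145602860729761792)) (T.h (P (nat_lit 0)) (M (nat_lit 200573530775551999)))))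 (T.h (P (nat_lit 0)) (T.h (T.h (P (nat_lit 0)) (P (nat_lit 11742295132012544))) (P (nat_lit 0)))))) (T.h (T.h (T.h (M (nat_lit 59825625941170914374713343)) (T.h (P (nat_lit 0)) (P (nat_lit 218013063006075748352)))) (T.h (P (nat_lit 0)) (P (nat_lit 45880012597962473472)))) (T.h (T.h (P (nat_lit 0)) (T.h (T.h (P (nat_lit 0)) (M (nat_lit 189747104945602559))) (P (nat_lit 0)))) (M (nat_lit 12951678390250766335)))))), (P (nat_lit 0)), (P (nat_lit 0)), (T.h (T.h (P (nat_lit 0)) (T.h (T.h (P (nat_lit 0)) (T.h (M (nat_lit 2396886317862536817410047)) (T.h (P (nat_lit 0)) (T.h (M (nat_lit 1986026304863993855)) (T.h (P (nat_lit 0)) (M (nat_lit 15417053138367))))))) (T.h (P (nat_lit 0)) (T.h (T.h (P (nat_lit 0)) (T.h (P (nat_lit 329372831294947328)) (T.h (P (nat_lit 0)) (P (nat_lit 29851112519424))))) (T.h (P (nat_lit 0)) (T.h (T.h (P (nat_lit 0)) (P (nat_lit 11754251825088))) (P (nat_lit 0)))))))) (T.h (T.h (T.h (P (nat_lit 261693461976339468041322496)) (T.h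 (P (nat_lit 0)) (T.h (M (nat_lit 58005716067570298126335)) (T.h (P (nat_lit 0)) (M (nat_lit 147754045441376255)))))) (T.h (P (nat_lit 0)) (T.h (T.h (M (nat_lit 12263181683475735379967)) (T.h (P (nat_lit 0)) (P (nat_lit 66179228307161088)))) (T.h (P (nat_lit 0)) (M (nat_lit 52709437456547839)))))) (T.h (T.h (P (nat_lit 0)) (T.h (T.h (P (nat_lit 0)) (T.h (M (nat_lit 34541195107701358591)) (T.h (P (nat_lit 0)) (P (nat_lit 39626086326080))))) (T.h (P (nat_lit 0)) (T.h (T.h (P (nat_lit 0)) (M (nat_lit 11941010524991))) (P (nat_lit 0)))))) (T.h (T.h (T.h (P (nat_lit 36544984058959734243328)) (T.h (P (nat_lit 0)) (M (nat_lit 307809057127432191)))) (T.h (P (nat_lit 0)) (M (nat_lit 16066539524325375)))) (T.h (T.h (P (nat_lit 0)) (T.h (T.h (P (nat_lit 0)) (M (nat_lit 27782914614783))) (P (nat_lit 0)))) (P (nat_lit 92595113484189696))))))), (T.h (T.h (P (nat_lit 0)) (T.h (T.h (M (nat_lit 1892847221745848228151033855)) (T.h (P (nat_lit 0)) (T.h (M (nat_lit 84377462207756476874751))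 (T.h (P (nat_lit 0)) (M (nat_lit 4353750354378751)))))) (T.h (P (nat_lit 0)) (T.h (T.h (M (nat_lit 30608946642825443803135)) (T.h (P (nat_lit 0)) (P (nat_lit 112684429692944384)))) (T.h (P (nat_lit 0)) (P (nat_lit 41383730525405184))))))) (T.h (T.h (T.h (P (nat_lit 0)) (T.h (P (nat_lit 52806908929216563881443328)) (T.h (P (nat_lit 0)) (T.h (P (nat_lit 82011797848584093696)) (T.h (P (nat_lit 0)) (P (nat_lit 68505149127168))))))) (T.h (P (nat_lit 0)) (T.h (T.h (P (nat_lit 0)) (T.h (M (nat_lit 82738826853778194431)) (T.h (P (nat_lit 0)) (M (nat_lit 38582463213215))))) (T.h (P (nat_lit 0)) (T.h (T.h (P (nat_lit 0)) (P (nat_lit 93337690111776))) (P (nat_lit 0))))))) (T.h (T.h (P (nat_lit 0)) (T.h (T.h (M (nat_lit 84377462207756476874751)) (T.h (P (nat_lit 0)) (P (nat_lit 117937861708251136)))) (T.h (P (nat_lit 0)) (P (nat_lit 112684429692944384))))) (T.h (T.h (T.h (P (nat_lit 0)) (T.h (P (nat_lit 82011797848584093696)) (T.h (P (nat_lit 0)) (P (nat_lit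 31906044562176))))) (T.h (P (nat_lit 0)) (T.h (T.h (P (nat_lit 0)) (M (nat_lit 38582463213215))) (P (nat_lit 0))))) (T.h (T.h (P (nat_lit 0)) (M (nat_lit 4353750354378751))) (T.h (T.h (T.h (P (nat_lit 0)) (P (nat_lit 68505149127168))) (P (nat_lit 0))) (P (nat_lit 0)))))))), (T.h (T.h (P (nat_lit 0)) (T.h (T.h (P (nat_lit 0)) (T.h (P (nat_lit 18488068673796538873413632)) (T.h (P (nat_lit 0)) (P (nat_lit 3412449340189310976))))) (T.h (P (nat_lit 0)) (T.h (T.h (P (nat_lit 0)) (M (nat_lit 13067073905649254399))) (P (nat_lit 0)))))) (T.h (T.h (T.h (P (nat_lit 1043116937690069580088606720)) (T.h (P (nat_lit 0)) (T.h (P (nat_lit 101464149854981390860288)) (T.h (P (nat_lit 0)) (P (nat_lit 273430289931173888)))))) (T.h (P (nat_lit 0)) (T.h (T.h (M (nat_lit 12925985027821664206847)) (T.h (P (nat_lit 0)) (M (nat_lit 21950935167303679)))) (T.h (P (nat_lit 0)) (P (nat_lit 70522602099113984)))))) (T.h (T.h (P (nat_lit 0)) (T.h (T.h (P (nat_lit 0)) (P (nat_lit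 3225623507505250304))) (P (nat_lit 0)))) (T.h (T.h (T.h (M (nat_lit 61764923110046956519423)) (T.h (P (nat_lit 0)) (P (nat_lit 293207130200866816)))) (T.h (P (nat_lit 0)) (P (nat_lit 121260396594069504)))) (T.h (P (nat_lit 0)) (M (nat_lit 114189388980387839))))))), (P (nat_lit 0))]
def lQp_14 : List (T ℤ) := [(P (nat_lit 0)), (T.h (T.h (T.h (P (nat_lit 0)) (T.h (M (nat_lit 24801631326153345891410378751)) (T.h (P (nat_lit 0)) (T.h (P (nat_lit 878716978990749319168)) (T.h (P (nat_lit 0)) (M (nat_lit 14991615373983743))))))) (T.h (P (nat_lit 0)) (T.h (T.h (P (nat_lit 0)) (T.h (M (nat_lit 810895736184433016831)) (T.h (P (nat_lit 0)) (P (nat_lit 75654353308729344))))) (T.h (P (nat_lit 0)) (T.h (T.h (P (nat_lit 0)) (P (nat_lit 21529164191711232))) (P (nat_lit 0))))))) (T.h (T.h (P (nat_lit 0)) (T.h (T.h (M (nat_lit 29625130931332275844939775)) (T.h (P (nat_lit 0)) (T.h (M (nat_lit 16352020845905838079)) (T.h (P (nat_lit 0)) (M (nat_lit 53556555107663))))))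 (T.h (P (nat_lit 0)) (T.h (T.h (M (nat_lit 19032430414556823551)) (T.h (P (nat_lit 0)) (P (nat_lit 18560116891440)))) (T.h (P (nat_lit 0)) (P (nat_lit 8704128682512))))))) (T.h (T.h (T.h (P (nat_lit 0)) (T.h (P (nat_lit 69850975083097497796608)) (T.h (P (nat_lit 0)) (P (nat_lit 198609520576053248))))) (T.h (P (nat_lit 0)) (T.h (T.h (P (nat_lit 0)) (M (nat_lit 41801263281635327))) (P (nat_lit 0))))) (T.h (T.h (P (nat_lit 0)) (T.h (T.h (P (nat_lit 6323371610589888512)) (T.h (P (nat_lit 0)) (P (nat_lit 22287634534368)))) (T.h (P (nat_lit 0)) (M (nat_lit 11727087712703))))) (T.h (T.h (T.h (P (nat_lit 0)) (P (nat_lit 104265922317058048))) (P (nat_lit 0))) (T.h (T.h (P (nat_lit 0)) (M (nat_lit 38574100311983))) (P (nat_lit 0)))))))), (T.h (T.h (T.h (M (nat_lit 12287190180425606716005116018687)) (T.h (P (nat_lit 0)) (T.h (P (nat_lit 822633096902632366145536)) (T.h (P (nat_lit 0)) (P (nat_lit 6177230466576285696)))))) (T.h (P (nat_lit 0)) (T.h (T.h (P (nat_lit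 3836605376147847800422400)) (T.h (P (nat_lit 0)) (P (nat_lit 65115326894967881728)))) (T.h (P (nat_lit 0)) (P (nat_lit 34747549758858985472)))))) (T.h (T.h (P (nat_lit 0)) (T.h (T.h (P (nat_lit 0)) (T.h (M (nat_lit 126306685842223500623871)) (T.h (P (nat_lit 0)) (M (nat_lit 56164324190060543))))) (T.h (P (nat_lit 0)) (T.h (T.h (P (nat_lit 0)) (P (nat_lit 101851870552260608))) (P (nat_lit 0)))))) (T.h (T.h (T.h (P (nat_lit 822633096902632366145536)) (T.h (P (nat_lit 0)) (P (nat_lit 183649484888055218176)))) (T.h (P (nat_lit 0)) (P (nat_lit 65115326894967881728)))) (T.h (T.h (P (nat_lit 0)) (T.h (T.h (P (nat_lit 0)) (M (nat_lit 56164324190060543))) (P (nat_lit 0)))) (P (nat_lit 6177230466576285696)))))), (P (nat_lit 0)), (P (nat_lit 0)), (T.h (T.h (P (nat_lit 0)) (T.h (T.h (P (nat_lit 0)) (T.h (M (nat_lit 2731529024111075150266367)) (T.h (P (nat_lit 0)) (P (nat_lit 14446821862908362752))))) (T.h (P (nat_lit 0)) (T.h (T.h (P (nat_lit 0)) (M (nat_lit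 2922520119437426687))) (P (nat_lit 0)))))) (T.h (T.h (T.h (M (nat_lit 2431989740396183413638299647)) (T.h (P (nat_lit 0)) (T.h (P (nat_lit 67764700985457142398976)) (T.h (P (nat_lit 0)) (P (nat_lit 157432470344531968)))))) (T.h (P (nat_lit 0)) (T.h (T.h (P (nat_lit 2389731705158014861312)) (T.h (P (nat_lit 0)) (P (nat_lit 13085180765306880)))) (T.h (P (nat_lit 0)) (P (nat_lit 737280053051392)))))) (T.h (T.h (P (nat_lit 0)) (T.h (T.h (P (nat_lit 0)) (M (nat_lit 43502318328160976895))) (P (nat_lit 0)))) (T.h (T.h (T.h (M (nat_lit 13155666161854431887359)) (T.h (P (nat_lit 0)) (P (nat_lit 344310799049883648)))) (T.h (P (nat_lit 0)) (P (nat_lit 84716766919393280)))) (T.h (P (nat_lit 0)) (M (nat_lit 86333522932170751))))))), (P (nat_lit 0)), (P (nat_lit 0))]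
def lQp_15 : List (T ℤ) := [(P (nat_lit 0)), (P (nat_lit 0)), (P (nat_lit 0)), (P (nat_lit 0)), (T.h (T.h (T.h (P (nat_lit 0)) (T.h (P (nat_lit 4046437473873126187115479040)) (T.h (P (nat_lit 0)) (T.h (M (nat_lit 8629264156460652167167)) (T.h (P (nat_lit 0)) (M (nat_lit 5566547675250687))))))) (T.h (P (nat_lit 0)) (T.h (T.h (P (nat_lit 0)) (T.h (M (nat_lit 11058639795145398026239)) (T.h (P (nat_lit 0)) (M (nat_lit 460861854810111))))) (T.h (P (nat_lit 0)) (T.h (T.h (P (nat_lit 0)) (P (nat_lit 1899368817328128))) (P (nat_lit 0))))))) (T.h (T.h (P (nat_lit 0)) (T.h (T.h (P (nat_lit 11771323360378338012037120)) (T.h (P (nat_lit 0)) (T.h (P (nat_lit 53348559484627189760)) (T.h (P (nat_lit 0)) (P (nat_lit 8729655611432)))))) (T.h (P (nat_lit 0)) (T.h (T.h (P (nat_lit 21742454913363869696)) (T.h (P (nat_lit 0)) (M (nat_lit 22199166475135)))) (T.h (P (nat_lit 0)) (M (nat_lit 4863280810599))))))) (T.h (T.h (T.h (P (nat_lit 0)) (T.h (M (nat_lit 35381343235723547901951))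 (T.h (P (nat_lit 0)) (M (nat_lit 9534341900369919))))) (T.h (P (nat_lit 0)) (T.h (T.h (P (nat_lit 0)) (P (nat_lit 6060853009612800))) (P (nat_lit 0))))) (T.h (T.h (P (nat_lit 0)) (T.h (T.h (P (nat_lit 7721819484343762944)) (T.h (P (nat_lit 0)) (P (nat_lit 24789354920256)))) (T.h (P (nat_lit 0)) (M (nat_lit 23745552648631))))) (T.h (T.h (T.h (P (nat_lit 0)) (M (nat_lit 8045505186660351))) (P (nat_lit 0))) (T.h (T.h (P (nat_lit 0)) (M (nat_lit 9351027505655))) (P (nat_lit 0)))))))), (T.h (T.h (T.h (P (nat_lit 86809079186767951930205203857408)) (T.h (P (nat_lit 0)) (T.h (M (nat_lit 2344628487712069071667199)) (T.h (P (nat_lit 0)) (T.h (M (nat_lit 29021417438497996799)) (T.h (P (nat_lit 0)) (M (nat_lit 15472739090591)))))))) (T.h (P (nat_lit 0)) (T.h (T.h (P (nat_lit 36031400753696434022252544)) (T.h (P (nat_lit 0)) (T.h (M (nat_lit 16327763553652047871)) (T.h (P (nat_lit 0)) (M (nat_lit 35169845347711)))))) (T.h (P (nat_lit 0)) (T.h (T.h (P (nat_lit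 58528156815194062848)) (T.h (P (nat_lit 0)) (M (nat_lit 22396963694271)))) (T.h (P (nat_lit 0)) (P (nat_lit 32079931261568)))))))) (T.h (T.h (P (nat_lit 0)) (T.h (T.h (P (nat_lit 0)) (T.h (P (nat_lit 59848340049032927772672)) (T.h (P (nat_lit 0)) (P (nat_lit 34322871671980032))))) (T.h (P (nat_lit 0)) (T.h (T.h (P (nat_lit 0)) (P (nat_lit 3353098598154240))) (P (nat_lit 0)))))) (T.h (T.h (T.h (M (nat_lit 36443918426805068705562623)) (T.h (P (nat_lit 0)) (T.h (M (nat_lit 47842095524028088319)) (T.h (P (nat_lit 0)) (P (nat_lit 28335036564160)))))) (T.h (P (nat_lit 0)) (T.h (T.h (M (nat_lit 61134090232989220863)) (T.h (P (nat_lit 0)) (M (nat_lit 22178401775167)))) (T.h (P (nat_lit 0)) (M (nat_lit 7076939740079)))))) (T.h (T.h (P (nat_lit 0)) (T.h (T.h (P (nat_lit 0)) (P (nat_lit 164587619966582784))) (P (nat_lit 0)))) (T.h (T.h (T.h (M (nat_lit 61090529252569251839)) (T.h (P (nat_lit 0)) (M (nat_lit 8128876489663)))) (T.h (P (nat_lit 0)) (M (nat_lit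 93345869782831)))) (T.h (P (nat_lit 0)) (M (nat_lit 61045729373567)))))))), (T.h (T.h (T.h (P (nat_lit 0)) (T.h (M (nat_lit 18765722672698315194899628031)) (T.h (P (nat_lit 0)) (T.h (M (nat_lit 23579592421698636349439)) (T.h (P (nat_lit 0)) (M (nat_lit 12000930136850431))))))) (T.h (P (nat_lit 0)) (T.h (T.h (P (nat_lit 0)) (T.h (M (nat_lit 115058167568772116774911)) (T.h (P (nat_lit 0)) (M (nat_lit 25670652112863231))))) (T.h (P (nat_lit 0)) (T.h (T.h (P (nat_lit 0)) (M (nat_lit 103189076392050687))) (P (nat_lit 0))))))) (T.h (T.h (P (nat_lit 0)) (T.h (T.h (M (nat_lit 24835050078617542714195967)) (T.h (P (nat_lit 0)) (T.h (M (nat_lit 128900549409064878079)) (T.h (P (nat_lit 0)) (P (nat_lit 26860824312192)))))) (T.h (P (nat_lit 0)) (T.h (T.h (M (nat_lit 42386563146822189055)) (T.h (P (nat_lit 0)) (P (nat_lit 6299933357696)))) (T.h (P (nat_lit 0)) (P (nat_lit 3655923658688))))))) (T.h (T.h (T.h (P (nat_lit 0)) (T.h (P (nat_lit 30521886510044407660544))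 (T.h (P (nat_lit 0)) (P (nat_lit 104514075428454400))))) (T.h (P (nat_lit 0)) (T.h (T.h (P (nat_lit 0)) (P (nat_lit 31961302718545920))) (P (nat_lit 0))))) (T.h (T.h (P (nat_lit 0)) (T.h (T.h (M (nat_lit 92842694536798928895)) (T.h (P (nat_lit 0)) (M (nat_lit 63976585455807)))) (T.h (P (nat_lit 0)) (P (nat_lit 141777948044416))))) (T.h (T.h (T.h (P (nat_lit 0)) (P (nat_lit 52964942878146560))) (P (nat_lit 0))) (T.h (T.h (P (nat_lit 0)) (P (nat_lit 22372417272256))) (P (nat_lit 0)))))))), (T.h (T.h (T.h (M (nat_lit 205475608593708555075071942590463)) (T.h (P (nat_lit 0)) (T.h (M (nat_lit 606963566151509353693183)) (T.h (P (nat_lit 0)) (T.h (P (nat_lit 37129636244552155136)) (T.h (P (nat_lit 0)) (P (nat_lit 14645707618464)))))))) (T.h (P (nat_lit 0)) (T.h (T.h (M (nat_lit 49326294657994179987111935)) (T.h (P (nat_lit 0)) (T.h (P (nat_lit 54087894479375695872)) (T.h (P (nat_lit 0)) (P (nat_lit 26406644853168)))))) (T.h (P (nat_lit 0)) (T.h (T.h (M (nat_lit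 98340197006326104063)) (T.h (P (nat_lit 0)) (P (nat_lit 133240626359424)))) (T.h (P (nat_lit 0)) (M (nat_lit 87410689135199)))))))) (T.h (T.h (P (nat_lit 0)) (T.h (T.h (P (nat_lit 0)) (T.h (M (nat_lit 115192297782243615571967)) (T.h (P (nat_lit 0)) (M (nat_lit 20318761883959295))))) (T.h (P (nat_lit 0)) (T.h (T.h (P (nat_lit 0)) (M (nat_lit 78731064540430335))) (P (nat_lit 0)))))) (T.h (T.h (T.h (P (nat_lit 30647609676432405136670720)) (T.h (P (nat_lit 0)) (T.h (P (nat_lit 160391609105522884608)) (T.h (P (nat_lit 0)) (M (nat_lit 77309147628143)))))) (T.h (P (nat_lit 0)) (T.h (T.h (P (nat_lit 211642940836456431616)) (T.h (P (nat_lit 0)) (P (nat_lit 14513604933888)))) (T.h (P (nat_lit 0)) (P (nat_lit 352154342018448)))))) (T.h (T.h (P (nat_lit 0)) (T.h (T.h (P (nat_lit 0)) (M (nat_lit 300902337197998079))) (P (nat_lit 0)))) (T.h (T.h (T.h (P (nat_lit 24552213189067014144)) (T.h (P (nat_lit 0)) (P (nat_lit 134195146157664)))) (T.h (P (nat_lit 0)) (P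 (nat_lit 499241730033216)))) (T.h (P (nat_lit 0)) (P (nat_lit 8713460479392))))))))]
def lQp_16 : List (T ℤ) := [(T.h (T.h (T.h (P (nat_lit 0)) (T.h (P (nat_lit 5287393795622230931927990272)) (T.h (P (nat_lit 0)) (T.h (P (nat_lit 10997930159462676430848)) (T.h (P (nat_lit 0)) (P (nat_lit 21976945639718912))))))) (T.h (P (nat_lit 0)) (T.h (T.h (P (nat_lit 0)) (T.h (P (nat_lit 11470395129475534684160)) (T.h (P (nat_lit 0)) (P (nat_lit 28259372670091264))))) (T.h (P (nat_lit 0)) (T.h (T.h (P (nat_lit 0)) (P (nat_lit 48452197856411648))) (P (nat_lit 0))))))) (T.h (T.h (P (nat_lit 0)) (T.h (T.h (P (nat_lit 7968129611153399804329984)) (T.h (P (nat_lit 0)) (M (nat_lit 28063542199158046719)))) (T.h (P (nat_lit 0)) (P (nat_lit 34246235936746635264))))) (T.h (T.h (T.h (P (nat_lit 0)) (T.h (P (nat_lit 37042947306702845771776)) (T.h (P (nat_lit 0)) (M (nat_lit 78374196030734335))))) (T.h (P (nat_lit 0)) (T.h (T.h (P (nat_lit 0)) (P (nat_lit 21820328043151360)))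 (P (nat_lit 0))))) (T.h (T.h (P (nat_lit 0)) (P (nat_lit 28918869486353776640))) (T.h (T.h (T.h (P (nat_lit 0)) (P (nat_lit 17184947940786176))) (P (nat_lit 0))) (P (nat_lit 0))))))), (P (nat_lit 0)), (P (nat_lit 0)), (T.h (T.h (P (nat_lit 0)) (T.h (T.h (P (nat_lit 15402168289072731171697197056)) (T.h (P (nat_lit 0)) (T.h (M (nat_lit 11981056555094214967295)) (T.h (P (nat_lit 0)) (M (nat_lit 4957158622429183)))))) (T.h (P (nat_lit 0)) (T.h (T.h (P (nat_lit 8933566045147298267136)) (T.h (P (nat_lit 0)) (M (nat_lit 6111597523468287)))) (T.h (P (nat_lit 0)) (M (nat_lit 4700088185651199))))))) (T.h (T.h (T.h (P (nat_lit 0)) (T.h (P (nat_lit 11846287897371344409460736)) (T.h (P (nat_lit 0)) (T.h (P (nat_lit 2067421660583034880)) (T.h (P (nat_lit 0)) (M (nat_lit 2269114281607))))))) (T.h (P (nat_lit 0)) (T.h (T.h (P (nat_lit 0)) (T.h (P (nat_lit 14151673906531926016)) (T.h (P (nat_lit 0)) (M (nat_lit 1225760817911))))) (T.h (P (nat_lit 0)) (T.h (T.h (P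 (nat_lit 0)) (P (nat_lit 40523289780496))) (P (nat_lit 0))))))) (T.h (T.h (P (nat_lit 0)) (T.h (T.h (M (nat_lit 11981056555094214967295)) (T.h (P (nat_lit 0)) (P (nat_lit 10988538740539392)))) (T.h (P (nat_lit 0)) (M (nat_lit 6111597523468287))))) (T.h (T.h (T.h (P (nat_lit 0)) (T.h (P (nat_lit 2067421660583034880)) (T.h (P (nat_lit 0)) (M (nat_lit 15762047440479))))) (T.h (P (nat_lit 0)) (T.h (T.h (P (nat_lit 0)) (M (nat_lit 1225760817911))) (P (nat_lit 0))))) (T.h (T.h (P (nat_lit 0)) (M (nat_lit 4957158622429183))) (T.h (T.h (T.h (P (nat_lit 0)) (M (nat_lit 2269114281607))) (P (nat_lit 0))) (P (nat_lit 0)))))))), (T.h (T.h (P (nat_lit 0)) (T.h (T.h (P (nat_lit 0)) (T.h (M (nat_lit 6799619440246064861413375)) (T.h (P (nat_lit 0)) (T.h (M (nat_lit 12514945616788324351)) (T.h (P (nat_lit 0)) (M (nat_lit 35685065481487))))))) (T.h (P (nat_lit 0)) (T.h (T.h (P (nat_lit 0)) (T.h (P (nat_lit 39462934967496998912)) (T.h (P (nat_lit 0)) (M (nat_lit 13381475394175)))))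 (T.h (P (nat_lit 0)) (T.h (T.h (P (nat_lit 0)) (P (nat_lit 15958812818176))) (P (nat_lit 0)))))))) (T.h (T.h (T.h (P (nat_lit 10079987083909034611327369216)) (T.h (P (nat_lit 0)) (T.h (M (nat_lit 37782109535124318060543)) (T.h (P (nat_lit 0)) (M (nat_lit 75512122738147327)))))) (T.h (P (nat_lit 0)) (T.h (T.h (M (nat_lit 11310640369533815095295)) (T.h (P (nat_lit 0)) (P (nat_lit 151495464121647104)))) (T.h (P (nat_lit 0)) (M (nat_lit 73608423624703999)))))) (T.h (T.h (P (nat_lit 0)) (T.h (T.h (P (nat_lit 0)) (T.h (M (nat_lit 17705015762189549567)) (T.h (P (nat_lit 0)) (M (nat_lit 1228216181215))))) (T.h (P (nat_lit 0)) (T.h (T.h (P (nat_lit 0)) (P (nat_lit 31589154588192))) (P (nat_lit 0)))))) (T.h (T.h (T.h (M (nat_lit 45300279559282594152447)) (T.h (P (nat_lit 0)) (M (nat_lit 47073572298719231)))) (T.h (P (nat_lit 0)) (P (nat_lit 6315630857781248)))) (T.h (T.h (P (nat_lit 0)) (T.h (T.h (P (nat_lit 0)) (M (nat_lit 6049335980319))) (P (nat_lit 0))))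 (M (nat_lit 23378992595042303))))))), (T.h (T.h (P (nat_lit 0)) (T.h (T.h (P (nat_lit 2329533710682329323256414208)) (T.h (P (nat_lit 0)) (T.h (P (nat_lit 54157787946408185167872)) (T.h (P (nat_lit 0)) (M (nat_lit 188300657747984383)))))) (T.h (P (nat_lit 0)) (T.h (T.h (M (nat_lit 44316061718040580980735)) (T.h (P (nat_lit 0)) (M (nat_lit 126055557227184127)))) (T.h (P (nat_lit 0)) (P (nat_lit 46707744146751488))))))) (T.h (T.h (T.h (P (nat_lit 0)) (T.h (M (nat_lit 92849442016214720519864319)) (T.h (P (nat_lit 0)) (T.h (M (nat_lit 4879699560999419903)) (T.h (P (nat_lit 0)) (P (nat_lit 80261662914944))))))) (T.h (P (nat_lit 0)) (T.h (T.h (P (nat_lit 0)) (T.h (P (nat_lit 37162643078086918144)) (T.h (P (nat_lit 0)) (M (nat_lit 127847904933183))))) (T.h (P (nat_lit 0)) (T.h (T.h (P (nat_lit 0)) (M (nat_lit 1144468606655))) (P (nat_lit 0))))))) (T.h (T.h (P (nat_lit 0)) (T.h (T.h (M (nat_lit 4759270580204760727551)) (T.h (P (nat_lit 0)) (M (nat_lit 105894992781311999))))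 (T.h (P (nat_lit 0)) (P (nat_lit 58487381201682432))))) (T.h (T.h (T.h (P (nat_lit 0)) (T.h (P (nat_lit 18730425569333215232)) (T.h (P (nat_lit 0)) (P (nat_lit 52990702494400))))) (T.h (P (nat_lit 0)) (T.h (T.h (P (nat_lit 0)) (P (nat_lit 24709703586560))) (P (nat_lit 0))))) (T.h (T.h (P (nat_lit 0)) (P (nat_lit 4352544021512192))) (T.h (T.h (T.h (P (nat_lit 0)) (M (nat_lit 1918557931519))) (P (nat_lit 0))) (P (nat_lit 0)))))))), (T.h (T.h (P (nat_lit 0)) (T.h (T.h (P (nat_lit 0)) (T.h (P (nat_lit 103001419594148129347207168)) (T.h (P (nat_lit 0)) (T.h (M (nat_lit 54963012511008292863)) (T.h (P (nat_lit 0)) (P (nat_lit 32752559787552))))))) (T.h (P (nat_lit 0)) (T.h (T.h (P (nat_lit 0)) (T.h (M (nat_lit 77790327255810965503)) (T.h (P (nat_lit 0)) (P (nat_lit 12834186665184))))) (T.h (P (nat_lit 0)) (T.h (T.h (P (nat_lit 0)) (M (nat_lit 45849852608687))) (P (nat_lit 0)))))))) (T.h (T.h (T.h (M (nat_lit 72478261872372897710639939583)) (T.h (P (nat_lit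 0)) (T.h (M (nat_lit 29227457131615847710719)) (T.h (P (nat_lit 0)) (P (nat_lit 120914351725740032)))))) (T.h (P (nat_lit 0)) (T.h (T.h (M (nat_lit 155514434487671085596671)) (T.h (P (nat_lit 0)) (P (nat_lit 26519925572091904)))) (T.h (P (nat_lit 0)) (P (nat_lit 98322677260517376)))))) (T.h (T.h (P (nat_lit 0)) (T.h (T.h (P (nat_lit 0)) (T.h (M (nat_lit 68199807893534408703)) (T.h (P (nat_lit 0)) (M (nat_lit 3247963595855))))) (T.h (P (nat_lit 0)) (T.h (T.h (P (nat_lit 0)) (M (nat_lit 215827605369791))) (P (nat_lit 0)))))) (T.h (T.h (T.h (P (nat_lit 87123053949393083301888)) (T.h (P (nat_lit 0)) (P (nat_lit 155218703881830400)))) (T.h (P (nat_lit 0)) (P (nat_lit 139103987127779328)))) (T.h (T.h (P (nat_lit 0)) (T.h (T.h (P (nat_lit 0)) (M (nat_lit 139411251903167))) (P (nat_lit 0)))) (M (nat_lit 23341432239112191))))))), (T.h (T.h (P (nat_lit 0)) (T.h (T.h (P (nat_lit 1043116937690069580088606720)) (T.h (P (nat_lit 0)) (T.h (M (nat_lit 12925985027821664206847))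 (T.h (P (nat_lit 0)) (P (nat_lit 70522602099113984)))))) (T.h (P (nat_lit 0)) (T.h (T.h (M (nat_lit 61764923110046956519423)) (T.h (P (nat_lit 0)) (P (nat_lit 121260396594069504)))) (T.h (P (nat_lit 0)) (M (nat_lit 114189388980387839))))))) (T.h (T.h (T.h (P (nat_lit 0)) (T.h (P (nat_lit 18488068673796538873413632)) (T.h (P (nat_lit 0)) (M (nat_lit 13067073905649254399))))) (T.h (P (nat_lit 0)) (T.h (T.h (P (nat_lit 0)) (P (nat_lit 3225623507505250304))) (P (nat_lit 0))))) (T.h (T.h (P (nat_lit 0)) (T.h (T.h (P (nat_lit 101464149854981390860288)) (T.h (P (nat_lit 0)) (M (nat_lit 21950935167303679)))) (T.h (P (nat_lit 0)) (P (nat_lit 293207130200866816))))) (T.h (T.h (T.h (P (nat_lit 0)) (P (nat_lit 3412449340189310976))) (P (nat_lit 0))) (T.h (T.h (P (nat_lit 0)) (P (nat_lit 273430289931173888))) (P (nat_lit 0)))))))]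
def lQp_17 : List (T ℤ) := [(P (nat_lit 0)), (P (nat_lit 0)), (T.h (T.h (T.h (P (nat_lit 0)) (T.h (P (nat_lit 15402168289072731171697197056)) (T.h (P (nat_lit 0)) (T.h (P (nat_lit 8933566045147298267136)) (T.h (P (nat_lit 0)) (M (nat_lit 4700088185651199))))))) (T.h (P (nat_lit 0)) (T.h (T.h (P (nat_lit 0)) (T.h (M (nat_lit 11981056555094214967295)) (T.h (P (nat_lit 0)) (M (nat_lit 6111597523468287))))) (T.h (P (nat_lit 0)) (T.h (T.h (P (nat_lit 0)) (M (nat_lit 4957158622429183))) (P (nat_lit 0))))))) (T.h (T.h (P (nat_lit 0)) (T.h (T.h (P (nat_lit 11846287897371344409460736)) (T.h (P (nat_lit 0)) (T.h (P (nat_lit 14151673906531926016)) (T.h (P (nat_lit 0)) (P (nat_lit 40523289780496)))))) (T.h (P (nat_lit 0)) (T.h (T.h (P (nat_lit 2067421660583034880)) (T.h (P (nat_lit 0)) (M (nat_lit 1225760817911)))) (T.h (P (nat_lit 0)) (M (nat_lit 2269114281607))))))) (T.h (T.h (T.h (P (nat_lit 0)) (T.h (M (nat_lit 11981056555094214967295)) (T.h (P (nat_lit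 0)) (M (nat_lit 6111597523468287))))) (T.h (P (nat_lit 0)) (T.h (T.h (P (nat_lit 0)) (P (nat_lit 10988538740539392))) (P (nat_lit 0))))) (T.h (T.h (P (nat_lit 0)) (T.h (T.h (P (nat_lit 2067421660583034880)) (T.h (P (nat_lit 0)) (M (nat_lit 1225760817911)))) (T.h (P (nat_lit 0)) (M (nat_lit 15762047440479))))) (T.h (T.h (T.h (P (nat_lit 0)) (M (nat_lit 4957158622429183))) (P (nat_lit 0))) (T.h (T.h (P (nat_lit 0)) (M (nat_lit 2269114281607))) (P (nat_lit 0)))))))), (T.h (T.h (T.h (M (nat_lit 77231319178379078265351538999295)) (T.h (P (nat_lit 0)) (T.h (P (nat_lit 1688235537749565272752128)) (T.h (P (nat_lit 0)) (T.h (P (nat_lit 8481067691434573824)) (T.h (P (nat_lit 0)) (M (nat_lit 5983445519231)))))))) (T.h (P (nat_lit 0)) (T.h (T.h (P (nat_lit 1688235537749565272752128)) (T.h (P (nat_lit 0)) (T.h (P (nat_lit 100302160290373435392)) (T.h (P (nat_lit 0)) (M (nat_lit 5301778427135)))))) (T.h (P (nat_lit 0)) (T.h (T.h (P (nat_lit 8481067691434573824))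 (T.h (P (nat_lit 0)) (M (nat_lit 5301778427135)))) (T.h (P (nat_lit 0)) (M (nat_lit 5983445519231)))))))) (T.h (T.h (P (nat_lit 0)) (T.h (T.h (P (nat_lit 0)) (T.h (M (nat_lit 41212133649524119830527)) (T.h (P (nat_lit 0)) (M (nat_lit 142036734802657279))))) (T.h (P (nat_lit 0)) (T.h (T.h (P (nat_lit 0)) (M (nat_lit 142036734802657279))) (P (nat_lit 0)))))) (T.h (T.h (T.h (P (nat_lit 1688235537749565272752128)) (T.h (P (nat_lit 0)) (T.h (P (nat_lit 100302160290373435392)) (T.h (P (nat_lit 0)) (M (nat_lit 5301778427135)))))) (T.h (P (nat_lit 0)) (T.h (T.h (P (nat_lit 100302160290373435392)) (T.h (P (nat_lit 0)) (P (nat_lit 316665119520)))) (T.h (P (nat_lit 0)) (M (nat_lit 5301778427135)))))) (T.h (T.h (P (nat_lit 0)) (T.h (T.h (P (nat_lit 0)) (M (nat_lit 142036734802657279))) (P (nat_lit 0)))) (T.h (T.h (T.h (P (nat_lit 8481067691434573824)) (T.h (P (nat_lit 0)) (M (nat_lit 5301778427135)))) (T.h (P (nat_lit 0)) (M (nat_lit 5301778427135)))) (T.h (P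 (nat_lit 0)) (M (nat_lit 5983445519231)))))))), (T.h (T.h (T.h (P (nat_lit 0)) (T.h (P (nat_lit 137196224813863059226361856000)) (T.h (P (nat_lit 0)) (T.h (M (nat_lit 45524896216863744196607)) (T.h (P (nat_lit 0)) (P (nat_lit 40952504014077952))))))) (T.h (P (nat_lit 0)) (T.h (T.h (P (nat_lit 0)) (T.h (M (nat_lit 11969265976788375306239)) (T.h (P (nat_lit 0)) (M (nat_lit 15827926362619903))))) (T.h (P (nat_lit 0)) (T.h (T.h (P (nat_lit 0)) (M (nat_lit 197493002011443199))) (P (nat_lit 0))))))) (T.h (T.h (P (nat_lit 0)) (T.h (T.h (M (nat_lit 61333752047693800807596031)) (T.h (P (nat_lit 0)) (T.h (P (nat_lit 498117621935436201984)) (T.h (P (nat_lit 0)) (P (nat_lit 227293147714176)))))) (T.h (P (nat_lit 0)) (T.h (T.h (P (nat_lit 65998401808849960960)) (T.h (P (nat_lit 0)) (M (nat_lit 52226798296127)))) (T.h (P (nat_lit 0)) (P (nat_lit 35938917754048))))))) (T.h (T.h (T.h (P (nat_lit 0)) (T.h (M (nat_lit 11969265976788375306239)) (T.h (P (nat_lit 0))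 (M (nat_lit 15827926362619903))))) (T.h (P (nat_lit 0)) (T.h (T.h (P (nat_lit 0)) (P (nat_lit 23208470546743296))) (P (nat_lit 0))))) (T.h (T.h (P (nat_lit 0)) (T.h (T.h (P (nat_lit 65998401808849960960)) (T.h (P (nat_lit 0)) (M (nat_lit 52226798296127)))) (T.h (P (nat_lit 0)) (M (nat_lit 57247031089407))))) (T.h (T.h (T.h (P (nat_lit 0)) (M (nat_lit 197493002011443199))) (P (nat_lit 0))) (T.h (T.h (P (nat_lit 0)) (P (nat_lit 35938917754048))) (P (nat_lit 0)))))))), (T.h (T.h (T.h (M (nat_lit 142662334021017626468049225777151)) (T.h (P (nat_lit 0)) (T.h (M (nat_lit 98125863949076212247166975)) (T.h (P (nat_lit 0)) (T.h (M (nat_lit 103377707555302146047)) (T.h (P (nat_lit 0)) (M (nat_lit 31009392773855)))))))) (T.h (P (nat_lit 0)) (T.h (T.h (M (nat_lit 7987408574276351243059199)) (T.h (P (nat_lit 0)) (T.h (M (nat_lit 551162162588304801791)) (T.h (P (nat_lit 0)) (M (nat_lit 24735861633167)))))) (T.h (P (nat_lit 0)) (T.h (T.h (P (nat_lit 104014889186685353984))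 (T.h (P (nat_lit 0)) (P (nat_lit 15277453196976)))) (T.h (P (nat_lit 0)) (P (nat_lit 47753976709152)))))))) (T.h (T.h (P (nat_lit 0)) (T.h (T.h (P (nat_lit 0)) (T.h (P (nat_lit 570200279855479996284928)) (T.h (P (nat_lit 0)) (P (nat_lit 98114008135958528))))) (T.h (P (nat_lit 0)) (T.h (T.h (P (nat_lit 0)) (P (nat_lit 632807680434405376))) (P (nat_lit 0)))))) (T.h (T.h (T.h (M (nat_lit 7987408574276351243059199)) (T.h (P (nat_lit 0)) (T.h (M (nat_lit 551162162588304801791)) (T.h (P (nat_lit 0)) (M (nat_lit 24735861633167)))))) (T.h (P (nat_lit 0)) (T.h (T.h (P (nat_lit 481755780554466263040)) (T.h (P (nat_lit 0)) (M (nat_lit 139261050150047)))) (T.h (P (nat_lit 0)) (P (nat_lit 24553582891632)))))) (T.h (T.h (P (nat_lit 0)) (T.h (T.h (P (nat_lit 0)) (P (nat_lit 632807680434405376))) (P (nat_lit 0)))) (T.h (T.h (T.h (P (nat_lit 104014889186685353984)) (T.h (P (nat_lit 0)) (P (nat_lit 15277453196976)))) (T.h (P (nat_lit 0)) (P (nat_lit 24553582891632))))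 (T.h (P (nat_lit 0)) (P (nat_lit 47753976709152)))))))), (T.h (T.h (T.h (P (nat_lit 0)) (T.h (M (nat_lit 18533547533791401124823039999)) (T.h (P (nat_lit 0)) (T.h (M (nat_lit 33280740286881974976511)) (T.h (P (nat_lit 0)) (M (nat_lit 27432103723925503))))))) (T.h (P (nat_lit 0)) (T.h (T.h (P (nat_lit 0)) (T.h (M (nat_lit 203247636894042950729727)) (T.h (P (nat_lit 0)) (M (nat_lit 14492751674703871))))) (T.h (P (nat_lit 0)) (T.h (T.h (P (nat_lit 0)) (M (nat_lit 76937809590648831))) (P (nat_lit 0))))))) (T.h (T.h (P (nat_lit 0)) (T.h (T.h (M (nat_lit 24362427025986149431640063)) (T.h (P (nat_lit 0)) (P (nat_lit 99066322717822156800)))) (T.h (P (nat_lit 0)) (P (nat_lit 270015642585305972736))))) (T.h (T.h (T.h (P (nat_lit 0)) (T.h (M (nat_lit 203247636894042950729727)) (T.h (P (nat_lit 0)) (M (nat_lit 14492751674703871))))) (T.h (P (nat_lit 0)) (T.h (T.h (P (nat_lit 0)) (M (nat_lit 358055875133177855))) (P (nat_lit 0))))) (T.h (T.h (P (nat_lit 0)) (P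 (nat_lit 270015642585305972736))) (T.h (T.h (T.h (P (nat_lit 0)) (M (nat_lit 76937809590648831))) (P (nat_lit 0))) (P (nat_lit 0))))))), (P (nat_lit 0))]
def lQp_18 : List (T ℤ) := [(P (nat_lit 0)), (T.h (T.h (P (nat_lit 0)) (T.h (T.h (P (nat_lit 4046437473873126187115479040)) (T.h (P (nat_lit 0)) (T.h (M (nat_lit 11058639795145398026239)) (T.h (P (nat_lit 0)) (P (nat_lit 1899368817328128)))))) (T.h (P (nat_lit 0)) (T.h (T.h (M (nat_lit 8629264156460652167167)) (T.h (P (nat_lit 0)) (M (nat_lit 460861854810111)))) (T.h (P (nat_lit 0)) (M (nat_lit 5566547675250687))))))) (T.h (T.h (T.h (P (nat_lit 0)) (T.h (P (nat_lit 11771323360378338012037120)) (T.h (P (nat_lit 0)) (T.h (P (nat_lit 21742454913363869696)) (T.h (P (nat_lit 0)) (M (nat_lit 4863280810599))))))) (T.h (P (nat_lit 0)) (T.h (T.h (P (nat_lit 0)) (T.h (P (nat_lit 53348559484627189760)) (T.h (P (nat_lit 0)) (M (nat_lit 22199166475135))))) (T.h (P (nat_lit 0)) (T.h (T.h (P (nat_lit 0)) (P (nat_lit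 8729655611432))) (P (nat_lit 0))))))) (T.h (T.h (P (nat_lit 0)) (T.h (T.h (M (nat_lit 35381343235723547901951)) (T.h (P (nat_lit 0)) (P (nat_lit 6060853009612800)))) (T.h (P (nat_lit 0)) (M (nat_lit 9534341900369919))))) (T.h (T.h (T.h (P (nat_lit 0)) (T.h (P (nat_lit 7721819484343762944)) (T.h (P (nat_lit 0)) (M (nat_lit 23745552648631))))) (T.h (P (nat_lit 0)) (T.h (T.h (P (nat_lit 0)) (P (nat_lit 24789354920256))) (P (nat_lit 0))))) (T.h (T.h (P (nat_lit 0)) (M (nat_lit 8045505186660351))) (T.h (T.h (T.h (P (nat_lit 0)) (M (nat_lit 9351027505655))) (P (nat_lit 0))) (P (nat_lit 0)))))))), (T.h (T.h (P (nat_lit 0)) (T.h (T.h (P (nat_lit 0)) (T.h (M (nat_lit 6799619440246064861413375)) (T.h (P (nat_lit 0)) (T.h (P (nat_lit 39462934967496998912)) (T.h (P (nat_lit 0)) (P (nat_lit 15958812818176))))))) (T.h (P (nat_lit 0)) (T.h (T.h (P (nat_lit 0)) (T.h (M (nat_lit 12514945616788324351)) (T.h (P (nat_lit 0)) (M (nat_lit 13381475394175))))) (T.h (P (nat_lit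 0)) (T.h (T.h (P (nat_lit 0)) (M (nat_lit 35685065481487))) (P (nat_lit 0)))))))) (T.h (T.h (T.h (P (nat_lit 10079987083909034611327369216)) (T.h (P (nat_lit 0)) (T.h (M (nat_lit 11310640369533815095295)) (T.h (P (nat_lit 0)) (M (nat_lit 73608423624703999)))))) (T.h (P (nat_lit 0)) (T.h (T.h (M (nat_lit 37782109535124318060543)) (T.h (P (nat_lit 0)) (P (nat_lit 151495464121647104)))) (T.h (P (nat_lit 0)) (M (nat_lit 75512122738147327)))))) (T.h (T.h (P (nat_lit 0)) (T.h (T.h (P (nat_lit 0)) (T.h (M (nat_lit 17705015762189549567)) (T.h (P (nat_lit 0)) (P (nat_lit 31589154588192))))) (T.h (P (nat_lit 0)) (T.h (T.h (P (nat_lit 0)) (M (nat_lit 1228216181215))) (P (nat_lit 0)))))) (T.h (T.h (T.h (M (nat_lit 45300279559282594152447)) (T.h (P (nat_lit 0)) (P (nat_lit 6315630857781248)))) (T.h (P (nat_lit 0)) (M (nat_lit 47073572298719231)))) (T.h (T.h (P (nat_lit 0)) (T.h (T.h (P (nat_lit 0)) (M (nat_lit 6049335980319))) (P (nat_lit 0)))) (M (nat_lit 23378992595042303))))))),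 (T.h (T.h (P (nat_lit 0)) (T.h (T.h (P (nat_lit 137196224813863059226361856000)) (T.h (P (nat_lit 0)) (T.h (M (nat_lit 11969265976788375306239)) (T.h (P (nat_lit 0)) (M (nat_lit 197493002011443199)))))) (T.h (P (nat_lit 0)) (T.h (T.h (M (nat_lit 45524896216863744196607)) (T.h (P (nat_lit 0)) (M (nat_lit 15827926362619903)))) (T.h (P (nat_lit 0)) (P (nat_lit 40952504014077952))))))) (T.h (T.h (T.h (P (nat_lit 0)) (T.h (M (nat_lit 61333752047693800807596031)) (T.h (P (nat_lit 0)) (T.h (P (nat_lit 65998401808849960960)) (T.h (P (nat_lit 0)) (P (nat_lit 35938917754048))))))) (T.h (P (nat_lit 0)) (T.h (T.h (P (nat_lit 0)) (T.h (P (nat_lit 498117621935436201984)) (T.h (P (nat_lit 0)) (M (nat_lit 52226798296127))))) (T.h (P (nat_lit 0)) (T.h (T.h (P (nat_lit 0)) (P (nat_lit 227293147714176))) (P (nat_lit 0))))))) (T.h (T.h (P (nat_lit 0)) (T.h (T.h (M (nat_lit 11969265976788375306239)) (T.h (P (nat_lit 0)) (P (nat_lit 23208470546743296)))) (T.h (P (nat_lit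 0)) (M (nat_lit 15827926362619903))))) (T.h (T.h (T.h (P (nat_lit 0)) (T.h (P (nat_lit 65998401808849960960)) (T.h (P (nat_lit 0)) (M (nat_lit 57247031089407))))) (T.h (P (nat_lit 0)) (T.h (T.h (P (nat_lit 0)) (M (nat_lit 52226798296127))) (P (nat_lit 0))))) (T.h (T.h (P (nat_lit 0)) (M (nat_lit 197493002011443199))) (T.h (T.h (T.h (P (nat_lit 0)) (P (nat_lit 35938917754048))) (P (nat_lit 0))) (P (nat_lit 0)))))))), (T.h (T.h (P (nat_lit 0)) (T.h (T.h (P (nat_lit 0)) (T.h (M (nat_lit 514614921797266848826261503)) (T.h (P (nat_lit 0)) (T.h (M (nat_lit 435331248481649033215)) (T.h (P (nat_lit 0)) (M (nat_lit 27957633716591))))))) (T.h (P (nat_lit 0)) (T.h (T.h (P (nat_lit 0)) (T.h (M (nat_lit 435331248481649033215)) (T.h (P (nat_lit 0)) (P (nat_lit 25282717852608))))) (T.h (P (nat_lit 0)) (T.h (T.h (P (nat_lit 0)) (M (nat_lit 27957633716591))) (P (nat_lit 0)))))))) (T.h (T.h (T.h (P (nat_lit 91203306126304633965942669312)) (T.h (P (nat_lit 0)) (T.h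 (P (nat_lit 398141365652129616756736)) (T.h (P (nat_lit 0)) (P (nat_lit 199072849373184000)))))) (T.h (P (nat_lit 0)) (T.h (T.h (P (nat_lit 398141365652129616756736)) (T.h (P (nat_lit 0)) (P (nat_lit 395490395723497472)))) (T.h (P (nat_lit 0)) (P (nat_lit 199072849373184000)))))) (T.h (T.h (P (nat_lit 0)) (T.h (T.h (P (nat_lit 0)) (T.h (M (nat_lit 943500187785951707135)) (T.h (P (nat_lit 0)) (M (nat_lit 171975504489407))))) (T.h (P (nat_lit 0)) (T.h (T.h (P (nat_lit 0)) (M (nat_lit 171975504489407))) (P (nat_lit 0)))))) (T.h (T.h (T.h (M (nat_lit 192163900534887332970495)) (T.h (P (nat_lit 0)) (P (nat_lit 198945184817594368)))) (T.h (P (nat_lit 0)) (P (nat_lit 198945184817594368)))) (T.h (T.h (P (nat_lit 0)) (T.h (T.h (P (nat_lit 0)) (M (nat_lit 261193932124991))) (P (nat_lit 0)))) (P (nat_lit 7962562553348096))))))), (T.h (T.h (P (nat_lit 0)) (T.h (T.h (M (nat_lit 1067389163542256608104939519)) (T.h (P (nat_lit 0)) (T.h (M (nat_lit 407360935313068118769663))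 (T.h (P (nat_lit 0)) (M (nat_lit 48133197116178431)))))) (T.h (P (nat_lit 0)) (T.h (T.h (M (nat_lit 9817218760697314279423)) (T.h (P (nat_lit 0)) (M (nat_lit 6549343357075455)))) (T.h (P (nat_lit 0)) (P (nat_lit 76460755406553088))))))) (T.h (T.h (T.h (P (nat_lit 0)) (T.h (P (nat_lit 125633492677827405925056512)) (T.h (P (nat_lit 0)) (P (nat_lit 119329832181008695296))))) (T.h (P (nat_lit 0)) (T.h (T.h (P (nat_lit 0)) (P (nat_lit 841263043033434161152))) (P (nat_lit 0))))) (T.h (T.h (P (nat_lit 0)) (T.h (T.h (P (nat_lit 15847429164132177281024)) (T.h (P (nat_lit 0)) (M (nat_lit 267824939245535231)))) (T.h (P (nat_lit 0)) (M (nat_lit 18419990244458495))))) (T.h (T.h (T.h (P (nat_lit 0)) (P (nat_lit 205038297114285703168))) (P (nat_lit 0))) (T.h (T.h (P (nat_lit 0)) (M (nat_lit 11879250200887295))) (P (nat_lit 0))))))), (P (nat_lit 0)), (P (nat_lit 0))]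
def lQp_19 : List (T ℤ) := [(T.h (T.h (T.h (P (nat_lit 86809079186767951930205203857408)) (T.h (P (nat_lit 0)) (T.h (P (nat_lit 36031400753696434022252544)) (T.h (P (nat_lit 0)) (T.h (P (nat_lit 58528156815194062848)) (T.h (P (nat_lit 0)) (P (nat_lit 32079931261568)))))))) (T.h (P (nat_lit 0)) (T.h (T.h (M (nat_lit 2344628487712069071667199)) (T.h (P (nat_lit 0)) (T.h (M (nat_lit 16327763553652047871)) (T.h (P (nat_lit 0)) (M (nat_lit 22396963694271)))))) (T.h (P (nat_lit 0)) (T.h (T.h (M (nat_lit 29021417438497996799)) (T.h (P (nat_lit 0)) (M (nat_lit 35169845347711)))) (T.h (P (nat_lit 0)) (M (nat_lit 15472739090591)))))))) (T.h (T.h (P (nat_lit 0)) (T.h (T.h (P (nat_lit 0)) (T.h (P (nat_lit 59848340049032927772672)) (T.h (P (nat_lit 0)) (P (nat_lit 3353098598154240))))) (T.h (P (nat_lit 0)) (T.h (T.h (P (nat_lit 0)) (P (nat_lit 34322871671980032))) (P (nat_lit 0)))))) (T.h (T.h (T.h (M (nat_lit 36443918426805068705562623)) (T.h (P (nat_lit 0))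 (T.h (M (nat_lit 61134090232989220863)) (T.h (P (nat_lit 0)) (M (nat_lit 7076939740079)))))) (T.h (P (nat_lit 0)) (T.h (T.h (M (nat_lit 47842095524028088319)) (T.h (P (nat_lit 0)) (M (nat_lit 22178401775167)))) (T.h (P (nat_lit 0)) (P (nat_lit 28335036564160)))))) (T.h (T.h (P (nat_lit 0)) (T.h (T.h (P (nat_lit 0)) (P (nat_lit 164587619966582784))) (P (nat_lit 0)))) (T.h (T.h (T.h (M (nat_lit 61090529252569251839)) (T.h (P (nat_lit 0)) (M (nat_lit 93345869782831)))) (T.h (P (nat_lit 0)) (M (nat_lit 8128876489663)))) (T.h (P (nat_lit 0)) (M (nat_lit 61045729373567)))))))), (T.h (T.h (T.h (P (nat_lit 0)) (T.h (P (nat_lit 2329533710682329323256414208)) (T.h (P (nat_lit 0)) (T.h (M (nat_lit 44316061718040580980735)) (T.h (P (nat_lit 0)) (P (nat_lit 46707744146751488))))))) (T.h (P (nat_lit 0)) (T.h (T.h (P (nat_lit 0)) (T.h (P (nat_lit 54157787946408185167872)) (T.h (P (nat_lit 0)) (M (nat_lit 126055557227184127))))) (T.h (P (nat_lit 0)) (T.h (T.h (P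 (nat_lit 0)) (M (nat_lit 188300657747984383))) (P (nat_lit 0))))))) (T.h (T.h (P (nat_lit 0)) (T.h (T.h (M (nat_lit 92849442016214720519864319)) (T.h (P (nat_lit 0)) (T.h (P (nat_lit 37162643078086918144)) (T.h (P (nat_lit 0)) (M (nat_lit 1144468606655)))))) (T.h (P (nat_lit 0)) (T.h (T.h (M (nat_lit 4879699560999419903)) (T.h (P (nat_lit 0)) (M (nat_lit 127847904933183)))) (T.h (P (nat_lit 0)) (P (nat_lit 80261662914944))))))) (T.h (T.h (T.h (P (nat_lit 0)) (T.h (M (nat_lit 4759270580204760727551)) (T.h (P (nat_lit 0)) (P (nat_lit 58487381201682432))))) (T.h (P (nat_lit 0)) (T.h (T.h (P (nat_lit 0)) (M (nat_lit 105894992781311999))) (P (nat_lit 0))))) (T.h (T.h (P (nat_lit 0)) (T.h (T.h (P (nat_lit 18730425569333215232)) (T.h (P (nat_lit 0)) (P (nat_lit 24709703586560)))) (T.h (P (nat_lit 0)) (P (nat_lit 52990702494400))))) (T.h (T.h (T.h (P (nat_lit 0)) (P (nat_lit 4352544021512192))) (P (nat_lit 0))) (T.h (T.h (P (nat_lit 0)) (M (nat_lit 1918557931519)))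 (P (nat_lit 0)))))))), (T.h (T.h (T.h (M (nat_lit 142662334021017626468049225777151)) (T.h (P (nat_lit 0)) (T.h (M (nat_lit 7987408574276351243059199)) (T.h (P (nat_lit 0)) (T.h (P (nat_lit 104014889186685353984)) (T.h (P (nat_lit 0)) (P (nat_lit 47753976709152)))))))) (T.h (P (nat_lit 0)) (T.h (T.h (M (nat_lit 98125863949076212247166975)) (T.h (P (nat_lit 0)) (T.h (M (nat_lit 551162162588304801791)) (T.h (P (nat_lit 0)) (P (nat_lit 15277453196976)))))) (T.h (P (nat_lit 0)) (T.h (T.h (M (nat_lit 103377707555302146047)) (T.h (P (nat_lit 0)) (M (nat_lit 24735861633167)))) (T.h (P (nat_lit 0)) (M (nat_lit 31009392773855)))))))) (T.h (T.h (P (nat_lit 0)) (T.h (T.h (P (nat_lit 0)) (T.h (P (nat_lit 570200279855479996284928)) (T.h (P (nat_lit 0)) (P (nat_lit 632807680434405376))))) (T.h (P (nat_lit 0)) (T.h (T.h (P (nat_lit 0)) (P (nat_lit 98114008135958528))) (P (nat_lit 0)))))) (T.h (T.h (T.h (M (nat_lit 7987408574276351243059199)) (T.h (P (nat_lit 0))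 (T.h (P (nat_lit 481755780554466263040)) (T.h (P (nat_lit 0)) (P (nat_lit 24553582891632)))))) (T.h (P (nat_lit 0)) (T.h (T.h (M (nat_lit 551162162588304801791)) (T.h (P (nat_lit 0)) (M (nat_lit 139261050150047)))) (T.h (P (nat_lit 0)) (M (nat_lit 24735861633167)))))) (T.h (T.h (P (nat_lit 0)) (T.h (T.h (P (nat_lit 0)) (P (nat_lit 632807680434405376))) (P (nat_lit 0)))) (T.h (T.h (T.h (P (nat_lit 104014889186685353984)) (T.h (P (nat_lit 0)) (P (nat_lit 24553582891632)))) (T.h (P (nat_lit 0)) (P (nat_lit 15277453196976)))) (T.h (P (nat_lit 0)) (P (nat_lit 47753976709152)))))))), (T.h (T.h (T.h (P (nat_lit 0)) (T.h (M (nat_lit 1067389163542256608104939519)) (T.h (P (nat_lit 0)) (T.h (M (nat_lit 9817218760697314279423)) (T.h (P (nat_lit 0)) (P (nat_lit 76460755406553088))))))) (T.h (P (nat_lit 0)) (T.h (T.h (P (nat_lit 0)) (T.h (M (nat_lit 407360935313068118769663)) (T.h (P (nat_lit 0)) (M (nat_lit 6549343357075455))))) (T.h (P (nat_lit 0)) (T.h (T.h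 (P (nat_lit 0)) (M (nat_lit 48133197116178431))) (P (nat_lit 0))))))) (T.h (T.h (P (nat_lit 0)) (T.h (T.h (P (nat_lit 125633492677827405925056512)) (T.h (P (nat_lit 0)) (P (nat_lit 841263043033434161152)))) (T.h (P (nat_lit 0)) (P (nat_lit 119329832181008695296))))) (T.h (T.h (T.h (P (nat_lit 0)) (T.h (P (nat_lit 15847429164132177281024)) (T.h (P (nat_lit 0)) (M (nat_lit 18419990244458495))))) (T.h (P (nat_lit 0)) (T.h (T.h (P (nat_lit 0)) (M (nat_lit 267824939245535231))) (P (nat_lit 0))))) (T.h (T.h (P (nat_lit 0)) (P (nat_lit 205038297114285703168))) (T.h (T.h (T.h (P (nat_lit 0)) (M (nat_lit 11879250200887295))) (P (nat_lit 0))) (P (nat_lit 0))))))), (P (nat_lit 0)), (P (nat_lit 0)), (T.h (T.h (P (nat_lit 0)) (T.h (T.h (M (nat_lit 18765722672698315194899628031)) (T.h (P (nat_lit 0)) (T.h (M (nat_lit 115058167568772116774911)) (T.h (P (nat_lit 0)) (M (nat_lit 103189076392050687)))))) (T.h (P (nat_lit 0)) (T.h (T.h (M (nat_lit 23579592421698636349439))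 (T.h (P (nat_lit 0)) (M (nat_lit 25670652112863231)))) (T.h (P (nat_lit 0)) (M (nat_lit 12000930136850431))))))) (T.h (T.h (T.h (P (nat_lit 0)) (T.h (M (nat_lit 24835050078617542714195967)) (T.h (P (nat_lit 0)) (T.h (M (nat_lit 42386563146822189055)) (T.h (P (nat_lit 0)) (P (nat_lit 3655923658688))))))) (T.h (P (nat_lit 0)) (T.h (T.h (P (nat_lit 0)) (T.h (M (nat_lit 128900549409064878079)) (T.h (P (nat_lit 0)) (P (nat_lit 6299933357696))))) (T.h (P (nat_lit 0)) (T.h (T.h (P (nat_lit 0)) (P (nat_lit 26860824312192))) (P (nat_lit 0))))))) (T.h (T.h (P (nat_lit 0)) (T.h (T.h (P (nat_lit 30521886510044407660544)) (T.h (P (nat_lit 0)) (P (nat_lit 31961302718545920)))) (T.h (P (nat_lit 0)) (P (nat_lit 104514075428454400))))) (T.h (T.h (T.h (P (nat_lit 0)) (T.h (M (nat_lit 92842694536798928895)) (T.h (P (nat_lit 0)) (P (nat_lit 141777948044416))))) (T.h (P (nat_lit 0)) (T.h (T.h (P (nat_lit 0)) (M (nat_lit 63976585455807))) (P (nat_lit 0))))) (T.h (T.h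 (P (nat_lit 0)) (P (nat_lit 52964942878146560))) (T.h (T.h (T.h (P (nat_lit 0)) (P (nat_lit 22372417272256))) (P (nat_lit 0))) (P (nat_lit 0)))))))), (T.h (T.h (P (nat_lit 0)) (T.h (T.h (P (nat_lit 0)) (T.h (P (nat_lit 103001419594148129347207168)) (T.h (P (nat_lit 0)) (T.h (M (nat_lit 77790327255810965503)) (T.h (P (nat_lit 0)) (M (nat_lit 45849852608687))))))) (T.h (P (nat_lit 0)) (T.h (T.h (P (nat_lit 0)) (T.h (M (nat_lit 54963012511008292863)) (T.h (P (nat_lit 0)) (P (nat_lit 12834186665184))))) (T.h (P (nat_lit 0)) (T.h (T.h (P (nat_lit 0)) (P (nat_lit 32752559787552))) (P (nat_lit 0)))))))) (T.h (T.h (T.h (M (nat_lit 72478261872372897710639939583)) (T.h (P (nat_lit 0)) (T.h (M (nat_lit 155514434487671085596671)) (T.h (P (nat_lit 0)) (P (nat_lit 98322677260517376)))))) (T.h (P (nat_lit 0)) (T.h (T.h (M (nat_lit 29227457131615847710719)) (T.h (P (nat_lit 0)) (P (nat_lit 26519925572091904)))) (T.h (P (nat_lit 0)) (P (nat_lit 120914351725740032))))))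 (T.h (T.h (P (nat_lit 0)) (T.h (T.h (P (nat_lit 0)) (T.h (M (nat_lit 68199807893534408703)) (T.h (P (nat_lit 0)) (M (nat_lit 215827605369791))))) (T.h (P (nat_lit 0)) (T.h (T.h (P (nat_lit 0)) (M (nat_lit 3247963595855))) (P (nat_lit 0)))))) (T.h (T.h (T.h (P (nat_lit 87123053949393083301888)) (T.h (P (nat_lit 0)) (P (nat_lit 139103987127779328)))) (T.h (P (nat_lit 0)) (P (nat_lit 155218703881830400)))) (T.h (T.h (P (nat_lit 0)) (T.h (T.h (P (nat_lit 0)) (M (nat_lit 139411251903167))) (P (nat_lit 0)))) (M (nat_lit 23341432239112191)))))))]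
def lQp_20 : List (T ℤ) := [(T.h (T.h (P (nat_lit 0)) (T.h (T.h (M (nat_lit 18533547533791401124823039999)) (T.h (P (nat_lit 0)) (T.h (M (nat_lit 203247636894042950729727)) (T.h (P (nat_lit 0)) (M (nat_lit 76937809590648831)))))) (T.h (P (nat_lit 0)) (T.h (T.h (M (nat_lit 33280740286881974976511)) (T.h (P (nat_lit 0)) (M (nat_lit 14492751674703871)))) (T.h (P (nat_lit 0)) (M (nat_lit 27432103723925503))))))) (T.h (T.h (T.h (P (nat_lit 0)) (T.h (M (nat_lit 24362427025986149431640063)) (T.h (P (nat_lit 0)) (P (nat_lit 270015642585305972736))))) (T.h (P (nat_lit 0)) (T.h (T.h (P (nat_lit 0)) (P (nat_lit 99066322717822156800))) (P (nat_lit 0))))) (T.h (T.h (P (nat_lit 0)) (T.h (T.h (M (nat_lit 203247636894042950729727)) (T.h (P (nat_lit 0)) (M (nat_lit 358055875133177855)))) (T.h (P (nat_lit 0)) (M (nat_lit 14492751674703871))))) (T.h (T.h (T.h (P (nat_lit 0)) (P (nat_lit 270015642585305972736))) (P (nat_lit 0))) (T.h (T.h (P (nat_lit 0)) (M (nat_lit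 76937809590648831))) (P (nat_lit 0))))))), (P (nat_lit 0)), (P (nat_lit 0)), (T.h (T.h (T.h (M (nat_lit 205475608593708555075071942590463)) (T.h (P (nat_lit 0)) (T.h (M (nat_lit 49326294657994179987111935)) (T.h (P (nat_lit 0)) (T.h (M (nat_lit 98340197006326104063)) (T.h (P (nat_lit 0)) (M (nat_lit 87410689135199)))))))) (T.h (P (nat_lit 0)) (T.h (T.h (M (nat_lit 606963566151509353693183)) (T.h (P (nat_lit 0)) (T.h (P (nat_lit 54087894479375695872)) (T.h (P (nat_lit 0)) (P (nat_lit 133240626359424)))))) (T.h (P (nat_lit 0)) (T.h (T.h (P (nat_lit 37129636244552155136)) (T.h (P (nat_lit 0)) (P (nat_lit 26406644853168)))) (T.h (P (nat_lit 0)) (P (nat_lit 14645707618464)))))))) (T.h (T.h (P (nat_lit 0)) (T.h (T.h (P (nat_lit 0)) (T.h (M (nat_lit 115192297782243615571967)) (T.h (P (nat_lit 0)) (M (nat_lit 78731064540430335))))) (T.h (P (nat_lit 0)) (T.h (T.h (P (nat_lit 0)) (M (nat_lit 20318761883959295))) (P (nat_lit 0)))))) (T.h (T.h (T.h (P (nat_lit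 30647609676432405136670720)) (T.h (P (nat_lit 0)) (T.h (P (nat_lit 211642940836456431616)) (T.h (P (nat_lit 0)) (P (nat_lit 352154342018448)))))) (T.h (P (nat_lit 0)) (T.h (T.h (P (nat_lit 160391609105522884608)) (T.h (P (nat_lit 0)) (P (nat_lit 14513604933888)))) (T.h (P (nat_lit 0)) (M (nat_lit 77309147628143)))))) (T.h (T.h (P (nat_lit 0)) (T.h (T.h (P (nat_lit 0)) (M (nat_lit 300902337197998079))) (P (nat_lit 0)))) (T.h (T.h (T.h (P (nat_lit 24552213189067014144)) (T.h (P (nat_lit 0)) (P (nat_lit 499241730033216)))) (T.h (P (nat_lit 0)) (P (nat_lit 134195146157664)))) (T.h (P (nat_lit 0)) (P (nat_lit 8713460479392)))))))), (T.h (T.h (T.h (P (nat_lit 0)) (T.h (P (nat_lit 1043116937690069580088606720)) (T.h (P (nat_lit 0)) (T.h (M (nat_lit 61764923110046956519423)) (T.h (P (nat_lit 0)) (M (nat_lit 114189388980387839))))))) (T.h (P (nat_lit 0)) (T.h (T.h (P (nat_lit 0)) (T.h (M (nat_lit 12925985027821664206847)) (T.h (P (nat_lit 0)) (P (nat_lit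 121260396594069504))))) (T.h (P (nat_lit 0)) (T.h (T.h (P (nat_lit 0)) (P (nat_lit 70522602099113984))) (P (nat_lit 0))))))) (T.h (T.h (P (nat_lit 0)) (T.h (T.h (P (nat_lit 18488068673796538873413632)) (T.h (P (nat_lit 0)) (P (nat_lit 3225623507505250304)))) (T.h (P (nat_lit 0)) (M (nat_lit 13067073905649254399))))) (T.h (T.h (T.h (P (nat_lit 0)) (T.h (P (nat_lit 101464149854981390860288)) (T.h (P (nat_lit 0)) (P (nat_lit 293207130200866816))))) (T.h (P (nat_lit 0)) (T.h (T.h (P (nat_lit 0)) (M (nat_lit 21950935167303679))) (P (nat_lit 0))))) (T.h (T.h (P (nat_lit 0)) (P (nat_lit 3412449340189310976))) (T.h (T.h (T.h (P (nat_lit 0)) (P (nat_lit 273430289931173888))) (P (nat_lit 0))) (P (nat_lit 0))))))), (P (nat_lit 0)), (P (nat_lit 0)), (T.h (T.h (P (nat_lit 0)) (T.h (T.h (P (nat_lit 5287393795622230931927990272)) (T.h (P (nat_lit 0)) (T.h (P (nat_lit 11470395129475534684160)) (T.h (P (nat_lit 0)) (P (nat_lit 48452197856411648)))))) (T.h (P (nat_lit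 0)) (T.h (T.h (P (nat_lit 10997930159462676430848)) (T.h (P (nat_lit 0)) (P (nat_lit 28259372670091264)))) (T.h (P (nat_lit 0)) (P (nat_lit 21976945639718912))))))) (T.h (T.h (T.h (P (nat_lit 0)) (T.h (P (nat_lit 7968129611153399804329984)) (T.h (P (nat_lit 0)) (P (nat_lit 34246235936746635264))))) (T.h (P (nat_lit 0)) (T.h (T.h (P (nat_lit 0)) (M (nat_lit 28063542199158046719))) (P (nat_lit 0))))) (T.h (T.h (P (nat_lit 0)) (T.h (T.h (P (nat_lit 37042947306702845771776)) (T.h (P (nat_lit 0)) (P (nat_lit 21820328043151360)))) (T.h (P (nat_lit 0)) (M (nat_lit 78374196030734335))))) (T.h (T.h (T.h (P (nat_lit 0)) (P (nat_lit 28918869486353776640))) (P (nat_lit 0))) (T.h (T.h (P (nat_lit 0)) (P (nat_lit 17184947940786176))) (P (nat_lit 0)))))))]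
def lQp_21 : List (T ℤ) := [(P (nat_lit 0)), (P (nat_lit 0)), (P (nat_lit 0)), (P (nat_lit 0)), (P (nat_lit 0)), (T.h (T.h (P (nat_lit 0)) (T.h (T.h (P (nat_lit 0)) (T.h (P (nat_lit 11771323360378338012037120)) (T.h (P (nat_lit 0)) (T.h (P (nat_lit 7721819484343762944)) (T.h (P (nat_lit 0)) (M (nat_lit 9351027505655))))))) (T.h (P (nat_lit 0)) (T.h (T.h (P (nat_lit 0)) (T.h (P (nat_lit 21742454913363869696)) (T.h (P (nat_lit 0)) (M (nat_lit 23745552648631))))) (T.h (P (nat_lit 0)) (T.h (T.h (P (nat_lit 0)) (M (nat_lit 4863280810599))) (P (nat_lit 0)))))))) (T.h (T.h (T.h (P (nat_lit 4046437473873126187115479040)) (T.h (P (nat_lit 0)) (T.h (M (nat_lit 35381343235723547901951)) (T.h (P (nat_lit 0)) (M (nat_lit 8045505186660351)))))) (T.h (P (nat_lit 0)) (T.h (T.h (M (nat_lit 11058639795145398026239)) (T.h (P (nat_lit 0)) (P (nat_lit 6060853009612800)))) (T.h (P (nat_lit 0)) (P (nat_lit 1899368817328128)))))) (T.h (T.h (P (nat_lit 0)) (T.h (T.h (P (nat_lit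 0)) (T.h (P (nat_lit 53348559484627189760)) (T.h (P (nat_lit 0)) (P (nat_lit 24789354920256))))) (T.h (P (nat_lit 0)) (T.h (T.h (P (nat_lit 0)) (M (nat_lit 22199166475135))) (P (nat_lit 0)))))) (T.h (T.h (T.h (M (nat_lit 8629264156460652167167)) (T.h (P (nat_lit 0)) (M (nat_lit 9534341900369919)))) (T.h (P (nat_lit 0)) (M (nat_lit 460861854810111)))) (T.h (T.h (P (nat_lit 0)) (T.h (T.h (P (nat_lit 0)) (P (nat_lit 8729655611432))) (P (nat_lit 0)))) (M (nat_lit 5566547675250687))))))), (T.h (T.h (P (nat_lit 0)) (T.h (T.h (P (nat_lit 58407741708197557844689551360)) (T.h (P (nat_lit 0)) (T.h (P (nat_lit 14328093330667368087552)) (T.h (P (nat_lit 0)) (P (nat_lit 95200758005841920)))))) (T.h (P (nat_lit 0)) (T.h (T.h (P (nat_lit 24155213164710625017856)) (T.h (P (nat_lit 0)) (P (nat_lit 4706952372207616)))) (T.h (P (nat_lit 0)) (P (nat_lit 450914590064640))))))) (T.h (T.h (T.h (P (nat_lit 0)) (T.h (M (nat_lit 32853814453015003422261247)) (T.h (P (nat_lit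 0)) (T.h (M (nat_lit 46199622579093766143)) (T.h (P (nat_lit 0)) (M (nat_lit 5456481312047))))))) (T.h (P (nat_lit 0)) (T.h (T.h (P (nat_lit 0)) (T.h (M (nat_lit 119575697819151892479)) (T.h (P (nat_lit 0)) (M (nat_lit 64596591120223))))) (T.h (P (nat_lit 0)) (T.h (T.h (P (nat_lit 0)) (P (nat_lit 18546753362336))) (P (nat_lit 0))))))) (T.h (T.h (P (nat_lit 0)) (T.h (T.h (P (nat_lit 14328093330667368087552)) (T.h (P (nat_lit 0)) (P (nat_lit 381346097611210752)))) (T.h (P (nat_lit 0)) (P (nat_lit 4706952372207616))))) (T.h (T.h (T.h (P (nat_lit 0)) (T.h (M (nat_lit 46199622579093766143)) (T.h (P (nat_lit 0)) (P (nat_lit 48640495562304))))) (T.h (P (nat_lit 0)) (T.h (T.h (P (nat_lit 0)) (M (nat_lit 64596591120223))) (P (nat_lit 0))))) (T.h (T.h (P (nat_lit 0)) (P (nat_lit 95200758005841920))) (T.h (T.h (T.h (P (nat_lit 0)) (M (nat_lit 5456481312047))) (P (nat_lit 0))) (P (nat_lit 0)))))))), (T.h (T.h (P (nat_lit 0)) (T.h (T.h (P (nat_lit 0)) (T.h (P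 (nat_lit 80418422512579686147555328)) (T.h (P (nat_lit 0)) (T.h (P (nat_lit 59806517900091588608)) (T.h (P (nat_lit 0)) (M (nat_lit 8349296421311))))))) (T.h (P (nat_lit 0)) (T.h (T.h (P (nat_lit 0)) (T.h (P (nat_lit 178498018031653879808)) (T.h (P (nat_lit 0)) (P (nat_lit 19914028257664))))) (T.h (P (nat_lit 0)) (T.h (T.h (P (nat_lit 0)) (P (nat_lit 8739903821824))) (P (nat_lit 0)))))))) (T.h (T.h (T.h (M (nat_lit 3590745101603317330175066111)) (T.h (P (nat_lit 0)) (T.h (M (nat_lit 63497192389272894701567)) (T.h (P (nat_lit 0)) (P (nat_lit 56846165451276288)))))) (T.h (P (nat_lit 0)) (T.h (T.h (M (nat_lit 124166508171363386130431)) (T.h (P (nat_lit 0)) (P (nat_lit 34854012157460480)))) (T.h (P (nat_lit 0)) (M (nat_lit 36867882448781311)))))) (T.h (T.h (P (nat_lit 0)) (T.h (T.h (P (nat_lit 0)) (T.h (P (nat_lit 104085129146604191744)) (T.h (P (nat_lit 0)) (M (nat_lit 42822324891903))))) (T.h (P (nat_lit 0)) (T.h (T.h (P (nat_lit 0)) (P (nat_lit 17335854132352)))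 (P (nat_lit 0)))))) (T.h (T.h (T.h (P (nat_lit 20755233146715930361856)) (T.h (P (nat_lit 0)) (P (nat_lit 77251621451530240)))) (T.h (P (nat_lit 0)) (M (nat_lit 68489507773218815)))) (T.h (T.h (P (nat_lit 0)) (T.h (T.h (P (nat_lit 0)) (M (nat_lit 127027661279103))) (P (nat_lit 0)))) (M (nat_lit 58160947801522175)))))))]
def lQp_22 : List (T ℤ) := [(T.h (T.h (P (nat_lit 0)) (T.h (T.h (M (nat_lit 86573778126472935022694236159)) (T.h (P (nat_lit 0)) (T.h (M (nat_lit 38674386700585597403135)) (T.h (P (nat_lit 0)) (M (nat_lit 1512243294584831)))))) (T.h (P (nat_lit 0)) (T.h (T.h (M (nat_lit 49032214689452727992319)) (T.h (P (nat_lit 0)) (M (nat_lit 33527803763163135)))) (T.h (P (nat_lit 0)) (M (nat_lit 22307162351419391))))))) (T.h (T.h (T.h (P (nat_lit 0)) (T.h (P (nat_lit 55057915343755458021163008)) (T.h (P (nat_lit 0)) (T.h (P (nat_lit 161023069026907062272)) (T.h (P (nat_lit 0)) (P (nat_lit 45005981788656))))))) (T.h (P (nat_lit 0)) (T.h (T.h (P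 (nat_lit 0)) (T.h (P (nat_lit 321466405071154577408)) (T.h (P (nat_lit 0)) (P (nat_lit 73574799128352))))) (T.h (P (nat_lit 0)) (T.h (T.h (P (nat_lit 0)) (M (nat_lit 36795851005967))) (P (nat_lit 0))))))) (T.h (T.h (P (nat_lit 0)) (T.h (T.h (P (nat_lit 60821576642137342083072)) (T.h (P (nat_lit 0)) (M (nat_lit 556794615299260415)))) (T.h (P (nat_lit 0)) (P (nat_lit 257381685080227840))))) (T.h (T.h (T.h (P (nat_lit 0)) (T.h (P (nat_lit 166545932273294770176)) (T.h (P (nat_lit 0)) (M (nat_lit 35467958383919))))) (T.h (P (nat_lit 0)) (T.h (T.h (P (nat_lit 0)) (P (nat_lit 3848439743712))) (P (nat_lit 0))))) (T.h (T.h (P (nat_lit 0)) (P (nat_lit 45815686882213888))) (T.h (T.h (T.h (P (nat_lit 0)) (M (nat_lit 18638776481903))) (P (nat_lit 0))) (P (nat_lit 0)))))))), (T.h (T.h (P (nat_lit 0)) (T.h (T.h (P (nat_lit 0)) (T.h (M (nat_lit 28478335506665354741940223)) (T.h (P (nat_lit 0)) (M (nat_lit 7399312085391245311))))) (T.h (P (nat_lit 0)) (T.h (T.h (P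 (nat_lit 0)) (M (nat_lit 46219789068006326271))) (P (nat_lit 0)))))) (T.h (T.h (T.h (P (nat_lit 485246316002040588049317888)) (T.h (P (nat_lit 0)) (T.h (P (nat_lit 116266967700160330596352)) (T.h (P (nat_lit 0)) (P (nat_lit 16022553870106624)))))) (T.h (P (nat_lit 0)) (T.h (T.h (P (nat_lit 156873228732256518930432)) (T.h (P (nat_lit 0)) (P (nat_lit 56832365739311104)))) (T.h (P (nat_lit 0)) (P (nat_lit 151896253560815616)))))) (T.h (T.h (P (nat_lit 0)) (T.h (T.h (P (nat_lit 0)) (M (nat_lit 379707384477398335487))) (P (nat_lit 0)))) (T.h (T.h (T.h (P (nat_lit 47953310490409918529536)) (T.h (P (nat_lit 0)) (P (nat_lit 97934611223642112)))) (T.h (P (nat_lit 0)) (P (nat_lit 455296650780803072)))) (T.h (P (nat_lit 0)) (P (nat_lit 7655420903981056))))))), (P (nat_lit 0)), (P (nat_lit 0)), (T.h (T.h (T.h (P (nat_lit 0)) (T.h (P (nat_lit 0)) (T.h (P (nat_lit 3928032781046310399639552)) (T.h (P (nat_lit 0)) (T.h (M (nat_lit 8649608026065469439)) (T.h (P (nat_lit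 0)) (M (nat_lit 9660305695471)))))))) (T.h (P (nat_lit 0)) (T.h (T.h (P (nat_lit 3928032781046310399639552)) (T.h (P (nat_lit 0)) (T.h (M (nat_lit 5377221110599254015)) (T.h (P (nat_lit 0)) (P (nat_lit 1435002260480)))))) (T.h (P (nat_lit 0)) (T.h (T.h (M (nat_lit 8649608026065469439)) (T.h (P (nat_lit 0)) (P (nat_lit 1435002260480)))) (T.h (P (nat_lit 0)) (M (nat_lit 9660305695471)))))))) (T.h (T.h (P (nat_lit 0)) (T.h (T.h (P (nat_lit 0)) (T.h (P (nat_lit 385480514967894491136)) (T.h (P (nat_lit 0)) (M (nat_lit 8812788919631871))))) (T.h (P (nat_lit 0)) (T.h (T.h (P (nat_lit 0)) (M (nat_lit 8812788919631871))) (P (nat_lit 0)))))) (T.h (T.h (T.h (M (nat_lit 231600349026101198061567)) (T.h (P (nat_lit 0)) (T.h (P (nat_lit 16144163762708938752)) (T.h (P (nat_lit 0)) (P (nat_lit 493387832048)))))) (T.h (P (nat_lit 0)) (T.h (T.h (P (nat_lit 16144163762708938752)) (T.h (P (nat_lit 0)) (P (nat_lit 637453984352)))) (T.h (P (nat_lit 0)) (P (nat_lit 493387832048))))))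 (T.h (T.h (P (nat_lit 0)) (T.h (T.h (P (nat_lit 0)) (M (nat_lit 391341705789439))) (P (nat_lit 0)))) (T.h (T.h (T.h (M (nat_lit 844542684713451519)) (T.h (P (nat_lit 0)) (M (nat_lit 3214488030463)))) (T.h (P (nat_lit 0)) (M (nat_lit 3214488030463)))) (T.h (P (nat_lit 0)) (M (nat_lit 2001849057247)))))))), (T.h (T.h (T.h (P (nat_lit 0)) (T.h (P (nat_lit 10079987083909034611327369216)) (T.h (P (nat_lit 0)) (T.h (M (nat_lit 45300279559282594152447)) (T.h (P (nat_lit 0)) (M (nat_lit 23378992595042303))))))) (T.h (P (nat_lit 0)) (T.h (T.h (P (nat_lit 0)) (T.h (M (nat_lit 11310640369533815095295)) (T.h (P (nat_lit 0)) (P (nat_lit 6315630857781248))))) (T.h (P (nat_lit 0)) (T.h (T.h (P (nat_lit 0)) (M (nat_lit 73608423624703999))) (P (nat_lit 0))))))) (T.h (T.h (P (nat_lit 0)) (T.h (T.h (M (nat_lit 6799619440246064861413375)) (T.h (P (nat_lit 0)) (T.h (M (nat_lit 17705015762189549567)) (T.h (P (nat_lit 0)) (M (nat_lit 6049335980319)))))) (T.h (P (nat_lit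 0)) (T.h (T.h (P (nat_lit 39462934967496998912)) (T.h (P (nat_lit 0)) (P (nat_lit 31589154588192)))) (T.h (P (nat_lit 0)) (P (nat_lit 15958812818176))))))) (T.h (T.h (T.h (P (nat_lit 0)) (T.h (M (nat_lit 37782109535124318060543)) (T.h (P (nat_lit 0)) (M (nat_lit 47073572298719231))))) (T.h (P (nat_lit 0)) (T.h (T.h (P (nat_lit 0)) (P (nat_lit 151495464121647104))) (P (nat_lit 0))))) (T.h (T.h (P (nat_lit 0)) (T.h (T.h (M (nat_lit 12514945616788324351)) (T.h (P (nat_lit 0)) (M (nat_lit 1228216181215)))) (T.h (P (nat_lit 0)) (M (nat_lit 13381475394175))))) (T.h (T.h (T.h (P (nat_lit 0)) (M (nat_lit 75512122738147327))) (P (nat_lit 0))) (T.h (T.h (P (nat_lit 0)) (M (nat_lit 35685065481487))) (P (nat_lit 0)))))))), (T.h (T.h (T.h (M (nat_lit 21520037286728407769033360801791)) (T.h (P (nat_lit 0)) (T.h (M (nat_lit 32593995845760491378966527)) (T.h (P (nat_lit 0)) (T.h (M (nat_lit 50382098732544950271)) (T.h (P (nat_lit 0)) (P (nat_lit 3869997229440))))))))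 (T.h (P (nat_lit 0)) (T.h (T.h (P (nat_lit 150799623545482001323655168)) (T.h (P (nat_lit 0)) (T.h (P (nat_lit 2972981622955048960)) (T.h (P (nat_lit 0)) (P (nat_lit 5998670132480)))))) (T.h (P (nat_lit 0)) (T.h (T.h (P (nat_lit 90644100694493102080)) (T.h (P (nat_lit 0)) (P (nat_lit 52873795194880)))) (T.h (P (nat_lit 0)) (P (nat_lit 17293522131840)))))))) (T.h (T.h (P (nat_lit 0)) (T.h (T.h (P (nat_lit 0)) (T.h (M (nat_lit 191967605361147471986687)) (T.h (P (nat_lit 0)) (M (nat_lit 231257191597735935))))) (T.h (P (nat_lit 0)) (T.h (T.h (P (nat_lit 0)) (M (nat_lit 143974309221105663))) (P (nat_lit 0)))))) (T.h (T.h (T.h (M (nat_lit 32593995845760491378966527)) (T.h (P (nat_lit 0)) (T.h (P (nat_lit 156838974676478722048)) (T.h (P (nat_lit 0)) (P (nat_lit 22036195153536)))))) (T.h (P (nat_lit 0)) (T.h (T.h (P (nat_lit 2972981622955048960)) (T.h (P (nat_lit 0)) (M (nat_lit 63864146695807)))) (T.h (P (nat_lit 0)) (P (nat_lit 52873795194880)))))) (T.h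 (T.h (P (nat_lit 0)) (T.h (T.h (P (nat_lit 0)) (M (nat_lit 231257191597735935))) (P (nat_lit 0)))) (T.h (T.h (T.h (M (nat_lit 50382098732544950271)) (T.h (P (nat_lit 0)) (P (nat_lit 22036195153536)))) (T.h (P (nat_lit 0)) (P (nat_lit 5998670132480)))) (T.h (P (nat_lit 0)) (P (nat_lit 3869997229440)))))))), (T.h (T.h (T.h (P (nat_lit 0)) (T.h (M (nat_lit 1388833709443735624582430719)) (T.h (P (nat_lit 0)) (T.h (P (nat_lit 87650396103575026532352)) (T.h (P (nat_lit 0)) (P (nat_lit 78829327298969600))))))) (T.h (P (nat_lit 0)) (T.h (T.h (P (nat_lit 0)) (T.h (M (nat_lit 68126053748545643610111)) (T.h (P (nat_lit 0)) (P (nat_lit 69140507328200704))))) (T.h (P (nat_lit 0)) (T.h (T.h (P (nat_lit 0)) (P (nat_lit 141085513302016))) (P (nat_lit 0))))))) (T.h (T.h (P (nat_lit 0)) (T.h (T.h (P (nat_lit 153413495533932063255166976)) (T.h (P (nat_lit 0)) (T.h (M (nat_lit 136039828561613291519)) (T.h (P (nat_lit 0)) (M (nat_lit 22262947040159)))))) (T.h (P (nat_lit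 0)) (T.h (T.h (P (nat_lit 387258353633040793600)) (T.h (P (nat_lit 0)) (M (nat_lit 127505483758511)))) (T.h (P (nat_lit 0)) (P (nat_lit 31976606021472))))))) (T.h (T.h (T.h (P (nat_lit 0)) (T.h (M (nat_lit 1652790154048969900031)) (T.h (P (nat_lit 0)) (P (nat_lit 218623802189496320))))) (T.h (P (nat_lit 0)) (T.h (T.h (P (nat_lit 0)) (P (nat_lit 367559157077147648))) (P (nat_lit 0))))) (T.h (T.h (P (nat_lit 0)) (T.h (T.h (M (nat_lit 110231245384298004479)) (T.h (P (nat_lit 0)) (M (nat_lit 165739260395375)))) (T.h (P (nat_lit 0)) (M (nat_lit 2395349943695))))) (T.h (T.h (T.h (P (nat_lit 0)) (P (nat_lit 60744512777912320))) (P (nat_lit 0))) (T.h (T.h (P (nat_lit 0)) (P (nat_lit 77442952494384))) (P (nat_lit 0))))))))]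
def lQp_23 : List (T ℤ) := [(T.h (T.h (T.h (M (nat_lit 19245058767597118072917487255551)) (T.h (P (nat_lit 0)) (T.h (P (nat_lit 49064869503036694296788992)) (T.h (P (nat_lit 0)) (P (nat_lit 58062886536468234240)))))) (T.h (P (nat_lit 0)) (T.h (T.h (M (nat_lit 59825625941170914374713343)) (T.h (P (nat_lit 0)) (P (nat_lit 45880012597962473472)))) (T.h (P (nat_lit 0)) (M (nat_lit 12951678390250766335)))))) (T.h (T.h (P (nat_lit 0)) (T.h (T.h (P (nat_lit 0)) (T.h (P (nat_lit 171507145602860729761792)) (T.h (P (nat_lit 0)) (P (nat_lit 11742295132012544))))) (T.h (P (nat_lit 0)) (T.h (T.h (P (nat_lit 0)) (M (nat_lit 189747104945602559))) (P (nat_lit 0)))))) (T.h (T.h (T.h (P (nat_lit 8849924118460195124805632)) (T.h (P (nat_lit 0)) (P (nat_lit 78300033919217565696)))) (T.h (P (nat_lit 0)) (P (nat_lit 218013063006075748352)))) (T.h (T.h (P (nat_lit 0)) (T.h (T.h (P (nat_lit 0)) (M (nat_lit 200573530775551999))) (P (nat_lit 0)))) (M (nat_lit 22472147538827804671)))))),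 (P (nat_lit 0)), (P (nat_lit 0)), (T.h (T.h (P (nat_lit 0)) (T.h (T.h (P (nat_lit 0)) (T.h (P (nat_lit 11771323360378338012037120)) (T.h (P (nat_lit 0)) (T.h (P (nat_lit 21742454913363869696)) (T.h (P (nat_lit 0)) (M (nat_lit 4863280810599))))))) (T.h (P (nat_lit 0)) (T.h (T.h (P (nat_lit 0)) (T.h (P (nat_lit 7721819484343762944)) (T.h (P (nat_lit 0)) (M (nat_lit 23745552648631))))) (T.h (P (nat_lit 0)) (T.h (T.h (P (nat_lit 0)) (M (nat_lit 9351027505655))) (P (nat_lit 0)))))))) (T.h (T.h (T.h (P (nat_lit 4046437473873126187115479040)) (T.h (P (nat_lit 0)) (T.h (M (nat_lit 11058639795145398026239)) (T.h (P (nat_lit 0)) (P (nat_lit 1899368817328128)))))) (T.h (P (nat_lit 0)) (T.h (T.h (M (nat_lit 35381343235723547901951)) (T.h (P (nat_lit 0)) (P (nat_lit 6060853009612800)))) (T.h (P (nat_lit 0)) (M (nat_lit 8045505186660351)))))) (T.h (T.h (P (nat_lit 0)) (T.h (T.h (P (nat_lit 0)) (T.h (P (nat_lit 53348559484627189760)) (T.h (P (nat_lit 0)) (M (nat_lit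 22199166475135))))) (T.h (P (nat_lit 0)) (T.h (T.h (P (nat_lit 0)) (P (nat_lit 24789354920256))) (P (nat_lit 0)))))) (T.h (T.h (T.h (M (nat_lit 8629264156460652167167)) (T.h (P (nat_lit 0)) (M (nat_lit 460861854810111)))) (T.h (P (nat_lit 0)) (M (nat_lit 9534341900369919)))) (T.h (T.h (P (nat_lit 0)) (T.h (T.h (P (nat_lit 0)) (P (nat_lit 8729655611432))) (P (nat_lit 0)))) (M (nat_lit 5566547675250687))))))), (T.h (T.h (P (nat_lit 0)) (T.h (T.h (P (nat_lit 10079987083909034611327369216)) (T.h (P (nat_lit 0)) (T.h (M (nat_lit 11310640369533815095295)) (T.h (P (nat_lit 0)) (M (nat_lit 73608423624703999)))))) (T.h (P (nat_lit 0)) (T.h (T.h (M (nat_lit 45300279559282594152447)) (T.h (P (nat_lit 0)) (P (nat_lit 6315630857781248)))) (T.h (P (nat_lit 0)) (M (nat_lit 23378992595042303))))))) (T.h (T.h (T.h (P (nat_lit 0)) (T.h (M (nat_lit 6799619440246064861413375)) (T.h (P (nat_lit 0)) (T.h (P (nat_lit 39462934967496998912)) (T.h (P (nat_lit 0)) (P (nat_lit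 15958812818176))))))) (T.h (P (nat_lit 0)) (T.h (T.h (P (nat_lit 0)) (T.h (M (nat_lit 17705015762189549567)) (T.h (P (nat_lit 0)) (P (nat_lit 31589154588192))))) (T.h (P (nat_lit 0)) (T.h (T.h (P (nat_lit 0)) (M (nat_lit 6049335980319))) (P (nat_lit 0))))))) (T.h (T.h (P (nat_lit 0)) (T.h (T.h (M (nat_lit 37782109535124318060543)) (T.h (P (nat_lit 0)) (P (nat_lit 151495464121647104)))) (T.h (P (nat_lit 0)) (M (nat_lit 47073572298719231))))) (T.h (T.h (T.h (P (nat_lit 0)) (T.h (M (nat_lit 12514945616788324351)) (T.h (P (nat_lit 0)) (M (nat_lit 13381475394175))))) (T.h (P (nat_lit 0)) (T.h (T.h (P (nat_lit 0)) (M (nat_lit 1228216181215))) (P (nat_lit 0))))) (T.h (T.h (P (nat_lit 0)) (M (nat_lit 75512122738147327))) (T.h (T.h (T.h (P (nat_lit 0)) (M (nat_lit 35685065481487))) (P (nat_lit 0))) (P (nat_lit 0)))))))), (T.h (T.h (P (nat_lit 0)) (T.h (T.h (P (nat_lit 0)) (T.h (M (nat_lit 61333752047693800807596031)) (T.h (P (nat_lit 0)) (T.h (P (nat_lit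 65998401808849960960)) (T.h (P (nat_lit 0)) (P (nat_lit 35938917754048))))))) (T.h (P (nat_lit 0)) (T.h (T.h (P (nat_lit 0)) (T.h (P (nat_lit 65998401808849960960)) (T.h (P (nat_lit 0)) (M (nat_lit 57247031089407))))) (T.h (P (nat_lit 0)) (T.h (T.h (P (nat_lit 0)) (P (nat_lit 35938917754048))) (P (nat_lit 0)))))))) (T.h (T.h (T.h (P (nat_lit 137196224813863059226361856000)) (T.h (P (nat_lit 0)) (T.h (M (nat_lit 11969265976788375306239)) (T.h (P (nat_lit 0)) (M (nat_lit 197493002011443199)))))) (T.h (P (nat_lit 0)) (T.h (T.h (M (nat_lit 11969265976788375306239)) (T.h (P (nat_lit 0)) (P (nat_lit 23208470546743296)))) (T.h (P (nat_lit 0)) (M (nat_lit 197493002011443199)))))) (T.h (T.h (P (nat_lit 0)) (T.h (T.h (P (nat_lit 0)) (T.h (P (nat_lit 498117621935436201984)) (T.h (P (nat_lit 0)) (M (nat_lit 52226798296127))))) (T.h (P (nat_lit 0)) (T.h (T.h (P (nat_lit 0)) (M (nat_lit 52226798296127))) (P (nat_lit 0)))))) (T.h (T.h (T.h (M (nat_lit 45524896216863744196607))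 (T.h (P (nat_lit 0)) (M (nat_lit 15827926362619903)))) (T.h (P (nat_lit 0)) (M (nat_lit 15827926362619903)))) (T.h (T.h (P (nat_lit 0)) (T.h (T.h (P (nat_lit 0)) (P (nat_lit 227293147714176))) (P (nat_lit 0)))) (P (nat_lit 40952504014077952))))))), (T.h (T.h (P (nat_lit 0)) (T.h (T.h (P (nat_lit 91203306126304633965942669312)) (T.h (P (nat_lit 0)) (T.h (P (nat_lit 398141365652129616756736)) (T.h (P (nat_lit 0)) (P (nat_lit 199072849373184000)))))) (T.h (P (nat_lit 0)) (T.h (T.h (M (nat_lit 192163900534887332970495)) (T.h (P (nat_lit 0)) (P (nat_lit 198945184817594368)))) (T.h (P (nat_lit 0)) (P (nat_lit 7962562553348096))))))) (T.h (T.h (T.h (P (nat_lit 0)) (T.h (M (nat_lit 514614921797266848826261503)) (T.h (P (nat_lit 0)) (T.h (M (nat_lit 435331248481649033215)) (T.h (P (nat_lit 0)) (M (nat_lit 27957633716591))))))) (T.h (P (nat_lit 0)) (T.h (T.h (P (nat_lit 0)) (T.h (M (nat_lit 943500187785951707135)) (T.h (P (nat_lit 0)) (M (nat_lit 171975504489407)))))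 (T.h (P (nat_lit 0)) (T.h (T.h (P (nat_lit 0)) (M (nat_lit 261193932124991))) (P (nat_lit 0))))))) (T.h (T.h (P (nat_lit 0)) (T.h (T.h (P (nat_lit 398141365652129616756736)) (T.h (P (nat_lit 0)) (P (nat_lit 395490395723497472)))) (T.h (P (nat_lit 0)) (P (nat_lit 198945184817594368))))) (T.h (T.h (T.h (P (nat_lit 0)) (T.h (M (nat_lit 435331248481649033215)) (T.h (P (nat_lit 0)) (P (nat_lit 25282717852608))))) (T.h (P (nat_lit 0)) (T.h (T.h (P (nat_lit 0)) (M (nat_lit 171975504489407))) (P (nat_lit 0))))) (T.h (T.h (P (nat_lit 0)) (P (nat_lit 199072849373184000))) (T.h (T.h (T.h (P (nat_lit 0)) (M (nat_lit 27957633716591))) (P (nat_lit 0))) (P (nat_lit 0)))))))), (T.h (T.h (P (nat_lit 0)) (T.h (T.h (P (nat_lit 0)) (T.h (P (nat_lit 125633492677827405925056512)) (T.h (P (nat_lit 0)) (P (nat_lit 119329832181008695296))))) (T.h (P (nat_lit 0)) (T.h (T.h (P (nat_lit 0)) (P (nat_lit 205038297114285703168))) (P (nat_lit 0)))))) (T.h (T.h (T.h (M (nat_lit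 1067389163542256608104939519)) (T.h (P (nat_lit 0)) (T.h (M (nat_lit 407360935313068118769663)) (T.h (P (nat_lit 0)) (M (nat_lit 48133197116178431)))))) (T.h (P (nat_lit 0)) (T.h (T.h (P (nat_lit 15847429164132177281024)) (T.h (P (nat_lit 0)) (M (nat_lit 267824939245535231)))) (T.h (P (nat_lit 0)) (M (nat_lit 11879250200887295)))))) (T.h (T.h (P (nat_lit 0)) (T.h (T.h (P (nat_lit 0)) (P (nat_lit 841263043033434161152))) (P (nat_lit 0)))) (T.h (T.h (T.h (M (nat_lit 9817218760697314279423)) (T.h (P (nat_lit 0)) (M (nat_lit 6549343357075455)))) (T.h (P (nat_lit 0)) (M (nat_lit 18419990244458495)))) (T.h (P (nat_lit 0)) (P (nat_lit 76460755406553088)))))))]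
def lQp_24 : List (T ℤ) := [(P (nat_lit 0)), (P (nat_lit 0)), (T.h (T.h (T.h (P (nat_lit 0)) (T.h (P (nat_lit 58407741708197557844689551360)) (T.h (P (nat_lit 0)) (T.h (P (nat_lit 24155213164710625017856)) (T.h (P (nat_lit 0)) (P (nat_lit 450914590064640))))))) (T.h (P (nat_lit 0)) (T.h (T.h (P (nat_lit 0)) (T.h (P (nat_lit 14328093330667368087552)) (T.h (P (nat_lit 0)) (P (nat_lit 4706952372207616))))) (T.h (P (nat_lit 0)) (T.h (T.h (P (nat_lit 0)) (P (nat_lit 95200758005841920))) (P (nat_lit 0))))))) (T.h (T.h (P (nat_lit 0)) (T.h (T.h (M (nat_lit 32853814453015003422261247)) (T.h (P (nat_lit 0)) (T.h (M (nat_lit 119575697819151892479)) (T.h (P (nat_lit 0)) (P (nat_lit 18546753362336)))))) (T.h (P (nat_lit 0)) (T.h (T.h (M (nat_lit 46199622579093766143)) (T.h (P (nat_lit 0)) (M (nat_lit 64596591120223)))) (T.h (P (nat_lit 0)) (M (nat_lit 5456481312047))))))) (T.h (T.h (T.h (P (nat_lit 0)) (T.h (P (nat_lit 14328093330667368087552)) (T.h (P (nat_lit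 0)) (P (nat_lit 4706952372207616))))) (T.h (P (nat_lit 0)) (T.h (T.h (P (nat_lit 0)) (P (nat_lit 381346097611210752))) (P (nat_lit 0))))) (T.h (T.h (P (nat_lit 0)) (T.h (T.h (M (nat_lit 46199622579093766143)) (T.h (P (nat_lit 0)) (M (nat_lit 64596591120223)))) (T.h (P (nat_lit 0)) (P (nat_lit 48640495562304))))) (T.h (T.h (T.h (P (nat_lit 0)) (P (nat_lit 95200758005841920))) (P (nat_lit 0))) (T.h (T.h (P (nat_lit 0)) (M (nat_lit 5456481312047))) (P (nat_lit 0)))))))), (T.h (T.h (T.h (M (nat_lit 21520037286728407769033360801791)) (T.h (P (nat_lit 0)) (T.h (P (nat_lit 150799623545482001323655168)) (T.h (P (nat_lit 0)) (T.h (P (nat_lit 90644100694493102080)) (T.h (P (nat_lit 0)) (P (nat_lit 17293522131840)))))))) (T.h (P (nat_lit 0)) (T.h (T.h (M (nat_lit 32593995845760491378966527)) (T.h (P (nat_lit 0)) (T.h (P (nat_lit 2972981622955048960)) (T.h (P (nat_lit 0)) (P (nat_lit 52873795194880)))))) (T.h (P (nat_lit 0)) (T.h (T.h (M (nat_lit 50382098732544950271))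 (T.h (P (nat_lit 0)) (P (nat_lit 5998670132480)))) (T.h (P (nat_lit 0)) (P (nat_lit 3869997229440)))))))) (T.h (T.h (P (nat_lit 0)) (T.h (T.h (P (nat_lit 0)) (T.h (M (nat_lit 191967605361147471986687)) (T.h (P (nat_lit 0)) (M (nat_lit 143974309221105663))))) (T.h (P (nat_lit 0)) (T.h (T.h (P (nat_lit 0)) (M (nat_lit 231257191597735935))) (P (nat_lit 0)))))) (T.h (T.h (T.h (M (nat_lit 32593995845760491378966527)) (T.h (P (nat_lit 0)) (T.h (P (nat_lit 2972981622955048960)) (T.h (P (nat_lit 0)) (P (nat_lit 52873795194880)))))) (T.h (P (nat_lit 0)) (T.h (T.h (P (nat_lit 156838974676478722048)) (T.h (P (nat_lit 0)) (M (nat_lit 63864146695807)))) (T.h (P (nat_lit 0)) (P (nat_lit 22036195153536)))))) (T.h (T.h (P (nat_lit 0)) (T.h (T.h (P (nat_lit 0)) (M (nat_lit 231257191597735935))) (P (nat_lit 0)))) (T.h (T.h (T.h (M (nat_lit 50382098732544950271)) (T.h (P (nat_lit 0)) (P (nat_lit 5998670132480)))) (T.h (P (nat_lit 0)) (P (nat_lit 22036195153536))))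 (T.h (P (nat_lit 0)) (P (nat_lit 3869997229440)))))))), (T.h (T.h (T.h (P (nat_lit 0)) (T.h (P (nat_lit 91203306126304633965942669312)) (T.h (P (nat_lit 0)) (T.h (M (nat_lit 192163900534887332970495)) (T.h (P (nat_lit 0)) (P (nat_lit 7962562553348096))))))) (T.h (P (nat_lit 0)) (T.h (T.h (P (nat_lit 0)) (T.h (P (nat_lit 398141365652129616756736)) (T.h (P (nat_lit 0)) (P (nat_lit 198945184817594368))))) (T.h (P (nat_lit 0)) (T.h (T.h (P (nat_lit 0)) (P (nat_lit 199072849373184000))) (P (nat_lit 0))))))) (T.h (T.h (P (nat_lit 0)) (T.h (T.h (M (nat_lit 514614921797266848826261503)) (T.h (P (nat_lit 0)) (T.h (M (nat_lit 943500187785951707135)) (T.h (P (nat_lit 0)) (M (nat_lit 261193932124991)))))) (T.h (P (nat_lit 0)) (T.h (T.h (M (nat_lit 435331248481649033215)) (T.h (P (nat_lit 0)) (M (nat_lit 171975504489407)))) (T.h (P (nat_lit 0)) (M (nat_lit 27957633716591))))))) (T.h (T.h (T.h (P (nat_lit 0)) (T.h (P (nat_lit 398141365652129616756736)) (T.h (P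 (nat_lit 0)) (P (nat_lit 198945184817594368))))) (T.h (P (nat_lit 0)) (T.h (T.h (P (nat_lit 0)) (P (nat_lit 395490395723497472))) (P (nat_lit 0))))) (T.h (T.h (P (nat_lit 0)) (T.h (T.h (M (nat_lit 435331248481649033215)) (T.h (P (nat_lit 0)) (M (nat_lit 171975504489407)))) (T.h (P (nat_lit 0)) (P (nat_lit 25282717852608))))) (T.h (T.h (T.h (P (nat_lit 0)) (P (nat_lit 199072849373184000))) (P (nat_lit 0))) (T.h (T.h (P (nat_lit 0)) (M (nat_lit 27957633716591))) (P (nat_lit 0)))))))), (T.h (T.h (T.h (M (nat_lit 222572839239746422182481231871)) (T.h (P (nat_lit 0)) (T.h (M (nat_lit 45059484419259142122766335)) (T.h (P (nat_lit 0)) (M (nat_lit 313964590754955263)))))) (T.h (P (nat_lit 0)) (T.h (T.h (M (nat_lit 45059484419259142122766335)) (T.h (P (nat_lit 0)) (P (nat_lit 391677358918695124992)))) (T.h (P (nat_lit 0)) (M (nat_lit 313964590754955263)))))) (T.h (T.h (P (nat_lit 0)) (T.h (T.h (P (nat_lit 0)) (T.h (M (nat_lit 1398125032032869076172799)) (T.h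 (P (nat_lit 0)) (M (nat_lit 394280447193907199))))) (T.h (P (nat_lit 0)) (T.h (T.h (P (nat_lit 0)) (M (nat_lit 394280447193907199))) (P (nat_lit 0)))))) (T.h (T.h (T.h (M (nat_lit 45059484419259142122766335)) (T.h (P (nat_lit 0)) (P (nat_lit 391677358918695124992)))) (T.h (P (nat_lit 0)) (P (nat_lit 391677358918695124992)))) (T.h (T.h (P (nat_lit 0)) (T.h (T.h (P (nat_lit 0)) (M (nat_lit 394280447193907199))) (P (nat_lit 0)))) (M (nat_lit 313964590754955263)))))), (P (nat_lit 0)), (P (nat_lit 0))]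
def lQp_25 : List (T ℤ) := [(T.h (T.h (P (nat_lit 0)) (T.h (T.h (P (nat_lit 0)) (T.h (P (nat_lit 80418422512579686147555328)) (T.h (P (nat_lit 0)) (T.h (P (nat_lit 178498018031653879808)) (T.h (P (nat_lit 0)) (P (nat_lit 8739903821824))))))) (T.h (P (nat_lit 0)) (T.h (T.h (P (nat_lit 0)) (T.h (P (nat_lit 59806517900091588608)) (T.h (P (nat_lit 0)) (P (nat_lit 19914028257664))))) (T.h (P (nat_lit 0)) (T.h (T.h (P (nat_lit 0)) (M (nat_lit 8349296421311))) (P (nat_lit 0)))))))) (T.h (T.h (T.h (M (nat_lit 3590745101603317330175066111)) (T.h (P (nat_lit 0)) (T.h (M (nat_lit 124166508171363386130431)) (T.h (P (nat_lit 0)) (M (nat_lit 36867882448781311)))))) (T.h (P (nat_lit 0)) (T.h (T.h (M (nat_lit 63497192389272894701567)) (T.h (P (nat_lit 0)) (P (nat_lit 34854012157460480)))) (T.h (P (nat_lit 0)) (P (nat_lit 56846165451276288)))))) (T.h (T.h (P (nat_lit 0)) (T.h (T.h (P (nat_lit 0)) (T.h (P (nat_lit 104085129146604191744)) (T.h (P (nat_lit 0)) (P (nat_lit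 17335854132352))))) (T.h (P (nat_lit 0)) (T.h (T.h (P (nat_lit 0)) (M (nat_lit 42822324891903))) (P (nat_lit 0)))))) (T.h (T.h (T.h (P (nat_lit 20755233146715930361856)) (T.h (P (nat_lit 0)) (M (nat_lit 68489507773218815)))) (T.h (P (nat_lit 0)) (P (nat_lit 77251621451530240)))) (T.h (T.h (P (nat_lit 0)) (T.h (T.h (P (nat_lit 0)) (M (nat_lit 127027661279103))) (P (nat_lit 0)))) (M (nat_lit 58160947801522175))))))), (T.h (T.h (P (nat_lit 0)) (T.h (T.h (M (nat_lit 1388833709443735624582430719)) (T.h (P (nat_lit 0)) (T.h (M (nat_lit 68126053748545643610111)) (T.h (P (nat_lit 0)) (P (nat_lit 141085513302016)))))) (T.h (P (nat_lit 0)) (T.h (T.h (P (nat_lit 87650396103575026532352)) (T.h (P (nat_lit 0)) (P (nat_lit 69140507328200704)))) (T.h (P (nat_lit 0)) (P (nat_lit 78829327298969600))))))) (T.h (T.h (T.h (P (nat_lit 0)) (T.h (P (nat_lit 153413495533932063255166976)) (T.h (P (nat_lit 0)) (T.h (P (nat_lit 387258353633040793600)) (T.h (P (nat_lit 0))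 (P (nat_lit 31976606021472))))))) (T.h (P (nat_lit 0)) (T.h (T.h (P (nat_lit 0)) (T.h (M (nat_lit 136039828561613291519)) (T.h (P (nat_lit 0)) (M (nat_lit 127505483758511))))) (T.h (P (nat_lit 0)) (T.h (T.h (P (nat_lit 0)) (M (nat_lit 22262947040159))) (P (nat_lit 0))))))) (T.h (T.h (P (nat_lit 0)) (T.h (T.h (M (nat_lit 1652790154048969900031)) (T.h (P (nat_lit 0)) (P (nat_lit 367559157077147648)))) (T.h (P (nat_lit 0)) (P (nat_lit 218623802189496320))))) (T.h (T.h (T.h (P (nat_lit 0)) (T.h (M (nat_lit 110231245384298004479)) (T.h (P (nat_lit 0)) (M (nat_lit 2395349943695))))) (T.h (P (nat_lit 0)) (T.h (T.h (P (nat_lit 0)) (M (nat_lit 165739260395375))) (P (nat_lit 0))))) (T.h (T.h (P (nat_lit 0)) (P (nat_lit 60744512777912320))) (T.h (T.h (T.h (P (nat_lit 0)) (P (nat_lit 77442952494384))) (P (nat_lit 0))) (P (nat_lit 0)))))))), (T.h (T.h (P (nat_lit 0)) (T.h (T.h (P (nat_lit 0)) (T.h (P (nat_lit 125633492677827405925056512)) (T.h (P (nat_lit 0))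 (P (nat_lit 205038297114285703168))))) (T.h (P (nat_lit 0)) (T.h (T.h (P (nat_lit 0)) (P (nat_lit 119329832181008695296))) (P (nat_lit 0)))))) (T.h (T.h (T.h (M (nat_lit 1067389163542256608104939519)) (T.h (P (nat_lit 0)) (T.h (P (nat_lit 15847429164132177281024)) (T.h (P (nat_lit 0)) (M (nat_lit 11879250200887295)))))) (T.h (P (nat_lit 0)) (T.h (T.h (M (nat_lit 407360935313068118769663)) (T.h (P (nat_lit 0)) (M (nat_lit 267824939245535231)))) (T.h (P (nat_lit 0)) (M (nat_lit 48133197116178431)))))) (T.h (T.h (P (nat_lit 0)) (T.h (T.h (P (nat_lit 0)) (P (nat_lit 841263043033434161152))) (P (nat_lit 0)))) (T.h (T.h (T.h (M (nat_lit 9817218760697314279423)) (T.h (P (nat_lit 0)) (M (nat_lit 18419990244458495)))) (T.h (P (nat_lit 0)) (M (nat_lit 6549343357075455)))) (T.h (P (nat_lit 0)) (P (nat_lit 76460755406553088))))))), (P (nat_lit 0)), (P (nat_lit 0)), (T.h (T.h (T.h (P (nat_lit 0)) (T.h (M (nat_lit 86573778126472935022694236159)) (T.h (P (nat_lit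 0)) (T.h (M (nat_lit 49032214689452727992319)) (T.h (P (nat_lit 0)) (M (nat_lit 22307162351419391))))))) (T.h (P (nat_lit 0)) (T.h (T.h (P (nat_lit 0)) (T.h (M (nat_lit 38674386700585597403135)) (T.h (P (nat_lit 0)) (M (nat_lit 33527803763163135))))) (T.h (P (nat_lit 0)) (T.h (T.h (P (nat_lit 0)) (M (nat_lit 1512243294584831))) (P (nat_lit 0))))))) (T.h (T.h (P (nat_lit 0)) (T.h (T.h (P (nat_lit 55057915343755458021163008)) (T.h (P (nat_lit 0)) (T.h (P (nat_lit 321466405071154577408)) (T.h (P (nat_lit 0)) (M (nat_lit 36795851005967)))))) (T.h (P (nat_lit 0)) (T.h (T.h (P (nat_lit 161023069026907062272)) (T.h (P (nat_lit 0)) (P (nat_lit 73574799128352)))) (T.h (P (nat_lit 0)) (P (nat_lit 45005981788656))))))) (T.h (T.h (T.h (P (nat_lit 0)) (T.h (P (nat_lit 60821576642137342083072)) (T.h (P (nat_lit 0)) (P (nat_lit 257381685080227840))))) (T.h (P (nat_lit 0)) (T.h (T.h (P (nat_lit 0)) (M (nat_lit 556794615299260415))) (P (nat_lit 0))))) (T.h (T.h (P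 (nat_lit 0)) (T.h (T.h (P (nat_lit 166545932273294770176)) (T.h (P (nat_lit 0)) (P (nat_lit 3848439743712)))) (T.h (P (nat_lit 0)) (M (nat_lit 35467958383919))))) (T.h (T.h (T.h (P (nat_lit 0)) (P (nat_lit 45815686882213888))) (P (nat_lit 0))) (T.h (T.h (P (nat_lit 0)) (M (nat_lit 18638776481903))) (P (nat_lit 0)))))))), (T.h (T.h (T.h (M (nat_lit 19245058767597118072917487255551)) (T.h (P (nat_lit 0)) (T.h (M (nat_lit 59825625941170914374713343)) (T.h (P (nat_lit 0)) (M (nat_lit 12951678390250766335)))))) (T.h (P (nat_lit 0)) (T.h (T.h (P (nat_lit 49064869503036694296788992)) (T.h (P (nat_lit 0)) (P (nat_lit 45880012597962473472)))) (T.h (P (nat_lit 0)) (P (nat_lit 58062886536468234240)))))) (T.h (T.h (P (nat_lit 0)) (T.h (T.h (P (nat_lit 0)) (T.h (P (nat_lit 171507145602860729761792)) (T.h (P (nat_lit 0)) (M (nat_lit 189747104945602559))))) (T.h (P (nat_lit 0)) (T.h (T.h (P (nat_lit 0)) (P (nat_lit 11742295132012544))) (P (nat_lit 0)))))) (T.h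 (T.h (T.h (P (nat_lit 8849924118460195124805632)) (T.h (P (nat_lit 0)) (P (nat_lit 218013063006075748352)))) (T.h (P (nat_lit 0)) (P (nat_lit 78300033919217565696)))) (T.h (T.h (P (nat_lit 0)) (T.h (T.h (P (nat_lit 0)) (M (nat_lit 200573530775551999))) (P (nat_lit 0)))) (M (nat_lit 22472147538827804671)))))), (P (nat_lit 0))]
def lQp_26 : List (T ℤ) := [(P (nat_lit 0)), (T.h (T.h (P (nat_lit 0)) (T.h (T.h (P (nat_lit 0)) (T.h (M (nat_lit 28478335506665354741940223)) (T.h (P (nat_lit 0)) (M (nat_lit 46219789068006326271))))) (T.h (P (nat_lit 0)) (T.h (T.h (P (nat_lit 0)) (M (nat_lit 7399312085391245311))) (P (nat_lit 0)))))) (T.h (T.h (T.h (P (nat_lit 485246316002040588049317888)) (T.h (P (nat_lit 0)) (T.h (P (nat_lit 156873228732256518930432)) (T.h (P (nat_lit 0)) (P (nat_lit 151896253560815616)))))) (T.h (P (nat_lit 0)) (T.h (T.h (P (nat_lit 116266967700160330596352)) (T.h (P (nat_lit 0)) (P (nat_lit 56832365739311104)))) (T.h (P (nat_lit 0)) (P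 (nat_lit 16022553870106624)))))) (T.h (T.h (P (nat_lit 0)) (T.h (T.h (P (nat_lit 0)) (M (nat_lit 379707384477398335487))) (P (nat_lit 0)))) (T.h (T.h (T.h (P (nat_lit 47953310490409918529536)) (T.h (P (nat_lit 0)) (P (nat_lit 455296650780803072)))) (T.h (P (nat_lit 0)) (P (nat_lit 97934611223642112)))) (T.h (P (nat_lit 0)) (P (nat_lit 7655420903981056))))))), (P (nat_lit 0)), (P (nat_lit 0)), (P (nat_lit 0)), (P (nat_lit 0)), (P (nat_lit 0)), (T.h (T.h (T.h (P (nat_lit 0)) (T.h (P (nat_lit 1336912724198935606375481344)) (T.h (P (nat_lit 0)) (T.h (M (nat_lit 16607238043340504039423)) (T.h (P (nat_lit 0)) (M (nat_lit 14287706602635263))))))) (T.h (P (nat_lit 0)) (T.h (T.h (P (nat_lit 0)) (T.h (M (nat_lit 9934466073729626537983)) (T.h (P (nat_lit 0)) (M (nat_lit 32654557935075327))))) (T.h (P (nat_lit 0)) (T.h (T.h (P (nat_lit 0)) (M (nat_lit 1253650768494591))) (P (nat_lit 0))))))) (T.h (T.h (P (nat_lit 0)) (T.h (T.h (P (nat_lit 7711323027092271844556800))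 (T.h (P (nat_lit 0)) (T.h (P (nat_lit 16284901690493108224)) (T.h (P (nat_lit 0)) (P (nat_lit 20176616691848)))))) (T.h (P (nat_lit 0)) (T.h (T.h (P (nat_lit 17975258696120270848)) (T.h (P (nat_lit 0)) (M (nat_lit 18669837897143)))) (T.h (P (nat_lit 0)) (P (nat_lit 19714268702256))))))) (T.h (T.h (T.h (P (nat_lit 0)) (T.h (P (nat_lit 14528311290590639685632)) (T.h (P (nat_lit 0)) (M (nat_lit 31286343396327423))))) (T.h (P (nat_lit 0)) (T.h (T.h (P (nat_lit 0)) (M (nat_lit 17872552192311295))) (P (nat_lit 0))))) (T.h (T.h (P (nat_lit 0)) (T.h (T.h (M (nat_lit 1941185707053678591)) (T.h (P (nat_lit 0)) (P (nat_lit 12711245874064)))) (T.h (P (nat_lit 0)) (M (nat_lit 13950046079655))))) (T.h (T.h (T.h (P (nat_lit 0)) (P (nat_lit 1098191121285120))) (P (nat_lit 0))) (T.h (T.h (P (nat_lit 0)) (M (nat_lit 10067002337967))) (P (nat_lit 0))))))))]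
def lQp_27 : List (T ℤ) := [(T.h (T.h (T.h (P (nat_lit 86809079186767951930205203857408)) (T.h (P (nat_lit 0)) (T.h (M (nat_lit 36443918426805068705562623)) (T.h (P (nat_lit 0)) (T.h (M (nat_lit 61090529252569251839)) (T.h (P (nat_lit 0)) (M (nat_lit 61045729373567)))))))) (T.h (P (nat_lit 0)) (T.h (T.h (P (nat_lit 36031400753696434022252544)) (T.h (P (nat_lit 0)) (T.h (M (nat_lit 61134090232989220863)) (T.h (P (nat_lit 0)) (M (nat_lit 93345869782831)))))) (T.h (P (nat_lit 0)) (T.h (T.h (P (nat_lit 58528156815194062848)) (T.h (P (nat_lit 0)) (M (nat_lit 7076939740079)))) (T.h (P (nat_lit 0)) (P (nat_lit 32079931261568)))))))) (T.h (T.h (P (nat_lit 0)) (T.h (T.h (P (nat_lit 0)) (T.h (P (nat_lit 59848340049032927772672)) (T.h (P (nat_lit 0)) (P (nat_lit 164587619966582784))))) (T.h (P (nat_lit 0)) (T.h (T.h (P (nat_lit 0)) (P (nat_lit 3353098598154240))) (P (nat_lit 0)))))) (T.h (T.h (T.h (M (nat_lit 2344628487712069071667199)) (T.h (P (nat_lit 0))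 (T.h (M (nat_lit 47842095524028088319)) (T.h (P (nat_lit 0)) (M (nat_lit 8128876489663)))))) (T.h (P (nat_lit 0)) (T.h (T.h (M (nat_lit 16327763553652047871)) (T.h (P (nat_lit 0)) (M (nat_lit 22178401775167)))) (T.h (P (nat_lit 0)) (M (nat_lit 22396963694271)))))) (T.h (T.h (P (nat_lit 0)) (T.h (T.h (P (nat_lit 0)) (P (nat_lit 34322871671980032))) (P (nat_lit 0)))) (T.h (T.h (T.h (M (nat_lit 29021417438497996799)) (T.h (P (nat_lit 0)) (P (nat_lit 28335036564160)))) (T.h (P (nat_lit 0)) (M (nat_lit 35169845347711)))) (T.h (P (nat_lit 0)) (M (nat_lit 15472739090591)))))))), (T.h (T.h (T.h (P (nat_lit 0)) (T.h (M (nat_lit 3590745101603317330175066111)) (T.h (P (nat_lit 0)) (T.h (P (nat_lit 20755233146715930361856)) (T.h (P (nat_lit 0)) (M (nat_lit 58160947801522175))))))) (T.h (P (nat_lit 0)) (T.h (T.h (P (nat_lit 0)) (T.h (M (nat_lit 124166508171363386130431)) (T.h (P (nat_lit 0)) (M (nat_lit 68489507773218815))))) (T.h (P (nat_lit 0)) (T.h (T.h (P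 (nat_lit 0)) (M (nat_lit 36867882448781311))) (P (nat_lit 0))))))) (T.h (T.h (P (nat_lit 0)) (T.h (T.h (P (nat_lit 80418422512579686147555328)) (T.h (P (nat_lit 0)) (T.h (P (nat_lit 104085129146604191744)) (T.h (P (nat_lit 0)) (M (nat_lit 127027661279103)))))) (T.h (P (nat_lit 0)) (T.h (T.h (P (nat_lit 178498018031653879808)) (T.h (P (nat_lit 0)) (P (nat_lit 17335854132352)))) (T.h (P (nat_lit 0)) (P (nat_lit 8739903821824))))))) (T.h (T.h (T.h (P (nat_lit 0)) (T.h (M (nat_lit 63497192389272894701567)) (T.h (P (nat_lit 0)) (P (nat_lit 77251621451530240))))) (T.h (P (nat_lit 0)) (T.h (T.h (P (nat_lit 0)) (P (nat_lit 34854012157460480))) (P (nat_lit 0))))) (T.h (T.h (P (nat_lit 0)) (T.h (T.h (P (nat_lit 59806517900091588608)) (T.h (P (nat_lit 0)) (M (nat_lit 42822324891903)))) (T.h (P (nat_lit 0)) (P (nat_lit 19914028257664))))) (T.h (T.h (T.h (P (nat_lit 0)) (P (nat_lit 56846165451276288))) (P (nat_lit 0))) (T.h (T.h (P (nat_lit 0)) (M (nat_lit 8349296421311)))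 (P (nat_lit 0)))))))), (T.h (T.h (T.h (M (nat_lit 205350043513454281615841085620223)) (T.h (P (nat_lit 0)) (T.h (P (nat_lit 75599948516729912213635072)) (T.h (P (nat_lit 0)) (T.h (P (nat_lit 64015524220947660800)) (T.h (P (nat_lit 0)) (P (nat_lit 75877149067776)))))))) (T.h (P (nat_lit 0)) (T.h (T.h (M (nat_lit 19719680482569520888676351)) (T.h (P (nat_lit 0)) (T.h (P (nat_lit 25093411247801499648)) (T.h (P (nat_lit 0)) (P (nat_lit 73651491357984)))))) (T.h (P (nat_lit 0)) (T.h (T.h (M (nat_lit 74665272753331896319)) (T.h (P (nat_lit 0)) (P (nat_lit 74071766674224)))) (T.h (P (nat_lit 0)) (M (nat_lit 70822787459903)))))))) (T.h (T.h (P (nat_lit 0)) (T.h (T.h (P (nat_lit 0)) (T.h (M (nat_lit 391552516520223247958015)) (T.h (P (nat_lit 0)) (M (nat_lit 351998504184446975))))) (T.h (P (nat_lit 0)) (T.h (T.h (P (nat_lit 0)) (M (nat_lit 210496298919526399))) (P (nat_lit 0)))))) (T.h (T.h (T.h (P (nat_lit 75599948516729912213635072)) (T.h (P (nat_lit 0))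 (T.h (P (nat_lit 269115735241874472960)) (T.h (P (nat_lit 0)) (P (nat_lit 43617723863328)))))) (T.h (P (nat_lit 0)) (T.h (T.h (P (nat_lit 25093411247801499648)) (T.h (P (nat_lit 0)) (P (nat_lit 43934860796544)))) (T.h (P (nat_lit 0)) (P (nat_lit 74071766674224)))))) (T.h (T.h (P (nat_lit 0)) (T.h (T.h (P (nat_lit 0)) (M (nat_lit 351998504184446975))) (P (nat_lit 0)))) (T.h (T.h (T.h (P (nat_lit 64015524220947660800)) (T.h (P (nat_lit 0)) (P (nat_lit 43617723863328)))) (T.h (P (nat_lit 0)) (P (nat_lit 73651491357984)))) (T.h (P (nat_lit 0)) (P (nat_lit 75877149067776)))))))), (T.h (T.h (T.h (P (nat_lit 0)) (T.h (P (nat_lit 11248579222122020348964634624)) (T.h (P (nat_lit 0)) (T.h (P (nat_lit 47210703150660263608320)) (T.h (P (nat_lit 0)) (P (nat_lit 113838962049777664))))))) (T.h (P (nat_lit 0)) (T.h (T.h (P (nat_lit 0)) (T.h (P (nat_lit 110268998513681254842368)) (T.h (P (nat_lit 0)) (P (nat_lit 83781578424385536))))) (T.h (P (nat_lit 0)) (T.h (T.h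 (P (nat_lit 0)) (P (nat_lit 25337783715266560))) (P (nat_lit 0))))))) (T.h (T.h (P (nat_lit 0)) (T.h (T.h (M (nat_lit 33206684731157785694175231)) (T.h (P (nat_lit 0)) (M (nat_lit 352605878129642176511)))) (T.h (P (nat_lit 0)) (P (nat_lit 13623357689722568704))))) (T.h (T.h (T.h (P (nat_lit 0)) (T.h (P (nat_lit 251163479293727797673984)) (T.h (P (nat_lit 0)) (P (nat_lit 15489028619730944))))) (T.h (P (nat_lit 0)) (T.h (T.h (P (nat_lit 0)) (P (nat_lit 22622444845334528))) (P (nat_lit 0))))) (T.h (T.h (P (nat_lit 0)) (M (nat_lit 274170867548684287))) (T.h (T.h (T.h (P (nat_lit 0)) (M (nat_lit 1355874914500607))) (P (nat_lit 0))) (P (nat_lit 0))))))), (P (nat_lit 0)), (P (nat_lit 0)), (T.h (T.h (P (nat_lit 0)) (T.h (T.h (P (nat_lit 1336912724198935606375481344)) (T.h (P (nat_lit 0)) (T.h (M (nat_lit 9934466073729626537983)) (T.h (P (nat_lit 0)) (M (nat_lit 1253650768494591)))))) (T.h (P (nat_lit 0)) (T.h (T.h (M (nat_lit 16607238043340504039423)) (T.h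 (P (nat_lit 0)) (M (nat_lit 32654557935075327)))) (T.h (P (nat_lit 0)) (M (nat_lit 14287706602635263))))))) (T.h (T.h (T.h (P (nat_lit 0)) (T.h (P (nat_lit 7711323027092271844556800)) (T.h (P (nat_lit 0)) (T.h (P (nat_lit 17975258696120270848)) (T.h (P (nat_lit 0)) (P (nat_lit 19714268702256))))))) (T.h (P (nat_lit 0)) (T.h (T.h (P (nat_lit 0)) (T.h (P (nat_lit 16284901690493108224)) (T.h (P (nat_lit 0)) (M (nat_lit 18669837897143))))) (T.h (P (nat_lit 0)) (T.h (T.h (P (nat_lit 0)) (P (nat_lit 20176616691848))) (P (nat_lit 0))))))) (T.h (T.h (P (nat_lit 0)) (T.h (T.h (P (nat_lit 14528311290590639685632)) (T.h (P (nat_lit 0)) (M (nat_lit 17872552192311295)))) (T.h (P (nat_lit 0)) (M (nat_lit 31286343396327423))))) (T.h (T.h (T.h (P (nat_lit 0)) (T.h (M (nat_lit 1941185707053678591)) (T.h (P (nat_lit 0)) (M (nat_lit 13950046079655))))) (T.h (P (nat_lit 0)) (T.h (T.h (P (nat_lit 0)) (P (nat_lit 12711245874064))) (P (nat_lit 0))))) (T.h (T.h (P (nat_lit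 0)) (P (nat_lit 1098191121285120))) (T.h (T.h (T.h (P (nat_lit 0)) (M (nat_lit 10067002337967))) (P (nat_lit 0))) (P (nat_lit 0)))))))), (T.h (T.h (P (nat_lit 0)) (T.h (T.h (P (nat_lit 0)) (T.h (M (nat_lit 2299170196782604928155647)) (T.h (P (nat_lit 0)) (T.h (M (nat_lit 29984986299287732223)) (T.h (P (nat_lit 0)) (M (nat_lit 57105588554927))))))) (T.h (P (nat_lit 0)) (T.h (T.h (P (nat_lit 0)) (T.h (M (nat_lit 29984986299287732223)) (T.h (P (nat_lit 0)) (M (nat_lit 33666772764575))))) (T.h (P (nat_lit 0)) (T.h (T.h (P (nat_lit 0)) (M (nat_lit 57105588554927))) (P (nat_lit 0)))))))) (T.h (T.h (T.h (P (nat_lit 939231405214339478568566784)) (T.h (P (nat_lit 0)) (T.h (P (nat_lit 17027837181526034874368)) (T.h (P (nat_lit 0)) (P (nat_lit 5975307047600128)))))) (T.h (P (nat_lit 0)) (T.h (T.h (P (nat_lit 17027837181526034874368)) (T.h (P (nat_lit 0)) (M (nat_lit 32323892618592255)))) (T.h (P (nat_lit 0)) (P (nat_lit 5975307047600128)))))) (T.h (T.h (P (nat_lit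 0)) (T.h (T.h (P (nat_lit 0)) (T.h (P (nat_lit 19379500169371320320)) (T.h (P (nat_lit 0)) (P (nat_lit 7964610238816))))) (T.h (P (nat_lit 0)) (T.h (T.h (P (nat_lit 0)) (P (nat_lit 7964610238816))) (P (nat_lit 0)))))) (T.h (T.h (T.h (P (nat_lit 5845085690589601595392)) (T.h (P (nat_lit 0)) (M (nat_lit 34454543240347647)))) (T.h (P (nat_lit 0)) (M (nat_lit 34454543240347647)))) (T.h (T.h (P (nat_lit 0)) (T.h (T.h (P (nat_lit 0)) (P (nat_lit 3163502112640))) (P (nat_lit 0)))) (P (nat_lit 5015311072231424)))))))]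
def lQp_28 : List (T ℤ) := [(T.h (T.h (P (nat_lit 0)) (T.h (T.h (P (nat_lit 2329533710682329323256414208)) (T.h (P (nat_lit 0)) (T.h (M (nat_lit 4759270580204760727551)) (T.h (P (nat_lit 0)) (P (nat_lit 4352544021512192)))))) (T.h (P (nat_lit 0)) (T.h (T.h (M (nat_lit 44316061718040580980735)) (T.h (P (nat_lit 0)) (P (nat_lit 58487381201682432)))) (T.h (P (nat_lit 0)) (P (nat_lit 46707744146751488))))))) (T.h (T.h (T.h (P (nat_lit 0)) (T.h (M (nat_lit 92849442016214720519864319)) (T.h (P (nat_lit 0)) (T.h (P (nat_lit 18730425569333215232)) (T.h (P (nat_lit 0)) (M (nat_lit 1918557931519))))))) (T.h (P (nat_lit 0)) (T.h (T.h (P (nat_lit 0)) (T.h (P (nat_lit 37162643078086918144)) (T.h (P (nat_lit 0)) (P (nat_lit 24709703586560))))) (T.h (P (nat_lit 0)) (T.h (T.h (P (nat_lit 0)) (M (nat_lit 1144468606655))) (P (nat_lit 0))))))) (T.h (T.h (P (nat_lit 0)) (T.h (T.h (P (nat_lit 54157787946408185167872)) (T.h (P (nat_lit 0)) (M (nat_lit 105894992781311999))))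 (T.h (P (nat_lit 0)) (M (nat_lit 126055557227184127))))) (T.h (T.h (T.h (P (nat_lit 0)) (T.h (M (nat_lit 4879699560999419903)) (T.h (P (nat_lit 0)) (P (nat_lit 52990702494400))))) (T.h (P (nat_lit 0)) (T.h (T.h (P (nat_lit 0)) (M (nat_lit 127847904933183))) (P (nat_lit 0))))) (T.h (T.h (P (nat_lit 0)) (M (nat_lit 188300657747984383))) (T.h (T.h (T.h (P (nat_lit 0)) (P (nat_lit 80261662914944))) (P (nat_lit 0))) (P (nat_lit 0)))))))), (T.h (T.h (P (nat_lit 0)) (T.h (T.h (P (nat_lit 0)) (T.h (P (nat_lit 153413495533932063255166976)) (T.h (P (nat_lit 0)) (T.h (M (nat_lit 110231245384298004479)) (T.h (P (nat_lit 0)) (P (nat_lit 77442952494384))))))) (T.h (P (nat_lit 0)) (T.h (T.h (P (nat_lit 0)) (T.h (P (nat_lit 387258353633040793600)) (T.h (P (nat_lit 0)) (M (nat_lit 2395349943695))))) (T.h (P (nat_lit 0)) (T.h (T.h (P (nat_lit 0)) (P (nat_lit 31976606021472))) (P (nat_lit 0)))))))) (T.h (T.h (T.h (M (nat_lit 1388833709443735624582430719)) (T.h (P (nat_lit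 0)) (T.h (M (nat_lit 1652790154048969900031)) (T.h (P (nat_lit 0)) (P (nat_lit 60744512777912320)))))) (T.h (P (nat_lit 0)) (T.h (T.h (M (nat_lit 68126053748545643610111)) (T.h (P (nat_lit 0)) (P (nat_lit 367559157077147648)))) (T.h (P (nat_lit 0)) (P (nat_lit 141085513302016)))))) (T.h (T.h (P (nat_lit 0)) (T.h (T.h (P (nat_lit 0)) (T.h (M (nat_lit 136039828561613291519)) (T.h (P (nat_lit 0)) (M (nat_lit 165739260395375))))) (T.h (P (nat_lit 0)) (T.h (T.h (P (nat_lit 0)) (M (nat_lit 127505483758511))) (P (nat_lit 0)))))) (T.h (T.h (T.h (P (nat_lit 87650396103575026532352)) (T.h (P (nat_lit 0)) (P (nat_lit 218623802189496320)))) (T.h (P (nat_lit 0)) (P (nat_lit 69140507328200704)))) (T.h (T.h (P (nat_lit 0)) (T.h (T.h (P (nat_lit 0)) (M (nat_lit 22262947040159))) (P (nat_lit 0)))) (P (nat_lit 78829327298969600))))))), (T.h (T.h (P (nat_lit 0)) (T.h (T.h (P (nat_lit 29465771449952636056513806336)) (T.h (P (nat_lit 0)) (T.h (P (nat_lit 35933518468873375973376))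 (T.h (P (nat_lit 0)) (P (nat_lit 116566425178505216)))))) (T.h (P (nat_lit 0)) (T.h (T.h (P (nat_lit 3651158552685087555584)) (T.h (P (nat_lit 0)) (P (nat_lit 36771961311526912)))) (T.h (P (nat_lit 0)) (M (nat_lit 82143803782594559))))))) (T.h (T.h (T.h (P (nat_lit 0)) (T.h (M (nat_lit 120814795054612235002314751)) (T.h (P (nat_lit 0)) (P (nat_lit 107041884051731382272))))) (T.h (P (nat_lit 0)) (T.h (T.h (P (nat_lit 0)) (P (nat_lit 179113940030792400896))) (P (nat_lit 0))))) (T.h (T.h (P (nat_lit 0)) (T.h (T.h (P (nat_lit 35933518468873375973376)) (T.h (P (nat_lit 0)) (M (nat_lit 206294093546192895)))) (T.h (P (nat_lit 0)) (P (nat_lit 36771961311526912))))) (T.h (T.h (T.h (P (nat_lit 0)) (P (nat_lit 107041884051731382272))) (P (nat_lit 0))) (T.h (T.h (P (nat_lit 0)) (P (nat_lit 116566425178505216))) (P (nat_lit 0))))))), (P (nat_lit 0)), (P (nat_lit 0)), (T.h (T.h (T.h (P (nat_lit 86809079186767951930205203857408)) (T.h (P (nat_lit 0)) (T.h (P (nat_lit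 36031400753696434022252544)) (T.h (P (nat_lit 0)) (T.h (P (nat_lit 58528156815194062848)) (T.h (P (nat_lit 0)) (P (nat_lit 32079931261568)))))))) (T.h (P (nat_lit 0)) (T.h (T.h (M (nat_lit 36443918426805068705562623)) (T.h (P (nat_lit 0)) (T.h (M (nat_lit 61134090232989220863)) (T.h (P (nat_lit 0)) (M (nat_lit 7076939740079)))))) (T.h (P (nat_lit 0)) (T.h (T.h (M (nat_lit 61090529252569251839)) (T.h (P (nat_lit 0)) (M (nat_lit 93345869782831)))) (T.h (P (nat_lit 0)) (M (nat_lit 61045729373567)))))))) (T.h (T.h (P (nat_lit 0)) (T.h (T.h (P (nat_lit 0)) (T.h (P (nat_lit 59848340049032927772672)) (T.h (P (nat_lit 0)) (P (nat_lit 3353098598154240))))) (T.h (P (nat_lit 0)) (T.h (T.h (P (nat_lit 0)) (P (nat_lit 164587619966582784))) (P (nat_lit 0)))))) (T.h (T.h (T.h (M (nat_lit 2344628487712069071667199)) (T.h (P (nat_lit 0)) (T.h (M (nat_lit 16327763553652047871)) (T.h (P (nat_lit 0)) (M (nat_lit 22396963694271)))))) (T.h (P (nat_lit 0)) (T.h (T.h (M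 (nat_lit 47842095524028088319)) (T.h (P (nat_lit 0)) (M (nat_lit 22178401775167)))) (T.h (P (nat_lit 0)) (M (nat_lit 8128876489663)))))) (T.h (T.h (P (nat_lit 0)) (T.h (T.h (P (nat_lit 0)) (P (nat_lit 34322871671980032))) (P (nat_lit 0)))) (T.h (T.h (T.h (M (nat_lit 29021417438497996799)) (T.h (P (nat_lit 0)) (M (nat_lit 35169845347711)))) (T.h (P (nat_lit 0)) (P (nat_lit 28335036564160)))) (T.h (P (nat_lit 0)) (M (nat_lit 15472739090591)))))))), (T.h (T.h (T.h (P (nat_lit 0)) (T.h (P (nat_lit 2329533710682329323256414208)) (T.h (P (nat_lit 0)) (T.h (M (nat_lit 44316061718040580980735)) (T.h (P (nat_lit 0)) (P (nat_lit 46707744146751488))))))) (T.h (P (nat_lit 0)) (T.h (T.h (P (nat_lit 0)) (T.h (M (nat_lit 4759270580204760727551)) (T.h (P (nat_lit 0)) (P (nat_lit 58487381201682432))))) (T.h (P (nat_lit 0)) (T.h (T.h (P (nat_lit 0)) (P (nat_lit 4352544021512192))) (P (nat_lit 0))))))) (T.h (T.h (P (nat_lit 0)) (T.h (T.h (M (nat_lit 92849442016214720519864319))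 (T.h (P (nat_lit 0)) (T.h (P (nat_lit 37162643078086918144)) (T.h (P (nat_lit 0)) (M (nat_lit 1144468606655)))))) (T.h (P (nat_lit 0)) (T.h (T.h (P (nat_lit 18730425569333215232)) (T.h (P (nat_lit 0)) (P (nat_lit 24709703586560)))) (T.h (P (nat_lit 0)) (M (nat_lit 1918557931519))))))) (T.h (T.h (T.h (P (nat_lit 0)) (T.h (P (nat_lit 54157787946408185167872)) (T.h (P (nat_lit 0)) (M (nat_lit 126055557227184127))))) (T.h (P (nat_lit 0)) (T.h (T.h (P (nat_lit 0)) (M (nat_lit 105894992781311999))) (P (nat_lit 0))))) (T.h (T.h (P (nat_lit 0)) (T.h (T.h (M (nat_lit 4879699560999419903)) (T.h (P (nat_lit 0)) (M (nat_lit 127847904933183)))) (T.h (P (nat_lit 0)) (P (nat_lit 52990702494400))))) (T.h (T.h (T.h (P (nat_lit 0)) (M (nat_lit 188300657747984383))) (P (nat_lit 0))) (T.h (T.h (P (nat_lit 0)) (P (nat_lit 80261662914944))) (P (nat_lit 0)))))))), (T.h (T.h (T.h (M (nat_lit 142662334021017626468049225777151)) (T.h (P (nat_lit 0)) (T.h (M (nat_lit 7987408574276351243059199))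 (T.h (P (nat_lit 0)) (T.h (P (nat_lit 104014889186685353984)) (T.h (P (nat_lit 0)) (P (nat_lit 47753976709152)))))))) (T.h (P (nat_lit 0)) (T.h (T.h (M (nat_lit 7987408574276351243059199)) (T.h (P (nat_lit 0)) (T.h (P (nat_lit 481755780554466263040)) (T.h (P (nat_lit 0)) (P (nat_lit 24553582891632)))))) (T.h (P (nat_lit 0)) (T.h (T.h (P (nat_lit 104014889186685353984)) (T.h (P (nat_lit 0)) (P (nat_lit 24553582891632)))) (T.h (P (nat_lit 0)) (P (nat_lit 47753976709152)))))))) (T.h (T.h (P (nat_lit 0)) (T.h (T.h (P (nat_lit 0)) (T.h (P (nat_lit 570200279855479996284928)) (T.h (P (nat_lit 0)) (P (nat_lit 632807680434405376))))) (T.h (P (nat_lit 0)) (T.h (T.h (P (nat_lit 0)) (P (nat_lit 632807680434405376))) (P (nat_lit 0)))))) (T.h (T.h (T.h (M (nat_lit 98125863949076212247166975)) (T.h (P (nat_lit 0)) (T.h (M (nat_lit 551162162588304801791)) (T.h (P (nat_lit 0)) (P (nat_lit 15277453196976)))))) (T.h (P (nat_lit 0)) (T.h (T.h (M (nat_lit 551162162588304801791))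 (T.h (P (nat_lit 0)) (M (nat_lit 139261050150047)))) (T.h (P (nat_lit 0)) (P (nat_lit 15277453196976)))))) (T.h (T.h (P (nat_lit 0)) (T.h (T.h (P (nat_lit 0)) (P (nat_lit 98114008135958528))) (P (nat_lit 0)))) (T.h (T.h (T.h (M (nat_lit 103377707555302146047)) (T.h (P (nat_lit 0)) (M (nat_lit 24735861633167)))) (T.h (P (nat_lit 0)) (M (nat_lit 24735861633167)))) (T.h (P (nat_lit 0)) (M (nat_lit 31009392773855))))))))]
def lQp_29 : List (T ℤ) := [(T.h (T.h (T.h (P (nat_lit 0)) (T.h (M (nat_lit 1067389163542256608104939519)) (T.h (P (nat_lit 0)) (T.h (M (nat_lit 9817218760697314279423)) (T.h (P (nat_lit 0)) (P (nat_lit 76460755406553088))))))) (T.h (P (nat_lit 0)) (T.h (T.h (P (nat_lit 0)) (T.h (P (nat_lit 15847429164132177281024)) (T.h (P (nat_lit 0)) (M (nat_lit 18419990244458495))))) (T.h (P (nat_lit 0)) (T.h (T.h (P (nat_lit 0)) (M (nat_lit 11879250200887295))) (P (nat_lit 0))))))) (T.h (T.h (P (nat_lit 0)) (T.h (T.h (P (nat_lit 125633492677827405925056512))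 (T.h (P (nat_lit 0)) (P (nat_lit 841263043033434161152)))) (T.h (P (nat_lit 0)) (P (nat_lit 205038297114285703168))))) (T.h (T.h (T.h (P (nat_lit 0)) (T.h (M (nat_lit 407360935313068118769663)) (T.h (P (nat_lit 0)) (M (nat_lit 6549343357075455))))) (T.h (P (nat_lit 0)) (T.h (T.h (P (nat_lit 0)) (M (nat_lit 267824939245535231))) (P (nat_lit 0))))) (T.h (T.h (P (nat_lit 0)) (P (nat_lit 119329832181008695296))) (T.h (T.h (T.h (P (nat_lit 0)) (M (nat_lit 48133197116178431))) (P (nat_lit 0))) (P (nat_lit 0))))))), (P (nat_lit 0)), (P (nat_lit 0)), (T.h (T.h (P (nat_lit 0)) (T.h (T.h (M (nat_lit 3590745101603317330175066111)) (T.h (P (nat_lit 0)) (T.h (M (nat_lit 124166508171363386130431)) (T.h (P (nat_lit 0)) (M (nat_lit 36867882448781311)))))) (T.h (P (nat_lit 0)) (T.h (T.h (P (nat_lit 20755233146715930361856)) (T.h (P (nat_lit 0)) (M (nat_lit 68489507773218815)))) (T.h (P (nat_lit 0)) (M (nat_lit 58160947801522175))))))) (T.h (T.h (T.h (P (nat_lit 0))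 (T.h (P (nat_lit 80418422512579686147555328)) (T.h (P (nat_lit 0)) (T.h (P (nat_lit 178498018031653879808)) (T.h (P (nat_lit 0)) (P (nat_lit 8739903821824))))))) (T.h (P (nat_lit 0)) (T.h (T.h (P (nat_lit 0)) (T.h (P (nat_lit 104085129146604191744)) (T.h (P (nat_lit 0)) (P (nat_lit 17335854132352))))) (T.h (P (nat_lit 0)) (T.h (T.h (P (nat_lit 0)) (M (nat_lit 127027661279103))) (P (nat_lit 0))))))) (T.h (T.h (P (nat_lit 0)) (T.h (T.h (M (nat_lit 63497192389272894701567)) (T.h (P (nat_lit 0)) (P (nat_lit 34854012157460480)))) (T.h (P (nat_lit 0)) (P (nat_lit 77251621451530240))))) (T.h (T.h (T.h (P (nat_lit 0)) (T.h (P (nat_lit 59806517900091588608)) (T.h (P (nat_lit 0)) (P (nat_lit 19914028257664))))) (T.h (P (nat_lit 0)) (T.h (T.h (P (nat_lit 0)) (M (nat_lit 42822324891903))) (P (nat_lit 0))))) (T.h (T.h (P (nat_lit 0)) (P (nat_lit 56846165451276288))) (T.h (T.h (T.h (P (nat_lit 0)) (M (nat_lit 8349296421311))) (P (nat_lit 0))) (P (nat_lit 0)))))))),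 (T.h (T.h (P (nat_lit 0)) (T.h (T.h (P (nat_lit 0)) (T.h (P (nat_lit 153413495533932063255166976)) (T.h (P (nat_lit 0)) (T.h (P (nat_lit 387258353633040793600)) (T.h (P (nat_lit 0)) (P (nat_lit 31976606021472))))))) (T.h (P (nat_lit 0)) (T.h (T.h (P (nat_lit 0)) (T.h (M (nat_lit 110231245384298004479)) (T.h (P (nat_lit 0)) (M (nat_lit 2395349943695))))) (T.h (P (nat_lit 0)) (T.h (T.h (P (nat_lit 0)) (P (nat_lit 77442952494384))) (P (nat_lit 0)))))))) (T.h (T.h (T.h (M (nat_lit 1388833709443735624582430719)) (T.h (P (nat_lit 0)) (T.h (M (nat_lit 68126053748545643610111)) (T.h (P (nat_lit 0)) (P (nat_lit 141085513302016)))))) (T.h (P (nat_lit 0)) (T.h (T.h (M (nat_lit 1652790154048969900031)) (T.h (P (nat_lit 0)) (P (nat_lit 367559157077147648)))) (T.h (P (nat_lit 0)) (P (nat_lit 60744512777912320)))))) (T.h (T.h (P (nat_lit 0)) (T.h (T.h (P (nat_lit 0)) (T.h (M (nat_lit 136039828561613291519)) (T.h (P (nat_lit 0)) (M (nat_lit 127505483758511)))))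 (T.h (P (nat_lit 0)) (T.h (T.h (P (nat_lit 0)) (M (nat_lit 165739260395375))) (P (nat_lit 0)))))) (T.h (T.h (T.h (P (nat_lit 87650396103575026532352)) (T.h (P (nat_lit 0)) (P (nat_lit 69140507328200704)))) (T.h (P (nat_lit 0)) (P (nat_lit 218623802189496320)))) (T.h (T.h (P (nat_lit 0)) (T.h (T.h (P (nat_lit 0)) (M (nat_lit 22262947040159))) (P (nat_lit 0)))) (P (nat_lit 78829327298969600))))))), (T.h (T.h (P (nat_lit 0)) (T.h (T.h (M (nat_lit 1067389163542256608104939519)) (T.h (P (nat_lit 0)) (T.h (P (nat_lit 15847429164132177281024)) (T.h (P (nat_lit 0)) (M (nat_lit 11879250200887295)))))) (T.h (P (nat_lit 0)) (T.h (T.h (M (nat_lit 9817218760697314279423)) (T.h (P (nat_lit 0)) (M (nat_lit 18419990244458495)))) (T.h (P (nat_lit 0)) (P (nat_lit 76460755406553088))))))) (T.h (T.h (T.h (P (nat_lit 0)) (T.h (P (nat_lit 125633492677827405925056512)) (T.h (P (nat_lit 0)) (P (nat_lit 205038297114285703168))))) (T.h (P (nat_lit 0)) (T.h (T.h (P (nat_lit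 0)) (P (nat_lit 841263043033434161152))) (P (nat_lit 0))))) (T.h (T.h (P (nat_lit 0)) (T.h (T.h (M (nat_lit 407360935313068118769663)) (T.h (P (nat_lit 0)) (M (nat_lit 267824939245535231)))) (T.h (P (nat_lit 0)) (M (nat_lit 6549343357075455))))) (T.h (T.h (T.h (P (nat_lit 0)) (P (nat_lit 119329832181008695296))) (P (nat_lit 0))) (T.h (T.h (P (nat_lit 0)) (M (nat_lit 48133197116178431))) (P (nat_lit 0))))))), (P (nat_lit 0)), (P (nat_lit 0))]
def lQp_30 : List (T ℤ) := [(T.h (T.h (T.h (M (nat_lit 205350043513454281615841085620223)) (T.h (P (nat_lit 0)) (T.h (M (nat_lit 19719680482569520888676351)) (T.h (P (nat_lit 0)) (T.h (M (nat_lit 74665272753331896319)) (T.h (P (nat_lit 0)) (M (nat_lit 70822787459903)))))))) (T.h (P (nat_lit 0)) (T.h (T.h (P (nat_lit 75599948516729912213635072)) (T.h (P (nat_lit 0)) (T.h (P (nat_lit 25093411247801499648)) (T.h (P (nat_lit 0)) (P (nat_lit 74071766674224)))))) (T.h (P (nat_lit 0)) (T.h (T.h (P (nat_lit 64015524220947660800))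 (T.h (P (nat_lit 0)) (P (nat_lit 73651491357984)))) (T.h (P (nat_lit 0)) (P (nat_lit 75877149067776)))))))) (T.h (T.h (P (nat_lit 0)) (T.h (T.h (P (nat_lit 0)) (T.h (M (nat_lit 391552516520223247958015)) (T.h (P (nat_lit 0)) (M (nat_lit 210496298919526399))))) (T.h (P (nat_lit 0)) (T.h (T.h (P (nat_lit 0)) (M (nat_lit 351998504184446975))) (P (nat_lit 0)))))) (T.h (T.h (T.h (P (nat_lit 75599948516729912213635072)) (T.h (P (nat_lit 0)) (T.h (P (nat_lit 25093411247801499648)) (T.h (P (nat_lit 0)) (P (nat_lit 74071766674224)))))) (T.h (P (nat_lit 0)) (T.h (T.h (P (nat_lit 269115735241874472960)) (T.h (P (nat_lit 0)) (P (nat_lit 43934860796544)))) (T.h (P (nat_lit 0)) (P (nat_lit 43617723863328)))))) (T.h (T.h (P (nat_lit 0)) (T.h (T.h (P (nat_lit 0)) (M (nat_lit 351998504184446975))) (P (nat_lit 0)))) (T.h (T.h (T.h (P (nat_lit 64015524220947660800)) (T.h (P (nat_lit 0)) (P (nat_lit 73651491357984)))) (T.h (P (nat_lit 0)) (P (nat_lit 43617723863328))))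 (T.h (P (nat_lit 0)) (P (nat_lit 75877149067776)))))))), (T.h (T.h (T.h (P (nat_lit 0)) (T.h (P (nat_lit 29465771449952636056513806336)) (T.h (P (nat_lit 0)) (T.h (P (nat_lit 3651158552685087555584)) (T.h (P (nat_lit 0)) (M (nat_lit 82143803782594559))))))) (T.h (P (nat_lit 0)) (T.h (T.h (P (nat_lit 0)) (T.h (P (nat_lit 35933518468873375973376)) (T.h (P (nat_lit 0)) (P (nat_lit 36771961311526912))))) (T.h (P (nat_lit 0)) (T.h (T.h (P (nat_lit 0)) (P (nat_lit 116566425178505216))) (P (nat_lit 0))))))) (T.h (T.h (P (nat_lit 0)) (T.h (T.h (M (nat_lit 120814795054612235002314751)) (T.h (P (nat_lit 0)) (P (nat_lit 179113940030792400896)))) (T.h (P (nat_lit 0)) (P (nat_lit 107041884051731382272))))) (T.h (T.h (T.h (P (nat_lit 0)) (T.h (P (nat_lit 35933518468873375973376)) (T.h (P (nat_lit 0)) (P (nat_lit 36771961311526912))))) (T.h (P (nat_lit 0)) (T.h (T.h (P (nat_lit 0)) (M (nat_lit 206294093546192895))) (P (nat_lit 0))))) (T.h (T.h (P (nat_lit 0)) (P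 (nat_lit 107041884051731382272))) (T.h (T.h (T.h (P (nat_lit 0)) (P (nat_lit 116566425178505216))) (P (nat_lit 0))) (P (nat_lit 0))))))), (P (nat_lit 0)), (P (nat_lit 0)), (T.h (T.h (P (nat_lit 0)) (T.h (T.h (P (nat_lit 11248579222122020348964634624)) (T.h (P (nat_lit 0)) (T.h (P (nat_lit 110268998513681254842368)) (T.h (P (nat_lit 0)) (P (nat_lit 25337783715266560)))))) (T.h (P (nat_lit 0)) (T.h (T.h (P (nat_lit 47210703150660263608320)) (T.h (P (nat_lit 0)) (P (nat_lit 83781578424385536)))) (T.h (P (nat_lit 0)) (P (nat_lit 113838962049777664))))))) (T.h (T.h (T.h (P (nat_lit 0)) (T.h (M (nat_lit 33206684731157785694175231)) (T.h (P (nat_lit 0)) (P (nat_lit 13623357689722568704))))) (T.h (P (nat_lit 0)) (T.h (T.h (P (nat_lit 0)) (M (nat_lit 352605878129642176511))) (P (nat_lit 0))))) (T.h (T.h (P (nat_lit 0)) (T.h (T.h (P (nat_lit 251163479293727797673984)) (T.h (P (nat_lit 0)) (P (nat_lit 22622444845334528)))) (T.h (P (nat_lit 0)) (P (nat_lit 15489028619730944)))))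 (T.h (T.h (T.h (P (nat_lit 0)) (M (nat_lit 274170867548684287))) (P (nat_lit 0))) (T.h (T.h (P (nat_lit 0)) (M (nat_lit 1355874914500607))) (P (nat_lit 0))))))), (P (nat_lit 0)), (P (nat_lit 0)), (P (nat_lit 0))]
def lQp_31 : List (T ℤ) := [(P (nat_lit 0)), (P (nat_lit 0)), (T.h (T.h (P (nat_lit 0)) (T.h (T.h (P (nat_lit 0)) (T.h (M (nat_lit 868305541875677324640255)) (T.h (P (nat_lit 0)) (T.h (M (nat_lit 38366446287021146111)) (T.h (P (nat_lit 0)) (M (nat_lit 13573732110455))))))) (T.h (P (nat_lit 0)) (T.h (T.h (P (nat_lit 0)) (T.h (M (nat_lit 38366446287021146111)) (T.h (P (nat_lit 0)) (M (nat_lit 82900738593679))))) (T.h (P (nat_lit 0)) (T.h (T.h (P (nat_lit 0)) (M (nat_lit 13573732110455))) (P (nat_lit 0)))))))) (T.h (T.h (T.h (P (nat_lit 10017191180407088564301463552)) (T.h (P (nat_lit 0)) (T.h (P (nat_lit 25151176110106820476928)) (T.h (P (nat_lit 0)) (P (nat_lit 24686970010140672)))))) (T.h (P (nat_lit 0)) (T.h (T.h (P (nat_lit 25151176110106820476928))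 (T.h (P (nat_lit 0)) (P (nat_lit 8153435818164224)))) (T.h (P (nat_lit 0)) (P (nat_lit 24686970010140672)))))) (T.h (T.h (P (nat_lit 0)) (T.h (T.h (P (nat_lit 0)) (T.h (P (nat_lit 97397380587978752)) (T.h (P (nat_lit 0)) (P (nat_lit 28156273543704))))) (T.h (P (nat_lit 0)) (T.h (T.h (P (nat_lit 0)) (P (nat_lit 28156273543704))) (P (nat_lit 0)))))) (T.h (T.h (T.h (M (nat_lit 2249542807684005232639)) (T.h (P (nat_lit 0)) (M (nat_lit 17031200713637887)))) (T.h (P (nat_lit 0)) (M (nat_lit 17031200713637887)))) (T.h (T.h (P (nat_lit 0)) (T.h (T.h (P (nat_lit 0)) (M (nat_lit 24380342005103))) (P (nat_lit 0)))) (P (nat_lit 2442926698725376))))))), (T.h (T.h (P (nat_lit 0)) (T.h (T.h (P (nat_lit 23735099046155115220969717760)) (T.h (P (nat_lit 0)) (T.h (M (nat_lit 79357771058813610229759)) (T.h (P (nat_lit 0)) (M (nat_lit 112594984012251135)))))) (T.h (P (nat_lit 0)) (T.h (T.h (P (nat_lit 2222835744462361067520)) (T.h (P (nat_lit 0)) (M (nat_lit 192391894413017087))))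 (T.h (P (nat_lit 0)) (P (nat_lit 21314379690999808))))))) (T.h (T.h (T.h (P (nat_lit 0)) (T.h (P (nat_lit 26738224194884310258417664)) (T.h (P (nat_lit 0)) (T.h (P (nat_lit 7431377113195741184)) (T.h (P (nat_lit 0)) (P (nat_lit 40339979884256))))))) (T.h (P (nat_lit 0)) (T.h (T.h (P (nat_lit 0)) (T.h (M (nat_lit 1972893016427331583)) (T.h (P (nat_lit 0)) (P (nat_lit 1500860940832))))) (T.h (P (nat_lit 0)) (T.h (T.h (P (nat_lit 0)) (P (nat_lit 50708355223312))) (P (nat_lit 0))))))) (T.h (T.h (P (nat_lit 0)) (T.h (T.h (P (nat_lit 13919576347252589854720)) (T.h (P (nat_lit 0)) (P (nat_lit 14821950289199104)))) (T.h (P (nat_lit 0)) (M (nat_lit 57975825390141439))))) (T.h (T.h (T.h (P (nat_lit 0)) (T.h (P (nat_lit 10879051756713541632)) (T.h (P (nat_lit 0)) (P (nat_lit 6020971354256))))) (T.h (P (nat_lit 0)) (T.h (T.h (P (nat_lit 0)) (M (nat_lit 4144068559599))) (P (nat_lit 0))))) (T.h (T.h (P (nat_lit 0)) (M (nat_lit 42531209117253631))) (T.h (T.h (T.h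 (P (nat_lit 0)) (M (nat_lit 14450944174591))) (P (nat_lit 0))) (P (nat_lit 0)))))))), (T.h (T.h (P (nat_lit 0)) (T.h (T.h (P (nat_lit 0)) (T.h (M (nat_lit 24835050078617542714195967)) (T.h (P (nat_lit 0)) (T.h (M (nat_lit 92842694536798928895)) (T.h (P (nat_lit 0)) (P (nat_lit 22372417272256))))))) (T.h (P (nat_lit 0)) (T.h (T.h (P (nat_lit 0)) (T.h (M (nat_lit 42386563146822189055)) (T.h (P (nat_lit 0)) (P (nat_lit 141777948044416))))) (T.h (P (nat_lit 0)) (T.h (T.h (P (nat_lit 0)) (P (nat_lit 3655923658688))) (P (nat_lit 0)))))))) (T.h (T.h (T.h (M (nat_lit 18765722672698315194899628031)) (T.h (P (nat_lit 0)) (T.h (P (nat_lit 30521886510044407660544)) (T.h (P (nat_lit 0)) (P (nat_lit 52964942878146560)))))) (T.h (P (nat_lit 0)) (T.h (T.h (M (nat_lit 115058167568772116774911)) (T.h (P (nat_lit 0)) (P (nat_lit 31961302718545920)))) (T.h (P (nat_lit 0)) (M (nat_lit 103189076392050687)))))) (T.h (T.h (P (nat_lit 0)) (T.h (T.h (P (nat_lit 0)) (T.h (M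 (nat_lit 128900549409064878079)) (T.h (P (nat_lit 0)) (M (nat_lit 63976585455807))))) (T.h (P (nat_lit 0)) (T.h (T.h (P (nat_lit 0)) (P (nat_lit 6299933357696))) (P (nat_lit 0)))))) (T.h (T.h (T.h (M (nat_lit 23579592421698636349439)) (T.h (P (nat_lit 0)) (P (nat_lit 104514075428454400)))) (T.h (P (nat_lit 0)) (M (nat_lit 25670652112863231)))) (T.h (T.h (P (nat_lit 0)) (T.h (T.h (P (nat_lit 0)) (P (nat_lit 26860824312192))) (P (nat_lit 0)))) (M (nat_lit 12000930136850431))))))), (T.h (T.h (P (nat_lit 0)) (T.h (T.h (M (nat_lit 86573778126472935022694236159)) (T.h (P (nat_lit 0)) (T.h (P (nat_lit 60821576642137342083072)) (T.h (P (nat_lit 0)) (P (nat_lit 45815686882213888)))))) (T.h (P (nat_lit 0)) (T.h (T.h (M (nat_lit 49032214689452727992319)) (T.h (P (nat_lit 0)) (P (nat_lit 257381685080227840)))) (T.h (P (nat_lit 0)) (M (nat_lit 22307162351419391))))))) (T.h (T.h (T.h (P (nat_lit 0)) (T.h (P (nat_lit 55057915343755458021163008)) (T.h (P (nat_lit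 0)) (T.h (P (nat_lit 166545932273294770176)) (T.h (P (nat_lit 0)) (M (nat_lit 18638776481903))))))) (T.h (P (nat_lit 0)) (T.h (T.h (P (nat_lit 0)) (T.h (P (nat_lit 321466405071154577408)) (T.h (P (nat_lit 0)) (P (nat_lit 3848439743712))))) (T.h (P (nat_lit 0)) (T.h (T.h (P (nat_lit 0)) (M (nat_lit 36795851005967))) (P (nat_lit 0))))))) (T.h (T.h (P (nat_lit 0)) (T.h (T.h (M (nat_lit 38674386700585597403135)) (T.h (P (nat_lit 0)) (M (nat_lit 556794615299260415)))) (T.h (P (nat_lit 0)) (M (nat_lit 33527803763163135))))) (T.h (T.h (T.h (P (nat_lit 0)) (T.h (P (nat_lit 161023069026907062272)) (T.h (P (nat_lit 0)) (M (nat_lit 35467958383919))))) (T.h (P (nat_lit 0)) (T.h (T.h (P (nat_lit 0)) (P (nat_lit 73574799128352))) (P (nat_lit 0))))) (T.h (T.h (P (nat_lit 0)) (M (nat_lit 1512243294584831))) (T.h (T.h (T.h (P (nat_lit 0)) (P (nat_lit 45005981788656))) (P (nat_lit 0))) (P (nat_lit 0)))))))), (T.h (T.h (P (nat_lit 0)) (T.h (T.h (P (nat_lit 0)) (T.h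 (M (nat_lit 33206684731157785694175231)) (T.h (P (nat_lit 0)) (M (nat_lit 274170867548684287))))) (T.h (P (nat_lit 0)) (T.h (T.h (P (nat_lit 0)) (P (nat_lit 13623357689722568704))) (P (nat_lit 0)))))) (T.h (T.h (T.h (P (nat_lit 11248579222122020348964634624)) (T.h (P (nat_lit 0)) (T.h (P (nat_lit 251163479293727797673984)) (T.h (P (nat_lit 0)) (M (nat_lit 1355874914500607)))))) (T.h (P (nat_lit 0)) (T.h (T.h (P (nat_lit 110268998513681254842368)) (T.h (P (nat_lit 0)) (P (nat_lit 22622444845334528)))) (T.h (P (nat_lit 0)) (P (nat_lit 25337783715266560)))))) (T.h (T.h (P (nat_lit 0)) (T.h (T.h (P (nat_lit 0)) (M (nat_lit 352605878129642176511))) (P (nat_lit 0)))) (T.h (T.h (T.h (P (nat_lit 47210703150660263608320)) (T.h (P (nat_lit 0)) (P (nat_lit 15489028619730944)))) (T.h (P (nat_lit 0)) (P (nat_lit 83781578424385536)))) (T.h (P (nat_lit 0)) (P (nat_lit 113838962049777664))))))), (P (nat_lit 0))]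
def lQp_32 : List (T ℤ) := [(P (nat_lit 0)), (T.h (T.h (T.h (P (nat_lit 0)) (T.h (P (nat_lit 23735099046155115220969717760)) (T.h (P (nat_lit 0)) (T.h (P (nat_lit 2222835744462361067520)) (T.h (P (nat_lit 0)) (P (nat_lit 21314379690999808))))))) (T.h (P (nat_lit 0)) (T.h (T.h (P (nat_lit 0)) (T.h (M (nat_lit 79357771058813610229759)) (T.h (P (nat_lit 0)) (M (nat_lit 192391894413017087))))) (T.h (P (nat_lit 0)) (T.h (T.h (P (nat_lit 0)) (M (nat_lit 112594984012251135))) (P (nat_lit 0))))))) (T.h (T.h (P (nat_lit 0)) (T.h (T.h (P (nat_lit 26738224194884310258417664)) (T.h (P (nat_lit 0)) (T.h (M (nat_lit 1972893016427331583)) (T.h (P (nat_lit 0)) (P (nat_lit 50708355223312)))))) (T.h (P (nat_lit 0)) (T.h (T.h (P (nat_lit 7431377113195741184)) (T.h (P (nat_lit 0)) (P (nat_lit 1500860940832)))) (T.h (P (nat_lit 0)) (P (nat_lit 40339979884256))))))) (T.h (T.h (T.h (P (nat_lit 0)) (T.h (P (nat_lit 13919576347252589854720)) (T.h (P (nat_lit 0)) (M (nat_lit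 57975825390141439))))) (T.h (P (nat_lit 0)) (T.h (T.h (P (nat_lit 0)) (P (nat_lit 14821950289199104))) (P (nat_lit 0))))) (T.h (T.h (P (nat_lit 0)) (T.h (T.h (P (nat_lit 10879051756713541632)) (T.h (P (nat_lit 0)) (M (nat_lit 4144068559599)))) (T.h (P (nat_lit 0)) (P (nat_lit 6020971354256))))) (T.h (T.h (T.h (P (nat_lit 0)) (M (nat_lit 42531209117253631))) (P (nat_lit 0))) (T.h (T.h (P (nat_lit 0)) (M (nat_lit 14450944174591))) (P (nat_lit 0)))))))), (T.h (T.h (T.h (P (nat_lit 14100600292722984911817907634176)) (T.h (P (nat_lit 0)) (T.h (M (nat_lit 19878225937938211091251199)) (T.h (P (nat_lit 0)) (T.h (P (nat_lit 27102934920853454848)) (T.h (P (nat_lit 0)) (P (nat_lit 11718924976896)))))))) (T.h (P (nat_lit 0)) (T.h (T.h (M (nat_lit 19878225937938211091251199)) (T.h (P (nat_lit 0)) (T.h (M (nat_lit 130767476210412814335)) (T.h (P (nat_lit 0)) (M (nat_lit 28074662345023)))))) (T.h (P (nat_lit 0)) (T.h (T.h (P (nat_lit 27102934920853454848)) (T.h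 (P (nat_lit 0)) (M (nat_lit 28074662345023)))) (T.h (P (nat_lit 0)) (P (nat_lit 11718924976896)))))))) (T.h (T.h (P (nat_lit 0)) (T.h (T.h (P (nat_lit 0)) (T.h (P (nat_lit 197518166172726972121088)) (T.h (P (nat_lit 0)) (P (nat_lit 91112112846929920))))) (T.h (P (nat_lit 0)) (T.h (T.h (P (nat_lit 0)) (P (nat_lit 91112112846929920))) (P (nat_lit 0)))))) (T.h (T.h (T.h (M (nat_lit 20814658395147442166169599)) (T.h (P (nat_lit 0)) (T.h (M (nat_lit 173861728751022243839)) (T.h (P (nat_lit 0)) (P (nat_lit 23700434462528)))))) (T.h (P (nat_lit 0)) (T.h (T.h (M (nat_lit 173861728751022243839)) (T.h (P (nat_lit 0)) (P (nat_lit 16099247337344)))) (T.h (P (nat_lit 0)) (P (nat_lit 23700434462528)))))) (T.h (T.h (P (nat_lit 0)) (T.h (T.h (P (nat_lit 0)) (P (nat_lit 41940980879982592))) (P (nat_lit 0)))) (T.h (T.h (T.h (P (nat_lit 85689377122313830400)) (T.h (P (nat_lit 0)) (P (nat_lit 60194524575488)))) (T.h (P (nat_lit 0)) (P (nat_lit 60194524575488)))) (T.h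 (P (nat_lit 0)) (P (nat_lit 1272988433792)))))))), (T.h (T.h (T.h (P (nat_lit 0)) (T.h (M (nat_lit 72478261872372897710639939583)) (T.h (P (nat_lit 0)) (T.h (P (nat_lit 87123053949393083301888)) (T.h (P (nat_lit 0)) (M (nat_lit 23341432239112191))))))) (T.h (P (nat_lit 0)) (T.h (T.h (P (nat_lit 0)) (T.h (M (nat_lit 155514434487671085596671)) (T.h (P (nat_lit 0)) (P (nat_lit 139103987127779328))))) (T.h (P (nat_lit 0)) (T.h (T.h (P (nat_lit 0)) (P (nat_lit 98322677260517376))) (P (nat_lit 0))))))) (T.h (T.h (P (nat_lit 0)) (T.h (T.h (P (nat_lit 103001419594148129347207168)) (T.h (P (nat_lit 0)) (T.h (M (nat_lit 68199807893534408703)) (T.h (P (nat_lit 0)) (M (nat_lit 139411251903167)))))) (T.h (P (nat_lit 0)) (T.h (T.h (M (nat_lit 77790327255810965503)) (T.h (P (nat_lit 0)) (M (nat_lit 215827605369791)))) (T.h (P (nat_lit 0)) (M (nat_lit 45849852608687))))))) (T.h (T.h (T.h (P (nat_lit 0)) (T.h (M (nat_lit 29227457131615847710719)) (T.h (P (nat_lit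 0)) (P (nat_lit 155218703881830400))))) (T.h (P (nat_lit 0)) (T.h (T.h (P (nat_lit 0)) (P (nat_lit 26519925572091904))) (P (nat_lit 0))))) (T.h (T.h (P (nat_lit 0)) (T.h (T.h (M (nat_lit 54963012511008292863)) (T.h (P (nat_lit 0)) (M (nat_lit 3247963595855)))) (T.h (P (nat_lit 0)) (P (nat_lit 12834186665184))))) (T.h (T.h (T.h (P (nat_lit 0)) (P (nat_lit 120914351725740032))) (P (nat_lit 0))) (T.h (T.h (P (nat_lit 0)) (P (nat_lit 32752559787552))) (P (nat_lit 0)))))))), (T.h (T.h (T.h (M (nat_lit 19245058767597118072917487255551)) (T.h (P (nat_lit 0)) (T.h (P (nat_lit 8849924118460195124805632)) (T.h (P (nat_lit 0)) (M (nat_lit 22472147538827804671)))))) (T.h (P (nat_lit 0)) (T.h (T.h (M (nat_lit 59825625941170914374713343)) (T.h (P (nat_lit 0)) (P (nat_lit 218013063006075748352)))) (T.h (P (nat_lit 0)) (M (nat_lit 12951678390250766335)))))) (T.h (T.h (P (nat_lit 0)) (T.h (T.h (P (nat_lit 0)) (T.h (P (nat_lit 171507145602860729761792)) (T.h (P (nat_lit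 0)) (M (nat_lit 200573530775551999))))) (T.h (P (nat_lit 0)) (T.h (T.h (P (nat_lit 0)) (M (nat_lit 189747104945602559))) (P (nat_lit 0)))))) (T.h (T.h (T.h (P (nat_lit 49064869503036694296788992)) (T.h (P (nat_lit 0)) (P (nat_lit 78300033919217565696)))) (T.h (P (nat_lit 0)) (P (nat_lit 45880012597962473472)))) (T.h (T.h (P (nat_lit 0)) (T.h (T.h (P (nat_lit 0)) (P (nat_lit 11742295132012544))) (P (nat_lit 0)))) (P (nat_lit 58062886536468234240)))))), (P (nat_lit 0)), (P (nat_lit 0)), (T.h (T.h (P (nat_lit 0)) (T.h (T.h (P (nat_lit 0)) (T.h (M (nat_lit 24835050078617542714195967)) (T.h (P (nat_lit 0)) (T.h (M (nat_lit 42386563146822189055)) (T.h (P (nat_lit 0)) (P (nat_lit 3655923658688))))))) (T.h (P (nat_lit 0)) (T.h (T.h (P (nat_lit 0)) (T.h (M (nat_lit 92842694536798928895)) (T.h (P (nat_lit 0)) (P (nat_lit 141777948044416))))) (T.h (P (nat_lit 0)) (T.h (T.h (P (nat_lit 0)) (P (nat_lit 22372417272256))) (P (nat_lit 0)))))))) (T.h (T.h (T.h (M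 (nat_lit 18765722672698315194899628031)) (T.h (P (nat_lit 0)) (T.h (M (nat_lit 115058167568772116774911)) (T.h (P (nat_lit 0)) (M (nat_lit 103189076392050687)))))) (T.h (P (nat_lit 0)) (T.h (T.h (P (nat_lit 30521886510044407660544)) (T.h (P (nat_lit 0)) (P (nat_lit 31961302718545920)))) (T.h (P (nat_lit 0)) (P (nat_lit 52964942878146560)))))) (T.h (T.h (P (nat_lit 0)) (T.h (T.h (P (nat_lit 0)) (T.h (M (nat_lit 128900549409064878079)) (T.h (P (nat_lit 0)) (P (nat_lit 6299933357696))))) (T.h (P (nat_lit 0)) (T.h (T.h (P (nat_lit 0)) (M (nat_lit 63976585455807))) (P (nat_lit 0)))))) (T.h (T.h (T.h (M (nat_lit 23579592421698636349439)) (T.h (P (nat_lit 0)) (M (nat_lit 25670652112863231)))) (T.h (P (nat_lit 0)) (P (nat_lit 104514075428454400)))) (T.h (T.h (P (nat_lit 0)) (T.h (T.h (P (nat_lit 0)) (P (nat_lit 26860824312192))) (P (nat_lit 0)))) (M (nat_lit 12000930136850431)))))))]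
def lQp_33 : List (T ℤ) := [(T.h (T.h (P (nat_lit 0)) (T.h (T.h (M (nat_lit 72478261872372897710639939583)) (T.h (P (nat_lit 0)) (T.h (M (nat_lit 155514434487671085596671)) (T.h (P (nat_lit 0)) (P (nat_lit 98322677260517376)))))) (T.h (P (nat_lit 0)) (T.h (T.h (P (nat_lit 87123053949393083301888)) (T.h (P (nat_lit 0)) (P (nat_lit 139103987127779328)))) (T.h (P (nat_lit 0)) (M (nat_lit 23341432239112191))))))) (T.h (T.h (T.h (P (nat_lit 0)) (T.h (P (nat_lit 103001419594148129347207168)) (T.h (P (nat_lit 0)) (T.h (M (nat_lit 77790327255810965503)) (T.h (P (nat_lit 0)) (M (nat_lit 45849852608687))))))) (T.h (P (nat_lit 0)) (T.h (T.h (P (nat_lit 0)) (T.h (M (nat_lit 68199807893534408703)) (T.h (P (nat_lit 0)) (M (nat_lit 215827605369791))))) (T.h (P (nat_lit 0)) (T.h (T.h (P (nat_lit 0)) (M (nat_lit 139411251903167))) (P (nat_lit 0))))))) (T.h (T.h (P (nat_lit 0)) (T.h (T.h (M (nat_lit 29227457131615847710719)) (T.h (P (nat_lit 0)) (P (nat_lit 26519925572091904))))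 (T.h (P (nat_lit 0)) (P (nat_lit 155218703881830400))))) (T.h (T.h (T.h (P (nat_lit 0)) (T.h (M (nat_lit 54963012511008292863)) (T.h (P (nat_lit 0)) (P (nat_lit 12834186665184))))) (T.h (P (nat_lit 0)) (T.h (T.h (P (nat_lit 0)) (M (nat_lit 3247963595855))) (P (nat_lit 0))))) (T.h (T.h (P (nat_lit 0)) (P (nat_lit 120914351725740032))) (T.h (T.h (T.h (P (nat_lit 0)) (P (nat_lit 32752559787552))) (P (nat_lit 0))) (P (nat_lit 0)))))))), (T.h (T.h (P (nat_lit 0)) (T.h (T.h (P (nat_lit 0)) (T.h (M (nat_lit 24362427025986149431640063)) (T.h (P (nat_lit 0)) (P (nat_lit 270015642585305972736))))) (T.h (P (nat_lit 0)) (T.h (T.h (P (nat_lit 0)) (P (nat_lit 270015642585305972736))) (P (nat_lit 0)))))) (T.h (T.h (T.h (M (nat_lit 18533547533791401124823039999)) (T.h (P (nat_lit 0)) (T.h (M (nat_lit 203247636894042950729727)) (T.h (P (nat_lit 0)) (M (nat_lit 76937809590648831)))))) (T.h (P (nat_lit 0)) (T.h (T.h (M (nat_lit 203247636894042950729727)) (T.h (P (nat_lit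 0)) (M (nat_lit 358055875133177855)))) (T.h (P (nat_lit 0)) (M (nat_lit 76937809590648831)))))) (T.h (T.h (P (nat_lit 0)) (T.h (T.h (P (nat_lit 0)) (P (nat_lit 99066322717822156800))) (P (nat_lit 0)))) (T.h (T.h (T.h (M (nat_lit 33280740286881974976511)) (T.h (P (nat_lit 0)) (M (nat_lit 14492751674703871)))) (T.h (P (nat_lit 0)) (M (nat_lit 14492751674703871)))) (T.h (P (nat_lit 0)) (M (nat_lit 27432103723925503))))))), (P (nat_lit 0)), (P (nat_lit 0)), (T.h (T.h (T.h (P (nat_lit 0)) (T.h (M (nat_lit 86573778126472935022694236159)) (T.h (P (nat_lit 0)) (T.h (M (nat_lit 49032214689452727992319)) (T.h (P (nat_lit 0)) (M (nat_lit 22307162351419391))))))) (T.h (P (nat_lit 0)) (T.h (T.h (P (nat_lit 0)) (T.h (P (nat_lit 60821576642137342083072)) (T.h (P (nat_lit 0)) (P (nat_lit 257381685080227840))))) (T.h (P (nat_lit 0)) (T.h (T.h (P (nat_lit 0)) (P (nat_lit 45815686882213888))) (P (nat_lit 0))))))) (T.h (T.h (P (nat_lit 0)) (T.h (T.h (P (nat_lit 55057915343755458021163008))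 (T.h (P (nat_lit 0)) (T.h (P (nat_lit 321466405071154577408)) (T.h (P (nat_lit 0)) (M (nat_lit 36795851005967)))))) (T.h (P (nat_lit 0)) (T.h (T.h (P (nat_lit 166545932273294770176)) (T.h (P (nat_lit 0)) (P (nat_lit 3848439743712)))) (T.h (P (nat_lit 0)) (M (nat_lit 18638776481903))))))) (T.h (T.h (T.h (P (nat_lit 0)) (T.h (M (nat_lit 38674386700585597403135)) (T.h (P (nat_lit 0)) (M (nat_lit 33527803763163135))))) (T.h (P (nat_lit 0)) (T.h (T.h (P (nat_lit 0)) (M (nat_lit 556794615299260415))) (P (nat_lit 0))))) (T.h (T.h (P (nat_lit 0)) (T.h (T.h (P (nat_lit 161023069026907062272)) (T.h (P (nat_lit 0)) (P (nat_lit 73574799128352)))) (T.h (P (nat_lit 0)) (M (nat_lit 35467958383919))))) (T.h (T.h (T.h (P (nat_lit 0)) (M (nat_lit 1512243294584831))) (P (nat_lit 0))) (T.h (T.h (P (nat_lit 0)) (P (nat_lit 45005981788656))) (P (nat_lit 0)))))))), (T.h (T.h (T.h (M (nat_lit 19245058767597118072917487255551)) (T.h (P (nat_lit 0)) (T.h (M (nat_lit 59825625941170914374713343))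 (T.h (P (nat_lit 0)) (M (nat_lit 12951678390250766335)))))) (T.h (P (nat_lit 0)) (T.h (T.h (P (nat_lit 8849924118460195124805632)) (T.h (P (nat_lit 0)) (P (nat_lit 218013063006075748352)))) (T.h (P (nat_lit 0)) (M (nat_lit 22472147538827804671)))))) (T.h (T.h (P (nat_lit 0)) (T.h (T.h (P (nat_lit 0)) (T.h (P (nat_lit 171507145602860729761792)) (T.h (P (nat_lit 0)) (M (nat_lit 189747104945602559))))) (T.h (P (nat_lit 0)) (T.h (T.h (P (nat_lit 0)) (M (nat_lit 200573530775551999))) (P (nat_lit 0)))))) (T.h (T.h (T.h (P (nat_lit 49064869503036694296788992)) (T.h (P (nat_lit 0)) (P (nat_lit 45880012597962473472)))) (T.h (P (nat_lit 0)) (P (nat_lit 78300033919217565696)))) (T.h (T.h (P (nat_lit 0)) (T.h (T.h (P (nat_lit 0)) (P (nat_lit 11742295132012544))) (P (nat_lit 0)))) (P (nat_lit 58062886536468234240)))))), (P (nat_lit 0)), (P (nat_lit 0))]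
def lQp_34 : List (T ℤ) := [(T.h (T.h (P (nat_lit 0)) (T.h (T.h (P (nat_lit 0)) (T.h (M (nat_lit 33206684731157785694175231)) (T.h (P (nat_lit 0)) (P (nat_lit 13623357689722568704))))) (T.h (P (nat_lit 0)) (T.h (T.h (P (nat_lit 0)) (M (nat_lit 274170867548684287))) (P (nat_lit 0)))))) (T.h (T.h (T.h (P (nat_lit 11248579222122020348964634624)) (T.h (P (nat_lit 0)) (T.h (P (nat_lit 110268998513681254842368)) (T.h (P (nat_lit 0)) (P (nat_lit 25337783715266560)))))) (T.h (P (nat_lit 0)) (T.h (T.h (P (nat_lit 251163479293727797673984)) (T.h (P (nat_lit 0)) (P (nat_lit 22622444845334528)))) (T.h (P (nat_lit 0)) (M (nat_lit 1355874914500607)))))) (T.h (T.h (P (nat_lit 0)) (T.h (T.h (P (nat_lit 0)) (M (nat_lit 352605878129642176511))) (P (nat_lit 0)))) (T.h (T.h (T.h (P (nat_lit 47210703150660263608320)) (T.h (P (nat_lit 0)) (P (nat_lit 83781578424385536)))) (T.h (P (nat_lit 0)) (P (nat_lit 15489028619730944)))) (T.h (P (nat_lit 0)) (P (nat_lit 113838962049777664))))))),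 (P (nat_lit 0)), (P (nat_lit 0)), (P (nat_lit 0)), (P (nat_lit 0)), (P (nat_lit 0)), (T.h (T.h (T.h (P (nat_lit 99726052038256347958477034881024)) (T.h (P (nat_lit 0)) (T.h (P (nat_lit 12879479387556197198462976)) (T.h (P (nat_lit 0)) (T.h (P (nat_lit 19390578843768061952)) (T.h (P (nat_lit 0)) (P (nat_lit 56203593949792)))))))) (T.h (P (nat_lit 0)) (T.h (T.h (P (nat_lit 12879479387556197198462976)) (T.h (P (nat_lit 0)) (T.h (M (nat_lit 163569657816085954559)) (T.h (P (nat_lit 0)) (M (nat_lit 373272336818415)))))) (T.h (P (nat_lit 0)) (T.h (T.h (P (nat_lit 19390578843768061952)) (T.h (P (nat_lit 0)) (M (nat_lit 373272336818415)))) (T.h (P (nat_lit 0)) (P (nat_lit 56203593949792)))))))) (T.h (T.h (P (nat_lit 0)) (T.h (T.h (P (nat_lit 0)) (T.h (P (nat_lit 25414173094073549717504)) (T.h (P (nat_lit 0)) (P (nat_lit 85390695730020352))))) (T.h (P (nat_lit 0)) (T.h (T.h (P (nat_lit 0)) (P (nat_lit 85390695730020352))) (P (nat_lit 0)))))) (T.h (T.h (T.h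 (M (nat_lit 12917193599314809325617151)) (T.h (P (nat_lit 0)) (T.h (M (nat_lit 43050933782990290943)) (T.h (P (nat_lit 0)) (M (nat_lit 104478078703183)))))) (T.h (P (nat_lit 0)) (T.h (T.h (M (nat_lit 43050933782990290943)) (T.h (P (nat_lit 0)) (P (nat_lit 5095877684832)))) (T.h (P (nat_lit 0)) (M (nat_lit 104478078703183)))))) (T.h (T.h (P (nat_lit 0)) (T.h (T.h (P (nat_lit 0)) (M (nat_lit 77076485201985535))) (P (nat_lit 0)))) (T.h (T.h (T.h (P (nat_lit 21631471958110502912)) (T.h (P (nat_lit 0)) (P (nat_lit 20467126355184)))) (T.h (P (nat_lit 0)) (P (nat_lit 20467126355184)))) (T.h (P (nat_lit 0)) (P (nat_lit 2914549128000)))))))), (T.h (T.h (T.h (P (nat_lit 0)) (T.h (P (nat_lit 261693461976339468041322496)) (T.h (P (nat_lit 0)) (T.h (P (nat_lit 36544984058959734243328)) (T.h (P (nat_lit 0)) (P (nat_lit 92595113484189696))))))) (T.h (P (nat_lit 0)) (T.h (T.h (P (nat_lit 0)) (T.h (M (nat_lit 58005716067570298126335)) (T.h (P (nat_lit 0)) (M (nat_lit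 307809057127432191))))) (T.h (P (nat_lit 0)) (T.h (T.h (P (nat_lit 0)) (M (nat_lit 147754045441376255))) (P (nat_lit 0))))))) (T.h (T.h (P (nat_lit 0)) (T.h (T.h (M (nat_lit 2396886317862536817410047)) (T.h (P (nat_lit 0)) (T.h (M (nat_lit 34541195107701358591)) (T.h (P (nat_lit 0)) (M (nat_lit 27782914614783)))))) (T.h (P (nat_lit 0)) (T.h (T.h (M (nat_lit 1986026304863993855)) (T.h (P (nat_lit 0)) (P (nat_lit 39626086326080)))) (T.h (P (nat_lit 0)) (M (nat_lit 15417053138367))))))) (T.h (T.h (T.h (P (nat_lit 0)) (T.h (M (nat_lit 12263181683475735379967)) (T.h (P (nat_lit 0)) (M (nat_lit 16066539524325375))))) (T.h (P (nat_lit 0)) (T.h (T.h (P (nat_lit 0)) (P (nat_lit 66179228307161088))) (P (nat_lit 0))))) (T.h (T.h (P (nat_lit 0)) (T.h (T.h (P (nat_lit 329372831294947328)) (T.h (P (nat_lit 0)) (M (nat_lit 11941010524991)))) (T.h (P (nat_lit 0)) (P (nat_lit 29851112519424))))) (T.h (T.h (T.h (P (nat_lit 0)) (M (nat_lit 52709437456547839))) (P (nat_lit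 0))) (T.h (T.h (P (nat_lit 0)) (P (nat_lit 11754251825088))) (P (nat_lit 0))))))))]
def lQp_35 : List (T ℤ) := [(T.h (T.h (T.h (M (nat_lit 205475608593708555075071942590463)) (T.h (P (nat_lit 0)) (T.h (P (nat_lit 30647609676432405136670720)) (T.h (P (nat_lit 0)) (T.h (P (nat_lit 24552213189067014144)) (T.h (P (nat_lit 0)) (P (nat_lit 8713460479392)))))))) (T.h (P (nat_lit 0)) (T.h (T.h (M (nat_lit 49326294657994179987111935)) (T.h (P (nat_lit 0)) (T.h (P (nat_lit 211642940836456431616)) (T.h (P (nat_lit 0)) (P (nat_lit 499241730033216)))))) (T.h (P (nat_lit 0)) (T.h (T.h (M (nat_lit 98340197006326104063)) (T.h (P (nat_lit 0)) (P (nat_lit 352154342018448)))) (T.h (P (nat_lit 0)) (M (nat_lit 87410689135199)))))))) (T.h (T.h (P (nat_lit 0)) (T.h (T.h (P (nat_lit 0)) (T.h (M (nat_lit 115192297782243615571967)) (T.h (P (nat_lit 0)) (M (nat_lit 300902337197998079))))) (T.h (P (nat_lit 0)) (T.h (T.h (P (nat_lit 0)) (M (nat_lit 78731064540430335))) (P (nat_lit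 0)))))) (T.h (T.h (T.h (M (nat_lit 606963566151509353693183)) (T.h (P (nat_lit 0)) (T.h (P (nat_lit 160391609105522884608)) (T.h (P (nat_lit 0)) (P (nat_lit 134195146157664)))))) (T.h (P (nat_lit 0)) (T.h (T.h (P (nat_lit 54087894479375695872)) (T.h (P (nat_lit 0)) (P (nat_lit 14513604933888)))) (T.h (P (nat_lit 0)) (P (nat_lit 133240626359424)))))) (T.h (T.h (P (nat_lit 0)) (T.h (T.h (P (nat_lit 0)) (M (nat_lit 20318761883959295))) (P (nat_lit 0)))) (T.h (T.h (T.h (P (nat_lit 37129636244552155136)) (T.h (P (nat_lit 0)) (M (nat_lit 77309147628143)))) (T.h (P (nat_lit 0)) (P (nat_lit 26406644853168)))) (T.h (P (nat_lit 0)) (P (nat_lit 14645707618464)))))))), (T.h (T.h (T.h (P (nat_lit 0)) (T.h (P (nat_lit 485246316002040588049317888)) (T.h (P (nat_lit 0)) (T.h (P (nat_lit 47953310490409918529536)) (T.h (P (nat_lit 0)) (P (nat_lit 7655420903981056))))))) (T.h (P (nat_lit 0)) (T.h (T.h (P (nat_lit 0)) (T.h (P (nat_lit 156873228732256518930432)) (T.h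 (P (nat_lit 0)) (P (nat_lit 455296650780803072))))) (T.h (P (nat_lit 0)) (T.h (T.h (P (nat_lit 0)) (P (nat_lit 151896253560815616))) (P (nat_lit 0))))))) (T.h (T.h (P (nat_lit 0)) (T.h (T.h (M (nat_lit 28478335506665354741940223)) (T.h (P (nat_lit 0)) (M (nat_lit 379707384477398335487)))) (T.h (P (nat_lit 0)) (M (nat_lit 46219789068006326271))))) (T.h (T.h (T.h (P (nat_lit 0)) (T.h (P (nat_lit 116266967700160330596352)) (T.h (P (nat_lit 0)) (P (nat_lit 97934611223642112))))) (T.h (P (nat_lit 0)) (T.h (T.h (P (nat_lit 0)) (P (nat_lit 56832365739311104))) (P (nat_lit 0))))) (T.h (T.h (P (nat_lit 0)) (M (nat_lit 7399312085391245311))) (T.h (T.h (T.h (P (nat_lit 0)) (P (nat_lit 16022553870106624))) (P (nat_lit 0))) (P (nat_lit 0))))))), (P (nat_lit 0)), (P (nat_lit 0)), (T.h (T.h (P (nat_lit 0)) (T.h (T.h (P (nat_lit 261693461976339468041322496)) (T.h (P (nat_lit 0)) (T.h (M (nat_lit 58005716067570298126335)) (T.h (P (nat_lit 0)) (M (nat_lit 147754045441376255))))))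 (T.h (P (nat_lit 0)) (T.h (T.h (P (nat_lit 36544984058959734243328)) (T.h (P (nat_lit 0)) (M (nat_lit 307809057127432191)))) (T.h (P (nat_lit 0)) (P (nat_lit 92595113484189696))))))) (T.h (T.h (T.h (P (nat_lit 0)) (T.h (M (nat_lit 2396886317862536817410047)) (T.h (P (nat_lit 0)) (T.h (M (nat_lit 1986026304863993855)) (T.h (P (nat_lit 0)) (M (nat_lit 15417053138367))))))) (T.h (P (nat_lit 0)) (T.h (T.h (P (nat_lit 0)) (T.h (M (nat_lit 34541195107701358591)) (T.h (P (nat_lit 0)) (P (nat_lit 39626086326080))))) (T.h (P (nat_lit 0)) (T.h (T.h (P (nat_lit 0)) (M (nat_lit 27782914614783))) (P (nat_lit 0))))))) (T.h (T.h (P (nat_lit 0)) (T.h (T.h (M (nat_lit 12263181683475735379967)) (T.h (P (nat_lit 0)) (P (nat_lit 66179228307161088)))) (T.h (P (nat_lit 0)) (M (nat_lit 16066539524325375))))) (T.h (T.h (T.h (P (nat_lit 0)) (T.h (P (nat_lit 329372831294947328)) (T.h (P (nat_lit 0)) (P (nat_lit 29851112519424))))) (T.h (P (nat_lit 0)) (T.h (T.h (P (nat_lit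 0)) (M (nat_lit 11941010524991))) (P (nat_lit 0))))) (T.h (T.h (P (nat_lit 0)) (M (nat_lit 52709437456547839))) (T.h (T.h (T.h (P (nat_lit 0)) (P (nat_lit 11754251825088))) (P (nat_lit 0))) (P (nat_lit 0)))))))), (T.h (T.h (P (nat_lit 0)) (T.h (T.h (P (nat_lit 0)) (T.h (P (nat_lit 52806908929216563881443328)) (T.h (P (nat_lit 0)) (T.h (P (nat_lit 82011797848584093696)) (T.h (P (nat_lit 0)) (P (nat_lit 68505149127168))))))) (T.h (P (nat_lit 0)) (T.h (T.h (P (nat_lit 0)) (T.h (P (nat_lit 82011797848584093696)) (T.h (P (nat_lit 0)) (P (nat_lit 31906044562176))))) (T.h (P (nat_lit 0)) (T.h (T.h (P (nat_lit 0)) (P (nat_lit 68505149127168))) (P (nat_lit 0)))))))) (T.h (T.h (T.h (M (nat_lit 1892847221745848228151033855)) (T.h (P (nat_lit 0)) (T.h (M (nat_lit 84377462207756476874751)) (T.h (P (nat_lit 0)) (M (nat_lit 4353750354378751)))))) (T.h (P (nat_lit 0)) (T.h (T.h (M (nat_lit 84377462207756476874751)) (T.h (P (nat_lit 0)) (P (nat_lit 117937861708251136))))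 (T.h (P (nat_lit 0)) (M (nat_lit 4353750354378751)))))) (T.h (T.h (P (nat_lit 0)) (T.h (T.h (P (nat_lit 0)) (T.h (M (nat_lit 82738826853778194431)) (T.h (P (nat_lit 0)) (M (nat_lit 38582463213215))))) (T.h (P (nat_lit 0)) (T.h (T.h (P (nat_lit 0)) (M (nat_lit 38582463213215))) (P (nat_lit 0)))))) (T.h (T.h (T.h (M (nat_lit 30608946642825443803135)) (T.h (P (nat_lit 0)) (P (nat_lit 112684429692944384)))) (T.h (P (nat_lit 0)) (P (nat_lit 112684429692944384)))) (T.h (T.h (P (nat_lit 0)) (T.h (T.h (P (nat_lit 0)) (P (nat_lit 93337690111776))) (P (nat_lit 0)))) (P (nat_lit 41383730525405184))))))), (T.h (T.h (P (nat_lit 0)) (T.h (T.h (P (nat_lit 1043116937690069580088606720)) (T.h (P (nat_lit 0)) (T.h (P (nat_lit 101464149854981390860288)) (T.h (P (nat_lit 0)) (P (nat_lit 273430289931173888)))))) (T.h (P (nat_lit 0)) (T.h (T.h (M (nat_lit 61764923110046956519423)) (T.h (P (nat_lit 0)) (P (nat_lit 293207130200866816)))) (T.h (P (nat_lit 0)) (M (nat_lit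 114189388980387839))))))) (T.h (T.h (T.h (P (nat_lit 0)) (T.h (P (nat_lit 18488068673796538873413632)) (T.h (P (nat_lit 0)) (P (nat_lit 3412449340189310976))))) (T.h (P (nat_lit 0)) (T.h (T.h (P (nat_lit 0)) (P (nat_lit 3225623507505250304))) (P (nat_lit 0))))) (T.h (T.h (P (nat_lit 0)) (T.h (T.h (M (nat_lit 12925985027821664206847)) (T.h (P (nat_lit 0)) (M (nat_lit 21950935167303679)))) (T.h (P (nat_lit 0)) (P (nat_lit 121260396594069504))))) (T.h (T.h (T.h (P (nat_lit 0)) (M (nat_lit 13067073905649254399))) (P (nat_lit 0))) (T.h (T.h (P (nat_lit 0)) (P (nat_lit 70522602099113984))) (P (nat_lit 0))))))), (P (nat_lit 0))]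
def lQp_36 : List (T ℤ) := [(P (nat_lit 0)), (T.h (T.h (T.h (M (nat_lit 205475608593708555075071942590463)) (T.h (P (nat_lit 0)) (T.h (M (nat_lit 49326294657994179987111935)) (T.h (P (nat_lit 0)) (T.h (M (nat_lit 98340197006326104063)) (T.h (P (nat_lit 0)) (M (nat_lit 87410689135199)))))))) (T.h (P (nat_lit 0)) (T.h (T.h (P (nat_lit 30647609676432405136670720)) (T.h (P (nat_lit 0)) (T.h (P (nat_lit 211642940836456431616)) (T.h (P (nat_lit 0)) (P (nat_lit 352154342018448)))))) (T.h (P (nat_lit 0)) (T.h (T.h (P (nat_lit 24552213189067014144)) (T.h (P (nat_lit 0)) (P (nat_lit 499241730033216)))) (T.h (P (nat_lit 0)) (P (nat_lit 8713460479392)))))))) (T.h (T.h (P (nat_lit 0)) (T.h (T.h (P (nat_lit 0)) (T.h (M (nat_lit 115192297782243615571967)) (T.h (P (nat_lit 0)) (M (nat_lit 78731064540430335))))) (T.h (P (nat_lit 0)) (T.h (T.h (P (nat_lit 0)) (M (nat_lit 300902337197998079))) (P (nat_lit 0)))))) (T.h (T.h (T.h (M (nat_lit 606963566151509353693183))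 (T.h (P (nat_lit 0)) (T.h (P (nat_lit 54087894479375695872)) (T.h (P (nat_lit 0)) (P (nat_lit 133240626359424)))))) (T.h (P (nat_lit 0)) (T.h (T.h (P (nat_lit 160391609105522884608)) (T.h (P (nat_lit 0)) (P (nat_lit 14513604933888)))) (T.h (P (nat_lit 0)) (P (nat_lit 134195146157664)))))) (T.h (T.h (P (nat_lit 0)) (T.h (T.h (P (nat_lit 0)) (M (nat_lit 20318761883959295))) (P (nat_lit 0)))) (T.h (T.h (T.h (P (nat_lit 37129636244552155136)) (T.h (P (nat_lit 0)) (P (nat_lit 26406644853168)))) (T.h (P (nat_lit 0)) (M (nat_lit 77309147628143)))) (T.h (P (nat_lit 0)) (P (nat_lit 14645707618464)))))))), (T.h (T.h (T.h (P (nat_lit 0)) (T.h (P (nat_lit 1043116937690069580088606720)) (T.h (P (nat_lit 0)) (T.h (M (nat_lit 61764923110046956519423)) (T.h (P (nat_lit 0)) (M (nat_lit 114189388980387839))))))) (T.h (P (nat_lit 0)) (T.h (T.h (P (nat_lit 0)) (T.h (P (nat_lit 101464149854981390860288)) (T.h (P (nat_lit 0)) (P (nat_lit 293207130200866816))))) (T.h (P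 (nat_lit 0)) (T.h (T.h (P (nat_lit 0)) (P (nat_lit 273430289931173888))) (P (nat_lit 0))))))) (T.h (T.h (P (nat_lit 0)) (T.h (T.h (P (nat_lit 18488068673796538873413632)) (T.h (P (nat_lit 0)) (P (nat_lit 3225623507505250304)))) (T.h (P (nat_lit 0)) (P (nat_lit 3412449340189310976))))) (T.h (T.h (T.h (P (nat_lit 0)) (T.h (M (nat_lit 12925985027821664206847)) (T.h (P (nat_lit 0)) (P (nat_lit 121260396594069504))))) (T.h (P (nat_lit 0)) (T.h (T.h (P (nat_lit 0)) (M (nat_lit 21950935167303679))) (P (nat_lit 0))))) (T.h (T.h (P (nat_lit 0)) (M (nat_lit 13067073905649254399))) (T.h (T.h (T.h (P (nat_lit 0)) (P (nat_lit 70522602099113984))) (P (nat_lit 0))) (P (nat_lit 0))))))), (P (nat_lit 0)), (P (nat_lit 0)), (T.h (T.h (P (nat_lit 0)) (T.h (T.h (P (nat_lit 485246316002040588049317888)) (T.h (P (nat_lit 0)) (T.h (P (nat_lit 156873228732256518930432)) (T.h (P (nat_lit 0)) (P (nat_lit 151896253560815616)))))) (T.h (P (nat_lit 0)) (T.h (T.h (P (nat_lit 47953310490409918529536))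 (T.h (P (nat_lit 0)) (P (nat_lit 455296650780803072)))) (T.h (P (nat_lit 0)) (P (nat_lit 7655420903981056))))))) (T.h (T.h (T.h (P (nat_lit 0)) (T.h (M (nat_lit 28478335506665354741940223)) (T.h (P (nat_lit 0)) (M (nat_lit 46219789068006326271))))) (T.h (P (nat_lit 0)) (T.h (T.h (P (nat_lit 0)) (M (nat_lit 379707384477398335487))) (P (nat_lit 0))))) (T.h (T.h (P (nat_lit 0)) (T.h (T.h (P (nat_lit 116266967700160330596352)) (T.h (P (nat_lit 0)) (P (nat_lit 56832365739311104)))) (T.h (P (nat_lit 0)) (P (nat_lit 97934611223642112))))) (T.h (T.h (T.h (P (nat_lit 0)) (M (nat_lit 7399312085391245311))) (P (nat_lit 0))) (T.h (T.h (P (nat_lit 0)) (P (nat_lit 16022553870106624))) (P (nat_lit 0))))))), (P (nat_lit 0)), (P (nat_lit 0))]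
def lQp_37 : List (T ℤ) := [(P (nat_lit 0)), (P (nat_lit 0)), (P (nat_lit 0)), (T.h (T.h (P (nat_lit 0)) (T.h (T.h (P (nat_lit 0)) (T.h (P (nat_lit 6529010842166020662099968)) (T.h (P (nat_lit 0)) (T.h (P (nat_lit 52608712282749272064)) (T.h (P (nat_lit 0)) (P (nat_lit 15377323687936))))))) (T.h (P (nat_lit 0)) (T.h (T.h (P (nat_lit 0)) (T.h (P (nat_lit 52608712282749272064)) (T.h (P (nat_lit 0)) (P (nat_lit 80852307497216))))) (T.h (P (nat_lit 0)) (T.h (T.h (P (nat_lit 0)) (P (nat_lit 15377323687936))) (P (nat_lit 0)))))))) (T.h (T.h (T.h (M (nat_lit 15398477962580553354767761407)) (T.h (P (nat_lit 0)) (T.h (M (nat_lit 34570120424241787568127)) (T.h (P (nat_lit 0)) (M (nat_lit 73782082795405311)))))) (T.h (P (nat_lit 0)) (T.h (T.h (M (nat_lit 34570120424241787568127)) (T.h (P (nat_lit 0)) (M (nat_lit 1586111751258111)))) (T.h (P (nat_lit 0)) (M (nat_lit 73782082795405311)))))) (T.h (T.h (P (nat_lit 0)) (T.h (T.h (P (nat_lit 0)) (T.h (M (nat_lit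 13935718119319273471)) (T.h (P (nat_lit 0)) (M (nat_lit 43662999342143))))) (T.h (P (nat_lit 0)) (T.h (T.h (P (nat_lit 0)) (M (nat_lit 43662999342143))) (P (nat_lit 0)))))) (T.h (T.h (T.h (P (nat_lit 15035128725152324386816)) (T.h (P (nat_lit 0)) (P (nat_lit 32946150440730624)))) (T.h (P (nat_lit 0)) (P (nat_lit 32946150440730624)))) (T.h (T.h (P (nat_lit 0)) (T.h (T.h (P (nat_lit 0)) (P (nat_lit 53358334410624))) (P (nat_lit 0)))) (M (nat_lit 2436278359752703))))))), (T.h (T.h (P (nat_lit 0)) (T.h (T.h (M (nat_lit 24801631326153345891410378751)) (T.h (P (nat_lit 0)) (T.h (P (nat_lit 69850975083097497796608)) (T.h (P (nat_lit 0)) (P (nat_lit 104265922317058048)))))) (T.h (P (nat_lit 0)) (T.h (T.h (P (nat_lit 878716978990749319168)) (T.h (P (nat_lit 0)) (P (nat_lit 198609520576053248)))) (T.h (P (nat_lit 0)) (M (nat_lit 14991615373983743))))))) (T.h (T.h (T.h (P (nat_lit 0)) (T.h (M (nat_lit 29625130931332275844939775)) (T.h (P (nat_lit 0)) (T.h (P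 (nat_lit 6323371610589888512)) (T.h (P (nat_lit 0)) (M (nat_lit 38574100311983))))))) (T.h (P (nat_lit 0)) (T.h (T.h (P (nat_lit 0)) (T.h (M (nat_lit 16352020845905838079)) (T.h (P (nat_lit 0)) (P (nat_lit 22287634534368))))) (T.h (P (nat_lit 0)) (T.h (T.h (P (nat_lit 0)) (M (nat_lit 53556555107663))) (P (nat_lit 0))))))) (T.h (T.h (P (nat_lit 0)) (T.h (T.h (M (nat_lit 810895736184433016831)) (T.h (P (nat_lit 0)) (M (nat_lit 41801263281635327)))) (T.h (P (nat_lit 0)) (P (nat_lit 75654353308729344))))) (T.h (T.h (T.h (P (nat_lit 0)) (T.h (M (nat_lit 19032430414556823551)) (T.h (P (nat_lit 0)) (M (nat_lit 11727087712703))))) (T.h (P (nat_lit 0)) (T.h (T.h (P (nat_lit 0)) (P (nat_lit 18560116891440))) (P (nat_lit 0))))) (T.h (T.h (P (nat_lit 0)) (P (nat_lit 21529164191711232))) (T.h (T.h (T.h (P (nat_lit 0)) (P (nat_lit 8704128682512))) (P (nat_lit 0))) (P (nat_lit 0)))))))), (T.h (T.h (P (nat_lit 0)) (T.h (T.h (P (nat_lit 0)) (T.h (P (nat_lit 7968129611153399804329984))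 (T.h (P (nat_lit 0)) (P (nat_lit 28918869486353776640))))) (T.h (P (nat_lit 0)) (T.h (T.h (P (nat_lit 0)) (P (nat_lit 34246235936746635264))) (P (nat_lit 0)))))) (T.h (T.h (T.h (P (nat_lit 5287393795622230931927990272)) (T.h (P (nat_lit 0)) (T.h (P (nat_lit 37042947306702845771776)) (T.h (P (nat_lit 0)) (P (nat_lit 17184947940786176)))))) (T.h (P (nat_lit 0)) (T.h (T.h (P (nat_lit 11470395129475534684160)) (T.h (P (nat_lit 0)) (P (nat_lit 21820328043151360)))) (T.h (P (nat_lit 0)) (P (nat_lit 48452197856411648)))))) (T.h (T.h (P (nat_lit 0)) (T.h (T.h (P (nat_lit 0)) (M (nat_lit 28063542199158046719))) (P (nat_lit 0)))) (T.h (T.h (T.h (P (nat_lit 10997930159462676430848)) (T.h (P (nat_lit 0)) (M (nat_lit 78374196030734335)))) (T.h (P (nat_lit 0)) (P (nat_lit 28259372670091264)))) (T.h (P (nat_lit 0)) (P (nat_lit 21976945639718912))))))), (P (nat_lit 0)), (P (nat_lit 0))]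
def lQp_38 : List (T ℤ) := [(T.h (T.h (T.h (P (nat_lit 0)) (T.h (M (nat_lit 24801631326153345891410378751)) (T.h (P (nat_lit 0)) (T.h (P (nat_lit 878716978990749319168)) (T.h (P (nat_lit 0)) (M (nat_lit 14991615373983743))))))) (T.h (P (nat_lit 0)) (T.h (T.h (P (nat_lit 0)) (T.h (P (nat_lit 69850975083097497796608)) (T.h (P (nat_lit 0)) (P (nat_lit 198609520576053248))))) (T.h (P (nat_lit 0)) (T.h (T.h (P (nat_lit 0)) (P (nat_lit 104265922317058048))) (P (nat_lit 0))))))) (T.h (T.h (P (nat_lit 0)) (T.h (T.h (M (nat_lit 29625130931332275844939775)) (T.h (P (nat_lit 0)) (T.h (M (nat_lit 16352020845905838079)) (T.h (P (nat_lit 0)) (M (nat_lit 53556555107663)))))) (T.h (P (nat_lit 0)) (T.h (T.h (P (nat_lit 6323371610589888512)) (T.h (P (nat_lit 0)) (P (nat_lit 22287634534368)))) (T.h (P (nat_lit 0)) (M (nat_lit 38574100311983))))))) (T.h (T.h (T.h (P (nat_lit 0)) (T.h (M (nat_lit 810895736184433016831)) (T.h (P (nat_lit 0)) (P (nat_lit 75654353308729344)))))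 (T.h (P (nat_lit 0)) (T.h (T.h (P (nat_lit 0)) (M (nat_lit 41801263281635327))) (P (nat_lit 0))))) (T.h (T.h (P (nat_lit 0)) (T.h (T.h (M (nat_lit 19032430414556823551)) (T.h (P (nat_lit 0)) (P (nat_lit 18560116891440)))) (T.h (P (nat_lit 0)) (M (nat_lit 11727087712703))))) (T.h (T.h (T.h (P (nat_lit 0)) (P (nat_lit 21529164191711232))) (P (nat_lit 0))) (T.h (T.h (P (nat_lit 0)) (P (nat_lit 8704128682512))) (P (nat_lit 0)))))))), (T.h (T.h (T.h (M (nat_lit 12287190180425606716005116018687)) (T.h (P (nat_lit 0)) (T.h (P (nat_lit 822633096902632366145536)) (T.h (P (nat_lit 0)) (P (nat_lit 6177230466576285696)))))) (T.h (P (nat_lit 0)) (T.h (T.h (P (nat_lit 822633096902632366145536)) (T.h (P (nat_lit 0)) (P (nat_lit 183649484888055218176)))) (T.h (P (nat_lit 0)) (P (nat_lit 6177230466576285696)))))) (T.h (T.h (P (nat_lit 0)) (T.h (T.h (P (nat_lit 0)) (T.h (M (nat_lit 126306685842223500623871)) (T.h (P (nat_lit 0)) (M (nat_lit 56164324190060543)))))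 (T.h (P (nat_lit 0)) (T.h (T.h (P (nat_lit 0)) (M (nat_lit 56164324190060543))) (P (nat_lit 0)))))) (T.h (T.h (T.h (P (nat_lit 3836605376147847800422400)) (T.h (P (nat_lit 0)) (P (nat_lit 65115326894967881728)))) (T.h (P (nat_lit 0)) (P (nat_lit 65115326894967881728)))) (T.h (T.h (P (nat_lit 0)) (T.h (T.h (P (nat_lit 0)) (P (nat_lit 101851870552260608))) (P (nat_lit 0)))) (P (nat_lit 34747549758858985472)))))), (P (nat_lit 0)), (P (nat_lit 0)), (T.h (T.h (P (nat_lit 0)) (T.h (T.h (P (nat_lit 0)) (T.h (P (nat_lit 7968129611153399804329984)) (T.h (P (nat_lit 0)) (P (nat_lit 34246235936746635264))))) (T.h (P (nat_lit 0)) (T.h (T.h (P (nat_lit 0)) (P (nat_lit 28918869486353776640))) (P (nat_lit 0)))))) (T.h (T.h (T.h (P (nat_lit 5287393795622230931927990272)) (T.h (P (nat_lit 0)) (T.h (P (nat_lit 11470395129475534684160)) (T.h (P (nat_lit 0)) (P (nat_lit 48452197856411648)))))) (T.h (P (nat_lit 0)) (T.h (T.h (P (nat_lit 37042947306702845771776)) (T.h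 (P (nat_lit 0)) (P (nat_lit 21820328043151360)))) (T.h (P (nat_lit 0)) (P (nat_lit 17184947940786176)))))) (T.h (T.h (P (nat_lit 0)) (T.h (T.h (P (nat_lit 0)) (M (nat_lit 28063542199158046719))) (P (nat_lit 0)))) (T.h (T.h (T.h (P (nat_lit 10997930159462676430848)) (T.h (P (nat_lit 0)) (P (nat_lit 28259372670091264)))) (T.h (P (nat_lit 0)) (M (nat_lit 78374196030734335)))) (T.h (P (nat_lit 0)) (P (nat_lit 21976945639718912))))))), (P (nat_lit 0)), (P (nat_lit 0)), (P (nat_lit 0))]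
def lQp_39 : List (T ℤ) := [(P (nat_lit 0)), (P (nat_lit 0)), (T.h (T.h (T.h (M (nat_lit 104756641487949524293953746108415)) (T.h (P (nat_lit 0)) (T.h (M (nat_lit 12700455064882736074326015)) (T.h (P (nat_lit 0)) (T.h (M (nat_lit 19312137227118575615)) (T.h (P (nat_lit 0)) (M (nat_lit 56803544022671)))))))) (T.h (P (nat_lit 0)) (T.h (T.h (M (nat_lit 12700455064882736074326015)) (T.h (P (nat_lit 0)) (T.h (P (nat_lit 165826099962076725248)) (T.h (P (nat_lit 0)) (P (nat_lit 372699232900704)))))) (T.h (P (nat_lit 0)) (T.h (T.h (M (nat_lit 19312137227118575615)) (T.h (P (nat_lit 0)) (P (nat_lit 372699232900704)))) (T.h (P (nat_lit 0)) (M (nat_lit 56803544022671)))))))) (T.h (T.h (P (nat_lit 0)) (T.h (T.h (P (nat_lit 0)) (T.h (M (nat_lit 21864202026945664253951)) (T.h (P (nat_lit 0)) (M (nat_lit 86681298974244863))))) (T.h (P (nat_lit 0)) (T.h (T.h (P (nat_lit 0)) (M (nat_lit 86681298974244863))) (P (nat_lit 0)))))) (T.h (T.h (T.h (P (nat_lit 12972378171370217360326656))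 (T.h (P (nat_lit 0)) (T.h (P (nat_lit 41641252604608512000)) (T.h (P (nat_lit 0)) (P (nat_lit 101867935691088)))))) (T.h (P (nat_lit 0)) (T.h (T.h (P (nat_lit 41641252604608512000)) (T.h (P (nat_lit 0)) (P (nat_lit 911442555360)))) (T.h (P (nat_lit 0)) (P (nat_lit 101867935691088)))))) (T.h (T.h (P (nat_lit 0)) (T.h (T.h (P (nat_lit 0)) (P (nat_lit 70499875456942080))) (P (nat_lit 0)))) (T.h (T.h (T.h (M (nat_lit 21943154770180046847)) (T.h (P (nat_lit 0)) (M (nat_lit 20140321589711)))) (T.h (P (nat_lit 0)) (M (nat_lit 20140321589711)))) (T.h (P (nat_lit 0)) (M (nat_lit 1776113164223)))))))), (T.h (T.h (T.h (P (nat_lit 0)) (T.h (M (nat_lit 2431989740396183413638299647)) (T.h (P (nat_lit 0)) (T.h (M (nat_lit 13155666161854431887359)) (T.h (P (nat_lit 0)) (M (nat_lit 86333522932170751))))))) (T.h (P (nat_lit 0)) (T.h (T.h (P (nat_lit 0)) (T.h (P (nat_lit 67764700985457142398976)) (T.h (P (nat_lit 0)) (P (nat_lit 344310799049883648))))) (T.h (P (nat_lit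 0)) (T.h (T.h (P (nat_lit 0)) (P (nat_lit 157432470344531968))) (P (nat_lit 0))))))) (T.h (T.h (P (nat_lit 0)) (T.h (T.h (M (nat_lit 2731529024111075150266367)) (T.h (P (nat_lit 0)) (M (nat_lit 43502318328160976895)))) (T.h (P (nat_lit 0)) (P (nat_lit 14446821862908362752))))) (T.h (T.h (T.h (P (nat_lit 0)) (T.h (P (nat_lit 2389731705158014861312)) (T.h (P (nat_lit 0)) (P (nat_lit 84716766919393280))))) (T.h (P (nat_lit 0)) (T.h (T.h (P (nat_lit 0)) (P (nat_lit 13085180765306880))) (P (nat_lit 0))))) (T.h (T.h (P (nat_lit 0)) (M (nat_lit 2922520119437426687))) (T.h (T.h (T.h (P (nat_lit 0)) (P (nat_lit 737280053051392))) (P (nat_lit 0))) (P (nat_lit 0))))))), (P (nat_lit 0)), (P (nat_lit 0)), (T.h (T.h (P (nat_lit 0)) (T.h (T.h (M (nat_lit 2431989740396183413638299647)) (T.h (P (nat_lit 0)) (T.h (P (nat_lit 67764700985457142398976)) (T.h (P (nat_lit 0)) (P (nat_lit 157432470344531968)))))) (T.h (P (nat_lit 0)) (T.h (T.h (M (nat_lit 13155666161854431887359))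 (T.h (P (nat_lit 0)) (P (nat_lit 344310799049883648)))) (T.h (P (nat_lit 0)) (M (nat_lit 86333522932170751))))))) (T.h (T.h (T.h (P (nat_lit 0)) (T.h (M (nat_lit 2731529024111075150266367)) (T.h (P (nat_lit 0)) (P (nat_lit 14446821862908362752))))) (T.h (P (nat_lit 0)) (T.h (T.h (P (nat_lit 0)) (M (nat_lit 43502318328160976895))) (P (nat_lit 0))))) (T.h (T.h (P (nat_lit 0)) (T.h (T.h (P (nat_lit 2389731705158014861312)) (T.h (P (nat_lit 0)) (P (nat_lit 13085180765306880)))) (T.h (P (nat_lit 0)) (P (nat_lit 84716766919393280))))) (T.h (T.h (T.h (P (nat_lit 0)) (M (nat_lit 2922520119437426687))) (P (nat_lit 0))) (T.h (T.h (P (nat_lit 0)) (P (nat_lit 737280053051392))) (P (nat_lit 0))))))), (P (nat_lit 0))]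
def lQp_40 : List (T ℤ) := [(P (nat_lit 0)), (P (nat_lit 0)), (P (nat_lit 0)), (P (nat_lit 0)), (T.h (T.h (P (nat_lit 0)) (T.h (T.h (P (nat_lit 0)) (T.h (M (nat_lit 5308504745692747890950143)) (T.h (P (nat_lit 0)) (M (nat_lit 14637703011229499391))))) (T.h (P (nat_lit 0)) (T.h (T.h (P (nat_lit 0)) (M (nat_lit 14637703011229499391))) (P (nat_lit 0)))))) (T.h (T.h (T.h (P (nat_lit 5327367447308101761250623488)) (T.h (P (nat_lit 0)) (T.h (P (nat_lit 10353613219124626849792)) (T.h (P (nat_lit 0)) (P (nat_lit 46361229398966272)))))) (T.h (P (nat_lit 0)) (T.h (T.h (P (nat_lit 10353613219124626849792)) (T.h (P (nat_lit 0)) (P (nat_lit 414807634083840)))) (T.h (P (nat_lit 0)) (P (nat_lit 46361229398966272)))))) (T.h (T.h (P (nat_lit 0)) (T.h (T.h (P (nat_lit 0)) (P (nat_lit 10827735736636145664))) (P (nat_lit 0)))) (T.h (T.h (T.h (M (nat_lit 11388161166645179449343)) (T.h (P (nat_lit 0)) (M (nat_lit 18332168273657855)))) (T.h (P (nat_lit 0)) (M (nat_lit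 18332168273657855)))) (T.h (P (nat_lit 0)) (M (nat_lit 2424986506887167))))))), (P (nat_lit 0)), (P (nat_lit 0)), (P (nat_lit 0))]
def lQp_41 : List (T ℤ) := [(P (nat_lit 0)), (P (nat_lit 0)), (P (nat_lit 0)), (P (nat_lit 0)), (P (nat_lit 0)), (P (nat_lit 0))]

def CQp : List (T ℤ) := lQp_0 ++ (lQp_1 ++ (lQp_2 ++ (lQp_3 ++ (lQp_4 ++ (lQp_5 ++ (lQp_6 ++ (lQp_7 ++ (lQp_8 ++ (lQp_9 ++ (lQp_10 ++ (lQp_11 ++ (lQp_12 ++ (lQp_13 ++ (lQp_14 ++ (lQp_15 ++ (lQp_16 ++ (lQp_17 ++ (lQp_18 ++ (lQp_19 ++ (lQp_20 ++ (lQp_21 ++ (lQp_22 ++ (lQp_23 ++ (lQp_24 ++ (lQp_25 ++ (lQp_26 ++ (lQp_27 ++ (lQp_28 ++ (lQp_29 ++ (lQp_30 ++ (lQp_31 ++ (lQp_32 ++ (lQp_33 ++ (lQp_34 ++ (lQp_35 ++ (lQp_36 ++ (lQp_37 ++ (lQp_38 ++ (lQp_39 ++ (lQp_40 ++ (lQp_41)))))))))))))))))))))))))))))))))))))))))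

/-- norms at radius 1536 -/
def NQp : List ℕ := [(nat_lit 5034231565398356583608483840000), (nat_lit 0), (nat_lit 3944403173466429280284618893819904), (nat_lit 18795286955856592855533575125073920), (nat_lit 6179952440823717228289139341787136), (nat_lit 18603970328876085451328140846563328), (nat_lit 1490753395256961924432558808891392), (nat_lit 0), (nat_lit 0), (nat_lit 0), (nat_lit 2463722692001169204094395029127168), (nat_lit 5873046811650576590350449471651840), (nat_lit 8229686736404985590623826991906816), (nat_lit 6520045788939133378288814187872256), (nat_lit 6521345579313661719493692610314240), (nat_lit 0), (nat_lit 0), (nat_lit 0), (nat_lit 2194633067652538021880401338826752), (nat_lit 8005463202212165111805819280687104), (nat_lit 8474030688887425533242636884770816), (nat_lit 25195574782768259537391560951857152), (nat_lit 2597724830614576168184769140490240), (nat_lit 0), (nat_lit 0), (nat_lit 2194633067652538021880401338826752), (nat_lit 9233470805663875743067429304008704),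 (nat_lit 8643083247178517006327577090981888), (nat_lit 15058482677984944135874584434966528), (nat_lit 10360602026175524279714487969251328), (nat_lit 0), (nat_lit 0), (nat_lit 2463722692001169204094395029127168), (nat_lit 8005463202212165111805819280687104), (nat_lit 8643083247178517006327577090981888), (nat_lit 21277403253097845206545477817860096), (nat_lit 5860242875994006585834733433782272), (nat_lit 0), (nat_lit 0), (nat_lit 3944403173466429280284618893819904), (nat_lit 5873046811650576590350449471651840), (nat_lit 8474030688887425533242636884770816), (nat_lit 15058482677984944135874584434966528), (nat_lit 5860242875994006585834733433782272), (nat_lit 0), (nat_lit 0), (nat_lit 18795286955856592855533575125073920), (nat_lit 8229686736404985590623826991906816), (nat_lit 25195574782768259537391560951857152), (nat_lit 10360602026175524279714487969251328), (nat_lit 0), (nat_lit 0), (nat_lit 6179952440823717228289139341787136), (nat_lit 6520045788939133378288814187872256),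 (nat_lit 2597724830614576168184769140490240), (nat_lit 0), (nat_lit 0), (nat_lit 18603970328876085451328140846563328), (nat_lit 6521345579313661719493692610314240), (nat_lit 0), (nat_lit 0), (nat_lit 1490753395256961924432558808891392), (nat_lit 0), (nat_lit 0), (nat_lit 0), (nat_lit 0), (nat_lit 0), (nat_lit 2463722692001169204094395029127168), (nat_lit 5873046811650576590350449471651840), (nat_lit 8229686736404985590623826991906816), (nat_lit 6520045788939133378288814187872256), (nat_lit 6521345579313661719493692610314240), (nat_lit 0), (nat_lit 0), (nat_lit 908635490858690550835354156400640), (nat_lit 3796462840723197202084518338494464), (nat_lit 9708284658782236558325851793391616), (nat_lit 10044406232669911688819844254269440), (nat_lit 4323468627024796083222887440318464), (nat_lit 0), (nat_lit 0), (nat_lit 1426970292683996101794386744967168), (nat_lit 5352390926364134820428080402661376), (nat_lit 9258319273240399338902198918578176), (nat_lit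 13183860665339456117268548740448256), (nat_lit 8441587529125923319536890406764544), (nat_lit 0), (nat_lit 0), (nat_lit 908635490858690550835354156400640), (nat_lit 5352390926364134820428080402661376), (nat_lit 11676176088445527239552421909757952), (nat_lit 16870219946822922005856760784486400), (nat_lit 6781224102923839309586131817857024), (nat_lit 0), (nat_lit 0), (nat_lit 2463722692001169204094395029127168), (nat_lit 3796462840723197202084518338494464), (nat_lit 9258319273240399338902198918578176), (nat_lit 16870219946822922005856760784486400), (nat_lit 7880726512684543243002803656851456), (nat_lit 0), (nat_lit 0), (nat_lit 5873046811650576590350449471651840), (nat_lit 9708284658782236558325851793391616), (nat_lit 13183860665339456117268548740448256), (nat_lit 6781224102923839309586131817857024), (nat_lit 0), (nat_lit 0), (nat_lit 8229686736404985590623826991906816), (nat_lit 10044406232669911688819844254269440), (nat_lit 8441587529125923319536890406764544),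 (nat_lit 0), (nat_lit 0), (nat_lit 6520045788939133378288814187872256), (nat_lit 4323468627024796083222887440318464), (nat_lit 0), (nat_lit 0), (nat_lit 6521345579313661719493692610314240), (nat_lit 0), (nat_lit 0), (nat_lit 0), (nat_lit 0), (nat_lit 0), (nat_lit 0), (nat_lit 2194633067652538021880401338826752), (nat_lit 8005463202212165111805819280687104), (nat_lit 8474030688887425533242636884770816), (nat_lit 25195574782768259537391560951857152), (nat_lit 2597724830614576168184769140490240), (nat_lit 0), (nat_lit 0), (nat_lit 1426970292683996101794386744967168), (nat_lit 5352390926364134820428080402661376), (nat_lit 9258319273240399338902198918578176), (nat_lit 13183860665339456117268548740448256), (nat_lit 8441587529125923319536890406764544), (nat_lit 0), (nat_lit 0), (nat_lit 1426970292683996101794386744967168), (nat_lit 6355884085239134919920633499353088), (nat_lit 14363218791147873286384212630306816), (nat_lit 29874806028259745852240658585092096),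 (nat_lit 10096307846533176631012970748444672), (nat_lit 0), (nat_lit 0), (nat_lit 2194633067652538021880401338826752), (nat_lit 5352390926364134820428080402661376), (nat_lit 14363218791147873286384212630306816), (nat_lit 34303151267477916318185624401084416), (nat_lit 12025657078116817927497359504179200), (nat_lit 0), (nat_lit 0), (nat_lit 8005463202212165111805819280687104), (nat_lit 9258319273240399338902198918578176), (nat_lit 29874806028259745852240658585092096), (nat_lit 12025657078116817927497359504179200), (nat_lit 0), (nat_lit 0), (nat_lit 8474030688887425533242636884770816), (nat_lit 13183860665339456117268548740448256), (nat_lit 10096307846533176631012970748444672), (nat_lit 0), (nat_lit 0), (nat_lit 25195574782768259537391560951857152), (nat_lit 8441587529125923319536890406764544), (nat_lit 0), (nat_lit 0), (nat_lit 2597724830614576168184769140490240), (nat_lit 0), (nat_lit 0), (nat_lit 0), (nat_lit 0), (nat_lit 0), (nat_lit 2194633067652538021880401338826752),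 (nat_lit 9233470805663875743067429304008704), (nat_lit 8643083247178517006327577090981888), (nat_lit 15058482677984944135874584434966528), (nat_lit 10360602026175524279714487969251328), (nat_lit 0), (nat_lit 0), (nat_lit 908635490858690550835354156400640), (nat_lit 5352390926364134820428080402661376), (nat_lit 11676176088445527239552421909757952), (nat_lit 16870219946822922005856760784486400), (nat_lit 6781224102923839309586131817857024), (nat_lit 0), (nat_lit 0), (nat_lit 2194633067652538021880401338826752), (nat_lit 5352390926364134820428080402661376), (nat_lit 14363218791147873286384212630306816), (nat_lit 34303151267477916318185624401084416), (nat_lit 12025657078116817927497359504179200), (nat_lit 0), (nat_lit 0), (nat_lit 9233470805663875743067429304008704), (nat_lit 11676176088445527239552421909757952), (nat_lit 34303151267477916318185624401084416), (nat_lit 22044641369475036311784609942601728), (nat_lit 0), (nat_lit 0), (nat_lit 8643083247178517006327577090981888),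 (nat_lit 16870219946822922005856760784486400), (nat_lit 12025657078116817927497359504179200), (nat_lit 0), (nat_lit 0), (nat_lit 15058482677984944135874584434966528), (nat_lit 6781224102923839309586131817857024), (nat_lit 0), (nat_lit 0), (nat_lit 10360602026175524279714487969251328), (nat_lit 0), (nat_lit 0), (nat_lit 0), (nat_lit 0), (nat_lit 0), (nat_lit 2463722692001169204094395029127168), (nat_lit 8005463202212165111805819280687104), (nat_lit 8643083247178517006327577090981888), (nat_lit 21277403253097845206545477817860096), (nat_lit 5860242875994006585834733433782272), (nat_lit 0), (nat_lit 0), (nat_lit 2463722692001169204094395029127168), (nat_lit 3796462840723197202084518338494464), (nat_lit 9258319273240399338902198918578176), (nat_lit 16870219946822922005856760784486400), (nat_lit 7880726512684543243002803656851456), (nat_lit 0), (nat_lit 0), (nat_lit 8005463202212165111805819280687104), (nat_lit 9258319273240399338902198918578176), (nat_lit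 29874806028259745852240658585092096), (nat_lit 12025657078116817927497359504179200), (nat_lit 0), (nat_lit 0), (nat_lit 8643083247178517006327577090981888), (nat_lit 16870219946822922005856760784486400), (nat_lit 12025657078116817927497359504179200), (nat_lit 0), (nat_lit 0), (nat_lit 21277403253097845206545477817860096), (nat_lit 7880726512684543243002803656851456), (nat_lit 0), (nat_lit 0), (nat_lit 5860242875994006585834733433782272), (nat_lit 0), (nat_lit 0), (nat_lit 0), (nat_lit 0), (nat_lit 0), (nat_lit 3944403173466429280284618893819904), (nat_lit 5873046811650576590350449471651840), (nat_lit 8474030688887425533242636884770816), (nat_lit 15058482677984944135874584434966528), (nat_lit 5860242875994006585834733433782272), (nat_lit 0), (nat_lit 0), (nat_lit 5873046811650576590350449471651840), (nat_lit 9708284658782236558325851793391616), (nat_lit 13183860665339456117268548740448256), (nat_lit 6781224102923839309586131817857024), (nat_lit 0),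 (nat_lit 0), (nat_lit 8474030688887425533242636884770816), (nat_lit 13183860665339456117268548740448256), (nat_lit 10096307846533176631012970748444672), (nat_lit 0), (nat_lit 0), (nat_lit 15058482677984944135874584434966528), (nat_lit 6781224102923839309586131817857024), (nat_lit 0), (nat_lit 0), (nat_lit 5860242875994006585834733433782272), (nat_lit 0), (nat_lit 0), (nat_lit 0), (nat_lit 0), (nat_lit 0), (nat_lit 18795286955856592855533575125073920), (nat_lit 8229686736404985590623826991906816), (nat_lit 25195574782768259537391560951857152), (nat_lit 10360602026175524279714487969251328), (nat_lit 0), (nat_lit 0), (nat_lit 8229686736404985590623826991906816), (nat_lit 10044406232669911688819844254269440), (nat_lit 8441587529125923319536890406764544), (nat_lit 0), (nat_lit 0), (nat_lit 25195574782768259537391560951857152), (nat_lit 8441587529125923319536890406764544), (nat_lit 0), (nat_lit 0), (nat_lit 10360602026175524279714487969251328), (nat_lit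 0), (nat_lit 0), (nat_lit 0), (nat_lit 0), (nat_lit 0), (nat_lit 6179952440823717228289139341787136), (nat_lit 6520045788939133378288814187872256), (nat_lit 2597724830614576168184769140490240), (nat_lit 0), (nat_lit 0), (nat_lit 6520045788939133378288814187872256), (nat_lit 4323468627024796083222887440318464), (nat_lit 0), (nat_lit 0), (nat_lit 2597724830614576168184769140490240), (nat_lit 0), (nat_lit 0), (nat_lit 0), (nat_lit 0), (nat_lit 0), (nat_lit 18603970328876085451328140846563328), (nat_lit 6521345579313661719493692610314240), (nat_lit 0), (nat_lit 0), (nat_lit 6521345579313661719493692610314240), (nat_lit 0), (nat_lit 0), (nat_lit 0), (nat_lit 0), (nat_lit 0), (nat_lit 1490753395256961924432558808891392), (nat_lit 0), (nat_lit 0), (nat_lit 0), (nat_lit 0), (nat_lit 0), (nat_lit 0), (nat_lit 0), (nat_lit 0), (nat_lit 0)]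


def lQm_0 : List (T ℤ) := [(P (nat_lit 5034231565398356583608483840000)), (P (nat_lit 0)), (T.h (T.h (T.h (P (nat_lit 0)) (T.h (M (nat_lit 10017191180407088564301463551)) (T.h (P (nat_lit 0)) (T.h (P (nat_lit 2249542807684005232640)) (T.h (P (nat_lit 0)) (M (nat_lit 2442926698725375))))))) (T.h (P (nat_lit 0)) (T.h (T.h (P (nat_lit 0)) (T.h (M (nat_lit 25151176110106820476927)) (T.h (P (nat_lit 0)) (P (nat_lit 17031200713637888))))) (T.h (P (nat_lit 0)) (T.h (T.h (P (nat_lit 0)) (M (nat_lit 24686970010140671))) (P (nat_lit 0))))))) (T.h (T.h (P (nat_lit 0)) (T.h (T.h (P (nat_lit 868305541875677324640256)) (T.h (P (nat_lit 0)) (T.h (M (nat_lit 97397380587978751)) (T.h (P (nat_lit 0)) (P (nat_lit 24380342005104)))))) (T.h (P (nat_lit 0)) (T.h (T.h (P (nat_lit 38366446287021146112)) (T.h (P (nat_lit 0)) (M (nat_lit 28156273543703)))) (T.h (P (nat_lit 0)) (P (nat_lit 13573732110456))))))) (T.h (T.h (T.h (P (nat_lit 0)) (T.h (M (nat_lit 25151176110106820476927))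 (T.h (P (nat_lit 0)) (P (nat_lit 17031200713637888))))) (T.h (P (nat_lit 0)) (T.h (T.h (P (nat_lit 0)) (M (nat_lit 8153435818164223))) (P (nat_lit 0))))) (T.h (T.h (P (nat_lit 0)) (T.h (T.h (P (nat_lit 38366446287021146112)) (T.h (P (nat_lit 0)) (M (nat_lit 28156273543703)))) (T.h (P (nat_lit 0)) (P (nat_lit 82900738593680))))) (T.h (T.h (T.h (P (nat_lit 0)) (M (nat_lit 24686970010140671))) (P (nat_lit 0))) (T.h (T.h (P (nat_lit 0)) (P (nat_lit 13573732110456))) (P (nat_lit 0)))))))), (T.h (T.h (T.h (P (nat_lit 99726052038256347958477034881024)) (T.h (P (nat_lit 0)) (T.h (M (nat_lit 12917193599314809325617151)) (T.h (P (nat_lit 0)) (T.h (P (nat_lit 21631471958110502912)) (T.h (P (nat_lit 0)) (P (nat_lit 2914549128000)))))))) (T.h (P (nat_lit 0)) (T.h (T.h (P (nat_lit 12879479387556197198462976)) (T.h (P (nat_lit 0)) (T.h (M (nat_lit 43050933782990290943)) (T.h (P (nat_lit 0)) (P (nat_lit 20467126355184)))))) (T.h (P (nat_lit 0)) (T.h (T.h (P (nat_lit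 19390578843768061952)) (T.h (P (nat_lit 0)) (M (nat_lit 104478078703183)))) (T.h (P (nat_lit 0)) (P (nat_lit 56203593949792)))))))) (T.h (T.h (P (nat_lit 0)) (T.h (T.h (P (nat_lit 0)) (T.h (P (nat_lit 25414173094073549717504)) (T.h (P (nat_lit 0)) (M (nat_lit 77076485201985535))))) (T.h (P (nat_lit 0)) (T.h (T.h (P (nat_lit 0)) (P (nat_lit 85390695730020352))) (P (nat_lit 0)))))) (T.h (T.h (T.h (P (nat_lit 12879479387556197198462976)) (T.h (P (nat_lit 0)) (T.h (M (nat_lit 43050933782990290943)) (T.h (P (nat_lit 0)) (P (nat_lit 20467126355184)))))) (T.h (P (nat_lit 0)) (T.h (T.h (M (nat_lit 163569657816085954559)) (T.h (P (nat_lit 0)) (P (nat_lit 5095877684832)))) (T.h (P (nat_lit 0)) (M (nat_lit 373272336818415)))))) (T.h (T.h (P (nat_lit 0)) (T.h (T.h (P (nat_lit 0)) (P (nat_lit 85390695730020352))) (P (nat_lit 0)))) (T.h (T.h (T.h (P (nat_lit 19390578843768061952)) (T.h (P (nat_lit 0)) (M (nat_lit 104478078703183)))) (T.h (P (nat_lit 0)) (M (nat_lit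 373272336818415)))) (T.h (P (nat_lit 0)) (P (nat_lit 56203593949792)))))))), (T.h (T.h (T.h (P (nat_lit 0)) (T.h (P (nat_lit 15398477962580553354767761408)) (T.h (P (nat_lit 0)) (T.h (M (nat_lit 15035128725152324386815)) (T.h (P (nat_lit 0)) (P (nat_lit 2436278359752704))))))) (T.h (P (nat_lit 0)) (T.h (T.h (P (nat_lit 0)) (T.h (P (nat_lit 34570120424241787568128)) (T.h (P (nat_lit 0)) (M (nat_lit 32946150440730623))))) (T.h (P (nat_lit 0)) (T.h (T.h (P (nat_lit 0)) (P (nat_lit 73782082795405312))) (P (nat_lit 0))))))) (T.h (T.h (P (nat_lit 0)) (T.h (T.h (M (nat_lit 6529010842166020662099967)) (T.h (P (nat_lit 0)) (T.h (P (nat_lit 13935718119319273472)) (T.h (P (nat_lit 0)) (M (nat_lit 53358334410623)))))) (T.h (P (nat_lit 0)) (T.h (T.h (M (nat_lit 52608712282749272063)) (T.h (P (nat_lit 0)) (P (nat_lit 43662999342144)))) (T.h (P (nat_lit 0)) (M (nat_lit 15377323687935))))))) (T.h (T.h (T.h (P (nat_lit 0)) (T.h (P (nat_lit 34570120424241787568128))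 (T.h (P (nat_lit 0)) (M (nat_lit 32946150440730623))))) (T.h (P (nat_lit 0)) (T.h (T.h (P (nat_lit 0)) (P (nat_lit 1586111751258112))) (P (nat_lit 0))))) (T.h (T.h (P (nat_lit 0)) (T.h (T.h (M (nat_lit 52608712282749272063)) (T.h (P (nat_lit 0)) (P (nat_lit 43662999342144)))) (T.h (P (nat_lit 0)) (M (nat_lit 80852307497215))))) (T.h (T.h (T.h (P (nat_lit 0)) (P (nat_lit 73782082795405312))) (P (nat_lit 0))) (T.h (T.h (P (nat_lit 0)) (M (nat_lit 15377323687935))) (P (nat_lit 0)))))))), (T.h (T.h (T.h (M (nat_lit 104756641487949524293953746108415)) (T.h (P (nat_lit 0)) (T.h (P (nat_lit 12972378171370217360326656)) (T.h (P (nat_lit 0)) (T.h (M (nat_lit 21943154770180046847)) (T.h (P (nat_lit 0)) (M (nat_lit 1776113164223)))))))) (T.h (P (nat_lit 0)) (T.h (T.h (M (nat_lit 12700455064882736074326015)) (T.h (P (nat_lit 0)) (T.h (P (nat_lit 41641252604608512000)) (T.h (P (nat_lit 0)) (M (nat_lit 20140321589711)))))) (T.h (P (nat_lit 0)) (T.h (T.h (M (nat_lit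 19312137227118575615)) (T.h (P (nat_lit 0)) (P (nat_lit 101867935691088)))) (T.h (P (nat_lit 0)) (M (nat_lit 56803544022671)))))))) (T.h (T.h (P (nat_lit 0)) (T.h (T.h (P (nat_lit 0)) (T.h (M (nat_lit 21864202026945664253951)) (T.h (P (nat_lit 0)) (P (nat_lit 70499875456942080))))) (T.h (P (nat_lit 0)) (T.h (T.h (P (nat_lit 0)) (M (nat_lit 86681298974244863))) (P (nat_lit 0)))))) (T.h (T.h (T.h (M (nat_lit 12700455064882736074326015)) (T.h (P (nat_lit 0)) (T.h (P (nat_lit 41641252604608512000)) (T.h (P (nat_lit 0)) (M (nat_lit 20140321589711)))))) (T.h (P (nat_lit 0)) (T.h (T.h (P (nat_lit 165826099962076725248)) (T.h (P (nat_lit 0)) (P (nat_lit 911442555360)))) (T.h (P (nat_lit 0)) (P (nat_lit 372699232900704)))))) (T.h (T.h (P (nat_lit 0)) (T.h (T.h (P (nat_lit 0)) (M (nat_lit 86681298974244863))) (P (nat_lit 0)))) (T.h (T.h (T.h (M (nat_lit 19312137227118575615)) (T.h (P (nat_lit 0)) (P (nat_lit 101867935691088)))) (T.h (P (nat_lit 0)) (P (nat_lit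 372699232900704)))) (T.h (P (nat_lit 0)) (M (nat_lit 56803544022671)))))))), (T.h (T.h (T.h (P (nat_lit 0)) (T.h (M (nat_lit 5327367447308101761250623487)) (T.h (P (nat_lit 0)) (T.h (P (nat_lit 11388161166645179449344)) (T.h (P (nat_lit 0)) (P (nat_lit 2424986506887168))))))) (T.h (P (nat_lit 0)) (T.h (T.h (P (nat_lit 0)) (T.h (M (nat_lit 10353613219124626849791)) (T.h (P (nat_lit 0)) (P (nat_lit 18332168273657856))))) (T.h (P (nat_lit 0)) (T.h (T.h (P (nat_lit 0)) (M (nat_lit 46361229398966271))) (P (nat_lit 0))))))) (T.h (T.h (P (nat_lit 0)) (T.h (T.h (P (nat_lit 5308504745692747890950144)) (T.h (P (nat_lit 0)) (M (nat_lit 10827735736636145663)))) (T.h (P (nat_lit 0)) (P (nat_lit 14637703011229499392))))) (T.h (T.h (T.h (P (nat_lit 0)) (T.h (M (nat_lit 10353613219124626849791)) (T.h (P (nat_lit 0)) (P (nat_lit 18332168273657856))))) (T.h (P (nat_lit 0)) (T.h (T.h (P (nat_lit 0)) (M (nat_lit 414807634083839))) (P (nat_lit 0))))) (T.h (T.h (P (nat_lit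 0)) (P (nat_lit 14637703011229499392))) (T.h (T.h (T.h (P (nat_lit 0)) (M (nat_lit 46361229398966271))) (P (nat_lit 0))) (P (nat_lit 0))))))), (P (nat_lit 0))]
def lQm_1 : List (T ℤ) := [(P (nat_lit 0)), (P (nat_lit 0)), (T.h (T.h (P (nat_lit 0)) (T.h (T.h (M (nat_lit 1336912724198935606375481343)) (T.h (P (nat_lit 0)) (T.h (M (nat_lit 14528311290590639685631)) (T.h (P (nat_lit 0)) (M (nat_lit 1098191121285119)))))) (T.h (P (nat_lit 0)) (T.h (T.h (P (nat_lit 16607238043340504039424)) (T.h (P (nat_lit 0)) (P (nat_lit 31286343396327424)))) (T.h (P (nat_lit 0)) (P (nat_lit 14287706602635264))))))) (T.h (T.h (T.h (P (nat_lit 0)) (T.h (M (nat_lit 7711323027092271844556799)) (T.h (P (nat_lit 0)) (T.h (P (nat_lit 1941185707053678592)) (T.h (P (nat_lit 0)) (P (nat_lit 10067002337968))))))) (T.h (P (nat_lit 0)) (T.h (T.h (P (nat_lit 0)) (T.h (M (nat_lit 16284901690493108223)) (T.h (P (nat_lit 0)) (M (nat_lit 12711245874063))))) (T.h (P (nat_lit 0)) (T.h (T.h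 (P (nat_lit 0)) (M (nat_lit 20176616691847))) (P (nat_lit 0))))))) (T.h (T.h (P (nat_lit 0)) (T.h (T.h (P (nat_lit 9934466073729626537984)) (T.h (P (nat_lit 0)) (P (nat_lit 17872552192311296)))) (T.h (P (nat_lit 0)) (P (nat_lit 32654557935075328))))) (T.h (T.h (T.h (P (nat_lit 0)) (T.h (M (nat_lit 17975258696120270847)) (T.h (P (nat_lit 0)) (P (nat_lit 13950046079656))))) (T.h (P (nat_lit 0)) (T.h (T.h (P (nat_lit 0)) (P (nat_lit 18669837897144))) (P (nat_lit 0))))) (T.h (T.h (P (nat_lit 0)) (P (nat_lit 1253650768494592))) (T.h (T.h (T.h (P (nat_lit 0)) (M (nat_lit 19714268702255))) (P (nat_lit 0))) (P (nat_lit 0)))))))), (T.h (T.h (P (nat_lit 0)) (T.h (T.h (P (nat_lit 0)) (T.h (P (nat_lit 26738224194884310258417664)) (T.h (P (nat_lit 0)) (T.h (P (nat_lit 10879051756713541632)) (T.h (P (nat_lit 0)) (M (nat_lit 14450944174591))))))) (T.h (P (nat_lit 0)) (T.h (T.h (P (nat_lit 0)) (T.h (P (nat_lit 7431377113195741184)) (T.h (P (nat_lit 0)) (P (nat_lit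 6020971354256))))) (T.h (P (nat_lit 0)) (T.h (T.h (P (nat_lit 0)) (P (nat_lit 40339979884256))) (P (nat_lit 0)))))))) (T.h (T.h (T.h (P (nat_lit 23735099046155115220969717760)) (T.h (P (nat_lit 0)) (T.h (P (nat_lit 13919576347252589854720)) (T.h (P (nat_lit 0)) (M (nat_lit 42531209117253631)))))) (T.h (P (nat_lit 0)) (T.h (T.h (M (nat_lit 79357771058813610229759)) (T.h (P (nat_lit 0)) (P (nat_lit 14821950289199104)))) (T.h (P (nat_lit 0)) (M (nat_lit 112594984012251135)))))) (T.h (T.h (P (nat_lit 0)) (T.h (T.h (P (nat_lit 0)) (T.h (M (nat_lit 1972893016427331583)) (T.h (P (nat_lit 0)) (M (nat_lit 4144068559599))))) (T.h (P (nat_lit 0)) (T.h (T.h (P (nat_lit 0)) (P (nat_lit 1500860940832))) (P (nat_lit 0)))))) (T.h (T.h (T.h (P (nat_lit 2222835744462361067520)) (T.h (P (nat_lit 0)) (M (nat_lit 57975825390141439)))) (T.h (P (nat_lit 0)) (M (nat_lit 192391894413017087)))) (T.h (T.h (P (nat_lit 0)) (T.h (T.h (P (nat_lit 0)) (P (nat_lit 50708355223312)))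 (P (nat_lit 0)))) (P (nat_lit 21314379690999808))))))), (T.h (T.h (P (nat_lit 0)) (T.h (T.h (M (nat_lit 261693461976339468041322495)) (T.h (P (nat_lit 0)) (T.h (P (nat_lit 12263181683475735379968)) (T.h (P (nat_lit 0)) (P (nat_lit 52709437456547840)))))) (T.h (P (nat_lit 0)) (T.h (T.h (M (nat_lit 36544984058959734243327)) (T.h (P (nat_lit 0)) (P (nat_lit 16066539524325376)))) (T.h (P (nat_lit 0)) (M (nat_lit 92595113484189695))))))) (T.h (T.h (T.h (P (nat_lit 0)) (T.h (P (nat_lit 2396886317862536817410048)) (T.h (P (nat_lit 0)) (T.h (M (nat_lit 329372831294947327)) (T.h (P (nat_lit 0)) (M (nat_lit 11754251825087))))))) (T.h (P (nat_lit 0)) (T.h (T.h (P (nat_lit 0)) (T.h (P (nat_lit 34541195107701358592)) (T.h (P (nat_lit 0)) (P (nat_lit 11941010524992))))) (T.h (P (nat_lit 0)) (T.h (T.h (P (nat_lit 0)) (P (nat_lit 27782914614784))) (P (nat_lit 0))))))) (T.h (T.h (P (nat_lit 0)) (T.h (T.h (P (nat_lit 58005716067570298126336)) (T.h (P (nat_lit 0))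 (M (nat_lit 66179228307161087)))) (T.h (P (nat_lit 0)) (P (nat_lit 307809057127432192))))) (T.h (T.h (T.h (P (nat_lit 0)) (T.h (P (nat_lit 1986026304863993856)) (T.h (P (nat_lit 0)) (M (nat_lit 29851112519423))))) (T.h (P (nat_lit 0)) (T.h (T.h (P (nat_lit 0)) (M (nat_lit 39626086326079))) (P (nat_lit 0))))) (T.h (T.h (P (nat_lit 0)) (P (nat_lit 147754045441376256))) (T.h (T.h (T.h (P (nat_lit 0)) (P (nat_lit 15417053138368))) (P (nat_lit 0))) (P (nat_lit 0)))))))), (T.h (T.h (P (nat_lit 0)) (T.h (T.h (P (nat_lit 0)) (T.h (M (nat_lit 29625130931332275844939775)) (T.h (P (nat_lit 0)) (T.h (M (nat_lit 19032430414556823551)) (T.h (P (nat_lit 0)) (P (nat_lit 8704128682512))))))) (T.h (P (nat_lit 0)) (T.h (T.h (P (nat_lit 0)) (T.h (P (nat_lit 6323371610589888512)) (T.h (P (nat_lit 0)) (M (nat_lit 11727087712703))))) (T.h (P (nat_lit 0)) (T.h (T.h (P (nat_lit 0)) (M (nat_lit 38574100311983))) (P (nat_lit 0)))))))) (T.h (T.h (T.h (M (nat_lit 24801631326153345891410378751))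 (T.h (P (nat_lit 0)) (T.h (M (nat_lit 810895736184433016831)) (T.h (P (nat_lit 0)) (P (nat_lit 21529164191711232)))))) (T.h (P (nat_lit 0)) (T.h (T.h (P (nat_lit 69850975083097497796608)) (T.h (P (nat_lit 0)) (M (nat_lit 41801263281635327)))) (T.h (P (nat_lit 0)) (P (nat_lit 104265922317058048)))))) (T.h (T.h (P (nat_lit 0)) (T.h (T.h (P (nat_lit 0)) (T.h (M (nat_lit 16352020845905838079)) (T.h (P (nat_lit 0)) (P (nat_lit 18560116891440))))) (T.h (P (nat_lit 0)) (T.h (T.h (P (nat_lit 0)) (P (nat_lit 22287634534368))) (P (nat_lit 0)))))) (T.h (T.h (T.h (P (nat_lit 878716978990749319168)) (T.h (P (nat_lit 0)) (P (nat_lit 75654353308729344)))) (T.h (P (nat_lit 0)) (P (nat_lit 198609520576053248)))) (T.h (T.h (P (nat_lit 0)) (T.h (T.h (P (nat_lit 0)) (M (nat_lit 53556555107663))) (P (nat_lit 0)))) (M (nat_lit 14991615373983743))))))), (T.h (T.h (P (nat_lit 0)) (T.h (T.h (P (nat_lit 2431989740396183413638299648)) (T.h (P (nat_lit 0)) (T.h (M (nat_lit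 2389731705158014861311)) (T.h (P (nat_lit 0)) (M (nat_lit 737280053051391)))))) (T.h (P (nat_lit 0)) (T.h (T.h (P (nat_lit 13155666161854431887360)) (T.h (P (nat_lit 0)) (M (nat_lit 84716766919393279)))) (T.h (P (nat_lit 0)) (P (nat_lit 86333522932170752))))))) (T.h (T.h (T.h (P (nat_lit 0)) (T.h (P (nat_lit 2731529024111075150266368)) (T.h (P (nat_lit 0)) (P (nat_lit 2922520119437426688))))) (T.h (P (nat_lit 0)) (T.h (T.h (P (nat_lit 0)) (P (nat_lit 43502318328160976896))) (P (nat_lit 0))))) (T.h (T.h (P (nat_lit 0)) (T.h (T.h (M (nat_lit 67764700985457142398975)) (T.h (P (nat_lit 0)) (M (nat_lit 13085180765306879)))) (T.h (P (nat_lit 0)) (M (nat_lit 344310799049883647))))) (T.h (T.h (T.h (P (nat_lit 0)) (M (nat_lit 14446821862908362751))) (P (nat_lit 0))) (T.h (T.h (P (nat_lit 0)) (M (nat_lit 157432470344531967))) (P (nat_lit 0))))))), (P (nat_lit 0))]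
def lQm_2 : List (T ℤ) := [(P (nat_lit 0)), (P (nat_lit 0)), (T.h (T.h (T.h (P (nat_lit 0)) (T.h (M (nat_lit 4046437473873126187115479039)) (T.h (P (nat_lit 0)) (T.h (P (nat_lit 8629264156460652167168)) (T.h (P (nat_lit 0)) (P (nat_lit 5566547675250688))))))) (T.h (P (nat_lit 0)) (T.h (T.h (P (nat_lit 0)) (T.h (P (nat_lit 35381343235723547901952)) (T.h (P (nat_lit 0)) (P (nat_lit 9534341900369920))))) (T.h (P (nat_lit 0)) (T.h (T.h (P (nat_lit 0)) (P (nat_lit 8045505186660352))) (P (nat_lit 0))))))) (T.h (T.h (P (nat_lit 0)) (T.h (T.h (M (nat_lit 11771323360378338012037119)) (T.h (P (nat_lit 0)) (T.h (M (nat_lit 53348559484627189759)) (T.h (P (nat_lit 0)) (M (nat_lit 8729655611431)))))) (T.h (P (nat_lit 0)) (T.h (T.h (M (nat_lit 7721819484343762943)) (T.h (P (nat_lit 0)) (M (nat_lit 24789354920255)))) (T.h (P (nat_lit 0)) (P (nat_lit 9351027505656))))))) (T.h (T.h (T.h (P (nat_lit 0)) (T.h (P (nat_lit 11058639795145398026240)) (T.h (P (nat_lit 0))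 (P (nat_lit 460861854810112))))) (T.h (P (nat_lit 0)) (T.h (T.h (P (nat_lit 0)) (M (nat_lit 6060853009612799))) (P (nat_lit 0))))) (T.h (T.h (P (nat_lit 0)) (T.h (T.h (M (nat_lit 21742454913363869695)) (T.h (P (nat_lit 0)) (P (nat_lit 22199166475136)))) (T.h (P (nat_lit 0)) (P (nat_lit 23745552648632))))) (T.h (T.h (T.h (P (nat_lit 0)) (M (nat_lit 1899368817328127))) (P (nat_lit 0))) (T.h (T.h (P (nat_lit 0)) (P (nat_lit 4863280810600))) (P (nat_lit 0)))))))), (T.h (T.h (T.h (P (nat_lit 86809079186767951930205203857408)) (T.h (P (nat_lit 0)) (T.h (M (nat_lit 2344628487712069071667199)) (T.h (P (nat_lit 0)) (T.h (M (nat_lit 29021417438497996799)) (T.h (P (nat_lit 0)) (M (nat_lit 15472739090591)))))))) (T.h (P (nat_lit 0)) (T.h (T.h (M (nat_lit 36443918426805068705562623)) (T.h (P (nat_lit 0)) (T.h (M (nat_lit 47842095524028088319)) (T.h (P (nat_lit 0)) (P (nat_lit 28335036564160)))))) (T.h (P (nat_lit 0)) (T.h (T.h (M (nat_lit 61090529252569251839))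 (T.h (P (nat_lit 0)) (M (nat_lit 8128876489663)))) (T.h (P (nat_lit 0)) (M (nat_lit 61045729373567)))))))) (T.h (T.h (P (nat_lit 0)) (T.h (T.h (P (nat_lit 0)) (T.h (P (nat_lit 59848340049032927772672)) (T.h (P (nat_lit 0)) (P (nat_lit 34322871671980032))))) (T.h (P (nat_lit 0)) (T.h (T.h (P (nat_lit 0)) (P (nat_lit 164587619966582784))) (P (nat_lit 0)))))) (T.h (T.h (T.h (P (nat_lit 36031400753696434022252544)) (T.h (P (nat_lit 0)) (T.h (M (nat_lit 16327763553652047871)) (T.h (P (nat_lit 0)) (M (nat_lit 35169845347711)))))) (T.h (P (nat_lit 0)) (T.h (T.h (M (nat_lit 61134090232989220863)) (T.h (P (nat_lit 0)) (M (nat_lit 22178401775167)))) (T.h (P (nat_lit 0)) (M (nat_lit 93345869782831)))))) (T.h (T.h (P (nat_lit 0)) (T.h (T.h (P (nat_lit 0)) (P (nat_lit 3353098598154240))) (P (nat_lit 0)))) (T.h (T.h (T.h (P (nat_lit 58528156815194062848)) (T.h (P (nat_lit 0)) (M (nat_lit 22396963694271)))) (T.h (P (nat_lit 0)) (M (nat_lit 7076939740079)))) (T.h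 (P (nat_lit 0)) (P (nat_lit 32079931261568)))))))), (T.h (T.h (T.h (P (nat_lit 0)) (T.h (P (nat_lit 18765722672698315194899628032)) (T.h (P (nat_lit 0)) (T.h (P (nat_lit 23579592421698636349440)) (T.h (P (nat_lit 0)) (P (nat_lit 12000930136850432))))))) (T.h (P (nat_lit 0)) (T.h (T.h (P (nat_lit 0)) (T.h (M (nat_lit 30521886510044407660543)) (T.h (P (nat_lit 0)) (M (nat_lit 104514075428454399))))) (T.h (P (nat_lit 0)) (T.h (T.h (P (nat_lit 0)) (M (nat_lit 52964942878146559))) (P (nat_lit 0))))))) (T.h (T.h (P (nat_lit 0)) (T.h (T.h (P (nat_lit 24835050078617542714195968)) (T.h (P (nat_lit 0)) (T.h (P (nat_lit 128900549409064878080)) (T.h (P (nat_lit 0)) (M (nat_lit 26860824312191)))))) (T.h (P (nat_lit 0)) (T.h (T.h (P (nat_lit 92842694536798928896)) (T.h (P (nat_lit 0)) (P (nat_lit 63976585455808)))) (T.h (P (nat_lit 0)) (M (nat_lit 22372417272255))))))) (T.h (T.h (T.h (P (nat_lit 0)) (T.h (P (nat_lit 115058167568772116774912)) (T.h (P (nat_lit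 0)) (P (nat_lit 25670652112863232))))) (T.h (P (nat_lit 0)) (T.h (T.h (P (nat_lit 0)) (M (nat_lit 31961302718545919))) (P (nat_lit 0))))) (T.h (T.h (P (nat_lit 0)) (T.h (T.h (P (nat_lit 42386563146822189056)) (T.h (P (nat_lit 0)) (M (nat_lit 6299933357695)))) (T.h (P (nat_lit 0)) (M (nat_lit 141777948044415))))) (T.h (T.h (T.h (P (nat_lit 0)) (P (nat_lit 103189076392050688))) (P (nat_lit 0))) (T.h (T.h (P (nat_lit 0)) (M (nat_lit 3655923658687))) (P (nat_lit 0)))))))), (T.h (T.h (T.h (M (nat_lit 205475608593708555075071942590463)) (T.h (P (nat_lit 0)) (T.h (M (nat_lit 606963566151509353693183)) (T.h (P (nat_lit 0)) (T.h (P (nat_lit 37129636244552155136)) (T.h (P (nat_lit 0)) (P (nat_lit 14645707618464)))))))) (T.h (P (nat_lit 0)) (T.h (T.h (P (nat_lit 30647609676432405136670720)) (T.h (P (nat_lit 0)) (T.h (P (nat_lit 160391609105522884608)) (T.h (P (nat_lit 0)) (M (nat_lit 77309147628143)))))) (T.h (P (nat_lit 0)) (T.h (T.h (P (nat_lit 24552213189067014144))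 (T.h (P (nat_lit 0)) (P (nat_lit 134195146157664)))) (T.h (P (nat_lit 0)) (P (nat_lit 8713460479392)))))))) (T.h (T.h (P (nat_lit 0)) (T.h (T.h (P (nat_lit 0)) (T.h (M (nat_lit 115192297782243615571967)) (T.h (P (nat_lit 0)) (M (nat_lit 20318761883959295))))) (T.h (P (nat_lit 0)) (T.h (T.h (P (nat_lit 0)) (M (nat_lit 300902337197998079))) (P (nat_lit 0)))))) (T.h (T.h (T.h (M (nat_lit 49326294657994179987111935)) (T.h (P (nat_lit 0)) (T.h (P (nat_lit 54087894479375695872)) (T.h (P (nat_lit 0)) (P (nat_lit 26406644853168)))))) (T.h (P (nat_lit 0)) (T.h (T.h (P (nat_lit 211642940836456431616)) (T.h (P (nat_lit 0)) (P (nat_lit 14513604933888)))) (T.h (P (nat_lit 0)) (P (nat_lit 499241730033216)))))) (T.h (T.h (P (nat_lit 0)) (T.h (T.h (P (nat_lit 0)) (M (nat_lit 78731064540430335))) (P (nat_lit 0)))) (T.h (T.h (T.h (M (nat_lit 98340197006326104063)) (T.h (P (nat_lit 0)) (P (nat_lit 133240626359424)))) (T.h (P (nat_lit 0)) (P (nat_lit 352154342018448))))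 (T.h (P (nat_lit 0)) (M (nat_lit 87410689135199)))))))), (T.h (T.h (T.h (P (nat_lit 0)) (T.h (M (nat_lit 5287393795622230931927990271)) (T.h (P (nat_lit 0)) (T.h (M (nat_lit 10997930159462676430847)) (T.h (P (nat_lit 0)) (M (nat_lit 21976945639718911))))))) (T.h (P (nat_lit 0)) (T.h (T.h (P (nat_lit 0)) (T.h (M (nat_lit 37042947306702845771775)) (T.h (P (nat_lit 0)) (P (nat_lit 78374196030734336))))) (T.h (P (nat_lit 0)) (T.h (T.h (P (nat_lit 0)) (M (nat_lit 17184947940786175))) (P (nat_lit 0))))))) (T.h (T.h (P (nat_lit 0)) (T.h (T.h (M (nat_lit 7968129611153399804329983)) (T.h (P (nat_lit 0)) (P (nat_lit 28063542199158046720)))) (T.h (P (nat_lit 0)) (M (nat_lit 28918869486353776639))))) (T.h (T.h (T.h (P (nat_lit 0)) (T.h (M (nat_lit 11470395129475534684159)) (T.h (P (nat_lit 0)) (M (nat_lit 28259372670091263))))) (T.h (P (nat_lit 0)) (T.h (T.h (P (nat_lit 0)) (M (nat_lit 21820328043151359))) (P (nat_lit 0))))) (T.h (T.h (P (nat_lit 0)) (M (nat_lit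 34246235936746635263))) (T.h (T.h (T.h (P (nat_lit 0)) (M (nat_lit 48452197856411647))) (P (nat_lit 0))) (P (nat_lit 0))))))), (P (nat_lit 0))]
def lQm_3 : List (T ℤ) := [(P (nat_lit 0)), (T.h (T.h (P (nat_lit 0)) (T.h (T.h (M (nat_lit 4046437473873126187115479039)) (T.h (P (nat_lit 0)) (T.h (P (nat_lit 35381343235723547901952)) (T.h (P (nat_lit 0)) (P (nat_lit 8045505186660352)))))) (T.h (P (nat_lit 0)) (T.h (T.h (P (nat_lit 8629264156460652167168)) (T.h (P (nat_lit 0)) (P (nat_lit 9534341900369920)))) (T.h (P (nat_lit 0)) (P (nat_lit 5566547675250688))))))) (T.h (T.h (T.h (P (nat_lit 0)) (T.h (M (nat_lit 11771323360378338012037119)) (T.h (P (nat_lit 0)) (T.h (M (nat_lit 7721819484343762943)) (T.h (P (nat_lit 0)) (P (nat_lit 9351027505656))))))) (T.h (P (nat_lit 0)) (T.h (T.h (P (nat_lit 0)) (T.h (M (nat_lit 53348559484627189759)) (T.h (P (nat_lit 0)) (M (nat_lit 24789354920255))))) (T.h (P (nat_lit 0)) (T.h (T.h (P (nat_lit 0)) (M (nat_lit 8729655611431)))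 (P (nat_lit 0))))))) (T.h (T.h (P (nat_lit 0)) (T.h (T.h (P (nat_lit 11058639795145398026240)) (T.h (P (nat_lit 0)) (M (nat_lit 6060853009612799)))) (T.h (P (nat_lit 0)) (P (nat_lit 460861854810112))))) (T.h (T.h (T.h (P (nat_lit 0)) (T.h (M (nat_lit 21742454913363869695)) (T.h (P (nat_lit 0)) (P (nat_lit 23745552648632))))) (T.h (P (nat_lit 0)) (T.h (T.h (P (nat_lit 0)) (P (nat_lit 22199166475136))) (P (nat_lit 0))))) (T.h (T.h (P (nat_lit 0)) (M (nat_lit 1899368817328127))) (T.h (T.h (T.h (P (nat_lit 0)) (P (nat_lit 4863280810600))) (P (nat_lit 0))) (P (nat_lit 0)))))))), (T.h (T.h (P (nat_lit 0)) (T.h (T.h (P (nat_lit 0)) (T.h (M (nat_lit 32853814453015003422261247)) (T.h (P (nat_lit 0)) (T.h (M (nat_lit 46199622579093766143)) (T.h (P (nat_lit 0)) (M (nat_lit 5456481312047))))))) (T.h (P (nat_lit 0)) (T.h (T.h (P (nat_lit 0)) (T.h (M (nat_lit 46199622579093766143)) (T.h (P (nat_lit 0)) (P (nat_lit 48640495562304))))) (T.h (P (nat_lit 0)) (T.h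 (T.h (P (nat_lit 0)) (M (nat_lit 5456481312047))) (P (nat_lit 0)))))))) (T.h (T.h (T.h (P (nat_lit 58407741708197557844689551360)) (T.h (P (nat_lit 0)) (T.h (P (nat_lit 14328093330667368087552)) (T.h (P (nat_lit 0)) (P (nat_lit 95200758005841920)))))) (T.h (P (nat_lit 0)) (T.h (T.h (P (nat_lit 14328093330667368087552)) (T.h (P (nat_lit 0)) (P (nat_lit 381346097611210752)))) (T.h (P (nat_lit 0)) (P (nat_lit 95200758005841920)))))) (T.h (T.h (P (nat_lit 0)) (T.h (T.h (P (nat_lit 0)) (T.h (M (nat_lit 119575697819151892479)) (T.h (P (nat_lit 0)) (M (nat_lit 64596591120223))))) (T.h (P (nat_lit 0)) (T.h (T.h (P (nat_lit 0)) (M (nat_lit 64596591120223))) (P (nat_lit 0)))))) (T.h (T.h (T.h (P (nat_lit 24155213164710625017856)) (T.h (P (nat_lit 0)) (P (nat_lit 4706952372207616)))) (T.h (P (nat_lit 0)) (P (nat_lit 4706952372207616)))) (T.h (T.h (P (nat_lit 0)) (T.h (T.h (P (nat_lit 0)) (P (nat_lit 18546753362336))) (P (nat_lit 0)))) (P (nat_lit 450914590064640))))))),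 (T.h (T.h (P (nat_lit 0)) (T.h (T.h (P (nat_lit 3590745101603317330175066112)) (T.h (P (nat_lit 0)) (T.h (P (nat_lit 63497192389272894701568)) (T.h (P (nat_lit 0)) (M (nat_lit 56846165451276287)))))) (T.h (P (nat_lit 0)) (T.h (T.h (M (nat_lit 20755233146715930361855)) (T.h (P (nat_lit 0)) (M (nat_lit 77251621451530239)))) (T.h (P (nat_lit 0)) (P (nat_lit 58160947801522176))))))) (T.h (T.h (T.h (P (nat_lit 0)) (T.h (M (nat_lit 80418422512579686147555327)) (T.h (P (nat_lit 0)) (T.h (M (nat_lit 59806517900091588607)) (T.h (P (nat_lit 0)) (P (nat_lit 8349296421312))))))) (T.h (P (nat_lit 0)) (T.h (T.h (P (nat_lit 0)) (T.h (M (nat_lit 104085129146604191743)) (T.h (P (nat_lit 0)) (P (nat_lit 42822324891904))))) (T.h (P (nat_lit 0)) (T.h (T.h (P (nat_lit 0)) (P (nat_lit 127027661279104))) (P (nat_lit 0))))))) (T.h (T.h (P (nat_lit 0)) (T.h (T.h (P (nat_lit 124166508171363386130432)) (T.h (P (nat_lit 0)) (M (nat_lit 34854012157460479)))) (T.h (P (nat_lit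 0)) (P (nat_lit 68489507773218816))))) (T.h (T.h (T.h (P (nat_lit 0)) (T.h (M (nat_lit 178498018031653879807)) (T.h (P (nat_lit 0)) (M (nat_lit 19914028257663))))) (T.h (P (nat_lit 0)) (T.h (T.h (P (nat_lit 0)) (M (nat_lit 17335854132351))) (P (nat_lit 0))))) (T.h (T.h (P (nat_lit 0)) (P (nat_lit 36867882448781312))) (T.h (T.h (T.h (P (nat_lit 0)) (M (nat_lit 8739903821823))) (P (nat_lit 0))) (P (nat_lit 0)))))))), (T.h (T.h (P (nat_lit 0)) (T.h (T.h (P (nat_lit 0)) (T.h (P (nat_lit 55057915343755458021163008)) (T.h (P (nat_lit 0)) (T.h (P (nat_lit 161023069026907062272)) (T.h (P (nat_lit 0)) (P (nat_lit 45005981788656))))))) (T.h (P (nat_lit 0)) (T.h (T.h (P (nat_lit 0)) (T.h (P (nat_lit 166545932273294770176)) (T.h (P (nat_lit 0)) (M (nat_lit 35467958383919))))) (T.h (P (nat_lit 0)) (T.h (T.h (P (nat_lit 0)) (M (nat_lit 18638776481903))) (P (nat_lit 0)))))))) (T.h (T.h (T.h (M (nat_lit 86573778126472935022694236159)) (T.h (P (nat_lit 0)) (T.h (M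 (nat_lit 38674386700585597403135)) (T.h (P (nat_lit 0)) (M (nat_lit 1512243294584831)))))) (T.h (P (nat_lit 0)) (T.h (T.h (P (nat_lit 60821576642137342083072)) (T.h (P (nat_lit 0)) (M (nat_lit 556794615299260415)))) (T.h (P (nat_lit 0)) (P (nat_lit 45815686882213888)))))) (T.h (T.h (P (nat_lit 0)) (T.h (T.h (P (nat_lit 0)) (T.h (P (nat_lit 321466405071154577408)) (T.h (P (nat_lit 0)) (P (nat_lit 73574799128352))))) (T.h (P (nat_lit 0)) (T.h (T.h (P (nat_lit 0)) (P (nat_lit 3848439743712))) (P (nat_lit 0)))))) (T.h (T.h (T.h (M (nat_lit 49032214689452727992319)) (T.h (P (nat_lit 0)) (M (nat_lit 33527803763163135)))) (T.h (P (nat_lit 0)) (P (nat_lit 257381685080227840)))) (T.h (T.h (P (nat_lit 0)) (T.h (T.h (P (nat_lit 0)) (M (nat_lit 36795851005967))) (P (nat_lit 0)))) (M (nat_lit 22307162351419391))))))), (T.h (T.h (P (nat_lit 0)) (T.h (T.h (M (nat_lit 485246316002040588049317887)) (T.h (P (nat_lit 0)) (T.h (M (nat_lit 116266967700160330596351))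 (T.h (P (nat_lit 0)) (M (nat_lit 16022553870106623)))))) (T.h (P (nat_lit 0)) (T.h (T.h (M (nat_lit 47953310490409918529535)) (T.h (P (nat_lit 0)) (M (nat_lit 97934611223642111)))) (T.h (P (nat_lit 0)) (M (nat_lit 7655420903981055))))))) (T.h (T.h (T.h (P (nat_lit 0)) (T.h (P (nat_lit 28478335506665354741940224)) (T.h (P (nat_lit 0)) (P (nat_lit 7399312085391245312))))) (T.h (P (nat_lit 0)) (T.h (T.h (P (nat_lit 0)) (P (nat_lit 379707384477398335488))) (P (nat_lit 0))))) (T.h (T.h (P (nat_lit 0)) (T.h (T.h (M (nat_lit 156873228732256518930431)) (T.h (P (nat_lit 0)) (M (nat_lit 56832365739311103)))) (T.h (P (nat_lit 0)) (M (nat_lit 455296650780803071))))) (T.h (T.h (T.h (P (nat_lit 0)) (P (nat_lit 46219789068006326272))) (P (nat_lit 0))) (T.h (T.h (P (nat_lit 0)) (M (nat_lit 151896253560815615))) (P (nat_lit 0))))))), (P (nat_lit 0)), (P (nat_lit 0))]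
def lQm_4 : List (T ℤ) := [(T.h (T.h (T.h (P (nat_lit 0)) (T.h (M (nat_lit 1336912724198935606375481343)) (T.h (P (nat_lit 0)) (T.h (P (nat_lit 16607238043340504039424)) (T.h (P (nat_lit 0)) (P (nat_lit 14287706602635264))))))) (T.h (P (nat_lit 0)) (T.h (T.h (P (nat_lit 0)) (T.h (M (nat_lit 14528311290590639685631)) (T.h (P (nat_lit 0)) (P (nat_lit 31286343396327424))))) (T.h (P (nat_lit 0)) (T.h (T.h (P (nat_lit 0)) (M (nat_lit 1098191121285119))) (P (nat_lit 0))))))) (T.h (T.h (P (nat_lit 0)) (T.h (T.h (M (nat_lit 7711323027092271844556799)) (T.h (P (nat_lit 0)) (T.h (M (nat_lit 16284901690493108223)) (T.h (P (nat_lit 0)) (M (nat_lit 20176616691847)))))) (T.h (P (nat_lit 0)) (T.h (T.h (P (nat_lit 1941185707053678592)) (T.h (P (nat_lit 0)) (M (nat_lit 12711245874063)))) (T.h (P (nat_lit 0)) (P (nat_lit 10067002337968))))))) (T.h (T.h (T.h (P (nat_lit 0)) (T.h (P (nat_lit 9934466073729626537984)) (T.h (P (nat_lit 0)) (P (nat_lit 32654557935075328)))))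 (T.h (P (nat_lit 0)) (T.h (T.h (P (nat_lit 0)) (P (nat_lit 17872552192311296))) (P (nat_lit 0))))) (T.h (T.h (P (nat_lit 0)) (T.h (T.h (M (nat_lit 17975258696120270847)) (T.h (P (nat_lit 0)) (P (nat_lit 18669837897144)))) (T.h (P (nat_lit 0)) (P (nat_lit 13950046079656))))) (T.h (T.h (T.h (P (nat_lit 0)) (P (nat_lit 1253650768494592))) (P (nat_lit 0))) (T.h (T.h (P (nat_lit 0)) (M (nat_lit 19714268702255))) (P (nat_lit 0)))))))), (T.h (T.h (T.h (P (nat_lit 86809079186767951930205203857408)) (T.h (P (nat_lit 0)) (T.h (M (nat_lit 36443918426805068705562623)) (T.h (P (nat_lit 0)) (T.h (M (nat_lit 61090529252569251839)) (T.h (P (nat_lit 0)) (M (nat_lit 61045729373567)))))))) (T.h (P (nat_lit 0)) (T.h (T.h (M (nat_lit 2344628487712069071667199)) (T.h (P (nat_lit 0)) (T.h (M (nat_lit 47842095524028088319)) (T.h (P (nat_lit 0)) (M (nat_lit 8128876489663)))))) (T.h (P (nat_lit 0)) (T.h (T.h (M (nat_lit 29021417438497996799)) (T.h (P (nat_lit 0)) (P (nat_lit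 28335036564160)))) (T.h (P (nat_lit 0)) (M (nat_lit 15472739090591)))))))) (T.h (T.h (P (nat_lit 0)) (T.h (T.h (P (nat_lit 0)) (T.h (P (nat_lit 59848340049032927772672)) (T.h (P (nat_lit 0)) (P (nat_lit 164587619966582784))))) (T.h (P (nat_lit 0)) (T.h (T.h (P (nat_lit 0)) (P (nat_lit 34322871671980032))) (P (nat_lit 0)))))) (T.h (T.h (T.h (P (nat_lit 36031400753696434022252544)) (T.h (P (nat_lit 0)) (T.h (M (nat_lit 61134090232989220863)) (T.h (P (nat_lit 0)) (M (nat_lit 93345869782831)))))) (T.h (P (nat_lit 0)) (T.h (T.h (M (nat_lit 16327763553652047871)) (T.h (P (nat_lit 0)) (M (nat_lit 22178401775167)))) (T.h (P (nat_lit 0)) (M (nat_lit 35169845347711)))))) (T.h (T.h (P (nat_lit 0)) (T.h (T.h (P (nat_lit 0)) (P (nat_lit 3353098598154240))) (P (nat_lit 0)))) (T.h (T.h (T.h (P (nat_lit 58528156815194062848)) (T.h (P (nat_lit 0)) (M (nat_lit 7076939740079)))) (T.h (P (nat_lit 0)) (M (nat_lit 22396963694271)))) (T.h (P (nat_lit 0)) (P (nat_lit 32079931261568)))))))),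 (T.h (T.h (T.h (P (nat_lit 0)) (T.h (P (nat_lit 3590745101603317330175066112)) (T.h (P (nat_lit 0)) (T.h (M (nat_lit 20755233146715930361855)) (T.h (P (nat_lit 0)) (P (nat_lit 58160947801522176))))))) (T.h (P (nat_lit 0)) (T.h (T.h (P (nat_lit 0)) (T.h (P (nat_lit 63497192389272894701568)) (T.h (P (nat_lit 0)) (M (nat_lit 77251621451530239))))) (T.h (P (nat_lit 0)) (T.h (T.h (P (nat_lit 0)) (M (nat_lit 56846165451276287))) (P (nat_lit 0))))))) (T.h (T.h (P (nat_lit 0)) (T.h (T.h (M (nat_lit 80418422512579686147555327)) (T.h (P (nat_lit 0)) (T.h (M (nat_lit 104085129146604191743)) (T.h (P (nat_lit 0)) (P (nat_lit 127027661279104)))))) (T.h (P (nat_lit 0)) (T.h (T.h (M (nat_lit 59806517900091588607)) (T.h (P (nat_lit 0)) (P (nat_lit 42822324891904)))) (T.h (P (nat_lit 0)) (P (nat_lit 8349296421312))))))) (T.h (T.h (T.h (P (nat_lit 0)) (T.h (P (nat_lit 124166508171363386130432)) (T.h (P (nat_lit 0)) (P (nat_lit 68489507773218816))))) (T.h (P (nat_lit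 0)) (T.h (T.h (P (nat_lit 0)) (M (nat_lit 34854012157460479))) (P (nat_lit 0))))) (T.h (T.h (P (nat_lit 0)) (T.h (T.h (M (nat_lit 178498018031653879807)) (T.h (P (nat_lit 0)) (M (nat_lit 17335854132351)))) (T.h (P (nat_lit 0)) (M (nat_lit 19914028257663))))) (T.h (T.h (T.h (P (nat_lit 0)) (P (nat_lit 36867882448781312))) (P (nat_lit 0))) (T.h (T.h (P (nat_lit 0)) (M (nat_lit 8739903821823))) (P (nat_lit 0)))))))), (T.h (T.h (T.h (M (nat_lit 205350043513454281615841085620223)) (T.h (P (nat_lit 0)) (T.h (P (nat_lit 75599948516729912213635072)) (T.h (P (nat_lit 0)) (T.h (P (nat_lit 64015524220947660800)) (T.h (P (nat_lit 0)) (P (nat_lit 75877149067776)))))))) (T.h (P (nat_lit 0)) (T.h (T.h (P (nat_lit 75599948516729912213635072)) (T.h (P (nat_lit 0)) (T.h (P (nat_lit 269115735241874472960)) (T.h (P (nat_lit 0)) (P (nat_lit 43617723863328)))))) (T.h (P (nat_lit 0)) (T.h (T.h (P (nat_lit 64015524220947660800)) (T.h (P (nat_lit 0)) (P (nat_lit 43617723863328))))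 (T.h (P (nat_lit 0)) (P (nat_lit 75877149067776)))))))) (T.h (T.h (P (nat_lit 0)) (T.h (T.h (P (nat_lit 0)) (T.h (M (nat_lit 391552516520223247958015)) (T.h (P (nat_lit 0)) (M (nat_lit 351998504184446975))))) (T.h (P (nat_lit 0)) (T.h (T.h (P (nat_lit 0)) (M (nat_lit 351998504184446975))) (P (nat_lit 0)))))) (T.h (T.h (T.h (M (nat_lit 19719680482569520888676351)) (T.h (P (nat_lit 0)) (T.h (P (nat_lit 25093411247801499648)) (T.h (P (nat_lit 0)) (P (nat_lit 73651491357984)))))) (T.h (P (nat_lit 0)) (T.h (T.h (P (nat_lit 25093411247801499648)) (T.h (P (nat_lit 0)) (P (nat_lit 43934860796544)))) (T.h (P (nat_lit 0)) (P (nat_lit 73651491357984)))))) (T.h (T.h (P (nat_lit 0)) (T.h (T.h (P (nat_lit 0)) (M (nat_lit 210496298919526399))) (P (nat_lit 0)))) (T.h (T.h (T.h (M (nat_lit 74665272753331896319)) (T.h (P (nat_lit 0)) (P (nat_lit 74071766674224)))) (T.h (P (nat_lit 0)) (P (nat_lit 74071766674224)))) (T.h (P (nat_lit 0)) (M (nat_lit 70822787459903)))))))),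 (T.h (T.h (T.h (P (nat_lit 0)) (T.h (M (nat_lit 11248579222122020348964634623)) (T.h (P (nat_lit 0)) (T.h (M (nat_lit 47210703150660263608319)) (T.h (P (nat_lit 0)) (M (nat_lit 113838962049777663))))))) (T.h (P (nat_lit 0)) (T.h (T.h (P (nat_lit 0)) (T.h (M (nat_lit 251163479293727797673983)) (T.h (P (nat_lit 0)) (M (nat_lit 15489028619730943))))) (T.h (P (nat_lit 0)) (T.h (T.h (P (nat_lit 0)) (P (nat_lit 1355874914500608))) (P (nat_lit 0))))))) (T.h (T.h (P (nat_lit 0)) (T.h (T.h (P (nat_lit 33206684731157785694175232)) (T.h (P (nat_lit 0)) (P (nat_lit 352605878129642176512)))) (T.h (P (nat_lit 0)) (P (nat_lit 274170867548684288))))) (T.h (T.h (T.h (P (nat_lit 0)) (T.h (M (nat_lit 110268998513681254842367)) (T.h (P (nat_lit 0)) (M (nat_lit 83781578424385535))))) (T.h (P (nat_lit 0)) (T.h (T.h (P (nat_lit 0)) (M (nat_lit 22622444845334527))) (P (nat_lit 0))))) (T.h (T.h (P (nat_lit 0)) (M (nat_lit 13623357689722568703))) (T.h (T.h (T.h (P (nat_lit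 0)) (M (nat_lit 25337783715266559))) (P (nat_lit 0))) (P (nat_lit 0))))))), (P (nat_lit 0)), (P (nat_lit 0)), (T.h (T.h (P (nat_lit 0)) (T.h (T.h (M (nat_lit 10017191180407088564301463551)) (T.h (P (nat_lit 0)) (T.h (M (nat_lit 25151176110106820476927)) (T.h (P (nat_lit 0)) (M (nat_lit 24686970010140671)))))) (T.h (P (nat_lit 0)) (T.h (T.h (P (nat_lit 2249542807684005232640)) (T.h (P (nat_lit 0)) (P (nat_lit 17031200713637888)))) (T.h (P (nat_lit 0)) (M (nat_lit 2442926698725375))))))) (T.h (T.h (T.h (P (nat_lit 0)) (T.h (P (nat_lit 868305541875677324640256)) (T.h (P (nat_lit 0)) (T.h (P (nat_lit 38366446287021146112)) (T.h (P (nat_lit 0)) (P (nat_lit 13573732110456))))))) (T.h (P (nat_lit 0)) (T.h (T.h (P (nat_lit 0)) (T.h (M (nat_lit 97397380587978751)) (T.h (P (nat_lit 0)) (M (nat_lit 28156273543703))))) (T.h (P (nat_lit 0)) (T.h (T.h (P (nat_lit 0)) (P (nat_lit 24380342005104))) (P (nat_lit 0))))))) (T.h (T.h (P (nat_lit 0)) (T.h (T.h (M (nat_lit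 25151176110106820476927)) (T.h (P (nat_lit 0)) (M (nat_lit 8153435818164223)))) (T.h (P (nat_lit 0)) (P (nat_lit 17031200713637888))))) (T.h (T.h (T.h (P (nat_lit 0)) (T.h (P (nat_lit 38366446287021146112)) (T.h (P (nat_lit 0)) (P (nat_lit 82900738593680))))) (T.h (P (nat_lit 0)) (T.h (T.h (P (nat_lit 0)) (M (nat_lit 28156273543703))) (P (nat_lit 0))))) (T.h (T.h (P (nat_lit 0)) (M (nat_lit 24686970010140671))) (T.h (T.h (T.h (P (nat_lit 0)) (P (nat_lit 13573732110456))) (P (nat_lit 0))) (P (nat_lit 0))))))))]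
def lQm_5 : List (T ℤ) := [(T.h (T.h (P (nat_lit 0)) (T.h (T.h (P (nat_lit 0)) (T.h (P (nat_lit 26738224194884310258417664)) (T.h (P (nat_lit 0)) (T.h (P (nat_lit 7431377113195741184)) (T.h (P (nat_lit 0)) (P (nat_lit 40339979884256))))))) (T.h (P (nat_lit 0)) (T.h (T.h (P (nat_lit 0)) (T.h (P (nat_lit 10879051756713541632)) (T.h (P (nat_lit 0)) (P (nat_lit 6020971354256))))) (T.h (P (nat_lit 0)) (T.h (T.h (P (nat_lit 0)) (M (nat_lit 14450944174591))) (P (nat_lit 0)))))))) (T.h (T.h (T.h (P (nat_lit 23735099046155115220969717760)) (T.h (P (nat_lit 0)) (T.h (M (nat_lit 79357771058813610229759)) (T.h (P (nat_lit 0)) (M (nat_lit 112594984012251135)))))) (T.h (P (nat_lit 0)) (T.h (T.h (P (nat_lit 13919576347252589854720)) (T.h (P (nat_lit 0)) (P (nat_lit 14821950289199104)))) (T.h (P (nat_lit 0)) (M (nat_lit 42531209117253631)))))) (T.h (T.h (P (nat_lit 0)) (T.h (T.h (P (nat_lit 0)) (T.h (M (nat_lit 1972893016427331583)) (T.h (P (nat_lit 0)) (P (nat_lit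 1500860940832))))) (T.h (P (nat_lit 0)) (T.h (T.h (P (nat_lit 0)) (M (nat_lit 4144068559599))) (P (nat_lit 0)))))) (T.h (T.h (T.h (P (nat_lit 2222835744462361067520)) (T.h (P (nat_lit 0)) (M (nat_lit 192391894413017087)))) (T.h (P (nat_lit 0)) (M (nat_lit 57975825390141439)))) (T.h (T.h (P (nat_lit 0)) (T.h (T.h (P (nat_lit 0)) (P (nat_lit 50708355223312))) (P (nat_lit 0)))) (P (nat_lit 21314379690999808))))))), (T.h (T.h (P (nat_lit 0)) (T.h (T.h (P (nat_lit 18765722672698315194899628032)) (T.h (P (nat_lit 0)) (T.h (M (nat_lit 30521886510044407660543)) (T.h (P (nat_lit 0)) (M (nat_lit 52964942878146559)))))) (T.h (P (nat_lit 0)) (T.h (T.h (P (nat_lit 23579592421698636349440)) (T.h (P (nat_lit 0)) (M (nat_lit 104514075428454399)))) (T.h (P (nat_lit 0)) (P (nat_lit 12000930136850432))))))) (T.h (T.h (T.h (P (nat_lit 0)) (T.h (P (nat_lit 24835050078617542714195968)) (T.h (P (nat_lit 0)) (T.h (P (nat_lit 92842694536798928896)) (T.h (P (nat_lit 0)) (M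 (nat_lit 22372417272255))))))) (T.h (P (nat_lit 0)) (T.h (T.h (P (nat_lit 0)) (T.h (P (nat_lit 128900549409064878080)) (T.h (P (nat_lit 0)) (P (nat_lit 63976585455808))))) (T.h (P (nat_lit 0)) (T.h (T.h (P (nat_lit 0)) (M (nat_lit 26860824312191))) (P (nat_lit 0))))))) (T.h (T.h (P (nat_lit 0)) (T.h (T.h (P (nat_lit 115058167568772116774912)) (T.h (P (nat_lit 0)) (M (nat_lit 31961302718545919)))) (T.h (P (nat_lit 0)) (P (nat_lit 25670652112863232))))) (T.h (T.h (T.h (P (nat_lit 0)) (T.h (P (nat_lit 42386563146822189056)) (T.h (P (nat_lit 0)) (M (nat_lit 141777948044415))))) (T.h (P (nat_lit 0)) (T.h (T.h (P (nat_lit 0)) (M (nat_lit 6299933357695))) (P (nat_lit 0))))) (T.h (T.h (P (nat_lit 0)) (P (nat_lit 103189076392050688))) (T.h (T.h (T.h (P (nat_lit 0)) (M (nat_lit 3655923658687))) (P (nat_lit 0))) (P (nat_lit 0)))))))), (T.h (T.h (P (nat_lit 0)) (T.h (T.h (P (nat_lit 0)) (T.h (P (nat_lit 55057915343755458021163008)) (T.h (P (nat_lit 0)) (T.h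 (P (nat_lit 166545932273294770176)) (T.h (P (nat_lit 0)) (M (nat_lit 18638776481903))))))) (T.h (P (nat_lit 0)) (T.h (T.h (P (nat_lit 0)) (T.h (P (nat_lit 161023069026907062272)) (T.h (P (nat_lit 0)) (M (nat_lit 35467958383919))))) (T.h (P (nat_lit 0)) (T.h (T.h (P (nat_lit 0)) (P (nat_lit 45005981788656))) (P (nat_lit 0)))))))) (T.h (T.h (T.h (M (nat_lit 86573778126472935022694236159)) (T.h (P (nat_lit 0)) (T.h (P (nat_lit 60821576642137342083072)) (T.h (P (nat_lit 0)) (P (nat_lit 45815686882213888)))))) (T.h (P (nat_lit 0)) (T.h (T.h (M (nat_lit 38674386700585597403135)) (T.h (P (nat_lit 0)) (M (nat_lit 556794615299260415)))) (T.h (P (nat_lit 0)) (M (nat_lit 1512243294584831)))))) (T.h (T.h (P (nat_lit 0)) (T.h (T.h (P (nat_lit 0)) (T.h (P (nat_lit 321466405071154577408)) (T.h (P (nat_lit 0)) (P (nat_lit 3848439743712))))) (T.h (P (nat_lit 0)) (T.h (T.h (P (nat_lit 0)) (P (nat_lit 73574799128352))) (P (nat_lit 0)))))) (T.h (T.h (T.h (M (nat_lit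 49032214689452727992319)) (T.h (P (nat_lit 0)) (P (nat_lit 257381685080227840)))) (T.h (P (nat_lit 0)) (M (nat_lit 33527803763163135)))) (T.h (T.h (P (nat_lit 0)) (T.h (T.h (P (nat_lit 0)) (M (nat_lit 36795851005967))) (P (nat_lit 0)))) (M (nat_lit 22307162351419391))))))), (T.h (T.h (P (nat_lit 0)) (T.h (T.h (M (nat_lit 11248579222122020348964634623)) (T.h (P (nat_lit 0)) (T.h (M (nat_lit 251163479293727797673983)) (T.h (P (nat_lit 0)) (P (nat_lit 1355874914500608)))))) (T.h (P (nat_lit 0)) (T.h (T.h (M (nat_lit 47210703150660263608319)) (T.h (P (nat_lit 0)) (M (nat_lit 15489028619730943)))) (T.h (P (nat_lit 0)) (M (nat_lit 113838962049777663))))))) (T.h (T.h (T.h (P (nat_lit 0)) (T.h (P (nat_lit 33206684731157785694175232)) (T.h (P (nat_lit 0)) (P (nat_lit 274170867548684288))))) (T.h (P (nat_lit 0)) (T.h (T.h (P (nat_lit 0)) (P (nat_lit 352605878129642176512))) (P (nat_lit 0))))) (T.h (T.h (P (nat_lit 0)) (T.h (T.h (M (nat_lit 110268998513681254842367))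 (T.h (P (nat_lit 0)) (M (nat_lit 22622444845334527)))) (T.h (P (nat_lit 0)) (M (nat_lit 83781578424385535))))) (T.h (T.h (T.h (P (nat_lit 0)) (M (nat_lit 13623357689722568703))) (P (nat_lit 0))) (T.h (T.h (P (nat_lit 0)) (M (nat_lit 25337783715266559))) (P (nat_lit 0))))))), (P (nat_lit 0)), (P (nat_lit 0)), (T.h (T.h (T.h (P (nat_lit 99726052038256347958477034881024)) (T.h (P (nat_lit 0)) (T.h (P (nat_lit 12879479387556197198462976)) (T.h (P (nat_lit 0)) (T.h (P (nat_lit 19390578843768061952)) (T.h (P (nat_lit 0)) (P (nat_lit 56203593949792)))))))) (T.h (P (nat_lit 0)) (T.h (T.h (M (nat_lit 12917193599314809325617151)) (T.h (P (nat_lit 0)) (T.h (M (nat_lit 43050933782990290943)) (T.h (P (nat_lit 0)) (M (nat_lit 104478078703183)))))) (T.h (P (nat_lit 0)) (T.h (T.h (P (nat_lit 21631471958110502912)) (T.h (P (nat_lit 0)) (P (nat_lit 20467126355184)))) (T.h (P (nat_lit 0)) (P (nat_lit 2914549128000)))))))) (T.h (T.h (P (nat_lit 0)) (T.h (T.h (P (nat_lit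 0)) (T.h (P (nat_lit 25414173094073549717504)) (T.h (P (nat_lit 0)) (P (nat_lit 85390695730020352))))) (T.h (P (nat_lit 0)) (T.h (T.h (P (nat_lit 0)) (M (nat_lit 77076485201985535))) (P (nat_lit 0)))))) (T.h (T.h (T.h (P (nat_lit 12879479387556197198462976)) (T.h (P (nat_lit 0)) (T.h (M (nat_lit 163569657816085954559)) (T.h (P (nat_lit 0)) (M (nat_lit 373272336818415)))))) (T.h (P (nat_lit 0)) (T.h (T.h (M (nat_lit 43050933782990290943)) (T.h (P (nat_lit 0)) (P (nat_lit 5095877684832)))) (T.h (P (nat_lit 0)) (P (nat_lit 20467126355184)))))) (T.h (T.h (P (nat_lit 0)) (T.h (T.h (P (nat_lit 0)) (P (nat_lit 85390695730020352))) (P (nat_lit 0)))) (T.h (T.h (T.h (P (nat_lit 19390578843768061952)) (T.h (P (nat_lit 0)) (M (nat_lit 373272336818415)))) (T.h (P (nat_lit 0)) (M (nat_lit 104478078703183)))) (T.h (P (nat_lit 0)) (P (nat_lit 56203593949792)))))))), (T.h (T.h (T.h (P (nat_lit 0)) (T.h (M (nat_lit 261693461976339468041322495)) (T.h (P (nat_lit 0))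 (T.h (M (nat_lit 36544984058959734243327)) (T.h (P (nat_lit 0)) (M (nat_lit 92595113484189695))))))) (T.h (P (nat_lit 0)) (T.h (T.h (P (nat_lit 0)) (T.h (P (nat_lit 12263181683475735379968)) (T.h (P (nat_lit 0)) (P (nat_lit 16066539524325376))))) (T.h (P (nat_lit 0)) (T.h (T.h (P (nat_lit 0)) (P (nat_lit 52709437456547840))) (P (nat_lit 0))))))) (T.h (T.h (P (nat_lit 0)) (T.h (T.h (P (nat_lit 2396886317862536817410048)) (T.h (P (nat_lit 0)) (T.h (P (nat_lit 34541195107701358592)) (T.h (P (nat_lit 0)) (P (nat_lit 27782914614784)))))) (T.h (P (nat_lit 0)) (T.h (T.h (M (nat_lit 329372831294947327)) (T.h (P (nat_lit 0)) (P (nat_lit 11941010524992)))) (T.h (P (nat_lit 0)) (M (nat_lit 11754251825087))))))) (T.h (T.h (T.h (P (nat_lit 0)) (T.h (P (nat_lit 58005716067570298126336)) (T.h (P (nat_lit 0)) (P (nat_lit 307809057127432192))))) (T.h (P (nat_lit 0)) (T.h (T.h (P (nat_lit 0)) (M (nat_lit 66179228307161087))) (P (nat_lit 0))))) (T.h (T.h (P (nat_lit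 0)) (T.h (T.h (P (nat_lit 1986026304863993856)) (T.h (P (nat_lit 0)) (M (nat_lit 39626086326079)))) (T.h (P (nat_lit 0)) (M (nat_lit 29851112519423))))) (T.h (T.h (T.h (P (nat_lit 0)) (P (nat_lit 147754045441376256))) (P (nat_lit 0))) (T.h (T.h (P (nat_lit 0)) (P (nat_lit 15417053138368))) (P (nat_lit 0))))))))]
def lQm_6 : List (T ℤ) := [(T.h (T.h (T.h (M (nat_lit 205475608593708555075071942590463)) (T.h (P (nat_lit 0)) (T.h (P (nat_lit 30647609676432405136670720)) (T.h (P (nat_lit 0)) (T.h (P (nat_lit 24552213189067014144)) (T.h (P (nat_lit 0)) (P (nat_lit 8713460479392)))))))) (T.h (P (nat_lit 0)) (T.h (T.h (M (nat_lit 606963566151509353693183)) (T.h (P (nat_lit 0)) (T.h (P (nat_lit 160391609105522884608)) (T.h (P (nat_lit 0)) (P (nat_lit 134195146157664)))))) (T.h (P (nat_lit 0)) (T.h (T.h (P (nat_lit 37129636244552155136)) (T.h (P (nat_lit 0)) (M (nat_lit 77309147628143)))) (T.h (P (nat_lit 0)) (P (nat_lit 14645707618464)))))))) (T.h (T.h (P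 (nat_lit 0)) (T.h (T.h (P (nat_lit 0)) (T.h (M (nat_lit 115192297782243615571967)) (T.h (P (nat_lit 0)) (M (nat_lit 300902337197998079))))) (T.h (P (nat_lit 0)) (T.h (T.h (P (nat_lit 0)) (M (nat_lit 20318761883959295))) (P (nat_lit 0)))))) (T.h (T.h (T.h (M (nat_lit 49326294657994179987111935)) (T.h (P (nat_lit 0)) (T.h (P (nat_lit 211642940836456431616)) (T.h (P (nat_lit 0)) (P (nat_lit 499241730033216)))))) (T.h (P (nat_lit 0)) (T.h (T.h (P (nat_lit 54087894479375695872)) (T.h (P (nat_lit 0)) (P (nat_lit 14513604933888)))) (T.h (P (nat_lit 0)) (P (nat_lit 26406644853168)))))) (T.h (T.h (P (nat_lit 0)) (T.h (T.h (P (nat_lit 0)) (M (nat_lit 78731064540430335))) (P (nat_lit 0)))) (T.h (T.h (T.h (M (nat_lit 98340197006326104063)) (T.h (P (nat_lit 0)) (P (nat_lit 352154342018448)))) (T.h (P (nat_lit 0)) (P (nat_lit 133240626359424)))) (T.h (P (nat_lit 0)) (M (nat_lit 87410689135199)))))))), (T.h (T.h (T.h (P (nat_lit 0)) (T.h (M (nat_lit 485246316002040588049317887))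 (T.h (P (nat_lit 0)) (T.h (M (nat_lit 47953310490409918529535)) (T.h (P (nat_lit 0)) (M (nat_lit 7655420903981055))))))) (T.h (P (nat_lit 0)) (T.h (T.h (P (nat_lit 0)) (T.h (M (nat_lit 116266967700160330596351)) (T.h (P (nat_lit 0)) (M (nat_lit 97934611223642111))))) (T.h (P (nat_lit 0)) (T.h (T.h (P (nat_lit 0)) (M (nat_lit 16022553870106623))) (P (nat_lit 0))))))) (T.h (T.h (P (nat_lit 0)) (T.h (T.h (P (nat_lit 28478335506665354741940224)) (T.h (P (nat_lit 0)) (P (nat_lit 379707384477398335488)))) (T.h (P (nat_lit 0)) (P (nat_lit 7399312085391245312))))) (T.h (T.h (T.h (P (nat_lit 0)) (T.h (M (nat_lit 156873228732256518930431)) (T.h (P (nat_lit 0)) (M (nat_lit 455296650780803071))))) (T.h (P (nat_lit 0)) (T.h (T.h (P (nat_lit 0)) (M (nat_lit 56832365739311103))) (P (nat_lit 0))))) (T.h (T.h (P (nat_lit 0)) (P (nat_lit 46219789068006326272))) (T.h (T.h (T.h (P (nat_lit 0)) (M (nat_lit 151896253560815615))) (P (nat_lit 0))) (P (nat_lit 0))))))),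 (P (nat_lit 0)), (P (nat_lit 0)), (T.h (T.h (P (nat_lit 0)) (T.h (T.h (P (nat_lit 15398477962580553354767761408)) (T.h (P (nat_lit 0)) (T.h (P (nat_lit 34570120424241787568128)) (T.h (P (nat_lit 0)) (P (nat_lit 73782082795405312)))))) (T.h (P (nat_lit 0)) (T.h (T.h (M (nat_lit 15035128725152324386815)) (T.h (P (nat_lit 0)) (M (nat_lit 32946150440730623)))) (T.h (P (nat_lit 0)) (P (nat_lit 2436278359752704))))))) (T.h (T.h (T.h (P (nat_lit 0)) (T.h (M (nat_lit 6529010842166020662099967)) (T.h (P (nat_lit 0)) (T.h (M (nat_lit 52608712282749272063)) (T.h (P (nat_lit 0)) (M (nat_lit 15377323687935))))))) (T.h (P (nat_lit 0)) (T.h (T.h (P (nat_lit 0)) (T.h (P (nat_lit 13935718119319273472)) (T.h (P (nat_lit 0)) (P (nat_lit 43662999342144))))) (T.h (P (nat_lit 0)) (T.h (T.h (P (nat_lit 0)) (M (nat_lit 53358334410623))) (P (nat_lit 0))))))) (T.h (T.h (P (nat_lit 0)) (T.h (T.h (P (nat_lit 34570120424241787568128)) (T.h (P (nat_lit 0)) (P (nat_lit 1586111751258112))))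 (T.h (P (nat_lit 0)) (M (nat_lit 32946150440730623))))) (T.h (T.h (T.h (P (nat_lit 0)) (T.h (M (nat_lit 52608712282749272063)) (T.h (P (nat_lit 0)) (M (nat_lit 80852307497215))))) (T.h (P (nat_lit 0)) (T.h (T.h (P (nat_lit 0)) (P (nat_lit 43662999342144))) (P (nat_lit 0))))) (T.h (T.h (P (nat_lit 0)) (P (nat_lit 73782082795405312))) (T.h (T.h (T.h (P (nat_lit 0)) (M (nat_lit 15377323687935))) (P (nat_lit 0))) (P (nat_lit 0)))))))), (T.h (T.h (P (nat_lit 0)) (T.h (T.h (P (nat_lit 0)) (T.h (M (nat_lit 29625130931332275844939775)) (T.h (P (nat_lit 0)) (T.h (P (nat_lit 6323371610589888512)) (T.h (P (nat_lit 0)) (M (nat_lit 38574100311983))))))) (T.h (P (nat_lit 0)) (T.h (T.h (P (nat_lit 0)) (T.h (M (nat_lit 19032430414556823551)) (T.h (P (nat_lit 0)) (M (nat_lit 11727087712703))))) (T.h (P (nat_lit 0)) (T.h (T.h (P (nat_lit 0)) (P (nat_lit 8704128682512))) (P (nat_lit 0)))))))) (T.h (T.h (T.h (M (nat_lit 24801631326153345891410378751)) (T.h (P (nat_lit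 0)) (T.h (P (nat_lit 69850975083097497796608)) (T.h (P (nat_lit 0)) (P (nat_lit 104265922317058048)))))) (T.h (P (nat_lit 0)) (T.h (T.h (M (nat_lit 810895736184433016831)) (T.h (P (nat_lit 0)) (M (nat_lit 41801263281635327)))) (T.h (P (nat_lit 0)) (P (nat_lit 21529164191711232)))))) (T.h (T.h (P (nat_lit 0)) (T.h (T.h (P (nat_lit 0)) (T.h (M (nat_lit 16352020845905838079)) (T.h (P (nat_lit 0)) (P (nat_lit 22287634534368))))) (T.h (P (nat_lit 0)) (T.h (T.h (P (nat_lit 0)) (P (nat_lit 18560116891440))) (P (nat_lit 0)))))) (T.h (T.h (T.h (P (nat_lit 878716978990749319168)) (T.h (P (nat_lit 0)) (P (nat_lit 198609520576053248)))) (T.h (P (nat_lit 0)) (P (nat_lit 75654353308729344)))) (T.h (T.h (P (nat_lit 0)) (T.h (T.h (P (nat_lit 0)) (M (nat_lit 53556555107663))) (P (nat_lit 0)))) (M (nat_lit 14991615373983743))))))), (T.h (T.h (P (nat_lit 0)) (T.h (T.h (M (nat_lit 5287393795622230931927990271)) (T.h (P (nat_lit 0)) (T.h (M (nat_lit 37042947306702845771775))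 (T.h (P (nat_lit 0)) (M (nat_lit 17184947940786175)))))) (T.h (P (nat_lit 0)) (T.h (T.h (M (nat_lit 10997930159462676430847)) (T.h (P (nat_lit 0)) (P (nat_lit 78374196030734336)))) (T.h (P (nat_lit 0)) (M (nat_lit 21976945639718911))))))) (T.h (T.h (T.h (P (nat_lit 0)) (T.h (M (nat_lit 7968129611153399804329983)) (T.h (P (nat_lit 0)) (M (nat_lit 28918869486353776639))))) (T.h (P (nat_lit 0)) (T.h (T.h (P (nat_lit 0)) (P (nat_lit 28063542199158046720))) (P (nat_lit 0))))) (T.h (T.h (P (nat_lit 0)) (T.h (T.h (M (nat_lit 11470395129475534684159)) (T.h (P (nat_lit 0)) (M (nat_lit 21820328043151359)))) (T.h (P (nat_lit 0)) (M (nat_lit 28259372670091263))))) (T.h (T.h (T.h (P (nat_lit 0)) (M (nat_lit 34246235936746635263))) (P (nat_lit 0))) (T.h (T.h (P (nat_lit 0)) (M (nat_lit 48452197856411647))) (P (nat_lit 0))))))), (P (nat_lit 0))]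
def lQm_7 : List (T ℤ) := [(P (nat_lit 0)), (T.h (T.h (T.h (M (nat_lit 104756641487949524293953746108415)) (T.h (P (nat_lit 0)) (T.h (M (nat_lit 12700455064882736074326015)) (T.h (P (nat_lit 0)) (T.h (M (nat_lit 19312137227118575615)) (T.h (P (nat_lit 0)) (M (nat_lit 56803544022671)))))))) (T.h (P (nat_lit 0)) (T.h (T.h (P (nat_lit 12972378171370217360326656)) (T.h (P (nat_lit 0)) (T.h (P (nat_lit 41641252604608512000)) (T.h (P (nat_lit 0)) (P (nat_lit 101867935691088)))))) (T.h (P (nat_lit 0)) (T.h (T.h (M (nat_lit 21943154770180046847)) (T.h (P (nat_lit 0)) (M (nat_lit 20140321589711)))) (T.h (P (nat_lit 0)) (M (nat_lit 1776113164223)))))))) (T.h (T.h (P (nat_lit 0)) (T.h (T.h (P (nat_lit 0)) (T.h (M (nat_lit 21864202026945664253951)) (T.h (P (nat_lit 0)) (M (nat_lit 86681298974244863))))) (T.h (P (nat_lit 0)) (T.h (T.h (P (nat_lit 0)) (P (nat_lit 70499875456942080))) (P (nat_lit 0)))))) (T.h (T.h (T.h (M (nat_lit 12700455064882736074326015)) (T.h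 (P (nat_lit 0)) (T.h (P (nat_lit 165826099962076725248)) (T.h (P (nat_lit 0)) (P (nat_lit 372699232900704)))))) (T.h (P (nat_lit 0)) (T.h (T.h (P (nat_lit 41641252604608512000)) (T.h (P (nat_lit 0)) (P (nat_lit 911442555360)))) (T.h (P (nat_lit 0)) (M (nat_lit 20140321589711)))))) (T.h (T.h (P (nat_lit 0)) (T.h (T.h (P (nat_lit 0)) (M (nat_lit 86681298974244863))) (P (nat_lit 0)))) (T.h (T.h (T.h (M (nat_lit 19312137227118575615)) (T.h (P (nat_lit 0)) (P (nat_lit 372699232900704)))) (T.h (P (nat_lit 0)) (P (nat_lit 101867935691088)))) (T.h (P (nat_lit 0)) (M (nat_lit 56803544022671)))))))), (T.h (T.h (T.h (P (nat_lit 0)) (T.h (P (nat_lit 2431989740396183413638299648)) (T.h (P (nat_lit 0)) (T.h (P (nat_lit 13155666161854431887360)) (T.h (P (nat_lit 0)) (P (nat_lit 86333522932170752))))))) (T.h (P (nat_lit 0)) (T.h (T.h (P (nat_lit 0)) (T.h (M (nat_lit 2389731705158014861311)) (T.h (P (nat_lit 0)) (M (nat_lit 84716766919393279))))) (T.h (P (nat_lit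 0)) (T.h (T.h (P (nat_lit 0)) (M (nat_lit 737280053051391))) (P (nat_lit 0))))))) (T.h (T.h (P (nat_lit 0)) (T.h (T.h (P (nat_lit 2731529024111075150266368)) (T.h (P (nat_lit 0)) (P (nat_lit 43502318328160976896)))) (T.h (P (nat_lit 0)) (P (nat_lit 2922520119437426688))))) (T.h (T.h (T.h (P (nat_lit 0)) (T.h (M (nat_lit 67764700985457142398975)) (T.h (P (nat_lit 0)) (M (nat_lit 344310799049883647))))) (T.h (P (nat_lit 0)) (T.h (T.h (P (nat_lit 0)) (M (nat_lit 13085180765306879))) (P (nat_lit 0))))) (T.h (T.h (P (nat_lit 0)) (M (nat_lit 14446821862908362751))) (T.h (T.h (T.h (P (nat_lit 0)) (M (nat_lit 157432470344531967))) (P (nat_lit 0))) (P (nat_lit 0))))))), (P (nat_lit 0)), (P (nat_lit 0)), (T.h (T.h (P (nat_lit 0)) (T.h (T.h (M (nat_lit 5327367447308101761250623487)) (T.h (P (nat_lit 0)) (T.h (M (nat_lit 10353613219124626849791)) (T.h (P (nat_lit 0)) (M (nat_lit 46361229398966271)))))) (T.h (P (nat_lit 0)) (T.h (T.h (P (nat_lit 11388161166645179449344))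 (T.h (P (nat_lit 0)) (P (nat_lit 18332168273657856)))) (T.h (P (nat_lit 0)) (P (nat_lit 2424986506887168))))))) (T.h (T.h (T.h (P (nat_lit 0)) (T.h (P (nat_lit 5308504745692747890950144)) (T.h (P (nat_lit 0)) (P (nat_lit 14637703011229499392))))) (T.h (P (nat_lit 0)) (T.h (T.h (P (nat_lit 0)) (M (nat_lit 10827735736636145663))) (P (nat_lit 0))))) (T.h (T.h (P (nat_lit 0)) (T.h (T.h (M (nat_lit 10353613219124626849791)) (T.h (P (nat_lit 0)) (M (nat_lit 414807634083839)))) (T.h (P (nat_lit 0)) (P (nat_lit 18332168273657856))))) (T.h (T.h (T.h (P (nat_lit 0)) (P (nat_lit 14637703011229499392))) (P (nat_lit 0))) (T.h (T.h (P (nat_lit 0)) (M (nat_lit 46361229398966271))) (P (nat_lit 0))))))), (P (nat_lit 0)), (P (nat_lit 0))]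
def lQm_8 : List (T ℤ) := [(P (nat_lit 0)), (P (nat_lit 0)), (P (nat_lit 0)), (T.h (T.h (P (nat_lit 0)) (T.h (T.h (P (nat_lit 0)) (T.h (M (nat_lit 7711323027092271844556799)) (T.h (P (nat_lit 0)) (T.h (P (nat_lit 1941185707053678592)) (T.h (P (nat_lit 0)) (P (nat_lit 10067002337968))))))) (T.h (P (nat_lit 0)) (T.h (T.h (P (nat_lit 0)) (T.h (M (nat_lit 17975258696120270847)) (T.h (P (nat_lit 0)) (P (nat_lit 13950046079656))))) (T.h (P (nat_lit 0)) (T.h (T.h (P (nat_lit 0)) (M (nat_lit 19714268702255))) (P (nat_lit 0)))))))) (T.h (T.h (T.h (M (nat_lit 1336912724198935606375481343)) (T.h (P (nat_lit 0)) (T.h (M (nat_lit 14528311290590639685631)) (T.h (P (nat_lit 0)) (M (nat_lit 1098191121285119)))))) (T.h (P (nat_lit 0)) (T.h (T.h (P (nat_lit 9934466073729626537984)) (T.h (P (nat_lit 0)) (P (nat_lit 17872552192311296)))) (T.h (P (nat_lit 0)) (P (nat_lit 1253650768494592)))))) (T.h (T.h (P (nat_lit 0)) (T.h (T.h (P (nat_lit 0)) (T.h (M (nat_lit 16284901690493108223))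 (T.h (P (nat_lit 0)) (M (nat_lit 12711245874063))))) (T.h (P (nat_lit 0)) (T.h (T.h (P (nat_lit 0)) (P (nat_lit 18669837897144))) (P (nat_lit 0)))))) (T.h (T.h (T.h (P (nat_lit 16607238043340504039424)) (T.h (P (nat_lit 0)) (P (nat_lit 31286343396327424)))) (T.h (P (nat_lit 0)) (P (nat_lit 32654557935075328)))) (T.h (T.h (P (nat_lit 0)) (T.h (T.h (P (nat_lit 0)) (M (nat_lit 20176616691847))) (P (nat_lit 0)))) (P (nat_lit 14287706602635264))))))), (T.h (T.h (P (nat_lit 0)) (T.h (T.h (P (nat_lit 23735099046155115220969717760)) (T.h (P (nat_lit 0)) (T.h (P (nat_lit 13919576347252589854720)) (T.h (P (nat_lit 0)) (M (nat_lit 42531209117253631)))))) (T.h (P (nat_lit 0)) (T.h (T.h (P (nat_lit 2222835744462361067520)) (T.h (P (nat_lit 0)) (M (nat_lit 57975825390141439)))) (T.h (P (nat_lit 0)) (P (nat_lit 21314379690999808))))))) (T.h (T.h (T.h (P (nat_lit 0)) (T.h (P (nat_lit 26738224194884310258417664)) (T.h (P (nat_lit 0)) (T.h (P (nat_lit 10879051756713541632))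 (T.h (P (nat_lit 0)) (M (nat_lit 14450944174591))))))) (T.h (P (nat_lit 0)) (T.h (T.h (P (nat_lit 0)) (T.h (M (nat_lit 1972893016427331583)) (T.h (P (nat_lit 0)) (M (nat_lit 4144068559599))))) (T.h (P (nat_lit 0)) (T.h (T.h (P (nat_lit 0)) (P (nat_lit 50708355223312))) (P (nat_lit 0))))))) (T.h (T.h (P (nat_lit 0)) (T.h (T.h (M (nat_lit 79357771058813610229759)) (T.h (P (nat_lit 0)) (P (nat_lit 14821950289199104)))) (T.h (P (nat_lit 0)) (M (nat_lit 192391894413017087))))) (T.h (T.h (T.h (P (nat_lit 0)) (T.h (P (nat_lit 7431377113195741184)) (T.h (P (nat_lit 0)) (P (nat_lit 6020971354256))))) (T.h (P (nat_lit 0)) (T.h (T.h (P (nat_lit 0)) (P (nat_lit 1500860940832))) (P (nat_lit 0))))) (T.h (T.h (P (nat_lit 0)) (M (nat_lit 112594984012251135))) (T.h (T.h (T.h (P (nat_lit 0)) (P (nat_lit 40339979884256))) (P (nat_lit 0))) (P (nat_lit 0)))))))), (T.h (T.h (P (nat_lit 0)) (T.h (T.h (P (nat_lit 0)) (T.h (P (nat_lit 2396886317862536817410048)) (T.h (P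 (nat_lit 0)) (T.h (M (nat_lit 329372831294947327)) (T.h (P (nat_lit 0)) (M (nat_lit 11754251825087))))))) (T.h (P (nat_lit 0)) (T.h (T.h (P (nat_lit 0)) (T.h (P (nat_lit 1986026304863993856)) (T.h (P (nat_lit 0)) (M (nat_lit 29851112519423))))) (T.h (P (nat_lit 0)) (T.h (T.h (P (nat_lit 0)) (P (nat_lit 15417053138368))) (P (nat_lit 0)))))))) (T.h (T.h (T.h (M (nat_lit 261693461976339468041322495)) (T.h (P (nat_lit 0)) (T.h (P (nat_lit 12263181683475735379968)) (T.h (P (nat_lit 0)) (P (nat_lit 52709437456547840)))))) (T.h (P (nat_lit 0)) (T.h (T.h (P (nat_lit 58005716067570298126336)) (T.h (P (nat_lit 0)) (M (nat_lit 66179228307161087)))) (T.h (P (nat_lit 0)) (P (nat_lit 147754045441376256)))))) (T.h (T.h (P (nat_lit 0)) (T.h (T.h (P (nat_lit 0)) (T.h (P (nat_lit 34541195107701358592)) (T.h (P (nat_lit 0)) (P (nat_lit 11941010524992))))) (T.h (P (nat_lit 0)) (T.h (T.h (P (nat_lit 0)) (M (nat_lit 39626086326079))) (P (nat_lit 0)))))) (T.h (T.h (T.h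 (M (nat_lit 36544984058959734243327)) (T.h (P (nat_lit 0)) (P (nat_lit 16066539524325376)))) (T.h (P (nat_lit 0)) (P (nat_lit 307809057127432192)))) (T.h (T.h (P (nat_lit 0)) (T.h (T.h (P (nat_lit 0)) (P (nat_lit 27782914614784))) (P (nat_lit 0)))) (M (nat_lit 92595113484189695))))))), (T.h (T.h (P (nat_lit 0)) (T.h (T.h (M (nat_lit 24801631326153345891410378751)) (T.h (P (nat_lit 0)) (T.h (M (nat_lit 810895736184433016831)) (T.h (P (nat_lit 0)) (P (nat_lit 21529164191711232)))))) (T.h (P (nat_lit 0)) (T.h (T.h (P (nat_lit 878716978990749319168)) (T.h (P (nat_lit 0)) (P (nat_lit 75654353308729344)))) (T.h (P (nat_lit 0)) (M (nat_lit 14991615373983743))))))) (T.h (T.h (T.h (P (nat_lit 0)) (T.h (M (nat_lit 29625130931332275844939775)) (T.h (P (nat_lit 0)) (T.h (M (nat_lit 19032430414556823551)) (T.h (P (nat_lit 0)) (P (nat_lit 8704128682512))))))) (T.h (P (nat_lit 0)) (T.h (T.h (P (nat_lit 0)) (T.h (M (nat_lit 16352020845905838079)) (T.h (P (nat_lit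 0)) (P (nat_lit 18560116891440))))) (T.h (P (nat_lit 0)) (T.h (T.h (P (nat_lit 0)) (M (nat_lit 53556555107663))) (P (nat_lit 0))))))) (T.h (T.h (P (nat_lit 0)) (T.h (T.h (P (nat_lit 69850975083097497796608)) (T.h (P (nat_lit 0)) (M (nat_lit 41801263281635327)))) (T.h (P (nat_lit 0)) (P (nat_lit 198609520576053248))))) (T.h (T.h (T.h (P (nat_lit 0)) (T.h (P (nat_lit 6323371610589888512)) (T.h (P (nat_lit 0)) (M (nat_lit 11727087712703))))) (T.h (P (nat_lit 0)) (T.h (T.h (P (nat_lit 0)) (P (nat_lit 22287634534368))) (P (nat_lit 0))))) (T.h (T.h (P (nat_lit 0)) (P (nat_lit 104265922317058048))) (T.h (T.h (T.h (P (nat_lit 0)) (M (nat_lit 38574100311983))) (P (nat_lit 0))) (P (nat_lit 0)))))))), (T.h (T.h (P (nat_lit 0)) (T.h (T.h (P (nat_lit 0)) (T.h (P (nat_lit 2731529024111075150266368)) (T.h (P (nat_lit 0)) (P (nat_lit 2922520119437426688))))) (T.h (P (nat_lit 0)) (T.h (T.h (P (nat_lit 0)) (M (nat_lit 14446821862908362751))) (P (nat_lit 0)))))) (T.h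 (T.h (T.h (P (nat_lit 2431989740396183413638299648)) (T.h (P (nat_lit 0)) (T.h (M (nat_lit 2389731705158014861311)) (T.h (P (nat_lit 0)) (M (nat_lit 737280053051391)))))) (T.h (P (nat_lit 0)) (T.h (T.h (M (nat_lit 67764700985457142398975)) (T.h (P (nat_lit 0)) (M (nat_lit 13085180765306879)))) (T.h (P (nat_lit 0)) (M (nat_lit 157432470344531967)))))) (T.h (T.h (P (nat_lit 0)) (T.h (T.h (P (nat_lit 0)) (P (nat_lit 43502318328160976896))) (P (nat_lit 0)))) (T.h (T.h (T.h (P (nat_lit 13155666161854431887360)) (T.h (P (nat_lit 0)) (M (nat_lit 84716766919393279)))) (T.h (P (nat_lit 0)) (M (nat_lit 344310799049883647)))) (T.h (P (nat_lit 0)) (P (nat_lit 86333522932170752)))))))]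
def lQm_9 : List (T ℤ) := [(P (nat_lit 0)), (P (nat_lit 0)), (T.h (T.h (T.h (P (nat_lit 0)) (T.h (P (nat_lit 0)) (T.h (P (nat_lit 231600349026101198061568)) (T.h (P (nat_lit 0)) (T.h (P (nat_lit 844542684713451520)) (T.h (P (nat_lit 0)) (P (nat_lit 2001849057248)))))))) (T.h (P (nat_lit 0)) (T.h (T.h (M (nat_lit 3928032781046310399639551)) (T.h (P (nat_lit 0)) (T.h (M (nat_lit 16144163762708938751)) (T.h (P (nat_lit 0)) (P (nat_lit 3214488030464)))))) (T.h (P (nat_lit 0)) (T.h (T.h (P (nat_lit 8649608026065469440)) (T.h (P (nat_lit 0)) (M (nat_lit 493387832047)))) (T.h (P (nat_lit 0)) (P (nat_lit 9660305695472)))))))) (T.h (T.h (P (nat_lit 0)) (T.h (T.h (P (nat_lit 0)) (T.h (M (nat_lit 385480514967894491135)) (T.h (P (nat_lit 0)) (P (nat_lit 391341705789440))))) (T.h (P (nat_lit 0)) (T.h (T.h (P (nat_lit 0)) (P (nat_lit 8812788919631872))) (P (nat_lit 0)))))) (T.h (T.h (T.h (M (nat_lit 3928032781046310399639551)) (T.h (P (nat_lit 0)) (T.h (M (nat_lit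 16144163762708938751)) (T.h (P (nat_lit 0)) (P (nat_lit 3214488030464)))))) (T.h (P (nat_lit 0)) (T.h (T.h (P (nat_lit 5377221110599254016)) (T.h (P (nat_lit 0)) (M (nat_lit 637453984351)))) (T.h (P (nat_lit 0)) (M (nat_lit 1435002260479)))))) (T.h (T.h (P (nat_lit 0)) (T.h (T.h (P (nat_lit 0)) (P (nat_lit 8812788919631872))) (P (nat_lit 0)))) (T.h (T.h (T.h (P (nat_lit 8649608026065469440)) (T.h (P (nat_lit 0)) (M (nat_lit 493387832047)))) (T.h (P (nat_lit 0)) (M (nat_lit 1435002260479)))) (T.h (P (nat_lit 0)) (P (nat_lit 9660305695472)))))))), (T.h (T.h (T.h (P (nat_lit 0)) (T.h (P (nat_lit 939231405214339478568566784)) (T.h (P (nat_lit 0)) (T.h (P (nat_lit 5845085690589601595392)) (T.h (P (nat_lit 0)) (P (nat_lit 5015311072231424))))))) (T.h (P (nat_lit 0)) (T.h (T.h (P (nat_lit 0)) (T.h (P (nat_lit 17027837181526034874368)) (T.h (P (nat_lit 0)) (M (nat_lit 34454543240347647))))) (T.h (P (nat_lit 0)) (T.h (T.h (P (nat_lit 0)) (P (nat_lit 5975307047600128)))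 (P (nat_lit 0))))))) (T.h (T.h (P (nat_lit 0)) (T.h (T.h (M (nat_lit 2299170196782604928155647)) (T.h (P (nat_lit 0)) (T.h (P (nat_lit 19379500169371320320)) (T.h (P (nat_lit 0)) (P (nat_lit 3163502112640)))))) (T.h (P (nat_lit 0)) (T.h (T.h (M (nat_lit 29984986299287732223)) (T.h (P (nat_lit 0)) (P (nat_lit 7964610238816)))) (T.h (P (nat_lit 0)) (M (nat_lit 57105588554927))))))) (T.h (T.h (T.h (P (nat_lit 0)) (T.h (P (nat_lit 17027837181526034874368)) (T.h (P (nat_lit 0)) (M (nat_lit 34454543240347647))))) (T.h (P (nat_lit 0)) (T.h (T.h (P (nat_lit 0)) (M (nat_lit 32323892618592255))) (P (nat_lit 0))))) (T.h (T.h (P (nat_lit 0)) (T.h (T.h (M (nat_lit 29984986299287732223)) (T.h (P (nat_lit 0)) (P (nat_lit 7964610238816)))) (T.h (P (nat_lit 0)) (M (nat_lit 33666772764575))))) (T.h (T.h (T.h (P (nat_lit 0)) (P (nat_lit 5975307047600128))) (P (nat_lit 0))) (T.h (T.h (P (nat_lit 0)) (M (nat_lit 57105588554927))) (P (nat_lit 0)))))))), (T.h (T.h (T.h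 (M (nat_lit 14100600292722984911817907634175)) (T.h (P (nat_lit 0)) (T.h (P (nat_lit 20814658395147442166169600)) (T.h (P (nat_lit 0)) (T.h (M (nat_lit 85689377122313830399)) (T.h (P (nat_lit 0)) (M (nat_lit 1272988433791)))))))) (T.h (P (nat_lit 0)) (T.h (T.h (P (nat_lit 19878225937938211091251200)) (T.h (P (nat_lit 0)) (T.h (P (nat_lit 173861728751022243840)) (T.h (P (nat_lit 0)) (M (nat_lit 60194524575487)))))) (T.h (P (nat_lit 0)) (T.h (T.h (M (nat_lit 27102934920853454847)) (T.h (P (nat_lit 0)) (M (nat_lit 23700434462527)))) (T.h (P (nat_lit 0)) (M (nat_lit 11718924976895)))))))) (T.h (T.h (P (nat_lit 0)) (T.h (T.h (P (nat_lit 0)) (T.h (M (nat_lit 197518166172726972121087)) (T.h (P (nat_lit 0)) (M (nat_lit 41940980879982591))))) (T.h (P (nat_lit 0)) (T.h (T.h (P (nat_lit 0)) (M (nat_lit 91112112846929919))) (P (nat_lit 0)))))) (T.h (T.h (T.h (P (nat_lit 19878225937938211091251200)) (T.h (P (nat_lit 0)) (T.h (P (nat_lit 173861728751022243840))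 (T.h (P (nat_lit 0)) (M (nat_lit 60194524575487)))))) (T.h (P (nat_lit 0)) (T.h (T.h (P (nat_lit 130767476210412814336)) (T.h (P (nat_lit 0)) (M (nat_lit 16099247337343)))) (T.h (P (nat_lit 0)) (P (nat_lit 28074662345024)))))) (T.h (T.h (P (nat_lit 0)) (T.h (T.h (P (nat_lit 0)) (M (nat_lit 91112112846929919))) (P (nat_lit 0)))) (T.h (T.h (T.h (M (nat_lit 27102934920853454847)) (T.h (P (nat_lit 0)) (M (nat_lit 23700434462527)))) (T.h (P (nat_lit 0)) (P (nat_lit 28074662345024)))) (T.h (P (nat_lit 0)) (M (nat_lit 11718924976895)))))))), (T.h (T.h (T.h (P (nat_lit 0)) (T.h (M (nat_lit 1892847221745848228151033855)) (T.h (P (nat_lit 0)) (T.h (M (nat_lit 30608946642825443803135)) (T.h (P (nat_lit 0)) (P (nat_lit 41383730525405184))))))) (T.h (P (nat_lit 0)) (T.h (T.h (P (nat_lit 0)) (T.h (M (nat_lit 84377462207756476874751)) (T.h (P (nat_lit 0)) (P (nat_lit 112684429692944384))))) (T.h (P (nat_lit 0)) (T.h (T.h (P (nat_lit 0)) (M (nat_lit 4353750354378751)))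 (P (nat_lit 0))))))) (T.h (T.h (P (nat_lit 0)) (T.h (T.h (P (nat_lit 52806908929216563881443328)) (T.h (P (nat_lit 0)) (T.h (M (nat_lit 82738826853778194431)) (T.h (P (nat_lit 0)) (P (nat_lit 93337690111776)))))) (T.h (P (nat_lit 0)) (T.h (T.h (P (nat_lit 82011797848584093696)) (T.h (P (nat_lit 0)) (M (nat_lit 38582463213215)))) (T.h (P (nat_lit 0)) (P (nat_lit 68505149127168))))))) (T.h (T.h (T.h (P (nat_lit 0)) (T.h (M (nat_lit 84377462207756476874751)) (T.h (P (nat_lit 0)) (P (nat_lit 112684429692944384))))) (T.h (P (nat_lit 0)) (T.h (T.h (P (nat_lit 0)) (P (nat_lit 117937861708251136))) (P (nat_lit 0))))) (T.h (T.h (P (nat_lit 0)) (T.h (T.h (P (nat_lit 82011797848584093696)) (T.h (P (nat_lit 0)) (M (nat_lit 38582463213215)))) (T.h (P (nat_lit 0)) (P (nat_lit 31906044562176))))) (T.h (T.h (T.h (P (nat_lit 0)) (M (nat_lit 4353750354378751))) (P (nat_lit 0))) (T.h (T.h (P (nat_lit 0)) (P (nat_lit 68505149127168))) (P (nat_lit 0)))))))), (T.h (T.h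 (T.h (P (nat_lit 12287190180425606716005116018688)) (T.h (P (nat_lit 0)) (T.h (M (nat_lit 3836605376147847800422399)) (T.h (P (nat_lit 0)) (M (nat_lit 34747549758858985471)))))) (T.h (P (nat_lit 0)) (T.h (T.h (M (nat_lit 822633096902632366145535)) (T.h (P (nat_lit 0)) (M (nat_lit 65115326894967881727)))) (T.h (P (nat_lit 0)) (M (nat_lit 6177230466576285695)))))) (T.h (T.h (P (nat_lit 0)) (T.h (T.h (P (nat_lit 0)) (T.h (P (nat_lit 126306685842223500623872)) (T.h (P (nat_lit 0)) (M (nat_lit 101851870552260607))))) (T.h (P (nat_lit 0)) (T.h (T.h (P (nat_lit 0)) (P (nat_lit 56164324190060544))) (P (nat_lit 0)))))) (T.h (T.h (T.h (M (nat_lit 822633096902632366145535)) (T.h (P (nat_lit 0)) (M (nat_lit 65115326894967881727)))) (T.h (P (nat_lit 0)) (M (nat_lit 183649484888055218175)))) (T.h (T.h (P (nat_lit 0)) (T.h (T.h (P (nat_lit 0)) (P (nat_lit 56164324190060544))) (P (nat_lit 0)))) (M (nat_lit 6177230466576285695)))))), (P (nat_lit 0))]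
def lQm_10 : List (T ℤ) := [(P (nat_lit 0)), (T.h (T.h (P (nat_lit 0)) (T.h (T.h (P (nat_lit 0)) (T.h (M (nat_lit 11846287897371344409460735)) (T.h (P (nat_lit 0)) (T.h (M (nat_lit 2067421660583034879)) (T.h (P (nat_lit 0)) (P (nat_lit 2269114281608))))))) (T.h (P (nat_lit 0)) (T.h (T.h (P (nat_lit 0)) (T.h (M (nat_lit 2067421660583034879)) (T.h (P (nat_lit 0)) (P (nat_lit 15762047440480))))) (T.h (P (nat_lit 0)) (T.h (T.h (P (nat_lit 0)) (P (nat_lit 2269114281608))) (P (nat_lit 0)))))))) (T.h (T.h (T.h (M (nat_lit 15402168289072731171697197055)) (T.h (P (nat_lit 0)) (T.h (P (nat_lit 11981056555094214967296)) (T.h (P (nat_lit 0)) (P (nat_lit 4957158622429184)))))) (T.h (P (nat_lit 0)) (T.h (T.h (P (nat_lit 11981056555094214967296)) (T.h (P (nat_lit 0)) (M (nat_lit 10988538740539391)))) (T.h (P (nat_lit 0)) (P (nat_lit 4957158622429184)))))) (T.h (T.h (P (nat_lit 0)) (T.h (T.h (P (nat_lit 0)) (T.h (M (nat_lit 14151673906531926015)) (T.h (P (nat_lit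 0)) (P (nat_lit 1225760817912))))) (T.h (P (nat_lit 0)) (T.h (T.h (P (nat_lit 0)) (P (nat_lit 1225760817912))) (P (nat_lit 0)))))) (T.h (T.h (T.h (M (nat_lit 8933566045147298267135)) (T.h (P (nat_lit 0)) (P (nat_lit 6111597523468288)))) (T.h (P (nat_lit 0)) (P (nat_lit 6111597523468288)))) (T.h (T.h (P (nat_lit 0)) (T.h (T.h (P (nat_lit 0)) (M (nat_lit 40523289780495))) (P (nat_lit 0)))) (P (nat_lit 4700088185651200))))))), (T.h (T.h (P (nat_lit 0)) (T.h (T.h (P (nat_lit 10079987083909034611327369216)) (T.h (P (nat_lit 0)) (T.h (M (nat_lit 37782109535124318060543)) (T.h (P (nat_lit 0)) (M (nat_lit 75512122738147327)))))) (T.h (P (nat_lit 0)) (T.h (T.h (M (nat_lit 45300279559282594152447)) (T.h (P (nat_lit 0)) (M (nat_lit 47073572298719231)))) (T.h (P (nat_lit 0)) (M (nat_lit 23378992595042303))))))) (T.h (T.h (T.h (P (nat_lit 0)) (T.h (M (nat_lit 6799619440246064861413375)) (T.h (P (nat_lit 0)) (T.h (M (nat_lit 12514945616788324351)) (T.h (P (nat_lit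 0)) (M (nat_lit 35685065481487))))))) (T.h (P (nat_lit 0)) (T.h (T.h (P (nat_lit 0)) (T.h (M (nat_lit 17705015762189549567)) (T.h (P (nat_lit 0)) (M (nat_lit 1228216181215))))) (T.h (P (nat_lit 0)) (T.h (T.h (P (nat_lit 0)) (M (nat_lit 6049335980319))) (P (nat_lit 0))))))) (T.h (T.h (P (nat_lit 0)) (T.h (T.h (M (nat_lit 11310640369533815095295)) (T.h (P (nat_lit 0)) (P (nat_lit 151495464121647104)))) (T.h (P (nat_lit 0)) (P (nat_lit 6315630857781248))))) (T.h (T.h (T.h (P (nat_lit 0)) (T.h (P (nat_lit 39462934967496998912)) (T.h (P (nat_lit 0)) (M (nat_lit 13381475394175))))) (T.h (P (nat_lit 0)) (T.h (T.h (P (nat_lit 0)) (P (nat_lit 31589154588192))) (P (nat_lit 0))))) (T.h (T.h (P (nat_lit 0)) (M (nat_lit 73608423624703999))) (T.h (T.h (T.h (P (nat_lit 0)) (P (nat_lit 15958812818176))) (P (nat_lit 0))) (P (nat_lit 0)))))))), (T.h (T.h (P (nat_lit 0)) (T.h (T.h (P (nat_lit 0)) (T.h (P (nat_lit 92849442016214720519864320)) (T.h (P (nat_lit 0)) (T.h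 (P (nat_lit 4879699560999419904)) (T.h (P (nat_lit 0)) (M (nat_lit 80261662914943))))))) (T.h (P (nat_lit 0)) (T.h (T.h (P (nat_lit 0)) (T.h (M (nat_lit 18730425569333215231)) (T.h (P (nat_lit 0)) (M (nat_lit 52990702494399))))) (T.h (P (nat_lit 0)) (T.h (T.h (P (nat_lit 0)) (P (nat_lit 1918557931520))) (P (nat_lit 0)))))))) (T.h (T.h (T.h (M (nat_lit 2329533710682329323256414207)) (T.h (P (nat_lit 0)) (T.h (M (nat_lit 54157787946408185167871)) (T.h (P (nat_lit 0)) (P (nat_lit 188300657747984384)))))) (T.h (P (nat_lit 0)) (T.h (T.h (P (nat_lit 4759270580204760727552)) (T.h (P (nat_lit 0)) (P (nat_lit 105894992781312000)))) (T.h (P (nat_lit 0)) (M (nat_lit 4352544021512191)))))) (T.h (T.h (P (nat_lit 0)) (T.h (T.h (P (nat_lit 0)) (T.h (M (nat_lit 37162643078086918143)) (T.h (P (nat_lit 0)) (P (nat_lit 127847904933184))))) (T.h (P (nat_lit 0)) (T.h (T.h (P (nat_lit 0)) (M (nat_lit 24709703586559))) (P (nat_lit 0)))))) (T.h (T.h (T.h (P (nat_lit 44316061718040580980736))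 (T.h (P (nat_lit 0)) (P (nat_lit 126055557227184128)))) (T.h (P (nat_lit 0)) (M (nat_lit 58487381201682431)))) (T.h (T.h (P (nat_lit 0)) (T.h (T.h (P (nat_lit 0)) (P (nat_lit 1144468606656))) (P (nat_lit 0)))) (M (nat_lit 46707744146751487))))))), (T.h (T.h (P (nat_lit 0)) (T.h (T.h (M (nat_lit 72478261872372897710639939583)) (T.h (P (nat_lit 0)) (T.h (M (nat_lit 29227457131615847710719)) (T.h (P (nat_lit 0)) (P (nat_lit 120914351725740032)))))) (T.h (P (nat_lit 0)) (T.h (T.h (P (nat_lit 87123053949393083301888)) (T.h (P (nat_lit 0)) (P (nat_lit 155218703881830400)))) (T.h (P (nat_lit 0)) (M (nat_lit 23341432239112191))))))) (T.h (T.h (T.h (P (nat_lit 0)) (T.h (P (nat_lit 103001419594148129347207168)) (T.h (P (nat_lit 0)) (T.h (M (nat_lit 54963012511008292863)) (T.h (P (nat_lit 0)) (P (nat_lit 32752559787552))))))) (T.h (P (nat_lit 0)) (T.h (T.h (P (nat_lit 0)) (T.h (M (nat_lit 68199807893534408703)) (T.h (P (nat_lit 0)) (M (nat_lit 3247963595855)))))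 (T.h (P (nat_lit 0)) (T.h (T.h (P (nat_lit 0)) (M (nat_lit 139411251903167))) (P (nat_lit 0))))))) (T.h (T.h (P (nat_lit 0)) (T.h (T.h (M (nat_lit 155514434487671085596671)) (T.h (P (nat_lit 0)) (P (nat_lit 26519925572091904)))) (T.h (P (nat_lit 0)) (P (nat_lit 139103987127779328))))) (T.h (T.h (T.h (P (nat_lit 0)) (T.h (M (nat_lit 77790327255810965503)) (T.h (P (nat_lit 0)) (P (nat_lit 12834186665184))))) (T.h (P (nat_lit 0)) (T.h (T.h (P (nat_lit 0)) (M (nat_lit 215827605369791))) (P (nat_lit 0))))) (T.h (T.h (P (nat_lit 0)) (P (nat_lit 98322677260517376))) (T.h (T.h (T.h (P (nat_lit 0)) (M (nat_lit 45849852608687))) (P (nat_lit 0))) (P (nat_lit 0)))))))), (T.h (T.h (P (nat_lit 0)) (T.h (T.h (P (nat_lit 0)) (T.h (M (nat_lit 18488068673796538873413631)) (T.h (P (nat_lit 0)) (P (nat_lit 13067073905649254400))))) (T.h (P (nat_lit 0)) (T.h (T.h (P (nat_lit 0)) (M (nat_lit 3412449340189310975))) (P (nat_lit 0)))))) (T.h (T.h (T.h (M (nat_lit 1043116937690069580088606719))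 (T.h (P (nat_lit 0)) (T.h (P (nat_lit 12925985027821664206848)) (T.h (P (nat_lit 0)) (M (nat_lit 70522602099113983)))))) (T.h (P (nat_lit 0)) (T.h (T.h (M (nat_lit 101464149854981390860287)) (T.h (P (nat_lit 0)) (P (nat_lit 21950935167303680)))) (T.h (P (nat_lit 0)) (M (nat_lit 273430289931173887)))))) (T.h (T.h (P (nat_lit 0)) (T.h (T.h (P (nat_lit 0)) (M (nat_lit 3225623507505250303))) (P (nat_lit 0)))) (T.h (T.h (T.h (P (nat_lit 61764923110046956519424)) (T.h (P (nat_lit 0)) (M (nat_lit 121260396594069503)))) (T.h (P (nat_lit 0)) (M (nat_lit 293207130200866815)))) (T.h (P (nat_lit 0)) (P (nat_lit 114189388980387840))))))), (P (nat_lit 0)), (P (nat_lit 0))]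
def lQm_11 : List (T ℤ) := [(T.h (T.h (T.h (P (nat_lit 0)) (T.h (P (nat_lit 0)) (T.h (M (nat_lit 3928032781046310399639551)) (T.h (P (nat_lit 0)) (T.h (P (nat_lit 8649608026065469440)) (T.h (P (nat_lit 0)) (P (nat_lit 9660305695472)))))))) (T.h (P (nat_lit 0)) (T.h (T.h (P (nat_lit 231600349026101198061568)) (T.h (P (nat_lit 0)) (T.h (M (nat_lit 16144163762708938751)) (T.h (P (nat_lit 0)) (M (nat_lit 493387832047)))))) (T.h (P (nat_lit 0)) (T.h (T.h (P (nat_lit 844542684713451520)) (T.h (P (nat_lit 0)) (P (nat_lit 3214488030464)))) (T.h (P (nat_lit 0)) (P (nat_lit 2001849057248)))))))) (T.h (T.h (P (nat_lit 0)) (T.h (T.h (P (nat_lit 0)) (T.h (M (nat_lit 385480514967894491135)) (T.h (P (nat_lit 0)) (P (nat_lit 8812788919631872))))) (T.h (P (nat_lit 0)) (T.h (T.h (P (nat_lit 0)) (P (nat_lit 391341705789440))) (P (nat_lit 0)))))) (T.h (T.h (T.h (M (nat_lit 3928032781046310399639551)) (T.h (P (nat_lit 0)) (T.h (P (nat_lit 5377221110599254016)) (T.h (P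 (nat_lit 0)) (M (nat_lit 1435002260479)))))) (T.h (P (nat_lit 0)) (T.h (T.h (M (nat_lit 16144163762708938751)) (T.h (P (nat_lit 0)) (M (nat_lit 637453984351)))) (T.h (P (nat_lit 0)) (P (nat_lit 3214488030464)))))) (T.h (T.h (P (nat_lit 0)) (T.h (T.h (P (nat_lit 0)) (P (nat_lit 8812788919631872))) (P (nat_lit 0)))) (T.h (T.h (T.h (P (nat_lit 8649608026065469440)) (T.h (P (nat_lit 0)) (M (nat_lit 1435002260479)))) (T.h (P (nat_lit 0)) (M (nat_lit 493387832047)))) (T.h (P (nat_lit 0)) (P (nat_lit 9660305695472)))))))), (T.h (T.h (T.h (P (nat_lit 0)) (T.h (P (nat_lit 10079987083909034611327369216)) (T.h (P (nat_lit 0)) (T.h (M (nat_lit 45300279559282594152447)) (T.h (P (nat_lit 0)) (M (nat_lit 23378992595042303))))))) (T.h (P (nat_lit 0)) (T.h (T.h (P (nat_lit 0)) (T.h (M (nat_lit 37782109535124318060543)) (T.h (P (nat_lit 0)) (M (nat_lit 47073572298719231))))) (T.h (P (nat_lit 0)) (T.h (T.h (P (nat_lit 0)) (M (nat_lit 75512122738147327))) (P (nat_lit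 0))))))) (T.h (T.h (P (nat_lit 0)) (T.h (T.h (M (nat_lit 6799619440246064861413375)) (T.h (P (nat_lit 0)) (T.h (M (nat_lit 17705015762189549567)) (T.h (P (nat_lit 0)) (M (nat_lit 6049335980319)))))) (T.h (P (nat_lit 0)) (T.h (T.h (M (nat_lit 12514945616788324351)) (T.h (P (nat_lit 0)) (M (nat_lit 1228216181215)))) (T.h (P (nat_lit 0)) (M (nat_lit 35685065481487))))))) (T.h (T.h (T.h (P (nat_lit 0)) (T.h (M (nat_lit 11310640369533815095295)) (T.h (P (nat_lit 0)) (P (nat_lit 6315630857781248))))) (T.h (P (nat_lit 0)) (T.h (T.h (P (nat_lit 0)) (P (nat_lit 151495464121647104))) (P (nat_lit 0))))) (T.h (T.h (P (nat_lit 0)) (T.h (T.h (P (nat_lit 39462934967496998912)) (T.h (P (nat_lit 0)) (P (nat_lit 31589154588192)))) (T.h (P (nat_lit 0)) (M (nat_lit 13381475394175))))) (T.h (T.h (T.h (P (nat_lit 0)) (M (nat_lit 73608423624703999))) (P (nat_lit 0))) (T.h (T.h (P (nat_lit 0)) (P (nat_lit 15958812818176))) (P (nat_lit 0)))))))), (T.h (T.h (T.h (P (nat_lit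 21520037286728407769033360801792)) (T.h (P (nat_lit 0)) (T.h (P (nat_lit 32593995845760491378966528)) (T.h (P (nat_lit 0)) (T.h (P (nat_lit 50382098732544950272)) (T.h (P (nat_lit 0)) (M (nat_lit 3869997229439)))))))) (T.h (P (nat_lit 0)) (T.h (T.h (P (nat_lit 32593995845760491378966528)) (T.h (P (nat_lit 0)) (T.h (M (nat_lit 156838974676478722047)) (T.h (P (nat_lit 0)) (M (nat_lit 22036195153535)))))) (T.h (P (nat_lit 0)) (T.h (T.h (P (nat_lit 50382098732544950272)) (T.h (P (nat_lit 0)) (M (nat_lit 22036195153535)))) (T.h (P (nat_lit 0)) (M (nat_lit 3869997229439)))))))) (T.h (T.h (P (nat_lit 0)) (T.h (T.h (P (nat_lit 0)) (T.h (P (nat_lit 191967605361147471986688)) (T.h (P (nat_lit 0)) (P (nat_lit 231257191597735936))))) (T.h (P (nat_lit 0)) (T.h (T.h (P (nat_lit 0)) (P (nat_lit 231257191597735936))) (P (nat_lit 0)))))) (T.h (T.h (T.h (M (nat_lit 150799623545482001323655167)) (T.h (P (nat_lit 0)) (T.h (M (nat_lit 2972981622955048959)) (T.h (P (nat_lit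 0)) (M (nat_lit 5998670132479)))))) (T.h (P (nat_lit 0)) (T.h (T.h (M (nat_lit 2972981622955048959)) (T.h (P (nat_lit 0)) (P (nat_lit 63864146695808)))) (T.h (P (nat_lit 0)) (M (nat_lit 5998670132479)))))) (T.h (T.h (P (nat_lit 0)) (T.h (T.h (P (nat_lit 0)) (P (nat_lit 143974309221105664))) (P (nat_lit 0)))) (T.h (T.h (T.h (M (nat_lit 90644100694493102079)) (T.h (P (nat_lit 0)) (M (nat_lit 52873795194879)))) (T.h (P (nat_lit 0)) (M (nat_lit 52873795194879)))) (T.h (P (nat_lit 0)) (M (nat_lit 17293522131839)))))))), (T.h (T.h (T.h (P (nat_lit 0)) (T.h (M (nat_lit 1388833709443735624582430719)) (T.h (P (nat_lit 0)) (T.h (P (nat_lit 87650396103575026532352)) (T.h (P (nat_lit 0)) (P (nat_lit 78829327298969600))))))) (T.h (P (nat_lit 0)) (T.h (T.h (P (nat_lit 0)) (T.h (M (nat_lit 1652790154048969900031)) (T.h (P (nat_lit 0)) (P (nat_lit 218623802189496320))))) (T.h (P (nat_lit 0)) (T.h (T.h (P (nat_lit 0)) (P (nat_lit 60744512777912320))) (P (nat_lit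 0))))))) (T.h (T.h (P (nat_lit 0)) (T.h (T.h (P (nat_lit 153413495533932063255166976)) (T.h (P (nat_lit 0)) (T.h (M (nat_lit 136039828561613291519)) (T.h (P (nat_lit 0)) (M (nat_lit 22262947040159)))))) (T.h (P (nat_lit 0)) (T.h (T.h (M (nat_lit 110231245384298004479)) (T.h (P (nat_lit 0)) (M (nat_lit 165739260395375)))) (T.h (P (nat_lit 0)) (P (nat_lit 77442952494384))))))) (T.h (T.h (T.h (P (nat_lit 0)) (T.h (M (nat_lit 68126053748545643610111)) (T.h (P (nat_lit 0)) (P (nat_lit 69140507328200704))))) (T.h (P (nat_lit 0)) (T.h (T.h (P (nat_lit 0)) (P (nat_lit 367559157077147648))) (P (nat_lit 0))))) (T.h (T.h (P (nat_lit 0)) (T.h (T.h (P (nat_lit 387258353633040793600)) (T.h (P (nat_lit 0)) (M (nat_lit 127505483758511)))) (T.h (P (nat_lit 0)) (M (nat_lit 2395349943695))))) (T.h (T.h (T.h (P (nat_lit 0)) (P (nat_lit 141085513302016))) (P (nat_lit 0))) (T.h (T.h (P (nat_lit 0)) (P (nat_lit 31976606021472))) (P (nat_lit 0)))))))), (T.h (T.h (T.h (P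 (nat_lit 19245058767597118072917487255552)) (T.h (P (nat_lit 0)) (T.h (M (nat_lit 49064869503036694296788991)) (T.h (P (nat_lit 0)) (M (nat_lit 58062886536468234239)))))) (T.h (P (nat_lit 0)) (T.h (T.h (M (nat_lit 8849924118460195124805631)) (T.h (P (nat_lit 0)) (M (nat_lit 78300033919217565695)))) (T.h (P (nat_lit 0)) (P (nat_lit 22472147538827804672)))))) (T.h (T.h (P (nat_lit 0)) (T.h (T.h (P (nat_lit 0)) (T.h (M (nat_lit 171507145602860729761791)) (T.h (P (nat_lit 0)) (M (nat_lit 11742295132012543))))) (T.h (P (nat_lit 0)) (T.h (T.h (P (nat_lit 0)) (P (nat_lit 200573530775552000))) (P (nat_lit 0)))))) (T.h (T.h (T.h (P (nat_lit 59825625941170914374713344)) (T.h (P (nat_lit 0)) (M (nat_lit 45880012597962473471)))) (T.h (P (nat_lit 0)) (M (nat_lit 218013063006075748351)))) (T.h (T.h (P (nat_lit 0)) (T.h (T.h (P (nat_lit 0)) (P (nat_lit 189747104945602560))) (P (nat_lit 0)))) (P (nat_lit 12951678390250766336)))))), (P (nat_lit 0)), (P (nat_lit 0)),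 (T.h (T.h (P (nat_lit 0)) (T.h (T.h (P (nat_lit 0)) (T.h (M (nat_lit 7711323027092271844556799)) (T.h (P (nat_lit 0)) (T.h (M (nat_lit 17975258696120270847)) (T.h (P (nat_lit 0)) (M (nat_lit 19714268702255))))))) (T.h (P (nat_lit 0)) (T.h (T.h (P (nat_lit 0)) (T.h (P (nat_lit 1941185707053678592)) (T.h (P (nat_lit 0)) (P (nat_lit 13950046079656))))) (T.h (P (nat_lit 0)) (T.h (T.h (P (nat_lit 0)) (P (nat_lit 10067002337968))) (P (nat_lit 0)))))))) (T.h (T.h (T.h (M (nat_lit 1336912724198935606375481343)) (T.h (P (nat_lit 0)) (T.h (P (nat_lit 9934466073729626537984)) (T.h (P (nat_lit 0)) (P (nat_lit 1253650768494592)))))) (T.h (P (nat_lit 0)) (T.h (T.h (M (nat_lit 14528311290590639685631)) (T.h (P (nat_lit 0)) (P (nat_lit 17872552192311296)))) (T.h (P (nat_lit 0)) (M (nat_lit 1098191121285119)))))) (T.h (T.h (P (nat_lit 0)) (T.h (T.h (P (nat_lit 0)) (T.h (M (nat_lit 16284901690493108223)) (T.h (P (nat_lit 0)) (P (nat_lit 18669837897144))))) (T.h (P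 (nat_lit 0)) (T.h (T.h (P (nat_lit 0)) (M (nat_lit 12711245874063))) (P (nat_lit 0)))))) (T.h (T.h (T.h (P (nat_lit 16607238043340504039424)) (T.h (P (nat_lit 0)) (P (nat_lit 32654557935075328)))) (T.h (P (nat_lit 0)) (P (nat_lit 31286343396327424)))) (T.h (T.h (P (nat_lit 0)) (T.h (T.h (P (nat_lit 0)) (M (nat_lit 20176616691847))) (P (nat_lit 0)))) (P (nat_lit 14287706602635264)))))))]
def lQm_12 : List (T ℤ) := [(T.h (T.h (P (nat_lit 0)) (T.h (T.h (P (nat_lit 939231405214339478568566784)) (T.h (P (nat_lit 0)) (T.h (P (nat_lit 17027837181526034874368)) (T.h (P (nat_lit 0)) (P (nat_lit 5975307047600128)))))) (T.h (P (nat_lit 0)) (T.h (T.h (P (nat_lit 5845085690589601595392)) (T.h (P (nat_lit 0)) (M (nat_lit 34454543240347647)))) (T.h (P (nat_lit 0)) (P (nat_lit 5015311072231424))))))) (T.h (T.h (T.h (P (nat_lit 0)) (T.h (M (nat_lit 2299170196782604928155647)) (T.h (P (nat_lit 0)) (T.h (M (nat_lit 29984986299287732223)) (T.h (P (nat_lit 0)) (M (nat_lit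 57105588554927))))))) (T.h (P (nat_lit 0)) (T.h (T.h (P (nat_lit 0)) (T.h (P (nat_lit 19379500169371320320)) (T.h (P (nat_lit 0)) (P (nat_lit 7964610238816))))) (T.h (P (nat_lit 0)) (T.h (T.h (P (nat_lit 0)) (P (nat_lit 3163502112640))) (P (nat_lit 0))))))) (T.h (T.h (P (nat_lit 0)) (T.h (T.h (P (nat_lit 17027837181526034874368)) (T.h (P (nat_lit 0)) (M (nat_lit 32323892618592255)))) (T.h (P (nat_lit 0)) (M (nat_lit 34454543240347647))))) (T.h (T.h (T.h (P (nat_lit 0)) (T.h (M (nat_lit 29984986299287732223)) (T.h (P (nat_lit 0)) (M (nat_lit 33666772764575))))) (T.h (P (nat_lit 0)) (T.h (T.h (P (nat_lit 0)) (P (nat_lit 7964610238816))) (P (nat_lit 0))))) (T.h (T.h (P (nat_lit 0)) (P (nat_lit 5975307047600128))) (T.h (T.h (T.h (P (nat_lit 0)) (M (nat_lit 57105588554927))) (P (nat_lit 0))) (P (nat_lit 0)))))))), (T.h (T.h (P (nat_lit 0)) (T.h (T.h (P (nat_lit 0)) (T.h (P (nat_lit 92849442016214720519864320)) (T.h (P (nat_lit 0)) (T.h (M (nat_lit 18730425569333215231))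 (T.h (P (nat_lit 0)) (P (nat_lit 1918557931520))))))) (T.h (P (nat_lit 0)) (T.h (T.h (P (nat_lit 0)) (T.h (P (nat_lit 4879699560999419904)) (T.h (P (nat_lit 0)) (M (nat_lit 52990702494399))))) (T.h (P (nat_lit 0)) (T.h (T.h (P (nat_lit 0)) (M (nat_lit 80261662914943))) (P (nat_lit 0)))))))) (T.h (T.h (T.h (M (nat_lit 2329533710682329323256414207)) (T.h (P (nat_lit 0)) (T.h (P (nat_lit 4759270580204760727552)) (T.h (P (nat_lit 0)) (M (nat_lit 4352544021512191)))))) (T.h (P (nat_lit 0)) (T.h (T.h (M (nat_lit 54157787946408185167871)) (T.h (P (nat_lit 0)) (P (nat_lit 105894992781312000)))) (T.h (P (nat_lit 0)) (P (nat_lit 188300657747984384)))))) (T.h (T.h (P (nat_lit 0)) (T.h (T.h (P (nat_lit 0)) (T.h (M (nat_lit 37162643078086918143)) (T.h (P (nat_lit 0)) (M (nat_lit 24709703586559))))) (T.h (P (nat_lit 0)) (T.h (T.h (P (nat_lit 0)) (P (nat_lit 127847904933184))) (P (nat_lit 0)))))) (T.h (T.h (T.h (P (nat_lit 44316061718040580980736)) (T.h (P (nat_lit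 0)) (M (nat_lit 58487381201682431)))) (T.h (P (nat_lit 0)) (P (nat_lit 126055557227184128)))) (T.h (T.h (P (nat_lit 0)) (T.h (T.h (P (nat_lit 0)) (P (nat_lit 1144468606656))) (P (nat_lit 0)))) (M (nat_lit 46707744146751487))))))), (T.h (T.h (P (nat_lit 0)) (T.h (T.h (M (nat_lit 1388833709443735624582430719)) (T.h (P (nat_lit 0)) (T.h (M (nat_lit 1652790154048969900031)) (T.h (P (nat_lit 0)) (P (nat_lit 60744512777912320)))))) (T.h (P (nat_lit 0)) (T.h (T.h (P (nat_lit 87650396103575026532352)) (T.h (P (nat_lit 0)) (P (nat_lit 218623802189496320)))) (T.h (P (nat_lit 0)) (P (nat_lit 78829327298969600))))))) (T.h (T.h (T.h (P (nat_lit 0)) (T.h (P (nat_lit 153413495533932063255166976)) (T.h (P (nat_lit 0)) (T.h (M (nat_lit 110231245384298004479)) (T.h (P (nat_lit 0)) (P (nat_lit 77442952494384))))))) (T.h (P (nat_lit 0)) (T.h (T.h (P (nat_lit 0)) (T.h (M (nat_lit 136039828561613291519)) (T.h (P (nat_lit 0)) (M (nat_lit 165739260395375))))) (T.h (P (nat_lit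 0)) (T.h (T.h (P (nat_lit 0)) (M (nat_lit 22262947040159))) (P (nat_lit 0))))))) (T.h (T.h (P (nat_lit 0)) (T.h (T.h (M (nat_lit 68126053748545643610111)) (T.h (P (nat_lit 0)) (P (nat_lit 367559157077147648)))) (T.h (P (nat_lit 0)) (P (nat_lit 69140507328200704))))) (T.h (T.h (T.h (P (nat_lit 0)) (T.h (P (nat_lit 387258353633040793600)) (T.h (P (nat_lit 0)) (M (nat_lit 2395349943695))))) (T.h (P (nat_lit 0)) (T.h (T.h (P (nat_lit 0)) (M (nat_lit 127505483758511))) (P (nat_lit 0))))) (T.h (T.h (P (nat_lit 0)) (P (nat_lit 141085513302016))) (T.h (T.h (T.h (P (nat_lit 0)) (P (nat_lit 31976606021472))) (P (nat_lit 0))) (P (nat_lit 0)))))))), (T.h (T.h (P (nat_lit 0)) (T.h (T.h (P (nat_lit 0)) (T.h (P (nat_lit 120814795054612235002314752)) (T.h (P (nat_lit 0)) (M (nat_lit 107041884051731382271))))) (T.h (P (nat_lit 0)) (T.h (T.h (P (nat_lit 0)) (M (nat_lit 107041884051731382271))) (P (nat_lit 0)))))) (T.h (T.h (T.h (M (nat_lit 29465771449952636056513806335))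 (T.h (P (nat_lit 0)) (T.h (M (nat_lit 35933518468873375973375)) (T.h (P (nat_lit 0)) (M (nat_lit 116566425178505215)))))) (T.h (P (nat_lit 0)) (T.h (T.h (M (nat_lit 35933518468873375973375)) (T.h (P (nat_lit 0)) (P (nat_lit 206294093546192896)))) (T.h (P (nat_lit 0)) (M (nat_lit 116566425178505215)))))) (T.h (T.h (P (nat_lit 0)) (T.h (T.h (P (nat_lit 0)) (M (nat_lit 179113940030792400895))) (P (nat_lit 0)))) (T.h (T.h (T.h (M (nat_lit 3651158552685087555583)) (T.h (P (nat_lit 0)) (M (nat_lit 36771961311526911)))) (T.h (P (nat_lit 0)) (M (nat_lit 36771961311526911)))) (T.h (P (nat_lit 0)) (P (nat_lit 82143803782594560))))))), (P (nat_lit 0)), (P (nat_lit 0)), (T.h (T.h (T.h (P (nat_lit 0)) (T.h (P (nat_lit 23735099046155115220969717760)) (T.h (P (nat_lit 0)) (T.h (P (nat_lit 2222835744462361067520)) (T.h (P (nat_lit 0)) (P (nat_lit 21314379690999808))))))) (T.h (P (nat_lit 0)) (T.h (T.h (P (nat_lit 0)) (T.h (P (nat_lit 13919576347252589854720)) (T.h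 (P (nat_lit 0)) (M (nat_lit 57975825390141439))))) (T.h (P (nat_lit 0)) (T.h (T.h (P (nat_lit 0)) (M (nat_lit 42531209117253631))) (P (nat_lit 0))))))) (T.h (T.h (P (nat_lit 0)) (T.h (T.h (P (nat_lit 26738224194884310258417664)) (T.h (P (nat_lit 0)) (T.h (M (nat_lit 1972893016427331583)) (T.h (P (nat_lit 0)) (P (nat_lit 50708355223312)))))) (T.h (P (nat_lit 0)) (T.h (T.h (P (nat_lit 10879051756713541632)) (T.h (P (nat_lit 0)) (M (nat_lit 4144068559599)))) (T.h (P (nat_lit 0)) (M (nat_lit 14450944174591))))))) (T.h (T.h (T.h (P (nat_lit 0)) (T.h (M (nat_lit 79357771058813610229759)) (T.h (P (nat_lit 0)) (M (nat_lit 192391894413017087))))) (T.h (P (nat_lit 0)) (T.h (T.h (P (nat_lit 0)) (P (nat_lit 14821950289199104))) (P (nat_lit 0))))) (T.h (T.h (P (nat_lit 0)) (T.h (T.h (P (nat_lit 7431377113195741184)) (T.h (P (nat_lit 0)) (P (nat_lit 1500860940832)))) (T.h (P (nat_lit 0)) (P (nat_lit 6020971354256))))) (T.h (T.h (T.h (P (nat_lit 0)) (M (nat_lit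 112594984012251135))) (P (nat_lit 0))) (T.h (T.h (P (nat_lit 0)) (P (nat_lit 40339979884256))) (P (nat_lit 0)))))))), (T.h (T.h (T.h (M (nat_lit 14100600292722984911817907634175)) (T.h (P (nat_lit 0)) (T.h (P (nat_lit 19878225937938211091251200)) (T.h (P (nat_lit 0)) (T.h (M (nat_lit 27102934920853454847)) (T.h (P (nat_lit 0)) (M (nat_lit 11718924976895)))))))) (T.h (P (nat_lit 0)) (T.h (T.h (P (nat_lit 20814658395147442166169600)) (T.h (P (nat_lit 0)) (T.h (P (nat_lit 173861728751022243840)) (T.h (P (nat_lit 0)) (M (nat_lit 23700434462527)))))) (T.h (P (nat_lit 0)) (T.h (T.h (M (nat_lit 85689377122313830399)) (T.h (P (nat_lit 0)) (M (nat_lit 60194524575487)))) (T.h (P (nat_lit 0)) (M (nat_lit 1272988433791)))))))) (T.h (T.h (P (nat_lit 0)) (T.h (T.h (P (nat_lit 0)) (T.h (M (nat_lit 197518166172726972121087)) (T.h (P (nat_lit 0)) (M (nat_lit 91112112846929919))))) (T.h (P (nat_lit 0)) (T.h (T.h (P (nat_lit 0)) (M (nat_lit 41940980879982591))) (P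 (nat_lit 0)))))) (T.h (T.h (T.h (P (nat_lit 19878225937938211091251200)) (T.h (P (nat_lit 0)) (T.h (P (nat_lit 130767476210412814336)) (T.h (P (nat_lit 0)) (P (nat_lit 28074662345024)))))) (T.h (P (nat_lit 0)) (T.h (T.h (P (nat_lit 173861728751022243840)) (T.h (P (nat_lit 0)) (M (nat_lit 16099247337343)))) (T.h (P (nat_lit 0)) (M (nat_lit 60194524575487)))))) (T.h (T.h (P (nat_lit 0)) (T.h (T.h (P (nat_lit 0)) (M (nat_lit 91112112846929919))) (P (nat_lit 0)))) (T.h (T.h (T.h (M (nat_lit 27102934920853454847)) (T.h (P (nat_lit 0)) (P (nat_lit 28074662345024)))) (T.h (P (nat_lit 0)) (M (nat_lit 23700434462527)))) (T.h (P (nat_lit 0)) (M (nat_lit 11718924976895))))))))]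
def lQm_13 : List (T ℤ) := [(T.h (T.h (T.h (P (nat_lit 0)) (T.h (M (nat_lit 72478261872372897710639939583)) (T.h (P (nat_lit 0)) (T.h (P (nat_lit 87123053949393083301888)) (T.h (P (nat_lit 0)) (M (nat_lit 23341432239112191))))))) (T.h (P (nat_lit 0)) (T.h (T.h (P (nat_lit 0)) (T.h (M (nat_lit 29227457131615847710719)) (T.h (P (nat_lit 0)) (P (nat_lit 155218703881830400))))) (T.h (P (nat_lit 0)) (T.h (T.h (P (nat_lit 0)) (P (nat_lit 120914351725740032))) (P (nat_lit 0))))))) (T.h (T.h (P (nat_lit 0)) (T.h (T.h (P (nat_lit 103001419594148129347207168)) (T.h (P (nat_lit 0)) (T.h (M (nat_lit 68199807893534408703)) (T.h (P (nat_lit 0)) (M (nat_lit 139411251903167)))))) (T.h (P (nat_lit 0)) (T.h (T.h (M (nat_lit 54963012511008292863)) (T.h (P (nat_lit 0)) (M (nat_lit 3247963595855)))) (T.h (P (nat_lit 0)) (P (nat_lit 32752559787552))))))) (T.h (T.h (T.h (P (nat_lit 0)) (T.h (M (nat_lit 155514434487671085596671)) (T.h (P (nat_lit 0)) (P (nat_lit 139103987127779328)))))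 (T.h (P (nat_lit 0)) (T.h (T.h (P (nat_lit 0)) (P (nat_lit 26519925572091904))) (P (nat_lit 0))))) (T.h (T.h (P (nat_lit 0)) (T.h (T.h (M (nat_lit 77790327255810965503)) (T.h (P (nat_lit 0)) (M (nat_lit 215827605369791)))) (T.h (P (nat_lit 0)) (P (nat_lit 12834186665184))))) (T.h (T.h (T.h (P (nat_lit 0)) (P (nat_lit 98322677260517376))) (P (nat_lit 0))) (T.h (T.h (P (nat_lit 0)) (M (nat_lit 45849852608687))) (P (nat_lit 0)))))))), (T.h (T.h (T.h (P (nat_lit 19245058767597118072917487255552)) (T.h (P (nat_lit 0)) (T.h (M (nat_lit 8849924118460195124805631)) (T.h (P (nat_lit 0)) (P (nat_lit 22472147538827804672)))))) (T.h (P (nat_lit 0)) (T.h (T.h (M (nat_lit 49064869503036694296788991)) (T.h (P (nat_lit 0)) (M (nat_lit 78300033919217565695)))) (T.h (P (nat_lit 0)) (M (nat_lit 58062886536468234239)))))) (T.h (T.h (P (nat_lit 0)) (T.h (T.h (P (nat_lit 0)) (T.h (M (nat_lit 171507145602860729761791)) (T.h (P (nat_lit 0)) (P (nat_lit 200573530775552000)))))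 (T.h (P (nat_lit 0)) (T.h (T.h (P (nat_lit 0)) (M (nat_lit 11742295132012543))) (P (nat_lit 0)))))) (T.h (T.h (T.h (P (nat_lit 59825625941170914374713344)) (T.h (P (nat_lit 0)) (M (nat_lit 218013063006075748351)))) (T.h (P (nat_lit 0)) (M (nat_lit 45880012597962473471)))) (T.h (T.h (P (nat_lit 0)) (T.h (T.h (P (nat_lit 0)) (P (nat_lit 189747104945602560))) (P (nat_lit 0)))) (P (nat_lit 12951678390250766336)))))), (P (nat_lit 0)), (P (nat_lit 0)), (T.h (T.h (P (nat_lit 0)) (T.h (T.h (P (nat_lit 0)) (T.h (P (nat_lit 2396886317862536817410048)) (T.h (P (nat_lit 0)) (T.h (P (nat_lit 1986026304863993856)) (T.h (P (nat_lit 0)) (P (nat_lit 15417053138368))))))) (T.h (P (nat_lit 0)) (T.h (T.h (P (nat_lit 0)) (T.h (M (nat_lit 329372831294947327)) (T.h (P (nat_lit 0)) (M (nat_lit 29851112519423))))) (T.h (P (nat_lit 0)) (T.h (T.h (P (nat_lit 0)) (M (nat_lit 11754251825087))) (P (nat_lit 0)))))))) (T.h (T.h (T.h (M (nat_lit 261693461976339468041322495)) (T.h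 (P (nat_lit 0)) (T.h (P (nat_lit 58005716067570298126336)) (T.h (P (nat_lit 0)) (P (nat_lit 147754045441376256)))))) (T.h (P (nat_lit 0)) (T.h (T.h (P (nat_lit 12263181683475735379968)) (T.h (P (nat_lit 0)) (M (nat_lit 66179228307161087)))) (T.h (P (nat_lit 0)) (P (nat_lit 52709437456547840)))))) (T.h (T.h (P (nat_lit 0)) (T.h (T.h (P (nat_lit 0)) (T.h (P (nat_lit 34541195107701358592)) (T.h (P (nat_lit 0)) (M (nat_lit 39626086326079))))) (T.h (P (nat_lit 0)) (T.h (T.h (P (nat_lit 0)) (P (nat_lit 11941010524992))) (P (nat_lit 0)))))) (T.h (T.h (T.h (M (nat_lit 36544984058959734243327)) (T.h (P (nat_lit 0)) (P (nat_lit 307809057127432192)))) (T.h (P (nat_lit 0)) (P (nat_lit 16066539524325376)))) (T.h (T.h (P (nat_lit 0)) (T.h (T.h (P (nat_lit 0)) (P (nat_lit 27782914614784))) (P (nat_lit 0)))) (M (nat_lit 92595113484189695))))))), (T.h (T.h (P (nat_lit 0)) (T.h (T.h (M (nat_lit 1892847221745848228151033855)) (T.h (P (nat_lit 0)) (T.h (M (nat_lit 84377462207756476874751))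 (T.h (P (nat_lit 0)) (M (nat_lit 4353750354378751)))))) (T.h (P (nat_lit 0)) (T.h (T.h (M (nat_lit 30608946642825443803135)) (T.h (P (nat_lit 0)) (P (nat_lit 112684429692944384)))) (T.h (P (nat_lit 0)) (P (nat_lit 41383730525405184))))))) (T.h (T.h (T.h (P (nat_lit 0)) (T.h (P (nat_lit 52806908929216563881443328)) (T.h (P (nat_lit 0)) (T.h (P (nat_lit 82011797848584093696)) (T.h (P (nat_lit 0)) (P (nat_lit 68505149127168))))))) (T.h (P (nat_lit 0)) (T.h (T.h (P (nat_lit 0)) (T.h (M (nat_lit 82738826853778194431)) (T.h (P (nat_lit 0)) (M (nat_lit 38582463213215))))) (T.h (P (nat_lit 0)) (T.h (T.h (P (nat_lit 0)) (P (nat_lit 93337690111776))) (P (nat_lit 0))))))) (T.h (T.h (P (nat_lit 0)) (T.h (T.h (M (nat_lit 84377462207756476874751)) (T.h (P (nat_lit 0)) (P (nat_lit 117937861708251136)))) (T.h (P (nat_lit 0)) (P (nat_lit 112684429692944384))))) (T.h (T.h (T.h (P (nat_lit 0)) (T.h (P (nat_lit 82011797848584093696)) (T.h (P (nat_lit 0)) (P (nat_lit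 31906044562176))))) (T.h (P (nat_lit 0)) (T.h (T.h (P (nat_lit 0)) (M (nat_lit 38582463213215))) (P (nat_lit 0))))) (T.h (T.h (P (nat_lit 0)) (M (nat_lit 4353750354378751))) (T.h (T.h (T.h (P (nat_lit 0)) (P (nat_lit 68505149127168))) (P (nat_lit 0))) (P (nat_lit 0)))))))), (T.h (T.h (P (nat_lit 0)) (T.h (T.h (P (nat_lit 0)) (T.h (M (nat_lit 18488068673796538873413631)) (T.h (P (nat_lit 0)) (M (nat_lit 3412449340189310975))))) (T.h (P (nat_lit 0)) (T.h (T.h (P (nat_lit 0)) (P (nat_lit 13067073905649254400))) (P (nat_lit 0)))))) (T.h (T.h (T.h (M (nat_lit 1043116937690069580088606719)) (T.h (P (nat_lit 0)) (T.h (M (nat_lit 101464149854981390860287)) (T.h (P (nat_lit 0)) (M (nat_lit 273430289931173887)))))) (T.h (P (nat_lit 0)) (T.h (T.h (P (nat_lit 12925985027821664206848)) (T.h (P (nat_lit 0)) (P (nat_lit 21950935167303680)))) (T.h (P (nat_lit 0)) (M (nat_lit 70522602099113983)))))) (T.h (T.h (P (nat_lit 0)) (T.h (T.h (P (nat_lit 0)) (M (nat_lit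 3225623507505250303))) (P (nat_lit 0)))) (T.h (T.h (T.h (P (nat_lit 61764923110046956519424)) (T.h (P (nat_lit 0)) (M (nat_lit 293207130200866815)))) (T.h (P (nat_lit 0)) (M (nat_lit 121260396594069503)))) (T.h (P (nat_lit 0)) (P (nat_lit 114189388980387840))))))), (P (nat_lit 0))]
def lQm_14 : List (T ℤ) := [(P (nat_lit 0)), (T.h (T.h (T.h (P (nat_lit 0)) (T.h (M (nat_lit 24801631326153345891410378751)) (T.h (P (nat_lit 0)) (T.h (P (nat_lit 878716978990749319168)) (T.h (P (nat_lit 0)) (M (nat_lit 14991615373983743))))))) (T.h (P (nat_lit 0)) (T.h (T.h (P (nat_lit 0)) (T.h (M (nat_lit 810895736184433016831)) (T.h (P (nat_lit 0)) (P (nat_lit 75654353308729344))))) (T.h (P (nat_lit 0)) (T.h (T.h (P (nat_lit 0)) (P (nat_lit 21529164191711232))) (P (nat_lit 0))))))) (T.h (T.h (P (nat_lit 0)) (T.h (T.h (M (nat_lit 29625130931332275844939775)) (T.h (P (nat_lit 0)) (T.h (M (nat_lit 16352020845905838079)) (T.h (P (nat_lit 0)) (M (nat_lit 53556555107663))))))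 (T.h (P (nat_lit 0)) (T.h (T.h (M (nat_lit 19032430414556823551)) (T.h (P (nat_lit 0)) (P (nat_lit 18560116891440)))) (T.h (P (nat_lit 0)) (P (nat_lit 8704128682512))))))) (T.h (T.h (T.h (P (nat_lit 0)) (T.h (P (nat_lit 69850975083097497796608)) (T.h (P (nat_lit 0)) (P (nat_lit 198609520576053248))))) (T.h (P (nat_lit 0)) (T.h (T.h (P (nat_lit 0)) (M (nat_lit 41801263281635327))) (P (nat_lit 0))))) (T.h (T.h (P (nat_lit 0)) (T.h (T.h (P (nat_lit 6323371610589888512)) (T.h (P (nat_lit 0)) (P (nat_lit 22287634534368)))) (T.h (P (nat_lit 0)) (M (nat_lit 11727087712703))))) (T.h (T.h (T.h (P (nat_lit 0)) (P (nat_lit 104265922317058048))) (P (nat_lit 0))) (T.h (T.h (P (nat_lit 0)) (M (nat_lit 38574100311983))) (P (nat_lit 0)))))))), (T.h (T.h (T.h (P (nat_lit 12287190180425606716005116018688)) (T.h (P (nat_lit 0)) (T.h (M (nat_lit 822633096902632366145535)) (T.h (P (nat_lit 0)) (M (nat_lit 6177230466576285695)))))) (T.h (P (nat_lit 0)) (T.h (T.h (M (nat_lit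 3836605376147847800422399)) (T.h (P (nat_lit 0)) (M (nat_lit 65115326894967881727)))) (T.h (P (nat_lit 0)) (M (nat_lit 34747549758858985471)))))) (T.h (T.h (P (nat_lit 0)) (T.h (T.h (P (nat_lit 0)) (T.h (P (nat_lit 126306685842223500623872)) (T.h (P (nat_lit 0)) (P (nat_lit 56164324190060544))))) (T.h (P (nat_lit 0)) (T.h (T.h (P (nat_lit 0)) (M (nat_lit 101851870552260607))) (P (nat_lit 0)))))) (T.h (T.h (T.h (M (nat_lit 822633096902632366145535)) (T.h (P (nat_lit 0)) (M (nat_lit 183649484888055218175)))) (T.h (P (nat_lit 0)) (M (nat_lit 65115326894967881727)))) (T.h (T.h (P (nat_lit 0)) (T.h (T.h (P (nat_lit 0)) (P (nat_lit 56164324190060544))) (P (nat_lit 0)))) (M (nat_lit 6177230466576285695)))))), (P (nat_lit 0)), (P (nat_lit 0)), (T.h (T.h (P (nat_lit 0)) (T.h (T.h (P (nat_lit 0)) (T.h (P (nat_lit 2731529024111075150266368)) (T.h (P (nat_lit 0)) (M (nat_lit 14446821862908362751))))) (T.h (P (nat_lit 0)) (T.h (T.h (P (nat_lit 0)) (P (nat_lit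 2922520119437426688))) (P (nat_lit 0)))))) (T.h (T.h (T.h (P (nat_lit 2431989740396183413638299648)) (T.h (P (nat_lit 0)) (T.h (M (nat_lit 67764700985457142398975)) (T.h (P (nat_lit 0)) (M (nat_lit 157432470344531967)))))) (T.h (P (nat_lit 0)) (T.h (T.h (M (nat_lit 2389731705158014861311)) (T.h (P (nat_lit 0)) (M (nat_lit 13085180765306879)))) (T.h (P (nat_lit 0)) (M (nat_lit 737280053051391)))))) (T.h (T.h (P (nat_lit 0)) (T.h (T.h (P (nat_lit 0)) (P (nat_lit 43502318328160976896))) (P (nat_lit 0)))) (T.h (T.h (T.h (P (nat_lit 13155666161854431887360)) (T.h (P (nat_lit 0)) (M (nat_lit 344310799049883647)))) (T.h (P (nat_lit 0)) (M (nat_lit 84716766919393279)))) (T.h (P (nat_lit 0)) (P (nat_lit 86333522932170752))))))), (P (nat_lit 0)), (P (nat_lit 0))]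
def lQm_15 : List (T ℤ) := [(P (nat_lit 0)), (P (nat_lit 0)), (P (nat_lit 0)), (P (nat_lit 0)), (T.h (T.h (T.h (P (nat_lit 0)) (T.h (M (nat_lit 4046437473873126187115479039)) (T.h (P (nat_lit 0)) (T.h (P (nat_lit 8629264156460652167168)) (T.h (P (nat_lit 0)) (P (nat_lit 5566547675250688))))))) (T.h (P (nat_lit 0)) (T.h (T.h (P (nat_lit 0)) (T.h (P (nat_lit 11058639795145398026240)) (T.h (P (nat_lit 0)) (P (nat_lit 460861854810112))))) (T.h (P (nat_lit 0)) (T.h (T.h (P (nat_lit 0)) (M (nat_lit 1899368817328127))) (P (nat_lit 0))))))) (T.h (T.h (P (nat_lit 0)) (T.h (T.h (M (nat_lit 11771323360378338012037119)) (T.h (P (nat_lit 0)) (T.h (M (nat_lit 53348559484627189759)) (T.h (P (nat_lit 0)) (M (nat_lit 8729655611431)))))) (T.h (P (nat_lit 0)) (T.h (T.h (M (nat_lit 21742454913363869695)) (T.h (P (nat_lit 0)) (P (nat_lit 22199166475136)))) (T.h (P (nat_lit 0)) (P (nat_lit 4863280810600))))))) (T.h (T.h (T.h (P (nat_lit 0)) (T.h (P (nat_lit 35381343235723547901952))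 (T.h (P (nat_lit 0)) (P (nat_lit 9534341900369920))))) (T.h (P (nat_lit 0)) (T.h (T.h (P (nat_lit 0)) (M (nat_lit 6060853009612799))) (P (nat_lit 0))))) (T.h (T.h (P (nat_lit 0)) (T.h (T.h (M (nat_lit 7721819484343762943)) (T.h (P (nat_lit 0)) (M (nat_lit 24789354920255)))) (T.h (P (nat_lit 0)) (P (nat_lit 23745552648632))))) (T.h (T.h (T.h (P (nat_lit 0)) (P (nat_lit 8045505186660352))) (P (nat_lit 0))) (T.h (T.h (P (nat_lit 0)) (P (nat_lit 9351027505656))) (P (nat_lit 0)))))))), (T.h (T.h (T.h (P (nat_lit 86809079186767951930205203857408)) (T.h (P (nat_lit 0)) (T.h (M (nat_lit 2344628487712069071667199)) (T.h (P (nat_lit 0)) (T.h (M (nat_lit 29021417438497996799)) (T.h (P (nat_lit 0)) (M (nat_lit 15472739090591)))))))) (T.h (P (nat_lit 0)) (T.h (T.h (P (nat_lit 36031400753696434022252544)) (T.h (P (nat_lit 0)) (T.h (M (nat_lit 16327763553652047871)) (T.h (P (nat_lit 0)) (M (nat_lit 35169845347711)))))) (T.h (P (nat_lit 0)) (T.h (T.h (P (nat_lit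 58528156815194062848)) (T.h (P (nat_lit 0)) (M (nat_lit 22396963694271)))) (T.h (P (nat_lit 0)) (P (nat_lit 32079931261568)))))))) (T.h (T.h (P (nat_lit 0)) (T.h (T.h (P (nat_lit 0)) (T.h (P (nat_lit 59848340049032927772672)) (T.h (P (nat_lit 0)) (P (nat_lit 34322871671980032))))) (T.h (P (nat_lit 0)) (T.h (T.h (P (nat_lit 0)) (P (nat_lit 3353098598154240))) (P (nat_lit 0)))))) (T.h (T.h (T.h (M (nat_lit 36443918426805068705562623)) (T.h (P (nat_lit 0)) (T.h (M (nat_lit 47842095524028088319)) (T.h (P (nat_lit 0)) (P (nat_lit 28335036564160)))))) (T.h (P (nat_lit 0)) (T.h (T.h (M (nat_lit 61134090232989220863)) (T.h (P (nat_lit 0)) (M (nat_lit 22178401775167)))) (T.h (P (nat_lit 0)) (M (nat_lit 7076939740079)))))) (T.h (T.h (P (nat_lit 0)) (T.h (T.h (P (nat_lit 0)) (P (nat_lit 164587619966582784))) (P (nat_lit 0)))) (T.h (T.h (T.h (M (nat_lit 61090529252569251839)) (T.h (P (nat_lit 0)) (M (nat_lit 8128876489663)))) (T.h (P (nat_lit 0)) (M (nat_lit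 93345869782831)))) (T.h (P (nat_lit 0)) (M (nat_lit 61045729373567)))))))), (T.h (T.h (T.h (P (nat_lit 0)) (T.h (P (nat_lit 18765722672698315194899628032)) (T.h (P (nat_lit 0)) (T.h (P (nat_lit 23579592421698636349440)) (T.h (P (nat_lit 0)) (P (nat_lit 12000930136850432))))))) (T.h (P (nat_lit 0)) (T.h (T.h (P (nat_lit 0)) (T.h (P (nat_lit 115058167568772116774912)) (T.h (P (nat_lit 0)) (P (nat_lit 25670652112863232))))) (T.h (P (nat_lit 0)) (T.h (T.h (P (nat_lit 0)) (P (nat_lit 103189076392050688))) (P (nat_lit 0))))))) (T.h (T.h (P (nat_lit 0)) (T.h (T.h (P (nat_lit 24835050078617542714195968)) (T.h (P (nat_lit 0)) (T.h (P (nat_lit 128900549409064878080)) (T.h (P (nat_lit 0)) (M (nat_lit 26860824312191)))))) (T.h (P (nat_lit 0)) (T.h (T.h (P (nat_lit 42386563146822189056)) (T.h (P (nat_lit 0)) (M (nat_lit 6299933357695)))) (T.h (P (nat_lit 0)) (M (nat_lit 3655923658687))))))) (T.h (T.h (T.h (P (nat_lit 0)) (T.h (M (nat_lit 30521886510044407660543))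 (T.h (P (nat_lit 0)) (M (nat_lit 104514075428454399))))) (T.h (P (nat_lit 0)) (T.h (T.h (P (nat_lit 0)) (M (nat_lit 31961302718545919))) (P (nat_lit 0))))) (T.h (T.h (P (nat_lit 0)) (T.h (T.h (P (nat_lit 92842694536798928896)) (T.h (P (nat_lit 0)) (P (nat_lit 63976585455808)))) (T.h (P (nat_lit 0)) (M (nat_lit 141777948044415))))) (T.h (T.h (T.h (P (nat_lit 0)) (M (nat_lit 52964942878146559))) (P (nat_lit 0))) (T.h (T.h (P (nat_lit 0)) (M (nat_lit 22372417272255))) (P (nat_lit 0)))))))), (T.h (T.h (T.h (M (nat_lit 205475608593708555075071942590463)) (T.h (P (nat_lit 0)) (T.h (M (nat_lit 606963566151509353693183)) (T.h (P (nat_lit 0)) (T.h (P (nat_lit 37129636244552155136)) (T.h (P (nat_lit 0)) (P (nat_lit 14645707618464)))))))) (T.h (P (nat_lit 0)) (T.h (T.h (M (nat_lit 49326294657994179987111935)) (T.h (P (nat_lit 0)) (T.h (P (nat_lit 54087894479375695872)) (T.h (P (nat_lit 0)) (P (nat_lit 26406644853168)))))) (T.h (P (nat_lit 0)) (T.h (T.h (M (nat_lit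 98340197006326104063)) (T.h (P (nat_lit 0)) (P (nat_lit 133240626359424)))) (T.h (P (nat_lit 0)) (M (nat_lit 87410689135199)))))))) (T.h (T.h (P (nat_lit 0)) (T.h (T.h (P (nat_lit 0)) (T.h (M (nat_lit 115192297782243615571967)) (T.h (P (nat_lit 0)) (M (nat_lit 20318761883959295))))) (T.h (P (nat_lit 0)) (T.h (T.h (P (nat_lit 0)) (M (nat_lit 78731064540430335))) (P (nat_lit 0)))))) (T.h (T.h (T.h (P (nat_lit 30647609676432405136670720)) (T.h (P (nat_lit 0)) (T.h (P (nat_lit 160391609105522884608)) (T.h (P (nat_lit 0)) (M (nat_lit 77309147628143)))))) (T.h (P (nat_lit 0)) (T.h (T.h (P (nat_lit 211642940836456431616)) (T.h (P (nat_lit 0)) (P (nat_lit 14513604933888)))) (T.h (P (nat_lit 0)) (P (nat_lit 352154342018448)))))) (T.h (T.h (P (nat_lit 0)) (T.h (T.h (P (nat_lit 0)) (M (nat_lit 300902337197998079))) (P (nat_lit 0)))) (T.h (T.h (T.h (P (nat_lit 24552213189067014144)) (T.h (P (nat_lit 0)) (P (nat_lit 134195146157664)))) (T.h (P (nat_lit 0)) (P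 (nat_lit 499241730033216)))) (T.h (P (nat_lit 0)) (P (nat_lit 8713460479392))))))))]
def lQm_16 : List (T ℤ) := [(T.h (T.h (T.h (P (nat_lit 0)) (T.h (M (nat_lit 5287393795622230931927990271)) (T.h (P (nat_lit 0)) (T.h (M (nat_lit 10997930159462676430847)) (T.h (P (nat_lit 0)) (M (nat_lit 21976945639718911))))))) (T.h (P (nat_lit 0)) (T.h (T.h (P (nat_lit 0)) (T.h (M (nat_lit 11470395129475534684159)) (T.h (P (nat_lit 0)) (M (nat_lit 28259372670091263))))) (T.h (P (nat_lit 0)) (T.h (T.h (P (nat_lit 0)) (M (nat_lit 48452197856411647))) (P (nat_lit 0))))))) (T.h (T.h (P (nat_lit 0)) (T.h (T.h (M (nat_lit 7968129611153399804329983)) (T.h (P (nat_lit 0)) (P (nat_lit 28063542199158046720)))) (T.h (P (nat_lit 0)) (M (nat_lit 34246235936746635263))))) (T.h (T.h (T.h (P (nat_lit 0)) (T.h (M (nat_lit 37042947306702845771775)) (T.h (P (nat_lit 0)) (P (nat_lit 78374196030734336))))) (T.h (P (nat_lit 0)) (T.h (T.h (P (nat_lit 0)) (M (nat_lit 21820328043151359)))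 (P (nat_lit 0))))) (T.h (T.h (P (nat_lit 0)) (M (nat_lit 28918869486353776639))) (T.h (T.h (T.h (P (nat_lit 0)) (M (nat_lit 17184947940786175))) (P (nat_lit 0))) (P (nat_lit 0))))))), (P (nat_lit 0)), (P (nat_lit 0)), (T.h (T.h (P (nat_lit 0)) (T.h (T.h (M (nat_lit 15402168289072731171697197055)) (T.h (P (nat_lit 0)) (T.h (P (nat_lit 11981056555094214967296)) (T.h (P (nat_lit 0)) (P (nat_lit 4957158622429184)))))) (T.h (P (nat_lit 0)) (T.h (T.h (M (nat_lit 8933566045147298267135)) (T.h (P (nat_lit 0)) (P (nat_lit 6111597523468288)))) (T.h (P (nat_lit 0)) (P (nat_lit 4700088185651200))))))) (T.h (T.h (T.h (P (nat_lit 0)) (T.h (M (nat_lit 11846287897371344409460735)) (T.h (P (nat_lit 0)) (T.h (M (nat_lit 2067421660583034879)) (T.h (P (nat_lit 0)) (P (nat_lit 2269114281608))))))) (T.h (P (nat_lit 0)) (T.h (T.h (P (nat_lit 0)) (T.h (M (nat_lit 14151673906531926015)) (T.h (P (nat_lit 0)) (P (nat_lit 1225760817912))))) (T.h (P (nat_lit 0)) (T.h (T.h (P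 (nat_lit 0)) (M (nat_lit 40523289780495))) (P (nat_lit 0))))))) (T.h (T.h (P (nat_lit 0)) (T.h (T.h (P (nat_lit 11981056555094214967296)) (T.h (P (nat_lit 0)) (M (nat_lit 10988538740539391)))) (T.h (P (nat_lit 0)) (P (nat_lit 6111597523468288))))) (T.h (T.h (T.h (P (nat_lit 0)) (T.h (M (nat_lit 2067421660583034879)) (T.h (P (nat_lit 0)) (P (nat_lit 15762047440480))))) (T.h (P (nat_lit 0)) (T.h (T.h (P (nat_lit 0)) (P (nat_lit 1225760817912))) (P (nat_lit 0))))) (T.h (T.h (P (nat_lit 0)) (P (nat_lit 4957158622429184))) (T.h (T.h (T.h (P (nat_lit 0)) (P (nat_lit 2269114281608))) (P (nat_lit 0))) (P (nat_lit 0)))))))), (T.h (T.h (P (nat_lit 0)) (T.h (T.h (P (nat_lit 0)) (T.h (M (nat_lit 6799619440246064861413375)) (T.h (P (nat_lit 0)) (T.h (M (nat_lit 12514945616788324351)) (T.h (P (nat_lit 0)) (M (nat_lit 35685065481487))))))) (T.h (P (nat_lit 0)) (T.h (T.h (P (nat_lit 0)) (T.h (P (nat_lit 39462934967496998912)) (T.h (P (nat_lit 0)) (M (nat_lit 13381475394175)))))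 (T.h (P (nat_lit 0)) (T.h (T.h (P (nat_lit 0)) (P (nat_lit 15958812818176))) (P (nat_lit 0)))))))) (T.h (T.h (T.h (P (nat_lit 10079987083909034611327369216)) (T.h (P (nat_lit 0)) (T.h (M (nat_lit 37782109535124318060543)) (T.h (P (nat_lit 0)) (M (nat_lit 75512122738147327)))))) (T.h (P (nat_lit 0)) (T.h (T.h (M (nat_lit 11310640369533815095295)) (T.h (P (nat_lit 0)) (P (nat_lit 151495464121647104)))) (T.h (P (nat_lit 0)) (M (nat_lit 73608423624703999)))))) (T.h (T.h (P (nat_lit 0)) (T.h (T.h (P (nat_lit 0)) (T.h (M (nat_lit 17705015762189549567)) (T.h (P (nat_lit 0)) (M (nat_lit 1228216181215))))) (T.h (P (nat_lit 0)) (T.h (T.h (P (nat_lit 0)) (P (nat_lit 31589154588192))) (P (nat_lit 0)))))) (T.h (T.h (T.h (M (nat_lit 45300279559282594152447)) (T.h (P (nat_lit 0)) (M (nat_lit 47073572298719231)))) (T.h (P (nat_lit 0)) (P (nat_lit 6315630857781248)))) (T.h (T.h (P (nat_lit 0)) (T.h (T.h (P (nat_lit 0)) (M (nat_lit 6049335980319))) (P (nat_lit 0))))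 (M (nat_lit 23378992595042303))))))), (T.h (T.h (P (nat_lit 0)) (T.h (T.h (M (nat_lit 2329533710682329323256414207)) (T.h (P (nat_lit 0)) (T.h (M (nat_lit 54157787946408185167871)) (T.h (P (nat_lit 0)) (P (nat_lit 188300657747984384)))))) (T.h (P (nat_lit 0)) (T.h (T.h (P (nat_lit 44316061718040580980736)) (T.h (P (nat_lit 0)) (P (nat_lit 126055557227184128)))) (T.h (P (nat_lit 0)) (M (nat_lit 46707744146751487))))))) (T.h (T.h (T.h (P (nat_lit 0)) (T.h (P (nat_lit 92849442016214720519864320)) (T.h (P (nat_lit 0)) (T.h (P (nat_lit 4879699560999419904)) (T.h (P (nat_lit 0)) (M (nat_lit 80261662914943))))))) (T.h (P (nat_lit 0)) (T.h (T.h (P (nat_lit 0)) (T.h (M (nat_lit 37162643078086918143)) (T.h (P (nat_lit 0)) (P (nat_lit 127847904933184))))) (T.h (P (nat_lit 0)) (T.h (T.h (P (nat_lit 0)) (P (nat_lit 1144468606656))) (P (nat_lit 0))))))) (T.h (T.h (P (nat_lit 0)) (T.h (T.h (P (nat_lit 4759270580204760727552)) (T.h (P (nat_lit 0)) (P (nat_lit 105894992781312000))))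 (T.h (P (nat_lit 0)) (M (nat_lit 58487381201682431))))) (T.h (T.h (T.h (P (nat_lit 0)) (T.h (M (nat_lit 18730425569333215231)) (T.h (P (nat_lit 0)) (M (nat_lit 52990702494399))))) (T.h (P (nat_lit 0)) (T.h (T.h (P (nat_lit 0)) (M (nat_lit 24709703586559))) (P (nat_lit 0))))) (T.h (T.h (P (nat_lit 0)) (M (nat_lit 4352544021512191))) (T.h (T.h (T.h (P (nat_lit 0)) (P (nat_lit 1918557931520))) (P (nat_lit 0))) (P (nat_lit 0)))))))), (T.h (T.h (P (nat_lit 0)) (T.h (T.h (P (nat_lit 0)) (T.h (P (nat_lit 103001419594148129347207168)) (T.h (P (nat_lit 0)) (T.h (M (nat_lit 54963012511008292863)) (T.h (P (nat_lit 0)) (P (nat_lit 32752559787552))))))) (T.h (P (nat_lit 0)) (T.h (T.h (P (nat_lit 0)) (T.h (M (nat_lit 77790327255810965503)) (T.h (P (nat_lit 0)) (P (nat_lit 12834186665184))))) (T.h (P (nat_lit 0)) (T.h (T.h (P (nat_lit 0)) (M (nat_lit 45849852608687))) (P (nat_lit 0)))))))) (T.h (T.h (T.h (M (nat_lit 72478261872372897710639939583)) (T.h (P (nat_lit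 0)) (T.h (M (nat_lit 29227457131615847710719)) (T.h (P (nat_lit 0)) (P (nat_lit 120914351725740032)))))) (T.h (P (nat_lit 0)) (T.h (T.h (M (nat_lit 155514434487671085596671)) (T.h (P (nat_lit 0)) (P (nat_lit 26519925572091904)))) (T.h (P (nat_lit 0)) (P (nat_lit 98322677260517376)))))) (T.h (T.h (P (nat_lit 0)) (T.h (T.h (P (nat_lit 0)) (T.h (M (nat_lit 68199807893534408703)) (T.h (P (nat_lit 0)) (M (nat_lit 3247963595855))))) (T.h (P (nat_lit 0)) (T.h (T.h (P (nat_lit 0)) (M (nat_lit 215827605369791))) (P (nat_lit 0)))))) (T.h (T.h (T.h (P (nat_lit 87123053949393083301888)) (T.h (P (nat_lit 0)) (P (nat_lit 155218703881830400)))) (T.h (P (nat_lit 0)) (P (nat_lit 139103987127779328)))) (T.h (T.h (P (nat_lit 0)) (T.h (T.h (P (nat_lit 0)) (M (nat_lit 139411251903167))) (P (nat_lit 0)))) (M (nat_lit 23341432239112191))))))), (T.h (T.h (P (nat_lit 0)) (T.h (T.h (M (nat_lit 1043116937690069580088606719)) (T.h (P (nat_lit 0)) (T.h (P (nat_lit 12925985027821664206848))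 (T.h (P (nat_lit 0)) (M (nat_lit 70522602099113983)))))) (T.h (P (nat_lit 0)) (T.h (T.h (P (nat_lit 61764923110046956519424)) (T.h (P (nat_lit 0)) (M (nat_lit 121260396594069503)))) (T.h (P (nat_lit 0)) (P (nat_lit 114189388980387840))))))) (T.h (T.h (T.h (P (nat_lit 0)) (T.h (M (nat_lit 18488068673796538873413631)) (T.h (P (nat_lit 0)) (P (nat_lit 13067073905649254400))))) (T.h (P (nat_lit 0)) (T.h (T.h (P (nat_lit 0)) (M (nat_lit 3225623507505250303))) (P (nat_lit 0))))) (T.h (T.h (P (nat_lit 0)) (T.h (T.h (M (nat_lit 101464149854981390860287)) (T.h (P (nat_lit 0)) (P (nat_lit 21950935167303680)))) (T.h (P (nat_lit 0)) (M (nat_lit 293207130200866815))))) (T.h (T.h (T.h (P (nat_lit 0)) (M (nat_lit 3412449340189310975))) (P (nat_lit 0))) (T.h (T.h (P (nat_lit 0)) (M (nat_lit 273430289931173887))) (P (nat_lit 0)))))))]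
def lQm_17 : List (T ℤ) := [(P (nat_lit 0)), (P (nat_lit 0)), (T.h (T.h (T.h (P (nat_lit 0)) (T.h (M (nat_lit 15402168289072731171697197055)) (T.h (P (nat_lit 0)) (T.h (M (nat_lit 8933566045147298267135)) (T.h (P (nat_lit 0)) (P (nat_lit 4700088185651200))))))) (T.h (P (nat_lit 0)) (T.h (T.h (P (nat_lit 0)) (T.h (P (nat_lit 11981056555094214967296)) (T.h (P (nat_lit 0)) (P (nat_lit 6111597523468288))))) (T.h (P (nat_lit 0)) (T.h (T.h (P (nat_lit 0)) (P (nat_lit 4957158622429184))) (P (nat_lit 0))))))) (T.h (T.h (P (nat_lit 0)) (T.h (T.h (M (nat_lit 11846287897371344409460735)) (T.h (P (nat_lit 0)) (T.h (M (nat_lit 14151673906531926015)) (T.h (P (nat_lit 0)) (M (nat_lit 40523289780495)))))) (T.h (P (nat_lit 0)) (T.h (T.h (M (nat_lit 2067421660583034879)) (T.h (P (nat_lit 0)) (P (nat_lit 1225760817912)))) (T.h (P (nat_lit 0)) (P (nat_lit 2269114281608))))))) (T.h (T.h (T.h (P (nat_lit 0)) (T.h (P (nat_lit 11981056555094214967296)) (T.h (P (nat_lit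 0)) (P (nat_lit 6111597523468288))))) (T.h (P (nat_lit 0)) (T.h (T.h (P (nat_lit 0)) (M (nat_lit 10988538740539391))) (P (nat_lit 0))))) (T.h (T.h (P (nat_lit 0)) (T.h (T.h (M (nat_lit 2067421660583034879)) (T.h (P (nat_lit 0)) (P (nat_lit 1225760817912)))) (T.h (P (nat_lit 0)) (P (nat_lit 15762047440480))))) (T.h (T.h (T.h (P (nat_lit 0)) (P (nat_lit 4957158622429184))) (P (nat_lit 0))) (T.h (T.h (P (nat_lit 0)) (P (nat_lit 2269114281608))) (P (nat_lit 0)))))))), (T.h (T.h (T.h (M (nat_lit 77231319178379078265351538999295)) (T.h (P (nat_lit 0)) (T.h (P (nat_lit 1688235537749565272752128)) (T.h (P (nat_lit 0)) (T.h (P (nat_lit 8481067691434573824)) (T.h (P (nat_lit 0)) (M (nat_lit 5983445519231)))))))) (T.h (P (nat_lit 0)) (T.h (T.h (P (nat_lit 1688235537749565272752128)) (T.h (P (nat_lit 0)) (T.h (P (nat_lit 100302160290373435392)) (T.h (P (nat_lit 0)) (M (nat_lit 5301778427135)))))) (T.h (P (nat_lit 0)) (T.h (T.h (P (nat_lit 8481067691434573824))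 (T.h (P (nat_lit 0)) (M (nat_lit 5301778427135)))) (T.h (P (nat_lit 0)) (M (nat_lit 5983445519231)))))))) (T.h (T.h (P (nat_lit 0)) (T.h (T.h (P (nat_lit 0)) (T.h (M (nat_lit 41212133649524119830527)) (T.h (P (nat_lit 0)) (M (nat_lit 142036734802657279))))) (T.h (P (nat_lit 0)) (T.h (T.h (P (nat_lit 0)) (M (nat_lit 142036734802657279))) (P (nat_lit 0)))))) (T.h (T.h (T.h (P (nat_lit 1688235537749565272752128)) (T.h (P (nat_lit 0)) (T.h (P (nat_lit 100302160290373435392)) (T.h (P (nat_lit 0)) (M (nat_lit 5301778427135)))))) (T.h (P (nat_lit 0)) (T.h (T.h (P (nat_lit 100302160290373435392)) (T.h (P (nat_lit 0)) (P (nat_lit 316665119520)))) (T.h (P (nat_lit 0)) (M (nat_lit 5301778427135)))))) (T.h (T.h (P (nat_lit 0)) (T.h (T.h (P (nat_lit 0)) (M (nat_lit 142036734802657279))) (P (nat_lit 0)))) (T.h (T.h (T.h (P (nat_lit 8481067691434573824)) (T.h (P (nat_lit 0)) (M (nat_lit 5301778427135)))) (T.h (P (nat_lit 0)) (M (nat_lit 5301778427135)))) (T.h (P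 (nat_lit 0)) (M (nat_lit 5983445519231)))))))), (T.h (T.h (T.h (P (nat_lit 0)) (T.h (M (nat_lit 137196224813863059226361855999)) (T.h (P (nat_lit 0)) (T.h (P (nat_lit 45524896216863744196608)) (T.h (P (nat_lit 0)) (M (nat_lit 40952504014077951))))))) (T.h (P (nat_lit 0)) (T.h (T.h (P (nat_lit 0)) (T.h (P (nat_lit 11969265976788375306240)) (T.h (P (nat_lit 0)) (P (nat_lit 15827926362619904))))) (T.h (P (nat_lit 0)) (T.h (T.h (P (nat_lit 0)) (P (nat_lit 197493002011443200))) (P (nat_lit 0))))))) (T.h (T.h (P (nat_lit 0)) (T.h (T.h (P (nat_lit 61333752047693800807596032)) (T.h (P (nat_lit 0)) (T.h (M (nat_lit 498117621935436201983)) (T.h (P (nat_lit 0)) (M (nat_lit 227293147714175)))))) (T.h (P (nat_lit 0)) (T.h (T.h (M (nat_lit 65998401808849960959)) (T.h (P (nat_lit 0)) (P (nat_lit 52226798296128)))) (T.h (P (nat_lit 0)) (M (nat_lit 35938917754047))))))) (T.h (T.h (T.h (P (nat_lit 0)) (T.h (P (nat_lit 11969265976788375306240)) (T.h (P (nat_lit 0))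 (P (nat_lit 15827926362619904))))) (T.h (P (nat_lit 0)) (T.h (T.h (P (nat_lit 0)) (M (nat_lit 23208470546743295))) (P (nat_lit 0))))) (T.h (T.h (P (nat_lit 0)) (T.h (T.h (M (nat_lit 65998401808849960959)) (T.h (P (nat_lit 0)) (P (nat_lit 52226798296128)))) (T.h (P (nat_lit 0)) (P (nat_lit 57247031089408))))) (T.h (T.h (T.h (P (nat_lit 0)) (P (nat_lit 197493002011443200))) (P (nat_lit 0))) (T.h (T.h (P (nat_lit 0)) (M (nat_lit 35938917754047))) (P (nat_lit 0)))))))), (T.h (T.h (T.h (M (nat_lit 142662334021017626468049225777151)) (T.h (P (nat_lit 0)) (T.h (M (nat_lit 98125863949076212247166975)) (T.h (P (nat_lit 0)) (T.h (M (nat_lit 103377707555302146047)) (T.h (P (nat_lit 0)) (M (nat_lit 31009392773855)))))))) (T.h (P (nat_lit 0)) (T.h (T.h (M (nat_lit 7987408574276351243059199)) (T.h (P (nat_lit 0)) (T.h (M (nat_lit 551162162588304801791)) (T.h (P (nat_lit 0)) (M (nat_lit 24735861633167)))))) (T.h (P (nat_lit 0)) (T.h (T.h (P (nat_lit 104014889186685353984))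 (T.h (P (nat_lit 0)) (P (nat_lit 15277453196976)))) (T.h (P (nat_lit 0)) (P (nat_lit 47753976709152)))))))) (T.h (T.h (P (nat_lit 0)) (T.h (T.h (P (nat_lit 0)) (T.h (P (nat_lit 570200279855479996284928)) (T.h (P (nat_lit 0)) (P (nat_lit 98114008135958528))))) (T.h (P (nat_lit 0)) (T.h (T.h (P (nat_lit 0)) (P (nat_lit 632807680434405376))) (P (nat_lit 0)))))) (T.h (T.h (T.h (M (nat_lit 7987408574276351243059199)) (T.h (P (nat_lit 0)) (T.h (M (nat_lit 551162162588304801791)) (T.h (P (nat_lit 0)) (M (nat_lit 24735861633167)))))) (T.h (P (nat_lit 0)) (T.h (T.h (P (nat_lit 481755780554466263040)) (T.h (P (nat_lit 0)) (M (nat_lit 139261050150047)))) (T.h (P (nat_lit 0)) (P (nat_lit 24553582891632)))))) (T.h (T.h (P (nat_lit 0)) (T.h (T.h (P (nat_lit 0)) (P (nat_lit 632807680434405376))) (P (nat_lit 0)))) (T.h (T.h (T.h (P (nat_lit 104014889186685353984)) (T.h (P (nat_lit 0)) (P (nat_lit 15277453196976)))) (T.h (P (nat_lit 0)) (P (nat_lit 24553582891632))))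 (T.h (P (nat_lit 0)) (P (nat_lit 47753976709152)))))))), (T.h (T.h (T.h (P (nat_lit 0)) (T.h (P (nat_lit 18533547533791401124823040000)) (T.h (P (nat_lit 0)) (T.h (P (nat_lit 33280740286881974976512)) (T.h (P (nat_lit 0)) (P (nat_lit 27432103723925504))))))) (T.h (P (nat_lit 0)) (T.h (T.h (P (nat_lit 0)) (T.h (P (nat_lit 203247636894042950729728)) (T.h (P (nat_lit 0)) (P (nat_lit 14492751674703872))))) (T.h (P (nat_lit 0)) (T.h (T.h (P (nat_lit 0)) (P (nat_lit 76937809590648832))) (P (nat_lit 0))))))) (T.h (T.h (P (nat_lit 0)) (T.h (T.h (P (nat_lit 24362427025986149431640064)) (T.h (P (nat_lit 0)) (M (nat_lit 99066322717822156799)))) (T.h (P (nat_lit 0)) (M (nat_lit 270015642585305972735))))) (T.h (T.h (T.h (P (nat_lit 0)) (T.h (P (nat_lit 203247636894042950729728)) (T.h (P (nat_lit 0)) (P (nat_lit 14492751674703872))))) (T.h (P (nat_lit 0)) (T.h (T.h (P (nat_lit 0)) (P (nat_lit 358055875133177856))) (P (nat_lit 0))))) (T.h (T.h (P (nat_lit 0)) (M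 (nat_lit 270015642585305972735))) (T.h (T.h (T.h (P (nat_lit 0)) (P (nat_lit 76937809590648832))) (P (nat_lit 0))) (P (nat_lit 0))))))), (P (nat_lit 0))]
def lQm_18 : List (T ℤ) := [(P (nat_lit 0)), (T.h (T.h (P (nat_lit 0)) (T.h (T.h (M (nat_lit 4046437473873126187115479039)) (T.h (P (nat_lit 0)) (T.h (P (nat_lit 11058639795145398026240)) (T.h (P (nat_lit 0)) (M (nat_lit 1899368817328127)))))) (T.h (P (nat_lit 0)) (T.h (T.h (P (nat_lit 8629264156460652167168)) (T.h (P (nat_lit 0)) (P (nat_lit 460861854810112)))) (T.h (P (nat_lit 0)) (P (nat_lit 5566547675250688))))))) (T.h (T.h (T.h (P (nat_lit 0)) (T.h (M (nat_lit 11771323360378338012037119)) (T.h (P (nat_lit 0)) (T.h (M (nat_lit 21742454913363869695)) (T.h (P (nat_lit 0)) (P (nat_lit 4863280810600))))))) (T.h (P (nat_lit 0)) (T.h (T.h (P (nat_lit 0)) (T.h (M (nat_lit 53348559484627189759)) (T.h (P (nat_lit 0)) (P (nat_lit 22199166475136))))) (T.h (P (nat_lit 0)) (T.h (T.h (P (nat_lit 0)) (M (nat_lit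 8729655611431))) (P (nat_lit 0))))))) (T.h (T.h (P (nat_lit 0)) (T.h (T.h (P (nat_lit 35381343235723547901952)) (T.h (P (nat_lit 0)) (M (nat_lit 6060853009612799)))) (T.h (P (nat_lit 0)) (P (nat_lit 9534341900369920))))) (T.h (T.h (T.h (P (nat_lit 0)) (T.h (M (nat_lit 7721819484343762943)) (T.h (P (nat_lit 0)) (P (nat_lit 23745552648632))))) (T.h (P (nat_lit 0)) (T.h (T.h (P (nat_lit 0)) (M (nat_lit 24789354920255))) (P (nat_lit 0))))) (T.h (T.h (P (nat_lit 0)) (P (nat_lit 8045505186660352))) (T.h (T.h (T.h (P (nat_lit 0)) (P (nat_lit 9351027505656))) (P (nat_lit 0))) (P (nat_lit 0)))))))), (T.h (T.h (P (nat_lit 0)) (T.h (T.h (P (nat_lit 0)) (T.h (M (nat_lit 6799619440246064861413375)) (T.h (P (nat_lit 0)) (T.h (P (nat_lit 39462934967496998912)) (T.h (P (nat_lit 0)) (P (nat_lit 15958812818176))))))) (T.h (P (nat_lit 0)) (T.h (T.h (P (nat_lit 0)) (T.h (M (nat_lit 12514945616788324351)) (T.h (P (nat_lit 0)) (M (nat_lit 13381475394175))))) (T.h (P (nat_lit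 0)) (T.h (T.h (P (nat_lit 0)) (M (nat_lit 35685065481487))) (P (nat_lit 0)))))))) (T.h (T.h (T.h (P (nat_lit 10079987083909034611327369216)) (T.h (P (nat_lit 0)) (T.h (M (nat_lit 11310640369533815095295)) (T.h (P (nat_lit 0)) (M (nat_lit 73608423624703999)))))) (T.h (P (nat_lit 0)) (T.h (T.h (M (nat_lit 37782109535124318060543)) (T.h (P (nat_lit 0)) (P (nat_lit 151495464121647104)))) (T.h (P (nat_lit 0)) (M (nat_lit 75512122738147327)))))) (T.h (T.h (P (nat_lit 0)) (T.h (T.h (P (nat_lit 0)) (T.h (M (nat_lit 17705015762189549567)) (T.h (P (nat_lit 0)) (P (nat_lit 31589154588192))))) (T.h (P (nat_lit 0)) (T.h (T.h (P (nat_lit 0)) (M (nat_lit 1228216181215))) (P (nat_lit 0)))))) (T.h (T.h (T.h (M (nat_lit 45300279559282594152447)) (T.h (P (nat_lit 0)) (P (nat_lit 6315630857781248)))) (T.h (P (nat_lit 0)) (M (nat_lit 47073572298719231)))) (T.h (T.h (P (nat_lit 0)) (T.h (T.h (P (nat_lit 0)) (M (nat_lit 6049335980319))) (P (nat_lit 0)))) (M (nat_lit 23378992595042303))))))),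 (T.h (T.h (P (nat_lit 0)) (T.h (T.h (M (nat_lit 137196224813863059226361855999)) (T.h (P (nat_lit 0)) (T.h (P (nat_lit 11969265976788375306240)) (T.h (P (nat_lit 0)) (P (nat_lit 197493002011443200)))))) (T.h (P (nat_lit 0)) (T.h (T.h (P (nat_lit 45524896216863744196608)) (T.h (P (nat_lit 0)) (P (nat_lit 15827926362619904)))) (T.h (P (nat_lit 0)) (M (nat_lit 40952504014077951))))))) (T.h (T.h (T.h (P (nat_lit 0)) (T.h (P (nat_lit 61333752047693800807596032)) (T.h (P (nat_lit 0)) (T.h (M (nat_lit 65998401808849960959)) (T.h (P (nat_lit 0)) (M (nat_lit 35938917754047))))))) (T.h (P (nat_lit 0)) (T.h (T.h (P (nat_lit 0)) (T.h (M (nat_lit 498117621935436201983)) (T.h (P (nat_lit 0)) (P (nat_lit 52226798296128))))) (T.h (P (nat_lit 0)) (T.h (T.h (P (nat_lit 0)) (M (nat_lit 227293147714175))) (P (nat_lit 0))))))) (T.h (T.h (P (nat_lit 0)) (T.h (T.h (P (nat_lit 11969265976788375306240)) (T.h (P (nat_lit 0)) (M (nat_lit 23208470546743295)))) (T.h (P (nat_lit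 0)) (P (nat_lit 15827926362619904))))) (T.h (T.h (T.h (P (nat_lit 0)) (T.h (M (nat_lit 65998401808849960959)) (T.h (P (nat_lit 0)) (P (nat_lit 57247031089408))))) (T.h (P (nat_lit 0)) (T.h (T.h (P (nat_lit 0)) (P (nat_lit 52226798296128))) (P (nat_lit 0))))) (T.h (T.h (P (nat_lit 0)) (P (nat_lit 197493002011443200))) (T.h (T.h (T.h (P (nat_lit 0)) (M (nat_lit 35938917754047))) (P (nat_lit 0))) (P (nat_lit 0)))))))), (T.h (T.h (P (nat_lit 0)) (T.h (T.h (P (nat_lit 0)) (T.h (M (nat_lit 514614921797266848826261503)) (T.h (P (nat_lit 0)) (T.h (M (nat_lit 435331248481649033215)) (T.h (P (nat_lit 0)) (M (nat_lit 27957633716591))))))) (T.h (P (nat_lit 0)) (T.h (T.h (P (nat_lit 0)) (T.h (M (nat_lit 435331248481649033215)) (T.h (P (nat_lit 0)) (P (nat_lit 25282717852608))))) (T.h (P (nat_lit 0)) (T.h (T.h (P (nat_lit 0)) (M (nat_lit 27957633716591))) (P (nat_lit 0)))))))) (T.h (T.h (T.h (P (nat_lit 91203306126304633965942669312)) (T.h (P (nat_lit 0)) (T.h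 (P (nat_lit 398141365652129616756736)) (T.h (P (nat_lit 0)) (P (nat_lit 199072849373184000)))))) (T.h (P (nat_lit 0)) (T.h (T.h (P (nat_lit 398141365652129616756736)) (T.h (P (nat_lit 0)) (P (nat_lit 395490395723497472)))) (T.h (P (nat_lit 0)) (P (nat_lit 199072849373184000)))))) (T.h (T.h (P (nat_lit 0)) (T.h (T.h (P (nat_lit 0)) (T.h (M (nat_lit 943500187785951707135)) (T.h (P (nat_lit 0)) (M (nat_lit 171975504489407))))) (T.h (P (nat_lit 0)) (T.h (T.h (P (nat_lit 0)) (M (nat_lit 171975504489407))) (P (nat_lit 0)))))) (T.h (T.h (T.h (M (nat_lit 192163900534887332970495)) (T.h (P (nat_lit 0)) (P (nat_lit 198945184817594368)))) (T.h (P (nat_lit 0)) (P (nat_lit 198945184817594368)))) (T.h (T.h (P (nat_lit 0)) (T.h (T.h (P (nat_lit 0)) (M (nat_lit 261193932124991))) (P (nat_lit 0)))) (P (nat_lit 7962562553348096))))))), (T.h (T.h (P (nat_lit 0)) (T.h (T.h (P (nat_lit 1067389163542256608104939520)) (T.h (P (nat_lit 0)) (T.h (P (nat_lit 407360935313068118769664))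 (T.h (P (nat_lit 0)) (P (nat_lit 48133197116178432)))))) (T.h (P (nat_lit 0)) (T.h (T.h (P (nat_lit 9817218760697314279424)) (T.h (P (nat_lit 0)) (P (nat_lit 6549343357075456)))) (T.h (P (nat_lit 0)) (M (nat_lit 76460755406553087))))))) (T.h (T.h (T.h (P (nat_lit 0)) (T.h (M (nat_lit 125633492677827405925056511)) (T.h (P (nat_lit 0)) (M (nat_lit 119329832181008695295))))) (T.h (P (nat_lit 0)) (T.h (T.h (P (nat_lit 0)) (M (nat_lit 841263043033434161151))) (P (nat_lit 0))))) (T.h (T.h (P (nat_lit 0)) (T.h (T.h (M (nat_lit 15847429164132177281023)) (T.h (P (nat_lit 0)) (P (nat_lit 267824939245535232)))) (T.h (P (nat_lit 0)) (P (nat_lit 18419990244458496))))) (T.h (T.h (T.h (P (nat_lit 0)) (M (nat_lit 205038297114285703167))) (P (nat_lit 0))) (T.h (T.h (P (nat_lit 0)) (P (nat_lit 11879250200887296))) (P (nat_lit 0))))))), (P (nat_lit 0)), (P (nat_lit 0))]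
def lQm_19 : List (T ℤ) := [(T.h (T.h (T.h (P (nat_lit 86809079186767951930205203857408)) (T.h (P (nat_lit 0)) (T.h (P (nat_lit 36031400753696434022252544)) (T.h (P (nat_lit 0)) (T.h (P (nat_lit 58528156815194062848)) (T.h (P (nat_lit 0)) (P (nat_lit 32079931261568)))))))) (T.h (P (nat_lit 0)) (T.h (T.h (M (nat_lit 2344628487712069071667199)) (T.h (P (nat_lit 0)) (T.h (M (nat_lit 16327763553652047871)) (T.h (P (nat_lit 0)) (M (nat_lit 22396963694271)))))) (T.h (P (nat_lit 0)) (T.h (T.h (M (nat_lit 29021417438497996799)) (T.h (P (nat_lit 0)) (M (nat_lit 35169845347711)))) (T.h (P (nat_lit 0)) (M (nat_lit 15472739090591)))))))) (T.h (T.h (P (nat_lit 0)) (T.h (T.h (P (nat_lit 0)) (T.h (P (nat_lit 59848340049032927772672)) (T.h (P (nat_lit 0)) (P (nat_lit 3353098598154240))))) (T.h (P (nat_lit 0)) (T.h (T.h (P (nat_lit 0)) (P (nat_lit 34322871671980032))) (P (nat_lit 0)))))) (T.h (T.h (T.h (M (nat_lit 36443918426805068705562623)) (T.h (P (nat_lit 0))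 (T.h (M (nat_lit 61134090232989220863)) (T.h (P (nat_lit 0)) (M (nat_lit 7076939740079)))))) (T.h (P (nat_lit 0)) (T.h (T.h (M (nat_lit 47842095524028088319)) (T.h (P (nat_lit 0)) (M (nat_lit 22178401775167)))) (T.h (P (nat_lit 0)) (P (nat_lit 28335036564160)))))) (T.h (T.h (P (nat_lit 0)) (T.h (T.h (P (nat_lit 0)) (P (nat_lit 164587619966582784))) (P (nat_lit 0)))) (T.h (T.h (T.h (M (nat_lit 61090529252569251839)) (T.h (P (nat_lit 0)) (M (nat_lit 93345869782831)))) (T.h (P (nat_lit 0)) (M (nat_lit 8128876489663)))) (T.h (P (nat_lit 0)) (M (nat_lit 61045729373567)))))))), (T.h (T.h (T.h (P (nat_lit 0)) (T.h (M (nat_lit 2329533710682329323256414207)) (T.h (P (nat_lit 0)) (T.h (P (nat_lit 44316061718040580980736)) (T.h (P (nat_lit 0)) (M (nat_lit 46707744146751487))))))) (T.h (P (nat_lit 0)) (T.h (T.h (P (nat_lit 0)) (T.h (M (nat_lit 54157787946408185167871)) (T.h (P (nat_lit 0)) (P (nat_lit 126055557227184128))))) (T.h (P (nat_lit 0)) (T.h (T.h (P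 (nat_lit 0)) (P (nat_lit 188300657747984384))) (P (nat_lit 0))))))) (T.h (T.h (P (nat_lit 0)) (T.h (T.h (P (nat_lit 92849442016214720519864320)) (T.h (P (nat_lit 0)) (T.h (M (nat_lit 37162643078086918143)) (T.h (P (nat_lit 0)) (P (nat_lit 1144468606656)))))) (T.h (P (nat_lit 0)) (T.h (T.h (P (nat_lit 4879699560999419904)) (T.h (P (nat_lit 0)) (P (nat_lit 127847904933184)))) (T.h (P (nat_lit 0)) (M (nat_lit 80261662914943))))))) (T.h (T.h (T.h (P (nat_lit 0)) (T.h (P (nat_lit 4759270580204760727552)) (T.h (P (nat_lit 0)) (M (nat_lit 58487381201682431))))) (T.h (P (nat_lit 0)) (T.h (T.h (P (nat_lit 0)) (P (nat_lit 105894992781312000))) (P (nat_lit 0))))) (T.h (T.h (P (nat_lit 0)) (T.h (T.h (M (nat_lit 18730425569333215231)) (T.h (P (nat_lit 0)) (M (nat_lit 24709703586559)))) (T.h (P (nat_lit 0)) (M (nat_lit 52990702494399))))) (T.h (T.h (T.h (P (nat_lit 0)) (M (nat_lit 4352544021512191))) (P (nat_lit 0))) (T.h (T.h (P (nat_lit 0)) (P (nat_lit 1918557931520)))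 (P (nat_lit 0)))))))), (T.h (T.h (T.h (M (nat_lit 142662334021017626468049225777151)) (T.h (P (nat_lit 0)) (T.h (M (nat_lit 7987408574276351243059199)) (T.h (P (nat_lit 0)) (T.h (P (nat_lit 104014889186685353984)) (T.h (P (nat_lit 0)) (P (nat_lit 47753976709152)))))))) (T.h (P (nat_lit 0)) (T.h (T.h (M (nat_lit 98125863949076212247166975)) (T.h (P (nat_lit 0)) (T.h (M (nat_lit 551162162588304801791)) (T.h (P (nat_lit 0)) (P (nat_lit 15277453196976)))))) (T.h (P (nat_lit 0)) (T.h (T.h (M (nat_lit 103377707555302146047)) (T.h (P (nat_lit 0)) (M (nat_lit 24735861633167)))) (T.h (P (nat_lit 0)) (M (nat_lit 31009392773855)))))))) (T.h (T.h (P (nat_lit 0)) (T.h (T.h (P (nat_lit 0)) (T.h (P (nat_lit 570200279855479996284928)) (T.h (P (nat_lit 0)) (P (nat_lit 632807680434405376))))) (T.h (P (nat_lit 0)) (T.h (T.h (P (nat_lit 0)) (P (nat_lit 98114008135958528))) (P (nat_lit 0)))))) (T.h (T.h (T.h (M (nat_lit 7987408574276351243059199)) (T.h (P (nat_lit 0))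 (T.h (P (nat_lit 481755780554466263040)) (T.h (P (nat_lit 0)) (P (nat_lit 24553582891632)))))) (T.h (P (nat_lit 0)) (T.h (T.h (M (nat_lit 551162162588304801791)) (T.h (P (nat_lit 0)) (M (nat_lit 139261050150047)))) (T.h (P (nat_lit 0)) (M (nat_lit 24735861633167)))))) (T.h (T.h (P (nat_lit 0)) (T.h (T.h (P (nat_lit 0)) (P (nat_lit 632807680434405376))) (P (nat_lit 0)))) (T.h (T.h (T.h (P (nat_lit 104014889186685353984)) (T.h (P (nat_lit 0)) (P (nat_lit 24553582891632)))) (T.h (P (nat_lit 0)) (P (nat_lit 15277453196976)))) (T.h (P (nat_lit 0)) (P (nat_lit 47753976709152)))))))), (T.h (T.h (T.h (P (nat_lit 0)) (T.h (P (nat_lit 1067389163542256608104939520)) (T.h (P (nat_lit 0)) (T.h (P (nat_lit 9817218760697314279424)) (T.h (P (nat_lit 0)) (M (nat_lit 76460755406553087))))))) (T.h (P (nat_lit 0)) (T.h (T.h (P (nat_lit 0)) (T.h (P (nat_lit 407360935313068118769664)) (T.h (P (nat_lit 0)) (P (nat_lit 6549343357075456))))) (T.h (P (nat_lit 0)) (T.h (T.h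 (P (nat_lit 0)) (P (nat_lit 48133197116178432))) (P (nat_lit 0))))))) (T.h (T.h (P (nat_lit 0)) (T.h (T.h (M (nat_lit 125633492677827405925056511)) (T.h (P (nat_lit 0)) (M (nat_lit 841263043033434161151)))) (T.h (P (nat_lit 0)) (M (nat_lit 119329832181008695295))))) (T.h (T.h (T.h (P (nat_lit 0)) (T.h (M (nat_lit 15847429164132177281023)) (T.h (P (nat_lit 0)) (P (nat_lit 18419990244458496))))) (T.h (P (nat_lit 0)) (T.h (T.h (P (nat_lit 0)) (P (nat_lit 267824939245535232))) (P (nat_lit 0))))) (T.h (T.h (P (nat_lit 0)) (M (nat_lit 205038297114285703167))) (T.h (T.h (T.h (P (nat_lit 0)) (P (nat_lit 11879250200887296))) (P (nat_lit 0))) (P (nat_lit 0))))))), (P (nat_lit 0)), (P (nat_lit 0)), (T.h (T.h (P (nat_lit 0)) (T.h (T.h (P (nat_lit 18765722672698315194899628032)) (T.h (P (nat_lit 0)) (T.h (P (nat_lit 115058167568772116774912)) (T.h (P (nat_lit 0)) (P (nat_lit 103189076392050688)))))) (T.h (P (nat_lit 0)) (T.h (T.h (P (nat_lit 23579592421698636349440))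 (T.h (P (nat_lit 0)) (P (nat_lit 25670652112863232)))) (T.h (P (nat_lit 0)) (P (nat_lit 12000930136850432))))))) (T.h (T.h (T.h (P (nat_lit 0)) (T.h (P (nat_lit 24835050078617542714195968)) (T.h (P (nat_lit 0)) (T.h (P (nat_lit 42386563146822189056)) (T.h (P (nat_lit 0)) (M (nat_lit 3655923658687))))))) (T.h (P (nat_lit 0)) (T.h (T.h (P (nat_lit 0)) (T.h (P (nat_lit 128900549409064878080)) (T.h (P (nat_lit 0)) (M (nat_lit 6299933357695))))) (T.h (P (nat_lit 0)) (T.h (T.h (P (nat_lit 0)) (M (nat_lit 26860824312191))) (P (nat_lit 0))))))) (T.h (T.h (P (nat_lit 0)) (T.h (T.h (M (nat_lit 30521886510044407660543)) (T.h (P (nat_lit 0)) (M (nat_lit 31961302718545919)))) (T.h (P (nat_lit 0)) (M (nat_lit 104514075428454399))))) (T.h (T.h (T.h (P (nat_lit 0)) (T.h (P (nat_lit 92842694536798928896)) (T.h (P (nat_lit 0)) (M (nat_lit 141777948044415))))) (T.h (P (nat_lit 0)) (T.h (T.h (P (nat_lit 0)) (P (nat_lit 63976585455808))) (P (nat_lit 0))))) (T.h (T.h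 (P (nat_lit 0)) (M (nat_lit 52964942878146559))) (T.h (T.h (T.h (P (nat_lit 0)) (M (nat_lit 22372417272255))) (P (nat_lit 0))) (P (nat_lit 0)))))))), (T.h (T.h (P (nat_lit 0)) (T.h (T.h (P (nat_lit 0)) (T.h (P (nat_lit 103001419594148129347207168)) (T.h (P (nat_lit 0)) (T.h (M (nat_lit 77790327255810965503)) (T.h (P (nat_lit 0)) (M (nat_lit 45849852608687))))))) (T.h (P (nat_lit 0)) (T.h (T.h (P (nat_lit 0)) (T.h (M (nat_lit 54963012511008292863)) (T.h (P (nat_lit 0)) (P (nat_lit 12834186665184))))) (T.h (P (nat_lit 0)) (T.h (T.h (P (nat_lit 0)) (P (nat_lit 32752559787552))) (P (nat_lit 0)))))))) (T.h (T.h (T.h (M (nat_lit 72478261872372897710639939583)) (T.h (P (nat_lit 0)) (T.h (M (nat_lit 155514434487671085596671)) (T.h (P (nat_lit 0)) (P (nat_lit 98322677260517376)))))) (T.h (P (nat_lit 0)) (T.h (T.h (M (nat_lit 29227457131615847710719)) (T.h (P (nat_lit 0)) (P (nat_lit 26519925572091904)))) (T.h (P (nat_lit 0)) (P (nat_lit 120914351725740032))))))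 (T.h (T.h (P (nat_lit 0)) (T.h (T.h (P (nat_lit 0)) (T.h (M (nat_lit 68199807893534408703)) (T.h (P (nat_lit 0)) (M (nat_lit 215827605369791))))) (T.h (P (nat_lit 0)) (T.h (T.h (P (nat_lit 0)) (M (nat_lit 3247963595855))) (P (nat_lit 0)))))) (T.h (T.h (T.h (P (nat_lit 87123053949393083301888)) (T.h (P (nat_lit 0)) (P (nat_lit 139103987127779328)))) (T.h (P (nat_lit 0)) (P (nat_lit 155218703881830400)))) (T.h (T.h (P (nat_lit 0)) (T.h (T.h (P (nat_lit 0)) (M (nat_lit 139411251903167))) (P (nat_lit 0)))) (M (nat_lit 23341432239112191)))))))]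
def lQm_20 : List (T ℤ) := [(T.h (T.h (P (nat_lit 0)) (T.h (T.h (P (nat_lit 18533547533791401124823040000)) (T.h (P (nat_lit 0)) (T.h (P (nat_lit 203247636894042950729728)) (T.h (P (nat_lit 0)) (P (nat_lit 76937809590648832)))))) (T.h (P (nat_lit 0)) (T.h (T.h (P (nat_lit 33280740286881974976512)) (T.h (P (nat_lit 0)) (P (nat_lit 14492751674703872)))) (T.h (P (nat_lit 0)) (P (nat_lit 27432103723925504))))))) (T.h (T.h (T.h (P (nat_lit 0)) (T.h (P (nat_lit 24362427025986149431640064)) (T.h (P (nat_lit 0)) (M (nat_lit 270015642585305972735))))) (T.h (P (nat_lit 0)) (T.h (T.h (P (nat_lit 0)) (M (nat_lit 99066322717822156799))) (P (nat_lit 0))))) (T.h (T.h (P (nat_lit 0)) (T.h (T.h (P (nat_lit 203247636894042950729728)) (T.h (P (nat_lit 0)) (P (nat_lit 358055875133177856)))) (T.h (P (nat_lit 0)) (P (nat_lit 14492751674703872))))) (T.h (T.h (T.h (P (nat_lit 0)) (M (nat_lit 270015642585305972735))) (P (nat_lit 0))) (T.h (T.h (P (nat_lit 0)) (P (nat_lit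 76937809590648832))) (P (nat_lit 0))))))), (P (nat_lit 0)), (P (nat_lit 0)), (T.h (T.h (T.h (M (nat_lit 205475608593708555075071942590463)) (T.h (P (nat_lit 0)) (T.h (M (nat_lit 49326294657994179987111935)) (T.h (P (nat_lit 0)) (T.h (M (nat_lit 98340197006326104063)) (T.h (P (nat_lit 0)) (M (nat_lit 87410689135199)))))))) (T.h (P (nat_lit 0)) (T.h (T.h (M (nat_lit 606963566151509353693183)) (T.h (P (nat_lit 0)) (T.h (P (nat_lit 54087894479375695872)) (T.h (P (nat_lit 0)) (P (nat_lit 133240626359424)))))) (T.h (P (nat_lit 0)) (T.h (T.h (P (nat_lit 37129636244552155136)) (T.h (P (nat_lit 0)) (P (nat_lit 26406644853168)))) (T.h (P (nat_lit 0)) (P (nat_lit 14645707618464)))))))) (T.h (T.h (P (nat_lit 0)) (T.h (T.h (P (nat_lit 0)) (T.h (M (nat_lit 115192297782243615571967)) (T.h (P (nat_lit 0)) (M (nat_lit 78731064540430335))))) (T.h (P (nat_lit 0)) (T.h (T.h (P (nat_lit 0)) (M (nat_lit 20318761883959295))) (P (nat_lit 0)))))) (T.h (T.h (T.h (P (nat_lit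 30647609676432405136670720)) (T.h (P (nat_lit 0)) (T.h (P (nat_lit 211642940836456431616)) (T.h (P (nat_lit 0)) (P (nat_lit 352154342018448)))))) (T.h (P (nat_lit 0)) (T.h (T.h (P (nat_lit 160391609105522884608)) (T.h (P (nat_lit 0)) (P (nat_lit 14513604933888)))) (T.h (P (nat_lit 0)) (M (nat_lit 77309147628143)))))) (T.h (T.h (P (nat_lit 0)) (T.h (T.h (P (nat_lit 0)) (M (nat_lit 300902337197998079))) (P (nat_lit 0)))) (T.h (T.h (T.h (P (nat_lit 24552213189067014144)) (T.h (P (nat_lit 0)) (P (nat_lit 499241730033216)))) (T.h (P (nat_lit 0)) (P (nat_lit 134195146157664)))) (T.h (P (nat_lit 0)) (P (nat_lit 8713460479392)))))))), (T.h (T.h (T.h (P (nat_lit 0)) (T.h (M (nat_lit 1043116937690069580088606719)) (T.h (P (nat_lit 0)) (T.h (P (nat_lit 61764923110046956519424)) (T.h (P (nat_lit 0)) (P (nat_lit 114189388980387840))))))) (T.h (P (nat_lit 0)) (T.h (T.h (P (nat_lit 0)) (T.h (P (nat_lit 12925985027821664206848)) (T.h (P (nat_lit 0)) (M (nat_lit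 121260396594069503))))) (T.h (P (nat_lit 0)) (T.h (T.h (P (nat_lit 0)) (M (nat_lit 70522602099113983))) (P (nat_lit 0))))))) (T.h (T.h (P (nat_lit 0)) (T.h (T.h (M (nat_lit 18488068673796538873413631)) (T.h (P (nat_lit 0)) (M (nat_lit 3225623507505250303)))) (T.h (P (nat_lit 0)) (P (nat_lit 13067073905649254400))))) (T.h (T.h (T.h (P (nat_lit 0)) (T.h (M (nat_lit 101464149854981390860287)) (T.h (P (nat_lit 0)) (M (nat_lit 293207130200866815))))) (T.h (P (nat_lit 0)) (T.h (T.h (P (nat_lit 0)) (P (nat_lit 21950935167303680))) (P (nat_lit 0))))) (T.h (T.h (P (nat_lit 0)) (M (nat_lit 3412449340189310975))) (T.h (T.h (T.h (P (nat_lit 0)) (M (nat_lit 273430289931173887))) (P (nat_lit 0))) (P (nat_lit 0))))))), (P (nat_lit 0)), (P (nat_lit 0)), (T.h (T.h (P (nat_lit 0)) (T.h (T.h (M (nat_lit 5287393795622230931927990271)) (T.h (P (nat_lit 0)) (T.h (M (nat_lit 11470395129475534684159)) (T.h (P (nat_lit 0)) (M (nat_lit 48452197856411647)))))) (T.h (P (nat_lit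 0)) (T.h (T.h (M (nat_lit 10997930159462676430847)) (T.h (P (nat_lit 0)) (M (nat_lit 28259372670091263)))) (T.h (P (nat_lit 0)) (M (nat_lit 21976945639718911))))))) (T.h (T.h (T.h (P (nat_lit 0)) (T.h (M (nat_lit 7968129611153399804329983)) (T.h (P (nat_lit 0)) (M (nat_lit 34246235936746635263))))) (T.h (P (nat_lit 0)) (T.h (T.h (P (nat_lit 0)) (P (nat_lit 28063542199158046720))) (P (nat_lit 0))))) (T.h (T.h (P (nat_lit 0)) (T.h (T.h (M (nat_lit 37042947306702845771775)) (T.h (P (nat_lit 0)) (M (nat_lit 21820328043151359)))) (T.h (P (nat_lit 0)) (P (nat_lit 78374196030734336))))) (T.h (T.h (T.h (P (nat_lit 0)) (M (nat_lit 28918869486353776639))) (P (nat_lit 0))) (T.h (T.h (P (nat_lit 0)) (M (nat_lit 17184947940786175))) (P (nat_lit 0)))))))]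
def lQm_21 : List (T ℤ) := [(P (nat_lit 0)), (P (nat_lit 0)), (P (nat_lit 0)), (P (nat_lit 0)), (P (nat_lit 0)), (T.h (T.h (P (nat_lit 0)) (T.h (T.h (P (nat_lit 0)) (T.h (M (nat_lit 11771323360378338012037119)) (T.h (P (nat_lit 0)) (T.h (M (nat_lit 7721819484343762943)) (T.h (P (nat_lit 0)) (P (nat_lit 9351027505656))))))) (T.h (P (nat_lit 0)) (T.h (T.h (P (nat_lit 0)) (T.h (M (nat_lit 21742454913363869695)) (T.h (P (nat_lit 0)) (P (nat_lit 23745552648632))))) (T.h (P (nat_lit 0)) (T.h (T.h (P (nat_lit 0)) (P (nat_lit 4863280810600))) (P (nat_lit 0)))))))) (T.h (T.h (T.h (M (nat_lit 4046437473873126187115479039)) (T.h (P (nat_lit 0)) (T.h (P (nat_lit 35381343235723547901952)) (T.h (P (nat_lit 0)) (P (nat_lit 8045505186660352)))))) (T.h (P (nat_lit 0)) (T.h (T.h (P (nat_lit 11058639795145398026240)) (T.h (P (nat_lit 0)) (M (nat_lit 6060853009612799)))) (T.h (P (nat_lit 0)) (M (nat_lit 1899368817328127)))))) (T.h (T.h (P (nat_lit 0)) (T.h (T.h (P (nat_lit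 0)) (T.h (M (nat_lit 53348559484627189759)) (T.h (P (nat_lit 0)) (M (nat_lit 24789354920255))))) (T.h (P (nat_lit 0)) (T.h (T.h (P (nat_lit 0)) (P (nat_lit 22199166475136))) (P (nat_lit 0)))))) (T.h (T.h (T.h (P (nat_lit 8629264156460652167168)) (T.h (P (nat_lit 0)) (P (nat_lit 9534341900369920)))) (T.h (P (nat_lit 0)) (P (nat_lit 460861854810112)))) (T.h (T.h (P (nat_lit 0)) (T.h (T.h (P (nat_lit 0)) (M (nat_lit 8729655611431))) (P (nat_lit 0)))) (P (nat_lit 5566547675250688))))))), (T.h (T.h (P (nat_lit 0)) (T.h (T.h (P (nat_lit 58407741708197557844689551360)) (T.h (P (nat_lit 0)) (T.h (P (nat_lit 14328093330667368087552)) (T.h (P (nat_lit 0)) (P (nat_lit 95200758005841920)))))) (T.h (P (nat_lit 0)) (T.h (T.h (P (nat_lit 24155213164710625017856)) (T.h (P (nat_lit 0)) (P (nat_lit 4706952372207616)))) (T.h (P (nat_lit 0)) (P (nat_lit 450914590064640))))))) (T.h (T.h (T.h (P (nat_lit 0)) (T.h (M (nat_lit 32853814453015003422261247)) (T.h (P (nat_lit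 0)) (T.h (M (nat_lit 46199622579093766143)) (T.h (P (nat_lit 0)) (M (nat_lit 5456481312047))))))) (T.h (P (nat_lit 0)) (T.h (T.h (P (nat_lit 0)) (T.h (M (nat_lit 119575697819151892479)) (T.h (P (nat_lit 0)) (M (nat_lit 64596591120223))))) (T.h (P (nat_lit 0)) (T.h (T.h (P (nat_lit 0)) (P (nat_lit 18546753362336))) (P (nat_lit 0))))))) (T.h (T.h (P (nat_lit 0)) (T.h (T.h (P (nat_lit 14328093330667368087552)) (T.h (P (nat_lit 0)) (P (nat_lit 381346097611210752)))) (T.h (P (nat_lit 0)) (P (nat_lit 4706952372207616))))) (T.h (T.h (T.h (P (nat_lit 0)) (T.h (M (nat_lit 46199622579093766143)) (T.h (P (nat_lit 0)) (P (nat_lit 48640495562304))))) (T.h (P (nat_lit 0)) (T.h (T.h (P (nat_lit 0)) (M (nat_lit 64596591120223))) (P (nat_lit 0))))) (T.h (T.h (P (nat_lit 0)) (P (nat_lit 95200758005841920))) (T.h (T.h (T.h (P (nat_lit 0)) (M (nat_lit 5456481312047))) (P (nat_lit 0))) (P (nat_lit 0)))))))), (T.h (T.h (P (nat_lit 0)) (T.h (T.h (P (nat_lit 0)) (T.h (M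 (nat_lit 80418422512579686147555327)) (T.h (P (nat_lit 0)) (T.h (M (nat_lit 59806517900091588607)) (T.h (P (nat_lit 0)) (P (nat_lit 8349296421312))))))) (T.h (P (nat_lit 0)) (T.h (T.h (P (nat_lit 0)) (T.h (M (nat_lit 178498018031653879807)) (T.h (P (nat_lit 0)) (M (nat_lit 19914028257663))))) (T.h (P (nat_lit 0)) (T.h (T.h (P (nat_lit 0)) (M (nat_lit 8739903821823))) (P (nat_lit 0)))))))) (T.h (T.h (T.h (P (nat_lit 3590745101603317330175066112)) (T.h (P (nat_lit 0)) (T.h (P (nat_lit 63497192389272894701568)) (T.h (P (nat_lit 0)) (M (nat_lit 56846165451276287)))))) (T.h (P (nat_lit 0)) (T.h (T.h (P (nat_lit 124166508171363386130432)) (T.h (P (nat_lit 0)) (M (nat_lit 34854012157460479)))) (T.h (P (nat_lit 0)) (P (nat_lit 36867882448781312)))))) (T.h (T.h (P (nat_lit 0)) (T.h (T.h (P (nat_lit 0)) (T.h (M (nat_lit 104085129146604191743)) (T.h (P (nat_lit 0)) (P (nat_lit 42822324891904))))) (T.h (P (nat_lit 0)) (T.h (T.h (P (nat_lit 0)) (M (nat_lit 17335854132351)))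 (P (nat_lit 0)))))) (T.h (T.h (T.h (M (nat_lit 20755233146715930361855)) (T.h (P (nat_lit 0)) (M (nat_lit 77251621451530239)))) (T.h (P (nat_lit 0)) (P (nat_lit 68489507773218816)))) (T.h (T.h (P (nat_lit 0)) (T.h (T.h (P (nat_lit 0)) (P (nat_lit 127027661279104))) (P (nat_lit 0)))) (P (nat_lit 58160947801522176)))))))]
def lQm_22 : List (T ℤ) := [(T.h (T.h (P (nat_lit 0)) (T.h (T.h (M (nat_lit 86573778126472935022694236159)) (T.h (P (nat_lit 0)) (T.h (M (nat_lit 38674386700585597403135)) (T.h (P (nat_lit 0)) (M (nat_lit 1512243294584831)))))) (T.h (P (nat_lit 0)) (T.h (T.h (M (nat_lit 49032214689452727992319)) (T.h (P (nat_lit 0)) (M (nat_lit 33527803763163135)))) (T.h (P (nat_lit 0)) (M (nat_lit 22307162351419391))))))) (T.h (T.h (T.h (P (nat_lit 0)) (T.h (P (nat_lit 55057915343755458021163008)) (T.h (P (nat_lit 0)) (T.h (P (nat_lit 161023069026907062272)) (T.h (P (nat_lit 0)) (P (nat_lit 45005981788656))))))) (T.h (P (nat_lit 0)) (T.h (T.h (P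 (nat_lit 0)) (T.h (P (nat_lit 321466405071154577408)) (T.h (P (nat_lit 0)) (P (nat_lit 73574799128352))))) (T.h (P (nat_lit 0)) (T.h (T.h (P (nat_lit 0)) (M (nat_lit 36795851005967))) (P (nat_lit 0))))))) (T.h (T.h (P (nat_lit 0)) (T.h (T.h (P (nat_lit 60821576642137342083072)) (T.h (P (nat_lit 0)) (M (nat_lit 556794615299260415)))) (T.h (P (nat_lit 0)) (P (nat_lit 257381685080227840))))) (T.h (T.h (T.h (P (nat_lit 0)) (T.h (P (nat_lit 166545932273294770176)) (T.h (P (nat_lit 0)) (M (nat_lit 35467958383919))))) (T.h (P (nat_lit 0)) (T.h (T.h (P (nat_lit 0)) (P (nat_lit 3848439743712))) (P (nat_lit 0))))) (T.h (T.h (P (nat_lit 0)) (P (nat_lit 45815686882213888))) (T.h (T.h (T.h (P (nat_lit 0)) (M (nat_lit 18638776481903))) (P (nat_lit 0))) (P (nat_lit 0)))))))), (T.h (T.h (P (nat_lit 0)) (T.h (T.h (P (nat_lit 0)) (T.h (P (nat_lit 28478335506665354741940224)) (T.h (P (nat_lit 0)) (P (nat_lit 7399312085391245312))))) (T.h (P (nat_lit 0)) (T.h (T.h (P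 (nat_lit 0)) (P (nat_lit 46219789068006326272))) (P (nat_lit 0)))))) (T.h (T.h (T.h (M (nat_lit 485246316002040588049317887)) (T.h (P (nat_lit 0)) (T.h (M (nat_lit 116266967700160330596351)) (T.h (P (nat_lit 0)) (M (nat_lit 16022553870106623)))))) (T.h (P (nat_lit 0)) (T.h (T.h (M (nat_lit 156873228732256518930431)) (T.h (P (nat_lit 0)) (M (nat_lit 56832365739311103)))) (T.h (P (nat_lit 0)) (M (nat_lit 151896253560815615)))))) (T.h (T.h (P (nat_lit 0)) (T.h (T.h (P (nat_lit 0)) (P (nat_lit 379707384477398335488))) (P (nat_lit 0)))) (T.h (T.h (T.h (M (nat_lit 47953310490409918529535)) (T.h (P (nat_lit 0)) (M (nat_lit 97934611223642111)))) (T.h (P (nat_lit 0)) (M (nat_lit 455296650780803071)))) (T.h (P (nat_lit 0)) (M (nat_lit 7655420903981055))))))), (P (nat_lit 0)), (P (nat_lit 0)), (T.h (T.h (T.h (P (nat_lit 0)) (T.h (P (nat_lit 0)) (T.h (M (nat_lit 3928032781046310399639551)) (T.h (P (nat_lit 0)) (T.h (P (nat_lit 8649608026065469440)) (T.h (P (nat_lit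 0)) (P (nat_lit 9660305695472)))))))) (T.h (P (nat_lit 0)) (T.h (T.h (M (nat_lit 3928032781046310399639551)) (T.h (P (nat_lit 0)) (T.h (P (nat_lit 5377221110599254016)) (T.h (P (nat_lit 0)) (M (nat_lit 1435002260479)))))) (T.h (P (nat_lit 0)) (T.h (T.h (P (nat_lit 8649608026065469440)) (T.h (P (nat_lit 0)) (M (nat_lit 1435002260479)))) (T.h (P (nat_lit 0)) (P (nat_lit 9660305695472)))))))) (T.h (T.h (P (nat_lit 0)) (T.h (T.h (P (nat_lit 0)) (T.h (M (nat_lit 385480514967894491135)) (T.h (P (nat_lit 0)) (P (nat_lit 8812788919631872))))) (T.h (P (nat_lit 0)) (T.h (T.h (P (nat_lit 0)) (P (nat_lit 8812788919631872))) (P (nat_lit 0)))))) (T.h (T.h (T.h (P (nat_lit 231600349026101198061568)) (T.h (P (nat_lit 0)) (T.h (M (nat_lit 16144163762708938751)) (T.h (P (nat_lit 0)) (M (nat_lit 493387832047)))))) (T.h (P (nat_lit 0)) (T.h (T.h (M (nat_lit 16144163762708938751)) (T.h (P (nat_lit 0)) (M (nat_lit 637453984351)))) (T.h (P (nat_lit 0)) (M (nat_lit 493387832047))))))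 (T.h (T.h (P (nat_lit 0)) (T.h (T.h (P (nat_lit 0)) (P (nat_lit 391341705789440))) (P (nat_lit 0)))) (T.h (T.h (T.h (P (nat_lit 844542684713451520)) (T.h (P (nat_lit 0)) (P (nat_lit 3214488030464)))) (T.h (P (nat_lit 0)) (P (nat_lit 3214488030464)))) (T.h (P (nat_lit 0)) (P (nat_lit 2001849057248)))))))), (T.h (T.h (T.h (P (nat_lit 0)) (T.h (P (nat_lit 10079987083909034611327369216)) (T.h (P (nat_lit 0)) (T.h (M (nat_lit 45300279559282594152447)) (T.h (P (nat_lit 0)) (M (nat_lit 23378992595042303))))))) (T.h (P (nat_lit 0)) (T.h (T.h (P (nat_lit 0)) (T.h (M (nat_lit 11310640369533815095295)) (T.h (P (nat_lit 0)) (P (nat_lit 6315630857781248))))) (T.h (P (nat_lit 0)) (T.h (T.h (P (nat_lit 0)) (M (nat_lit 73608423624703999))) (P (nat_lit 0))))))) (T.h (T.h (P (nat_lit 0)) (T.h (T.h (M (nat_lit 6799619440246064861413375)) (T.h (P (nat_lit 0)) (T.h (M (nat_lit 17705015762189549567)) (T.h (P (nat_lit 0)) (M (nat_lit 6049335980319)))))) (T.h (P (nat_lit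 0)) (T.h (T.h (P (nat_lit 39462934967496998912)) (T.h (P (nat_lit 0)) (P (nat_lit 31589154588192)))) (T.h (P (nat_lit 0)) (P (nat_lit 15958812818176))))))) (T.h (T.h (T.h (P (nat_lit 0)) (T.h (M (nat_lit 37782109535124318060543)) (T.h (P (nat_lit 0)) (M (nat_lit 47073572298719231))))) (T.h (P (nat_lit 0)) (T.h (T.h (P (nat_lit 0)) (P (nat_lit 151495464121647104))) (P (nat_lit 0))))) (T.h (T.h (P (nat_lit 0)) (T.h (T.h (M (nat_lit 12514945616788324351)) (T.h (P (nat_lit 0)) (M (nat_lit 1228216181215)))) (T.h (P (nat_lit 0)) (M (nat_lit 13381475394175))))) (T.h (T.h (T.h (P (nat_lit 0)) (M (nat_lit 75512122738147327))) (P (nat_lit 0))) (T.h (T.h (P (nat_lit 0)) (M (nat_lit 35685065481487))) (P (nat_lit 0)))))))), (T.h (T.h (T.h (P (nat_lit 21520037286728407769033360801792)) (T.h (P (nat_lit 0)) (T.h (P (nat_lit 32593995845760491378966528)) (T.h (P (nat_lit 0)) (T.h (P (nat_lit 50382098732544950272)) (T.h (P (nat_lit 0)) (M (nat_lit 3869997229439))))))))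 (T.h (P (nat_lit 0)) (T.h (T.h (M (nat_lit 150799623545482001323655167)) (T.h (P (nat_lit 0)) (T.h (M (nat_lit 2972981622955048959)) (T.h (P (nat_lit 0)) (M (nat_lit 5998670132479)))))) (T.h (P (nat_lit 0)) (T.h (T.h (M (nat_lit 90644100694493102079)) (T.h (P (nat_lit 0)) (M (nat_lit 52873795194879)))) (T.h (P (nat_lit 0)) (M (nat_lit 17293522131839)))))))) (T.h (T.h (P (nat_lit 0)) (T.h (T.h (P (nat_lit 0)) (T.h (P (nat_lit 191967605361147471986688)) (T.h (P (nat_lit 0)) (P (nat_lit 231257191597735936))))) (T.h (P (nat_lit 0)) (T.h (T.h (P (nat_lit 0)) (P (nat_lit 143974309221105664))) (P (nat_lit 0)))))) (T.h (T.h (T.h (P (nat_lit 32593995845760491378966528)) (T.h (P (nat_lit 0)) (T.h (M (nat_lit 156838974676478722047)) (T.h (P (nat_lit 0)) (M (nat_lit 22036195153535)))))) (T.h (P (nat_lit 0)) (T.h (T.h (M (nat_lit 2972981622955048959)) (T.h (P (nat_lit 0)) (P (nat_lit 63864146695808)))) (T.h (P (nat_lit 0)) (M (nat_lit 52873795194879)))))) (T.h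 (T.h (P (nat_lit 0)) (T.h (T.h (P (nat_lit 0)) (P (nat_lit 231257191597735936))) (P (nat_lit 0)))) (T.h (T.h (T.h (P (nat_lit 50382098732544950272)) (T.h (P (nat_lit 0)) (M (nat_lit 22036195153535)))) (T.h (P (nat_lit 0)) (M (nat_lit 5998670132479)))) (T.h (P (nat_lit 0)) (M (nat_lit 3869997229439)))))))), (T.h (T.h (T.h (P (nat_lit 0)) (T.h (M (nat_lit 1388833709443735624582430719)) (T.h (P (nat_lit 0)) (T.h (P (nat_lit 87650396103575026532352)) (T.h (P (nat_lit 0)) (P (nat_lit 78829327298969600))))))) (T.h (P (nat_lit 0)) (T.h (T.h (P (nat_lit 0)) (T.h (M (nat_lit 68126053748545643610111)) (T.h (P (nat_lit 0)) (P (nat_lit 69140507328200704))))) (T.h (P (nat_lit 0)) (T.h (T.h (P (nat_lit 0)) (P (nat_lit 141085513302016))) (P (nat_lit 0))))))) (T.h (T.h (P (nat_lit 0)) (T.h (T.h (P (nat_lit 153413495533932063255166976)) (T.h (P (nat_lit 0)) (T.h (M (nat_lit 136039828561613291519)) (T.h (P (nat_lit 0)) (M (nat_lit 22262947040159)))))) (T.h (P (nat_lit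 0)) (T.h (T.h (P (nat_lit 387258353633040793600)) (T.h (P (nat_lit 0)) (M (nat_lit 127505483758511)))) (T.h (P (nat_lit 0)) (P (nat_lit 31976606021472))))))) (T.h (T.h (T.h (P (nat_lit 0)) (T.h (M (nat_lit 1652790154048969900031)) (T.h (P (nat_lit 0)) (P (nat_lit 218623802189496320))))) (T.h (P (nat_lit 0)) (T.h (T.h (P (nat_lit 0)) (P (nat_lit 367559157077147648))) (P (nat_lit 0))))) (T.h (T.h (P (nat_lit 0)) (T.h (T.h (M (nat_lit 110231245384298004479)) (T.h (P (nat_lit 0)) (M (nat_lit 165739260395375)))) (T.h (P (nat_lit 0)) (M (nat_lit 2395349943695))))) (T.h (T.h (T.h (P (nat_lit 0)) (P (nat_lit 60744512777912320))) (P (nat_lit 0))) (T.h (T.h (P (nat_lit 0)) (P (nat_lit 77442952494384))) (P (nat_lit 0))))))))]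
def lQm_23 : List (T ℤ) := [(T.h (T.h (T.h (P (nat_lit 19245058767597118072917487255552)) (T.h (P (nat_lit 0)) (T.h (M (nat_lit 49064869503036694296788991)) (T.h (P (nat_lit 0)) (M (nat_lit 58062886536468234239)))))) (T.h (P (nat_lit 0)) (T.h (T.h (P (nat_lit 59825625941170914374713344)) (T.h (P (nat_lit 0)) (M (nat_lit 45880012597962473471)))) (T.h (P (nat_lit 0)) (P (nat_lit 12951678390250766336)))))) (T.h (T.h (P (nat_lit 0)) (T.h (T.h (P (nat_lit 0)) (T.h (M (nat_lit 171507145602860729761791)) (T.h (P (nat_lit 0)) (M (nat_lit 11742295132012543))))) (T.h (P (nat_lit 0)) (T.h (T.h (P (nat_lit 0)) (P (nat_lit 189747104945602560))) (P (nat_lit 0)))))) (T.h (T.h (T.h (M (nat_lit 8849924118460195124805631)) (T.h (P (nat_lit 0)) (M (nat_lit 78300033919217565695)))) (T.h (P (nat_lit 0)) (M (nat_lit 218013063006075748351)))) (T.h (T.h (P (nat_lit 0)) (T.h (T.h (P (nat_lit 0)) (P (nat_lit 200573530775552000))) (P (nat_lit 0)))) (P (nat_lit 22472147538827804672)))))),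 (P (nat_lit 0)), (P (nat_lit 0)), (T.h (T.h (P (nat_lit 0)) (T.h (T.h (P (nat_lit 0)) (T.h (M (nat_lit 11771323360378338012037119)) (T.h (P (nat_lit 0)) (T.h (M (nat_lit 21742454913363869695)) (T.h (P (nat_lit 0)) (P (nat_lit 4863280810600))))))) (T.h (P (nat_lit 0)) (T.h (T.h (P (nat_lit 0)) (T.h (M (nat_lit 7721819484343762943)) (T.h (P (nat_lit 0)) (P (nat_lit 23745552648632))))) (T.h (P (nat_lit 0)) (T.h (T.h (P (nat_lit 0)) (P (nat_lit 9351027505656))) (P (nat_lit 0)))))))) (T.h (T.h (T.h (M (nat_lit 4046437473873126187115479039)) (T.h (P (nat_lit 0)) (T.h (P (nat_lit 11058639795145398026240)) (T.h (P (nat_lit 0)) (M (nat_lit 1899368817328127)))))) (T.h (P (nat_lit 0)) (T.h (T.h (P (nat_lit 35381343235723547901952)) (T.h (P (nat_lit 0)) (M (nat_lit 6060853009612799)))) (T.h (P (nat_lit 0)) (P (nat_lit 8045505186660352)))))) (T.h (T.h (P (nat_lit 0)) (T.h (T.h (P (nat_lit 0)) (T.h (M (nat_lit 53348559484627189759)) (T.h (P (nat_lit 0)) (P (nat_lit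 22199166475136))))) (T.h (P (nat_lit 0)) (T.h (T.h (P (nat_lit 0)) (M (nat_lit 24789354920255))) (P (nat_lit 0)))))) (T.h (T.h (T.h (P (nat_lit 8629264156460652167168)) (T.h (P (nat_lit 0)) (P (nat_lit 460861854810112)))) (T.h (P (nat_lit 0)) (P (nat_lit 9534341900369920)))) (T.h (T.h (P (nat_lit 0)) (T.h (T.h (P (nat_lit 0)) (M (nat_lit 8729655611431))) (P (nat_lit 0)))) (P (nat_lit 5566547675250688))))))), (T.h (T.h (P (nat_lit 0)) (T.h (T.h (P (nat_lit 10079987083909034611327369216)) (T.h (P (nat_lit 0)) (T.h (M (nat_lit 11310640369533815095295)) (T.h (P (nat_lit 0)) (M (nat_lit 73608423624703999)))))) (T.h (P (nat_lit 0)) (T.h (T.h (M (nat_lit 45300279559282594152447)) (T.h (P (nat_lit 0)) (P (nat_lit 6315630857781248)))) (T.h (P (nat_lit 0)) (M (nat_lit 23378992595042303))))))) (T.h (T.h (T.h (P (nat_lit 0)) (T.h (M (nat_lit 6799619440246064861413375)) (T.h (P (nat_lit 0)) (T.h (P (nat_lit 39462934967496998912)) (T.h (P (nat_lit 0)) (P (nat_lit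 15958812818176))))))) (T.h (P (nat_lit 0)) (T.h (T.h (P (nat_lit 0)) (T.h (M (nat_lit 17705015762189549567)) (T.h (P (nat_lit 0)) (P (nat_lit 31589154588192))))) (T.h (P (nat_lit 0)) (T.h (T.h (P (nat_lit 0)) (M (nat_lit 6049335980319))) (P (nat_lit 0))))))) (T.h (T.h (P (nat_lit 0)) (T.h (T.h (M (nat_lit 37782109535124318060543)) (T.h (P (nat_lit 0)) (P (nat_lit 151495464121647104)))) (T.h (P (nat_lit 0)) (M (nat_lit 47073572298719231))))) (T.h (T.h (T.h (P (nat_lit 0)) (T.h (M (nat_lit 12514945616788324351)) (T.h (P (nat_lit 0)) (M (nat_lit 13381475394175))))) (T.h (P (nat_lit 0)) (T.h (T.h (P (nat_lit 0)) (M (nat_lit 1228216181215))) (P (nat_lit 0))))) (T.h (T.h (P (nat_lit 0)) (M (nat_lit 75512122738147327))) (T.h (T.h (T.h (P (nat_lit 0)) (M (nat_lit 35685065481487))) (P (nat_lit 0))) (P (nat_lit 0)))))))), (T.h (T.h (P (nat_lit 0)) (T.h (T.h (P (nat_lit 0)) (T.h (P (nat_lit 61333752047693800807596032)) (T.h (P (nat_lit 0)) (T.h (M (nat_lit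 65998401808849960959)) (T.h (P (nat_lit 0)) (M (nat_lit 35938917754047))))))) (T.h (P (nat_lit 0)) (T.h (T.h (P (nat_lit 0)) (T.h (M (nat_lit 65998401808849960959)) (T.h (P (nat_lit 0)) (P (nat_lit 57247031089408))))) (T.h (P (nat_lit 0)) (T.h (T.h (P (nat_lit 0)) (M (nat_lit 35938917754047))) (P (nat_lit 0)))))))) (T.h (T.h (T.h (M (nat_lit 137196224813863059226361855999)) (T.h (P (nat_lit 0)) (T.h (P (nat_lit 11969265976788375306240)) (T.h (P (nat_lit 0)) (P (nat_lit 197493002011443200)))))) (T.h (P (nat_lit 0)) (T.h (T.h (P (nat_lit 11969265976788375306240)) (T.h (P (nat_lit 0)) (M (nat_lit 23208470546743295)))) (T.h (P (nat_lit 0)) (P (nat_lit 197493002011443200)))))) (T.h (T.h (P (nat_lit 0)) (T.h (T.h (P (nat_lit 0)) (T.h (M (nat_lit 498117621935436201983)) (T.h (P (nat_lit 0)) (P (nat_lit 52226798296128))))) (T.h (P (nat_lit 0)) (T.h (T.h (P (nat_lit 0)) (P (nat_lit 52226798296128))) (P (nat_lit 0)))))) (T.h (T.h (T.h (P (nat_lit 45524896216863744196608))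 (T.h (P (nat_lit 0)) (P (nat_lit 15827926362619904)))) (T.h (P (nat_lit 0)) (P (nat_lit 15827926362619904)))) (T.h (T.h (P (nat_lit 0)) (T.h (T.h (P (nat_lit 0)) (M (nat_lit 227293147714175))) (P (nat_lit 0)))) (M (nat_lit 40952504014077951))))))), (T.h (T.h (P (nat_lit 0)) (T.h (T.h (P (nat_lit 91203306126304633965942669312)) (T.h (P (nat_lit 0)) (T.h (P (nat_lit 398141365652129616756736)) (T.h (P (nat_lit 0)) (P (nat_lit 199072849373184000)))))) (T.h (P (nat_lit 0)) (T.h (T.h (M (nat_lit 192163900534887332970495)) (T.h (P (nat_lit 0)) (P (nat_lit 198945184817594368)))) (T.h (P (nat_lit 0)) (P (nat_lit 7962562553348096))))))) (T.h (T.h (T.h (P (nat_lit 0)) (T.h (M (nat_lit 514614921797266848826261503)) (T.h (P (nat_lit 0)) (T.h (M (nat_lit 435331248481649033215)) (T.h (P (nat_lit 0)) (M (nat_lit 27957633716591))))))) (T.h (P (nat_lit 0)) (T.h (T.h (P (nat_lit 0)) (T.h (M (nat_lit 943500187785951707135)) (T.h (P (nat_lit 0)) (M (nat_lit 171975504489407)))))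 (T.h (P (nat_lit 0)) (T.h (T.h (P (nat_lit 0)) (M (nat_lit 261193932124991))) (P (nat_lit 0))))))) (T.h (T.h (P (nat_lit 0)) (T.h (T.h (P (nat_lit 398141365652129616756736)) (T.h (P (nat_lit 0)) (P (nat_lit 395490395723497472)))) (T.h (P (nat_lit 0)) (P (nat_lit 198945184817594368))))) (T.h (T.h (T.h (P (nat_lit 0)) (T.h (M (nat_lit 435331248481649033215)) (T.h (P (nat_lit 0)) (P (nat_lit 25282717852608))))) (T.h (P (nat_lit 0)) (T.h (T.h (P (nat_lit 0)) (M (nat_lit 171975504489407))) (P (nat_lit 0))))) (T.h (T.h (P (nat_lit 0)) (P (nat_lit 199072849373184000))) (T.h (T.h (T.h (P (nat_lit 0)) (M (nat_lit 27957633716591))) (P (nat_lit 0))) (P (nat_lit 0)))))))), (T.h (T.h (P (nat_lit 0)) (T.h (T.h (P (nat_lit 0)) (T.h (M (nat_lit 125633492677827405925056511)) (T.h (P (nat_lit 0)) (M (nat_lit 119329832181008695295))))) (T.h (P (nat_lit 0)) (T.h (T.h (P (nat_lit 0)) (M (nat_lit 205038297114285703167))) (P (nat_lit 0)))))) (T.h (T.h (T.h (P (nat_lit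 1067389163542256608104939520)) (T.h (P (nat_lit 0)) (T.h (P (nat_lit 407360935313068118769664)) (T.h (P (nat_lit 0)) (P (nat_lit 48133197116178432)))))) (T.h (P (nat_lit 0)) (T.h (T.h (M (nat_lit 15847429164132177281023)) (T.h (P (nat_lit 0)) (P (nat_lit 267824939245535232)))) (T.h (P (nat_lit 0)) (P (nat_lit 11879250200887296)))))) (T.h (T.h (P (nat_lit 0)) (T.h (T.h (P (nat_lit 0)) (M (nat_lit 841263043033434161151))) (P (nat_lit 0)))) (T.h (T.h (T.h (P (nat_lit 9817218760697314279424)) (T.h (P (nat_lit 0)) (P (nat_lit 6549343357075456)))) (T.h (P (nat_lit 0)) (P (nat_lit 18419990244458496)))) (T.h (P (nat_lit 0)) (M (nat_lit 76460755406553087)))))))]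
def lQm_24 : List (T ℤ) := [(P (nat_lit 0)), (P (nat_lit 0)), (T.h (T.h (T.h (P (nat_lit 0)) (T.h (P (nat_lit 58407741708197557844689551360)) (T.h (P (nat_lit 0)) (T.h (P (nat_lit 24155213164710625017856)) (T.h (P (nat_lit 0)) (P (nat_lit 450914590064640))))))) (T.h (P (nat_lit 0)) (T.h (T.h (P (nat_lit 0)) (T.h (P (nat_lit 14328093330667368087552)) (T.h (P (nat_lit 0)) (P (nat_lit 4706952372207616))))) (T.h (P (nat_lit 0)) (T.h (T.h (P (nat_lit 0)) (P (nat_lit 95200758005841920))) (P (nat_lit 0))))))) (T.h (T.h (P (nat_lit 0)) (T.h (T.h (M (nat_lit 32853814453015003422261247)) (T.h (P (nat_lit 0)) (T.h (M (nat_lit 119575697819151892479)) (T.h (P (nat_lit 0)) (P (nat_lit 18546753362336)))))) (T.h (P (nat_lit 0)) (T.h (T.h (M (nat_lit 46199622579093766143)) (T.h (P (nat_lit 0)) (M (nat_lit 64596591120223)))) (T.h (P (nat_lit 0)) (M (nat_lit 5456481312047))))))) (T.h (T.h (T.h (P (nat_lit 0)) (T.h (P (nat_lit 14328093330667368087552)) (T.h (P (nat_lit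 0)) (P (nat_lit 4706952372207616))))) (T.h (P (nat_lit 0)) (T.h (T.h (P (nat_lit 0)) (P (nat_lit 381346097611210752))) (P (nat_lit 0))))) (T.h (T.h (P (nat_lit 0)) (T.h (T.h (M (nat_lit 46199622579093766143)) (T.h (P (nat_lit 0)) (M (nat_lit 64596591120223)))) (T.h (P (nat_lit 0)) (P (nat_lit 48640495562304))))) (T.h (T.h (T.h (P (nat_lit 0)) (P (nat_lit 95200758005841920))) (P (nat_lit 0))) (T.h (T.h (P (nat_lit 0)) (M (nat_lit 5456481312047))) (P (nat_lit 0)))))))), (T.h (T.h (T.h (P (nat_lit 21520037286728407769033360801792)) (T.h (P (nat_lit 0)) (T.h (M (nat_lit 150799623545482001323655167)) (T.h (P (nat_lit 0)) (T.h (M (nat_lit 90644100694493102079)) (T.h (P (nat_lit 0)) (M (nat_lit 17293522131839)))))))) (T.h (P (nat_lit 0)) (T.h (T.h (P (nat_lit 32593995845760491378966528)) (T.h (P (nat_lit 0)) (T.h (M (nat_lit 2972981622955048959)) (T.h (P (nat_lit 0)) (M (nat_lit 52873795194879)))))) (T.h (P (nat_lit 0)) (T.h (T.h (P (nat_lit 50382098732544950272))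 (T.h (P (nat_lit 0)) (M (nat_lit 5998670132479)))) (T.h (P (nat_lit 0)) (M (nat_lit 3869997229439)))))))) (T.h (T.h (P (nat_lit 0)) (T.h (T.h (P (nat_lit 0)) (T.h (P (nat_lit 191967605361147471986688)) (T.h (P (nat_lit 0)) (P (nat_lit 143974309221105664))))) (T.h (P (nat_lit 0)) (T.h (T.h (P (nat_lit 0)) (P (nat_lit 231257191597735936))) (P (nat_lit 0)))))) (T.h (T.h (T.h (P (nat_lit 32593995845760491378966528)) (T.h (P (nat_lit 0)) (T.h (M (nat_lit 2972981622955048959)) (T.h (P (nat_lit 0)) (M (nat_lit 52873795194879)))))) (T.h (P (nat_lit 0)) (T.h (T.h (M (nat_lit 156838974676478722047)) (T.h (P (nat_lit 0)) (P (nat_lit 63864146695808)))) (T.h (P (nat_lit 0)) (M (nat_lit 22036195153535)))))) (T.h (T.h (P (nat_lit 0)) (T.h (T.h (P (nat_lit 0)) (P (nat_lit 231257191597735936))) (P (nat_lit 0)))) (T.h (T.h (T.h (P (nat_lit 50382098732544950272)) (T.h (P (nat_lit 0)) (M (nat_lit 5998670132479)))) (T.h (P (nat_lit 0)) (M (nat_lit 22036195153535))))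 (T.h (P (nat_lit 0)) (M (nat_lit 3869997229439)))))))), (T.h (T.h (T.h (P (nat_lit 0)) (T.h (P (nat_lit 91203306126304633965942669312)) (T.h (P (nat_lit 0)) (T.h (M (nat_lit 192163900534887332970495)) (T.h (P (nat_lit 0)) (P (nat_lit 7962562553348096))))))) (T.h (P (nat_lit 0)) (T.h (T.h (P (nat_lit 0)) (T.h (P (nat_lit 398141365652129616756736)) (T.h (P (nat_lit 0)) (P (nat_lit 198945184817594368))))) (T.h (P (nat_lit 0)) (T.h (T.h (P (nat_lit 0)) (P (nat_lit 199072849373184000))) (P (nat_lit 0))))))) (T.h (T.h (P (nat_lit 0)) (T.h (T.h (M (nat_lit 514614921797266848826261503)) (T.h (P (nat_lit 0)) (T.h (M (nat_lit 943500187785951707135)) (T.h (P (nat_lit 0)) (M (nat_lit 261193932124991)))))) (T.h (P (nat_lit 0)) (T.h (T.h (M (nat_lit 435331248481649033215)) (T.h (P (nat_lit 0)) (M (nat_lit 171975504489407)))) (T.h (P (nat_lit 0)) (M (nat_lit 27957633716591))))))) (T.h (T.h (T.h (P (nat_lit 0)) (T.h (P (nat_lit 398141365652129616756736)) (T.h (P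 (nat_lit 0)) (P (nat_lit 198945184817594368))))) (T.h (P (nat_lit 0)) (T.h (T.h (P (nat_lit 0)) (P (nat_lit 395490395723497472))) (P (nat_lit 0))))) (T.h (T.h (P (nat_lit 0)) (T.h (T.h (M (nat_lit 435331248481649033215)) (T.h (P (nat_lit 0)) (M (nat_lit 171975504489407)))) (T.h (P (nat_lit 0)) (P (nat_lit 25282717852608))))) (T.h (T.h (T.h (P (nat_lit 0)) (P (nat_lit 199072849373184000))) (P (nat_lit 0))) (T.h (T.h (P (nat_lit 0)) (M (nat_lit 27957633716591))) (P (nat_lit 0)))))))), (T.h (T.h (T.h (P (nat_lit 222572839239746422182481231872)) (T.h (P (nat_lit 0)) (T.h (P (nat_lit 45059484419259142122766336)) (T.h (P (nat_lit 0)) (P (nat_lit 313964590754955264)))))) (T.h (P (nat_lit 0)) (T.h (T.h (P (nat_lit 45059484419259142122766336)) (T.h (P (nat_lit 0)) (M (nat_lit 391677358918695124991)))) (T.h (P (nat_lit 0)) (P (nat_lit 313964590754955264)))))) (T.h (T.h (P (nat_lit 0)) (T.h (T.h (P (nat_lit 0)) (T.h (P (nat_lit 1398125032032869076172800)) (T.h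 (P (nat_lit 0)) (P (nat_lit 394280447193907200))))) (T.h (P (nat_lit 0)) (T.h (T.h (P (nat_lit 0)) (P (nat_lit 394280447193907200))) (P (nat_lit 0)))))) (T.h (T.h (T.h (P (nat_lit 45059484419259142122766336)) (T.h (P (nat_lit 0)) (M (nat_lit 391677358918695124991)))) (T.h (P (nat_lit 0)) (M (nat_lit 391677358918695124991)))) (T.h (T.h (P (nat_lit 0)) (T.h (T.h (P (nat_lit 0)) (P (nat_lit 394280447193907200))) (P (nat_lit 0)))) (P (nat_lit 313964590754955264)))))), (P (nat_lit 0)), (P (nat_lit 0))]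
def lQm_25 : List (T ℤ) := [(T.h (T.h (P (nat_lit 0)) (T.h (T.h (P (nat_lit 0)) (T.h (M (nat_lit 80418422512579686147555327)) (T.h (P (nat_lit 0)) (T.h (M (nat_lit 178498018031653879807)) (T.h (P (nat_lit 0)) (M (nat_lit 8739903821823))))))) (T.h (P (nat_lit 0)) (T.h (T.h (P (nat_lit 0)) (T.h (M (nat_lit 59806517900091588607)) (T.h (P (nat_lit 0)) (M (nat_lit 19914028257663))))) (T.h (P (nat_lit 0)) (T.h (T.h (P (nat_lit 0)) (P (nat_lit 8349296421312))) (P (nat_lit 0)))))))) (T.h (T.h (T.h (P (nat_lit 3590745101603317330175066112)) (T.h (P (nat_lit 0)) (T.h (P (nat_lit 124166508171363386130432)) (T.h (P (nat_lit 0)) (P (nat_lit 36867882448781312)))))) (T.h (P (nat_lit 0)) (T.h (T.h (P (nat_lit 63497192389272894701568)) (T.h (P (nat_lit 0)) (M (nat_lit 34854012157460479)))) (T.h (P (nat_lit 0)) (M (nat_lit 56846165451276287)))))) (T.h (T.h (P (nat_lit 0)) (T.h (T.h (P (nat_lit 0)) (T.h (M (nat_lit 104085129146604191743)) (T.h (P (nat_lit 0)) (M (nat_lit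 17335854132351))))) (T.h (P (nat_lit 0)) (T.h (T.h (P (nat_lit 0)) (P (nat_lit 42822324891904))) (P (nat_lit 0)))))) (T.h (T.h (T.h (M (nat_lit 20755233146715930361855)) (T.h (P (nat_lit 0)) (P (nat_lit 68489507773218816)))) (T.h (P (nat_lit 0)) (M (nat_lit 77251621451530239)))) (T.h (T.h (P (nat_lit 0)) (T.h (T.h (P (nat_lit 0)) (P (nat_lit 127027661279104))) (P (nat_lit 0)))) (P (nat_lit 58160947801522176))))))), (T.h (T.h (P (nat_lit 0)) (T.h (T.h (M (nat_lit 1388833709443735624582430719)) (T.h (P (nat_lit 0)) (T.h (M (nat_lit 68126053748545643610111)) (T.h (P (nat_lit 0)) (P (nat_lit 141085513302016)))))) (T.h (P (nat_lit 0)) (T.h (T.h (P (nat_lit 87650396103575026532352)) (T.h (P (nat_lit 0)) (P (nat_lit 69140507328200704)))) (T.h (P (nat_lit 0)) (P (nat_lit 78829327298969600))))))) (T.h (T.h (T.h (P (nat_lit 0)) (T.h (P (nat_lit 153413495533932063255166976)) (T.h (P (nat_lit 0)) (T.h (P (nat_lit 387258353633040793600)) (T.h (P (nat_lit 0))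 (P (nat_lit 31976606021472))))))) (T.h (P (nat_lit 0)) (T.h (T.h (P (nat_lit 0)) (T.h (M (nat_lit 136039828561613291519)) (T.h (P (nat_lit 0)) (M (nat_lit 127505483758511))))) (T.h (P (nat_lit 0)) (T.h (T.h (P (nat_lit 0)) (M (nat_lit 22262947040159))) (P (nat_lit 0))))))) (T.h (T.h (P (nat_lit 0)) (T.h (T.h (M (nat_lit 1652790154048969900031)) (T.h (P (nat_lit 0)) (P (nat_lit 367559157077147648)))) (T.h (P (nat_lit 0)) (P (nat_lit 218623802189496320))))) (T.h (T.h (T.h (P (nat_lit 0)) (T.h (M (nat_lit 110231245384298004479)) (T.h (P (nat_lit 0)) (M (nat_lit 2395349943695))))) (T.h (P (nat_lit 0)) (T.h (T.h (P (nat_lit 0)) (M (nat_lit 165739260395375))) (P (nat_lit 0))))) (T.h (T.h (P (nat_lit 0)) (P (nat_lit 60744512777912320))) (T.h (T.h (T.h (P (nat_lit 0)) (P (nat_lit 77442952494384))) (P (nat_lit 0))) (P (nat_lit 0)))))))), (T.h (T.h (P (nat_lit 0)) (T.h (T.h (P (nat_lit 0)) (T.h (M (nat_lit 125633492677827405925056511)) (T.h (P (nat_lit 0))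 (M (nat_lit 205038297114285703167))))) (T.h (P (nat_lit 0)) (T.h (T.h (P (nat_lit 0)) (M (nat_lit 119329832181008695295))) (P (nat_lit 0)))))) (T.h (T.h (T.h (P (nat_lit 1067389163542256608104939520)) (T.h (P (nat_lit 0)) (T.h (M (nat_lit 15847429164132177281023)) (T.h (P (nat_lit 0)) (P (nat_lit 11879250200887296)))))) (T.h (P (nat_lit 0)) (T.h (T.h (P (nat_lit 407360935313068118769664)) (T.h (P (nat_lit 0)) (P (nat_lit 267824939245535232)))) (T.h (P (nat_lit 0)) (P (nat_lit 48133197116178432)))))) (T.h (T.h (P (nat_lit 0)) (T.h (T.h (P (nat_lit 0)) (M (nat_lit 841263043033434161151))) (P (nat_lit 0)))) (T.h (T.h (T.h (P (nat_lit 9817218760697314279424)) (T.h (P (nat_lit 0)) (P (nat_lit 18419990244458496)))) (T.h (P (nat_lit 0)) (P (nat_lit 6549343357075456)))) (T.h (P (nat_lit 0)) (M (nat_lit 76460755406553087))))))), (P (nat_lit 0)), (P (nat_lit 0)), (T.h (T.h (T.h (P (nat_lit 0)) (T.h (M (nat_lit 86573778126472935022694236159)) (T.h (P (nat_lit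 0)) (T.h (M (nat_lit 49032214689452727992319)) (T.h (P (nat_lit 0)) (M (nat_lit 22307162351419391))))))) (T.h (P (nat_lit 0)) (T.h (T.h (P (nat_lit 0)) (T.h (M (nat_lit 38674386700585597403135)) (T.h (P (nat_lit 0)) (M (nat_lit 33527803763163135))))) (T.h (P (nat_lit 0)) (T.h (T.h (P (nat_lit 0)) (M (nat_lit 1512243294584831))) (P (nat_lit 0))))))) (T.h (T.h (P (nat_lit 0)) (T.h (T.h (P (nat_lit 55057915343755458021163008)) (T.h (P (nat_lit 0)) (T.h (P (nat_lit 321466405071154577408)) (T.h (P (nat_lit 0)) (M (nat_lit 36795851005967)))))) (T.h (P (nat_lit 0)) (T.h (T.h (P (nat_lit 161023069026907062272)) (T.h (P (nat_lit 0)) (P (nat_lit 73574799128352)))) (T.h (P (nat_lit 0)) (P (nat_lit 45005981788656))))))) (T.h (T.h (T.h (P (nat_lit 0)) (T.h (P (nat_lit 60821576642137342083072)) (T.h (P (nat_lit 0)) (P (nat_lit 257381685080227840))))) (T.h (P (nat_lit 0)) (T.h (T.h (P (nat_lit 0)) (M (nat_lit 556794615299260415))) (P (nat_lit 0))))) (T.h (T.h (P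 (nat_lit 0)) (T.h (T.h (P (nat_lit 166545932273294770176)) (T.h (P (nat_lit 0)) (P (nat_lit 3848439743712)))) (T.h (P (nat_lit 0)) (M (nat_lit 35467958383919))))) (T.h (T.h (T.h (P (nat_lit 0)) (P (nat_lit 45815686882213888))) (P (nat_lit 0))) (T.h (T.h (P (nat_lit 0)) (M (nat_lit 18638776481903))) (P (nat_lit 0)))))))), (T.h (T.h (T.h (P (nat_lit 19245058767597118072917487255552)) (T.h (P (nat_lit 0)) (T.h (P (nat_lit 59825625941170914374713344)) (T.h (P (nat_lit 0)) (P (nat_lit 12951678390250766336)))))) (T.h (P (nat_lit 0)) (T.h (T.h (M (nat_lit 49064869503036694296788991)) (T.h (P (nat_lit 0)) (M (nat_lit 45880012597962473471)))) (T.h (P (nat_lit 0)) (M (nat_lit 58062886536468234239)))))) (T.h (T.h (P (nat_lit 0)) (T.h (T.h (P (nat_lit 0)) (T.h (M (nat_lit 171507145602860729761791)) (T.h (P (nat_lit 0)) (P (nat_lit 189747104945602560))))) (T.h (P (nat_lit 0)) (T.h (T.h (P (nat_lit 0)) (M (nat_lit 11742295132012543))) (P (nat_lit 0)))))) (T.h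 (T.h (T.h (M (nat_lit 8849924118460195124805631)) (T.h (P (nat_lit 0)) (M (nat_lit 218013063006075748351)))) (T.h (P (nat_lit 0)) (M (nat_lit 78300033919217565695)))) (T.h (T.h (P (nat_lit 0)) (T.h (T.h (P (nat_lit 0)) (P (nat_lit 200573530775552000))) (P (nat_lit 0)))) (P (nat_lit 22472147538827804672)))))), (P (nat_lit 0))]
def lQm_26 : List (T ℤ) := [(P (nat_lit 0)), (T.h (T.h (P (nat_lit 0)) (T.h (T.h (P (nat_lit 0)) (T.h (P (nat_lit 28478335506665354741940224)) (T.h (P (nat_lit 0)) (P (nat_lit 46219789068006326272))))) (T.h (P (nat_lit 0)) (T.h (T.h (P (nat_lit 0)) (P (nat_lit 7399312085391245312))) (P (nat_lit 0)))))) (T.h (T.h (T.h (M (nat_lit 485246316002040588049317887)) (T.h (P (nat_lit 0)) (T.h (M (nat_lit 156873228732256518930431)) (T.h (P (nat_lit 0)) (M (nat_lit 151896253560815615)))))) (T.h (P (nat_lit 0)) (T.h (T.h (M (nat_lit 116266967700160330596351)) (T.h (P (nat_lit 0)) (M (nat_lit 56832365739311103)))) (T.h (P (nat_lit 0)) (M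 (nat_lit 16022553870106623)))))) (T.h (T.h (P (nat_lit 0)) (T.h (T.h (P (nat_lit 0)) (P (nat_lit 379707384477398335488))) (P (nat_lit 0)))) (T.h (T.h (T.h (M (nat_lit 47953310490409918529535)) (T.h (P (nat_lit 0)) (M (nat_lit 455296650780803071)))) (T.h (P (nat_lit 0)) (M (nat_lit 97934611223642111)))) (T.h (P (nat_lit 0)) (M (nat_lit 7655420903981055))))))), (P (nat_lit 0)), (P (nat_lit 0)), (P (nat_lit 0)), (P (nat_lit 0)), (P (nat_lit 0)), (T.h (T.h (T.h (P (nat_lit 0)) (T.h (M (nat_lit 1336912724198935606375481343)) (T.h (P (nat_lit 0)) (T.h (P (nat_lit 16607238043340504039424)) (T.h (P (nat_lit 0)) (P (nat_lit 14287706602635264))))))) (T.h (P (nat_lit 0)) (T.h (T.h (P (nat_lit 0)) (T.h (P (nat_lit 9934466073729626537984)) (T.h (P (nat_lit 0)) (P (nat_lit 32654557935075328))))) (T.h (P (nat_lit 0)) (T.h (T.h (P (nat_lit 0)) (P (nat_lit 1253650768494592))) (P (nat_lit 0))))))) (T.h (T.h (P (nat_lit 0)) (T.h (T.h (M (nat_lit 7711323027092271844556799))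 (T.h (P (nat_lit 0)) (T.h (M (nat_lit 16284901690493108223)) (T.h (P (nat_lit 0)) (M (nat_lit 20176616691847)))))) (T.h (P (nat_lit 0)) (T.h (T.h (M (nat_lit 17975258696120270847)) (T.h (P (nat_lit 0)) (P (nat_lit 18669837897144)))) (T.h (P (nat_lit 0)) (M (nat_lit 19714268702255))))))) (T.h (T.h (T.h (P (nat_lit 0)) (T.h (M (nat_lit 14528311290590639685631)) (T.h (P (nat_lit 0)) (P (nat_lit 31286343396327424))))) (T.h (P (nat_lit 0)) (T.h (T.h (P (nat_lit 0)) (P (nat_lit 17872552192311296))) (P (nat_lit 0))))) (T.h (T.h (P (nat_lit 0)) (T.h (T.h (P (nat_lit 1941185707053678592)) (T.h (P (nat_lit 0)) (M (nat_lit 12711245874063)))) (T.h (P (nat_lit 0)) (P (nat_lit 13950046079656))))) (T.h (T.h (T.h (P (nat_lit 0)) (M (nat_lit 1098191121285119))) (P (nat_lit 0))) (T.h (T.h (P (nat_lit 0)) (P (nat_lit 10067002337968))) (P (nat_lit 0))))))))]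
def lQm_27 : List (T ℤ) := [(T.h (T.h (T.h (P (nat_lit 86809079186767951930205203857408)) (T.h (P (nat_lit 0)) (T.h (M (nat_lit 36443918426805068705562623)) (T.h (P (nat_lit 0)) (T.h (M (nat_lit 61090529252569251839)) (T.h (P (nat_lit 0)) (M (nat_lit 61045729373567)))))))) (T.h (P (nat_lit 0)) (T.h (T.h (P (nat_lit 36031400753696434022252544)) (T.h (P (nat_lit 0)) (T.h (M (nat_lit 61134090232989220863)) (T.h (P (nat_lit 0)) (M (nat_lit 93345869782831)))))) (T.h (P (nat_lit 0)) (T.h (T.h (P (nat_lit 58528156815194062848)) (T.h (P (nat_lit 0)) (M (nat_lit 7076939740079)))) (T.h (P (nat_lit 0)) (P (nat_lit 32079931261568)))))))) (T.h (T.h (P (nat_lit 0)) (T.h (T.h (P (nat_lit 0)) (T.h (P (nat_lit 59848340049032927772672)) (T.h (P (nat_lit 0)) (P (nat_lit 164587619966582784))))) (T.h (P (nat_lit 0)) (T.h (T.h (P (nat_lit 0)) (P (nat_lit 3353098598154240))) (P (nat_lit 0)))))) (T.h (T.h (T.h (M (nat_lit 2344628487712069071667199)) (T.h (P (nat_lit 0))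 (T.h (M (nat_lit 47842095524028088319)) (T.h (P (nat_lit 0)) (M (nat_lit 8128876489663)))))) (T.h (P (nat_lit 0)) (T.h (T.h (M (nat_lit 16327763553652047871)) (T.h (P (nat_lit 0)) (M (nat_lit 22178401775167)))) (T.h (P (nat_lit 0)) (M (nat_lit 22396963694271)))))) (T.h (T.h (P (nat_lit 0)) (T.h (T.h (P (nat_lit 0)) (P (nat_lit 34322871671980032))) (P (nat_lit 0)))) (T.h (T.h (T.h (M (nat_lit 29021417438497996799)) (T.h (P (nat_lit 0)) (P (nat_lit 28335036564160)))) (T.h (P (nat_lit 0)) (M (nat_lit 35169845347711)))) (T.h (P (nat_lit 0)) (M (nat_lit 15472739090591)))))))), (T.h (T.h (T.h (P (nat_lit 0)) (T.h (P (nat_lit 3590745101603317330175066112)) (T.h (P (nat_lit 0)) (T.h (M (nat_lit 20755233146715930361855)) (T.h (P (nat_lit 0)) (P (nat_lit 58160947801522176))))))) (T.h (P (nat_lit 0)) (T.h (T.h (P (nat_lit 0)) (T.h (P (nat_lit 124166508171363386130432)) (T.h (P (nat_lit 0)) (P (nat_lit 68489507773218816))))) (T.h (P (nat_lit 0)) (T.h (T.h (P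 (nat_lit 0)) (P (nat_lit 36867882448781312))) (P (nat_lit 0))))))) (T.h (T.h (P (nat_lit 0)) (T.h (T.h (M (nat_lit 80418422512579686147555327)) (T.h (P (nat_lit 0)) (T.h (M (nat_lit 104085129146604191743)) (T.h (P (nat_lit 0)) (P (nat_lit 127027661279104)))))) (T.h (P (nat_lit 0)) (T.h (T.h (M (nat_lit 178498018031653879807)) (T.h (P (nat_lit 0)) (M (nat_lit 17335854132351)))) (T.h (P (nat_lit 0)) (M (nat_lit 8739903821823))))))) (T.h (T.h (T.h (P (nat_lit 0)) (T.h (P (nat_lit 63497192389272894701568)) (T.h (P (nat_lit 0)) (M (nat_lit 77251621451530239))))) (T.h (P (nat_lit 0)) (T.h (T.h (P (nat_lit 0)) (M (nat_lit 34854012157460479))) (P (nat_lit 0))))) (T.h (T.h (P (nat_lit 0)) (T.h (T.h (M (nat_lit 59806517900091588607)) (T.h (P (nat_lit 0)) (P (nat_lit 42822324891904)))) (T.h (P (nat_lit 0)) (M (nat_lit 19914028257663))))) (T.h (T.h (T.h (P (nat_lit 0)) (M (nat_lit 56846165451276287))) (P (nat_lit 0))) (T.h (T.h (P (nat_lit 0)) (P (nat_lit 8349296421312)))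 (P (nat_lit 0)))))))), (T.h (T.h (T.h (M (nat_lit 205350043513454281615841085620223)) (T.h (P (nat_lit 0)) (T.h (P (nat_lit 75599948516729912213635072)) (T.h (P (nat_lit 0)) (T.h (P (nat_lit 64015524220947660800)) (T.h (P (nat_lit 0)) (P (nat_lit 75877149067776)))))))) (T.h (P (nat_lit 0)) (T.h (T.h (M (nat_lit 19719680482569520888676351)) (T.h (P (nat_lit 0)) (T.h (P (nat_lit 25093411247801499648)) (T.h (P (nat_lit 0)) (P (nat_lit 73651491357984)))))) (T.h (P (nat_lit 0)) (T.h (T.h (M (nat_lit 74665272753331896319)) (T.h (P (nat_lit 0)) (P (nat_lit 74071766674224)))) (T.h (P (nat_lit 0)) (M (nat_lit 70822787459903)))))))) (T.h (T.h (P (nat_lit 0)) (T.h (T.h (P (nat_lit 0)) (T.h (M (nat_lit 391552516520223247958015)) (T.h (P (nat_lit 0)) (M (nat_lit 351998504184446975))))) (T.h (P (nat_lit 0)) (T.h (T.h (P (nat_lit 0)) (M (nat_lit 210496298919526399))) (P (nat_lit 0)))))) (T.h (T.h (T.h (P (nat_lit 75599948516729912213635072)) (T.h (P (nat_lit 0))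 (T.h (P (nat_lit 269115735241874472960)) (T.h (P (nat_lit 0)) (P (nat_lit 43617723863328)))))) (T.h (P (nat_lit 0)) (T.h (T.h (P (nat_lit 25093411247801499648)) (T.h (P (nat_lit 0)) (P (nat_lit 43934860796544)))) (T.h (P (nat_lit 0)) (P (nat_lit 74071766674224)))))) (T.h (T.h (P (nat_lit 0)) (T.h (T.h (P (nat_lit 0)) (M (nat_lit 351998504184446975))) (P (nat_lit 0)))) (T.h (T.h (T.h (P (nat_lit 64015524220947660800)) (T.h (P (nat_lit 0)) (P (nat_lit 43617723863328)))) (T.h (P (nat_lit 0)) (P (nat_lit 73651491357984)))) (T.h (P (nat_lit 0)) (P (nat_lit 75877149067776)))))))), (T.h (T.h (T.h (P (nat_lit 0)) (T.h (M (nat_lit 11248579222122020348964634623)) (T.h (P (nat_lit 0)) (T.h (M (nat_lit 47210703150660263608319)) (T.h (P (nat_lit 0)) (M (nat_lit 113838962049777663))))))) (T.h (P (nat_lit 0)) (T.h (T.h (P (nat_lit 0)) (T.h (M (nat_lit 110268998513681254842367)) (T.h (P (nat_lit 0)) (M (nat_lit 83781578424385535))))) (T.h (P (nat_lit 0)) (T.h (T.h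 (P (nat_lit 0)) (M (nat_lit 25337783715266559))) (P (nat_lit 0))))))) (T.h (T.h (P (nat_lit 0)) (T.h (T.h (P (nat_lit 33206684731157785694175232)) (T.h (P (nat_lit 0)) (P (nat_lit 352605878129642176512)))) (T.h (P (nat_lit 0)) (M (nat_lit 13623357689722568703))))) (T.h (T.h (T.h (P (nat_lit 0)) (T.h (M (nat_lit 251163479293727797673983)) (T.h (P (nat_lit 0)) (M (nat_lit 15489028619730943))))) (T.h (P (nat_lit 0)) (T.h (T.h (P (nat_lit 0)) (M (nat_lit 22622444845334527))) (P (nat_lit 0))))) (T.h (T.h (P (nat_lit 0)) (P (nat_lit 274170867548684288))) (T.h (T.h (T.h (P (nat_lit 0)) (P (nat_lit 1355874914500608))) (P (nat_lit 0))) (P (nat_lit 0))))))), (P (nat_lit 0)), (P (nat_lit 0)), (T.h (T.h (P (nat_lit 0)) (T.h (T.h (M (nat_lit 1336912724198935606375481343)) (T.h (P (nat_lit 0)) (T.h (P (nat_lit 9934466073729626537984)) (T.h (P (nat_lit 0)) (P (nat_lit 1253650768494592)))))) (T.h (P (nat_lit 0)) (T.h (T.h (P (nat_lit 16607238043340504039424)) (T.h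 (P (nat_lit 0)) (P (nat_lit 32654557935075328)))) (T.h (P (nat_lit 0)) (P (nat_lit 14287706602635264))))))) (T.h (T.h (T.h (P (nat_lit 0)) (T.h (M (nat_lit 7711323027092271844556799)) (T.h (P (nat_lit 0)) (T.h (M (nat_lit 17975258696120270847)) (T.h (P (nat_lit 0)) (M (nat_lit 19714268702255))))))) (T.h (P (nat_lit 0)) (T.h (T.h (P (nat_lit 0)) (T.h (M (nat_lit 16284901690493108223)) (T.h (P (nat_lit 0)) (P (nat_lit 18669837897144))))) (T.h (P (nat_lit 0)) (T.h (T.h (P (nat_lit 0)) (M (nat_lit 20176616691847))) (P (nat_lit 0))))))) (T.h (T.h (P (nat_lit 0)) (T.h (T.h (M (nat_lit 14528311290590639685631)) (T.h (P (nat_lit 0)) (P (nat_lit 17872552192311296)))) (T.h (P (nat_lit 0)) (P (nat_lit 31286343396327424))))) (T.h (T.h (T.h (P (nat_lit 0)) (T.h (P (nat_lit 1941185707053678592)) (T.h (P (nat_lit 0)) (P (nat_lit 13950046079656))))) (T.h (P (nat_lit 0)) (T.h (T.h (P (nat_lit 0)) (M (nat_lit 12711245874063))) (P (nat_lit 0))))) (T.h (T.h (P (nat_lit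 0)) (M (nat_lit 1098191121285119))) (T.h (T.h (T.h (P (nat_lit 0)) (P (nat_lit 10067002337968))) (P (nat_lit 0))) (P (nat_lit 0)))))))), (T.h (T.h (P (nat_lit 0)) (T.h (T.h (P (nat_lit 0)) (T.h (M (nat_lit 2299170196782604928155647)) (T.h (P (nat_lit 0)) (T.h (M (nat_lit 29984986299287732223)) (T.h (P (nat_lit 0)) (M (nat_lit 57105588554927))))))) (T.h (P (nat_lit 0)) (T.h (T.h (P (nat_lit 0)) (T.h (M (nat_lit 29984986299287732223)) (T.h (P (nat_lit 0)) (M (nat_lit 33666772764575))))) (T.h (P (nat_lit 0)) (T.h (T.h (P (nat_lit 0)) (M (nat_lit 57105588554927))) (P (nat_lit 0)))))))) (T.h (T.h (T.h (P (nat_lit 939231405214339478568566784)) (T.h (P (nat_lit 0)) (T.h (P (nat_lit 17027837181526034874368)) (T.h (P (nat_lit 0)) (P (nat_lit 5975307047600128)))))) (T.h (P (nat_lit 0)) (T.h (T.h (P (nat_lit 17027837181526034874368)) (T.h (P (nat_lit 0)) (M (nat_lit 32323892618592255)))) (T.h (P (nat_lit 0)) (P (nat_lit 5975307047600128)))))) (T.h (T.h (P (nat_lit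 0)) (T.h (T.h (P (nat_lit 0)) (T.h (P (nat_lit 19379500169371320320)) (T.h (P (nat_lit 0)) (P (nat_lit 7964610238816))))) (T.h (P (nat_lit 0)) (T.h (T.h (P (nat_lit 0)) (P (nat_lit 7964610238816))) (P (nat_lit 0)))))) (T.h (T.h (T.h (P (nat_lit 5845085690589601595392)) (T.h (P (nat_lit 0)) (M (nat_lit 34454543240347647)))) (T.h (P (nat_lit 0)) (M (nat_lit 34454543240347647)))) (T.h (T.h (P (nat_lit 0)) (T.h (T.h (P (nat_lit 0)) (P (nat_lit 3163502112640))) (P (nat_lit 0)))) (P (nat_lit 5015311072231424)))))))]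
def lQm_28 : List (T ℤ) := [(T.h (T.h (P (nat_lit 0)) (T.h (T.h (M (nat_lit 2329533710682329323256414207)) (T.h (P (nat_lit 0)) (T.h (P (nat_lit 4759270580204760727552)) (T.h (P (nat_lit 0)) (M (nat_lit 4352544021512191)))))) (T.h (P (nat_lit 0)) (T.h (T.h (P (nat_lit 44316061718040580980736)) (T.h (P (nat_lit 0)) (M (nat_lit 58487381201682431)))) (T.h (P (nat_lit 0)) (M (nat_lit 46707744146751487))))))) (T.h (T.h (T.h (P (nat_lit 0)) (T.h (P (nat_lit 92849442016214720519864320)) (T.h (P (nat_lit 0)) (T.h (M (nat_lit 18730425569333215231)) (T.h (P (nat_lit 0)) (P (nat_lit 1918557931520))))))) (T.h (P (nat_lit 0)) (T.h (T.h (P (nat_lit 0)) (T.h (M (nat_lit 37162643078086918143)) (T.h (P (nat_lit 0)) (M (nat_lit 24709703586559))))) (T.h (P (nat_lit 0)) (T.h (T.h (P (nat_lit 0)) (P (nat_lit 1144468606656))) (P (nat_lit 0))))))) (T.h (T.h (P (nat_lit 0)) (T.h (T.h (M (nat_lit 54157787946408185167871)) (T.h (P (nat_lit 0)) (P (nat_lit 105894992781312000))))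 (T.h (P (nat_lit 0)) (P (nat_lit 126055557227184128))))) (T.h (T.h (T.h (P (nat_lit 0)) (T.h (P (nat_lit 4879699560999419904)) (T.h (P (nat_lit 0)) (M (nat_lit 52990702494399))))) (T.h (P (nat_lit 0)) (T.h (T.h (P (nat_lit 0)) (P (nat_lit 127847904933184))) (P (nat_lit 0))))) (T.h (T.h (P (nat_lit 0)) (P (nat_lit 188300657747984384))) (T.h (T.h (T.h (P (nat_lit 0)) (M (nat_lit 80261662914943))) (P (nat_lit 0))) (P (nat_lit 0)))))))), (T.h (T.h (P (nat_lit 0)) (T.h (T.h (P (nat_lit 0)) (T.h (P (nat_lit 153413495533932063255166976)) (T.h (P (nat_lit 0)) (T.h (M (nat_lit 110231245384298004479)) (T.h (P (nat_lit 0)) (P (nat_lit 77442952494384))))))) (T.h (P (nat_lit 0)) (T.h (T.h (P (nat_lit 0)) (T.h (P (nat_lit 387258353633040793600)) (T.h (P (nat_lit 0)) (M (nat_lit 2395349943695))))) (T.h (P (nat_lit 0)) (T.h (T.h (P (nat_lit 0)) (P (nat_lit 31976606021472))) (P (nat_lit 0)))))))) (T.h (T.h (T.h (M (nat_lit 1388833709443735624582430719)) (T.h (P (nat_lit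 0)) (T.h (M (nat_lit 1652790154048969900031)) (T.h (P (nat_lit 0)) (P (nat_lit 60744512777912320)))))) (T.h (P (nat_lit 0)) (T.h (T.h (M (nat_lit 68126053748545643610111)) (T.h (P (nat_lit 0)) (P (nat_lit 367559157077147648)))) (T.h (P (nat_lit 0)) (P (nat_lit 141085513302016)))))) (T.h (T.h (P (nat_lit 0)) (T.h (T.h (P (nat_lit 0)) (T.h (M (nat_lit 136039828561613291519)) (T.h (P (nat_lit 0)) (M (nat_lit 165739260395375))))) (T.h (P (nat_lit 0)) (T.h (T.h (P (nat_lit 0)) (M (nat_lit 127505483758511))) (P (nat_lit 0)))))) (T.h (T.h (T.h (P (nat_lit 87650396103575026532352)) (T.h (P (nat_lit 0)) (P (nat_lit 218623802189496320)))) (T.h (P (nat_lit 0)) (P (nat_lit 69140507328200704)))) (T.h (T.h (P (nat_lit 0)) (T.h (T.h (P (nat_lit 0)) (M (nat_lit 22262947040159))) (P (nat_lit 0)))) (P (nat_lit 78829327298969600))))))), (T.h (T.h (P (nat_lit 0)) (T.h (T.h (M (nat_lit 29465771449952636056513806335)) (T.h (P (nat_lit 0)) (T.h (M (nat_lit 35933518468873375973375))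 (T.h (P (nat_lit 0)) (M (nat_lit 116566425178505215)))))) (T.h (P (nat_lit 0)) (T.h (T.h (M (nat_lit 3651158552685087555583)) (T.h (P (nat_lit 0)) (M (nat_lit 36771961311526911)))) (T.h (P (nat_lit 0)) (P (nat_lit 82143803782594560))))))) (T.h (T.h (T.h (P (nat_lit 0)) (T.h (P (nat_lit 120814795054612235002314752)) (T.h (P (nat_lit 0)) (M (nat_lit 107041884051731382271))))) (T.h (P (nat_lit 0)) (T.h (T.h (P (nat_lit 0)) (M (nat_lit 179113940030792400895))) (P (nat_lit 0))))) (T.h (T.h (P (nat_lit 0)) (T.h (T.h (M (nat_lit 35933518468873375973375)) (T.h (P (nat_lit 0)) (P (nat_lit 206294093546192896)))) (T.h (P (nat_lit 0)) (M (nat_lit 36771961311526911))))) (T.h (T.h (T.h (P (nat_lit 0)) (M (nat_lit 107041884051731382271))) (P (nat_lit 0))) (T.h (T.h (P (nat_lit 0)) (M (nat_lit 116566425178505215))) (P (nat_lit 0))))))), (P (nat_lit 0)), (P (nat_lit 0)), (T.h (T.h (T.h (P (nat_lit 86809079186767951930205203857408)) (T.h (P (nat_lit 0)) (T.h (P (nat_lit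 36031400753696434022252544)) (T.h (P (nat_lit 0)) (T.h (P (nat_lit 58528156815194062848)) (T.h (P (nat_lit 0)) (P (nat_lit 32079931261568)))))))) (T.h (P (nat_lit 0)) (T.h (T.h (M (nat_lit 36443918426805068705562623)) (T.h (P (nat_lit 0)) (T.h (M (nat_lit 61134090232989220863)) (T.h (P (nat_lit 0)) (M (nat_lit 7076939740079)))))) (T.h (P (nat_lit 0)) (T.h (T.h (M (nat_lit 61090529252569251839)) (T.h (P (nat_lit 0)) (M (nat_lit 93345869782831)))) (T.h (P (nat_lit 0)) (M (nat_lit 61045729373567)))))))) (T.h (T.h (P (nat_lit 0)) (T.h (T.h (P (nat_lit 0)) (T.h (P (nat_lit 59848340049032927772672)) (T.h (P (nat_lit 0)) (P (nat_lit 3353098598154240))))) (T.h (P (nat_lit 0)) (T.h (T.h (P (nat_lit 0)) (P (nat_lit 164587619966582784))) (P (nat_lit 0)))))) (T.h (T.h (T.h (M (nat_lit 2344628487712069071667199)) (T.h (P (nat_lit 0)) (T.h (M (nat_lit 16327763553652047871)) (T.h (P (nat_lit 0)) (M (nat_lit 22396963694271)))))) (T.h (P (nat_lit 0)) (T.h (T.h (M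 (nat_lit 47842095524028088319)) (T.h (P (nat_lit 0)) (M (nat_lit 22178401775167)))) (T.h (P (nat_lit 0)) (M (nat_lit 8128876489663)))))) (T.h (T.h (P (nat_lit 0)) (T.h (T.h (P (nat_lit 0)) (P (nat_lit 34322871671980032))) (P (nat_lit 0)))) (T.h (T.h (T.h (M (nat_lit 29021417438497996799)) (T.h (P (nat_lit 0)) (M (nat_lit 35169845347711)))) (T.h (P (nat_lit 0)) (P (nat_lit 28335036564160)))) (T.h (P (nat_lit 0)) (M (nat_lit 15472739090591)))))))), (T.h (T.h (T.h (P (nat_lit 0)) (T.h (M (nat_lit 2329533710682329323256414207)) (T.h (P (nat_lit 0)) (T.h (P (nat_lit 44316061718040580980736)) (T.h (P (nat_lit 0)) (M (nat_lit 46707744146751487))))))) (T.h (P (nat_lit 0)) (T.h (T.h (P (nat_lit 0)) (T.h (P (nat_lit 4759270580204760727552)) (T.h (P (nat_lit 0)) (M (nat_lit 58487381201682431))))) (T.h (P (nat_lit 0)) (T.h (T.h (P (nat_lit 0)) (M (nat_lit 4352544021512191))) (P (nat_lit 0))))))) (T.h (T.h (P (nat_lit 0)) (T.h (T.h (P (nat_lit 92849442016214720519864320))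 (T.h (P (nat_lit 0)) (T.h (M (nat_lit 37162643078086918143)) (T.h (P (nat_lit 0)) (P (nat_lit 1144468606656)))))) (T.h (P (nat_lit 0)) (T.h (T.h (M (nat_lit 18730425569333215231)) (T.h (P (nat_lit 0)) (M (nat_lit 24709703586559)))) (T.h (P (nat_lit 0)) (P (nat_lit 1918557931520))))))) (T.h (T.h (T.h (P (nat_lit 0)) (T.h (M (nat_lit 54157787946408185167871)) (T.h (P (nat_lit 0)) (P (nat_lit 126055557227184128))))) (T.h (P (nat_lit 0)) (T.h (T.h (P (nat_lit 0)) (P (nat_lit 105894992781312000))) (P (nat_lit 0))))) (T.h (T.h (P (nat_lit 0)) (T.h (T.h (P (nat_lit 4879699560999419904)) (T.h (P (nat_lit 0)) (P (nat_lit 127847904933184)))) (T.h (P (nat_lit 0)) (M (nat_lit 52990702494399))))) (T.h (T.h (T.h (P (nat_lit 0)) (P (nat_lit 188300657747984384))) (P (nat_lit 0))) (T.h (T.h (P (nat_lit 0)) (M (nat_lit 80261662914943))) (P (nat_lit 0)))))))), (T.h (T.h (T.h (M (nat_lit 142662334021017626468049225777151)) (T.h (P (nat_lit 0)) (T.h (M (nat_lit 7987408574276351243059199))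 (T.h (P (nat_lit 0)) (T.h (P (nat_lit 104014889186685353984)) (T.h (P (nat_lit 0)) (P (nat_lit 47753976709152)))))))) (T.h (P (nat_lit 0)) (T.h (T.h (M (nat_lit 7987408574276351243059199)) (T.h (P (nat_lit 0)) (T.h (P (nat_lit 481755780554466263040)) (T.h (P (nat_lit 0)) (P (nat_lit 24553582891632)))))) (T.h (P (nat_lit 0)) (T.h (T.h (P (nat_lit 104014889186685353984)) (T.h (P (nat_lit 0)) (P (nat_lit 24553582891632)))) (T.h (P (nat_lit 0)) (P (nat_lit 47753976709152)))))))) (T.h (T.h (P (nat_lit 0)) (T.h (T.h (P (nat_lit 0)) (T.h (P (nat_lit 570200279855479996284928)) (T.h (P (nat_lit 0)) (P (nat_lit 632807680434405376))))) (T.h (P (nat_lit 0)) (T.h (T.h (P (nat_lit 0)) (P (nat_lit 632807680434405376))) (P (nat_lit 0)))))) (T.h (T.h (T.h (M (nat_lit 98125863949076212247166975)) (T.h (P (nat_lit 0)) (T.h (M (nat_lit 551162162588304801791)) (T.h (P (nat_lit 0)) (P (nat_lit 15277453196976)))))) (T.h (P (nat_lit 0)) (T.h (T.h (M (nat_lit 551162162588304801791))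 (T.h (P (nat_lit 0)) (M (nat_lit 139261050150047)))) (T.h (P (nat_lit 0)) (P (nat_lit 15277453196976)))))) (T.h (T.h (P (nat_lit 0)) (T.h (T.h (P (nat_lit 0)) (P (nat_lit 98114008135958528))) (P (nat_lit 0)))) (T.h (T.h (T.h (M (nat_lit 103377707555302146047)) (T.h (P (nat_lit 0)) (M (nat_lit 24735861633167)))) (T.h (P (nat_lit 0)) (M (nat_lit 24735861633167)))) (T.h (P (nat_lit 0)) (M (nat_lit 31009392773855))))))))]
def lQm_29 : List (T ℤ) := [(T.h (T.h (T.h (P (nat_lit 0)) (T.h (P (nat_lit 1067389163542256608104939520)) (T.h (P (nat_lit 0)) (T.h (P (nat_lit 9817218760697314279424)) (T.h (P (nat_lit 0)) (M (nat_lit 76460755406553087))))))) (T.h (P (nat_lit 0)) (T.h (T.h (P (nat_lit 0)) (T.h (M (nat_lit 15847429164132177281023)) (T.h (P (nat_lit 0)) (P (nat_lit 18419990244458496))))) (T.h (P (nat_lit 0)) (T.h (T.h (P (nat_lit 0)) (P (nat_lit 11879250200887296))) (P (nat_lit 0))))))) (T.h (T.h (P (nat_lit 0)) (T.h (T.h (M (nat_lit 125633492677827405925056511))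 (T.h (P (nat_lit 0)) (M (nat_lit 841263043033434161151)))) (T.h (P (nat_lit 0)) (M (nat_lit 205038297114285703167))))) (T.h (T.h (T.h (P (nat_lit 0)) (T.h (P (nat_lit 407360935313068118769664)) (T.h (P (nat_lit 0)) (P (nat_lit 6549343357075456))))) (T.h (P (nat_lit 0)) (T.h (T.h (P (nat_lit 0)) (P (nat_lit 267824939245535232))) (P (nat_lit 0))))) (T.h (T.h (P (nat_lit 0)) (M (nat_lit 119329832181008695295))) (T.h (T.h (T.h (P (nat_lit 0)) (P (nat_lit 48133197116178432))) (P (nat_lit 0))) (P (nat_lit 0))))))), (P (nat_lit 0)), (P (nat_lit 0)), (T.h (T.h (P (nat_lit 0)) (T.h (T.h (P (nat_lit 3590745101603317330175066112)) (T.h (P (nat_lit 0)) (T.h (P (nat_lit 124166508171363386130432)) (T.h (P (nat_lit 0)) (P (nat_lit 36867882448781312)))))) (T.h (P (nat_lit 0)) (T.h (T.h (M (nat_lit 20755233146715930361855)) (T.h (P (nat_lit 0)) (P (nat_lit 68489507773218816)))) (T.h (P (nat_lit 0)) (P (nat_lit 58160947801522176))))))) (T.h (T.h (T.h (P (nat_lit 0))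 (T.h (M (nat_lit 80418422512579686147555327)) (T.h (P (nat_lit 0)) (T.h (M (nat_lit 178498018031653879807)) (T.h (P (nat_lit 0)) (M (nat_lit 8739903821823))))))) (T.h (P (nat_lit 0)) (T.h (T.h (P (nat_lit 0)) (T.h (M (nat_lit 104085129146604191743)) (T.h (P (nat_lit 0)) (M (nat_lit 17335854132351))))) (T.h (P (nat_lit 0)) (T.h (T.h (P (nat_lit 0)) (P (nat_lit 127027661279104))) (P (nat_lit 0))))))) (T.h (T.h (P (nat_lit 0)) (T.h (T.h (P (nat_lit 63497192389272894701568)) (T.h (P (nat_lit 0)) (M (nat_lit 34854012157460479)))) (T.h (P (nat_lit 0)) (M (nat_lit 77251621451530239))))) (T.h (T.h (T.h (P (nat_lit 0)) (T.h (M (nat_lit 59806517900091588607)) (T.h (P (nat_lit 0)) (M (nat_lit 19914028257663))))) (T.h (P (nat_lit 0)) (T.h (T.h (P (nat_lit 0)) (P (nat_lit 42822324891904))) (P (nat_lit 0))))) (T.h (T.h (P (nat_lit 0)) (M (nat_lit 56846165451276287))) (T.h (T.h (T.h (P (nat_lit 0)) (P (nat_lit 8349296421312))) (P (nat_lit 0))) (P (nat_lit 0)))))))),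 (T.h (T.h (P (nat_lit 0)) (T.h (T.h (P (nat_lit 0)) (T.h (P (nat_lit 153413495533932063255166976)) (T.h (P (nat_lit 0)) (T.h (P (nat_lit 387258353633040793600)) (T.h (P (nat_lit 0)) (P (nat_lit 31976606021472))))))) (T.h (P (nat_lit 0)) (T.h (T.h (P (nat_lit 0)) (T.h (M (nat_lit 110231245384298004479)) (T.h (P (nat_lit 0)) (M (nat_lit 2395349943695))))) (T.h (P (nat_lit 0)) (T.h (T.h (P (nat_lit 0)) (P (nat_lit 77442952494384))) (P (nat_lit 0)))))))) (T.h (T.h (T.h (M (nat_lit 1388833709443735624582430719)) (T.h (P (nat_lit 0)) (T.h (M (nat_lit 68126053748545643610111)) (T.h (P (nat_lit 0)) (P (nat_lit 141085513302016)))))) (T.h (P (nat_lit 0)) (T.h (T.h (M (nat_lit 1652790154048969900031)) (T.h (P (nat_lit 0)) (P (nat_lit 367559157077147648)))) (T.h (P (nat_lit 0)) (P (nat_lit 60744512777912320)))))) (T.h (T.h (P (nat_lit 0)) (T.h (T.h (P (nat_lit 0)) (T.h (M (nat_lit 136039828561613291519)) (T.h (P (nat_lit 0)) (M (nat_lit 127505483758511)))))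 (T.h (P (nat_lit 0)) (T.h (T.h (P (nat_lit 0)) (M (nat_lit 165739260395375))) (P (nat_lit 0)))))) (T.h (T.h (T.h (P (nat_lit 87650396103575026532352)) (T.h (P (nat_lit 0)) (P (nat_lit 69140507328200704)))) (T.h (P (nat_lit 0)) (P (nat_lit 218623802189496320)))) (T.h (T.h (P (nat_lit 0)) (T.h (T.h (P (nat_lit 0)) (M (nat_lit 22262947040159))) (P (nat_lit 0)))) (P (nat_lit 78829327298969600))))))), (T.h (T.h (P (nat_lit 0)) (T.h (T.h (P (nat_lit 1067389163542256608104939520)) (T.h (P (nat_lit 0)) (T.h (M (nat_lit 15847429164132177281023)) (T.h (P (nat_lit 0)) (P (nat_lit 11879250200887296)))))) (T.h (P (nat_lit 0)) (T.h (T.h (P (nat_lit 9817218760697314279424)) (T.h (P (nat_lit 0)) (P (nat_lit 18419990244458496)))) (T.h (P (nat_lit 0)) (M (nat_lit 76460755406553087))))))) (T.h (T.h (T.h (P (nat_lit 0)) (T.h (M (nat_lit 125633492677827405925056511)) (T.h (P (nat_lit 0)) (M (nat_lit 205038297114285703167))))) (T.h (P (nat_lit 0)) (T.h (T.h (P (nat_lit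 0)) (M (nat_lit 841263043033434161151))) (P (nat_lit 0))))) (T.h (T.h (P (nat_lit 0)) (T.h (T.h (P (nat_lit 407360935313068118769664)) (T.h (P (nat_lit 0)) (P (nat_lit 267824939245535232)))) (T.h (P (nat_lit 0)) (P (nat_lit 6549343357075456))))) (T.h (T.h (T.h (P (nat_lit 0)) (M (nat_lit 119329832181008695295))) (P (nat_lit 0))) (T.h (T.h (P (nat_lit 0)) (P (nat_lit 48133197116178432))) (P (nat_lit 0))))))), (P (nat_lit 0)), (P (nat_lit 0))]
def lQm_30 : List (T ℤ) := [(T.h (T.h (T.h (M (nat_lit 205350043513454281615841085620223)) (T.h (P (nat_lit 0)) (T.h (M (nat_lit 19719680482569520888676351)) (T.h (P (nat_lit 0)) (T.h (M (nat_lit 74665272753331896319)) (T.h (P (nat_lit 0)) (M (nat_lit 70822787459903)))))))) (T.h (P (nat_lit 0)) (T.h (T.h (P (nat_lit 75599948516729912213635072)) (T.h (P (nat_lit 0)) (T.h (P (nat_lit 25093411247801499648)) (T.h (P (nat_lit 0)) (P (nat_lit 74071766674224)))))) (T.h (P (nat_lit 0)) (T.h (T.h (P (nat_lit 64015524220947660800))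 (T.h (P (nat_lit 0)) (P (nat_lit 73651491357984)))) (T.h (P (nat_lit 0)) (P (nat_lit 75877149067776)))))))) (T.h (T.h (P (nat_lit 0)) (T.h (T.h (P (nat_lit 0)) (T.h (M (nat_lit 391552516520223247958015)) (T.h (P (nat_lit 0)) (M (nat_lit 210496298919526399))))) (T.h (P (nat_lit 0)) (T.h (T.h (P (nat_lit 0)) (M (nat_lit 351998504184446975))) (P (nat_lit 0)))))) (T.h (T.h (T.h (P (nat_lit 75599948516729912213635072)) (T.h (P (nat_lit 0)) (T.h (P (nat_lit 25093411247801499648)) (T.h (P (nat_lit 0)) (P (nat_lit 74071766674224)))))) (T.h (P (nat_lit 0)) (T.h (T.h (P (nat_lit 269115735241874472960)) (T.h (P (nat_lit 0)) (P (nat_lit 43934860796544)))) (T.h (P (nat_lit 0)) (P (nat_lit 43617723863328)))))) (T.h (T.h (P (nat_lit 0)) (T.h (T.h (P (nat_lit 0)) (M (nat_lit 351998504184446975))) (P (nat_lit 0)))) (T.h (T.h (T.h (P (nat_lit 64015524220947660800)) (T.h (P (nat_lit 0)) (P (nat_lit 73651491357984)))) (T.h (P (nat_lit 0)) (P (nat_lit 43617723863328))))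 (T.h (P (nat_lit 0)) (P (nat_lit 75877149067776)))))))), (T.h (T.h (T.h (P (nat_lit 0)) (T.h (M (nat_lit 29465771449952636056513806335)) (T.h (P (nat_lit 0)) (T.h (M (nat_lit 3651158552685087555583)) (T.h (P (nat_lit 0)) (P (nat_lit 82143803782594560))))))) (T.h (P (nat_lit 0)) (T.h (T.h (P (nat_lit 0)) (T.h (M (nat_lit 35933518468873375973375)) (T.h (P (nat_lit 0)) (M (nat_lit 36771961311526911))))) (T.h (P (nat_lit 0)) (T.h (T.h (P (nat_lit 0)) (M (nat_lit 116566425178505215))) (P (nat_lit 0))))))) (T.h (T.h (P (nat_lit 0)) (T.h (T.h (P (nat_lit 120814795054612235002314752)) (T.h (P (nat_lit 0)) (M (nat_lit 179113940030792400895)))) (T.h (P (nat_lit 0)) (M (nat_lit 107041884051731382271))))) (T.h (T.h (T.h (P (nat_lit 0)) (T.h (M (nat_lit 35933518468873375973375)) (T.h (P (nat_lit 0)) (M (nat_lit 36771961311526911))))) (T.h (P (nat_lit 0)) (T.h (T.h (P (nat_lit 0)) (P (nat_lit 206294093546192896))) (P (nat_lit 0))))) (T.h (T.h (P (nat_lit 0)) (M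 (nat_lit 107041884051731382271))) (T.h (T.h (T.h (P (nat_lit 0)) (M (nat_lit 116566425178505215))) (P (nat_lit 0))) (P (nat_lit 0))))))), (P (nat_lit 0)), (P (nat_lit 0)), (T.h (T.h (P (nat_lit 0)) (T.h (T.h (M (nat_lit 11248579222122020348964634623)) (T.h (P (nat_lit 0)) (T.h (M (nat_lit 110268998513681254842367)) (T.h (P (nat_lit 0)) (M (nat_lit 25337783715266559)))))) (T.h (P (nat_lit 0)) (T.h (T.h (M (nat_lit 47210703150660263608319)) (T.h (P (nat_lit 0)) (M (nat_lit 83781578424385535)))) (T.h (P (nat_lit 0)) (M (nat_lit 113838962049777663))))))) (T.h (T.h (T.h (P (nat_lit 0)) (T.h (P (nat_lit 33206684731157785694175232)) (T.h (P (nat_lit 0)) (M (nat_lit 13623357689722568703))))) (T.h (P (nat_lit 0)) (T.h (T.h (P (nat_lit 0)) (P (nat_lit 352605878129642176512))) (P (nat_lit 0))))) (T.h (T.h (P (nat_lit 0)) (T.h (T.h (M (nat_lit 251163479293727797673983)) (T.h (P (nat_lit 0)) (M (nat_lit 22622444845334527)))) (T.h (P (nat_lit 0)) (M (nat_lit 15489028619730943)))))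 (T.h (T.h (T.h (P (nat_lit 0)) (P (nat_lit 274170867548684288))) (P (nat_lit 0))) (T.h (T.h (P (nat_lit 0)) (P (nat_lit 1355874914500608))) (P (nat_lit 0))))))), (P (nat_lit 0)), (P (nat_lit 0)), (P (nat_lit 0))]
def lQm_31 : List (T ℤ) := [(P (nat_lit 0)), (P (nat_lit 0)), (T.h (T.h (P (nat_lit 0)) (T.h (T.h (P (nat_lit 0)) (T.h (P (nat_lit 868305541875677324640256)) (T.h (P (nat_lit 0)) (T.h (P (nat_lit 38366446287021146112)) (T.h (P (nat_lit 0)) (P (nat_lit 13573732110456))))))) (T.h (P (nat_lit 0)) (T.h (T.h (P (nat_lit 0)) (T.h (P (nat_lit 38366446287021146112)) (T.h (P (nat_lit 0)) (P (nat_lit 82900738593680))))) (T.h (P (nat_lit 0)) (T.h (T.h (P (nat_lit 0)) (P (nat_lit 13573732110456))) (P (nat_lit 0)))))))) (T.h (T.h (T.h (M (nat_lit 10017191180407088564301463551)) (T.h (P (nat_lit 0)) (T.h (M (nat_lit 25151176110106820476927)) (T.h (P (nat_lit 0)) (M (nat_lit 24686970010140671)))))) (T.h (P (nat_lit 0)) (T.h (T.h (M (nat_lit 25151176110106820476927))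 (T.h (P (nat_lit 0)) (M (nat_lit 8153435818164223)))) (T.h (P (nat_lit 0)) (M (nat_lit 24686970010140671)))))) (T.h (T.h (P (nat_lit 0)) (T.h (T.h (P (nat_lit 0)) (T.h (M (nat_lit 97397380587978751)) (T.h (P (nat_lit 0)) (M (nat_lit 28156273543703))))) (T.h (P (nat_lit 0)) (T.h (T.h (P (nat_lit 0)) (M (nat_lit 28156273543703))) (P (nat_lit 0)))))) (T.h (T.h (T.h (P (nat_lit 2249542807684005232640)) (T.h (P (nat_lit 0)) (P (nat_lit 17031200713637888)))) (T.h (P (nat_lit 0)) (P (nat_lit 17031200713637888)))) (T.h (T.h (P (nat_lit 0)) (T.h (T.h (P (nat_lit 0)) (P (nat_lit 24380342005104))) (P (nat_lit 0)))) (M (nat_lit 2442926698725375))))))), (T.h (T.h (P (nat_lit 0)) (T.h (T.h (P (nat_lit 23735099046155115220969717760)) (T.h (P (nat_lit 0)) (T.h (M (nat_lit 79357771058813610229759)) (T.h (P (nat_lit 0)) (M (nat_lit 112594984012251135)))))) (T.h (P (nat_lit 0)) (T.h (T.h (P (nat_lit 2222835744462361067520)) (T.h (P (nat_lit 0)) (M (nat_lit 192391894413017087))))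 (T.h (P (nat_lit 0)) (P (nat_lit 21314379690999808))))))) (T.h (T.h (T.h (P (nat_lit 0)) (T.h (P (nat_lit 26738224194884310258417664)) (T.h (P (nat_lit 0)) (T.h (P (nat_lit 7431377113195741184)) (T.h (P (nat_lit 0)) (P (nat_lit 40339979884256))))))) (T.h (P (nat_lit 0)) (T.h (T.h (P (nat_lit 0)) (T.h (M (nat_lit 1972893016427331583)) (T.h (P (nat_lit 0)) (P (nat_lit 1500860940832))))) (T.h (P (nat_lit 0)) (T.h (T.h (P (nat_lit 0)) (P (nat_lit 50708355223312))) (P (nat_lit 0))))))) (T.h (T.h (P (nat_lit 0)) (T.h (T.h (P (nat_lit 13919576347252589854720)) (T.h (P (nat_lit 0)) (P (nat_lit 14821950289199104)))) (T.h (P (nat_lit 0)) (M (nat_lit 57975825390141439))))) (T.h (T.h (T.h (P (nat_lit 0)) (T.h (P (nat_lit 10879051756713541632)) (T.h (P (nat_lit 0)) (P (nat_lit 6020971354256))))) (T.h (P (nat_lit 0)) (T.h (T.h (P (nat_lit 0)) (M (nat_lit 4144068559599))) (P (nat_lit 0))))) (T.h (T.h (P (nat_lit 0)) (M (nat_lit 42531209117253631))) (T.h (T.h (T.h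 (P (nat_lit 0)) (M (nat_lit 14450944174591))) (P (nat_lit 0))) (P (nat_lit 0)))))))), (T.h (T.h (P (nat_lit 0)) (T.h (T.h (P (nat_lit 0)) (T.h (P (nat_lit 24835050078617542714195968)) (T.h (P (nat_lit 0)) (T.h (P (nat_lit 92842694536798928896)) (T.h (P (nat_lit 0)) (M (nat_lit 22372417272255))))))) (T.h (P (nat_lit 0)) (T.h (T.h (P (nat_lit 0)) (T.h (P (nat_lit 42386563146822189056)) (T.h (P (nat_lit 0)) (M (nat_lit 141777948044415))))) (T.h (P (nat_lit 0)) (T.h (T.h (P (nat_lit 0)) (M (nat_lit 3655923658687))) (P (nat_lit 0)))))))) (T.h (T.h (T.h (P (nat_lit 18765722672698315194899628032)) (T.h (P (nat_lit 0)) (T.h (M (nat_lit 30521886510044407660543)) (T.h (P (nat_lit 0)) (M (nat_lit 52964942878146559)))))) (T.h (P (nat_lit 0)) (T.h (T.h (P (nat_lit 115058167568772116774912)) (T.h (P (nat_lit 0)) (M (nat_lit 31961302718545919)))) (T.h (P (nat_lit 0)) (P (nat_lit 103189076392050688)))))) (T.h (T.h (P (nat_lit 0)) (T.h (T.h (P (nat_lit 0)) (T.h (P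 (nat_lit 128900549409064878080)) (T.h (P (nat_lit 0)) (P (nat_lit 63976585455808))))) (T.h (P (nat_lit 0)) (T.h (T.h (P (nat_lit 0)) (M (nat_lit 6299933357695))) (P (nat_lit 0)))))) (T.h (T.h (T.h (P (nat_lit 23579592421698636349440)) (T.h (P (nat_lit 0)) (M (nat_lit 104514075428454399)))) (T.h (P (nat_lit 0)) (P (nat_lit 25670652112863232)))) (T.h (T.h (P (nat_lit 0)) (T.h (T.h (P (nat_lit 0)) (M (nat_lit 26860824312191))) (P (nat_lit 0)))) (P (nat_lit 12000930136850432))))))), (T.h (T.h (P (nat_lit 0)) (T.h (T.h (M (nat_lit 86573778126472935022694236159)) (T.h (P (nat_lit 0)) (T.h (P (nat_lit 60821576642137342083072)) (T.h (P (nat_lit 0)) (P (nat_lit 45815686882213888)))))) (T.h (P (nat_lit 0)) (T.h (T.h (M (nat_lit 49032214689452727992319)) (T.h (P (nat_lit 0)) (P (nat_lit 257381685080227840)))) (T.h (P (nat_lit 0)) (M (nat_lit 22307162351419391))))))) (T.h (T.h (T.h (P (nat_lit 0)) (T.h (P (nat_lit 55057915343755458021163008)) (T.h (P (nat_lit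 0)) (T.h (P (nat_lit 166545932273294770176)) (T.h (P (nat_lit 0)) (M (nat_lit 18638776481903))))))) (T.h (P (nat_lit 0)) (T.h (T.h (P (nat_lit 0)) (T.h (P (nat_lit 321466405071154577408)) (T.h (P (nat_lit 0)) (P (nat_lit 3848439743712))))) (T.h (P (nat_lit 0)) (T.h (T.h (P (nat_lit 0)) (M (nat_lit 36795851005967))) (P (nat_lit 0))))))) (T.h (T.h (P (nat_lit 0)) (T.h (T.h (M (nat_lit 38674386700585597403135)) (T.h (P (nat_lit 0)) (M (nat_lit 556794615299260415)))) (T.h (P (nat_lit 0)) (M (nat_lit 33527803763163135))))) (T.h (T.h (T.h (P (nat_lit 0)) (T.h (P (nat_lit 161023069026907062272)) (T.h (P (nat_lit 0)) (M (nat_lit 35467958383919))))) (T.h (P (nat_lit 0)) (T.h (T.h (P (nat_lit 0)) (P (nat_lit 73574799128352))) (P (nat_lit 0))))) (T.h (T.h (P (nat_lit 0)) (M (nat_lit 1512243294584831))) (T.h (T.h (T.h (P (nat_lit 0)) (P (nat_lit 45005981788656))) (P (nat_lit 0))) (P (nat_lit 0)))))))), (T.h (T.h (P (nat_lit 0)) (T.h (T.h (P (nat_lit 0)) (T.h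 (P (nat_lit 33206684731157785694175232)) (T.h (P (nat_lit 0)) (P (nat_lit 274170867548684288))))) (T.h (P (nat_lit 0)) (T.h (T.h (P (nat_lit 0)) (M (nat_lit 13623357689722568703))) (P (nat_lit 0)))))) (T.h (T.h (T.h (M (nat_lit 11248579222122020348964634623)) (T.h (P (nat_lit 0)) (T.h (M (nat_lit 251163479293727797673983)) (T.h (P (nat_lit 0)) (P (nat_lit 1355874914500608)))))) (T.h (P (nat_lit 0)) (T.h (T.h (M (nat_lit 110268998513681254842367)) (T.h (P (nat_lit 0)) (M (nat_lit 22622444845334527)))) (T.h (P (nat_lit 0)) (M (nat_lit 25337783715266559)))))) (T.h (T.h (P (nat_lit 0)) (T.h (T.h (P (nat_lit 0)) (P (nat_lit 352605878129642176512))) (P (nat_lit 0)))) (T.h (T.h (T.h (M (nat_lit 47210703150660263608319)) (T.h (P (nat_lit 0)) (M (nat_lit 15489028619730943)))) (T.h (P (nat_lit 0)) (M (nat_lit 83781578424385535)))) (T.h (P (nat_lit 0)) (M (nat_lit 113838962049777663))))))), (P (nat_lit 0))]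
def lQm_32 : List (T ℤ) := [(P (nat_lit 0)), (T.h (T.h (T.h (P (nat_lit 0)) (T.h (P (nat_lit 23735099046155115220969717760)) (T.h (P (nat_lit 0)) (T.h (P (nat_lit 2222835744462361067520)) (T.h (P (nat_lit 0)) (P (nat_lit 21314379690999808))))))) (T.h (P (nat_lit 0)) (T.h (T.h (P (nat_lit 0)) (T.h (M (nat_lit 79357771058813610229759)) (T.h (P (nat_lit 0)) (M (nat_lit 192391894413017087))))) (T.h (P (nat_lit 0)) (T.h (T.h (P (nat_lit 0)) (M (nat_lit 112594984012251135))) (P (nat_lit 0))))))) (T.h (T.h (P (nat_lit 0)) (T.h (T.h (P (nat_lit 26738224194884310258417664)) (T.h (P (nat_lit 0)) (T.h (M (nat_lit 1972893016427331583)) (T.h (P (nat_lit 0)) (P (nat_lit 50708355223312)))))) (T.h (P (nat_lit 0)) (T.h (T.h (P (nat_lit 7431377113195741184)) (T.h (P (nat_lit 0)) (P (nat_lit 1500860940832)))) (T.h (P (nat_lit 0)) (P (nat_lit 40339979884256))))))) (T.h (T.h (T.h (P (nat_lit 0)) (T.h (P (nat_lit 13919576347252589854720)) (T.h (P (nat_lit 0)) (M (nat_lit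 57975825390141439))))) (T.h (P (nat_lit 0)) (T.h (T.h (P (nat_lit 0)) (P (nat_lit 14821950289199104))) (P (nat_lit 0))))) (T.h (T.h (P (nat_lit 0)) (T.h (T.h (P (nat_lit 10879051756713541632)) (T.h (P (nat_lit 0)) (M (nat_lit 4144068559599)))) (T.h (P (nat_lit 0)) (P (nat_lit 6020971354256))))) (T.h (T.h (T.h (P (nat_lit 0)) (M (nat_lit 42531209117253631))) (P (nat_lit 0))) (T.h (T.h (P (nat_lit 0)) (M (nat_lit 14450944174591))) (P (nat_lit 0)))))))), (T.h (T.h (T.h (M (nat_lit 14100600292722984911817907634175)) (T.h (P (nat_lit 0)) (T.h (P (nat_lit 19878225937938211091251200)) (T.h (P (nat_lit 0)) (T.h (M (nat_lit 27102934920853454847)) (T.h (P (nat_lit 0)) (M (nat_lit 11718924976895)))))))) (T.h (P (nat_lit 0)) (T.h (T.h (P (nat_lit 19878225937938211091251200)) (T.h (P (nat_lit 0)) (T.h (P (nat_lit 130767476210412814336)) (T.h (P (nat_lit 0)) (P (nat_lit 28074662345024)))))) (T.h (P (nat_lit 0)) (T.h (T.h (M (nat_lit 27102934920853454847)) (T.h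 (P (nat_lit 0)) (P (nat_lit 28074662345024)))) (T.h (P (nat_lit 0)) (M (nat_lit 11718924976895)))))))) (T.h (T.h (P (nat_lit 0)) (T.h (T.h (P (nat_lit 0)) (T.h (M (nat_lit 197518166172726972121087)) (T.h (P (nat_lit 0)) (M (nat_lit 91112112846929919))))) (T.h (P (nat_lit 0)) (T.h (T.h (P (nat_lit 0)) (M (nat_lit 91112112846929919))) (P (nat_lit 0)))))) (T.h (T.h (T.h (P (nat_lit 20814658395147442166169600)) (T.h (P (nat_lit 0)) (T.h (P (nat_lit 173861728751022243840)) (T.h (P (nat_lit 0)) (M (nat_lit 23700434462527)))))) (T.h (P (nat_lit 0)) (T.h (T.h (P (nat_lit 173861728751022243840)) (T.h (P (nat_lit 0)) (M (nat_lit 16099247337343)))) (T.h (P (nat_lit 0)) (M (nat_lit 23700434462527)))))) (T.h (T.h (P (nat_lit 0)) (T.h (T.h (P (nat_lit 0)) (M (nat_lit 41940980879982591))) (P (nat_lit 0)))) (T.h (T.h (T.h (M (nat_lit 85689377122313830399)) (T.h (P (nat_lit 0)) (M (nat_lit 60194524575487)))) (T.h (P (nat_lit 0)) (M (nat_lit 60194524575487)))) (T.h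 (P (nat_lit 0)) (M (nat_lit 1272988433791)))))))), (T.h (T.h (T.h (P (nat_lit 0)) (T.h (M (nat_lit 72478261872372897710639939583)) (T.h (P (nat_lit 0)) (T.h (P (nat_lit 87123053949393083301888)) (T.h (P (nat_lit 0)) (M (nat_lit 23341432239112191))))))) (T.h (P (nat_lit 0)) (T.h (T.h (P (nat_lit 0)) (T.h (M (nat_lit 155514434487671085596671)) (T.h (P (nat_lit 0)) (P (nat_lit 139103987127779328))))) (T.h (P (nat_lit 0)) (T.h (T.h (P (nat_lit 0)) (P (nat_lit 98322677260517376))) (P (nat_lit 0))))))) (T.h (T.h (P (nat_lit 0)) (T.h (T.h (P (nat_lit 103001419594148129347207168)) (T.h (P (nat_lit 0)) (T.h (M (nat_lit 68199807893534408703)) (T.h (P (nat_lit 0)) (M (nat_lit 139411251903167)))))) (T.h (P (nat_lit 0)) (T.h (T.h (M (nat_lit 77790327255810965503)) (T.h (P (nat_lit 0)) (M (nat_lit 215827605369791)))) (T.h (P (nat_lit 0)) (M (nat_lit 45849852608687))))))) (T.h (T.h (T.h (P (nat_lit 0)) (T.h (M (nat_lit 29227457131615847710719)) (T.h (P (nat_lit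 0)) (P (nat_lit 155218703881830400))))) (T.h (P (nat_lit 0)) (T.h (T.h (P (nat_lit 0)) (P (nat_lit 26519925572091904))) (P (nat_lit 0))))) (T.h (T.h (P (nat_lit 0)) (T.h (T.h (M (nat_lit 54963012511008292863)) (T.h (P (nat_lit 0)) (M (nat_lit 3247963595855)))) (T.h (P (nat_lit 0)) (P (nat_lit 12834186665184))))) (T.h (T.h (T.h (P (nat_lit 0)) (P (nat_lit 120914351725740032))) (P (nat_lit 0))) (T.h (T.h (P (nat_lit 0)) (P (nat_lit 32752559787552))) (P (nat_lit 0)))))))), (T.h (T.h (T.h (P (nat_lit 19245058767597118072917487255552)) (T.h (P (nat_lit 0)) (T.h (M (nat_lit 8849924118460195124805631)) (T.h (P (nat_lit 0)) (P (nat_lit 22472147538827804672)))))) (T.h (P (nat_lit 0)) (T.h (T.h (P (nat_lit 59825625941170914374713344)) (T.h (P (nat_lit 0)) (M (nat_lit 218013063006075748351)))) (T.h (P (nat_lit 0)) (P (nat_lit 12951678390250766336)))))) (T.h (T.h (P (nat_lit 0)) (T.h (T.h (P (nat_lit 0)) (T.h (M (nat_lit 171507145602860729761791)) (T.h (P (nat_lit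 0)) (P (nat_lit 200573530775552000))))) (T.h (P (nat_lit 0)) (T.h (T.h (P (nat_lit 0)) (P (nat_lit 189747104945602560))) (P (nat_lit 0)))))) (T.h (T.h (T.h (M (nat_lit 49064869503036694296788991)) (T.h (P (nat_lit 0)) (M (nat_lit 78300033919217565695)))) (T.h (P (nat_lit 0)) (M (nat_lit 45880012597962473471)))) (T.h (T.h (P (nat_lit 0)) (T.h (T.h (P (nat_lit 0)) (M (nat_lit 11742295132012543))) (P (nat_lit 0)))) (M (nat_lit 58062886536468234239)))))), (P (nat_lit 0)), (P (nat_lit 0)), (T.h (T.h (P (nat_lit 0)) (T.h (T.h (P (nat_lit 0)) (T.h (P (nat_lit 24835050078617542714195968)) (T.h (P (nat_lit 0)) (T.h (P (nat_lit 42386563146822189056)) (T.h (P (nat_lit 0)) (M (nat_lit 3655923658687))))))) (T.h (P (nat_lit 0)) (T.h (T.h (P (nat_lit 0)) (T.h (P (nat_lit 92842694536798928896)) (T.h (P (nat_lit 0)) (M (nat_lit 141777948044415))))) (T.h (P (nat_lit 0)) (T.h (T.h (P (nat_lit 0)) (M (nat_lit 22372417272255))) (P (nat_lit 0)))))))) (T.h (T.h (T.h (P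 (nat_lit 18765722672698315194899628032)) (T.h (P (nat_lit 0)) (T.h (P (nat_lit 115058167568772116774912)) (T.h (P (nat_lit 0)) (P (nat_lit 103189076392050688)))))) (T.h (P (nat_lit 0)) (T.h (T.h (M (nat_lit 30521886510044407660543)) (T.h (P (nat_lit 0)) (M (nat_lit 31961302718545919)))) (T.h (P (nat_lit 0)) (M (nat_lit 52964942878146559)))))) (T.h (T.h (P (nat_lit 0)) (T.h (T.h (P (nat_lit 0)) (T.h (P (nat_lit 128900549409064878080)) (T.h (P (nat_lit 0)) (M (nat_lit 6299933357695))))) (T.h (P (nat_lit 0)) (T.h (T.h (P (nat_lit 0)) (P (nat_lit 63976585455808))) (P (nat_lit 0)))))) (T.h (T.h (T.h (P (nat_lit 23579592421698636349440)) (T.h (P (nat_lit 0)) (P (nat_lit 25670652112863232)))) (T.h (P (nat_lit 0)) (M (nat_lit 104514075428454399)))) (T.h (T.h (P (nat_lit 0)) (T.h (T.h (P (nat_lit 0)) (M (nat_lit 26860824312191))) (P (nat_lit 0)))) (P (nat_lit 12000930136850432)))))))]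
def lQm_33 : List (T ℤ) := [(T.h (T.h (P (nat_lit 0)) (T.h (T.h (M (nat_lit 72478261872372897710639939583)) (T.h (P (nat_lit 0)) (T.h (M (nat_lit 155514434487671085596671)) (T.h (P (nat_lit 0)) (P (nat_lit 98322677260517376)))))) (T.h (P (nat_lit 0)) (T.h (T.h (P (nat_lit 87123053949393083301888)) (T.h (P (nat_lit 0)) (P (nat_lit 139103987127779328)))) (T.h (P (nat_lit 0)) (M (nat_lit 23341432239112191))))))) (T.h (T.h (T.h (P (nat_lit 0)) (T.h (P (nat_lit 103001419594148129347207168)) (T.h (P (nat_lit 0)) (T.h (M (nat_lit 77790327255810965503)) (T.h (P (nat_lit 0)) (M (nat_lit 45849852608687))))))) (T.h (P (nat_lit 0)) (T.h (T.h (P (nat_lit 0)) (T.h (M (nat_lit 68199807893534408703)) (T.h (P (nat_lit 0)) (M (nat_lit 215827605369791))))) (T.h (P (nat_lit 0)) (T.h (T.h (P (nat_lit 0)) (M (nat_lit 139411251903167))) (P (nat_lit 0))))))) (T.h (T.h (P (nat_lit 0)) (T.h (T.h (M (nat_lit 29227457131615847710719)) (T.h (P (nat_lit 0)) (P (nat_lit 26519925572091904))))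 (T.h (P (nat_lit 0)) (P (nat_lit 155218703881830400))))) (T.h (T.h (T.h (P (nat_lit 0)) (T.h (M (nat_lit 54963012511008292863)) (T.h (P (nat_lit 0)) (P (nat_lit 12834186665184))))) (T.h (P (nat_lit 0)) (T.h (T.h (P (nat_lit 0)) (M (nat_lit 3247963595855))) (P (nat_lit 0))))) (T.h (T.h (P (nat_lit 0)) (P (nat_lit 120914351725740032))) (T.h (T.h (T.h (P (nat_lit 0)) (P (nat_lit 32752559787552))) (P (nat_lit 0))) (P (nat_lit 0)))))))), (T.h (T.h (P (nat_lit 0)) (T.h (T.h (P (nat_lit 0)) (T.h (P (nat_lit 24362427025986149431640064)) (T.h (P (nat_lit 0)) (M (nat_lit 270015642585305972735))))) (T.h (P (nat_lit 0)) (T.h (T.h (P (nat_lit 0)) (M (nat_lit 270015642585305972735))) (P (nat_lit 0)))))) (T.h (T.h (T.h (P (nat_lit 18533547533791401124823040000)) (T.h (P (nat_lit 0)) (T.h (P (nat_lit 203247636894042950729728)) (T.h (P (nat_lit 0)) (P (nat_lit 76937809590648832)))))) (T.h (P (nat_lit 0)) (T.h (T.h (P (nat_lit 203247636894042950729728)) (T.h (P (nat_lit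 0)) (P (nat_lit 358055875133177856)))) (T.h (P (nat_lit 0)) (P (nat_lit 76937809590648832)))))) (T.h (T.h (P (nat_lit 0)) (T.h (T.h (P (nat_lit 0)) (M (nat_lit 99066322717822156799))) (P (nat_lit 0)))) (T.h (T.h (T.h (P (nat_lit 33280740286881974976512)) (T.h (P (nat_lit 0)) (P (nat_lit 14492751674703872)))) (T.h (P (nat_lit 0)) (P (nat_lit 14492751674703872)))) (T.h (P (nat_lit 0)) (P (nat_lit 27432103723925504))))))), (P (nat_lit 0)), (P (nat_lit 0)), (T.h (T.h (T.h (P (nat_lit 0)) (T.h (M (nat_lit 86573778126472935022694236159)) (T.h (P (nat_lit 0)) (T.h (M (nat_lit 49032214689452727992319)) (T.h (P (nat_lit 0)) (M (nat_lit 22307162351419391))))))) (T.h (P (nat_lit 0)) (T.h (T.h (P (nat_lit 0)) (T.h (P (nat_lit 60821576642137342083072)) (T.h (P (nat_lit 0)) (P (nat_lit 257381685080227840))))) (T.h (P (nat_lit 0)) (T.h (T.h (P (nat_lit 0)) (P (nat_lit 45815686882213888))) (P (nat_lit 0))))))) (T.h (T.h (P (nat_lit 0)) (T.h (T.h (P (nat_lit 55057915343755458021163008))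 (T.h (P (nat_lit 0)) (T.h (P (nat_lit 321466405071154577408)) (T.h (P (nat_lit 0)) (M (nat_lit 36795851005967)))))) (T.h (P (nat_lit 0)) (T.h (T.h (P (nat_lit 166545932273294770176)) (T.h (P (nat_lit 0)) (P (nat_lit 3848439743712)))) (T.h (P (nat_lit 0)) (M (nat_lit 18638776481903))))))) (T.h (T.h (T.h (P (nat_lit 0)) (T.h (M (nat_lit 38674386700585597403135)) (T.h (P (nat_lit 0)) (M (nat_lit 33527803763163135))))) (T.h (P (nat_lit 0)) (T.h (T.h (P (nat_lit 0)) (M (nat_lit 556794615299260415))) (P (nat_lit 0))))) (T.h (T.h (P (nat_lit 0)) (T.h (T.h (P (nat_lit 161023069026907062272)) (T.h (P (nat_lit 0)) (P (nat_lit 73574799128352)))) (T.h (P (nat_lit 0)) (M (nat_lit 35467958383919))))) (T.h (T.h (T.h (P (nat_lit 0)) (M (nat_lit 1512243294584831))) (P (nat_lit 0))) (T.h (T.h (P (nat_lit 0)) (P (nat_lit 45005981788656))) (P (nat_lit 0)))))))), (T.h (T.h (T.h (P (nat_lit 19245058767597118072917487255552)) (T.h (P (nat_lit 0)) (T.h (P (nat_lit 59825625941170914374713344))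 (T.h (P (nat_lit 0)) (P (nat_lit 12951678390250766336)))))) (T.h (P (nat_lit 0)) (T.h (T.h (M (nat_lit 8849924118460195124805631)) (T.h (P (nat_lit 0)) (M (nat_lit 218013063006075748351)))) (T.h (P (nat_lit 0)) (P (nat_lit 22472147538827804672)))))) (T.h (T.h (P (nat_lit 0)) (T.h (T.h (P (nat_lit 0)) (T.h (M (nat_lit 171507145602860729761791)) (T.h (P (nat_lit 0)) (P (nat_lit 189747104945602560))))) (T.h (P (nat_lit 0)) (T.h (T.h (P (nat_lit 0)) (P (nat_lit 200573530775552000))) (P (nat_lit 0)))))) (T.h (T.h (T.h (M (nat_lit 49064869503036694296788991)) (T.h (P (nat_lit 0)) (M (nat_lit 45880012597962473471)))) (T.h (P (nat_lit 0)) (M (nat_lit 78300033919217565695)))) (T.h (T.h (P (nat_lit 0)) (T.h (T.h (P (nat_lit 0)) (M (nat_lit 11742295132012543))) (P (nat_lit 0)))) (M (nat_lit 58062886536468234239)))))), (P (nat_lit 0)), (P (nat_lit 0))]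
def lQm_34 : List (T ℤ) := [(T.h (T.h (P (nat_lit 0)) (T.h (T.h (P (nat_lit 0)) (T.h (P (nat_lit 33206684731157785694175232)) (T.h (P (nat_lit 0)) (M (nat_lit 13623357689722568703))))) (T.h (P (nat_lit 0)) (T.h (T.h (P (nat_lit 0)) (P (nat_lit 274170867548684288))) (P (nat_lit 0)))))) (T.h (T.h (T.h (M (nat_lit 11248579222122020348964634623)) (T.h (P (nat_lit 0)) (T.h (M (nat_lit 110268998513681254842367)) (T.h (P (nat_lit 0)) (M (nat_lit 25337783715266559)))))) (T.h (P (nat_lit 0)) (T.h (T.h (M (nat_lit 251163479293727797673983)) (T.h (P (nat_lit 0)) (M (nat_lit 22622444845334527)))) (T.h (P (nat_lit 0)) (P (nat_lit 1355874914500608)))))) (T.h (T.h (P (nat_lit 0)) (T.h (T.h (P (nat_lit 0)) (P (nat_lit 352605878129642176512))) (P (nat_lit 0)))) (T.h (T.h (T.h (M (nat_lit 47210703150660263608319)) (T.h (P (nat_lit 0)) (M (nat_lit 83781578424385535)))) (T.h (P (nat_lit 0)) (M (nat_lit 15489028619730943)))) (T.h (P (nat_lit 0)) (M (nat_lit 113838962049777663))))))),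 (P (nat_lit 0)), (P (nat_lit 0)), (P (nat_lit 0)), (P (nat_lit 0)), (P (nat_lit 0)), (T.h (T.h (T.h (P (nat_lit 99726052038256347958477034881024)) (T.h (P (nat_lit 0)) (T.h (P (nat_lit 12879479387556197198462976)) (T.h (P (nat_lit 0)) (T.h (P (nat_lit 19390578843768061952)) (T.h (P (nat_lit 0)) (P (nat_lit 56203593949792)))))))) (T.h (P (nat_lit 0)) (T.h (T.h (P (nat_lit 12879479387556197198462976)) (T.h (P (nat_lit 0)) (T.h (M (nat_lit 163569657816085954559)) (T.h (P (nat_lit 0)) (M (nat_lit 373272336818415)))))) (T.h (P (nat_lit 0)) (T.h (T.h (P (nat_lit 19390578843768061952)) (T.h (P (nat_lit 0)) (M (nat_lit 373272336818415)))) (T.h (P (nat_lit 0)) (P (nat_lit 56203593949792)))))))) (T.h (T.h (P (nat_lit 0)) (T.h (T.h (P (nat_lit 0)) (T.h (P (nat_lit 25414173094073549717504)) (T.h (P (nat_lit 0)) (P (nat_lit 85390695730020352))))) (T.h (P (nat_lit 0)) (T.h (T.h (P (nat_lit 0)) (P (nat_lit 85390695730020352))) (P (nat_lit 0)))))) (T.h (T.h (T.h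 (M (nat_lit 12917193599314809325617151)) (T.h (P (nat_lit 0)) (T.h (M (nat_lit 43050933782990290943)) (T.h (P (nat_lit 0)) (M (nat_lit 104478078703183)))))) (T.h (P (nat_lit 0)) (T.h (T.h (M (nat_lit 43050933782990290943)) (T.h (P (nat_lit 0)) (P (nat_lit 5095877684832)))) (T.h (P (nat_lit 0)) (M (nat_lit 104478078703183)))))) (T.h (T.h (P (nat_lit 0)) (T.h (T.h (P (nat_lit 0)) (M (nat_lit 77076485201985535))) (P (nat_lit 0)))) (T.h (T.h (T.h (P (nat_lit 21631471958110502912)) (T.h (P (nat_lit 0)) (P (nat_lit 20467126355184)))) (T.h (P (nat_lit 0)) (P (nat_lit 20467126355184)))) (T.h (P (nat_lit 0)) (P (nat_lit 2914549128000)))))))), (T.h (T.h (T.h (P (nat_lit 0)) (T.h (M (nat_lit 261693461976339468041322495)) (T.h (P (nat_lit 0)) (T.h (M (nat_lit 36544984058959734243327)) (T.h (P (nat_lit 0)) (M (nat_lit 92595113484189695))))))) (T.h (P (nat_lit 0)) (T.h (T.h (P (nat_lit 0)) (T.h (P (nat_lit 58005716067570298126336)) (T.h (P (nat_lit 0)) (P (nat_lit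 307809057127432192))))) (T.h (P (nat_lit 0)) (T.h (T.h (P (nat_lit 0)) (P (nat_lit 147754045441376256))) (P (nat_lit 0))))))) (T.h (T.h (P (nat_lit 0)) (T.h (T.h (P (nat_lit 2396886317862536817410048)) (T.h (P (nat_lit 0)) (T.h (P (nat_lit 34541195107701358592)) (T.h (P (nat_lit 0)) (P (nat_lit 27782914614784)))))) (T.h (P (nat_lit 0)) (T.h (T.h (P (nat_lit 1986026304863993856)) (T.h (P (nat_lit 0)) (M (nat_lit 39626086326079)))) (T.h (P (nat_lit 0)) (P (nat_lit 15417053138368))))))) (T.h (T.h (T.h (P (nat_lit 0)) (T.h (P (nat_lit 12263181683475735379968)) (T.h (P (nat_lit 0)) (P (nat_lit 16066539524325376))))) (T.h (P (nat_lit 0)) (T.h (T.h (P (nat_lit 0)) (M (nat_lit 66179228307161087))) (P (nat_lit 0))))) (T.h (T.h (P (nat_lit 0)) (T.h (T.h (M (nat_lit 329372831294947327)) (T.h (P (nat_lit 0)) (P (nat_lit 11941010524992)))) (T.h (P (nat_lit 0)) (M (nat_lit 29851112519423))))) (T.h (T.h (T.h (P (nat_lit 0)) (P (nat_lit 52709437456547840))) (P (nat_lit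 0))) (T.h (T.h (P (nat_lit 0)) (M (nat_lit 11754251825087))) (P (nat_lit 0))))))))]
def lQm_35 : List (T ℤ) := [(T.h (T.h (T.h (M (nat_lit 205475608593708555075071942590463)) (T.h (P (nat_lit 0)) (T.h (P (nat_lit 30647609676432405136670720)) (T.h (P (nat_lit 0)) (T.h (P (nat_lit 24552213189067014144)) (T.h (P (nat_lit 0)) (P (nat_lit 8713460479392)))))))) (T.h (P (nat_lit 0)) (T.h (T.h (M (nat_lit 49326294657994179987111935)) (T.h (P (nat_lit 0)) (T.h (P (nat_lit 211642940836456431616)) (T.h (P (nat_lit 0)) (P (nat_lit 499241730033216)))))) (T.h (P (nat_lit 0)) (T.h (T.h (M (nat_lit 98340197006326104063)) (T.h (P (nat_lit 0)) (P (nat_lit 352154342018448)))) (T.h (P (nat_lit 0)) (M (nat_lit 87410689135199)))))))) (T.h (T.h (P (nat_lit 0)) (T.h (T.h (P (nat_lit 0)) (T.h (M (nat_lit 115192297782243615571967)) (T.h (P (nat_lit 0)) (M (nat_lit 300902337197998079))))) (T.h (P (nat_lit 0)) (T.h (T.h (P (nat_lit 0)) (M (nat_lit 78731064540430335))) (P (nat_lit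 0)))))) (T.h (T.h (T.h (M (nat_lit 606963566151509353693183)) (T.h (P (nat_lit 0)) (T.h (P (nat_lit 160391609105522884608)) (T.h (P (nat_lit 0)) (P (nat_lit 134195146157664)))))) (T.h (P (nat_lit 0)) (T.h (T.h (P (nat_lit 54087894479375695872)) (T.h (P (nat_lit 0)) (P (nat_lit 14513604933888)))) (T.h (P (nat_lit 0)) (P (nat_lit 133240626359424)))))) (T.h (T.h (P (nat_lit 0)) (T.h (T.h (P (nat_lit 0)) (M (nat_lit 20318761883959295))) (P (nat_lit 0)))) (T.h (T.h (T.h (P (nat_lit 37129636244552155136)) (T.h (P (nat_lit 0)) (M (nat_lit 77309147628143)))) (T.h (P (nat_lit 0)) (P (nat_lit 26406644853168)))) (T.h (P (nat_lit 0)) (P (nat_lit 14645707618464)))))))), (T.h (T.h (T.h (P (nat_lit 0)) (T.h (M (nat_lit 485246316002040588049317887)) (T.h (P (nat_lit 0)) (T.h (M (nat_lit 47953310490409918529535)) (T.h (P (nat_lit 0)) (M (nat_lit 7655420903981055))))))) (T.h (P (nat_lit 0)) (T.h (T.h (P (nat_lit 0)) (T.h (M (nat_lit 156873228732256518930431)) (T.h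 (P (nat_lit 0)) (M (nat_lit 455296650780803071))))) (T.h (P (nat_lit 0)) (T.h (T.h (P (nat_lit 0)) (M (nat_lit 151896253560815615))) (P (nat_lit 0))))))) (T.h (T.h (P (nat_lit 0)) (T.h (T.h (P (nat_lit 28478335506665354741940224)) (T.h (P (nat_lit 0)) (P (nat_lit 379707384477398335488)))) (T.h (P (nat_lit 0)) (P (nat_lit 46219789068006326272))))) (T.h (T.h (T.h (P (nat_lit 0)) (T.h (M (nat_lit 116266967700160330596351)) (T.h (P (nat_lit 0)) (M (nat_lit 97934611223642111))))) (T.h (P (nat_lit 0)) (T.h (T.h (P (nat_lit 0)) (M (nat_lit 56832365739311103))) (P (nat_lit 0))))) (T.h (T.h (P (nat_lit 0)) (P (nat_lit 7399312085391245312))) (T.h (T.h (T.h (P (nat_lit 0)) (M (nat_lit 16022553870106623))) (P (nat_lit 0))) (P (nat_lit 0))))))), (P (nat_lit 0)), (P (nat_lit 0)), (T.h (T.h (P (nat_lit 0)) (T.h (T.h (M (nat_lit 261693461976339468041322495)) (T.h (P (nat_lit 0)) (T.h (P (nat_lit 58005716067570298126336)) (T.h (P (nat_lit 0)) (P (nat_lit 147754045441376256))))))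 (T.h (P (nat_lit 0)) (T.h (T.h (M (nat_lit 36544984058959734243327)) (T.h (P (nat_lit 0)) (P (nat_lit 307809057127432192)))) (T.h (P (nat_lit 0)) (M (nat_lit 92595113484189695))))))) (T.h (T.h (T.h (P (nat_lit 0)) (T.h (P (nat_lit 2396886317862536817410048)) (T.h (P (nat_lit 0)) (T.h (P (nat_lit 1986026304863993856)) (T.h (P (nat_lit 0)) (P (nat_lit 15417053138368))))))) (T.h (P (nat_lit 0)) (T.h (T.h (P (nat_lit 0)) (T.h (P (nat_lit 34541195107701358592)) (T.h (P (nat_lit 0)) (M (nat_lit 39626086326079))))) (T.h (P (nat_lit 0)) (T.h (T.h (P (nat_lit 0)) (P (nat_lit 27782914614784))) (P (nat_lit 0))))))) (T.h (T.h (P (nat_lit 0)) (T.h (T.h (P (nat_lit 12263181683475735379968)) (T.h (P (nat_lit 0)) (M (nat_lit 66179228307161087)))) (T.h (P (nat_lit 0)) (P (nat_lit 16066539524325376))))) (T.h (T.h (T.h (P (nat_lit 0)) (T.h (M (nat_lit 329372831294947327)) (T.h (P (nat_lit 0)) (M (nat_lit 29851112519423))))) (T.h (P (nat_lit 0)) (T.h (T.h (P (nat_lit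 0)) (P (nat_lit 11941010524992))) (P (nat_lit 0))))) (T.h (T.h (P (nat_lit 0)) (P (nat_lit 52709437456547840))) (T.h (T.h (T.h (P (nat_lit 0)) (M (nat_lit 11754251825087))) (P (nat_lit 0))) (P (nat_lit 0)))))))), (T.h (T.h (P (nat_lit 0)) (T.h (T.h (P (nat_lit 0)) (T.h (P (nat_lit 52806908929216563881443328)) (T.h (P (nat_lit 0)) (T.h (P (nat_lit 82011797848584093696)) (T.h (P (nat_lit 0)) (P (nat_lit 68505149127168))))))) (T.h (P (nat_lit 0)) (T.h (T.h (P (nat_lit 0)) (T.h (P (nat_lit 82011797848584093696)) (T.h (P (nat_lit 0)) (P (nat_lit 31906044562176))))) (T.h (P (nat_lit 0)) (T.h (T.h (P (nat_lit 0)) (P (nat_lit 68505149127168))) (P (nat_lit 0)))))))) (T.h (T.h (T.h (M (nat_lit 1892847221745848228151033855)) (T.h (P (nat_lit 0)) (T.h (M (nat_lit 84377462207756476874751)) (T.h (P (nat_lit 0)) (M (nat_lit 4353750354378751)))))) (T.h (P (nat_lit 0)) (T.h (T.h (M (nat_lit 84377462207756476874751)) (T.h (P (nat_lit 0)) (P (nat_lit 117937861708251136))))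 (T.h (P (nat_lit 0)) (M (nat_lit 4353750354378751)))))) (T.h (T.h (P (nat_lit 0)) (T.h (T.h (P (nat_lit 0)) (T.h (M (nat_lit 82738826853778194431)) (T.h (P (nat_lit 0)) (M (nat_lit 38582463213215))))) (T.h (P (nat_lit 0)) (T.h (T.h (P (nat_lit 0)) (M (nat_lit 38582463213215))) (P (nat_lit 0)))))) (T.h (T.h (T.h (M (nat_lit 30608946642825443803135)) (T.h (P (nat_lit 0)) (P (nat_lit 112684429692944384)))) (T.h (P (nat_lit 0)) (P (nat_lit 112684429692944384)))) (T.h (T.h (P (nat_lit 0)) (T.h (T.h (P (nat_lit 0)) (P (nat_lit 93337690111776))) (P (nat_lit 0)))) (P (nat_lit 41383730525405184))))))), (T.h (T.h (P (nat_lit 0)) (T.h (T.h (M (nat_lit 1043116937690069580088606719)) (T.h (P (nat_lit 0)) (T.h (M (nat_lit 101464149854981390860287)) (T.h (P (nat_lit 0)) (M (nat_lit 273430289931173887)))))) (T.h (P (nat_lit 0)) (T.h (T.h (P (nat_lit 61764923110046956519424)) (T.h (P (nat_lit 0)) (M (nat_lit 293207130200866815)))) (T.h (P (nat_lit 0)) (P (nat_lit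 114189388980387840))))))) (T.h (T.h (T.h (P (nat_lit 0)) (T.h (M (nat_lit 18488068673796538873413631)) (T.h (P (nat_lit 0)) (M (nat_lit 3412449340189310975))))) (T.h (P (nat_lit 0)) (T.h (T.h (P (nat_lit 0)) (M (nat_lit 3225623507505250303))) (P (nat_lit 0))))) (T.h (T.h (P (nat_lit 0)) (T.h (T.h (P (nat_lit 12925985027821664206848)) (T.h (P (nat_lit 0)) (P (nat_lit 21950935167303680)))) (T.h (P (nat_lit 0)) (M (nat_lit 121260396594069503))))) (T.h (T.h (T.h (P (nat_lit 0)) (P (nat_lit 13067073905649254400))) (P (nat_lit 0))) (T.h (T.h (P (nat_lit 0)) (M (nat_lit 70522602099113983))) (P (nat_lit 0))))))), (P (nat_lit 0))]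
def lQm_36 : List (T ℤ) := [(P (nat_lit 0)), (T.h (T.h (T.h (M (nat_lit 205475608593708555075071942590463)) (T.h (P (nat_lit 0)) (T.h (M (nat_lit 49326294657994179987111935)) (T.h (P (nat_lit 0)) (T.h (M (nat_lit 98340197006326104063)) (T.h (P (nat_lit 0)) (M (nat_lit 87410689135199)))))))) (T.h (P (nat_lit 0)) (T.h (T.h (P (nat_lit 30647609676432405136670720)) (T.h (P (nat_lit 0)) (T.h (P (nat_lit 211642940836456431616)) (T.h (P (nat_lit 0)) (P (nat_lit 352154342018448)))))) (T.h (P (nat_lit 0)) (T.h (T.h (P (nat_lit 24552213189067014144)) (T.h (P (nat_lit 0)) (P (nat_lit 499241730033216)))) (T.h (P (nat_lit 0)) (P (nat_lit 8713460479392)))))))) (T.h (T.h (P (nat_lit 0)) (T.h (T.h (P (nat_lit 0)) (T.h (M (nat_lit 115192297782243615571967)) (T.h (P (nat_lit 0)) (M (nat_lit 78731064540430335))))) (T.h (P (nat_lit 0)) (T.h (T.h (P (nat_lit 0)) (M (nat_lit 300902337197998079))) (P (nat_lit 0)))))) (T.h (T.h (T.h (M (nat_lit 606963566151509353693183))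 (T.h (P (nat_lit 0)) (T.h (P (nat_lit 54087894479375695872)) (T.h (P (nat_lit 0)) (P (nat_lit 133240626359424)))))) (T.h (P (nat_lit 0)) (T.h (T.h (P (nat_lit 160391609105522884608)) (T.h (P (nat_lit 0)) (P (nat_lit 14513604933888)))) (T.h (P (nat_lit 0)) (P (nat_lit 134195146157664)))))) (T.h (T.h (P (nat_lit 0)) (T.h (T.h (P (nat_lit 0)) (M (nat_lit 20318761883959295))) (P (nat_lit 0)))) (T.h (T.h (T.h (P (nat_lit 37129636244552155136)) (T.h (P (nat_lit 0)) (P (nat_lit 26406644853168)))) (T.h (P (nat_lit 0)) (M (nat_lit 77309147628143)))) (T.h (P (nat_lit 0)) (P (nat_lit 14645707618464)))))))), (T.h (T.h (T.h (P (nat_lit 0)) (T.h (M (nat_lit 1043116937690069580088606719)) (T.h (P (nat_lit 0)) (T.h (P (nat_lit 61764923110046956519424)) (T.h (P (nat_lit 0)) (P (nat_lit 114189388980387840))))))) (T.h (P (nat_lit 0)) (T.h (T.h (P (nat_lit 0)) (T.h (M (nat_lit 101464149854981390860287)) (T.h (P (nat_lit 0)) (M (nat_lit 293207130200866815))))) (T.h (P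 (nat_lit 0)) (T.h (T.h (P (nat_lit 0)) (M (nat_lit 273430289931173887))) (P (nat_lit 0))))))) (T.h (T.h (P (nat_lit 0)) (T.h (T.h (M (nat_lit 18488068673796538873413631)) (T.h (P (nat_lit 0)) (M (nat_lit 3225623507505250303)))) (T.h (P (nat_lit 0)) (M (nat_lit 3412449340189310975))))) (T.h (T.h (T.h (P (nat_lit 0)) (T.h (P (nat_lit 12925985027821664206848)) (T.h (P (nat_lit 0)) (M (nat_lit 121260396594069503))))) (T.h (P (nat_lit 0)) (T.h (T.h (P (nat_lit 0)) (P (nat_lit 21950935167303680))) (P (nat_lit 0))))) (T.h (T.h (P (nat_lit 0)) (P (nat_lit 13067073905649254400))) (T.h (T.h (T.h (P (nat_lit 0)) (M (nat_lit 70522602099113983))) (P (nat_lit 0))) (P (nat_lit 0))))))), (P (nat_lit 0)), (P (nat_lit 0)), (T.h (T.h (P (nat_lit 0)) (T.h (T.h (M (nat_lit 485246316002040588049317887)) (T.h (P (nat_lit 0)) (T.h (M (nat_lit 156873228732256518930431)) (T.h (P (nat_lit 0)) (M (nat_lit 151896253560815615)))))) (T.h (P (nat_lit 0)) (T.h (T.h (M (nat_lit 47953310490409918529535))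 (T.h (P (nat_lit 0)) (M (nat_lit 455296650780803071)))) (T.h (P (nat_lit 0)) (M (nat_lit 7655420903981055))))))) (T.h (T.h (T.h (P (nat_lit 0)) (T.h (P (nat_lit 28478335506665354741940224)) (T.h (P (nat_lit 0)) (P (nat_lit 46219789068006326272))))) (T.h (P (nat_lit 0)) (T.h (T.h (P (nat_lit 0)) (P (nat_lit 379707384477398335488))) (P (nat_lit 0))))) (T.h (T.h (P (nat_lit 0)) (T.h (T.h (M (nat_lit 116266967700160330596351)) (T.h (P (nat_lit 0)) (M (nat_lit 56832365739311103)))) (T.h (P (nat_lit 0)) (M (nat_lit 97934611223642111))))) (T.h (T.h (T.h (P (nat_lit 0)) (P (nat_lit 7399312085391245312))) (P (nat_lit 0))) (T.h (T.h (P (nat_lit 0)) (M (nat_lit 16022553870106623))) (P (nat_lit 0))))))), (P (nat_lit 0)), (P (nat_lit 0))]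
def lQm_37 : List (T ℤ) := [(P (nat_lit 0)), (P (nat_lit 0)), (P (nat_lit 0)), (T.h (T.h (P (nat_lit 0)) (T.h (T.h (P (nat_lit 0)) (T.h (M (nat_lit 6529010842166020662099967)) (T.h (P (nat_lit 0)) (T.h (M (nat_lit 52608712282749272063)) (T.h (P (nat_lit 0)) (M (nat_lit 15377323687935))))))) (T.h (P (nat_lit 0)) (T.h (T.h (P (nat_lit 0)) (T.h (M (nat_lit 52608712282749272063)) (T.h (P (nat_lit 0)) (M (nat_lit 80852307497215))))) (T.h (P (nat_lit 0)) (T.h (T.h (P (nat_lit 0)) (M (nat_lit 15377323687935))) (P (nat_lit 0)))))))) (T.h (T.h (T.h (P (nat_lit 15398477962580553354767761408)) (T.h (P (nat_lit 0)) (T.h (P (nat_lit 34570120424241787568128)) (T.h (P (nat_lit 0)) (P (nat_lit 73782082795405312)))))) (T.h (P (nat_lit 0)) (T.h (T.h (P (nat_lit 34570120424241787568128)) (T.h (P (nat_lit 0)) (P (nat_lit 1586111751258112)))) (T.h (P (nat_lit 0)) (P (nat_lit 73782082795405312)))))) (T.h (T.h (P (nat_lit 0)) (T.h (T.h (P (nat_lit 0)) (T.h (P (nat_lit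 13935718119319273472)) (T.h (P (nat_lit 0)) (P (nat_lit 43662999342144))))) (T.h (P (nat_lit 0)) (T.h (T.h (P (nat_lit 0)) (P (nat_lit 43662999342144))) (P (nat_lit 0)))))) (T.h (T.h (T.h (M (nat_lit 15035128725152324386815)) (T.h (P (nat_lit 0)) (M (nat_lit 32946150440730623)))) (T.h (P (nat_lit 0)) (M (nat_lit 32946150440730623)))) (T.h (T.h (P (nat_lit 0)) (T.h (T.h (P (nat_lit 0)) (M (nat_lit 53358334410623))) (P (nat_lit 0)))) (P (nat_lit 2436278359752704))))))), (T.h (T.h (P (nat_lit 0)) (T.h (T.h (M (nat_lit 24801631326153345891410378751)) (T.h (P (nat_lit 0)) (T.h (P (nat_lit 69850975083097497796608)) (T.h (P (nat_lit 0)) (P (nat_lit 104265922317058048)))))) (T.h (P (nat_lit 0)) (T.h (T.h (P (nat_lit 878716978990749319168)) (T.h (P (nat_lit 0)) (P (nat_lit 198609520576053248)))) (T.h (P (nat_lit 0)) (M (nat_lit 14991615373983743))))))) (T.h (T.h (T.h (P (nat_lit 0)) (T.h (M (nat_lit 29625130931332275844939775)) (T.h (P (nat_lit 0)) (T.h (P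 (nat_lit 6323371610589888512)) (T.h (P (nat_lit 0)) (M (nat_lit 38574100311983))))))) (T.h (P (nat_lit 0)) (T.h (T.h (P (nat_lit 0)) (T.h (M (nat_lit 16352020845905838079)) (T.h (P (nat_lit 0)) (P (nat_lit 22287634534368))))) (T.h (P (nat_lit 0)) (T.h (T.h (P (nat_lit 0)) (M (nat_lit 53556555107663))) (P (nat_lit 0))))))) (T.h (T.h (P (nat_lit 0)) (T.h (T.h (M (nat_lit 810895736184433016831)) (T.h (P (nat_lit 0)) (M (nat_lit 41801263281635327)))) (T.h (P (nat_lit 0)) (P (nat_lit 75654353308729344))))) (T.h (T.h (T.h (P (nat_lit 0)) (T.h (M (nat_lit 19032430414556823551)) (T.h (P (nat_lit 0)) (M (nat_lit 11727087712703))))) (T.h (P (nat_lit 0)) (T.h (T.h (P (nat_lit 0)) (P (nat_lit 18560116891440))) (P (nat_lit 0))))) (T.h (T.h (P (nat_lit 0)) (P (nat_lit 21529164191711232))) (T.h (T.h (T.h (P (nat_lit 0)) (P (nat_lit 8704128682512))) (P (nat_lit 0))) (P (nat_lit 0)))))))), (T.h (T.h (P (nat_lit 0)) (T.h (T.h (P (nat_lit 0)) (T.h (M (nat_lit 7968129611153399804329983))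 (T.h (P (nat_lit 0)) (M (nat_lit 28918869486353776639))))) (T.h (P (nat_lit 0)) (T.h (T.h (P (nat_lit 0)) (M (nat_lit 34246235936746635263))) (P (nat_lit 0)))))) (T.h (T.h (T.h (M (nat_lit 5287393795622230931927990271)) (T.h (P (nat_lit 0)) (T.h (M (nat_lit 37042947306702845771775)) (T.h (P (nat_lit 0)) (M (nat_lit 17184947940786175)))))) (T.h (P (nat_lit 0)) (T.h (T.h (M (nat_lit 11470395129475534684159)) (T.h (P (nat_lit 0)) (M (nat_lit 21820328043151359)))) (T.h (P (nat_lit 0)) (M (nat_lit 48452197856411647)))))) (T.h (T.h (P (nat_lit 0)) (T.h (T.h (P (nat_lit 0)) (P (nat_lit 28063542199158046720))) (P (nat_lit 0)))) (T.h (T.h (T.h (M (nat_lit 10997930159462676430847)) (T.h (P (nat_lit 0)) (P (nat_lit 78374196030734336)))) (T.h (P (nat_lit 0)) (M (nat_lit 28259372670091263)))) (T.h (P (nat_lit 0)) (M (nat_lit 21976945639718911))))))), (P (nat_lit 0)), (P (nat_lit 0))]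
def lQm_38 : List (T ℤ) := [(T.h (T.h (T.h (P (nat_lit 0)) (T.h (M (nat_lit 24801631326153345891410378751)) (T.h (P (nat_lit 0)) (T.h (P (nat_lit 878716978990749319168)) (T.h (P (nat_lit 0)) (M (nat_lit 14991615373983743))))))) (T.h (P (nat_lit 0)) (T.h (T.h (P (nat_lit 0)) (T.h (P (nat_lit 69850975083097497796608)) (T.h (P (nat_lit 0)) (P (nat_lit 198609520576053248))))) (T.h (P (nat_lit 0)) (T.h (T.h (P (nat_lit 0)) (P (nat_lit 104265922317058048))) (P (nat_lit 0))))))) (T.h (T.h (P (nat_lit 0)) (T.h (T.h (M (nat_lit 29625130931332275844939775)) (T.h (P (nat_lit 0)) (T.h (M (nat_lit 16352020845905838079)) (T.h (P (nat_lit 0)) (M (nat_lit 53556555107663)))))) (T.h (P (nat_lit 0)) (T.h (T.h (P (nat_lit 6323371610589888512)) (T.h (P (nat_lit 0)) (P (nat_lit 22287634534368)))) (T.h (P (nat_lit 0)) (M (nat_lit 38574100311983))))))) (T.h (T.h (T.h (P (nat_lit 0)) (T.h (M (nat_lit 810895736184433016831)) (T.h (P (nat_lit 0)) (P (nat_lit 75654353308729344)))))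 (T.h (P (nat_lit 0)) (T.h (T.h (P (nat_lit 0)) (M (nat_lit 41801263281635327))) (P (nat_lit 0))))) (T.h (T.h (P (nat_lit 0)) (T.h (T.h (M (nat_lit 19032430414556823551)) (T.h (P (nat_lit 0)) (P (nat_lit 18560116891440)))) (T.h (P (nat_lit 0)) (M (nat_lit 11727087712703))))) (T.h (T.h (T.h (P (nat_lit 0)) (P (nat_lit 21529164191711232))) (P (nat_lit 0))) (T.h (T.h (P (nat_lit 0)) (P (nat_lit 8704128682512))) (P (nat_lit 0)))))))), (T.h (T.h (T.h (P (nat_lit 12287190180425606716005116018688)) (T.h (P (nat_lit 0)) (T.h (M (nat_lit 822633096902632366145535)) (T.h (P (nat_lit 0)) (M (nat_lit 6177230466576285695)))))) (T.h (P (nat_lit 0)) (T.h (T.h (M (nat_lit 822633096902632366145535)) (T.h (P (nat_lit 0)) (M (nat_lit 183649484888055218175)))) (T.h (P (nat_lit 0)) (M (nat_lit 6177230466576285695)))))) (T.h (T.h (P (nat_lit 0)) (T.h (T.h (P (nat_lit 0)) (T.h (P (nat_lit 126306685842223500623872)) (T.h (P (nat_lit 0)) (P (nat_lit 56164324190060544)))))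 (T.h (P (nat_lit 0)) (T.h (T.h (P (nat_lit 0)) (P (nat_lit 56164324190060544))) (P (nat_lit 0)))))) (T.h (T.h (T.h (M (nat_lit 3836605376147847800422399)) (T.h (P (nat_lit 0)) (M (nat_lit 65115326894967881727)))) (T.h (P (nat_lit 0)) (M (nat_lit 65115326894967881727)))) (T.h (T.h (P (nat_lit 0)) (T.h (T.h (P (nat_lit 0)) (M (nat_lit 101851870552260607))) (P (nat_lit 0)))) (M (nat_lit 34747549758858985471)))))), (P (nat_lit 0)), (P (nat_lit 0)), (T.h (T.h (P (nat_lit 0)) (T.h (T.h (P (nat_lit 0)) (T.h (M (nat_lit 7968129611153399804329983)) (T.h (P (nat_lit 0)) (M (nat_lit 34246235936746635263))))) (T.h (P (nat_lit 0)) (T.h (T.h (P (nat_lit 0)) (M (nat_lit 28918869486353776639))) (P (nat_lit 0)))))) (T.h (T.h (T.h (M (nat_lit 5287393795622230931927990271)) (T.h (P (nat_lit 0)) (T.h (M (nat_lit 11470395129475534684159)) (T.h (P (nat_lit 0)) (M (nat_lit 48452197856411647)))))) (T.h (P (nat_lit 0)) (T.h (T.h (M (nat_lit 37042947306702845771775)) (T.h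 (P (nat_lit 0)) (M (nat_lit 21820328043151359)))) (T.h (P (nat_lit 0)) (M (nat_lit 17184947940786175)))))) (T.h (T.h (P (nat_lit 0)) (T.h (T.h (P (nat_lit 0)) (P (nat_lit 28063542199158046720))) (P (nat_lit 0)))) (T.h (T.h (T.h (M (nat_lit 10997930159462676430847)) (T.h (P (nat_lit 0)) (M (nat_lit 28259372670091263)))) (T.h (P (nat_lit 0)) (P (nat_lit 78374196030734336)))) (T.h (P (nat_lit 0)) (M (nat_lit 21976945639718911))))))), (P (nat_lit 0)), (P (nat_lit 0)), (P (nat_lit 0))]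
def lQm_39 : List (T ℤ) := [(P (nat_lit 0)), (P (nat_lit 0)), (T.h (T.h (T.h (M (nat_lit 104756641487949524293953746108415)) (T.h (P (nat_lit 0)) (T.h (M (nat_lit 12700455064882736074326015)) (T.h (P (nat_lit 0)) (T.h (M (nat_lit 19312137227118575615)) (T.h (P (nat_lit 0)) (M (nat_lit 56803544022671)))))))) (T.h (P (nat_lit 0)) (T.h (T.h (M (nat_lit 12700455064882736074326015)) (T.h (P (nat_lit 0)) (T.h (P (nat_lit 165826099962076725248)) (T.h (P (nat_lit 0)) (P (nat_lit 372699232900704)))))) (T.h (P (nat_lit 0)) (T.h (T.h (M (nat_lit 19312137227118575615)) (T.h (P (nat_lit 0)) (P (nat_lit 372699232900704)))) (T.h (P (nat_lit 0)) (M (nat_lit 56803544022671)))))))) (T.h (T.h (P (nat_lit 0)) (T.h (T.h (P (nat_lit 0)) (T.h (M (nat_lit 21864202026945664253951)) (T.h (P (nat_lit 0)) (M (nat_lit 86681298974244863))))) (T.h (P (nat_lit 0)) (T.h (T.h (P (nat_lit 0)) (M (nat_lit 86681298974244863))) (P (nat_lit 0)))))) (T.h (T.h (T.h (P (nat_lit 12972378171370217360326656))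 (T.h (P (nat_lit 0)) (T.h (P (nat_lit 41641252604608512000)) (T.h (P (nat_lit 0)) (P (nat_lit 101867935691088)))))) (T.h (P (nat_lit 0)) (T.h (T.h (P (nat_lit 41641252604608512000)) (T.h (P (nat_lit 0)) (P (nat_lit 911442555360)))) (T.h (P (nat_lit 0)) (P (nat_lit 101867935691088)))))) (T.h (T.h (P (nat_lit 0)) (T.h (T.h (P (nat_lit 0)) (P (nat_lit 70499875456942080))) (P (nat_lit 0)))) (T.h (T.h (T.h (M (nat_lit 21943154770180046847)) (T.h (P (nat_lit 0)) (M (nat_lit 20140321589711)))) (T.h (P (nat_lit 0)) (M (nat_lit 20140321589711)))) (T.h (P (nat_lit 0)) (M (nat_lit 1776113164223)))))))), (T.h (T.h (T.h (P (nat_lit 0)) (T.h (P (nat_lit 2431989740396183413638299648)) (T.h (P (nat_lit 0)) (T.h (P (nat_lit 13155666161854431887360)) (T.h (P (nat_lit 0)) (P (nat_lit 86333522932170752))))))) (T.h (P (nat_lit 0)) (T.h (T.h (P (nat_lit 0)) (T.h (M (nat_lit 67764700985457142398975)) (T.h (P (nat_lit 0)) (M (nat_lit 344310799049883647))))) (T.h (P (nat_lit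 0)) (T.h (T.h (P (nat_lit 0)) (M (nat_lit 157432470344531967))) (P (nat_lit 0))))))) (T.h (T.h (P (nat_lit 0)) (T.h (T.h (P (nat_lit 2731529024111075150266368)) (T.h (P (nat_lit 0)) (P (nat_lit 43502318328160976896)))) (T.h (P (nat_lit 0)) (M (nat_lit 14446821862908362751))))) (T.h (T.h (T.h (P (nat_lit 0)) (T.h (M (nat_lit 2389731705158014861311)) (T.h (P (nat_lit 0)) (M (nat_lit 84716766919393279))))) (T.h (P (nat_lit 0)) (T.h (T.h (P (nat_lit 0)) (M (nat_lit 13085180765306879))) (P (nat_lit 0))))) (T.h (T.h (P (nat_lit 0)) (P (nat_lit 2922520119437426688))) (T.h (T.h (T.h (P (nat_lit 0)) (M (nat_lit 737280053051391))) (P (nat_lit 0))) (P (nat_lit 0))))))), (P (nat_lit 0)), (P (nat_lit 0)), (T.h (T.h (P (nat_lit 0)) (T.h (T.h (P (nat_lit 2431989740396183413638299648)) (T.h (P (nat_lit 0)) (T.h (M (nat_lit 67764700985457142398975)) (T.h (P (nat_lit 0)) (M (nat_lit 157432470344531967)))))) (T.h (P (nat_lit 0)) (T.h (T.h (P (nat_lit 13155666161854431887360))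 (T.h (P (nat_lit 0)) (M (nat_lit 344310799049883647)))) (T.h (P (nat_lit 0)) (P (nat_lit 86333522932170752))))))) (T.h (T.h (T.h (P (nat_lit 0)) (T.h (P (nat_lit 2731529024111075150266368)) (T.h (P (nat_lit 0)) (M (nat_lit 14446821862908362751))))) (T.h (P (nat_lit 0)) (T.h (T.h (P (nat_lit 0)) (P (nat_lit 43502318328160976896))) (P (nat_lit 0))))) (T.h (T.h (P (nat_lit 0)) (T.h (T.h (M (nat_lit 2389731705158014861311)) (T.h (P (nat_lit 0)) (M (nat_lit 13085180765306879)))) (T.h (P (nat_lit 0)) (M (nat_lit 84716766919393279))))) (T.h (T.h (T.h (P (nat_lit 0)) (P (nat_lit 2922520119437426688))) (P (nat_lit 0))) (T.h (T.h (P (nat_lit 0)) (M (nat_lit 737280053051391))) (P (nat_lit 0))))))), (P (nat_lit 0))]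
def lQm_40 : List (T ℤ) := [(P (nat_lit 0)), (P (nat_lit 0)), (P (nat_lit 0)), (P (nat_lit 0)), (T.h (T.h (P (nat_lit 0)) (T.h (T.h (P (nat_lit 0)) (T.h (P (nat_lit 5308504745692747890950144)) (T.h (P (nat_lit 0)) (P (nat_lit 14637703011229499392))))) (T.h (P (nat_lit 0)) (T.h (T.h (P (nat_lit 0)) (P (nat_lit 14637703011229499392))) (P (nat_lit 0)))))) (T.h (T.h (T.h (M (nat_lit 5327367447308101761250623487)) (T.h (P (nat_lit 0)) (T.h (M (nat_lit 10353613219124626849791)) (T.h (P (nat_lit 0)) (M (nat_lit 46361229398966271)))))) (T.h (P (nat_lit 0)) (T.h (T.h (M (nat_lit 10353613219124626849791)) (T.h (P (nat_lit 0)) (M (nat_lit 414807634083839)))) (T.h (P (nat_lit 0)) (M (nat_lit 46361229398966271)))))) (T.h (T.h (P (nat_lit 0)) (T.h (T.h (P (nat_lit 0)) (M (nat_lit 10827735736636145663))) (P (nat_lit 0)))) (T.h (T.h (T.h (P (nat_lit 11388161166645179449344)) (T.h (P (nat_lit 0)) (P (nat_lit 18332168273657856)))) (T.h (P (nat_lit 0)) (P (nat_lit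 18332168273657856)))) (T.h (P (nat_lit 0)) (P (nat_lit 2424986506887168))))))), (P (nat_lit 0)), (P (nat_lit 0)), (P (nat_lit 0))]
def lQm_41 : List (T ℤ) := [(P (nat_lit 0)), (P (nat_lit 0)), (P (nat_lit 0)), (P (nat_lit 0)), (P (nat_lit 0)), (P (nat_lit 0))]

def CQm : List (T ℤ) := lQm_0 ++ (lQm_1 ++ (lQm_2 ++ (lQm_3 ++ (lQm_4 ++ (lQm_5 ++ (lQm_6 ++ (lQm_7 ++ (lQm_8 ++ (lQm_9 ++ (lQm_10 ++ (lQm_11 ++ (lQm_12 ++ (lQm_13 ++ (lQm_14 ++ (lQm_15 ++ (lQm_16 ++ (lQm_17 ++ (lQm_18 ++ (lQm_19 ++ (lQm_20 ++ (lQm_21 ++ (lQm_22 ++ (lQm_23 ++ (lQm_24 ++ (lQm_25 ++ (lQm_26 ++ (lQm_27 ++ (lQm_28 ++ (lQm_29 ++ (lQm_30 ++ (lQm_31 ++ (lQm_32 ++ (lQm_33 ++ (lQm_34 ++ (lQm_35 ++ (lQm_36 ++ (lQm_37 ++ (lQm_38 ++ (lQm_39 ++ (lQm_40 ++ (lQm_41)))))))))))))))))))))))))))))))))))))))))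

/-- norms at radius 1536 -/
def NQm : List ℕ := [(nat_lit 5034231565398356583608483840000), (nat_lit 0), (nat_lit 3944403173466429280284618893819904), (nat_lit 18795286955856592855533575125073920), (nat_lit 6179952440823717228289139341787136), (nat_lit 18603970328876085451328140846563328), (nat_lit 1490753395256961924432558808891392), (nat_lit 0), (nat_lit 0), (nat_lit 0), (nat_lit 2463722692001169204094395029127168), (nat_lit 5873046811650576590350449471651840), (nat_lit 8229686736404985590623826991906816), (nat_lit 6520045788939133378288814187872256), (nat_lit 6521345579313661719493692610314240), (nat_lit 0), (nat_lit 0), (nat_lit 0), (nat_lit 2194633067652538021880401338826752), (nat_lit 8005463202212165111805819280687104), (nat_lit 8474030688887425533242636884770816), (nat_lit 25195574782768259537391560951857152), (nat_lit 2597724830614576168184769140490240), (nat_lit 0), (nat_lit 0), (nat_lit 2194633067652538021880401338826752), (nat_lit 9233470805663875743067429304008704),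 (nat_lit 8643083247178517006327577090981888), (nat_lit 15058482677984944135874584434966528), (nat_lit 10360602026175524279714487969251328), (nat_lit 0), (nat_lit 0), (nat_lit 2463722692001169204094395029127168), (nat_lit 8005463202212165111805819280687104), (nat_lit 8643083247178517006327577090981888), (nat_lit 21277403253097845206545477817860096), (nat_lit 5860242875994006585834733433782272), (nat_lit 0), (nat_lit 0), (nat_lit 3944403173466429280284618893819904), (nat_lit 5873046811650576590350449471651840), (nat_lit 8474030688887425533242636884770816), (nat_lit 15058482677984944135874584434966528), (nat_lit 5860242875994006585834733433782272), (nat_lit 0), (nat_lit 0), (nat_lit 18795286955856592855533575125073920), (nat_lit 8229686736404985590623826991906816), (nat_lit 25195574782768259537391560951857152), (nat_lit 10360602026175524279714487969251328), (nat_lit 0), (nat_lit 0), (nat_lit 6179952440823717228289139341787136), (nat_lit 6520045788939133378288814187872256),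 (nat_lit 2597724830614576168184769140490240), (nat_lit 0), (nat_lit 0), (nat_lit 18603970328876085451328140846563328), (nat_lit 6521345579313661719493692610314240), (nat_lit 0), (nat_lit 0), (nat_lit 1490753395256961924432558808891392), (nat_lit 0), (nat_lit 0), (nat_lit 0), (nat_lit 0), (nat_lit 0), (nat_lit 2463722692001169204094395029127168), (nat_lit 5873046811650576590350449471651840), (nat_lit 8229686736404985590623826991906816), (nat_lit 6520045788939133378288814187872256), (nat_lit 6521345579313661719493692610314240), (nat_lit 0), (nat_lit 0), (nat_lit 908635490858690550835354156400640), (nat_lit 3796462840723197202084518338494464), (nat_lit 9708284658782236558325851793391616), (nat_lit 10044406232669911688819844254269440), (nat_lit 4323468627024796083222887440318464), (nat_lit 0), (nat_lit 0), (nat_lit 1426970292683996101794386744967168), (nat_lit 5352390926364134820428080402661376), (nat_lit 9258319273240399338902198918578176), (nat_lit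 13183860665339456117268548740448256), (nat_lit 8441587529125923319536890406764544), (nat_lit 0), (nat_lit 0), (nat_lit 908635490858690550835354156400640), (nat_lit 5352390926364134820428080402661376), (nat_lit 11676176088445527239552421909757952), (nat_lit 16870219946822922005856760784486400), (nat_lit 6781224102923839309586131817857024), (nat_lit 0), (nat_lit 0), (nat_lit 2463722692001169204094395029127168), (nat_lit 3796462840723197202084518338494464), (nat_lit 9258319273240399338902198918578176), (nat_lit 16870219946822922005856760784486400), (nat_lit 7880726512684543243002803656851456), (nat_lit 0), (nat_lit 0), (nat_lit 5873046811650576590350449471651840), (nat_lit 9708284658782236558325851793391616), (nat_lit 13183860665339456117268548740448256), (nat_lit 6781224102923839309586131817857024), (nat_lit 0), (nat_lit 0), (nat_lit 8229686736404985590623826991906816), (nat_lit 10044406232669911688819844254269440), (nat_lit 8441587529125923319536890406764544),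 (nat_lit 0), (nat_lit 0), (nat_lit 6520045788939133378288814187872256), (nat_lit 4323468627024796083222887440318464), (nat_lit 0), (nat_lit 0), (nat_lit 6521345579313661719493692610314240), (nat_lit 0), (nat_lit 0), (nat_lit 0), (nat_lit 0), (nat_lit 0), (nat_lit 0), (nat_lit 2194633067652538021880401338826752), (nat_lit 8005463202212165111805819280687104), (nat_lit 8474030688887425533242636884770816), (nat_lit 25195574782768259537391560951857152), (nat_lit 2597724830614576168184769140490240), (nat_lit 0), (nat_lit 0), (nat_lit 1426970292683996101794386744967168), (nat_lit 5352390926364134820428080402661376), (nat_lit 9258319273240399338902198918578176), (nat_lit 13183860665339456117268548740448256), (nat_lit 8441587529125923319536890406764544), (nat_lit 0), (nat_lit 0), (nat_lit 1426970292683996101794386744967168), (nat_lit 6355884085239134919920633499353088), (nat_lit 14363218791147873286384212630306816), (nat_lit 29874806028259745852240658585092096),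 (nat_lit 10096307846533176631012970748444672), (nat_lit 0), (nat_lit 0), (nat_lit 2194633067652538021880401338826752), (nat_lit 5352390926364134820428080402661376), (nat_lit 14363218791147873286384212630306816), (nat_lit 34303151267477916318185624401084416), (nat_lit 12025657078116817927497359504179200), (nat_lit 0), (nat_lit 0), (nat_lit 8005463202212165111805819280687104), (nat_lit 9258319273240399338902198918578176), (nat_lit 29874806028259745852240658585092096), (nat_lit 12025657078116817927497359504179200), (nat_lit 0), (nat_lit 0), (nat_lit 8474030688887425533242636884770816), (nat_lit 13183860665339456117268548740448256), (nat_lit 10096307846533176631012970748444672), (nat_lit 0), (nat_lit 0), (nat_lit 25195574782768259537391560951857152), (nat_lit 8441587529125923319536890406764544), (nat_lit 0), (nat_lit 0), (nat_lit 2597724830614576168184769140490240), (nat_lit 0), (nat_lit 0), (nat_lit 0), (nat_lit 0), (nat_lit 0), (nat_lit 2194633067652538021880401338826752),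 (nat_lit 9233470805663875743067429304008704), (nat_lit 8643083247178517006327577090981888), (nat_lit 15058482677984944135874584434966528), (nat_lit 10360602026175524279714487969251328), (nat_lit 0), (nat_lit 0), (nat_lit 908635490858690550835354156400640), (nat_lit 5352390926364134820428080402661376), (nat_lit 11676176088445527239552421909757952), (nat_lit 16870219946822922005856760784486400), (nat_lit 6781224102923839309586131817857024), (nat_lit 0), (nat_lit 0), (nat_lit 2194633067652538021880401338826752), (nat_lit 5352390926364134820428080402661376), (nat_lit 14363218791147873286384212630306816), (nat_lit 34303151267477916318185624401084416), (nat_lit 12025657078116817927497359504179200), (nat_lit 0), (nat_lit 0), (nat_lit 9233470805663875743067429304008704), (nat_lit 11676176088445527239552421909757952), (nat_lit 34303151267477916318185624401084416), (nat_lit 22044641369475036311784609942601728), (nat_lit 0), (nat_lit 0), (nat_lit 8643083247178517006327577090981888),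 (nat_lit 16870219946822922005856760784486400), (nat_lit 12025657078116817927497359504179200), (nat_lit 0), (nat_lit 0), (nat_lit 15058482677984944135874584434966528), (nat_lit 6781224102923839309586131817857024), (nat_lit 0), (nat_lit 0), (nat_lit 10360602026175524279714487969251328), (nat_lit 0), (nat_lit 0), (nat_lit 0), (nat_lit 0), (nat_lit 0), (nat_lit 2463722692001169204094395029127168), (nat_lit 8005463202212165111805819280687104), (nat_lit 8643083247178517006327577090981888), (nat_lit 21277403253097845206545477817860096), (nat_lit 5860242875994006585834733433782272), (nat_lit 0), (nat_lit 0), (nat_lit 2463722692001169204094395029127168), (nat_lit 3796462840723197202084518338494464), (nat_lit 9258319273240399338902198918578176), (nat_lit 16870219946822922005856760784486400), (nat_lit 7880726512684543243002803656851456), (nat_lit 0), (nat_lit 0), (nat_lit 8005463202212165111805819280687104), (nat_lit 9258319273240399338902198918578176), (nat_lit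 29874806028259745852240658585092096), (nat_lit 12025657078116817927497359504179200), (nat_lit 0), (nat_lit 0), (nat_lit 8643083247178517006327577090981888), (nat_lit 16870219946822922005856760784486400), (nat_lit 12025657078116817927497359504179200), (nat_lit 0), (nat_lit 0), (nat_lit 21277403253097845206545477817860096), (nat_lit 7880726512684543243002803656851456), (nat_lit 0), (nat_lit 0), (nat_lit 5860242875994006585834733433782272), (nat_lit 0), (nat_lit 0), (nat_lit 0), (nat_lit 0), (nat_lit 0), (nat_lit 3944403173466429280284618893819904), (nat_lit 5873046811650576590350449471651840), (nat_lit 8474030688887425533242636884770816), (nat_lit 15058482677984944135874584434966528), (nat_lit 5860242875994006585834733433782272), (nat_lit 0), (nat_lit 0), (nat_lit 5873046811650576590350449471651840), (nat_lit 9708284658782236558325851793391616), (nat_lit 13183860665339456117268548740448256), (nat_lit 6781224102923839309586131817857024), (nat_lit 0),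 (nat_lit 0), (nat_lit 8474030688887425533242636884770816), (nat_lit 13183860665339456117268548740448256), (nat_lit 10096307846533176631012970748444672), (nat_lit 0), (nat_lit 0), (nat_lit 15058482677984944135874584434966528), (nat_lit 6781224102923839309586131817857024), (nat_lit 0), (nat_lit 0), (nat_lit 5860242875994006585834733433782272), (nat_lit 0), (nat_lit 0), (nat_lit 0), (nat_lit 0), (nat_lit 0), (nat_lit 18795286955856592855533575125073920), (nat_lit 8229686736404985590623826991906816), (nat_lit 25195574782768259537391560951857152), (nat_lit 10360602026175524279714487969251328), (nat_lit 0), (nat_lit 0), (nat_lit 8229686736404985590623826991906816), (nat_lit 10044406232669911688819844254269440), (nat_lit 8441587529125923319536890406764544), (nat_lit 0), (nat_lit 0), (nat_lit 25195574782768259537391560951857152), (nat_lit 8441587529125923319536890406764544), (nat_lit 0), (nat_lit 0), (nat_lit 10360602026175524279714487969251328), (nat_lit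 0), (nat_lit 0), (nat_lit 0), (nat_lit 0), (nat_lit 0), (nat_lit 6179952440823717228289139341787136), (nat_lit 6520045788939133378288814187872256), (nat_lit 2597724830614576168184769140490240), (nat_lit 0), (nat_lit 0), (nat_lit 6520045788939133378288814187872256), (nat_lit 4323468627024796083222887440318464), (nat_lit 0), (nat_lit 0), (nat_lit 2597724830614576168184769140490240), (nat_lit 0), (nat_lit 0), (nat_lit 0), (nat_lit 0), (nat_lit 0), (nat_lit 18603970328876085451328140846563328), (nat_lit 6521345579313661719493692610314240), (nat_lit 0), (nat_lit 0), (nat_lit 6521345579313661719493692610314240), (nat_lit 0), (nat_lit 0), (nat_lit 0), (nat_lit 0), (nat_lit 0), (nat_lit 1490753395256961924432558808891392), (nat_lit 0), (nat_lit 0), (nat_lit 0), (nat_lit 0), (nat_lit 0), (nat_lit 0), (nat_lit 0), (nat_lit 0), (nat_lit 0)]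


def lP11_0 : List (T ℤ) := [(P (nat_lit 0)), (P (nat_lit 0)), (P (nat_lit 0)), (P (nat_lit 0)), (P (nat_lit 0)), (P (nat_lit 0)), (P (nat_lit 0)), (P (nat_lit 0))]
def lP11_1 : List (T ℤ) := [(P (nat_lit 0)), (P (nat_lit 0)), (P (nat_lit 0)), (P (nat_lit 0)), (P (nat_lit 0)), (P (nat_lit 0)), (P (nat_lit 0)), (P (nat_lit 0))]
def lP11_2 : List (T ℤ) := [(P (nat_lit 0)), (M (nat_lit 4410501400340933843783516159999)), (P (nat_lit 0)), (P (nat_lit 0)), (T.h (T.h (T.h (P (nat_lit 0)) (T.h (P (nat_lit 7100087156579572138729537536)) (T.h (P (nat_lit 0)) (T.h (M (nat_lit 1237047663726686109695)) (T.h (P (nat_lit 0)) (P (nat_lit 5526414397538304))))))) (T.h (P (nat_lit 0)) (T.h (T.h (P (nat_lit 0)) (T.h (P (nat_lit 23223723856033470218240)) (T.h (P (nat_lit 0)) (M (nat_lit 21981539607871487))))) (T.h (P (nat_lit 0)) (T.h (T.h (P (nat_lit 0)) (P (nat_lit 18968879967698944))) (P (nat_lit 0))))))) (T.h (T.h (P (nat_lit 0)) (T.h (T.h (P (nat_lit 789217968431012492869632))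 (T.h (P (nat_lit 0)) (T.h (M (nat_lit 2144806594884403199)) (T.h (P (nat_lit 0)) (M (nat_lit 40018750807967)))))) (T.h (P (nat_lit 0)) (T.h (T.h (M (nat_lit 41432928862544592895)) (T.h (P (nat_lit 0)) (P (nat_lit 36776393580296)))) (T.h (P (nat_lit 0)) (M (nat_lit 11610110242455))))))) (T.h (T.h (T.h (P (nat_lit 0)) (T.h (P (nat_lit 18488458053379849977856)) (T.h (P (nat_lit 0)) (M (nat_lit 14916144344629247))))) (T.h (P (nat_lit 0)) (T.h (T.h (P (nat_lit 0)) (P (nat_lit 6405622491906048))) (P (nat_lit 0))))) (T.h (T.h (P (nat_lit 0)) (T.h (T.h (M (nat_lit 26309337614833942527)) (T.h (P (nat_lit 0)) (P (nat_lit 28718105432920)))) (T.h (P (nat_lit 0)) (M (nat_lit 60639230622911))))) (T.h (T.h (T.h (P (nat_lit 0)) (P (nat_lit 15699326535139328))) (P (nat_lit 0))) (T.h (T.h (P (nat_lit 0)) (M (nat_lit 11455875289447))) (P (nat_lit 0)))))))), (T.h (T.h (T.h (P (nat_lit 105277720930526967885496854773760)) (T.h (P (nat_lit 0)) (T.h (M (nat_lit 9691530957154133055897599))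 (T.h (P (nat_lit 0)) (T.h (P (nat_lit 1752219728941678592)) (T.h (P (nat_lit 0)) (P (nat_lit 2914549128000)))))))) (T.h (P (nat_lit 0)) (T.h (T.h (M (nat_lit 1622784108497740811468799)) (T.h (P (nat_lit 0)) (T.h (M (nat_lit 5543786603966627839)) (T.h (P (nat_lit 0)) (P (nat_lit 20467126355184)))))) (T.h (P (nat_lit 0)) (T.h (T.h (P (nat_lit 8780194688519897088)) (T.h (P (nat_lit 0)) (M (nat_lit 104478078703183)))) (T.h (P (nat_lit 0)) (P (nat_lit 56203593949792)))))))) (T.h (T.h (P (nat_lit 0)) (T.h (T.h (P (nat_lit 0)) (T.h (P (nat_lit 20667592922045440065536)) (T.h (P (nat_lit 0)) (P (nat_lit 41585837830832128))))) (T.h (P (nat_lit 0)) (T.h (T.h (P (nat_lit 0)) (P (nat_lit 47636208037494784))) (P (nat_lit 0)))))) (T.h (T.h (T.h (M (nat_lit 1622784108497740811468799)) (T.h (P (nat_lit 0)) (T.h (M (nat_lit 5543786603966627839)) (T.h (P (nat_lit 0)) (P (nat_lit 20467126355184)))))) (T.h (P (nat_lit 0)) (T.h (T.h (M (nat_lit 172485376140564758527))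 (T.h (P (nat_lit 0)) (P (nat_lit 5095877684832)))) (T.h (P (nat_lit 0)) (M (nat_lit 373272336818415)))))) (T.h (T.h (P (nat_lit 0)) (T.h (T.h (P (nat_lit 0)) (P (nat_lit 47636208037494784))) (P (nat_lit 0)))) (T.h (T.h (T.h (P (nat_lit 8780194688519897088)) (T.h (P (nat_lit 0)) (M (nat_lit 104478078703183)))) (T.h (P (nat_lit 0)) (M (nat_lit 373272336818415)))) (T.h (P (nat_lit 0)) (P (nat_lit 56203593949792)))))))), (T.h (T.h (T.h (P (nat_lit 0)) (T.h (M (nat_lit 1772719709271470377478914047)) (T.h (P (nat_lit 0)) (T.h (M (nat_lit 10151113502918493339647)) (T.h (P (nat_lit 0)) (M (nat_lit 7951400904425471))))))) (T.h (P (nat_lit 0)) (T.h (T.h (P (nat_lit 0)) (T.h (M (nat_lit 14350093689450101997567)) (T.h (P (nat_lit 0)) (P (nat_lit 6165034883907584))))) (T.h (P (nat_lit 0)) (T.h (T.h (P (nat_lit 0)) (P (nat_lit 28449082768031744))) (P (nat_lit 0))))))) (T.h (T.h (P (nat_lit 0)) (T.h (T.h (M (nat_lit 6097722714123760383819775)) (T.h (P (nat_lit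 0)) (T.h (P (nat_lit 12972542331520548864)) (T.h (P (nat_lit 0)) (P (nat_lit 40018750807968)))))) (T.h (P (nat_lit 0)) (T.h (T.h (P (nat_lit 27470699705940312064)) (T.h (P (nat_lit 0)) (M (nat_lit 32747249506607)))) (T.h (P (nat_lit 0)) (P (nat_lit 11532992765952))))))) (T.h (T.h (T.h (P (nat_lit 0)) (T.h (M (nat_lit 6654861781713964498943)) (T.h (P (nat_lit 0)) (M (nat_lit 5931687478722559))))) (T.h (P (nat_lit 0)) (T.h (T.h (P (nat_lit 0)) (M (nat_lit 5990814857822207))) (P (nat_lit 0))))) (T.h (T.h (P (nat_lit 0)) (T.h (T.h (P (nat_lit 10996160748979224576)) (T.h (P (nat_lit 0)) (M (nat_lit 32747249506607)))) (T.h (P (nat_lit 0)) (P (nat_lit 60639230622912))))) (T.h (T.h (T.h (P (nat_lit 0)) (P (nat_lit 29605169527062528))) (P (nat_lit 0))) (T.h (T.h (P (nat_lit 0)) (P (nat_lit 11532992765952))) (P (nat_lit 0)))))))), (T.h (T.h (T.h (M (nat_lit 99909648655724536380581048483839)) (T.h (P (nat_lit 0)) (T.h (P (nat_lit 10438904556057964207669248))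 (T.h (P (nat_lit 0)) (T.h (M (nat_lit 3079660293249302527)) (T.h (P (nat_lit 0)) (M (nat_lit 1776113164223)))))))) (T.h (P (nat_lit 0)) (T.h (T.h (P (nat_lit 1537303026863677219274752)) (T.h (P (nat_lit 0)) (T.h (P (nat_lit 3858024237247758336)) (T.h (P (nat_lit 0)) (M (nat_lit 20140321589711)))))) (T.h (P (nat_lit 0)) (T.h (T.h (M (nat_lit 7478722740816445439)) (T.h (P (nat_lit 0)) (P (nat_lit 101867935691088)))) (T.h (P (nat_lit 0)) (M (nat_lit 56803544022671)))))))) (T.h (T.h (P (nat_lit 0)) (T.h (T.h (P (nat_lit 0)) (T.h (M (nat_lit 24792577964494502756351)) (T.h (P (nat_lit 0)) (M (nat_lit 38777993416015871))))) (T.h (P (nat_lit 0)) (T.h (T.h (P (nat_lit 0)) (M (nat_lit 41970387647889407))) (P (nat_lit 0)))))) (T.h (T.h (T.h (P (nat_lit 1537303026863677219274752)) (T.h (P (nat_lit 0)) (T.h (P (nat_lit 3858024237247758336)) (T.h (P (nat_lit 0)) (M (nat_lit 20140321589711)))))) (T.h (P (nat_lit 0)) (T.h (T.h (P (nat_lit 170199004916551254016))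 (T.h (P (nat_lit 0)) (P (nat_lit 911442555360)))) (T.h (P (nat_lit 0)) (P (nat_lit 372699232900704)))))) (T.h (T.h (P (nat_lit 0)) (T.h (T.h (P (nat_lit 0)) (M (nat_lit 41970387647889407))) (P (nat_lit 0)))) (T.h (T.h (T.h (M (nat_lit 7478722740816445439)) (T.h (P (nat_lit 0)) (P (nat_lit 101867935691088)))) (T.h (P (nat_lit 0)) (P (nat_lit 372699232900704)))) (T.h (P (nat_lit 0)) (M (nat_lit 56803544022671))))))))]
def lP11_3 : List (T ℤ) := [(T.h (T.h (T.h (P (nat_lit 0)) (T.h (M (nat_lit 5327367447308101761250623487)) (T.h (P (nat_lit 0)) (T.h (P (nat_lit 11388161166645179449344)) (T.h (P (nat_lit 0)) (P (nat_lit 2424986506887168))))))) (T.h (P (nat_lit 0)) (T.h (T.h (P (nat_lit 0)) (T.h (M (nat_lit 10353613219124626849791)) (T.h (P (nat_lit 0)) (P (nat_lit 18332168273657856))))) (T.h (P (nat_lit 0)) (T.h (T.h (P (nat_lit 0)) (M (nat_lit 46361229398966271))) (P (nat_lit 0))))))) (T.h (T.h (P (nat_lit 0)) (T.h (T.h (P (nat_lit 5308504745692747890950144))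 (T.h (P (nat_lit 0)) (M (nat_lit 10827735736636145663)))) (T.h (P (nat_lit 0)) (P (nat_lit 14637703011229499392))))) (T.h (T.h (T.h (P (nat_lit 0)) (T.h (M (nat_lit 10353613219124626849791)) (T.h (P (nat_lit 0)) (P (nat_lit 18332168273657856))))) (T.h (P (nat_lit 0)) (T.h (T.h (P (nat_lit 0)) (M (nat_lit 414807634083839))) (P (nat_lit 0))))) (T.h (T.h (P (nat_lit 0)) (P (nat_lit 14637703011229499392))) (T.h (T.h (T.h (P (nat_lit 0)) (M (nat_lit 46361229398966271))) (P (nat_lit 0))) (P (nat_lit 0))))))), (P (nat_lit 0)), (P (nat_lit 0)), (T.h (T.h (P (nat_lit 0)) (T.h (T.h (M (nat_lit 782089061910025663233916927)) (T.h (P (nat_lit 0)) (T.h (P (nat_lit 18063952995519278612480)) (T.h (P (nat_lit 0)) (M (nat_lit 12606398353178623)))))) (T.h (P (nat_lit 0)) (T.h (T.h (M (nat_lit 16426708158251637145599)) (T.h (P (nat_lit 0)) (M (nat_lit 42949802790125567)))) (T.h (P (nat_lit 0)) (M (nat_lit 6131893213822975))))))) (T.h (T.h (T.h (P (nat_lit 0)) (T.h (P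 (nat_lit 6546479697134641121067008)) (T.h (P (nat_lit 0)) (T.h (M (nat_lit 4787399348545650687)) (T.h (P (nat_lit 0)) (M (nat_lit 11650405526287))))))) (T.h (P (nat_lit 0)) (T.h (T.h (P (nat_lit 0)) (T.h (P (nat_lit 24111187067511242752)) (T.h (P (nat_lit 0)) (P (nat_lit 29687087006240))))) (T.h (P (nat_lit 0)) (T.h (T.h (P (nat_lit 0)) (P (nat_lit 17623647717064))) (P (nat_lit 0))))))) (T.h (T.h (P (nat_lit 0)) (T.h (T.h (M (nat_lit 14320835328243459424255)) (T.h (P (nat_lit 0)) (M (nat_lit 26618167397318655)))) (T.h (P (nat_lit 0)) (M (nat_lit 22042204530900991))))) (T.h (T.h (T.h (P (nat_lit 0)) (T.h (P (nat_lit 22831587893463482368)) (T.h (P (nat_lit 0)) (M (nat_lit 23872235273511))))) (T.h (P (nat_lit 0)) (T.h (T.h (P (nat_lit 0)) (M (nat_lit 11967238186615))) (P (nat_lit 0))))) (T.h (T.h (P (nat_lit 0)) (M (nat_lit 8925789642784767))) (T.h (T.h (T.h (P (nat_lit 0)) (P (nat_lit 16967370205168))) (P (nat_lit 0))) (P (nat_lit 0)))))))), (T.h (T.h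 (P (nat_lit 0)) (T.h (T.h (P (nat_lit 0)) (T.h (M (nat_lit 23016326667677892480073727)) (T.h (P (nat_lit 0)) (T.h (M (nat_lit 4386139381002403839)) (T.h (P (nat_lit 0)) (M (nat_lit 14450944174591))))))) (T.h (P (nat_lit 0)) (T.h (T.h (P (nat_lit 0)) (T.h (P (nat_lit 3997095405463535616)) (T.h (P (nat_lit 0)) (P (nat_lit 6020971354256))))) (T.h (P (nat_lit 0)) (T.h (T.h (P (nat_lit 0)) (P (nat_lit 40339979884256))) (P (nat_lit 0)))))))) (T.h (T.h (T.h (P (nat_lit 20984392715099619162048167936)) (T.h (P (nat_lit 0)) (T.h (M (nat_lit 8223931429363535314943)) (T.h (P (nat_lit 0)) (P (nat_lit 26419758957936640)))))) (T.h (P (nat_lit 0)) (T.h (T.h (M (nat_lit 17505257867323948138495)) (T.h (P (nat_lit 0)) (M (nat_lit 738227850690559)))) (T.h (P (nat_lit 0)) (M (nat_lit 93291811182837759)))))) (T.h (T.h (P (nat_lit 0)) (T.h (T.h (P (nat_lit 0)) (T.h (P (nat_lit 29677769012967112704)) (T.h (P (nat_lit 0)) (M (nat_lit 4144068559599))))) (T.h (P (nat_lit 0))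 (T.h (T.h (P (nat_lit 0)) (P (nat_lit 1500860940832))) (P (nat_lit 0)))))) (T.h (T.h (T.h (P (nat_lit 19697029159794532941824)) (T.h (P (nat_lit 0)) (M (nat_lit 46708690346541055)))) (T.h (P (nat_lit 0)) (M (nat_lit 33918669731856383)))) (T.h (T.h (P (nat_lit 0)) (T.h (T.h (P (nat_lit 0)) (P (nat_lit 50708355223312))) (P (nat_lit 0)))) (P (nat_lit 15994898100060160))))))), (T.h (T.h (P (nat_lit 0)) (T.h (T.h (M (nat_lit 3456173834636085084861497343)) (T.h (P (nat_lit 0)) (T.h (M (nat_lit 8138862492074314301439)) (T.h (P (nat_lit 0)) (M (nat_lit 5272400747659263)))))) (T.h (P (nat_lit 0)) (T.h (T.h (P (nat_lit 796842188950915252224)) (T.h (P (nat_lit 0)) (P (nat_lit 135300099771203584)))) (T.h (P (nat_lit 0)) (M (nat_lit 79130026373513215))))))) (T.h (T.h (T.h (P (nat_lit 0)) (T.h (M (nat_lit 10655501998343211475533823)) (T.h (P (nat_lit 0)) (T.h (P (nat_lit 12914465284454088704)) (T.h (P (nat_lit 0)) (P (nat_lit 8815688868816))))))) (T.h (P (nat_lit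 0)) (T.h (T.h (P (nat_lit 0)) (T.h (M (nat_lit 74645592273925963775)) (T.h (P (nat_lit 0)) (M (nat_lit 8955757893743))))) (T.h (P (nat_lit 0)) (T.h (T.h (P (nat_lit 0)) (M (nat_lit 20837185961087))) (P (nat_lit 0))))))) (T.h (T.h (P (nat_lit 0)) (T.h (T.h (P (nat_lit 79018735785822008639488)) (T.h (P (nat_lit 0)) (P (nat_lit 43116961213710336)))) (T.h (P (nat_lit 0)) (P (nat_lit 358151747026976768))))) (T.h (T.h (T.h (P (nat_lit 0)) (T.h (P (nat_lit 14014821978452525056)) (T.h (P (nat_lit 0)) (P (nat_lit 22388334389568))))) (T.h (P (nat_lit 0)) (T.h (T.h (P (nat_lit 0)) (P (nat_lit 29719564744560))) (P (nat_lit 0))))) (T.h (T.h (P (nat_lit 0)) (P (nat_lit 173742578925305856))) (T.h (T.h (T.h (P (nat_lit 0)) (M (nat_lit 11562789853775))) (P (nat_lit 0))) (P (nat_lit 0)))))))), (T.h (T.h (P (nat_lit 0)) (T.h (T.h (P (nat_lit 0)) (T.h (P (nat_lit 30576525179669562771111936)) (T.h (P (nat_lit 0)) (T.h (M (nat_lit 4299253708392235007)) (T.h (P (nat_lit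 0)) (P (nat_lit 8704128682512))))))) (T.h (P (nat_lit 0)) (T.h (T.h (P (nat_lit 0)) (T.h (M (nat_lit 14785903864523522047)) (T.h (P (nat_lit 0)) (M (nat_lit 11727087712703))))) (T.h (P (nat_lit 0)) (T.h (T.h (P (nat_lit 0)) (M (nat_lit 38574100311983))) (P (nat_lit 0)))))))) (T.h (T.h (T.h (M (nat_lit 20545763807070606543294562303)) (T.h (P (nat_lit 0)) (T.h (P (nat_lit 12135496075166393303040)) (T.h (P (nat_lit 0)) (M (nat_lit 35881187698753535)))))) (T.h (P (nat_lit 0)) (T.h (T.h (P (nat_lit 18225494033046599368704)) (T.h (P (nat_lit 0)) (P (nat_lit 43606495874285568)))) (T.h (P (nat_lit 0)) (P (nat_lit 79124825958711296)))))) (T.h (T.h (P (nat_lit 0)) (T.h (T.h (P (nat_lit 0)) (T.h (M (nat_lit 60109996656355704831)) (T.h (P (nat_lit 0)) (P (nat_lit 18560116891440))))) (T.h (P (nat_lit 0)) (T.h (T.h (P (nat_lit 0)) (P (nat_lit 22287634534368))) (P (nat_lit 0)))))) (T.h (T.h (T.h (M (nat_lit 19160979863630824603647)) (T.h (P (nat_lit 0)) (P (nat_lit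 52158500142071808)))) (T.h (P (nat_lit 0)) (P (nat_lit 54131820061376512)))) (T.h (T.h (P (nat_lit 0)) (T.h (T.h (P (nat_lit 0)) (M (nat_lit 53556555107663))) (P (nat_lit 0)))) (M (nat_lit 14971273895362559))))))), (T.h (T.h (P (nat_lit 0)) (T.h (T.h (P (nat_lit 2431989740396183413638299648)) (T.h (P (nat_lit 0)) (T.h (M (nat_lit 2389731705158014861311)) (T.h (P (nat_lit 0)) (M (nat_lit 737280053051391)))))) (T.h (P (nat_lit 0)) (T.h (T.h (P (nat_lit 13155666161854431887360)) (T.h (P (nat_lit 0)) (M (nat_lit 84716766919393279)))) (T.h (P (nat_lit 0)) (P (nat_lit 86333522932170752))))))) (T.h (T.h (T.h (P (nat_lit 0)) (T.h (P (nat_lit 2731529024111075150266368)) (T.h (P (nat_lit 0)) (P (nat_lit 2922520119437426688))))) (T.h (P (nat_lit 0)) (T.h (T.h (P (nat_lit 0)) (P (nat_lit 43502318328160976896))) (P (nat_lit 0))))) (T.h (T.h (P (nat_lit 0)) (T.h (T.h (M (nat_lit 67764700985457142398975)) (T.h (P (nat_lit 0)) (M (nat_lit 13085180765306879)))) (T.h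 (P (nat_lit 0)) (M (nat_lit 344310799049883647))))) (T.h (T.h (T.h (P (nat_lit 0)) (M (nat_lit 14446821862908362751))) (P (nat_lit 0))) (T.h (T.h (P (nat_lit 0)) (M (nat_lit 157432470344531967))) (P (nat_lit 0)))))))]
def lP11_4 : List (T ℤ) := [(P (nat_lit 0)), (P (nat_lit 0)), (T.h (T.h (T.h (P (nat_lit 0)) (T.h (P (nat_lit 6801896442518516848624926720)) (T.h (P (nat_lit 0)) (T.h (M (nat_lit 16269053149684254638079)) (T.h (P (nat_lit 0)) (M (nat_lit 6062581201043455))))))) (T.h (P (nat_lit 0)) (T.h (T.h (P (nat_lit 0)) (T.h (M (nat_lit 61949671853687192944639)) (T.h (P (nat_lit 0)) (M (nat_lit 15777028889149439))))) (T.h (P (nat_lit 0)) (T.h (T.h (P (nat_lit 0)) (M (nat_lit 11674442002104319))) (P (nat_lit 0))))))) (T.h (T.h (P (nat_lit 0)) (T.h (T.h (P (nat_lit 16711225617270992577495040)) (T.h (P (nat_lit 0)) (T.h (P (nat_lit 95597895653135482880)) (T.h (P (nat_lit 0)) (P (nat_lit 27402727578760)))))) (T.h (P (nat_lit 0)) (T.h (T.h (P (nat_lit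 18816914626879422464)) (T.h (P (nat_lit 0)) (P (nat_lit 40934921564768)))) (T.h (P (nat_lit 0)) (M (nat_lit 3640415834759))))))) (T.h (T.h (T.h (P (nat_lit 0)) (T.h (M (nat_lit 23673963548691115540479)) (T.h (P (nat_lit 0)) (P (nat_lit 3999630672232448))))) (T.h (P (nat_lit 0)) (T.h (T.h (P (nat_lit 0)) (P (nat_lit 11876745795108864))) (P (nat_lit 0))))) (T.h (T.h (P (nat_lit 0)) (T.h (T.h (P (nat_lit 29435310069868658688)) (T.h (P (nat_lit 0)) (M (nat_lit 47994939898575)))) (T.h (P (nat_lit 0)) (M (nat_lit 27481800065447))))) (T.h (T.h (T.h (P (nat_lit 0)) (M (nat_lit 3288468659404799))) (P (nat_lit 0))) (T.h (T.h (P (nat_lit 0)) (P (nat_lit 1624450826248))) (P (nat_lit 0)))))))), (T.h (T.h (T.h (P (nat_lit 116538236317700504972192617857024)) (T.h (P (nat_lit 0)) (T.h (M (nat_lit 11610262193131898743554047)) (T.h (P (nat_lit 0)) (T.h (P (nat_lit 4059346151223066624)) (T.h (P (nat_lit 0)) (M (nat_lit 15472739090591)))))))) (T.h (P (nat_lit 0)) (T.h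 (T.h (P (nat_lit 29852342430197712133554176)) (T.h (P (nat_lit 0)) (T.h (M (nat_lit 89283928821218672639)) (T.h (P (nat_lit 0)) (P (nat_lit 28335036564160)))))) (T.h (P (nat_lit 0)) (T.h (T.h (P (nat_lit 11257209192479457280)) (T.h (P (nat_lit 0)) (M (nat_lit 8128876489663)))) (T.h (P (nat_lit 0)) (M (nat_lit 61045729373567)))))))) (T.h (T.h (P (nat_lit 0)) (T.h (T.h (P (nat_lit 0)) (T.h (P (nat_lit 35871329636008551514112)) (T.h (P (nat_lit 0)) (P (nat_lit 41843344361783296))))) (T.h (P (nat_lit 0)) (T.h (T.h (P (nat_lit 0)) (P (nat_lit 95266818162229248))) (P (nat_lit 0)))))) (T.h (T.h (T.h (P (nat_lit 32611548086002112509509632)) (T.h (P (nat_lit 0)) (T.h (P (nat_lit 18121256762693648384)) (T.h (P (nat_lit 0)) (M (nat_lit 35169845347711)))))) (T.h (P (nat_lit 0)) (T.h (T.h (P (nat_lit 14755860110806876160)) (T.h (P (nat_lit 0)) (M (nat_lit 22178401775167)))) (T.h (P (nat_lit 0)) (M (nat_lit 93345869782831)))))) (T.h (T.h (P (nat_lit 0)) (T.h (T.h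 (P (nat_lit 0)) (P (nat_lit 40345172097957888))) (P (nat_lit 0)))) (T.h (T.h (T.h (P (nat_lit 44292664539358429184)) (T.h (P (nat_lit 0)) (M (nat_lit 22396963694271)))) (T.h (P (nat_lit 0)) (M (nat_lit 7076939740079)))) (T.h (P (nat_lit 0)) (P (nat_lit 32079931261568)))))))), (T.h (T.h (T.h (P (nat_lit 0)) (T.h (M (nat_lit 13643277596547858818052128767)) (T.h (P (nat_lit 0)) (T.h (P (nat_lit 13578388150504331935744)) (T.h (P (nat_lit 0)) (P (nat_lit 62277197655441408))))))) (T.h (P (nat_lit 0)) (T.h (T.h (P (nat_lit 0)) (T.h (P (nat_lit 99357904463704478449664)) (T.h (P (nat_lit 0)) (M (nat_lit 25911504250404863))))) (T.h (P (nat_lit 0)) (T.h (T.h (P (nat_lit 0)) (M (nat_lit 12317872639180799))) (P (nat_lit 0))))))) (T.h (T.h (P (nat_lit 0)) (T.h (T.h (P (nat_lit 5538450431683356522446848)) (T.h (P (nat_lit 0)) (T.h (M (nat_lit 214692018084393254911)) (T.h (P (nat_lit 0)) (P (nat_lit 20145618234144)))))) (T.h (P (nat_lit 0)) (T.h (T.h (P (nat_lit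 71019701946244136960)) (T.h (P (nat_lit 0)) (M (nat_lit 47982439091855)))) (T.h (P (nat_lit 0)) (P (nat_lit 16779312954192))))))) (T.h (T.h (T.h (P (nat_lit 0)) (T.h (M (nat_lit 72413172943302078496767)) (T.h (P (nat_lit 0)) (P (nat_lit 104001452826558464))))) (T.h (P (nat_lit 0)) (T.h (T.h (P (nat_lit 0)) (M (nat_lit 40126139474247679))) (P (nat_lit 0))))) (T.h (T.h (P (nat_lit 0)) (T.h (T.h (P (nat_lit 56006648096966574080)) (T.h (P (nat_lit 0)) (P (nat_lit 4724950018272)))) (T.h (P (nat_lit 0)) (P (nat_lit 106333461033312))))) (T.h (T.h (T.h (P (nat_lit 0)) (M (nat_lit 81311443225575423))) (P (nat_lit 0))) (T.h (T.h (P (nat_lit 0)) (P (nat_lit 2741942744016))) (P (nat_lit 0)))))))), (T.h (T.h (T.h (M (nat_lit 202020782321028235702046130438143)) (T.h (P (nat_lit 0)) (T.h (P (nat_lit 23366883707900872915681280)) (T.h (P (nat_lit 0)) (T.h (M (nat_lit 7131341328276783103)) (T.h (P (nat_lit 0)) (P (nat_lit 14645707618464)))))))) (T.h (P (nat_lit 0))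 (T.h (T.h (M (nat_lit 35815997065927715062808575)) (T.h (P (nat_lit 0)) (T.h (P (nat_lit 15088578806786555904)) (T.h (P (nat_lit 0)) (M (nat_lit 77309147628143)))))) (T.h (P (nat_lit 0)) (T.h (T.h (M (nat_lit 2673562259325714431)) (T.h (P (nat_lit 0)) (P (nat_lit 134195146157664)))) (T.h (P (nat_lit 0)) (P (nat_lit 8713460479392)))))))) (T.h (T.h (P (nat_lit 0)) (T.h (T.h (P (nat_lit 0)) (T.h (P (nat_lit 9071748710483349209088)) (T.h (P (nat_lit 0)) (M (nat_lit 63102135297736703))))) (T.h (P (nat_lit 0)) (T.h (T.h (P (nat_lit 0)) (M (nat_lit 178490904560173055))) (P (nat_lit 0)))))) (T.h (T.h (T.h (M (nat_lit 42337534151861017088360447)) (T.h (P (nat_lit 0)) (T.h (P (nat_lit 34550124118083108864)) (T.h (P (nat_lit 0)) (P (nat_lit 26406644853168)))))) (T.h (P (nat_lit 0)) (T.h (T.h (P (nat_lit 132043227812096638976)) (T.h (P (nat_lit 0)) (P (nat_lit 14513604933888)))) (T.h (P (nat_lit 0)) (P (nat_lit 499241730033216)))))) (T.h (T.h (P (nat_lit 0))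 (T.h (T.h (P (nat_lit 0)) (M (nat_lit 125759308696616959))) (P (nat_lit 0)))) (T.h (T.h (T.h (M (nat_lit 68615088356747902975)) (T.h (P (nat_lit 0)) (P (nat_lit 133240626359424)))) (T.h (P (nat_lit 0)) (P (nat_lit 352154342018448)))) (T.h (P (nat_lit 0)) (M (nat_lit 87410689135199)))))))), (T.h (T.h (T.h (P (nat_lit 0)) (T.h (M (nat_lit 5287393795622230931927990271)) (T.h (P (nat_lit 0)) (T.h (M (nat_lit 10997930159462676430847)) (T.h (P (nat_lit 0)) (M (nat_lit 21976945639718911))))))) (T.h (P (nat_lit 0)) (T.h (T.h (P (nat_lit 0)) (T.h (M (nat_lit 37042947306702845771775)) (T.h (P (nat_lit 0)) (P (nat_lit 78374196030734336))))) (T.h (P (nat_lit 0)) (T.h (T.h (P (nat_lit 0)) (M (nat_lit 17184947940786175))) (P (nat_lit 0))))))) (T.h (T.h (P (nat_lit 0)) (T.h (T.h (M (nat_lit 7968129611153399804329983)) (T.h (P (nat_lit 0)) (P (nat_lit 28063542199158046720)))) (T.h (P (nat_lit 0)) (M (nat_lit 28918869486353776639))))) (T.h (T.h (T.h (P (nat_lit 0))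 (T.h (M (nat_lit 11470395129475534684159)) (T.h (P (nat_lit 0)) (M (nat_lit 28259372670091263))))) (T.h (P (nat_lit 0)) (T.h (T.h (P (nat_lit 0)) (M (nat_lit 21820328043151359))) (P (nat_lit 0))))) (T.h (T.h (P (nat_lit 0)) (M (nat_lit 34246235936746635263))) (T.h (T.h (T.h (P (nat_lit 0)) (M (nat_lit 48452197856411647))) (P (nat_lit 0))) (P (nat_lit 0))))))), (P (nat_lit 0))]
def lP11_5 : List (T ℤ) := [(P (nat_lit 0)), (T.h (T.h (P (nat_lit 0)) (T.h (T.h (P (nat_lit 6801896442518516848624926720)) (T.h (P (nat_lit 0)) (T.h (M (nat_lit 61949671853687192944639)) (T.h (P (nat_lit 0)) (M (nat_lit 11674442002104319)))))) (T.h (P (nat_lit 0)) (T.h (T.h (M (nat_lit 16269053149684254638079)) (T.h (P (nat_lit 0)) (M (nat_lit 15777028889149439)))) (T.h (P (nat_lit 0)) (M (nat_lit 6062581201043455))))))) (T.h (T.h (T.h (P (nat_lit 0)) (T.h (P (nat_lit 16711225617270992577495040)) (T.h (P (nat_lit 0)) (T.h (P (nat_lit 18816914626879422464)) (T.h (P (nat_lit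 0)) (M (nat_lit 3640415834759))))))) (T.h (P (nat_lit 0)) (T.h (T.h (P (nat_lit 0)) (T.h (P (nat_lit 95597895653135482880)) (T.h (P (nat_lit 0)) (P (nat_lit 40934921564768))))) (T.h (P (nat_lit 0)) (T.h (T.h (P (nat_lit 0)) (P (nat_lit 27402727578760))) (P (nat_lit 0))))))) (T.h (T.h (P (nat_lit 0)) (T.h (T.h (M (nat_lit 23673963548691115540479)) (T.h (P (nat_lit 0)) (P (nat_lit 11876745795108864)))) (T.h (P (nat_lit 0)) (P (nat_lit 3999630672232448))))) (T.h (T.h (T.h (P (nat_lit 0)) (T.h (P (nat_lit 29435310069868658688)) (T.h (P (nat_lit 0)) (M (nat_lit 27481800065447))))) (T.h (P (nat_lit 0)) (T.h (T.h (P (nat_lit 0)) (M (nat_lit 47994939898575))) (P (nat_lit 0))))) (T.h (T.h (P (nat_lit 0)) (M (nat_lit 3288468659404799))) (T.h (T.h (T.h (P (nat_lit 0)) (P (nat_lit 1624450826248))) (P (nat_lit 0))) (P (nat_lit 0)))))))), (T.h (T.h (P (nat_lit 0)) (T.h (T.h (P (nat_lit 0)) (T.h (P (nat_lit 27976224509473404932325376)) (T.h (P (nat_lit 0)) (T.h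 (M (nat_lit 147501008737055801343)) (T.h (P (nat_lit 0)) (M (nat_lit 5456481312047))))))) (T.h (P (nat_lit 0)) (T.h (T.h (P (nat_lit 0)) (T.h (M (nat_lit 147501008737055801343)) (T.h (P (nat_lit 0)) (P (nat_lit 48640495562304))))) (T.h (P (nat_lit 0)) (T.h (T.h (P (nat_lit 0)) (M (nat_lit 5456481312047))) (P (nat_lit 0)))))))) (T.h (T.h (T.h (P (nat_lit 53722552701100346492772679680)) (T.h (P (nat_lit 0)) (T.h (M (nat_lit 40817385476115149094911)) (T.h (P (nat_lit 0)) (P (nat_lit 13953943454662656)))))) (T.h (P (nat_lit 0)) (T.h (T.h (M (nat_lit 40817385476115149094911)) (T.h (P (nat_lit 0)) (P (nat_lit 328107354602536960)))) (T.h (P (nat_lit 0)) (P (nat_lit 13953943454662656)))))) (T.h (T.h (P (nat_lit 0)) (T.h (T.h (P (nat_lit 0)) (T.h (M (nat_lit 251512460228226449407)) (T.h (P (nat_lit 0)) (M (nat_lit 64596591120223))))) (T.h (P (nat_lit 0)) (T.h (T.h (P (nat_lit 0)) (M (nat_lit 64596591120223))) (P (nat_lit 0)))))) (T.h (T.h (T.h (P (nat_lit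 24104559975736356634624)) (T.h (P (nat_lit 0)) (M (nat_lit 5618166223650815)))) (T.h (P (nat_lit 0)) (M (nat_lit 5618166223650815)))) (T.h (T.h (P (nat_lit 0)) (T.h (T.h (P (nat_lit 0)) (P (nat_lit 18546753362336))) (P (nat_lit 0)))) (P (nat_lit 29987144081145856))))))), (T.h (T.h (P (nat_lit 0)) (T.h (T.h (M (nat_lit 6055445881416343606697918463)) (T.h (P (nat_lit 0)) (T.h (P (nat_lit 236814018518904771444736)) (T.h (P (nat_lit 0)) (P (nat_lit 94740330665148416)))))) (T.h (P (nat_lit 0)) (T.h (T.h (P (nat_lit 113709236032273398104064)) (T.h (P (nat_lit 0)) (M (nat_lit 19688161320828927)))) (T.h (P (nat_lit 0)) (P (nat_lit 101502339024453632))))))) (T.h (T.h (T.h (P (nat_lit 0)) (T.h (P (nat_lit 23435974083932209570381824)) (T.h (P (nat_lit 0)) (T.h (M (nat_lit 120330688800300728319)) (T.h (P (nat_lit 0)) (M (nat_lit 6261972315983))))))) (T.h (P (nat_lit 0)) (T.h (T.h (P (nat_lit 0)) (T.h (M (nat_lit 501728095527132725247)) (T.h (P (nat_lit 0)) (M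 (nat_lit 32116743668927))))) (T.h (P (nat_lit 0)) (T.h (T.h (P (nat_lit 0)) (M (nat_lit 95270745959327))) (P (nat_lit 0))))))) (T.h (T.h (P (nat_lit 0)) (T.h (T.h (P (nat_lit 30453367126282721034240)) (T.h (P (nat_lit 0)) (P (nat_lit 226577201689427968)))) (T.h (P (nat_lit 0)) (P (nat_lit 128491958501376000))))) (T.h (T.h (T.h (P (nat_lit 0)) (T.h (P (nat_lit 69568742831935193088)) (T.h (P (nat_lit 0)) (P (nat_lit 14935521193248))))) (T.h (P (nat_lit 0)) (T.h (T.h (P (nat_lit 0)) (P (nat_lit 13001890599264))) (P (nat_lit 0))))) (T.h (T.h (P (nat_lit 0)) (M (nat_lit 25690900194066431))) (T.h (T.h (T.h (P (nat_lit 0)) (P (nat_lit 6554927866368))) (P (nat_lit 0))) (P (nat_lit 0)))))))), (T.h (T.h (P (nat_lit 0)) (T.h (T.h (P (nat_lit 0)) (T.h (M (nat_lit 40456280365528153312985087)) (T.h (P (nat_lit 0)) (T.h (P (nat_lit 62616020965616779264)) (T.h (P (nat_lit 0)) (P (nat_lit 45005981788656))))))) (T.h (P (nat_lit 0)) (T.h (T.h (P (nat_lit 0)) (T.h (P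 (nat_lit 167404106989858455552)) (T.h (P (nat_lit 0)) (M (nat_lit 35467958383919))))) (T.h (P (nat_lit 0)) (T.h (T.h (P (nat_lit 0)) (M (nat_lit 18638776481903))) (P (nat_lit 0)))))))) (T.h (T.h (T.h (M (nat_lit 72685983661459251017040265215)) (T.h (P (nat_lit 0)) (T.h (M (nat_lit 33414274095559754121215)) (T.h (P (nat_lit 0)) (P (nat_lit 6109213496131584)))))) (T.h (P (nat_lit 0)) (T.h (T.h (P (nat_lit 83956052722079571640320)) (T.h (P (nat_lit 0)) (M (nat_lit 392751489005174783)))) (T.h (P (nat_lit 0)) (P (nat_lit 53580461240139776)))))) (T.h (T.h (P (nat_lit 0)) (T.h (T.h (P (nat_lit 0)) (T.h (P (nat_lit 369929869536337592320)) (T.h (P (nat_lit 0)) (P (nat_lit 73574799128352))))) (T.h (P (nat_lit 0)) (T.h (T.h (P (nat_lit 0)) (P (nat_lit 3848439743712))) (P (nat_lit 0)))))) (T.h (T.h (T.h (P (nat_lit 1559377016144609148928)) (T.h (P (nat_lit 0)) (M (nat_lit 67341317046075391)))) (T.h (P (nat_lit 0)) (P (nat_lit 30734799568240640)))) (T.h (T.h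 (P (nat_lit 0)) (T.h (T.h (P (nat_lit 0)) (M (nat_lit 36795851005967))) (P (nat_lit 0)))) (M (nat_lit 28653826021441535))))))), (T.h (T.h (P (nat_lit 0)) (T.h (T.h (M (nat_lit 485246316002040588049317887)) (T.h (P (nat_lit 0)) (T.h (M (nat_lit 116266967700160330596351)) (T.h (P (nat_lit 0)) (M (nat_lit 16022553870106623)))))) (T.h (P (nat_lit 0)) (T.h (T.h (M (nat_lit 47953310490409918529535)) (T.h (P (nat_lit 0)) (M (nat_lit 97934611223642111)))) (T.h (P (nat_lit 0)) (M (nat_lit 7655420903981055))))))) (T.h (T.h (T.h (P (nat_lit 0)) (T.h (P (nat_lit 28478335506665354741940224)) (T.h (P (nat_lit 0)) (P (nat_lit 7399312085391245312))))) (T.h (P (nat_lit 0)) (T.h (T.h (P (nat_lit 0)) (P (nat_lit 379707384477398335488))) (P (nat_lit 0))))) (T.h (T.h (P (nat_lit 0)) (T.h (T.h (M (nat_lit 156873228732256518930431)) (T.h (P (nat_lit 0)) (M (nat_lit 56832365739311103)))) (T.h (P (nat_lit 0)) (M (nat_lit 455296650780803071))))) (T.h (T.h (T.h (P (nat_lit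 0)) (P (nat_lit 46219789068006326272))) (P (nat_lit 0))) (T.h (T.h (P (nat_lit 0)) (M (nat_lit 151896253560815615))) (P (nat_lit 0))))))), (P (nat_lit 0)), (T.h (T.h (T.h (P (nat_lit 0)) (T.h (M (nat_lit 782089061910025663233916927)) (T.h (P (nat_lit 0)) (T.h (M (nat_lit 16426708158251637145599)) (T.h (P (nat_lit 0)) (M (nat_lit 6131893213822975))))))) (T.h (P (nat_lit 0)) (T.h (T.h (P (nat_lit 0)) (T.h (P (nat_lit 18063952995519278612480)) (T.h (P (nat_lit 0)) (M (nat_lit 42949802790125567))))) (T.h (P (nat_lit 0)) (T.h (T.h (P (nat_lit 0)) (M (nat_lit 12606398353178623))) (P (nat_lit 0))))))) (T.h (T.h (P (nat_lit 0)) (T.h (T.h (P (nat_lit 6546479697134641121067008)) (T.h (P (nat_lit 0)) (T.h (P (nat_lit 24111187067511242752)) (T.h (P (nat_lit 0)) (P (nat_lit 17623647717064)))))) (T.h (P (nat_lit 0)) (T.h (T.h (M (nat_lit 4787399348545650687)) (T.h (P (nat_lit 0)) (P (nat_lit 29687087006240)))) (T.h (P (nat_lit 0)) (M (nat_lit 11650405526287)))))))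 (T.h (T.h (T.h (P (nat_lit 0)) (T.h (M (nat_lit 14320835328243459424255)) (T.h (P (nat_lit 0)) (M (nat_lit 22042204530900991))))) (T.h (P (nat_lit 0)) (T.h (T.h (P (nat_lit 0)) (M (nat_lit 26618167397318655))) (P (nat_lit 0))))) (T.h (T.h (P (nat_lit 0)) (T.h (T.h (P (nat_lit 22831587893463482368)) (T.h (P (nat_lit 0)) (M (nat_lit 11967238186615)))) (T.h (P (nat_lit 0)) (M (nat_lit 23872235273511))))) (T.h (T.h (T.h (P (nat_lit 0)) (M (nat_lit 8925789642784767))) (P (nat_lit 0))) (T.h (T.h (P (nat_lit 0)) (P (nat_lit 16967370205168))) (P (nat_lit 0))))))))]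
def lP11_6 : List (T ℤ) := [(T.h (T.h (T.h (P (nat_lit 116538236317700504972192617857024)) (T.h (P (nat_lit 0)) (T.h (P (nat_lit 29852342430197712133554176)) (T.h (P (nat_lit 0)) (T.h (P (nat_lit 11257209192479457280)) (T.h (P (nat_lit 0)) (M (nat_lit 61045729373567)))))))) (T.h (P (nat_lit 0)) (T.h (T.h (M (nat_lit 11610262193131898743554047)) (T.h (P (nat_lit 0)) (T.h (M (nat_lit 89283928821218672639)) (T.h (P (nat_lit 0)) (M (nat_lit 8128876489663)))))) (T.h (P (nat_lit 0)) (T.h (T.h (P (nat_lit 4059346151223066624)) (T.h (P (nat_lit 0)) (P (nat_lit 28335036564160)))) (T.h (P (nat_lit 0)) (M (nat_lit 15472739090591)))))))) (T.h (T.h (P (nat_lit 0)) (T.h (T.h (P (nat_lit 0)) (T.h (P (nat_lit 35871329636008551514112)) (T.h (P (nat_lit 0)) (P (nat_lit 95266818162229248))))) (T.h (P (nat_lit 0)) (T.h (T.h (P (nat_lit 0)) (P (nat_lit 41843344361783296))) (P (nat_lit 0)))))) (T.h (T.h (T.h (P (nat_lit 32611548086002112509509632)) (T.h (P (nat_lit 0))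 (T.h (P (nat_lit 14755860110806876160)) (T.h (P (nat_lit 0)) (M (nat_lit 93345869782831)))))) (T.h (P (nat_lit 0)) (T.h (T.h (P (nat_lit 18121256762693648384)) (T.h (P (nat_lit 0)) (M (nat_lit 22178401775167)))) (T.h (P (nat_lit 0)) (M (nat_lit 35169845347711)))))) (T.h (T.h (P (nat_lit 0)) (T.h (T.h (P (nat_lit 0)) (P (nat_lit 40345172097957888))) (P (nat_lit 0)))) (T.h (T.h (T.h (P (nat_lit 44292664539358429184)) (T.h (P (nat_lit 0)) (M (nat_lit 7076939740079)))) (T.h (P (nat_lit 0)) (M (nat_lit 22396963694271)))) (T.h (P (nat_lit 0)) (P (nat_lit 32079931261568)))))))), (T.h (T.h (T.h (P (nat_lit 0)) (T.h (M (nat_lit 6055445881416343606697918463)) (T.h (P (nat_lit 0)) (T.h (P (nat_lit 113709236032273398104064)) (T.h (P (nat_lit 0)) (P (nat_lit 101502339024453632))))))) (T.h (P (nat_lit 0)) (T.h (T.h (P (nat_lit 0)) (T.h (P (nat_lit 236814018518904771444736)) (T.h (P (nat_lit 0)) (M (nat_lit 19688161320828927))))) (T.h (P (nat_lit 0)) (T.h (T.h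 (P (nat_lit 0)) (P (nat_lit 94740330665148416))) (P (nat_lit 0))))))) (T.h (T.h (P (nat_lit 0)) (T.h (T.h (P (nat_lit 23435974083932209570381824)) (T.h (P (nat_lit 0)) (T.h (M (nat_lit 501728095527132725247)) (T.h (P (nat_lit 0)) (M (nat_lit 95270745959327)))))) (T.h (P (nat_lit 0)) (T.h (T.h (M (nat_lit 120330688800300728319)) (T.h (P (nat_lit 0)) (M (nat_lit 32116743668927)))) (T.h (P (nat_lit 0)) (M (nat_lit 6261972315983))))))) (T.h (T.h (T.h (P (nat_lit 0)) (T.h (P (nat_lit 30453367126282721034240)) (T.h (P (nat_lit 0)) (P (nat_lit 128491958501376000))))) (T.h (P (nat_lit 0)) (T.h (T.h (P (nat_lit 0)) (P (nat_lit 226577201689427968))) (P (nat_lit 0))))) (T.h (T.h (P (nat_lit 0)) (T.h (T.h (P (nat_lit 69568742831935193088)) (T.h (P (nat_lit 0)) (P (nat_lit 13001890599264)))) (T.h (P (nat_lit 0)) (P (nat_lit 14935521193248))))) (T.h (T.h (T.h (P (nat_lit 0)) (M (nat_lit 25690900194066431))) (P (nat_lit 0))) (T.h (T.h (P (nat_lit 0)) (P (nat_lit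 6554927866368))) (P (nat_lit 0)))))))), (T.h (T.h (T.h (M (nat_lit 207245689897936580250291383828479)) (T.h (P (nat_lit 0)) (T.h (M (nat_lit 33468533096127654831063039)) (T.h (P (nat_lit 0)) (T.h (M (nat_lit 16190841554053627903)) (T.h (P (nat_lit 0)) (P (nat_lit 75877149067776)))))))) (T.h (P (nat_lit 0)) (T.h (T.h (M (nat_lit 33468533096127654831063039)) (T.h (P (nat_lit 0)) (T.h (P (nat_lit 333704964478410424320)) (T.h (P (nat_lit 0)) (P (nat_lit 43617723863328)))))) (T.h (P (nat_lit 0)) (T.h (T.h (M (nat_lit 16190841554053627903)) (T.h (P (nat_lit 0)) (P (nat_lit 43617723863328)))) (T.h (P (nat_lit 0)) (P (nat_lit 75877149067776)))))))) (T.h (T.h (P (nat_lit 0)) (T.h (T.h (P (nat_lit 0)) (T.h (M (nat_lit 189858369728152055316479)) (T.h (P (nat_lit 0)) (M (nat_lit 47995793195532287))))) (T.h (P (nat_lit 0)) (T.h (T.h (P (nat_lit 0)) (M (nat_lit 47995793195532287))) (P (nat_lit 0)))))) (T.h (T.h (T.h (M (nat_lit 88680154785333492804747263)) (T.h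 (P (nat_lit 0)) (T.h (P (nat_lit 113789011323028242432)) (T.h (P (nat_lit 0)) (P (nat_lit 73651491357984)))))) (T.h (P (nat_lit 0)) (T.h (T.h (P (nat_lit 113789011323028242432)) (T.h (P (nat_lit 0)) (P (nat_lit 43934860796544)))) (T.h (P (nat_lit 0)) (P (nat_lit 73651491357984)))))) (T.h (T.h (P (nat_lit 0)) (T.h (T.h (P (nat_lit 0)) (M (nat_lit 246000128182583295))) (P (nat_lit 0)))) (T.h (T.h (T.h (M (nat_lit 144581075029341503487)) (T.h (P (nat_lit 0)) (P (nat_lit 74071766674224)))) (T.h (P (nat_lit 0)) (P (nat_lit 74071766674224)))) (T.h (P (nat_lit 0)) (M (nat_lit 70822787459903)))))))), (T.h (T.h (T.h (P (nat_lit 0)) (T.h (M (nat_lit 11248579222122020348964634623)) (T.h (P (nat_lit 0)) (T.h (M (nat_lit 47210703150660263608319)) (T.h (P (nat_lit 0)) (M (nat_lit 113838962049777663))))))) (T.h (P (nat_lit 0)) (T.h (T.h (P (nat_lit 0)) (T.h (M (nat_lit 251163479293727797673983)) (T.h (P (nat_lit 0)) (M (nat_lit 15489028619730943))))) (T.h (P (nat_lit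 0)) (T.h (T.h (P (nat_lit 0)) (P (nat_lit 1355874914500608))) (P (nat_lit 0))))))) (T.h (T.h (P (nat_lit 0)) (T.h (T.h (P (nat_lit 33206684731157785694175232)) (T.h (P (nat_lit 0)) (P (nat_lit 352605878129642176512)))) (T.h (P (nat_lit 0)) (P (nat_lit 274170867548684288))))) (T.h (T.h (T.h (P (nat_lit 0)) (T.h (M (nat_lit 110268998513681254842367)) (T.h (P (nat_lit 0)) (M (nat_lit 83781578424385535))))) (T.h (P (nat_lit 0)) (T.h (T.h (P (nat_lit 0)) (M (nat_lit 22622444845334527))) (P (nat_lit 0))))) (T.h (T.h (P (nat_lit 0)) (M (nat_lit 13623357689722568703))) (T.h (T.h (T.h (P (nat_lit 0)) (M (nat_lit 25337783715266559))) (P (nat_lit 0))) (P (nat_lit 0))))))), (T.h (T.h (P (nat_lit 0)) (T.h (T.h (P (nat_lit 7100087156579572138729537536)) (T.h (P (nat_lit 0)) (T.h (P (nat_lit 23223723856033470218240)) (T.h (P (nat_lit 0)) (P (nat_lit 18968879967698944)))))) (T.h (P (nat_lit 0)) (T.h (T.h (M (nat_lit 1237047663726686109695)) (T.h (P (nat_lit 0))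 (M (nat_lit 21981539607871487)))) (T.h (P (nat_lit 0)) (P (nat_lit 5526414397538304))))))) (T.h (T.h (T.h (P (nat_lit 0)) (T.h (P (nat_lit 789217968431012492869632)) (T.h (P (nat_lit 0)) (T.h (M (nat_lit 41432928862544592895)) (T.h (P (nat_lit 0)) (M (nat_lit 11610110242455))))))) (T.h (P (nat_lit 0)) (T.h (T.h (P (nat_lit 0)) (T.h (M (nat_lit 2144806594884403199)) (T.h (P (nat_lit 0)) (P (nat_lit 36776393580296))))) (T.h (P (nat_lit 0)) (T.h (T.h (P (nat_lit 0)) (M (nat_lit 40018750807967))) (P (nat_lit 0))))))) (T.h (T.h (P (nat_lit 0)) (T.h (T.h (P (nat_lit 18488458053379849977856)) (T.h (P (nat_lit 0)) (P (nat_lit 6405622491906048)))) (T.h (P (nat_lit 0)) (M (nat_lit 14916144344629247))))) (T.h (T.h (T.h (P (nat_lit 0)) (T.h (M (nat_lit 26309337614833942527)) (T.h (P (nat_lit 0)) (M (nat_lit 60639230622911))))) (T.h (P (nat_lit 0)) (T.h (T.h (P (nat_lit 0)) (P (nat_lit 28718105432920))) (P (nat_lit 0))))) (T.h (T.h (P (nat_lit 0)) (P (nat_lit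 15699326535139328))) (T.h (T.h (T.h (P (nat_lit 0)) (M (nat_lit 11455875289447))) (P (nat_lit 0))) (P (nat_lit 0)))))))), (T.h (T.h (P (nat_lit 0)) (T.h (T.h (P (nat_lit 0)) (T.h (M (nat_lit 23016326667677892480073727)) (T.h (P (nat_lit 0)) (T.h (P (nat_lit 3997095405463535616)) (T.h (P (nat_lit 0)) (P (nat_lit 40339979884256))))))) (T.h (P (nat_lit 0)) (T.h (T.h (P (nat_lit 0)) (T.h (M (nat_lit 4386139381002403839)) (T.h (P (nat_lit 0)) (P (nat_lit 6020971354256))))) (T.h (P (nat_lit 0)) (T.h (T.h (P (nat_lit 0)) (M (nat_lit 14450944174591))) (P (nat_lit 0)))))))) (T.h (T.h (T.h (P (nat_lit 20984392715099619162048167936)) (T.h (P (nat_lit 0)) (T.h (M (nat_lit 17505257867323948138495)) (T.h (P (nat_lit 0)) (M (nat_lit 93291811182837759)))))) (T.h (P (nat_lit 0)) (T.h (T.h (M (nat_lit 8223931429363535314943)) (T.h (P (nat_lit 0)) (M (nat_lit 738227850690559)))) (T.h (P (nat_lit 0)) (P (nat_lit 26419758957936640)))))) (T.h (T.h (P (nat_lit 0)) (T.h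 (T.h (P (nat_lit 0)) (T.h (P (nat_lit 29677769012967112704)) (T.h (P (nat_lit 0)) (P (nat_lit 1500860940832))))) (T.h (P (nat_lit 0)) (T.h (T.h (P (nat_lit 0)) (M (nat_lit 4144068559599))) (P (nat_lit 0)))))) (T.h (T.h (T.h (P (nat_lit 19697029159794532941824)) (T.h (P (nat_lit 0)) (M (nat_lit 33918669731856383)))) (T.h (P (nat_lit 0)) (M (nat_lit 46708690346541055)))) (T.h (T.h (P (nat_lit 0)) (T.h (T.h (P (nat_lit 0)) (P (nat_lit 50708355223312))) (P (nat_lit 0)))) (P (nat_lit 15994898100060160))))))), (T.h (T.h (P (nat_lit 0)) (T.h (T.h (M (nat_lit 13643277596547858818052128767)) (T.h (P (nat_lit 0)) (T.h (P (nat_lit 99357904463704478449664)) (T.h (P (nat_lit 0)) (M (nat_lit 12317872639180799)))))) (T.h (P (nat_lit 0)) (T.h (T.h (P (nat_lit 13578388150504331935744)) (T.h (P (nat_lit 0)) (M (nat_lit 25911504250404863)))) (T.h (P (nat_lit 0)) (P (nat_lit 62277197655441408))))))) (T.h (T.h (T.h (P (nat_lit 0)) (T.h (P (nat_lit 5538450431683356522446848))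 (T.h (P (nat_lit 0)) (T.h (P (nat_lit 71019701946244136960)) (T.h (P (nat_lit 0)) (P (nat_lit 16779312954192))))))) (T.h (P (nat_lit 0)) (T.h (T.h (P (nat_lit 0)) (T.h (M (nat_lit 214692018084393254911)) (T.h (P (nat_lit 0)) (M (nat_lit 47982439091855))))) (T.h (P (nat_lit 0)) (T.h (T.h (P (nat_lit 0)) (P (nat_lit 20145618234144))) (P (nat_lit 0))))))) (T.h (T.h (P (nat_lit 0)) (T.h (T.h (M (nat_lit 72413172943302078496767)) (T.h (P (nat_lit 0)) (M (nat_lit 40126139474247679)))) (T.h (P (nat_lit 0)) (P (nat_lit 104001452826558464))))) (T.h (T.h (T.h (P (nat_lit 0)) (T.h (P (nat_lit 56006648096966574080)) (T.h (P (nat_lit 0)) (P (nat_lit 106333461033312))))) (T.h (P (nat_lit 0)) (T.h (T.h (P (nat_lit 0)) (P (nat_lit 4724950018272))) (P (nat_lit 0))))) (T.h (T.h (P (nat_lit 0)) (M (nat_lit 81311443225575423))) (T.h (T.h (T.h (P (nat_lit 0)) (P (nat_lit 2741942744016))) (P (nat_lit 0))) (P (nat_lit 0)))))))), (T.h (T.h (P (nat_lit 0)) (T.h (T.h (P (nat_lit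 0)) (T.h (M (nat_lit 40456280365528153312985087)) (T.h (P (nat_lit 0)) (T.h (P (nat_lit 167404106989858455552)) (T.h (P (nat_lit 0)) (M (nat_lit 18638776481903))))))) (T.h (P (nat_lit 0)) (T.h (T.h (P (nat_lit 0)) (T.h (P (nat_lit 62616020965616779264)) (T.h (P (nat_lit 0)) (M (nat_lit 35467958383919))))) (T.h (P (nat_lit 0)) (T.h (T.h (P (nat_lit 0)) (P (nat_lit 45005981788656))) (P (nat_lit 0)))))))) (T.h (T.h (T.h (M (nat_lit 72685983661459251017040265215)) (T.h (P (nat_lit 0)) (T.h (P (nat_lit 83956052722079571640320)) (T.h (P (nat_lit 0)) (P (nat_lit 53580461240139776)))))) (T.h (P (nat_lit 0)) (T.h (T.h (M (nat_lit 33414274095559754121215)) (T.h (P (nat_lit 0)) (M (nat_lit 392751489005174783)))) (T.h (P (nat_lit 0)) (P (nat_lit 6109213496131584)))))) (T.h (T.h (P (nat_lit 0)) (T.h (T.h (P (nat_lit 0)) (T.h (P (nat_lit 369929869536337592320)) (T.h (P (nat_lit 0)) (P (nat_lit 3848439743712))))) (T.h (P (nat_lit 0)) (T.h (T.h (P (nat_lit 0)) (P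 (nat_lit 73574799128352))) (P (nat_lit 0)))))) (T.h (T.h (T.h (P (nat_lit 1559377016144609148928)) (T.h (P (nat_lit 0)) (P (nat_lit 30734799568240640)))) (T.h (P (nat_lit 0)) (M (nat_lit 67341317046075391)))) (T.h (T.h (P (nat_lit 0)) (T.h (T.h (P (nat_lit 0)) (M (nat_lit 36795851005967))) (P (nat_lit 0)))) (M (nat_lit 28653826021441535)))))))]
def lP11_7 : List (T ℤ) := [(T.h (T.h (P (nat_lit 0)) (T.h (T.h (M (nat_lit 11248579222122020348964634623)) (T.h (P (nat_lit 0)) (T.h (M (nat_lit 251163479293727797673983)) (T.h (P (nat_lit 0)) (P (nat_lit 1355874914500608)))))) (T.h (P (nat_lit 0)) (T.h (T.h (M (nat_lit 47210703150660263608319)) (T.h (P (nat_lit 0)) (M (nat_lit 15489028619730943)))) (T.h (P (nat_lit 0)) (M (nat_lit 113838962049777663))))))) (T.h (T.h (T.h (P (nat_lit 0)) (T.h (P (nat_lit 33206684731157785694175232)) (T.h (P (nat_lit 0)) (P (nat_lit 274170867548684288))))) (T.h (P (nat_lit 0)) (T.h (T.h (P (nat_lit 0)) (P (nat_lit 352605878129642176512)))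 (P (nat_lit 0))))) (T.h (T.h (P (nat_lit 0)) (T.h (T.h (M (nat_lit 110268998513681254842367)) (T.h (P (nat_lit 0)) (M (nat_lit 22622444845334527)))) (T.h (P (nat_lit 0)) (M (nat_lit 83781578424385535))))) (T.h (T.h (T.h (P (nat_lit 0)) (M (nat_lit 13623357689722568703))) (P (nat_lit 0))) (T.h (T.h (P (nat_lit 0)) (M (nat_lit 25337783715266559))) (P (nat_lit 0))))))), (T.h (T.h (T.h (P (nat_lit 105277720930526967885496854773760)) (T.h (P (nat_lit 0)) (T.h (M (nat_lit 1622784108497740811468799)) (T.h (P (nat_lit 0)) (T.h (P (nat_lit 8780194688519897088)) (T.h (P (nat_lit 0)) (P (nat_lit 56203593949792)))))))) (T.h (P (nat_lit 0)) (T.h (T.h (M (nat_lit 9691530957154133055897599)) (T.h (P (nat_lit 0)) (T.h (M (nat_lit 5543786603966627839)) (T.h (P (nat_lit 0)) (M (nat_lit 104478078703183)))))) (T.h (P (nat_lit 0)) (T.h (T.h (P (nat_lit 1752219728941678592)) (T.h (P (nat_lit 0)) (P (nat_lit 20467126355184)))) (T.h (P (nat_lit 0)) (P (nat_lit 2914549128000))))))))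 (T.h (T.h (P (nat_lit 0)) (T.h (T.h (P (nat_lit 0)) (T.h (P (nat_lit 20667592922045440065536)) (T.h (P (nat_lit 0)) (P (nat_lit 47636208037494784))))) (T.h (P (nat_lit 0)) (T.h (T.h (P (nat_lit 0)) (P (nat_lit 41585837830832128))) (P (nat_lit 0)))))) (T.h (T.h (T.h (M (nat_lit 1622784108497740811468799)) (T.h (P (nat_lit 0)) (T.h (M (nat_lit 172485376140564758527)) (T.h (P (nat_lit 0)) (M (nat_lit 373272336818415)))))) (T.h (P (nat_lit 0)) (T.h (T.h (M (nat_lit 5543786603966627839)) (T.h (P (nat_lit 0)) (P (nat_lit 5095877684832)))) (T.h (P (nat_lit 0)) (P (nat_lit 20467126355184)))))) (T.h (T.h (P (nat_lit 0)) (T.h (T.h (P (nat_lit 0)) (P (nat_lit 47636208037494784))) (P (nat_lit 0)))) (T.h (T.h (T.h (P (nat_lit 8780194688519897088)) (T.h (P (nat_lit 0)) (M (nat_lit 373272336818415)))) (T.h (P (nat_lit 0)) (M (nat_lit 104478078703183)))) (T.h (P (nat_lit 0)) (P (nat_lit 56203593949792)))))))), (T.h (T.h (T.h (P (nat_lit 0)) (T.h (M (nat_lit 3456173834636085084861497343))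 (T.h (P (nat_lit 0)) (T.h (P (nat_lit 796842188950915252224)) (T.h (P (nat_lit 0)) (M (nat_lit 79130026373513215))))))) (T.h (P (nat_lit 0)) (T.h (T.h (P (nat_lit 0)) (T.h (M (nat_lit 8138862492074314301439)) (T.h (P (nat_lit 0)) (P (nat_lit 135300099771203584))))) (T.h (P (nat_lit 0)) (T.h (T.h (P (nat_lit 0)) (M (nat_lit 5272400747659263))) (P (nat_lit 0))))))) (T.h (T.h (P (nat_lit 0)) (T.h (T.h (M (nat_lit 10655501998343211475533823)) (T.h (P (nat_lit 0)) (T.h (M (nat_lit 74645592273925963775)) (T.h (P (nat_lit 0)) (M (nat_lit 20837185961087)))))) (T.h (P (nat_lit 0)) (T.h (T.h (P (nat_lit 12914465284454088704)) (T.h (P (nat_lit 0)) (M (nat_lit 8955757893743)))) (T.h (P (nat_lit 0)) (P (nat_lit 8815688868816))))))) (T.h (T.h (T.h (P (nat_lit 0)) (T.h (P (nat_lit 79018735785822008639488)) (T.h (P (nat_lit 0)) (P (nat_lit 358151747026976768))))) (T.h (P (nat_lit 0)) (T.h (T.h (P (nat_lit 0)) (P (nat_lit 43116961213710336))) (P (nat_lit 0))))) (T.h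 (T.h (P (nat_lit 0)) (T.h (T.h (P (nat_lit 14014821978452525056)) (T.h (P (nat_lit 0)) (P (nat_lit 29719564744560)))) (T.h (P (nat_lit 0)) (P (nat_lit 22388334389568))))) (T.h (T.h (T.h (P (nat_lit 0)) (P (nat_lit 173742578925305856))) (P (nat_lit 0))) (T.h (T.h (P (nat_lit 0)) (M (nat_lit 11562789853775))) (P (nat_lit 0)))))))), (T.h (T.h (T.h (M (nat_lit 202020782321028235702046130438143)) (T.h (P (nat_lit 0)) (T.h (M (nat_lit 35815997065927715062808575)) (T.h (P (nat_lit 0)) (T.h (M (nat_lit 2673562259325714431)) (T.h (P (nat_lit 0)) (P (nat_lit 8713460479392)))))))) (T.h (P (nat_lit 0)) (T.h (T.h (P (nat_lit 23366883707900872915681280)) (T.h (P (nat_lit 0)) (T.h (P (nat_lit 15088578806786555904)) (T.h (P (nat_lit 0)) (P (nat_lit 134195146157664)))))) (T.h (P (nat_lit 0)) (T.h (T.h (M (nat_lit 7131341328276783103)) (T.h (P (nat_lit 0)) (M (nat_lit 77309147628143)))) (T.h (P (nat_lit 0)) (P (nat_lit 14645707618464)))))))) (T.h (T.h (P (nat_lit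 0)) (T.h (T.h (P (nat_lit 0)) (T.h (P (nat_lit 9071748710483349209088)) (T.h (P (nat_lit 0)) (M (nat_lit 178490904560173055))))) (T.h (P (nat_lit 0)) (T.h (T.h (P (nat_lit 0)) (M (nat_lit 63102135297736703))) (P (nat_lit 0)))))) (T.h (T.h (T.h (M (nat_lit 42337534151861017088360447)) (T.h (P (nat_lit 0)) (T.h (P (nat_lit 132043227812096638976)) (T.h (P (nat_lit 0)) (P (nat_lit 499241730033216)))))) (T.h (P (nat_lit 0)) (T.h (T.h (P (nat_lit 34550124118083108864)) (T.h (P (nat_lit 0)) (P (nat_lit 14513604933888)))) (T.h (P (nat_lit 0)) (P (nat_lit 26406644853168)))))) (T.h (T.h (P (nat_lit 0)) (T.h (T.h (P (nat_lit 0)) (M (nat_lit 125759308696616959))) (P (nat_lit 0)))) (T.h (T.h (T.h (M (nat_lit 68615088356747902975)) (T.h (P (nat_lit 0)) (P (nat_lit 352154342018448)))) (T.h (P (nat_lit 0)) (P (nat_lit 133240626359424)))) (T.h (P (nat_lit 0)) (M (nat_lit 87410689135199)))))))), (T.h (T.h (T.h (P (nat_lit 0)) (T.h (M (nat_lit 485246316002040588049317887))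 (T.h (P (nat_lit 0)) (T.h (M (nat_lit 47953310490409918529535)) (T.h (P (nat_lit 0)) (M (nat_lit 7655420903981055))))))) (T.h (P (nat_lit 0)) (T.h (T.h (P (nat_lit 0)) (T.h (M (nat_lit 116266967700160330596351)) (T.h (P (nat_lit 0)) (M (nat_lit 97934611223642111))))) (T.h (P (nat_lit 0)) (T.h (T.h (P (nat_lit 0)) (M (nat_lit 16022553870106623))) (P (nat_lit 0))))))) (T.h (T.h (P (nat_lit 0)) (T.h (T.h (P (nat_lit 28478335506665354741940224)) (T.h (P (nat_lit 0)) (P (nat_lit 379707384477398335488)))) (T.h (P (nat_lit 0)) (P (nat_lit 7399312085391245312))))) (T.h (T.h (T.h (P (nat_lit 0)) (T.h (M (nat_lit 156873228732256518930431)) (T.h (P (nat_lit 0)) (M (nat_lit 455296650780803071))))) (T.h (P (nat_lit 0)) (T.h (T.h (P (nat_lit 0)) (M (nat_lit 56832365739311103))) (P (nat_lit 0))))) (T.h (T.h (P (nat_lit 0)) (P (nat_lit 46219789068006326272))) (T.h (T.h (T.h (P (nat_lit 0)) (M (nat_lit 151896253560815615))) (P (nat_lit 0))) (P (nat_lit 0))))))),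 (T.h (T.h (P (nat_lit 0)) (T.h (T.h (M (nat_lit 1772719709271470377478914047)) (T.h (P (nat_lit 0)) (T.h (M (nat_lit 14350093689450101997567)) (T.h (P (nat_lit 0)) (P (nat_lit 28449082768031744)))))) (T.h (P (nat_lit 0)) (T.h (T.h (M (nat_lit 10151113502918493339647)) (T.h (P (nat_lit 0)) (P (nat_lit 6165034883907584)))) (T.h (P (nat_lit 0)) (M (nat_lit 7951400904425471))))))) (T.h (T.h (T.h (P (nat_lit 0)) (T.h (M (nat_lit 6097722714123760383819775)) (T.h (P (nat_lit 0)) (T.h (P (nat_lit 27470699705940312064)) (T.h (P (nat_lit 0)) (P (nat_lit 11532992765952))))))) (T.h (P (nat_lit 0)) (T.h (T.h (P (nat_lit 0)) (T.h (P (nat_lit 12972542331520548864)) (T.h (P (nat_lit 0)) (M (nat_lit 32747249506607))))) (T.h (P (nat_lit 0)) (T.h (T.h (P (nat_lit 0)) (P (nat_lit 40018750807968))) (P (nat_lit 0))))))) (T.h (T.h (P (nat_lit 0)) (T.h (T.h (M (nat_lit 6654861781713964498943)) (T.h (P (nat_lit 0)) (M (nat_lit 5990814857822207)))) (T.h (P (nat_lit 0)) (M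 (nat_lit 5931687478722559))))) (T.h (T.h (T.h (P (nat_lit 0)) (T.h (P (nat_lit 10996160748979224576)) (T.h (P (nat_lit 0)) (P (nat_lit 60639230622912))))) (T.h (P (nat_lit 0)) (T.h (T.h (P (nat_lit 0)) (M (nat_lit 32747249506607))) (P (nat_lit 0))))) (T.h (T.h (P (nat_lit 0)) (P (nat_lit 29605169527062528))) (T.h (T.h (T.h (P (nat_lit 0)) (P (nat_lit 11532992765952))) (P (nat_lit 0))) (P (nat_lit 0)))))))), (T.h (T.h (P (nat_lit 0)) (T.h (T.h (P (nat_lit 0)) (T.h (P (nat_lit 30576525179669562771111936)) (T.h (P (nat_lit 0)) (T.h (M (nat_lit 14785903864523522047)) (T.h (P (nat_lit 0)) (M (nat_lit 38574100311983))))))) (T.h (P (nat_lit 0)) (T.h (T.h (P (nat_lit 0)) (T.h (M (nat_lit 4299253708392235007)) (T.h (P (nat_lit 0)) (M (nat_lit 11727087712703))))) (T.h (P (nat_lit 0)) (T.h (T.h (P (nat_lit 0)) (P (nat_lit 8704128682512))) (P (nat_lit 0)))))))) (T.h (T.h (T.h (M (nat_lit 20545763807070606543294562303)) (T.h (P (nat_lit 0)) (T.h (P (nat_lit 18225494033046599368704))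 (T.h (P (nat_lit 0)) (P (nat_lit 79124825958711296)))))) (T.h (P (nat_lit 0)) (T.h (T.h (P (nat_lit 12135496075166393303040)) (T.h (P (nat_lit 0)) (P (nat_lit 43606495874285568)))) (T.h (P (nat_lit 0)) (M (nat_lit 35881187698753535)))))) (T.h (T.h (P (nat_lit 0)) (T.h (T.h (P (nat_lit 0)) (T.h (M (nat_lit 60109996656355704831)) (T.h (P (nat_lit 0)) (P (nat_lit 22287634534368))))) (T.h (P (nat_lit 0)) (T.h (T.h (P (nat_lit 0)) (P (nat_lit 18560116891440))) (P (nat_lit 0)))))) (T.h (T.h (T.h (M (nat_lit 19160979863630824603647)) (T.h (P (nat_lit 0)) (P (nat_lit 54131820061376512)))) (T.h (P (nat_lit 0)) (P (nat_lit 52158500142071808)))) (T.h (T.h (P (nat_lit 0)) (T.h (T.h (P (nat_lit 0)) (M (nat_lit 53556555107663))) (P (nat_lit 0)))) (M (nat_lit 14971273895362559))))))), (T.h (T.h (P (nat_lit 0)) (T.h (T.h (M (nat_lit 5287393795622230931927990271)) (T.h (P (nat_lit 0)) (T.h (M (nat_lit 37042947306702845771775)) (T.h (P (nat_lit 0)) (M (nat_lit 17184947940786175))))))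 (T.h (P (nat_lit 0)) (T.h (T.h (M (nat_lit 10997930159462676430847)) (T.h (P (nat_lit 0)) (P (nat_lit 78374196030734336)))) (T.h (P (nat_lit 0)) (M (nat_lit 21976945639718911))))))) (T.h (T.h (T.h (P (nat_lit 0)) (T.h (M (nat_lit 7968129611153399804329983)) (T.h (P (nat_lit 0)) (M (nat_lit 28918869486353776639))))) (T.h (P (nat_lit 0)) (T.h (T.h (P (nat_lit 0)) (P (nat_lit 28063542199158046720))) (P (nat_lit 0))))) (T.h (T.h (P (nat_lit 0)) (T.h (T.h (M (nat_lit 11470395129475534684159)) (T.h (P (nat_lit 0)) (M (nat_lit 21820328043151359)))) (T.h (P (nat_lit 0)) (M (nat_lit 28259372670091263))))) (T.h (T.h (T.h (P (nat_lit 0)) (M (nat_lit 34246235936746635263))) (P (nat_lit 0))) (T.h (T.h (P (nat_lit 0)) (M (nat_lit 48452197856411647))) (P (nat_lit 0)))))))]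
def lP11_8 : List (T ℤ) := [(T.h (T.h (T.h (M (nat_lit 99909648655724536380581048483839)) (T.h (P (nat_lit 0)) (T.h (P (nat_lit 1537303026863677219274752)) (T.h (P (nat_lit 0)) (T.h (M (nat_lit 7478722740816445439)) (T.h (P (nat_lit 0)) (M (nat_lit 56803544022671)))))))) (T.h (P (nat_lit 0)) (T.h (T.h (P (nat_lit 10438904556057964207669248)) (T.h (P (nat_lit 0)) (T.h (P (nat_lit 3858024237247758336)) (T.h (P (nat_lit 0)) (P (nat_lit 101867935691088)))))) (T.h (P (nat_lit 0)) (T.h (T.h (M (nat_lit 3079660293249302527)) (T.h (P (nat_lit 0)) (M (nat_lit 20140321589711)))) (T.h (P (nat_lit 0)) (M (nat_lit 1776113164223)))))))) (T.h (T.h (P (nat_lit 0)) (T.h (T.h (P (nat_lit 0)) (T.h (M (nat_lit 24792577964494502756351)) (T.h (P (nat_lit 0)) (M (nat_lit 41970387647889407))))) (T.h (P (nat_lit 0)) (T.h (T.h (P (nat_lit 0)) (M (nat_lit 38777993416015871))) (P (nat_lit 0)))))) (T.h (T.h (T.h (P (nat_lit 1537303026863677219274752)) (T.h (P (nat_lit 0)) (T.h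 (P (nat_lit 170199004916551254016)) (T.h (P (nat_lit 0)) (P (nat_lit 372699232900704)))))) (T.h (P (nat_lit 0)) (T.h (T.h (P (nat_lit 3858024237247758336)) (T.h (P (nat_lit 0)) (P (nat_lit 911442555360)))) (T.h (P (nat_lit 0)) (M (nat_lit 20140321589711)))))) (T.h (T.h (P (nat_lit 0)) (T.h (T.h (P (nat_lit 0)) (M (nat_lit 41970387647889407))) (P (nat_lit 0)))) (T.h (T.h (T.h (M (nat_lit 7478722740816445439)) (T.h (P (nat_lit 0)) (P (nat_lit 372699232900704)))) (T.h (P (nat_lit 0)) (P (nat_lit 101867935691088)))) (T.h (P (nat_lit 0)) (M (nat_lit 56803544022671)))))))), (T.h (T.h (T.h (P (nat_lit 0)) (T.h (P (nat_lit 2431989740396183413638299648)) (T.h (P (nat_lit 0)) (T.h (P (nat_lit 13155666161854431887360)) (T.h (P (nat_lit 0)) (P (nat_lit 86333522932170752))))))) (T.h (P (nat_lit 0)) (T.h (T.h (P (nat_lit 0)) (T.h (M (nat_lit 2389731705158014861311)) (T.h (P (nat_lit 0)) (M (nat_lit 84716766919393279))))) (T.h (P (nat_lit 0)) (T.h (T.h (P (nat_lit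 0)) (M (nat_lit 737280053051391))) (P (nat_lit 0))))))) (T.h (T.h (P (nat_lit 0)) (T.h (T.h (P (nat_lit 2731529024111075150266368)) (T.h (P (nat_lit 0)) (P (nat_lit 43502318328160976896)))) (T.h (P (nat_lit 0)) (P (nat_lit 2922520119437426688))))) (T.h (T.h (T.h (P (nat_lit 0)) (T.h (M (nat_lit 67764700985457142398975)) (T.h (P (nat_lit 0)) (M (nat_lit 344310799049883647))))) (T.h (P (nat_lit 0)) (T.h (T.h (P (nat_lit 0)) (M (nat_lit 13085180765306879))) (P (nat_lit 0))))) (T.h (T.h (P (nat_lit 0)) (M (nat_lit 14446821862908362751))) (T.h (T.h (T.h (P (nat_lit 0)) (M (nat_lit 157432470344531967))) (P (nat_lit 0))) (P (nat_lit 0))))))), (T.h (T.h (P (nat_lit 0)) (T.h (T.h (M (nat_lit 5327367447308101761250623487)) (T.h (P (nat_lit 0)) (T.h (M (nat_lit 10353613219124626849791)) (T.h (P (nat_lit 0)) (M (nat_lit 46361229398966271)))))) (T.h (P (nat_lit 0)) (T.h (T.h (P (nat_lit 11388161166645179449344)) (T.h (P (nat_lit 0)) (P (nat_lit 18332168273657856))))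 (T.h (P (nat_lit 0)) (P (nat_lit 2424986506887168))))))) (T.h (T.h (T.h (P (nat_lit 0)) (T.h (P (nat_lit 5308504745692747890950144)) (T.h (P (nat_lit 0)) (P (nat_lit 14637703011229499392))))) (T.h (P (nat_lit 0)) (T.h (T.h (P (nat_lit 0)) (M (nat_lit 10827735736636145663))) (P (nat_lit 0))))) (T.h (T.h (P (nat_lit 0)) (T.h (T.h (M (nat_lit 10353613219124626849791)) (T.h (P (nat_lit 0)) (M (nat_lit 414807634083839)))) (T.h (P (nat_lit 0)) (P (nat_lit 18332168273657856))))) (T.h (T.h (T.h (P (nat_lit 0)) (P (nat_lit 14637703011229499392))) (P (nat_lit 0))) (T.h (T.h (P (nat_lit 0)) (M (nat_lit 46361229398966271))) (P (nat_lit 0))))))), (P (nat_lit 0)), (P (nat_lit 0)), (P (nat_lit 0)), (P (nat_lit 0)), (P (nat_lit 0))]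
def lP11_9 : List (T ℤ) := [(P (nat_lit 0)), (P (nat_lit 0)), (P (nat_lit 0)), (P (nat_lit 0)), (T.h (T.h (T.h (P (nat_lit 0)) (T.h (P (nat_lit 0)) (T.h (M (nat_lit 3694875659226217160114175)) (T.h (P (nat_lit 0)) (T.h (P (nat_lit 5622413032521990144)) (T.h (P (nat_lit 0)) (P (nat_lit 66901103040)))))))) (T.h (P (nat_lit 0)) (T.h (T.h (P (nat_lit 3183026794272382141857792)) (T.h (P (nat_lit 0)) (T.h (P (nat_lit 12023473586606964736)) (T.h (P (nat_lit 0)) (M (nat_lit 12339362182223)))))) (T.h (P (nat_lit 0)) (T.h (T.h (M (nat_lit 10867267944384036863)) (T.h (P (nat_lit 0)) (M (nat_lit 7269907557967)))) (T.h (P (nat_lit 0)) (M (nat_lit 414847854543)))))))) (T.h (T.h (P (nat_lit 0)) (T.h (T.h (P (nat_lit 0)) (T.h (M (nat_lit 9720968019676663644159)) (T.h (P (nat_lit 0)) (M (nat_lit 13634783289147391))))) (T.h (P (nat_lit 0)) (T.h (T.h (P (nat_lit 0)) (P (nat_lit 1464446944149504))) (P (nat_lit 0)))))) (T.h (T.h (T.h (P (nat_lit 3183026794272382141857792))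 (T.h (P (nat_lit 0)) (T.h (P (nat_lit 12023473586606964736)) (T.h (P (nat_lit 0)) (M (nat_lit 12339362182223)))))) (T.h (P (nat_lit 0)) (T.h (T.h (M (nat_lit 1756590969219710975)) (T.h (P (nat_lit 0)) (M (nat_lit 3109208749535)))) (T.h (P (nat_lit 0)) (M (nat_lit 3487612043071)))))) (T.h (T.h (P (nat_lit 0)) (T.h (T.h (P (nat_lit 0)) (P (nat_lit 1464446944149504))) (P (nat_lit 0)))) (T.h (T.h (T.h (M (nat_lit 10867267944384036863)) (T.h (P (nat_lit 0)) (M (nat_lit 7269907557967)))) (T.h (P (nat_lit 0)) (M (nat_lit 3487612043071)))) (T.h (P (nat_lit 0)) (M (nat_lit 414847854543)))))))), (P (nat_lit 0)), (T.h (T.h (T.h (P (nat_lit 1913074788002909210033126375424)) (T.h (P (nat_lit 0)) (T.h (P (nat_lit 5199359598895857829675008)) (T.h (P (nat_lit 0)) (M (nat_lit 6112722512229957631)))))) (T.h (P (nat_lit 0)) (T.h (T.h (M (nat_lit 3332740726800595820740607)) (T.h (P (nat_lit 0)) (M (nat_lit 10961849958608666623)))) (T.h (P (nat_lit 0)) (P (nat_lit 12559055383231987712))))))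 (T.h (T.h (P (nat_lit 0)) (T.h (T.h (P (nat_lit 0)) (T.h (P (nat_lit 1024007544172064014336)) (T.h (P (nat_lit 0)) (P (nat_lit 15744450479783936))))) (T.h (P (nat_lit 0)) (T.h (T.h (P (nat_lit 0)) (P (nat_lit 14634019181559808))) (P (nat_lit 0)))))) (T.h (T.h (T.h (M (nat_lit 3332740726800595820740607)) (T.h (P (nat_lit 0)) (M (nat_lit 10961849958608666623)))) (T.h (P (nat_lit 0)) (M (nat_lit 3140303295243878399)))) (T.h (T.h (P (nat_lit 0)) (T.h (T.h (P (nat_lit 0)) (P (nat_lit 14634019181559808))) (P (nat_lit 0)))) (P (nat_lit 12559055383231987712)))))), (P (nat_lit 0))]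
def lP11_10 : List (T ℤ) := [(P (nat_lit 0)), (P (nat_lit 0)), (P (nat_lit 0)), (T.h (T.h (P (nat_lit 0)) (T.h (T.h (P (nat_lit 0)) (T.h (P (nat_lit 16891830482737279004573696)) (T.h (P (nat_lit 0)) (T.h (P (nat_lit 12859817228681347072)) (T.h (P (nat_lit 0)) (M (nat_lit 31925269390831))))))) (T.h (P (nat_lit 0)) (T.h (T.h (P (nat_lit 0)) (T.h (M (nat_lit 12703284163797581823)) (T.h (P (nat_lit 0)) (M (nat_lit 24339989840903))))) (T.h (P (nat_lit 0)) (T.h (T.h (P (nat_lit 0)) (P (nat_lit 1224391379472))) (P (nat_lit 0)))))))) (T.h (T.h (T.h (M (nat_lit 2441237886410329181374119935)) (T.h (P (nat_lit 0)) (T.h (P (nat_lit 20007270521783738957824)) (T.h (P (nat_lit 0)) (P (nat_lit 73902104232656896)))))) (T.h (P (nat_lit 0)) (T.h (T.h (M (nat_lit 9706054694757277368319)) (T.h (P (nat_lit 0)) (P (nat_lit 12080640778829824)))) (T.h (P (nat_lit 0)) (P (nat_lit 20920248791105536)))))) (T.h (T.h (P (nat_lit 0)) (T.h (T.h (P (nat_lit 0)) (T.h (M (nat_lit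 22225729657950437375)) (T.h (P (nat_lit 0)) (P (nat_lit 37989251531200))))) (T.h (P (nat_lit 0)) (T.h (T.h (P (nat_lit 0)) (M (nat_lit 41183392394039))) (P (nat_lit 0)))))) (T.h (T.h (T.h (M (nat_lit 7248228393908629929983)) (T.h (P (nat_lit 0)) (M (nat_lit 39192303973335039)))) (T.h (P (nat_lit 0)) (M (nat_lit 76298670568603647)))) (T.h (T.h (P (nat_lit 0)) (T.h (T.h (P (nat_lit 0)) (M (nat_lit 1620341992855))) (P (nat_lit 0)))) (M (nat_lit 10697585716723711))))))), (T.h (T.h (P (nat_lit 0)) (T.h (T.h (P (nat_lit 20984392715099619162048167936)) (T.h (P (nat_lit 0)) (T.h (M (nat_lit 8223931429363535314943)) (T.h (P (nat_lit 0)) (P (nat_lit 26419758957936640)))))) (T.h (P (nat_lit 0)) (T.h (T.h (P (nat_lit 19697029159794532941824)) (T.h (P (nat_lit 0)) (M (nat_lit 46708690346541055)))) (T.h (P (nat_lit 0)) (P (nat_lit 15994898100060160))))))) (T.h (T.h (T.h (P (nat_lit 0)) (T.h (M (nat_lit 23016326667677892480073727)) (T.h (P (nat_lit 0)) (T.h (M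 (nat_lit 4386139381002403839)) (T.h (P (nat_lit 0)) (M (nat_lit 14450944174591))))))) (T.h (P (nat_lit 0)) (T.h (T.h (P (nat_lit 0)) (T.h (P (nat_lit 29677769012967112704)) (T.h (P (nat_lit 0)) (M (nat_lit 4144068559599))))) (T.h (P (nat_lit 0)) (T.h (T.h (P (nat_lit 0)) (P (nat_lit 50708355223312))) (P (nat_lit 0))))))) (T.h (T.h (P (nat_lit 0)) (T.h (T.h (M (nat_lit 17505257867323948138495)) (T.h (P (nat_lit 0)) (M (nat_lit 738227850690559)))) (T.h (P (nat_lit 0)) (M (nat_lit 33918669731856383))))) (T.h (T.h (T.h (P (nat_lit 0)) (T.h (P (nat_lit 3997095405463535616)) (T.h (P (nat_lit 0)) (P (nat_lit 6020971354256))))) (T.h (P (nat_lit 0)) (T.h (T.h (P (nat_lit 0)) (P (nat_lit 1500860940832))) (P (nat_lit 0))))) (T.h (T.h (P (nat_lit 0)) (M (nat_lit 93291811182837759))) (T.h (T.h (T.h (P (nat_lit 0)) (P (nat_lit 40339979884256))) (P (nat_lit 0))) (P (nat_lit 0)))))))), (T.h (T.h (P (nat_lit 0)) (T.h (T.h (P (nat_lit 0)) (T.h (M (nat_lit 2141525382526395345797119))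 (T.h (P (nat_lit 0)) (T.h (M (nat_lit 50401333849746309119)) (T.h (P (nat_lit 0)) (P (nat_lit 8815688868816))))))) (T.h (P (nat_lit 0)) (T.h (T.h (P (nat_lit 0)) (T.h (M (nat_lit 379425864766455807)) (T.h (P (nat_lit 0)) (P (nat_lit 22388334389568))))) (T.h (P (nat_lit 0)) (T.h (T.h (P (nat_lit 0)) (M (nat_lit 11562789853775))) (P (nat_lit 0)))))))) (T.h (T.h (T.h (P (nat_lit 2651591200384203542287613952)) (T.h (P (nat_lit 0)) (T.h (M (nat_lit 34307800470057419538431)) (T.h (P (nat_lit 0)) (M (nat_lit 17317471317622783)))))) (T.h (P (nat_lit 0)) (T.h (T.h (P (nat_lit 82958915855056434626560)) (T.h (P (nat_lit 0)) (P (nat_lit 16751951758491648)))) (T.h (P (nat_lit 0)) (P (nat_lit 136759054275379200)))))) (T.h (T.h (P (nat_lit 0)) (T.h (T.h (P (nat_lit 0)) (T.h (M (nat_lit 92849825487106605055)) (T.h (P (nat_lit 0)) (M (nat_lit 8955757893743))))) (T.h (P (nat_lit 0)) (T.h (T.h (P (nat_lit 0)) (P (nat_lit 29719564744560))) (P (nat_lit 0)))))) (T.h (T.h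 (T.h (P (nat_lit 466996290546881789952)) (T.h (P (nat_lit 0)) (P (nat_lit 139925064433532928)))) (T.h (P (nat_lit 0)) (P (nat_lit 458191854054440960)))) (T.h (T.h (P (nat_lit 0)) (T.h (T.h (P (nat_lit 0)) (M (nat_lit 20837185961087))) (P (nat_lit 0)))) (M (nat_lit 75855871420694527))))))), (T.h (T.h (P (nat_lit 0)) (T.h (T.h (M (nat_lit 20545763807070606543294562303)) (T.h (P (nat_lit 0)) (T.h (P (nat_lit 12135496075166393303040)) (T.h (P (nat_lit 0)) (M (nat_lit 35881187698753535)))))) (T.h (P (nat_lit 0)) (T.h (T.h (M (nat_lit 19160979863630824603647)) (T.h (P (nat_lit 0)) (P (nat_lit 52158500142071808)))) (T.h (P (nat_lit 0)) (M (nat_lit 14971273895362559))))))) (T.h (T.h (T.h (P (nat_lit 0)) (T.h (P (nat_lit 30576525179669562771111936)) (T.h (P (nat_lit 0)) (T.h (M (nat_lit 4299253708392235007)) (T.h (P (nat_lit 0)) (P (nat_lit 8704128682512))))))) (T.h (P (nat_lit 0)) (T.h (T.h (P (nat_lit 0)) (T.h (M (nat_lit 60109996656355704831)) (T.h (P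 (nat_lit 0)) (P (nat_lit 18560116891440))))) (T.h (P (nat_lit 0)) (T.h (T.h (P (nat_lit 0)) (M (nat_lit 53556555107663))) (P (nat_lit 0))))))) (T.h (T.h (P (nat_lit 0)) (T.h (T.h (P (nat_lit 18225494033046599368704)) (T.h (P (nat_lit 0)) (P (nat_lit 43606495874285568)))) (T.h (P (nat_lit 0)) (P (nat_lit 54131820061376512))))) (T.h (T.h (T.h (P (nat_lit 0)) (T.h (M (nat_lit 14785903864523522047)) (T.h (P (nat_lit 0)) (M (nat_lit 11727087712703))))) (T.h (P (nat_lit 0)) (T.h (T.h (P (nat_lit 0)) (P (nat_lit 22287634534368))) (P (nat_lit 0))))) (T.h (T.h (P (nat_lit 0)) (P (nat_lit 79124825958711296))) (T.h (T.h (T.h (P (nat_lit 0)) (M (nat_lit 38574100311983))) (P (nat_lit 0))) (P (nat_lit 0)))))))), (T.h (T.h (P (nat_lit 0)) (T.h (T.h (P (nat_lit 0)) (T.h (P (nat_lit 2731529024111075150266368)) (T.h (P (nat_lit 0)) (P (nat_lit 2922520119437426688))))) (T.h (P (nat_lit 0)) (T.h (T.h (P (nat_lit 0)) (M (nat_lit 14446821862908362751))) (P (nat_lit 0))))))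 (T.h (T.h (T.h (P (nat_lit 2431989740396183413638299648)) (T.h (P (nat_lit 0)) (T.h (M (nat_lit 2389731705158014861311)) (T.h (P (nat_lit 0)) (M (nat_lit 737280053051391)))))) (T.h (P (nat_lit 0)) (T.h (T.h (M (nat_lit 67764700985457142398975)) (T.h (P (nat_lit 0)) (M (nat_lit 13085180765306879)))) (T.h (P (nat_lit 0)) (M (nat_lit 157432470344531967)))))) (T.h (T.h (P (nat_lit 0)) (T.h (T.h (P (nat_lit 0)) (P (nat_lit 43502318328160976896))) (P (nat_lit 0)))) (T.h (T.h (T.h (P (nat_lit 13155666161854431887360)) (T.h (P (nat_lit 0)) (M (nat_lit 84716766919393279)))) (T.h (P (nat_lit 0)) (M (nat_lit 344310799049883647)))) (T.h (P (nat_lit 0)) (P (nat_lit 86333522932170752)))))))]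
def lP11_11 : List (T ℤ) := [(P (nat_lit 0)), (P (nat_lit 0)), (T.h (T.h (T.h (P (nat_lit 0)) (T.h (P (nat_lit 0)) (T.h (P (nat_lit 3799658250128866714583040)) (T.h (P (nat_lit 0)) (T.h (M (nat_lit 8697808965217550335)) (T.h (P (nat_lit 0)) (P (nat_lit 7331235369216)))))))) (T.h (P (nat_lit 0)) (T.h (T.h (P (nat_lit 43317758592907383173808128)) (T.h (P (nat_lit 0)) (T.h (M (nat_lit 4301878864746905599)) (T.h (P (nat_lit 0)) (M (nat_lit 23316547824863)))))) (T.h (P (nat_lit 0)) (T.h (T.h (M (nat_lit 31900998194440437759)) (T.h (P (nat_lit 0)) (M (nat_lit 19625802646735)))) (T.h (P (nat_lit 0)) (M (nat_lit 1454396833919)))))))) (T.h (T.h (P (nat_lit 0)) (T.h (T.h (P (nat_lit 0)) (T.h (P (nat_lit 4765318764970737926144)) (T.h (P (nat_lit 0)) (P (nat_lit 47129979740487680))))) (T.h (P (nat_lit 0)) (T.h (T.h (P (nat_lit 0)) (P (nat_lit 69438054300712960))) (P (nat_lit 0)))))) (T.h (T.h (T.h (M (nat_lit 25209046411597747371114495)) (T.h (P (nat_lit 0))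 (T.h (P (nat_lit 43725222482997673984)) (T.h (P (nat_lit 0)) (M (nat_lit 14535246081599)))))) (T.h (P (nat_lit 0)) (T.h (T.h (P (nat_lit 15337956339561267200)) (T.h (P (nat_lit 0)) (P (nat_lit 39895253467376)))) (T.h (P (nat_lit 0)) (P (nat_lit 37463420197856)))))) (T.h (T.h (P (nat_lit 0)) (T.h (T.h (P (nat_lit 0)) (M (nat_lit 31364363596070911))) (P (nat_lit 0)))) (T.h (T.h (T.h (P (nat_lit 6278840525973880832)) (T.h (P (nat_lit 0)) (P (nat_lit 26376776201776)))) (T.h (P (nat_lit 0)) (P (nat_lit 6690205662128)))) (T.h (P (nat_lit 0)) (M (nat_lit 9250229793791)))))))), (T.h (T.h (T.h (P (nat_lit 0)) (T.h (P (nat_lit 1980409599325634221637107712)) (T.h (P (nat_lit 0)) (T.h (M (nat_lit 15055359175053937737727)) (T.h (P (nat_lit 0)) (P (nat_lit 3262392835637248))))))) (T.h (P (nat_lit 0)) (T.h (T.h (P (nat_lit 0)) (T.h (M (nat_lit 3622323455901260840959)) (T.h (P (nat_lit 0)) (M (nat_lit 38455619674882047))))) (T.h (P (nat_lit 0)) (T.h (T.h (P (nat_lit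 0)) (M (nat_lit 32889710490746879))) (P (nat_lit 0))))))) (T.h (T.h (P (nat_lit 0)) (T.h (T.h (M (nat_lit 17906321837193087961530367)) (T.h (P (nat_lit 0)) (T.h (M (nat_lit 4387270251864129535)) (T.h (P (nat_lit 0)) (P (nat_lit 3163502112640)))))) (T.h (P (nat_lit 0)) (T.h (T.h (M (nat_lit 28621299218955370495)) (T.h (P (nat_lit 0)) (P (nat_lit 7964610238816)))) (T.h (P (nat_lit 0)) (M (nat_lit 57105588554927))))))) (T.h (T.h (T.h (P (nat_lit 0)) (T.h (M (nat_lit 3622323455901260840959)) (T.h (P (nat_lit 0)) (M (nat_lit 38455619674882047))))) (T.h (P (nat_lit 0)) (T.h (T.h (P (nat_lit 0)) (P (nat_lit 53787962859716608))) (P (nat_lit 0))))) (T.h (T.h (P (nat_lit 0)) (T.h (T.h (M (nat_lit 28621299218955370495)) (T.h (P (nat_lit 0)) (P (nat_lit 7964610238816)))) (T.h (P (nat_lit 0)) (M (nat_lit 33666772764575))))) (T.h (T.h (T.h (P (nat_lit 0)) (M (nat_lit 32889710490746879))) (P (nat_lit 0))) (T.h (T.h (P (nat_lit 0)) (M (nat_lit 57105588554927)))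 (P (nat_lit 0)))))))), (T.h (T.h (T.h (M (nat_lit 8912167443391824518145684537343)) (T.h (P (nat_lit 0)) (T.h (P (nat_lit 21667585315231552363298816)) (T.h (P (nat_lit 0)) (T.h (P (nat_lit 5849706572397150208)) (T.h (P (nat_lit 0)) (P (nat_lit 954741325344)))))))) (T.h (P (nat_lit 0)) (T.h (T.h (M (nat_lit 62380455411995176119304191)) (T.h (P (nat_lit 0)) (T.h (P (nat_lit 20240455921282580480)) (T.h (P (nat_lit 0)) (P (nat_lit 45145893431616)))))) (T.h (P (nat_lit 0)) (T.h (T.h (P (nat_lit 33971462972094021632)) (T.h (P (nat_lit 0)) (P (nat_lit 17775325846896)))) (T.h (P (nat_lit 0)) (P (nat_lit 8789193732672)))))))) (T.h (T.h (P (nat_lit 0)) (T.h (T.h (P (nat_lit 0)) (T.h (P (nat_lit 28755281158888501542912)) (T.h (P (nat_lit 0)) (M (nat_lit 43515482294059007))))) (T.h (P (nat_lit 0)) (T.h (T.h (P (nat_lit 0)) (M (nat_lit 169860720897228799))) (P (nat_lit 0)))))) (T.h (T.h (T.h (M (nat_lit 4622326605712981764341759)) (T.h (P (nat_lit 0)) (T.h (P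 (nat_lit 119646973549155975168)) (T.h (P (nat_lit 0)) (P (nat_lit 45145893431616)))))) (T.h (P (nat_lit 0)) (T.h (T.h (P (nat_lit 161544671715240443904)) (T.h (P (nat_lit 0)) (P (nat_lit 12074435503008)))) (T.h (P (nat_lit 0)) (M (nat_lit 21055996758767)))))) (T.h (T.h (P (nat_lit 0)) (T.h (T.h (P (nat_lit 0)) (P (nat_lit 36243501004947456))) (P (nat_lit 0)))) (T.h (T.h (T.h (M (nat_lit 536184026336067583)) (T.h (P (nat_lit 0)) (P (nat_lit 17775325846896)))) (T.h (P (nat_lit 0)) (M (nat_lit 21055996758767)))) (T.h (P (nat_lit 0)) (P (nat_lit 8789193732672)))))))), (T.h (T.h (T.h (P (nat_lit 0)) (T.h (M (nat_lit 15405244956953180929827799039)) (T.h (P (nat_lit 0)) (T.h (P (nat_lit 34299267896437284798464)) (T.h (P (nat_lit 0)) (P (nat_lit 25436756187906048))))))) (T.h (P (nat_lit 0)) (T.h (T.h (P (nat_lit 0)) (T.h (P (nat_lit 58377955448778397843456)) (T.h (P (nat_lit 0)) (M (nat_lit 50331468078694399))))) (T.h (P (nat_lit 0)) (T.h (T.h (P (nat_lit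 0)) (P (nat_lit 25069513072984064))) (P (nat_lit 0))))))) (T.h (T.h (P (nat_lit 0)) (T.h (T.h (P (nat_lit 26414870613408005553651712)) (T.h (P (nat_lit 0)) (T.h (M (nat_lit 319395816159282462719)) (T.h (P (nat_lit 0)) (P (nat_lit 93337690111776)))))) (T.h (P (nat_lit 0)) (T.h (T.h (P (nat_lit 17283595094275915776)) (T.h (P (nat_lit 0)) (M (nat_lit 38582463213215)))) (T.h (P (nat_lit 0)) (P (nat_lit 68505149127168))))))) (T.h (T.h (T.h (P (nat_lit 0)) (T.h (P (nat_lit 58377955448778397843456)) (T.h (P (nat_lit 0)) (M (nat_lit 50331468078694399))))) (T.h (P (nat_lit 0)) (T.h (T.h (P (nat_lit 0)) (M (nat_lit 20279104758906879))) (P (nat_lit 0))))) (T.h (T.h (P (nat_lit 0)) (T.h (T.h (P (nat_lit 17283595094275915776)) (T.h (P (nat_lit 0)) (M (nat_lit 38582463213215)))) (T.h (P (nat_lit 0)) (P (nat_lit 31906044562176))))) (T.h (T.h (T.h (P (nat_lit 0)) (P (nat_lit 25069513072984064))) (P (nat_lit 0))) (T.h (T.h (P (nat_lit 0)) (P (nat_lit 68505149127168)))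 (P (nat_lit 0)))))))), (T.h (T.h (T.h (P (nat_lit 12287190180425606716005116018688)) (T.h (P (nat_lit 0)) (T.h (M (nat_lit 3836605376147847800422399)) (T.h (P (nat_lit 0)) (M (nat_lit 34747549758858985471)))))) (T.h (P (nat_lit 0)) (T.h (T.h (M (nat_lit 822633096902632366145535)) (T.h (P (nat_lit 0)) (M (nat_lit 65115326894967881727)))) (T.h (P (nat_lit 0)) (M (nat_lit 6177230466576285695)))))) (T.h (T.h (P (nat_lit 0)) (T.h (T.h (P (nat_lit 0)) (T.h (P (nat_lit 126306685842223500623872)) (T.h (P (nat_lit 0)) (M (nat_lit 101851870552260607))))) (T.h (P (nat_lit 0)) (T.h (T.h (P (nat_lit 0)) (P (nat_lit 56164324190060544))) (P (nat_lit 0)))))) (T.h (T.h (T.h (M (nat_lit 822633096902632366145535)) (T.h (P (nat_lit 0)) (M (nat_lit 65115326894967881727)))) (T.h (P (nat_lit 0)) (M (nat_lit 183649484888055218175)))) (T.h (T.h (P (nat_lit 0)) (T.h (T.h (P (nat_lit 0)) (P (nat_lit 56164324190060544))) (P (nat_lit 0)))) (M (nat_lit 6177230466576285695)))))),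 (P (nat_lit 0))]
def lP11_12 : List (T ℤ) := [(P (nat_lit 0)), (T.h (T.h (P (nat_lit 0)) (T.h (T.h (P (nat_lit 0)) (T.h (P (nat_lit 49272808432764750105935872)) (T.h (P (nat_lit 0)) (T.h (P (nat_lit 2582384139558715392)) (T.h (P (nat_lit 0)) (M (nat_lit 41936298832791))))))) (T.h (P (nat_lit 0)) (T.h (T.h (P (nat_lit 0)) (T.h (P (nat_lit 26070603246705049600)) (T.h (P (nat_lit 0)) (M (nat_lit 99518722208543))))) (T.h (P (nat_lit 0)) (T.h (T.h (P (nat_lit 0)) (M (nat_lit 60155240630727))) (P (nat_lit 0)))))))) (T.h (T.h (T.h (P (nat_lit 7067883162817083330290253824)) (T.h (P (nat_lit 0)) (T.h (M (nat_lit 91738289786465600667647)) (T.h (P (nat_lit 0)) (M (nat_lit 6688657935761407)))))) (T.h (P (nat_lit 0)) (T.h (T.h (M (nat_lit 59944548680957257842687)) (T.h (P (nat_lit 0)) (P (nat_lit 78475825977229312)))) (T.h (P (nat_lit 0)) (P (nat_lit 33043563204902912)))))) (T.h (T.h (P (nat_lit 0)) (T.h (T.h (P (nat_lit 0)) (T.h (M (nat_lit 23196300775184662527))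 (T.h (P (nat_lit 0)) (P (nat_lit 54142757789336))))) (T.h (P (nat_lit 0)) (T.h (T.h (P (nat_lit 0)) (P (nat_lit 136896221337896))) (P (nat_lit 0)))))) (T.h (T.h (T.h (P (nat_lit 34241053326966138077184)) (T.h (P (nat_lit 0)) (M (nat_lit 87688970408525823)))) (T.h (P (nat_lit 0)) (M (nat_lit 14972462036058111)))) (T.h (T.h (P (nat_lit 0)) (T.h (T.h (P (nat_lit 0)) (P (nat_lit 10409735701408))) (P (nat_lit 0)))) (M (nat_lit 6241919175884799))))))), (T.h (T.h (P (nat_lit 0)) (T.h (T.h (M (nat_lit 17659951530170901767705853951)) (T.h (P (nat_lit 0)) (T.h (P (nat_lit 58650704618747651424256)) (T.h (P (nat_lit 0)) (P (nat_lit 71761040527261696)))))) (T.h (P (nat_lit 0)) (T.h (T.h (P (nat_lit 5564071054108727967744)) (T.h (P (nat_lit 0)) (P (nat_lit 34555186056429568)))) (T.h (P (nat_lit 0)) (P (nat_lit 11843724323946496))))))) (T.h (T.h (T.h (P (nat_lit 0)) (T.h (M (nat_lit 29958964082896697032703999)) (T.h (P (nat_lit 0)) (T.h (P (nat_lit 16255017564403400704))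 (T.h (P (nat_lit 0)) (M (nat_lit 35685065481487))))))) (T.h (P (nat_lit 0)) (T.h (T.h (P (nat_lit 0)) (T.h (M (nat_lit 110232834500051599359)) (T.h (P (nat_lit 0)) (M (nat_lit 1228216181215))))) (T.h (P (nat_lit 0)) (T.h (T.h (P (nat_lit 0)) (M (nat_lit 6049335980319))) (P (nat_lit 0))))))) (T.h (T.h (P (nat_lit 0)) (T.h (T.h (P (nat_lit 62838136550265211322368)) (T.h (P (nat_lit 0)) (M (nat_lit 116121369701367807)))) (T.h (P (nat_lit 0)) (P (nat_lit 17784403227607040))))) (T.h (T.h (T.h (P (nat_lit 0)) (T.h (M (nat_lit 38902030640963649535)) (T.h (P (nat_lit 0)) (M (nat_lit 13381475394175))))) (T.h (P (nat_lit 0)) (T.h (T.h (P (nat_lit 0)) (P (nat_lit 31589154588192))) (P (nat_lit 0))))) (T.h (T.h (P (nat_lit 0)) (P (nat_lit 35350754512633856))) (T.h (T.h (T.h (P (nat_lit 0)) (P (nat_lit 15958812818176))) (P (nat_lit 0))) (P (nat_lit 0)))))))), (T.h (T.h (P (nat_lit 0)) (T.h (T.h (P (nat_lit 0)) (T.h (M (nat_lit 138527131665212932580442111)) (T.h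 (P (nat_lit 0)) (T.h (P (nat_lit 162723255905528315904)) (T.h (P (nat_lit 0)) (P (nat_lit 60196247186208))))))) (T.h (P (nat_lit 0)) (T.h (T.h (P (nat_lit 0)) (T.h (M (nat_lit 3958442399667060735)) (T.h (P (nat_lit 0)) (P (nat_lit 39743026870800))))) (T.h (P (nat_lit 0)) (T.h (T.h (P (nat_lit 0)) (M (nat_lit 1438918448639))) (P (nat_lit 0)))))))) (T.h (T.h (T.h (P (nat_lit 9534425656335056731591671808)) (T.h (P (nat_lit 0)) (T.h (M (nat_lit 67804970372874798891007)) (T.h (P (nat_lit 0)) (M (nat_lit 16291914546905087)))))) (T.h (P (nat_lit 0)) (T.h (T.h (P (nat_lit 54097377746224613949440)) (T.h (P (nat_lit 0)) (M (nat_lit 283417121006485503)))) (T.h (P (nat_lit 0)) (P (nat_lit 89425406900207616)))))) (T.h (T.h (P (nat_lit 0)) (T.h (T.h (P (nat_lit 0)) (T.h (P (nat_lit 37123236211443367936)) (T.h (P (nat_lit 0)) (M (nat_lit 95885928699887))))) (T.h (P (nat_lit 0)) (T.h (T.h (P (nat_lit 0)) (P (nat_lit 18532277689920))) (P (nat_lit 0)))))) (T.h (T.h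 (T.h (M (nat_lit 96831852276130993143807)) (T.h (P (nat_lit 0)) (M (nat_lit 122346863733080063)))) (T.h (P (nat_lit 0)) (M (nat_lit 1709138328387583)))) (T.h (T.h (P (nat_lit 0)) (T.h (T.h (P (nat_lit 0)) (M (nat_lit 858351454991))) (P (nat_lit 0)))) (M (nat_lit 15079038065934335))))))), (T.h (T.h (P (nat_lit 0)) (T.h (T.h (M (nat_lit 3204733460397538933508931583)) (T.h (P (nat_lit 0)) (T.h (P (nat_lit 189533633965619006144512)) (T.h (P (nat_lit 0)) (M (nat_lit 159947440549658623)))))) (T.h (P (nat_lit 0)) (T.h (T.h (M (nat_lit 69418260137388823019519)) (T.h (P (nat_lit 0)) (P (nat_lit 58042506824548352)))) (T.h (P (nat_lit 0)) (M (nat_lit 69814345750593535))))))) (T.h (T.h (T.h (P (nat_lit 0)) (T.h (P (nat_lit 10272478443104322537390080)) (T.h (P (nat_lit 0)) (T.h (P (nat_lit 92046784355859693568)) (T.h (P (nat_lit 0)) (P (nat_lit 32752559787552))))))) (T.h (P (nat_lit 0)) (T.h (T.h (P (nat_lit 0)) (T.h (M (nat_lit 25283953647354380287)) (T.h (P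 (nat_lit 0)) (M (nat_lit 3247963595855))))) (T.h (P (nat_lit 0)) (T.h (T.h (P (nat_lit 0)) (M (nat_lit 139411251903167))) (P (nat_lit 0))))))) (T.h (T.h (P (nat_lit 0)) (T.h (T.h (M (nat_lit 58299763117793543716863)) (T.h (P (nat_lit 0)) (P (nat_lit 196731980638601216)))) (T.h (P (nat_lit 0)) (M (nat_lit 33821400822153215))))) (T.h (T.h (T.h (P (nat_lit 0)) (T.h (P (nat_lit 103460306243349905408)) (T.h (P (nat_lit 0)) (P (nat_lit 12834186665184))))) (T.h (P (nat_lit 0)) (T.h (T.h (P (nat_lit 0)) (M (nat_lit 215827605369791))) (P (nat_lit 0))))) (T.h (T.h (P (nat_lit 0)) (P (nat_lit 118297934862188544))) (T.h (T.h (T.h (P (nat_lit 0)) (M (nat_lit 45849852608687))) (P (nat_lit 0))) (P (nat_lit 0)))))))), (T.h (T.h (P (nat_lit 0)) (T.h (T.h (P (nat_lit 0)) (T.h (M (nat_lit 18488068673796538873413631)) (T.h (P (nat_lit 0)) (P (nat_lit 13067073905649254400))))) (T.h (P (nat_lit 0)) (T.h (T.h (P (nat_lit 0)) (M (nat_lit 3412449340189310975))) (P (nat_lit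 0)))))) (T.h (T.h (T.h (M (nat_lit 1043116937690069580088606719)) (T.h (P (nat_lit 0)) (T.h (P (nat_lit 12925985027821664206848)) (T.h (P (nat_lit 0)) (M (nat_lit 70522602099113983)))))) (T.h (P (nat_lit 0)) (T.h (T.h (M (nat_lit 101464149854981390860287)) (T.h (P (nat_lit 0)) (P (nat_lit 21950935167303680)))) (T.h (P (nat_lit 0)) (M (nat_lit 273430289931173887)))))) (T.h (T.h (P (nat_lit 0)) (T.h (T.h (P (nat_lit 0)) (M (nat_lit 3225623507505250303))) (P (nat_lit 0)))) (T.h (T.h (T.h (P (nat_lit 61764923110046956519424)) (T.h (P (nat_lit 0)) (M (nat_lit 121260396594069503)))) (T.h (P (nat_lit 0)) (M (nat_lit 293207130200866815)))) (T.h (P (nat_lit 0)) (P (nat_lit 114189388980387840))))))), (P (nat_lit 0)), (T.h (T.h (T.h (P (nat_lit 0)) (T.h (P (nat_lit 0)) (T.h (P (nat_lit 52258675845412972629327872)) (T.h (P (nat_lit 0)) (T.h (M (nat_lit 58351935496879341567)) (T.h (P (nat_lit 0)) (M (nat_lit 9288634688367)))))))) (T.h (P (nat_lit 0)) (T.h (T.h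 (M (nat_lit 13494300823078543525150719)) (T.h (P (nat_lit 0)) (T.h (P (nat_lit 86667801961716252672)) (T.h (P (nat_lit 0)) (M (nat_lit 54719293742751)))))) (T.h (P (nat_lit 0)) (T.h (T.h (P (nat_lit 17440683627481399296)) (T.h (P (nat_lit 0)) (M (nat_lit 6655236442255)))) (T.h (P (nat_lit 0)) (M (nat_lit 988191876863)))))))) (T.h (T.h (P (nat_lit 0)) (T.h (T.h (P (nat_lit 0)) (T.h (M (nat_lit 54076812567600110239743)) (T.h (P (nat_lit 0)) (M (nat_lit 5006680669683711))))) (T.h (P (nat_lit 0)) (T.h (T.h (P (nat_lit 0)) (M (nat_lit 57464550673154047))) (P (nat_lit 0)))))) (T.h (T.h (T.h (M (nat_lit 1609132170181007252652031)) (T.h (P (nat_lit 0)) (T.h (P (nat_lit 17689493109089501184)) (T.h (P (nat_lit 0)) (P (nat_lit 26623092074928)))))) (T.h (P (nat_lit 0)) (T.h (T.h (P (nat_lit 70884643624693268480)) (T.h (P (nat_lit 0)) (M (nat_lit 10519831128239)))) (T.h (P (nat_lit 0)) (M (nat_lit 71297188238751)))))) (T.h (T.h (P (nat_lit 0)) (T.h (T.h (P (nat_lit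 0)) (M (nat_lit 48449353735602175))) (P (nat_lit 0)))) (T.h (T.h (T.h (M (nat_lit 26733516278749724671)) (T.h (P (nat_lit 0)) (P (nat_lit 18976513485680)))) (T.h (P (nat_lit 0)) (P (nat_lit 26438549606928)))) (T.h (P (nat_lit 0)) (M (nat_lit 7874904922431))))))))]
def lP11_13 : List (T ℤ) := [(T.h (T.h (T.h (P (nat_lit 0)) (T.h (M (nat_lit 17659951530170901767705853951)) (T.h (P (nat_lit 0)) (T.h (P (nat_lit 5564071054108727967744)) (T.h (P (nat_lit 0)) (P (nat_lit 11843724323946496))))))) (T.h (P (nat_lit 0)) (T.h (T.h (P (nat_lit 0)) (T.h (P (nat_lit 58650704618747651424256)) (T.h (P (nat_lit 0)) (P (nat_lit 34555186056429568))))) (T.h (P (nat_lit 0)) (T.h (T.h (P (nat_lit 0)) (P (nat_lit 71761040527261696))) (P (nat_lit 0))))))) (T.h (T.h (P (nat_lit 0)) (T.h (T.h (M (nat_lit 29958964082896697032703999)) (T.h (P (nat_lit 0)) (T.h (M (nat_lit 110232834500051599359)) (T.h (P (nat_lit 0)) (M (nat_lit 6049335980319)))))) (T.h (P (nat_lit 0)) (T.h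 (T.h (P (nat_lit 16255017564403400704)) (T.h (P (nat_lit 0)) (M (nat_lit 1228216181215)))) (T.h (P (nat_lit 0)) (M (nat_lit 35685065481487))))))) (T.h (T.h (T.h (P (nat_lit 0)) (T.h (P (nat_lit 62838136550265211322368)) (T.h (P (nat_lit 0)) (P (nat_lit 17784403227607040))))) (T.h (P (nat_lit 0)) (T.h (T.h (P (nat_lit 0)) (M (nat_lit 116121369701367807))) (P (nat_lit 0))))) (T.h (T.h (P (nat_lit 0)) (T.h (T.h (M (nat_lit 38902030640963649535)) (T.h (P (nat_lit 0)) (P (nat_lit 31589154588192)))) (T.h (P (nat_lit 0)) (M (nat_lit 13381475394175))))) (T.h (T.h (T.h (P (nat_lit 0)) (P (nat_lit 35350754512633856))) (P (nat_lit 0))) (T.h (T.h (P (nat_lit 0)) (P (nat_lit 15958812818176))) (P (nat_lit 0)))))))), (T.h (T.h (T.h (M (nat_lit 25335067314161138281779312984063)) (T.h (P (nat_lit 0)) (T.h (M (nat_lit 15317507951379109321375743)) (T.h (P (nat_lit 0)) (T.h (P (nat_lit 8135451317716910080)) (T.h (P (nat_lit 0)) (P (nat_lit 2902497922080)))))))) (T.h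 (P (nat_lit 0)) (T.h (T.h (P (nat_lit 43096997095385071381118976)) (T.h (P (nat_lit 0)) (T.h (P (nat_lit 74128886958156414976)) (T.h (P (nat_lit 0)) (P (nat_lit 16527146365152)))))) (T.h (P (nat_lit 0)) (T.h (T.h (M (nat_lit 78755181996053364735)) (T.h (P (nat_lit 0)) (P (nat_lit 16527146365152)))) (T.h (P (nat_lit 0)) (P (nat_lit 2902497922080)))))))) (T.h (T.h (P (nat_lit 0)) (T.h (T.h (P (nat_lit 0)) (T.h (P (nat_lit 281068597270204595044352)) (T.h (P (nat_lit 0)) (P (nat_lit 10121017735643136))))) (T.h (P (nat_lit 0)) (T.h (T.h (P (nat_lit 0)) (M (nat_lit 137938028490391551))) (P (nat_lit 0)))))) (T.h (T.h (T.h (P (nat_lit 84859068295587606585933824)) (T.h (P (nat_lit 0)) (T.h (P (nat_lit 221996989788675112960)) (T.h (P (nat_lit 0)) (P (nat_lit 4499002599360)))))) (T.h (P (nat_lit 0)) (T.h (T.h (P (nat_lit 85712211110724108288)) (T.h (P (nat_lit 0)) (M (nat_lit 47898110021855)))) (T.h (P (nat_lit 0)) (P (nat_lit 4499002599360)))))) (T.h (T.h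 (P (nat_lit 0)) (T.h (T.h (P (nat_lit 0)) (M (nat_lit 122666095770337279))) (P (nat_lit 0)))) (T.h (T.h (T.h (P (nat_lit 77219276455789199360)) (T.h (P (nat_lit 0)) (P (nat_lit 39655346396160)))) (T.h (P (nat_lit 0)) (P (nat_lit 39655346396160)))) (T.h (P (nat_lit 0)) (P (nat_lit 12970141598880)))))))), (T.h (T.h (T.h (P (nat_lit 0)) (T.h (P (nat_lit 67185566505562312745714450432)) (T.h (P (nat_lit 0)) (T.h (P (nat_lit 26688500089316853153792)) (T.h (P (nat_lit 0)) (P (nat_lit 30121564165390336))))))) (T.h (P (nat_lit 0)) (T.h (T.h (P (nat_lit 0)) (T.h (M (nat_lit 118456684448776665956351)) (T.h (P (nat_lit 0)) (P (nat_lit 114024985828311040))))) (T.h (P (nat_lit 0)) (T.h (T.h (P (nat_lit 0)) (P (nat_lit 108129119820283904))) (P (nat_lit 0))))))) (T.h (T.h (P (nat_lit 0)) (T.h (T.h (P (nat_lit 84474593176145620608483328)) (T.h (P (nat_lit 0)) (T.h (P (nat_lit 291820826445081477120)) (T.h (P (nat_lit 0)) (M (nat_lit 22262947040159)))))) (T.h (P (nat_lit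 0)) (T.h (T.h (P (nat_lit 70989944265199583232)) (T.h (P (nat_lit 0)) (M (nat_lit 165739260395375)))) (T.h (P (nat_lit 0)) (P (nat_lit 77442952494384))))))) (T.h (T.h (T.h (P (nat_lit 0)) (T.h (M (nat_lit 101452401124637860167679)) (T.h (P (nat_lit 0)) (P (nat_lit 91725410818899968))))) (T.h (P (nat_lit 0)) (T.h (T.h (P (nat_lit 0)) (P (nat_lit 368374066637406208))) (P (nat_lit 0))))) (T.h (T.h (P (nat_lit 0)) (T.h (T.h (P (nat_lit 67279472290785394688)) (T.h (P (nat_lit 0)) (M (nat_lit 127505483758511)))) (T.h (P (nat_lit 0)) (M (nat_lit 2395349943695))))) (T.h (T.h (T.h (P (nat_lit 0)) (M (nat_lit 75789866623516671))) (P (nat_lit 0))) (T.h (T.h (P (nat_lit 0)) (P (nat_lit 31976606021472))) (P (nat_lit 0)))))))), (T.h (T.h (T.h (P (nat_lit 19245058767597118072917487255552)) (T.h (P (nat_lit 0)) (T.h (M (nat_lit 49064869503036694296788991)) (T.h (P (nat_lit 0)) (M (nat_lit 58062886536468234239)))))) (T.h (P (nat_lit 0)) (T.h (T.h (M (nat_lit 8849924118460195124805631))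 (T.h (P (nat_lit 0)) (M (nat_lit 78300033919217565695)))) (T.h (P (nat_lit 0)) (P (nat_lit 22472147538827804672)))))) (T.h (T.h (P (nat_lit 0)) (T.h (T.h (P (nat_lit 0)) (T.h (M (nat_lit 171507145602860729761791)) (T.h (P (nat_lit 0)) (M (nat_lit 11742295132012543))))) (T.h (P (nat_lit 0)) (T.h (T.h (P (nat_lit 0)) (P (nat_lit 200573530775552000))) (P (nat_lit 0)))))) (T.h (T.h (T.h (P (nat_lit 59825625941170914374713344)) (T.h (P (nat_lit 0)) (M (nat_lit 45880012597962473471)))) (T.h (P (nat_lit 0)) (M (nat_lit 218013063006075748351)))) (T.h (T.h (P (nat_lit 0)) (T.h (T.h (P (nat_lit 0)) (P (nat_lit 189747104945602560))) (P (nat_lit 0)))) (P (nat_lit 12951678390250766336)))))), (T.h (T.h (P (nat_lit 0)) (T.h (T.h (P (nat_lit 0)) (T.h (P (nat_lit 4343446238316046827126784)) (T.h (P (nat_lit 0)) (T.h (M (nat_lit 13799370759702839295)) (T.h (P (nat_lit 0)) (P (nat_lit 6158209502384))))))) (T.h (P (nat_lit 0)) (T.h (T.h (P (nat_lit 0)) (T.h (P (nat_lit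 18860231165074210816)) (T.h (P (nat_lit 0)) (M (nat_lit 20904433505623))))) (T.h (P (nat_lit 0)) (T.h (T.h (P (nat_lit 0)) (M (nat_lit 5980972211343))) (P (nat_lit 0)))))))) (T.h (T.h (T.h (M (nat_lit 1019329464602023528524414975)) (T.h (P (nat_lit 0)) (T.h (P (nat_lit 24459377428626334023680)) (T.h (P (nat_lit 0)) (P (nat_lit 9790621656383488)))))) (T.h (P (nat_lit 0)) (T.h (T.h (P (nat_lit 28409884788917750726656)) (T.h (P (nat_lit 0)) (M (nat_lit 50291674965082111)))) (T.h (P (nat_lit 0)) (P (nat_lit 41846141237264384)))))) (T.h (T.h (P (nat_lit 0)) (T.h (T.h (P (nat_lit 0)) (T.h (P (nat_lit 27869085850803372032)) (T.h (P (nat_lit 0)) (M (nat_lit 47471891302503))))) (T.h (P (nat_lit 0)) (T.h (T.h (P (nat_lit 0)) (M (nat_lit 11775571218751))) (P (nat_lit 0)))))) (T.h (T.h (T.h (M (nat_lit 26089571169843059621887)) (T.h (P (nat_lit 0)) (M (nat_lit 48508369019109375)))) (T.h (P (nat_lit 0)) (M (nat_lit 57308400462299135)))) (T.h (T.h (P (nat_lit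 0)) (T.h (T.h (P (nat_lit 0)) (P (nat_lit 24050724205112))) (P (nat_lit 0)))) (M (nat_lit 6792647816151039))))))), (T.h (T.h (P (nat_lit 0)) (T.h (T.h (P (nat_lit 1980409599325634221637107712)) (T.h (P (nat_lit 0)) (T.h (M (nat_lit 3622323455901260840959)) (T.h (P (nat_lit 0)) (M (nat_lit 32889710490746879)))))) (T.h (P (nat_lit 0)) (T.h (T.h (M (nat_lit 15055359175053937737727)) (T.h (P (nat_lit 0)) (M (nat_lit 38455619674882047)))) (T.h (P (nat_lit 0)) (P (nat_lit 3262392835637248))))))) (T.h (T.h (T.h (P (nat_lit 0)) (T.h (M (nat_lit 17906321837193087961530367)) (T.h (P (nat_lit 0)) (T.h (M (nat_lit 28621299218955370495)) (T.h (P (nat_lit 0)) (M (nat_lit 57105588554927))))))) (T.h (P (nat_lit 0)) (T.h (T.h (P (nat_lit 0)) (T.h (M (nat_lit 4387270251864129535)) (T.h (P (nat_lit 0)) (P (nat_lit 7964610238816))))) (T.h (P (nat_lit 0)) (T.h (T.h (P (nat_lit 0)) (P (nat_lit 3163502112640))) (P (nat_lit 0))))))) (T.h (T.h (P (nat_lit 0)) (T.h (T.h (M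 (nat_lit 3622323455901260840959)) (T.h (P (nat_lit 0)) (P (nat_lit 53787962859716608)))) (T.h (P (nat_lit 0)) (M (nat_lit 38455619674882047))))) (T.h (T.h (T.h (P (nat_lit 0)) (T.h (M (nat_lit 28621299218955370495)) (T.h (P (nat_lit 0)) (M (nat_lit 33666772764575))))) (T.h (P (nat_lit 0)) (T.h (T.h (P (nat_lit 0)) (P (nat_lit 7964610238816))) (P (nat_lit 0))))) (T.h (T.h (P (nat_lit 0)) (M (nat_lit 32889710490746879))) (T.h (T.h (T.h (P (nat_lit 0)) (M (nat_lit 57105588554927))) (P (nat_lit 0))) (P (nat_lit 0)))))))), (T.h (T.h (P (nat_lit 0)) (T.h (T.h (P (nat_lit 0)) (T.h (M (nat_lit 53592014455914041329057791)) (T.h (P (nat_lit 0)) (T.h (M (nat_lit 175397533885151576063)) (T.h (P (nat_lit 0)) (M (nat_lit 1438918448639))))))) (T.h (P (nat_lit 0)) (T.h (T.h (P (nat_lit 0)) (T.h (P (nat_lit 72060471283495731200)) (T.h (P (nat_lit 0)) (P (nat_lit 39743026870800))))) (T.h (P (nat_lit 0)) (T.h (T.h (P (nat_lit 0)) (P (nat_lit 60196247186208))) (P (nat_lit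 0)))))))) (T.h (T.h (T.h (P (nat_lit 5611523352745672723763560448)) (T.h (P (nat_lit 0)) (T.h (P (nat_lit 58989293015579108573184)) (T.h (P (nat_lit 0)) (P (nat_lit 115278733525024768)))))) (T.h (P (nat_lit 0)) (T.h (T.h (P (nat_lit 14764572830191832793088)) (T.h (P (nat_lit 0)) (M (nat_lit 73423234274689023)))) (T.h (P (nat_lit 0)) (P (nat_lit 91456337990483968)))))) (T.h (T.h (P (nat_lit 0)) (T.h (T.h (P (nat_lit 0)) (T.h (P (nat_lit 178828070972899196928)) (T.h (P (nat_lit 0)) (P (nat_lit 18532277689920))))) (T.h (P (nat_lit 0)) (T.h (T.h (P (nat_lit 0)) (M (nat_lit 95885928699887))) (P (nat_lit 0)))))) (T.h (T.h (T.h (M (nat_lit 130208512336740007018495)) (T.h (P (nat_lit 0)) (M (nat_lit 1666114179006463)))) (T.h (P (nat_lit 0)) (M (nat_lit 115038415315042303)))) (T.h (T.h (P (nat_lit 0)) (T.h (T.h (P (nat_lit 0)) (M (nat_lit 858351454991))) (P (nat_lit 0)))) (M (nat_lit 32489238541598719))))))), (T.h (T.h (P (nat_lit 0)) (T.h (T.h (P (nat_lit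 67185566505562312745714450432)) (T.h (P (nat_lit 0)) (T.h (M (nat_lit 118456684448776665956351)) (T.h (P (nat_lit 0)) (P (nat_lit 108129119820283904)))))) (T.h (P (nat_lit 0)) (T.h (T.h (P (nat_lit 26688500089316853153792)) (T.h (P (nat_lit 0)) (P (nat_lit 114024985828311040)))) (T.h (P (nat_lit 0)) (P (nat_lit 30121564165390336))))))) (T.h (T.h (T.h (P (nat_lit 0)) (T.h (P (nat_lit 84474593176145620608483328)) (T.h (P (nat_lit 0)) (T.h (P (nat_lit 70989944265199583232)) (T.h (P (nat_lit 0)) (P (nat_lit 77442952494384))))))) (T.h (P (nat_lit 0)) (T.h (T.h (P (nat_lit 0)) (T.h (P (nat_lit 291820826445081477120)) (T.h (P (nat_lit 0)) (M (nat_lit 165739260395375))))) (T.h (P (nat_lit 0)) (T.h (T.h (P (nat_lit 0)) (M (nat_lit 22262947040159))) (P (nat_lit 0))))))) (T.h (T.h (P (nat_lit 0)) (T.h (T.h (M (nat_lit 101452401124637860167679)) (T.h (P (nat_lit 0)) (P (nat_lit 368374066637406208)))) (T.h (P (nat_lit 0)) (P (nat_lit 91725410818899968))))) (T.h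 (T.h (T.h (P (nat_lit 0)) (T.h (P (nat_lit 67279472290785394688)) (T.h (P (nat_lit 0)) (M (nat_lit 2395349943695))))) (T.h (P (nat_lit 0)) (T.h (T.h (P (nat_lit 0)) (M (nat_lit 127505483758511))) (P (nat_lit 0))))) (T.h (T.h (P (nat_lit 0)) (M (nat_lit 75789866623516671))) (T.h (T.h (T.h (P (nat_lit 0)) (P (nat_lit 31976606021472))) (P (nat_lit 0))) (P (nat_lit 0))))))))]
def lP11_14 : List (T ℤ) := [(T.h (T.h (P (nat_lit 0)) (T.h (T.h (P (nat_lit 0)) (T.h (P (nat_lit 120814795054612235002314752)) (T.h (P (nat_lit 0)) (M (nat_lit 107041884051731382271))))) (T.h (P (nat_lit 0)) (T.h (T.h (P (nat_lit 0)) (M (nat_lit 107041884051731382271))) (P (nat_lit 0)))))) (T.h (T.h (T.h (M (nat_lit 29465771449952636056513806335)) (T.h (P (nat_lit 0)) (T.h (M (nat_lit 35933518468873375973375)) (T.h (P (nat_lit 0)) (M (nat_lit 116566425178505215)))))) (T.h (P (nat_lit 0)) (T.h (T.h (M (nat_lit 35933518468873375973375)) (T.h (P (nat_lit 0)) (P (nat_lit 206294093546192896))))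 (T.h (P (nat_lit 0)) (M (nat_lit 116566425178505215)))))) (T.h (T.h (P (nat_lit 0)) (T.h (T.h (P (nat_lit 0)) (M (nat_lit 179113940030792400895))) (P (nat_lit 0)))) (T.h (T.h (T.h (M (nat_lit 3651158552685087555583)) (T.h (P (nat_lit 0)) (M (nat_lit 36771961311526911)))) (T.h (P (nat_lit 0)) (M (nat_lit 36771961311526911)))) (T.h (P (nat_lit 0)) (P (nat_lit 82143803782594560))))))), (T.h (T.h (T.h (P (nat_lit 0)) (T.h (P (nat_lit 20984392715099619162048167936)) (T.h (P (nat_lit 0)) (T.h (P (nat_lit 19697029159794532941824)) (T.h (P (nat_lit 0)) (P (nat_lit 15994898100060160))))))) (T.h (P (nat_lit 0)) (T.h (T.h (P (nat_lit 0)) (T.h (M (nat_lit 8223931429363535314943)) (T.h (P (nat_lit 0)) (M (nat_lit 46708690346541055))))) (T.h (P (nat_lit 0)) (T.h (T.h (P (nat_lit 0)) (P (nat_lit 26419758957936640))) (P (nat_lit 0))))))) (T.h (T.h (P (nat_lit 0)) (T.h (T.h (M (nat_lit 23016326667677892480073727)) (T.h (P (nat_lit 0)) (T.h (P (nat_lit 29677769012967112704))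 (T.h (P (nat_lit 0)) (P (nat_lit 50708355223312)))))) (T.h (P (nat_lit 0)) (T.h (T.h (M (nat_lit 4386139381002403839)) (T.h (P (nat_lit 0)) (M (nat_lit 4144068559599)))) (T.h (P (nat_lit 0)) (M (nat_lit 14450944174591))))))) (T.h (T.h (T.h (P (nat_lit 0)) (T.h (M (nat_lit 17505257867323948138495)) (T.h (P (nat_lit 0)) (M (nat_lit 33918669731856383))))) (T.h (P (nat_lit 0)) (T.h (T.h (P (nat_lit 0)) (M (nat_lit 738227850690559))) (P (nat_lit 0))))) (T.h (T.h (P (nat_lit 0)) (T.h (T.h (P (nat_lit 3997095405463535616)) (T.h (P (nat_lit 0)) (P (nat_lit 1500860940832)))) (T.h (P (nat_lit 0)) (P (nat_lit 6020971354256))))) (T.h (T.h (T.h (P (nat_lit 0)) (M (nat_lit 93291811182837759))) (P (nat_lit 0))) (T.h (T.h (P (nat_lit 0)) (P (nat_lit 40339979884256))) (P (nat_lit 0)))))))), (T.h (T.h (T.h (M (nat_lit 13243727574427061321021679206399)) (T.h (P (nat_lit 0)) (T.h (M (nat_lit 48396470324636890293075967)) (T.h (P (nat_lit 0)) (T.h (P (nat_lit 52169738701368197120))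 (T.h (P (nat_lit 0)) (P (nat_lit 8789193732672)))))))) (T.h (P (nat_lit 0)) (T.h (T.h (P (nat_lit 16578664229391570990792704)) (T.h (P (nat_lit 0)) (T.h (M (nat_lit 80909574209947041791)) (T.h (P (nat_lit 0)) (P (nat_lit 17775325846896)))))) (T.h (P (nat_lit 0)) (T.h (T.h (P (nat_lit 17552020871231569920)) (T.h (P (nat_lit 0)) (P (nat_lit 45145893431616)))) (T.h (P (nat_lit 0)) (P (nat_lit 954741325344)))))))) (T.h (T.h (P (nat_lit 0)) (T.h (T.h (P (nat_lit 0)) (T.h (M (nat_lit 67881393036871090569215)) (T.h (P (nat_lit 0)) (P (nat_lit 13062960469180416))))) (T.h (P (nat_lit 0)) (T.h (T.h (P (nat_lit 0)) (P (nat_lit 158261587630096384))) (P (nat_lit 0)))))) (T.h (T.h (T.h (M (nat_lit 458093224261596672425983)) (T.h (P (nat_lit 0)) (T.h (P (nat_lit 168408438911197511680)) (T.h (P (nat_lit 0)) (M (nat_lit 21055996758767)))))) (T.h (P (nat_lit 0)) (T.h (T.h (P (nat_lit 52526158785474985984)) (T.h (P (nat_lit 0)) (P (nat_lit 12074435503008)))) (T.h (P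 (nat_lit 0)) (P (nat_lit 45145893431616)))))) (T.h (T.h (P (nat_lit 0)) (T.h (T.h (P (nat_lit 0)) (M (nat_lit 88034040569724927))) (P (nat_lit 0)))) (T.h (T.h (T.h (P (nat_lit 43578386568565489664)) (T.h (P (nat_lit 0)) (M (nat_lit 21055996758767)))) (T.h (P (nat_lit 0)) (P (nat_lit 17775325846896)))) (T.h (P (nat_lit 0)) (P (nat_lit 8789193732672)))))))), (T.h (T.h (T.h (P (nat_lit 0)) (T.h (M (nat_lit 3204733460397538933508931583)) (T.h (P (nat_lit 0)) (T.h (M (nat_lit 69418260137388823019519)) (T.h (P (nat_lit 0)) (M (nat_lit 69814345750593535))))))) (T.h (P (nat_lit 0)) (T.h (T.h (P (nat_lit 0)) (T.h (P (nat_lit 189533633965619006144512)) (T.h (P (nat_lit 0)) (P (nat_lit 58042506824548352))))) (T.h (P (nat_lit 0)) (T.h (T.h (P (nat_lit 0)) (M (nat_lit 159947440549658623))) (P (nat_lit 0))))))) (T.h (T.h (P (nat_lit 0)) (T.h (T.h (P (nat_lit 10272478443104322537390080)) (T.h (P (nat_lit 0)) (T.h (M (nat_lit 25283953647354380287)) (T.h (P (nat_lit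 0)) (M (nat_lit 139411251903167)))))) (T.h (P (nat_lit 0)) (T.h (T.h (P (nat_lit 92046784355859693568)) (T.h (P (nat_lit 0)) (M (nat_lit 3247963595855)))) (T.h (P (nat_lit 0)) (P (nat_lit 32752559787552))))))) (T.h (T.h (T.h (P (nat_lit 0)) (T.h (M (nat_lit 58299763117793543716863)) (T.h (P (nat_lit 0)) (M (nat_lit 33821400822153215))))) (T.h (P (nat_lit 0)) (T.h (T.h (P (nat_lit 0)) (P (nat_lit 196731980638601216))) (P (nat_lit 0))))) (T.h (T.h (P (nat_lit 0)) (T.h (T.h (P (nat_lit 103460306243349905408)) (T.h (P (nat_lit 0)) (M (nat_lit 215827605369791)))) (T.h (P (nat_lit 0)) (P (nat_lit 12834186665184))))) (T.h (T.h (T.h (P (nat_lit 0)) (P (nat_lit 118297934862188544))) (P (nat_lit 0))) (T.h (T.h (P (nat_lit 0)) (M (nat_lit 45849852608687))) (P (nat_lit 0)))))))), (T.h (T.h (T.h (P (nat_lit 19245058767597118072917487255552)) (T.h (P (nat_lit 0)) (T.h (M (nat_lit 8849924118460195124805631)) (T.h (P (nat_lit 0)) (P (nat_lit 22472147538827804672))))))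 (T.h (P (nat_lit 0)) (T.h (T.h (M (nat_lit 49064869503036694296788991)) (T.h (P (nat_lit 0)) (M (nat_lit 78300033919217565695)))) (T.h (P (nat_lit 0)) (M (nat_lit 58062886536468234239)))))) (T.h (T.h (P (nat_lit 0)) (T.h (T.h (P (nat_lit 0)) (T.h (M (nat_lit 171507145602860729761791)) (T.h (P (nat_lit 0)) (P (nat_lit 200573530775552000))))) (T.h (P (nat_lit 0)) (T.h (T.h (P (nat_lit 0)) (M (nat_lit 11742295132012543))) (P (nat_lit 0)))))) (T.h (T.h (T.h (P (nat_lit 59825625941170914374713344)) (T.h (P (nat_lit 0)) (M (nat_lit 218013063006075748351)))) (T.h (P (nat_lit 0)) (M (nat_lit 45880012597962473471)))) (T.h (T.h (P (nat_lit 0)) (T.h (T.h (P (nat_lit 0)) (P (nat_lit 189747104945602560))) (P (nat_lit 0)))) (P (nat_lit 12951678390250766336)))))), (T.h (T.h (P (nat_lit 0)) (T.h (T.h (P (nat_lit 0)) (T.h (M (nat_lit 5697481985329626773192703)) (T.h (P (nat_lit 0)) (T.h (P (nat_lit 5846604613603557376)) (T.h (P (nat_lit 0)) (M (nat_lit 11562789853775)))))))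 (T.h (P (nat_lit 0)) (T.h (T.h (P (nat_lit 0)) (T.h (M (nat_lit 32832337339857502207)) (T.h (P (nat_lit 0)) (P (nat_lit 22388334389568))))) (T.h (P (nat_lit 0)) (T.h (T.h (P (nat_lit 0)) (P (nat_lit 8815688868816))) (P (nat_lit 0)))))))) (T.h (T.h (T.h (P (nat_lit 393612880355767449343229952)) (T.h (P (nat_lit 0)) (T.h (P (nat_lit 46372124084709401559040)) (T.h (P (nat_lit 0)) (P (nat_lit 140257529750159360)))))) (T.h (P (nat_lit 0)) (T.h (T.h (M (nat_lit 33555511882046685315071)) (T.h (P (nat_lit 0)) (P (nat_lit 59963242679304192)))) (T.h (P (nat_lit 0)) (M (nat_lit 22492782030323711)))))) (T.h (T.h (P (nat_lit 0)) (T.h (T.h (P (nat_lit 0)) (T.h (M (nat_lit 64339317300710604799)) (T.h (P (nat_lit 0)) (P (nat_lit 29719564744560))))) (T.h (P (nat_lit 0)) (T.h (T.h (P (nat_lit 0)) (M (nat_lit 8955757893743))) (P (nat_lit 0)))))) (T.h (T.h (T.h (P (nat_lit 15408104815434917740544)) (T.h (P (nat_lit 0)) (P (nat_lit 401020424622800896)))) (T.h (P (nat_lit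 0)) (P (nat_lit 134391637320007680)))) (T.h (T.h (P (nat_lit 0)) (T.h (T.h (P (nat_lit 0)) (M (nat_lit 20837185961087))) (P (nat_lit 0)))) (M (nat_lit 80612478460854271))))))), (T.h (T.h (P (nat_lit 0)) (T.h (T.h (M (nat_lit 15405244956953180929827799039)) (T.h (P (nat_lit 0)) (T.h (P (nat_lit 58377955448778397843456)) (T.h (P (nat_lit 0)) (P (nat_lit 25069513072984064)))))) (T.h (P (nat_lit 0)) (T.h (T.h (P (nat_lit 34299267896437284798464)) (T.h (P (nat_lit 0)) (M (nat_lit 50331468078694399)))) (T.h (P (nat_lit 0)) (P (nat_lit 25436756187906048))))))) (T.h (T.h (T.h (P (nat_lit 0)) (T.h (P (nat_lit 26414870613408005553651712)) (T.h (P (nat_lit 0)) (T.h (P (nat_lit 17283595094275915776)) (T.h (P (nat_lit 0)) (P (nat_lit 68505149127168))))))) (T.h (P (nat_lit 0)) (T.h (T.h (P (nat_lit 0)) (T.h (M (nat_lit 319395816159282462719)) (T.h (P (nat_lit 0)) (M (nat_lit 38582463213215))))) (T.h (P (nat_lit 0)) (T.h (T.h (P (nat_lit 0)) (P (nat_lit 93337690111776)))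 (P (nat_lit 0))))))) (T.h (T.h (P (nat_lit 0)) (T.h (T.h (P (nat_lit 58377955448778397843456)) (T.h (P (nat_lit 0)) (M (nat_lit 20279104758906879)))) (T.h (P (nat_lit 0)) (M (nat_lit 50331468078694399))))) (T.h (T.h (T.h (P (nat_lit 0)) (T.h (P (nat_lit 17283595094275915776)) (T.h (P (nat_lit 0)) (P (nat_lit 31906044562176))))) (T.h (P (nat_lit 0)) (T.h (T.h (P (nat_lit 0)) (M (nat_lit 38582463213215))) (P (nat_lit 0))))) (T.h (T.h (P (nat_lit 0)) (P (nat_lit 25069513072984064))) (T.h (T.h (T.h (P (nat_lit 0)) (P (nat_lit 68505149127168))) (P (nat_lit 0))) (P (nat_lit 0)))))))), (T.h (T.h (P (nat_lit 0)) (T.h (T.h (P (nat_lit 0)) (T.h (M (nat_lit 18488068673796538873413631)) (T.h (P (nat_lit 0)) (M (nat_lit 3412449340189310975))))) (T.h (P (nat_lit 0)) (T.h (T.h (P (nat_lit 0)) (P (nat_lit 13067073905649254400))) (P (nat_lit 0)))))) (T.h (T.h (T.h (M (nat_lit 1043116937690069580088606719)) (T.h (P (nat_lit 0)) (T.h (M (nat_lit 101464149854981390860287))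 (T.h (P (nat_lit 0)) (M (nat_lit 273430289931173887)))))) (T.h (P (nat_lit 0)) (T.h (T.h (P (nat_lit 12925985027821664206848)) (T.h (P (nat_lit 0)) (P (nat_lit 21950935167303680)))) (T.h (P (nat_lit 0)) (M (nat_lit 70522602099113983)))))) (T.h (T.h (P (nat_lit 0)) (T.h (T.h (P (nat_lit 0)) (M (nat_lit 3225623507505250303))) (P (nat_lit 0)))) (T.h (T.h (T.h (P (nat_lit 61764923110046956519424)) (T.h (P (nat_lit 0)) (M (nat_lit 293207130200866815)))) (T.h (P (nat_lit 0)) (M (nat_lit 121260396594069503)))) (T.h (P (nat_lit 0)) (P (nat_lit 114189388980387840)))))))]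
def lP11_15 : List (T ℤ) := [(T.h (T.h (T.h (P (nat_lit 0)) (T.h (M (nat_lit 20545763807070606543294562303)) (T.h (P (nat_lit 0)) (T.h (M (nat_lit 19160979863630824603647)) (T.h (P (nat_lit 0)) (M (nat_lit 14971273895362559))))))) (T.h (P (nat_lit 0)) (T.h (T.h (P (nat_lit 0)) (T.h (P (nat_lit 12135496075166393303040)) (T.h (P (nat_lit 0)) (P (nat_lit 52158500142071808))))) (T.h (P (nat_lit 0)) (T.h (T.h (P (nat_lit 0)) (M (nat_lit 35881187698753535))) (P (nat_lit 0))))))) (T.h (T.h (P (nat_lit 0)) (T.h (T.h (P (nat_lit 30576525179669562771111936)) (T.h (P (nat_lit 0)) (T.h (M (nat_lit 60109996656355704831)) (T.h (P (nat_lit 0)) (M (nat_lit 53556555107663)))))) (T.h (P (nat_lit 0)) (T.h (T.h (M (nat_lit 4299253708392235007)) (T.h (P (nat_lit 0)) (P (nat_lit 18560116891440)))) (T.h (P (nat_lit 0)) (P (nat_lit 8704128682512))))))) (T.h (T.h (T.h (P (nat_lit 0)) (T.h (P (nat_lit 18225494033046599368704)) (T.h (P (nat_lit 0)) (P (nat_lit 54131820061376512)))))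 (T.h (P (nat_lit 0)) (T.h (T.h (P (nat_lit 0)) (P (nat_lit 43606495874285568))) (P (nat_lit 0))))) (T.h (T.h (P (nat_lit 0)) (T.h (T.h (M (nat_lit 14785903864523522047)) (T.h (P (nat_lit 0)) (P (nat_lit 22287634534368)))) (T.h (P (nat_lit 0)) (M (nat_lit 11727087712703))))) (T.h (T.h (T.h (P (nat_lit 0)) (P (nat_lit 79124825958711296))) (P (nat_lit 0))) (T.h (T.h (P (nat_lit 0)) (M (nat_lit 38574100311983))) (P (nat_lit 0)))))))), (T.h (T.h (T.h (P (nat_lit 12287190180425606716005116018688)) (T.h (P (nat_lit 0)) (T.h (M (nat_lit 822633096902632366145535)) (T.h (P (nat_lit 0)) (M (nat_lit 6177230466576285695)))))) (T.h (P (nat_lit 0)) (T.h (T.h (M (nat_lit 3836605376147847800422399)) (T.h (P (nat_lit 0)) (M (nat_lit 65115326894967881727)))) (T.h (P (nat_lit 0)) (M (nat_lit 34747549758858985471)))))) (T.h (T.h (P (nat_lit 0)) (T.h (T.h (P (nat_lit 0)) (T.h (P (nat_lit 126306685842223500623872)) (T.h (P (nat_lit 0)) (P (nat_lit 56164324190060544)))))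 (T.h (P (nat_lit 0)) (T.h (T.h (P (nat_lit 0)) (M (nat_lit 101851870552260607))) (P (nat_lit 0)))))) (T.h (T.h (T.h (M (nat_lit 822633096902632366145535)) (T.h (P (nat_lit 0)) (M (nat_lit 183649484888055218175)))) (T.h (P (nat_lit 0)) (M (nat_lit 65115326894967881727)))) (T.h (T.h (P (nat_lit 0)) (T.h (T.h (P (nat_lit 0)) (P (nat_lit 56164324190060544))) (P (nat_lit 0)))) (M (nat_lit 6177230466576285695)))))), (T.h (T.h (P (nat_lit 0)) (T.h (T.h (P (nat_lit 0)) (T.h (P (nat_lit 2731529024111075150266368)) (T.h (P (nat_lit 0)) (M (nat_lit 14446821862908362751))))) (T.h (P (nat_lit 0)) (T.h (T.h (P (nat_lit 0)) (P (nat_lit 2922520119437426688))) (P (nat_lit 0)))))) (T.h (T.h (T.h (P (nat_lit 2431989740396183413638299648)) (T.h (P (nat_lit 0)) (T.h (M (nat_lit 67764700985457142398975)) (T.h (P (nat_lit 0)) (M (nat_lit 157432470344531967)))))) (T.h (P (nat_lit 0)) (T.h (T.h (M (nat_lit 2389731705158014861311)) (T.h (P (nat_lit 0)) (M (nat_lit 13085180765306879))))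 (T.h (P (nat_lit 0)) (M (nat_lit 737280053051391)))))) (T.h (T.h (P (nat_lit 0)) (T.h (T.h (P (nat_lit 0)) (P (nat_lit 43502318328160976896))) (P (nat_lit 0)))) (T.h (T.h (T.h (P (nat_lit 13155666161854431887360)) (T.h (P (nat_lit 0)) (M (nat_lit 344310799049883647)))) (T.h (P (nat_lit 0)) (M (nat_lit 84716766919393279)))) (T.h (P (nat_lit 0)) (P (nat_lit 86333522932170752))))))), (M (nat_lit 4410501400340933843783516159999)), (P (nat_lit 0)), (P (nat_lit 0)), (T.h (T.h (T.h (P (nat_lit 0)) (T.h (P (nat_lit 7100087156579572138729537536)) (T.h (P (nat_lit 0)) (T.h (M (nat_lit 1237047663726686109695)) (T.h (P (nat_lit 0)) (P (nat_lit 5526414397538304))))))) (T.h (P (nat_lit 0)) (T.h (T.h (P (nat_lit 0)) (T.h (P (nat_lit 18488458053379849977856)) (T.h (P (nat_lit 0)) (M (nat_lit 14916144344629247))))) (T.h (P (nat_lit 0)) (T.h (T.h (P (nat_lit 0)) (P (nat_lit 15699326535139328))) (P (nat_lit 0))))))) (T.h (T.h (P (nat_lit 0)) (T.h (T.h (P (nat_lit 789217968431012492869632))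 (T.h (P (nat_lit 0)) (T.h (M (nat_lit 2144806594884403199)) (T.h (P (nat_lit 0)) (M (nat_lit 40018750807967)))))) (T.h (P (nat_lit 0)) (T.h (T.h (M (nat_lit 26309337614833942527)) (T.h (P (nat_lit 0)) (P (nat_lit 28718105432920)))) (T.h (P (nat_lit 0)) (M (nat_lit 11455875289447))))))) (T.h (T.h (T.h (P (nat_lit 0)) (T.h (P (nat_lit 23223723856033470218240)) (T.h (P (nat_lit 0)) (M (nat_lit 21981539607871487))))) (T.h (P (nat_lit 0)) (T.h (T.h (P (nat_lit 0)) (P (nat_lit 6405622491906048))) (P (nat_lit 0))))) (T.h (T.h (P (nat_lit 0)) (T.h (T.h (M (nat_lit 41432928862544592895)) (T.h (P (nat_lit 0)) (P (nat_lit 36776393580296)))) (T.h (P (nat_lit 0)) (M (nat_lit 60639230622911))))) (T.h (T.h (T.h (P (nat_lit 0)) (P (nat_lit 18968879967698944))) (P (nat_lit 0))) (T.h (T.h (P (nat_lit 0)) (M (nat_lit 11610110242455))) (P (nat_lit 0)))))))), (T.h (T.h (T.h (P (nat_lit 105277720930526967885496854773760)) (T.h (P (nat_lit 0)) (T.h (M (nat_lit 9691530957154133055897599))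 (T.h (P (nat_lit 0)) (T.h (P (nat_lit 1752219728941678592)) (T.h (P (nat_lit 0)) (P (nat_lit 2914549128000)))))))) (T.h (P (nat_lit 0)) (T.h (T.h (M (nat_lit 1622784108497740811468799)) (T.h (P (nat_lit 0)) (T.h (M (nat_lit 5543786603966627839)) (T.h (P (nat_lit 0)) (P (nat_lit 20467126355184)))))) (T.h (P (nat_lit 0)) (T.h (T.h (P (nat_lit 8780194688519897088)) (T.h (P (nat_lit 0)) (M (nat_lit 104478078703183)))) (T.h (P (nat_lit 0)) (P (nat_lit 56203593949792)))))))) (T.h (T.h (P (nat_lit 0)) (T.h (T.h (P (nat_lit 0)) (T.h (P (nat_lit 20667592922045440065536)) (T.h (P (nat_lit 0)) (P (nat_lit 41585837830832128))))) (T.h (P (nat_lit 0)) (T.h (T.h (P (nat_lit 0)) (P (nat_lit 47636208037494784))) (P (nat_lit 0)))))) (T.h (T.h (T.h (M (nat_lit 1622784108497740811468799)) (T.h (P (nat_lit 0)) (T.h (M (nat_lit 5543786603966627839)) (T.h (P (nat_lit 0)) (P (nat_lit 20467126355184)))))) (T.h (P (nat_lit 0)) (T.h (T.h (M (nat_lit 172485376140564758527))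 (T.h (P (nat_lit 0)) (P (nat_lit 5095877684832)))) (T.h (P (nat_lit 0)) (M (nat_lit 373272336818415)))))) (T.h (T.h (P (nat_lit 0)) (T.h (T.h (P (nat_lit 0)) (P (nat_lit 47636208037494784))) (P (nat_lit 0)))) (T.h (T.h (T.h (P (nat_lit 8780194688519897088)) (T.h (P (nat_lit 0)) (M (nat_lit 104478078703183)))) (T.h (P (nat_lit 0)) (M (nat_lit 373272336818415)))) (T.h (P (nat_lit 0)) (P (nat_lit 56203593949792))))))))]
def lP11_16 : List (T ℤ) := [(T.h (T.h (T.h (P (nat_lit 0)) (T.h (M (nat_lit 1772719709271470377478914047)) (T.h (P (nat_lit 0)) (T.h (M (nat_lit 10151113502918493339647)) (T.h (P (nat_lit 0)) (M (nat_lit 7951400904425471))))))) (T.h (P (nat_lit 0)) (T.h (T.h (P (nat_lit 0)) (T.h (M (nat_lit 6654861781713964498943)) (T.h (P (nat_lit 0)) (M (nat_lit 5931687478722559))))) (T.h (P (nat_lit 0)) (T.h (T.h (P (nat_lit 0)) (P (nat_lit 29605169527062528))) (P (nat_lit 0))))))) (T.h (T.h (P (nat_lit 0)) (T.h (T.h (M (nat_lit 6097722714123760383819775))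 (T.h (P (nat_lit 0)) (T.h (P (nat_lit 12972542331520548864)) (T.h (P (nat_lit 0)) (P (nat_lit 40018750807968)))))) (T.h (P (nat_lit 0)) (T.h (T.h (P (nat_lit 10996160748979224576)) (T.h (P (nat_lit 0)) (M (nat_lit 32747249506607)))) (T.h (P (nat_lit 0)) (P (nat_lit 11532992765952))))))) (T.h (T.h (T.h (P (nat_lit 0)) (T.h (M (nat_lit 14350093689450101997567)) (T.h (P (nat_lit 0)) (P (nat_lit 6165034883907584))))) (T.h (P (nat_lit 0)) (T.h (T.h (P (nat_lit 0)) (M (nat_lit 5990814857822207))) (P (nat_lit 0))))) (T.h (T.h (P (nat_lit 0)) (T.h (T.h (P (nat_lit 27470699705940312064)) (T.h (P (nat_lit 0)) (M (nat_lit 32747249506607)))) (T.h (P (nat_lit 0)) (P (nat_lit 60639230622912))))) (T.h (T.h (T.h (P (nat_lit 0)) (P (nat_lit 28449082768031744))) (P (nat_lit 0))) (T.h (T.h (P (nat_lit 0)) (P (nat_lit 11532992765952))) (P (nat_lit 0)))))))), (T.h (T.h (T.h (M (nat_lit 99909648655724536380581048483839)) (T.h (P (nat_lit 0)) (T.h (P (nat_lit 10438904556057964207669248))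 (T.h (P (nat_lit 0)) (T.h (M (nat_lit 3079660293249302527)) (T.h (P (nat_lit 0)) (M (nat_lit 1776113164223)))))))) (T.h (P (nat_lit 0)) (T.h (T.h (P (nat_lit 1537303026863677219274752)) (T.h (P (nat_lit 0)) (T.h (P (nat_lit 3858024237247758336)) (T.h (P (nat_lit 0)) (M (nat_lit 20140321589711)))))) (T.h (P (nat_lit 0)) (T.h (T.h (M (nat_lit 7478722740816445439)) (T.h (P (nat_lit 0)) (P (nat_lit 101867935691088)))) (T.h (P (nat_lit 0)) (M (nat_lit 56803544022671)))))))) (T.h (T.h (P (nat_lit 0)) (T.h (T.h (P (nat_lit 0)) (T.h (M (nat_lit 24792577964494502756351)) (T.h (P (nat_lit 0)) (M (nat_lit 38777993416015871))))) (T.h (P (nat_lit 0)) (T.h (T.h (P (nat_lit 0)) (M (nat_lit 41970387647889407))) (P (nat_lit 0)))))) (T.h (T.h (T.h (P (nat_lit 1537303026863677219274752)) (T.h (P (nat_lit 0)) (T.h (P (nat_lit 3858024237247758336)) (T.h (P (nat_lit 0)) (M (nat_lit 20140321589711)))))) (T.h (P (nat_lit 0)) (T.h (T.h (P (nat_lit 170199004916551254016))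 (T.h (P (nat_lit 0)) (P (nat_lit 911442555360)))) (T.h (P (nat_lit 0)) (P (nat_lit 372699232900704)))))) (T.h (T.h (P (nat_lit 0)) (T.h (T.h (P (nat_lit 0)) (M (nat_lit 41970387647889407))) (P (nat_lit 0)))) (T.h (T.h (T.h (M (nat_lit 7478722740816445439)) (T.h (P (nat_lit 0)) (P (nat_lit 101867935691088)))) (T.h (P (nat_lit 0)) (P (nat_lit 372699232900704)))) (T.h (P (nat_lit 0)) (M (nat_lit 56803544022671)))))))), (T.h (T.h (T.h (P (nat_lit 0)) (T.h (M (nat_lit 5327367447308101761250623487)) (T.h (P (nat_lit 0)) (T.h (P (nat_lit 11388161166645179449344)) (T.h (P (nat_lit 0)) (P (nat_lit 2424986506887168))))))) (T.h (P (nat_lit 0)) (T.h (T.h (P (nat_lit 0)) (T.h (M (nat_lit 10353613219124626849791)) (T.h (P (nat_lit 0)) (P (nat_lit 18332168273657856))))) (T.h (P (nat_lit 0)) (T.h (T.h (P (nat_lit 0)) (M (nat_lit 46361229398966271))) (P (nat_lit 0))))))) (T.h (T.h (P (nat_lit 0)) (T.h (T.h (P (nat_lit 5308504745692747890950144)) (T.h (P (nat_lit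 0)) (M (nat_lit 10827735736636145663)))) (T.h (P (nat_lit 0)) (P (nat_lit 14637703011229499392))))) (T.h (T.h (T.h (P (nat_lit 0)) (T.h (M (nat_lit 10353613219124626849791)) (T.h (P (nat_lit 0)) (P (nat_lit 18332168273657856))))) (T.h (P (nat_lit 0)) (T.h (T.h (P (nat_lit 0)) (M (nat_lit 414807634083839))) (P (nat_lit 0))))) (T.h (T.h (P (nat_lit 0)) (P (nat_lit 14637703011229499392))) (T.h (T.h (T.h (P (nat_lit 0)) (M (nat_lit 46361229398966271))) (P (nat_lit 0))) (P (nat_lit 0))))))), (P (nat_lit 0)), (P (nat_lit 0)), (T.h (T.h (P (nat_lit 0)) (T.h (T.h (M (nat_lit 2441237886410329181374119935)) (T.h (P (nat_lit 0)) (T.h (P (nat_lit 20007270521783738957824)) (T.h (P (nat_lit 0)) (P (nat_lit 73902104232656896)))))) (T.h (P (nat_lit 0)) (T.h (T.h (M (nat_lit 7248228393908629929983)) (T.h (P (nat_lit 0)) (M (nat_lit 39192303973335039)))) (T.h (P (nat_lit 0)) (M (nat_lit 10697585716723711))))))) (T.h (T.h (T.h (P (nat_lit 0)) (T.h (P (nat_lit 16891830482737279004573696))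 (T.h (P (nat_lit 0)) (T.h (P (nat_lit 12859817228681347072)) (T.h (P (nat_lit 0)) (M (nat_lit 31925269390831))))))) (T.h (P (nat_lit 0)) (T.h (T.h (P (nat_lit 0)) (T.h (M (nat_lit 22225729657950437375)) (T.h (P (nat_lit 0)) (P (nat_lit 37989251531200))))) (T.h (P (nat_lit 0)) (T.h (T.h (P (nat_lit 0)) (M (nat_lit 1620341992855))) (P (nat_lit 0))))))) (T.h (T.h (P (nat_lit 0)) (T.h (T.h (M (nat_lit 9706054694757277368319)) (T.h (P (nat_lit 0)) (P (nat_lit 12080640778829824)))) (T.h (P (nat_lit 0)) (M (nat_lit 76298670568603647))))) (T.h (T.h (T.h (P (nat_lit 0)) (T.h (M (nat_lit 12703284163797581823)) (T.h (P (nat_lit 0)) (M (nat_lit 24339989840903))))) (T.h (P (nat_lit 0)) (T.h (T.h (P (nat_lit 0)) (M (nat_lit 41183392394039))) (P (nat_lit 0))))) (T.h (T.h (P (nat_lit 0)) (P (nat_lit 20920248791105536))) (T.h (T.h (T.h (P (nat_lit 0)) (P (nat_lit 1224391379472))) (P (nat_lit 0))) (P (nat_lit 0)))))))), (T.h (T.h (P (nat_lit 0)) (T.h (T.h (P (nat_lit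 0)) (T.h (M (nat_lit 23016326667677892480073727)) (T.h (P (nat_lit 0)) (T.h (M (nat_lit 4386139381002403839)) (T.h (P (nat_lit 0)) (M (nat_lit 14450944174591))))))) (T.h (P (nat_lit 0)) (T.h (T.h (P (nat_lit 0)) (T.h (P (nat_lit 3997095405463535616)) (T.h (P (nat_lit 0)) (P (nat_lit 6020971354256))))) (T.h (P (nat_lit 0)) (T.h (T.h (P (nat_lit 0)) (P (nat_lit 40339979884256))) (P (nat_lit 0)))))))) (T.h (T.h (T.h (P (nat_lit 20984392715099619162048167936)) (T.h (P (nat_lit 0)) (T.h (M (nat_lit 8223931429363535314943)) (T.h (P (nat_lit 0)) (P (nat_lit 26419758957936640)))))) (T.h (P (nat_lit 0)) (T.h (T.h (M (nat_lit 17505257867323948138495)) (T.h (P (nat_lit 0)) (M (nat_lit 738227850690559)))) (T.h (P (nat_lit 0)) (M (nat_lit 93291811182837759)))))) (T.h (T.h (P (nat_lit 0)) (T.h (T.h (P (nat_lit 0)) (T.h (P (nat_lit 29677769012967112704)) (T.h (P (nat_lit 0)) (M (nat_lit 4144068559599))))) (T.h (P (nat_lit 0)) (T.h (T.h (P (nat_lit 0)) (P (nat_lit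 1500860940832))) (P (nat_lit 0)))))) (T.h (T.h (T.h (P (nat_lit 19697029159794532941824)) (T.h (P (nat_lit 0)) (M (nat_lit 46708690346541055)))) (T.h (P (nat_lit 0)) (M (nat_lit 33918669731856383)))) (T.h (T.h (P (nat_lit 0)) (T.h (T.h (P (nat_lit 0)) (P (nat_lit 50708355223312))) (P (nat_lit 0)))) (P (nat_lit 15994898100060160))))))), (T.h (T.h (P (nat_lit 0)) (T.h (T.h (P (nat_lit 2651591200384203542287613952)) (T.h (P (nat_lit 0)) (T.h (M (nat_lit 34307800470057419538431)) (T.h (P (nat_lit 0)) (M (nat_lit 17317471317622783)))))) (T.h (P (nat_lit 0)) (T.h (T.h (P (nat_lit 466996290546881789952)) (T.h (P (nat_lit 0)) (P (nat_lit 139925064433532928)))) (T.h (P (nat_lit 0)) (M (nat_lit 75855871420694527))))))) (T.h (T.h (T.h (P (nat_lit 0)) (T.h (M (nat_lit 2141525382526395345797119)) (T.h (P (nat_lit 0)) (T.h (M (nat_lit 50401333849746309119)) (T.h (P (nat_lit 0)) (P (nat_lit 8815688868816))))))) (T.h (P (nat_lit 0)) (T.h (T.h (P (nat_lit 0)) (T.h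 (M (nat_lit 92849825487106605055)) (T.h (P (nat_lit 0)) (M (nat_lit 8955757893743))))) (T.h (P (nat_lit 0)) (T.h (T.h (P (nat_lit 0)) (M (nat_lit 20837185961087))) (P (nat_lit 0))))))) (T.h (T.h (P (nat_lit 0)) (T.h (T.h (P (nat_lit 82958915855056434626560)) (T.h (P (nat_lit 0)) (P (nat_lit 16751951758491648)))) (T.h (P (nat_lit 0)) (P (nat_lit 458191854054440960))))) (T.h (T.h (T.h (P (nat_lit 0)) (T.h (M (nat_lit 379425864766455807)) (T.h (P (nat_lit 0)) (P (nat_lit 22388334389568))))) (T.h (P (nat_lit 0)) (T.h (T.h (P (nat_lit 0)) (P (nat_lit 29719564744560))) (P (nat_lit 0))))) (T.h (T.h (P (nat_lit 0)) (P (nat_lit 136759054275379200))) (T.h (T.h (T.h (P (nat_lit 0)) (M (nat_lit 11562789853775))) (P (nat_lit 0))) (P (nat_lit 0))))))))]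
def lP11_17 : List (T ℤ) := [(T.h (T.h (P (nat_lit 0)) (T.h (T.h (P (nat_lit 0)) (T.h (P (nat_lit 30576525179669562771111936)) (T.h (P (nat_lit 0)) (T.h (M (nat_lit 4299253708392235007)) (T.h (P (nat_lit 0)) (P (nat_lit 8704128682512))))))) (T.h (P (nat_lit 0)) (T.h (T.h (P (nat_lit 0)) (T.h (M (nat_lit 14785903864523522047)) (T.h (P (nat_lit 0)) (M (nat_lit 11727087712703))))) (T.h (P (nat_lit 0)) (T.h (T.h (P (nat_lit 0)) (M (nat_lit 38574100311983))) (P (nat_lit 0)))))))) (T.h (T.h (T.h (M (nat_lit 20545763807070606543294562303)) (T.h (P (nat_lit 0)) (T.h (P (nat_lit 12135496075166393303040)) (T.h (P (nat_lit 0)) (M (nat_lit 35881187698753535)))))) (T.h (P (nat_lit 0)) (T.h (T.h (P (nat_lit 18225494033046599368704)) (T.h (P (nat_lit 0)) (P (nat_lit 43606495874285568)))) (T.h (P (nat_lit 0)) (P (nat_lit 79124825958711296)))))) (T.h (T.h (P (nat_lit 0)) (T.h (T.h (P (nat_lit 0)) (T.h (M (nat_lit 60109996656355704831)) (T.h (P (nat_lit 0)) (P (nat_lit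 18560116891440))))) (T.h (P (nat_lit 0)) (T.h (T.h (P (nat_lit 0)) (P (nat_lit 22287634534368))) (P (nat_lit 0)))))) (T.h (T.h (T.h (M (nat_lit 19160979863630824603647)) (T.h (P (nat_lit 0)) (P (nat_lit 52158500142071808)))) (T.h (P (nat_lit 0)) (P (nat_lit 54131820061376512)))) (T.h (T.h (P (nat_lit 0)) (T.h (T.h (P (nat_lit 0)) (M (nat_lit 53556555107663))) (P (nat_lit 0)))) (M (nat_lit 14971273895362559))))))), (T.h (T.h (P (nat_lit 0)) (T.h (T.h (P (nat_lit 2431989740396183413638299648)) (T.h (P (nat_lit 0)) (T.h (M (nat_lit 2389731705158014861311)) (T.h (P (nat_lit 0)) (M (nat_lit 737280053051391)))))) (T.h (P (nat_lit 0)) (T.h (T.h (P (nat_lit 13155666161854431887360)) (T.h (P (nat_lit 0)) (M (nat_lit 84716766919393279)))) (T.h (P (nat_lit 0)) (P (nat_lit 86333522932170752))))))) (T.h (T.h (T.h (P (nat_lit 0)) (T.h (P (nat_lit 2731529024111075150266368)) (T.h (P (nat_lit 0)) (P (nat_lit 2922520119437426688))))) (T.h (P (nat_lit 0)) (T.h (T.h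 (P (nat_lit 0)) (P (nat_lit 43502318328160976896))) (P (nat_lit 0))))) (T.h (T.h (P (nat_lit 0)) (T.h (T.h (M (nat_lit 67764700985457142398975)) (T.h (P (nat_lit 0)) (M (nat_lit 13085180765306879)))) (T.h (P (nat_lit 0)) (M (nat_lit 344310799049883647))))) (T.h (T.h (T.h (P (nat_lit 0)) (M (nat_lit 14446821862908362751))) (P (nat_lit 0))) (T.h (T.h (P (nat_lit 0)) (M (nat_lit 157432470344531967))) (P (nat_lit 0))))))), (P (nat_lit 0)), (P (nat_lit 0)), (T.h (T.h (T.h (P (nat_lit 0)) (T.h (M (nat_lit 32065154453898497941303197695)) (T.h (P (nat_lit 0)) (T.h (P (nat_lit 81758131380038498516992)) (T.h (P (nat_lit 0)) (M (nat_lit 3598955402100735))))))) (T.h (P (nat_lit 0)) (T.h (T.h (P (nat_lit 0)) (T.h (P (nat_lit 91741980436332451725312)) (T.h (P (nat_lit 0)) (M (nat_lit 19387694308065279))))) (T.h (P (nat_lit 0)) (T.h (T.h (P (nat_lit 0)) (P (nat_lit 21160284092170240))) (P (nat_lit 0))))))) (T.h (T.h (P (nat_lit 0)) (T.h (T.h (M (nat_lit 8543937776108218611662847))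 (T.h (P (nat_lit 0)) (T.h (M (nat_lit 204734582535728660479)) (T.h (P (nat_lit 0)) (M (nat_lit 308326662074127)))))) (T.h (P (nat_lit 0)) (T.h (T.h (P (nat_lit 1136477394459164672)) (T.h (P (nat_lit 0)) (P (nat_lit 120764891693008)))) (T.h (P (nat_lit 0)) (M (nat_lit 32083147781887))))))) (T.h (T.h (T.h (P (nat_lit 0)) (T.h (P (nat_lit 91741980436332451725312)) (T.h (P (nat_lit 0)) (M (nat_lit 19387694308065279))))) (T.h (P (nat_lit 0)) (T.h (T.h (P (nat_lit 0)) (M (nat_lit 89733654143631359))) (P (nat_lit 0))))) (T.h (T.h (P (nat_lit 0)) (T.h (T.h (P (nat_lit 1136477394459164672)) (T.h (P (nat_lit 0)) (P (nat_lit 120764891693008)))) (T.h (P (nat_lit 0)) (M (nat_lit 35555242524527))))) (T.h (T.h (T.h (P (nat_lit 0)) (P (nat_lit 21160284092170240))) (P (nat_lit 0))) (T.h (T.h (P (nat_lit 0)) (M (nat_lit 32083147781887))) (P (nat_lit 0)))))))), (T.h (T.h (T.h (P (nat_lit 233076472635401009944385235714048)) (T.h (P (nat_lit 0)) (T.h (M (nat_lit 23220524386263797487108095))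 (T.h (P (nat_lit 0)) (T.h (P (nat_lit 8118692302446133248)) (T.h (P (nat_lit 0)) (M (nat_lit 30945478181183)))))))) (T.h (P (nat_lit 0)) (T.h (T.h (P (nat_lit 62463890516199824643063808)) (T.h (P (nat_lit 0)) (T.h (M (nat_lit 71162672058525024255)) (T.h (P (nat_lit 0)) (M (nat_lit 6834808783551)))))) (T.h (P (nat_lit 0)) (T.h (T.h (P (nat_lit 55549873731837886464)) (T.h (P (nat_lit 0)) (M (nat_lit 30525840183935)))) (T.h (P (nat_lit 0)) (M (nat_lit 28965798111999)))))))) (T.h (T.h (P (nat_lit 0)) (T.h (T.h (P (nat_lit 0)) (T.h (P (nat_lit 71742659272017103028224)) (T.h (P (nat_lit 0)) (P (nat_lit 83686688723566592))))) (T.h (P (nat_lit 0)) (T.h (T.h (P (nat_lit 0)) (P (nat_lit 135611990260187136))) (P (nat_lit 0)))))) (T.h (T.h (T.h (P (nat_lit 62463890516199824643063808)) (T.h (P (nat_lit 0)) (T.h (M (nat_lit 71162672058525024255)) (T.h (P (nat_lit 0)) (M (nat_lit 6834808783551)))))) (T.h (P (nat_lit 0)) (T.h (T.h (P (nat_lit 29511720221613752320))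 (T.h (P (nat_lit 0)) (M (nat_lit 44356803550335)))) (T.h (P (nat_lit 0)) (M (nat_lit 100422809522911)))))) (T.h (T.h (P (nat_lit 0)) (T.h (T.h (P (nat_lit 0)) (P (nat_lit 135611990260187136))) (P (nat_lit 0)))) (T.h (T.h (T.h (P (nat_lit 55549873731837886464)) (T.h (P (nat_lit 0)) (M (nat_lit 30525840183935)))) (T.h (P (nat_lit 0)) (M (nat_lit 100422809522911)))) (T.h (P (nat_lit 0)) (M (nat_lit 28965798111999)))))))), (T.h (T.h (T.h (P (nat_lit 0)) (T.h (M (nat_lit 11608252057960406073401671679)) (T.h (P (nat_lit 0)) (T.h (P (nat_lit 87001154263739191525376)) (T.h (P (nat_lit 0)) (P (nat_lit 14457500064546816))))))) (T.h (P (nat_lit 0)) (T.h (T.h (P (nat_lit 0)) (T.h (M (nat_lit 44686072504078143848447)) (T.h (P (nat_lit 0)) (P (nat_lit 13047848663318528))))) (T.h (P (nat_lit 0)) (T.h (T.h (P (nat_lit 0)) (M (nat_lit 66400229198561279))) (P (nat_lit 0))))))) (T.h (T.h (P (nat_lit 0)) (T.h (T.h (P (nat_lit 36543826420550244237312000)) (T.h (P (nat_lit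 0)) (T.h (P (nat_lit 4442882320562651136)) (T.h (P (nat_lit 0)) (P (nat_lit 40291236468288)))))) (T.h (P (nat_lit 0)) (T.h (T.h (P (nat_lit 41297915425415233536)) (T.h (P (nat_lit 0)) (M (nat_lit 43257489073583)))) (T.h (P (nat_lit 0)) (P (nat_lit 19521255698208))))))) (T.h (T.h (T.h (P (nat_lit 0)) (T.h (M (nat_lit 44686072504078143848447)) (T.h (P (nat_lit 0)) (P (nat_lit 13047848663318528))))) (T.h (P (nat_lit 0)) (T.h (T.h (P (nat_lit 0)) (P (nat_lit 128777904389881856))) (P (nat_lit 0))))) (T.h (T.h (P (nat_lit 0)) (T.h (T.h (P (nat_lit 41297915425415233536)) (T.h (P (nat_lit 0)) (M (nat_lit 43257489073583)))) (T.h (P (nat_lit 0)) (P (nat_lit 212666922066624))))) (T.h (T.h (T.h (P (nat_lit 0)) (M (nat_lit 66400229198561279))) (P (nat_lit 0))) (T.h (T.h (P (nat_lit 0)) (P (nat_lit 19521255698208))) (P (nat_lit 0)))))))), (T.h (T.h (T.h (M (nat_lit 404041564642056471404092260876287)) (T.h (P (nat_lit 0)) (T.h (P (nat_lit 46733767415801745831362560))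 (T.h (P (nat_lit 0)) (T.h (M (nat_lit 14262682656553566207)) (T.h (P (nat_lit 0)) (P (nat_lit 29291415236928)))))))) (T.h (P (nat_lit 0)) (T.h (T.h (M (nat_lit 78153531217788732151169023)) (T.h (P (nat_lit 0)) (T.h (P (nat_lit 49638702924869664768)) (T.h (P (nat_lit 0)) (M (nat_lit 50902502774975)))))) (T.h (P (nat_lit 0)) (T.h (T.h (M (nat_lit 71288650616073617407)) (T.h (P (nat_lit 0)) (P (nat_lit 267435772517088)))) (T.h (P (nat_lit 0)) (M (nat_lit 78697228655807)))))))) (T.h (T.h (P (nat_lit 0)) (T.h (T.h (P (nat_lit 0)) (T.h (P (nat_lit 18143497420966698418176)) (T.h (P (nat_lit 0)) (M (nat_lit 126204270595473407))))) (T.h (P (nat_lit 0)) (T.h (T.h (P (nat_lit 0)) (M (nat_lit 304250213256790015))) (P (nat_lit 0)))))) (T.h (T.h (T.h (M (nat_lit 78153531217788732151169023)) (T.h (P (nat_lit 0)) (T.h (P (nat_lit 49638702924869664768)) (T.h (P (nat_lit 0)) (M (nat_lit 50902502774975)))))) (T.h (P (nat_lit 0)) (T.h (T.h (P (nat_lit 264086455624193277952))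 (T.h (P (nat_lit 0)) (P (nat_lit 29027209867776)))) (T.h (P (nat_lit 0)) (P (nat_lit 851396072051664)))))) (T.h (T.h (P (nat_lit 0)) (T.h (T.h (P (nat_lit 0)) (M (nat_lit 304250213256790015))) (P (nat_lit 0)))) (T.h (T.h (T.h (M (nat_lit 71288650616073617407)) (T.h (P (nat_lit 0)) (P (nat_lit 267435772517088)))) (T.h (P (nat_lit 0)) (P (nat_lit 851396072051664)))) (T.h (P (nat_lit 0)) (M (nat_lit 78697228655807))))))))]
def lP11_18 : List (T ℤ) := [(T.h (T.h (T.h (P (nat_lit 0)) (T.h (M (nat_lit 10574787591244461863855980543)) (T.h (P (nat_lit 0)) (T.h (M (nat_lit 21995860318925352861695)) (T.h (P (nat_lit 0)) (M (nat_lit 43953891279437823))))))) (T.h (P (nat_lit 0)) (T.h (T.h (P (nat_lit 0)) (T.h (M (nat_lit 48513342436178380455935)) (T.h (P (nat_lit 0)) (P (nat_lit 50114823360643072))))) (T.h (P (nat_lit 0)) (T.h (T.h (P (nat_lit 0)) (M (nat_lit 65637145797197823))) (P (nat_lit 0))))))) (T.h (T.h (P (nat_lit 0)) (T.h (T.h (M (nat_lit 15936259222306799608659967))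 (T.h (P (nat_lit 0)) (P (nat_lit 56127084398316093440)))) (T.h (P (nat_lit 0)) (M (nat_lit 63165105423100411903))))) (T.h (T.h (T.h (P (nat_lit 0)) (T.h (M (nat_lit 48513342436178380455935)) (T.h (P (nat_lit 0)) (P (nat_lit 50114823360643072))))) (T.h (P (nat_lit 0)) (T.h (T.h (P (nat_lit 0)) (M (nat_lit 43640656086302719))) (P (nat_lit 0))))) (T.h (T.h (P (nat_lit 0)) (M (nat_lit 63165105423100411903))) (T.h (T.h (T.h (P (nat_lit 0)) (M (nat_lit 65637145797197823))) (P (nat_lit 0))) (P (nat_lit 0))))))), (P (nat_lit 0)), (P (nat_lit 0)), (T.h (T.h (P (nat_lit 0)) (T.h (T.h (M (nat_lit 25701860563623398398910005247)) (T.h (P (nat_lit 0)) (T.h (P (nat_lit 171696789157313301708800)) (T.h (P (nat_lit 0)) (P (nat_lit 59794908404940800)))))) (T.h (P (nat_lit 0)) (T.h (T.h (M (nat_lit 11053740652807004880895)) (T.h (P (nat_lit 0)) (P (nat_lit 85651475047120896)))) (T.h (P (nat_lit 0)) (P (nat_lit 8209187272196096))))))) (T.h (T.h (T.h (P (nat_lit 0)) (T.h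 (M (nat_lit 43661592855513208723603455)) (T.h (P (nat_lit 0)) (T.h (M (nat_lit 69885795509410463743)) (T.h (P (nat_lit 0)) (M (nat_lit 32594679829151))))))) (T.h (P (nat_lit 0)) (T.h (T.h (P (nat_lit 0)) (T.h (M (nat_lit 171412489114109345791)) (T.h (P (nat_lit 0)) (M (nat_lit 24203224311751))))) (T.h (P (nat_lit 0)) (T.h (T.h (P (nat_lit 0)) (M (nat_lit 16306529748567))) (P (nat_lit 0))))))) (T.h (T.h (P (nat_lit 0)) (T.h (T.h (P (nat_lit 91696012296090950828032)) (T.h (P (nat_lit 0)) (M (nat_lit 5597458710626303)))) (T.h (P (nat_lit 0)) (M (nat_lit 27168631384899583))))) (T.h (T.h (T.h (P (nat_lit 0)) (T.h (M (nat_lit 87661079254234300415)) (T.h (P (nat_lit 0)) (P (nat_lit 60712894579320))))) (T.h (P (nat_lit 0)) (T.h (T.h (P (nat_lit 0)) (M (nat_lit 18221469937063))) (P (nat_lit 0))))) (T.h (T.h (P (nat_lit 0)) (M (nat_lit 4811877612748799))) (T.h (T.h (T.h (P (nat_lit 0)) (P (nat_lit 10769450979968))) (P (nat_lit 0))) (P (nat_lit 0)))))))), (T.h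 (T.h (P (nat_lit 0)) (T.h (T.h (P (nat_lit 0)) (T.h (M (nat_lit 1982739573423292100378623)) (T.h (P (nat_lit 0)) (T.h (M (nat_lit 131245991172652400639)) (T.h (P (nat_lit 0)) (M (nat_lit 41141546793535))))))) (T.h (P (nat_lit 0)) (T.h (T.h (P (nat_lit 0)) (T.h (M (nat_lit 186403039378019450879)) (T.h (P (nat_lit 0)) (P (nat_lit 35259020168128))))) (T.h (P (nat_lit 0)) (T.h (T.h (P (nat_lit 0)) (P (nat_lit 10502331506128))) (P (nat_lit 0)))))))) (T.h (T.h (T.h (P (nat_lit 36062601170929444725066825728)) (T.h (P (nat_lit 0)) (T.h (P (nat_lit 17833319142632502329344)) (T.h (P (nat_lit 0)) (P (nat_lit 85714983981924352)))))) (T.h (P (nat_lit 0)) (T.h (T.h (P (nat_lit 22020751074150062227456)) (T.h (P (nat_lit 0)) (P (nat_lit 211985984901169152)))) (T.h (P (nat_lit 0)) (P (nat_lit 49304697967296512)))))) (T.h (T.h (P (nat_lit 0)) (T.h (T.h (P (nat_lit 0)) (T.h (M (nat_lit 361745294728278048767)) (T.h (P (nat_lit 0)) (M (nat_lit 65824807301439))))) (T.h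 (P (nat_lit 0)) (T.h (T.h (P (nat_lit 0)) (M (nat_lit 33007436532031))) (P (nat_lit 0)))))) (T.h (T.h (T.h (P (nat_lit 29668631029845084602368)) (T.h (P (nat_lit 0)) (P (nat_lit 28937019832778752)))) (T.h (P (nat_lit 0)) (P (nat_lit 12166237003956224)))) (T.h (T.h (P (nat_lit 0)) (T.h (T.h (P (nat_lit 0)) (P (nat_lit 12497417382016))) (P (nat_lit 0)))) (P (nat_lit 41830868405092352))))))), (T.h (T.h (P (nat_lit 0)) (T.h (T.h (P (nat_lit 29757050897655663289155190784)) (T.h (P (nat_lit 0)) (T.h (M (nat_lit 158799547454163062358015)) (T.h (P (nat_lit 0)) (P (nat_lit 11822702836023296)))))) (T.h (P (nat_lit 0)) (T.h (T.h (P (nat_lit 125722215563327124275200)) (T.h (P (nat_lit 0)) (M (nat_lit 119696626360287231)))) (T.h (P (nat_lit 0)) (P (nat_lit 97426712160305152))))))) (T.h (T.h (T.h (P (nat_lit 0)) (T.h (P (nat_lit 24009839790072748140658688)) (T.h (P (nat_lit 0)) (T.h (P (nat_lit 9085128935045332992)) (T.h (P (nat_lit 0)) (P (nat_lit 53934274870224)))))))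 (T.h (P (nat_lit 0)) (T.h (T.h (P (nat_lit 0)) (T.h (P (nat_lit 477568242238340726784)) (T.h (P (nat_lit 0)) (M (nat_lit 128002672368815))))) (T.h (P (nat_lit 0)) (T.h (T.h (P (nat_lit 0)) (M (nat_lit 96129097414319))) (P (nat_lit 0))))))) (T.h (T.h (P (nat_lit 0)) (T.h (T.h (P (nat_lit 184607465826028684836864)) (T.h (P (nat_lit 0)) (M (nat_lit 401338149938692095)))) (T.h (P (nat_lit 0)) (M (nat_lit 52758806521675775))))) (T.h (T.h (T.h (P (nat_lit 0)) (T.h (P (nat_lit 227111329947579318272)) (T.h (P (nat_lit 0)) (P (nat_lit 54678548064048))))) (T.h (P (nat_lit 0)) (T.h (T.h (P (nat_lit 0)) (P (nat_lit 31534168289184))) (P (nat_lit 0))))) (T.h (T.h (P (nat_lit 0)) (P (nat_lit 251611445488877568))) (T.h (T.h (T.h (P (nat_lit 0)) (P (nat_lit 5116009417728))) (P (nat_lit 0))) (P (nat_lit 0)))))))), (T.h (T.h (P (nat_lit 0)) (T.h (T.h (P (nat_lit 0)) (T.h (M (nat_lit 30183801922423830775595007)) (T.h (P (nat_lit 0)) (T.h (P (nat_lit 154662805321476472832))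 (T.h (P (nat_lit 0)) (P (nat_lit 77758541576208))))))) (T.h (P (nat_lit 0)) (T.h (T.h (P (nat_lit 0)) (T.h (P (nat_lit 270864413233208360960)) (T.h (P (nat_lit 0)) (M (nat_lit 22633771718735))))) (T.h (P (nat_lit 0)) (T.h (T.h (P (nat_lit 0)) (M (nat_lit 64488629090591))) (P (nat_lit 0)))))))) (T.h (T.h (T.h (M (nat_lit 75890717121856789950549196799)) (T.h (P (nat_lit 0)) (T.h (P (nat_lit 156119359870059252023296)) (T.h (P (nat_lit 0)) (M (nat_lit 153838227053527039)))))) (T.h (P (nat_lit 0)) (T.h (T.h (P (nat_lit 25656289604286027923456)) (T.h (P (nat_lit 0)) (M (nat_lit 196019508366573567)))) (T.h (P (nat_lit 0)) (P (nat_lit 171878396102328320)))))) (T.h (T.h (P (nat_lit 0)) (T.h (T.h (P (nat_lit 0)) (T.h (P (nat_lit 344645915888983212032)) (T.h (P (nat_lit 0)) (P (nat_lit 70326835532496))))) (T.h (P (nat_lit 0)) (T.h (T.h (P (nat_lit 0)) (M (nat_lit 211979165626079))) (P (nat_lit 0)))))) (T.h (T.h (T.h (M (nat_lit 67858883121244213870591)) (T.h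 (P (nat_lit 0)) (M (nat_lit 9298810221527039)))) (T.h (P (nat_lit 0)) (M (nat_lit 3086601253912575)))) (T.h (T.h (P (nat_lit 0)) (T.h (T.h (P (nat_lit 0)) (M (nat_lit 176207102909135))) (P (nat_lit 0)))) (M (nat_lit 98468171772035071))))))), (T.h (T.h (P (nat_lit 0)) (T.h (T.h (M (nat_lit 1528363253692110168137924607)) (T.h (P (nat_lit 0)) (T.h (M (nat_lit 103340982672338666389503)) (T.h (P (nat_lit 0)) (M (nat_lit 86545155969220607)))))) (T.h (P (nat_lit 0)) (T.h (T.h (P (nat_lit 13811612619637037989888)) (T.h (P (nat_lit 0)) (M (nat_lit 219195007817711615)))) (T.h (P (nat_lit 0)) (P (nat_lit 106533968076406784))))))) (T.h (T.h (T.h (P (nat_lit 0)) (T.h (P (nat_lit 9990266832868815868526592)) (T.h (P (nat_lit 0)) (P (nat_lit 20466385991040499712))))) (T.h (P (nat_lit 0)) (T.h (T.h (P (nat_lit 0)) (P (nat_lit 376481760969893085184))) (P (nat_lit 0))))) (T.h (T.h (P (nat_lit 0)) (T.h (T.h (M (nat_lit 258337378587237909790719)) (T.h (P (nat_lit 0))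 (M (nat_lit 34881430572007423)))) (T.h (P (nat_lit 0)) (M (nat_lit 748503780981669887))))) (T.h (T.h (T.h (P (nat_lit 0)) (P (nat_lit 42807339727817015296))) (P (nat_lit 0))) (T.h (T.h (P (nat_lit 0)) (M (nat_lit 425326543491989503))) (P (nat_lit 0)))))))]
def lP11_19 : List (T ℤ) := [(P (nat_lit 0)), (T.h (T.h (T.h (P (nat_lit 0)) (T.h (P (nat_lit 6088348195122486763923177472)) (T.h (P (nat_lit 0)) (T.h (P (nat_lit 15278871285793812381696)) (T.h (P (nat_lit 0)) (M (nat_lit 39641499995897855))))))) (T.h (P (nat_lit 0)) (T.h (T.h (P (nat_lit 0)) (T.h (M (nat_lit 47295177347541491515391)) (T.h (P (nat_lit 0)) (P (nat_lit 173223522938322944))))) (T.h (P (nat_lit 0)) (T.h (T.h (P (nat_lit 0)) (P (nat_lit 29590114659729408))) (P (nat_lit 0))))))) (T.h (T.h (P (nat_lit 0)) (T.h (T.h (P (nat_lit 5586559612285185070989312)) (T.h (P (nat_lit 0)) (T.h (M (nat_lit 46472014677212659711)) (T.h (P (nat_lit 0)) (M (nat_lit 7072690798567)))))) (T.h (P (nat_lit 0))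 (T.h (T.h (P (nat_lit 18303798455157391360)) (T.h (P (nat_lit 0)) (P (nat_lit 16886384530680)))) (T.h (P (nat_lit 0)) (M (nat_lit 28311984350855))))))) (T.h (T.h (T.h (P (nat_lit 0)) (T.h (P (nat_lit 26273341414655028887552)) (T.h (P (nat_lit 0)) (M (nat_lit 88555637389066239))))) (T.h (P (nat_lit 0)) (T.h (T.h (P (nat_lit 0)) (P (nat_lit 71846498905096192))) (P (nat_lit 0))))) (T.h (T.h (P (nat_lit 0)) (T.h (T.h (M (nat_lit 38035878949488164863)) (T.h (P (nat_lit 0)) (M (nat_lit 50023920775135)))) (T.h (P (nat_lit 0)) (P (nat_lit 44372658307848))))) (T.h (T.h (T.h (P (nat_lit 0)) (P (nat_lit 28646689609252864))) (P (nat_lit 0))) (T.h (T.h (P (nat_lit 0)) (P (nat_lit 43589744350600))) (P (nat_lit 0)))))))), (T.h (T.h (T.h (P (nat_lit 90919965927699648071075150954496)) (T.h (P (nat_lit 0)) (T.h (M (nat_lit 17606398215889679659565055)) (T.h (P (nat_lit 0)) (T.h (M (nat_lit 7848427304328888319)) (T.h (P (nat_lit 0)) (M (nat_lit 67029174892799))))))))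 (T.h (P (nat_lit 0)) (T.h (T.h (M (nat_lit 59069002839219290536673279)) (T.h (P (nat_lit 0)) (T.h (M (nat_lit 36520639950911176703)) (T.h (P (nat_lit 0)) (M (nat_lit 13430654916799)))))) (T.h (P (nat_lit 0)) (T.h (T.h (M (nat_lit 15046290345585278975)) (T.h (P (nat_lit 0)) (P (nat_lit 23033258137024)))) (T.h (P (nat_lit 0)) (M (nat_lit 21456184609823)))))))) (T.h (T.h (P (nat_lit 0)) (T.h (T.h (P (nat_lit 0)) (T.h (P (nat_lit 77741490753788796993536)) (T.h (P (nat_lit 0)) (P (nat_lit 84880849788010496))))) (T.h (P (nat_lit 0)) (T.h (T.h (P (nat_lit 0)) (P (nat_lit 31457375987564544))) (P (nat_lit 0)))))) (T.h (T.h (T.h (M (nat_lit 14847192560085279283609599)) (T.h (P (nat_lit 0)) (T.h (P (nat_lit 67519148981114372096)) (T.h (P (nat_lit 0)) (M (nat_lit 98647648209967)))))) (T.h (P (nat_lit 0)) (T.h (T.h (P (nat_lit 70884545633001144320)) (T.h (P (nat_lit 0)) (M (nat_lit 21861736655647)))) (T.h (P (nat_lit 0)) (M (nat_lit 40471623774847)))))) (T.h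 (T.h (P (nat_lit 0)) (T.h (T.h (P (nat_lit 0)) (P (nat_lit 29959203723739136))) (P (nat_lit 0)))) (T.h (T.h (T.h (P (nat_lit 25187028042550083584)) (T.h (P (nat_lit 0)) (M (nat_lit 12378718167215)))) (T.h (P (nat_lit 0)) (M (nat_lit 27698742121407)))) (T.h (P (nat_lit 0)) (P (nat_lit 26096485742336)))))))), (T.h (T.h (T.h (P (nat_lit 0)) (T.h (P (nat_lit 58338322745655305359807479808)) (T.h (P (nat_lit 0)) (T.h (M (nat_lit 143992858799189258141695)) (T.h (P (nat_lit 0)) (P (nat_lit 127095104719126528))))))) (T.h (P (nat_lit 0)) (T.h (T.h (P (nat_lit 0)) (T.h (M (nat_lit 547303062642554096844799)) (T.h (P (nat_lit 0)) (P (nat_lit 35914537506177024))))) (T.h (P (nat_lit 0)) (T.h (T.h (P (nat_lit 0)) (P (nat_lit 198891281537531904))) (P (nat_lit 0))))))) (T.h (T.h (P (nat_lit 0)) (T.h (T.h (M (nat_lit 29977597977430621685809151)) (T.h (P (nat_lit 0)) (T.h (P (nat_lit 733060897668971102208)) (T.h (P (nat_lit 0)) (P (nat_lit 75199114826304)))))) (T.h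 (P (nat_lit 0)) (T.h (T.h (P (nat_lit 548058563199883018240)) (T.h (P (nat_lit 0)) (M (nat_lit 71286842391023)))) (T.h (P (nat_lit 0)) (P (nat_lit 20692215999552))))))) (T.h (T.h (T.h (P (nat_lit 0)) (T.h (M (nat_lit 196566714422856253439999)) (T.h (P (nat_lit 0)) (M (nat_lit 133463193925386239))))) (T.h (P (nat_lit 0)) (T.h (T.h (P (nat_lit 0)) (M (nat_lit 290464226375008255))) (P (nat_lit 0))))) (T.h (T.h (P (nat_lit 0)) (T.h (T.h (P (nat_lit 235249386978065514496)) (T.h (P (nat_lit 0)) (M (nat_lit 26168208122831)))) (T.h (P (nat_lit 0)) (M (nat_lit 27999752123807))))) (T.h (T.h (T.h (P (nat_lit 0)) (M (nat_lit 295902911463981055))) (P (nat_lit 0))) (T.h (T.h (P (nat_lit 0)) (P (nat_lit 33509116181904))) (P (nat_lit 0)))))))), (T.h (T.h (T.h (M (nat_lit 371083964574087838859463028113407)) (T.h (P (nat_lit 0)) (T.h (M (nat_lit 130062820994910637692813311)) (T.h (P (nat_lit 0)) (T.h (M (nat_lit 4481646528095584255)) (T.h (P (nat_lit 0)) (P (nat_lit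 44867756293920)))))))) (T.h (P (nat_lit 0)) (T.h (T.h (P (nat_lit 97391245096008048692953088)) (T.h (P (nat_lit 0)) (T.h (M (nat_lit 74052463673475071)) (T.h (P (nat_lit 0)) (P (nat_lit 18881862230160)))))) (T.h (P (nat_lit 0)) (T.h (T.h (P (nat_lit 31885170502025609216)) (T.h (P (nat_lit 0)) (P (nat_lit 58895177060304)))) (T.h (P (nat_lit 0)) (P (nat_lit 123631125776928)))))))) (T.h (T.h (P (nat_lit 0)) (T.h (T.h (P (nat_lit 0)) (T.h (M (nat_lit 118924752944854925836287)) (T.h (P (nat_lit 0)) (M (nat_lit 153545642275045375))))) (T.h (P (nat_lit 0)) (T.h (T.h (P (nat_lit 0)) (P (nat_lit 615333263927902208))) (P (nat_lit 0)))))) (T.h (T.h (T.h (P (nat_lit 42179623406802210719268864)) (T.h (P (nat_lit 0)) (T.h (M (nat_lit 219990005619055656959)) (T.h (P (nat_lit 0)) (P (nat_lit 48915629724816)))))) (T.h (P (nat_lit 0)) (T.h (T.h (P (nat_lit 43885872022711959552)) (T.h (P (nat_lit 0)) (M (nat_lit 95326189353503)))) (T.h (P (nat_lit 0)) (P (nat_lit 98205074249616))))))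 (T.h (T.h (P (nat_lit 0)) (T.h (T.h (P (nat_lit 0)) (P (nat_lit 417328928940851200))) (P (nat_lit 0)))) (T.h (T.h (T.h (M (nat_lit 96505062973262266367)) (T.h (P (nat_lit 0)) (P (nat_lit 89349219871200)))) (T.h (P (nat_lit 0)) (P (nat_lit 98625349565856)))) (T.h (P (nat_lit 0)) (M (nat_lit 23068810750751)))))))), (T.h (T.h (T.h (P (nat_lit 0)) (T.h (P (nat_lit 7284968311669380775858405376)) (T.h (P (nat_lit 0)) (T.h (M (nat_lit 13929962863778288631807)) (T.h (P (nat_lit 0)) (M (nat_lit 86406858325852159))))))) (T.h (P (nat_lit 0)) (T.h (T.h (P (nat_lit 0)) (T.h (M (nat_lit 47915842399684846944255)) (T.h (P (nat_lit 0)) (M (nat_lit 996276945027071))))) (T.h (P (nat_lit 0)) (T.h (T.h (P (nat_lit 0)) (P (nat_lit 78293684505149440))) (P (nat_lit 0))))))) (T.h (T.h (P (nat_lit 0)) (T.h (T.h (P (nat_lit 57569111757143935125815296)) (T.h (P (nat_lit 0)) (P (nat_lit 253539555411820019712)))) (T.h (P (nat_lit 0)) (M (nat_lit 269741471717757288447))))) (T.h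 (T.h (T.h (P (nat_lit 0)) (T.h (P (nat_lit 92978638380361695887360)) (T.h (P (nat_lit 0)) (M (nat_lit 69288826749681663))))) (T.h (P (nat_lit 0)) (T.h (T.h (P (nat_lit 0)) (P (nat_lit 335433430287843328))) (P (nat_lit 0))))) (T.h (T.h (P (nat_lit 0)) (M (nat_lit 283639000275028541439))) (T.h (T.h (T.h (P (nat_lit 0)) (P (nat_lit 51600025875382272))) (P (nat_lit 0))) (P (nat_lit 0))))))), (T.h (T.h (P (nat_lit 0)) (T.h (T.h (M (nat_lit 1979003726842916632434573311)) (T.h (P (nat_lit 0)) (T.h (P (nat_lit 15521847690240391643136)) (T.h (P (nat_lit 0)) (P (nat_lit 73809589357477888)))))) (T.h (P (nat_lit 0)) (T.h (T.h (P (nat_lit 25426781780498710528000)) (T.h (P (nat_lit 0)) (P (nat_lit 17473273924747264)))) (T.h (P (nat_lit 0)) (M (nat_lit 31245948319891455))))))) (T.h (T.h (T.h (P (nat_lit 0)) (T.h (P (nat_lit 6033007216961144628445184)) (T.h (P (nat_lit 0)) (T.h (P (nat_lit 100026648258754379776)) (T.h (P (nat_lit 0)) (P (nat_lit 4347538975168)))))))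 (T.h (P (nat_lit 0)) (T.h (T.h (P (nat_lit 0)) (T.h (P (nat_lit 36594049878014820352)) (T.h (P (nat_lit 0)) (P (nat_lit 9826934429112))))) (T.h (P (nat_lit 0)) (T.h (T.h (P (nat_lit 0)) (M (nat_lit 27675213239079))) (P (nat_lit 0))))))) (T.h (T.h (P (nat_lit 0)) (T.h (T.h (M (nat_lit 28442811896070351618047)) (T.h (P (nat_lit 0)) (M (nat_lit 39832931888037887)))) (T.h (P (nat_lit 0)) (M (nat_lit 3880718776664063))))) (T.h (T.h (T.h (P (nat_lit 0)) (T.h (M (nat_lit 4033459024174252031)) (T.h (P (nat_lit 0)) (M (nat_lit 124545891378263))))) (T.h (P (nat_lit 0)) (T.h (T.h (P (nat_lit 0)) (P (nat_lit 18253563038648))) (P (nat_lit 0))))) (T.h (T.h (P (nat_lit 0)) (M (nat_lit 22434746824687615))) (T.h (T.h (T.h (P (nat_lit 0)) (M (nat_lit 18308099831167))) (P (nat_lit 0))) (P (nat_lit 0)))))))), (T.h (T.h (P (nat_lit 0)) (T.h (T.h (P (nat_lit 0)) (T.h (M (nat_lit 52975290750574589512777727)) (T.h (P (nat_lit 0)) (T.h (M (nat_lit 34904935235500113919))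 (T.h (P (nat_lit 0)) (P (nat_lit 56298792702432))))))) (T.h (P (nat_lit 0)) (T.h (T.h (P (nat_lit 0)) (T.h (P (nat_lit 11868878183400996864)) (T.h (P (nat_lit 0)) (M (nat_lit 7360504039919))))) (T.h (P (nat_lit 0)) (T.h (T.h (P (nat_lit 0)) (M (nat_lit 50136009656079))) (P (nat_lit 0)))))))) (T.h (T.h (T.h (P (nat_lit 3324441184928717394342313984)) (T.h (P (nat_lit 0)) (T.h (P (nat_lit 45332878682941263183872)) (T.h (P (nat_lit 0)) (M (nat_lit 57941056670203903)))))) (T.h (P (nat_lit 0)) (T.h (T.h (P (nat_lit 50426773189384116109312)) (T.h (P (nat_lit 0)) (M (nat_lit 116859597552058367)))) (T.h (P (nat_lit 0)) (P (nat_lit 98180799485198336)))))) (T.h (T.h (P (nat_lit 0)) (T.h (T.h (P (nat_lit 0)) (T.h (M (nat_lit 80555065487084486655)) (T.h (P (nat_lit 0)) (P (nat_lit 33090015529024))))) (T.h (P (nat_lit 0)) (T.h (T.h (P (nat_lit 0)) (M (nat_lit 5372284740815))) (P (nat_lit 0)))))) (T.h (T.h (T.h (P (nat_lit 25261100213903260909568)) (T.h (P (nat_lit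 0)) (M (nat_lit 16134266504249343)))) (T.h (P (nat_lit 0)) (M (nat_lit 12153504290111487)))) (T.h (T.h (P (nat_lit 0)) (T.h (T.h (P (nat_lit 0)) (P (nat_lit 44659019242992))) (P (nat_lit 0)))) (P (nat_lit 27838622424006656)))))))]
def lP11_20 : List (T ℤ) := [(T.h (T.h (P (nat_lit 0)) (T.h (T.h (P (nat_lit 17082036413506276926519508992)) (T.h (P (nat_lit 0)) (T.h (M (nat_lit 390753419711211322212351)) (T.h (P (nat_lit 0)) (P (nat_lit 69628086113042432)))))) (T.h (P (nat_lit 0)) (T.h (T.h (M (nat_lit 114527323423051584897023)) (T.h (P (nat_lit 0)) (P (nat_lit 133608228411277312)))) (T.h (P (nat_lit 0)) (M (nat_lit 9288448203948031))))))) (T.h (T.h (T.h (P (nat_lit 0)) (T.h (M (nat_lit 18234229295357103219671039)) (T.h (P (nat_lit 0)) (T.h (P (nat_lit 283096305960082210816)) (T.h (P (nat_lit 0)) (P (nat_lit 43733501269728))))))) (T.h (P (nat_lit 0)) (T.h (T.h (P (nat_lit 0)) (T.h (P (nat_lit 240577523003248607232)) (T.h (P (nat_lit 0)) (M (nat_lit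 87152537813951))))) (T.h (P (nat_lit 0)) (T.h (T.h (P (nat_lit 0)) (P (nat_lit 190615479019776))) (P (nat_lit 0))))))) (T.h (T.h (P (nat_lit 0)) (T.h (T.h (M (nat_lit 269358145763738191396863)) (T.h (P (nat_lit 0)) (M (nat_lit 350429977944653823)))) (T.h (P (nat_lit 0)) (M (nat_lit 179654202756825087))))) (T.h (T.h (T.h (P (nat_lit 0)) (T.h (P (nat_lit 295544313700350427136)) (T.h (P (nat_lit 0)) (P (nat_lit 63398187716256))))) (T.h (P (nat_lit 0)) (T.h (T.h (P (nat_lit 0)) (M (nat_lit 34445148703823))) (P (nat_lit 0))))) (T.h (T.h (P (nat_lit 0)) (M (nat_lit 304326929354260479))) (T.h (T.h (T.h (P (nat_lit 0)) (P (nat_lit 29696131059552))) (P (nat_lit 0))) (P (nat_lit 0)))))))), (T.h (T.h (P (nat_lit 0)) (T.h (T.h (P (nat_lit 0)) (T.h (M (nat_lit 18855536584253307631960063)) (T.h (P (nat_lit 0)) (T.h (M (nat_lit 52671097644393693183)) (T.h (P (nat_lit 0)) (M (nat_lit 46596410198495))))))) (T.h (P (nat_lit 0)) (T.h (T.h (P (nat_lit 0)) (T.h (M (nat_lit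 157459183668635369471)) (T.h (P (nat_lit 0)) (M (nat_lit 10185240531311))))) (T.h (P (nat_lit 0)) (T.h (T.h (P (nat_lit 0)) (P (nat_lit 17048348072064))) (P (nat_lit 0)))))))) (T.h (T.h (T.h (M (nat_lit 164541358652724079579220672511)) (T.h (P (nat_lit 0)) (T.h (P (nat_lit 86926503243103613222912)) (T.h (P (nat_lit 0)) (P (nat_lit 38132951317643264)))))) (T.h (P (nat_lit 0)) (T.h (T.h (M (nat_lit 30443823574535712538623)) (T.h (P (nat_lit 0)) (P (nat_lit 228576517300535296)))) (T.h (P (nat_lit 0)) (M (nat_lit 9338296426364927)))))) (T.h (T.h (P (nat_lit 0)) (T.h (T.h (P (nat_lit 0)) (T.h (M (nat_lit 734604657569608761343)) (T.h (P (nat_lit 0)) (M (nat_lit 168127064745695))))) (T.h (P (nat_lit 0)) (T.h (T.h (P (nat_lit 0)) (M (nat_lit 98400705361055))) (P (nat_lit 0)))))) (T.h (T.h (T.h (M (nat_lit 205694808157285431377919)) (T.h (P (nat_lit 0)) (P (nat_lit 236066012307668992)))) (T.h (P (nat_lit 0)) (P (nat_lit 137989895693352960)))) (T.h (T.h (P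 (nat_lit 0)) (T.h (T.h (P (nat_lit 0)) (M (nat_lit 297989783130959))) (P (nat_lit 0)))) (M (nat_lit 110618415237251071))))))), (T.h (T.h (P (nat_lit 0)) (T.h (T.h (M (nat_lit 10181190058579763740859695103)) (T.h (P (nat_lit 0)) (T.h (P (nat_lit 156197456019340321095680)) (T.h (P (nat_lit 0)) (P (nat_lit 49489072030679040)))))) (T.h (P (nat_lit 0)) (T.h (T.h (M (nat_lit 37393484389962949328895)) (T.h (P (nat_lit 0)) (M (nat_lit 8939685262655487)))) (T.h (P (nat_lit 0)) (M (nat_lit 190299717456330751))))))) (T.h (T.h (T.h (P (nat_lit 0)) (T.h (M (nat_lit 92426807946669620230881279)) (T.h (P (nat_lit 0)) (M (nat_lit 119055661313460011007))))) (T.h (P (nat_lit 0)) (T.h (T.h (P (nat_lit 0)) (M (nat_lit 488657164903791984639))) (P (nat_lit 0))))) (T.h (T.h (P (nat_lit 0)) (T.h (T.h (M (nat_lit 126116427677813432123391)) (T.h (P (nat_lit 0)) (P (nat_lit 245202494400200704)))) (T.h (P (nat_lit 0)) (M (nat_lit 65361588179927039))))) (T.h (T.h (T.h (P (nat_lit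 0)) (M (nat_lit 218661654804008271871))) (P (nat_lit 0))) (T.h (T.h (P (nat_lit 0)) (M (nat_lit 13458533514379263))) (P (nat_lit 0))))))), (T.h (T.h (T.h (P (nat_lit 221815957248227472857689472630784)) (T.h (P (nat_lit 0)) (T.h (P (nat_lit 30988763977504371698040832)) (T.h (P (nat_lit 0)) (T.h (P (nat_lit 53072859227878326272)) (T.h (P (nat_lit 0)) (P (nat_lit 88283525211360)))))))) (T.h (P (nat_lit 0)) (T.h (T.h (M (nat_lit 21301793150286031799451647)) (T.h (P (nat_lit 0)) (T.h (P (nat_lit 12577470158727020544)) (T.h (P (nat_lit 0)) (M (nat_lit 126875042397455)))))) (T.h (P (nat_lit 0)) (T.h (T.h (P (nat_lit 5811565880164745216)) (T.h (P (nat_lit 0)) (M (nat_lit 14702718992527)))) (T.h (P (nat_lit 0)) (M (nat_lit 12558189962591)))))))) (T.h (T.h (P (nat_lit 0)) (T.h (T.h (P (nat_lit 0)) (T.h (P (nat_lit 56538922558053991579648)) (T.h (P (nat_lit 0)) (P (nat_lit 87981380135452672))))) (T.h (P (nat_lit 0)) (T.h (T.h (P (nat_lit 0)) (P (nat_lit 83429182192615424)))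 (P (nat_lit 0)))))) (T.h (T.h (T.h (P (nat_lit 28229558321699971322085376)) (T.h (P (nat_lit 0)) (T.h (M (nat_lit 157729516029757882367)) (T.h (P (nat_lit 0)) (M (nat_lit 380349276558495)))))) (T.h (P (nat_lit 0)) (T.h (T.h (M (nat_lit 94827715425185300479)) (T.h (P (nat_lit 0)) (M (nat_lit 17082524090335)))) (T.h (P (nat_lit 0)) (P (nat_lit 48802162919344)))))) (T.h (T.h (P (nat_lit 0)) (T.h (T.h (P (nat_lit 0)) (P (nat_lit 142903026199724032))) (P (nat_lit 0)))) (T.h (T.h (T.h (P (nat_lit 20037403880999354368)) (T.h (P (nat_lit 0)) (M (nat_lit 466618206601247)))) (T.h (P (nat_lit 0)) (M (nat_lit 112606955192847)))) (T.h (P (nat_lit 0)) (M (nat_lit 4842135423775)))))))), (T.h (T.h (T.h (P (nat_lit 0)) (T.h (M (nat_lit 15090455622766928826954940415)) (T.h (P (nat_lit 0)) (T.h (P (nat_lit 6456252935342588428288)) (T.h (P (nat_lit 0)) (M (nat_lit 50528122080002047))))))) (T.h (P (nat_lit 0)) (T.h (T.h (P (nat_lit 0)) (T.h (P (nat_lit 34449875306500239392768))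 (T.h (P (nat_lit 0)) (P (nat_lit 198833590393143296))))) (T.h (P (nat_lit 0)) (T.h (T.h (P (nat_lit 0)) (M (nat_lit 98869187456008191))) (P (nat_lit 0))))))) (T.h (T.h (P (nat_lit 0)) (T.h (T.h (P (nat_lit 10068552722795612291989504)) (T.h (P (nat_lit 0)) (T.h (M (nat_lit 39613226278748946431)) (T.h (P (nat_lit 0)) (M (nat_lit 21695537416079)))))) (T.h (P (nat_lit 0)) (T.h (T.h (M (nat_lit 119100335992120279039)) (T.h (P (nat_lit 0)) (M (nat_lit 104841686593631)))) (T.h (P (nat_lit 0)) (P (nat_lit 69011936055024))))))) (T.h (T.h (T.h (P (nat_lit 0)) (T.h (P (nat_lit 126012551805512213069824)) (T.h (P (nat_lit 0)) (P (nat_lit 452982372442505216))))) (T.h (P (nat_lit 0)) (T.h (T.h (P (nat_lit 0)) (M (nat_lit 72723711117164543))) (P (nat_lit 0))))) (T.h (T.h (P (nat_lit 0)) (T.h (T.h (P (nat_lit 221726420270263042048)) (T.h (P (nat_lit 0)) (P (nat_lit 48251842434480)))) (T.h (P (nat_lit 0)) (P (nat_lit 62131361260368))))) (T.h (T.h (T.h (P (nat_lit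 0)) (P (nat_lit 251079679583748096))) (P (nat_lit 0))) (T.h (T.h (P (nat_lit 0)) (M (nat_lit 13001708302415))) (P (nat_lit 0)))))))), (T.h (T.h (T.h (M (nat_lit 365859056997179494311217774723071)) (T.h (P (nat_lit 0)) (T.h (P (nat_lit 95043781126207988461207552)) (T.h (P (nat_lit 0)) (T.h (P (nat_lit 45402449796753522688)) (T.h (P (nat_lit 0)) (P (nat_lit 56467437188544)))))))) (T.h (P (nat_lit 0)) (T.h (T.h (M (nat_lit 73227404190882109946068991)) (T.h (P (nat_lit 0)) (T.h (M (nat_lit 318690438135297343487)) (T.h (P (nat_lit 0)) (P (nat_lit 149472599354640)))))) (T.h (P (nat_lit 0)) (T.h (T.h (P (nat_lit 4577853697681260544)) (T.h (P (nat_lit 0)) (M (nat_lit 102045009261311)))) (T.h (P (nat_lit 0)) (M (nat_lit 16363685155391)))))))) (T.h (T.h (P (nat_lit 0)) (T.h (T.h (P (nat_lit 0)) (T.h (P (nat_lit 80005365493780478689280)) (T.h (P (nat_lit 0)) (P (nat_lit 484838152563261440))))) (T.h (P (nat_lit 0)) (T.h (T.h (P (nat_lit 0)) (M (nat_lit 168651984377249791)))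 (P (nat_lit 0)))))) (T.h (T.h (T.h (P (nat_lit 88522244040274686435655680)) (T.h (P (nat_lit 0)) (T.h (P (nat_lit 62140088511780356096)) (T.h (P (nat_lit 0)) (P (nat_lit 523795312924848)))))) (T.h (P (nat_lit 0)) (T.h (T.h (M (nat_lit 299228892824000790527)) (T.h (P (nat_lit 0)) (M (nat_lit 124747445216159)))) (T.h (P (nat_lit 0)) (P (nat_lit 1670783220000)))))) (T.h (T.h (P (nat_lit 0)) (T.h (T.h (P (nat_lit 0)) (P (nat_lit 537569748426817536))) (P (nat_lit 0)))) (T.h (T.h (T.h (M (nat_lit 20539076300668665855)) (T.h (P (nat_lit 0)) (P (nat_lit 376707924910080)))) (T.h (P (nat_lit 0)) (P (nat_lit 148518079556400)))) (T.h (P (nat_lit 0)) (M (nat_lit 39656712426047)))))))), (T.h (T.h (T.h (P (nat_lit 0)) (T.h (P (nat_lit 582142847540216020055621632)) (T.h (P (nat_lit 0)) (T.h (M (nat_lit 38136091729712604250111)) (T.h (P (nat_lit 0)) (M (nat_lit 84116176310534143))))))) (T.h (P (nat_lit 0)) (T.h (T.h (P (nat_lit 0)) (T.h (P (nat_lit 291093967612907788173312))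 (T.h (P (nat_lit 0)) (M (nat_lit 91385267866566655))))) (T.h (P (nat_lit 0)) (T.h (T.h (P (nat_lit 0)) (P (nat_lit 32110643246071808))) (P (nat_lit 0))))))) (T.h (T.h (P (nat_lit 0)) (T.h (T.h (M (nat_lit 97155157171162051183116287)) (T.h (P (nat_lit 0)) (M (nat_lit 461555658556035825663)))) (T.h (P (nat_lit 0)) (M (nat_lit 111930520095617449983))))) (T.h (T.h (T.h (P (nat_lit 0)) (T.h (M (nat_lit 172720657896388696211455)) (T.h (P (nat_lit 0)) (M (nat_lit 436876660536344575))))) (T.h (P (nat_lit 0)) (T.h (T.h (P (nat_lit 0)) (P (nat_lit 210992573506224128))) (P (nat_lit 0))))) (T.h (T.h (P (nat_lit 0)) (M (nat_lit 158818508046279376895))) (T.h (T.h (T.h (P (nat_lit 0)) (M (nat_lit 140017003359928319))) (P (nat_lit 0))) (P (nat_lit 0))))))), (T.h (T.h (P (nat_lit 0)) (T.h (T.h (M (nat_lit 132369288350525572991942655)) (T.h (P (nat_lit 0)) (T.h (P (nat_lit 49960300879624666087424)) (T.h (P (nat_lit 0)) (P (nat_lit 27722015675285504)))))) (T.h (P (nat_lit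 0)) (T.h (T.h (P (nat_lit 13122000031705116704768)) (T.h (P (nat_lit 0)) (M (nat_lit 11210096307503103)))) (T.h (P (nat_lit 0)) (P (nat_lit 10357380856741888))))))) (T.h (T.h (T.h (P (nat_lit 0)) (T.h (M (nat_lit 8616355234777971214516223)) (T.h (P (nat_lit 0)) (T.h (M (nat_lit 33920691208863088639)) (T.h (P (nat_lit 0)) (P (nat_lit 14274935509968))))))) (T.h (P (nat_lit 0)) (T.h (T.h (P (nat_lit 0)) (T.h (P (nat_lit 19834865608059518976)) (T.h (P (nat_lit 0)) (M (nat_lit 28022299488335))))) (T.h (P (nat_lit 0)) (T.h (T.h (P (nat_lit 0)) (P (nat_lit 60164369042112))) (P (nat_lit 0))))))) (T.h (T.h (P (nat_lit 0)) (T.h (T.h (P (nat_lit 14534661823462069239808)) (T.h (P (nat_lit 0)) (P (nat_lit 98496929035583488)))) (T.h (P (nat_lit 0)) (M (nat_lit 58464951468785663))))) (T.h (T.h (T.h (P (nat_lit 0)) (T.h (P (nat_lit 53739077057741062144)) (T.h (P (nat_lit 0)) (P (nat_lit 166972691656224))))) (T.h (P (nat_lit 0)) (T.h (T.h (P (nat_lit 0)) (M (nat_lit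 80729688598463))) (P (nat_lit 0))))) (T.h (T.h (P (nat_lit 0)) (M (nat_lit 1289211891023871))) (T.h (T.h (T.h (P (nat_lit 0)) (P (nat_lit 28312305720144))) (P (nat_lit 0))) (P (nat_lit 0))))))))]
def lP11_21 : List (T ℤ) := [(T.h (T.h (P (nat_lit 0)) (T.h (T.h (P (nat_lit 0)) (T.h (P (nat_lit 40849003622773885308502016)) (T.h (P (nat_lit 0)) (T.h (P (nat_lit 88674402378826383360)) (T.h (P (nat_lit 0)) (M (nat_lit 84423952920671))))))) (T.h (P (nat_lit 0)) (T.h (T.h (P (nat_lit 0)) (T.h (P (nat_lit 87747530647467458560)) (T.h (P (nat_lit 0)) (P (nat_lit 1107098952480))))) (T.h (P (nat_lit 0)) (T.h (T.h (P (nat_lit 0)) (P (nat_lit 41456688470064))) (P (nat_lit 0)))))))) (T.h (T.h (T.h (M (nat_lit 23750497267468145476803493887)) (T.h (P (nat_lit 0)) (T.h (M (nat_lit 40074269084746944348159)) (T.h (P (nat_lit 0)) (P (nat_lit 197422760820899840)))))) (T.h (P (nat_lit 0)) (T.h (T.h (P (nat_lit 201669130040785399447552)) (T.h (P (nat_lit 0)) (P (nat_lit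 240338476512886784)))) (T.h (P (nat_lit 0)) (M (nat_lit 195828628248412159)))))) (T.h (T.h (P (nat_lit 0)) (T.h (T.h (P (nat_lit 0)) (T.h (M (nat_lit 85393950303710085119)) (T.h (P (nat_lit 0)) (M (nat_lit 193539970835423))))) (T.h (P (nat_lit 0)) (T.h (T.h (P (nat_lit 0)) (P (nat_lit 15312153295584))) (P (nat_lit 0)))))) (T.h (T.h (T.h (M (nat_lit 88579240001019647623167)) (T.h (P (nat_lit 0)) (P (nat_lit 20310419239223296)))) (T.h (P (nat_lit 0)) (P (nat_lit 110201006966620160)))) (T.h (T.h (P (nat_lit 0)) (T.h (T.h (P (nat_lit 0)) (M (nat_lit 192967807010831))) (P (nat_lit 0)))) (M (nat_lit 84785619645956095))))))), (T.h (T.h (P (nat_lit 0)) (T.h (T.h (P (nat_lit 13246153738169170192895049728)) (T.h (P (nat_lit 0)) (T.h (P (nat_lit 166204689587340104957952)) (T.h (P (nat_lit 0)) (P (nat_lit 59752861649862656)))))) (T.h (P (nat_lit 0)) (T.h (T.h (P (nat_lit 22282810127419298545664)) (T.h (P (nat_lit 0)) (P (nat_lit 92866947705438208)))) (T.h (P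 (nat_lit 0)) (P (nat_lit 5455158084206592))))))) (T.h (T.h (T.h (P (nat_lit 0)) (T.h (P (nat_lit 16394297414832749627310080)) (T.h (P (nat_lit 0)) (M (nat_lit 298934512071659749375))))) (T.h (P (nat_lit 0)) (T.h (T.h (P (nat_lit 0)) (M (nat_lit 71002780518664110079))) (P (nat_lit 0))))) (T.h (T.h (P (nat_lit 0)) (T.h (T.h (P (nat_lit 191777241764567416045568)) (T.h (P (nat_lit 0)) (P (nat_lit 336235547090026496)))) (T.h (P (nat_lit 0)) (M (nat_lit 13766620995387391))))) (T.h (T.h (T.h (P (nat_lit 0)) (M (nat_lit 304261878522052607999))) (P (nat_lit 0))) (T.h (T.h (P (nat_lit 0)) (P (nat_lit 28485611734237184))) (P (nat_lit 0))))))), (T.h (T.h (T.h (M (nat_lit 301930430976752772082627178921983)) (T.h (P (nat_lit 0)) (T.h (M (nat_lit 40800231124997339869085695)) (T.h (P (nat_lit 0)) (T.h (M (nat_lit 76093811097564348415)) (T.h (P (nat_lit 0)) (M (nat_lit 144214233157871)))))))) (T.h (P (nat_lit 0)) (T.h (T.h (P (nat_lit 33805788263958837123350528))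 (T.h (P (nat_lit 0)) (T.h (P (nat_lit 38408148355330867200)) (T.h (P (nat_lit 0)) (P (nat_lit 235108562050512)))))) (T.h (P (nat_lit 0)) (T.h (T.h (M (nat_lit 10211001621526085631)) (T.h (P (nat_lit 0)) (P (nat_lit 6266323263456)))) (T.h (P (nat_lit 0)) (P (nat_lit 12869594454240)))))))) (T.h (T.h (P (nat_lit 0)) (T.h (T.h (P (nat_lit 0)) (T.h (M (nat_lit 15720829254011153547263)) (T.h (P (nat_lit 0)) (M (nat_lit 167729696344506367))))) (T.h (P (nat_lit 0)) (T.h (T.h (P (nat_lit 0)) (M (nat_lit 101880128713752575))) (P (nat_lit 0)))))) (T.h (T.h (T.h (M (nat_lit 34278694039064037843533823)) (T.h (P (nat_lit 0)) (T.h (P (nat_lit 302242232728647892992)) (T.h (P (nat_lit 0)) (P (nat_lit 724853574919152)))))) (T.h (P (nat_lit 0)) (T.h (T.h (P (nat_lit 18946603044034314240)) (T.h (P (nat_lit 0)) (P (nat_lit 15425047489248)))) (T.h (P (nat_lit 0)) (M (nat_lit 97449469217855)))))) (T.h (T.h (P (nat_lit 0)) (T.h (T.h (P (nat_lit 0)) (M (nat_lit 220461292208062463)))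 (P (nat_lit 0)))) (T.h (T.h (T.h (M (nat_lit 10152285000142159871)) (T.h (P (nat_lit 0)) (P (nat_lit 871940962933920)))) (T.h (P (nat_lit 0)) (P (nat_lit 236063081848752)))) (T.h (P (nat_lit 0)) (M (nat_lit 48090083543279)))))))), (T.h (T.h (T.h (P (nat_lit 0)) (T.h (P (nat_lit 1388872802706113833549692928)) (T.h (P (nat_lit 0)) (T.h (P (nat_lit 74920589271901388406784)) (T.h (P (nat_lit 0)) (P (nat_lit 200522911912558592))))))) (T.h (P (nat_lit 0)) (T.h (T.h (P (nat_lit 0)) (T.h (P (nat_lit 10536253322663649345536)) (T.h (P (nat_lit 0)) (M (nat_lit 205977163513462783))))) (T.h (P (nat_lit 0)) (T.h (T.h (P (nat_lit 0)) (M (nat_lit 71259882152165375))) (P (nat_lit 0))))))) (T.h (T.h (P (nat_lit 0)) (T.h (T.h (M (nat_lit 15756539649685463723147263)) (T.h (P (nat_lit 0)) (P (nat_lit 40276694820655726592)))) (T.h (P (nat_lit 0)) (P (nat_lit 15989594025086681088))))) (T.h (T.h (T.h (P (nat_lit 0)) (T.h (M (nat_lit 169228850840438533259263)) (T.h (P (nat_lit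 0)) (M (nat_lit 637517929250750463))))) (T.h (P (nat_lit 0)) (T.h (T.h (P (nat_lit 0)) (P (nat_lit 8865754401996800))) (P (nat_lit 0))))) (T.h (T.h (P (nat_lit 0)) (M (nat_lit 17859271203097673727))) (T.h (T.h (T.h (P (nat_lit 0)) (M (nat_lit 430862760275705855))) (P (nat_lit 0))) (P (nat_lit 0))))))), (T.h (T.h (P (nat_lit 0)) (T.h (T.h (M (nat_lit 10614761242930332693178613759)) (T.h (P (nat_lit 0)) (T.h (M (nat_lit 21824008348600161533951)) (T.h (P (nat_lit 0)) (M (nat_lit 94813427255377919)))))) (T.h (P (nat_lit 0)) (T.h (T.h (P (nat_lit 390231007182503018496)) (T.h (P (nat_lit 0)) (M (nat_lit 9927204396433407)))) (T.h (P (nat_lit 0)) (M (nat_lit 19551959132831743))))))) (T.h (T.h (T.h (P (nat_lit 0)) (T.h (M (nat_lit 2659624865460651913379839)) (T.h (P (nat_lit 0)) (M (nat_lit 19608532925517135871))))) (T.h (P (nat_lit 0)) (T.h (T.h (P (nat_lit 0)) (P (nat_lit 17235806462521901056))) (P (nat_lit 0))))) (T.h (T.h (P (nat_lit 0)) (T.h (T.h (M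 (nat_lit 47396560525827472621567)) (T.h (P (nat_lit 0)) (M (nat_lit 22235135677235199)))) (T.h (P (nat_lit 0)) (P (nat_lit 96706364304392192))))) (T.h (T.h (T.h (P (nat_lit 0)) (M (nat_lit 14281166475124277247))) (P (nat_lit 0))) (T.h (T.h (P (nat_lit 0)) (M (nat_lit 63546177339752447))) (P (nat_lit 0))))))), (P (nat_lit 0)), (P (nat_lit 0)), (T.h (T.h (P (nat_lit 0)) (T.h (T.h (P (nat_lit 0)) (T.h (P (nat_lit 6546479697134641121067008)) (T.h (P (nat_lit 0)) (T.h (M (nat_lit 4787399348545650687)) (T.h (P (nat_lit 0)) (M (nat_lit 11650405526287))))))) (T.h (P (nat_lit 0)) (T.h (T.h (P (nat_lit 0)) (T.h (P (nat_lit 22831587893463482368)) (T.h (P (nat_lit 0)) (M (nat_lit 23872235273511))))) (T.h (P (nat_lit 0)) (T.h (T.h (P (nat_lit 0)) (P (nat_lit 16967370205168))) (P (nat_lit 0)))))))) (T.h (T.h (T.h (M (nat_lit 782089061910025663233916927)) (T.h (P (nat_lit 0)) (T.h (P (nat_lit 18063952995519278612480)) (T.h (P (nat_lit 0)) (M (nat_lit 12606398353178623))))))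 (T.h (P (nat_lit 0)) (T.h (T.h (M (nat_lit 14320835328243459424255)) (T.h (P (nat_lit 0)) (M (nat_lit 26618167397318655)))) (T.h (P (nat_lit 0)) (M (nat_lit 8925789642784767)))))) (T.h (T.h (P (nat_lit 0)) (T.h (T.h (P (nat_lit 0)) (T.h (P (nat_lit 24111187067511242752)) (T.h (P (nat_lit 0)) (P (nat_lit 29687087006240))))) (T.h (P (nat_lit 0)) (T.h (T.h (P (nat_lit 0)) (M (nat_lit 11967238186615))) (P (nat_lit 0)))))) (T.h (T.h (T.h (M (nat_lit 16426708158251637145599)) (T.h (P (nat_lit 0)) (M (nat_lit 42949802790125567)))) (T.h (P (nat_lit 0)) (M (nat_lit 22042204530900991)))) (T.h (T.h (P (nat_lit 0)) (T.h (T.h (P (nat_lit 0)) (P (nat_lit 17623647717064))) (P (nat_lit 0)))) (M (nat_lit 6131893213822975)))))))]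
def lP11_22 : List (T ℤ) := [(T.h (T.h (P (nat_lit 0)) (T.h (T.h (P (nat_lit 20984392715099619162048167936)) (T.h (P (nat_lit 0)) (T.h (M (nat_lit 8223931429363535314943)) (T.h (P (nat_lit 0)) (P (nat_lit 26419758957936640)))))) (T.h (P (nat_lit 0)) (T.h (T.h (P (nat_lit 19697029159794532941824)) (T.h (P (nat_lit 0)) (M (nat_lit 46708690346541055)))) (T.h (P (nat_lit 0)) (P (nat_lit 15994898100060160))))))) (T.h (T.h (T.h (P (nat_lit 0)) (T.h (M (nat_lit 23016326667677892480073727)) (T.h (P (nat_lit 0)) (T.h (M (nat_lit 4386139381002403839)) (T.h (P (nat_lit 0)) (M (nat_lit 14450944174591))))))) (T.h (P (nat_lit 0)) (T.h (T.h (P (nat_lit 0)) (T.h (P (nat_lit 29677769012967112704)) (T.h (P (nat_lit 0)) (M (nat_lit 4144068559599))))) (T.h (P (nat_lit 0)) (T.h (T.h (P (nat_lit 0)) (P (nat_lit 50708355223312))) (P (nat_lit 0))))))) (T.h (T.h (P (nat_lit 0)) (T.h (T.h (M (nat_lit 17505257867323948138495)) (T.h (P (nat_lit 0)) (M (nat_lit 738227850690559))))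 (T.h (P (nat_lit 0)) (M (nat_lit 33918669731856383))))) (T.h (T.h (T.h (P (nat_lit 0)) (T.h (P (nat_lit 3997095405463535616)) (T.h (P (nat_lit 0)) (P (nat_lit 6020971354256))))) (T.h (P (nat_lit 0)) (T.h (T.h (P (nat_lit 0)) (P (nat_lit 1500860940832))) (P (nat_lit 0))))) (T.h (T.h (P (nat_lit 0)) (M (nat_lit 93291811182837759))) (T.h (T.h (T.h (P (nat_lit 0)) (P (nat_lit 40339979884256))) (P (nat_lit 0))) (P (nat_lit 0)))))))), (T.h (T.h (P (nat_lit 0)) (T.h (T.h (P (nat_lit 0)) (T.h (M (nat_lit 10655501998343211475533823)) (T.h (P (nat_lit 0)) (T.h (P (nat_lit 12914465284454088704)) (T.h (P (nat_lit 0)) (P (nat_lit 8815688868816))))))) (T.h (P (nat_lit 0)) (T.h (T.h (P (nat_lit 0)) (T.h (P (nat_lit 14014821978452525056)) (T.h (P (nat_lit 0)) (P (nat_lit 22388334389568))))) (T.h (P (nat_lit 0)) (T.h (T.h (P (nat_lit 0)) (M (nat_lit 11562789853775))) (P (nat_lit 0)))))))) (T.h (T.h (T.h (M (nat_lit 3456173834636085084861497343)) (T.h (P (nat_lit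 0)) (T.h (M (nat_lit 8138862492074314301439)) (T.h (P (nat_lit 0)) (M (nat_lit 5272400747659263)))))) (T.h (P (nat_lit 0)) (T.h (T.h (P (nat_lit 79018735785822008639488)) (T.h (P (nat_lit 0)) (P (nat_lit 43116961213710336)))) (T.h (P (nat_lit 0)) (P (nat_lit 173742578925305856)))))) (T.h (T.h (P (nat_lit 0)) (T.h (T.h (P (nat_lit 0)) (T.h (M (nat_lit 74645592273925963775)) (T.h (P (nat_lit 0)) (M (nat_lit 8955757893743))))) (T.h (P (nat_lit 0)) (T.h (T.h (P (nat_lit 0)) (P (nat_lit 29719564744560))) (P (nat_lit 0)))))) (T.h (T.h (T.h (P (nat_lit 796842188950915252224)) (T.h (P (nat_lit 0)) (P (nat_lit 135300099771203584)))) (T.h (P (nat_lit 0)) (P (nat_lit 358151747026976768)))) (T.h (T.h (P (nat_lit 0)) (T.h (T.h (P (nat_lit 0)) (M (nat_lit 20837185961087))) (P (nat_lit 0)))) (M (nat_lit 79130026373513215))))))), (T.h (T.h (P (nat_lit 0)) (T.h (T.h (M (nat_lit 20545763807070606543294562303)) (T.h (P (nat_lit 0)) (T.h (P (nat_lit 12135496075166393303040))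 (T.h (P (nat_lit 0)) (M (nat_lit 35881187698753535)))))) (T.h (P (nat_lit 0)) (T.h (T.h (M (nat_lit 19160979863630824603647)) (T.h (P (nat_lit 0)) (P (nat_lit 52158500142071808)))) (T.h (P (nat_lit 0)) (M (nat_lit 14971273895362559))))))) (T.h (T.h (T.h (P (nat_lit 0)) (T.h (P (nat_lit 30576525179669562771111936)) (T.h (P (nat_lit 0)) (T.h (M (nat_lit 4299253708392235007)) (T.h (P (nat_lit 0)) (P (nat_lit 8704128682512))))))) (T.h (P (nat_lit 0)) (T.h (T.h (P (nat_lit 0)) (T.h (M (nat_lit 60109996656355704831)) (T.h (P (nat_lit 0)) (P (nat_lit 18560116891440))))) (T.h (P (nat_lit 0)) (T.h (T.h (P (nat_lit 0)) (M (nat_lit 53556555107663))) (P (nat_lit 0))))))) (T.h (T.h (P (nat_lit 0)) (T.h (T.h (P (nat_lit 18225494033046599368704)) (T.h (P (nat_lit 0)) (P (nat_lit 43606495874285568)))) (T.h (P (nat_lit 0)) (P (nat_lit 54131820061376512))))) (T.h (T.h (T.h (P (nat_lit 0)) (T.h (M (nat_lit 14785903864523522047)) (T.h (P (nat_lit 0)) (M (nat_lit 11727087712703)))))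 (T.h (P (nat_lit 0)) (T.h (T.h (P (nat_lit 0)) (P (nat_lit 22287634534368))) (P (nat_lit 0))))) (T.h (T.h (P (nat_lit 0)) (P (nat_lit 79124825958711296))) (T.h (T.h (T.h (P (nat_lit 0)) (M (nat_lit 38574100311983))) (P (nat_lit 0))) (P (nat_lit 0)))))))), (T.h (T.h (P (nat_lit 0)) (T.h (T.h (P (nat_lit 0)) (T.h (P (nat_lit 2731529024111075150266368)) (T.h (P (nat_lit 0)) (P (nat_lit 2922520119437426688))))) (T.h (P (nat_lit 0)) (T.h (T.h (P (nat_lit 0)) (M (nat_lit 14446821862908362751))) (P (nat_lit 0)))))) (T.h (T.h (T.h (P (nat_lit 2431989740396183413638299648)) (T.h (P (nat_lit 0)) (T.h (M (nat_lit 2389731705158014861311)) (T.h (P (nat_lit 0)) (M (nat_lit 737280053051391)))))) (T.h (P (nat_lit 0)) (T.h (T.h (M (nat_lit 67764700985457142398975)) (T.h (P (nat_lit 0)) (M (nat_lit 13085180765306879)))) (T.h (P (nat_lit 0)) (M (nat_lit 157432470344531967)))))) (T.h (T.h (P (nat_lit 0)) (T.h (T.h (P (nat_lit 0)) (P (nat_lit 43502318328160976896)))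 (P (nat_lit 0)))) (T.h (T.h (T.h (P (nat_lit 13155666161854431887360)) (T.h (P (nat_lit 0)) (M (nat_lit 84716766919393279)))) (T.h (P (nat_lit 0)) (M (nat_lit 344310799049883647)))) (T.h (P (nat_lit 0)) (P (nat_lit 86333522932170752))))))), (P (nat_lit 0)), (P (nat_lit 0)), (T.h (T.h (T.h (P (nat_lit 0)) (T.h (P (nat_lit 0)) (T.h (P (nat_lit 3799658250128866714583040)) (T.h (P (nat_lit 0)) (T.h (M (nat_lit 8697808965217550335)) (T.h (P (nat_lit 0)) (P (nat_lit 7331235369216)))))))) (T.h (P (nat_lit 0)) (T.h (T.h (M (nat_lit 25209046411597747371114495)) (T.h (P (nat_lit 0)) (T.h (P (nat_lit 43725222482997673984)) (T.h (P (nat_lit 0)) (M (nat_lit 14535246081599)))))) (T.h (P (nat_lit 0)) (T.h (T.h (P (nat_lit 6278840525973880832)) (T.h (P (nat_lit 0)) (P (nat_lit 26376776201776)))) (T.h (P (nat_lit 0)) (M (nat_lit 9250229793791)))))))) (T.h (T.h (P (nat_lit 0)) (T.h (T.h (P (nat_lit 0)) (T.h (P (nat_lit 4765318764970737926144)) (T.h (P (nat_lit 0))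 (P (nat_lit 47129979740487680))))) (T.h (P (nat_lit 0)) (T.h (T.h (P (nat_lit 0)) (M (nat_lit 31364363596070911))) (P (nat_lit 0)))))) (T.h (T.h (T.h (P (nat_lit 43317758592907383173808128)) (T.h (P (nat_lit 0)) (T.h (M (nat_lit 4301878864746905599)) (T.h (P (nat_lit 0)) (M (nat_lit 23316547824863)))))) (T.h (P (nat_lit 0)) (T.h (T.h (P (nat_lit 15337956339561267200)) (T.h (P (nat_lit 0)) (P (nat_lit 39895253467376)))) (T.h (P (nat_lit 0)) (P (nat_lit 6690205662128)))))) (T.h (T.h (P (nat_lit 0)) (T.h (T.h (P (nat_lit 0)) (P (nat_lit 69438054300712960))) (P (nat_lit 0)))) (T.h (T.h (T.h (M (nat_lit 31900998194440437759)) (T.h (P (nat_lit 0)) (M (nat_lit 19625802646735)))) (T.h (P (nat_lit 0)) (P (nat_lit 37463420197856)))) (T.h (P (nat_lit 0)) (M (nat_lit 1454396833919)))))))), (T.h (T.h (T.h (P (nat_lit 0)) (T.h (P (nat_lit 1980409599325634221637107712)) (T.h (P (nat_lit 0)) (T.h (M (nat_lit 15055359175053937737727)) (T.h (P (nat_lit 0)) (P (nat_lit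 3262392835637248))))))) (T.h (P (nat_lit 0)) (T.h (T.h (P (nat_lit 0)) (T.h (M (nat_lit 3622323455901260840959)) (T.h (P (nat_lit 0)) (M (nat_lit 38455619674882047))))) (T.h (P (nat_lit 0)) (T.h (T.h (P (nat_lit 0)) (M (nat_lit 32889710490746879))) (P (nat_lit 0))))))) (T.h (T.h (P (nat_lit 0)) (T.h (T.h (M (nat_lit 17906321837193087961530367)) (T.h (P (nat_lit 0)) (T.h (M (nat_lit 4387270251864129535)) (T.h (P (nat_lit 0)) (P (nat_lit 3163502112640)))))) (T.h (P (nat_lit 0)) (T.h (T.h (M (nat_lit 28621299218955370495)) (T.h (P (nat_lit 0)) (P (nat_lit 7964610238816)))) (T.h (P (nat_lit 0)) (M (nat_lit 57105588554927))))))) (T.h (T.h (T.h (P (nat_lit 0)) (T.h (M (nat_lit 3622323455901260840959)) (T.h (P (nat_lit 0)) (M (nat_lit 38455619674882047))))) (T.h (P (nat_lit 0)) (T.h (T.h (P (nat_lit 0)) (P (nat_lit 53787962859716608))) (P (nat_lit 0))))) (T.h (T.h (P (nat_lit 0)) (T.h (T.h (M (nat_lit 28621299218955370495)) (T.h (P (nat_lit 0)) (P (nat_lit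 7964610238816)))) (T.h (P (nat_lit 0)) (M (nat_lit 33666772764575))))) (T.h (T.h (T.h (P (nat_lit 0)) (M (nat_lit 32889710490746879))) (P (nat_lit 0))) (T.h (T.h (P (nat_lit 0)) (M (nat_lit 57105588554927))) (P (nat_lit 0))))))))]
def lP11_23 : List (T ℤ) := [(T.h (T.h (T.h (M (nat_lit 8912167443391824518145684537343)) (T.h (P (nat_lit 0)) (T.h (P (nat_lit 21667585315231552363298816)) (T.h (P (nat_lit 0)) (T.h (P (nat_lit 5849706572397150208)) (T.h (P (nat_lit 0)) (P (nat_lit 954741325344)))))))) (T.h (P (nat_lit 0)) (T.h (T.h (M (nat_lit 4622326605712981764341759)) (T.h (P (nat_lit 0)) (T.h (P (nat_lit 119646973549155975168)) (T.h (P (nat_lit 0)) (P (nat_lit 45145893431616)))))) (T.h (P (nat_lit 0)) (T.h (T.h (M (nat_lit 536184026336067583)) (T.h (P (nat_lit 0)) (P (nat_lit 17775325846896)))) (T.h (P (nat_lit 0)) (P (nat_lit 8789193732672)))))))) (T.h (T.h (P (nat_lit 0)) (T.h (T.h (P (nat_lit 0)) (T.h (P (nat_lit 28755281158888501542912)) (T.h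 (P (nat_lit 0)) (M (nat_lit 43515482294059007))))) (T.h (P (nat_lit 0)) (T.h (T.h (P (nat_lit 0)) (P (nat_lit 36243501004947456))) (P (nat_lit 0)))))) (T.h (T.h (T.h (M (nat_lit 62380455411995176119304191)) (T.h (P (nat_lit 0)) (T.h (P (nat_lit 20240455921282580480)) (T.h (P (nat_lit 0)) (P (nat_lit 45145893431616)))))) (T.h (P (nat_lit 0)) (T.h (T.h (P (nat_lit 161544671715240443904)) (T.h (P (nat_lit 0)) (P (nat_lit 12074435503008)))) (T.h (P (nat_lit 0)) (M (nat_lit 21055996758767)))))) (T.h (T.h (P (nat_lit 0)) (T.h (T.h (P (nat_lit 0)) (M (nat_lit 169860720897228799))) (P (nat_lit 0)))) (T.h (T.h (T.h (P (nat_lit 33971462972094021632)) (T.h (P (nat_lit 0)) (P (nat_lit 17775325846896)))) (T.h (P (nat_lit 0)) (M (nat_lit 21055996758767)))) (T.h (P (nat_lit 0)) (P (nat_lit 8789193732672)))))))), (T.h (T.h (T.h (P (nat_lit 0)) (T.h (M (nat_lit 15405244956953180929827799039)) (T.h (P (nat_lit 0)) (T.h (P (nat_lit 34299267896437284798464)) (T.h (P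 (nat_lit 0)) (P (nat_lit 25436756187906048))))))) (T.h (P (nat_lit 0)) (T.h (T.h (P (nat_lit 0)) (T.h (P (nat_lit 58377955448778397843456)) (T.h (P (nat_lit 0)) (M (nat_lit 50331468078694399))))) (T.h (P (nat_lit 0)) (T.h (T.h (P (nat_lit 0)) (P (nat_lit 25069513072984064))) (P (nat_lit 0))))))) (T.h (T.h (P (nat_lit 0)) (T.h (T.h (P (nat_lit 26414870613408005553651712)) (T.h (P (nat_lit 0)) (T.h (M (nat_lit 319395816159282462719)) (T.h (P (nat_lit 0)) (P (nat_lit 93337690111776)))))) (T.h (P (nat_lit 0)) (T.h (T.h (P (nat_lit 17283595094275915776)) (T.h (P (nat_lit 0)) (M (nat_lit 38582463213215)))) (T.h (P (nat_lit 0)) (P (nat_lit 68505149127168))))))) (T.h (T.h (T.h (P (nat_lit 0)) (T.h (P (nat_lit 58377955448778397843456)) (T.h (P (nat_lit 0)) (M (nat_lit 50331468078694399))))) (T.h (P (nat_lit 0)) (T.h (T.h (P (nat_lit 0)) (M (nat_lit 20279104758906879))) (P (nat_lit 0))))) (T.h (T.h (P (nat_lit 0)) (T.h (T.h (P (nat_lit 17283595094275915776))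 (T.h (P (nat_lit 0)) (M (nat_lit 38582463213215)))) (T.h (P (nat_lit 0)) (P (nat_lit 31906044562176))))) (T.h (T.h (T.h (P (nat_lit 0)) (P (nat_lit 25069513072984064))) (P (nat_lit 0))) (T.h (T.h (P (nat_lit 0)) (P (nat_lit 68505149127168))) (P (nat_lit 0)))))))), (T.h (T.h (T.h (P (nat_lit 12287190180425606716005116018688)) (T.h (P (nat_lit 0)) (T.h (M (nat_lit 3836605376147847800422399)) (T.h (P (nat_lit 0)) (M (nat_lit 34747549758858985471)))))) (T.h (P (nat_lit 0)) (T.h (T.h (M (nat_lit 822633096902632366145535)) (T.h (P (nat_lit 0)) (M (nat_lit 65115326894967881727)))) (T.h (P (nat_lit 0)) (M (nat_lit 6177230466576285695)))))) (T.h (T.h (P (nat_lit 0)) (T.h (T.h (P (nat_lit 0)) (T.h (P (nat_lit 126306685842223500623872)) (T.h (P (nat_lit 0)) (M (nat_lit 101851870552260607))))) (T.h (P (nat_lit 0)) (T.h (T.h (P (nat_lit 0)) (P (nat_lit 56164324190060544))) (P (nat_lit 0)))))) (T.h (T.h (T.h (M (nat_lit 822633096902632366145535)) (T.h (P (nat_lit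 0)) (M (nat_lit 65115326894967881727)))) (T.h (P (nat_lit 0)) (M (nat_lit 183649484888055218175)))) (T.h (T.h (P (nat_lit 0)) (T.h (T.h (P (nat_lit 0)) (P (nat_lit 56164324190060544))) (P (nat_lit 0)))) (M (nat_lit 6177230466576285695)))))), (P (nat_lit 0)), (P (nat_lit 0)), (T.h (T.h (P (nat_lit 0)) (T.h (T.h (P (nat_lit 0)) (T.h (M (nat_lit 43661592855513208723603455)) (T.h (P (nat_lit 0)) (T.h (M (nat_lit 69885795509410463743)) (T.h (P (nat_lit 0)) (M (nat_lit 32594679829151))))))) (T.h (P (nat_lit 0)) (T.h (T.h (P (nat_lit 0)) (T.h (M (nat_lit 87661079254234300415)) (T.h (P (nat_lit 0)) (P (nat_lit 60712894579320))))) (T.h (P (nat_lit 0)) (T.h (T.h (P (nat_lit 0)) (P (nat_lit 10769450979968))) (P (nat_lit 0)))))))) (T.h (T.h (T.h (M (nat_lit 25701860563623398398910005247)) (T.h (P (nat_lit 0)) (T.h (P (nat_lit 171696789157313301708800)) (T.h (P (nat_lit 0)) (P (nat_lit 59794908404940800)))))) (T.h (P (nat_lit 0)) (T.h (T.h (P (nat_lit 91696012296090950828032))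 (T.h (P (nat_lit 0)) (M (nat_lit 5597458710626303)))) (T.h (P (nat_lit 0)) (M (nat_lit 4811877612748799)))))) (T.h (T.h (P (nat_lit 0)) (T.h (T.h (P (nat_lit 0)) (T.h (M (nat_lit 171412489114109345791)) (T.h (P (nat_lit 0)) (M (nat_lit 24203224311751))))) (T.h (P (nat_lit 0)) (T.h (T.h (P (nat_lit 0)) (M (nat_lit 18221469937063))) (P (nat_lit 0)))))) (T.h (T.h (T.h (M (nat_lit 11053740652807004880895)) (T.h (P (nat_lit 0)) (P (nat_lit 85651475047120896)))) (T.h (P (nat_lit 0)) (M (nat_lit 27168631384899583)))) (T.h (T.h (P (nat_lit 0)) (T.h (T.h (P (nat_lit 0)) (M (nat_lit 16306529748567))) (P (nat_lit 0)))) (P (nat_lit 8209187272196096))))))), (T.h (T.h (P (nat_lit 0)) (T.h (T.h (P (nat_lit 36062601170929444725066825728)) (T.h (P (nat_lit 0)) (T.h (P (nat_lit 17833319142632502329344)) (T.h (P (nat_lit 0)) (P (nat_lit 85714983981924352)))))) (T.h (P (nat_lit 0)) (T.h (T.h (P (nat_lit 29668631029845084602368)) (T.h (P (nat_lit 0)) (P (nat_lit 28937019832778752))))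 (T.h (P (nat_lit 0)) (P (nat_lit 41830868405092352))))))) (T.h (T.h (T.h (P (nat_lit 0)) (T.h (M (nat_lit 1982739573423292100378623)) (T.h (P (nat_lit 0)) (T.h (M (nat_lit 131245991172652400639)) (T.h (P (nat_lit 0)) (M (nat_lit 41141546793535))))))) (T.h (P (nat_lit 0)) (T.h (T.h (P (nat_lit 0)) (T.h (M (nat_lit 361745294728278048767)) (T.h (P (nat_lit 0)) (M (nat_lit 65824807301439))))) (T.h (P (nat_lit 0)) (T.h (T.h (P (nat_lit 0)) (P (nat_lit 12497417382016))) (P (nat_lit 0))))))) (T.h (T.h (P (nat_lit 0)) (T.h (T.h (P (nat_lit 22020751074150062227456)) (T.h (P (nat_lit 0)) (P (nat_lit 211985984901169152)))) (T.h (P (nat_lit 0)) (P (nat_lit 12166237003956224))))) (T.h (T.h (T.h (P (nat_lit 0)) (T.h (M (nat_lit 186403039378019450879)) (T.h (P (nat_lit 0)) (P (nat_lit 35259020168128))))) (T.h (P (nat_lit 0)) (T.h (T.h (P (nat_lit 0)) (M (nat_lit 33007436532031))) (P (nat_lit 0))))) (T.h (T.h (P (nat_lit 0)) (P (nat_lit 49304697967296512))) (T.h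 (T.h (T.h (P (nat_lit 0)) (P (nat_lit 10502331506128))) (P (nat_lit 0))) (P (nat_lit 0)))))))), (T.h (T.h (P (nat_lit 0)) (T.h (T.h (P (nat_lit 0)) (T.h (P (nat_lit 24009839790072748140658688)) (T.h (P (nat_lit 0)) (T.h (P (nat_lit 9085128935045332992)) (T.h (P (nat_lit 0)) (P (nat_lit 53934274870224))))))) (T.h (P (nat_lit 0)) (T.h (T.h (P (nat_lit 0)) (T.h (P (nat_lit 227111329947579318272)) (T.h (P (nat_lit 0)) (P (nat_lit 54678548064048))))) (T.h (P (nat_lit 0)) (T.h (T.h (P (nat_lit 0)) (P (nat_lit 5116009417728))) (P (nat_lit 0)))))))) (T.h (T.h (T.h (P (nat_lit 29757050897655663289155190784)) (T.h (P (nat_lit 0)) (T.h (M (nat_lit 158799547454163062358015)) (T.h (P (nat_lit 0)) (P (nat_lit 11822702836023296)))))) (T.h (P (nat_lit 0)) (T.h (T.h (P (nat_lit 184607465826028684836864)) (T.h (P (nat_lit 0)) (M (nat_lit 401338149938692095)))) (T.h (P (nat_lit 0)) (P (nat_lit 251611445488877568)))))) (T.h (T.h (P (nat_lit 0)) (T.h (T.h (P (nat_lit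 0)) (T.h (P (nat_lit 477568242238340726784)) (T.h (P (nat_lit 0)) (M (nat_lit 128002672368815))))) (T.h (P (nat_lit 0)) (T.h (T.h (P (nat_lit 0)) (P (nat_lit 31534168289184))) (P (nat_lit 0)))))) (T.h (T.h (T.h (P (nat_lit 125722215563327124275200)) (T.h (P (nat_lit 0)) (M (nat_lit 119696626360287231)))) (T.h (P (nat_lit 0)) (M (nat_lit 52758806521675775)))) (T.h (T.h (P (nat_lit 0)) (T.h (T.h (P (nat_lit 0)) (M (nat_lit 96129097414319))) (P (nat_lit 0)))) (P (nat_lit 97426712160305152)))))))]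
def lP11_24 : List (T ℤ) := [(T.h (T.h (P (nat_lit 0)) (T.h (T.h (M (nat_lit 75890717121856789950549196799)) (T.h (P (nat_lit 0)) (T.h (P (nat_lit 156119359870059252023296)) (T.h (P (nat_lit 0)) (M (nat_lit 153838227053527039)))))) (T.h (P (nat_lit 0)) (T.h (T.h (M (nat_lit 67858883121244213870591)) (T.h (P (nat_lit 0)) (M (nat_lit 9298810221527039)))) (T.h (P (nat_lit 0)) (M (nat_lit 98468171772035071))))))) (T.h (T.h (T.h (P (nat_lit 0)) (T.h (M (nat_lit 30183801922423830775595007)) (T.h (P (nat_lit 0)) (T.h (P (nat_lit 154662805321476472832)) (T.h (P (nat_lit 0)) (P (nat_lit 77758541576208))))))) (T.h (P (nat_lit 0)) (T.h (T.h (P (nat_lit 0)) (T.h (P (nat_lit 344645915888983212032)) (T.h (P (nat_lit 0)) (P (nat_lit 70326835532496))))) (T.h (P (nat_lit 0)) (T.h (T.h (P (nat_lit 0)) (M (nat_lit 176207102909135))) (P (nat_lit 0))))))) (T.h (T.h (P (nat_lit 0)) (T.h (T.h (P (nat_lit 25656289604286027923456)) (T.h (P (nat_lit 0)) (M (nat_lit 196019508366573567))))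 (T.h (P (nat_lit 0)) (M (nat_lit 3086601253912575))))) (T.h (T.h (T.h (P (nat_lit 0)) (T.h (P (nat_lit 270864413233208360960)) (T.h (P (nat_lit 0)) (M (nat_lit 22633771718735))))) (T.h (P (nat_lit 0)) (T.h (T.h (P (nat_lit 0)) (M (nat_lit 211979165626079))) (P (nat_lit 0))))) (T.h (T.h (P (nat_lit 0)) (P (nat_lit 171878396102328320))) (T.h (T.h (T.h (P (nat_lit 0)) (M (nat_lit 64488629090591))) (P (nat_lit 0))) (P (nat_lit 0)))))))), (T.h (T.h (P (nat_lit 0)) (T.h (T.h (P (nat_lit 0)) (T.h (P (nat_lit 9990266832868815868526592)) (T.h (P (nat_lit 0)) (P (nat_lit 20466385991040499712))))) (T.h (P (nat_lit 0)) (T.h (T.h (P (nat_lit 0)) (P (nat_lit 42807339727817015296))) (P (nat_lit 0)))))) (T.h (T.h (T.h (M (nat_lit 1528363253692110168137924607)) (T.h (P (nat_lit 0)) (T.h (M (nat_lit 103340982672338666389503)) (T.h (P (nat_lit 0)) (M (nat_lit 86545155969220607)))))) (T.h (P (nat_lit 0)) (T.h (T.h (M (nat_lit 258337378587237909790719)) (T.h (P (nat_lit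 0)) (M (nat_lit 34881430572007423)))) (T.h (P (nat_lit 0)) (M (nat_lit 425326543491989503)))))) (T.h (T.h (P (nat_lit 0)) (T.h (T.h (P (nat_lit 0)) (P (nat_lit 376481760969893085184))) (P (nat_lit 0)))) (T.h (T.h (T.h (P (nat_lit 13811612619637037989888)) (T.h (P (nat_lit 0)) (M (nat_lit 219195007817711615)))) (T.h (P (nat_lit 0)) (M (nat_lit 748503780981669887)))) (T.h (P (nat_lit 0)) (P (nat_lit 106533968076406784))))))), (P (nat_lit 0)), (T.h (T.h (T.h (P (nat_lit 0)) (T.h (P (nat_lit 0)) (T.h (M (nat_lit 121867148607984511574081535)) (T.h (P (nat_lit 0)) (T.h (P (nat_lit 54595063063399890944)) (T.h (P (nat_lit 0)) (M (nat_lit 7439823610175)))))))) (T.h (P (nat_lit 0)) (T.h (T.h (P (nat_lit 8881041935992095357534208)) (T.h (P (nat_lit 0)) (T.h (M (nat_lit 129531447598387298303)) (T.h (P (nat_lit 0)) (M (nat_lit 112377674656223)))))) (T.h (P (nat_lit 0)) (T.h (T.h (M (nat_lit 8806519356235186175)) (T.h (P (nat_lit 0)) (M (nat_lit 31926179314975))))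 (T.h (P (nat_lit 0)) (M (nat_lit 11681834379455)))))))) (T.h (T.h (P (nat_lit 0)) (T.h (T.h (P (nat_lit 0)) (T.h (P (nat_lit 140874567660745577725952)) (T.h (P (nat_lit 0)) (P (nat_lit 40040058953138176))))) (T.h (P (nat_lit 0)) (T.h (T.h (P (nat_lit 0)) (P (nat_lit 131301348672208896))) (P (nat_lit 0)))))) (T.h (T.h (T.h (P (nat_lit 8881041935992095357534208)) (T.h (P (nat_lit 0)) (T.h (M (nat_lit 129531447598387298303)) (T.h (P (nat_lit 0)) (M (nat_lit 112377674656223)))))) (T.h (P (nat_lit 0)) (T.h (T.h (M (nat_lit 164123130928195174399)) (T.h (P (nat_lit 0)) (P (nat_lit 16005713108960)))) (T.h (P (nat_lit 0)) (P (nat_lit 9888057741296)))))) (T.h (T.h (P (nat_lit 0)) (T.h (T.h (P (nat_lit 0)) (P (nat_lit 131301348672208896))) (P (nat_lit 0)))) (T.h (T.h (T.h (M (nat_lit 8806519356235186175)) (T.h (P (nat_lit 0)) (M (nat_lit 31926179314975)))) (T.h (P (nat_lit 0)) (P (nat_lit 9888057741296)))) (T.h (P (nat_lit 0)) (M (nat_lit 11681834379455)))))))),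 (T.h (T.h (T.h (P (nat_lit 0)) (T.h (M (nat_lit 35319903060341803535411707903)) (T.h (P (nat_lit 0)) (T.h (P (nat_lit 11128142108217455935488)) (T.h (P (nat_lit 0)) (P (nat_lit 23687448647892992))))))) (T.h (P (nat_lit 0)) (T.h (T.h (P (nat_lit 0)) (T.h (P (nat_lit 121488841169012862746624)) (T.h (P (nat_lit 0)) (P (nat_lit 52339589284036608))))) (T.h (P (nat_lit 0)) (T.h (T.h (P (nat_lit 0)) (P (nat_lit 107111795039895552))) (P (nat_lit 0))))))) (T.h (T.h (P (nat_lit 0)) (T.h (T.h (M (nat_lit 59917928165793394065407999)) (T.h (P (nat_lit 0)) (T.h (M (nat_lit 220465669000103198719)) (T.h (P (nat_lit 0)) (M (nat_lit 12098671960639)))))) (T.h (P (nat_lit 0)) (T.h (T.h (M (nat_lit 22647013076560248831)) (T.h (P (nat_lit 0)) (P (nat_lit 30360938406976)))) (T.h (P (nat_lit 0)) (M (nat_lit 19726252663311))))))) (T.h (T.h (T.h (P (nat_lit 0)) (T.h (P (nat_lit 121488841169012862746624)) (T.h (P (nat_lit 0)) (P (nat_lit 52339589284036608))))) (T.h (P (nat_lit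 0)) (T.h (T.h (P (nat_lit 0)) (M (nat_lit 232242739402735615))) (P (nat_lit 0))))) (T.h (T.h (P (nat_lit 0)) (T.h (T.h (M (nat_lit 22647013076560248831)) (T.h (P (nat_lit 0)) (P (nat_lit 30360938406976)))) (T.h (P (nat_lit 0)) (M (nat_lit 26762950788351))))) (T.h (T.h (T.h (P (nat_lit 0)) (P (nat_lit 107111795039895552))) (P (nat_lit 0))) (T.h (T.h (P (nat_lit 0)) (M (nat_lit 19726252663311))) (P (nat_lit 0)))))))), (T.h (T.h (T.h (M (nat_lit 148381892826497614788320821247)) (T.h (P (nat_lit 0)) (T.h (P (nat_lit 79582275133260630522331136)) (T.h (P (nat_lit 0)) (T.h (P (nat_lit 83328117736533393408)) (T.h (P (nat_lit 0)) (P (nat_lit 5804995844160)))))))) (T.h (P (nat_lit 0)) (T.h (T.h (M (nat_lit 54706460049327799471702015)) (T.h (P (nat_lit 0)) (T.h (P (nat_lit 286960894193902288896)) (T.h (P (nat_lit 0)) (P (nat_lit 21026148964512)))))) (T.h (P (nat_lit 0)) (T.h (T.h (M (nat_lit 26149069000802303999)) (T.h (P (nat_lit 0)) (P (nat_lit 56182492761312))))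 (T.h (P (nat_lit 0)) (P (nat_lit 15872639520960)))))))) (T.h (T.h (P (nat_lit 0)) (T.h (T.h (P (nat_lit 0)) (T.h (M (nat_lit 1082488559879266437693439)) (T.h (P (nat_lit 0)) (M (nat_lit 125348115550830591))))) (T.h (P (nat_lit 0)) (T.h (T.h (P (nat_lit 0)) (M (nat_lit 568131438012399615))) (P (nat_lit 0)))))) (T.h (T.h (T.h (M (nat_lit 54706460049327799471702015)) (T.h (P (nat_lit 0)) (T.h (P (nat_lit 286960894193902288896)) (T.h (P (nat_lit 0)) (P (nat_lit 21026148964512)))))) (T.h (P (nat_lit 0)) (T.h (T.h (P (nat_lit 523096355658931372032)) (T.h (P (nat_lit 0)) (M (nat_lit 95796220043711)))) (T.h (P (nat_lit 0)) (P (nat_lit 44154348995520)))))) (T.h (T.h (P (nat_lit 0)) (T.h (T.h (P (nat_lit 0)) (M (nat_lit 568131438012399615))) (P (nat_lit 0)))) (T.h (T.h (T.h (M (nat_lit 26149069000802303999)) (T.h (P (nat_lit 0)) (P (nat_lit 56182492761312)))) (T.h (P (nat_lit 0)) (P (nat_lit 44154348995520)))) (T.h (P (nat_lit 0)) (P (nat_lit 15872639520960)))))))),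 (T.h (T.h (T.h (P (nat_lit 0)) (T.h (P (nat_lit 134371133011124625491428900864)) (T.h (P (nat_lit 0)) (T.h (P (nat_lit 53377000178633706307584)) (T.h (P (nat_lit 0)) (P (nat_lit 60243128330780672))))))) (T.h (P (nat_lit 0)) (T.h (T.h (P (nat_lit 0)) (T.h (M (nat_lit 219909085573414526124031)) (T.h (P (nat_lit 0)) (P (nat_lit 205750396647211008))))) (T.h (P (nat_lit 0)) (T.h (T.h (P (nat_lit 0)) (P (nat_lit 32339253196767232))) (P (nat_lit 0))))))) (T.h (T.h (P (nat_lit 0)) (T.h (T.h (P (nat_lit 168949186352291241216966656)) (T.h (P (nat_lit 0)) (T.h (P (nat_lit 583641652890162954240)) (T.h (P (nat_lit 0)) (M (nat_lit 44525894080319)))))) (T.h (P (nat_lit 0)) (T.h (T.h (P (nat_lit 138269416555984977920)) (T.h (P (nat_lit 0)) (M (nat_lit 293244744153887)))) (T.h (P (nat_lit 0)) (P (nat_lit 109419558515856))))))) (T.h (T.h (T.h (P (nat_lit 0)) (T.h (M (nat_lit 219909085573414526124031)) (T.h (P (nat_lit 0)) (P (nat_lit 205750396647211008))))) (T.h (P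 (nat_lit 0)) (T.h (T.h (P (nat_lit 0)) (P (nat_lit 736748133274812416))) (P (nat_lit 0))))) (T.h (T.h (P (nat_lit 0)) (T.h (T.h (P (nat_lit 138269416555984977920)) (T.h (P (nat_lit 0)) (M (nat_lit 293244744153887)))) (T.h (P (nat_lit 0)) (M (nat_lit 4790699887391))))) (T.h (T.h (T.h (P (nat_lit 0)) (P (nat_lit 32339253196767232))) (P (nat_lit 0))) (T.h (T.h (P (nat_lit 0)) (P (nat_lit 109419558515856))) (P (nat_lit 0)))))))), (T.h (T.h (T.h (P (nat_lit 38490117535194236145834974511104)) (T.h (P (nat_lit 0)) (T.h (M (nat_lit 98129739006073388593577983)) (T.h (P (nat_lit 0)) (M (nat_lit 116125773072936468479)))))) (T.h (P (nat_lit 0)) (T.h (T.h (P (nat_lit 50975701822710719249907712)) (T.h (P (nat_lit 0)) (M (nat_lit 124180046517180039167)))) (T.h (P (nat_lit 0)) (P (nat_lit 35423825929078571008)))))) (T.h (T.h (P (nat_lit 0)) (T.h (T.h (P (nat_lit 0)) (T.h (M (nat_lit 343014291205721459523583)) (T.h (P (nat_lit 0)) (M (nat_lit 23484590264025087)))))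 (T.h (P (nat_lit 0)) (T.h (T.h (P (nat_lit 0)) (P (nat_lit 390320635721154560))) (P (nat_lit 0)))))) (T.h (T.h (T.h (P (nat_lit 50975701822710719249907712)) (T.h (P (nat_lit 0)) (M (nat_lit 124180046517180039167)))) (T.h (P (nat_lit 0)) (M (nat_lit 436026126012151496703)))) (T.h (T.h (P (nat_lit 0)) (T.h (T.h (P (nat_lit 0)) (P (nat_lit 390320635721154560))) (P (nat_lit 0)))) (P (nat_lit 35423825929078571008))))))]
def lP11_25 : List (T ℤ) := [(T.h (T.h (P (nat_lit 0)) (T.h (T.h (P (nat_lit 0)) (T.h (M (nat_lit 6104258270349006037057535)) (T.h (P (nat_lit 0)) (T.h (M (nat_lit 7201964852129038335)) (T.h (P (nat_lit 0)) (M (nat_lit 31701676764151))))))) (T.h (P (nat_lit 0)) (T.h (T.h (P (nat_lit 0)) (T.h (M (nat_lit 52241732874576855039)) (T.h (P (nat_lit 0)) (P (nat_lit 21482992952464))))) (T.h (P (nat_lit 0)) (T.h (T.h (P (nat_lit 0)) (P (nat_lit 27814765993016))) (P (nat_lit 0)))))))) (T.h (T.h (T.h (M (nat_lit 8796633139127483325699063807)) (T.h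 (P (nat_lit 0)) (T.h (M (nat_lit 63021520902504837021695)) (T.h (P (nat_lit 0)) (M (nat_lit 90201467688058879)))))) (T.h (P (nat_lit 0)) (T.h (T.h (M (nat_lit 28858893869128926363647)) (T.h (P (nat_lit 0)) (P (nat_lit 107283388228403200)))) (T.h (P (nat_lit 0)) (M (nat_lit 26974990662139903)))))) (T.h (T.h (P (nat_lit 0)) (T.h (T.h (P (nat_lit 0)) (T.h (P (nat_lit 28016122449327292416)) (T.h (P (nat_lit 0)) (P (nat_lit 33958396886664))))) (T.h (P (nat_lit 0)) (T.h (T.h (P (nat_lit 0)) (M (nat_lit 6388521233151))) (P (nat_lit 0)))))) (T.h (T.h (T.h (M (nat_lit 49568223524688045801471)) (T.h (P (nat_lit 0)) (P (nat_lit 73812048598401024)))) (T.h (P (nat_lit 0)) (P (nat_lit 90264541267427328)))) (T.h (T.h (P (nat_lit 0)) (T.h (T.h (P (nat_lit 0)) (P (nat_lit 145515116622832))) (P (nat_lit 0)))) (M (nat_lit 24550276827938815))))))), (T.h (T.h (P (nat_lit 0)) (T.h (T.h (M (nat_lit 15679541930845267546068746239)) (T.h (P (nat_lit 0)) (T.h (P (nat_lit 59215813094363950481408))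 (T.h (P (nat_lit 0)) (P (nat_lit 2461044021886976)))))) (T.h (P (nat_lit 0)) (T.h (T.h (M (nat_lit 9491288120945209769983)) (T.h (P (nat_lit 0)) (M (nat_lit 20671216447275007)))) (T.h (P (nat_lit 0)) (P (nat_lit 15106117159583744))))))) (T.h (T.h (T.h (P (nat_lit 0)) (T.h (M (nat_lit 47865285920089784994234367)) (T.h (P (nat_lit 0)) (T.h (M (nat_lit 67523329859919020031)) (T.h (P (nat_lit 0)) (M (nat_lit 41146775736751))))))) (T.h (P (nat_lit 0)) (T.h (T.h (P (nat_lit 0)) (T.h (M (nat_lit 114620104751915728895)) (T.h (P (nat_lit 0)) (P (nat_lit 39553764827008))))) (T.h (P (nat_lit 0)) (T.h (T.h (P (nat_lit 0)) (M (nat_lit 2885833867679))) (P (nat_lit 0))))))) (T.h (T.h (P (nat_lit 0)) (T.h (T.h (P (nat_lit 55028381162846390583296)) (T.h (P (nat_lit 0)) (M (nat_lit 62333406841651199)))) (T.h (P (nat_lit 0)) (M (nat_lit 3900433618452479))))) (T.h (T.h (T.h (P (nat_lit 0)) (T.h (M (nat_lit 12366281654551969791)) (T.h (P (nat_lit 0)) (M (nat_lit 47048248158751)))))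 (T.h (P (nat_lit 0)) (T.h (T.h (P (nat_lit 0)) (P (nat_lit 6736394057600))) (P (nat_lit 0))))) (T.h (T.h (P (nat_lit 0)) (P (nat_lit 38871330036514816))) (T.h (T.h (T.h (P (nat_lit 0)) (M (nat_lit 92790654036415))) (P (nat_lit 0))) (P (nat_lit 0)))))))), (T.h (T.h (P (nat_lit 0)) (T.h (T.h (P (nat_lit 0)) (T.h (P (nat_lit 264197221458303479611129856)) (T.h (P (nat_lit 0)) (T.h (P (nat_lit 107218120534636101632)) (T.h (P (nat_lit 0)) (P (nat_lit 25515269866896))))))) (T.h (P (nat_lit 0)) (T.h (T.h (P (nat_lit 0)) (T.h (M (nat_lit 181095631738026065919)) (T.h (P (nat_lit 0)) (M (nat_lit 3192246446255))))) (T.h (P (nat_lit 0)) (T.h (T.h (P (nat_lit 0)) (P (nat_lit 87150435501744))) (P (nat_lit 0)))))))) (T.h (T.h (T.h (M (nat_lit 14699444102260435898580598783)) (T.h (P (nat_lit 0)) (T.h (M (nat_lit 135293352118637519962111)) (T.h (P (nat_lit 0)) (P (nat_lit 3927096214618112)))))) (T.h (P (nat_lit 0)) (T.h (T.h (M (nat_lit 303776974185143931502591))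 (T.h (P (nat_lit 0)) (P (nat_lit 2136137100165120)))) (T.h (P (nat_lit 0)) (M (nat_lit 468403644570140671)))))) (T.h (T.h (P (nat_lit 0)) (T.h (T.h (P (nat_lit 0)) (T.h (P (nat_lit 963625346863877586944)) (T.h (P (nat_lit 0)) (M (nat_lit 20637821032175))))) (T.h (P (nat_lit 0)) (T.h (T.h (P (nat_lit 0)) (M (nat_lit 135056027421983))) (P (nat_lit 0)))))) (T.h (T.h (T.h (M (nat_lit 21022155746184366391295)) (T.h (P (nat_lit 0)) (P (nat_lit 307060674230452224)))) (T.h (P (nat_lit 0)) (M (nat_lit 119008213731278847)))) (T.h (T.h (P (nat_lit 0)) (T.h (T.h (P (nat_lit 0)) (P (nat_lit 169611509330640))) (P (nat_lit 0)))) (P (nat_lit 8906030922694656))))))), (T.h (T.h (P (nat_lit 0)) (T.h (T.h (M (nat_lit 24669808485702515816465956863)) (T.h (P (nat_lit 0)) (T.h (M (nat_lit 115486233927752624373759)) (T.h (P (nat_lit 0)) (P (nat_lit 92681609897787392)))))) (T.h (P (nat_lit 0)) (T.h (T.h (M (nat_lit 180565685084113187373055)) (T.h (P (nat_lit 0)) (P (nat_lit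 319356198567739392)))) (T.h (P (nat_lit 0)) (M (nat_lit 51843025050419199))))))) (T.h (T.h (T.h (P (nat_lit 0)) (T.h (P (nat_lit 106075336957420466289508352)) (T.h (P (nat_lit 0)) (T.h (M (nat_lit 149085260369052565503)) (T.h (P (nat_lit 0)) (P (nat_lit 49485318777792))))))) (T.h (P (nat_lit 0)) (T.h (T.h (P (nat_lit 0)) (T.h (M (nat_lit 812713700660864876543)) (T.h (P (nat_lit 0)) (M (nat_lit 337714764884783))))) (T.h (P (nat_lit 0)) (T.h (T.h (P (nat_lit 0)) (M (nat_lit 283456879165151))) (P (nat_lit 0))))))) (T.h (T.h (P (nat_lit 0)) (T.h (T.h (M (nat_lit 98481950603613818585087)) (T.h (P (nat_lit 0)) (P (nat_lit 989702072943116288)))) (T.h (P (nat_lit 0)) (P (nat_lit 297056623558328320))))) (T.h (T.h (T.h (P (nat_lit 0)) (T.h (M (nat_lit 152795732343466754047)) (T.h (P (nat_lit 0)) (P (nat_lit 22887367908912))))) (T.h (P (nat_lit 0)) (T.h (T.h (P (nat_lit 0)) (M (nat_lit 299480988247919))) (P (nat_lit 0))))) (T.h (T.h (P (nat_lit 0)) (M (nat_lit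 91237376546013183))) (T.h (T.h (T.h (P (nat_lit 0)) (P (nat_lit 4018972304880))) (P (nat_lit 0))) (P (nat_lit 0)))))))), (T.h (T.h (P (nat_lit 0)) (T.h (T.h (P (nat_lit 0)) (T.h (M (nat_lit 4818697623215170922741759)) (T.h (P (nat_lit 0)) (M (nat_lit 226371716232740077567))))) (T.h (P (nat_lit 0)) (T.h (T.h (P (nat_lit 0)) (M (nat_lit 312080181166017085439))) (P (nat_lit 0)))))) (T.h (T.h (T.h (M (nat_lit 28398382286410379448408866815)) (T.h (P (nat_lit 0)) (T.h (P (nat_lit 371427416844194742796288)) (T.h (P (nat_lit 0)) (M (nat_lit 68433228062326783)))))) (T.h (P (nat_lit 0)) (T.h (T.h (M (nat_lit 51780947633005553254399)) (T.h (P (nat_lit 0)) (P (nat_lit 474119032791728128)))) (T.h (P (nat_lit 0)) (M (nat_lit 104687174977617919)))))) (T.h (T.h (P (nat_lit 0)) (T.h (T.h (P (nat_lit 0)) (M (nat_lit 1020376983064226562047))) (P (nat_lit 0)))) (T.h (T.h (T.h (P (nat_lit 6166060208012226723840)) (T.h (P (nat_lit 0)) (M (nat_lit 30222617954451455))))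 (T.h (P (nat_lit 0)) (M (nat_lit 18351971067068415)))) (T.h (P (nat_lit 0)) (P (nat_lit 5683048376041472))))))), (T.h (T.h (T.h (P (nat_lit 0)) (T.h (P (nat_lit 74706945416199965654820847616)) (T.h (P (nat_lit 0)) (T.h (P (nat_lit 43801589135530889576448)) (T.h (P (nat_lit 0)) (P (nat_lit 45982042181206016))))))) (T.h (P (nat_lit 0)) (T.h (T.h (P (nat_lit 0)) (T.h (M (nat_lit 49041316905478684409855)) (T.h (P (nat_lit 0)) (M (nat_lit 52326856570191871))))) (T.h (P (nat_lit 0)) (T.h (T.h (P (nat_lit 0)) (P (nat_lit 40373702412599296))) (P (nat_lit 0))))))) (T.h (T.h (P (nat_lit 0)) (T.h (T.h (P (nat_lit 4959897841795512452251648)) (T.h (P (nat_lit 0)) (T.h (M (nat_lit 221834691215259336703)) (T.h (P (nat_lit 0)) (P (nat_lit 69255108585648)))))) (T.h (P (nat_lit 0)) (T.h (T.h (M (nat_lit 151887148118058205183)) (T.h (P (nat_lit 0)) (M (nat_lit 68740659679823)))) (T.h (P (nat_lit 0)) (M (nat_lit 19907425486639))))))) (T.h (T.h (T.h (P (nat_lit 0)) (T.h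 (M (nat_lit 58322643343439097233407)) (T.h (P (nat_lit 0)) (M (nat_lit 39536835955507199))))) (T.h (P (nat_lit 0)) (T.h (T.h (P (nat_lit 0)) (P (nat_lit 327369126751846400))) (P (nat_lit 0))))) (T.h (T.h (P (nat_lit 0)) (T.h (T.h (M (nat_lit 143503913331592265727)) (T.h (P (nat_lit 0)) (M (nat_lit 63095730179391)))) (T.h (P (nat_lit 0)) (P (nat_lit 54661466916560))))) (T.h (T.h (T.h (P (nat_lit 0)) (M (nat_lit 79337867728175103))) (P (nat_lit 0))) (T.h (T.h (P (nat_lit 0)) (P (nat_lit 34883498572208))) (P (nat_lit 0)))))))), (T.h (T.h (T.h (M (nat_lit 4242882777641273345909976989695)) (T.h (P (nat_lit 0)) (T.h (M (nat_lit 81435322610540794773241855)) (T.h (P (nat_lit 0)) (T.h (M (nat_lit 73786473605289213951)) (T.h (P (nat_lit 0)) (P (nat_lit 21759335331552)))))))) (T.h (P (nat_lit 0)) (T.h (T.h (P (nat_lit 8050175121811723813650432)) (T.h (P (nat_lit 0)) (T.h (M (nat_lit 212706809861143265279)) (T.h (P (nat_lit 0)) (P (nat_lit 57430672243056))))))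 (T.h (P (nat_lit 0)) (T.h (T.h (P (nat_lit 197932794725001068544)) (T.h (P (nat_lit 0)) (P (nat_lit 49644896030976)))) (T.h (P (nat_lit 0)) (P (nat_lit 3857239247424)))))))) (T.h (T.h (P (nat_lit 0)) (T.h (T.h (P (nat_lit 0)) (T.h (P (nat_lit 659800740818193481728)) (T.h (P (nat_lit 0)) (M (nat_lit 218391359425675263))))) (T.h (P (nat_lit 0)) (T.h (T.h (P (nat_lit 0)) (P (nat_lit 85632602970521600))) (P (nat_lit 0)))))) (T.h (T.h (T.h (M (nat_lit 14433217648238017074167807)) (T.h (P (nat_lit 0)) (T.h (P (nat_lit 89330338035105005568)) (T.h (P (nat_lit 0)) (P (nat_lit 18599349637392)))))) (T.h (P (nat_lit 0)) (T.h (T.h (P (nat_lit 65381694443668635648)) (T.h (P (nat_lit 0)) (M (nat_lit 35823674518847)))) (T.h (P (nat_lit 0)) (P (nat_lit 61673039796768)))))) (T.h (T.h (P (nat_lit 0)) (T.h (T.h (P (nat_lit 0)) (M (nat_lit 437285153641791487))) (P (nat_lit 0)))) (T.h (T.h (T.h (P (nat_lit 58306836868439736320)) (T.h (P (nat_lit 0)) (M (nat_lit 16556994159407))))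 (T.h (P (nat_lit 0)) (P (nat_lit 34302472212048)))) (T.h (P (nat_lit 0)) (P (nat_lit 11691691654752)))))))), (T.h (T.h (T.h (P (nat_lit 0)) (T.h (M (nat_lit 95060108451662367495689338879)) (T.h (P (nat_lit 0)) (T.h (M (nat_lit 276672445310818863546367)) (T.h (P (nat_lit 0)) (M (nat_lit 151778934966403071))))))) (T.h (P (nat_lit 0)) (T.h (T.h (P (nat_lit 0)) (T.h (P (nat_lit 192504084486643047727104)) (T.h (P (nat_lit 0)) (P (nat_lit 263373719563976704))))) (T.h (P (nat_lit 0)) (T.h (T.h (P (nat_lit 0)) (M (nat_lit 175394950472155135))) (P (nat_lit 0))))))) (T.h (T.h (P (nat_lit 0)) (T.h (T.h (P (nat_lit 31873222224379168218415104)) (T.h (P (nat_lit 0)) (T.h (M (nat_lit 1129818480753300733951)) (T.h (P (nat_lit 0)) (M (nat_lit 400605184028159)))))) (T.h (P (nat_lit 0)) (T.h (T.h (M (nat_lit 128028420278392455167)) (T.h (P (nat_lit 0)) (M (nat_lit 175223468085263)))) (T.h (P (nat_lit 0)) (P (nat_lit 4794926070960))))))) (T.h (T.h (T.h (P (nat_lit 0))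 (T.h (M (nat_lit 55329312596769502134271)) (T.h (P (nat_lit 0)) (P (nat_lit 171509811917275136))))) (T.h (P (nat_lit 0)) (T.h (T.h (P (nat_lit 0)) (P (nat_lit 818059986944311296))) (P (nat_lit 0))))) (T.h (T.h (P (nat_lit 0)) (T.h (T.h (M (nat_lit 116614898390902243327)) (T.h (P (nat_lit 0)) (M (nat_lit 387803109859199)))) (T.h (P (nat_lit 0)) (P (nat_lit 38116904517792))))) (T.h (T.h (T.h (P (nat_lit 0)) (P (nat_lit 102850424939692032))) (P (nat_lit 0))) (T.h (T.h (P (nat_lit 0)) (M (nat_lit 73807486325279))) (P (nat_lit 0))))))))]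
def lP11_26 : List (T ℤ) := [(T.h (T.h (T.h (P (nat_lit 19467631606836864495099968487424)) (T.h (P (nat_lit 0)) (T.h (P (nat_lit 36209560300798946997960704)) (T.h (P (nat_lit 0)) (P (nat_lit 22786112129582759936)))))) (T.h (P (nat_lit 0)) (T.h (T.h (M (nat_lit 4005385083777552174022655)) (T.h (P (nat_lit 0)) (M (nat_lit 469977392837912690687)))) (T.h (P (nat_lit 0)) (M (nat_lit 57748921945713278975)))))) (T.h (T.h (P (nat_lit 0)) (T.h (T.h (P (nat_lit 0)) (T.h (P (nat_lit 1226617886430008346411008)) (T.h (P (nat_lit 0)) (P (nat_lit 594853977969459200))))) (T.h (P (nat_lit 0)) (T.h (T.h (P (nat_lit 0)) (P (nat_lit 382538152061894656))) (P (nat_lit 0)))))) (T.h (T.h (T.h (P (nat_lit 104885110360430056497479680)) (T.h (P (nat_lit 0)) (M (nat_lit 609690421924770873343)))) (T.h (P (nat_lit 0)) (M (nat_lit 437557371516657598463)))) (T.h (T.h (P (nat_lit 0)) (T.h (T.h (P (nat_lit 0)) (P (nat_lit 584027552139509760))) (P (nat_lit 0)))) (P (nat_lit 13265642981005721600)))))),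 (T.h (T.h (P (nat_lit 0)) (T.h (T.h (P (nat_lit 0)) (T.h (M (nat_lit 97780516078427023188426751)) (T.h (P (nat_lit 0)) (T.h (M (nat_lit 230120293191364116479)) (T.h (P (nat_lit 0)) (M (nat_lit 5007861987407))))))) (T.h (P (nat_lit 0)) (T.h (T.h (P (nat_lit 0)) (T.h (P (nat_lit 116756985124778672128)) (T.h (P (nat_lit 0)) (P (nat_lit 37323855582816))))) (T.h (P (nat_lit 0)) (T.h (T.h (P (nat_lit 0)) (P (nat_lit 2553716552832))) (P (nat_lit 0)))))))) (T.h (T.h (T.h (P (nat_lit 15060356633087551199724437504)) (T.h (P (nat_lit 0)) (T.h (P (nat_lit 295152132231464845574144)) (T.h (P (nat_lit 0)) (P (nat_lit 257291722367041536)))))) (T.h (P (nat_lit 0)) (T.h (T.h (P (nat_lit 30129554316350015406080)) (T.h (P (nat_lit 0)) (M (nat_lit 171661555688308735)))) (T.h (P (nat_lit 0)) (M (nat_lit 35406734043938815)))))) (T.h (T.h (P (nat_lit 0)) (T.h (T.h (P (nat_lit 0)) (T.h (M (nat_lit 382746559242026614783)) (T.h (P (nat_lit 0)) (P (nat_lit 42721455343824)))))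 (T.h (P (nat_lit 0)) (T.h (T.h (P (nat_lit 0)) (M (nat_lit 41072501562671))) (P (nat_lit 0)))))) (T.h (T.h (T.h (P (nat_lit 106180806920314158055424)) (T.h (P (nat_lit 0)) (P (nat_lit 438730694843531264)))) (T.h (P (nat_lit 0)) (P (nat_lit 148977777661181952)))) (T.h (T.h (P (nat_lit 0)) (T.h (T.h (P (nat_lit 0)) (M (nat_lit 116107931920415))) (P (nat_lit 0)))) (P (nat_lit 42607821429800960))))))), (T.h (T.h (P (nat_lit 0)) (T.h (T.h (P (nat_lit 51780321548609131815886651392)) (T.h (P (nat_lit 0)) (T.h (M (nat_lit 43074445675859462324223)) (T.h (P (nat_lit 0)) (M (nat_lit 50720353550532607)))))) (T.h (P (nat_lit 0)) (T.h (T.h (P (nat_lit 60987767985754137952256)) (T.h (P (nat_lit 0)) (P (nat_lit 41393942740205568)))) (T.h (P (nat_lit 0)) (P (nat_lit 55558320353296384))))))) (T.h (T.h (T.h (P (nat_lit 0)) (T.h (P (nat_lit 110889463789553626162135040)) (T.h (P (nat_lit 0)) (T.h (P (nat_lit 84563067385061310464)) (T.h (P (nat_lit 0)) (P (nat_lit 100481755148640)))))))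 (T.h (P (nat_lit 0)) (T.h (T.h (P (nat_lit 0)) (T.h (M (nat_lit 27574989714200985599)) (T.h (P (nat_lit 0)) (M (nat_lit 166087946971727))))) (T.h (P (nat_lit 0)) (T.h (T.h (P (nat_lit 0)) (P (nat_lit 71074743071616))) (P (nat_lit 0))))))) (T.h (T.h (P (nat_lit 0)) (T.h (T.h (M (nat_lit 60078728999998268112895)) (T.h (P (nat_lit 0)) (P (nat_lit 348094961878499328)))) (T.h (P (nat_lit 0)) (P (nat_lit 63693517749616640))))) (T.h (T.h (T.h (P (nat_lit 0)) (T.h (P (nat_lit 88273539359475499008)) (T.h (P (nat_lit 0)) (P (nat_lit 29510694618480))))) (T.h (P (nat_lit 0)) (T.h (T.h (P (nat_lit 0)) (M (nat_lit 204321723608591))) (P (nat_lit 0))))) (T.h (T.h (P (nat_lit 0)) (P (nat_lit 133198632893267968))) (T.h (T.h (T.h (P (nat_lit 0)) (P (nat_lit 145948101621552))) (P (nat_lit 0))) (P (nat_lit 0)))))))), (T.h (T.h (P (nat_lit 0)) (T.h (T.h (P (nat_lit 0)) (T.h (M (nat_lit 144121561351623944798470143)) (T.h (P (nat_lit 0)) (M (nat_lit 208450746454475014143)))))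 (T.h (P (nat_lit 0)) (T.h (T.h (P (nat_lit 0)) (M (nat_lit 106262758275359440895))) (P (nat_lit 0)))))) (T.h (T.h (T.h (P (nat_lit 24272225852187028016332800)) (T.h (P (nat_lit 0)) (T.h (M (nat_lit 117311579019113568141311)) (T.h (P (nat_lit 0)) (M (nat_lit 261551039730286591)))))) (T.h (P (nat_lit 0)) (T.h (T.h (P (nat_lit 420286920340889782976512)) (T.h (P (nat_lit 0)) (P (nat_lit 289775874412838912)))) (T.h (P (nat_lit 0)) (M (nat_lit 22389404982935551)))))) (T.h (T.h (P (nat_lit 0)) (T.h (T.h (P (nat_lit 0)) (M (nat_lit 844488666540939411455))) (P (nat_lit 0)))) (T.h (T.h (T.h (P (nat_lit 71582141870744270798848)) (T.h (P (nat_lit 0)) (M (nat_lit 274787139956408319)))) (T.h (P (nat_lit 0)) (M (nat_lit 114711053236994047)))) (T.h (P (nat_lit 0)) (P (nat_lit 37728633573834752))))))), (T.h (T.h (T.h (P (nat_lit 0)) (T.h (M (nat_lit 93231747468529857560334827519)) (T.h (P (nat_lit 0)) (T.h (M (nat_lit 17601602847486215454719)) (T.h (P (nat_lit 0))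 (M (nat_lit 43625099916804095))))))) (T.h (P (nat_lit 0)) (T.h (T.h (P (nat_lit 0)) (T.h (M (nat_lit 21278778020393360818175)) (T.h (P (nat_lit 0)) (M (nat_lit 15182816904003583))))) (T.h (P (nat_lit 0)) (T.h (T.h (P (nat_lit 0)) (M (nat_lit 29771974202621951))) (P (nat_lit 0))))))) (T.h (T.h (P (nat_lit 0)) (T.h (T.h (M (nat_lit 9879755185858590541873151)) (T.h (P (nat_lit 0)) (T.h (P (nat_lit 309819872879981887488)) (T.h (P (nat_lit 0)) (M (nat_lit 90352406113631)))))) (T.h (P (nat_lit 0)) (T.h (T.h (P (nat_lit 58316767257224544256)) (T.h (P (nat_lit 0)) (P (nat_lit 92134916019792)))) (T.h (P (nat_lit 0)) (P (nat_lit 53710110471168))))))) (T.h (T.h (T.h (P (nat_lit 0)) (T.h (P (nat_lit 102181546755126171009024)) (T.h (P (nat_lit 0)) (P (nat_lit 84866619629617152))))) (T.h (P (nat_lit 0)) (T.h (T.h (P (nat_lit 0)) (M (nat_lit 349144993130889215))) (P (nat_lit 0))))) (T.h (T.h (P (nat_lit 0)) (T.h (T.h (P (nat_lit 152618203125334933504)) (T.h (P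 (nat_lit 0)) (P (nat_lit 26136074278080)))) (T.h (P (nat_lit 0)) (M (nat_lit 47195046096623))))) (T.h (T.h (T.h (P (nat_lit 0)) (P (nat_lit 132705287198851072))) (P (nat_lit 0))) (T.h (T.h (P (nat_lit 0)) (M (nat_lit 57212876793887))) (P (nat_lit 0)))))))), (T.h (T.h (T.h (P (nat_lit 31532248948022724788922603274240)) (T.h (P (nat_lit 0)) (T.h (P (nat_lit 59002992844268282008567808)) (T.h (P (nat_lit 0)) (P (nat_lit 6774447923674480640)))))) (T.h (P (nat_lit 0)) (T.h (T.h (M (nat_lit 52901474879184542097211391)) (T.h (P (nat_lit 0)) (M (nat_lit 110995339492930355199)))) (T.h (P (nat_lit 0)) (M (nat_lit 92810436295327219711)))))) (T.h (T.h (P (nat_lit 0)) (T.h (T.h (P (nat_lit 0)) (T.h (M (nat_lit 45200459760637229137919)) (T.h (P (nat_lit 0)) (P (nat_lit 245911429135663104))))) (T.h (P (nat_lit 0)) (T.h (T.h (P (nat_lit 0)) (M (nat_lit 113594165684273151))) (P (nat_lit 0)))))) (T.h (T.h (T.h (M (nat_lit 9672557215362827490951167)) (T.h (P (nat_lit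 0)) (M (nat_lit 401662547894130966527)))) (T.h (P (nat_lit 0)) (M (nat_lit 143415360814185447423)))) (T.h (T.h (P (nat_lit 0)) (T.h (T.h (P (nat_lit 0)) (P (nat_lit 256737854965612544))) (P (nat_lit 0)))) (P (nat_lit 16294917072251518976)))))), (T.h (T.h (P (nat_lit 0)) (T.h (T.h (P (nat_lit 0)) (T.h (P (nat_lit 31209864530776429892206592)) (T.h (P (nat_lit 0)) (P (nat_lit 31772967205097963520))))) (T.h (P (nat_lit 0)) (T.h (T.h (P (nat_lit 0)) (P (nat_lit 10321832204828672000))) (P (nat_lit 0)))))) (T.h (T.h (T.h (P (nat_lit 1946743424394142825588981760)) (T.h (P (nat_lit 0)) (T.h (M (nat_lit 224637929717713661329407)) (T.h (P (nat_lit 0)) (M (nat_lit 309328723905347583)))))) (T.h (P (nat_lit 0)) (T.h (T.h (M (nat_lit 118656699405318345457663)) (T.h (P (nat_lit 0)) (M (nat_lit 69917546504617983)))) (T.h (P (nat_lit 0)) (M (nat_lit 16759833923158015)))))) (T.h (T.h (P (nat_lit 0)) (T.h (T.h (P (nat_lit 0)) (P (nat_lit 423209702805559312384))) (P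 (nat_lit 0)))) (T.h (T.h (T.h (M (nat_lit 34797644328555486642175)) (T.h (P (nat_lit 0)) (M (nat_lit 799607449830686719)))) (T.h (P (nat_lit 0)) (M (nat_lit 182651378143035391)))) (T.h (P (nat_lit 0)) (P (nat_lit 78678102028189696))))))), (P (nat_lit 0))]
def lP11_27 : List (T ℤ) := [(P (nat_lit 0)), (T.h (T.h (T.h (P (nat_lit 0)) (T.h (P (nat_lit 6801896442518516848624926720)) (T.h (P (nat_lit 0)) (T.h (M (nat_lit 16269053149684254638079)) (T.h (P (nat_lit 0)) (M (nat_lit 6062581201043455))))))) (T.h (P (nat_lit 0)) (T.h (T.h (P (nat_lit 0)) (T.h (M (nat_lit 23673963548691115540479)) (T.h (P (nat_lit 0)) (P (nat_lit 3999630672232448))))) (T.h (P (nat_lit 0)) (T.h (T.h (P (nat_lit 0)) (M (nat_lit 3288468659404799))) (P (nat_lit 0))))))) (T.h (T.h (P (nat_lit 0)) (T.h (T.h (P (nat_lit 16711225617270992577495040)) (T.h (P (nat_lit 0)) (T.h (P (nat_lit 95597895653135482880)) (T.h (P (nat_lit 0)) (P (nat_lit 27402727578760)))))) (T.h (P (nat_lit 0))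 (T.h (T.h (P (nat_lit 29435310069868658688)) (T.h (P (nat_lit 0)) (M (nat_lit 47994939898575)))) (T.h (P (nat_lit 0)) (P (nat_lit 1624450826248))))))) (T.h (T.h (T.h (P (nat_lit 0)) (T.h (M (nat_lit 61949671853687192944639)) (T.h (P (nat_lit 0)) (M (nat_lit 15777028889149439))))) (T.h (P (nat_lit 0)) (T.h (T.h (P (nat_lit 0)) (P (nat_lit 11876745795108864))) (P (nat_lit 0))))) (T.h (T.h (P (nat_lit 0)) (T.h (T.h (P (nat_lit 18816914626879422464)) (T.h (P (nat_lit 0)) (P (nat_lit 40934921564768)))) (T.h (P (nat_lit 0)) (M (nat_lit 27481800065447))))) (T.h (T.h (T.h (P (nat_lit 0)) (M (nat_lit 11674442002104319))) (P (nat_lit 0))) (T.h (T.h (P (nat_lit 0)) (M (nat_lit 3640415834759))) (P (nat_lit 0)))))))), (T.h (T.h (T.h (P (nat_lit 116538236317700504972192617857024)) (T.h (P (nat_lit 0)) (T.h (M (nat_lit 11610262193131898743554047)) (T.h (P (nat_lit 0)) (T.h (P (nat_lit 4059346151223066624)) (T.h (P (nat_lit 0)) (M (nat_lit 15472739090591))))))))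 (T.h (P (nat_lit 0)) (T.h (T.h (P (nat_lit 32611548086002112509509632)) (T.h (P (nat_lit 0)) (T.h (P (nat_lit 18121256762693648384)) (T.h (P (nat_lit 0)) (M (nat_lit 35169845347711)))))) (T.h (P (nat_lit 0)) (T.h (T.h (P (nat_lit 44292664539358429184)) (T.h (P (nat_lit 0)) (M (nat_lit 22396963694271)))) (T.h (P (nat_lit 0)) (P (nat_lit 32079931261568)))))))) (T.h (T.h (P (nat_lit 0)) (T.h (T.h (P (nat_lit 0)) (T.h (P (nat_lit 35871329636008551514112)) (T.h (P (nat_lit 0)) (P (nat_lit 41843344361783296))))) (T.h (P (nat_lit 0)) (T.h (T.h (P (nat_lit 0)) (P (nat_lit 40345172097957888))) (P (nat_lit 0)))))) (T.h (T.h (T.h (P (nat_lit 29852342430197712133554176)) (T.h (P (nat_lit 0)) (T.h (M (nat_lit 89283928821218672639)) (T.h (P (nat_lit 0)) (P (nat_lit 28335036564160)))))) (T.h (P (nat_lit 0)) (T.h (T.h (P (nat_lit 14755860110806876160)) (T.h (P (nat_lit 0)) (M (nat_lit 22178401775167)))) (T.h (P (nat_lit 0)) (M (nat_lit 7076939740079)))))) (T.h (T.h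 (P (nat_lit 0)) (T.h (T.h (P (nat_lit 0)) (P (nat_lit 95266818162229248))) (P (nat_lit 0)))) (T.h (T.h (T.h (P (nat_lit 11257209192479457280)) (T.h (P (nat_lit 0)) (M (nat_lit 8128876489663)))) (T.h (P (nat_lit 0)) (M (nat_lit 93345869782831)))) (T.h (P (nat_lit 0)) (M (nat_lit 61045729373567)))))))), (T.h (T.h (T.h (P (nat_lit 0)) (T.h (M (nat_lit 13643277596547858818052128767)) (T.h (P (nat_lit 0)) (T.h (P (nat_lit 13578388150504331935744)) (T.h (P (nat_lit 0)) (P (nat_lit 62277197655441408))))))) (T.h (P (nat_lit 0)) (T.h (T.h (P (nat_lit 0)) (T.h (M (nat_lit 72413172943302078496767)) (T.h (P (nat_lit 0)) (P (nat_lit 104001452826558464))))) (T.h (P (nat_lit 0)) (T.h (T.h (P (nat_lit 0)) (M (nat_lit 81311443225575423))) (P (nat_lit 0))))))) (T.h (T.h (P (nat_lit 0)) (T.h (T.h (P (nat_lit 5538450431683356522446848)) (T.h (P (nat_lit 0)) (T.h (M (nat_lit 214692018084393254911)) (T.h (P (nat_lit 0)) (P (nat_lit 20145618234144)))))) (T.h (P (nat_lit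 0)) (T.h (T.h (P (nat_lit 56006648096966574080)) (T.h (P (nat_lit 0)) (P (nat_lit 4724950018272)))) (T.h (P (nat_lit 0)) (P (nat_lit 2741942744016))))))) (T.h (T.h (T.h (P (nat_lit 0)) (T.h (P (nat_lit 99357904463704478449664)) (T.h (P (nat_lit 0)) (M (nat_lit 25911504250404863))))) (T.h (P (nat_lit 0)) (T.h (T.h (P (nat_lit 0)) (M (nat_lit 40126139474247679))) (P (nat_lit 0))))) (T.h (T.h (P (nat_lit 0)) (T.h (T.h (P (nat_lit 71019701946244136960)) (T.h (P (nat_lit 0)) (M (nat_lit 47982439091855)))) (T.h (P (nat_lit 0)) (P (nat_lit 106333461033312))))) (T.h (T.h (T.h (P (nat_lit 0)) (M (nat_lit 12317872639180799))) (P (nat_lit 0))) (T.h (T.h (P (nat_lit 0)) (P (nat_lit 16779312954192))) (P (nat_lit 0)))))))), (T.h (T.h (T.h (M (nat_lit 202020782321028235702046130438143)) (T.h (P (nat_lit 0)) (T.h (P (nat_lit 23366883707900872915681280)) (T.h (P (nat_lit 0)) (T.h (M (nat_lit 7131341328276783103)) (T.h (P (nat_lit 0)) (P (nat_lit 14645707618464))))))))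 (T.h (P (nat_lit 0)) (T.h (T.h (M (nat_lit 42337534151861017088360447)) (T.h (P (nat_lit 0)) (T.h (P (nat_lit 34550124118083108864)) (T.h (P (nat_lit 0)) (P (nat_lit 26406644853168)))))) (T.h (P (nat_lit 0)) (T.h (T.h (M (nat_lit 68615088356747902975)) (T.h (P (nat_lit 0)) (P (nat_lit 133240626359424)))) (T.h (P (nat_lit 0)) (M (nat_lit 87410689135199)))))))) (T.h (T.h (P (nat_lit 0)) (T.h (T.h (P (nat_lit 0)) (T.h (P (nat_lit 9071748710483349209088)) (T.h (P (nat_lit 0)) (M (nat_lit 63102135297736703))))) (T.h (P (nat_lit 0)) (T.h (T.h (P (nat_lit 0)) (M (nat_lit 125759308696616959))) (P (nat_lit 0)))))) (T.h (T.h (T.h (M (nat_lit 35815997065927715062808575)) (T.h (P (nat_lit 0)) (T.h (P (nat_lit 15088578806786555904)) (T.h (P (nat_lit 0)) (M (nat_lit 77309147628143)))))) (T.h (P (nat_lit 0)) (T.h (T.h (P (nat_lit 132043227812096638976)) (T.h (P (nat_lit 0)) (P (nat_lit 14513604933888)))) (T.h (P (nat_lit 0)) (P (nat_lit 352154342018448)))))) (T.h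 (T.h (P (nat_lit 0)) (T.h (T.h (P (nat_lit 0)) (M (nat_lit 178490904560173055))) (P (nat_lit 0)))) (T.h (T.h (T.h (M (nat_lit 2673562259325714431)) (T.h (P (nat_lit 0)) (P (nat_lit 134195146157664)))) (T.h (P (nat_lit 0)) (P (nat_lit 499241730033216)))) (T.h (P (nat_lit 0)) (P (nat_lit 8713460479392)))))))), (T.h (T.h (T.h (P (nat_lit 0)) (T.h (M (nat_lit 5287393795622230931927990271)) (T.h (P (nat_lit 0)) (T.h (M (nat_lit 10997930159462676430847)) (T.h (P (nat_lit 0)) (M (nat_lit 21976945639718911))))))) (T.h (P (nat_lit 0)) (T.h (T.h (P (nat_lit 0)) (T.h (M (nat_lit 11470395129475534684159)) (T.h (P (nat_lit 0)) (M (nat_lit 28259372670091263))))) (T.h (P (nat_lit 0)) (T.h (T.h (P (nat_lit 0)) (M (nat_lit 48452197856411647))) (P (nat_lit 0))))))) (T.h (T.h (P (nat_lit 0)) (T.h (T.h (M (nat_lit 7968129611153399804329983)) (T.h (P (nat_lit 0)) (P (nat_lit 28063542199158046720)))) (T.h (P (nat_lit 0)) (M (nat_lit 34246235936746635263))))) (T.h (T.h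 (T.h (P (nat_lit 0)) (T.h (M (nat_lit 37042947306702845771775)) (T.h (P (nat_lit 0)) (P (nat_lit 78374196030734336))))) (T.h (P (nat_lit 0)) (T.h (T.h (P (nat_lit 0)) (M (nat_lit 21820328043151359))) (P (nat_lit 0))))) (T.h (T.h (P (nat_lit 0)) (M (nat_lit 28918869486353776639))) (T.h (T.h (T.h (P (nat_lit 0)) (M (nat_lit 17184947940786175))) (P (nat_lit 0))) (P (nat_lit 0))))))), (P (nat_lit 0)), (P (nat_lit 0))]
def lP11_28 : List (T ℤ) := [(T.h (T.h (P (nat_lit 0)) (T.h (T.h (P (nat_lit 7067883162817083330290253824)) (T.h (P (nat_lit 0)) (T.h (M (nat_lit 91738289786465600667647)) (T.h (P (nat_lit 0)) (M (nat_lit 6688657935761407)))))) (T.h (P (nat_lit 0)) (T.h (T.h (P (nat_lit 34241053326966138077184)) (T.h (P (nat_lit 0)) (M (nat_lit 87688970408525823)))) (T.h (P (nat_lit 0)) (M (nat_lit 6241919175884799))))))) (T.h (T.h (T.h (P (nat_lit 0)) (T.h (P (nat_lit 49272808432764750105935872)) (T.h (P (nat_lit 0)) (T.h (P (nat_lit 2582384139558715392))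 (T.h (P (nat_lit 0)) (M (nat_lit 41936298832791))))))) (T.h (P (nat_lit 0)) (T.h (T.h (P (nat_lit 0)) (T.h (M (nat_lit 23196300775184662527)) (T.h (P (nat_lit 0)) (P (nat_lit 54142757789336))))) (T.h (P (nat_lit 0)) (T.h (T.h (P (nat_lit 0)) (P (nat_lit 10409735701408))) (P (nat_lit 0))))))) (T.h (T.h (P (nat_lit 0)) (T.h (T.h (M (nat_lit 59944548680957257842687)) (T.h (P (nat_lit 0)) (P (nat_lit 78475825977229312)))) (T.h (P (nat_lit 0)) (M (nat_lit 14972462036058111))))) (T.h (T.h (T.h (P (nat_lit 0)) (T.h (P (nat_lit 26070603246705049600)) (T.h (P (nat_lit 0)) (M (nat_lit 99518722208543))))) (T.h (P (nat_lit 0)) (T.h (T.h (P (nat_lit 0)) (P (nat_lit 136896221337896))) (P (nat_lit 0))))) (T.h (T.h (P (nat_lit 0)) (P (nat_lit 33043563204902912))) (T.h (T.h (T.h (P (nat_lit 0)) (M (nat_lit 60155240630727))) (P (nat_lit 0))) (P (nat_lit 0)))))))), (T.h (T.h (P (nat_lit 0)) (T.h (T.h (P (nat_lit 0)) (T.h (M (nat_lit 29958964082896697032703999)) (T.h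 (P (nat_lit 0)) (T.h (P (nat_lit 16255017564403400704)) (T.h (P (nat_lit 0)) (M (nat_lit 35685065481487))))))) (T.h (P (nat_lit 0)) (T.h (T.h (P (nat_lit 0)) (T.h (M (nat_lit 38902030640963649535)) (T.h (P (nat_lit 0)) (M (nat_lit 13381475394175))))) (T.h (P (nat_lit 0)) (T.h (T.h (P (nat_lit 0)) (P (nat_lit 15958812818176))) (P (nat_lit 0)))))))) (T.h (T.h (T.h (M (nat_lit 17659951530170901767705853951)) (T.h (P (nat_lit 0)) (T.h (P (nat_lit 58650704618747651424256)) (T.h (P (nat_lit 0)) (P (nat_lit 71761040527261696)))))) (T.h (P (nat_lit 0)) (T.h (T.h (P (nat_lit 62838136550265211322368)) (T.h (P (nat_lit 0)) (M (nat_lit 116121369701367807)))) (T.h (P (nat_lit 0)) (P (nat_lit 35350754512633856)))))) (T.h (T.h (P (nat_lit 0)) (T.h (T.h (P (nat_lit 0)) (T.h (M (nat_lit 110232834500051599359)) (T.h (P (nat_lit 0)) (M (nat_lit 1228216181215))))) (T.h (P (nat_lit 0)) (T.h (T.h (P (nat_lit 0)) (P (nat_lit 31589154588192))) (P (nat_lit 0)))))) (T.h (T.h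 (T.h (P (nat_lit 5564071054108727967744)) (T.h (P (nat_lit 0)) (P (nat_lit 34555186056429568)))) (T.h (P (nat_lit 0)) (P (nat_lit 17784403227607040)))) (T.h (T.h (P (nat_lit 0)) (T.h (T.h (P (nat_lit 0)) (M (nat_lit 6049335980319))) (P (nat_lit 0)))) (P (nat_lit 11843724323946496))))))), (T.h (T.h (P (nat_lit 0)) (T.h (T.h (P (nat_lit 9534425656335056731591671808)) (T.h (P (nat_lit 0)) (T.h (M (nat_lit 67804970372874798891007)) (T.h (P (nat_lit 0)) (M (nat_lit 16291914546905087)))))) (T.h (P (nat_lit 0)) (T.h (T.h (M (nat_lit 96831852276130993143807)) (T.h (P (nat_lit 0)) (M (nat_lit 122346863733080063)))) (T.h (P (nat_lit 0)) (M (nat_lit 15079038065934335))))))) (T.h (T.h (T.h (P (nat_lit 0)) (T.h (M (nat_lit 138527131665212932580442111)) (T.h (P (nat_lit 0)) (T.h (P (nat_lit 162723255905528315904)) (T.h (P (nat_lit 0)) (P (nat_lit 60196247186208))))))) (T.h (P (nat_lit 0)) (T.h (T.h (P (nat_lit 0)) (T.h (P (nat_lit 37123236211443367936)) (T.h (P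 (nat_lit 0)) (M (nat_lit 95885928699887))))) (T.h (P (nat_lit 0)) (T.h (T.h (P (nat_lit 0)) (M (nat_lit 858351454991))) (P (nat_lit 0))))))) (T.h (T.h (P (nat_lit 0)) (T.h (T.h (P (nat_lit 54097377746224613949440)) (T.h (P (nat_lit 0)) (M (nat_lit 283417121006485503)))) (T.h (P (nat_lit 0)) (M (nat_lit 1709138328387583))))) (T.h (T.h (T.h (P (nat_lit 0)) (T.h (M (nat_lit 3958442399667060735)) (T.h (P (nat_lit 0)) (P (nat_lit 39743026870800))))) (T.h (P (nat_lit 0)) (T.h (T.h (P (nat_lit 0)) (P (nat_lit 18532277689920))) (P (nat_lit 0))))) (T.h (T.h (P (nat_lit 0)) (P (nat_lit 89425406900207616))) (T.h (T.h (T.h (P (nat_lit 0)) (M (nat_lit 1438918448639))) (P (nat_lit 0))) (P (nat_lit 0)))))))), (T.h (T.h (P (nat_lit 0)) (T.h (T.h (P (nat_lit 0)) (T.h (P (nat_lit 10272478443104322537390080)) (T.h (P (nat_lit 0)) (T.h (P (nat_lit 92046784355859693568)) (T.h (P (nat_lit 0)) (P (nat_lit 32752559787552))))))) (T.h (P (nat_lit 0)) (T.h (T.h (P (nat_lit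 0)) (T.h (P (nat_lit 103460306243349905408)) (T.h (P (nat_lit 0)) (P (nat_lit 12834186665184))))) (T.h (P (nat_lit 0)) (T.h (T.h (P (nat_lit 0)) (M (nat_lit 45849852608687))) (P (nat_lit 0)))))))) (T.h (T.h (T.h (M (nat_lit 3204733460397538933508931583)) (T.h (P (nat_lit 0)) (T.h (P (nat_lit 189533633965619006144512)) (T.h (P (nat_lit 0)) (M (nat_lit 159947440549658623)))))) (T.h (P (nat_lit 0)) (T.h (T.h (M (nat_lit 58299763117793543716863)) (T.h (P (nat_lit 0)) (P (nat_lit 196731980638601216)))) (T.h (P (nat_lit 0)) (P (nat_lit 118297934862188544)))))) (T.h (T.h (P (nat_lit 0)) (T.h (T.h (P (nat_lit 0)) (T.h (M (nat_lit 25283953647354380287)) (T.h (P (nat_lit 0)) (M (nat_lit 3247963595855))))) (T.h (P (nat_lit 0)) (T.h (T.h (P (nat_lit 0)) (M (nat_lit 215827605369791))) (P (nat_lit 0)))))) (T.h (T.h (T.h (M (nat_lit 69418260137388823019519)) (T.h (P (nat_lit 0)) (P (nat_lit 58042506824548352)))) (T.h (P (nat_lit 0)) (M (nat_lit 33821400822153215))))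 (T.h (T.h (P (nat_lit 0)) (T.h (T.h (P (nat_lit 0)) (M (nat_lit 139411251903167))) (P (nat_lit 0)))) (M (nat_lit 69814345750593535))))))), (T.h (T.h (P (nat_lit 0)) (T.h (T.h (M (nat_lit 1043116937690069580088606719)) (T.h (P (nat_lit 0)) (T.h (P (nat_lit 12925985027821664206848)) (T.h (P (nat_lit 0)) (M (nat_lit 70522602099113983)))))) (T.h (P (nat_lit 0)) (T.h (T.h (P (nat_lit 61764923110046956519424)) (T.h (P (nat_lit 0)) (M (nat_lit 121260396594069503)))) (T.h (P (nat_lit 0)) (P (nat_lit 114189388980387840))))))) (T.h (T.h (T.h (P (nat_lit 0)) (T.h (M (nat_lit 18488068673796538873413631)) (T.h (P (nat_lit 0)) (P (nat_lit 13067073905649254400))))) (T.h (P (nat_lit 0)) (T.h (T.h (P (nat_lit 0)) (M (nat_lit 3225623507505250303))) (P (nat_lit 0))))) (T.h (T.h (P (nat_lit 0)) (T.h (T.h (M (nat_lit 101464149854981390860287)) (T.h (P (nat_lit 0)) (P (nat_lit 21950935167303680)))) (T.h (P (nat_lit 0)) (M (nat_lit 293207130200866815))))) (T.h (T.h (T.h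 (P (nat_lit 0)) (M (nat_lit 3412449340189310975))) (P (nat_lit 0))) (T.h (T.h (P (nat_lit 0)) (M (nat_lit 273430289931173887))) (P (nat_lit 0))))))), (P (nat_lit 0)), (T.h (T.h (T.h (P (nat_lit 0)) (T.h (P (nat_lit 6088348195122486763923177472)) (T.h (P (nat_lit 0)) (T.h (P (nat_lit 15278871285793812381696)) (T.h (P (nat_lit 0)) (M (nat_lit 39641499995897855))))))) (T.h (P (nat_lit 0)) (T.h (T.h (P (nat_lit 0)) (T.h (P (nat_lit 26273341414655028887552)) (T.h (P (nat_lit 0)) (M (nat_lit 88555637389066239))))) (T.h (P (nat_lit 0)) (T.h (T.h (P (nat_lit 0)) (P (nat_lit 28646689609252864))) (P (nat_lit 0))))))) (T.h (T.h (P (nat_lit 0)) (T.h (T.h (P (nat_lit 5586559612285185070989312)) (T.h (P (nat_lit 0)) (T.h (M (nat_lit 46472014677212659711)) (T.h (P (nat_lit 0)) (M (nat_lit 7072690798567)))))) (T.h (P (nat_lit 0)) (T.h (T.h (M (nat_lit 38035878949488164863)) (T.h (P (nat_lit 0)) (M (nat_lit 50023920775135)))) (T.h (P (nat_lit 0)) (P (nat_lit 43589744350600)))))))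 (T.h (T.h (T.h (P (nat_lit 0)) (T.h (M (nat_lit 47295177347541491515391)) (T.h (P (nat_lit 0)) (P (nat_lit 173223522938322944))))) (T.h (P (nat_lit 0)) (T.h (T.h (P (nat_lit 0)) (P (nat_lit 71846498905096192))) (P (nat_lit 0))))) (T.h (T.h (P (nat_lit 0)) (T.h (T.h (P (nat_lit 18303798455157391360)) (T.h (P (nat_lit 0)) (P (nat_lit 16886384530680)))) (T.h (P (nat_lit 0)) (P (nat_lit 44372658307848))))) (T.h (T.h (T.h (P (nat_lit 0)) (P (nat_lit 29590114659729408))) (P (nat_lit 0))) (T.h (T.h (P (nat_lit 0)) (M (nat_lit 28311984350855))) (P (nat_lit 0)))))))), (T.h (T.h (T.h (P (nat_lit 90919965927699648071075150954496)) (T.h (P (nat_lit 0)) (T.h (M (nat_lit 17606398215889679659565055)) (T.h (P (nat_lit 0)) (T.h (M (nat_lit 7848427304328888319)) (T.h (P (nat_lit 0)) (M (nat_lit 67029174892799)))))))) (T.h (P (nat_lit 0)) (T.h (T.h (M (nat_lit 14847192560085279283609599)) (T.h (P (nat_lit 0)) (T.h (P (nat_lit 67519148981114372096)) (T.h (P (nat_lit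 0)) (M (nat_lit 98647648209967)))))) (T.h (P (nat_lit 0)) (T.h (T.h (P (nat_lit 25187028042550083584)) (T.h (P (nat_lit 0)) (M (nat_lit 12378718167215)))) (T.h (P (nat_lit 0)) (P (nat_lit 26096485742336)))))))) (T.h (T.h (P (nat_lit 0)) (T.h (T.h (P (nat_lit 0)) (T.h (P (nat_lit 77741490753788796993536)) (T.h (P (nat_lit 0)) (P (nat_lit 84880849788010496))))) (T.h (P (nat_lit 0)) (T.h (T.h (P (nat_lit 0)) (P (nat_lit 29959203723739136))) (P (nat_lit 0)))))) (T.h (T.h (T.h (M (nat_lit 59069002839219290536673279)) (T.h (P (nat_lit 0)) (T.h (M (nat_lit 36520639950911176703)) (T.h (P (nat_lit 0)) (M (nat_lit 13430654916799)))))) (T.h (P (nat_lit 0)) (T.h (T.h (P (nat_lit 70884545633001144320)) (T.h (P (nat_lit 0)) (M (nat_lit 21861736655647)))) (T.h (P (nat_lit 0)) (M (nat_lit 27698742121407)))))) (T.h (T.h (P (nat_lit 0)) (T.h (T.h (P (nat_lit 0)) (P (nat_lit 31457375987564544))) (P (nat_lit 0)))) (T.h (T.h (T.h (M (nat_lit 15046290345585278975)) (T.h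 (P (nat_lit 0)) (P (nat_lit 23033258137024)))) (T.h (P (nat_lit 0)) (M (nat_lit 40471623774847)))) (T.h (P (nat_lit 0)) (M (nat_lit 21456184609823))))))))]
def lP11_29 : List (T ℤ) := [(T.h (T.h (T.h (P (nat_lit 0)) (T.h (P (nat_lit 58338322745655305359807479808)) (T.h (P (nat_lit 0)) (T.h (M (nat_lit 143992858799189258141695)) (T.h (P (nat_lit 0)) (P (nat_lit 127095104719126528))))))) (T.h (P (nat_lit 0)) (T.h (T.h (P (nat_lit 0)) (T.h (M (nat_lit 196566714422856253439999)) (T.h (P (nat_lit 0)) (M (nat_lit 133463193925386239))))) (T.h (P (nat_lit 0)) (T.h (T.h (P (nat_lit 0)) (M (nat_lit 295902911463981055))) (P (nat_lit 0))))))) (T.h (T.h (P (nat_lit 0)) (T.h (T.h (M (nat_lit 29977597977430621685809151)) (T.h (P (nat_lit 0)) (T.h (P (nat_lit 733060897668971102208)) (T.h (P (nat_lit 0)) (P (nat_lit 75199114826304)))))) (T.h (P (nat_lit 0)) (T.h (T.h (P (nat_lit 235249386978065514496)) (T.h (P (nat_lit 0)) (M (nat_lit 26168208122831)))) (T.h (P (nat_lit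 0)) (P (nat_lit 33509116181904))))))) (T.h (T.h (T.h (P (nat_lit 0)) (T.h (M (nat_lit 547303062642554096844799)) (T.h (P (nat_lit 0)) (P (nat_lit 35914537506177024))))) (T.h (P (nat_lit 0)) (T.h (T.h (P (nat_lit 0)) (M (nat_lit 290464226375008255))) (P (nat_lit 0))))) (T.h (T.h (P (nat_lit 0)) (T.h (T.h (P (nat_lit 548058563199883018240)) (T.h (P (nat_lit 0)) (M (nat_lit 71286842391023)))) (T.h (P (nat_lit 0)) (M (nat_lit 27999752123807))))) (T.h (T.h (T.h (P (nat_lit 0)) (P (nat_lit 198891281537531904))) (P (nat_lit 0))) (T.h (T.h (P (nat_lit 0)) (P (nat_lit 20692215999552))) (P (nat_lit 0)))))))), (T.h (T.h (T.h (M (nat_lit 371083964574087838859463028113407)) (T.h (P (nat_lit 0)) (T.h (M (nat_lit 130062820994910637692813311)) (T.h (P (nat_lit 0)) (T.h (M (nat_lit 4481646528095584255)) (T.h (P (nat_lit 0)) (P (nat_lit 44867756293920)))))))) (T.h (P (nat_lit 0)) (T.h (T.h (P (nat_lit 42179623406802210719268864)) (T.h (P (nat_lit 0)) (T.h (M (nat_lit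 219990005619055656959)) (T.h (P (nat_lit 0)) (P (nat_lit 48915629724816)))))) (T.h (P (nat_lit 0)) (T.h (T.h (M (nat_lit 96505062973262266367)) (T.h (P (nat_lit 0)) (P (nat_lit 89349219871200)))) (T.h (P (nat_lit 0)) (M (nat_lit 23068810750751)))))))) (T.h (T.h (P (nat_lit 0)) (T.h (T.h (P (nat_lit 0)) (T.h (M (nat_lit 118924752944854925836287)) (T.h (P (nat_lit 0)) (M (nat_lit 153545642275045375))))) (T.h (P (nat_lit 0)) (T.h (T.h (P (nat_lit 0)) (P (nat_lit 417328928940851200))) (P (nat_lit 0)))))) (T.h (T.h (T.h (P (nat_lit 97391245096008048692953088)) (T.h (P (nat_lit 0)) (T.h (M (nat_lit 74052463673475071)) (T.h (P (nat_lit 0)) (P (nat_lit 18881862230160)))))) (T.h (P (nat_lit 0)) (T.h (T.h (P (nat_lit 43885872022711959552)) (T.h (P (nat_lit 0)) (M (nat_lit 95326189353503)))) (T.h (P (nat_lit 0)) (P (nat_lit 98625349565856)))))) (T.h (T.h (P (nat_lit 0)) (T.h (T.h (P (nat_lit 0)) (P (nat_lit 615333263927902208))) (P (nat_lit 0)))) (T.h (T.h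 (T.h (P (nat_lit 31885170502025609216)) (T.h (P (nat_lit 0)) (P (nat_lit 58895177060304)))) (T.h (P (nat_lit 0)) (P (nat_lit 98205074249616)))) (T.h (P (nat_lit 0)) (P (nat_lit 123631125776928)))))))), (T.h (T.h (T.h (P (nat_lit 0)) (T.h (P (nat_lit 7284968311669380775858405376)) (T.h (P (nat_lit 0)) (T.h (M (nat_lit 13929962863778288631807)) (T.h (P (nat_lit 0)) (M (nat_lit 86406858325852159))))))) (T.h (P (nat_lit 0)) (T.h (T.h (P (nat_lit 0)) (T.h (P (nat_lit 92978638380361695887360)) (T.h (P (nat_lit 0)) (M (nat_lit 69288826749681663))))) (T.h (P (nat_lit 0)) (T.h (T.h (P (nat_lit 0)) (P (nat_lit 51600025875382272))) (P (nat_lit 0))))))) (T.h (T.h (P (nat_lit 0)) (T.h (T.h (P (nat_lit 57569111757143935125815296)) (T.h (P (nat_lit 0)) (P (nat_lit 253539555411820019712)))) (T.h (P (nat_lit 0)) (M (nat_lit 283639000275028541439))))) (T.h (T.h (T.h (P (nat_lit 0)) (T.h (M (nat_lit 47915842399684846944255)) (T.h (P (nat_lit 0)) (M (nat_lit 996276945027071)))))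 (T.h (P (nat_lit 0)) (T.h (T.h (P (nat_lit 0)) (P (nat_lit 335433430287843328))) (P (nat_lit 0))))) (T.h (T.h (P (nat_lit 0)) (M (nat_lit 269741471717757288447))) (T.h (T.h (T.h (P (nat_lit 0)) (P (nat_lit 78293684505149440))) (P (nat_lit 0))) (P (nat_lit 0))))))), (T.h (T.h (P (nat_lit 0)) (T.h (T.h (M (nat_lit 8796633139127483325699063807)) (T.h (P (nat_lit 0)) (T.h (M (nat_lit 63021520902504837021695)) (T.h (P (nat_lit 0)) (M (nat_lit 90201467688058879)))))) (T.h (P (nat_lit 0)) (T.h (T.h (M (nat_lit 49568223524688045801471)) (T.h (P (nat_lit 0)) (P (nat_lit 73812048598401024)))) (T.h (P (nat_lit 0)) (M (nat_lit 24550276827938815))))))) (T.h (T.h (T.h (P (nat_lit 0)) (T.h (M (nat_lit 6104258270349006037057535)) (T.h (P (nat_lit 0)) (T.h (M (nat_lit 7201964852129038335)) (T.h (P (nat_lit 0)) (M (nat_lit 31701676764151))))))) (T.h (P (nat_lit 0)) (T.h (T.h (P (nat_lit 0)) (T.h (P (nat_lit 28016122449327292416)) (T.h (P (nat_lit 0)) (P (nat_lit 33958396886664)))))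 (T.h (P (nat_lit 0)) (T.h (T.h (P (nat_lit 0)) (P (nat_lit 145515116622832))) (P (nat_lit 0))))))) (T.h (T.h (P (nat_lit 0)) (T.h (T.h (M (nat_lit 28858893869128926363647)) (T.h (P (nat_lit 0)) (P (nat_lit 107283388228403200)))) (T.h (P (nat_lit 0)) (P (nat_lit 90264541267427328))))) (T.h (T.h (T.h (P (nat_lit 0)) (T.h (M (nat_lit 52241732874576855039)) (T.h (P (nat_lit 0)) (P (nat_lit 21482992952464))))) (T.h (P (nat_lit 0)) (T.h (T.h (P (nat_lit 0)) (M (nat_lit 6388521233151))) (P (nat_lit 0))))) (T.h (T.h (P (nat_lit 0)) (M (nat_lit 26974990662139903))) (T.h (T.h (T.h (P (nat_lit 0)) (P (nat_lit 27814765993016))) (P (nat_lit 0))) (P (nat_lit 0)))))))), (T.h (T.h (P (nat_lit 0)) (T.h (T.h (P (nat_lit 0)) (T.h (M (nat_lit 47865285920089784994234367)) (T.h (P (nat_lit 0)) (T.h (M (nat_lit 67523329859919020031)) (T.h (P (nat_lit 0)) (M (nat_lit 41146775736751))))))) (T.h (P (nat_lit 0)) (T.h (T.h (P (nat_lit 0)) (T.h (M (nat_lit 12366281654551969791))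 (T.h (P (nat_lit 0)) (M (nat_lit 47048248158751))))) (T.h (P (nat_lit 0)) (T.h (T.h (P (nat_lit 0)) (M (nat_lit 92790654036415))) (P (nat_lit 0)))))))) (T.h (T.h (T.h (M (nat_lit 15679541930845267546068746239)) (T.h (P (nat_lit 0)) (T.h (P (nat_lit 59215813094363950481408)) (T.h (P (nat_lit 0)) (P (nat_lit 2461044021886976)))))) (T.h (P (nat_lit 0)) (T.h (T.h (P (nat_lit 55028381162846390583296)) (T.h (P (nat_lit 0)) (M (nat_lit 62333406841651199)))) (T.h (P (nat_lit 0)) (P (nat_lit 38871330036514816)))))) (T.h (T.h (P (nat_lit 0)) (T.h (T.h (P (nat_lit 0)) (T.h (M (nat_lit 114620104751915728895)) (T.h (P (nat_lit 0)) (P (nat_lit 39553764827008))))) (T.h (P (nat_lit 0)) (T.h (T.h (P (nat_lit 0)) (P (nat_lit 6736394057600))) (P (nat_lit 0)))))) (T.h (T.h (T.h (M (nat_lit 9491288120945209769983)) (T.h (P (nat_lit 0)) (M (nat_lit 20671216447275007)))) (T.h (P (nat_lit 0)) (M (nat_lit 3900433618452479)))) (T.h (T.h (P (nat_lit 0)) (T.h (T.h (P (nat_lit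 0)) (M (nat_lit 2885833867679))) (P (nat_lit 0)))) (P (nat_lit 15106117159583744))))))), (T.h (T.h (P (nat_lit 0)) (T.h (T.h (M (nat_lit 14699444102260435898580598783)) (T.h (P (nat_lit 0)) (T.h (M (nat_lit 135293352118637519962111)) (T.h (P (nat_lit 0)) (P (nat_lit 3927096214618112)))))) (T.h (P (nat_lit 0)) (T.h (T.h (M (nat_lit 21022155746184366391295)) (T.h (P (nat_lit 0)) (P (nat_lit 307060674230452224)))) (T.h (P (nat_lit 0)) (P (nat_lit 8906030922694656))))))) (T.h (T.h (T.h (P (nat_lit 0)) (T.h (P (nat_lit 264197221458303479611129856)) (T.h (P (nat_lit 0)) (T.h (P (nat_lit 107218120534636101632)) (T.h (P (nat_lit 0)) (P (nat_lit 25515269866896))))))) (T.h (P (nat_lit 0)) (T.h (T.h (P (nat_lit 0)) (T.h (P (nat_lit 963625346863877586944)) (T.h (P (nat_lit 0)) (M (nat_lit 20637821032175))))) (T.h (P (nat_lit 0)) (T.h (T.h (P (nat_lit 0)) (P (nat_lit 169611509330640))) (P (nat_lit 0))))))) (T.h (T.h (P (nat_lit 0)) (T.h (T.h (M (nat_lit 303776974185143931502591))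 (T.h (P (nat_lit 0)) (P (nat_lit 2136137100165120)))) (T.h (P (nat_lit 0)) (M (nat_lit 119008213731278847))))) (T.h (T.h (T.h (P (nat_lit 0)) (T.h (M (nat_lit 181095631738026065919)) (T.h (P (nat_lit 0)) (M (nat_lit 3192246446255))))) (T.h (P (nat_lit 0)) (T.h (T.h (P (nat_lit 0)) (M (nat_lit 135056027421983))) (P (nat_lit 0))))) (T.h (T.h (P (nat_lit 0)) (M (nat_lit 468403644570140671))) (T.h (T.h (T.h (P (nat_lit 0)) (P (nat_lit 87150435501744))) (P (nat_lit 0))) (P (nat_lit 0)))))))), (T.h (T.h (P (nat_lit 0)) (T.h (T.h (P (nat_lit 0)) (T.h (P (nat_lit 106075336957420466289508352)) (T.h (P (nat_lit 0)) (T.h (M (nat_lit 149085260369052565503)) (T.h (P (nat_lit 0)) (P (nat_lit 49485318777792))))))) (T.h (P (nat_lit 0)) (T.h (T.h (P (nat_lit 0)) (T.h (M (nat_lit 152795732343466754047)) (T.h (P (nat_lit 0)) (P (nat_lit 22887367908912))))) (T.h (P (nat_lit 0)) (T.h (T.h (P (nat_lit 0)) (P (nat_lit 4018972304880))) (P (nat_lit 0)))))))) (T.h (T.h (T.h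 (M (nat_lit 24669808485702515816465956863)) (T.h (P (nat_lit 0)) (T.h (M (nat_lit 115486233927752624373759)) (T.h (P (nat_lit 0)) (P (nat_lit 92681609897787392)))))) (T.h (P (nat_lit 0)) (T.h (T.h (M (nat_lit 98481950603613818585087)) (T.h (P (nat_lit 0)) (P (nat_lit 989702072943116288)))) (T.h (P (nat_lit 0)) (M (nat_lit 91237376546013183)))))) (T.h (T.h (P (nat_lit 0)) (T.h (T.h (P (nat_lit 0)) (T.h (M (nat_lit 812713700660864876543)) (T.h (P (nat_lit 0)) (M (nat_lit 337714764884783))))) (T.h (P (nat_lit 0)) (T.h (T.h (P (nat_lit 0)) (M (nat_lit 299480988247919))) (P (nat_lit 0)))))) (T.h (T.h (T.h (M (nat_lit 180565685084113187373055)) (T.h (P (nat_lit 0)) (P (nat_lit 319356198567739392)))) (T.h (P (nat_lit 0)) (P (nat_lit 297056623558328320)))) (T.h (T.h (P (nat_lit 0)) (T.h (T.h (P (nat_lit 0)) (M (nat_lit 283456879165151))) (P (nat_lit 0)))) (M (nat_lit 51843025050419199))))))), (T.h (T.h (P (nat_lit 0)) (T.h (T.h (M (nat_lit 28398382286410379448408866815))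 (T.h (P (nat_lit 0)) (T.h (P (nat_lit 371427416844194742796288)) (T.h (P (nat_lit 0)) (M (nat_lit 68433228062326783)))))) (T.h (P (nat_lit 0)) (T.h (T.h (P (nat_lit 6166060208012226723840)) (T.h (P (nat_lit 0)) (M (nat_lit 30222617954451455)))) (T.h (P (nat_lit 0)) (P (nat_lit 5683048376041472))))))) (T.h (T.h (T.h (P (nat_lit 0)) (T.h (M (nat_lit 4818697623215170922741759)) (T.h (P (nat_lit 0)) (M (nat_lit 226371716232740077567))))) (T.h (P (nat_lit 0)) (T.h (T.h (P (nat_lit 0)) (M (nat_lit 1020376983064226562047))) (P (nat_lit 0))))) (T.h (T.h (P (nat_lit 0)) (T.h (T.h (M (nat_lit 51780947633005553254399)) (T.h (P (nat_lit 0)) (P (nat_lit 474119032791728128)))) (T.h (P (nat_lit 0)) (M (nat_lit 18351971067068415))))) (T.h (T.h (T.h (P (nat_lit 0)) (M (nat_lit 312080181166017085439))) (P (nat_lit 0))) (T.h (T.h (P (nat_lit 0)) (M (nat_lit 104687174977617919))) (P (nat_lit 0)))))))]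
def lP11_30 : List (T ℤ) := [(T.h (T.h (T.h (P (nat_lit 233076472635401009944385235714048)) (T.h (P (nat_lit 0)) (T.h (P (nat_lit 65223096172004225019019264)) (T.h (P (nat_lit 0)) (T.h (P (nat_lit 88585329078716858368)) (T.h (P (nat_lit 0)) (P (nat_lit 64159862523136)))))))) (T.h (P (nat_lit 0)) (T.h (T.h (P (nat_lit 18242080237065813390000128)) (T.h (P (nat_lit 0)) (T.h (P (nat_lit 32877116873500524544)) (T.h (P (nat_lit 0)) (M (nat_lit 29473903434351)))))) (T.h (P (nat_lit 0)) (T.h (T.h (P (nat_lit 15316555343702523904)) (T.h (P (nat_lit 0)) (M (nat_lit 128515715130543)))) (T.h (P (nat_lit 0)) (M (nat_lit 76518468464159)))))))) (T.h (T.h (P (nat_lit 0)) (T.h (T.h (P (nat_lit 0)) (T.h (P (nat_lit 71742659272017103028224)) (T.h (P (nat_lit 0)) (P (nat_lit 80690344195915776))))) (T.h (P (nat_lit 0)) (T.h (T.h (P (nat_lit 0)) (P (nat_lit 137110162524012544))) (P (nat_lit 0)))))) (T.h (T.h (T.h (P (nat_lit 18242080237065813390000128)) (T.h (P (nat_lit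 0)) (T.h (P (nat_lit 32877116873500524544)) (T.h (P (nat_lit 0)) (M (nat_lit 29473903434351)))))) (T.h (P (nat_lit 0)) (T.h (T.h (M (nat_lit 178567857642437345279)) (T.h (P (nat_lit 0)) (M (nat_lit 44356803550335)))) (T.h (P (nat_lit 0)) (P (nat_lit 20206160074496)))))) (T.h (T.h (P (nat_lit 0)) (T.h (T.h (P (nat_lit 0)) (P (nat_lit 137110162524012544))) (P (nat_lit 0)))) (T.h (T.h (T.h (P (nat_lit 15316555343702523904)) (T.h (P (nat_lit 0)) (M (nat_lit 128515715130543)))) (T.h (P (nat_lit 0)) (P (nat_lit 20206160074496)))) (T.h (P (nat_lit 0)) (M (nat_lit 76518468464159)))))))), (T.h (T.h (T.h (P (nat_lit 0)) (T.h (P (nat_lit 18432704644176676824165646336)) (T.h (P (nat_lit 0)) (T.h (P (nat_lit 116422629219929520340992)) (T.h (P (nat_lit 0)) (M (nat_lit 20967521656307711))))))) (T.h (P (nat_lit 0)) (T.h (T.h (P (nat_lit 0)) (T.h (P (nat_lit 247978088137679796436992)) (T.h (P (nat_lit 0)) (P (nat_lit 331084446121787392))))) (T.h (P (nat_lit 0)) (T.h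 (T.h (P (nat_lit 0)) (M (nat_lit 19414704558178303))) (P (nat_lit 0))))))) (T.h (T.h (P (nat_lit 0)) (T.h (T.h (M (nat_lit 108077723834373033206743039)) (T.h (P (nat_lit 0)) (T.h (P (nat_lit 467769497859393585152)) (T.h (P (nat_lit 0)) (M (nat_lit 1716702909983)))))) (T.h (P (nat_lit 0)) (T.h (T.h (P (nat_lit 46241514640784752640)) (T.h (P (nat_lit 0)) (M (nat_lit 77353651009967)))) (T.h (P (nat_lit 0)) (P (nat_lit 58757328737568))))))) (T.h (T.h (T.h (P (nat_lit 0)) (T.h (P (nat_lit 247978088137679796436992)) (T.h (P (nat_lit 0)) (P (nat_lit 331084446121787392))))) (T.h (P (nat_lit 0)) (T.h (T.h (P (nat_lit 0)) (M (nat_lit 170559876401725439))) (P (nat_lit 0))))) (T.h (T.h (P (nat_lit 0)) (T.h (T.h (P (nat_lit 46241514640784752640)) (T.h (P (nat_lit 0)) (M (nat_lit 77353651009967)))) (T.h (P (nat_lit 0)) (P (nat_lit 79486053741600))))) (T.h (T.h (T.h (P (nat_lit 0)) (M (nat_lit 19414704558178303))) (P (nat_lit 0))) (T.h (T.h (P (nat_lit 0)) (P (nat_lit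 58757328737568))) (P (nat_lit 0)))))))), (T.h (T.h (T.h (M (nat_lit 327676549352302517218343288569855)) (T.h (P (nat_lit 0)) (T.h (P (nat_lit 261719556384271407048032256)) (T.h (P (nat_lit 0)) (T.h (P (nat_lit 96152024112158474240)) (T.h (P (nat_lit 0)) (P (nat_lit 95507953418304)))))))) (T.h (P (nat_lit 0)) (T.h (T.h (P (nat_lit 34265490293352720662265856)) (T.h (P (nat_lit 0)) (T.h (M (nat_lit 403682156242400182271)) (T.h (P (nat_lit 0)) (P (nat_lit 39831036088608)))))) (T.h (P (nat_lit 0)) (T.h (T.h (P (nat_lit 59785207082037280768)) (T.h (P (nat_lit 0)) (M (nat_lit 182278741535)))) (T.h (P (nat_lit 0)) (P (nat_lit 16744583935296)))))))) (T.h (T.h (P (nat_lit 0)) (T.h (T.h (P (nat_lit 0)) (T.h (P (nat_lit 141867233566594258960384)) (T.h (P (nat_lit 0)) (P (nat_lit 1326658114246868992))))) (T.h (P (nat_lit 0)) (T.h (T.h (P (nat_lit 0)) (P (nat_lit 557779208043921408))) (P (nat_lit 0)))))) (T.h (T.h (T.h (P (nat_lit 34265490293352720662265856))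 (T.h (P (nat_lit 0)) (T.h (M (nat_lit 403682156242400182271)) (T.h (P (nat_lit 0)) (P (nat_lit 39831036088608)))))) (T.h (P (nat_lit 0)) (T.h (T.h (M (nat_lit 667558033884167798783)) (T.h (P (nat_lit 0)) (M (nat_lit 278522100300095)))) (T.h (P (nat_lit 0)) (M (nat_lit 9458408436191)))))) (T.h (T.h (P (nat_lit 0)) (T.h (T.h (P (nat_lit 0)) (P (nat_lit 557779208043921408))) (P (nat_lit 0)))) (T.h (T.h (T.h (P (nat_lit 59785207082037280768)) (T.h (P (nat_lit 0)) (M (nat_lit 182278741535)))) (T.h (P (nat_lit 0)) (M (nat_lit 9458408436191)))) (T.h (P (nat_lit 0)) (P (nat_lit 16744583935296)))))))), (T.h (T.h (T.h (P (nat_lit 0)) (T.h (P (nat_lit 2134778327084513216209879040)) (T.h (P (nat_lit 0)) (T.h (P (nat_lit 19634437521394628558848)) (T.h (P (nat_lit 0)) (M (nat_lit 152921510813106175))))))) (T.h (P (nat_lit 0)) (T.h (T.h (P (nat_lit 0)) (T.h (P (nat_lit 391513506148935941488640)) (T.h (P (nat_lit 0)) (P (nat_lit 24969333601533952))))) (T.h (P (nat_lit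 0)) (T.h (T.h (P (nat_lit 0)) (P (nat_lit 60012447317065728))) (P (nat_lit 0))))))) (T.h (T.h (P (nat_lit 0)) (T.h (T.h (M (nat_lit 251266985355654811850113023)) (T.h (P (nat_lit 0)) (M (nat_lit 1682526086066868322303)))) (T.h (P (nat_lit 0)) (M (nat_lit 324368129295294398463))))) (T.h (T.h (T.h (P (nat_lit 0)) (T.h (P (nat_lit 391513506148935941488640)) (T.h (P (nat_lit 0)) (P (nat_lit 24969333601533952))))) (T.h (P (nat_lit 0)) (T.h (T.h (P (nat_lit 0)) (P (nat_lit 535649878491070464))) (P (nat_lit 0))))) (T.h (T.h (P (nat_lit 0)) (M (nat_lit 324368129295294398463))) (T.h (T.h (T.h (P (nat_lit 0)) (P (nat_lit 60012447317065728))) (P (nat_lit 0))) (P (nat_lit 0))))))), (T.h (T.h (P (nat_lit 0)) (T.h (T.h (P (nat_lit 33049727808472062908067479552)) (T.h (P (nat_lit 0)) (T.h (P (nat_lit 353177780428892153053184)) (T.h (P (nat_lit 0)) (P (nat_lit 173873189607211008)))))) (T.h (P (nat_lit 0)) (T.h (T.h (P (nat_lit 41477085984078964981760)) (T.h (P (nat_lit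 0)) (M (nat_lit 127256489471246335)))) (T.h (P (nat_lit 0)) (P (nat_lit 132425253785862144))))))) (T.h (T.h (T.h (P (nat_lit 0)) (T.h (M (nat_lit 136074691824650914841493503)) (T.h (P (nat_lit 0)) (T.h (M (nat_lit 246546229374448828415)) (T.h (P (nat_lit 0)) (P (nat_lit 9296870610384))))))) (T.h (P (nat_lit 0)) (T.h (T.h (P (nat_lit 0)) (T.h (M (nat_lit 266563986753998290943)) (T.h (P (nat_lit 0)) (P (nat_lit 17726840617536))))) (T.h (P (nat_lit 0)) (T.h (T.h (P (nat_lit 0)) (M (nat_lit 75125127725183))) (P (nat_lit 0))))))) (T.h (T.h (P (nat_lit 0)) (T.h (T.h (P (nat_lit 306068408225867260493824)) (T.h (P (nat_lit 0)) (M (nat_lit 212197575549681663)))) (T.h (P (nat_lit 0)) (P (nat_lit 86679300496228352))))) (T.h (T.h (T.h (P (nat_lit 0)) (T.h (P (nat_lit 113624335975041728512)) (T.h (P (nat_lit 0)) (P (nat_lit 121268982226560))))) (T.h (P (nat_lit 0)) (T.h (T.h (P (nat_lit 0)) (M (nat_lit 80099182760783))) (P (nat_lit 0))))) (T.h (T.h (P (nat_lit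 0)) (M (nat_lit 18738067978452991))) (T.h (T.h (T.h (P (nat_lit 0)) (P (nat_lit 10517340638208))) (P (nat_lit 0))) (P (nat_lit 0)))))))), (T.h (T.h (P (nat_lit 0)) (T.h (T.h (P (nat_lit 0)) (T.h (P (nat_lit 94747071619249943145873408)) (T.h (P (nat_lit 0)) (T.h (P (nat_lit 170739778534135300096)) (T.h (P (nat_lit 0)) (M (nat_lit 13873246587215))))))) (T.h (P (nat_lit 0)) (T.h (T.h (P (nat_lit 0)) (T.h (P (nat_lit 163036728621059276800)) (T.h (P (nat_lit 0)) (P (nat_lit 10438836721488))))) (T.h (P (nat_lit 0)) (T.h (T.h (P (nat_lit 0)) (P (nat_lit 110195512281936))) (P (nat_lit 0)))))))) (T.h (T.h (T.h (P (nat_lit 63980833045164773812205518848)) (T.h (P (nat_lit 0)) (T.h (M (nat_lit 159752164242431403884543)) (T.h (P (nat_lit 0)) (P (nat_lit 42508068238671872)))))) (T.h (P (nat_lit 0)) (T.h (T.h (P (nat_lit 71076949516842340188160)) (T.h (P (nat_lit 0)) (P (nat_lit 565106047276007424)))) (T.h (P (nat_lit 0)) (M (nat_lit 51818320729374719)))))) (T.h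 (T.h (P (nat_lit 0)) (T.h (T.h (P (nat_lit 0)) (T.h (P (nat_lit 266536872797727096832)) (T.h (P (nat_lit 0)) (M (nat_lit 343333089128303))))) (T.h (P (nat_lit 0)) (T.h (T.h (P (nat_lit 0)) (M (nat_lit 168987223991231))) (P (nat_lit 0)))))) (T.h (T.h (T.h (M (nat_lit 42729760048071969865727)) (T.h (P (nat_lit 0)) (P (nat_lit 57904009996746752)))) (T.h (P (nat_lit 0)) (P (nat_lit 172067492652859392)))) (T.h (T.h (P (nat_lit 0)) (T.h (T.h (P (nat_lit 0)) (M (nat_lit 161674198943327))) (P (nat_lit 0)))) (M (nat_lit 39692781585203199))))))), (T.h (T.h (P (nat_lit 0)) (T.h (T.h (P (nat_lit 19600936697333657732927979520)) (T.h (P (nat_lit 0)) (T.h (P (nat_lit 187400207729910773448704)) (T.h (P (nat_lit 0)) (P (nat_lit 88817059791536128)))))) (T.h (P (nat_lit 0)) (T.h (T.h (P (nat_lit 43097959047579289255936)) (T.h (P (nat_lit 0)) (P (nat_lit 32912741919162368)))) (T.h (P (nat_lit 0)) (M (nat_lit 49028651682627583))))))) (T.h (T.h (T.h (P (nat_lit 0)) (T.h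 (M (nat_lit 101271065651841256493416447)) (T.h (P (nat_lit 0)) (M (nat_lit 475053939699591675903))))) (T.h (P (nat_lit 0)) (T.h (T.h (P (nat_lit 0)) (M (nat_lit 940329365751256317951))) (P (nat_lit 0))))) (T.h (T.h (P (nat_lit 0)) (T.h (T.h (P (nat_lit 610608572207111069499392)) (T.h (P (nat_lit 0)) (P (nat_lit 625880814378713088)))) (T.h (P (nat_lit 0)) (P (nat_lit 21042095031779328))))) (T.h (T.h (T.h (P (nat_lit 0)) (M (nat_lit 389345474766314668031))) (P (nat_lit 0))) (T.h (T.h (P (nat_lit 0)) (P (nat_lit 125071006706827264))) (P (nat_lit 0))))))), (T.h (T.h (T.h (M (nat_lit 409266472218964815952337514266623)) (T.h (P (nat_lit 0)) (T.h (M (nat_lit 131017688937194509893107711)) (T.h (P (nat_lit 0)) (T.h (M (nat_lit 213196163386089406463)) (T.h (P (nat_lit 0)) (M (nat_lit 158233476595103)))))))) (T.h (P (nat_lit 0)) (T.h (T.h (M (nat_lit 10101649388226781915381759)) (T.h (P (nat_lit 0)) (T.h (P (nat_lit 148339135441111351296)) (T.h (P (nat_lit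 0)) (P (nat_lit 207312393033648)))))) (T.h (P (nat_lit 0)) (T.h (T.h (M (nat_lit 23322182882330411007)) (T.h (P (nat_lit 0)) (P (nat_lit 100058136211152)))) (T.h (P (nat_lit 0)) (P (nat_lit 90522856686240)))))))) (T.h (T.h (P (nat_lit 0)) (T.h (T.h (P (nat_lit 0)) (T.h (M (nat_lit 180786621017668706107391)) (T.h (P (nat_lit 0)) (M (nat_lit 371759436879200255))))) (T.h (P (nat_lit 0)) (T.h (T.h (P (nat_lit 0)) (M (nat_lit 111097928493268991))) (P (nat_lit 0)))))) (T.h (T.h (T.h (M (nat_lit 69284530162055369893871615)) (T.h (P (nat_lit 0)) (T.h (P (nat_lit 245832239135124881408)) (T.h (P (nat_lit 0)) (P (nat_lit 426226108692672)))))) (T.h (P (nat_lit 0)) (T.h (T.h (P (nat_lit 348793543285196980224)) (T.h (P (nat_lit 0)) (P (nat_lit 58448465730432)))) (T.h (P (nat_lit 0)) (M (nat_lit 33691423764815)))))) (T.h (T.h (P (nat_lit 0)) (T.h (T.h (P (nat_lit 0)) (M (nat_lit 226486697755705343))) (P (nat_lit 0)))) (T.h (T.h (T.h (M (nat_lit 18864403813379342335))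 (T.h (P (nat_lit 0)) (P (nat_lit 572893221391200)))) (T.h (P (nat_lit 0)) (P (nat_lit 177812870020992)))) (T.h (P (nat_lit 0)) (P (nat_lit 84590609547168))))))))]
def lP11_31 : List (T ℤ) := [(T.h (T.h (T.h (P (nat_lit 0)) (T.h (M (nat_lit 30508888387642705636602413055)) (T.h (P (nat_lit 0)) (T.h (P (nat_lit 58113764557361868963840)) (T.h (P (nat_lit 0)) (P (nat_lit 196333192762982400))))))) (T.h (P (nat_lit 0)) (T.h (T.h (P (nat_lit 0)) (T.h (M (nat_lit 23007533441051711766527)) (T.h (P (nat_lit 0)) (M (nat_lit 158032357905596415))))) (T.h (P (nat_lit 0)) (T.h (T.h (P (nat_lit 0)) (M (nat_lit 187089027277619199))) (P (nat_lit 0))))))) (T.h (T.h (P (nat_lit 0)) (T.h (T.h (P (nat_lit 102326726380815696128901120)) (T.h (P (nat_lit 0)) (M (nat_lit 182339563538297651199)))) (T.h (P (nat_lit 0)) (M (nat_lit 93974810146082127871))))) (T.h (T.h (T.h (P (nat_lit 0)) (T.h (M (nat_lit 137397668323854766833663)) (T.h (P (nat_lit 0)) (M (nat_lit 329979091512393727)))))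 (T.h (P (nat_lit 0)) (T.h (T.h (P (nat_lit 0)) (P (nat_lit 228245028713496576))) (P (nat_lit 0))))) (T.h (T.h (P (nat_lit 0)) (M (nat_lit 110454333391920693247))) (T.h (T.h (T.h (P (nat_lit 0)) (M (nat_lit 389996715109679103))) (P (nat_lit 0))) (P (nat_lit 0))))))), (T.h (T.h (P (nat_lit 0)) (T.h (T.h (M (nat_lit 16535973017744251280892624895)) (T.h (P (nat_lit 0)) (T.h (M (nat_lit 121739393643156789526527)) (T.h (P (nat_lit 0)) (M (nat_lit 73789981571678207)))))) (T.h (P (nat_lit 0)) (T.h (T.h (M (nat_lit 58208633310122940039167)) (T.h (P (nat_lit 0)) (M (nat_lit 112040951094476799)))) (T.h (P (nat_lit 0)) (M (nat_lit 135815907689496575))))))) (T.h (T.h (T.h (P (nat_lit 0)) (T.h (P (nat_lit 25238555120004385889845248)) (T.h (P (nat_lit 0)) (M (nat_lit 47869593626469203967))))) (T.h (P (nat_lit 0)) (T.h (T.h (P (nat_lit 0)) (P (nat_lit 380669420328800223232))) (P (nat_lit 0))))) (T.h (T.h (P (nat_lit 0)) (T.h (T.h (M (nat_lit 288206426600430643445759))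 (T.h (P (nat_lit 0)) (M (nat_lit 44442772888485887)))) (T.h (P (nat_lit 0)) (P (nat_lit 62885167411003392))))) (T.h (T.h (T.h (P (nat_lit 0)) (M (nat_lit 28644698618805092351))) (P (nat_lit 0))) (T.h (T.h (P (nat_lit 0)) (M (nat_lit 15829073026285567))) (P (nat_lit 0))))))), (P (nat_lit 0)), (P (nat_lit 0)), (T.h (T.h (P (nat_lit 0)) (T.h (T.h (P (nat_lit 0)) (T.h (P (nat_lit 16711225617270992577495040)) (T.h (P (nat_lit 0)) (T.h (P (nat_lit 18816914626879422464)) (T.h (P (nat_lit 0)) (M (nat_lit 3640415834759))))))) (T.h (P (nat_lit 0)) (T.h (T.h (P (nat_lit 0)) (T.h (P (nat_lit 29435310069868658688)) (T.h (P (nat_lit 0)) (M (nat_lit 27481800065447))))) (T.h (P (nat_lit 0)) (T.h (T.h (P (nat_lit 0)) (P (nat_lit 1624450826248))) (P (nat_lit 0)))))))) (T.h (T.h (T.h (P (nat_lit 6801896442518516848624926720)) (T.h (P (nat_lit 0)) (T.h (M (nat_lit 61949671853687192944639)) (T.h (P (nat_lit 0)) (M (nat_lit 11674442002104319)))))) (T.h (P (nat_lit 0))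 (T.h (T.h (M (nat_lit 23673963548691115540479)) (T.h (P (nat_lit 0)) (P (nat_lit 11876745795108864)))) (T.h (P (nat_lit 0)) (M (nat_lit 3288468659404799)))))) (T.h (T.h (P (nat_lit 0)) (T.h (T.h (P (nat_lit 0)) (T.h (P (nat_lit 95597895653135482880)) (T.h (P (nat_lit 0)) (P (nat_lit 40934921564768))))) (T.h (P (nat_lit 0)) (T.h (T.h (P (nat_lit 0)) (M (nat_lit 47994939898575))) (P (nat_lit 0)))))) (T.h (T.h (T.h (M (nat_lit 16269053149684254638079)) (T.h (P (nat_lit 0)) (M (nat_lit 15777028889149439)))) (T.h (P (nat_lit 0)) (P (nat_lit 3999630672232448)))) (T.h (T.h (P (nat_lit 0)) (T.h (T.h (P (nat_lit 0)) (P (nat_lit 27402727578760))) (P (nat_lit 0)))) (M (nat_lit 6062581201043455))))))), (T.h (T.h (P (nat_lit 0)) (T.h (T.h (P (nat_lit 53722552701100346492772679680)) (T.h (P (nat_lit 0)) (T.h (M (nat_lit 40817385476115149094911)) (T.h (P (nat_lit 0)) (P (nat_lit 13953943454662656)))))) (T.h (P (nat_lit 0)) (T.h (T.h (P (nat_lit 24104559975736356634624))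 (T.h (P (nat_lit 0)) (M (nat_lit 5618166223650815)))) (T.h (P (nat_lit 0)) (P (nat_lit 29987144081145856))))))) (T.h (T.h (T.h (P (nat_lit 0)) (T.h (P (nat_lit 27976224509473404932325376)) (T.h (P (nat_lit 0)) (T.h (M (nat_lit 147501008737055801343)) (T.h (P (nat_lit 0)) (M (nat_lit 5456481312047))))))) (T.h (P (nat_lit 0)) (T.h (T.h (P (nat_lit 0)) (T.h (M (nat_lit 251512460228226449407)) (T.h (P (nat_lit 0)) (M (nat_lit 64596591120223))))) (T.h (P (nat_lit 0)) (T.h (T.h (P (nat_lit 0)) (P (nat_lit 18546753362336))) (P (nat_lit 0))))))) (T.h (T.h (P (nat_lit 0)) (T.h (T.h (M (nat_lit 40817385476115149094911)) (T.h (P (nat_lit 0)) (P (nat_lit 328107354602536960)))) (T.h (P (nat_lit 0)) (M (nat_lit 5618166223650815))))) (T.h (T.h (T.h (P (nat_lit 0)) (T.h (M (nat_lit 147501008737055801343)) (T.h (P (nat_lit 0)) (P (nat_lit 48640495562304))))) (T.h (P (nat_lit 0)) (T.h (T.h (P (nat_lit 0)) (M (nat_lit 64596591120223))) (P (nat_lit 0))))) (T.h (T.h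 (P (nat_lit 0)) (P (nat_lit 13953943454662656))) (T.h (T.h (T.h (P (nat_lit 0)) (M (nat_lit 5456481312047))) (P (nat_lit 0))) (P (nat_lit 0)))))))), (T.h (T.h (P (nat_lit 0)) (T.h (T.h (P (nat_lit 0)) (T.h (P (nat_lit 23435974083932209570381824)) (T.h (P (nat_lit 0)) (T.h (M (nat_lit 120330688800300728319)) (T.h (P (nat_lit 0)) (M (nat_lit 6261972315983))))))) (T.h (P (nat_lit 0)) (T.h (T.h (P (nat_lit 0)) (T.h (P (nat_lit 69568742831935193088)) (T.h (P (nat_lit 0)) (P (nat_lit 14935521193248))))) (T.h (P (nat_lit 0)) (T.h (T.h (P (nat_lit 0)) (P (nat_lit 6554927866368))) (P (nat_lit 0)))))))) (T.h (T.h (T.h (M (nat_lit 6055445881416343606697918463)) (T.h (P (nat_lit 0)) (T.h (P (nat_lit 236814018518904771444736)) (T.h (P (nat_lit 0)) (P (nat_lit 94740330665148416)))))) (T.h (P (nat_lit 0)) (T.h (T.h (P (nat_lit 30453367126282721034240)) (T.h (P (nat_lit 0)) (P (nat_lit 226577201689427968)))) (T.h (P (nat_lit 0)) (M (nat_lit 25690900194066431))))))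 (T.h (T.h (P (nat_lit 0)) (T.h (T.h (P (nat_lit 0)) (T.h (M (nat_lit 501728095527132725247)) (T.h (P (nat_lit 0)) (M (nat_lit 32116743668927))))) (T.h (P (nat_lit 0)) (T.h (T.h (P (nat_lit 0)) (P (nat_lit 13001890599264))) (P (nat_lit 0)))))) (T.h (T.h (T.h (P (nat_lit 113709236032273398104064)) (T.h (P (nat_lit 0)) (M (nat_lit 19688161320828927)))) (T.h (P (nat_lit 0)) (P (nat_lit 128491958501376000)))) (T.h (T.h (P (nat_lit 0)) (T.h (T.h (P (nat_lit 0)) (M (nat_lit 95270745959327))) (P (nat_lit 0)))) (P (nat_lit 101502339024453632))))))), (T.h (T.h (P (nat_lit 0)) (T.h (T.h (M (nat_lit 72685983661459251017040265215)) (T.h (P (nat_lit 0)) (T.h (M (nat_lit 33414274095559754121215)) (T.h (P (nat_lit 0)) (P (nat_lit 6109213496131584)))))) (T.h (P (nat_lit 0)) (T.h (T.h (P (nat_lit 1559377016144609148928)) (T.h (P (nat_lit 0)) (M (nat_lit 67341317046075391)))) (T.h (P (nat_lit 0)) (M (nat_lit 28653826021441535))))))) (T.h (T.h (T.h (P (nat_lit 0)) (T.h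 (M (nat_lit 40456280365528153312985087)) (T.h (P (nat_lit 0)) (T.h (P (nat_lit 62616020965616779264)) (T.h (P (nat_lit 0)) (P (nat_lit 45005981788656))))))) (T.h (P (nat_lit 0)) (T.h (T.h (P (nat_lit 0)) (T.h (P (nat_lit 369929869536337592320)) (T.h (P (nat_lit 0)) (P (nat_lit 73574799128352))))) (T.h (P (nat_lit 0)) (T.h (T.h (P (nat_lit 0)) (M (nat_lit 36795851005967))) (P (nat_lit 0))))))) (T.h (T.h (P (nat_lit 0)) (T.h (T.h (P (nat_lit 83956052722079571640320)) (T.h (P (nat_lit 0)) (M (nat_lit 392751489005174783)))) (T.h (P (nat_lit 0)) (P (nat_lit 30734799568240640))))) (T.h (T.h (T.h (P (nat_lit 0)) (T.h (P (nat_lit 167404106989858455552)) (T.h (P (nat_lit 0)) (M (nat_lit 35467958383919))))) (T.h (P (nat_lit 0)) (T.h (T.h (P (nat_lit 0)) (P (nat_lit 3848439743712))) (P (nat_lit 0))))) (T.h (T.h (P (nat_lit 0)) (P (nat_lit 53580461240139776))) (T.h (T.h (T.h (P (nat_lit 0)) (M (nat_lit 18638776481903))) (P (nat_lit 0))) (P (nat_lit 0))))))))]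
def lP11_32 : List (T ℤ) := [(T.h (T.h (P (nat_lit 0)) (T.h (T.h (P (nat_lit 0)) (T.h (P (nat_lit 28478335506665354741940224)) (T.h (P (nat_lit 0)) (P (nat_lit 7399312085391245312))))) (T.h (P (nat_lit 0)) (T.h (T.h (P (nat_lit 0)) (P (nat_lit 46219789068006326272))) (P (nat_lit 0)))))) (T.h (T.h (T.h (M (nat_lit 485246316002040588049317887)) (T.h (P (nat_lit 0)) (T.h (M (nat_lit 116266967700160330596351)) (T.h (P (nat_lit 0)) (M (nat_lit 16022553870106623)))))) (T.h (P (nat_lit 0)) (T.h (T.h (M (nat_lit 156873228732256518930431)) (T.h (P (nat_lit 0)) (M (nat_lit 56832365739311103)))) (T.h (P (nat_lit 0)) (M (nat_lit 151896253560815615)))))) (T.h (T.h (P (nat_lit 0)) (T.h (T.h (P (nat_lit 0)) (P (nat_lit 379707384477398335488))) (P (nat_lit 0)))) (T.h (T.h (T.h (M (nat_lit 47953310490409918529535)) (T.h (P (nat_lit 0)) (M (nat_lit 97934611223642111)))) (T.h (P (nat_lit 0)) (M (nat_lit 455296650780803071)))) (T.h (P (nat_lit 0)) (M (nat_lit 7655420903981055))))))),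 (P (nat_lit 0)), (T.h (T.h (T.h (P (nat_lit 0)) (T.h (P (nat_lit 0)) (T.h (P (nat_lit 52258675845412972629327872)) (T.h (P (nat_lit 0)) (T.h (M (nat_lit 58351935496879341567)) (T.h (P (nat_lit 0)) (M (nat_lit 9288634688367)))))))) (T.h (P (nat_lit 0)) (T.h (T.h (M (nat_lit 1609132170181007252652031)) (T.h (P (nat_lit 0)) (T.h (P (nat_lit 17689493109089501184)) (T.h (P (nat_lit 0)) (P (nat_lit 26623092074928)))))) (T.h (P (nat_lit 0)) (T.h (T.h (M (nat_lit 26733516278749724671)) (T.h (P (nat_lit 0)) (P (nat_lit 18976513485680)))) (T.h (P (nat_lit 0)) (M (nat_lit 7874904922431)))))))) (T.h (T.h (P (nat_lit 0)) (T.h (T.h (P (nat_lit 0)) (T.h (M (nat_lit 54076812567600110239743)) (T.h (P (nat_lit 0)) (M (nat_lit 5006680669683711))))) (T.h (P (nat_lit 0)) (T.h (T.h (P (nat_lit 0)) (M (nat_lit 48449353735602175))) (P (nat_lit 0)))))) (T.h (T.h (T.h (M (nat_lit 13494300823078543525150719)) (T.h (P (nat_lit 0)) (T.h (P (nat_lit 86667801961716252672)) (T.h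 (P (nat_lit 0)) (M (nat_lit 54719293742751)))))) (T.h (P (nat_lit 0)) (T.h (T.h (P (nat_lit 70884643624693268480)) (T.h (P (nat_lit 0)) (M (nat_lit 10519831128239)))) (T.h (P (nat_lit 0)) (P (nat_lit 26438549606928)))))) (T.h (T.h (P (nat_lit 0)) (T.h (T.h (P (nat_lit 0)) (M (nat_lit 57464550673154047))) (P (nat_lit 0)))) (T.h (T.h (T.h (P (nat_lit 17440683627481399296)) (T.h (P (nat_lit 0)) (M (nat_lit 6655236442255)))) (T.h (P (nat_lit 0)) (M (nat_lit 71297188238751)))) (T.h (P (nat_lit 0)) (M (nat_lit 988191876863)))))))), (T.h (T.h (T.h (P (nat_lit 0)) (T.h (M (nat_lit 17659951530170901767705853951)) (T.h (P (nat_lit 0)) (T.h (P (nat_lit 5564071054108727967744)) (T.h (P (nat_lit 0)) (P (nat_lit 11843724323946496))))))) (T.h (P (nat_lit 0)) (T.h (T.h (P (nat_lit 0)) (T.h (P (nat_lit 62838136550265211322368)) (T.h (P (nat_lit 0)) (P (nat_lit 17784403227607040))))) (T.h (P (nat_lit 0)) (T.h (T.h (P (nat_lit 0)) (P (nat_lit 35350754512633856))) (P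 (nat_lit 0))))))) (T.h (T.h (P (nat_lit 0)) (T.h (T.h (M (nat_lit 29958964082896697032703999)) (T.h (P (nat_lit 0)) (T.h (M (nat_lit 110232834500051599359)) (T.h (P (nat_lit 0)) (M (nat_lit 6049335980319)))))) (T.h (P (nat_lit 0)) (T.h (T.h (M (nat_lit 38902030640963649535)) (T.h (P (nat_lit 0)) (P (nat_lit 31589154588192)))) (T.h (P (nat_lit 0)) (P (nat_lit 15958812818176))))))) (T.h (T.h (T.h (P (nat_lit 0)) (T.h (P (nat_lit 58650704618747651424256)) (T.h (P (nat_lit 0)) (P (nat_lit 34555186056429568))))) (T.h (P (nat_lit 0)) (T.h (T.h (P (nat_lit 0)) (M (nat_lit 116121369701367807))) (P (nat_lit 0))))) (T.h (T.h (P (nat_lit 0)) (T.h (T.h (P (nat_lit 16255017564403400704)) (T.h (P (nat_lit 0)) (M (nat_lit 1228216181215)))) (T.h (P (nat_lit 0)) (M (nat_lit 13381475394175))))) (T.h (T.h (T.h (P (nat_lit 0)) (P (nat_lit 71761040527261696))) (P (nat_lit 0))) (T.h (T.h (P (nat_lit 0)) (M (nat_lit 35685065481487))) (P (nat_lit 0)))))))), (T.h (T.h (T.h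 (M (nat_lit 25335067314161138281779312984063)) (T.h (P (nat_lit 0)) (T.h (M (nat_lit 15317507951379109321375743)) (T.h (P (nat_lit 0)) (T.h (P (nat_lit 8135451317716910080)) (T.h (P (nat_lit 0)) (P (nat_lit 2902497922080)))))))) (T.h (P (nat_lit 0)) (T.h (T.h (P (nat_lit 84859068295587606585933824)) (T.h (P (nat_lit 0)) (T.h (P (nat_lit 221996989788675112960)) (T.h (P (nat_lit 0)) (P (nat_lit 4499002599360)))))) (T.h (P (nat_lit 0)) (T.h (T.h (P (nat_lit 77219276455789199360)) (T.h (P (nat_lit 0)) (P (nat_lit 39655346396160)))) (T.h (P (nat_lit 0)) (P (nat_lit 12970141598880)))))))) (T.h (T.h (P (nat_lit 0)) (T.h (T.h (P (nat_lit 0)) (T.h (P (nat_lit 281068597270204595044352)) (T.h (P (nat_lit 0)) (P (nat_lit 10121017735643136))))) (T.h (P (nat_lit 0)) (T.h (T.h (P (nat_lit 0)) (M (nat_lit 122666095770337279))) (P (nat_lit 0)))))) (T.h (T.h (T.h (P (nat_lit 43096997095385071381118976)) (T.h (P (nat_lit 0)) (T.h (P (nat_lit 74128886958156414976))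 (T.h (P (nat_lit 0)) (P (nat_lit 16527146365152)))))) (T.h (P (nat_lit 0)) (T.h (T.h (P (nat_lit 85712211110724108288)) (T.h (P (nat_lit 0)) (M (nat_lit 47898110021855)))) (T.h (P (nat_lit 0)) (P (nat_lit 39655346396160)))))) (T.h (T.h (P (nat_lit 0)) (T.h (T.h (P (nat_lit 0)) (M (nat_lit 137938028490391551))) (P (nat_lit 0)))) (T.h (T.h (T.h (M (nat_lit 78755181996053364735)) (T.h (P (nat_lit 0)) (P (nat_lit 16527146365152)))) (T.h (P (nat_lit 0)) (P (nat_lit 4499002599360)))) (T.h (P (nat_lit 0)) (P (nat_lit 2902497922080)))))))), (T.h (T.h (T.h (P (nat_lit 0)) (T.h (P (nat_lit 67185566505562312745714450432)) (T.h (P (nat_lit 0)) (T.h (P (nat_lit 26688500089316853153792)) (T.h (P (nat_lit 0)) (P (nat_lit 30121564165390336))))))) (T.h (P (nat_lit 0)) (T.h (T.h (P (nat_lit 0)) (T.h (M (nat_lit 101452401124637860167679)) (T.h (P (nat_lit 0)) (P (nat_lit 91725410818899968))))) (T.h (P (nat_lit 0)) (T.h (T.h (P (nat_lit 0)) (M (nat_lit 75789866623516671)))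 (P (nat_lit 0))))))) (T.h (T.h (P (nat_lit 0)) (T.h (T.h (P (nat_lit 84474593176145620608483328)) (T.h (P (nat_lit 0)) (T.h (P (nat_lit 291820826445081477120)) (T.h (P (nat_lit 0)) (M (nat_lit 22262947040159)))))) (T.h (P (nat_lit 0)) (T.h (T.h (P (nat_lit 67279472290785394688)) (T.h (P (nat_lit 0)) (M (nat_lit 127505483758511)))) (T.h (P (nat_lit 0)) (P (nat_lit 31976606021472))))))) (T.h (T.h (T.h (P (nat_lit 0)) (T.h (M (nat_lit 118456684448776665956351)) (T.h (P (nat_lit 0)) (P (nat_lit 114024985828311040))))) (T.h (P (nat_lit 0)) (T.h (T.h (P (nat_lit 0)) (P (nat_lit 368374066637406208))) (P (nat_lit 0))))) (T.h (T.h (P (nat_lit 0)) (T.h (T.h (P (nat_lit 70989944265199583232)) (T.h (P (nat_lit 0)) (M (nat_lit 165739260395375)))) (T.h (P (nat_lit 0)) (M (nat_lit 2395349943695))))) (T.h (T.h (T.h (P (nat_lit 0)) (P (nat_lit 108129119820283904))) (P (nat_lit 0))) (T.h (T.h (P (nat_lit 0)) (P (nat_lit 77442952494384))) (P (nat_lit 0)))))))), (T.h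 (T.h (T.h (P (nat_lit 19245058767597118072917487255552)) (T.h (P (nat_lit 0)) (T.h (M (nat_lit 49064869503036694296788991)) (T.h (P (nat_lit 0)) (M (nat_lit 58062886536468234239)))))) (T.h (P (nat_lit 0)) (T.h (T.h (P (nat_lit 59825625941170914374713344)) (T.h (P (nat_lit 0)) (M (nat_lit 45880012597962473471)))) (T.h (P (nat_lit 0)) (P (nat_lit 12951678390250766336)))))) (T.h (T.h (P (nat_lit 0)) (T.h (T.h (P (nat_lit 0)) (T.h (M (nat_lit 171507145602860729761791)) (T.h (P (nat_lit 0)) (M (nat_lit 11742295132012543))))) (T.h (P (nat_lit 0)) (T.h (T.h (P (nat_lit 0)) (P (nat_lit 189747104945602560))) (P (nat_lit 0)))))) (T.h (T.h (T.h (M (nat_lit 8849924118460195124805631)) (T.h (P (nat_lit 0)) (M (nat_lit 78300033919217565695)))) (T.h (P (nat_lit 0)) (M (nat_lit 218013063006075748351)))) (T.h (T.h (P (nat_lit 0)) (T.h (T.h (P (nat_lit 0)) (P (nat_lit 200573530775552000))) (P (nat_lit 0)))) (P (nat_lit 22472147538827804672)))))), (T.h (T.h (P (nat_lit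 0)) (T.h (T.h (P (nat_lit 0)) (T.h (P (nat_lit 6033007216961144628445184)) (T.h (P (nat_lit 0)) (T.h (P (nat_lit 100026648258754379776)) (T.h (P (nat_lit 0)) (P (nat_lit 4347538975168))))))) (T.h (P (nat_lit 0)) (T.h (T.h (P (nat_lit 0)) (T.h (M (nat_lit 4033459024174252031)) (T.h (P (nat_lit 0)) (M (nat_lit 124545891378263))))) (T.h (P (nat_lit 0)) (T.h (T.h (P (nat_lit 0)) (M (nat_lit 18308099831167))) (P (nat_lit 0)))))))) (T.h (T.h (T.h (M (nat_lit 1979003726842916632434573311)) (T.h (P (nat_lit 0)) (T.h (P (nat_lit 15521847690240391643136)) (T.h (P (nat_lit 0)) (P (nat_lit 73809589357477888)))))) (T.h (P (nat_lit 0)) (T.h (T.h (M (nat_lit 28442811896070351618047)) (T.h (P (nat_lit 0)) (M (nat_lit 39832931888037887)))) (T.h (P (nat_lit 0)) (M (nat_lit 22434746824687615)))))) (T.h (T.h (P (nat_lit 0)) (T.h (T.h (P (nat_lit 0)) (T.h (P (nat_lit 36594049878014820352)) (T.h (P (nat_lit 0)) (P (nat_lit 9826934429112))))) (T.h (P (nat_lit 0)) (T.h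 (T.h (P (nat_lit 0)) (P (nat_lit 18253563038648))) (P (nat_lit 0)))))) (T.h (T.h (T.h (P (nat_lit 25426781780498710528000)) (T.h (P (nat_lit 0)) (P (nat_lit 17473273924747264)))) (T.h (P (nat_lit 0)) (M (nat_lit 3880718776664063)))) (T.h (T.h (P (nat_lit 0)) (T.h (T.h (P (nat_lit 0)) (M (nat_lit 27675213239079))) (P (nat_lit 0)))) (M (nat_lit 31245948319891455)))))))]
def lP11_33 : List (T ℤ) := [(T.h (T.h (P (nat_lit 0)) (T.h (T.h (P (nat_lit 3324441184928717394342313984)) (T.h (P (nat_lit 0)) (T.h (P (nat_lit 45332878682941263183872)) (T.h (P (nat_lit 0)) (M (nat_lit 57941056670203903)))))) (T.h (P (nat_lit 0)) (T.h (T.h (P (nat_lit 25261100213903260909568)) (T.h (P (nat_lit 0)) (M (nat_lit 16134266504249343)))) (T.h (P (nat_lit 0)) (P (nat_lit 27838622424006656))))))) (T.h (T.h (T.h (P (nat_lit 0)) (T.h (M (nat_lit 52975290750574589512777727)) (T.h (P (nat_lit 0)) (T.h (M (nat_lit 34904935235500113919)) (T.h (P (nat_lit 0)) (P (nat_lit 56298792702432)))))))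 (T.h (P (nat_lit 0)) (T.h (T.h (P (nat_lit 0)) (T.h (M (nat_lit 80555065487084486655)) (T.h (P (nat_lit 0)) (P (nat_lit 33090015529024))))) (T.h (P (nat_lit 0)) (T.h (T.h (P (nat_lit 0)) (P (nat_lit 44659019242992))) (P (nat_lit 0))))))) (T.h (T.h (P (nat_lit 0)) (T.h (T.h (P (nat_lit 50426773189384116109312)) (T.h (P (nat_lit 0)) (M (nat_lit 116859597552058367)))) (T.h (P (nat_lit 0)) (M (nat_lit 12153504290111487))))) (T.h (T.h (T.h (P (nat_lit 0)) (T.h (P (nat_lit 11868878183400996864)) (T.h (P (nat_lit 0)) (M (nat_lit 7360504039919))))) (T.h (P (nat_lit 0)) (T.h (T.h (P (nat_lit 0)) (M (nat_lit 5372284740815))) (P (nat_lit 0))))) (T.h (T.h (P (nat_lit 0)) (P (nat_lit 98180799485198336))) (T.h (T.h (T.h (P (nat_lit 0)) (M (nat_lit 50136009656079))) (P (nat_lit 0))) (P (nat_lit 0)))))))), (T.h (T.h (P (nat_lit 0)) (T.h (T.h (P (nat_lit 0)) (T.h (M (nat_lit 18234229295357103219671039)) (T.h (P (nat_lit 0)) (T.h (P (nat_lit 283096305960082210816))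 (T.h (P (nat_lit 0)) (P (nat_lit 43733501269728))))))) (T.h (P (nat_lit 0)) (T.h (T.h (P (nat_lit 0)) (T.h (P (nat_lit 295544313700350427136)) (T.h (P (nat_lit 0)) (P (nat_lit 63398187716256))))) (T.h (P (nat_lit 0)) (T.h (T.h (P (nat_lit 0)) (P (nat_lit 29696131059552))) (P (nat_lit 0)))))))) (T.h (T.h (T.h (P (nat_lit 17082036413506276926519508992)) (T.h (P (nat_lit 0)) (T.h (M (nat_lit 390753419711211322212351)) (T.h (P (nat_lit 0)) (P (nat_lit 69628086113042432)))))) (T.h (P (nat_lit 0)) (T.h (T.h (M (nat_lit 269358145763738191396863)) (T.h (P (nat_lit 0)) (M (nat_lit 350429977944653823)))) (T.h (P (nat_lit 0)) (M (nat_lit 304326929354260479)))))) (T.h (T.h (P (nat_lit 0)) (T.h (T.h (P (nat_lit 0)) (T.h (P (nat_lit 240577523003248607232)) (T.h (P (nat_lit 0)) (M (nat_lit 87152537813951))))) (T.h (P (nat_lit 0)) (T.h (T.h (P (nat_lit 0)) (M (nat_lit 34445148703823))) (P (nat_lit 0)))))) (T.h (T.h (T.h (M (nat_lit 114527323423051584897023)) (T.h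 (P (nat_lit 0)) (P (nat_lit 133608228411277312)))) (T.h (P (nat_lit 0)) (M (nat_lit 179654202756825087)))) (T.h (T.h (P (nat_lit 0)) (T.h (T.h (P (nat_lit 0)) (P (nat_lit 190615479019776))) (P (nat_lit 0)))) (M (nat_lit 9288448203948031))))))), (T.h (T.h (P (nat_lit 0)) (T.h (T.h (M (nat_lit 164541358652724079579220672511)) (T.h (P (nat_lit 0)) (T.h (P (nat_lit 86926503243103613222912)) (T.h (P (nat_lit 0)) (P (nat_lit 38132951317643264)))))) (T.h (P (nat_lit 0)) (T.h (T.h (M (nat_lit 205694808157285431377919)) (T.h (P (nat_lit 0)) (P (nat_lit 236066012307668992)))) (T.h (P (nat_lit 0)) (M (nat_lit 110618415237251071))))))) (T.h (T.h (T.h (P (nat_lit 0)) (T.h (M (nat_lit 18855536584253307631960063)) (T.h (P (nat_lit 0)) (T.h (M (nat_lit 52671097644393693183)) (T.h (P (nat_lit 0)) (M (nat_lit 46596410198495))))))) (T.h (P (nat_lit 0)) (T.h (T.h (P (nat_lit 0)) (T.h (M (nat_lit 734604657569608761343)) (T.h (P (nat_lit 0)) (M (nat_lit 168127064745695)))))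 (T.h (P (nat_lit 0)) (T.h (T.h (P (nat_lit 0)) (M (nat_lit 297989783130959))) (P (nat_lit 0))))))) (T.h (T.h (P (nat_lit 0)) (T.h (T.h (M (nat_lit 30443823574535712538623)) (T.h (P (nat_lit 0)) (P (nat_lit 228576517300535296)))) (T.h (P (nat_lit 0)) (P (nat_lit 137989895693352960))))) (T.h (T.h (T.h (P (nat_lit 0)) (T.h (M (nat_lit 157459183668635369471)) (T.h (P (nat_lit 0)) (M (nat_lit 10185240531311))))) (T.h (P (nat_lit 0)) (T.h (T.h (P (nat_lit 0)) (M (nat_lit 98400705361055))) (P (nat_lit 0))))) (T.h (T.h (P (nat_lit 0)) (M (nat_lit 9338296426364927))) (T.h (T.h (T.h (P (nat_lit 0)) (P (nat_lit 17048348072064))) (P (nat_lit 0))) (P (nat_lit 0)))))))), (T.h (T.h (P (nat_lit 0)) (T.h (T.h (P (nat_lit 0)) (T.h (M (nat_lit 92426807946669620230881279)) (T.h (P (nat_lit 0)) (M (nat_lit 119055661313460011007))))) (T.h (P (nat_lit 0)) (T.h (T.h (P (nat_lit 0)) (M (nat_lit 218661654804008271871))) (P (nat_lit 0)))))) (T.h (T.h (T.h (M (nat_lit 10181190058579763740859695103))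 (T.h (P (nat_lit 0)) (T.h (P (nat_lit 156197456019340321095680)) (T.h (P (nat_lit 0)) (P (nat_lit 49489072030679040)))))) (T.h (P (nat_lit 0)) (T.h (T.h (M (nat_lit 126116427677813432123391)) (T.h (P (nat_lit 0)) (P (nat_lit 245202494400200704)))) (T.h (P (nat_lit 0)) (M (nat_lit 13458533514379263)))))) (T.h (T.h (P (nat_lit 0)) (T.h (T.h (P (nat_lit 0)) (M (nat_lit 488657164903791984639))) (P (nat_lit 0)))) (T.h (T.h (T.h (M (nat_lit 37393484389962949328895)) (T.h (P (nat_lit 0)) (M (nat_lit 8939685262655487)))) (T.h (P (nat_lit 0)) (M (nat_lit 65361588179927039)))) (T.h (P (nat_lit 0)) (M (nat_lit 190299717456330751))))))), (T.h (T.h (T.h (P (nat_lit 0)) (T.h (P (nat_lit 74706945416199965654820847616)) (T.h (P (nat_lit 0)) (T.h (P (nat_lit 43801589135530889576448)) (T.h (P (nat_lit 0)) (P (nat_lit 45982042181206016))))))) (T.h (P (nat_lit 0)) (T.h (T.h (P (nat_lit 0)) (T.h (M (nat_lit 58322643343439097233407)) (T.h (P (nat_lit 0)) (M (nat_lit 39536835955507199)))))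 (T.h (P (nat_lit 0)) (T.h (T.h (P (nat_lit 0)) (M (nat_lit 79337867728175103))) (P (nat_lit 0))))))) (T.h (T.h (P (nat_lit 0)) (T.h (T.h (P (nat_lit 4959897841795512452251648)) (T.h (P (nat_lit 0)) (T.h (M (nat_lit 221834691215259336703)) (T.h (P (nat_lit 0)) (P (nat_lit 69255108585648)))))) (T.h (P (nat_lit 0)) (T.h (T.h (M (nat_lit 143503913331592265727)) (T.h (P (nat_lit 0)) (M (nat_lit 63095730179391)))) (T.h (P (nat_lit 0)) (P (nat_lit 34883498572208))))))) (T.h (T.h (T.h (P (nat_lit 0)) (T.h (M (nat_lit 49041316905478684409855)) (T.h (P (nat_lit 0)) (M (nat_lit 52326856570191871))))) (T.h (P (nat_lit 0)) (T.h (T.h (P (nat_lit 0)) (P (nat_lit 327369126751846400))) (P (nat_lit 0))))) (T.h (T.h (P (nat_lit 0)) (T.h (T.h (M (nat_lit 151887148118058205183)) (T.h (P (nat_lit 0)) (M (nat_lit 68740659679823)))) (T.h (P (nat_lit 0)) (P (nat_lit 54661466916560))))) (T.h (T.h (T.h (P (nat_lit 0)) (P (nat_lit 40373702412599296))) (P (nat_lit 0))) (T.h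 (T.h (P (nat_lit 0)) (M (nat_lit 19907425486639))) (P (nat_lit 0)))))))), (T.h (T.h (T.h (M (nat_lit 4242882777641273345909976989695)) (T.h (P (nat_lit 0)) (T.h (M (nat_lit 81435322610540794773241855)) (T.h (P (nat_lit 0)) (T.h (M (nat_lit 73786473605289213951)) (T.h (P (nat_lit 0)) (P (nat_lit 21759335331552)))))))) (T.h (P (nat_lit 0)) (T.h (T.h (M (nat_lit 14433217648238017074167807)) (T.h (P (nat_lit 0)) (T.h (P (nat_lit 89330338035105005568)) (T.h (P (nat_lit 0)) (P (nat_lit 18599349637392)))))) (T.h (P (nat_lit 0)) (T.h (T.h (P (nat_lit 58306836868439736320)) (T.h (P (nat_lit 0)) (M (nat_lit 16556994159407)))) (T.h (P (nat_lit 0)) (P (nat_lit 11691691654752)))))))) (T.h (T.h (P (nat_lit 0)) (T.h (T.h (P (nat_lit 0)) (T.h (P (nat_lit 659800740818193481728)) (T.h (P (nat_lit 0)) (M (nat_lit 218391359425675263))))) (T.h (P (nat_lit 0)) (T.h (T.h (P (nat_lit 0)) (M (nat_lit 437285153641791487))) (P (nat_lit 0)))))) (T.h (T.h (T.h (P (nat_lit 8050175121811723813650432))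 (T.h (P (nat_lit 0)) (T.h (M (nat_lit 212706809861143265279)) (T.h (P (nat_lit 0)) (P (nat_lit 57430672243056)))))) (T.h (P (nat_lit 0)) (T.h (T.h (P (nat_lit 65381694443668635648)) (T.h (P (nat_lit 0)) (M (nat_lit 35823674518847)))) (T.h (P (nat_lit 0)) (P (nat_lit 34302472212048)))))) (T.h (T.h (P (nat_lit 0)) (T.h (T.h (P (nat_lit 0)) (P (nat_lit 85632602970521600))) (P (nat_lit 0)))) (T.h (T.h (T.h (P (nat_lit 197932794725001068544)) (T.h (P (nat_lit 0)) (P (nat_lit 49644896030976)))) (T.h (P (nat_lit 0)) (P (nat_lit 61673039796768)))) (T.h (P (nat_lit 0)) (P (nat_lit 3857239247424)))))))), (T.h (T.h (T.h (P (nat_lit 0)) (T.h (M (nat_lit 95060108451662367495689338879)) (T.h (P (nat_lit 0)) (T.h (M (nat_lit 276672445310818863546367)) (T.h (P (nat_lit 0)) (M (nat_lit 151778934966403071))))))) (T.h (P (nat_lit 0)) (T.h (T.h (P (nat_lit 0)) (T.h (M (nat_lit 55329312596769502134271)) (T.h (P (nat_lit 0)) (P (nat_lit 171509811917275136))))) (T.h (P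 (nat_lit 0)) (T.h (T.h (P (nat_lit 0)) (P (nat_lit 102850424939692032))) (P (nat_lit 0))))))) (T.h (T.h (P (nat_lit 0)) (T.h (T.h (P (nat_lit 31873222224379168218415104)) (T.h (P (nat_lit 0)) (T.h (M (nat_lit 1129818480753300733951)) (T.h (P (nat_lit 0)) (M (nat_lit 400605184028159)))))) (T.h (P (nat_lit 0)) (T.h (T.h (M (nat_lit 116614898390902243327)) (T.h (P (nat_lit 0)) (M (nat_lit 387803109859199)))) (T.h (P (nat_lit 0)) (M (nat_lit 73807486325279))))))) (T.h (T.h (T.h (P (nat_lit 0)) (T.h (P (nat_lit 192504084486643047727104)) (T.h (P (nat_lit 0)) (P (nat_lit 263373719563976704))))) (T.h (P (nat_lit 0)) (T.h (T.h (P (nat_lit 0)) (P (nat_lit 818059986944311296))) (P (nat_lit 0))))) (T.h (T.h (P (nat_lit 0)) (T.h (T.h (M (nat_lit 128028420278392455167)) (T.h (P (nat_lit 0)) (M (nat_lit 175223468085263)))) (T.h (P (nat_lit 0)) (P (nat_lit 38116904517792))))) (T.h (T.h (T.h (P (nat_lit 0)) (M (nat_lit 175394950472155135))) (P (nat_lit 0))) (T.h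 (T.h (P (nat_lit 0)) (P (nat_lit 4794926070960))) (P (nat_lit 0)))))))), (T.h (T.h (T.h (P (nat_lit 19467631606836864495099968487424)) (T.h (P (nat_lit 0)) (T.h (P (nat_lit 36209560300798946997960704)) (T.h (P (nat_lit 0)) (P (nat_lit 22786112129582759936)))))) (T.h (P (nat_lit 0)) (T.h (T.h (P (nat_lit 104885110360430056497479680)) (T.h (P (nat_lit 0)) (M (nat_lit 609690421924770873343)))) (T.h (P (nat_lit 0)) (P (nat_lit 13265642981005721600)))))) (T.h (T.h (P (nat_lit 0)) (T.h (T.h (P (nat_lit 0)) (T.h (P (nat_lit 1226617886430008346411008)) (T.h (P (nat_lit 0)) (P (nat_lit 594853977969459200))))) (T.h (P (nat_lit 0)) (T.h (T.h (P (nat_lit 0)) (P (nat_lit 584027552139509760))) (P (nat_lit 0)))))) (T.h (T.h (T.h (M (nat_lit 4005385083777552174022655)) (T.h (P (nat_lit 0)) (M (nat_lit 469977392837912690687)))) (T.h (P (nat_lit 0)) (M (nat_lit 437557371516657598463)))) (T.h (T.h (P (nat_lit 0)) (T.h (T.h (P (nat_lit 0)) (P (nat_lit 382538152061894656)))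 (P (nat_lit 0)))) (M (nat_lit 57748921945713278975))))))]
def lP11_34 : List (T ℤ) := [(T.h (T.h (P (nat_lit 0)) (T.h (T.h (P (nat_lit 0)) (T.h (M (nat_lit 136074691824650914841493503)) (T.h (P (nat_lit 0)) (T.h (M (nat_lit 246546229374448828415)) (T.h (P (nat_lit 0)) (P (nat_lit 9296870610384))))))) (T.h (P (nat_lit 0)) (T.h (T.h (P (nat_lit 0)) (T.h (P (nat_lit 113624335975041728512)) (T.h (P (nat_lit 0)) (P (nat_lit 121268982226560))))) (T.h (P (nat_lit 0)) (T.h (T.h (P (nat_lit 0)) (P (nat_lit 10517340638208))) (P (nat_lit 0)))))))) (T.h (T.h (T.h (P (nat_lit 33049727808472062908067479552)) (T.h (P (nat_lit 0)) (T.h (P (nat_lit 353177780428892153053184)) (T.h (P (nat_lit 0)) (P (nat_lit 173873189607211008)))))) (T.h (P (nat_lit 0)) (T.h (T.h (P (nat_lit 306068408225867260493824)) (T.h (P (nat_lit 0)) (M (nat_lit 212197575549681663)))) (T.h (P (nat_lit 0)) (M (nat_lit 18738067978452991)))))) (T.h (T.h (P (nat_lit 0)) (T.h (T.h (P (nat_lit 0))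 (T.h (M (nat_lit 266563986753998290943)) (T.h (P (nat_lit 0)) (P (nat_lit 17726840617536))))) (T.h (P (nat_lit 0)) (T.h (T.h (P (nat_lit 0)) (M (nat_lit 80099182760783))) (P (nat_lit 0)))))) (T.h (T.h (T.h (P (nat_lit 41477085984078964981760)) (T.h (P (nat_lit 0)) (M (nat_lit 127256489471246335)))) (T.h (P (nat_lit 0)) (P (nat_lit 86679300496228352)))) (T.h (T.h (P (nat_lit 0)) (T.h (T.h (P (nat_lit 0)) (M (nat_lit 75125127725183))) (P (nat_lit 0)))) (P (nat_lit 132425253785862144))))))), (T.h (T.h (P (nat_lit 0)) (T.h (T.h (P (nat_lit 63980833045164773812205518848)) (T.h (P (nat_lit 0)) (T.h (M (nat_lit 159752164242431403884543)) (T.h (P (nat_lit 0)) (P (nat_lit 42508068238671872)))))) (T.h (P (nat_lit 0)) (T.h (T.h (M (nat_lit 42729760048071969865727)) (T.h (P (nat_lit 0)) (P (nat_lit 57904009996746752)))) (T.h (P (nat_lit 0)) (M (nat_lit 39692781585203199))))))) (T.h (T.h (T.h (P (nat_lit 0)) (T.h (P (nat_lit 94747071619249943145873408)) (T.h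 (P (nat_lit 0)) (T.h (P (nat_lit 170739778534135300096)) (T.h (P (nat_lit 0)) (M (nat_lit 13873246587215))))))) (T.h (P (nat_lit 0)) (T.h (T.h (P (nat_lit 0)) (T.h (P (nat_lit 266536872797727096832)) (T.h (P (nat_lit 0)) (M (nat_lit 343333089128303))))) (T.h (P (nat_lit 0)) (T.h (T.h (P (nat_lit 0)) (M (nat_lit 161674198943327))) (P (nat_lit 0))))))) (T.h (T.h (P (nat_lit 0)) (T.h (T.h (P (nat_lit 71076949516842340188160)) (T.h (P (nat_lit 0)) (P (nat_lit 565106047276007424)))) (T.h (P (nat_lit 0)) (P (nat_lit 172067492652859392))))) (T.h (T.h (T.h (P (nat_lit 0)) (T.h (P (nat_lit 163036728621059276800)) (T.h (P (nat_lit 0)) (P (nat_lit 10438836721488))))) (T.h (P (nat_lit 0)) (T.h (T.h (P (nat_lit 0)) (M (nat_lit 168987223991231))) (P (nat_lit 0))))) (T.h (T.h (P (nat_lit 0)) (M (nat_lit 51818320729374719))) (T.h (T.h (T.h (P (nat_lit 0)) (P (nat_lit 110195512281936))) (P (nat_lit 0))) (P (nat_lit 0)))))))), (T.h (T.h (P (nat_lit 0)) (T.h (T.h (P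 (nat_lit 0)) (T.h (M (nat_lit 101271065651841256493416447)) (T.h (P (nat_lit 0)) (M (nat_lit 475053939699591675903))))) (T.h (P (nat_lit 0)) (T.h (T.h (P (nat_lit 0)) (M (nat_lit 389345474766314668031))) (P (nat_lit 0)))))) (T.h (T.h (T.h (P (nat_lit 19600936697333657732927979520)) (T.h (P (nat_lit 0)) (T.h (P (nat_lit 187400207729910773448704)) (T.h (P (nat_lit 0)) (P (nat_lit 88817059791536128)))))) (T.h (P (nat_lit 0)) (T.h (T.h (P (nat_lit 610608572207111069499392)) (T.h (P (nat_lit 0)) (P (nat_lit 625880814378713088)))) (T.h (P (nat_lit 0)) (P (nat_lit 125071006706827264)))))) (T.h (T.h (P (nat_lit 0)) (T.h (T.h (P (nat_lit 0)) (M (nat_lit 940329365751256317951))) (P (nat_lit 0)))) (T.h (T.h (T.h (P (nat_lit 43097959047579289255936)) (T.h (P (nat_lit 0)) (P (nat_lit 32912741919162368)))) (T.h (P (nat_lit 0)) (P (nat_lit 21042095031779328)))) (T.h (P (nat_lit 0)) (M (nat_lit 49028651682627583))))))), (T.h (T.h (T.h (P (nat_lit 0)) (T.h (M (nat_lit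 145371967322918502034080530431)) (T.h (P (nat_lit 0)) (T.h (P (nat_lit 3118754032289218297856)) (T.h (P (nat_lit 0)) (M (nat_lit 57307652042883071))))))) (T.h (P (nat_lit 0)) (T.h (T.h (P (nat_lit 0)) (T.h (P (nat_lit 50541778626519817519104)) (T.h (P (nat_lit 0)) (M (nat_lit 36606517477834751))))) (T.h (P (nat_lit 0)) (T.h (T.h (P (nat_lit 0)) (P (nat_lit 59689674736271360))) (P (nat_lit 0))))))) (T.h (T.h (P (nat_lit 0)) (T.h (T.h (M (nat_lit 80912560731056306625970175)) (T.h (P (nat_lit 0)) (T.h (P (nat_lit 739859739072675184640)) (T.h (P (nat_lit 0)) (M (nat_lit 73591702011935)))))) (T.h (P (nat_lit 0)) (T.h (T.h (P (nat_lit 230020127955475234816)) (T.h (P (nat_lit 0)) (P (nat_lit 77423238872064)))) (T.h (P (nat_lit 0)) (P (nat_lit 26367205306752))))))) (T.h (T.h (T.h (P (nat_lit 0)) (T.h (P (nat_lit 50541778626519817519104)) (T.h (P (nat_lit 0)) (M (nat_lit 36606517477834751))))) (T.h (P (nat_lit 0)) (T.h (T.h (P (nat_lit 0)) (M (nat_lit 785502978010349567)))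 (P (nat_lit 0))))) (T.h (T.h (P (nat_lit 0)) (T.h (T.h (P (nat_lit 230020127955475234816)) (T.h (P (nat_lit 0)) (P (nat_lit 77423238872064)))) (T.h (P (nat_lit 0)) (M (nat_lit 70935916767839))))) (T.h (T.h (T.h (P (nat_lit 0)) (P (nat_lit 59689674736271360))) (P (nat_lit 0))) (T.h (T.h (P (nat_lit 0)) (P (nat_lit 26367205306752))) (P (nat_lit 0)))))))), (T.h (T.h (T.h (P (nat_lit 38490117535194236145834974511104)) (T.h (P (nat_lit 0)) (T.h (P (nat_lit 119651251882341828749426688)) (T.h (P (nat_lit 0)) (P (nat_lit 25903356780501532672)))))) (T.h (P (nat_lit 0)) (T.h (T.h (M (nat_lit 57914793621496889421594623)) (T.h (P (nat_lit 0)) (M (nat_lit 263893075604038221823)))) (T.h (P (nat_lit 0)) (M (nat_lit 35590738997640429567)))))) (T.h (T.h (P (nat_lit 0)) (T.h (T.h (P (nat_lit 0)) (T.h (M (nat_lit 343014291205721459523583)) (T.h (P (nat_lit 0)) (P (nat_lit 379494209891205120))))) (T.h (P (nat_lit 0)) (T.h (T.h (P (nat_lit 0)) (P (nat_lit 188831235643539456)))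 (P (nat_lit 0)))))) (T.h (T.h (T.h (M (nat_lit 57914793621496889421594623)) (T.h (P (nat_lit 0)) (M (nat_lit 263893075604038221823)))) (T.h (P (nat_lit 0)) (M (nat_lit 156600067838435131391)))) (T.h (T.h (P (nat_lit 0)) (T.h (T.h (P (nat_lit 0)) (P (nat_lit 188831235643539456))) (P (nat_lit 0)))) (M (nat_lit 35590738997640429567)))))), (T.h (T.h (P (nat_lit 0)) (T.h (T.h (P (nat_lit 0)) (T.h (P (nat_lit 61685020237823140436115456)) (T.h (P (nat_lit 0)) (P (nat_lit 32596431378283757568))))) (T.h (P (nat_lit 0)) (T.h (T.h (P (nat_lit 0)) (P (nat_lit 7673482952939929600))) (P (nat_lit 0)))))) (T.h (T.h (T.h (M (nat_lit 11733825538124060937013952511)) (T.h (P (nat_lit 0)) (T.h (M (nat_lit 267142227245937773772799)) (T.h (P (nat_lit 0)) (M (nat_lit 177234037276082175)))))) (T.h (P (nat_lit 0)) (T.h (T.h (M (nat_lit 367430446993888128270335)) (T.h (P (nat_lit 0)) (M (nat_lit 79454810584645631)))) (T.h (P (nat_lit 0)) (M (nat_lit 14666678955606015))))))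 (T.h (T.h (P (nat_lit 0)) (T.h (T.h (P (nat_lit 0)) (P (nat_lit 732313262607040512000))) (P (nat_lit 0)))) (T.h (T.h (T.h (M (nat_lit 95164013641070182137855)) (T.h (P (nat_lit 0)) (M (nat_lit 539078229205188607)))) (T.h (P (nat_lit 0)) (M (nat_lit 113423639843373055)))) (T.h (P (nat_lit 0)) (M (nat_lit 121494382953758719))))))), (P (nat_lit 0)), (T.h (T.h (T.h (P (nat_lit 0)) (T.h (M (nat_lit 782089061910025663233916927)) (T.h (P (nat_lit 0)) (T.h (M (nat_lit 16426708158251637145599)) (T.h (P (nat_lit 0)) (M (nat_lit 6131893213822975))))))) (T.h (P (nat_lit 0)) (T.h (T.h (P (nat_lit 0)) (T.h (M (nat_lit 14320835328243459424255)) (T.h (P (nat_lit 0)) (M (nat_lit 22042204530900991))))) (T.h (P (nat_lit 0)) (T.h (T.h (P (nat_lit 0)) (M (nat_lit 8925789642784767))) (P (nat_lit 0))))))) (T.h (T.h (P (nat_lit 0)) (T.h (T.h (P (nat_lit 6546479697134641121067008)) (T.h (P (nat_lit 0)) (T.h (P (nat_lit 24111187067511242752)) (T.h (P (nat_lit 0)) (P (nat_lit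 17623647717064)))))) (T.h (P (nat_lit 0)) (T.h (T.h (P (nat_lit 22831587893463482368)) (T.h (P (nat_lit 0)) (M (nat_lit 11967238186615)))) (T.h (P (nat_lit 0)) (P (nat_lit 16967370205168))))))) (T.h (T.h (T.h (P (nat_lit 0)) (T.h (P (nat_lit 18063952995519278612480)) (T.h (P (nat_lit 0)) (M (nat_lit 42949802790125567))))) (T.h (P (nat_lit 0)) (T.h (T.h (P (nat_lit 0)) (M (nat_lit 26618167397318655))) (P (nat_lit 0))))) (T.h (T.h (P (nat_lit 0)) (T.h (T.h (M (nat_lit 4787399348545650687)) (T.h (P (nat_lit 0)) (P (nat_lit 29687087006240)))) (T.h (P (nat_lit 0)) (M (nat_lit 23872235273511))))) (T.h (T.h (T.h (P (nat_lit 0)) (M (nat_lit 12606398353178623))) (P (nat_lit 0))) (T.h (T.h (P (nat_lit 0)) (M (nat_lit 11650405526287))) (P (nat_lit 0))))))))]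
def lP11_35 : List (T ℤ) := [(T.h (T.h (T.h (P (nat_lit 116538236317700504972192617857024)) (T.h (P (nat_lit 0)) (T.h (P (nat_lit 29852342430197712133554176)) (T.h (P (nat_lit 0)) (T.h (P (nat_lit 11257209192479457280)) (T.h (P (nat_lit 0)) (M (nat_lit 61045729373567)))))))) (T.h (P (nat_lit 0)) (T.h (T.h (P (nat_lit 32611548086002112509509632)) (T.h (P (nat_lit 0)) (T.h (P (nat_lit 14755860110806876160)) (T.h (P (nat_lit 0)) (M (nat_lit 93345869782831)))))) (T.h (P (nat_lit 0)) (T.h (T.h (P (nat_lit 44292664539358429184)) (T.h (P (nat_lit 0)) (M (nat_lit 7076939740079)))) (T.h (P (nat_lit 0)) (P (nat_lit 32079931261568)))))))) (T.h (T.h (P (nat_lit 0)) (T.h (T.h (P (nat_lit 0)) (T.h (P (nat_lit 35871329636008551514112)) (T.h (P (nat_lit 0)) (P (nat_lit 95266818162229248))))) (T.h (P (nat_lit 0)) (T.h (T.h (P (nat_lit 0)) (P (nat_lit 40345172097957888))) (P (nat_lit 0)))))) (T.h (T.h (T.h (M (nat_lit 11610262193131898743554047)) (T.h (P (nat_lit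 0)) (T.h (M (nat_lit 89283928821218672639)) (T.h (P (nat_lit 0)) (M (nat_lit 8128876489663)))))) (T.h (P (nat_lit 0)) (T.h (T.h (P (nat_lit 18121256762693648384)) (T.h (P (nat_lit 0)) (M (nat_lit 22178401775167)))) (T.h (P (nat_lit 0)) (M (nat_lit 22396963694271)))))) (T.h (T.h (P (nat_lit 0)) (T.h (T.h (P (nat_lit 0)) (P (nat_lit 41843344361783296))) (P (nat_lit 0)))) (T.h (T.h (T.h (P (nat_lit 4059346151223066624)) (T.h (P (nat_lit 0)) (P (nat_lit 28335036564160)))) (T.h (P (nat_lit 0)) (M (nat_lit 35169845347711)))) (T.h (P (nat_lit 0)) (M (nat_lit 15472739090591)))))))), (T.h (T.h (T.h (P (nat_lit 0)) (T.h (M (nat_lit 6055445881416343606697918463)) (T.h (P (nat_lit 0)) (T.h (P (nat_lit 113709236032273398104064)) (T.h (P (nat_lit 0)) (P (nat_lit 101502339024453632))))))) (T.h (P (nat_lit 0)) (T.h (T.h (P (nat_lit 0)) (T.h (P (nat_lit 30453367126282721034240)) (T.h (P (nat_lit 0)) (P (nat_lit 128491958501376000))))) (T.h (P (nat_lit 0)) (T.h (T.h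 (P (nat_lit 0)) (M (nat_lit 25690900194066431))) (P (nat_lit 0))))))) (T.h (T.h (P (nat_lit 0)) (T.h (T.h (P (nat_lit 23435974083932209570381824)) (T.h (P (nat_lit 0)) (T.h (M (nat_lit 501728095527132725247)) (T.h (P (nat_lit 0)) (M (nat_lit 95270745959327)))))) (T.h (P (nat_lit 0)) (T.h (T.h (P (nat_lit 69568742831935193088)) (T.h (P (nat_lit 0)) (P (nat_lit 13001890599264)))) (T.h (P (nat_lit 0)) (P (nat_lit 6554927866368))))))) (T.h (T.h (T.h (P (nat_lit 0)) (T.h (P (nat_lit 236814018518904771444736)) (T.h (P (nat_lit 0)) (M (nat_lit 19688161320828927))))) (T.h (P (nat_lit 0)) (T.h (T.h (P (nat_lit 0)) (P (nat_lit 226577201689427968))) (P (nat_lit 0))))) (T.h (T.h (P (nat_lit 0)) (T.h (T.h (M (nat_lit 120330688800300728319)) (T.h (P (nat_lit 0)) (M (nat_lit 32116743668927)))) (T.h (P (nat_lit 0)) (P (nat_lit 14935521193248))))) (T.h (T.h (T.h (P (nat_lit 0)) (P (nat_lit 94740330665148416))) (P (nat_lit 0))) (T.h (T.h (P (nat_lit 0)) (M (nat_lit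 6261972315983))) (P (nat_lit 0)))))))), (T.h (T.h (T.h (M (nat_lit 207245689897936580250291383828479)) (T.h (P (nat_lit 0)) (T.h (M (nat_lit 33468533096127654831063039)) (T.h (P (nat_lit 0)) (T.h (M (nat_lit 16190841554053627903)) (T.h (P (nat_lit 0)) (P (nat_lit 75877149067776)))))))) (T.h (P (nat_lit 0)) (T.h (T.h (M (nat_lit 88680154785333492804747263)) (T.h (P (nat_lit 0)) (T.h (P (nat_lit 113789011323028242432)) (T.h (P (nat_lit 0)) (P (nat_lit 73651491357984)))))) (T.h (P (nat_lit 0)) (T.h (T.h (M (nat_lit 144581075029341503487)) (T.h (P (nat_lit 0)) (P (nat_lit 74071766674224)))) (T.h (P (nat_lit 0)) (M (nat_lit 70822787459903)))))))) (T.h (T.h (P (nat_lit 0)) (T.h (T.h (P (nat_lit 0)) (T.h (M (nat_lit 189858369728152055316479)) (T.h (P (nat_lit 0)) (M (nat_lit 47995793195532287))))) (T.h (P (nat_lit 0)) (T.h (T.h (P (nat_lit 0)) (M (nat_lit 246000128182583295))) (P (nat_lit 0)))))) (T.h (T.h (T.h (M (nat_lit 33468533096127654831063039)) (T.h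 (P (nat_lit 0)) (T.h (P (nat_lit 333704964478410424320)) (T.h (P (nat_lit 0)) (P (nat_lit 43617723863328)))))) (T.h (P (nat_lit 0)) (T.h (T.h (P (nat_lit 113789011323028242432)) (T.h (P (nat_lit 0)) (P (nat_lit 43934860796544)))) (T.h (P (nat_lit 0)) (P (nat_lit 74071766674224)))))) (T.h (T.h (P (nat_lit 0)) (T.h (T.h (P (nat_lit 0)) (M (nat_lit 47995793195532287))) (P (nat_lit 0)))) (T.h (T.h (T.h (M (nat_lit 16190841554053627903)) (T.h (P (nat_lit 0)) (P (nat_lit 43617723863328)))) (T.h (P (nat_lit 0)) (P (nat_lit 73651491357984)))) (T.h (P (nat_lit 0)) (P (nat_lit 75877149067776)))))))), (T.h (T.h (T.h (P (nat_lit 0)) (T.h (M (nat_lit 11248579222122020348964634623)) (T.h (P (nat_lit 0)) (T.h (M (nat_lit 47210703150660263608319)) (T.h (P (nat_lit 0)) (M (nat_lit 113838962049777663))))))) (T.h (P (nat_lit 0)) (T.h (T.h (P (nat_lit 0)) (T.h (M (nat_lit 110268998513681254842367)) (T.h (P (nat_lit 0)) (M (nat_lit 83781578424385535))))) (T.h (P (nat_lit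 0)) (T.h (T.h (P (nat_lit 0)) (M (nat_lit 25337783715266559))) (P (nat_lit 0))))))) (T.h (T.h (P (nat_lit 0)) (T.h (T.h (P (nat_lit 33206684731157785694175232)) (T.h (P (nat_lit 0)) (P (nat_lit 352605878129642176512)))) (T.h (P (nat_lit 0)) (M (nat_lit 13623357689722568703))))) (T.h (T.h (T.h (P (nat_lit 0)) (T.h (M (nat_lit 251163479293727797673983)) (T.h (P (nat_lit 0)) (M (nat_lit 15489028619730943))))) (T.h (P (nat_lit 0)) (T.h (T.h (P (nat_lit 0)) (M (nat_lit 22622444845334527))) (P (nat_lit 0))))) (T.h (T.h (P (nat_lit 0)) (P (nat_lit 274170867548684288))) (T.h (T.h (T.h (P (nat_lit 0)) (P (nat_lit 1355874914500608))) (P (nat_lit 0))) (P (nat_lit 0))))))), (T.h (T.h (P (nat_lit 0)) (T.h (T.h (M (nat_lit 1019329464602023528524414975)) (T.h (P (nat_lit 0)) (T.h (P (nat_lit 24459377428626334023680)) (T.h (P (nat_lit 0)) (P (nat_lit 9790621656383488)))))) (T.h (P (nat_lit 0)) (T.h (T.h (M (nat_lit 26089571169843059621887)) (T.h (P (nat_lit 0))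 (M (nat_lit 48508369019109375)))) (T.h (P (nat_lit 0)) (M (nat_lit 6792647816151039))))))) (T.h (T.h (T.h (P (nat_lit 0)) (T.h (P (nat_lit 4343446238316046827126784)) (T.h (P (nat_lit 0)) (T.h (M (nat_lit 13799370759702839295)) (T.h (P (nat_lit 0)) (P (nat_lit 6158209502384))))))) (T.h (P (nat_lit 0)) (T.h (T.h (P (nat_lit 0)) (T.h (P (nat_lit 27869085850803372032)) (T.h (P (nat_lit 0)) (M (nat_lit 47471891302503))))) (T.h (P (nat_lit 0)) (T.h (T.h (P (nat_lit 0)) (P (nat_lit 24050724205112))) (P (nat_lit 0))))))) (T.h (T.h (P (nat_lit 0)) (T.h (T.h (P (nat_lit 28409884788917750726656)) (T.h (P (nat_lit 0)) (M (nat_lit 50291674965082111)))) (T.h (P (nat_lit 0)) (M (nat_lit 57308400462299135))))) (T.h (T.h (T.h (P (nat_lit 0)) (T.h (P (nat_lit 18860231165074210816)) (T.h (P (nat_lit 0)) (M (nat_lit 20904433505623))))) (T.h (P (nat_lit 0)) (T.h (T.h (P (nat_lit 0)) (M (nat_lit 11775571218751))) (P (nat_lit 0))))) (T.h (T.h (P (nat_lit 0)) (P (nat_lit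 41846141237264384))) (T.h (T.h (T.h (P (nat_lit 0)) (M (nat_lit 5980972211343))) (P (nat_lit 0))) (P (nat_lit 0)))))))), (T.h (T.h (P (nat_lit 0)) (T.h (T.h (P (nat_lit 0)) (T.h (M (nat_lit 17906321837193087961530367)) (T.h (P (nat_lit 0)) (T.h (M (nat_lit 28621299218955370495)) (T.h (P (nat_lit 0)) (M (nat_lit 57105588554927))))))) (T.h (P (nat_lit 0)) (T.h (T.h (P (nat_lit 0)) (T.h (M (nat_lit 28621299218955370495)) (T.h (P (nat_lit 0)) (M (nat_lit 33666772764575))))) (T.h (P (nat_lit 0)) (T.h (T.h (P (nat_lit 0)) (M (nat_lit 57105588554927))) (P (nat_lit 0)))))))) (T.h (T.h (T.h (P (nat_lit 1980409599325634221637107712)) (T.h (P (nat_lit 0)) (T.h (M (nat_lit 3622323455901260840959)) (T.h (P (nat_lit 0)) (M (nat_lit 32889710490746879)))))) (T.h (P (nat_lit 0)) (T.h (T.h (M (nat_lit 3622323455901260840959)) (T.h (P (nat_lit 0)) (P (nat_lit 53787962859716608)))) (T.h (P (nat_lit 0)) (M (nat_lit 32889710490746879)))))) (T.h (T.h (P (nat_lit 0)) (T.h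 (T.h (P (nat_lit 0)) (T.h (M (nat_lit 4387270251864129535)) (T.h (P (nat_lit 0)) (P (nat_lit 7964610238816))))) (T.h (P (nat_lit 0)) (T.h (T.h (P (nat_lit 0)) (P (nat_lit 7964610238816))) (P (nat_lit 0)))))) (T.h (T.h (T.h (M (nat_lit 15055359175053937737727)) (T.h (P (nat_lit 0)) (M (nat_lit 38455619674882047)))) (T.h (P (nat_lit 0)) (M (nat_lit 38455619674882047)))) (T.h (T.h (P (nat_lit 0)) (T.h (T.h (P (nat_lit 0)) (P (nat_lit 3163502112640))) (P (nat_lit 0)))) (P (nat_lit 3262392835637248))))))), (T.h (T.h (P (nat_lit 0)) (T.h (T.h (P (nat_lit 5611523352745672723763560448)) (T.h (P (nat_lit 0)) (T.h (P (nat_lit 58989293015579108573184)) (T.h (P (nat_lit 0)) (P (nat_lit 115278733525024768)))))) (T.h (P (nat_lit 0)) (T.h (T.h (M (nat_lit 130208512336740007018495)) (T.h (P (nat_lit 0)) (M (nat_lit 1666114179006463)))) (T.h (P (nat_lit 0)) (M (nat_lit 32489238541598719))))))) (T.h (T.h (T.h (P (nat_lit 0)) (T.h (M (nat_lit 53592014455914041329057791))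 (T.h (P (nat_lit 0)) (T.h (M (nat_lit 175397533885151576063)) (T.h (P (nat_lit 0)) (M (nat_lit 1438918448639))))))) (T.h (P (nat_lit 0)) (T.h (T.h (P (nat_lit 0)) (T.h (P (nat_lit 178828070972899196928)) (T.h (P (nat_lit 0)) (P (nat_lit 18532277689920))))) (T.h (P (nat_lit 0)) (T.h (T.h (P (nat_lit 0)) (M (nat_lit 858351454991))) (P (nat_lit 0))))))) (T.h (T.h (P (nat_lit 0)) (T.h (T.h (P (nat_lit 14764572830191832793088)) (T.h (P (nat_lit 0)) (M (nat_lit 73423234274689023)))) (T.h (P (nat_lit 0)) (M (nat_lit 115038415315042303))))) (T.h (T.h (T.h (P (nat_lit 0)) (T.h (P (nat_lit 72060471283495731200)) (T.h (P (nat_lit 0)) (P (nat_lit 39743026870800))))) (T.h (P (nat_lit 0)) (T.h (T.h (P (nat_lit 0)) (M (nat_lit 95885928699887))) (P (nat_lit 0))))) (T.h (T.h (P (nat_lit 0)) (P (nat_lit 91456337990483968))) (T.h (T.h (T.h (P (nat_lit 0)) (P (nat_lit 60196247186208))) (P (nat_lit 0))) (P (nat_lit 0)))))))), (T.h (T.h (P (nat_lit 0)) (T.h (T.h (P (nat_lit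 0)) (T.h (P (nat_lit 84474593176145620608483328)) (T.h (P (nat_lit 0)) (T.h (P (nat_lit 70989944265199583232)) (T.h (P (nat_lit 0)) (P (nat_lit 77442952494384))))))) (T.h (P (nat_lit 0)) (T.h (T.h (P (nat_lit 0)) (T.h (P (nat_lit 67279472290785394688)) (T.h (P (nat_lit 0)) (M (nat_lit 2395349943695))))) (T.h (P (nat_lit 0)) (T.h (T.h (P (nat_lit 0)) (P (nat_lit 31976606021472))) (P (nat_lit 0)))))))) (T.h (T.h (T.h (P (nat_lit 67185566505562312745714450432)) (T.h (P (nat_lit 0)) (T.h (M (nat_lit 118456684448776665956351)) (T.h (P (nat_lit 0)) (P (nat_lit 108129119820283904)))))) (T.h (P (nat_lit 0)) (T.h (T.h (M (nat_lit 101452401124637860167679)) (T.h (P (nat_lit 0)) (P (nat_lit 368374066637406208)))) (T.h (P (nat_lit 0)) (M (nat_lit 75789866623516671)))))) (T.h (T.h (P (nat_lit 0)) (T.h (T.h (P (nat_lit 0)) (T.h (P (nat_lit 291820826445081477120)) (T.h (P (nat_lit 0)) (M (nat_lit 165739260395375))))) (T.h (P (nat_lit 0)) (T.h (T.h (P (nat_lit 0))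 (M (nat_lit 127505483758511))) (P (nat_lit 0)))))) (T.h (T.h (T.h (P (nat_lit 26688500089316853153792)) (T.h (P (nat_lit 0)) (P (nat_lit 114024985828311040)))) (T.h (P (nat_lit 0)) (P (nat_lit 91725410818899968)))) (T.h (T.h (P (nat_lit 0)) (T.h (T.h (P (nat_lit 0)) (M (nat_lit 22262947040159))) (P (nat_lit 0)))) (P (nat_lit 30121564165390336)))))))]
def lP11_36 : List (T ℤ) := [(T.h (T.h (P (nat_lit 0)) (T.h (T.h (M (nat_lit 29465771449952636056513806335)) (T.h (P (nat_lit 0)) (T.h (M (nat_lit 35933518468873375973375)) (T.h (P (nat_lit 0)) (M (nat_lit 116566425178505215)))))) (T.h (P (nat_lit 0)) (T.h (T.h (M (nat_lit 3651158552685087555583)) (T.h (P (nat_lit 0)) (M (nat_lit 36771961311526911)))) (T.h (P (nat_lit 0)) (P (nat_lit 82143803782594560))))))) (T.h (T.h (T.h (P (nat_lit 0)) (T.h (P (nat_lit 120814795054612235002314752)) (T.h (P (nat_lit 0)) (M (nat_lit 107041884051731382271))))) (T.h (P (nat_lit 0)) (T.h (T.h (P (nat_lit 0)) (M (nat_lit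 179113940030792400895))) (P (nat_lit 0))))) (T.h (T.h (P (nat_lit 0)) (T.h (T.h (M (nat_lit 35933518468873375973375)) (T.h (P (nat_lit 0)) (P (nat_lit 206294093546192896)))) (T.h (P (nat_lit 0)) (M (nat_lit 36771961311526911))))) (T.h (T.h (T.h (P (nat_lit 0)) (M (nat_lit 107041884051731382271))) (P (nat_lit 0))) (T.h (T.h (P (nat_lit 0)) (M (nat_lit 116566425178505215))) (P (nat_lit 0))))))), (T.h (T.h (T.h (P (nat_lit 221815957248227472857689472630784)) (T.h (P (nat_lit 0)) (T.h (P (nat_lit 30988763977504371698040832)) (T.h (P (nat_lit 0)) (T.h (P (nat_lit 53072859227878326272)) (T.h (P (nat_lit 0)) (P (nat_lit 88283525211360)))))))) (T.h (P (nat_lit 0)) (T.h (T.h (P (nat_lit 28229558321699971322085376)) (T.h (P (nat_lit 0)) (T.h (M (nat_lit 157729516029757882367)) (T.h (P (nat_lit 0)) (M (nat_lit 380349276558495)))))) (T.h (P (nat_lit 0)) (T.h (T.h (P (nat_lit 20037403880999354368)) (T.h (P (nat_lit 0)) (M (nat_lit 466618206601247)))) (T.h (P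 (nat_lit 0)) (M (nat_lit 4842135423775)))))))) (T.h (T.h (P (nat_lit 0)) (T.h (T.h (P (nat_lit 0)) (T.h (P (nat_lit 56538922558053991579648)) (T.h (P (nat_lit 0)) (P (nat_lit 87981380135452672))))) (T.h (P (nat_lit 0)) (T.h (T.h (P (nat_lit 0)) (P (nat_lit 142903026199724032))) (P (nat_lit 0)))))) (T.h (T.h (T.h (M (nat_lit 21301793150286031799451647)) (T.h (P (nat_lit 0)) (T.h (P (nat_lit 12577470158727020544)) (T.h (P (nat_lit 0)) (M (nat_lit 126875042397455)))))) (T.h (P (nat_lit 0)) (T.h (T.h (M (nat_lit 94827715425185300479)) (T.h (P (nat_lit 0)) (M (nat_lit 17082524090335)))) (T.h (P (nat_lit 0)) (M (nat_lit 112606955192847)))))) (T.h (T.h (P (nat_lit 0)) (T.h (T.h (P (nat_lit 0)) (P (nat_lit 83429182192615424))) (P (nat_lit 0)))) (T.h (T.h (T.h (P (nat_lit 5811565880164745216)) (T.h (P (nat_lit 0)) (M (nat_lit 14702718992527)))) (T.h (P (nat_lit 0)) (P (nat_lit 48802162919344)))) (T.h (P (nat_lit 0)) (M (nat_lit 12558189962591)))))))), (T.h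 (T.h (T.h (P (nat_lit 0)) (T.h (M (nat_lit 15090455622766928826954940415)) (T.h (P (nat_lit 0)) (T.h (P (nat_lit 6456252935342588428288)) (T.h (P (nat_lit 0)) (M (nat_lit 50528122080002047))))))) (T.h (P (nat_lit 0)) (T.h (T.h (P (nat_lit 0)) (T.h (P (nat_lit 126012551805512213069824)) (T.h (P (nat_lit 0)) (P (nat_lit 452982372442505216))))) (T.h (P (nat_lit 0)) (T.h (T.h (P (nat_lit 0)) (P (nat_lit 251079679583748096))) (P (nat_lit 0))))))) (T.h (T.h (P (nat_lit 0)) (T.h (T.h (P (nat_lit 10068552722795612291989504)) (T.h (P (nat_lit 0)) (T.h (M (nat_lit 39613226278748946431)) (T.h (P (nat_lit 0)) (M (nat_lit 21695537416079)))))) (T.h (P (nat_lit 0)) (T.h (T.h (P (nat_lit 221726420270263042048)) (T.h (P (nat_lit 0)) (P (nat_lit 48251842434480)))) (T.h (P (nat_lit 0)) (M (nat_lit 13001708302415))))))) (T.h (T.h (T.h (P (nat_lit 0)) (T.h (P (nat_lit 34449875306500239392768)) (T.h (P (nat_lit 0)) (P (nat_lit 198833590393143296))))) (T.h (P (nat_lit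 0)) (T.h (T.h (P (nat_lit 0)) (M (nat_lit 72723711117164543))) (P (nat_lit 0))))) (T.h (T.h (P (nat_lit 0)) (T.h (T.h (M (nat_lit 119100335992120279039)) (T.h (P (nat_lit 0)) (M (nat_lit 104841686593631)))) (T.h (P (nat_lit 0)) (P (nat_lit 62131361260368))))) (T.h (T.h (T.h (P (nat_lit 0)) (M (nat_lit 98869187456008191))) (P (nat_lit 0))) (T.h (T.h (P (nat_lit 0)) (P (nat_lit 69011936055024))) (P (nat_lit 0)))))))), (T.h (T.h (T.h (M (nat_lit 365859056997179494311217774723071)) (T.h (P (nat_lit 0)) (T.h (P (nat_lit 95043781126207988461207552)) (T.h (P (nat_lit 0)) (T.h (P (nat_lit 45402449796753522688)) (T.h (P (nat_lit 0)) (P (nat_lit 56467437188544)))))))) (T.h (P (nat_lit 0)) (T.h (T.h (P (nat_lit 88522244040274686435655680)) (T.h (P (nat_lit 0)) (T.h (P (nat_lit 62140088511780356096)) (T.h (P (nat_lit 0)) (P (nat_lit 523795312924848)))))) (T.h (P (nat_lit 0)) (T.h (T.h (M (nat_lit 20539076300668665855)) (T.h (P (nat_lit 0)) (P (nat_lit 376707924910080))))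 (T.h (P (nat_lit 0)) (M (nat_lit 39656712426047)))))))) (T.h (T.h (P (nat_lit 0)) (T.h (T.h (P (nat_lit 0)) (T.h (P (nat_lit 80005365493780478689280)) (T.h (P (nat_lit 0)) (P (nat_lit 484838152563261440))))) (T.h (P (nat_lit 0)) (T.h (T.h (P (nat_lit 0)) (P (nat_lit 537569748426817536))) (P (nat_lit 0)))))) (T.h (T.h (T.h (M (nat_lit 73227404190882109946068991)) (T.h (P (nat_lit 0)) (T.h (M (nat_lit 318690438135297343487)) (T.h (P (nat_lit 0)) (P (nat_lit 149472599354640)))))) (T.h (P (nat_lit 0)) (T.h (T.h (M (nat_lit 299228892824000790527)) (T.h (P (nat_lit 0)) (M (nat_lit 124747445216159)))) (T.h (P (nat_lit 0)) (P (nat_lit 148518079556400)))))) (T.h (T.h (P (nat_lit 0)) (T.h (T.h (P (nat_lit 0)) (M (nat_lit 168651984377249791))) (P (nat_lit 0)))) (T.h (T.h (T.h (P (nat_lit 4577853697681260544)) (T.h (P (nat_lit 0)) (M (nat_lit 102045009261311)))) (T.h (P (nat_lit 0)) (P (nat_lit 1670783220000)))) (T.h (P (nat_lit 0)) (M (nat_lit 16363685155391)))))))),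 (T.h (T.h (T.h (P (nat_lit 0)) (T.h (P (nat_lit 582142847540216020055621632)) (T.h (P (nat_lit 0)) (T.h (M (nat_lit 38136091729712604250111)) (T.h (P (nat_lit 0)) (M (nat_lit 84116176310534143))))))) (T.h (P (nat_lit 0)) (T.h (T.h (P (nat_lit 0)) (T.h (M (nat_lit 172720657896388696211455)) (T.h (P (nat_lit 0)) (M (nat_lit 436876660536344575))))) (T.h (P (nat_lit 0)) (T.h (T.h (P (nat_lit 0)) (M (nat_lit 140017003359928319))) (P (nat_lit 0))))))) (T.h (T.h (P (nat_lit 0)) (T.h (T.h (M (nat_lit 97155157171162051183116287)) (T.h (P (nat_lit 0)) (M (nat_lit 461555658556035825663)))) (T.h (P (nat_lit 0)) (M (nat_lit 158818508046279376895))))) (T.h (T.h (T.h (P (nat_lit 0)) (T.h (P (nat_lit 291093967612907788173312)) (T.h (P (nat_lit 0)) (M (nat_lit 91385267866566655))))) (T.h (P (nat_lit 0)) (T.h (T.h (P (nat_lit 0)) (P (nat_lit 210992573506224128))) (P (nat_lit 0))))) (T.h (T.h (P (nat_lit 0)) (M (nat_lit 111930520095617449983))) (T.h (T.h (T.h (P (nat_lit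 0)) (P (nat_lit 32110643246071808))) (P (nat_lit 0))) (P (nat_lit 0))))))), (T.h (T.h (P (nat_lit 0)) (T.h (T.h (P (nat_lit 15060356633087551199724437504)) (T.h (P (nat_lit 0)) (T.h (P (nat_lit 295152132231464845574144)) (T.h (P (nat_lit 0)) (P (nat_lit 257291722367041536)))))) (T.h (P (nat_lit 0)) (T.h (T.h (P (nat_lit 106180806920314158055424)) (T.h (P (nat_lit 0)) (P (nat_lit 438730694843531264)))) (T.h (P (nat_lit 0)) (P (nat_lit 42607821429800960))))))) (T.h (T.h (T.h (P (nat_lit 0)) (T.h (M (nat_lit 97780516078427023188426751)) (T.h (P (nat_lit 0)) (T.h (M (nat_lit 230120293191364116479)) (T.h (P (nat_lit 0)) (M (nat_lit 5007861987407))))))) (T.h (P (nat_lit 0)) (T.h (T.h (P (nat_lit 0)) (T.h (M (nat_lit 382746559242026614783)) (T.h (P (nat_lit 0)) (P (nat_lit 42721455343824))))) (T.h (P (nat_lit 0)) (T.h (T.h (P (nat_lit 0)) (M (nat_lit 116107931920415))) (P (nat_lit 0))))))) (T.h (T.h (P (nat_lit 0)) (T.h (T.h (P (nat_lit 30129554316350015406080))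 (T.h (P (nat_lit 0)) (M (nat_lit 171661555688308735)))) (T.h (P (nat_lit 0)) (P (nat_lit 148977777661181952))))) (T.h (T.h (T.h (P (nat_lit 0)) (T.h (P (nat_lit 116756985124778672128)) (T.h (P (nat_lit 0)) (P (nat_lit 37323855582816))))) (T.h (P (nat_lit 0)) (T.h (T.h (P (nat_lit 0)) (M (nat_lit 41072501562671))) (P (nat_lit 0))))) (T.h (T.h (P (nat_lit 0)) (M (nat_lit 35406734043938815))) (T.h (T.h (T.h (P (nat_lit 0)) (P (nat_lit 2553716552832))) (P (nat_lit 0))) (P (nat_lit 0)))))))), (T.h (T.h (P (nat_lit 0)) (T.h (T.h (P (nat_lit 0)) (T.h (P (nat_lit 110889463789553626162135040)) (T.h (P (nat_lit 0)) (T.h (P (nat_lit 84563067385061310464)) (T.h (P (nat_lit 0)) (P (nat_lit 100481755148640))))))) (T.h (P (nat_lit 0)) (T.h (T.h (P (nat_lit 0)) (T.h (P (nat_lit 88273539359475499008)) (T.h (P (nat_lit 0)) (P (nat_lit 29510694618480))))) (T.h (P (nat_lit 0)) (T.h (T.h (P (nat_lit 0)) (P (nat_lit 145948101621552))) (P (nat_lit 0)))))))) (T.h (T.h (T.h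 (P (nat_lit 51780321548609131815886651392)) (T.h (P (nat_lit 0)) (T.h (M (nat_lit 43074445675859462324223)) (T.h (P (nat_lit 0)) (M (nat_lit 50720353550532607)))))) (T.h (P (nat_lit 0)) (T.h (T.h (M (nat_lit 60078728999998268112895)) (T.h (P (nat_lit 0)) (P (nat_lit 348094961878499328)))) (T.h (P (nat_lit 0)) (P (nat_lit 133198632893267968)))))) (T.h (T.h (P (nat_lit 0)) (T.h (T.h (P (nat_lit 0)) (T.h (M (nat_lit 27574989714200985599)) (T.h (P (nat_lit 0)) (M (nat_lit 166087946971727))))) (T.h (P (nat_lit 0)) (T.h (T.h (P (nat_lit 0)) (M (nat_lit 204321723608591))) (P (nat_lit 0)))))) (T.h (T.h (T.h (P (nat_lit 60987767985754137952256)) (T.h (P (nat_lit 0)) (P (nat_lit 41393942740205568)))) (T.h (P (nat_lit 0)) (P (nat_lit 63693517749616640)))) (T.h (T.h (P (nat_lit 0)) (T.h (T.h (P (nat_lit 0)) (P (nat_lit 71074743071616))) (P (nat_lit 0)))) (P (nat_lit 55558320353296384))))))), (T.h (T.h (P (nat_lit 0)) (T.h (T.h (P (nat_lit 24272225852187028016332800))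 (T.h (P (nat_lit 0)) (T.h (M (nat_lit 117311579019113568141311)) (T.h (P (nat_lit 0)) (M (nat_lit 261551039730286591)))))) (T.h (P (nat_lit 0)) (T.h (T.h (P (nat_lit 71582141870744270798848)) (T.h (P (nat_lit 0)) (M (nat_lit 274787139956408319)))) (T.h (P (nat_lit 0)) (P (nat_lit 37728633573834752))))))) (T.h (T.h (T.h (P (nat_lit 0)) (T.h (M (nat_lit 144121561351623944798470143)) (T.h (P (nat_lit 0)) (M (nat_lit 208450746454475014143))))) (T.h (P (nat_lit 0)) (T.h (T.h (P (nat_lit 0)) (M (nat_lit 844488666540939411455))) (P (nat_lit 0))))) (T.h (T.h (P (nat_lit 0)) (T.h (T.h (P (nat_lit 420286920340889782976512)) (T.h (P (nat_lit 0)) (P (nat_lit 289775874412838912)))) (T.h (P (nat_lit 0)) (M (nat_lit 114711053236994047))))) (T.h (T.h (T.h (P (nat_lit 0)) (M (nat_lit 106262758275359440895))) (P (nat_lit 0))) (T.h (T.h (P (nat_lit 0)) (M (nat_lit 22389404982935551))) (P (nat_lit 0)))))))]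
def lP11_37 : List (T ℤ) := [(T.h (T.h (T.h (M (nat_lit 409266472218964815952337514266623)) (T.h (P (nat_lit 0)) (T.h (M (nat_lit 131017688937194509893107711)) (T.h (P (nat_lit 0)) (T.h (M (nat_lit 213196163386089406463)) (T.h (P (nat_lit 0)) (M (nat_lit 158233476595103)))))))) (T.h (P (nat_lit 0)) (T.h (T.h (M (nat_lit 69284530162055369893871615)) (T.h (P (nat_lit 0)) (T.h (P (nat_lit 245832239135124881408)) (T.h (P (nat_lit 0)) (P (nat_lit 426226108692672)))))) (T.h (P (nat_lit 0)) (T.h (T.h (M (nat_lit 18864403813379342335)) (T.h (P (nat_lit 0)) (P (nat_lit 572893221391200)))) (T.h (P (nat_lit 0)) (P (nat_lit 84590609547168)))))))) (T.h (T.h (P (nat_lit 0)) (T.h (T.h (P (nat_lit 0)) (T.h (M (nat_lit 180786621017668706107391)) (T.h (P (nat_lit 0)) (M (nat_lit 371759436879200255))))) (T.h (P (nat_lit 0)) (T.h (T.h (P (nat_lit 0)) (M (nat_lit 226486697755705343))) (P (nat_lit 0)))))) (T.h (T.h (T.h (M (nat_lit 10101649388226781915381759)) (T.h (P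 (nat_lit 0)) (T.h (P (nat_lit 148339135441111351296)) (T.h (P (nat_lit 0)) (P (nat_lit 207312393033648)))))) (T.h (P (nat_lit 0)) (T.h (T.h (P (nat_lit 348793543285196980224)) (T.h (P (nat_lit 0)) (P (nat_lit 58448465730432)))) (T.h (P (nat_lit 0)) (P (nat_lit 177812870020992)))))) (T.h (T.h (P (nat_lit 0)) (T.h (T.h (P (nat_lit 0)) (M (nat_lit 111097928493268991))) (P (nat_lit 0)))) (T.h (T.h (T.h (M (nat_lit 23322182882330411007)) (T.h (P (nat_lit 0)) (P (nat_lit 100058136211152)))) (T.h (P (nat_lit 0)) (M (nat_lit 33691423764815)))) (T.h (P (nat_lit 0)) (P (nat_lit 90522856686240)))))))), (T.h (T.h (T.h (P (nat_lit 0)) (T.h (M (nat_lit 30508888387642705636602413055)) (T.h (P (nat_lit 0)) (T.h (P (nat_lit 58113764557361868963840)) (T.h (P (nat_lit 0)) (P (nat_lit 196333192762982400))))))) (T.h (P (nat_lit 0)) (T.h (T.h (P (nat_lit 0)) (T.h (M (nat_lit 137397668323854766833663)) (T.h (P (nat_lit 0)) (M (nat_lit 329979091512393727))))) (T.h (P (nat_lit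 0)) (T.h (T.h (P (nat_lit 0)) (M (nat_lit 389996715109679103))) (P (nat_lit 0))))))) (T.h (T.h (P (nat_lit 0)) (T.h (T.h (P (nat_lit 102326726380815696128901120)) (T.h (P (nat_lit 0)) (M (nat_lit 182339563538297651199)))) (T.h (P (nat_lit 0)) (M (nat_lit 110454333391920693247))))) (T.h (T.h (T.h (P (nat_lit 0)) (T.h (M (nat_lit 23007533441051711766527)) (T.h (P (nat_lit 0)) (M (nat_lit 158032357905596415))))) (T.h (P (nat_lit 0)) (T.h (T.h (P (nat_lit 0)) (P (nat_lit 228245028713496576))) (P (nat_lit 0))))) (T.h (T.h (P (nat_lit 0)) (M (nat_lit 93974810146082127871))) (T.h (T.h (T.h (P (nat_lit 0)) (M (nat_lit 187089027277619199))) (P (nat_lit 0))) (P (nat_lit 0))))))), (T.h (T.h (P (nat_lit 0)) (T.h (T.h (M (nat_lit 11733825538124060937013952511)) (T.h (P (nat_lit 0)) (T.h (M (nat_lit 267142227245937773772799)) (T.h (P (nat_lit 0)) (M (nat_lit 177234037276082175)))))) (T.h (P (nat_lit 0)) (T.h (T.h (M (nat_lit 95164013641070182137855)) (T.h (P (nat_lit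 0)) (M (nat_lit 539078229205188607)))) (T.h (P (nat_lit 0)) (M (nat_lit 121494382953758719))))))) (T.h (T.h (T.h (P (nat_lit 0)) (T.h (P (nat_lit 61685020237823140436115456)) (T.h (P (nat_lit 0)) (P (nat_lit 32596431378283757568))))) (T.h (P (nat_lit 0)) (T.h (T.h (P (nat_lit 0)) (P (nat_lit 732313262607040512000))) (P (nat_lit 0))))) (T.h (T.h (P (nat_lit 0)) (T.h (T.h (M (nat_lit 367430446993888128270335)) (T.h (P (nat_lit 0)) (M (nat_lit 79454810584645631)))) (T.h (P (nat_lit 0)) (M (nat_lit 113423639843373055))))) (T.h (T.h (T.h (P (nat_lit 0)) (P (nat_lit 7673482952939929600))) (P (nat_lit 0))) (T.h (T.h (P (nat_lit 0)) (M (nat_lit 14666678955606015))) (P (nat_lit 0))))))), (T.h (T.h (P (nat_lit 0)) (T.h (T.h (P (nat_lit 0)) (T.h (P (nat_lit 789217968431012492869632)) (T.h (P (nat_lit 0)) (T.h (M (nat_lit 41432928862544592895)) (T.h (P (nat_lit 0)) (M (nat_lit 11610110242455))))))) (T.h (P (nat_lit 0)) (T.h (T.h (P (nat_lit 0)) (T.h (M (nat_lit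 26309337614833942527)) (T.h (P (nat_lit 0)) (M (nat_lit 60639230622911))))) (T.h (P (nat_lit 0)) (T.h (T.h (P (nat_lit 0)) (M (nat_lit 11455875289447))) (P (nat_lit 0)))))))) (T.h (T.h (T.h (P (nat_lit 7100087156579572138729537536)) (T.h (P (nat_lit 0)) (T.h (P (nat_lit 23223723856033470218240)) (T.h (P (nat_lit 0)) (P (nat_lit 18968879967698944)))))) (T.h (P (nat_lit 0)) (T.h (T.h (P (nat_lit 18488458053379849977856)) (T.h (P (nat_lit 0)) (P (nat_lit 6405622491906048)))) (T.h (P (nat_lit 0)) (P (nat_lit 15699326535139328)))))) (T.h (T.h (P (nat_lit 0)) (T.h (T.h (P (nat_lit 0)) (T.h (M (nat_lit 2144806594884403199)) (T.h (P (nat_lit 0)) (P (nat_lit 36776393580296))))) (T.h (P (nat_lit 0)) (T.h (T.h (P (nat_lit 0)) (P (nat_lit 28718105432920))) (P (nat_lit 0)))))) (T.h (T.h (T.h (M (nat_lit 1237047663726686109695)) (T.h (P (nat_lit 0)) (M (nat_lit 21981539607871487)))) (T.h (P (nat_lit 0)) (M (nat_lit 14916144344629247)))) (T.h (T.h (P (nat_lit 0))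 (T.h (T.h (P (nat_lit 0)) (M (nat_lit 40018750807967))) (P (nat_lit 0)))) (P (nat_lit 5526414397538304))))))), (T.h (T.h (P (nat_lit 0)) (T.h (T.h (P (nat_lit 20984392715099619162048167936)) (T.h (P (nat_lit 0)) (T.h (M (nat_lit 17505257867323948138495)) (T.h (P (nat_lit 0)) (M (nat_lit 93291811182837759)))))) (T.h (P (nat_lit 0)) (T.h (T.h (P (nat_lit 19697029159794532941824)) (T.h (P (nat_lit 0)) (M (nat_lit 33918669731856383)))) (T.h (P (nat_lit 0)) (P (nat_lit 15994898100060160))))))) (T.h (T.h (T.h (P (nat_lit 0)) (T.h (M (nat_lit 23016326667677892480073727)) (T.h (P (nat_lit 0)) (T.h (P (nat_lit 3997095405463535616)) (T.h (P (nat_lit 0)) (P (nat_lit 40339979884256))))))) (T.h (P (nat_lit 0)) (T.h (T.h (P (nat_lit 0)) (T.h (P (nat_lit 29677769012967112704)) (T.h (P (nat_lit 0)) (P (nat_lit 1500860940832))))) (T.h (P (nat_lit 0)) (T.h (T.h (P (nat_lit 0)) (P (nat_lit 50708355223312))) (P (nat_lit 0))))))) (T.h (T.h (P (nat_lit 0)) (T.h (T.h (M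 (nat_lit 8223931429363535314943)) (T.h (P (nat_lit 0)) (M (nat_lit 738227850690559)))) (T.h (P (nat_lit 0)) (M (nat_lit 46708690346541055))))) (T.h (T.h (T.h (P (nat_lit 0)) (T.h (M (nat_lit 4386139381002403839)) (T.h (P (nat_lit 0)) (P (nat_lit 6020971354256))))) (T.h (P (nat_lit 0)) (T.h (T.h (P (nat_lit 0)) (M (nat_lit 4144068559599))) (P (nat_lit 0))))) (T.h (T.h (P (nat_lit 0)) (P (nat_lit 26419758957936640))) (T.h (T.h (T.h (P (nat_lit 0)) (M (nat_lit 14450944174591))) (P (nat_lit 0))) (P (nat_lit 0)))))))), (T.h (T.h (P (nat_lit 0)) (T.h (T.h (P (nat_lit 0)) (T.h (P (nat_lit 5538450431683356522446848)) (T.h (P (nat_lit 0)) (T.h (P (nat_lit 71019701946244136960)) (T.h (P (nat_lit 0)) (P (nat_lit 16779312954192))))))) (T.h (P (nat_lit 0)) (T.h (T.h (P (nat_lit 0)) (T.h (P (nat_lit 56006648096966574080)) (T.h (P (nat_lit 0)) (P (nat_lit 106333461033312))))) (T.h (P (nat_lit 0)) (T.h (T.h (P (nat_lit 0)) (P (nat_lit 2741942744016))) (P (nat_lit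 0)))))))) (T.h (T.h (T.h (M (nat_lit 13643277596547858818052128767)) (T.h (P (nat_lit 0)) (T.h (P (nat_lit 99357904463704478449664)) (T.h (P (nat_lit 0)) (M (nat_lit 12317872639180799)))))) (T.h (P (nat_lit 0)) (T.h (T.h (M (nat_lit 72413172943302078496767)) (T.h (P (nat_lit 0)) (M (nat_lit 40126139474247679)))) (T.h (P (nat_lit 0)) (M (nat_lit 81311443225575423)))))) (T.h (T.h (P (nat_lit 0)) (T.h (T.h (P (nat_lit 0)) (T.h (M (nat_lit 214692018084393254911)) (T.h (P (nat_lit 0)) (M (nat_lit 47982439091855))))) (T.h (P (nat_lit 0)) (T.h (T.h (P (nat_lit 0)) (P (nat_lit 4724950018272))) (P (nat_lit 0)))))) (T.h (T.h (T.h (P (nat_lit 13578388150504331935744)) (T.h (P (nat_lit 0)) (M (nat_lit 25911504250404863)))) (T.h (P (nat_lit 0)) (P (nat_lit 104001452826558464)))) (T.h (T.h (P (nat_lit 0)) (T.h (T.h (P (nat_lit 0)) (P (nat_lit 20145618234144))) (P (nat_lit 0)))) (P (nat_lit 62277197655441408))))))), (T.h (T.h (P (nat_lit 0)) (T.h (T.h (M (nat_lit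 72685983661459251017040265215)) (T.h (P (nat_lit 0)) (T.h (P (nat_lit 83956052722079571640320)) (T.h (P (nat_lit 0)) (P (nat_lit 53580461240139776)))))) (T.h (P (nat_lit 0)) (T.h (T.h (P (nat_lit 1559377016144609148928)) (T.h (P (nat_lit 0)) (P (nat_lit 30734799568240640)))) (T.h (P (nat_lit 0)) (M (nat_lit 28653826021441535))))))) (T.h (T.h (T.h (P (nat_lit 0)) (T.h (M (nat_lit 40456280365528153312985087)) (T.h (P (nat_lit 0)) (T.h (P (nat_lit 167404106989858455552)) (T.h (P (nat_lit 0)) (M (nat_lit 18638776481903))))))) (T.h (P (nat_lit 0)) (T.h (T.h (P (nat_lit 0)) (T.h (P (nat_lit 369929869536337592320)) (T.h (P (nat_lit 0)) (P (nat_lit 3848439743712))))) (T.h (P (nat_lit 0)) (T.h (T.h (P (nat_lit 0)) (M (nat_lit 36795851005967))) (P (nat_lit 0))))))) (T.h (T.h (P (nat_lit 0)) (T.h (T.h (M (nat_lit 33414274095559754121215)) (T.h (P (nat_lit 0)) (M (nat_lit 392751489005174783)))) (T.h (P (nat_lit 0)) (M (nat_lit 67341317046075391))))) (T.h (T.h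 (T.h (P (nat_lit 0)) (T.h (P (nat_lit 62616020965616779264)) (T.h (P (nat_lit 0)) (M (nat_lit 35467958383919))))) (T.h (P (nat_lit 0)) (T.h (T.h (P (nat_lit 0)) (P (nat_lit 73574799128352))) (P (nat_lit 0))))) (T.h (T.h (P (nat_lit 0)) (P (nat_lit 6109213496131584))) (T.h (T.h (T.h (P (nat_lit 0)) (P (nat_lit 45005981788656))) (P (nat_lit 0))) (P (nat_lit 0)))))))), (T.h (T.h (P (nat_lit 0)) (T.h (T.h (P (nat_lit 0)) (T.h (P (nat_lit 33206684731157785694175232)) (T.h (P (nat_lit 0)) (P (nat_lit 274170867548684288))))) (T.h (P (nat_lit 0)) (T.h (T.h (P (nat_lit 0)) (M (nat_lit 13623357689722568703))) (P (nat_lit 0)))))) (T.h (T.h (T.h (M (nat_lit 11248579222122020348964634623)) (T.h (P (nat_lit 0)) (T.h (M (nat_lit 251163479293727797673983)) (T.h (P (nat_lit 0)) (P (nat_lit 1355874914500608)))))) (T.h (P (nat_lit 0)) (T.h (T.h (M (nat_lit 110268998513681254842367)) (T.h (P (nat_lit 0)) (M (nat_lit 22622444845334527)))) (T.h (P (nat_lit 0)) (M (nat_lit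 25337783715266559)))))) (T.h (T.h (P (nat_lit 0)) (T.h (T.h (P (nat_lit 0)) (P (nat_lit 352605878129642176512))) (P (nat_lit 0)))) (T.h (T.h (T.h (M (nat_lit 47210703150660263608319)) (T.h (P (nat_lit 0)) (M (nat_lit 15489028619730943)))) (T.h (P (nat_lit 0)) (M (nat_lit 83781578424385535)))) (T.h (P (nat_lit 0)) (M (nat_lit 113838962049777663)))))))]
def lP11_38 : List (T ℤ) := [(T.h (T.h (T.h (P (nat_lit 0)) (T.h (P (nat_lit 20984392715099619162048167936)) (T.h (P (nat_lit 0)) (T.h (P (nat_lit 19697029159794532941824)) (T.h (P (nat_lit 0)) (P (nat_lit 15994898100060160))))))) (T.h (P (nat_lit 0)) (T.h (T.h (P (nat_lit 0)) (T.h (M (nat_lit 17505257867323948138495)) (T.h (P (nat_lit 0)) (M (nat_lit 33918669731856383))))) (T.h (P (nat_lit 0)) (T.h (T.h (P (nat_lit 0)) (M (nat_lit 93291811182837759))) (P (nat_lit 0))))))) (T.h (T.h (P (nat_lit 0)) (T.h (T.h (M (nat_lit 23016326667677892480073727)) (T.h (P (nat_lit 0)) (T.h (P (nat_lit 29677769012967112704))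 (T.h (P (nat_lit 0)) (P (nat_lit 50708355223312)))))) (T.h (P (nat_lit 0)) (T.h (T.h (P (nat_lit 3997095405463535616)) (T.h (P (nat_lit 0)) (P (nat_lit 1500860940832)))) (T.h (P (nat_lit 0)) (P (nat_lit 40339979884256))))))) (T.h (T.h (T.h (P (nat_lit 0)) (T.h (M (nat_lit 8223931429363535314943)) (T.h (P (nat_lit 0)) (M (nat_lit 46708690346541055))))) (T.h (P (nat_lit 0)) (T.h (T.h (P (nat_lit 0)) (M (nat_lit 738227850690559))) (P (nat_lit 0))))) (T.h (T.h (P (nat_lit 0)) (T.h (T.h (M (nat_lit 4386139381002403839)) (T.h (P (nat_lit 0)) (M (nat_lit 4144068559599)))) (T.h (P (nat_lit 0)) (P (nat_lit 6020971354256))))) (T.h (T.h (T.h (P (nat_lit 0)) (P (nat_lit 26419758957936640))) (P (nat_lit 0))) (T.h (T.h (P (nat_lit 0)) (M (nat_lit 14450944174591))) (P (nat_lit 0)))))))), (T.h (T.h (T.h (M (nat_lit 13243727574427061321021679206399)) (T.h (P (nat_lit 0)) (T.h (M (nat_lit 48396470324636890293075967)) (T.h (P (nat_lit 0)) (T.h (P (nat_lit 52169738701368197120))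 (T.h (P (nat_lit 0)) (P (nat_lit 8789193732672)))))))) (T.h (P (nat_lit 0)) (T.h (T.h (M (nat_lit 458093224261596672425983)) (T.h (P (nat_lit 0)) (T.h (P (nat_lit 168408438911197511680)) (T.h (P (nat_lit 0)) (M (nat_lit 21055996758767)))))) (T.h (P (nat_lit 0)) (T.h (T.h (P (nat_lit 43578386568565489664)) (T.h (P (nat_lit 0)) (M (nat_lit 21055996758767)))) (T.h (P (nat_lit 0)) (P (nat_lit 8789193732672)))))))) (T.h (T.h (P (nat_lit 0)) (T.h (T.h (P (nat_lit 0)) (T.h (M (nat_lit 67881393036871090569215)) (T.h (P (nat_lit 0)) (P (nat_lit 13062960469180416))))) (T.h (P (nat_lit 0)) (T.h (T.h (P (nat_lit 0)) (M (nat_lit 88034040569724927))) (P (nat_lit 0)))))) (T.h (T.h (T.h (P (nat_lit 16578664229391570990792704)) (T.h (P (nat_lit 0)) (T.h (M (nat_lit 80909574209947041791)) (T.h (P (nat_lit 0)) (P (nat_lit 17775325846896)))))) (T.h (P (nat_lit 0)) (T.h (T.h (P (nat_lit 52526158785474985984)) (T.h (P (nat_lit 0)) (P (nat_lit 12074435503008)))) (T.h (P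 (nat_lit 0)) (P (nat_lit 17775325846896)))))) (T.h (T.h (P (nat_lit 0)) (T.h (T.h (P (nat_lit 0)) (P (nat_lit 158261587630096384))) (P (nat_lit 0)))) (T.h (T.h (T.h (P (nat_lit 17552020871231569920)) (T.h (P (nat_lit 0)) (P (nat_lit 45145893431616)))) (T.h (P (nat_lit 0)) (P (nat_lit 45145893431616)))) (T.h (P (nat_lit 0)) (P (nat_lit 954741325344)))))))), (T.h (T.h (T.h (P (nat_lit 0)) (T.h (M (nat_lit 3204733460397538933508931583)) (T.h (P (nat_lit 0)) (T.h (M (nat_lit 69418260137388823019519)) (T.h (P (nat_lit 0)) (M (nat_lit 69814345750593535))))))) (T.h (P (nat_lit 0)) (T.h (T.h (P (nat_lit 0)) (T.h (M (nat_lit 58299763117793543716863)) (T.h (P (nat_lit 0)) (M (nat_lit 33821400822153215))))) (T.h (P (nat_lit 0)) (T.h (T.h (P (nat_lit 0)) (P (nat_lit 118297934862188544))) (P (nat_lit 0))))))) (T.h (T.h (P (nat_lit 0)) (T.h (T.h (P (nat_lit 10272478443104322537390080)) (T.h (P (nat_lit 0)) (T.h (M (nat_lit 25283953647354380287)) (T.h (P (nat_lit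 0)) (M (nat_lit 139411251903167)))))) (T.h (P (nat_lit 0)) (T.h (T.h (P (nat_lit 103460306243349905408)) (T.h (P (nat_lit 0)) (M (nat_lit 215827605369791)))) (T.h (P (nat_lit 0)) (M (nat_lit 45849852608687))))))) (T.h (T.h (T.h (P (nat_lit 0)) (T.h (P (nat_lit 189533633965619006144512)) (T.h (P (nat_lit 0)) (P (nat_lit 58042506824548352))))) (T.h (P (nat_lit 0)) (T.h (T.h (P (nat_lit 0)) (P (nat_lit 196731980638601216))) (P (nat_lit 0))))) (T.h (T.h (P (nat_lit 0)) (T.h (T.h (P (nat_lit 92046784355859693568)) (T.h (P (nat_lit 0)) (M (nat_lit 3247963595855)))) (T.h (P (nat_lit 0)) (P (nat_lit 12834186665184))))) (T.h (T.h (T.h (P (nat_lit 0)) (M (nat_lit 159947440549658623))) (P (nat_lit 0))) (T.h (T.h (P (nat_lit 0)) (P (nat_lit 32752559787552))) (P (nat_lit 0)))))))), (T.h (T.h (T.h (P (nat_lit 19245058767597118072917487255552)) (T.h (P (nat_lit 0)) (T.h (M (nat_lit 8849924118460195124805631)) (T.h (P (nat_lit 0)) (P (nat_lit 22472147538827804672))))))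 (T.h (P (nat_lit 0)) (T.h (T.h (P (nat_lit 59825625941170914374713344)) (T.h (P (nat_lit 0)) (M (nat_lit 218013063006075748351)))) (T.h (P (nat_lit 0)) (P (nat_lit 12951678390250766336)))))) (T.h (T.h (P (nat_lit 0)) (T.h (T.h (P (nat_lit 0)) (T.h (M (nat_lit 171507145602860729761791)) (T.h (P (nat_lit 0)) (P (nat_lit 200573530775552000))))) (T.h (P (nat_lit 0)) (T.h (T.h (P (nat_lit 0)) (P (nat_lit 189747104945602560))) (P (nat_lit 0)))))) (T.h (T.h (T.h (M (nat_lit 49064869503036694296788991)) (T.h (P (nat_lit 0)) (M (nat_lit 78300033919217565695)))) (T.h (P (nat_lit 0)) (M (nat_lit 45880012597962473471)))) (T.h (T.h (P (nat_lit 0)) (T.h (T.h (P (nat_lit 0)) (M (nat_lit 11742295132012543))) (P (nat_lit 0)))) (M (nat_lit 58062886536468234239)))))), (T.h (T.h (P (nat_lit 0)) (T.h (T.h (P (nat_lit 0)) (T.h (M (nat_lit 8616355234777971214516223)) (T.h (P (nat_lit 0)) (T.h (M (nat_lit 33920691208863088639)) (T.h (P (nat_lit 0)) (P (nat_lit 14274935509968)))))))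 (T.h (P (nat_lit 0)) (T.h (T.h (P (nat_lit 0)) (T.h (P (nat_lit 53739077057741062144)) (T.h (P (nat_lit 0)) (P (nat_lit 166972691656224))))) (T.h (P (nat_lit 0)) (T.h (T.h (P (nat_lit 0)) (P (nat_lit 28312305720144))) (P (nat_lit 0)))))))) (T.h (T.h (T.h (M (nat_lit 132369288350525572991942655)) (T.h (P (nat_lit 0)) (T.h (P (nat_lit 49960300879624666087424)) (T.h (P (nat_lit 0)) (P (nat_lit 27722015675285504)))))) (T.h (P (nat_lit 0)) (T.h (T.h (P (nat_lit 14534661823462069239808)) (T.h (P (nat_lit 0)) (P (nat_lit 98496929035583488)))) (T.h (P (nat_lit 0)) (M (nat_lit 1289211891023871)))))) (T.h (T.h (P (nat_lit 0)) (T.h (T.h (P (nat_lit 0)) (T.h (P (nat_lit 19834865608059518976)) (T.h (P (nat_lit 0)) (M (nat_lit 28022299488335))))) (T.h (P (nat_lit 0)) (T.h (T.h (P (nat_lit 0)) (M (nat_lit 80729688598463))) (P (nat_lit 0)))))) (T.h (T.h (T.h (P (nat_lit 13122000031705116704768)) (T.h (P (nat_lit 0)) (M (nat_lit 11210096307503103)))) (T.h (P (nat_lit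 0)) (M (nat_lit 58464951468785663)))) (T.h (T.h (P (nat_lit 0)) (T.h (T.h (P (nat_lit 0)) (P (nat_lit 60164369042112))) (P (nat_lit 0)))) (P (nat_lit 10357380856741888))))))), (T.h (T.h (P (nat_lit 0)) (T.h (T.h (M (nat_lit 23750497267468145476803493887)) (T.h (P (nat_lit 0)) (T.h (M (nat_lit 40074269084746944348159)) (T.h (P (nat_lit 0)) (P (nat_lit 197422760820899840)))))) (T.h (P (nat_lit 0)) (T.h (T.h (M (nat_lit 88579240001019647623167)) (T.h (P (nat_lit 0)) (P (nat_lit 20310419239223296)))) (T.h (P (nat_lit 0)) (M (nat_lit 84785619645956095))))))) (T.h (T.h (T.h (P (nat_lit 0)) (T.h (P (nat_lit 40849003622773885308502016)) (T.h (P (nat_lit 0)) (T.h (P (nat_lit 88674402378826383360)) (T.h (P (nat_lit 0)) (M (nat_lit 84423952920671))))))) (T.h (P (nat_lit 0)) (T.h (T.h (P (nat_lit 0)) (T.h (M (nat_lit 85393950303710085119)) (T.h (P (nat_lit 0)) (M (nat_lit 193539970835423))))) (T.h (P (nat_lit 0)) (T.h (T.h (P (nat_lit 0)) (M (nat_lit 192967807010831)))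 (P (nat_lit 0))))))) (T.h (T.h (P (nat_lit 0)) (T.h (T.h (P (nat_lit 201669130040785399447552)) (T.h (P (nat_lit 0)) (P (nat_lit 240338476512886784)))) (T.h (P (nat_lit 0)) (P (nat_lit 110201006966620160))))) (T.h (T.h (T.h (P (nat_lit 0)) (T.h (P (nat_lit 87747530647467458560)) (T.h (P (nat_lit 0)) (P (nat_lit 1107098952480))))) (T.h (P (nat_lit 0)) (T.h (T.h (P (nat_lit 0)) (P (nat_lit 15312153295584))) (P (nat_lit 0))))) (T.h (T.h (P (nat_lit 0)) (M (nat_lit 195828628248412159))) (T.h (T.h (T.h (P (nat_lit 0)) (P (nat_lit 41456688470064))) (P (nat_lit 0))) (P (nat_lit 0)))))))), (T.h (T.h (P (nat_lit 0)) (T.h (T.h (P (nat_lit 0)) (T.h (P (nat_lit 16394297414832749627310080)) (T.h (P (nat_lit 0)) (M (nat_lit 298934512071659749375))))) (T.h (P (nat_lit 0)) (T.h (T.h (P (nat_lit 0)) (M (nat_lit 304261878522052607999))) (P (nat_lit 0)))))) (T.h (T.h (T.h (P (nat_lit 13246153738169170192895049728)) (T.h (P (nat_lit 0)) (T.h (P (nat_lit 166204689587340104957952))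 (T.h (P (nat_lit 0)) (P (nat_lit 59752861649862656)))))) (T.h (P (nat_lit 0)) (T.h (T.h (P (nat_lit 191777241764567416045568)) (T.h (P (nat_lit 0)) (P (nat_lit 336235547090026496)))) (T.h (P (nat_lit 0)) (P (nat_lit 28485611734237184)))))) (T.h (T.h (P (nat_lit 0)) (T.h (T.h (P (nat_lit 0)) (M (nat_lit 71002780518664110079))) (P (nat_lit 0)))) (T.h (T.h (T.h (P (nat_lit 22282810127419298545664)) (T.h (P (nat_lit 0)) (P (nat_lit 92866947705438208)))) (T.h (P (nat_lit 0)) (M (nat_lit 13766620995387391)))) (T.h (P (nat_lit 0)) (P (nat_lit 5455158084206592))))))), (T.h (T.h (T.h (P (nat_lit 0)) (T.h (M (nat_lit 93231747468529857560334827519)) (T.h (P (nat_lit 0)) (T.h (M (nat_lit 17601602847486215454719)) (T.h (P (nat_lit 0)) (M (nat_lit 43625099916804095))))))) (T.h (P (nat_lit 0)) (T.h (T.h (P (nat_lit 0)) (T.h (P (nat_lit 102181546755126171009024)) (T.h (P (nat_lit 0)) (P (nat_lit 84866619629617152))))) (T.h (P (nat_lit 0)) (T.h (T.h (P (nat_lit 0))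 (P (nat_lit 132705287198851072))) (P (nat_lit 0))))))) (T.h (T.h (P (nat_lit 0)) (T.h (T.h (M (nat_lit 9879755185858590541873151)) (T.h (P (nat_lit 0)) (T.h (P (nat_lit 309819872879981887488)) (T.h (P (nat_lit 0)) (M (nat_lit 90352406113631)))))) (T.h (P (nat_lit 0)) (T.h (T.h (P (nat_lit 152618203125334933504)) (T.h (P (nat_lit 0)) (P (nat_lit 26136074278080)))) (T.h (P (nat_lit 0)) (M (nat_lit 57212876793887))))))) (T.h (T.h (T.h (P (nat_lit 0)) (T.h (M (nat_lit 21278778020393360818175)) (T.h (P (nat_lit 0)) (M (nat_lit 15182816904003583))))) (T.h (P (nat_lit 0)) (T.h (T.h (P (nat_lit 0)) (M (nat_lit 349144993130889215))) (P (nat_lit 0))))) (T.h (T.h (P (nat_lit 0)) (T.h (T.h (P (nat_lit 58316767257224544256)) (T.h (P (nat_lit 0)) (P (nat_lit 92134916019792)))) (T.h (P (nat_lit 0)) (M (nat_lit 47195046096623))))) (T.h (T.h (T.h (P (nat_lit 0)) (M (nat_lit 29771974202621951))) (P (nat_lit 0))) (T.h (T.h (P (nat_lit 0)) (P (nat_lit 53710110471168)))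 (P (nat_lit 0))))))))]
def lP11_39 : List (T ℤ) := [(T.h (T.h (T.h (P (nat_lit 31532248948022724788922603274240)) (T.h (P (nat_lit 0)) (T.h (P (nat_lit 59002992844268282008567808)) (T.h (P (nat_lit 0)) (P (nat_lit 6774447923674480640)))))) (T.h (P (nat_lit 0)) (T.h (T.h (M (nat_lit 9672557215362827490951167)) (T.h (P (nat_lit 0)) (M (nat_lit 401662547894130966527)))) (T.h (P (nat_lit 0)) (P (nat_lit 16294917072251518976)))))) (T.h (T.h (P (nat_lit 0)) (T.h (T.h (P (nat_lit 0)) (T.h (M (nat_lit 45200459760637229137919)) (T.h (P (nat_lit 0)) (P (nat_lit 245911429135663104))))) (T.h (P (nat_lit 0)) (T.h (T.h (P (nat_lit 0)) (P (nat_lit 256737854965612544))) (P (nat_lit 0)))))) (T.h (T.h (T.h (M (nat_lit 52901474879184542097211391)) (T.h (P (nat_lit 0)) (M (nat_lit 110995339492930355199)))) (T.h (P (nat_lit 0)) (M (nat_lit 143415360814185447423)))) (T.h (T.h (P (nat_lit 0)) (T.h (T.h (P (nat_lit 0)) (M (nat_lit 113594165684273151))) (P (nat_lit 0))))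 (M (nat_lit 92810436295327219711)))))), (T.h (T.h (P (nat_lit 0)) (T.h (T.h (P (nat_lit 0)) (T.h (P (nat_lit 25238555120004385889845248)) (T.h (P (nat_lit 0)) (M (nat_lit 47869593626469203967))))) (T.h (P (nat_lit 0)) (T.h (T.h (P (nat_lit 0)) (M (nat_lit 28644698618805092351))) (P (nat_lit 0)))))) (T.h (T.h (T.h (M (nat_lit 16535973017744251280892624895)) (T.h (P (nat_lit 0)) (T.h (M (nat_lit 121739393643156789526527)) (T.h (P (nat_lit 0)) (M (nat_lit 73789981571678207)))))) (T.h (P (nat_lit 0)) (T.h (T.h (M (nat_lit 288206426600430643445759)) (T.h (P (nat_lit 0)) (M (nat_lit 44442772888485887)))) (T.h (P (nat_lit 0)) (M (nat_lit 15829073026285567)))))) (T.h (T.h (P (nat_lit 0)) (T.h (T.h (P (nat_lit 0)) (P (nat_lit 380669420328800223232))) (P (nat_lit 0)))) (T.h (T.h (T.h (M (nat_lit 58208633310122940039167)) (T.h (P (nat_lit 0)) (M (nat_lit 112040951094476799)))) (T.h (P (nat_lit 0)) (P (nat_lit 62885167411003392)))) (T.h (P (nat_lit 0)) (M (nat_lit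 135815907689496575))))))), (T.h (T.h (T.h (P (nat_lit 105277720930526967885496854773760)) (T.h (P (nat_lit 0)) (T.h (M (nat_lit 1622784108497740811468799)) (T.h (P (nat_lit 0)) (T.h (P (nat_lit 8780194688519897088)) (T.h (P (nat_lit 0)) (P (nat_lit 56203593949792)))))))) (T.h (P (nat_lit 0)) (T.h (T.h (M (nat_lit 1622784108497740811468799)) (T.h (P (nat_lit 0)) (T.h (M (nat_lit 172485376140564758527)) (T.h (P (nat_lit 0)) (M (nat_lit 373272336818415)))))) (T.h (P (nat_lit 0)) (T.h (T.h (P (nat_lit 8780194688519897088)) (T.h (P (nat_lit 0)) (M (nat_lit 373272336818415)))) (T.h (P (nat_lit 0)) (P (nat_lit 56203593949792)))))))) (T.h (T.h (P (nat_lit 0)) (T.h (T.h (P (nat_lit 0)) (T.h (P (nat_lit 20667592922045440065536)) (T.h (P (nat_lit 0)) (P (nat_lit 47636208037494784))))) (T.h (P (nat_lit 0)) (T.h (T.h (P (nat_lit 0)) (P (nat_lit 47636208037494784))) (P (nat_lit 0)))))) (T.h (T.h (T.h (M (nat_lit 9691530957154133055897599)) (T.h (P (nat_lit 0))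 (T.h (M (nat_lit 5543786603966627839)) (T.h (P (nat_lit 0)) (M (nat_lit 104478078703183)))))) (T.h (P (nat_lit 0)) (T.h (T.h (M (nat_lit 5543786603966627839)) (T.h (P (nat_lit 0)) (P (nat_lit 5095877684832)))) (T.h (P (nat_lit 0)) (M (nat_lit 104478078703183)))))) (T.h (T.h (P (nat_lit 0)) (T.h (T.h (P (nat_lit 0)) (P (nat_lit 41585837830832128))) (P (nat_lit 0)))) (T.h (T.h (T.h (P (nat_lit 1752219728941678592)) (T.h (P (nat_lit 0)) (P (nat_lit 20467126355184)))) (T.h (P (nat_lit 0)) (P (nat_lit 20467126355184)))) (T.h (P (nat_lit 0)) (P (nat_lit 2914549128000)))))))), (T.h (T.h (T.h (P (nat_lit 0)) (T.h (M (nat_lit 3456173834636085084861497343)) (T.h (P (nat_lit 0)) (T.h (P (nat_lit 796842188950915252224)) (T.h (P (nat_lit 0)) (M (nat_lit 79130026373513215))))))) (T.h (P (nat_lit 0)) (T.h (T.h (P (nat_lit 0)) (T.h (P (nat_lit 79018735785822008639488)) (T.h (P (nat_lit 0)) (P (nat_lit 358151747026976768))))) (T.h (P (nat_lit 0)) (T.h (T.h (P (nat_lit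 0)) (P (nat_lit 173742578925305856))) (P (nat_lit 0))))))) (T.h (T.h (P (nat_lit 0)) (T.h (T.h (M (nat_lit 10655501998343211475533823)) (T.h (P (nat_lit 0)) (T.h (M (nat_lit 74645592273925963775)) (T.h (P (nat_lit 0)) (M (nat_lit 20837185961087)))))) (T.h (P (nat_lit 0)) (T.h (T.h (P (nat_lit 14014821978452525056)) (T.h (P (nat_lit 0)) (P (nat_lit 29719564744560)))) (T.h (P (nat_lit 0)) (M (nat_lit 11562789853775))))))) (T.h (T.h (T.h (P (nat_lit 0)) (T.h (M (nat_lit 8138862492074314301439)) (T.h (P (nat_lit 0)) (P (nat_lit 135300099771203584))))) (T.h (P (nat_lit 0)) (T.h (T.h (P (nat_lit 0)) (P (nat_lit 43116961213710336))) (P (nat_lit 0))))) (T.h (T.h (P (nat_lit 0)) (T.h (T.h (P (nat_lit 12914465284454088704)) (T.h (P (nat_lit 0)) (M (nat_lit 8955757893743)))) (T.h (P (nat_lit 0)) (P (nat_lit 22388334389568))))) (T.h (T.h (T.h (P (nat_lit 0)) (M (nat_lit 5272400747659263))) (P (nat_lit 0))) (T.h (T.h (P (nat_lit 0)) (P (nat_lit 8815688868816)))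 (P (nat_lit 0)))))))), (T.h (T.h (T.h (M (nat_lit 202020782321028235702046130438143)) (T.h (P (nat_lit 0)) (T.h (M (nat_lit 35815997065927715062808575)) (T.h (P (nat_lit 0)) (T.h (M (nat_lit 2673562259325714431)) (T.h (P (nat_lit 0)) (P (nat_lit 8713460479392)))))))) (T.h (P (nat_lit 0)) (T.h (T.h (M (nat_lit 42337534151861017088360447)) (T.h (P (nat_lit 0)) (T.h (P (nat_lit 132043227812096638976)) (T.h (P (nat_lit 0)) (P (nat_lit 499241730033216)))))) (T.h (P (nat_lit 0)) (T.h (T.h (M (nat_lit 68615088356747902975)) (T.h (P (nat_lit 0)) (P (nat_lit 352154342018448)))) (T.h (P (nat_lit 0)) (M (nat_lit 87410689135199)))))))) (T.h (T.h (P (nat_lit 0)) (T.h (T.h (P (nat_lit 0)) (T.h (P (nat_lit 9071748710483349209088)) (T.h (P (nat_lit 0)) (M (nat_lit 178490904560173055))))) (T.h (P (nat_lit 0)) (T.h (T.h (P (nat_lit 0)) (M (nat_lit 125759308696616959))) (P (nat_lit 0)))))) (T.h (T.h (T.h (P (nat_lit 23366883707900872915681280)) (T.h (P (nat_lit 0))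 (T.h (P (nat_lit 15088578806786555904)) (T.h (P (nat_lit 0)) (P (nat_lit 134195146157664)))))) (T.h (P (nat_lit 0)) (T.h (T.h (P (nat_lit 34550124118083108864)) (T.h (P (nat_lit 0)) (P (nat_lit 14513604933888)))) (T.h (P (nat_lit 0)) (P (nat_lit 133240626359424)))))) (T.h (T.h (P (nat_lit 0)) (T.h (T.h (P (nat_lit 0)) (M (nat_lit 63102135297736703))) (P (nat_lit 0)))) (T.h (T.h (T.h (M (nat_lit 7131341328276783103)) (T.h (P (nat_lit 0)) (M (nat_lit 77309147628143)))) (T.h (P (nat_lit 0)) (P (nat_lit 26406644853168)))) (T.h (P (nat_lit 0)) (P (nat_lit 14645707618464)))))))), (T.h (T.h (T.h (P (nat_lit 0)) (T.h (M (nat_lit 485246316002040588049317887)) (T.h (P (nat_lit 0)) (T.h (M (nat_lit 47953310490409918529535)) (T.h (P (nat_lit 0)) (M (nat_lit 7655420903981055))))))) (T.h (P (nat_lit 0)) (T.h (T.h (P (nat_lit 0)) (T.h (M (nat_lit 156873228732256518930431)) (T.h (P (nat_lit 0)) (M (nat_lit 455296650780803071))))) (T.h (P (nat_lit 0)) (T.h (T.h (P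 (nat_lit 0)) (M (nat_lit 151896253560815615))) (P (nat_lit 0))))))) (T.h (T.h (P (nat_lit 0)) (T.h (T.h (P (nat_lit 28478335506665354741940224)) (T.h (P (nat_lit 0)) (P (nat_lit 379707384477398335488)))) (T.h (P (nat_lit 0)) (P (nat_lit 46219789068006326272))))) (T.h (T.h (T.h (P (nat_lit 0)) (T.h (M (nat_lit 116266967700160330596351)) (T.h (P (nat_lit 0)) (M (nat_lit 97934611223642111))))) (T.h (P (nat_lit 0)) (T.h (T.h (P (nat_lit 0)) (M (nat_lit 56832365739311103))) (P (nat_lit 0))))) (T.h (T.h (P (nat_lit 0)) (P (nat_lit 7399312085391245312))) (T.h (T.h (T.h (P (nat_lit 0)) (M (nat_lit 16022553870106623))) (P (nat_lit 0))) (P (nat_lit 0))))))), (T.h (T.h (P (nat_lit 0)) (T.h (T.h (P (nat_lit 393612880355767449343229952)) (T.h (P (nat_lit 0)) (T.h (P (nat_lit 46372124084709401559040)) (T.h (P (nat_lit 0)) (P (nat_lit 140257529750159360)))))) (T.h (P (nat_lit 0)) (T.h (T.h (P (nat_lit 15408104815434917740544)) (T.h (P (nat_lit 0)) (P (nat_lit 401020424622800896))))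 (T.h (P (nat_lit 0)) (M (nat_lit 80612478460854271))))))) (T.h (T.h (T.h (P (nat_lit 0)) (T.h (M (nat_lit 5697481985329626773192703)) (T.h (P (nat_lit 0)) (T.h (P (nat_lit 5846604613603557376)) (T.h (P (nat_lit 0)) (M (nat_lit 11562789853775))))))) (T.h (P (nat_lit 0)) (T.h (T.h (P (nat_lit 0)) (T.h (M (nat_lit 64339317300710604799)) (T.h (P (nat_lit 0)) (P (nat_lit 29719564744560))))) (T.h (P (nat_lit 0)) (T.h (T.h (P (nat_lit 0)) (M (nat_lit 20837185961087))) (P (nat_lit 0))))))) (T.h (T.h (P (nat_lit 0)) (T.h (T.h (M (nat_lit 33555511882046685315071)) (T.h (P (nat_lit 0)) (P (nat_lit 59963242679304192)))) (T.h (P (nat_lit 0)) (P (nat_lit 134391637320007680))))) (T.h (T.h (T.h (P (nat_lit 0)) (T.h (M (nat_lit 32832337339857502207)) (T.h (P (nat_lit 0)) (P (nat_lit 22388334389568))))) (T.h (P (nat_lit 0)) (T.h (T.h (P (nat_lit 0)) (M (nat_lit 8955757893743))) (P (nat_lit 0))))) (T.h (T.h (P (nat_lit 0)) (M (nat_lit 22492782030323711))) (T.h (T.h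 (T.h (P (nat_lit 0)) (P (nat_lit 8815688868816))) (P (nat_lit 0))) (P (nat_lit 0)))))))), (T.h (T.h (P (nat_lit 0)) (T.h (T.h (P (nat_lit 0)) (T.h (P (nat_lit 26414870613408005553651712)) (T.h (P (nat_lit 0)) (T.h (P (nat_lit 17283595094275915776)) (T.h (P (nat_lit 0)) (P (nat_lit 68505149127168))))))) (T.h (P (nat_lit 0)) (T.h (T.h (P (nat_lit 0)) (T.h (P (nat_lit 17283595094275915776)) (T.h (P (nat_lit 0)) (P (nat_lit 31906044562176))))) (T.h (P (nat_lit 0)) (T.h (T.h (P (nat_lit 0)) (P (nat_lit 68505149127168))) (P (nat_lit 0)))))))) (T.h (T.h (T.h (M (nat_lit 15405244956953180929827799039)) (T.h (P (nat_lit 0)) (T.h (P (nat_lit 58377955448778397843456)) (T.h (P (nat_lit 0)) (P (nat_lit 25069513072984064)))))) (T.h (P (nat_lit 0)) (T.h (T.h (P (nat_lit 58377955448778397843456)) (T.h (P (nat_lit 0)) (M (nat_lit 20279104758906879)))) (T.h (P (nat_lit 0)) (P (nat_lit 25069513072984064)))))) (T.h (T.h (P (nat_lit 0)) (T.h (T.h (P (nat_lit 0)) (T.h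 (M (nat_lit 319395816159282462719)) (T.h (P (nat_lit 0)) (M (nat_lit 38582463213215))))) (T.h (P (nat_lit 0)) (T.h (T.h (P (nat_lit 0)) (M (nat_lit 38582463213215))) (P (nat_lit 0)))))) (T.h (T.h (T.h (P (nat_lit 34299267896437284798464)) (T.h (P (nat_lit 0)) (M (nat_lit 50331468078694399)))) (T.h (P (nat_lit 0)) (M (nat_lit 50331468078694399)))) (T.h (T.h (P (nat_lit 0)) (T.h (T.h (P (nat_lit 0)) (P (nat_lit 93337690111776))) (P (nat_lit 0)))) (P (nat_lit 25436756187906048)))))))]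
def lP11_40 : List (T ℤ) := [(T.h (T.h (P (nat_lit 0)) (T.h (T.h (M (nat_lit 1043116937690069580088606719)) (T.h (P (nat_lit 0)) (T.h (M (nat_lit 101464149854981390860287)) (T.h (P (nat_lit 0)) (M (nat_lit 273430289931173887)))))) (T.h (P (nat_lit 0)) (T.h (T.h (P (nat_lit 61764923110046956519424)) (T.h (P (nat_lit 0)) (M (nat_lit 293207130200866815)))) (T.h (P (nat_lit 0)) (P (nat_lit 114189388980387840))))))) (T.h (T.h (T.h (P (nat_lit 0)) (T.h (M (nat_lit 18488068673796538873413631)) (T.h (P (nat_lit 0)) (M (nat_lit 3412449340189310975))))) (T.h (P (nat_lit 0)) (T.h (T.h (P (nat_lit 0)) (M (nat_lit 3225623507505250303))) (P (nat_lit 0))))) (T.h (T.h (P (nat_lit 0)) (T.h (T.h (P (nat_lit 12925985027821664206848)) (T.h (P (nat_lit 0)) (P (nat_lit 21950935167303680)))) (T.h (P (nat_lit 0)) (M (nat_lit 121260396594069503))))) (T.h (T.h (T.h (P (nat_lit 0)) (P (nat_lit 13067073905649254400))) (P (nat_lit 0))) (T.h (T.h (P (nat_lit 0)) (M (nat_lit 70522602099113983)))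 (P (nat_lit 0))))))), (T.h (T.h (T.h (M (nat_lit 301930430976752772082627178921983)) (T.h (P (nat_lit 0)) (T.h (M (nat_lit 40800231124997339869085695)) (T.h (P (nat_lit 0)) (T.h (M (nat_lit 76093811097564348415)) (T.h (P (nat_lit 0)) (M (nat_lit 144214233157871)))))))) (T.h (P (nat_lit 0)) (T.h (T.h (M (nat_lit 34278694039064037843533823)) (T.h (P (nat_lit 0)) (T.h (P (nat_lit 302242232728647892992)) (T.h (P (nat_lit 0)) (P (nat_lit 724853574919152)))))) (T.h (P (nat_lit 0)) (T.h (T.h (M (nat_lit 10152285000142159871)) (T.h (P (nat_lit 0)) (P (nat_lit 871940962933920)))) (T.h (P (nat_lit 0)) (M (nat_lit 48090083543279)))))))) (T.h (T.h (P (nat_lit 0)) (T.h (T.h (P (nat_lit 0)) (T.h (M (nat_lit 15720829254011153547263)) (T.h (P (nat_lit 0)) (M (nat_lit 167729696344506367))))) (T.h (P (nat_lit 0)) (T.h (T.h (P (nat_lit 0)) (M (nat_lit 220461292208062463))) (P (nat_lit 0)))))) (T.h (T.h (T.h (P (nat_lit 33805788263958837123350528)) (T.h (P (nat_lit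 0)) (T.h (P (nat_lit 38408148355330867200)) (T.h (P (nat_lit 0)) (P (nat_lit 235108562050512)))))) (T.h (P (nat_lit 0)) (T.h (T.h (P (nat_lit 18946603044034314240)) (T.h (P (nat_lit 0)) (P (nat_lit 15425047489248)))) (T.h (P (nat_lit 0)) (P (nat_lit 236063081848752)))))) (T.h (T.h (P (nat_lit 0)) (T.h (T.h (P (nat_lit 0)) (M (nat_lit 101880128713752575))) (P (nat_lit 0)))) (T.h (T.h (T.h (M (nat_lit 10211001621526085631)) (T.h (P (nat_lit 0)) (P (nat_lit 6266323263456)))) (T.h (P (nat_lit 0)) (M (nat_lit 97449469217855)))) (T.h (P (nat_lit 0)) (P (nat_lit 12869594454240)))))))), (T.h (T.h (T.h (P (nat_lit 0)) (T.h (P (nat_lit 1388872802706113833549692928)) (T.h (P (nat_lit 0)) (T.h (P (nat_lit 74920589271901388406784)) (T.h (P (nat_lit 0)) (P (nat_lit 200522911912558592))))))) (T.h (P (nat_lit 0)) (T.h (T.h (P (nat_lit 0)) (T.h (M (nat_lit 169228850840438533259263)) (T.h (P (nat_lit 0)) (M (nat_lit 637517929250750463))))) (T.h (P (nat_lit 0)) (T.h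 (T.h (P (nat_lit 0)) (M (nat_lit 430862760275705855))) (P (nat_lit 0))))))) (T.h (T.h (P (nat_lit 0)) (T.h (T.h (M (nat_lit 15756539649685463723147263)) (T.h (P (nat_lit 0)) (P (nat_lit 40276694820655726592)))) (T.h (P (nat_lit 0)) (M (nat_lit 17859271203097673727))))) (T.h (T.h (T.h (P (nat_lit 0)) (T.h (P (nat_lit 10536253322663649345536)) (T.h (P (nat_lit 0)) (M (nat_lit 205977163513462783))))) (T.h (P (nat_lit 0)) (T.h (T.h (P (nat_lit 0)) (P (nat_lit 8865754401996800))) (P (nat_lit 0))))) (T.h (T.h (P (nat_lit 0)) (P (nat_lit 15989594025086681088))) (T.h (T.h (T.h (P (nat_lit 0)) (M (nat_lit 71259882152165375))) (P (nat_lit 0))) (P (nat_lit 0))))))), (T.h (T.h (P (nat_lit 0)) (T.h (T.h (P (nat_lit 1946743424394142825588981760)) (T.h (P (nat_lit 0)) (T.h (M (nat_lit 224637929717713661329407)) (T.h (P (nat_lit 0)) (M (nat_lit 309328723905347583)))))) (T.h (P (nat_lit 0)) (T.h (T.h (M (nat_lit 34797644328555486642175)) (T.h (P (nat_lit 0)) (M (nat_lit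 799607449830686719)))) (T.h (P (nat_lit 0)) (P (nat_lit 78678102028189696))))))) (T.h (T.h (T.h (P (nat_lit 0)) (T.h (P (nat_lit 31209864530776429892206592)) (T.h (P (nat_lit 0)) (P (nat_lit 31772967205097963520))))) (T.h (P (nat_lit 0)) (T.h (T.h (P (nat_lit 0)) (P (nat_lit 423209702805559312384))) (P (nat_lit 0))))) (T.h (T.h (P (nat_lit 0)) (T.h (T.h (M (nat_lit 118656699405318345457663)) (T.h (P (nat_lit 0)) (M (nat_lit 69917546504617983)))) (T.h (P (nat_lit 0)) (M (nat_lit 182651378143035391))))) (T.h (T.h (T.h (P (nat_lit 0)) (P (nat_lit 10321832204828672000))) (P (nat_lit 0))) (T.h (T.h (P (nat_lit 0)) (M (nat_lit 16759833923158015))) (P (nat_lit 0))))))), (T.h (T.h (P (nat_lit 0)) (T.h (T.h (P (nat_lit 0)) (T.h (M (nat_lit 6097722714123760383819775)) (T.h (P (nat_lit 0)) (T.h (P (nat_lit 27470699705940312064)) (T.h (P (nat_lit 0)) (P (nat_lit 11532992765952))))))) (T.h (P (nat_lit 0)) (T.h (T.h (P (nat_lit 0)) (T.h (P (nat_lit 10996160748979224576))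 (T.h (P (nat_lit 0)) (P (nat_lit 60639230622912))))) (T.h (P (nat_lit 0)) (T.h (T.h (P (nat_lit 0)) (P (nat_lit 11532992765952))) (P (nat_lit 0)))))))) (T.h (T.h (T.h (M (nat_lit 1772719709271470377478914047)) (T.h (P (nat_lit 0)) (T.h (M (nat_lit 14350093689450101997567)) (T.h (P (nat_lit 0)) (P (nat_lit 28449082768031744)))))) (T.h (P (nat_lit 0)) (T.h (T.h (M (nat_lit 6654861781713964498943)) (T.h (P (nat_lit 0)) (M (nat_lit 5990814857822207)))) (T.h (P (nat_lit 0)) (P (nat_lit 29605169527062528)))))) (T.h (T.h (P (nat_lit 0)) (T.h (T.h (P (nat_lit 0)) (T.h (P (nat_lit 12972542331520548864)) (T.h (P (nat_lit 0)) (M (nat_lit 32747249506607))))) (T.h (P (nat_lit 0)) (T.h (T.h (P (nat_lit 0)) (M (nat_lit 32747249506607))) (P (nat_lit 0)))))) (T.h (T.h (T.h (M (nat_lit 10151113502918493339647)) (T.h (P (nat_lit 0)) (P (nat_lit 6165034883907584)))) (T.h (P (nat_lit 0)) (M (nat_lit 5931687478722559)))) (T.h (T.h (P (nat_lit 0)) (T.h (T.h (P (nat_lit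 0)) (P (nat_lit 40018750807968))) (P (nat_lit 0)))) (M (nat_lit 7951400904425471))))))), (T.h (T.h (P (nat_lit 0)) (T.h (T.h (M (nat_lit 20545763807070606543294562303)) (T.h (P (nat_lit 0)) (T.h (P (nat_lit 18225494033046599368704)) (T.h (P (nat_lit 0)) (P (nat_lit 79124825958711296)))))) (T.h (P (nat_lit 0)) (T.h (T.h (M (nat_lit 19160979863630824603647)) (T.h (P (nat_lit 0)) (P (nat_lit 54131820061376512)))) (T.h (P (nat_lit 0)) (M (nat_lit 14971273895362559))))))) (T.h (T.h (T.h (P (nat_lit 0)) (T.h (P (nat_lit 30576525179669562771111936)) (T.h (P (nat_lit 0)) (T.h (M (nat_lit 14785903864523522047)) (T.h (P (nat_lit 0)) (M (nat_lit 38574100311983))))))) (T.h (P (nat_lit 0)) (T.h (T.h (P (nat_lit 0)) (T.h (M (nat_lit 60109996656355704831)) (T.h (P (nat_lit 0)) (P (nat_lit 22287634534368))))) (T.h (P (nat_lit 0)) (T.h (T.h (P (nat_lit 0)) (M (nat_lit 53556555107663))) (P (nat_lit 0))))))) (T.h (T.h (P (nat_lit 0)) (T.h (T.h (P (nat_lit 12135496075166393303040))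 (T.h (P (nat_lit 0)) (P (nat_lit 43606495874285568)))) (T.h (P (nat_lit 0)) (P (nat_lit 52158500142071808))))) (T.h (T.h (T.h (P (nat_lit 0)) (T.h (M (nat_lit 4299253708392235007)) (T.h (P (nat_lit 0)) (M (nat_lit 11727087712703))))) (T.h (P (nat_lit 0)) (T.h (T.h (P (nat_lit 0)) (P (nat_lit 18560116891440))) (P (nat_lit 0))))) (T.h (T.h (P (nat_lit 0)) (M (nat_lit 35881187698753535))) (T.h (T.h (T.h (P (nat_lit 0)) (P (nat_lit 8704128682512))) (P (nat_lit 0))) (P (nat_lit 0)))))))), (T.h (T.h (P (nat_lit 0)) (T.h (T.h (P (nat_lit 0)) (T.h (M (nat_lit 7968129611153399804329983)) (T.h (P (nat_lit 0)) (M (nat_lit 28918869486353776639))))) (T.h (P (nat_lit 0)) (T.h (T.h (P (nat_lit 0)) (M (nat_lit 34246235936746635263))) (P (nat_lit 0)))))) (T.h (T.h (T.h (M (nat_lit 5287393795622230931927990271)) (T.h (P (nat_lit 0)) (T.h (M (nat_lit 37042947306702845771775)) (T.h (P (nat_lit 0)) (M (nat_lit 17184947940786175)))))) (T.h (P (nat_lit 0)) (T.h (T.h (M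 (nat_lit 11470395129475534684159)) (T.h (P (nat_lit 0)) (M (nat_lit 21820328043151359)))) (T.h (P (nat_lit 0)) (M (nat_lit 48452197856411647)))))) (T.h (T.h (P (nat_lit 0)) (T.h (T.h (P (nat_lit 0)) (P (nat_lit 28063542199158046720))) (P (nat_lit 0)))) (T.h (T.h (T.h (M (nat_lit 10997930159462676430847)) (T.h (P (nat_lit 0)) (P (nat_lit 78374196030734336)))) (T.h (P (nat_lit 0)) (M (nat_lit 28259372670091263)))) (T.h (P (nat_lit 0)) (M (nat_lit 21976945639718911))))))), (T.h (T.h (T.h (P (nat_lit 0)) (T.h (M (nat_lit 20545763807070606543294562303)) (T.h (P (nat_lit 0)) (T.h (M (nat_lit 19160979863630824603647)) (T.h (P (nat_lit 0)) (M (nat_lit 14971273895362559))))))) (T.h (P (nat_lit 0)) (T.h (T.h (P (nat_lit 0)) (T.h (P (nat_lit 18225494033046599368704)) (T.h (P (nat_lit 0)) (P (nat_lit 54131820061376512))))) (T.h (P (nat_lit 0)) (T.h (T.h (P (nat_lit 0)) (P (nat_lit 79124825958711296))) (P (nat_lit 0))))))) (T.h (T.h (P (nat_lit 0)) (T.h (T.h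 (P (nat_lit 30576525179669562771111936)) (T.h (P (nat_lit 0)) (T.h (M (nat_lit 60109996656355704831)) (T.h (P (nat_lit 0)) (M (nat_lit 53556555107663)))))) (T.h (P (nat_lit 0)) (T.h (T.h (M (nat_lit 14785903864523522047)) (T.h (P (nat_lit 0)) (P (nat_lit 22287634534368)))) (T.h (P (nat_lit 0)) (M (nat_lit 38574100311983))))))) (T.h (T.h (T.h (P (nat_lit 0)) (T.h (P (nat_lit 12135496075166393303040)) (T.h (P (nat_lit 0)) (P (nat_lit 52158500142071808))))) (T.h (P (nat_lit 0)) (T.h (T.h (P (nat_lit 0)) (P (nat_lit 43606495874285568))) (P (nat_lit 0))))) (T.h (T.h (P (nat_lit 0)) (T.h (T.h (M (nat_lit 4299253708392235007)) (T.h (P (nat_lit 0)) (P (nat_lit 18560116891440)))) (T.h (P (nat_lit 0)) (M (nat_lit 11727087712703))))) (T.h (T.h (T.h (P (nat_lit 0)) (M (nat_lit 35881187698753535))) (P (nat_lit 0))) (T.h (T.h (P (nat_lit 0)) (P (nat_lit 8704128682512))) (P (nat_lit 0))))))))]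
def lP11_41 : List (T ℤ) := [(T.h (T.h (T.h (P (nat_lit 12287190180425606716005116018688)) (T.h (P (nat_lit 0)) (T.h (M (nat_lit 822633096902632366145535)) (T.h (P (nat_lit 0)) (M (nat_lit 6177230466576285695)))))) (T.h (P (nat_lit 0)) (T.h (T.h (M (nat_lit 822633096902632366145535)) (T.h (P (nat_lit 0)) (M (nat_lit 183649484888055218175)))) (T.h (P (nat_lit 0)) (M (nat_lit 6177230466576285695)))))) (T.h (T.h (P (nat_lit 0)) (T.h (T.h (P (nat_lit 0)) (T.h (P (nat_lit 126306685842223500623872)) (T.h (P (nat_lit 0)) (P (nat_lit 56164324190060544))))) (T.h (P (nat_lit 0)) (T.h (T.h (P (nat_lit 0)) (P (nat_lit 56164324190060544))) (P (nat_lit 0)))))) (T.h (T.h (T.h (M (nat_lit 3836605376147847800422399)) (T.h (P (nat_lit 0)) (M (nat_lit 65115326894967881727)))) (T.h (P (nat_lit 0)) (M (nat_lit 65115326894967881727)))) (T.h (T.h (P (nat_lit 0)) (T.h (T.h (P (nat_lit 0)) (M (nat_lit 101851870552260607))) (P (nat_lit 0)))) (M (nat_lit 34747549758858985471)))))),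 (T.h (T.h (P (nat_lit 0)) (T.h (T.h (P (nat_lit 0)) (T.h (M (nat_lit 2659624865460651913379839)) (T.h (P (nat_lit 0)) (M (nat_lit 19608532925517135871))))) (T.h (P (nat_lit 0)) (T.h (T.h (P (nat_lit 0)) (M (nat_lit 14281166475124277247))) (P (nat_lit 0)))))) (T.h (T.h (T.h (M (nat_lit 10614761242930332693178613759)) (T.h (P (nat_lit 0)) (T.h (M (nat_lit 21824008348600161533951)) (T.h (P (nat_lit 0)) (M (nat_lit 94813427255377919)))))) (T.h (P (nat_lit 0)) (T.h (T.h (M (nat_lit 47396560525827472621567)) (T.h (P (nat_lit 0)) (M (nat_lit 22235135677235199)))) (T.h (P (nat_lit 0)) (M (nat_lit 63546177339752447)))))) (T.h (T.h (P (nat_lit 0)) (T.h (T.h (P (nat_lit 0)) (P (nat_lit 17235806462521901056))) (P (nat_lit 0)))) (T.h (T.h (T.h (P (nat_lit 390231007182503018496)) (T.h (P (nat_lit 0)) (M (nat_lit 9927204396433407)))) (T.h (P (nat_lit 0)) (P (nat_lit 96706364304392192)))) (T.h (P (nat_lit 0)) (M (nat_lit 19551959132831743))))))), (T.h (T.h (T.h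 (M (nat_lit 99909648655724536380581048483839)) (T.h (P (nat_lit 0)) (T.h (P (nat_lit 1537303026863677219274752)) (T.h (P (nat_lit 0)) (T.h (M (nat_lit 7478722740816445439)) (T.h (P (nat_lit 0)) (M (nat_lit 56803544022671)))))))) (T.h (P (nat_lit 0)) (T.h (T.h (P (nat_lit 1537303026863677219274752)) (T.h (P (nat_lit 0)) (T.h (P (nat_lit 170199004916551254016)) (T.h (P (nat_lit 0)) (P (nat_lit 372699232900704)))))) (T.h (P (nat_lit 0)) (T.h (T.h (M (nat_lit 7478722740816445439)) (T.h (P (nat_lit 0)) (P (nat_lit 372699232900704)))) (T.h (P (nat_lit 0)) (M (nat_lit 56803544022671)))))))) (T.h (T.h (P (nat_lit 0)) (T.h (T.h (P (nat_lit 0)) (T.h (M (nat_lit 24792577964494502756351)) (T.h (P (nat_lit 0)) (M (nat_lit 41970387647889407))))) (T.h (P (nat_lit 0)) (T.h (T.h (P (nat_lit 0)) (M (nat_lit 41970387647889407))) (P (nat_lit 0)))))) (T.h (T.h (T.h (P (nat_lit 10438904556057964207669248)) (T.h (P (nat_lit 0)) (T.h (P (nat_lit 3858024237247758336)) (T.h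 (P (nat_lit 0)) (P (nat_lit 101867935691088)))))) (T.h (P (nat_lit 0)) (T.h (T.h (P (nat_lit 3858024237247758336)) (T.h (P (nat_lit 0)) (P (nat_lit 911442555360)))) (T.h (P (nat_lit 0)) (P (nat_lit 101867935691088)))))) (T.h (T.h (P (nat_lit 0)) (T.h (T.h (P (nat_lit 0)) (M (nat_lit 38777993416015871))) (P (nat_lit 0)))) (T.h (T.h (T.h (M (nat_lit 3079660293249302527)) (T.h (P (nat_lit 0)) (M (nat_lit 20140321589711)))) (T.h (P (nat_lit 0)) (M (nat_lit 20140321589711)))) (T.h (P (nat_lit 0)) (M (nat_lit 1776113164223)))))))), (T.h (T.h (T.h (P (nat_lit 0)) (T.h (P (nat_lit 2431989740396183413638299648)) (T.h (P (nat_lit 0)) (T.h (P (nat_lit 13155666161854431887360)) (T.h (P (nat_lit 0)) (P (nat_lit 86333522932170752))))))) (T.h (P (nat_lit 0)) (T.h (T.h (P (nat_lit 0)) (T.h (M (nat_lit 67764700985457142398975)) (T.h (P (nat_lit 0)) (M (nat_lit 344310799049883647))))) (T.h (P (nat_lit 0)) (T.h (T.h (P (nat_lit 0)) (M (nat_lit 157432470344531967)))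 (P (nat_lit 0))))))) (T.h (T.h (P (nat_lit 0)) (T.h (T.h (P (nat_lit 2731529024111075150266368)) (T.h (P (nat_lit 0)) (P (nat_lit 43502318328160976896)))) (T.h (P (nat_lit 0)) (M (nat_lit 14446821862908362751))))) (T.h (T.h (T.h (P (nat_lit 0)) (T.h (M (nat_lit 2389731705158014861311)) (T.h (P (nat_lit 0)) (M (nat_lit 84716766919393279))))) (T.h (P (nat_lit 0)) (T.h (T.h (P (nat_lit 0)) (M (nat_lit 13085180765306879))) (P (nat_lit 0))))) (T.h (T.h (P (nat_lit 0)) (P (nat_lit 2922520119437426688))) (T.h (T.h (T.h (P (nat_lit 0)) (M (nat_lit 737280053051391))) (P (nat_lit 0))) (P (nat_lit 0))))))), (T.h (T.h (P (nat_lit 0)) (T.h (T.h (P (nat_lit 2431989740396183413638299648)) (T.h (P (nat_lit 0)) (T.h (M (nat_lit 67764700985457142398975)) (T.h (P (nat_lit 0)) (M (nat_lit 157432470344531967)))))) (T.h (P (nat_lit 0)) (T.h (T.h (P (nat_lit 13155666161854431887360)) (T.h (P (nat_lit 0)) (M (nat_lit 344310799049883647)))) (T.h (P (nat_lit 0)) (P (nat_lit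 86333522932170752))))))) (T.h (T.h (T.h (P (nat_lit 0)) (T.h (P (nat_lit 2731529024111075150266368)) (T.h (P (nat_lit 0)) (M (nat_lit 14446821862908362751))))) (T.h (P (nat_lit 0)) (T.h (T.h (P (nat_lit 0)) (P (nat_lit 43502318328160976896))) (P (nat_lit 0))))) (T.h (T.h (P (nat_lit 0)) (T.h (T.h (M (nat_lit 2389731705158014861311)) (T.h (P (nat_lit 0)) (M (nat_lit 13085180765306879)))) (T.h (P (nat_lit 0)) (M (nat_lit 84716766919393279))))) (T.h (T.h (T.h (P (nat_lit 0)) (P (nat_lit 2922520119437426688))) (P (nat_lit 0))) (T.h (T.h (P (nat_lit 0)) (M (nat_lit 737280053051391))) (P (nat_lit 0))))))), (T.h (T.h (P (nat_lit 0)) (T.h (T.h (P (nat_lit 0)) (T.h (P (nat_lit 5308504745692747890950144)) (T.h (P (nat_lit 0)) (P (nat_lit 14637703011229499392))))) (T.h (P (nat_lit 0)) (T.h (T.h (P (nat_lit 0)) (P (nat_lit 14637703011229499392))) (P (nat_lit 0)))))) (T.h (T.h (T.h (M (nat_lit 5327367447308101761250623487)) (T.h (P (nat_lit 0)) (T.h (M (nat_lit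 10353613219124626849791)) (T.h (P (nat_lit 0)) (M (nat_lit 46361229398966271)))))) (T.h (P (nat_lit 0)) (T.h (T.h (M (nat_lit 10353613219124626849791)) (T.h (P (nat_lit 0)) (M (nat_lit 414807634083839)))) (T.h (P (nat_lit 0)) (M (nat_lit 46361229398966271)))))) (T.h (T.h (P (nat_lit 0)) (T.h (T.h (P (nat_lit 0)) (M (nat_lit 10827735736636145663))) (P (nat_lit 0)))) (T.h (T.h (T.h (P (nat_lit 11388161166645179449344)) (T.h (P (nat_lit 0)) (P (nat_lit 18332168273657856)))) (T.h (P (nat_lit 0)) (P (nat_lit 18332168273657856)))) (T.h (P (nat_lit 0)) (P (nat_lit 2424986506887168)))))))]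

def CP11 : List (T ℤ) := lP11_0 ++ (lP11_1 ++ (lP11_2 ++ (lP11_3 ++ (lP11_4 ++ (lP11_5 ++ (lP11_6 ++ (lP11_7 ++ (lP11_8 ++ (lP11_9 ++ (lP11_10 ++ (lP11_11 ++ (lP11_12 ++ (lP11_13 ++ (lP11_14 ++ (lP11_15 ++ (lP11_16 ++ (lP11_17 ++ (lP11_18 ++ (lP11_19 ++ (lP11_20 ++ (lP11_21 ++ (lP11_22 ++ (lP11_23 ++ (lP11_24 ++ (lP11_25 ++ (lP11_26 ++ (lP11_27 ++ (lP11_28 ++ (lP11_29 ++ (lP11_30 ++ (lP11_31 ++ (lP11_32 ++ (lP11_33 ++ (lP11_34 ++ (lP11_35 ++ (lP11_36 ++ (lP11_37 ++ (lP11_38 ++ (lP11_39 ++ (lP11_40 ++ (lP11_41)))))))))))))))))))))))))))))))))))))))))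

/-- norms at radius 1536 -/
def NP11 : List ℕ := [(nat_lit 0), (nat_lit 0), (nat_lit 0), (nat_lit 0), (nat_lit 0), (nat_lit 0), (nat_lit 0), (nat_lit 0), (nat_lit 0), (nat_lit 0), (nat_lit 0), (nat_lit 0), (nat_lit 0), (nat_lit 0), (nat_lit 0), (nat_lit 0), (nat_lit 0), (nat_lit 4410501400340933843783516160000), (nat_lit 0), (nat_lit 0), (nat_lit 3756223005252276718210835665649664), (nat_lit 17177189557392064103058850197798912), (nat_lit 3620232047391109209893500820127744), (nat_lit 16882310440714948756570631321944064), (nat_lit 1490753395256961924432558808891392), (nat_lit 0), (nat_lit 0), (nat_lit 2969041804505740692621462519939072), (nat_lit 3857606081888531261021123474620416), (nat_lit 9052407288532190030492060847439872), (nat_lit 5131500821166008947278716162015232), (nat_lit 6521345579313661719493692610314240), (nat_lit 0), (nat_lit 0), (nat_lit 3628007854245007948250249491906560), (nat_lit 7221372459522447028710201656082432), (nat_lit 8004105252429922702813890185527296),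 (nat_lit 22763389126611327784254947941416960), (nat_lit 2597724830614576168184769140490240), (nat_lit 0), (nat_lit 0), (nat_lit 3628007854245007948250249491906560), (nat_lit 9692352166873114829935389267984384), (nat_lit 12604708284404203975392225593917440), (nat_lit 11730946799148526506464012641763328), (nat_lit 10360602026175524279714487969251328), (nat_lit 0), (nat_lit 2969041804505740692621462519939072), (nat_lit 7221372459522447028710201656082432), (nat_lit 12604708284404203975392225593917440), (nat_lit 16821195587341387545236495849750528), (nat_lit 5860242875994006585834733433782272), (nat_lit 3756223005252276718210835665649664), (nat_lit 3857606081888531261021123474620416), (nat_lit 8004105252429922702813890185527296), (nat_lit 11730946799148526506464012641763328), (nat_lit 5860242875994006585834733433782272), (nat_lit 17177189557392064103058850197798912), (nat_lit 9052407288532190030492060847439872), (nat_lit 22763389126611327784254947941416960),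 (nat_lit 10360602026175524279714487969251328), (nat_lit 3620232047391109209893500820127744), (nat_lit 5131500821166008947278716162015232), (nat_lit 2597724830614576168184769140490240), (nat_lit 16882310440714948756570631321944064), (nat_lit 6521345579313661719493692610314240), (nat_lit 1490753395256961924432558808891392), (nat_lit 0), (nat_lit 0), (nat_lit 0), (nat_lit 0), (nat_lit 0), (nat_lit 0), (nat_lit 0), (nat_lit 0), (nat_lit 0), (nat_lit 1155732181557395829796195849469952), (nat_lit 0), (nat_lit 731817200072810317596127616040960), (nat_lit 0), (nat_lit 0), (nat_lit 0), (nat_lit 0), (nat_lit 4252435629776482651394506418552832), (nat_lit 3857606081888531261021123474620416), (nat_lit 9801332488889751659216121228165120), (nat_lit 5131500821166008947278716162015232), (nat_lit 6521345579313661719493692610314240), (nat_lit 0), (nat_lit 0), (nat_lit 4508187513925934191590905223315456), (nat_lit 4369637692958130344958145962442752), (nat_lit 6966626326730679643297377041776640),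 (nat_lit 8741251812767513401666278550142976), (nat_lit 4323468627024796083222887440318464), (nat_lit 0), (nat_lit 0), (nat_lit 8324406753164789809936767834390528), (nat_lit 5300554311406679640570519242145792), (nat_lit 9630389883438412764838229874573312), (nat_lit 13759721456759856474476424443461632), (nat_lit 8441587529125923319536890406764544), (nat_lit 0), (nat_lit 5914259157720683232552521727737856), (nat_lit 5300554311406679640570519242145792), (nat_lit 9204848160725936457174161878417408), (nat_lit 15940606710849970641926901781757952), (nat_lit 6781224102923839309586131817857024), (nat_lit 3996984457372215462631370448175104), (nat_lit 4369637692958130344958145962442752), (nat_lit 9763113429989002159573821938466816), (nat_lit 15940606710849970641926901781757952), (nat_lit 7880726512684543243002803656851456), (nat_lit 3857606081888531261021123474620416), (nat_lit 7549501949730544193060250348158976), (nat_lit 13759721456759856474476424443461632),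 (nat_lit 6781224102923839309586131817857024), (nat_lit 9447187849459326585988581131550720), (nat_lit 8741251812767513401666278550142976), (nat_lit 8441587529125923319536890406764544), (nat_lit 5131500821166008947278716162015232), (nat_lit 4323468627024796083222887440318464), (nat_lit 6521345579313661719493692610314240), (nat_lit 4410501400340933843783516160000), (nat_lit 0), (nat_lit 0), (nat_lit 3756223005252276718210835665649664), (nat_lit 17177189557392064103058850197798912), (nat_lit 3620232047391109209893500820127744), (nat_lit 16882310440714948756570631321944064), (nat_lit 1490753395256961924432558808891392), (nat_lit 0), (nat_lit 0), (nat_lit 4252435629776482651394506418552832), (nat_lit 3857606081888531261021123474620416), (nat_lit 9801332488889751659216121228165120), (nat_lit 5131500821166008947278716162015232), (nat_lit 6521345579313661719493692610314240), (nat_lit 0), (nat_lit 0), (nat_lit 12204786715904227185327239445086208), (nat_lit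 10865675718187674189913696298336256), (nat_lit 8781705626500823506176903305232384), (nat_lit 43681919609900578550433088568033280), (nat_lit 4229001450132292342001344261914624), (nat_lit 0), (nat_lit 0), (nat_lit 6741216525583221771322028351029248), (nat_lit 10372897955807060942180835919921152), (nat_lit 18617619380788656997787327067586560), (nat_lit 18974660611725011042701490163548160), (nat_lit 17693557841085872879791163874213888), (nat_lit 0), (nat_lit 7104610681969066356710181156421632), (nat_lit 7704709989513130686063465920987136), (nat_lit 24413844302170889330803190720888832), (nat_lit 22978538613634100076373188714430464), (nat_lit 10517758597255993659097934444101632), (nat_lit 5330147766158530452671989102411776), (nat_lit 6677217110626565398506109994532864), (nat_lit 22284574931306703283729695057641472), (nat_lit 21613747660074617338541511014350848), (nat_lit 10889019650587715920610957344112640), (nat_lit 21933110827910882304036181710471168),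 (nat_lit 16576532011941826883958465733066752), (nat_lit 35839653114034896009548894870437888), (nat_lit 14636645605348341028418159552495616), (nat_lit 7644920837023725403945246736252928), (nat_lit 16989624976649731330470705497112576), (nat_lit 9777343601064459801569931785404416), (nat_lit 38760947938033242772596867448438784), (nat_lit 14669858634630277319371098691731456), (nat_lit 3182329644287557604362584456167424), (nat_lit 0), (nat_lit 0), (nat_lit 2969041804505740692621462519939072), (nat_lit 3857606081888531261021123474620416), (nat_lit 9052407288532190030492060847439872), (nat_lit 5131500821166008947278716162015232), (nat_lit 6521345579313661719493692610314240), (nat_lit 0), (nat_lit 0), (nat_lit 4508187513925934191590905223315456), (nat_lit 4369637692958130344958145962442752), (nat_lit 6966626326730679643297377041776640), (nat_lit 8741251812767513401666278550142976), (nat_lit 4323468627024796083222887440318464), (nat_lit 0), (nat_lit 0), (nat_lit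 6741216525583221771322028351029248), (nat_lit 10372897955807060942180835919921152), (nat_lit 18617619380788656997787327067586560), (nat_lit 18974660611725011042701490163548160), (nat_lit 17693557841085872879791163874213888), (nat_lit 0), (nat_lit 10849547256749458162748213088485376), (nat_lit 9336354467530894352006942640046080), (nat_lit 26955387298648881461674283297144832), (nat_lit 29289259882154834595200592632610816), (nat_lit 13478929843555731961103569922293760), (nat_lit 8063698831263353673369072376479744), (nat_lit 5916265959358518474231651634249728), (nat_lit 22850981000899846670979610101940224), (nat_lit 36763406613101815899258460015951872), (nat_lit 16285525138790397419511371242930176), (nat_lit 12632501436586401458926227598344192), (nat_lit 14560690725358383127853861949145088), (nat_lit 38349341355294778205571613445849088), (nat_lit 27124162965182065796178250465017856), (nat_lit 18452617236983883597036339496747008), (nat_lit 17395213763238630749063077422956544),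 (nat_lit 17557966655296856236788991307808768), (nat_lit 13995259202567068231320680578154496), (nat_lit 10047834135440774117054677063303168), (nat_lit 16493373138578025012000207075803136), (nat_lit 0), (nat_lit 0), (nat_lit 3628007854245007948250249491906560), (nat_lit 7221372459522447028710201656082432), (nat_lit 8004105252429922702813890185527296), (nat_lit 22763389126611327784254947941416960), (nat_lit 2597724830614576168184769140490240), (nat_lit 0), (nat_lit 0), (nat_lit 8324406753164789809936767834390528), (nat_lit 5300554311406679640570519242145792), (nat_lit 9630389883438412764838229874573312), (nat_lit 13759721456759856474476424443461632), (nat_lit 8441587529125923319536890406764544), (nat_lit 0), (nat_lit 7104610681969066356710181156421632), (nat_lit 7704709989513130686063465920987136), (nat_lit 24413844302170889330803190720888832), (nat_lit 22978538613634100076373188714430464), (nat_lit 10517758597255993659097934444101632), (nat_lit 8063698831263353673369072376479744),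 (nat_lit 5916265959358518474231651634249728), (nat_lit 22850981000899846670979610101940224), (nat_lit 36763406613101815899258460015951872), (nat_lit 16285525138790397419511371242930176), (nat_lit 13906166969806175850486229805039616), (nat_lit 17893274794594409485568361275326464), (nat_lit 38563131199267962786874276041457664), (nat_lit 23821597515032153782948675058663424), (nat_lit 16946128449781532187680605080649728), (nat_lit 23215910536544715799542963728547840), (nat_lit 21423072117307265454349129076441088), (nat_lit 38262956877258375009375187795705856), (nat_lit 15969459353307917165164299678646272), (nat_lit 8129275937722693002468490544676864), (nat_lit 0), (nat_lit 0), (nat_lit 3628007854245007948250249491906560), (nat_lit 9692352166873114829935389267984384), (nat_lit 12604708284404203975392225593917440), (nat_lit 11730946799148526506464012641763328), (nat_lit 10360602026175524279714487969251328), (nat_lit 0), (nat_lit 5914259157720683232552521727737856),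 (nat_lit 5300554311406679640570519242145792), (nat_lit 9204848160725936457174161878417408), (nat_lit 15940606710849970641926901781757952), (nat_lit 6781224102923839309586131817857024), (nat_lit 5330147766158530452671989102411776), (nat_lit 6677217110626565398506109994532864), (nat_lit 22284574931306703283729695057641472), (nat_lit 21613747660074617338541511014350848), (nat_lit 10889019650587715920610957344112640), (nat_lit 12632501436586401458926227598344192), (nat_lit 14560690725358383127853861949145088), (nat_lit 38349341355294778205571613445849088), (nat_lit 27124162965182065796178250465017856), (nat_lit 16946128449781532187680605080649728), (nat_lit 23215910536544715799542963728547840), (nat_lit 21423072117307265454349129076441088), (nat_lit 20947335976232733928608263974158336), (nat_lit 12660526145336124100267922123915264), (nat_lit 16045997195009981693480229987680256), (nat_lit 0), (nat_lit 2969041804505740692621462519939072), (nat_lit 7221372459522447028710201656082432),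 (nat_lit 12604708284404203975392225593917440), (nat_lit 16821195587341387545236495849750528), (nat_lit 5860242875994006585834733433782272), (nat_lit 3996984457372215462631370448175104), (nat_lit 4369637692958130344958145962442752), (nat_lit 9763113429989002159573821938466816), (nat_lit 15940606710849970641926901781757952), (nat_lit 7880726512684543243002803656851456), (nat_lit 21933110827910882304036181710471168), (nat_lit 16576532011941826883958465733066752), (nat_lit 35839653114034896009548894870437888), (nat_lit 14636645605348341028418159552495616), (nat_lit 18452617236983883597036339496747008), (nat_lit 17395213763238630749063077422956544), (nat_lit 17557966655296856236788991307808768), (nat_lit 38262956877258375009375187795705856), (nat_lit 15969459353307917165164299678646272), (nat_lit 16045997195009981693480229987680256), (nat_lit 3756223005252276718210835665649664), (nat_lit 3857606081888531261021123474620416), (nat_lit 8004105252429922702813890185527296),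 (nat_lit 11730946799148526506464012641763328), (nat_lit 5860242875994006585834733433782272), (nat_lit 3857606081888531261021123474620416), (nat_lit 7549501949730544193060250348158976), (nat_lit 13759721456759856474476424443461632), (nat_lit 6781224102923839309586131817857024), (nat_lit 7644920837023725403945246736252928), (nat_lit 16989624976649731330470705497112576), (nat_lit 9777343601064459801569931785404416), (nat_lit 13995259202567068231320680578154496), (nat_lit 10047834135440774117054677063303168), (nat_lit 8129275937722693002468490544676864), (nat_lit 17177189557392064103058850197798912), (nat_lit 9052407288532190030492060847439872), (nat_lit 22763389126611327784254947941416960), (nat_lit 10360602026175524279714487969251328), (nat_lit 9447187849459326585988581131550720), (nat_lit 8741251812767513401666278550142976), (nat_lit 8441587529125923319536890406764544), (nat_lit 38760947938033242772596867448438784), (nat_lit 14669858634630277319371098691731456),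 (nat_lit 16493373138578025012000207075803136), (nat_lit 3620232047391109209893500820127744), (nat_lit 5131500821166008947278716162015232), (nat_lit 2597724830614576168184769140490240), (nat_lit 5131500821166008947278716162015232), (nat_lit 4323468627024796083222887440318464), (nat_lit 3182329644287557604362584456167424), (nat_lit 16882310440714948756570631321944064), (nat_lit 6521345579313661719493692610314240), (nat_lit 6521345579313661719493692610314240), (nat_lit 1490753395256961924432558808891392)]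


def lP12_0 : List (T ℤ) := [(P (nat_lit 0)), (P (nat_lit 0)), (P (nat_lit 0)), (P (nat_lit 0)), (P (nat_lit 0)), (P (nat_lit 0)), (P (nat_lit 0)), (P (nat_lit 0))]
def lP12_1 : List (T ℤ) := [(P (nat_lit 0)), (M (nat_lit 4410501400340933843783516159999)), (P (nat_lit 0)), (P (nat_lit 0)), (T.h (T.h (T.h (P (nat_lit 0)) (T.h (P (nat_lit 7100087156579572138729537536)) (T.h (P (nat_lit 0)) (T.h (M (nat_lit 1237047663726686109695)) (T.h (P (nat_lit 0)) (P (nat_lit 5526414397538304))))))) (T.h (P (nat_lit 0)) (T.h (T.h (P (nat_lit 0)) (T.h (P (nat_lit 23223723856033470218240)) (T.h (P (nat_lit 0)) (M (nat_lit 21981539607871487))))) (T.h (P (nat_lit 0)) (T.h (T.h (P (nat_lit 0)) (P (nat_lit 18968879967698944))) (P (nat_lit 0))))))) (T.h (T.h (P (nat_lit 0)) (T.h (T.h (P (nat_lit 789217968431012492869632)) (T.h (P (nat_lit 0)) (T.h (M (nat_lit 2144806594884403199)) (T.h (P (nat_lit 0)) (M (nat_lit 40018750807967)))))) (T.h (P (nat_lit 0)) (T.h (T.h (M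 (nat_lit 41432928862544592895)) (T.h (P (nat_lit 0)) (P (nat_lit 36776393580296)))) (T.h (P (nat_lit 0)) (M (nat_lit 11610110242455))))))) (T.h (T.h (T.h (P (nat_lit 0)) (T.h (P (nat_lit 18488458053379849977856)) (T.h (P (nat_lit 0)) (M (nat_lit 14916144344629247))))) (T.h (P (nat_lit 0)) (T.h (T.h (P (nat_lit 0)) (P (nat_lit 6405622491906048))) (P (nat_lit 0))))) (T.h (T.h (P (nat_lit 0)) (T.h (T.h (M (nat_lit 26309337614833942527)) (T.h (P (nat_lit 0)) (P (nat_lit 28718105432920)))) (T.h (P (nat_lit 0)) (M (nat_lit 60639230622911))))) (T.h (T.h (T.h (P (nat_lit 0)) (P (nat_lit 15699326535139328))) (P (nat_lit 0))) (T.h (T.h (P (nat_lit 0)) (M (nat_lit 11455875289447))) (P (nat_lit 0)))))))), (T.h (T.h (T.h (P (nat_lit 105277720930526967885496854773760)) (T.h (P (nat_lit 0)) (T.h (M (nat_lit 9691530957154133055897599)) (T.h (P (nat_lit 0)) (T.h (P (nat_lit 1752219728941678592)) (T.h (P (nat_lit 0)) (P (nat_lit 2914549128000)))))))) (T.h (P (nat_lit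 0)) (T.h (T.h (M (nat_lit 1622784108497740811468799)) (T.h (P (nat_lit 0)) (T.h (M (nat_lit 5543786603966627839)) (T.h (P (nat_lit 0)) (P (nat_lit 20467126355184)))))) (T.h (P (nat_lit 0)) (T.h (T.h (P (nat_lit 8780194688519897088)) (T.h (P (nat_lit 0)) (M (nat_lit 104478078703183)))) (T.h (P (nat_lit 0)) (P (nat_lit 56203593949792)))))))) (T.h (T.h (P (nat_lit 0)) (T.h (T.h (P (nat_lit 0)) (T.h (P (nat_lit 20667592922045440065536)) (T.h (P (nat_lit 0)) (P (nat_lit 41585837830832128))))) (T.h (P (nat_lit 0)) (T.h (T.h (P (nat_lit 0)) (P (nat_lit 47636208037494784))) (P (nat_lit 0)))))) (T.h (T.h (T.h (M (nat_lit 1622784108497740811468799)) (T.h (P (nat_lit 0)) (T.h (M (nat_lit 5543786603966627839)) (T.h (P (nat_lit 0)) (P (nat_lit 20467126355184)))))) (T.h (P (nat_lit 0)) (T.h (T.h (M (nat_lit 172485376140564758527)) (T.h (P (nat_lit 0)) (P (nat_lit 5095877684832)))) (T.h (P (nat_lit 0)) (M (nat_lit 373272336818415)))))) (T.h (T.h (P (nat_lit 0))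 (T.h (T.h (P (nat_lit 0)) (P (nat_lit 47636208037494784))) (P (nat_lit 0)))) (T.h (T.h (T.h (P (nat_lit 8780194688519897088)) (T.h (P (nat_lit 0)) (M (nat_lit 104478078703183)))) (T.h (P (nat_lit 0)) (M (nat_lit 373272336818415)))) (T.h (P (nat_lit 0)) (P (nat_lit 56203593949792)))))))), (T.h (T.h (T.h (P (nat_lit 0)) (T.h (M (nat_lit 1772719709271470377478914047)) (T.h (P (nat_lit 0)) (T.h (M (nat_lit 10151113502918493339647)) (T.h (P (nat_lit 0)) (M (nat_lit 7951400904425471))))))) (T.h (P (nat_lit 0)) (T.h (T.h (P (nat_lit 0)) (T.h (M (nat_lit 14350093689450101997567)) (T.h (P (nat_lit 0)) (P (nat_lit 6165034883907584))))) (T.h (P (nat_lit 0)) (T.h (T.h (P (nat_lit 0)) (P (nat_lit 28449082768031744))) (P (nat_lit 0))))))) (T.h (T.h (P (nat_lit 0)) (T.h (T.h (M (nat_lit 6097722714123760383819775)) (T.h (P (nat_lit 0)) (T.h (P (nat_lit 12972542331520548864)) (T.h (P (nat_lit 0)) (P (nat_lit 40018750807968)))))) (T.h (P (nat_lit 0)) (T.h (T.h (P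 (nat_lit 27470699705940312064)) (T.h (P (nat_lit 0)) (M (nat_lit 32747249506607)))) (T.h (P (nat_lit 0)) (P (nat_lit 11532992765952))))))) (T.h (T.h (T.h (P (nat_lit 0)) (T.h (M (nat_lit 6654861781713964498943)) (T.h (P (nat_lit 0)) (M (nat_lit 5931687478722559))))) (T.h (P (nat_lit 0)) (T.h (T.h (P (nat_lit 0)) (M (nat_lit 5990814857822207))) (P (nat_lit 0))))) (T.h (T.h (P (nat_lit 0)) (T.h (T.h (P (nat_lit 10996160748979224576)) (T.h (P (nat_lit 0)) (M (nat_lit 32747249506607)))) (T.h (P (nat_lit 0)) (P (nat_lit 60639230622912))))) (T.h (T.h (T.h (P (nat_lit 0)) (P (nat_lit 29605169527062528))) (P (nat_lit 0))) (T.h (T.h (P (nat_lit 0)) (P (nat_lit 11532992765952))) (P (nat_lit 0)))))))), (T.h (T.h (T.h (M (nat_lit 99909648655724536380581048483839)) (T.h (P (nat_lit 0)) (T.h (P (nat_lit 10438904556057964207669248)) (T.h (P (nat_lit 0)) (T.h (M (nat_lit 3079660293249302527)) (T.h (P (nat_lit 0)) (M (nat_lit 1776113164223)))))))) (T.h (P (nat_lit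 0)) (T.h (T.h (P (nat_lit 1537303026863677219274752)) (T.h (P (nat_lit 0)) (T.h (P (nat_lit 3858024237247758336)) (T.h (P (nat_lit 0)) (M (nat_lit 20140321589711)))))) (T.h (P (nat_lit 0)) (T.h (T.h (M (nat_lit 7478722740816445439)) (T.h (P (nat_lit 0)) (P (nat_lit 101867935691088)))) (T.h (P (nat_lit 0)) (M (nat_lit 56803544022671)))))))) (T.h (T.h (P (nat_lit 0)) (T.h (T.h (P (nat_lit 0)) (T.h (M (nat_lit 24792577964494502756351)) (T.h (P (nat_lit 0)) (M (nat_lit 38777993416015871))))) (T.h (P (nat_lit 0)) (T.h (T.h (P (nat_lit 0)) (M (nat_lit 41970387647889407))) (P (nat_lit 0)))))) (T.h (T.h (T.h (P (nat_lit 1537303026863677219274752)) (T.h (P (nat_lit 0)) (T.h (P (nat_lit 3858024237247758336)) (T.h (P (nat_lit 0)) (M (nat_lit 20140321589711)))))) (T.h (P (nat_lit 0)) (T.h (T.h (P (nat_lit 170199004916551254016)) (T.h (P (nat_lit 0)) (P (nat_lit 911442555360)))) (T.h (P (nat_lit 0)) (P (nat_lit 372699232900704)))))) (T.h (T.h (P (nat_lit 0))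 (T.h (T.h (P (nat_lit 0)) (M (nat_lit 41970387647889407))) (P (nat_lit 0)))) (T.h (T.h (T.h (M (nat_lit 7478722740816445439)) (T.h (P (nat_lit 0)) (P (nat_lit 101867935691088)))) (T.h (P (nat_lit 0)) (P (nat_lit 372699232900704)))) (T.h (P (nat_lit 0)) (M (nat_lit 56803544022671))))))))]
def lP12_2 : List (T ℤ) := [(T.h (T.h (T.h (P (nat_lit 0)) (T.h (M (nat_lit 5327367447308101761250623487)) (T.h (P (nat_lit 0)) (T.h (P (nat_lit 11388161166645179449344)) (T.h (P (nat_lit 0)) (P (nat_lit 2424986506887168))))))) (T.h (P (nat_lit 0)) (T.h (T.h (P (nat_lit 0)) (T.h (M (nat_lit 10353613219124626849791)) (T.h (P (nat_lit 0)) (P (nat_lit 18332168273657856))))) (T.h (P (nat_lit 0)) (T.h (T.h (P (nat_lit 0)) (M (nat_lit 46361229398966271))) (P (nat_lit 0))))))) (T.h (T.h (P (nat_lit 0)) (T.h (T.h (P (nat_lit 5308504745692747890950144)) (T.h (P (nat_lit 0)) (M (nat_lit 10827735736636145663)))) (T.h (P (nat_lit 0)) (P (nat_lit 14637703011229499392))))) (T.h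 (T.h (T.h (P (nat_lit 0)) (T.h (M (nat_lit 10353613219124626849791)) (T.h (P (nat_lit 0)) (P (nat_lit 18332168273657856))))) (T.h (P (nat_lit 0)) (T.h (T.h (P (nat_lit 0)) (M (nat_lit 414807634083839))) (P (nat_lit 0))))) (T.h (T.h (P (nat_lit 0)) (P (nat_lit 14637703011229499392))) (T.h (T.h (T.h (P (nat_lit 0)) (M (nat_lit 46361229398966271))) (P (nat_lit 0))) (P (nat_lit 0))))))), (P (nat_lit 0)), (P (nat_lit 0)), (P (nat_lit 0)), (T.h (T.h (P (nat_lit 0)) (T.h (T.h (M (nat_lit 782089061910025663233916927)) (T.h (P (nat_lit 0)) (T.h (P (nat_lit 18063952995519278612480)) (T.h (P (nat_lit 0)) (M (nat_lit 12606398353178623)))))) (T.h (P (nat_lit 0)) (T.h (T.h (M (nat_lit 16426708158251637145599)) (T.h (P (nat_lit 0)) (M (nat_lit 42949802790125567)))) (T.h (P (nat_lit 0)) (M (nat_lit 6131893213822975))))))) (T.h (T.h (T.h (P (nat_lit 0)) (T.h (P (nat_lit 6546479697134641121067008)) (T.h (P (nat_lit 0)) (T.h (M (nat_lit 4787399348545650687)) (T.h (P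 (nat_lit 0)) (M (nat_lit 11650405526287))))))) (T.h (P (nat_lit 0)) (T.h (T.h (P (nat_lit 0)) (T.h (P (nat_lit 24111187067511242752)) (T.h (P (nat_lit 0)) (P (nat_lit 29687087006240))))) (T.h (P (nat_lit 0)) (T.h (T.h (P (nat_lit 0)) (P (nat_lit 17623647717064))) (P (nat_lit 0))))))) (T.h (T.h (P (nat_lit 0)) (T.h (T.h (M (nat_lit 14320835328243459424255)) (T.h (P (nat_lit 0)) (M (nat_lit 26618167397318655)))) (T.h (P (nat_lit 0)) (M (nat_lit 22042204530900991))))) (T.h (T.h (T.h (P (nat_lit 0)) (T.h (P (nat_lit 22831587893463482368)) (T.h (P (nat_lit 0)) (M (nat_lit 23872235273511))))) (T.h (P (nat_lit 0)) (T.h (T.h (P (nat_lit 0)) (M (nat_lit 11967238186615))) (P (nat_lit 0))))) (T.h (T.h (P (nat_lit 0)) (M (nat_lit 8925789642784767))) (T.h (T.h (T.h (P (nat_lit 0)) (P (nat_lit 16967370205168))) (P (nat_lit 0))) (P (nat_lit 0)))))))), (T.h (T.h (P (nat_lit 0)) (T.h (T.h (P (nat_lit 0)) (T.h (M (nat_lit 23016326667677892480073727)) (T.h (P (nat_lit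 0)) (T.h (M (nat_lit 4386139381002403839)) (T.h (P (nat_lit 0)) (M (nat_lit 14450944174591))))))) (T.h (P (nat_lit 0)) (T.h (T.h (P (nat_lit 0)) (T.h (P (nat_lit 3997095405463535616)) (T.h (P (nat_lit 0)) (P (nat_lit 6020971354256))))) (T.h (P (nat_lit 0)) (T.h (T.h (P (nat_lit 0)) (P (nat_lit 40339979884256))) (P (nat_lit 0)))))))) (T.h (T.h (T.h (P (nat_lit 20984392715099619162048167936)) (T.h (P (nat_lit 0)) (T.h (M (nat_lit 8223931429363535314943)) (T.h (P (nat_lit 0)) (P (nat_lit 26419758957936640)))))) (T.h (P (nat_lit 0)) (T.h (T.h (M (nat_lit 17505257867323948138495)) (T.h (P (nat_lit 0)) (M (nat_lit 738227850690559)))) (T.h (P (nat_lit 0)) (M (nat_lit 93291811182837759)))))) (T.h (T.h (P (nat_lit 0)) (T.h (T.h (P (nat_lit 0)) (T.h (P (nat_lit 29677769012967112704)) (T.h (P (nat_lit 0)) (M (nat_lit 4144068559599))))) (T.h (P (nat_lit 0)) (T.h (T.h (P (nat_lit 0)) (P (nat_lit 1500860940832))) (P (nat_lit 0)))))) (T.h (T.h (T.h (P (nat_lit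 19697029159794532941824)) (T.h (P (nat_lit 0)) (M (nat_lit 46708690346541055)))) (T.h (P (nat_lit 0)) (M (nat_lit 33918669731856383)))) (T.h (T.h (P (nat_lit 0)) (T.h (T.h (P (nat_lit 0)) (P (nat_lit 50708355223312))) (P (nat_lit 0)))) (P (nat_lit 15994898100060160))))))), (T.h (T.h (P (nat_lit 0)) (T.h (T.h (M (nat_lit 3456173834636085084861497343)) (T.h (P (nat_lit 0)) (T.h (M (nat_lit 8138862492074314301439)) (T.h (P (nat_lit 0)) (M (nat_lit 5272400747659263)))))) (T.h (P (nat_lit 0)) (T.h (T.h (P (nat_lit 796842188950915252224)) (T.h (P (nat_lit 0)) (P (nat_lit 135300099771203584)))) (T.h (P (nat_lit 0)) (M (nat_lit 79130026373513215))))))) (T.h (T.h (T.h (P (nat_lit 0)) (T.h (M (nat_lit 10655501998343211475533823)) (T.h (P (nat_lit 0)) (T.h (P (nat_lit 12914465284454088704)) (T.h (P (nat_lit 0)) (P (nat_lit 8815688868816))))))) (T.h (P (nat_lit 0)) (T.h (T.h (P (nat_lit 0)) (T.h (M (nat_lit 74645592273925963775)) (T.h (P (nat_lit 0)) (M (nat_lit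 8955757893743))))) (T.h (P (nat_lit 0)) (T.h (T.h (P (nat_lit 0)) (M (nat_lit 20837185961087))) (P (nat_lit 0))))))) (T.h (T.h (P (nat_lit 0)) (T.h (T.h (P (nat_lit 79018735785822008639488)) (T.h (P (nat_lit 0)) (P (nat_lit 43116961213710336)))) (T.h (P (nat_lit 0)) (P (nat_lit 358151747026976768))))) (T.h (T.h (T.h (P (nat_lit 0)) (T.h (P (nat_lit 14014821978452525056)) (T.h (P (nat_lit 0)) (P (nat_lit 22388334389568))))) (T.h (P (nat_lit 0)) (T.h (T.h (P (nat_lit 0)) (P (nat_lit 29719564744560))) (P (nat_lit 0))))) (T.h (T.h (P (nat_lit 0)) (P (nat_lit 173742578925305856))) (T.h (T.h (T.h (P (nat_lit 0)) (M (nat_lit 11562789853775))) (P (nat_lit 0))) (P (nat_lit 0)))))))), (T.h (T.h (P (nat_lit 0)) (T.h (T.h (P (nat_lit 0)) (T.h (P (nat_lit 30576525179669562771111936)) (T.h (P (nat_lit 0)) (T.h (M (nat_lit 4299253708392235007)) (T.h (P (nat_lit 0)) (P (nat_lit 8704128682512))))))) (T.h (P (nat_lit 0)) (T.h (T.h (P (nat_lit 0)) (T.h (M (nat_lit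 14785903864523522047)) (T.h (P (nat_lit 0)) (M (nat_lit 11727087712703))))) (T.h (P (nat_lit 0)) (T.h (T.h (P (nat_lit 0)) (M (nat_lit 38574100311983))) (P (nat_lit 0)))))))) (T.h (T.h (T.h (M (nat_lit 20545763807070606543294562303)) (T.h (P (nat_lit 0)) (T.h (P (nat_lit 12135496075166393303040)) (T.h (P (nat_lit 0)) (M (nat_lit 35881187698753535)))))) (T.h (P (nat_lit 0)) (T.h (T.h (P (nat_lit 18225494033046599368704)) (T.h (P (nat_lit 0)) (P (nat_lit 43606495874285568)))) (T.h (P (nat_lit 0)) (P (nat_lit 79124825958711296)))))) (T.h (T.h (P (nat_lit 0)) (T.h (T.h (P (nat_lit 0)) (T.h (M (nat_lit 60109996656355704831)) (T.h (P (nat_lit 0)) (P (nat_lit 18560116891440))))) (T.h (P (nat_lit 0)) (T.h (T.h (P (nat_lit 0)) (P (nat_lit 22287634534368))) (P (nat_lit 0)))))) (T.h (T.h (T.h (M (nat_lit 19160979863630824603647)) (T.h (P (nat_lit 0)) (P (nat_lit 52158500142071808)))) (T.h (P (nat_lit 0)) (P (nat_lit 54131820061376512)))) (T.h (T.h (P (nat_lit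 0)) (T.h (T.h (P (nat_lit 0)) (M (nat_lit 53556555107663))) (P (nat_lit 0)))) (M (nat_lit 14971273895362559)))))))]
def lP12_3 : List (T ℤ) := [(T.h (T.h (P (nat_lit 0)) (T.h (T.h (P (nat_lit 2431989740396183413638299648)) (T.h (P (nat_lit 0)) (T.h (M (nat_lit 2389731705158014861311)) (T.h (P (nat_lit 0)) (M (nat_lit 737280053051391)))))) (T.h (P (nat_lit 0)) (T.h (T.h (P (nat_lit 13155666161854431887360)) (T.h (P (nat_lit 0)) (M (nat_lit 84716766919393279)))) (T.h (P (nat_lit 0)) (P (nat_lit 86333522932170752))))))) (T.h (T.h (T.h (P (nat_lit 0)) (T.h (P (nat_lit 2731529024111075150266368)) (T.h (P (nat_lit 0)) (P (nat_lit 2922520119437426688))))) (T.h (P (nat_lit 0)) (T.h (T.h (P (nat_lit 0)) (P (nat_lit 43502318328160976896))) (P (nat_lit 0))))) (T.h (T.h (P (nat_lit 0)) (T.h (T.h (M (nat_lit 67764700985457142398975)) (T.h (P (nat_lit 0)) (M (nat_lit 13085180765306879)))) (T.h (P (nat_lit 0)) (M (nat_lit 344310799049883647))))) (T.h (T.h (T.h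 (P (nat_lit 0)) (M (nat_lit 14446821862908362751))) (P (nat_lit 0))) (T.h (T.h (P (nat_lit 0)) (M (nat_lit 157432470344531967))) (P (nat_lit 0))))))), (P (nat_lit 0)), (P (nat_lit 0)), (T.h (T.h (T.h (P (nat_lit 0)) (T.h (P (nat_lit 6801896442518516848624926720)) (T.h (P (nat_lit 0)) (T.h (M (nat_lit 16269053149684254638079)) (T.h (P (nat_lit 0)) (M (nat_lit 6062581201043455))))))) (T.h (P (nat_lit 0)) (T.h (T.h (P (nat_lit 0)) (T.h (M (nat_lit 61949671853687192944639)) (T.h (P (nat_lit 0)) (M (nat_lit 15777028889149439))))) (T.h (P (nat_lit 0)) (T.h (T.h (P (nat_lit 0)) (M (nat_lit 11674442002104319))) (P (nat_lit 0))))))) (T.h (T.h (P (nat_lit 0)) (T.h (T.h (P (nat_lit 16711225617270992577495040)) (T.h (P (nat_lit 0)) (T.h (P (nat_lit 95597895653135482880)) (T.h (P (nat_lit 0)) (P (nat_lit 27402727578760)))))) (T.h (P (nat_lit 0)) (T.h (T.h (P (nat_lit 18816914626879422464)) (T.h (P (nat_lit 0)) (P (nat_lit 40934921564768)))) (T.h (P (nat_lit 0))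 (M (nat_lit 3640415834759))))))) (T.h (T.h (T.h (P (nat_lit 0)) (T.h (M (nat_lit 23673963548691115540479)) (T.h (P (nat_lit 0)) (P (nat_lit 3999630672232448))))) (T.h (P (nat_lit 0)) (T.h (T.h (P (nat_lit 0)) (P (nat_lit 11876745795108864))) (P (nat_lit 0))))) (T.h (T.h (P (nat_lit 0)) (T.h (T.h (P (nat_lit 29435310069868658688)) (T.h (P (nat_lit 0)) (M (nat_lit 47994939898575)))) (T.h (P (nat_lit 0)) (M (nat_lit 27481800065447))))) (T.h (T.h (T.h (P (nat_lit 0)) (M (nat_lit 3288468659404799))) (P (nat_lit 0))) (T.h (T.h (P (nat_lit 0)) (P (nat_lit 1624450826248))) (P (nat_lit 0)))))))), (T.h (T.h (T.h (P (nat_lit 116538236317700504972192617857024)) (T.h (P (nat_lit 0)) (T.h (M (nat_lit 11610262193131898743554047)) (T.h (P (nat_lit 0)) (T.h (P (nat_lit 4059346151223066624)) (T.h (P (nat_lit 0)) (M (nat_lit 15472739090591)))))))) (T.h (P (nat_lit 0)) (T.h (T.h (P (nat_lit 29852342430197712133554176)) (T.h (P (nat_lit 0)) (T.h (M (nat_lit 89283928821218672639))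 (T.h (P (nat_lit 0)) (P (nat_lit 28335036564160)))))) (T.h (P (nat_lit 0)) (T.h (T.h (P (nat_lit 11257209192479457280)) (T.h (P (nat_lit 0)) (M (nat_lit 8128876489663)))) (T.h (P (nat_lit 0)) (M (nat_lit 61045729373567)))))))) (T.h (T.h (P (nat_lit 0)) (T.h (T.h (P (nat_lit 0)) (T.h (P (nat_lit 35871329636008551514112)) (T.h (P (nat_lit 0)) (P (nat_lit 41843344361783296))))) (T.h (P (nat_lit 0)) (T.h (T.h (P (nat_lit 0)) (P (nat_lit 95266818162229248))) (P (nat_lit 0)))))) (T.h (T.h (T.h (P (nat_lit 32611548086002112509509632)) (T.h (P (nat_lit 0)) (T.h (P (nat_lit 18121256762693648384)) (T.h (P (nat_lit 0)) (M (nat_lit 35169845347711)))))) (T.h (P (nat_lit 0)) (T.h (T.h (P (nat_lit 14755860110806876160)) (T.h (P (nat_lit 0)) (M (nat_lit 22178401775167)))) (T.h (P (nat_lit 0)) (M (nat_lit 93345869782831)))))) (T.h (T.h (P (nat_lit 0)) (T.h (T.h (P (nat_lit 0)) (P (nat_lit 40345172097957888))) (P (nat_lit 0)))) (T.h (T.h (T.h (P (nat_lit 44292664539358429184))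 (T.h (P (nat_lit 0)) (M (nat_lit 22396963694271)))) (T.h (P (nat_lit 0)) (M (nat_lit 7076939740079)))) (T.h (P (nat_lit 0)) (P (nat_lit 32079931261568)))))))), (T.h (T.h (T.h (P (nat_lit 0)) (T.h (M (nat_lit 13643277596547858818052128767)) (T.h (P (nat_lit 0)) (T.h (P (nat_lit 13578388150504331935744)) (T.h (P (nat_lit 0)) (P (nat_lit 62277197655441408))))))) (T.h (P (nat_lit 0)) (T.h (T.h (P (nat_lit 0)) (T.h (P (nat_lit 99357904463704478449664)) (T.h (P (nat_lit 0)) (M (nat_lit 25911504250404863))))) (T.h (P (nat_lit 0)) (T.h (T.h (P (nat_lit 0)) (M (nat_lit 12317872639180799))) (P (nat_lit 0))))))) (T.h (T.h (P (nat_lit 0)) (T.h (T.h (P (nat_lit 5538450431683356522446848)) (T.h (P (nat_lit 0)) (T.h (M (nat_lit 214692018084393254911)) (T.h (P (nat_lit 0)) (P (nat_lit 20145618234144)))))) (T.h (P (nat_lit 0)) (T.h (T.h (P (nat_lit 71019701946244136960)) (T.h (P (nat_lit 0)) (M (nat_lit 47982439091855)))) (T.h (P (nat_lit 0)) (P (nat_lit 16779312954192)))))))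 (T.h (T.h (T.h (P (nat_lit 0)) (T.h (M (nat_lit 72413172943302078496767)) (T.h (P (nat_lit 0)) (P (nat_lit 104001452826558464))))) (T.h (P (nat_lit 0)) (T.h (T.h (P (nat_lit 0)) (M (nat_lit 40126139474247679))) (P (nat_lit 0))))) (T.h (T.h (P (nat_lit 0)) (T.h (T.h (P (nat_lit 56006648096966574080)) (T.h (P (nat_lit 0)) (P (nat_lit 4724950018272)))) (T.h (P (nat_lit 0)) (P (nat_lit 106333461033312))))) (T.h (T.h (T.h (P (nat_lit 0)) (M (nat_lit 81311443225575423))) (P (nat_lit 0))) (T.h (T.h (P (nat_lit 0)) (P (nat_lit 2741942744016))) (P (nat_lit 0)))))))), (T.h (T.h (T.h (M (nat_lit 202020782321028235702046130438143)) (T.h (P (nat_lit 0)) (T.h (P (nat_lit 23366883707900872915681280)) (T.h (P (nat_lit 0)) (T.h (M (nat_lit 7131341328276783103)) (T.h (P (nat_lit 0)) (P (nat_lit 14645707618464)))))))) (T.h (P (nat_lit 0)) (T.h (T.h (M (nat_lit 35815997065927715062808575)) (T.h (P (nat_lit 0)) (T.h (P (nat_lit 15088578806786555904)) (T.h (P (nat_lit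 0)) (M (nat_lit 77309147628143)))))) (T.h (P (nat_lit 0)) (T.h (T.h (M (nat_lit 2673562259325714431)) (T.h (P (nat_lit 0)) (P (nat_lit 134195146157664)))) (T.h (P (nat_lit 0)) (P (nat_lit 8713460479392)))))))) (T.h (T.h (P (nat_lit 0)) (T.h (T.h (P (nat_lit 0)) (T.h (P (nat_lit 9071748710483349209088)) (T.h (P (nat_lit 0)) (M (nat_lit 63102135297736703))))) (T.h (P (nat_lit 0)) (T.h (T.h (P (nat_lit 0)) (M (nat_lit 178490904560173055))) (P (nat_lit 0)))))) (T.h (T.h (T.h (M (nat_lit 42337534151861017088360447)) (T.h (P (nat_lit 0)) (T.h (P (nat_lit 34550124118083108864)) (T.h (P (nat_lit 0)) (P (nat_lit 26406644853168)))))) (T.h (P (nat_lit 0)) (T.h (T.h (P (nat_lit 132043227812096638976)) (T.h (P (nat_lit 0)) (P (nat_lit 14513604933888)))) (T.h (P (nat_lit 0)) (P (nat_lit 499241730033216)))))) (T.h (T.h (P (nat_lit 0)) (T.h (T.h (P (nat_lit 0)) (M (nat_lit 125759308696616959))) (P (nat_lit 0)))) (T.h (T.h (T.h (M (nat_lit 68615088356747902975))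 (T.h (P (nat_lit 0)) (P (nat_lit 133240626359424)))) (T.h (P (nat_lit 0)) (P (nat_lit 352154342018448)))) (T.h (P (nat_lit 0)) (M (nat_lit 87410689135199)))))))), (T.h (T.h (T.h (P (nat_lit 0)) (T.h (M (nat_lit 5287393795622230931927990271)) (T.h (P (nat_lit 0)) (T.h (M (nat_lit 10997930159462676430847)) (T.h (P (nat_lit 0)) (M (nat_lit 21976945639718911))))))) (T.h (P (nat_lit 0)) (T.h (T.h (P (nat_lit 0)) (T.h (M (nat_lit 37042947306702845771775)) (T.h (P (nat_lit 0)) (P (nat_lit 78374196030734336))))) (T.h (P (nat_lit 0)) (T.h (T.h (P (nat_lit 0)) (M (nat_lit 17184947940786175))) (P (nat_lit 0))))))) (T.h (T.h (P (nat_lit 0)) (T.h (T.h (M (nat_lit 7968129611153399804329983)) (T.h (P (nat_lit 0)) (P (nat_lit 28063542199158046720)))) (T.h (P (nat_lit 0)) (M (nat_lit 28918869486353776639))))) (T.h (T.h (T.h (P (nat_lit 0)) (T.h (M (nat_lit 11470395129475534684159)) (T.h (P (nat_lit 0)) (M (nat_lit 28259372670091263))))) (T.h (P (nat_lit 0)) (T.h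 (T.h (P (nat_lit 0)) (M (nat_lit 21820328043151359))) (P (nat_lit 0))))) (T.h (T.h (P (nat_lit 0)) (M (nat_lit 34246235936746635263))) (T.h (T.h (T.h (P (nat_lit 0)) (M (nat_lit 48452197856411647))) (P (nat_lit 0))) (P (nat_lit 0)))))))]
def lP12_4 : List (T ℤ) := [(P (nat_lit 0)), (P (nat_lit 0)), (T.h (T.h (P (nat_lit 0)) (T.h (T.h (P (nat_lit 6801896442518516848624926720)) (T.h (P (nat_lit 0)) (T.h (M (nat_lit 61949671853687192944639)) (T.h (P (nat_lit 0)) (M (nat_lit 11674442002104319)))))) (T.h (P (nat_lit 0)) (T.h (T.h (M (nat_lit 16269053149684254638079)) (T.h (P (nat_lit 0)) (M (nat_lit 15777028889149439)))) (T.h (P (nat_lit 0)) (M (nat_lit 6062581201043455))))))) (T.h (T.h (T.h (P (nat_lit 0)) (T.h (P (nat_lit 16711225617270992577495040)) (T.h (P (nat_lit 0)) (T.h (P (nat_lit 18816914626879422464)) (T.h (P (nat_lit 0)) (M (nat_lit 3640415834759))))))) (T.h (P (nat_lit 0)) (T.h (T.h (P (nat_lit 0)) (T.h (P (nat_lit 95597895653135482880))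 (T.h (P (nat_lit 0)) (P (nat_lit 40934921564768))))) (T.h (P (nat_lit 0)) (T.h (T.h (P (nat_lit 0)) (P (nat_lit 27402727578760))) (P (nat_lit 0))))))) (T.h (T.h (P (nat_lit 0)) (T.h (T.h (M (nat_lit 23673963548691115540479)) (T.h (P (nat_lit 0)) (P (nat_lit 11876745795108864)))) (T.h (P (nat_lit 0)) (P (nat_lit 3999630672232448))))) (T.h (T.h (T.h (P (nat_lit 0)) (T.h (P (nat_lit 29435310069868658688)) (T.h (P (nat_lit 0)) (M (nat_lit 27481800065447))))) (T.h (P (nat_lit 0)) (T.h (T.h (P (nat_lit 0)) (M (nat_lit 47994939898575))) (P (nat_lit 0))))) (T.h (T.h (P (nat_lit 0)) (M (nat_lit 3288468659404799))) (T.h (T.h (T.h (P (nat_lit 0)) (P (nat_lit 1624450826248))) (P (nat_lit 0))) (P (nat_lit 0)))))))), (T.h (T.h (P (nat_lit 0)) (T.h (T.h (P (nat_lit 0)) (T.h (P (nat_lit 27976224509473404932325376)) (T.h (P (nat_lit 0)) (T.h (M (nat_lit 147501008737055801343)) (T.h (P (nat_lit 0)) (M (nat_lit 5456481312047))))))) (T.h (P (nat_lit 0)) (T.h (T.h (P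 (nat_lit 0)) (T.h (M (nat_lit 147501008737055801343)) (T.h (P (nat_lit 0)) (P (nat_lit 48640495562304))))) (T.h (P (nat_lit 0)) (T.h (T.h (P (nat_lit 0)) (M (nat_lit 5456481312047))) (P (nat_lit 0)))))))) (T.h (T.h (T.h (P (nat_lit 53722552701100346492772679680)) (T.h (P (nat_lit 0)) (T.h (M (nat_lit 40817385476115149094911)) (T.h (P (nat_lit 0)) (P (nat_lit 13953943454662656)))))) (T.h (P (nat_lit 0)) (T.h (T.h (M (nat_lit 40817385476115149094911)) (T.h (P (nat_lit 0)) (P (nat_lit 328107354602536960)))) (T.h (P (nat_lit 0)) (P (nat_lit 13953943454662656)))))) (T.h (T.h (P (nat_lit 0)) (T.h (T.h (P (nat_lit 0)) (T.h (M (nat_lit 251512460228226449407)) (T.h (P (nat_lit 0)) (M (nat_lit 64596591120223))))) (T.h (P (nat_lit 0)) (T.h (T.h (P (nat_lit 0)) (M (nat_lit 64596591120223))) (P (nat_lit 0)))))) (T.h (T.h (T.h (P (nat_lit 24104559975736356634624)) (T.h (P (nat_lit 0)) (M (nat_lit 5618166223650815)))) (T.h (P (nat_lit 0)) (M (nat_lit 5618166223650815))))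 (T.h (T.h (P (nat_lit 0)) (T.h (T.h (P (nat_lit 0)) (P (nat_lit 18546753362336))) (P (nat_lit 0)))) (P (nat_lit 29987144081145856))))))), (T.h (T.h (P (nat_lit 0)) (T.h (T.h (M (nat_lit 6055445881416343606697918463)) (T.h (P (nat_lit 0)) (T.h (P (nat_lit 236814018518904771444736)) (T.h (P (nat_lit 0)) (P (nat_lit 94740330665148416)))))) (T.h (P (nat_lit 0)) (T.h (T.h (P (nat_lit 113709236032273398104064)) (T.h (P (nat_lit 0)) (M (nat_lit 19688161320828927)))) (T.h (P (nat_lit 0)) (P (nat_lit 101502339024453632))))))) (T.h (T.h (T.h (P (nat_lit 0)) (T.h (P (nat_lit 23435974083932209570381824)) (T.h (P (nat_lit 0)) (T.h (M (nat_lit 120330688800300728319)) (T.h (P (nat_lit 0)) (M (nat_lit 6261972315983))))))) (T.h (P (nat_lit 0)) (T.h (T.h (P (nat_lit 0)) (T.h (M (nat_lit 501728095527132725247)) (T.h (P (nat_lit 0)) (M (nat_lit 32116743668927))))) (T.h (P (nat_lit 0)) (T.h (T.h (P (nat_lit 0)) (M (nat_lit 95270745959327))) (P (nat_lit 0))))))) (T.h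 (T.h (P (nat_lit 0)) (T.h (T.h (P (nat_lit 30453367126282721034240)) (T.h (P (nat_lit 0)) (P (nat_lit 226577201689427968)))) (T.h (P (nat_lit 0)) (P (nat_lit 128491958501376000))))) (T.h (T.h (T.h (P (nat_lit 0)) (T.h (P (nat_lit 69568742831935193088)) (T.h (P (nat_lit 0)) (P (nat_lit 14935521193248))))) (T.h (P (nat_lit 0)) (T.h (T.h (P (nat_lit 0)) (P (nat_lit 13001890599264))) (P (nat_lit 0))))) (T.h (T.h (P (nat_lit 0)) (M (nat_lit 25690900194066431))) (T.h (T.h (T.h (P (nat_lit 0)) (P (nat_lit 6554927866368))) (P (nat_lit 0))) (P (nat_lit 0)))))))), (T.h (T.h (P (nat_lit 0)) (T.h (T.h (P (nat_lit 0)) (T.h (M (nat_lit 40456280365528153312985087)) (T.h (P (nat_lit 0)) (T.h (P (nat_lit 62616020965616779264)) (T.h (P (nat_lit 0)) (P (nat_lit 45005981788656))))))) (T.h (P (nat_lit 0)) (T.h (T.h (P (nat_lit 0)) (T.h (P (nat_lit 167404106989858455552)) (T.h (P (nat_lit 0)) (M (nat_lit 35467958383919))))) (T.h (P (nat_lit 0)) (T.h (T.h (P (nat_lit 0))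 (M (nat_lit 18638776481903))) (P (nat_lit 0)))))))) (T.h (T.h (T.h (M (nat_lit 72685983661459251017040265215)) (T.h (P (nat_lit 0)) (T.h (M (nat_lit 33414274095559754121215)) (T.h (P (nat_lit 0)) (P (nat_lit 6109213496131584)))))) (T.h (P (nat_lit 0)) (T.h (T.h (P (nat_lit 83956052722079571640320)) (T.h (P (nat_lit 0)) (M (nat_lit 392751489005174783)))) (T.h (P (nat_lit 0)) (P (nat_lit 53580461240139776)))))) (T.h (T.h (P (nat_lit 0)) (T.h (T.h (P (nat_lit 0)) (T.h (P (nat_lit 369929869536337592320)) (T.h (P (nat_lit 0)) (P (nat_lit 73574799128352))))) (T.h (P (nat_lit 0)) (T.h (T.h (P (nat_lit 0)) (P (nat_lit 3848439743712))) (P (nat_lit 0)))))) (T.h (T.h (T.h (P (nat_lit 1559377016144609148928)) (T.h (P (nat_lit 0)) (M (nat_lit 67341317046075391)))) (T.h (P (nat_lit 0)) (P (nat_lit 30734799568240640)))) (T.h (T.h (P (nat_lit 0)) (T.h (T.h (P (nat_lit 0)) (M (nat_lit 36795851005967))) (P (nat_lit 0)))) (M (nat_lit 28653826021441535))))))), (T.h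 (T.h (P (nat_lit 0)) (T.h (T.h (M (nat_lit 485246316002040588049317887)) (T.h (P (nat_lit 0)) (T.h (M (nat_lit 116266967700160330596351)) (T.h (P (nat_lit 0)) (M (nat_lit 16022553870106623)))))) (T.h (P (nat_lit 0)) (T.h (T.h (M (nat_lit 47953310490409918529535)) (T.h (P (nat_lit 0)) (M (nat_lit 97934611223642111)))) (T.h (P (nat_lit 0)) (M (nat_lit 7655420903981055))))))) (T.h (T.h (T.h (P (nat_lit 0)) (T.h (P (nat_lit 28478335506665354741940224)) (T.h (P (nat_lit 0)) (P (nat_lit 7399312085391245312))))) (T.h (P (nat_lit 0)) (T.h (T.h (P (nat_lit 0)) (P (nat_lit 379707384477398335488))) (P (nat_lit 0))))) (T.h (T.h (P (nat_lit 0)) (T.h (T.h (M (nat_lit 156873228732256518930431)) (T.h (P (nat_lit 0)) (M (nat_lit 56832365739311103)))) (T.h (P (nat_lit 0)) (M (nat_lit 455296650780803071))))) (T.h (T.h (T.h (P (nat_lit 0)) (P (nat_lit 46219789068006326272))) (P (nat_lit 0))) (T.h (T.h (P (nat_lit 0)) (M (nat_lit 151896253560815615))) (P (nat_lit 0))))))),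 (P (nat_lit 0))]
def lP12_5 : List (T ℤ) := [(P (nat_lit 0)), (T.h (T.h (T.h (P (nat_lit 0)) (T.h (M (nat_lit 782089061910025663233916927)) (T.h (P (nat_lit 0)) (T.h (M (nat_lit 16426708158251637145599)) (T.h (P (nat_lit 0)) (M (nat_lit 6131893213822975))))))) (T.h (P (nat_lit 0)) (T.h (T.h (P (nat_lit 0)) (T.h (P (nat_lit 18063952995519278612480)) (T.h (P (nat_lit 0)) (M (nat_lit 42949802790125567))))) (T.h (P (nat_lit 0)) (T.h (T.h (P (nat_lit 0)) (M (nat_lit 12606398353178623))) (P (nat_lit 0))))))) (T.h (T.h (P (nat_lit 0)) (T.h (T.h (P (nat_lit 6546479697134641121067008)) (T.h (P (nat_lit 0)) (T.h (P (nat_lit 24111187067511242752)) (T.h (P (nat_lit 0)) (P (nat_lit 17623647717064)))))) (T.h (P (nat_lit 0)) (T.h (T.h (M (nat_lit 4787399348545650687)) (T.h (P (nat_lit 0)) (P (nat_lit 29687087006240)))) (T.h (P (nat_lit 0)) (M (nat_lit 11650405526287))))))) (T.h (T.h (T.h (P (nat_lit 0)) (T.h (M (nat_lit 14320835328243459424255)) (T.h (P (nat_lit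 0)) (M (nat_lit 22042204530900991))))) (T.h (P (nat_lit 0)) (T.h (T.h (P (nat_lit 0)) (M (nat_lit 26618167397318655))) (P (nat_lit 0))))) (T.h (T.h (P (nat_lit 0)) (T.h (T.h (P (nat_lit 22831587893463482368)) (T.h (P (nat_lit 0)) (M (nat_lit 11967238186615)))) (T.h (P (nat_lit 0)) (M (nat_lit 23872235273511))))) (T.h (T.h (T.h (P (nat_lit 0)) (M (nat_lit 8925789642784767))) (P (nat_lit 0))) (T.h (T.h (P (nat_lit 0)) (P (nat_lit 16967370205168))) (P (nat_lit 0)))))))), (T.h (T.h (T.h (P (nat_lit 116538236317700504972192617857024)) (T.h (P (nat_lit 0)) (T.h (P (nat_lit 29852342430197712133554176)) (T.h (P (nat_lit 0)) (T.h (P (nat_lit 11257209192479457280)) (T.h (P (nat_lit 0)) (M (nat_lit 61045729373567)))))))) (T.h (P (nat_lit 0)) (T.h (T.h (M (nat_lit 11610262193131898743554047)) (T.h (P (nat_lit 0)) (T.h (M (nat_lit 89283928821218672639)) (T.h (P (nat_lit 0)) (M (nat_lit 8128876489663)))))) (T.h (P (nat_lit 0)) (T.h (T.h (P (nat_lit 4059346151223066624))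 (T.h (P (nat_lit 0)) (P (nat_lit 28335036564160)))) (T.h (P (nat_lit 0)) (M (nat_lit 15472739090591)))))))) (T.h (T.h (P (nat_lit 0)) (T.h (T.h (P (nat_lit 0)) (T.h (P (nat_lit 35871329636008551514112)) (T.h (P (nat_lit 0)) (P (nat_lit 95266818162229248))))) (T.h (P (nat_lit 0)) (T.h (T.h (P (nat_lit 0)) (P (nat_lit 41843344361783296))) (P (nat_lit 0)))))) (T.h (T.h (T.h (P (nat_lit 32611548086002112509509632)) (T.h (P (nat_lit 0)) (T.h (P (nat_lit 14755860110806876160)) (T.h (P (nat_lit 0)) (M (nat_lit 93345869782831)))))) (T.h (P (nat_lit 0)) (T.h (T.h (P (nat_lit 18121256762693648384)) (T.h (P (nat_lit 0)) (M (nat_lit 22178401775167)))) (T.h (P (nat_lit 0)) (M (nat_lit 35169845347711)))))) (T.h (T.h (P (nat_lit 0)) (T.h (T.h (P (nat_lit 0)) (P (nat_lit 40345172097957888))) (P (nat_lit 0)))) (T.h (T.h (T.h (P (nat_lit 44292664539358429184)) (T.h (P (nat_lit 0)) (M (nat_lit 7076939740079)))) (T.h (P (nat_lit 0)) (M (nat_lit 22396963694271)))) (T.h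 (P (nat_lit 0)) (P (nat_lit 32079931261568)))))))), (T.h (T.h (T.h (P (nat_lit 0)) (T.h (M (nat_lit 6055445881416343606697918463)) (T.h (P (nat_lit 0)) (T.h (P (nat_lit 113709236032273398104064)) (T.h (P (nat_lit 0)) (P (nat_lit 101502339024453632))))))) (T.h (P (nat_lit 0)) (T.h (T.h (P (nat_lit 0)) (T.h (P (nat_lit 236814018518904771444736)) (T.h (P (nat_lit 0)) (M (nat_lit 19688161320828927))))) (T.h (P (nat_lit 0)) (T.h (T.h (P (nat_lit 0)) (P (nat_lit 94740330665148416))) (P (nat_lit 0))))))) (T.h (T.h (P (nat_lit 0)) (T.h (T.h (P (nat_lit 23435974083932209570381824)) (T.h (P (nat_lit 0)) (T.h (M (nat_lit 501728095527132725247)) (T.h (P (nat_lit 0)) (M (nat_lit 95270745959327)))))) (T.h (P (nat_lit 0)) (T.h (T.h (M (nat_lit 120330688800300728319)) (T.h (P (nat_lit 0)) (M (nat_lit 32116743668927)))) (T.h (P (nat_lit 0)) (M (nat_lit 6261972315983))))))) (T.h (T.h (T.h (P (nat_lit 0)) (T.h (P (nat_lit 30453367126282721034240)) (T.h (P (nat_lit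 0)) (P (nat_lit 128491958501376000))))) (T.h (P (nat_lit 0)) (T.h (T.h (P (nat_lit 0)) (P (nat_lit 226577201689427968))) (P (nat_lit 0))))) (T.h (T.h (P (nat_lit 0)) (T.h (T.h (P (nat_lit 69568742831935193088)) (T.h (P (nat_lit 0)) (P (nat_lit 13001890599264)))) (T.h (P (nat_lit 0)) (P (nat_lit 14935521193248))))) (T.h (T.h (T.h (P (nat_lit 0)) (M (nat_lit 25690900194066431))) (P (nat_lit 0))) (T.h (T.h (P (nat_lit 0)) (P (nat_lit 6554927866368))) (P (nat_lit 0)))))))), (T.h (T.h (T.h (M (nat_lit 207245689897936580250291383828479)) (T.h (P (nat_lit 0)) (T.h (M (nat_lit 33468533096127654831063039)) (T.h (P (nat_lit 0)) (T.h (M (nat_lit 16190841554053627903)) (T.h (P (nat_lit 0)) (P (nat_lit 75877149067776)))))))) (T.h (P (nat_lit 0)) (T.h (T.h (M (nat_lit 33468533096127654831063039)) (T.h (P (nat_lit 0)) (T.h (P (nat_lit 333704964478410424320)) (T.h (P (nat_lit 0)) (P (nat_lit 43617723863328)))))) (T.h (P (nat_lit 0)) (T.h (T.h (M (nat_lit 16190841554053627903))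 (T.h (P (nat_lit 0)) (P (nat_lit 43617723863328)))) (T.h (P (nat_lit 0)) (P (nat_lit 75877149067776)))))))) (T.h (T.h (P (nat_lit 0)) (T.h (T.h (P (nat_lit 0)) (T.h (M (nat_lit 189858369728152055316479)) (T.h (P (nat_lit 0)) (M (nat_lit 47995793195532287))))) (T.h (P (nat_lit 0)) (T.h (T.h (P (nat_lit 0)) (M (nat_lit 47995793195532287))) (P (nat_lit 0)))))) (T.h (T.h (T.h (M (nat_lit 88680154785333492804747263)) (T.h (P (nat_lit 0)) (T.h (P (nat_lit 113789011323028242432)) (T.h (P (nat_lit 0)) (P (nat_lit 73651491357984)))))) (T.h (P (nat_lit 0)) (T.h (T.h (P (nat_lit 113789011323028242432)) (T.h (P (nat_lit 0)) (P (nat_lit 43934860796544)))) (T.h (P (nat_lit 0)) (P (nat_lit 73651491357984)))))) (T.h (T.h (P (nat_lit 0)) (T.h (T.h (P (nat_lit 0)) (M (nat_lit 246000128182583295))) (P (nat_lit 0)))) (T.h (T.h (T.h (M (nat_lit 144581075029341503487)) (T.h (P (nat_lit 0)) (P (nat_lit 74071766674224)))) (T.h (P (nat_lit 0)) (P (nat_lit 74071766674224))))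 (T.h (P (nat_lit 0)) (M (nat_lit 70822787459903)))))))), (T.h (T.h (T.h (P (nat_lit 0)) (T.h (M (nat_lit 11248579222122020348964634623)) (T.h (P (nat_lit 0)) (T.h (M (nat_lit 47210703150660263608319)) (T.h (P (nat_lit 0)) (M (nat_lit 113838962049777663))))))) (T.h (P (nat_lit 0)) (T.h (T.h (P (nat_lit 0)) (T.h (M (nat_lit 251163479293727797673983)) (T.h (P (nat_lit 0)) (M (nat_lit 15489028619730943))))) (T.h (P (nat_lit 0)) (T.h (T.h (P (nat_lit 0)) (P (nat_lit 1355874914500608))) (P (nat_lit 0))))))) (T.h (T.h (P (nat_lit 0)) (T.h (T.h (P (nat_lit 33206684731157785694175232)) (T.h (P (nat_lit 0)) (P (nat_lit 352605878129642176512)))) (T.h (P (nat_lit 0)) (P (nat_lit 274170867548684288))))) (T.h (T.h (T.h (P (nat_lit 0)) (T.h (M (nat_lit 110268998513681254842367)) (T.h (P (nat_lit 0)) (M (nat_lit 83781578424385535))))) (T.h (P (nat_lit 0)) (T.h (T.h (P (nat_lit 0)) (M (nat_lit 22622444845334527))) (P (nat_lit 0))))) (T.h (T.h (P (nat_lit 0)) (M (nat_lit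 13623357689722568703))) (T.h (T.h (T.h (P (nat_lit 0)) (M (nat_lit 25337783715266559))) (P (nat_lit 0))) (P (nat_lit 0))))))), (P (nat_lit 0)), (T.h (T.h (P (nat_lit 0)) (T.h (T.h (P (nat_lit 7100087156579572138729537536)) (T.h (P (nat_lit 0)) (T.h (P (nat_lit 23223723856033470218240)) (T.h (P (nat_lit 0)) (P (nat_lit 18968879967698944)))))) (T.h (P (nat_lit 0)) (T.h (T.h (M (nat_lit 1237047663726686109695)) (T.h (P (nat_lit 0)) (M (nat_lit 21981539607871487)))) (T.h (P (nat_lit 0)) (P (nat_lit 5526414397538304))))))) (T.h (T.h (T.h (P (nat_lit 0)) (T.h (P (nat_lit 789217968431012492869632)) (T.h (P (nat_lit 0)) (T.h (M (nat_lit 41432928862544592895)) (T.h (P (nat_lit 0)) (M (nat_lit 11610110242455))))))) (T.h (P (nat_lit 0)) (T.h (T.h (P (nat_lit 0)) (T.h (M (nat_lit 2144806594884403199)) (T.h (P (nat_lit 0)) (P (nat_lit 36776393580296))))) (T.h (P (nat_lit 0)) (T.h (T.h (P (nat_lit 0)) (M (nat_lit 40018750807967))) (P (nat_lit 0))))))) (T.h (T.h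 (P (nat_lit 0)) (T.h (T.h (P (nat_lit 18488458053379849977856)) (T.h (P (nat_lit 0)) (P (nat_lit 6405622491906048)))) (T.h (P (nat_lit 0)) (M (nat_lit 14916144344629247))))) (T.h (T.h (T.h (P (nat_lit 0)) (T.h (M (nat_lit 26309337614833942527)) (T.h (P (nat_lit 0)) (M (nat_lit 60639230622911))))) (T.h (P (nat_lit 0)) (T.h (T.h (P (nat_lit 0)) (P (nat_lit 28718105432920))) (P (nat_lit 0))))) (T.h (T.h (P (nat_lit 0)) (P (nat_lit 15699326535139328))) (T.h (T.h (T.h (P (nat_lit 0)) (M (nat_lit 11455875289447))) (P (nat_lit 0))) (P (nat_lit 0))))))))]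
def lP12_6 : List (T ℤ) := [(T.h (T.h (P (nat_lit 0)) (T.h (T.h (P (nat_lit 0)) (T.h (M (nat_lit 23016326667677892480073727)) (T.h (P (nat_lit 0)) (T.h (P (nat_lit 3997095405463535616)) (T.h (P (nat_lit 0)) (P (nat_lit 40339979884256))))))) (T.h (P (nat_lit 0)) (T.h (T.h (P (nat_lit 0)) (T.h (M (nat_lit 4386139381002403839)) (T.h (P (nat_lit 0)) (P (nat_lit 6020971354256))))) (T.h (P (nat_lit 0)) (T.h (T.h (P (nat_lit 0)) (M (nat_lit 14450944174591))) (P (nat_lit 0)))))))) (T.h (T.h (T.h (P (nat_lit 20984392715099619162048167936)) (T.h (P (nat_lit 0)) (T.h (M (nat_lit 17505257867323948138495)) (T.h (P (nat_lit 0)) (M (nat_lit 93291811182837759)))))) (T.h (P (nat_lit 0)) (T.h (T.h (M (nat_lit 8223931429363535314943)) (T.h (P (nat_lit 0)) (M (nat_lit 738227850690559)))) (T.h (P (nat_lit 0)) (P (nat_lit 26419758957936640)))))) (T.h (T.h (P (nat_lit 0)) (T.h (T.h (P (nat_lit 0)) (T.h (P (nat_lit 29677769012967112704)) (T.h (P (nat_lit 0)) (P (nat_lit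 1500860940832))))) (T.h (P (nat_lit 0)) (T.h (T.h (P (nat_lit 0)) (M (nat_lit 4144068559599))) (P (nat_lit 0)))))) (T.h (T.h (T.h (P (nat_lit 19697029159794532941824)) (T.h (P (nat_lit 0)) (M (nat_lit 33918669731856383)))) (T.h (P (nat_lit 0)) (M (nat_lit 46708690346541055)))) (T.h (T.h (P (nat_lit 0)) (T.h (T.h (P (nat_lit 0)) (P (nat_lit 50708355223312))) (P (nat_lit 0)))) (P (nat_lit 15994898100060160))))))), (T.h (T.h (P (nat_lit 0)) (T.h (T.h (M (nat_lit 13643277596547858818052128767)) (T.h (P (nat_lit 0)) (T.h (P (nat_lit 99357904463704478449664)) (T.h (P (nat_lit 0)) (M (nat_lit 12317872639180799)))))) (T.h (P (nat_lit 0)) (T.h (T.h (P (nat_lit 13578388150504331935744)) (T.h (P (nat_lit 0)) (M (nat_lit 25911504250404863)))) (T.h (P (nat_lit 0)) (P (nat_lit 62277197655441408))))))) (T.h (T.h (T.h (P (nat_lit 0)) (T.h (P (nat_lit 5538450431683356522446848)) (T.h (P (nat_lit 0)) (T.h (P (nat_lit 71019701946244136960)) (T.h (P (nat_lit 0)) (P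 (nat_lit 16779312954192))))))) (T.h (P (nat_lit 0)) (T.h (T.h (P (nat_lit 0)) (T.h (M (nat_lit 214692018084393254911)) (T.h (P (nat_lit 0)) (M (nat_lit 47982439091855))))) (T.h (P (nat_lit 0)) (T.h (T.h (P (nat_lit 0)) (P (nat_lit 20145618234144))) (P (nat_lit 0))))))) (T.h (T.h (P (nat_lit 0)) (T.h (T.h (M (nat_lit 72413172943302078496767)) (T.h (P (nat_lit 0)) (M (nat_lit 40126139474247679)))) (T.h (P (nat_lit 0)) (P (nat_lit 104001452826558464))))) (T.h (T.h (T.h (P (nat_lit 0)) (T.h (P (nat_lit 56006648096966574080)) (T.h (P (nat_lit 0)) (P (nat_lit 106333461033312))))) (T.h (P (nat_lit 0)) (T.h (T.h (P (nat_lit 0)) (P (nat_lit 4724950018272))) (P (nat_lit 0))))) (T.h (T.h (P (nat_lit 0)) (M (nat_lit 81311443225575423))) (T.h (T.h (T.h (P (nat_lit 0)) (P (nat_lit 2741942744016))) (P (nat_lit 0))) (P (nat_lit 0)))))))), (T.h (T.h (P (nat_lit 0)) (T.h (T.h (P (nat_lit 0)) (T.h (M (nat_lit 40456280365528153312985087)) (T.h (P (nat_lit 0)) (T.h (P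 (nat_lit 167404106989858455552)) (T.h (P (nat_lit 0)) (M (nat_lit 18638776481903))))))) (T.h (P (nat_lit 0)) (T.h (T.h (P (nat_lit 0)) (T.h (P (nat_lit 62616020965616779264)) (T.h (P (nat_lit 0)) (M (nat_lit 35467958383919))))) (T.h (P (nat_lit 0)) (T.h (T.h (P (nat_lit 0)) (P (nat_lit 45005981788656))) (P (nat_lit 0)))))))) (T.h (T.h (T.h (M (nat_lit 72685983661459251017040265215)) (T.h (P (nat_lit 0)) (T.h (P (nat_lit 83956052722079571640320)) (T.h (P (nat_lit 0)) (P (nat_lit 53580461240139776)))))) (T.h (P (nat_lit 0)) (T.h (T.h (M (nat_lit 33414274095559754121215)) (T.h (P (nat_lit 0)) (M (nat_lit 392751489005174783)))) (T.h (P (nat_lit 0)) (P (nat_lit 6109213496131584)))))) (T.h (T.h (P (nat_lit 0)) (T.h (T.h (P (nat_lit 0)) (T.h (P (nat_lit 369929869536337592320)) (T.h (P (nat_lit 0)) (P (nat_lit 3848439743712))))) (T.h (P (nat_lit 0)) (T.h (T.h (P (nat_lit 0)) (P (nat_lit 73574799128352))) (P (nat_lit 0)))))) (T.h (T.h (T.h (P (nat_lit 1559377016144609148928))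 (T.h (P (nat_lit 0)) (P (nat_lit 30734799568240640)))) (T.h (P (nat_lit 0)) (M (nat_lit 67341317046075391)))) (T.h (T.h (P (nat_lit 0)) (T.h (T.h (P (nat_lit 0)) (M (nat_lit 36795851005967))) (P (nat_lit 0)))) (M (nat_lit 28653826021441535))))))), (T.h (T.h (P (nat_lit 0)) (T.h (T.h (M (nat_lit 11248579222122020348964634623)) (T.h (P (nat_lit 0)) (T.h (M (nat_lit 251163479293727797673983)) (T.h (P (nat_lit 0)) (P (nat_lit 1355874914500608)))))) (T.h (P (nat_lit 0)) (T.h (T.h (M (nat_lit 47210703150660263608319)) (T.h (P (nat_lit 0)) (M (nat_lit 15489028619730943)))) (T.h (P (nat_lit 0)) (M (nat_lit 113838962049777663))))))) (T.h (T.h (T.h (P (nat_lit 0)) (T.h (P (nat_lit 33206684731157785694175232)) (T.h (P (nat_lit 0)) (P (nat_lit 274170867548684288))))) (T.h (P (nat_lit 0)) (T.h (T.h (P (nat_lit 0)) (P (nat_lit 352605878129642176512))) (P (nat_lit 0))))) (T.h (T.h (P (nat_lit 0)) (T.h (T.h (M (nat_lit 110268998513681254842367)) (T.h (P (nat_lit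 0)) (M (nat_lit 22622444845334527)))) (T.h (P (nat_lit 0)) (M (nat_lit 83781578424385535))))) (T.h (T.h (T.h (P (nat_lit 0)) (M (nat_lit 13623357689722568703))) (P (nat_lit 0))) (T.h (T.h (P (nat_lit 0)) (M (nat_lit 25337783715266559))) (P (nat_lit 0))))))), (P (nat_lit 0)), (T.h (T.h (T.h (P (nat_lit 105277720930526967885496854773760)) (T.h (P (nat_lit 0)) (T.h (M (nat_lit 1622784108497740811468799)) (T.h (P (nat_lit 0)) (T.h (P (nat_lit 8780194688519897088)) (T.h (P (nat_lit 0)) (P (nat_lit 56203593949792)))))))) (T.h (P (nat_lit 0)) (T.h (T.h (M (nat_lit 9691530957154133055897599)) (T.h (P (nat_lit 0)) (T.h (M (nat_lit 5543786603966627839)) (T.h (P (nat_lit 0)) (M (nat_lit 104478078703183)))))) (T.h (P (nat_lit 0)) (T.h (T.h (P (nat_lit 1752219728941678592)) (T.h (P (nat_lit 0)) (P (nat_lit 20467126355184)))) (T.h (P (nat_lit 0)) (P (nat_lit 2914549128000)))))))) (T.h (T.h (P (nat_lit 0)) (T.h (T.h (P (nat_lit 0)) (T.h (P (nat_lit 20667592922045440065536))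 (T.h (P (nat_lit 0)) (P (nat_lit 47636208037494784))))) (T.h (P (nat_lit 0)) (T.h (T.h (P (nat_lit 0)) (P (nat_lit 41585837830832128))) (P (nat_lit 0)))))) (T.h (T.h (T.h (M (nat_lit 1622784108497740811468799)) (T.h (P (nat_lit 0)) (T.h (M (nat_lit 172485376140564758527)) (T.h (P (nat_lit 0)) (M (nat_lit 373272336818415)))))) (T.h (P (nat_lit 0)) (T.h (T.h (M (nat_lit 5543786603966627839)) (T.h (P (nat_lit 0)) (P (nat_lit 5095877684832)))) (T.h (P (nat_lit 0)) (P (nat_lit 20467126355184)))))) (T.h (T.h (P (nat_lit 0)) (T.h (T.h (P (nat_lit 0)) (P (nat_lit 47636208037494784))) (P (nat_lit 0)))) (T.h (T.h (T.h (P (nat_lit 8780194688519897088)) (T.h (P (nat_lit 0)) (M (nat_lit 373272336818415)))) (T.h (P (nat_lit 0)) (M (nat_lit 104478078703183)))) (T.h (P (nat_lit 0)) (P (nat_lit 56203593949792)))))))), (T.h (T.h (T.h (P (nat_lit 0)) (T.h (M (nat_lit 3456173834636085084861497343)) (T.h (P (nat_lit 0)) (T.h (P (nat_lit 796842188950915252224)) (T.h (P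 (nat_lit 0)) (M (nat_lit 79130026373513215))))))) (T.h (P (nat_lit 0)) (T.h (T.h (P (nat_lit 0)) (T.h (M (nat_lit 8138862492074314301439)) (T.h (P (nat_lit 0)) (P (nat_lit 135300099771203584))))) (T.h (P (nat_lit 0)) (T.h (T.h (P (nat_lit 0)) (M (nat_lit 5272400747659263))) (P (nat_lit 0))))))) (T.h (T.h (P (nat_lit 0)) (T.h (T.h (M (nat_lit 10655501998343211475533823)) (T.h (P (nat_lit 0)) (T.h (M (nat_lit 74645592273925963775)) (T.h (P (nat_lit 0)) (M (nat_lit 20837185961087)))))) (T.h (P (nat_lit 0)) (T.h (T.h (P (nat_lit 12914465284454088704)) (T.h (P (nat_lit 0)) (M (nat_lit 8955757893743)))) (T.h (P (nat_lit 0)) (P (nat_lit 8815688868816))))))) (T.h (T.h (T.h (P (nat_lit 0)) (T.h (P (nat_lit 79018735785822008639488)) (T.h (P (nat_lit 0)) (P (nat_lit 358151747026976768))))) (T.h (P (nat_lit 0)) (T.h (T.h (P (nat_lit 0)) (P (nat_lit 43116961213710336))) (P (nat_lit 0))))) (T.h (T.h (P (nat_lit 0)) (T.h (T.h (P (nat_lit 14014821978452525056))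 (T.h (P (nat_lit 0)) (P (nat_lit 29719564744560)))) (T.h (P (nat_lit 0)) (P (nat_lit 22388334389568))))) (T.h (T.h (T.h (P (nat_lit 0)) (P (nat_lit 173742578925305856))) (P (nat_lit 0))) (T.h (T.h (P (nat_lit 0)) (M (nat_lit 11562789853775))) (P (nat_lit 0)))))))), (T.h (T.h (T.h (M (nat_lit 202020782321028235702046130438143)) (T.h (P (nat_lit 0)) (T.h (M (nat_lit 35815997065927715062808575)) (T.h (P (nat_lit 0)) (T.h (M (nat_lit 2673562259325714431)) (T.h (P (nat_lit 0)) (P (nat_lit 8713460479392)))))))) (T.h (P (nat_lit 0)) (T.h (T.h (P (nat_lit 23366883707900872915681280)) (T.h (P (nat_lit 0)) (T.h (P (nat_lit 15088578806786555904)) (T.h (P (nat_lit 0)) (P (nat_lit 134195146157664)))))) (T.h (P (nat_lit 0)) (T.h (T.h (M (nat_lit 7131341328276783103)) (T.h (P (nat_lit 0)) (M (nat_lit 77309147628143)))) (T.h (P (nat_lit 0)) (P (nat_lit 14645707618464)))))))) (T.h (T.h (P (nat_lit 0)) (T.h (T.h (P (nat_lit 0)) (T.h (P (nat_lit 9071748710483349209088))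 (T.h (P (nat_lit 0)) (M (nat_lit 178490904560173055))))) (T.h (P (nat_lit 0)) (T.h (T.h (P (nat_lit 0)) (M (nat_lit 63102135297736703))) (P (nat_lit 0)))))) (T.h (T.h (T.h (M (nat_lit 42337534151861017088360447)) (T.h (P (nat_lit 0)) (T.h (P (nat_lit 132043227812096638976)) (T.h (P (nat_lit 0)) (P (nat_lit 499241730033216)))))) (T.h (P (nat_lit 0)) (T.h (T.h (P (nat_lit 34550124118083108864)) (T.h (P (nat_lit 0)) (P (nat_lit 14513604933888)))) (T.h (P (nat_lit 0)) (P (nat_lit 26406644853168)))))) (T.h (T.h (P (nat_lit 0)) (T.h (T.h (P (nat_lit 0)) (M (nat_lit 125759308696616959))) (P (nat_lit 0)))) (T.h (T.h (T.h (M (nat_lit 68615088356747902975)) (T.h (P (nat_lit 0)) (P (nat_lit 352154342018448)))) (T.h (P (nat_lit 0)) (P (nat_lit 133240626359424)))) (T.h (P (nat_lit 0)) (M (nat_lit 87410689135199))))))))]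
def lP12_7 : List (T ℤ) := [(T.h (T.h (T.h (P (nat_lit 0)) (T.h (M (nat_lit 485246316002040588049317887)) (T.h (P (nat_lit 0)) (T.h (M (nat_lit 47953310490409918529535)) (T.h (P (nat_lit 0)) (M (nat_lit 7655420903981055))))))) (T.h (P (nat_lit 0)) (T.h (T.h (P (nat_lit 0)) (T.h (M (nat_lit 116266967700160330596351)) (T.h (P (nat_lit 0)) (M (nat_lit 97934611223642111))))) (T.h (P (nat_lit 0)) (T.h (T.h (P (nat_lit 0)) (M (nat_lit 16022553870106623))) (P (nat_lit 0))))))) (T.h (T.h (P (nat_lit 0)) (T.h (T.h (P (nat_lit 28478335506665354741940224)) (T.h (P (nat_lit 0)) (P (nat_lit 379707384477398335488)))) (T.h (P (nat_lit 0)) (P (nat_lit 7399312085391245312))))) (T.h (T.h (T.h (P (nat_lit 0)) (T.h (M (nat_lit 156873228732256518930431)) (T.h (P (nat_lit 0)) (M (nat_lit 455296650780803071))))) (T.h (P (nat_lit 0)) (T.h (T.h (P (nat_lit 0)) (M (nat_lit 56832365739311103))) (P (nat_lit 0))))) (T.h (T.h (P (nat_lit 0)) (P (nat_lit 46219789068006326272)))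 (T.h (T.h (T.h (P (nat_lit 0)) (M (nat_lit 151896253560815615))) (P (nat_lit 0))) (P (nat_lit 0))))))), (P (nat_lit 0)), (T.h (T.h (P (nat_lit 0)) (T.h (T.h (M (nat_lit 1772719709271470377478914047)) (T.h (P (nat_lit 0)) (T.h (M (nat_lit 14350093689450101997567)) (T.h (P (nat_lit 0)) (P (nat_lit 28449082768031744)))))) (T.h (P (nat_lit 0)) (T.h (T.h (M (nat_lit 10151113502918493339647)) (T.h (P (nat_lit 0)) (P (nat_lit 6165034883907584)))) (T.h (P (nat_lit 0)) (M (nat_lit 7951400904425471))))))) (T.h (T.h (T.h (P (nat_lit 0)) (T.h (M (nat_lit 6097722714123760383819775)) (T.h (P (nat_lit 0)) (T.h (P (nat_lit 27470699705940312064)) (T.h (P (nat_lit 0)) (P (nat_lit 11532992765952))))))) (T.h (P (nat_lit 0)) (T.h (T.h (P (nat_lit 0)) (T.h (P (nat_lit 12972542331520548864)) (T.h (P (nat_lit 0)) (M (nat_lit 32747249506607))))) (T.h (P (nat_lit 0)) (T.h (T.h (P (nat_lit 0)) (P (nat_lit 40018750807968))) (P (nat_lit 0))))))) (T.h (T.h (P (nat_lit 0)) (T.h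 (T.h (M (nat_lit 6654861781713964498943)) (T.h (P (nat_lit 0)) (M (nat_lit 5990814857822207)))) (T.h (P (nat_lit 0)) (M (nat_lit 5931687478722559))))) (T.h (T.h (T.h (P (nat_lit 0)) (T.h (P (nat_lit 10996160748979224576)) (T.h (P (nat_lit 0)) (P (nat_lit 60639230622912))))) (T.h (P (nat_lit 0)) (T.h (T.h (P (nat_lit 0)) (M (nat_lit 32747249506607))) (P (nat_lit 0))))) (T.h (T.h (P (nat_lit 0)) (P (nat_lit 29605169527062528))) (T.h (T.h (T.h (P (nat_lit 0)) (P (nat_lit 11532992765952))) (P (nat_lit 0))) (P (nat_lit 0)))))))), (T.h (T.h (P (nat_lit 0)) (T.h (T.h (P (nat_lit 0)) (T.h (P (nat_lit 30576525179669562771111936)) (T.h (P (nat_lit 0)) (T.h (M (nat_lit 14785903864523522047)) (T.h (P (nat_lit 0)) (M (nat_lit 38574100311983))))))) (T.h (P (nat_lit 0)) (T.h (T.h (P (nat_lit 0)) (T.h (M (nat_lit 4299253708392235007)) (T.h (P (nat_lit 0)) (M (nat_lit 11727087712703))))) (T.h (P (nat_lit 0)) (T.h (T.h (P (nat_lit 0)) (P (nat_lit 8704128682512)))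 (P (nat_lit 0)))))))) (T.h (T.h (T.h (M (nat_lit 20545763807070606543294562303)) (T.h (P (nat_lit 0)) (T.h (P (nat_lit 18225494033046599368704)) (T.h (P (nat_lit 0)) (P (nat_lit 79124825958711296)))))) (T.h (P (nat_lit 0)) (T.h (T.h (P (nat_lit 12135496075166393303040)) (T.h (P (nat_lit 0)) (P (nat_lit 43606495874285568)))) (T.h (P (nat_lit 0)) (M (nat_lit 35881187698753535)))))) (T.h (T.h (P (nat_lit 0)) (T.h (T.h (P (nat_lit 0)) (T.h (M (nat_lit 60109996656355704831)) (T.h (P (nat_lit 0)) (P (nat_lit 22287634534368))))) (T.h (P (nat_lit 0)) (T.h (T.h (P (nat_lit 0)) (P (nat_lit 18560116891440))) (P (nat_lit 0)))))) (T.h (T.h (T.h (M (nat_lit 19160979863630824603647)) (T.h (P (nat_lit 0)) (P (nat_lit 54131820061376512)))) (T.h (P (nat_lit 0)) (P (nat_lit 52158500142071808)))) (T.h (T.h (P (nat_lit 0)) (T.h (T.h (P (nat_lit 0)) (M (nat_lit 53556555107663))) (P (nat_lit 0)))) (M (nat_lit 14971273895362559))))))), (T.h (T.h (P (nat_lit 0)) (T.h (T.h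 (M (nat_lit 5287393795622230931927990271)) (T.h (P (nat_lit 0)) (T.h (M (nat_lit 37042947306702845771775)) (T.h (P (nat_lit 0)) (M (nat_lit 17184947940786175)))))) (T.h (P (nat_lit 0)) (T.h (T.h (M (nat_lit 10997930159462676430847)) (T.h (P (nat_lit 0)) (P (nat_lit 78374196030734336)))) (T.h (P (nat_lit 0)) (M (nat_lit 21976945639718911))))))) (T.h (T.h (T.h (P (nat_lit 0)) (T.h (M (nat_lit 7968129611153399804329983)) (T.h (P (nat_lit 0)) (M (nat_lit 28918869486353776639))))) (T.h (P (nat_lit 0)) (T.h (T.h (P (nat_lit 0)) (P (nat_lit 28063542199158046720))) (P (nat_lit 0))))) (T.h (T.h (P (nat_lit 0)) (T.h (T.h (M (nat_lit 11470395129475534684159)) (T.h (P (nat_lit 0)) (M (nat_lit 21820328043151359)))) (T.h (P (nat_lit 0)) (M (nat_lit 28259372670091263))))) (T.h (T.h (T.h (P (nat_lit 0)) (M (nat_lit 34246235936746635263))) (P (nat_lit 0))) (T.h (T.h (P (nat_lit 0)) (M (nat_lit 48452197856411647))) (P (nat_lit 0))))))), (P (nat_lit 0)), (T.h (T.h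 (T.h (M (nat_lit 99909648655724536380581048483839)) (T.h (P (nat_lit 0)) (T.h (P (nat_lit 1537303026863677219274752)) (T.h (P (nat_lit 0)) (T.h (M (nat_lit 7478722740816445439)) (T.h (P (nat_lit 0)) (M (nat_lit 56803544022671)))))))) (T.h (P (nat_lit 0)) (T.h (T.h (P (nat_lit 10438904556057964207669248)) (T.h (P (nat_lit 0)) (T.h (P (nat_lit 3858024237247758336)) (T.h (P (nat_lit 0)) (P (nat_lit 101867935691088)))))) (T.h (P (nat_lit 0)) (T.h (T.h (M (nat_lit 3079660293249302527)) (T.h (P (nat_lit 0)) (M (nat_lit 20140321589711)))) (T.h (P (nat_lit 0)) (M (nat_lit 1776113164223)))))))) (T.h (T.h (P (nat_lit 0)) (T.h (T.h (P (nat_lit 0)) (T.h (M (nat_lit 24792577964494502756351)) (T.h (P (nat_lit 0)) (M (nat_lit 41970387647889407))))) (T.h (P (nat_lit 0)) (T.h (T.h (P (nat_lit 0)) (M (nat_lit 38777993416015871))) (P (nat_lit 0)))))) (T.h (T.h (T.h (P (nat_lit 1537303026863677219274752)) (T.h (P (nat_lit 0)) (T.h (P (nat_lit 170199004916551254016))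 (T.h (P (nat_lit 0)) (P (nat_lit 372699232900704)))))) (T.h (P (nat_lit 0)) (T.h (T.h (P (nat_lit 3858024237247758336)) (T.h (P (nat_lit 0)) (P (nat_lit 911442555360)))) (T.h (P (nat_lit 0)) (M (nat_lit 20140321589711)))))) (T.h (T.h (P (nat_lit 0)) (T.h (T.h (P (nat_lit 0)) (M (nat_lit 41970387647889407))) (P (nat_lit 0)))) (T.h (T.h (T.h (M (nat_lit 7478722740816445439)) (T.h (P (nat_lit 0)) (P (nat_lit 372699232900704)))) (T.h (P (nat_lit 0)) (P (nat_lit 101867935691088)))) (T.h (P (nat_lit 0)) (M (nat_lit 56803544022671)))))))), (T.h (T.h (T.h (P (nat_lit 0)) (T.h (P (nat_lit 2431989740396183413638299648)) (T.h (P (nat_lit 0)) (T.h (P (nat_lit 13155666161854431887360)) (T.h (P (nat_lit 0)) (P (nat_lit 86333522932170752))))))) (T.h (P (nat_lit 0)) (T.h (T.h (P (nat_lit 0)) (T.h (M (nat_lit 2389731705158014861311)) (T.h (P (nat_lit 0)) (M (nat_lit 84716766919393279))))) (T.h (P (nat_lit 0)) (T.h (T.h (P (nat_lit 0)) (M (nat_lit 737280053051391)))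 (P (nat_lit 0))))))) (T.h (T.h (P (nat_lit 0)) (T.h (T.h (P (nat_lit 2731529024111075150266368)) (T.h (P (nat_lit 0)) (P (nat_lit 43502318328160976896)))) (T.h (P (nat_lit 0)) (P (nat_lit 2922520119437426688))))) (T.h (T.h (T.h (P (nat_lit 0)) (T.h (M (nat_lit 67764700985457142398975)) (T.h (P (nat_lit 0)) (M (nat_lit 344310799049883647))))) (T.h (P (nat_lit 0)) (T.h (T.h (P (nat_lit 0)) (M (nat_lit 13085180765306879))) (P (nat_lit 0))))) (T.h (T.h (P (nat_lit 0)) (M (nat_lit 14446821862908362751))) (T.h (T.h (T.h (P (nat_lit 0)) (M (nat_lit 157432470344531967))) (P (nat_lit 0))) (P (nat_lit 0)))))))]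
def lP12_8 : List (T ℤ) := [(P (nat_lit 0)), (T.h (T.h (P (nat_lit 0)) (T.h (T.h (M (nat_lit 5327367447308101761250623487)) (T.h (P (nat_lit 0)) (T.h (M (nat_lit 10353613219124626849791)) (T.h (P (nat_lit 0)) (M (nat_lit 46361229398966271)))))) (T.h (P (nat_lit 0)) (T.h (T.h (P (nat_lit 11388161166645179449344)) (T.h (P (nat_lit 0)) (P (nat_lit 18332168273657856)))) (T.h (P (nat_lit 0)) (P (nat_lit 2424986506887168))))))) (T.h (T.h (T.h (P (nat_lit 0)) (T.h (P (nat_lit 5308504745692747890950144)) (T.h (P (nat_lit 0)) (P (nat_lit 14637703011229499392))))) (T.h (P (nat_lit 0)) (T.h (T.h (P (nat_lit 0)) (M (nat_lit 10827735736636145663))) (P (nat_lit 0))))) (T.h (T.h (P (nat_lit 0)) (T.h (T.h (M (nat_lit 10353613219124626849791)) (T.h (P (nat_lit 0)) (M (nat_lit 414807634083839)))) (T.h (P (nat_lit 0)) (P (nat_lit 18332168273657856))))) (T.h (T.h (T.h (P (nat_lit 0)) (P (nat_lit 14637703011229499392))) (P (nat_lit 0))) (T.h (T.h (P (nat_lit 0)) (M (nat_lit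 46361229398966271))) (P (nat_lit 0))))))), (P (nat_lit 0)), (P (nat_lit 0)), (P (nat_lit 0)), (T.h (T.h (T.h (P (nat_lit 0)) (T.h (P (nat_lit 0)) (T.h (M (nat_lit 1847437829613108580057087)) (T.h (P (nat_lit 0)) (T.h (P (nat_lit 2811206516260995072)) (T.h (P (nat_lit 0)) (P (nat_lit 33450551520)))))))) (T.h (P (nat_lit 0)) (T.h (T.h (P (nat_lit 1591513397136191070928896)) (T.h (P (nat_lit 0)) (T.h (P (nat_lit 6011736793303482368)) (T.h (P (nat_lit 0)) (M (nat_lit 6169681091111)))))) (T.h (P (nat_lit 0)) (T.h (T.h (M (nat_lit 5433633972192018431)) (T.h (P (nat_lit 0)) (M (nat_lit 3634953778983)))) (T.h (P (nat_lit 0)) (M (nat_lit 207423927271)))))))) (T.h (T.h (P (nat_lit 0)) (T.h (T.h (P (nat_lit 0)) (T.h (M (nat_lit 4860484009838331822079)) (T.h (P (nat_lit 0)) (M (nat_lit 6817391644573695))))) (T.h (P (nat_lit 0)) (T.h (T.h (P (nat_lit 0)) (P (nat_lit 732223472074752))) (P (nat_lit 0)))))) (T.h (T.h (T.h (P (nat_lit 1591513397136191070928896))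 (T.h (P (nat_lit 0)) (T.h (P (nat_lit 6011736793303482368)) (T.h (P (nat_lit 0)) (M (nat_lit 6169681091111)))))) (T.h (P (nat_lit 0)) (T.h (T.h (M (nat_lit 878295484609855487)) (T.h (P (nat_lit 0)) (M (nat_lit 1554604374767)))) (T.h (P (nat_lit 0)) (M (nat_lit 1743806021535)))))) (T.h (T.h (P (nat_lit 0)) (T.h (T.h (P (nat_lit 0)) (P (nat_lit 732223472074752))) (P (nat_lit 0)))) (T.h (T.h (T.h (M (nat_lit 5433633972192018431)) (T.h (P (nat_lit 0)) (M (nat_lit 3634953778983)))) (T.h (P (nat_lit 0)) (M (nat_lit 1743806021535)))) (T.h (P (nat_lit 0)) (M (nat_lit 207423927271)))))))), (P (nat_lit 0)), (T.h (T.h (T.h (P (nat_lit 956537394001454605016563187712)) (T.h (P (nat_lit 0)) (T.h (P (nat_lit 2599679799447928914837504)) (T.h (P (nat_lit 0)) (M (nat_lit 3056361256114978815)))))) (T.h (P (nat_lit 0)) (T.h (T.h (M (nat_lit 1666370363400297910370303)) (T.h (P (nat_lit 0)) (M (nat_lit 5480924979304333311)))) (T.h (P (nat_lit 0)) (P (nat_lit 6279527691615993856))))))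 (T.h (T.h (P (nat_lit 0)) (T.h (T.h (P (nat_lit 0)) (T.h (P (nat_lit 512003772086032007168)) (T.h (P (nat_lit 0)) (P (nat_lit 7872225239891968))))) (T.h (P (nat_lit 0)) (T.h (T.h (P (nat_lit 0)) (P (nat_lit 7317009590779904))) (P (nat_lit 0)))))) (T.h (T.h (T.h (M (nat_lit 1666370363400297910370303)) (T.h (P (nat_lit 0)) (M (nat_lit 5480924979304333311)))) (T.h (P (nat_lit 0)) (M (nat_lit 1570151647621939199)))) (T.h (T.h (P (nat_lit 0)) (T.h (T.h (P (nat_lit 0)) (P (nat_lit 7317009590779904))) (P (nat_lit 0)))) (P (nat_lit 6279527691615993856))))))]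
def lP12_9 : List (T ℤ) := [(P (nat_lit 0)), (P (nat_lit 0)), (P (nat_lit 0)), (P (nat_lit 0)), (T.h (T.h (P (nat_lit 0)) (T.h (T.h (P (nat_lit 0)) (T.h (P (nat_lit 10617638360526662915850240)) (T.h (P (nat_lit 0)) (T.h (P (nat_lit 15860024196877778944)) (T.h (P (nat_lit 0)) (M (nat_lit 18953120801087))))))) (T.h (P (nat_lit 0)) (T.h (T.h (P (nat_lit 0)) (T.h (M (nat_lit 13251327461750210559)) (T.h (P (nat_lit 0)) (M (nat_lit 22622211673263))))) (T.h (P (nat_lit 0)) (T.h (T.h (P (nat_lit 0)) (P (nat_lit 3691300440928))) (P (nat_lit 0)))))))) (T.h (T.h (T.h (M (nat_lit 1730283675506176354949267455)) (T.h (P (nat_lit 0)) (T.h (P (nat_lit 24208577655350744842240)) (T.h (P (nat_lit 0)) (P (nat_lit 57874122734960640)))))) (T.h (P (nat_lit 0)) (T.h (T.h (P (nat_lit 7376661366934528327680)) (T.h (P (nat_lit 0)) (M (nat_lit 19105517093126143)))) (T.h (P (nat_lit 0)) (P (nat_lit 15355435223744512)))))) (T.h (T.h (P (nat_lit 0)) (T.h (T.h (P (nat_lit 0)) (T.h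 (P (nat_lit 2821678096426467328)) (T.h (P (nat_lit 0)) (P (nat_lit 13106840156224))))) (T.h (P (nat_lit 0)) (T.h (T.h (P (nat_lit 0)) (M (nat_lit 44327641848271))) (P (nat_lit 0)))))) (T.h (T.h (T.h (M (nat_lit 16668899781875844775935)) (T.h (P (nat_lit 0)) (M (nat_lit 48250352217817087)))) (T.h (P (nat_lit 0)) (M (nat_lit 62403519793856511)))) (T.h (T.h (P (nat_lit 0)) (T.h (T.h (P (nat_lit 0)) (P (nat_lit 11215191106128))) (P (nat_lit 0)))) (M (nat_lit 8745116766437375))))))), (T.h (T.h (P (nat_lit 0)) (T.h (T.h (P (nat_lit 20984392715099619162048167936)) (T.h (P (nat_lit 0)) (T.h (M (nat_lit 8223931429363535314943)) (T.h (P (nat_lit 0)) (P (nat_lit 26419758957936640)))))) (T.h (P (nat_lit 0)) (T.h (T.h (P (nat_lit 19697029159794532941824)) (T.h (P (nat_lit 0)) (M (nat_lit 46708690346541055)))) (T.h (P (nat_lit 0)) (P (nat_lit 15994898100060160))))))) (T.h (T.h (T.h (P (nat_lit 0)) (T.h (M (nat_lit 23016326667677892480073727)) (T.h (P (nat_lit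 0)) (T.h (M (nat_lit 4386139381002403839)) (T.h (P (nat_lit 0)) (M (nat_lit 14450944174591))))))) (T.h (P (nat_lit 0)) (T.h (T.h (P (nat_lit 0)) (T.h (P (nat_lit 29677769012967112704)) (T.h (P (nat_lit 0)) (M (nat_lit 4144068559599))))) (T.h (P (nat_lit 0)) (T.h (T.h (P (nat_lit 0)) (P (nat_lit 50708355223312))) (P (nat_lit 0))))))) (T.h (T.h (P (nat_lit 0)) (T.h (T.h (M (nat_lit 17505257867323948138495)) (T.h (P (nat_lit 0)) (M (nat_lit 738227850690559)))) (T.h (P (nat_lit 0)) (M (nat_lit 33918669731856383))))) (T.h (T.h (T.h (P (nat_lit 0)) (T.h (P (nat_lit 3997095405463535616)) (T.h (P (nat_lit 0)) (P (nat_lit 6020971354256))))) (T.h (P (nat_lit 0)) (T.h (T.h (P (nat_lit 0)) (P (nat_lit 1500860940832))) (P (nat_lit 0))))) (T.h (T.h (P (nat_lit 0)) (M (nat_lit 93291811182837759))) (T.h (T.h (T.h (P (nat_lit 0)) (P (nat_lit 40339979884256))) (P (nat_lit 0))) (P (nat_lit 0)))))))), (T.h (T.h (P (nat_lit 0)) (T.h (T.h (P (nat_lit 0)) (T.h (M (nat_lit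 3919503683928011059494911)) (T.h (P (nat_lit 0)) (T.h (M (nat_lit 41616835594801905663)) (T.h (P (nat_lit 0)) (P (nat_lit 8815688868816))))))) (T.h (P (nat_lit 0)) (T.h (T.h (P (nat_lit 0)) (T.h (P (nat_lit 2733589374418550784)) (T.h (P (nat_lit 0)) (P (nat_lit 22388334389568))))) (T.h (P (nat_lit 0)) (T.h (T.h (P (nat_lit 0)) (M (nat_lit 11562789853775))) (P (nat_lit 0)))))))) (T.h (T.h (T.h (P (nat_lit 1522602040369985495815421952)) (T.h (P (nat_lit 0)) (T.h (M (nat_lit 33931656176052052426751)) (T.h (P (nat_lit 0)) (M (nat_lit 19905126673973247)))))) (T.h (P (nat_lit 0)) (T.h (T.h (P (nat_lit 64665519969882918092800)) (T.h (P (nat_lit 0)) (P (nat_lit 38357597218897920)))) (T.h (P (nat_lit 0)) (P (nat_lit 138508292012769280)))))) (T.h (T.h (P (nat_lit 0)) (T.h (T.h (P (nat_lit 0)) (T.h (M (nat_lit 78594571393908604927)) (T.h (P (nat_lit 0)) (M (nat_lit 8955757893743))))) (T.h (P (nat_lit 0)) (T.h (T.h (P (nat_lit 0)) (P (nat_lit 29719564744560)))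 (P (nat_lit 0)))))) (T.h (T.h (T.h (P (nat_lit 7937550552990899765248)) (T.h (P (nat_lit 0)) (P (nat_lit 137158350876770304)))) (T.h (P (nat_lit 0)) (P (nat_lit 429606139338620928)))) (T.h (T.h (P (nat_lit 0)) (T.h (T.h (P (nat_lit 0)) (M (nat_lit 20837185961087))) (P (nat_lit 0)))) (M (nat_lit 78234174940774399))))))), (T.h (T.h (P (nat_lit 0)) (T.h (T.h (M (nat_lit 20545763807070606543294562303)) (T.h (P (nat_lit 0)) (T.h (P (nat_lit 12135496075166393303040)) (T.h (P (nat_lit 0)) (M (nat_lit 35881187698753535)))))) (T.h (P (nat_lit 0)) (T.h (T.h (M (nat_lit 19160979863630824603647)) (T.h (P (nat_lit 0)) (P (nat_lit 52158500142071808)))) (T.h (P (nat_lit 0)) (M (nat_lit 14971273895362559))))))) (T.h (T.h (T.h (P (nat_lit 0)) (T.h (P (nat_lit 30576525179669562771111936)) (T.h (P (nat_lit 0)) (T.h (M (nat_lit 4299253708392235007)) (T.h (P (nat_lit 0)) (P (nat_lit 8704128682512))))))) (T.h (P (nat_lit 0)) (T.h (T.h (P (nat_lit 0)) (T.h (M (nat_lit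 60109996656355704831)) (T.h (P (nat_lit 0)) (P (nat_lit 18560116891440))))) (T.h (P (nat_lit 0)) (T.h (T.h (P (nat_lit 0)) (M (nat_lit 53556555107663))) (P (nat_lit 0))))))) (T.h (T.h (P (nat_lit 0)) (T.h (T.h (P (nat_lit 18225494033046599368704)) (T.h (P (nat_lit 0)) (P (nat_lit 43606495874285568)))) (T.h (P (nat_lit 0)) (P (nat_lit 54131820061376512))))) (T.h (T.h (T.h (P (nat_lit 0)) (T.h (M (nat_lit 14785903864523522047)) (T.h (P (nat_lit 0)) (M (nat_lit 11727087712703))))) (T.h (P (nat_lit 0)) (T.h (T.h (P (nat_lit 0)) (P (nat_lit 22287634534368))) (P (nat_lit 0))))) (T.h (T.h (P (nat_lit 0)) (P (nat_lit 79124825958711296))) (T.h (T.h (T.h (P (nat_lit 0)) (M (nat_lit 38574100311983))) (P (nat_lit 0))) (P (nat_lit 0))))))))]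
def lP12_10 : List (T ℤ) := [(T.h (T.h (P (nat_lit 0)) (T.h (T.h (P (nat_lit 0)) (T.h (P (nat_lit 2731529024111075150266368)) (T.h (P (nat_lit 0)) (P (nat_lit 2922520119437426688))))) (T.h (P (nat_lit 0)) (T.h (T.h (P (nat_lit 0)) (M (nat_lit 14446821862908362751))) (P (nat_lit 0)))))) (T.h (T.h (T.h (P (nat_lit 2431989740396183413638299648)) (T.h (P (nat_lit 0)) (T.h (M (nat_lit 2389731705158014861311)) (T.h (P (nat_lit 0)) (M (nat_lit 737280053051391)))))) (T.h (P (nat_lit 0)) (T.h (T.h (M (nat_lit 67764700985457142398975)) (T.h (P (nat_lit 0)) (M (nat_lit 13085180765306879)))) (T.h (P (nat_lit 0)) (M (nat_lit 157432470344531967)))))) (T.h (T.h (P (nat_lit 0)) (T.h (T.h (P (nat_lit 0)) (P (nat_lit 43502318328160976896))) (P (nat_lit 0)))) (T.h (T.h (T.h (P (nat_lit 13155666161854431887360)) (T.h (P (nat_lit 0)) (M (nat_lit 84716766919393279)))) (T.h (P (nat_lit 0)) (M (nat_lit 344310799049883647)))) (T.h (P (nat_lit 0)) (P (nat_lit 86333522932170752))))))),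 (P (nat_lit 0)), (P (nat_lit 0)), (T.h (T.h (T.h (P (nat_lit 0)) (T.h (P (nat_lit 0)) (T.h (M (nat_lit 4847321286474838405283839)) (T.h (P (nat_lit 0)) (T.h (P (nat_lit 4371437331131924480)) (T.h (P (nat_lit 0)) (P (nat_lit 3171521746176)))))))) (T.h (P (nat_lit 0)) (T.h (T.h (P (nat_lit 47788217219160177901568000)) (T.h (P (nat_lit 0)) (T.h (P (nat_lit 41182961548484673536)) (T.h (P (nat_lit 0)) (M (nat_lit 14985892133559)))))) (T.h (P (nat_lit 0)) (T.h (T.h (M (nat_lit 45126466845659889663)) (T.h (P (nat_lit 0)) (M (nat_lit 37172548194743)))) (T.h (P (nat_lit 0)) (M (nat_lit 5371515761143)))))))) (T.h (T.h (P (nat_lit 0)) (T.h (T.h (P (nat_lit 0)) (T.h (M (nat_lit 24655746901314686156799)) (T.h (P (nat_lit 0)) (M (nat_lit 5167285466333183))))) (T.h (P (nat_lit 0)) (T.h (T.h (P (nat_lit 0)) (P (nat_lit 32215686815514624))) (P (nat_lit 0)))))) (T.h (T.h (T.h (M (nat_lit 13409089290889377311883263)) (T.h (P (nat_lit 0)) (T.h (P (nat_lit 57304933053845471232))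 (T.h (P (nat_lit 0)) (M (nat_lit 42916217160175)))))) (T.h (P (nat_lit 0)) (T.h (T.h (P (nat_lit 16513724724325384192)) (T.h (P (nat_lit 0)) (P (nat_lit 14687711169568)))) (T.h (P (nat_lit 0)) (P (nat_lit 32043256136392)))))) (T.h (T.h (P (nat_lit 0)) (T.h (T.h (P (nat_lit 0)) (M (nat_lit 39906858665836543))) (P (nat_lit 0)))) (T.h (T.h (T.h (M (nat_lit 10227337876387921919)) (T.h (P (nat_lit 0)) (P (nat_lit 26407662904352)))) (T.h (P (nat_lit 0)) (P (nat_lit 12833359573904)))) (T.h (P (nat_lit 0)) (M (nat_lit 8562567358111)))))))), (T.h (T.h (T.h (P (nat_lit 0)) (T.h (P (nat_lit 1980409599325634221637107712)) (T.h (P (nat_lit 0)) (T.h (M (nat_lit 15055359175053937737727)) (T.h (P (nat_lit 0)) (P (nat_lit 3262392835637248))))))) (T.h (P (nat_lit 0)) (T.h (T.h (P (nat_lit 0)) (T.h (M (nat_lit 3622323455901260840959)) (T.h (P (nat_lit 0)) (M (nat_lit 38455619674882047))))) (T.h (P (nat_lit 0)) (T.h (T.h (P (nat_lit 0)) (M (nat_lit 32889710490746879)))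 (P (nat_lit 0))))))) (T.h (T.h (P (nat_lit 0)) (T.h (T.h (M (nat_lit 17906321837193087961530367)) (T.h (P (nat_lit 0)) (T.h (M (nat_lit 4387270251864129535)) (T.h (P (nat_lit 0)) (P (nat_lit 3163502112640)))))) (T.h (P (nat_lit 0)) (T.h (T.h (M (nat_lit 28621299218955370495)) (T.h (P (nat_lit 0)) (P (nat_lit 7964610238816)))) (T.h (P (nat_lit 0)) (M (nat_lit 57105588554927))))))) (T.h (T.h (T.h (P (nat_lit 0)) (T.h (M (nat_lit 3622323455901260840959)) (T.h (P (nat_lit 0)) (M (nat_lit 38455619674882047))))) (T.h (P (nat_lit 0)) (T.h (T.h (P (nat_lit 0)) (P (nat_lit 53787962859716608))) (P (nat_lit 0))))) (T.h (T.h (P (nat_lit 0)) (T.h (T.h (M (nat_lit 28621299218955370495)) (T.h (P (nat_lit 0)) (P (nat_lit 7964610238816)))) (T.h (P (nat_lit 0)) (M (nat_lit 33666772764575))))) (T.h (T.h (T.h (P (nat_lit 0)) (M (nat_lit 32889710490746879))) (P (nat_lit 0))) (T.h (T.h (P (nat_lit 0)) (M (nat_lit 57105588554927))) (P (nat_lit 0)))))))), (T.h (T.h (T.h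 (M (nat_lit 11077947508909442919583681871871)) (T.h (P (nat_lit 0)) (T.h (P (nat_lit 19123124772311561677045760)) (T.h (P (nat_lit 0)) (T.h (P (nat_lit 11700863721814360064)) (T.h (P (nat_lit 0)) (P (nat_lit 954741325344)))))))) (T.h (P (nat_lit 0)) (T.h (T.h (M (nat_lit 55388462868316033206190079)) (T.h (P (nat_lit 0)) (T.h (M (nat_lit 30334559144332230655)) (T.h (P (nat_lit 0)) (P (nat_lit 45145893431616)))))) (T.h (P (nat_lit 0)) (T.h (T.h (P (nat_lit 43070600836731109376)) (T.h (P (nat_lit 0)) (P (nat_lit 17775325846896)))) (T.h (P (nat_lit 0)) (P (nat_lit 8789193732672)))))))) (T.h (T.h (P (nat_lit 0)) (T.h (T.h (P (nat_lit 0)) (T.h (M (nat_lit 19563055938991294513151)) (T.h (P (nat_lit 0)) (P (nat_lit 57373052668018688))))) (T.h (P (nat_lit 0)) (T.h (T.h (P (nat_lit 0)) (M (nat_lit 78398880214024191))) (P (nat_lit 0)))))) (T.h (T.h (T.h (M (nat_lit 2540209914987289218383871)) (T.h (P (nat_lit 0)) (T.h (P (nat_lit 86086566167315480576)) (T.h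 (P (nat_lit 0)) (P (nat_lit 45145893431616)))))) (T.h (P (nat_lit 0)) (T.h (T.h (P (nat_lit 164976555313218977792)) (T.h (P (nat_lit 0)) (P (nat_lit 12074435503008)))) (T.h (P (nat_lit 0)) (M (nat_lit 21055996758767)))))) (T.h (T.h (P (nat_lit 0)) (T.h (T.h (P (nat_lit 0)) (M (nat_lit 25895269782388735))) (P (nat_lit 0)))) (T.h (T.h (T.h (P (nat_lit 21521101271114711040)) (T.h (P (nat_lit 0)) (P (nat_lit 17775325846896)))) (T.h (P (nat_lit 0)) (M (nat_lit 21055996758767)))) (T.h (P (nat_lit 0)) (P (nat_lit 8789193732672)))))))), (T.h (T.h (T.h (P (nat_lit 0)) (T.h (M (nat_lit 15405244956953180929827799039)) (T.h (P (nat_lit 0)) (T.h (P (nat_lit 34299267896437284798464)) (T.h (P (nat_lit 0)) (P (nat_lit 25436756187906048))))))) (T.h (P (nat_lit 0)) (T.h (T.h (P (nat_lit 0)) (T.h (P (nat_lit 58377955448778397843456)) (T.h (P (nat_lit 0)) (M (nat_lit 50331468078694399))))) (T.h (P (nat_lit 0)) (T.h (T.h (P (nat_lit 0)) (P (nat_lit 25069513072984064)))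 (P (nat_lit 0))))))) (T.h (T.h (P (nat_lit 0)) (T.h (T.h (P (nat_lit 26414870613408005553651712)) (T.h (P (nat_lit 0)) (T.h (M (nat_lit 319395816159282462719)) (T.h (P (nat_lit 0)) (P (nat_lit 93337690111776)))))) (T.h (P (nat_lit 0)) (T.h (T.h (P (nat_lit 17283595094275915776)) (T.h (P (nat_lit 0)) (M (nat_lit 38582463213215)))) (T.h (P (nat_lit 0)) (P (nat_lit 68505149127168))))))) (T.h (T.h (T.h (P (nat_lit 0)) (T.h (P (nat_lit 58377955448778397843456)) (T.h (P (nat_lit 0)) (M (nat_lit 50331468078694399))))) (T.h (P (nat_lit 0)) (T.h (T.h (P (nat_lit 0)) (M (nat_lit 20279104758906879))) (P (nat_lit 0))))) (T.h (T.h (P (nat_lit 0)) (T.h (T.h (P (nat_lit 17283595094275915776)) (T.h (P (nat_lit 0)) (M (nat_lit 38582463213215)))) (T.h (P (nat_lit 0)) (P (nat_lit 31906044562176))))) (T.h (T.h (T.h (P (nat_lit 0)) (P (nat_lit 25069513072984064))) (P (nat_lit 0))) (T.h (T.h (P (nat_lit 0)) (P (nat_lit 68505149127168))) (P (nat_lit 0)))))))), (T.h (T.h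 (T.h (P (nat_lit 12287190180425606716005116018688)) (T.h (P (nat_lit 0)) (T.h (M (nat_lit 3836605376147847800422399)) (T.h (P (nat_lit 0)) (M (nat_lit 34747549758858985471)))))) (T.h (P (nat_lit 0)) (T.h (T.h (M (nat_lit 822633096902632366145535)) (T.h (P (nat_lit 0)) (M (nat_lit 65115326894967881727)))) (T.h (P (nat_lit 0)) (M (nat_lit 6177230466576285695)))))) (T.h (T.h (P (nat_lit 0)) (T.h (T.h (P (nat_lit 0)) (T.h (P (nat_lit 126306685842223500623872)) (T.h (P (nat_lit 0)) (M (nat_lit 101851870552260607))))) (T.h (P (nat_lit 0)) (T.h (T.h (P (nat_lit 0)) (P (nat_lit 56164324190060544))) (P (nat_lit 0)))))) (T.h (T.h (T.h (M (nat_lit 822633096902632366145535)) (T.h (P (nat_lit 0)) (M (nat_lit 65115326894967881727)))) (T.h (P (nat_lit 0)) (M (nat_lit 183649484888055218175)))) (T.h (T.h (P (nat_lit 0)) (T.h (T.h (P (nat_lit 0)) (P (nat_lit 56164324190060544))) (P (nat_lit 0)))) (M (nat_lit 6177230466576285695))))))]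
def lP12_11 : List (T ℤ) := [(P (nat_lit 0)), (P (nat_lit 0)), (T.h (T.h (P (nat_lit 0)) (T.h (T.h (P (nat_lit 0)) (T.h (P (nat_lit 49272808432764750105935872)) (T.h (P (nat_lit 0)) (T.h (P (nat_lit 14326493693131882496)) (T.h (P (nat_lit 0)) (M (nat_lit 51045769731759))))))) (T.h (P (nat_lit 0)) (T.h (T.h (P (nat_lit 0)) (T.h (P (nat_lit 14326493693131882496)) (T.h (P (nat_lit 0)) (M (nat_lit 99518722208543))))) (T.h (P (nat_lit 0)) (T.h (T.h (P (nat_lit 0)) (M (nat_lit 51045769731759))) (P (nat_lit 0)))))))) (T.h (T.h (T.h (P (nat_lit 7067883162817083330290253824)) (T.h (P (nat_lit 0)) (T.h (M (nat_lit 75841419233711429255167)) (T.h (P (nat_lit 0)) (P (nat_lit 13177452634570752)))))) (T.h (P (nat_lit 0)) (T.h (T.h (M (nat_lit 75841419233711429255167)) (T.h (P (nat_lit 0)) (P (nat_lit 78475825977229312)))) (T.h (P (nat_lit 0)) (P (nat_lit 13177452634570752)))))) (T.h (T.h (P (nat_lit 0)) (T.h (T.h (P (nat_lit 0)) (T.h (M (nat_lit 23196300775184662527))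 (T.h (P (nat_lit 0)) (P (nat_lit 95519489563616))))) (T.h (P (nat_lit 0)) (T.h (T.h (P (nat_lit 0)) (P (nat_lit 95519489563616))) (P (nat_lit 0)))))) (T.h (T.h (T.h (P (nat_lit 34241053326966138077184)) (T.h (P (nat_lit 0)) (M (nat_lit 51330716222291967)))) (T.h (P (nat_lit 0)) (M (nat_lit 51330716222291967)))) (T.h (T.h (P (nat_lit 0)) (T.h (T.h (P (nat_lit 0)) (P (nat_lit 10409735701408))) (P (nat_lit 0)))) (M (nat_lit 6241919175884799))))))), (T.h (T.h (P (nat_lit 0)) (T.h (T.h (M (nat_lit 17659951530170901767705853951)) (T.h (P (nat_lit 0)) (T.h (P (nat_lit 58650704618747651424256)) (T.h (P (nat_lit 0)) (P (nat_lit 71761040527261696)))))) (T.h (P (nat_lit 0)) (T.h (T.h (P (nat_lit 5564071054108727967744)) (T.h (P (nat_lit 0)) (P (nat_lit 34555186056429568)))) (T.h (P (nat_lit 0)) (P (nat_lit 11843724323946496))))))) (T.h (T.h (T.h (P (nat_lit 0)) (T.h (M (nat_lit 29958964082896697032703999)) (T.h (P (nat_lit 0)) (T.h (P (nat_lit 16255017564403400704))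 (T.h (P (nat_lit 0)) (M (nat_lit 35685065481487))))))) (T.h (P (nat_lit 0)) (T.h (T.h (P (nat_lit 0)) (T.h (M (nat_lit 110232834500051599359)) (T.h (P (nat_lit 0)) (M (nat_lit 1228216181215))))) (T.h (P (nat_lit 0)) (T.h (T.h (P (nat_lit 0)) (M (nat_lit 6049335980319))) (P (nat_lit 0))))))) (T.h (T.h (P (nat_lit 0)) (T.h (T.h (P (nat_lit 62838136550265211322368)) (T.h (P (nat_lit 0)) (M (nat_lit 116121369701367807)))) (T.h (P (nat_lit 0)) (P (nat_lit 17784403227607040))))) (T.h (T.h (T.h (P (nat_lit 0)) (T.h (M (nat_lit 38902030640963649535)) (T.h (P (nat_lit 0)) (M (nat_lit 13381475394175))))) (T.h (P (nat_lit 0)) (T.h (T.h (P (nat_lit 0)) (P (nat_lit 31589154588192))) (P (nat_lit 0))))) (T.h (T.h (P (nat_lit 0)) (P (nat_lit 35350754512633856))) (T.h (T.h (T.h (P (nat_lit 0)) (P (nat_lit 15958812818176))) (P (nat_lit 0))) (P (nat_lit 0)))))))), (T.h (T.h (P (nat_lit 0)) (T.h (T.h (P (nat_lit 0)) (T.h (M (nat_lit 96059573060563486954749951)) (T.h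 (P (nat_lit 0)) (T.h (P (nat_lit 117391863594512023552)) (T.h (P (nat_lit 0)) (P (nat_lit 60196247186208))))))) (T.h (P (nat_lit 0)) (T.h (T.h (P (nat_lit 0)) (T.h (M (nat_lit 89677988142409318399)) (T.h (P (nat_lit 0)) (P (nat_lit 39743026870800))))) (T.h (P (nat_lit 0)) (T.h (T.h (P (nat_lit 0)) (M (nat_lit 1438918448639))) (P (nat_lit 0)))))))) (T.h (T.h (T.h (P (nat_lit 7572974504540364727677616128)) (T.h (P (nat_lit 0)) (T.h (M (nat_lit 26520198771341483048959)) (T.h (P (nat_lit 0)) (P (nat_lit 37582211721789440)))))) (T.h (P (nat_lit 0)) (T.h (T.h (P (nat_lit 56543335380901861261312)) (T.h (P (nat_lit 0)) (M (nat_lit 178420177640587263)))) (T.h (P (nat_lit 0)) (P (nat_lit 102352070212616192)))))) (T.h (T.h (P (nat_lit 0)) (T.h (T.h (P (nat_lit 0)) (T.h (P (nat_lit 107975653592171282432)) (T.h (P (nat_lit 0)) (M (nat_lit 95885928699887))))) (T.h (P (nat_lit 0)) (T.h (T.h (P (nat_lit 0)) (P (nat_lit 18532277689920))) (P (nat_lit 0)))))) (T.h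 (T.h (T.h (M (nat_lit 113520182306435500081151)) (T.h (P (nat_lit 0)) (M (nat_lit 118692639524061183)))) (T.h (P (nat_lit 0)) (M (nat_lit 1687626253697023)))) (T.h (T.h (P (nat_lit 0)) (T.h (T.h (P (nat_lit 0)) (M (nat_lit 858351454991))) (P (nat_lit 0)))) (M (nat_lit 23784138303766527))))))), (T.h (T.h (P (nat_lit 0)) (T.h (T.h (M (nat_lit 3204733460397538933508931583)) (T.h (P (nat_lit 0)) (T.h (P (nat_lit 189533633965619006144512)) (T.h (P (nat_lit 0)) (M (nat_lit 159947440549658623)))))) (T.h (P (nat_lit 0)) (T.h (T.h (M (nat_lit 69418260137388823019519)) (T.h (P (nat_lit 0)) (P (nat_lit 58042506824548352)))) (T.h (P (nat_lit 0)) (M (nat_lit 69814345750593535))))))) (T.h (T.h (T.h (P (nat_lit 0)) (T.h (P (nat_lit 10272478443104322537390080)) (T.h (P (nat_lit 0)) (T.h (P (nat_lit 92046784355859693568)) (T.h (P (nat_lit 0)) (P (nat_lit 32752559787552))))))) (T.h (P (nat_lit 0)) (T.h (T.h (P (nat_lit 0)) (T.h (M (nat_lit 25283953647354380287)) (T.h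 (P (nat_lit 0)) (M (nat_lit 3247963595855))))) (T.h (P (nat_lit 0)) (T.h (T.h (P (nat_lit 0)) (M (nat_lit 139411251903167))) (P (nat_lit 0))))))) (T.h (T.h (P (nat_lit 0)) (T.h (T.h (M (nat_lit 58299763117793543716863)) (T.h (P (nat_lit 0)) (P (nat_lit 196731980638601216)))) (T.h (P (nat_lit 0)) (M (nat_lit 33821400822153215))))) (T.h (T.h (T.h (P (nat_lit 0)) (T.h (P (nat_lit 103460306243349905408)) (T.h (P (nat_lit 0)) (P (nat_lit 12834186665184))))) (T.h (P (nat_lit 0)) (T.h (T.h (P (nat_lit 0)) (M (nat_lit 215827605369791))) (P (nat_lit 0))))) (T.h (T.h (P (nat_lit 0)) (P (nat_lit 118297934862188544))) (T.h (T.h (T.h (P (nat_lit 0)) (M (nat_lit 45849852608687))) (P (nat_lit 0))) (P (nat_lit 0)))))))), (T.h (T.h (P (nat_lit 0)) (T.h (T.h (P (nat_lit 0)) (T.h (M (nat_lit 18488068673796538873413631)) (T.h (P (nat_lit 0)) (P (nat_lit 13067073905649254400))))) (T.h (P (nat_lit 0)) (T.h (T.h (P (nat_lit 0)) (M (nat_lit 3412449340189310975))) (P (nat_lit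 0)))))) (T.h (T.h (T.h (M (nat_lit 1043116937690069580088606719)) (T.h (P (nat_lit 0)) (T.h (P (nat_lit 12925985027821664206848)) (T.h (P (nat_lit 0)) (M (nat_lit 70522602099113983)))))) (T.h (P (nat_lit 0)) (T.h (T.h (M (nat_lit 101464149854981390860287)) (T.h (P (nat_lit 0)) (P (nat_lit 21950935167303680)))) (T.h (P (nat_lit 0)) (M (nat_lit 273430289931173887)))))) (T.h (T.h (P (nat_lit 0)) (T.h (T.h (P (nat_lit 0)) (M (nat_lit 3225623507505250303))) (P (nat_lit 0)))) (T.h (T.h (T.h (P (nat_lit 61764923110046956519424)) (T.h (P (nat_lit 0)) (M (nat_lit 121260396594069503)))) (T.h (P (nat_lit 0)) (M (nat_lit 293207130200866815)))) (T.h (P (nat_lit 0)) (P (nat_lit 114189388980387840))))))), (P (nat_lit 0))]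
def lP12_12 : List (T ℤ) := [(P (nat_lit 0)), (T.h (T.h (T.h (P (nat_lit 0)) (T.h (P (nat_lit 0)) (T.h (P (nat_lit 47788217219160177901568000)) (T.h (P (nat_lit 0)) (T.h (M (nat_lit 45126466845659889663)) (T.h (P (nat_lit 0)) (M (nat_lit 5371515761143)))))))) (T.h (P (nat_lit 0)) (T.h (T.h (M (nat_lit 4847321286474838405283839)) (T.h (P (nat_lit 0)) (T.h (P (nat_lit 41182961548484673536)) (T.h (P (nat_lit 0)) (M (nat_lit 37172548194743)))))) (T.h (P (nat_lit 0)) (T.h (T.h (P (nat_lit 4371437331131924480)) (T.h (P (nat_lit 0)) (M (nat_lit 14985892133559)))) (T.h (P (nat_lit 0)) (P (nat_lit 3171521746176)))))))) (T.h (T.h (P (nat_lit 0)) (T.h (T.h (P (nat_lit 0)) (T.h (M (nat_lit 24655746901314686156799)) (T.h (P (nat_lit 0)) (P (nat_lit 32215686815514624))))) (T.h (P (nat_lit 0)) (T.h (T.h (P (nat_lit 0)) (M (nat_lit 5167285466333183))) (P (nat_lit 0)))))) (T.h (T.h (T.h (M (nat_lit 13409089290889377311883263)) (T.h (P (nat_lit 0)) (T.h (P (nat_lit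 16513724724325384192)) (T.h (P (nat_lit 0)) (P (nat_lit 32043256136392)))))) (T.h (P (nat_lit 0)) (T.h (T.h (P (nat_lit 57304933053845471232)) (T.h (P (nat_lit 0)) (P (nat_lit 14687711169568)))) (T.h (P (nat_lit 0)) (M (nat_lit 42916217160175)))))) (T.h (T.h (P (nat_lit 0)) (T.h (T.h (P (nat_lit 0)) (M (nat_lit 39906858665836543))) (P (nat_lit 0)))) (T.h (T.h (T.h (M (nat_lit 10227337876387921919)) (T.h (P (nat_lit 0)) (P (nat_lit 12833359573904)))) (T.h (P (nat_lit 0)) (P (nat_lit 26407662904352)))) (T.h (P (nat_lit 0)) (M (nat_lit 8562567358111)))))))), (T.h (T.h (T.h (P (nat_lit 0)) (T.h (M (nat_lit 17659951530170901767705853951)) (T.h (P (nat_lit 0)) (T.h (P (nat_lit 5564071054108727967744)) (T.h (P (nat_lit 0)) (P (nat_lit 11843724323946496))))))) (T.h (P (nat_lit 0)) (T.h (T.h (P (nat_lit 0)) (T.h (P (nat_lit 58650704618747651424256)) (T.h (P (nat_lit 0)) (P (nat_lit 34555186056429568))))) (T.h (P (nat_lit 0)) (T.h (T.h (P (nat_lit 0)) (P (nat_lit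 71761040527261696))) (P (nat_lit 0))))))) (T.h (T.h (P (nat_lit 0)) (T.h (T.h (M (nat_lit 29958964082896697032703999)) (T.h (P (nat_lit 0)) (T.h (M (nat_lit 110232834500051599359)) (T.h (P (nat_lit 0)) (M (nat_lit 6049335980319)))))) (T.h (P (nat_lit 0)) (T.h (T.h (P (nat_lit 16255017564403400704)) (T.h (P (nat_lit 0)) (M (nat_lit 1228216181215)))) (T.h (P (nat_lit 0)) (M (nat_lit 35685065481487))))))) (T.h (T.h (T.h (P (nat_lit 0)) (T.h (P (nat_lit 62838136550265211322368)) (T.h (P (nat_lit 0)) (P (nat_lit 17784403227607040))))) (T.h (P (nat_lit 0)) (T.h (T.h (P (nat_lit 0)) (M (nat_lit 116121369701367807))) (P (nat_lit 0))))) (T.h (T.h (P (nat_lit 0)) (T.h (T.h (M (nat_lit 38902030640963649535)) (T.h (P (nat_lit 0)) (P (nat_lit 31589154588192)))) (T.h (P (nat_lit 0)) (M (nat_lit 13381475394175))))) (T.h (T.h (T.h (P (nat_lit 0)) (P (nat_lit 35350754512633856))) (P (nat_lit 0))) (T.h (T.h (P (nat_lit 0)) (P (nat_lit 15958812818176))) (P (nat_lit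 0)))))))), (T.h (T.h (T.h (M (nat_lit 25335067314161138281779312984063)) (T.h (P (nat_lit 0)) (T.h (P (nat_lit 13889744572002981029871616)) (T.h (P (nat_lit 0)) (T.h (M (nat_lit 35309865339168227327)) (T.h (P (nat_lit 0)) (P (nat_lit 2902497922080)))))))) (T.h (P (nat_lit 0)) (T.h (T.h (P (nat_lit 13889744572002981029871616)) (T.h (P (nat_lit 0)) (T.h (P (nat_lit 74128886958156414976)) (T.h (P (nat_lit 0)) (P (nat_lit 16527146365152)))))) (T.h (P (nat_lit 0)) (T.h (T.h (M (nat_lit 35309865339168227327)) (T.h (P (nat_lit 0)) (P (nat_lit 16527146365152)))) (T.h (P (nat_lit 0)) (P (nat_lit 2902497922080)))))))) (T.h (T.h (P (nat_lit 0)) (T.h (T.h (P (nat_lit 0)) (T.h (P (nat_lit 281068597270204595044352)) (T.h (P (nat_lit 0)) (M (nat_lit 63908505377374207))))) (T.h (P (nat_lit 0)) (T.h (T.h (P (nat_lit 0)) (M (nat_lit 63908505377374207))) (P (nat_lit 0)))))) (T.h (T.h (T.h (P (nat_lit 84859068295587606585933824)) (T.h (P (nat_lit 0)) (T.h (P (nat_lit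 153854600449699610624)) (T.h (P (nat_lit 0)) (P (nat_lit 4499002599360)))))) (T.h (P (nat_lit 0)) (T.h (T.h (P (nat_lit 153854600449699610624)) (T.h (P (nat_lit 0)) (M (nat_lit 47898110021855)))) (T.h (P (nat_lit 0)) (P (nat_lit 4499002599360)))))) (T.h (T.h (P (nat_lit 0)) (T.h (T.h (P (nat_lit 0)) (M (nat_lit 122666095770337279))) (P (nat_lit 0)))) (T.h (T.h (T.h (P (nat_lit 77219276455789199360)) (T.h (P (nat_lit 0)) (P (nat_lit 39655346396160)))) (T.h (P (nat_lit 0)) (P (nat_lit 39655346396160)))) (T.h (P (nat_lit 0)) (P (nat_lit 12970141598880)))))))), (T.h (T.h (T.h (P (nat_lit 0)) (T.h (P (nat_lit 67185566505562312745714450432)) (T.h (P (nat_lit 0)) (T.h (P (nat_lit 26688500089316853153792)) (T.h (P (nat_lit 0)) (P (nat_lit 30121564165390336))))))) (T.h (P (nat_lit 0)) (T.h (T.h (P (nat_lit 0)) (T.h (M (nat_lit 118456684448776665956351)) (T.h (P (nat_lit 0)) (P (nat_lit 114024985828311040))))) (T.h (P (nat_lit 0)) (T.h (T.h (P (nat_lit 0))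 (P (nat_lit 108129119820283904))) (P (nat_lit 0))))))) (T.h (T.h (P (nat_lit 0)) (T.h (T.h (P (nat_lit 84474593176145620608483328)) (T.h (P (nat_lit 0)) (T.h (P (nat_lit 291820826445081477120)) (T.h (P (nat_lit 0)) (M (nat_lit 22262947040159)))))) (T.h (P (nat_lit 0)) (T.h (T.h (P (nat_lit 70989944265199583232)) (T.h (P (nat_lit 0)) (M (nat_lit 165739260395375)))) (T.h (P (nat_lit 0)) (P (nat_lit 77442952494384))))))) (T.h (T.h (T.h (P (nat_lit 0)) (T.h (M (nat_lit 101452401124637860167679)) (T.h (P (nat_lit 0)) (P (nat_lit 91725410818899968))))) (T.h (P (nat_lit 0)) (T.h (T.h (P (nat_lit 0)) (P (nat_lit 368374066637406208))) (P (nat_lit 0))))) (T.h (T.h (P (nat_lit 0)) (T.h (T.h (P (nat_lit 67279472290785394688)) (T.h (P (nat_lit 0)) (M (nat_lit 127505483758511)))) (T.h (P (nat_lit 0)) (M (nat_lit 2395349943695))))) (T.h (T.h (T.h (P (nat_lit 0)) (M (nat_lit 75789866623516671))) (P (nat_lit 0))) (T.h (T.h (P (nat_lit 0)) (P (nat_lit 31976606021472)))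 (P (nat_lit 0)))))))), (T.h (T.h (T.h (P (nat_lit 19245058767597118072917487255552)) (T.h (P (nat_lit 0)) (T.h (M (nat_lit 49064869503036694296788991)) (T.h (P (nat_lit 0)) (M (nat_lit 58062886536468234239)))))) (T.h (P (nat_lit 0)) (T.h (T.h (M (nat_lit 8849924118460195124805631)) (T.h (P (nat_lit 0)) (M (nat_lit 78300033919217565695)))) (T.h (P (nat_lit 0)) (P (nat_lit 22472147538827804672)))))) (T.h (T.h (P (nat_lit 0)) (T.h (T.h (P (nat_lit 0)) (T.h (M (nat_lit 171507145602860729761791)) (T.h (P (nat_lit 0)) (M (nat_lit 11742295132012543))))) (T.h (P (nat_lit 0)) (T.h (T.h (P (nat_lit 0)) (P (nat_lit 200573530775552000))) (P (nat_lit 0)))))) (T.h (T.h (T.h (P (nat_lit 59825625941170914374713344)) (T.h (P (nat_lit 0)) (M (nat_lit 45880012597962473471)))) (T.h (P (nat_lit 0)) (M (nat_lit 218013063006075748351)))) (T.h (T.h (P (nat_lit 0)) (T.h (T.h (P (nat_lit 0)) (P (nat_lit 189747104945602560))) (P (nat_lit 0)))) (P (nat_lit 12951678390250766336)))))),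 (P (nat_lit 0)), (T.h (T.h (P (nat_lit 0)) (T.h (T.h (P (nat_lit 0)) (T.h (P (nat_lit 10617638360526662915850240)) (T.h (P (nat_lit 0)) (T.h (M (nat_lit 13251327461750210559)) (T.h (P (nat_lit 0)) (P (nat_lit 3691300440928))))))) (T.h (P (nat_lit 0)) (T.h (T.h (P (nat_lit 0)) (T.h (P (nat_lit 15860024196877778944)) (T.h (P (nat_lit 0)) (M (nat_lit 22622211673263))))) (T.h (P (nat_lit 0)) (T.h (T.h (P (nat_lit 0)) (M (nat_lit 18953120801087))) (P (nat_lit 0)))))))) (T.h (T.h (T.h (M (nat_lit 1730283675506176354949267455)) (T.h (P (nat_lit 0)) (T.h (P (nat_lit 7376661366934528327680)) (T.h (P (nat_lit 0)) (P (nat_lit 15355435223744512)))))) (T.h (P (nat_lit 0)) (T.h (T.h (P (nat_lit 24208577655350744842240)) (T.h (P (nat_lit 0)) (M (nat_lit 19105517093126143)))) (T.h (P (nat_lit 0)) (P (nat_lit 57874122734960640)))))) (T.h (T.h (P (nat_lit 0)) (T.h (T.h (P (nat_lit 0)) (T.h (P (nat_lit 2821678096426467328)) (T.h (P (nat_lit 0)) (M (nat_lit 44327641848271)))))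 (T.h (P (nat_lit 0)) (T.h (T.h (P (nat_lit 0)) (P (nat_lit 13106840156224))) (P (nat_lit 0)))))) (T.h (T.h (T.h (M (nat_lit 16668899781875844775935)) (T.h (P (nat_lit 0)) (M (nat_lit 62403519793856511)))) (T.h (P (nat_lit 0)) (M (nat_lit 48250352217817087)))) (T.h (T.h (P (nat_lit 0)) (T.h (T.h (P (nat_lit 0)) (P (nat_lit 11215191106128))) (P (nat_lit 0)))) (M (nat_lit 8745116766437375)))))))]
def lP12_13 : List (T ℤ) := [(T.h (T.h (P (nat_lit 0)) (T.h (T.h (P (nat_lit 1980409599325634221637107712)) (T.h (P (nat_lit 0)) (T.h (M (nat_lit 3622323455901260840959)) (T.h (P (nat_lit 0)) (M (nat_lit 32889710490746879)))))) (T.h (P (nat_lit 0)) (T.h (T.h (M (nat_lit 15055359175053937737727)) (T.h (P (nat_lit 0)) (M (nat_lit 38455619674882047)))) (T.h (P (nat_lit 0)) (P (nat_lit 3262392835637248))))))) (T.h (T.h (T.h (P (nat_lit 0)) (T.h (M (nat_lit 17906321837193087961530367)) (T.h (P (nat_lit 0)) (T.h (M (nat_lit 28621299218955370495)) (T.h (P (nat_lit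 0)) (M (nat_lit 57105588554927))))))) (T.h (P (nat_lit 0)) (T.h (T.h (P (nat_lit 0)) (T.h (M (nat_lit 4387270251864129535)) (T.h (P (nat_lit 0)) (P (nat_lit 7964610238816))))) (T.h (P (nat_lit 0)) (T.h (T.h (P (nat_lit 0)) (P (nat_lit 3163502112640))) (P (nat_lit 0))))))) (T.h (T.h (P (nat_lit 0)) (T.h (T.h (M (nat_lit 3622323455901260840959)) (T.h (P (nat_lit 0)) (P (nat_lit 53787962859716608)))) (T.h (P (nat_lit 0)) (M (nat_lit 38455619674882047))))) (T.h (T.h (T.h (P (nat_lit 0)) (T.h (M (nat_lit 28621299218955370495)) (T.h (P (nat_lit 0)) (M (nat_lit 33666772764575))))) (T.h (P (nat_lit 0)) (T.h (T.h (P (nat_lit 0)) (P (nat_lit 7964610238816))) (P (nat_lit 0))))) (T.h (T.h (P (nat_lit 0)) (M (nat_lit 32889710490746879))) (T.h (T.h (T.h (P (nat_lit 0)) (M (nat_lit 57105588554927))) (P (nat_lit 0))) (P (nat_lit 0)))))))), (T.h (T.h (P (nat_lit 0)) (T.h (T.h (P (nat_lit 0)) (T.h (M (nat_lit 96059573060563486954749951)) (T.h (P (nat_lit 0)) (T.h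 (M (nat_lit 89677988142409318399)) (T.h (P (nat_lit 0)) (M (nat_lit 1438918448639))))))) (T.h (P (nat_lit 0)) (T.h (T.h (P (nat_lit 0)) (T.h (P (nat_lit 117391863594512023552)) (T.h (P (nat_lit 0)) (P (nat_lit 39743026870800))))) (T.h (P (nat_lit 0)) (T.h (T.h (P (nat_lit 0)) (P (nat_lit 60196247186208))) (P (nat_lit 0)))))))) (T.h (T.h (T.h (P (nat_lit 7572974504540364727677616128)) (T.h (P (nat_lit 0)) (T.h (P (nat_lit 56543335380901861261312)) (T.h (P (nat_lit 0)) (P (nat_lit 102352070212616192)))))) (T.h (P (nat_lit 0)) (T.h (T.h (M (nat_lit 26520198771341483048959)) (T.h (P (nat_lit 0)) (M (nat_lit 178420177640587263)))) (T.h (P (nat_lit 0)) (P (nat_lit 37582211721789440)))))) (T.h (T.h (P (nat_lit 0)) (T.h (T.h (P (nat_lit 0)) (T.h (P (nat_lit 107975653592171282432)) (T.h (P (nat_lit 0)) (P (nat_lit 18532277689920))))) (T.h (P (nat_lit 0)) (T.h (T.h (P (nat_lit 0)) (M (nat_lit 95885928699887))) (P (nat_lit 0)))))) (T.h (T.h (T.h (M (nat_lit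 113520182306435500081151)) (T.h (P (nat_lit 0)) (M (nat_lit 1687626253697023)))) (T.h (P (nat_lit 0)) (M (nat_lit 118692639524061183)))) (T.h (T.h (P (nat_lit 0)) (T.h (T.h (P (nat_lit 0)) (M (nat_lit 858351454991))) (P (nat_lit 0)))) (M (nat_lit 23784138303766527))))))), (T.h (T.h (P (nat_lit 0)) (T.h (T.h (P (nat_lit 67185566505562312745714450432)) (T.h (P (nat_lit 0)) (T.h (M (nat_lit 118456684448776665956351)) (T.h (P (nat_lit 0)) (P (nat_lit 108129119820283904)))))) (T.h (P (nat_lit 0)) (T.h (T.h (P (nat_lit 26688500089316853153792)) (T.h (P (nat_lit 0)) (P (nat_lit 114024985828311040)))) (T.h (P (nat_lit 0)) (P (nat_lit 30121564165390336))))))) (T.h (T.h (T.h (P (nat_lit 0)) (T.h (P (nat_lit 84474593176145620608483328)) (T.h (P (nat_lit 0)) (T.h (P (nat_lit 70989944265199583232)) (T.h (P (nat_lit 0)) (P (nat_lit 77442952494384))))))) (T.h (P (nat_lit 0)) (T.h (T.h (P (nat_lit 0)) (T.h (P (nat_lit 291820826445081477120)) (T.h (P (nat_lit 0))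 (M (nat_lit 165739260395375))))) (T.h (P (nat_lit 0)) (T.h (T.h (P (nat_lit 0)) (M (nat_lit 22262947040159))) (P (nat_lit 0))))))) (T.h (T.h (P (nat_lit 0)) (T.h (T.h (M (nat_lit 101452401124637860167679)) (T.h (P (nat_lit 0)) (P (nat_lit 368374066637406208)))) (T.h (P (nat_lit 0)) (P (nat_lit 91725410818899968))))) (T.h (T.h (T.h (P (nat_lit 0)) (T.h (P (nat_lit 67279472290785394688)) (T.h (P (nat_lit 0)) (M (nat_lit 2395349943695))))) (T.h (P (nat_lit 0)) (T.h (T.h (P (nat_lit 0)) (M (nat_lit 127505483758511))) (P (nat_lit 0))))) (T.h (T.h (P (nat_lit 0)) (M (nat_lit 75789866623516671))) (T.h (T.h (T.h (P (nat_lit 0)) (P (nat_lit 31976606021472))) (P (nat_lit 0))) (P (nat_lit 0)))))))), (T.h (T.h (P (nat_lit 0)) (T.h (T.h (P (nat_lit 0)) (T.h (P (nat_lit 120814795054612235002314752)) (T.h (P (nat_lit 0)) (M (nat_lit 107041884051731382271))))) (T.h (P (nat_lit 0)) (T.h (T.h (P (nat_lit 0)) (M (nat_lit 107041884051731382271))) (P (nat_lit 0))))))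 (T.h (T.h (T.h (M (nat_lit 29465771449952636056513806335)) (T.h (P (nat_lit 0)) (T.h (M (nat_lit 35933518468873375973375)) (T.h (P (nat_lit 0)) (M (nat_lit 116566425178505215)))))) (T.h (P (nat_lit 0)) (T.h (T.h (M (nat_lit 35933518468873375973375)) (T.h (P (nat_lit 0)) (P (nat_lit 206294093546192896)))) (T.h (P (nat_lit 0)) (M (nat_lit 116566425178505215)))))) (T.h (T.h (P (nat_lit 0)) (T.h (T.h (P (nat_lit 0)) (M (nat_lit 179113940030792400895))) (P (nat_lit 0)))) (T.h (T.h (T.h (M (nat_lit 3651158552685087555583)) (T.h (P (nat_lit 0)) (M (nat_lit 36771961311526911)))) (T.h (P (nat_lit 0)) (M (nat_lit 36771961311526911)))) (T.h (P (nat_lit 0)) (P (nat_lit 82143803782594560))))))), (T.h (T.h (T.h (P (nat_lit 0)) (T.h (P (nat_lit 0)) (T.h (P (nat_lit 1591513397136191070928896)) (T.h (P (nat_lit 0)) (T.h (M (nat_lit 5433633972192018431)) (T.h (P (nat_lit 0)) (M (nat_lit 207423927271)))))))) (T.h (P (nat_lit 0)) (T.h (T.h (M (nat_lit 1847437829613108580057087))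 (T.h (P (nat_lit 0)) (T.h (P (nat_lit 6011736793303482368)) (T.h (P (nat_lit 0)) (M (nat_lit 3634953778983)))))) (T.h (P (nat_lit 0)) (T.h (T.h (P (nat_lit 2811206516260995072)) (T.h (P (nat_lit 0)) (M (nat_lit 6169681091111)))) (T.h (P (nat_lit 0)) (P (nat_lit 33450551520)))))))) (T.h (T.h (P (nat_lit 0)) (T.h (T.h (P (nat_lit 0)) (T.h (M (nat_lit 4860484009838331822079)) (T.h (P (nat_lit 0)) (P (nat_lit 732223472074752))))) (T.h (P (nat_lit 0)) (T.h (T.h (P (nat_lit 0)) (M (nat_lit 6817391644573695))) (P (nat_lit 0)))))) (T.h (T.h (T.h (P (nat_lit 1591513397136191070928896)) (T.h (P (nat_lit 0)) (T.h (M (nat_lit 878295484609855487)) (T.h (P (nat_lit 0)) (M (nat_lit 1743806021535)))))) (T.h (P (nat_lit 0)) (T.h (T.h (P (nat_lit 6011736793303482368)) (T.h (P (nat_lit 0)) (M (nat_lit 1554604374767)))) (T.h (P (nat_lit 0)) (M (nat_lit 6169681091111)))))) (T.h (T.h (P (nat_lit 0)) (T.h (T.h (P (nat_lit 0)) (P (nat_lit 732223472074752))) (P (nat_lit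 0)))) (T.h (T.h (T.h (M (nat_lit 5433633972192018431)) (T.h (P (nat_lit 0)) (M (nat_lit 1743806021535)))) (T.h (P (nat_lit 0)) (M (nat_lit 3634953778983)))) (T.h (P (nat_lit 0)) (M (nat_lit 207423927271)))))))), (T.h (T.h (T.h (P (nat_lit 0)) (T.h (P (nat_lit 20984392715099619162048167936)) (T.h (P (nat_lit 0)) (T.h (P (nat_lit 19697029159794532941824)) (T.h (P (nat_lit 0)) (P (nat_lit 15994898100060160))))))) (T.h (P (nat_lit 0)) (T.h (T.h (P (nat_lit 0)) (T.h (M (nat_lit 8223931429363535314943)) (T.h (P (nat_lit 0)) (M (nat_lit 46708690346541055))))) (T.h (P (nat_lit 0)) (T.h (T.h (P (nat_lit 0)) (P (nat_lit 26419758957936640))) (P (nat_lit 0))))))) (T.h (T.h (P (nat_lit 0)) (T.h (T.h (M (nat_lit 23016326667677892480073727)) (T.h (P (nat_lit 0)) (T.h (P (nat_lit 29677769012967112704)) (T.h (P (nat_lit 0)) (P (nat_lit 50708355223312)))))) (T.h (P (nat_lit 0)) (T.h (T.h (M (nat_lit 4386139381002403839)) (T.h (P (nat_lit 0)) (M (nat_lit 4144068559599))))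 (T.h (P (nat_lit 0)) (M (nat_lit 14450944174591))))))) (T.h (T.h (T.h (P (nat_lit 0)) (T.h (M (nat_lit 17505257867323948138495)) (T.h (P (nat_lit 0)) (M (nat_lit 33918669731856383))))) (T.h (P (nat_lit 0)) (T.h (T.h (P (nat_lit 0)) (M (nat_lit 738227850690559))) (P (nat_lit 0))))) (T.h (T.h (P (nat_lit 0)) (T.h (T.h (P (nat_lit 3997095405463535616)) (T.h (P (nat_lit 0)) (P (nat_lit 1500860940832)))) (T.h (P (nat_lit 0)) (P (nat_lit 6020971354256))))) (T.h (T.h (T.h (P (nat_lit 0)) (M (nat_lit 93291811182837759))) (P (nat_lit 0))) (T.h (T.h (P (nat_lit 0)) (P (nat_lit 40339979884256))) (P (nat_lit 0)))))))), (T.h (T.h (T.h (M (nat_lit 11077947508909442919583681871871)) (T.h (P (nat_lit 0)) (T.h (M (nat_lit 55388462868316033206190079)) (T.h (P (nat_lit 0)) (T.h (P (nat_lit 43070600836731109376)) (T.h (P (nat_lit 0)) (P (nat_lit 8789193732672)))))))) (T.h (P (nat_lit 0)) (T.h (T.h (P (nat_lit 19123124772311561677045760)) (T.h (P (nat_lit 0)) (T.h (M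 (nat_lit 30334559144332230655)) (T.h (P (nat_lit 0)) (P (nat_lit 17775325846896)))))) (T.h (P (nat_lit 0)) (T.h (T.h (P (nat_lit 11700863721814360064)) (T.h (P (nat_lit 0)) (P (nat_lit 45145893431616)))) (T.h (P (nat_lit 0)) (P (nat_lit 954741325344)))))))) (T.h (T.h (P (nat_lit 0)) (T.h (T.h (P (nat_lit 0)) (T.h (M (nat_lit 19563055938991294513151)) (T.h (P (nat_lit 0)) (M (nat_lit 78398880214024191))))) (T.h (P (nat_lit 0)) (T.h (T.h (P (nat_lit 0)) (P (nat_lit 57373052668018688))) (P (nat_lit 0)))))) (T.h (T.h (T.h (M (nat_lit 2540209914987289218383871)) (T.h (P (nat_lit 0)) (T.h (P (nat_lit 164976555313218977792)) (T.h (P (nat_lit 0)) (M (nat_lit 21055996758767)))))) (T.h (P (nat_lit 0)) (T.h (T.h (P (nat_lit 86086566167315480576)) (T.h (P (nat_lit 0)) (P (nat_lit 12074435503008)))) (T.h (P (nat_lit 0)) (P (nat_lit 45145893431616)))))) (T.h (T.h (P (nat_lit 0)) (T.h (T.h (P (nat_lit 0)) (M (nat_lit 25895269782388735))) (P (nat_lit 0)))) (T.h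 (T.h (T.h (P (nat_lit 21521101271114711040)) (T.h (P (nat_lit 0)) (M (nat_lit 21055996758767)))) (T.h (P (nat_lit 0)) (P (nat_lit 17775325846896)))) (T.h (P (nat_lit 0)) (P (nat_lit 8789193732672)))))))), (T.h (T.h (T.h (P (nat_lit 0)) (T.h (M (nat_lit 3204733460397538933508931583)) (T.h (P (nat_lit 0)) (T.h (M (nat_lit 69418260137388823019519)) (T.h (P (nat_lit 0)) (M (nat_lit 69814345750593535))))))) (T.h (P (nat_lit 0)) (T.h (T.h (P (nat_lit 0)) (T.h (P (nat_lit 189533633965619006144512)) (T.h (P (nat_lit 0)) (P (nat_lit 58042506824548352))))) (T.h (P (nat_lit 0)) (T.h (T.h (P (nat_lit 0)) (M (nat_lit 159947440549658623))) (P (nat_lit 0))))))) (T.h (T.h (P (nat_lit 0)) (T.h (T.h (P (nat_lit 10272478443104322537390080)) (T.h (P (nat_lit 0)) (T.h (M (nat_lit 25283953647354380287)) (T.h (P (nat_lit 0)) (M (nat_lit 139411251903167)))))) (T.h (P (nat_lit 0)) (T.h (T.h (P (nat_lit 92046784355859693568)) (T.h (P (nat_lit 0)) (M (nat_lit 3247963595855))))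 (T.h (P (nat_lit 0)) (P (nat_lit 32752559787552))))))) (T.h (T.h (T.h (P (nat_lit 0)) (T.h (M (nat_lit 58299763117793543716863)) (T.h (P (nat_lit 0)) (M (nat_lit 33821400822153215))))) (T.h (P (nat_lit 0)) (T.h (T.h (P (nat_lit 0)) (P (nat_lit 196731980638601216))) (P (nat_lit 0))))) (T.h (T.h (P (nat_lit 0)) (T.h (T.h (P (nat_lit 103460306243349905408)) (T.h (P (nat_lit 0)) (M (nat_lit 215827605369791)))) (T.h (P (nat_lit 0)) (P (nat_lit 12834186665184))))) (T.h (T.h (T.h (P (nat_lit 0)) (P (nat_lit 118297934862188544))) (P (nat_lit 0))) (T.h (T.h (P (nat_lit 0)) (M (nat_lit 45849852608687))) (P (nat_lit 0))))))))]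
def lP12_14 : List (T ℤ) := [(T.h (T.h (T.h (P (nat_lit 19245058767597118072917487255552)) (T.h (P (nat_lit 0)) (T.h (M (nat_lit 8849924118460195124805631)) (T.h (P (nat_lit 0)) (P (nat_lit 22472147538827804672)))))) (T.h (P (nat_lit 0)) (T.h (T.h (M (nat_lit 49064869503036694296788991)) (T.h (P (nat_lit 0)) (M (nat_lit 78300033919217565695)))) (T.h (P (nat_lit 0)) (M (nat_lit 58062886536468234239)))))) (T.h (T.h (P (nat_lit 0)) (T.h (T.h (P (nat_lit 0)) (T.h (M (nat_lit 171507145602860729761791)) (T.h (P (nat_lit 0)) (P (nat_lit 200573530775552000))))) (T.h (P (nat_lit 0)) (T.h (T.h (P (nat_lit 0)) (M (nat_lit 11742295132012543))) (P (nat_lit 0)))))) (T.h (T.h (T.h (P (nat_lit 59825625941170914374713344)) (T.h (P (nat_lit 0)) (M (nat_lit 218013063006075748351)))) (T.h (P (nat_lit 0)) (M (nat_lit 45880012597962473471)))) (T.h (T.h (P (nat_lit 0)) (T.h (T.h (P (nat_lit 0)) (P (nat_lit 189747104945602560))) (P (nat_lit 0)))) (P (nat_lit 12951678390250766336)))))),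 (P (nat_lit 0)), (T.h (T.h (P (nat_lit 0)) (T.h (T.h (P (nat_lit 0)) (T.h (M (nat_lit 3919503683928011059494911)) (T.h (P (nat_lit 0)) (T.h (P (nat_lit 2733589374418550784)) (T.h (P (nat_lit 0)) (M (nat_lit 11562789853775))))))) (T.h (P (nat_lit 0)) (T.h (T.h (P (nat_lit 0)) (T.h (M (nat_lit 41616835594801905663)) (T.h (P (nat_lit 0)) (P (nat_lit 22388334389568))))) (T.h (P (nat_lit 0)) (T.h (T.h (P (nat_lit 0)) (P (nat_lit 8815688868816))) (P (nat_lit 0)))))))) (T.h (T.h (T.h (P (nat_lit 1522602040369985495815421952)) (T.h (P (nat_lit 0)) (T.h (P (nat_lit 64665519969882918092800)) (T.h (P (nat_lit 0)) (P (nat_lit 138508292012769280)))))) (T.h (P (nat_lit 0)) (T.h (T.h (M (nat_lit 33931656176052052426751)) (T.h (P (nat_lit 0)) (P (nat_lit 38357597218897920)))) (T.h (P (nat_lit 0)) (M (nat_lit 19905126673973247)))))) (T.h (T.h (P (nat_lit 0)) (T.h (T.h (P (nat_lit 0)) (T.h (M (nat_lit 78594571393908604927)) (T.h (P (nat_lit 0)) (P (nat_lit 29719564744560)))))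 (T.h (P (nat_lit 0)) (T.h (T.h (P (nat_lit 0)) (M (nat_lit 8955757893743))) (P (nat_lit 0)))))) (T.h (T.h (T.h (P (nat_lit 7937550552990899765248)) (T.h (P (nat_lit 0)) (P (nat_lit 429606139338620928)))) (T.h (P (nat_lit 0)) (P (nat_lit 137158350876770304)))) (T.h (T.h (P (nat_lit 0)) (T.h (T.h (P (nat_lit 0)) (M (nat_lit 20837185961087))) (P (nat_lit 0)))) (M (nat_lit 78234174940774399))))))), (T.h (T.h (P (nat_lit 0)) (T.h (T.h (M (nat_lit 15405244956953180929827799039)) (T.h (P (nat_lit 0)) (T.h (P (nat_lit 58377955448778397843456)) (T.h (P (nat_lit 0)) (P (nat_lit 25069513072984064)))))) (T.h (P (nat_lit 0)) (T.h (T.h (P (nat_lit 34299267896437284798464)) (T.h (P (nat_lit 0)) (M (nat_lit 50331468078694399)))) (T.h (P (nat_lit 0)) (P (nat_lit 25436756187906048))))))) (T.h (T.h (T.h (P (nat_lit 0)) (T.h (P (nat_lit 26414870613408005553651712)) (T.h (P (nat_lit 0)) (T.h (P (nat_lit 17283595094275915776)) (T.h (P (nat_lit 0)) (P (nat_lit 68505149127168)))))))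 (T.h (P (nat_lit 0)) (T.h (T.h (P (nat_lit 0)) (T.h (M (nat_lit 319395816159282462719)) (T.h (P (nat_lit 0)) (M (nat_lit 38582463213215))))) (T.h (P (nat_lit 0)) (T.h (T.h (P (nat_lit 0)) (P (nat_lit 93337690111776))) (P (nat_lit 0))))))) (T.h (T.h (P (nat_lit 0)) (T.h (T.h (P (nat_lit 58377955448778397843456)) (T.h (P (nat_lit 0)) (M (nat_lit 20279104758906879)))) (T.h (P (nat_lit 0)) (M (nat_lit 50331468078694399))))) (T.h (T.h (T.h (P (nat_lit 0)) (T.h (P (nat_lit 17283595094275915776)) (T.h (P (nat_lit 0)) (P (nat_lit 31906044562176))))) (T.h (P (nat_lit 0)) (T.h (T.h (P (nat_lit 0)) (M (nat_lit 38582463213215))) (P (nat_lit 0))))) (T.h (T.h (P (nat_lit 0)) (P (nat_lit 25069513072984064))) (T.h (T.h (T.h (P (nat_lit 0)) (P (nat_lit 68505149127168))) (P (nat_lit 0))) (P (nat_lit 0)))))))), (T.h (T.h (P (nat_lit 0)) (T.h (T.h (P (nat_lit 0)) (T.h (M (nat_lit 18488068673796538873413631)) (T.h (P (nat_lit 0)) (M (nat_lit 3412449340189310975)))))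 (T.h (P (nat_lit 0)) (T.h (T.h (P (nat_lit 0)) (P (nat_lit 13067073905649254400))) (P (nat_lit 0)))))) (T.h (T.h (T.h (M (nat_lit 1043116937690069580088606719)) (T.h (P (nat_lit 0)) (T.h (M (nat_lit 101464149854981390860287)) (T.h (P (nat_lit 0)) (M (nat_lit 273430289931173887)))))) (T.h (P (nat_lit 0)) (T.h (T.h (P (nat_lit 12925985027821664206848)) (T.h (P (nat_lit 0)) (P (nat_lit 21950935167303680)))) (T.h (P (nat_lit 0)) (M (nat_lit 70522602099113983)))))) (T.h (T.h (P (nat_lit 0)) (T.h (T.h (P (nat_lit 0)) (M (nat_lit 3225623507505250303))) (P (nat_lit 0)))) (T.h (T.h (T.h (P (nat_lit 61764923110046956519424)) (T.h (P (nat_lit 0)) (M (nat_lit 293207130200866815)))) (T.h (P (nat_lit 0)) (M (nat_lit 121260396594069503)))) (T.h (P (nat_lit 0)) (P (nat_lit 114189388980387840))))))), (T.h (T.h (T.h (P (nat_lit 956537394001454605016563187712)) (T.h (P (nat_lit 0)) (T.h (M (nat_lit 1666370363400297910370303)) (T.h (P (nat_lit 0)) (P (nat_lit 6279527691615993856))))))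 (T.h (P (nat_lit 0)) (T.h (T.h (P (nat_lit 2599679799447928914837504)) (T.h (P (nat_lit 0)) (M (nat_lit 5480924979304333311)))) (T.h (P (nat_lit 0)) (M (nat_lit 3056361256114978815)))))) (T.h (T.h (P (nat_lit 0)) (T.h (T.h (P (nat_lit 0)) (T.h (P (nat_lit 512003772086032007168)) (T.h (P (nat_lit 0)) (P (nat_lit 7317009590779904))))) (T.h (P (nat_lit 0)) (T.h (T.h (P (nat_lit 0)) (P (nat_lit 7872225239891968))) (P (nat_lit 0)))))) (T.h (T.h (T.h (M (nat_lit 1666370363400297910370303)) (T.h (P (nat_lit 0)) (M (nat_lit 1570151647621939199)))) (T.h (P (nat_lit 0)) (M (nat_lit 5480924979304333311)))) (T.h (T.h (P (nat_lit 0)) (T.h (T.h (P (nat_lit 0)) (P (nat_lit 7317009590779904))) (P (nat_lit 0)))) (P (nat_lit 6279527691615993856)))))), (T.h (T.h (T.h (P (nat_lit 0)) (T.h (M (nat_lit 20545763807070606543294562303)) (T.h (P (nat_lit 0)) (T.h (M (nat_lit 19160979863630824603647)) (T.h (P (nat_lit 0)) (M (nat_lit 14971273895362559))))))) (T.h (P (nat_lit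 0)) (T.h (T.h (P (nat_lit 0)) (T.h (P (nat_lit 12135496075166393303040)) (T.h (P (nat_lit 0)) (P (nat_lit 52158500142071808))))) (T.h (P (nat_lit 0)) (T.h (T.h (P (nat_lit 0)) (M (nat_lit 35881187698753535))) (P (nat_lit 0))))))) (T.h (T.h (P (nat_lit 0)) (T.h (T.h (P (nat_lit 30576525179669562771111936)) (T.h (P (nat_lit 0)) (T.h (M (nat_lit 60109996656355704831)) (T.h (P (nat_lit 0)) (M (nat_lit 53556555107663)))))) (T.h (P (nat_lit 0)) (T.h (T.h (M (nat_lit 4299253708392235007)) (T.h (P (nat_lit 0)) (P (nat_lit 18560116891440)))) (T.h (P (nat_lit 0)) (P (nat_lit 8704128682512))))))) (T.h (T.h (T.h (P (nat_lit 0)) (T.h (P (nat_lit 18225494033046599368704)) (T.h (P (nat_lit 0)) (P (nat_lit 54131820061376512))))) (T.h (P (nat_lit 0)) (T.h (T.h (P (nat_lit 0)) (P (nat_lit 43606495874285568))) (P (nat_lit 0))))) (T.h (T.h (P (nat_lit 0)) (T.h (T.h (M (nat_lit 14785903864523522047)) (T.h (P (nat_lit 0)) (P (nat_lit 22287634534368)))) (T.h (P (nat_lit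 0)) (M (nat_lit 11727087712703))))) (T.h (T.h (T.h (P (nat_lit 0)) (P (nat_lit 79124825958711296))) (P (nat_lit 0))) (T.h (T.h (P (nat_lit 0)) (M (nat_lit 38574100311983))) (P (nat_lit 0)))))))), (T.h (T.h (T.h (P (nat_lit 12287190180425606716005116018688)) (T.h (P (nat_lit 0)) (T.h (M (nat_lit 822633096902632366145535)) (T.h (P (nat_lit 0)) (M (nat_lit 6177230466576285695)))))) (T.h (P (nat_lit 0)) (T.h (T.h (M (nat_lit 3836605376147847800422399)) (T.h (P (nat_lit 0)) (M (nat_lit 65115326894967881727)))) (T.h (P (nat_lit 0)) (M (nat_lit 34747549758858985471)))))) (T.h (T.h (P (nat_lit 0)) (T.h (T.h (P (nat_lit 0)) (T.h (P (nat_lit 126306685842223500623872)) (T.h (P (nat_lit 0)) (P (nat_lit 56164324190060544))))) (T.h (P (nat_lit 0)) (T.h (T.h (P (nat_lit 0)) (M (nat_lit 101851870552260607))) (P (nat_lit 0)))))) (T.h (T.h (T.h (M (nat_lit 822633096902632366145535)) (T.h (P (nat_lit 0)) (M (nat_lit 183649484888055218175)))) (T.h (P (nat_lit 0)) (M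 (nat_lit 65115326894967881727)))) (T.h (T.h (P (nat_lit 0)) (T.h (T.h (P (nat_lit 0)) (P (nat_lit 56164324190060544))) (P (nat_lit 0)))) (M (nat_lit 6177230466576285695))))))]
def lP12_15 : List (T ℤ) := [(P (nat_lit 0)), (T.h (T.h (P (nat_lit 0)) (T.h (T.h (P (nat_lit 0)) (T.h (P (nat_lit 2731529024111075150266368)) (T.h (P (nat_lit 0)) (M (nat_lit 14446821862908362751))))) (T.h (P (nat_lit 0)) (T.h (T.h (P (nat_lit 0)) (P (nat_lit 2922520119437426688))) (P (nat_lit 0)))))) (T.h (T.h (T.h (P (nat_lit 2431989740396183413638299648)) (T.h (P (nat_lit 0)) (T.h (M (nat_lit 67764700985457142398975)) (T.h (P (nat_lit 0)) (M (nat_lit 157432470344531967)))))) (T.h (P (nat_lit 0)) (T.h (T.h (M (nat_lit 2389731705158014861311)) (T.h (P (nat_lit 0)) (M (nat_lit 13085180765306879)))) (T.h (P (nat_lit 0)) (M (nat_lit 737280053051391)))))) (T.h (T.h (P (nat_lit 0)) (T.h (T.h (P (nat_lit 0)) (P (nat_lit 43502318328160976896))) (P (nat_lit 0)))) (T.h (T.h (T.h (P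 (nat_lit 13155666161854431887360)) (T.h (P (nat_lit 0)) (M (nat_lit 344310799049883647)))) (T.h (P (nat_lit 0)) (M (nat_lit 84716766919393279)))) (T.h (P (nat_lit 0)) (P (nat_lit 86333522932170752))))))), (P (nat_lit 0)), (P (nat_lit 0)), (P (nat_lit 0)), (P (nat_lit 0)), (T.h (T.h (P (nat_lit 0)) (T.h (T.h (M (nat_lit 710954210904152826424852479)) (T.h (P (nat_lit 0)) (T.h (M (nat_lit 4201307133567005884415)) (T.h (P (nat_lit 0)) (P (nat_lit 16027981497696256)))))) (T.h (P (nat_lit 0)) (T.h (T.h (P (nat_lit 9420671387967214845952)) (T.h (P (nat_lit 0)) (P (nat_lit 9058048244482048)))) (T.h (P (nat_lit 0)) (M (nat_lit 1952468950286335))))))) (T.h (T.h (T.h (P (nat_lit 0)) (T.h (P (nat_lit 6274192122210616088723456)) (T.h (P (nat_lit 0)) (T.h (M (nat_lit 3000206968196431871)) (T.h (P (nat_lit 0)) (M (nat_lit 12972148589743))))))) (T.h (P (nat_lit 0)) (T.h (T.h (P (nat_lit 0)) (T.h (M (nat_lit 25047407754376904703)) (T.h (P (nat_lit 0)) (P (nat_lit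 24882411374976))))) (T.h (P (nat_lit 0)) (T.h (T.h (P (nat_lit 0)) (M (nat_lit 12835533098983))) (P (nat_lit 0))))))) (T.h (T.h (P (nat_lit 0)) (T.h (T.h (M (nat_lit 17082716061691805695999)) (T.h (P (nat_lit 0)) (P (nat_lit 31186157871955968)))) (T.h (P (nat_lit 0)) (M (nat_lit 13895150774747135))))) (T.h (T.h (T.h (P (nat_lit 0)) (T.h (P (nat_lit 548043297952628736)) (T.h (P (nat_lit 0)) (M (nat_lit 1717778167639))))) (T.h (P (nat_lit 0)) (T.h (T.h (P (nat_lit 0)) (P (nat_lit 3144249454232))) (P (nat_lit 0))))) (T.h (T.h (P (nat_lit 0)) (P (nat_lit 5564813567361024))) (T.h (T.h (T.h (P (nat_lit 0)) (M (nat_lit 2466909061455))) (P (nat_lit 0))) (P (nat_lit 0)))))))), (P (nat_lit 0))]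
def lP12_16 : List (T ℤ) := [(T.h (T.h (P (nat_lit 0)) (T.h (T.h (P (nat_lit 1128989160014218046472192000)) (T.h (P (nat_lit 0)) (T.h (M (nat_lit 376144294005367111679)) (T.h (P (nat_lit 0)) (P (nat_lit 2587655356350464)))))) (T.h (P (nat_lit 0)) (T.h (T.h (M (nat_lit 7470554262444017975295)) (T.h (P (nat_lit 0)) (P (nat_lit 2766713556762624)))) (T.h (P (nat_lit 0)) (P (nat_lit 2378303520079872))))))) (T.h (T.h (T.h (P (nat_lit 0)) (T.h (P (nat_lit 1777978301401615713697792)) (T.h (P (nat_lit 0)) (M (nat_lit 8784498254944403455))))) (T.h (P (nat_lit 0)) (T.h (T.h (P (nat_lit 0)) (M (nat_lit 14255254093198000127))) (P (nat_lit 0))))) (T.h (T.h (P (nat_lit 0)) (T.h (T.h (P (nat_lit 18293395885173516533760)) (T.h (P (nat_lit 0)) (M (nat_lit 21605645460406271)))) (T.h (P (nat_lit 0)) (P (nat_lit 28585714715820032))))) (T.h (T.h (T.h (P (nat_lit 0)) (M (nat_lit 3113015239185006591))) (P (nat_lit 0))) (T.h (T.h (P (nat_lit 0)) (M (nat_lit 1749237737390079)))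 (P (nat_lit 0))))))), (P (nat_lit 0)), (P (nat_lit 0)), (P (nat_lit 0)), (P (nat_lit 0)), (T.h (T.h (T.h (P (nat_lit 0)) (T.h (M (nat_lit 16032577226949248970651598847)) (T.h (P (nat_lit 0)) (T.h (P (nat_lit 40879065690019249258496)) (T.h (P (nat_lit 0)) (M (nat_lit 1799477701050367))))))) (T.h (P (nat_lit 0)) (T.h (T.h (P (nat_lit 0)) (T.h (P (nat_lit 67853320011321597493248)) (T.h (P (nat_lit 0)) (P (nat_lit 983149196673024))))) (T.h (P (nat_lit 0)) (T.h (T.h (P (nat_lit 0)) (P (nat_lit 58702310137167872))) (P (nat_lit 0))))))) (T.h (T.h (P (nat_lit 0)) (T.h (T.h (M (nat_lit 4271968888054109305831423)) (T.h (P (nat_lit 0)) (T.h (M (nat_lit 102367291267864330239)) (T.h (P (nat_lit 0)) (M (nat_lit 154163331037063)))))) (T.h (P (nat_lit 0)) (T.h (T.h (P (nat_lit 52598292338693898240)) (T.h (P (nat_lit 0)) (P (nat_lit 56169131541736)))) (T.h (P (nat_lit 0)) (M (nat_lit 4713754487775))))))) (T.h (T.h (T.h (P (nat_lit 0)) (T.h (P (nat_lit 23888660425010854232064))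 (T.h (P (nat_lit 0)) (M (nat_lit 20370843504738303))))) (T.h (P (nat_lit 0)) (T.h (T.h (P (nat_lit 0)) (M (nat_lit 44866827071815679))) (P (nat_lit 0))))) (T.h (T.h (P (nat_lit 0)) (T.h (T.h (M (nat_lit 51461814944234733567)) (T.h (P (nat_lit 0)) (P (nat_lit 64595760151272)))) (T.h (P (nat_lit 0)) (M (nat_lit 17777621262263))))) (T.h (T.h (T.h (P (nat_lit 0)) (M (nat_lit 37542026044997631))) (P (nat_lit 0))) (T.h (T.h (P (nat_lit 0)) (M (nat_lit 27369393294111))) (P (nat_lit 0)))))))), (T.h (T.h (T.h (P (nat_lit 116538236317700504972192617857024)) (T.h (P (nat_lit 0)) (T.h (M (nat_lit 11610262193131898743554047)) (T.h (P (nat_lit 0)) (T.h (P (nat_lit 4059346151223066624)) (T.h (P (nat_lit 0)) (M (nat_lit 15472739090591)))))))) (T.h (P (nat_lit 0)) (T.h (T.h (P (nat_lit 32611548086002112509509632)) (T.h (P (nat_lit 0)) (T.h (P (nat_lit 18121256762693648384)) (T.h (P (nat_lit 0)) (M (nat_lit 35169845347711)))))) (T.h (P (nat_lit 0)) (T.h (T.h (P (nat_lit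 44292664539358429184)) (T.h (P (nat_lit 0)) (M (nat_lit 22396963694271)))) (T.h (P (nat_lit 0)) (P (nat_lit 32079931261568)))))))) (T.h (T.h (P (nat_lit 0)) (T.h (T.h (P (nat_lit 0)) (T.h (P (nat_lit 35871329636008551514112)) (T.h (P (nat_lit 0)) (P (nat_lit 41843344361783296))))) (T.h (P (nat_lit 0)) (T.h (T.h (P (nat_lit 0)) (P (nat_lit 40345172097957888))) (P (nat_lit 0)))))) (T.h (T.h (T.h (P (nat_lit 29852342430197712133554176)) (T.h (P (nat_lit 0)) (T.h (M (nat_lit 89283928821218672639)) (T.h (P (nat_lit 0)) (P (nat_lit 28335036564160)))))) (T.h (P (nat_lit 0)) (T.h (T.h (P (nat_lit 14755860110806876160)) (T.h (P (nat_lit 0)) (M (nat_lit 22178401775167)))) (T.h (P (nat_lit 0)) (M (nat_lit 7076939740079)))))) (T.h (T.h (P (nat_lit 0)) (T.h (T.h (P (nat_lit 0)) (P (nat_lit 95266818162229248))) (P (nat_lit 0)))) (T.h (T.h (T.h (P (nat_lit 11257209192479457280)) (T.h (P (nat_lit 0)) (M (nat_lit 8128876489663)))) (T.h (P (nat_lit 0)) (M (nat_lit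 93345869782831)))) (T.h (P (nat_lit 0)) (M (nat_lit 61045729373567)))))))), (T.h (T.h (T.h (P (nat_lit 0)) (T.h (M (nat_lit 5804126028980203036700835839)) (T.h (P (nat_lit 0)) (T.h (P (nat_lit 43500577131869595762688)) (T.h (P (nat_lit 0)) (P (nat_lit 7228750032273408))))))) (T.h (P (nat_lit 0)) (T.h (T.h (P (nat_lit 0)) (T.h (M (nat_lit 4630216723957773500415)) (T.h (P (nat_lit 0)) (P (nat_lit 30151351912300544))))) (T.h (P (nat_lit 0)) (T.h (T.h (P (nat_lit 0)) (M (nat_lit 18694500816125951))) (P (nat_lit 0))))))) (T.h (T.h (P (nat_lit 0)) (T.h (T.h (P (nat_lit 18271913210275122118656000)) (T.h (P (nat_lit 0)) (T.h (P (nat_lit 2221441160281325568)) (T.h (P (nat_lit 0)) (P (nat_lit 20145618234144)))))) (T.h (P (nat_lit 0)) (T.h (T.h (M (nat_lit 23180926420594458623)) (T.h (P (nat_lit 0)) (P (nat_lit 4724950018272)))) (T.h (P (nat_lit 0)) (P (nat_lit 2741942744016))))))) (T.h (T.h (T.h (P (nat_lit 0)) (T.h (M (nat_lit 40055855780120370348031)) (T.h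 (P (nat_lit 0)) (M (nat_lit 17103503248982015))))) (T.h (P (nat_lit 0)) (T.h (T.h (P (nat_lit 0)) (P (nat_lit 64388952194940928))) (P (nat_lit 0))))) (T.h (T.h (P (nat_lit 0)) (T.h (T.h (P (nat_lit 64478841846009692160)) (T.h (P (nat_lit 0)) (M (nat_lit 47982439091855)))) (T.h (P (nat_lit 0)) (P (nat_lit 106333461033312))))) (T.h (T.h (T.h (P (nat_lit 0)) (M (nat_lit 47705728382435327))) (P (nat_lit 0))) (T.h (T.h (P (nat_lit 0)) (P (nat_lit 16779312954192))) (P (nat_lit 0))))))))]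
def lP12_17 : List (T ℤ) := [(T.h (T.h (T.h (M (nat_lit 202020782321028235702046130438143)) (T.h (P (nat_lit 0)) (T.h (P (nat_lit 23366883707900872915681280)) (T.h (P (nat_lit 0)) (T.h (M (nat_lit 7131341328276783103)) (T.h (P (nat_lit 0)) (P (nat_lit 14645707618464)))))))) (T.h (P (nat_lit 0)) (T.h (T.h (M (nat_lit 42337534151861017088360447)) (T.h (P (nat_lit 0)) (T.h (P (nat_lit 34550124118083108864)) (T.h (P (nat_lit 0)) (P (nat_lit 26406644853168)))))) (T.h (P (nat_lit 0)) (T.h (T.h (M (nat_lit 68615088356747902975)) (T.h (P (nat_lit 0)) (P (nat_lit 133240626359424)))) (T.h (P (nat_lit 0)) (M (nat_lit 87410689135199)))))))) (T.h (T.h (P (nat_lit 0)) (T.h (T.h (P (nat_lit 0)) (T.h (P (nat_lit 9071748710483349209088)) (T.h (P (nat_lit 0)) (M (nat_lit 63102135297736703))))) (T.h (P (nat_lit 0)) (T.h (T.h (P (nat_lit 0)) (M (nat_lit 125759308696616959))) (P (nat_lit 0)))))) (T.h (T.h (T.h (M (nat_lit 35815997065927715062808575)) (T.h (P (nat_lit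 0)) (T.h (P (nat_lit 15088578806786555904)) (T.h (P (nat_lit 0)) (M (nat_lit 77309147628143)))))) (T.h (P (nat_lit 0)) (T.h (T.h (P (nat_lit 132043227812096638976)) (T.h (P (nat_lit 0)) (P (nat_lit 14513604933888)))) (T.h (P (nat_lit 0)) (P (nat_lit 352154342018448)))))) (T.h (T.h (P (nat_lit 0)) (T.h (T.h (P (nat_lit 0)) (M (nat_lit 178490904560173055))) (P (nat_lit 0)))) (T.h (T.h (T.h (M (nat_lit 2673562259325714431)) (T.h (P (nat_lit 0)) (P (nat_lit 134195146157664)))) (T.h (P (nat_lit 0)) (P (nat_lit 499241730033216)))) (T.h (P (nat_lit 0)) (P (nat_lit 8713460479392)))))))), (T.h (T.h (T.h (P (nat_lit 0)) (T.h (M (nat_lit 5287393795622230931927990271)) (T.h (P (nat_lit 0)) (T.h (M (nat_lit 10997930159462676430847)) (T.h (P (nat_lit 0)) (M (nat_lit 21976945639718911))))))) (T.h (P (nat_lit 0)) (T.h (T.h (P (nat_lit 0)) (T.h (M (nat_lit 11470395129475534684159)) (T.h (P (nat_lit 0)) (M (nat_lit 28259372670091263))))) (T.h (P (nat_lit 0)) (T.h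 (T.h (P (nat_lit 0)) (M (nat_lit 48452197856411647))) (P (nat_lit 0))))))) (T.h (T.h (P (nat_lit 0)) (T.h (T.h (M (nat_lit 7968129611153399804329983)) (T.h (P (nat_lit 0)) (P (nat_lit 28063542199158046720)))) (T.h (P (nat_lit 0)) (M (nat_lit 34246235936746635263))))) (T.h (T.h (T.h (P (nat_lit 0)) (T.h (M (nat_lit 37042947306702845771775)) (T.h (P (nat_lit 0)) (P (nat_lit 78374196030734336))))) (T.h (P (nat_lit 0)) (T.h (T.h (P (nat_lit 0)) (M (nat_lit 21820328043151359))) (P (nat_lit 0))))) (T.h (T.h (P (nat_lit 0)) (M (nat_lit 28918869486353776639))) (T.h (T.h (T.h (P (nat_lit 0)) (M (nat_lit 17184947940786175))) (P (nat_lit 0))) (P (nat_lit 0))))))), (P (nat_lit 0)), (P (nat_lit 0)), (T.h (T.h (P (nat_lit 0)) (T.h (T.h (M (nat_lit 5408439614686714154643881983)) (T.h (P (nat_lit 0)) (T.h (P (nat_lit 76630252839450368278528)) (T.h (P (nat_lit 0)) (P (nat_lit 58180006863405056)))))) (T.h (P (nat_lit 0)) (T.h (T.h (P (nat_lit 26896677078837426651136))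 (T.h (P (nat_lit 0)) (P (nat_lit 84305228359008256)))) (T.h (P (nat_lit 0)) (M (nat_lit 3441017947881471))))))) (T.h (T.h (T.h (P (nat_lit 0)) (T.h (M (nat_lit 15985387486439508807778303)) (T.h (P (nat_lit 0)) (T.h (P (nat_lit 329867910161891328)) (T.h (P (nat_lit 0)) (M (nat_lit 44360715086511))))))) (T.h (P (nat_lit 0)) (T.h (T.h (P (nat_lit 0)) (T.h (M (nat_lit 122950313120324648959)) (T.h (P (nat_lit 0)) (M (nat_lit 464159273959))))) (T.h (P (nat_lit 0)) (T.h (T.h (P (nat_lit 0)) (M (nat_lit 84447168584983))) (P (nat_lit 0))))))) (T.h (T.h (P (nat_lit 0)) (T.h (T.h (P (nat_lit 90495437306625408368640)) (T.h (P (nat_lit 0)) (M (nat_lit 20517174016966655)))) (T.h (P (nat_lit 0)) (M (nat_lit 94768158686183423))))) (T.h (T.h (T.h (P (nat_lit 0)) (T.h (M (nat_lit 59247496675796713471)) (T.h (P (nat_lit 0)) (P (nat_lit 41801279967352))))) (T.h (P (nat_lit 0)) (T.h (T.h (P (nat_lit 0)) (M (nat_lit 51101893799431))) (P (nat_lit 0))))) (T.h (T.h (P (nat_lit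 0)) (P (nat_lit 57018139842281472))) (T.h (T.h (T.h (P (nat_lit 0)) (P (nat_lit 43030436047360))) (P (nat_lit 0))) (P (nat_lit 0)))))))), (T.h (T.h (P (nat_lit 0)) (T.h (T.h (P (nat_lit 0)) (T.h (M (nat_lit 29958964082896697032703999)) (T.h (P (nat_lit 0)) (T.h (P (nat_lit 16255017564403400704)) (T.h (P (nat_lit 0)) (M (nat_lit 35685065481487))))))) (T.h (P (nat_lit 0)) (T.h (T.h (P (nat_lit 0)) (T.h (M (nat_lit 38902030640963649535)) (T.h (P (nat_lit 0)) (M (nat_lit 13381475394175))))) (T.h (P (nat_lit 0)) (T.h (T.h (P (nat_lit 0)) (P (nat_lit 15958812818176))) (P (nat_lit 0)))))))) (T.h (T.h (T.h (M (nat_lit 17659951530170901767705853951)) (T.h (P (nat_lit 0)) (T.h (P (nat_lit 58650704618747651424256)) (T.h (P (nat_lit 0)) (P (nat_lit 71761040527261696)))))) (T.h (P (nat_lit 0)) (T.h (T.h (P (nat_lit 62838136550265211322368)) (T.h (P (nat_lit 0)) (M (nat_lit 116121369701367807)))) (T.h (P (nat_lit 0)) (P (nat_lit 35350754512633856)))))) (T.h (T.h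 (P (nat_lit 0)) (T.h (T.h (P (nat_lit 0)) (T.h (M (nat_lit 110232834500051599359)) (T.h (P (nat_lit 0)) (M (nat_lit 1228216181215))))) (T.h (P (nat_lit 0)) (T.h (T.h (P (nat_lit 0)) (P (nat_lit 31589154588192))) (P (nat_lit 0)))))) (T.h (T.h (T.h (P (nat_lit 5564071054108727967744)) (T.h (P (nat_lit 0)) (P (nat_lit 34555186056429568)))) (T.h (P (nat_lit 0)) (P (nat_lit 17784403227607040)))) (T.h (T.h (P (nat_lit 0)) (T.h (T.h (P (nat_lit 0)) (M (nat_lit 6049335980319))) (P (nat_lit 0)))) (P (nat_lit 11843724323946496))))))), (T.h (T.h (P (nat_lit 0)) (T.h (T.h (M (nat_lit 196880679099408368762093567)) (T.h (P (nat_lit 0)) (T.h (M (nat_lit 77239613232006419185663)) (T.h (P (nat_lit 0)) (M (nat_lit 25819875288023039)))))) (T.h (P (nat_lit 0)) (T.h (T.h (P (nat_lit 12998830789177777324032)) (T.h (P (nat_lit 0)) (M (nat_lit 34920406814162943)))) (T.h (P (nat_lit 0)) (P (nat_lit 2145384325251072))))))) (T.h (T.h (T.h (P (nat_lit 0)) (T.h (P (nat_lit 65929454295647691810537472))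 (T.h (P (nat_lit 0)) (T.h (M (nat_lit 113386096090926809087)) (T.h (P (nat_lit 0)) (P (nat_lit 60196247186208))))))) (T.h (P (nat_lit 0)) (T.h (T.h (P (nat_lit 0)) (T.h (P (nat_lit 410350787600809197568)) (T.h (P (nat_lit 0)) (M (nat_lit 95885928699887))))) (T.h (P (nat_lit 0)) (T.h (T.h (P (nat_lit 0)) (M (nat_lit 858351454991))) (P (nat_lit 0))))))) (T.h (T.h (P (nat_lit 0)) (T.h (T.h (P (nat_lit 7733942700038026166272)) (T.h (P (nat_lit 0)) (M (nat_lit 151200152683773951)))) (T.h (P (nat_lit 0)) (M (nat_lit 19253564461350911))))) (T.h (T.h (T.h (P (nat_lit 0)) (T.h (P (nat_lit 339479021704603238400)) (T.h (P (nat_lit 0)) (P (nat_lit 39743026870800))))) (T.h (P (nat_lit 0)) (T.h (T.h (P (nat_lit 0)) (P (nat_lit 18532277689920))) (P (nat_lit 0))))) (T.h (T.h (P (nat_lit 0)) (P (nat_lit 122699701352792064))) (T.h (T.h (T.h (P (nat_lit 0)) (M (nat_lit 1438918448639))) (P (nat_lit 0))) (P (nat_lit 0)))))))), (T.h (T.h (P (nat_lit 0)) (T.h (T.h (P (nat_lit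 0)) (T.h (P (nat_lit 10272478443104322537390080)) (T.h (P (nat_lit 0)) (T.h (P (nat_lit 92046784355859693568)) (T.h (P (nat_lit 0)) (P (nat_lit 32752559787552))))))) (T.h (P (nat_lit 0)) (T.h (T.h (P (nat_lit 0)) (T.h (P (nat_lit 103460306243349905408)) (T.h (P (nat_lit 0)) (P (nat_lit 12834186665184))))) (T.h (P (nat_lit 0)) (T.h (T.h (P (nat_lit 0)) (M (nat_lit 45849852608687))) (P (nat_lit 0)))))))) (T.h (T.h (T.h (M (nat_lit 3204733460397538933508931583)) (T.h (P (nat_lit 0)) (T.h (P (nat_lit 189533633965619006144512)) (T.h (P (nat_lit 0)) (M (nat_lit 159947440549658623)))))) (T.h (P (nat_lit 0)) (T.h (T.h (M (nat_lit 58299763117793543716863)) (T.h (P (nat_lit 0)) (P (nat_lit 196731980638601216)))) (T.h (P (nat_lit 0)) (P (nat_lit 118297934862188544)))))) (T.h (T.h (P (nat_lit 0)) (T.h (T.h (P (nat_lit 0)) (T.h (M (nat_lit 25283953647354380287)) (T.h (P (nat_lit 0)) (M (nat_lit 3247963595855))))) (T.h (P (nat_lit 0)) (T.h (T.h (P (nat_lit 0))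 (M (nat_lit 215827605369791))) (P (nat_lit 0)))))) (T.h (T.h (T.h (M (nat_lit 69418260137388823019519)) (T.h (P (nat_lit 0)) (P (nat_lit 58042506824548352)))) (T.h (P (nat_lit 0)) (M (nat_lit 33821400822153215)))) (T.h (T.h (P (nat_lit 0)) (T.h (T.h (P (nat_lit 0)) (M (nat_lit 139411251903167))) (P (nat_lit 0)))) (M (nat_lit 69814345750593535)))))))]
def lP12_18 : List (T ℤ) := [(T.h (T.h (P (nat_lit 0)) (T.h (T.h (M (nat_lit 1043116937690069580088606719)) (T.h (P (nat_lit 0)) (T.h (P (nat_lit 12925985027821664206848)) (T.h (P (nat_lit 0)) (M (nat_lit 70522602099113983)))))) (T.h (P (nat_lit 0)) (T.h (T.h (P (nat_lit 61764923110046956519424)) (T.h (P (nat_lit 0)) (M (nat_lit 121260396594069503)))) (T.h (P (nat_lit 0)) (P (nat_lit 114189388980387840))))))) (T.h (T.h (T.h (P (nat_lit 0)) (T.h (M (nat_lit 18488068673796538873413631)) (T.h (P (nat_lit 0)) (P (nat_lit 13067073905649254400))))) (T.h (P (nat_lit 0)) (T.h (T.h (P (nat_lit 0)) (M (nat_lit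 3225623507505250303))) (P (nat_lit 0))))) (T.h (T.h (P (nat_lit 0)) (T.h (T.h (M (nat_lit 101464149854981390860287)) (T.h (P (nat_lit 0)) (P (nat_lit 21950935167303680)))) (T.h (P (nat_lit 0)) (M (nat_lit 293207130200866815))))) (T.h (T.h (T.h (P (nat_lit 0)) (M (nat_lit 3412449340189310975))) (P (nat_lit 0))) (T.h (T.h (P (nat_lit 0)) (M (nat_lit 273430289931173887))) (P (nat_lit 0))))))), (P (nat_lit 0)), (P (nat_lit 0)), (T.h (T.h (T.h (P (nat_lit 0)) (T.h (M (nat_lit 5408439614686714154643881983)) (T.h (P (nat_lit 0)) (T.h (P (nat_lit 26896677078837426651136)) (T.h (P (nat_lit 0)) (M (nat_lit 3441017947881471))))))) (T.h (P (nat_lit 0)) (T.h (T.h (P (nat_lit 0)) (T.h (P (nat_lit 76630252839450368278528)) (T.h (P (nat_lit 0)) (P (nat_lit 84305228359008256))))) (T.h (P (nat_lit 0)) (T.h (T.h (P (nat_lit 0)) (P (nat_lit 58180006863405056))) (P (nat_lit 0))))))) (T.h (T.h (P (nat_lit 0)) (T.h (T.h (M (nat_lit 15985387486439508807778303)) (T.h (P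 (nat_lit 0)) (T.h (M (nat_lit 122950313120324648959)) (T.h (P (nat_lit 0)) (M (nat_lit 84447168584983)))))) (T.h (P (nat_lit 0)) (T.h (T.h (P (nat_lit 329867910161891328)) (T.h (P (nat_lit 0)) (M (nat_lit 464159273959)))) (T.h (P (nat_lit 0)) (M (nat_lit 44360715086511))))))) (T.h (T.h (T.h (P (nat_lit 0)) (T.h (P (nat_lit 90495437306625408368640)) (T.h (P (nat_lit 0)) (M (nat_lit 94768158686183423))))) (T.h (P (nat_lit 0)) (T.h (T.h (P (nat_lit 0)) (M (nat_lit 20517174016966655))) (P (nat_lit 0))))) (T.h (T.h (P (nat_lit 0)) (T.h (T.h (M (nat_lit 59247496675796713471)) (T.h (P (nat_lit 0)) (M (nat_lit 51101893799431)))) (T.h (P (nat_lit 0)) (P (nat_lit 41801279967352))))) (T.h (T.h (T.h (P (nat_lit 0)) (P (nat_lit 57018139842281472))) (P (nat_lit 0))) (T.h (T.h (P (nat_lit 0)) (P (nat_lit 43030436047360))) (P (nat_lit 0)))))))), (T.h (T.h (T.h (M (nat_lit 25618270390000856901117466902527)) (T.h (P (nat_lit 0)) (T.h (M (nat_lit 47458740646087391793119231))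 (T.h (P (nat_lit 0)) (T.h (M (nat_lit 19105636496808345599)) (T.h (P (nat_lit 0)) (M (nat_lit 5983445519231)))))))) (T.h (P (nat_lit 0)) (T.h (T.h (M (nat_lit 47458740646087391793119231)) (T.h (P (nat_lit 0)) (T.h (P (nat_lit 52763288870307495936)) (T.h (P (nat_lit 0)) (M (nat_lit 5301778427135)))))) (T.h (P (nat_lit 0)) (T.h (T.h (M (nat_lit 19105636496808345599)) (T.h (P (nat_lit 0)) (M (nat_lit 5301778427135)))) (T.h (P (nat_lit 0)) (M (nat_lit 5983445519231)))))))) (T.h (T.h (P (nat_lit 0)) (T.h (T.h (P (nat_lit 0)) (T.h (P (nat_lit 41870161117780245479424)) (T.h (P (nat_lit 0)) (M (nat_lit 10385968374218751))))) (T.h (P (nat_lit 0)) (T.h (T.h (P (nat_lit 0)) (M (nat_lit 10385968374218751))) (P (nat_lit 0)))))) (T.h (T.h (T.h (M (nat_lit 47458740646087391793119231)) (T.h (P (nat_lit 0)) (T.h (P (nat_lit 52763288870307495936)) (T.h (P (nat_lit 0)) (M (nat_lit 5301778427135)))))) (T.h (P (nat_lit 0)) (T.h (T.h (P (nat_lit 52763288870307495936))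 (T.h (P (nat_lit 0)) (P (nat_lit 316665119520)))) (T.h (P (nat_lit 0)) (M (nat_lit 5301778427135)))))) (T.h (T.h (P (nat_lit 0)) (T.h (T.h (P (nat_lit 0)) (M (nat_lit 10385968374218751))) (P (nat_lit 0)))) (T.h (T.h (T.h (M (nat_lit 19105636496808345599)) (T.h (P (nat_lit 0)) (M (nat_lit 5301778427135)))) (T.h (P (nat_lit 0)) (M (nat_lit 5301778427135)))) (T.h (P (nat_lit 0)) (M (nat_lit 5983445519231)))))))), (T.h (T.h (T.h (P (nat_lit 0)) (T.h (P (nat_lit 21185315675344759689129754624)) (T.h (P (nat_lit 0)) (T.h (M (nat_lit 149998634103159904010239)) (T.h (P (nat_lit 0)) (M (nat_lit 7309298635341823))))))) (T.h (P (nat_lit 0)) (T.h (T.h (P (nat_lit 0)) (T.h (M (nat_lit 622062445289816339775487)) (T.h (P (nat_lit 0)) (P (nat_lit 41421732710612992))))) (T.h (P (nat_lit 0)) (T.h (T.h (P (nat_lit 0)) (P (nat_lit 143628717814513664))) (P (nat_lit 0))))))) (T.h (T.h (P (nat_lit 0)) (T.h (T.h (P (nat_lit 43931432275931594968006656)) (T.h (P (nat_lit 0))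 (T.h (P (nat_lit 620101203713109000192)) (T.h (P (nat_lit 0)) (P (nat_lit 170469860785632)))))) (T.h (P (nat_lit 0)) (T.h (T.h (P (nat_lit 358765266592461750272)) (T.h (P (nat_lit 0)) (M (nat_lit 39170098722095)))) (T.h (P (nat_lit 0)) (P (nat_lit 26954188315536))))))) (T.h (T.h (T.h (P (nat_lit 0)) (T.h (M (nat_lit 409551320307743298945023)) (T.h (P (nat_lit 0)) (M (nat_lit 92930453605482495))))) (T.h (P (nat_lit 0)) (T.h (T.h (P (nat_lit 0)) (M (nat_lit 214348314384990207))) (P (nat_lit 0))))) (T.h (T.h (P (nat_lit 0)) (T.h (T.h (P (nat_lit 388669965026432385024)) (T.h (P (nat_lit 0)) (M (nat_lit 39170098722095)))) (T.h (P (nat_lit 0)) (M (nat_lit 42935273317055))))) (T.h (T.h (T.h (P (nat_lit 0)) (M (nat_lit 387051515212726271))) (P (nat_lit 0))) (T.h (T.h (P (nat_lit 0)) (P (nat_lit 26954188315536))) (P (nat_lit 0)))))))), (T.h (T.h (T.h (M (nat_lit 163838274676151258609171644284927)) (T.h (P (nat_lit 0)) (T.h (M (nat_lit 96594287898782982861750271))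 (T.h (P (nat_lit 0)) (T.h (P (nat_lit 11709195025958043648)) (T.h (P (nat_lit 0)) (M (nat_lit 31009392773855)))))))) (T.h (P (nat_lit 0)) (T.h (T.h (P (nat_lit 130859778192135703524016128)) (T.h (P (nat_lit 0)) (T.h (M (nat_lit 333779016942083899391)) (T.h (P (nat_lit 0)) (M (nat_lit 24735861633167)))))) (T.h (P (nat_lit 0)) (T.h (T.h (P (nat_lit 48076012056079237120)) (T.h (P (nat_lit 0)) (P (nat_lit 15277453196976)))) (T.h (P (nat_lit 0)) (P (nat_lit 47753976709152)))))))) (T.h (T.h (P (nat_lit 0)) (T.h (T.h (P (nat_lit 0)) (T.h (P (nat_lit 70933616783297129480192)) (T.h (P (nat_lit 0)) (M (nat_lit 105549849079513087))))) (T.h (P (nat_lit 0)) (T.h (T.h (P (nat_lit 0)) (P (nat_lit 663329057123434496))) (P (nat_lit 0)))))) (T.h (T.h (T.h (P (nat_lit 130859778192135703524016128)) (T.h (P (nat_lit 0)) (T.h (M (nat_lit 333779016942083899391)) (T.h (P (nat_lit 0)) (M (nat_lit 24735861633167)))))) (T.h (P (nat_lit 0)) (T.h (T.h (M (nat_lit 69903139300316282879))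 (T.h (P (nat_lit 0)) (M (nat_lit 139261050150047)))) (T.h (P (nat_lit 0)) (P (nat_lit 24553582891632)))))) (T.h (T.h (P (nat_lit 0)) (T.h (T.h (P (nat_lit 0)) (P (nat_lit 663329057123434496))) (P (nat_lit 0)))) (T.h (T.h (T.h (P (nat_lit 48076012056079237120)) (T.h (P (nat_lit 0)) (P (nat_lit 15277453196976)))) (T.h (P (nat_lit 0)) (P (nat_lit 24553582891632)))) (T.h (P (nat_lit 0)) (P (nat_lit 47753976709152)))))))), (T.h (T.h (T.h (P (nat_lit 0)) (T.h (P (nat_lit 18533547533791401124823040000)) (T.h (P (nat_lit 0)) (T.h (P (nat_lit 33280740286881974976512)) (T.h (P (nat_lit 0)) (P (nat_lit 27432103723925504))))))) (T.h (P (nat_lit 0)) (T.h (T.h (P (nat_lit 0)) (T.h (P (nat_lit 203247636894042950729728)) (T.h (P (nat_lit 0)) (P (nat_lit 14492751674703872))))) (T.h (P (nat_lit 0)) (T.h (T.h (P (nat_lit 0)) (P (nat_lit 76937809590648832))) (P (nat_lit 0))))))) (T.h (T.h (P (nat_lit 0)) (T.h (T.h (P (nat_lit 24362427025986149431640064)) (T.h (P (nat_lit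 0)) (M (nat_lit 99066322717822156799)))) (T.h (P (nat_lit 0)) (M (nat_lit 270015642585305972735))))) (T.h (T.h (T.h (P (nat_lit 0)) (T.h (P (nat_lit 203247636894042950729728)) (T.h (P (nat_lit 0)) (P (nat_lit 14492751674703872))))) (T.h (P (nat_lit 0)) (T.h (T.h (P (nat_lit 0)) (P (nat_lit 358055875133177856))) (P (nat_lit 0))))) (T.h (T.h (P (nat_lit 0)) (M (nat_lit 270015642585305972735))) (T.h (T.h (T.h (P (nat_lit 0)) (P (nat_lit 76937809590648832))) (P (nat_lit 0))) (P (nat_lit 0)))))))]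
def lP12_19 : List (T ℤ) := [(P (nat_lit 0)), (T.h (T.h (P (nat_lit 0)) (T.h (T.h (M (nat_lit 16032577226949248970651598847)) (T.h (P (nat_lit 0)) (T.h (P (nat_lit 67853320011321597493248)) (T.h (P (nat_lit 0)) (P (nat_lit 58702310137167872)))))) (T.h (P (nat_lit 0)) (T.h (T.h (P (nat_lit 40879065690019249258496)) (T.h (P (nat_lit 0)) (P (nat_lit 983149196673024)))) (T.h (P (nat_lit 0)) (M (nat_lit 1799477701050367))))))) (T.h (T.h (T.h (P (nat_lit 0)) (T.h (M (nat_lit 4271968888054109305831423)) (T.h (P (nat_lit 0)) (T.h (P (nat_lit 52598292338693898240)) (T.h (P (nat_lit 0)) (M (nat_lit 4713754487775))))))) (T.h (P (nat_lit 0)) (T.h (T.h (P (nat_lit 0)) (T.h (M (nat_lit 102367291267864330239)) (T.h (P (nat_lit 0)) (P (nat_lit 56169131541736))))) (T.h (P (nat_lit 0)) (T.h (T.h (P (nat_lit 0)) (M (nat_lit 154163331037063))) (P (nat_lit 0))))))) (T.h (T.h (P (nat_lit 0)) (T.h (T.h (P (nat_lit 23888660425010854232064)) (T.h (P (nat_lit 0)) (M (nat_lit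 44866827071815679)))) (T.h (P (nat_lit 0)) (M (nat_lit 20370843504738303))))) (T.h (T.h (T.h (P (nat_lit 0)) (T.h (M (nat_lit 51461814944234733567)) (T.h (P (nat_lit 0)) (M (nat_lit 17777621262263))))) (T.h (P (nat_lit 0)) (T.h (T.h (P (nat_lit 0)) (P (nat_lit 64595760151272))) (P (nat_lit 0))))) (T.h (T.h (P (nat_lit 0)) (M (nat_lit 37542026044997631))) (T.h (T.h (T.h (P (nat_lit 0)) (M (nat_lit 27369393294111))) (P (nat_lit 0))) (P (nat_lit 0)))))))), (T.h (T.h (P (nat_lit 0)) (T.h (T.h (P (nat_lit 0)) (T.h (M (nat_lit 29958964082896697032703999)) (T.h (P (nat_lit 0)) (T.h (M (nat_lit 38902030640963649535)) (T.h (P (nat_lit 0)) (P (nat_lit 15958812818176))))))) (T.h (P (nat_lit 0)) (T.h (T.h (P (nat_lit 0)) (T.h (P (nat_lit 16255017564403400704)) (T.h (P (nat_lit 0)) (M (nat_lit 13381475394175))))) (T.h (P (nat_lit 0)) (T.h (T.h (P (nat_lit 0)) (M (nat_lit 35685065481487))) (P (nat_lit 0)))))))) (T.h (T.h (T.h (M (nat_lit 17659951530170901767705853951))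 (T.h (P (nat_lit 0)) (T.h (P (nat_lit 62838136550265211322368)) (T.h (P (nat_lit 0)) (P (nat_lit 35350754512633856)))))) (T.h (P (nat_lit 0)) (T.h (T.h (P (nat_lit 58650704618747651424256)) (T.h (P (nat_lit 0)) (M (nat_lit 116121369701367807)))) (T.h (P (nat_lit 0)) (P (nat_lit 71761040527261696)))))) (T.h (T.h (P (nat_lit 0)) (T.h (T.h (P (nat_lit 0)) (T.h (M (nat_lit 110232834500051599359)) (T.h (P (nat_lit 0)) (P (nat_lit 31589154588192))))) (T.h (P (nat_lit 0)) (T.h (T.h (P (nat_lit 0)) (M (nat_lit 1228216181215))) (P (nat_lit 0)))))) (T.h (T.h (T.h (P (nat_lit 5564071054108727967744)) (T.h (P (nat_lit 0)) (P (nat_lit 17784403227607040)))) (T.h (P (nat_lit 0)) (P (nat_lit 34555186056429568)))) (T.h (T.h (P (nat_lit 0)) (T.h (T.h (P (nat_lit 0)) (M (nat_lit 6049335980319))) (P (nat_lit 0)))) (P (nat_lit 11843724323946496))))))), (T.h (T.h (P (nat_lit 0)) (T.h (T.h (P (nat_lit 21185315675344759689129754624)) (T.h (P (nat_lit 0)) (T.h (M (nat_lit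 622062445289816339775487)) (T.h (P (nat_lit 0)) (P (nat_lit 143628717814513664)))))) (T.h (P (nat_lit 0)) (T.h (T.h (M (nat_lit 149998634103159904010239)) (T.h (P (nat_lit 0)) (P (nat_lit 41421732710612992)))) (T.h (P (nat_lit 0)) (M (nat_lit 7309298635341823))))))) (T.h (T.h (T.h (P (nat_lit 0)) (T.h (P (nat_lit 43931432275931594968006656)) (T.h (P (nat_lit 0)) (T.h (P (nat_lit 358765266592461750272)) (T.h (P (nat_lit 0)) (P (nat_lit 26954188315536))))))) (T.h (P (nat_lit 0)) (T.h (T.h (P (nat_lit 0)) (T.h (P (nat_lit 620101203713109000192)) (T.h (P (nat_lit 0)) (M (nat_lit 39170098722095))))) (T.h (P (nat_lit 0)) (T.h (T.h (P (nat_lit 0)) (P (nat_lit 170469860785632))) (P (nat_lit 0))))))) (T.h (T.h (P (nat_lit 0)) (T.h (T.h (M (nat_lit 409551320307743298945023)) (T.h (P (nat_lit 0)) (M (nat_lit 214348314384990207)))) (T.h (P (nat_lit 0)) (M (nat_lit 92930453605482495))))) (T.h (T.h (T.h (P (nat_lit 0)) (T.h (P (nat_lit 388669965026432385024))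 (T.h (P (nat_lit 0)) (M (nat_lit 42935273317055))))) (T.h (P (nat_lit 0)) (T.h (T.h (P (nat_lit 0)) (M (nat_lit 39170098722095))) (P (nat_lit 0))))) (T.h (T.h (P (nat_lit 0)) (M (nat_lit 387051515212726271))) (T.h (T.h (T.h (P (nat_lit 0)) (P (nat_lit 26954188315536))) (P (nat_lit 0))) (P (nat_lit 0)))))))), (T.h (T.h (P (nat_lit 0)) (T.h (T.h (P (nat_lit 0)) (T.h (P (nat_lit 21600743781274845681025024)) (T.h (P (nat_lit 0)) (T.h (M (nat_lit 220075204634252148735)) (T.h (P (nat_lit 0)) (M (nat_lit 27957633716591))))))) (T.h (P (nat_lit 0)) (T.h (T.h (P (nat_lit 0)) (T.h (M (nat_lit 220075204634252148735)) (T.h (P (nat_lit 0)) (P (nat_lit 25282717852608))))) (T.h (P (nat_lit 0)) (T.h (T.h (P (nat_lit 0)) (M (nat_lit 27957633716591))) (P (nat_lit 0)))))))) (T.h (T.h (T.h (M (nat_lit 91855374991264828562180407295)) (T.h (P (nat_lit 0)) (T.h (P (nat_lit 2970450521024041582592)) (T.h (P (nat_lit 0)) (M (nat_lit 15447509922496511)))))) (T.h (P (nat_lit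 0)) (T.h (T.h (P (nat_lit 2970450521024041582592)) (T.h (P (nat_lit 0)) (P (nat_lit 621328006305710080)))) (T.h (P (nat_lit 0)) (M (nat_lit 15447509922496511)))))) (T.h (T.h (P (nat_lit 0)) (T.h (T.h (P (nat_lit 0)) (T.h (M (nat_lit 1104534527105946353663)) (T.h (P (nat_lit 0)) (M (nat_lit 171975504489407))))) (T.h (P (nat_lit 0)) (T.h (T.h (P (nat_lit 0)) (M (nat_lit 171975504489407))) (P (nat_lit 0)))))) (T.h (T.h (T.h (M (nat_lit 207254185173430040526847)) (T.h (P (nat_lit 0)) (P (nat_lit 205331212739428352)))) (T.h (P (nat_lit 0)) (P (nat_lit 205331212739428352)))) (T.h (T.h (P (nat_lit 0)) (T.h (T.h (P (nat_lit 0)) (M (nat_lit 261193932124991))) (P (nat_lit 0)))) (M (nat_lit 81964589215809535))))))), (T.h (T.h (P (nat_lit 0)) (T.h (T.h (P (nat_lit 1067389163542256608104939520)) (T.h (P (nat_lit 0)) (T.h (P (nat_lit 407360935313068118769664)) (T.h (P (nat_lit 0)) (P (nat_lit 48133197116178432)))))) (T.h (P (nat_lit 0)) (T.h (T.h (P (nat_lit 9817218760697314279424))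 (T.h (P (nat_lit 0)) (P (nat_lit 6549343357075456)))) (T.h (P (nat_lit 0)) (M (nat_lit 76460755406553087))))))) (T.h (T.h (T.h (P (nat_lit 0)) (T.h (M (nat_lit 125633492677827405925056511)) (T.h (P (nat_lit 0)) (M (nat_lit 119329832181008695295))))) (T.h (P (nat_lit 0)) (T.h (T.h (P (nat_lit 0)) (M (nat_lit 841263043033434161151))) (P (nat_lit 0))))) (T.h (T.h (P (nat_lit 0)) (T.h (T.h (M (nat_lit 15847429164132177281023)) (T.h (P (nat_lit 0)) (P (nat_lit 267824939245535232)))) (T.h (P (nat_lit 0)) (P (nat_lit 18419990244458496))))) (T.h (T.h (T.h (P (nat_lit 0)) (M (nat_lit 205038297114285703167))) (P (nat_lit 0))) (T.h (T.h (P (nat_lit 0)) (P (nat_lit 11879250200887296))) (P (nat_lit 0))))))), (T.h (T.h (T.h (P (nat_lit 0)) (T.h (M (nat_lit 710954210904152826424852479)) (T.h (P (nat_lit 0)) (T.h (P (nat_lit 9420671387967214845952)) (T.h (P (nat_lit 0)) (M (nat_lit 1952468950286335))))))) (T.h (P (nat_lit 0)) (T.h (T.h (P (nat_lit 0)) (T.h (M (nat_lit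 4201307133567005884415)) (T.h (P (nat_lit 0)) (P (nat_lit 9058048244482048))))) (T.h (P (nat_lit 0)) (T.h (T.h (P (nat_lit 0)) (P (nat_lit 16027981497696256))) (P (nat_lit 0))))))) (T.h (T.h (P (nat_lit 0)) (T.h (T.h (P (nat_lit 6274192122210616088723456)) (T.h (P (nat_lit 0)) (T.h (M (nat_lit 25047407754376904703)) (T.h (P (nat_lit 0)) (M (nat_lit 12835533098983)))))) (T.h (P (nat_lit 0)) (T.h (T.h (M (nat_lit 3000206968196431871)) (T.h (P (nat_lit 0)) (P (nat_lit 24882411374976)))) (T.h (P (nat_lit 0)) (M (nat_lit 12972148589743))))))) (T.h (T.h (T.h (P (nat_lit 0)) (T.h (M (nat_lit 17082716061691805695999)) (T.h (P (nat_lit 0)) (M (nat_lit 13895150774747135))))) (T.h (P (nat_lit 0)) (T.h (T.h (P (nat_lit 0)) (P (nat_lit 31186157871955968))) (P (nat_lit 0))))) (T.h (T.h (P (nat_lit 0)) (T.h (T.h (P (nat_lit 548043297952628736)) (T.h (P (nat_lit 0)) (P (nat_lit 3144249454232)))) (T.h (P (nat_lit 0)) (M (nat_lit 1717778167639))))) (T.h (T.h (T.h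 (P (nat_lit 0)) (P (nat_lit 5564813567361024))) (P (nat_lit 0))) (T.h (T.h (P (nat_lit 0)) (M (nat_lit 2466909061455))) (P (nat_lit 0)))))))), (T.h (T.h (T.h (P (nat_lit 116538236317700504972192617857024)) (T.h (P (nat_lit 0)) (T.h (P (nat_lit 32611548086002112509509632)) (T.h (P (nat_lit 0)) (T.h (P (nat_lit 44292664539358429184)) (T.h (P (nat_lit 0)) (P (nat_lit 32079931261568)))))))) (T.h (P (nat_lit 0)) (T.h (T.h (M (nat_lit 11610262193131898743554047)) (T.h (P (nat_lit 0)) (T.h (P (nat_lit 18121256762693648384)) (T.h (P (nat_lit 0)) (M (nat_lit 22396963694271)))))) (T.h (P (nat_lit 0)) (T.h (T.h (P (nat_lit 4059346151223066624)) (T.h (P (nat_lit 0)) (M (nat_lit 35169845347711)))) (T.h (P (nat_lit 0)) (M (nat_lit 15472739090591)))))))) (T.h (T.h (P (nat_lit 0)) (T.h (T.h (P (nat_lit 0)) (T.h (P (nat_lit 35871329636008551514112)) (T.h (P (nat_lit 0)) (P (nat_lit 40345172097957888))))) (T.h (P (nat_lit 0)) (T.h (T.h (P (nat_lit 0)) (P (nat_lit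 41843344361783296))) (P (nat_lit 0)))))) (T.h (T.h (T.h (P (nat_lit 29852342430197712133554176)) (T.h (P (nat_lit 0)) (T.h (P (nat_lit 14755860110806876160)) (T.h (P (nat_lit 0)) (M (nat_lit 7076939740079)))))) (T.h (P (nat_lit 0)) (T.h (T.h (M (nat_lit 89283928821218672639)) (T.h (P (nat_lit 0)) (M (nat_lit 22178401775167)))) (T.h (P (nat_lit 0)) (P (nat_lit 28335036564160)))))) (T.h (T.h (P (nat_lit 0)) (T.h (T.h (P (nat_lit 0)) (P (nat_lit 95266818162229248))) (P (nat_lit 0)))) (T.h (T.h (T.h (P (nat_lit 11257209192479457280)) (T.h (P (nat_lit 0)) (M (nat_lit 93345869782831)))) (T.h (P (nat_lit 0)) (M (nat_lit 8128876489663)))) (T.h (P (nat_lit 0)) (M (nat_lit 61045729373567))))))))]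
def lP12_20 : List (T ℤ) := [(T.h (T.h (T.h (P (nat_lit 0)) (T.h (M (nat_lit 196880679099408368762093567)) (T.h (P (nat_lit 0)) (T.h (P (nat_lit 12998830789177777324032)) (T.h (P (nat_lit 0)) (P (nat_lit 2145384325251072))))))) (T.h (P (nat_lit 0)) (T.h (T.h (P (nat_lit 0)) (T.h (M (nat_lit 77239613232006419185663)) (T.h (P (nat_lit 0)) (M (nat_lit 34920406814162943))))) (T.h (P (nat_lit 0)) (T.h (T.h (P (nat_lit 0)) (M (nat_lit 25819875288023039))) (P (nat_lit 0))))))) (T.h (T.h (P (nat_lit 0)) (T.h (T.h (P (nat_lit 65929454295647691810537472)) (T.h (P (nat_lit 0)) (T.h (P (nat_lit 410350787600809197568)) (T.h (P (nat_lit 0)) (M (nat_lit 858351454991)))))) (T.h (P (nat_lit 0)) (T.h (T.h (M (nat_lit 113386096090926809087)) (T.h (P (nat_lit 0)) (M (nat_lit 95885928699887)))) (T.h (P (nat_lit 0)) (P (nat_lit 60196247186208))))))) (T.h (T.h (T.h (P (nat_lit 0)) (T.h (P (nat_lit 7733942700038026166272)) (T.h (P (nat_lit 0)) (M (nat_lit 19253564461350911)))))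 (T.h (P (nat_lit 0)) (T.h (T.h (P (nat_lit 0)) (M (nat_lit 151200152683773951))) (P (nat_lit 0))))) (T.h (T.h (P (nat_lit 0)) (T.h (T.h (P (nat_lit 339479021704603238400)) (T.h (P (nat_lit 0)) (P (nat_lit 18532277689920)))) (T.h (P (nat_lit 0)) (P (nat_lit 39743026870800))))) (T.h (T.h (T.h (P (nat_lit 0)) (P (nat_lit 122699701352792064))) (P (nat_lit 0))) (T.h (T.h (P (nat_lit 0)) (M (nat_lit 1438918448639))) (P (nat_lit 0)))))))), (T.h (T.h (T.h (M (nat_lit 163838274676151258609171644284927)) (T.h (P (nat_lit 0)) (T.h (P (nat_lit 130859778192135703524016128)) (T.h (P (nat_lit 0)) (T.h (P (nat_lit 48076012056079237120)) (T.h (P (nat_lit 0)) (P (nat_lit 47753976709152)))))))) (T.h (P (nat_lit 0)) (T.h (T.h (M (nat_lit 96594287898782982861750271)) (T.h (P (nat_lit 0)) (T.h (M (nat_lit 333779016942083899391)) (T.h (P (nat_lit 0)) (P (nat_lit 15277453196976)))))) (T.h (P (nat_lit 0)) (T.h (T.h (P (nat_lit 11709195025958043648)) (T.h (P (nat_lit 0))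 (M (nat_lit 24735861633167)))) (T.h (P (nat_lit 0)) (M (nat_lit 31009392773855)))))))) (T.h (T.h (P (nat_lit 0)) (T.h (T.h (P (nat_lit 0)) (T.h (P (nat_lit 70933616783297129480192)) (T.h (P (nat_lit 0)) (P (nat_lit 663329057123434496))))) (T.h (P (nat_lit 0)) (T.h (T.h (P (nat_lit 0)) (M (nat_lit 105549849079513087))) (P (nat_lit 0)))))) (T.h (T.h (T.h (P (nat_lit 130859778192135703524016128)) (T.h (P (nat_lit 0)) (T.h (M (nat_lit 69903139300316282879)) (T.h (P (nat_lit 0)) (P (nat_lit 24553582891632)))))) (T.h (P (nat_lit 0)) (T.h (T.h (M (nat_lit 333779016942083899391)) (T.h (P (nat_lit 0)) (M (nat_lit 139261050150047)))) (T.h (P (nat_lit 0)) (M (nat_lit 24735861633167)))))) (T.h (T.h (P (nat_lit 0)) (T.h (T.h (P (nat_lit 0)) (P (nat_lit 663329057123434496))) (P (nat_lit 0)))) (T.h (T.h (T.h (P (nat_lit 48076012056079237120)) (T.h (P (nat_lit 0)) (P (nat_lit 24553582891632)))) (T.h (P (nat_lit 0)) (P (nat_lit 15277453196976)))) (T.h (P (nat_lit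 0)) (P (nat_lit 47753976709152)))))))), (T.h (T.h (T.h (P (nat_lit 0)) (T.h (P (nat_lit 1067389163542256608104939520)) (T.h (P (nat_lit 0)) (T.h (P (nat_lit 9817218760697314279424)) (T.h (P (nat_lit 0)) (M (nat_lit 76460755406553087))))))) (T.h (P (nat_lit 0)) (T.h (T.h (P (nat_lit 0)) (T.h (P (nat_lit 407360935313068118769664)) (T.h (P (nat_lit 0)) (P (nat_lit 6549343357075456))))) (T.h (P (nat_lit 0)) (T.h (T.h (P (nat_lit 0)) (P (nat_lit 48133197116178432))) (P (nat_lit 0))))))) (T.h (T.h (P (nat_lit 0)) (T.h (T.h (M (nat_lit 125633492677827405925056511)) (T.h (P (nat_lit 0)) (M (nat_lit 841263043033434161151)))) (T.h (P (nat_lit 0)) (M (nat_lit 119329832181008695295))))) (T.h (T.h (T.h (P (nat_lit 0)) (T.h (M (nat_lit 15847429164132177281023)) (T.h (P (nat_lit 0)) (P (nat_lit 18419990244458496))))) (T.h (P (nat_lit 0)) (T.h (T.h (P (nat_lit 0)) (P (nat_lit 267824939245535232))) (P (nat_lit 0))))) (T.h (T.h (P (nat_lit 0)) (M (nat_lit 205038297114285703167)))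 (T.h (T.h (T.h (P (nat_lit 0)) (P (nat_lit 11879250200887296))) (P (nat_lit 0))) (P (nat_lit 0))))))), (P (nat_lit 0)), (T.h (T.h (P (nat_lit 0)) (T.h (T.h (M (nat_lit 5804126028980203036700835839)) (T.h (P (nat_lit 0)) (T.h (M (nat_lit 4630216723957773500415)) (T.h (P (nat_lit 0)) (M (nat_lit 18694500816125951)))))) (T.h (P (nat_lit 0)) (T.h (T.h (P (nat_lit 43500577131869595762688)) (T.h (P (nat_lit 0)) (P (nat_lit 30151351912300544)))) (T.h (P (nat_lit 0)) (P (nat_lit 7228750032273408))))))) (T.h (T.h (T.h (P (nat_lit 0)) (T.h (P (nat_lit 18271913210275122118656000)) (T.h (P (nat_lit 0)) (T.h (M (nat_lit 23180926420594458623)) (T.h (P (nat_lit 0)) (P (nat_lit 2741942744016))))))) (T.h (P (nat_lit 0)) (T.h (T.h (P (nat_lit 0)) (T.h (P (nat_lit 2221441160281325568)) (T.h (P (nat_lit 0)) (P (nat_lit 4724950018272))))) (T.h (P (nat_lit 0)) (T.h (T.h (P (nat_lit 0)) (P (nat_lit 20145618234144))) (P (nat_lit 0))))))) (T.h (T.h (P (nat_lit 0)) (T.h (T.h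 (M (nat_lit 40055855780120370348031)) (T.h (P (nat_lit 0)) (P (nat_lit 64388952194940928)))) (T.h (P (nat_lit 0)) (M (nat_lit 17103503248982015))))) (T.h (T.h (T.h (P (nat_lit 0)) (T.h (P (nat_lit 64478841846009692160)) (T.h (P (nat_lit 0)) (P (nat_lit 106333461033312))))) (T.h (P (nat_lit 0)) (T.h (T.h (P (nat_lit 0)) (M (nat_lit 47982439091855))) (P (nat_lit 0))))) (T.h (T.h (P (nat_lit 0)) (M (nat_lit 47705728382435327))) (T.h (T.h (T.h (P (nat_lit 0)) (P (nat_lit 16779312954192))) (P (nat_lit 0))) (P (nat_lit 0)))))))), (T.h (T.h (P (nat_lit 0)) (T.h (T.h (P (nat_lit 0)) (T.h (P (nat_lit 10272478443104322537390080)) (T.h (P (nat_lit 0)) (T.h (P (nat_lit 103460306243349905408)) (T.h (P (nat_lit 0)) (M (nat_lit 45849852608687))))))) (T.h (P (nat_lit 0)) (T.h (T.h (P (nat_lit 0)) (T.h (P (nat_lit 92046784355859693568)) (T.h (P (nat_lit 0)) (P (nat_lit 12834186665184))))) (T.h (P (nat_lit 0)) (T.h (T.h (P (nat_lit 0)) (P (nat_lit 32752559787552)))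 (P (nat_lit 0)))))))) (T.h (T.h (T.h (M (nat_lit 3204733460397538933508931583)) (T.h (P (nat_lit 0)) (T.h (M (nat_lit 58299763117793543716863)) (T.h (P (nat_lit 0)) (P (nat_lit 118297934862188544)))))) (T.h (P (nat_lit 0)) (T.h (T.h (P (nat_lit 189533633965619006144512)) (T.h (P (nat_lit 0)) (P (nat_lit 196731980638601216)))) (T.h (P (nat_lit 0)) (M (nat_lit 159947440549658623)))))) (T.h (T.h (P (nat_lit 0)) (T.h (T.h (P (nat_lit 0)) (T.h (M (nat_lit 25283953647354380287)) (T.h (P (nat_lit 0)) (M (nat_lit 215827605369791))))) (T.h (P (nat_lit 0)) (T.h (T.h (P (nat_lit 0)) (M (nat_lit 3247963595855))) (P (nat_lit 0)))))) (T.h (T.h (T.h (M (nat_lit 69418260137388823019519)) (T.h (P (nat_lit 0)) (M (nat_lit 33821400822153215)))) (T.h (P (nat_lit 0)) (P (nat_lit 58042506824548352)))) (T.h (T.h (P (nat_lit 0)) (T.h (T.h (P (nat_lit 0)) (M (nat_lit 139411251903167))) (P (nat_lit 0)))) (M (nat_lit 69814345750593535))))))), (T.h (T.h (P (nat_lit 0)) (T.h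 (T.h (P (nat_lit 18533547533791401124823040000)) (T.h (P (nat_lit 0)) (T.h (P (nat_lit 203247636894042950729728)) (T.h (P (nat_lit 0)) (P (nat_lit 76937809590648832)))))) (T.h (P (nat_lit 0)) (T.h (T.h (P (nat_lit 33280740286881974976512)) (T.h (P (nat_lit 0)) (P (nat_lit 14492751674703872)))) (T.h (P (nat_lit 0)) (P (nat_lit 27432103723925504))))))) (T.h (T.h (T.h (P (nat_lit 0)) (T.h (P (nat_lit 24362427025986149431640064)) (T.h (P (nat_lit 0)) (M (nat_lit 270015642585305972735))))) (T.h (P (nat_lit 0)) (T.h (T.h (P (nat_lit 0)) (M (nat_lit 99066322717822156799))) (P (nat_lit 0))))) (T.h (T.h (P (nat_lit 0)) (T.h (T.h (P (nat_lit 203247636894042950729728)) (T.h (P (nat_lit 0)) (P (nat_lit 358055875133177856)))) (T.h (P (nat_lit 0)) (P (nat_lit 14492751674703872))))) (T.h (T.h (T.h (P (nat_lit 0)) (M (nat_lit 270015642585305972735))) (P (nat_lit 0))) (T.h (T.h (P (nat_lit 0)) (P (nat_lit 76937809590648832))) (P (nat_lit 0))))))), (T.h (T.h (T.h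 (P (nat_lit 0)) (T.h (P (nat_lit 1128989160014218046472192000)) (T.h (P (nat_lit 0)) (T.h (M (nat_lit 7470554262444017975295)) (T.h (P (nat_lit 0)) (P (nat_lit 2378303520079872))))))) (T.h (P (nat_lit 0)) (T.h (T.h (P (nat_lit 0)) (T.h (M (nat_lit 376144294005367111679)) (T.h (P (nat_lit 0)) (P (nat_lit 2766713556762624))))) (T.h (P (nat_lit 0)) (T.h (T.h (P (nat_lit 0)) (P (nat_lit 2587655356350464))) (P (nat_lit 0))))))) (T.h (T.h (P (nat_lit 0)) (T.h (T.h (P (nat_lit 1777978301401615713697792)) (T.h (P (nat_lit 0)) (M (nat_lit 14255254093198000127)))) (T.h (P (nat_lit 0)) (M (nat_lit 8784498254944403455))))) (T.h (T.h (T.h (P (nat_lit 0)) (T.h (P (nat_lit 18293395885173516533760)) (T.h (P (nat_lit 0)) (P (nat_lit 28585714715820032))))) (T.h (P (nat_lit 0)) (T.h (T.h (P (nat_lit 0)) (M (nat_lit 21605645460406271))) (P (nat_lit 0))))) (T.h (T.h (P (nat_lit 0)) (M (nat_lit 3113015239185006591))) (T.h (T.h (T.h (P (nat_lit 0)) (M (nat_lit 1749237737390079)))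 (P (nat_lit 0))) (P (nat_lit 0)))))))]
def lP12_21 : List (T ℤ) := [(T.h (T.h (T.h (M (nat_lit 202020782321028235702046130438143)) (T.h (P (nat_lit 0)) (T.h (M (nat_lit 42337534151861017088360447)) (T.h (P (nat_lit 0)) (T.h (M (nat_lit 68615088356747902975)) (T.h (P (nat_lit 0)) (M (nat_lit 87410689135199)))))))) (T.h (P (nat_lit 0)) (T.h (T.h (P (nat_lit 23366883707900872915681280)) (T.h (P (nat_lit 0)) (T.h (P (nat_lit 34550124118083108864)) (T.h (P (nat_lit 0)) (P (nat_lit 133240626359424)))))) (T.h (P (nat_lit 0)) (T.h (T.h (M (nat_lit 7131341328276783103)) (T.h (P (nat_lit 0)) (P (nat_lit 26406644853168)))) (T.h (P (nat_lit 0)) (P (nat_lit 14645707618464)))))))) (T.h (T.h (P (nat_lit 0)) (T.h (T.h (P (nat_lit 0)) (T.h (P (nat_lit 9071748710483349209088)) (T.h (P (nat_lit 0)) (M (nat_lit 125759308696616959))))) (T.h (P (nat_lit 0)) (T.h (T.h (P (nat_lit 0)) (M (nat_lit 63102135297736703))) (P (nat_lit 0)))))) (T.h (T.h (T.h (M (nat_lit 35815997065927715062808575))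 (T.h (P (nat_lit 0)) (T.h (P (nat_lit 132043227812096638976)) (T.h (P (nat_lit 0)) (P (nat_lit 352154342018448)))))) (T.h (P (nat_lit 0)) (T.h (T.h (P (nat_lit 15088578806786555904)) (T.h (P (nat_lit 0)) (P (nat_lit 14513604933888)))) (T.h (P (nat_lit 0)) (M (nat_lit 77309147628143)))))) (T.h (T.h (P (nat_lit 0)) (T.h (T.h (P (nat_lit 0)) (M (nat_lit 178490904560173055))) (P (nat_lit 0)))) (T.h (T.h (T.h (M (nat_lit 2673562259325714431)) (T.h (P (nat_lit 0)) (P (nat_lit 499241730033216)))) (T.h (P (nat_lit 0)) (P (nat_lit 134195146157664)))) (T.h (P (nat_lit 0)) (P (nat_lit 8713460479392)))))))), (T.h (T.h (T.h (P (nat_lit 0)) (T.h (M (nat_lit 1043116937690069580088606719)) (T.h (P (nat_lit 0)) (T.h (P (nat_lit 61764923110046956519424)) (T.h (P (nat_lit 0)) (P (nat_lit 114189388980387840))))))) (T.h (P (nat_lit 0)) (T.h (T.h (P (nat_lit 0)) (T.h (P (nat_lit 12925985027821664206848)) (T.h (P (nat_lit 0)) (M (nat_lit 121260396594069503))))) (T.h (P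 (nat_lit 0)) (T.h (T.h (P (nat_lit 0)) (M (nat_lit 70522602099113983))) (P (nat_lit 0))))))) (T.h (T.h (P (nat_lit 0)) (T.h (T.h (M (nat_lit 18488068673796538873413631)) (T.h (P (nat_lit 0)) (M (nat_lit 3225623507505250303)))) (T.h (P (nat_lit 0)) (P (nat_lit 13067073905649254400))))) (T.h (T.h (T.h (P (nat_lit 0)) (T.h (M (nat_lit 101464149854981390860287)) (T.h (P (nat_lit 0)) (M (nat_lit 293207130200866815))))) (T.h (P (nat_lit 0)) (T.h (T.h (P (nat_lit 0)) (P (nat_lit 21950935167303680))) (P (nat_lit 0))))) (T.h (T.h (P (nat_lit 0)) (M (nat_lit 3412449340189310975))) (T.h (T.h (T.h (P (nat_lit 0)) (M (nat_lit 273430289931173887))) (P (nat_lit 0))) (P (nat_lit 0))))))), (P (nat_lit 0)), (T.h (T.h (P (nat_lit 0)) (T.h (T.h (M (nat_lit 5287393795622230931927990271)) (T.h (P (nat_lit 0)) (T.h (M (nat_lit 11470395129475534684159)) (T.h (P (nat_lit 0)) (M (nat_lit 48452197856411647)))))) (T.h (P (nat_lit 0)) (T.h (T.h (M (nat_lit 10997930159462676430847))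 (T.h (P (nat_lit 0)) (M (nat_lit 28259372670091263)))) (T.h (P (nat_lit 0)) (M (nat_lit 21976945639718911))))))) (T.h (T.h (T.h (P (nat_lit 0)) (T.h (M (nat_lit 7968129611153399804329983)) (T.h (P (nat_lit 0)) (M (nat_lit 34246235936746635263))))) (T.h (P (nat_lit 0)) (T.h (T.h (P (nat_lit 0)) (P (nat_lit 28063542199158046720))) (P (nat_lit 0))))) (T.h (T.h (P (nat_lit 0)) (T.h (T.h (M (nat_lit 37042947306702845771775)) (T.h (P (nat_lit 0)) (M (nat_lit 21820328043151359)))) (T.h (P (nat_lit 0)) (P (nat_lit 78374196030734336))))) (T.h (T.h (T.h (P (nat_lit 0)) (M (nat_lit 28918869486353776639))) (P (nat_lit 0))) (T.h (T.h (P (nat_lit 0)) (M (nat_lit 17184947940786175))) (P (nat_lit 0))))))), (P (nat_lit 0)), (P (nat_lit 0)), (P (nat_lit 0)), (T.h (T.h (T.h (P (nat_lit 0)) (T.h (P (nat_lit 0)) (T.h (P (nat_lit 8646979536603705119866880)) (T.h (P (nat_lit 0)) (T.h (M (nat_lit 13069246296349474815)) (T.h (P (nat_lit 0)) (P (nat_lit 4159713623040))))))))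 (T.h (P (nat_lit 0)) (T.h (T.h (M (nat_lit 11799957120708370059231231)) (T.h (P (nat_lit 0)) (T.h (M (nat_lit 13579710570847797247)) (T.h (P (nat_lit 0)) (P (nat_lit 28380971078576)))))) (T.h (P (nat_lit 0)) (T.h (T.h (P (nat_lit 16506178402361802752)) (T.h (P (nat_lit 0)) (M (nat_lit 30886702575)))) (T.h (P (nat_lit 0)) (M (nat_lit 687662435679)))))))) (T.h (T.h (P (nat_lit 0)) (T.h (T.h (P (nat_lit 0)) (T.h (P (nat_lit 29421065666285424082944)) (T.h (P (nat_lit 0)) (P (nat_lit 52297265206820864))))) (T.h (P (nat_lit 0)) (T.h (T.h (P (nat_lit 0)) (P (nat_lit 8542495069765632))) (P (nat_lit 0)))))) (T.h (T.h (T.h (M (nat_lit 4470458626252794727759871)) (T.h (P (nat_lit 0)) (T.h (M (nat_lit 45484840413231579135)) (T.h (P (nat_lit 0)) (M (nat_lit 8330655691303)))))) (T.h (P (nat_lit 0)) (T.h (T.h (M (nat_lit 1175768384764116991)) (T.h (P (nat_lit 0)) (P (nat_lit 25207542297808)))) (T.h (P (nat_lit 0)) (M (nat_lit 6143153911775)))))) (T.h (T.h (P (nat_lit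 0)) (T.h (T.h (P (nat_lit 0)) (P (nat_lit 37222367485198336))) (P (nat_lit 0)))) (T.h (T.h (T.h (P (nat_lit 13225468651219451904)) (T.h (P (nat_lit 0)) (P (nat_lit 17546745548008)))) (T.h (P (nat_lit 0)) (P (nat_lit 5420164061464)))) (T.h (P (nat_lit 0)) (P (nat_lit 3917118927224))))))))]
def lP12_22 : List (T ℤ) := [(P (nat_lit 0)), (T.h (T.h (T.h (P (nat_lit 2165780065517618401437997334528)) (T.h (P (nat_lit 0)) (T.h (P (nat_lit 2544460542919990686253056)) (T.h (P (nat_lit 0)) (M (nat_lit 5851157149417209855)))))) (T.h (P (nat_lit 0)) (T.h (T.h (M (nat_lit 2082116690725692545957887)) (T.h (P (nat_lit 0)) (P (nat_lit 33560407381840494592)))) (T.h (P (nat_lit 0)) (M (nat_lit 22057285297450778623)))))) (T.h (T.h (P (nat_lit 0)) (T.h (T.h (P (nat_lit 0)) (T.h (P (nat_lit 48318337097879796056064)) (T.h (P (nat_lit 0)) (M (nat_lit 100888534962077695))))) (T.h (P (nat_lit 0)) (T.h (T.h (P (nat_lit 0)) (P (nat_lit 62138770787336192))) (P (nat_lit 0))))))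 (T.h (T.h (T.h (M (nat_lit 6991992543679142913114111)) (T.h (P (nat_lit 0)) (P (nat_lit 50575015065614811136)))) (T.h (P (nat_lit 0)) (M (nat_lit 3431883597978533887)))) (T.h (T.h (P (nat_lit 0)) (T.h (T.h (P (nat_lit 0)) (M (nat_lit 91461840683204607))) (P (nat_lit 0)))) (M (nat_lit 9099137864637087743)))))), (P (nat_lit 0)), (P (nat_lit 0)), (P (nat_lit 0)), (P (nat_lit 0)), (T.h (T.h (P (nat_lit 0)) (T.h (T.h (P (nat_lit 0)) (T.h (M (nat_lit 27676205369073699915825151)) (T.h (P (nat_lit 0)) (T.h (M (nat_lit 70215663419572355071)) (T.h (P (nat_lit 0)) (P (nat_lit 11766035257360))))))) (T.h (P (nat_lit 0)) (T.h (T.h (P (nat_lit 0)) (T.h (M (nat_lit 28413582578437586943)) (T.h (P (nat_lit 0)) (P (nat_lit 18911614611968))))) (T.h (P (nat_lit 0)) (T.h (T.h (P (nat_lit 0)) (M (nat_lit 32260985067391))) (P (nat_lit 0)))))))) (T.h (T.h (T.h (M (nat_lit 20293420948936684244266123263)) (T.h (P (nat_lit 0)) (T.h (P (nat_lit 95066536317862933430272)) (T.h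 (P (nat_lit 0)) (P (nat_lit 1614901541535744)))))) (T.h (P (nat_lit 0)) (T.h (T.h (P (nat_lit 1200574989465542459392)) (T.h (P (nat_lit 0)) (P (nat_lit 14919715306340352)))) (T.h (P (nat_lit 0)) (M (nat_lit 61830017455030271)))))) (T.h (T.h (P (nat_lit 0)) (T.h (T.h (P (nat_lit 0)) (T.h (M (nat_lit 48462175993784696831)) (T.h (P (nat_lit 0)) (M (nat_lit 23739065037791))))) (T.h (P (nat_lit 0)) (T.h (T.h (P (nat_lit 0)) (P (nat_lit 32880423862368))) (P (nat_lit 0)))))) (T.h (T.h (T.h (M (nat_lit 37950417731644431532031)) (T.h (P (nat_lit 0)) (P (nat_lit 1346246688112640)))) (T.h (P (nat_lit 0)) (P (nat_lit 67599527301283840)))) (T.h (T.h (P (nat_lit 0)) (T.h (T.h (P (nat_lit 0)) (P (nat_lit 68140638836416))) (P (nat_lit 0)))) (P (nat_lit 11650205220077568))))))), (T.h (T.h (P (nat_lit 0)) (T.h (T.h (P (nat_lit 53722552701100346492772679680)) (T.h (P (nat_lit 0)) (T.h (M (nat_lit 40817385476115149094911)) (T.h (P (nat_lit 0)) (P (nat_lit 13953943454662656))))))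 (T.h (P (nat_lit 0)) (T.h (T.h (P (nat_lit 24104559975736356634624)) (T.h (P (nat_lit 0)) (M (nat_lit 5618166223650815)))) (T.h (P (nat_lit 0)) (P (nat_lit 29987144081145856))))))) (T.h (T.h (T.h (P (nat_lit 0)) (T.h (P (nat_lit 27976224509473404932325376)) (T.h (P (nat_lit 0)) (T.h (M (nat_lit 147501008737055801343)) (T.h (P (nat_lit 0)) (M (nat_lit 5456481312047))))))) (T.h (P (nat_lit 0)) (T.h (T.h (P (nat_lit 0)) (T.h (M (nat_lit 251512460228226449407)) (T.h (P (nat_lit 0)) (M (nat_lit 64596591120223))))) (T.h (P (nat_lit 0)) (T.h (T.h (P (nat_lit 0)) (P (nat_lit 18546753362336))) (P (nat_lit 0))))))) (T.h (T.h (P (nat_lit 0)) (T.h (T.h (M (nat_lit 40817385476115149094911)) (T.h (P (nat_lit 0)) (P (nat_lit 328107354602536960)))) (T.h (P (nat_lit 0)) (M (nat_lit 5618166223650815))))) (T.h (T.h (T.h (P (nat_lit 0)) (T.h (M (nat_lit 147501008737055801343)) (T.h (P (nat_lit 0)) (P (nat_lit 48640495562304))))) (T.h (P (nat_lit 0)) (T.h (T.h (P (nat_lit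 0)) (M (nat_lit 64596591120223))) (P (nat_lit 0))))) (T.h (T.h (P (nat_lit 0)) (P (nat_lit 13953943454662656))) (T.h (T.h (T.h (P (nat_lit 0)) (M (nat_lit 5456481312047))) (P (nat_lit 0))) (P (nat_lit 0))))))))]
def lP12_23 : List (T ℤ) := [(T.h (T.h (P (nat_lit 0)) (T.h (T.h (P (nat_lit 0)) (T.h (M (nat_lit 41919614505574943669878783)) (T.h (P (nat_lit 0)) (T.h (P (nat_lit 122471225025972142080)) (T.h (P (nat_lit 0)) (M (nat_lit 6261972315983))))))) (T.h (P (nat_lit 0)) (T.h (T.h (P (nat_lit 0)) (T.h (M (nat_lit 112367691757023920127)) (T.h (P (nat_lit 0)) (P (nat_lit 14935521193248))))) (T.h (P (nat_lit 0)) (T.h (T.h (P (nat_lit 0)) (P (nat_lit 6554927866368))) (P (nat_lit 0)))))))) (T.h (T.h (T.h (P (nat_lit 29953931576755071657917284352)) (T.h (P (nat_lit 0)) (T.h (M (nat_lit 81559934222156643172351)) (T.h (P (nat_lit 0)) (P (nat_lit 37642578124046336)))))) (T.h (P (nat_lit 0)) (T.h (T.h (P (nat_lit 176873523125990658670592)) (T.h (P (nat_lit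 0)) (M (nat_lit 250137997254918143)))) (T.h (P (nat_lit 0)) (P (nat_lit 128911744136085504)))))) (T.h (T.h (P (nat_lit 0)) (T.h (T.h (P (nat_lit 0)) (T.h (P (nat_lit 67217454637531529216)) (T.h (P (nat_lit 0)) (M (nat_lit 32116743668927))))) (T.h (P (nat_lit 0)) (T.h (T.h (P (nat_lit 0)) (P (nat_lit 13001890599264))) (P (nat_lit 0)))))) (T.h (T.h (T.h (P (nat_lit 112723384774149346951168)) (T.h (P (nat_lit 0)) (M (nat_lit 84776219546124287)))) (T.h (P (nat_lit 0)) (M (nat_lit 33505242060324863)))) (T.h (T.h (P (nat_lit 0)) (T.h (T.h (P (nat_lit 0)) (M (nat_lit 95270745959327))) (P (nat_lit 0)))) (P (nat_lit 95281327835054080))))))), (T.h (T.h (P (nat_lit 0)) (T.h (T.h (M (nat_lit 72685983661459251017040265215)) (T.h (P (nat_lit 0)) (T.h (M (nat_lit 33414274095559754121215)) (T.h (P (nat_lit 0)) (P (nat_lit 6109213496131584)))))) (T.h (P (nat_lit 0)) (T.h (T.h (P (nat_lit 1559377016144609148928)) (T.h (P (nat_lit 0)) (M (nat_lit 67341317046075391))))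 (T.h (P (nat_lit 0)) (M (nat_lit 28653826021441535))))))) (T.h (T.h (T.h (P (nat_lit 0)) (T.h (M (nat_lit 40456280365528153312985087)) (T.h (P (nat_lit 0)) (T.h (P (nat_lit 62616020965616779264)) (T.h (P (nat_lit 0)) (P (nat_lit 45005981788656))))))) (T.h (P (nat_lit 0)) (T.h (T.h (P (nat_lit 0)) (T.h (P (nat_lit 369929869536337592320)) (T.h (P (nat_lit 0)) (P (nat_lit 73574799128352))))) (T.h (P (nat_lit 0)) (T.h (T.h (P (nat_lit 0)) (M (nat_lit 36795851005967))) (P (nat_lit 0))))))) (T.h (T.h (P (nat_lit 0)) (T.h (T.h (P (nat_lit 83956052722079571640320)) (T.h (P (nat_lit 0)) (M (nat_lit 392751489005174783)))) (T.h (P (nat_lit 0)) (P (nat_lit 30734799568240640))))) (T.h (T.h (T.h (P (nat_lit 0)) (T.h (P (nat_lit 167404106989858455552)) (T.h (P (nat_lit 0)) (M (nat_lit 35467958383919))))) (T.h (P (nat_lit 0)) (T.h (T.h (P (nat_lit 0)) (P (nat_lit 3848439743712))) (P (nat_lit 0))))) (T.h (T.h (P (nat_lit 0)) (P (nat_lit 53580461240139776))) (T.h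 (T.h (T.h (P (nat_lit 0)) (M (nat_lit 18638776481903))) (P (nat_lit 0))) (P (nat_lit 0)))))))), (T.h (T.h (P (nat_lit 0)) (T.h (T.h (P (nat_lit 0)) (T.h (P (nat_lit 28478335506665354741940224)) (T.h (P (nat_lit 0)) (P (nat_lit 7399312085391245312))))) (T.h (P (nat_lit 0)) (T.h (T.h (P (nat_lit 0)) (P (nat_lit 46219789068006326272))) (P (nat_lit 0)))))) (T.h (T.h (T.h (M (nat_lit 485246316002040588049317887)) (T.h (P (nat_lit 0)) (T.h (M (nat_lit 116266967700160330596351)) (T.h (P (nat_lit 0)) (M (nat_lit 16022553870106623)))))) (T.h (P (nat_lit 0)) (T.h (T.h (M (nat_lit 156873228732256518930431)) (T.h (P (nat_lit 0)) (M (nat_lit 56832365739311103)))) (T.h (P (nat_lit 0)) (M (nat_lit 151896253560815615)))))) (T.h (T.h (P (nat_lit 0)) (T.h (T.h (P (nat_lit 0)) (P (nat_lit 379707384477398335488))) (P (nat_lit 0)))) (T.h (T.h (T.h (M (nat_lit 47953310490409918529535)) (T.h (P (nat_lit 0)) (M (nat_lit 97934611223642111)))) (T.h (P (nat_lit 0)) (M (nat_lit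 455296650780803071)))) (T.h (P (nat_lit 0)) (M (nat_lit 7655420903981055))))))), (P (nat_lit 0)), (P (nat_lit 0)), (T.h (T.h (T.h (P (nat_lit 0)) (T.h (P (nat_lit 0)) (T.h (M (nat_lit 60933574303992255787040767)) (T.h (P (nat_lit 0)) (T.h (P (nat_lit 27297531531699945472)) (T.h (P (nat_lit 0)) (M (nat_lit 3719911805087)))))))) (T.h (P (nat_lit 0)) (T.h (T.h (M (nat_lit 60933574303992255787040767)) (T.h (P (nat_lit 0)) (T.h (M (nat_lit 47469882134289711103)) (T.h (P (nat_lit 0)) (M (nat_lit 77095955856247)))))) (T.h (P (nat_lit 0)) (T.h (T.h (P (nat_lit 27297531531699945472)) (T.h (P (nat_lit 0)) (M (nat_lit 77095955856247)))) (T.h (P (nat_lit 0)) (M (nat_lit 3719911805087)))))))) (T.h (T.h (P (nat_lit 0)) (T.h (T.h (P (nat_lit 0)) (T.h (P (nat_lit 70437283830372788862976)) (T.h (P (nat_lit 0)) (P (nat_lit 20020029476569088))))) (T.h (P (nat_lit 0)) (T.h (T.h (P (nat_lit 0)) (P (nat_lit 20020029476569088))) (P (nat_lit 0)))))) (T.h (T.h (T.h (P (nat_lit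 69814616239984351144574976)) (T.h (P (nat_lit 0)) (T.h (M (nat_lit 82061565464097587199)) (T.h (P (nat_lit 0)) (M (nat_lit 35281718799975)))))) (T.h (P (nat_lit 0)) (T.h (T.h (M (nat_lit 82061565464097587199)) (T.h (P (nat_lit 0)) (P (nat_lit 8002856554480)))) (T.h (P (nat_lit 0)) (M (nat_lit 35281718799975)))))) (T.h (T.h (P (nat_lit 0)) (T.h (T.h (P (nat_lit 0)) (P (nat_lit 111281319195639808))) (P (nat_lit 0)))) (T.h (T.h (T.h (M (nat_lit 36104050887935131647)) (T.h (P (nat_lit 0)) (P (nat_lit 45169776541272)))) (T.h (P (nat_lit 0)) (P (nat_lit 45169776541272)))) (T.h (P (nat_lit 0)) (M (nat_lit 7961922574367)))))))), (T.h (T.h (T.h (P (nat_lit 0)) (T.h (M (nat_lit 17659951530170901767705853951)) (T.h (P (nat_lit 0)) (T.h (P (nat_lit 5564071054108727967744)) (T.h (P (nat_lit 0)) (P (nat_lit 11843724323946496))))))) (T.h (P (nat_lit 0)) (T.h (T.h (P (nat_lit 0)) (T.h (P (nat_lit 62838136550265211322368)) (T.h (P (nat_lit 0)) (P (nat_lit 17784403227607040)))))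 (T.h (P (nat_lit 0)) (T.h (T.h (P (nat_lit 0)) (P (nat_lit 35350754512633856))) (P (nat_lit 0))))))) (T.h (T.h (P (nat_lit 0)) (T.h (T.h (M (nat_lit 29958964082896697032703999)) (T.h (P (nat_lit 0)) (T.h (M (nat_lit 110232834500051599359)) (T.h (P (nat_lit 0)) (M (nat_lit 6049335980319)))))) (T.h (P (nat_lit 0)) (T.h (T.h (M (nat_lit 38902030640963649535)) (T.h (P (nat_lit 0)) (P (nat_lit 31589154588192)))) (T.h (P (nat_lit 0)) (P (nat_lit 15958812818176))))))) (T.h (T.h (T.h (P (nat_lit 0)) (T.h (P (nat_lit 58650704618747651424256)) (T.h (P (nat_lit 0)) (P (nat_lit 34555186056429568))))) (T.h (P (nat_lit 0)) (T.h (T.h (P (nat_lit 0)) (M (nat_lit 116121369701367807))) (P (nat_lit 0))))) (T.h (T.h (P (nat_lit 0)) (T.h (T.h (P (nat_lit 16255017564403400704)) (T.h (P (nat_lit 0)) (M (nat_lit 1228216181215)))) (T.h (P (nat_lit 0)) (M (nat_lit 13381475394175))))) (T.h (T.h (T.h (P (nat_lit 0)) (P (nat_lit 71761040527261696))) (P (nat_lit 0))) (T.h (T.h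 (P (nat_lit 0)) (M (nat_lit 35685065481487))) (P (nat_lit 0)))))))), (T.h (T.h (T.h (M (nat_lit 74190946413248807394160410623)) (T.h (P (nat_lit 0)) (T.h (P (nat_lit 39791137566630315261165568)) (T.h (P (nat_lit 0)) (T.h (P (nat_lit 41664058868266696704)) (T.h (P (nat_lit 0)) (P (nat_lit 2902497922080)))))))) (T.h (P (nat_lit 0)) (T.h (T.h (M (nat_lit 60854282505815288585388031)) (T.h (P (nat_lit 0)) (T.h (P (nat_lit 4436194944545193984)) (T.h (P (nat_lit 0)) (P (nat_lit 4499002599360)))))) (T.h (P (nat_lit 0)) (T.h (T.h (M (nat_lit 79121189737265627135)) (T.h (P (nat_lit 0)) (P (nat_lit 39655346396160)))) (T.h (P (nat_lit 0)) (P (nat_lit 12970141598880)))))))) (T.h (T.h (P (nat_lit 0)) (T.h (T.h (P (nat_lit 0)) (T.h (M (nat_lit 541244279939633218846719)) (T.h (P (nat_lit 0)) (M (nat_lit 62674057775415295))))) (T.h (P (nat_lit 0)) (T.h (T.h (P (nat_lit 0)) (M (nat_lit 174618821898141695))) (P (nat_lit 0)))))) (T.h (T.h (T.h (P (nat_lit 6147822456487489113686016))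 (T.h (P (nat_lit 0)) (T.h (P (nat_lit 282524699249357094912)) (T.h (P (nat_lit 0)) (P (nat_lit 16527146365152)))))) (T.h (P (nat_lit 0)) (T.h (T.h (P (nat_lit 261548177829465686016)) (T.h (P (nat_lit 0)) (M (nat_lit 47898110021855)))) (T.h (P (nat_lit 0)) (P (nat_lit 39655346396160)))))) (T.h (T.h (P (nat_lit 0)) (T.h (T.h (P (nat_lit 0)) (M (nat_lit 393512616114257919))) (P (nat_lit 0)))) (T.h (T.h (T.h (P (nat_lit 52972120736463323136)) (T.h (P (nat_lit 0)) (P (nat_lit 16527146365152)))) (T.h (P (nat_lit 0)) (P (nat_lit 4499002599360)))) (T.h (P (nat_lit 0)) (P (nat_lit 2902497922080))))))))]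
def lP12_24 : List (T ℤ) := [(T.h (T.h (T.h (P (nat_lit 0)) (T.h (P (nat_lit 67185566505562312745714450432)) (T.h (P (nat_lit 0)) (T.h (P (nat_lit 26688500089316853153792)) (T.h (P (nat_lit 0)) (P (nat_lit 30121564165390336))))))) (T.h (P (nat_lit 0)) (T.h (T.h (P (nat_lit 0)) (T.h (M (nat_lit 101452401124637860167679)) (T.h (P (nat_lit 0)) (P (nat_lit 91725410818899968))))) (T.h (P (nat_lit 0)) (T.h (T.h (P (nat_lit 0)) (M (nat_lit 75789866623516671))) (P (nat_lit 0))))))) (T.h (T.h (P (nat_lit 0)) (T.h (T.h (P (nat_lit 84474593176145620608483328)) (T.h (P (nat_lit 0)) (T.h (P (nat_lit 291820826445081477120)) (T.h (P (nat_lit 0)) (M (nat_lit 22262947040159)))))) (T.h (P (nat_lit 0)) (T.h (T.h (P (nat_lit 67279472290785394688)) (T.h (P (nat_lit 0)) (M (nat_lit 127505483758511)))) (T.h (P (nat_lit 0)) (P (nat_lit 31976606021472))))))) (T.h (T.h (T.h (P (nat_lit 0)) (T.h (M (nat_lit 118456684448776665956351)) (T.h (P (nat_lit 0)) (P (nat_lit 114024985828311040)))))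 (T.h (P (nat_lit 0)) (T.h (T.h (P (nat_lit 0)) (P (nat_lit 368374066637406208))) (P (nat_lit 0))))) (T.h (T.h (P (nat_lit 0)) (T.h (T.h (P (nat_lit 70989944265199583232)) (T.h (P (nat_lit 0)) (M (nat_lit 165739260395375)))) (T.h (P (nat_lit 0)) (M (nat_lit 2395349943695))))) (T.h (T.h (T.h (P (nat_lit 0)) (P (nat_lit 108129119820283904))) (P (nat_lit 0))) (T.h (T.h (P (nat_lit 0)) (P (nat_lit 77442952494384))) (P (nat_lit 0)))))))), (T.h (T.h (T.h (P (nat_lit 19245058767597118072917487255552)) (T.h (P (nat_lit 0)) (T.h (M (nat_lit 49064869503036694296788991)) (T.h (P (nat_lit 0)) (M (nat_lit 58062886536468234239)))))) (T.h (P (nat_lit 0)) (T.h (T.h (P (nat_lit 59825625941170914374713344)) (T.h (P (nat_lit 0)) (M (nat_lit 45880012597962473471)))) (T.h (P (nat_lit 0)) (P (nat_lit 12951678390250766336)))))) (T.h (T.h (P (nat_lit 0)) (T.h (T.h (P (nat_lit 0)) (T.h (M (nat_lit 171507145602860729761791)) (T.h (P (nat_lit 0)) (M (nat_lit 11742295132012543)))))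 (T.h (P (nat_lit 0)) (T.h (T.h (P (nat_lit 0)) (P (nat_lit 189747104945602560))) (P (nat_lit 0)))))) (T.h (T.h (T.h (M (nat_lit 8849924118460195124805631)) (T.h (P (nat_lit 0)) (M (nat_lit 78300033919217565695)))) (T.h (P (nat_lit 0)) (M (nat_lit 218013063006075748351)))) (T.h (T.h (P (nat_lit 0)) (T.h (T.h (P (nat_lit 0)) (P (nat_lit 200573530775552000))) (P (nat_lit 0)))) (P (nat_lit 22472147538827804672)))))), (P (nat_lit 0)), (T.h (T.h (P (nat_lit 0)) (T.h (T.h (P (nat_lit 0)) (T.h (M (nat_lit 27676205369073699915825151)) (T.h (P (nat_lit 0)) (T.h (M (nat_lit 28413582578437586943)) (T.h (P (nat_lit 0)) (M (nat_lit 32260985067391))))))) (T.h (P (nat_lit 0)) (T.h (T.h (P (nat_lit 0)) (T.h (M (nat_lit 70215663419572355071)) (T.h (P (nat_lit 0)) (P (nat_lit 18911614611968))))) (T.h (P (nat_lit 0)) (T.h (T.h (P (nat_lit 0)) (P (nat_lit 11766035257360))) (P (nat_lit 0)))))))) (T.h (T.h (T.h (M (nat_lit 20293420948936684244266123263)) (T.h (P (nat_lit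 0)) (T.h (P (nat_lit 1200574989465542459392)) (T.h (P (nat_lit 0)) (M (nat_lit 61830017455030271)))))) (T.h (P (nat_lit 0)) (T.h (T.h (P (nat_lit 95066536317862933430272)) (T.h (P (nat_lit 0)) (P (nat_lit 14919715306340352)))) (T.h (P (nat_lit 0)) (P (nat_lit 1614901541535744)))))) (T.h (T.h (P (nat_lit 0)) (T.h (T.h (P (nat_lit 0)) (T.h (M (nat_lit 48462175993784696831)) (T.h (P (nat_lit 0)) (P (nat_lit 32880423862368))))) (T.h (P (nat_lit 0)) (T.h (T.h (P (nat_lit 0)) (M (nat_lit 23739065037791))) (P (nat_lit 0)))))) (T.h (T.h (T.h (M (nat_lit 37950417731644431532031)) (T.h (P (nat_lit 0)) (P (nat_lit 67599527301283840)))) (T.h (P (nat_lit 0)) (P (nat_lit 1346246688112640)))) (T.h (T.h (P (nat_lit 0)) (T.h (T.h (P (nat_lit 0)) (P (nat_lit 68140638836416))) (P (nat_lit 0)))) (P (nat_lit 11650205220077568))))))), (T.h (T.h (P (nat_lit 0)) (T.h (T.h (M (nat_lit 17659951530170901767705853951)) (T.h (P (nat_lit 0)) (T.h (P (nat_lit 62838136550265211322368))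 (T.h (P (nat_lit 0)) (P (nat_lit 35350754512633856)))))) (T.h (P (nat_lit 0)) (T.h (T.h (P (nat_lit 5564071054108727967744)) (T.h (P (nat_lit 0)) (P (nat_lit 17784403227607040)))) (T.h (P (nat_lit 0)) (P (nat_lit 11843724323946496))))))) (T.h (T.h (T.h (P (nat_lit 0)) (T.h (M (nat_lit 29958964082896697032703999)) (T.h (P (nat_lit 0)) (T.h (M (nat_lit 38902030640963649535)) (T.h (P (nat_lit 0)) (P (nat_lit 15958812818176))))))) (T.h (P (nat_lit 0)) (T.h (T.h (P (nat_lit 0)) (T.h (M (nat_lit 110232834500051599359)) (T.h (P (nat_lit 0)) (P (nat_lit 31589154588192))))) (T.h (P (nat_lit 0)) (T.h (T.h (P (nat_lit 0)) (M (nat_lit 6049335980319))) (P (nat_lit 0))))))) (T.h (T.h (P (nat_lit 0)) (T.h (T.h (P (nat_lit 58650704618747651424256)) (T.h (P (nat_lit 0)) (M (nat_lit 116121369701367807)))) (T.h (P (nat_lit 0)) (P (nat_lit 34555186056429568))))) (T.h (T.h (T.h (P (nat_lit 0)) (T.h (P (nat_lit 16255017564403400704)) (T.h (P (nat_lit 0)) (M (nat_lit 13381475394175)))))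 (T.h (P (nat_lit 0)) (T.h (T.h (P (nat_lit 0)) (M (nat_lit 1228216181215))) (P (nat_lit 0))))) (T.h (T.h (P (nat_lit 0)) (P (nat_lit 71761040527261696))) (T.h (T.h (T.h (P (nat_lit 0)) (M (nat_lit 35685065481487))) (P (nat_lit 0))) (P (nat_lit 0)))))))), (T.h (T.h (P (nat_lit 0)) (T.h (T.h (P (nat_lit 0)) (T.h (P (nat_lit 318236083375489996214501376)) (T.h (P (nat_lit 0)) (T.h (M (nat_lit 60059512922087358463)) (T.h (P (nat_lit 0)) (P (nat_lit 26954188315536))))))) (T.h (P (nat_lit 0)) (T.h (T.h (P (nat_lit 0)) (T.h (M (nat_lit 60059512922087358463)) (T.h (P (nat_lit 0)) (M (nat_lit 42935273317055))))) (T.h (P (nat_lit 0)) (T.h (T.h (P (nat_lit 0)) (P (nat_lit 26954188315536))) (P (nat_lit 0)))))))) (T.h (T.h (T.h (M (nat_lit 23915796424348774310663421951)) (T.h (P (nat_lit 0)) (T.h (M (nat_lit 343524207220730623950847)) (T.h (P (nat_lit 0)) (M (nat_lit 222530921898672127)))))) (T.h (P (nat_lit 0)) (T.h (T.h (M (nat_lit 343524207220730623950847))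 (T.h (P (nat_lit 0)) (P (nat_lit 87416075301027840)))) (T.h (P (nat_lit 0)) (M (nat_lit 222530921898672127)))))) (T.h (T.h (P (nat_lit 0)) (T.h (T.h (P (nat_lit 0)) (T.h (P (nat_lit 729740597934180794368)) (T.h (P (nat_lit 0)) (M (nat_lit 39170098722095))))) (T.h (P (nat_lit 0)) (T.h (T.h (P (nat_lit 0)) (M (nat_lit 39170098722095))) (P (nat_lit 0)))))) (T.h (T.h (T.h (M (nat_lit 79233470356149126561791)) (T.h (P (nat_lit 0)) (M (nat_lit 71515992811307007)))) (T.h (P (nat_lit 0)) (M (nat_lit 71515992811307007)))) (T.h (T.h (P (nat_lit 0)) (T.h (T.h (P (nat_lit 0)) (P (nat_lit 170469860785632))) (P (nat_lit 0)))) (P (nat_lit 19389791750848512))))))), (T.h (T.h (P (nat_lit 0)) (T.h (T.h (M (nat_lit 91855374991264828562180407295)) (T.h (P (nat_lit 0)) (T.h (P (nat_lit 2970450521024041582592)) (T.h (P (nat_lit 0)) (M (nat_lit 15447509922496511)))))) (T.h (P (nat_lit 0)) (T.h (T.h (M (nat_lit 207254185173430040526847)) (T.h (P (nat_lit 0)) (P (nat_lit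 205331212739428352)))) (T.h (P (nat_lit 0)) (M (nat_lit 81964589215809535))))))) (T.h (T.h (T.h (P (nat_lit 0)) (T.h (P (nat_lit 21600743781274845681025024)) (T.h (P (nat_lit 0)) (T.h (M (nat_lit 220075204634252148735)) (T.h (P (nat_lit 0)) (M (nat_lit 27957633716591))))))) (T.h (P (nat_lit 0)) (T.h (T.h (P (nat_lit 0)) (T.h (M (nat_lit 1104534527105946353663)) (T.h (P (nat_lit 0)) (M (nat_lit 171975504489407))))) (T.h (P (nat_lit 0)) (T.h (T.h (P (nat_lit 0)) (M (nat_lit 261193932124991))) (P (nat_lit 0))))))) (T.h (T.h (P (nat_lit 0)) (T.h (T.h (P (nat_lit 2970450521024041582592)) (T.h (P (nat_lit 0)) (P (nat_lit 621328006305710080)))) (T.h (P (nat_lit 0)) (P (nat_lit 205331212739428352))))) (T.h (T.h (T.h (P (nat_lit 0)) (T.h (M (nat_lit 220075204634252148735)) (T.h (P (nat_lit 0)) (P (nat_lit 25282717852608))))) (T.h (P (nat_lit 0)) (T.h (T.h (P (nat_lit 0)) (M (nat_lit 171975504489407))) (P (nat_lit 0))))) (T.h (T.h (P (nat_lit 0)) (M (nat_lit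 15447509922496511))) (T.h (T.h (T.h (P (nat_lit 0)) (M (nat_lit 27957633716591))) (P (nat_lit 0))) (P (nat_lit 0)))))))), (T.h (T.h (P (nat_lit 0)) (T.h (T.h (P (nat_lit 0)) (T.h (M (nat_lit 125633492677827405925056511)) (T.h (P (nat_lit 0)) (M (nat_lit 119329832181008695295))))) (T.h (P (nat_lit 0)) (T.h (T.h (P (nat_lit 0)) (M (nat_lit 205038297114285703167))) (P (nat_lit 0)))))) (T.h (T.h (T.h (P (nat_lit 1067389163542256608104939520)) (T.h (P (nat_lit 0)) (T.h (P (nat_lit 407360935313068118769664)) (T.h (P (nat_lit 0)) (P (nat_lit 48133197116178432)))))) (T.h (P (nat_lit 0)) (T.h (T.h (M (nat_lit 15847429164132177281023)) (T.h (P (nat_lit 0)) (P (nat_lit 267824939245535232)))) (T.h (P (nat_lit 0)) (P (nat_lit 11879250200887296)))))) (T.h (T.h (P (nat_lit 0)) (T.h (T.h (P (nat_lit 0)) (M (nat_lit 841263043033434161151))) (P (nat_lit 0)))) (T.h (T.h (T.h (P (nat_lit 9817218760697314279424)) (T.h (P (nat_lit 0)) (P (nat_lit 6549343357075456))))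 (T.h (P (nat_lit 0)) (P (nat_lit 18419990244458496)))) (T.h (P (nat_lit 0)) (M (nat_lit 76460755406553087)))))))]
def lP12_25 : List (T ℤ) := [(T.h (T.h (T.h (P (nat_lit 0)) (T.h (P (nat_lit 0)) (T.h (M (nat_lit 11799957120708370059231231)) (T.h (P (nat_lit 0)) (T.h (P (nat_lit 16506178402361802752)) (T.h (P (nat_lit 0)) (M (nat_lit 687662435679)))))))) (T.h (P (nat_lit 0)) (T.h (T.h (P (nat_lit 8646979536603705119866880)) (T.h (P (nat_lit 0)) (T.h (M (nat_lit 13579710570847797247)) (T.h (P (nat_lit 0)) (M (nat_lit 30886702575)))))) (T.h (P (nat_lit 0)) (T.h (T.h (M (nat_lit 13069246296349474815)) (T.h (P (nat_lit 0)) (P (nat_lit 28380971078576)))) (T.h (P (nat_lit 0)) (P (nat_lit 4159713623040)))))))) (T.h (T.h (P (nat_lit 0)) (T.h (T.h (P (nat_lit 0)) (T.h (P (nat_lit 29421065666285424082944)) (T.h (P (nat_lit 0)) (P (nat_lit 8542495069765632))))) (T.h (P (nat_lit 0)) (T.h (T.h (P (nat_lit 0)) (P (nat_lit 52297265206820864))) (P (nat_lit 0))))))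 (T.h (T.h (T.h (M (nat_lit 4470458626252794727759871)) (T.h (P (nat_lit 0)) (T.h (M (nat_lit 1175768384764116991)) (T.h (P (nat_lit 0)) (M (nat_lit 6143153911775)))))) (T.h (P (nat_lit 0)) (T.h (T.h (M (nat_lit 45484840413231579135)) (T.h (P (nat_lit 0)) (P (nat_lit 25207542297808)))) (T.h (P (nat_lit 0)) (M (nat_lit 8330655691303)))))) (T.h (T.h (P (nat_lit 0)) (T.h (T.h (P (nat_lit 0)) (P (nat_lit 37222367485198336))) (P (nat_lit 0)))) (T.h (T.h (T.h (P (nat_lit 13225468651219451904)) (T.h (P (nat_lit 0)) (P (nat_lit 5420164061464)))) (T.h (P (nat_lit 0)) (P (nat_lit 17546745548008)))) (T.h (P (nat_lit 0)) (P (nat_lit 3917118927224)))))))), (T.h (T.h (T.h (P (nat_lit 0)) (T.h (P (nat_lit 53722552701100346492772679680)) (T.h (P (nat_lit 0)) (T.h (P (nat_lit 24104559975736356634624)) (T.h (P (nat_lit 0)) (P (nat_lit 29987144081145856))))))) (T.h (P (nat_lit 0)) (T.h (T.h (P (nat_lit 0)) (T.h (M (nat_lit 40817385476115149094911)) (T.h (P (nat_lit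 0)) (M (nat_lit 5618166223650815))))) (T.h (P (nat_lit 0)) (T.h (T.h (P (nat_lit 0)) (P (nat_lit 13953943454662656))) (P (nat_lit 0))))))) (T.h (T.h (P (nat_lit 0)) (T.h (T.h (P (nat_lit 27976224509473404932325376)) (T.h (P (nat_lit 0)) (T.h (M (nat_lit 251512460228226449407)) (T.h (P (nat_lit 0)) (P (nat_lit 18546753362336)))))) (T.h (P (nat_lit 0)) (T.h (T.h (M (nat_lit 147501008737055801343)) (T.h (P (nat_lit 0)) (M (nat_lit 64596591120223)))) (T.h (P (nat_lit 0)) (M (nat_lit 5456481312047))))))) (T.h (T.h (T.h (P (nat_lit 0)) (T.h (M (nat_lit 40817385476115149094911)) (T.h (P (nat_lit 0)) (M (nat_lit 5618166223650815))))) (T.h (P (nat_lit 0)) (T.h (T.h (P (nat_lit 0)) (P (nat_lit 328107354602536960))) (P (nat_lit 0))))) (T.h (T.h (P (nat_lit 0)) (T.h (T.h (M (nat_lit 147501008737055801343)) (T.h (P (nat_lit 0)) (M (nat_lit 64596591120223)))) (T.h (P (nat_lit 0)) (P (nat_lit 48640495562304))))) (T.h (T.h (T.h (P (nat_lit 0)) (P (nat_lit 13953943454662656)))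 (P (nat_lit 0))) (T.h (T.h (P (nat_lit 0)) (M (nat_lit 5456481312047))) (P (nat_lit 0)))))))), (T.h (T.h (T.h (M (nat_lit 74190946413248807394160410623)) (T.h (P (nat_lit 0)) (T.h (M (nat_lit 60854282505815288585388031)) (T.h (P (nat_lit 0)) (T.h (M (nat_lit 79121189737265627135)) (T.h (P (nat_lit 0)) (P (nat_lit 12970141598880)))))))) (T.h (P (nat_lit 0)) (T.h (T.h (P (nat_lit 39791137566630315261165568)) (T.h (P (nat_lit 0)) (T.h (P (nat_lit 4436194944545193984)) (T.h (P (nat_lit 0)) (P (nat_lit 39655346396160)))))) (T.h (P (nat_lit 0)) (T.h (T.h (P (nat_lit 41664058868266696704)) (T.h (P (nat_lit 0)) (P (nat_lit 4499002599360)))) (T.h (P (nat_lit 0)) (P (nat_lit 2902497922080)))))))) (T.h (T.h (P (nat_lit 0)) (T.h (T.h (P (nat_lit 0)) (T.h (M (nat_lit 541244279939633218846719)) (T.h (P (nat_lit 0)) (M (nat_lit 174618821898141695))))) (T.h (P (nat_lit 0)) (T.h (T.h (P (nat_lit 0)) (M (nat_lit 62674057775415295))) (P (nat_lit 0)))))) (T.h (T.h (T.h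 (P (nat_lit 6147822456487489113686016)) (T.h (P (nat_lit 0)) (T.h (P (nat_lit 261548177829465686016)) (T.h (P (nat_lit 0)) (P (nat_lit 39655346396160)))))) (T.h (P (nat_lit 0)) (T.h (T.h (P (nat_lit 282524699249357094912)) (T.h (P (nat_lit 0)) (M (nat_lit 47898110021855)))) (T.h (P (nat_lit 0)) (P (nat_lit 16527146365152)))))) (T.h (T.h (P (nat_lit 0)) (T.h (T.h (P (nat_lit 0)) (M (nat_lit 393512616114257919))) (P (nat_lit 0)))) (T.h (T.h (T.h (P (nat_lit 52972120736463323136)) (T.h (P (nat_lit 0)) (P (nat_lit 4499002599360)))) (T.h (P (nat_lit 0)) (P (nat_lit 16527146365152)))) (T.h (P (nat_lit 0)) (P (nat_lit 2902497922080)))))))), (T.h (T.h (T.h (P (nat_lit 0)) (T.h (M (nat_lit 91855374991264828562180407295)) (T.h (P (nat_lit 0)) (T.h (M (nat_lit 207254185173430040526847)) (T.h (P (nat_lit 0)) (M (nat_lit 81964589215809535))))))) (T.h (P (nat_lit 0)) (T.h (T.h (P (nat_lit 0)) (T.h (P (nat_lit 2970450521024041582592)) (T.h (P (nat_lit 0)) (P (nat_lit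 205331212739428352))))) (T.h (P (nat_lit 0)) (T.h (T.h (P (nat_lit 0)) (M (nat_lit 15447509922496511))) (P (nat_lit 0))))))) (T.h (T.h (P (nat_lit 0)) (T.h (T.h (P (nat_lit 21600743781274845681025024)) (T.h (P (nat_lit 0)) (T.h (M (nat_lit 1104534527105946353663)) (T.h (P (nat_lit 0)) (M (nat_lit 261193932124991)))))) (T.h (P (nat_lit 0)) (T.h (T.h (M (nat_lit 220075204634252148735)) (T.h (P (nat_lit 0)) (M (nat_lit 171975504489407)))) (T.h (P (nat_lit 0)) (M (nat_lit 27957633716591))))))) (T.h (T.h (T.h (P (nat_lit 0)) (T.h (P (nat_lit 2970450521024041582592)) (T.h (P (nat_lit 0)) (P (nat_lit 205331212739428352))))) (T.h (P (nat_lit 0)) (T.h (T.h (P (nat_lit 0)) (P (nat_lit 621328006305710080))) (P (nat_lit 0))))) (T.h (T.h (P (nat_lit 0)) (T.h (T.h (M (nat_lit 220075204634252148735)) (T.h (P (nat_lit 0)) (M (nat_lit 171975504489407)))) (T.h (P (nat_lit 0)) (P (nat_lit 25282717852608))))) (T.h (T.h (T.h (P (nat_lit 0)) (M (nat_lit 15447509922496511)))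 (P (nat_lit 0))) (T.h (T.h (P (nat_lit 0)) (M (nat_lit 27957633716591))) (P (nat_lit 0)))))))), (T.h (T.h (T.h (P (nat_lit 222572839239746422182481231872)) (T.h (P (nat_lit 0)) (T.h (P (nat_lit 45059484419259142122766336)) (T.h (P (nat_lit 0)) (P (nat_lit 313964590754955264)))))) (T.h (P (nat_lit 0)) (T.h (T.h (P (nat_lit 45059484419259142122766336)) (T.h (P (nat_lit 0)) (M (nat_lit 391677358918695124991)))) (T.h (P (nat_lit 0)) (P (nat_lit 313964590754955264)))))) (T.h (T.h (P (nat_lit 0)) (T.h (T.h (P (nat_lit 0)) (T.h (P (nat_lit 1398125032032869076172800)) (T.h (P (nat_lit 0)) (P (nat_lit 394280447193907200))))) (T.h (P (nat_lit 0)) (T.h (T.h (P (nat_lit 0)) (P (nat_lit 394280447193907200))) (P (nat_lit 0)))))) (T.h (T.h (T.h (P (nat_lit 45059484419259142122766336)) (T.h (P (nat_lit 0)) (M (nat_lit 391677358918695124991)))) (T.h (P (nat_lit 0)) (M (nat_lit 391677358918695124991)))) (T.h (T.h (P (nat_lit 0)) (T.h (T.h (P (nat_lit 0)) (P (nat_lit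 394280447193907200))) (P (nat_lit 0)))) (P (nat_lit 313964590754955264)))))), (P (nat_lit 0)), (T.h (T.h (P (nat_lit 0)) (T.h (T.h (P (nat_lit 0)) (T.h (M (nat_lit 41919614505574943669878783)) (T.h (P (nat_lit 0)) (T.h (M (nat_lit 112367691757023920127)) (T.h (P (nat_lit 0)) (P (nat_lit 6554927866368))))))) (T.h (P (nat_lit 0)) (T.h (T.h (P (nat_lit 0)) (T.h (P (nat_lit 122471225025972142080)) (T.h (P (nat_lit 0)) (P (nat_lit 14935521193248))))) (T.h (P (nat_lit 0)) (T.h (T.h (P (nat_lit 0)) (M (nat_lit 6261972315983))) (P (nat_lit 0)))))))) (T.h (T.h (T.h (P (nat_lit 29953931576755071657917284352)) (T.h (P (nat_lit 0)) (T.h (P (nat_lit 176873523125990658670592)) (T.h (P (nat_lit 0)) (P (nat_lit 128911744136085504)))))) (T.h (P (nat_lit 0)) (T.h (T.h (M (nat_lit 81559934222156643172351)) (T.h (P (nat_lit 0)) (M (nat_lit 250137997254918143)))) (T.h (P (nat_lit 0)) (P (nat_lit 37642578124046336)))))) (T.h (T.h (P (nat_lit 0)) (T.h (T.h (P (nat_lit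 0)) (T.h (P (nat_lit 67217454637531529216)) (T.h (P (nat_lit 0)) (P (nat_lit 13001890599264))))) (T.h (P (nat_lit 0)) (T.h (T.h (P (nat_lit 0)) (M (nat_lit 32116743668927))) (P (nat_lit 0)))))) (T.h (T.h (T.h (P (nat_lit 112723384774149346951168)) (T.h (P (nat_lit 0)) (M (nat_lit 33505242060324863)))) (T.h (P (nat_lit 0)) (M (nat_lit 84776219546124287)))) (T.h (T.h (P (nat_lit 0)) (T.h (T.h (P (nat_lit 0)) (M (nat_lit 95270745959327))) (P (nat_lit 0)))) (P (nat_lit 95281327835054080))))))), (T.h (T.h (P (nat_lit 0)) (T.h (T.h (P (nat_lit 67185566505562312745714450432)) (T.h (P (nat_lit 0)) (T.h (M (nat_lit 101452401124637860167679)) (T.h (P (nat_lit 0)) (M (nat_lit 75789866623516671)))))) (T.h (P (nat_lit 0)) (T.h (T.h (P (nat_lit 26688500089316853153792)) (T.h (P (nat_lit 0)) (P (nat_lit 91725410818899968)))) (T.h (P (nat_lit 0)) (P (nat_lit 30121564165390336))))))) (T.h (T.h (T.h (P (nat_lit 0)) (T.h (P (nat_lit 84474593176145620608483328)) (T.h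 (P (nat_lit 0)) (T.h (P (nat_lit 67279472290785394688)) (T.h (P (nat_lit 0)) (P (nat_lit 31976606021472))))))) (T.h (P (nat_lit 0)) (T.h (T.h (P (nat_lit 0)) (T.h (P (nat_lit 291820826445081477120)) (T.h (P (nat_lit 0)) (M (nat_lit 127505483758511))))) (T.h (P (nat_lit 0)) (T.h (T.h (P (nat_lit 0)) (M (nat_lit 22262947040159))) (P (nat_lit 0))))))) (T.h (T.h (P (nat_lit 0)) (T.h (T.h (M (nat_lit 118456684448776665956351)) (T.h (P (nat_lit 0)) (P (nat_lit 368374066637406208)))) (T.h (P (nat_lit 0)) (P (nat_lit 114024985828311040))))) (T.h (T.h (T.h (P (nat_lit 0)) (T.h (P (nat_lit 70989944265199583232)) (T.h (P (nat_lit 0)) (M (nat_lit 2395349943695))))) (T.h (P (nat_lit 0)) (T.h (T.h (P (nat_lit 0)) (M (nat_lit 165739260395375))) (P (nat_lit 0))))) (T.h (T.h (P (nat_lit 0)) (P (nat_lit 108129119820283904))) (T.h (T.h (T.h (P (nat_lit 0)) (P (nat_lit 77442952494384))) (P (nat_lit 0))) (P (nat_lit 0))))))))]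
def lP12_26 : List (T ℤ) := [(T.h (T.h (P (nat_lit 0)) (T.h (T.h (P (nat_lit 0)) (T.h (M (nat_lit 125633492677827405925056511)) (T.h (P (nat_lit 0)) (M (nat_lit 205038297114285703167))))) (T.h (P (nat_lit 0)) (T.h (T.h (P (nat_lit 0)) (M (nat_lit 119329832181008695295))) (P (nat_lit 0)))))) (T.h (T.h (T.h (P (nat_lit 1067389163542256608104939520)) (T.h (P (nat_lit 0)) (T.h (M (nat_lit 15847429164132177281023)) (T.h (P (nat_lit 0)) (P (nat_lit 11879250200887296)))))) (T.h (P (nat_lit 0)) (T.h (T.h (P (nat_lit 407360935313068118769664)) (T.h (P (nat_lit 0)) (P (nat_lit 267824939245535232)))) (T.h (P (nat_lit 0)) (P (nat_lit 48133197116178432)))))) (T.h (T.h (P (nat_lit 0)) (T.h (T.h (P (nat_lit 0)) (M (nat_lit 841263043033434161151))) (P (nat_lit 0)))) (T.h (T.h (T.h (P (nat_lit 9817218760697314279424)) (T.h (P (nat_lit 0)) (P (nat_lit 18419990244458496)))) (T.h (P (nat_lit 0)) (P (nat_lit 6549343357075456)))) (T.h (P (nat_lit 0)) (M (nat_lit 76460755406553087))))))),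 (T.h (T.h (T.h (P (nat_lit 2165780065517618401437997334528)) (T.h (P (nat_lit 0)) (T.h (M (nat_lit 2082116690725692545957887)) (T.h (P (nat_lit 0)) (M (nat_lit 22057285297450778623)))))) (T.h (P (nat_lit 0)) (T.h (T.h (P (nat_lit 2544460542919990686253056)) (T.h (P (nat_lit 0)) (P (nat_lit 33560407381840494592)))) (T.h (P (nat_lit 0)) (M (nat_lit 5851157149417209855)))))) (T.h (T.h (P (nat_lit 0)) (T.h (T.h (P (nat_lit 0)) (T.h (P (nat_lit 48318337097879796056064)) (T.h (P (nat_lit 0)) (P (nat_lit 62138770787336192))))) (T.h (P (nat_lit 0)) (T.h (T.h (P (nat_lit 0)) (M (nat_lit 100888534962077695))) (P (nat_lit 0)))))) (T.h (T.h (T.h (M (nat_lit 6991992543679142913114111)) (T.h (P (nat_lit 0)) (M (nat_lit 3431883597978533887)))) (T.h (P (nat_lit 0)) (P (nat_lit 50575015065614811136)))) (T.h (T.h (P (nat_lit 0)) (T.h (T.h (P (nat_lit 0)) (M (nat_lit 91461840683204607))) (P (nat_lit 0)))) (M (nat_lit 9099137864637087743)))))), (T.h (T.h (T.h (P (nat_lit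 0)) (T.h (M (nat_lit 72685983661459251017040265215)) (T.h (P (nat_lit 0)) (T.h (P (nat_lit 1559377016144609148928)) (T.h (P (nat_lit 0)) (M (nat_lit 28653826021441535))))))) (T.h (P (nat_lit 0)) (T.h (T.h (P (nat_lit 0)) (T.h (M (nat_lit 33414274095559754121215)) (T.h (P (nat_lit 0)) (M (nat_lit 67341317046075391))))) (T.h (P (nat_lit 0)) (T.h (T.h (P (nat_lit 0)) (P (nat_lit 6109213496131584))) (P (nat_lit 0))))))) (T.h (T.h (P (nat_lit 0)) (T.h (T.h (M (nat_lit 40456280365528153312985087)) (T.h (P (nat_lit 0)) (T.h (P (nat_lit 369929869536337592320)) (T.h (P (nat_lit 0)) (M (nat_lit 36795851005967)))))) (T.h (P (nat_lit 0)) (T.h (T.h (P (nat_lit 62616020965616779264)) (T.h (P (nat_lit 0)) (P (nat_lit 73574799128352)))) (T.h (P (nat_lit 0)) (P (nat_lit 45005981788656))))))) (T.h (T.h (T.h (P (nat_lit 0)) (T.h (P (nat_lit 83956052722079571640320)) (T.h (P (nat_lit 0)) (P (nat_lit 30734799568240640))))) (T.h (P (nat_lit 0)) (T.h (T.h (P (nat_lit 0))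 (M (nat_lit 392751489005174783))) (P (nat_lit 0))))) (T.h (T.h (P (nat_lit 0)) (T.h (T.h (P (nat_lit 167404106989858455552)) (T.h (P (nat_lit 0)) (P (nat_lit 3848439743712)))) (T.h (P (nat_lit 0)) (M (nat_lit 35467958383919))))) (T.h (T.h (T.h (P (nat_lit 0)) (P (nat_lit 53580461240139776))) (P (nat_lit 0))) (T.h (T.h (P (nat_lit 0)) (M (nat_lit 18638776481903))) (P (nat_lit 0)))))))), (T.h (T.h (T.h (P (nat_lit 19245058767597118072917487255552)) (T.h (P (nat_lit 0)) (T.h (P (nat_lit 59825625941170914374713344)) (T.h (P (nat_lit 0)) (P (nat_lit 12951678390250766336)))))) (T.h (P (nat_lit 0)) (T.h (T.h (M (nat_lit 49064869503036694296788991)) (T.h (P (nat_lit 0)) (M (nat_lit 45880012597962473471)))) (T.h (P (nat_lit 0)) (M (nat_lit 58062886536468234239)))))) (T.h (T.h (P (nat_lit 0)) (T.h (T.h (P (nat_lit 0)) (T.h (M (nat_lit 171507145602860729761791)) (T.h (P (nat_lit 0)) (P (nat_lit 189747104945602560))))) (T.h (P (nat_lit 0)) (T.h (T.h (P (nat_lit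 0)) (M (nat_lit 11742295132012543))) (P (nat_lit 0)))))) (T.h (T.h (T.h (M (nat_lit 8849924118460195124805631)) (T.h (P (nat_lit 0)) (M (nat_lit 218013063006075748351)))) (T.h (P (nat_lit 0)) (M (nat_lit 78300033919217565695)))) (T.h (T.h (P (nat_lit 0)) (T.h (T.h (P (nat_lit 0)) (P (nat_lit 200573530775552000))) (P (nat_lit 0)))) (P (nat_lit 22472147538827804672)))))), (P (nat_lit 0)), (T.h (T.h (P (nat_lit 0)) (T.h (T.h (P (nat_lit 0)) (T.h (P (nat_lit 28478335506665354741940224)) (T.h (P (nat_lit 0)) (P (nat_lit 46219789068006326272))))) (T.h (P (nat_lit 0)) (T.h (T.h (P (nat_lit 0)) (P (nat_lit 7399312085391245312))) (P (nat_lit 0)))))) (T.h (T.h (T.h (M (nat_lit 485246316002040588049317887)) (T.h (P (nat_lit 0)) (T.h (M (nat_lit 156873228732256518930431)) (T.h (P (nat_lit 0)) (M (nat_lit 151896253560815615)))))) (T.h (P (nat_lit 0)) (T.h (T.h (M (nat_lit 116266967700160330596351)) (T.h (P (nat_lit 0)) (M (nat_lit 56832365739311103)))) (T.h (P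 (nat_lit 0)) (M (nat_lit 16022553870106623)))))) (T.h (T.h (P (nat_lit 0)) (T.h (T.h (P (nat_lit 0)) (P (nat_lit 379707384477398335488))) (P (nat_lit 0)))) (T.h (T.h (T.h (M (nat_lit 47953310490409918529535)) (T.h (P (nat_lit 0)) (M (nat_lit 455296650780803071)))) (T.h (P (nat_lit 0)) (M (nat_lit 97934611223642111)))) (T.h (P (nat_lit 0)) (M (nat_lit 7655420903981055))))))), (P (nat_lit 0)), (P (nat_lit 0))]
def lP12_27 : List (T ℤ) := [(P (nat_lit 0)), (T.h (T.h (P (nat_lit 0)) (T.h (T.h (P (nat_lit 0)) (T.h (P (nat_lit 0)) (T.h (M (nat_lit 15896870552754171412479)) (T.h (P (nat_lit 0)) (M (nat_lit 19866110570332159)))))) (T.h (P (nat_lit 0)) (T.h (T.h (P (nat_lit 0)) (T.h (P (nat_lit 0)) (M (nat_lit 36358254186233855)))) (P (nat_lit 0)))))) (T.h (T.h (T.h (P (nat_lit 0)) (T.h (P (nat_lit 0)) (T.h (P (nat_lit 0)) (T.h (M (nat_lit 11744109553573167103)) (T.h (P (nat_lit 0)) (P (nat_lit 9109470898968))))))) (T.h (P (nat_lit 0)) (T.h (T.h (P (nat_lit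 0)) (T.h (P (nat_lit 0)) (T.h (P (nat_lit 0)) (M (nat_lit 41376731774279))))) (P (nat_lit 0))))) (T.h (T.h (P (nat_lit 0)) (T.h (P (nat_lit 15896870552754171412480)) (T.h (P (nat_lit 0)) (P (nat_lit 36358254186233856))))) (T.h (T.h (T.h (P (nat_lit 0)) (P (nat_lit 11744109553573167104))) (T.h (P (nat_lit 0)) (T.h (T.h (P (nat_lit 0)) (P (nat_lit 41376731774280))) (P (nat_lit 0))))) (T.h (T.h (P (nat_lit 0)) (P (nat_lit 19866110570332160))) (T.h (T.h (T.h (P (nat_lit 0)) (M (nat_lit 9109470898967))) (P (nat_lit 0))) (P (nat_lit 0)))))))), (P (nat_lit 0)), (T.h (T.h (P (nat_lit 0)) (T.h (T.h (P (nat_lit 1961451151794692003914055680)) (T.h (P (nat_lit 0)) (T.h (M (nat_lit 41284771601533315842047)) (T.h (P (nat_lit 0)) (M (nat_lit 53874126268694527)))))) (T.h (P (nat_lit 0)) (T.h (T.h (P (nat_lit 16688330030304506937344)) (T.h (P (nat_lit 0)) (M (nat_lit 3654224209018879)))) (T.h (P (nat_lit 0)) (P (nat_lit 8705100237832192))))))) (T.h (T.h (T.h (P (nat_lit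 0)) (T.h (M (nat_lit 42467558604649445625692159)) (T.h (P (nat_lit 0)) (P (nat_lit 45331392311016292352))))) (T.h (P (nat_lit 0)) (T.h (T.h (P (nat_lit 0)) (M (nat_lit 70852417380727914495))) (P (nat_lit 0))))) (T.h (T.h (P (nat_lit 0)) (T.h (T.h (M (nat_lit 2445957634677247311871)) (T.h (P (nat_lit 0)) (M (nat_lit 104996943365898239)))) (T.h (P (nat_lit 0)) (M (nat_lit 21512074690559))))) (T.h (T.h (T.h (P (nat_lit 0)) (P (nat_lit 85719545742742257664))) (P (nat_lit 0))) (T.h (T.h (P (nat_lit 0)) (M (nat_lit 12926663312408575))) (P (nat_lit 0))))))), (P (nat_lit 0)), (P (nat_lit 0)), (P (nat_lit 0)), (P (nat_lit 0))]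
def lP12_28 : List (T ℤ) := [(T.h (T.h (T.h (P (nat_lit 0)) (T.h (P (nat_lit 11496787809809200918567059456)) (T.h (P (nat_lit 0)) (T.h (M (nat_lit 11617805793043614269439)) (T.h (P (nat_lit 0)) (M (nat_lit 36200482048016383))))))) (T.h (P (nat_lit 0)) (T.h (T.h (P (nat_lit 0)) (T.h (M (nat_lit 64222095891970379481087)) (T.h (P (nat_lit 0)) (P (nat_lit 6212521297117184))))) (T.h (P (nat_lit 0)) (T.h (T.h (P (nat_lit 0)) (M (nat_lit 28371450233028607))) (P (nat_lit 0))))))) (T.h (T.h (P (nat_lit 0)) (T.h (T.h (P (nat_lit 21571947098724693878767616)) (T.h (P (nat_lit 0)) (T.h (P (nat_lit 76478298443111989248)) (T.h (P (nat_lit 0)) (P (nat_lit 77374477786416)))))) (T.h (P (nat_lit 0)) (T.h (T.h (P (nat_lit 21211617726308548608)) (T.h (P (nat_lit 0)) (P (nat_lit 1077973024296)))) (T.h (P (nat_lit 0)) (P (nat_lit 559308303240))))))) (T.h (T.h (T.h (P (nat_lit 0)) (T.h (M (nat_lit 123925430186991859793919)) (T.h (P (nat_lit 0)) (P (nat_lit 88918294579314688)))))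 (T.h (P (nat_lit 0)) (T.h (T.h (P (nat_lit 0)) (P (nat_lit 92363672922062848))) (P (nat_lit 0))))) (T.h (T.h (P (nat_lit 0)) (T.h (T.h (P (nat_lit 17973930544995500032)) (T.h (P (nat_lit 0)) (P (nat_lit 17350543804640)))) (T.h (P (nat_lit 0)) (P (nat_lit 2571378340496))))) (T.h (T.h (T.h (P (nat_lit 0)) (M (nat_lit 28589892203675647))) (P (nat_lit 0))) (T.h (T.h (P (nat_lit 0)) (P (nat_lit 16048730735656))) (P (nat_lit 0)))))))), (T.h (T.h (T.h (P (nat_lit 116538236317700504972192617857024)) (T.h (P (nat_lit 0)) (T.h (P (nat_lit 29852342430197712133554176)) (T.h (P (nat_lit 0)) (T.h (P (nat_lit 11257209192479457280)) (T.h (P (nat_lit 0)) (M (nat_lit 61045729373567)))))))) (T.h (P (nat_lit 0)) (T.h (T.h (P (nat_lit 32611548086002112509509632)) (T.h (P (nat_lit 0)) (T.h (P (nat_lit 14755860110806876160)) (T.h (P (nat_lit 0)) (M (nat_lit 93345869782831)))))) (T.h (P (nat_lit 0)) (T.h (T.h (P (nat_lit 44292664539358429184)) (T.h (P (nat_lit 0)) (M (nat_lit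 7076939740079)))) (T.h (P (nat_lit 0)) (P (nat_lit 32079931261568)))))))) (T.h (T.h (P (nat_lit 0)) (T.h (T.h (P (nat_lit 0)) (T.h (P (nat_lit 35871329636008551514112)) (T.h (P (nat_lit 0)) (P (nat_lit 95266818162229248))))) (T.h (P (nat_lit 0)) (T.h (T.h (P (nat_lit 0)) (P (nat_lit 40345172097957888))) (P (nat_lit 0)))))) (T.h (T.h (T.h (M (nat_lit 11610262193131898743554047)) (T.h (P (nat_lit 0)) (T.h (M (nat_lit 89283928821218672639)) (T.h (P (nat_lit 0)) (M (nat_lit 8128876489663)))))) (T.h (P (nat_lit 0)) (T.h (T.h (P (nat_lit 18121256762693648384)) (T.h (P (nat_lit 0)) (M (nat_lit 22178401775167)))) (T.h (P (nat_lit 0)) (M (nat_lit 22396963694271)))))) (T.h (T.h (P (nat_lit 0)) (T.h (T.h (P (nat_lit 0)) (P (nat_lit 41843344361783296))) (P (nat_lit 0)))) (T.h (T.h (T.h (P (nat_lit 4059346151223066624)) (T.h (P (nat_lit 0)) (P (nat_lit 28335036564160)))) (T.h (P (nat_lit 0)) (M (nat_lit 35169845347711)))) (T.h (P (nat_lit 0)) (M (nat_lit 15472739090591)))))))),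 (T.h (T.h (T.h (P (nat_lit 0)) (T.h (P (nat_lit 37153007070310545670677725184)) (T.h (P (nat_lit 0)) (T.h (P (nat_lit 6005775303970645868544)) (T.h (P (nat_lit 0)) (P (nat_lit 134404403354468352))))))) (T.h (P (nat_lit 0)) (T.h (T.h (P (nat_lit 0)) (T.h (P (nat_lit 212984605884887045505024)) (T.h (P (nat_lit 0)) (M (nat_lit 40532740319903743))))) (T.h (P (nat_lit 0)) (T.h (T.h (P (nat_lit 0)) (P (nat_lit 91148603748745216))) (P (nat_lit 0))))))) (T.h (T.h (P (nat_lit 0)) (T.h (T.h (M (nat_lit 73909030253362216653815807)) (T.h (P (nat_lit 0)) (T.h (P (nat_lit 112959693955862102016)) (T.h (P (nat_lit 0)) (M (nat_lit 95270745959327)))))) (T.h (P (nat_lit 0)) (T.h (T.h (M (nat_lit 153420578048366870527)) (T.h (P (nat_lit 0)) (P (nat_lit 13001890599264)))) (T.h (P (nat_lit 0)) (P (nat_lit 6554927866368))))))) (T.h (T.h (T.h (P (nat_lit 0)) (T.h (P (nat_lit 74759382647262242930688)) (T.h (P (nat_lit 0)) (M (nat_lit 5507195204435967))))) (T.h (P (nat_lit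 0)) (T.h (T.h (P (nat_lit 0)) (M (nat_lit 76115911990018047))) (P (nat_lit 0))))) (T.h (T.h (P (nat_lit 0)) (T.h (T.h (P (nat_lit 189293296607421267968)) (T.h (P (nat_lit 0)) (M (nat_lit 32116743668927)))) (T.h (P (nat_lit 0)) (P (nat_lit 14935521193248))))) (T.h (T.h (T.h (P (nat_lit 0)) (P (nat_lit 55262563723018240))) (P (nat_lit 0))) (T.h (T.h (P (nat_lit 0)) (M (nat_lit 6261972315983))) (P (nat_lit 0)))))))), (T.h (T.h (T.h (M (nat_lit 207245689897936580250291383828479)) (T.h (P (nat_lit 0)) (T.h (M (nat_lit 33468533096127654831063039)) (T.h (P (nat_lit 0)) (T.h (M (nat_lit 16190841554053627903)) (T.h (P (nat_lit 0)) (P (nat_lit 75877149067776)))))))) (T.h (P (nat_lit 0)) (T.h (T.h (M (nat_lit 88680154785333492804747263)) (T.h (P (nat_lit 0)) (T.h (P (nat_lit 113789011323028242432)) (T.h (P (nat_lit 0)) (P (nat_lit 73651491357984)))))) (T.h (P (nat_lit 0)) (T.h (T.h (M (nat_lit 144581075029341503487)) (T.h (P (nat_lit 0)) (P (nat_lit 74071766674224))))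 (T.h (P (nat_lit 0)) (M (nat_lit 70822787459903)))))))) (T.h (T.h (P (nat_lit 0)) (T.h (T.h (P (nat_lit 0)) (T.h (M (nat_lit 189858369728152055316479)) (T.h (P (nat_lit 0)) (M (nat_lit 47995793195532287))))) (T.h (P (nat_lit 0)) (T.h (T.h (P (nat_lit 0)) (M (nat_lit 246000128182583295))) (P (nat_lit 0)))))) (T.h (T.h (T.h (M (nat_lit 33468533096127654831063039)) (T.h (P (nat_lit 0)) (T.h (P (nat_lit 333704964478410424320)) (T.h (P (nat_lit 0)) (P (nat_lit 43617723863328)))))) (T.h (P (nat_lit 0)) (T.h (T.h (P (nat_lit 113789011323028242432)) (T.h (P (nat_lit 0)) (P (nat_lit 43934860796544)))) (T.h (P (nat_lit 0)) (P (nat_lit 74071766674224)))))) (T.h (T.h (P (nat_lit 0)) (T.h (T.h (P (nat_lit 0)) (M (nat_lit 47995793195532287))) (P (nat_lit 0)))) (T.h (T.h (T.h (M (nat_lit 16190841554053627903)) (T.h (P (nat_lit 0)) (P (nat_lit 43617723863328)))) (T.h (P (nat_lit 0)) (P (nat_lit 73651491357984)))) (T.h (P (nat_lit 0)) (P (nat_lit 75877149067776)))))))),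 (T.h (T.h (T.h (P (nat_lit 0)) (T.h (M (nat_lit 11248579222122020348964634623)) (T.h (P (nat_lit 0)) (T.h (M (nat_lit 47210703150660263608319)) (T.h (P (nat_lit 0)) (M (nat_lit 113838962049777663))))))) (T.h (P (nat_lit 0)) (T.h (T.h (P (nat_lit 0)) (T.h (M (nat_lit 110268998513681254842367)) (T.h (P (nat_lit 0)) (M (nat_lit 83781578424385535))))) (T.h (P (nat_lit 0)) (T.h (T.h (P (nat_lit 0)) (M (nat_lit 25337783715266559))) (P (nat_lit 0))))))) (T.h (T.h (P (nat_lit 0)) (T.h (T.h (P (nat_lit 33206684731157785694175232)) (T.h (P (nat_lit 0)) (P (nat_lit 352605878129642176512)))) (T.h (P (nat_lit 0)) (M (nat_lit 13623357689722568703))))) (T.h (T.h (T.h (P (nat_lit 0)) (T.h (M (nat_lit 251163479293727797673983)) (T.h (P (nat_lit 0)) (M (nat_lit 15489028619730943))))) (T.h (P (nat_lit 0)) (T.h (T.h (P (nat_lit 0)) (M (nat_lit 22622444845334527))) (P (nat_lit 0))))) (T.h (T.h (P (nat_lit 0)) (P (nat_lit 274170867548684288))) (T.h (T.h (T.h (P (nat_lit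 0)) (P (nat_lit 1355874914500608))) (P (nat_lit 0))) (P (nat_lit 0))))))), (P (nat_lit 0)), (T.h (T.h (P (nat_lit 0)) (T.h (T.h (P (nat_lit 11496787809809200918567059456)) (T.h (P (nat_lit 0)) (T.h (M (nat_lit 64222095891970379481087)) (T.h (P (nat_lit 0)) (M (nat_lit 28371450233028607)))))) (T.h (P (nat_lit 0)) (T.h (T.h (M (nat_lit 11617805793043614269439)) (T.h (P (nat_lit 0)) (P (nat_lit 6212521297117184)))) (T.h (P (nat_lit 0)) (M (nat_lit 36200482048016383))))))) (T.h (T.h (T.h (P (nat_lit 0)) (T.h (P (nat_lit 21571947098724693878767616)) (T.h (P (nat_lit 0)) (T.h (P (nat_lit 21211617726308548608)) (T.h (P (nat_lit 0)) (P (nat_lit 559308303240))))))) (T.h (P (nat_lit 0)) (T.h (T.h (P (nat_lit 0)) (T.h (P (nat_lit 76478298443111989248)) (T.h (P (nat_lit 0)) (P (nat_lit 1077973024296))))) (T.h (P (nat_lit 0)) (T.h (T.h (P (nat_lit 0)) (P (nat_lit 77374477786416))) (P (nat_lit 0))))))) (T.h (T.h (P (nat_lit 0)) (T.h (T.h (M (nat_lit 123925430186991859793919))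 (T.h (P (nat_lit 0)) (P (nat_lit 92363672922062848)))) (T.h (P (nat_lit 0)) (P (nat_lit 88918294579314688))))) (T.h (T.h (T.h (P (nat_lit 0)) (T.h (P (nat_lit 17973930544995500032)) (T.h (P (nat_lit 0)) (P (nat_lit 2571378340496))))) (T.h (P (nat_lit 0)) (T.h (T.h (P (nat_lit 0)) (P (nat_lit 17350543804640))) (P (nat_lit 0))))) (T.h (T.h (P (nat_lit 0)) (M (nat_lit 28589892203675647))) (T.h (T.h (T.h (P (nat_lit 0)) (P (nat_lit 16048730735656))) (P (nat_lit 0))) (P (nat_lit 0)))))))), (T.h (T.h (P (nat_lit 0)) (T.h (T.h (P (nat_lit 0)) (T.h (M (nat_lit 17906321837193087961530367)) (T.h (P (nat_lit 0)) (T.h (M (nat_lit 28621299218955370495)) (T.h (P (nat_lit 0)) (M (nat_lit 57105588554927))))))) (T.h (P (nat_lit 0)) (T.h (T.h (P (nat_lit 0)) (T.h (M (nat_lit 28621299218955370495)) (T.h (P (nat_lit 0)) (M (nat_lit 33666772764575))))) (T.h (P (nat_lit 0)) (T.h (T.h (P (nat_lit 0)) (M (nat_lit 57105588554927))) (P (nat_lit 0)))))))) (T.h (T.h (T.h (P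 (nat_lit 1980409599325634221637107712)) (T.h (P (nat_lit 0)) (T.h (M (nat_lit 3622323455901260840959)) (T.h (P (nat_lit 0)) (M (nat_lit 32889710490746879)))))) (T.h (P (nat_lit 0)) (T.h (T.h (M (nat_lit 3622323455901260840959)) (T.h (P (nat_lit 0)) (P (nat_lit 53787962859716608)))) (T.h (P (nat_lit 0)) (M (nat_lit 32889710490746879)))))) (T.h (T.h (P (nat_lit 0)) (T.h (T.h (P (nat_lit 0)) (T.h (M (nat_lit 4387270251864129535)) (T.h (P (nat_lit 0)) (P (nat_lit 7964610238816))))) (T.h (P (nat_lit 0)) (T.h (T.h (P (nat_lit 0)) (P (nat_lit 7964610238816))) (P (nat_lit 0)))))) (T.h (T.h (T.h (M (nat_lit 15055359175053937737727)) (T.h (P (nat_lit 0)) (M (nat_lit 38455619674882047)))) (T.h (P (nat_lit 0)) (M (nat_lit 38455619674882047)))) (T.h (T.h (P (nat_lit 0)) (T.h (T.h (P (nat_lit 0)) (P (nat_lit 3163502112640))) (P (nat_lit 0)))) (P (nat_lit 3262392835637248)))))))]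
def lP12_29 : List (T ℤ) := [(T.h (T.h (P (nat_lit 0)) (T.h (T.h (P (nat_lit 9216352322088338412082823168)) (T.h (P (nat_lit 0)) (T.h (P (nat_lit 208230855102093103988736)) (T.h (P (nat_lit 0)) (P (nat_lit 226458018113290240)))))) (T.h (P (nat_lit 0)) (T.h (T.h (P (nat_lit 58211314609964760170496)) (T.h (P (nat_lit 0)) (P (nat_lit 378576667041759232)))) (T.h (P (nat_lit 0)) (M (nat_lit 10483760828153855))))))) (T.h (T.h (T.h (P (nat_lit 0)) (T.h (M (nat_lit 54038861917186516603371519)) (T.h (P (nat_lit 0)) (T.h (P (nat_lit 167277633456723460096)) (T.h (P (nat_lit 0)) (M (nat_lit 1438918448639))))))) (T.h (P (nat_lit 0)) (T.h (T.h (P (nat_lit 0)) (T.h (P (nat_lit 233884748929696792576)) (T.h (P (nat_lit 0)) (P (nat_lit 18532277689920))))) (T.h (P (nat_lit 0)) (T.h (T.h (P (nat_lit 0)) (M (nat_lit 858351454991))) (P (nat_lit 0))))))) (T.h (T.h (P (nat_lit 0)) (T.h (T.h (P (nat_lit 39747233035586692448256)) (T.h (P (nat_lit 0)) (M (nat_lit 85279938200862719))))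 (T.h (P (nat_lit 0)) (M (nat_lit 47492220919971839))))) (T.h (T.h (T.h (P (nat_lit 0)) (T.h (M (nat_lit 121036118815938707455)) (T.h (P (nat_lit 0)) (P (nat_lit 39743026870800))))) (T.h (P (nat_lit 0)) (T.h (T.h (P (nat_lit 0)) (M (nat_lit 95885928699887))) (P (nat_lit 0))))) (T.h (T.h (P (nat_lit 0)) (M (nat_lit 245872722671468543))) (T.h (T.h (T.h (P (nat_lit 0)) (P (nat_lit 60196247186208))) (P (nat_lit 0))) (P (nat_lit 0)))))))), (T.h (T.h (P (nat_lit 0)) (T.h (T.h (P (nat_lit 0)) (T.h (P (nat_lit 84474593176145620608483328)) (T.h (P (nat_lit 0)) (T.h (P (nat_lit 70989944265199583232)) (T.h (P (nat_lit 0)) (P (nat_lit 77442952494384))))))) (T.h (P (nat_lit 0)) (T.h (T.h (P (nat_lit 0)) (T.h (P (nat_lit 67279472290785394688)) (T.h (P (nat_lit 0)) (M (nat_lit 2395349943695))))) (T.h (P (nat_lit 0)) (T.h (T.h (P (nat_lit 0)) (P (nat_lit 31976606021472))) (P (nat_lit 0)))))))) (T.h (T.h (T.h (P (nat_lit 67185566505562312745714450432)) (T.h (P (nat_lit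 0)) (T.h (M (nat_lit 118456684448776665956351)) (T.h (P (nat_lit 0)) (P (nat_lit 108129119820283904)))))) (T.h (P (nat_lit 0)) (T.h (T.h (M (nat_lit 101452401124637860167679)) (T.h (P (nat_lit 0)) (P (nat_lit 368374066637406208)))) (T.h (P (nat_lit 0)) (M (nat_lit 75789866623516671)))))) (T.h (T.h (P (nat_lit 0)) (T.h (T.h (P (nat_lit 0)) (T.h (P (nat_lit 291820826445081477120)) (T.h (P (nat_lit 0)) (M (nat_lit 165739260395375))))) (T.h (P (nat_lit 0)) (T.h (T.h (P (nat_lit 0)) (M (nat_lit 127505483758511))) (P (nat_lit 0)))))) (T.h (T.h (T.h (P (nat_lit 26688500089316853153792)) (T.h (P (nat_lit 0)) (P (nat_lit 114024985828311040)))) (T.h (P (nat_lit 0)) (P (nat_lit 91725410818899968)))) (T.h (T.h (P (nat_lit 0)) (T.h (T.h (P (nat_lit 0)) (M (nat_lit 22262947040159))) (P (nat_lit 0)))) (P (nat_lit 30121564165390336))))))), (T.h (T.h (P (nat_lit 0)) (T.h (T.h (M (nat_lit 29465771449952636056513806335)) (T.h (P (nat_lit 0)) (T.h (M (nat_lit 35933518468873375973375))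 (T.h (P (nat_lit 0)) (M (nat_lit 116566425178505215)))))) (T.h (P (nat_lit 0)) (T.h (T.h (M (nat_lit 3651158552685087555583)) (T.h (P (nat_lit 0)) (M (nat_lit 36771961311526911)))) (T.h (P (nat_lit 0)) (P (nat_lit 82143803782594560))))))) (T.h (T.h (T.h (P (nat_lit 0)) (T.h (P (nat_lit 120814795054612235002314752)) (T.h (P (nat_lit 0)) (M (nat_lit 107041884051731382271))))) (T.h (P (nat_lit 0)) (T.h (T.h (P (nat_lit 0)) (M (nat_lit 179113940030792400895))) (P (nat_lit 0))))) (T.h (T.h (P (nat_lit 0)) (T.h (T.h (M (nat_lit 35933518468873375973375)) (T.h (P (nat_lit 0)) (P (nat_lit 206294093546192896)))) (T.h (P (nat_lit 0)) (M (nat_lit 36771961311526911))))) (T.h (T.h (T.h (P (nat_lit 0)) (M (nat_lit 107041884051731382271))) (P (nat_lit 0))) (T.h (T.h (P (nat_lit 0)) (M (nat_lit 116566425178505215))) (P (nat_lit 0))))))), (T.h (T.h (P (nat_lit 0)) (T.h (P (nat_lit 0)) (T.h (T.h (P (nat_lit 0)) (T.h (M (nat_lit 15896870552754171412479)) (T.h (P (nat_lit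 0)) (M (nat_lit 36358254186233855))))) (T.h (P (nat_lit 0)) (T.h (T.h (P (nat_lit 0)) (M (nat_lit 19866110570332159))) (P (nat_lit 0))))))) (T.h (T.h (P (nat_lit 0)) (T.h (P (nat_lit 0)) (T.h (P (nat_lit 0)) (T.h (T.h (M (nat_lit 11744109553573167103)) (T.h (P (nat_lit 0)) (M (nat_lit 41376731774279)))) (T.h (P (nat_lit 0)) (P (nat_lit 9109470898968))))))) (T.h (T.h (T.h (P (nat_lit 0)) (T.h (P (nat_lit 15896870552754171412480)) (T.h (P (nat_lit 0)) (P (nat_lit 36358254186233856))))) (P (nat_lit 0))) (T.h (T.h (P (nat_lit 0)) (T.h (T.h (P (nat_lit 11744109553573167104)) (T.h (P (nat_lit 0)) (P (nat_lit 41376731774280)))) (P (nat_lit 0)))) (T.h (T.h (T.h (P (nat_lit 0)) (P (nat_lit 19866110570332160))) (P (nat_lit 0))) (T.h (T.h (P (nat_lit 0)) (M (nat_lit 9109470898967))) (P (nat_lit 0)))))))), (T.h (T.h (T.h (P (nat_lit 116538236317700504972192617857024)) (T.h (P (nat_lit 0)) (T.h (P (nat_lit 32611548086002112509509632)) (T.h (P (nat_lit 0)) (T.h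 (P (nat_lit 44292664539358429184)) (T.h (P (nat_lit 0)) (P (nat_lit 32079931261568)))))))) (T.h (P (nat_lit 0)) (T.h (T.h (P (nat_lit 29852342430197712133554176)) (T.h (P (nat_lit 0)) (T.h (P (nat_lit 14755860110806876160)) (T.h (P (nat_lit 0)) (M (nat_lit 7076939740079)))))) (T.h (P (nat_lit 0)) (T.h (T.h (P (nat_lit 11257209192479457280)) (T.h (P (nat_lit 0)) (M (nat_lit 93345869782831)))) (T.h (P (nat_lit 0)) (M (nat_lit 61045729373567)))))))) (T.h (T.h (P (nat_lit 0)) (T.h (T.h (P (nat_lit 0)) (T.h (P (nat_lit 35871329636008551514112)) (T.h (P (nat_lit 0)) (P (nat_lit 40345172097957888))))) (T.h (P (nat_lit 0)) (T.h (T.h (P (nat_lit 0)) (P (nat_lit 95266818162229248))) (P (nat_lit 0)))))) (T.h (T.h (T.h (M (nat_lit 11610262193131898743554047)) (T.h (P (nat_lit 0)) (T.h (P (nat_lit 18121256762693648384)) (T.h (P (nat_lit 0)) (M (nat_lit 22396963694271)))))) (T.h (P (nat_lit 0)) (T.h (T.h (M (nat_lit 89283928821218672639)) (T.h (P (nat_lit 0))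 (M (nat_lit 22178401775167)))) (T.h (P (nat_lit 0)) (M (nat_lit 8128876489663)))))) (T.h (T.h (P (nat_lit 0)) (T.h (T.h (P (nat_lit 0)) (P (nat_lit 41843344361783296))) (P (nat_lit 0)))) (T.h (T.h (T.h (P (nat_lit 4059346151223066624)) (T.h (P (nat_lit 0)) (M (nat_lit 35169845347711)))) (T.h (P (nat_lit 0)) (P (nat_lit 28335036564160)))) (T.h (P (nat_lit 0)) (M (nat_lit 15472739090591)))))))), (T.h (T.h (T.h (P (nat_lit 0)) (T.h (P (nat_lit 9216352322088338412082823168)) (T.h (P (nat_lit 0)) (T.h (P (nat_lit 58211314609964760170496)) (T.h (P (nat_lit 0)) (M (nat_lit 10483760828153855))))))) (T.h (P (nat_lit 0)) (T.h (T.h (P (nat_lit 0)) (T.h (P (nat_lit 208230855102093103988736)) (T.h (P (nat_lit 0)) (P (nat_lit 378576667041759232))))) (T.h (P (nat_lit 0)) (T.h (T.h (P (nat_lit 0)) (P (nat_lit 226458018113290240))) (P (nat_lit 0))))))) (T.h (T.h (P (nat_lit 0)) (T.h (T.h (M (nat_lit 54038861917186516603371519)) (T.h (P (nat_lit 0)) (T.h (P (nat_lit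 233884748929696792576)) (T.h (P (nat_lit 0)) (M (nat_lit 858351454991)))))) (T.h (P (nat_lit 0)) (T.h (T.h (P (nat_lit 167277633456723460096)) (T.h (P (nat_lit 0)) (P (nat_lit 18532277689920)))) (T.h (P (nat_lit 0)) (M (nat_lit 1438918448639))))))) (T.h (T.h (T.h (P (nat_lit 0)) (T.h (P (nat_lit 39747233035586692448256)) (T.h (P (nat_lit 0)) (M (nat_lit 47492220919971839))))) (T.h (P (nat_lit 0)) (T.h (T.h (P (nat_lit 0)) (M (nat_lit 85279938200862719))) (P (nat_lit 0))))) (T.h (T.h (P (nat_lit 0)) (T.h (T.h (M (nat_lit 121036118815938707455)) (T.h (P (nat_lit 0)) (M (nat_lit 95885928699887)))) (T.h (P (nat_lit 0)) (P (nat_lit 39743026870800))))) (T.h (T.h (T.h (P (nat_lit 0)) (M (nat_lit 245872722671468543))) (P (nat_lit 0))) (T.h (T.h (P (nat_lit 0)) (P (nat_lit 60196247186208))) (P (nat_lit 0)))))))), (T.h (T.h (T.h (M (nat_lit 163838274676151258609171644284927)) (T.h (P (nat_lit 0)) (T.h (P (nat_lit 130859778192135703524016128)) (T.h (P (nat_lit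 0)) (T.h (P (nat_lit 48076012056079237120)) (T.h (P (nat_lit 0)) (P (nat_lit 47753976709152)))))))) (T.h (P (nat_lit 0)) (T.h (T.h (P (nat_lit 130859778192135703524016128)) (T.h (P (nat_lit 0)) (T.h (M (nat_lit 69903139300316282879)) (T.h (P (nat_lit 0)) (P (nat_lit 24553582891632)))))) (T.h (P (nat_lit 0)) (T.h (T.h (P (nat_lit 48076012056079237120)) (T.h (P (nat_lit 0)) (P (nat_lit 24553582891632)))) (T.h (P (nat_lit 0)) (P (nat_lit 47753976709152)))))))) (T.h (T.h (P (nat_lit 0)) (T.h (T.h (P (nat_lit 0)) (T.h (P (nat_lit 70933616783297129480192)) (T.h (P (nat_lit 0)) (P (nat_lit 663329057123434496))))) (T.h (P (nat_lit 0)) (T.h (T.h (P (nat_lit 0)) (P (nat_lit 663329057123434496))) (P (nat_lit 0)))))) (T.h (T.h (T.h (M (nat_lit 96594287898782982861750271)) (T.h (P (nat_lit 0)) (T.h (M (nat_lit 333779016942083899391)) (T.h (P (nat_lit 0)) (P (nat_lit 15277453196976)))))) (T.h (P (nat_lit 0)) (T.h (T.h (M (nat_lit 333779016942083899391)) (T.h (P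 (nat_lit 0)) (M (nat_lit 139261050150047)))) (T.h (P (nat_lit 0)) (P (nat_lit 15277453196976)))))) (T.h (T.h (P (nat_lit 0)) (T.h (T.h (P (nat_lit 0)) (M (nat_lit 105549849079513087))) (P (nat_lit 0)))) (T.h (T.h (T.h (P (nat_lit 11709195025958043648)) (T.h (P (nat_lit 0)) (M (nat_lit 24735861633167)))) (T.h (P (nat_lit 0)) (M (nat_lit 24735861633167)))) (T.h (P (nat_lit 0)) (M (nat_lit 31009392773855)))))))), (T.h (T.h (T.h (P (nat_lit 0)) (T.h (P (nat_lit 1067389163542256608104939520)) (T.h (P (nat_lit 0)) (T.h (P (nat_lit 9817218760697314279424)) (T.h (P (nat_lit 0)) (M (nat_lit 76460755406553087))))))) (T.h (P (nat_lit 0)) (T.h (T.h (P (nat_lit 0)) (T.h (M (nat_lit 15847429164132177281023)) (T.h (P (nat_lit 0)) (P (nat_lit 18419990244458496))))) (T.h (P (nat_lit 0)) (T.h (T.h (P (nat_lit 0)) (P (nat_lit 11879250200887296))) (P (nat_lit 0))))))) (T.h (T.h (P (nat_lit 0)) (T.h (T.h (M (nat_lit 125633492677827405925056511)) (T.h (P (nat_lit 0))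 (M (nat_lit 841263043033434161151)))) (T.h (P (nat_lit 0)) (M (nat_lit 205038297114285703167))))) (T.h (T.h (T.h (P (nat_lit 0)) (T.h (P (nat_lit 407360935313068118769664)) (T.h (P (nat_lit 0)) (P (nat_lit 6549343357075456))))) (T.h (P (nat_lit 0)) (T.h (T.h (P (nat_lit 0)) (P (nat_lit 267824939245535232))) (P (nat_lit 0))))) (T.h (T.h (P (nat_lit 0)) (M (nat_lit 119329832181008695295))) (T.h (T.h (T.h (P (nat_lit 0)) (P (nat_lit 48133197116178432))) (P (nat_lit 0))) (P (nat_lit 0)))))))]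
def lP12_30 : List (T ℤ) := [(P (nat_lit 0)), (T.h (T.h (P (nat_lit 0)) (T.h (T.h (P (nat_lit 37153007070310545670677725184)) (T.h (P (nat_lit 0)) (T.h (P (nat_lit 212984605884887045505024)) (T.h (P (nat_lit 0)) (P (nat_lit 91148603748745216)))))) (T.h (P (nat_lit 0)) (T.h (T.h (P (nat_lit 6005775303970645868544)) (T.h (P (nat_lit 0)) (M (nat_lit 40532740319903743)))) (T.h (P (nat_lit 0)) (P (nat_lit 134404403354468352))))))) (T.h (T.h (T.h (P (nat_lit 0)) (T.h (M (nat_lit 73909030253362216653815807)) (T.h (P (nat_lit 0)) (T.h (M (nat_lit 153420578048366870527)) (T.h (P (nat_lit 0)) (P (nat_lit 6554927866368))))))) (T.h (P (nat_lit 0)) (T.h (T.h (P (nat_lit 0)) (T.h (P (nat_lit 112959693955862102016)) (T.h (P (nat_lit 0)) (P (nat_lit 13001890599264))))) (T.h (P (nat_lit 0)) (T.h (T.h (P (nat_lit 0)) (M (nat_lit 95270745959327))) (P (nat_lit 0))))))) (T.h (T.h (P (nat_lit 0)) (T.h (T.h (P (nat_lit 74759382647262242930688)) (T.h (P (nat_lit 0)) (M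 (nat_lit 76115911990018047)))) (T.h (P (nat_lit 0)) (M (nat_lit 5507195204435967))))) (T.h (T.h (T.h (P (nat_lit 0)) (T.h (P (nat_lit 189293296607421267968)) (T.h (P (nat_lit 0)) (P (nat_lit 14935521193248))))) (T.h (P (nat_lit 0)) (T.h (T.h (P (nat_lit 0)) (M (nat_lit 32116743668927))) (P (nat_lit 0))))) (T.h (T.h (P (nat_lit 0)) (P (nat_lit 55262563723018240))) (T.h (T.h (T.h (P (nat_lit 0)) (M (nat_lit 6261972315983))) (P (nat_lit 0))) (P (nat_lit 0)))))))), (T.h (T.h (P (nat_lit 0)) (T.h (T.h (P (nat_lit 0)) (T.h (P (nat_lit 84474593176145620608483328)) (T.h (P (nat_lit 0)) (T.h (P (nat_lit 67279472290785394688)) (T.h (P (nat_lit 0)) (P (nat_lit 31976606021472))))))) (T.h (P (nat_lit 0)) (T.h (T.h (P (nat_lit 0)) (T.h (P (nat_lit 70989944265199583232)) (T.h (P (nat_lit 0)) (M (nat_lit 2395349943695))))) (T.h (P (nat_lit 0)) (T.h (T.h (P (nat_lit 0)) (P (nat_lit 77442952494384))) (P (nat_lit 0)))))))) (T.h (T.h (T.h (P (nat_lit 67185566505562312745714450432))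 (T.h (P (nat_lit 0)) (T.h (M (nat_lit 101452401124637860167679)) (T.h (P (nat_lit 0)) (M (nat_lit 75789866623516671)))))) (T.h (P (nat_lit 0)) (T.h (T.h (M (nat_lit 118456684448776665956351)) (T.h (P (nat_lit 0)) (P (nat_lit 368374066637406208)))) (T.h (P (nat_lit 0)) (P (nat_lit 108129119820283904)))))) (T.h (T.h (P (nat_lit 0)) (T.h (T.h (P (nat_lit 0)) (T.h (P (nat_lit 291820826445081477120)) (T.h (P (nat_lit 0)) (M (nat_lit 127505483758511))))) (T.h (P (nat_lit 0)) (T.h (T.h (P (nat_lit 0)) (M (nat_lit 165739260395375))) (P (nat_lit 0)))))) (T.h (T.h (T.h (P (nat_lit 26688500089316853153792)) (T.h (P (nat_lit 0)) (P (nat_lit 91725410818899968)))) (T.h (P (nat_lit 0)) (P (nat_lit 114024985828311040)))) (T.h (T.h (P (nat_lit 0)) (T.h (T.h (P (nat_lit 0)) (M (nat_lit 22262947040159))) (P (nat_lit 0)))) (P (nat_lit 30121564165390336))))))), (T.h (T.h (P (nat_lit 0)) (T.h (T.h (P (nat_lit 1067389163542256608104939520)) (T.h (P (nat_lit 0)) (T.h (M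 (nat_lit 15847429164132177281023)) (T.h (P (nat_lit 0)) (P (nat_lit 11879250200887296)))))) (T.h (P (nat_lit 0)) (T.h (T.h (P (nat_lit 9817218760697314279424)) (T.h (P (nat_lit 0)) (P (nat_lit 18419990244458496)))) (T.h (P (nat_lit 0)) (M (nat_lit 76460755406553087))))))) (T.h (T.h (T.h (P (nat_lit 0)) (T.h (M (nat_lit 125633492677827405925056511)) (T.h (P (nat_lit 0)) (M (nat_lit 205038297114285703167))))) (T.h (P (nat_lit 0)) (T.h (T.h (P (nat_lit 0)) (M (nat_lit 841263043033434161151))) (P (nat_lit 0))))) (T.h (T.h (P (nat_lit 0)) (T.h (T.h (P (nat_lit 407360935313068118769664)) (T.h (P (nat_lit 0)) (P (nat_lit 267824939245535232)))) (T.h (P (nat_lit 0)) (P (nat_lit 6549343357075456))))) (T.h (T.h (T.h (P (nat_lit 0)) (M (nat_lit 119329832181008695295))) (P (nat_lit 0))) (T.h (T.h (P (nat_lit 0)) (P (nat_lit 48133197116178432))) (P (nat_lit 0))))))), (T.h (T.h (T.h (P (nat_lit 0)) (T.h (P (nat_lit 1961451151794692003914055680)) (T.h (P (nat_lit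 0)) (T.h (P (nat_lit 16688330030304506937344)) (T.h (P (nat_lit 0)) (P (nat_lit 8705100237832192))))))) (T.h (P (nat_lit 0)) (T.h (T.h (P (nat_lit 0)) (T.h (M (nat_lit 41284771601533315842047)) (T.h (P (nat_lit 0)) (M (nat_lit 3654224209018879))))) (T.h (P (nat_lit 0)) (T.h (T.h (P (nat_lit 0)) (M (nat_lit 53874126268694527))) (P (nat_lit 0))))))) (T.h (T.h (P (nat_lit 0)) (T.h (T.h (M (nat_lit 42467558604649445625692159)) (T.h (P (nat_lit 0)) (M (nat_lit 70852417380727914495)))) (T.h (P (nat_lit 0)) (P (nat_lit 45331392311016292352))))) (T.h (T.h (T.h (P (nat_lit 0)) (T.h (M (nat_lit 2445957634677247311871)) (T.h (P (nat_lit 0)) (M (nat_lit 21512074690559))))) (T.h (P (nat_lit 0)) (T.h (T.h (P (nat_lit 0)) (M (nat_lit 104996943365898239))) (P (nat_lit 0))))) (T.h (T.h (P (nat_lit 0)) (P (nat_lit 85719545742742257664))) (T.h (T.h (T.h (P (nat_lit 0)) (M (nat_lit 12926663312408575))) (P (nat_lit 0))) (P (nat_lit 0))))))), (T.h (T.h (T.h (M (nat_lit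 207245689897936580250291383828479)) (T.h (P (nat_lit 0)) (T.h (M (nat_lit 88680154785333492804747263)) (T.h (P (nat_lit 0)) (T.h (M (nat_lit 144581075029341503487)) (T.h (P (nat_lit 0)) (M (nat_lit 70822787459903)))))))) (T.h (P (nat_lit 0)) (T.h (T.h (M (nat_lit 33468533096127654831063039)) (T.h (P (nat_lit 0)) (T.h (P (nat_lit 113789011323028242432)) (T.h (P (nat_lit 0)) (P (nat_lit 74071766674224)))))) (T.h (P (nat_lit 0)) (T.h (T.h (M (nat_lit 16190841554053627903)) (T.h (P (nat_lit 0)) (P (nat_lit 73651491357984)))) (T.h (P (nat_lit 0)) (P (nat_lit 75877149067776)))))))) (T.h (T.h (P (nat_lit 0)) (T.h (T.h (P (nat_lit 0)) (T.h (M (nat_lit 189858369728152055316479)) (T.h (P (nat_lit 0)) (M (nat_lit 246000128182583295))))) (T.h (P (nat_lit 0)) (T.h (T.h (P (nat_lit 0)) (M (nat_lit 47995793195532287))) (P (nat_lit 0)))))) (T.h (T.h (T.h (M (nat_lit 33468533096127654831063039)) (T.h (P (nat_lit 0)) (T.h (P (nat_lit 113789011323028242432)) (T.h (P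 (nat_lit 0)) (P (nat_lit 74071766674224)))))) (T.h (P (nat_lit 0)) (T.h (T.h (P (nat_lit 333704964478410424320)) (T.h (P (nat_lit 0)) (P (nat_lit 43934860796544)))) (T.h (P (nat_lit 0)) (P (nat_lit 43617723863328)))))) (T.h (T.h (P (nat_lit 0)) (T.h (T.h (P (nat_lit 0)) (M (nat_lit 47995793195532287))) (P (nat_lit 0)))) (T.h (T.h (T.h (M (nat_lit 16190841554053627903)) (T.h (P (nat_lit 0)) (P (nat_lit 73651491357984)))) (T.h (P (nat_lit 0)) (P (nat_lit 43617723863328)))) (T.h (P (nat_lit 0)) (P (nat_lit 75877149067776)))))))), (T.h (T.h (T.h (P (nat_lit 0)) (T.h (M (nat_lit 29465771449952636056513806335)) (T.h (P (nat_lit 0)) (T.h (M (nat_lit 3651158552685087555583)) (T.h (P (nat_lit 0)) (P (nat_lit 82143803782594560))))))) (T.h (P (nat_lit 0)) (T.h (T.h (P (nat_lit 0)) (T.h (M (nat_lit 35933518468873375973375)) (T.h (P (nat_lit 0)) (M (nat_lit 36771961311526911))))) (T.h (P (nat_lit 0)) (T.h (T.h (P (nat_lit 0)) (M (nat_lit 116566425178505215)))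 (P (nat_lit 0))))))) (T.h (T.h (P (nat_lit 0)) (T.h (T.h (P (nat_lit 120814795054612235002314752)) (T.h (P (nat_lit 0)) (M (nat_lit 179113940030792400895)))) (T.h (P (nat_lit 0)) (M (nat_lit 107041884051731382271))))) (T.h (T.h (T.h (P (nat_lit 0)) (T.h (M (nat_lit 35933518468873375973375)) (T.h (P (nat_lit 0)) (M (nat_lit 36771961311526911))))) (T.h (P (nat_lit 0)) (T.h (T.h (P (nat_lit 0)) (P (nat_lit 206294093546192896))) (P (nat_lit 0))))) (T.h (T.h (P (nat_lit 0)) (M (nat_lit 107041884051731382271))) (T.h (T.h (T.h (P (nat_lit 0)) (M (nat_lit 116566425178505215))) (P (nat_lit 0))) (P (nat_lit 0))))))), (P (nat_lit 0))]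
def lP12_31 : List (T ℤ) := [(T.h (T.h (P (nat_lit 0)) (T.h (T.h (M (nat_lit 11248579222122020348964634623)) (T.h (P (nat_lit 0)) (T.h (M (nat_lit 110268998513681254842367)) (T.h (P (nat_lit 0)) (M (nat_lit 25337783715266559)))))) (T.h (P (nat_lit 0)) (T.h (T.h (M (nat_lit 47210703150660263608319)) (T.h (P (nat_lit 0)) (M (nat_lit 83781578424385535)))) (T.h (P (nat_lit 0)) (M (nat_lit 113838962049777663))))))) (T.h (T.h (T.h (P (nat_lit 0)) (T.h (P (nat_lit 33206684731157785694175232)) (T.h (P (nat_lit 0)) (M (nat_lit 13623357689722568703))))) (T.h (P (nat_lit 0)) (T.h (T.h (P (nat_lit 0)) (P (nat_lit 352605878129642176512))) (P (nat_lit 0))))) (T.h (T.h (P (nat_lit 0)) (T.h (T.h (M (nat_lit 251163479293727797673983)) (T.h (P (nat_lit 0)) (M (nat_lit 22622444845334527)))) (T.h (P (nat_lit 0)) (M (nat_lit 15489028619730943))))) (T.h (T.h (T.h (P (nat_lit 0)) (P (nat_lit 274170867548684288))) (P (nat_lit 0))) (T.h (T.h (P (nat_lit 0)) (P (nat_lit 1355874914500608)))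 (P (nat_lit 0))))))), (P (nat_lit 0)), (P (nat_lit 0)), (P (nat_lit 0)), (T.h (T.h (T.h (P (nat_lit 0)) (T.h (P (nat_lit 0)) (T.h (P (nat_lit 4470458626252794727759872)) (T.h (P (nat_lit 0)) (T.h (M (nat_lit 13225468651219451903)) (T.h (P (nat_lit 0)) (M (nat_lit 3917118927223)))))))) (T.h (P (nat_lit 0)) (T.h (T.h (P (nat_lit 11799957120708370059231232)) (T.h (P (nat_lit 0)) (T.h (P (nat_lit 1175768384764116992)) (T.h (P (nat_lit 0)) (M (nat_lit 5420164061463)))))) (T.h (P (nat_lit 0)) (T.h (T.h (M (nat_lit 16506178402361802751)) (T.h (P (nat_lit 0)) (P (nat_lit 6143153911776)))) (T.h (P (nat_lit 0)) (P (nat_lit 687662435680)))))))) (T.h (T.h (P (nat_lit 0)) (T.h (T.h (P (nat_lit 0)) (T.h (M (nat_lit 29421065666285424082943)) (T.h (P (nat_lit 0)) (M (nat_lit 37222367485198335))))) (T.h (P (nat_lit 0)) (T.h (T.h (P (nat_lit 0)) (M (nat_lit 8542495069765631))) (P (nat_lit 0)))))) (T.h (T.h (T.h (M (nat_lit 8646979536603705119866879)) (T.h (P (nat_lit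 0)) (T.h (P (nat_lit 45484840413231579136)) (T.h (P (nat_lit 0)) (M (nat_lit 17546745548007)))))) (T.h (P (nat_lit 0)) (T.h (T.h (P (nat_lit 13579710570847797248)) (T.h (P (nat_lit 0)) (M (nat_lit 25207542297807)))) (T.h (P (nat_lit 0)) (P (nat_lit 30886702576)))))) (T.h (T.h (P (nat_lit 0)) (T.h (T.h (P (nat_lit 0)) (M (nat_lit 52297265206820863))) (P (nat_lit 0)))) (T.h (T.h (T.h (P (nat_lit 13069246296349474816)) (T.h (P (nat_lit 0)) (P (nat_lit 8330655691304)))) (T.h (P (nat_lit 0)) (M (nat_lit 28380971078575)))) (T.h (P (nat_lit 0)) (M (nat_lit 4159713623039)))))))), (P (nat_lit 0)), (T.h (T.h (T.h (P (nat_lit 0)) (T.h (P (nat_lit 0)) (T.h (M (nat_lit 29207252523382090351247359)) (T.h (P (nat_lit 0)) (P (nat_lit 43445316656885137408)))))) (T.h (P (nat_lit 0)) (T.h (T.h (P (nat_lit 0)) (T.h (P (nat_lit 0)) (P (nat_lit 68142389338975502336)))) (P (nat_lit 0))))) (T.h (T.h (P (nat_lit 0)) (T.h (T.h (P (nat_lit 0)) (T.h (P (nat_lit 0)) (T.h (P (nat_lit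 0)) (P (nat_lit 74029523113017344))))) (P (nat_lit 0)))) (T.h (T.h (P (nat_lit 29207252523382090351247360)) (T.h (P (nat_lit 0)) (M (nat_lit 68142389338975502335)))) (T.h (T.h (P (nat_lit 0)) (T.h (T.h (P (nat_lit 0)) (M (nat_lit 74029523113017343))) (P (nat_lit 0)))) (M (nat_lit 43445316656885137407)))))), (P (nat_lit 0))]
def lP12_32 : List (T ℤ) := [(P (nat_lit 0)), (P (nat_lit 0)), (T.h (T.h (P (nat_lit 0)) (T.h (T.h (P (nat_lit 0)) (T.h (P (nat_lit 10304976105015253934276608)) (T.h (P (nat_lit 0)) (T.h (P (nat_lit 47428355920060481536)) (T.h (P (nat_lit 0)) (P (nat_lit 9061293462944))))))) (T.h (P (nat_lit 0)) (T.h (T.h (P (nat_lit 0)) (T.h (P (nat_lit 47428355920060481536)) (T.h (P (nat_lit 0)) (M (nat_lit 106768270115999))))) (T.h (P (nat_lit 0)) (T.h (T.h (P (nat_lit 0)) (P (nat_lit 9061293462944))) (P (nat_lit 0)))))))) (T.h (T.h (T.h (P (nat_lit 14053573500106332338217025536)) (T.h (P (nat_lit 0)) (T.h (M (nat_lit 52331472321081205850111))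 (T.h (P (nat_lit 0)) (P (nat_lit 15107279220310016)))))) (T.h (P (nat_lit 0)) (T.h (T.h (M (nat_lit 52331472321081205850111)) (T.h (P (nat_lit 0)) (P (nat_lit 5033895183777792)))) (T.h (P (nat_lit 0)) (P (nat_lit 15107279220310016)))))) (T.h (T.h (P (nat_lit 0)) (T.h (T.h (P (nat_lit 0)) (T.h (P (nat_lit 138961341145879150592)) (T.h (P (nat_lit 0)) (M (nat_lit 46342197112623))))) (T.h (P (nat_lit 0)) (T.h (T.h (P (nat_lit 0)) (M (nat_lit 46342197112623))) (P (nat_lit 0)))))) (T.h (T.h (T.h (M (nat_lit 15452283909520538730495)) (T.h (P (nat_lit 0)) (P (nat_lit 16490124728074240)))) (T.h (P (nat_lit 0)) (P (nat_lit 16490124728074240)))) (T.h (T.h (P (nat_lit 0)) (T.h (T.h (P (nat_lit 0)) (P (nat_lit 126488117797984))) (P (nat_lit 0)))) (M (nat_lit 29446470618841087))))))), (T.h (T.h (P (nat_lit 0)) (T.h (T.h (P (nat_lit 20984392715099619162048167936)) (T.h (P (nat_lit 0)) (T.h (M (nat_lit 17505257867323948138495)) (T.h (P (nat_lit 0)) (M (nat_lit 93291811182837759))))))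 (T.h (P (nat_lit 0)) (T.h (T.h (P (nat_lit 19697029159794532941824)) (T.h (P (nat_lit 0)) (M (nat_lit 33918669731856383)))) (T.h (P (nat_lit 0)) (P (nat_lit 15994898100060160))))))) (T.h (T.h (T.h (P (nat_lit 0)) (T.h (M (nat_lit 23016326667677892480073727)) (T.h (P (nat_lit 0)) (T.h (P (nat_lit 3997095405463535616)) (T.h (P (nat_lit 0)) (P (nat_lit 40339979884256))))))) (T.h (P (nat_lit 0)) (T.h (T.h (P (nat_lit 0)) (T.h (P (nat_lit 29677769012967112704)) (T.h (P (nat_lit 0)) (P (nat_lit 1500860940832))))) (T.h (P (nat_lit 0)) (T.h (T.h (P (nat_lit 0)) (P (nat_lit 50708355223312))) (P (nat_lit 0))))))) (T.h (T.h (P (nat_lit 0)) (T.h (T.h (M (nat_lit 8223931429363535314943)) (T.h (P (nat_lit 0)) (M (nat_lit 738227850690559)))) (T.h (P (nat_lit 0)) (M (nat_lit 46708690346541055))))) (T.h (T.h (T.h (P (nat_lit 0)) (T.h (M (nat_lit 4386139381002403839)) (T.h (P (nat_lit 0)) (P (nat_lit 6020971354256))))) (T.h (P (nat_lit 0)) (T.h (T.h (P (nat_lit 0))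 (M (nat_lit 4144068559599))) (P (nat_lit 0))))) (T.h (T.h (P (nat_lit 0)) (P (nat_lit 26419758957936640))) (T.h (T.h (T.h (P (nat_lit 0)) (M (nat_lit 14450944174591))) (P (nat_lit 0))) (P (nat_lit 0)))))))), (T.h (T.h (P (nat_lit 0)) (T.h (T.h (P (nat_lit 0)) (T.h (M (nat_lit 62165661571288698187677695)) (T.h (P (nat_lit 0)) (T.h (M (nat_lit 75668960632379539455)) (T.h (P (nat_lit 0)) (P (nat_lit 16779312954192))))))) (T.h (P (nat_lit 0)) (T.h (T.h (P (nat_lit 0)) (T.h (M (nat_lit 93125651326081957887)) (T.h (P (nat_lit 0)) (P (nat_lit 106333461033312))))) (T.h (P (nat_lit 0)) (T.h (T.h (P (nat_lit 0)) (P (nat_lit 2741942744016))) (P (nat_lit 0)))))))) (T.h (T.h (T.h (M (nat_lit 4103279261838482762610245631)) (T.h (P (nat_lit 0)) (T.h (P (nat_lit 231309025578605017563136)) (T.h (P (nat_lit 0)) (M (nat_lit 74000631701471231)))))) (T.h (P (nat_lit 0)) (T.h (T.h (P (nat_lit 140193174544005107548160)) (T.h (P (nat_lit 0)) (M (nat_lit 136081663559663615))))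 (T.h (P (nat_lit 0)) (P (nat_lit 82724585858465792)))))) (T.h (T.h (P (nat_lit 0)) (T.h (T.h (P (nat_lit 0)) (T.h (M (nat_lit 379523680709860392959)) (T.h (P (nat_lit 0)) (M (nat_lit 47982439091855))))) (T.h (P (nat_lit 0)) (T.h (T.h (P (nat_lit 0)) (P (nat_lit 4724950018272))) (P (nat_lit 0)))))) (T.h (T.h (T.h (P (nat_lit 35471310680108319113216)) (T.h (P (nat_lit 0)) (P (nat_lit 92186495700664320)))) (T.h (P (nat_lit 0)) (M (nat_lit 86723749151342591)))) (T.h (T.h (P (nat_lit 0)) (T.h (T.h (P (nat_lit 0)) (P (nat_lit 20145618234144))) (P (nat_lit 0)))) (M (nat_lit 1979149568606207))))))), (T.h (T.h (P (nat_lit 0)) (T.h (T.h (M (nat_lit 72685983661459251017040265215)) (T.h (P (nat_lit 0)) (T.h (P (nat_lit 83956052722079571640320)) (T.h (P (nat_lit 0)) (P (nat_lit 53580461240139776)))))) (T.h (P (nat_lit 0)) (T.h (T.h (P (nat_lit 1559377016144609148928)) (T.h (P (nat_lit 0)) (P (nat_lit 30734799568240640)))) (T.h (P (nat_lit 0)) (M (nat_lit 28653826021441535)))))))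 (T.h (T.h (T.h (P (nat_lit 0)) (T.h (M (nat_lit 40456280365528153312985087)) (T.h (P (nat_lit 0)) (T.h (P (nat_lit 167404106989858455552)) (T.h (P (nat_lit 0)) (M (nat_lit 18638776481903))))))) (T.h (P (nat_lit 0)) (T.h (T.h (P (nat_lit 0)) (T.h (P (nat_lit 369929869536337592320)) (T.h (P (nat_lit 0)) (P (nat_lit 3848439743712))))) (T.h (P (nat_lit 0)) (T.h (T.h (P (nat_lit 0)) (M (nat_lit 36795851005967))) (P (nat_lit 0))))))) (T.h (T.h (P (nat_lit 0)) (T.h (T.h (M (nat_lit 33414274095559754121215)) (T.h (P (nat_lit 0)) (M (nat_lit 392751489005174783)))) (T.h (P (nat_lit 0)) (M (nat_lit 67341317046075391))))) (T.h (T.h (T.h (P (nat_lit 0)) (T.h (P (nat_lit 62616020965616779264)) (T.h (P (nat_lit 0)) (M (nat_lit 35467958383919))))) (T.h (P (nat_lit 0)) (T.h (T.h (P (nat_lit 0)) (P (nat_lit 73574799128352))) (P (nat_lit 0))))) (T.h (T.h (P (nat_lit 0)) (P (nat_lit 6109213496131584))) (T.h (T.h (T.h (P (nat_lit 0)) (P (nat_lit 45005981788656))) (P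 (nat_lit 0))) (P (nat_lit 0)))))))), (T.h (T.h (P (nat_lit 0)) (T.h (T.h (P (nat_lit 0)) (T.h (P (nat_lit 33206684731157785694175232)) (T.h (P (nat_lit 0)) (P (nat_lit 274170867548684288))))) (T.h (P (nat_lit 0)) (T.h (T.h (P (nat_lit 0)) (M (nat_lit 13623357689722568703))) (P (nat_lit 0)))))) (T.h (T.h (T.h (M (nat_lit 11248579222122020348964634623)) (T.h (P (nat_lit 0)) (T.h (M (nat_lit 251163479293727797673983)) (T.h (P (nat_lit 0)) (P (nat_lit 1355874914500608)))))) (T.h (P (nat_lit 0)) (T.h (T.h (M (nat_lit 110268998513681254842367)) (T.h (P (nat_lit 0)) (M (nat_lit 22622444845334527)))) (T.h (P (nat_lit 0)) (M (nat_lit 25337783715266559)))))) (T.h (T.h (P (nat_lit 0)) (T.h (T.h (P (nat_lit 0)) (P (nat_lit 352605878129642176512))) (P (nat_lit 0)))) (T.h (T.h (T.h (M (nat_lit 47210703150660263608319)) (T.h (P (nat_lit 0)) (M (nat_lit 15489028619730943)))) (T.h (P (nat_lit 0)) (M (nat_lit 83781578424385535)))) (T.h (P (nat_lit 0)) (M (nat_lit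 113838962049777663))))))), (T.h (T.h (T.h (P (nat_lit 0)) (T.h (P (nat_lit 0)) (T.h (P (nat_lit 11799957120708370059231232)) (T.h (P (nat_lit 0)) (T.h (M (nat_lit 16506178402361802751)) (T.h (P (nat_lit 0)) (P (nat_lit 687662435680)))))))) (T.h (P (nat_lit 0)) (T.h (T.h (P (nat_lit 4470458626252794727759872)) (T.h (P (nat_lit 0)) (T.h (P (nat_lit 1175768384764116992)) (T.h (P (nat_lit 0)) (P (nat_lit 6143153911776)))))) (T.h (P (nat_lit 0)) (T.h (T.h (M (nat_lit 13225468651219451903)) (T.h (P (nat_lit 0)) (M (nat_lit 5420164061463)))) (T.h (P (nat_lit 0)) (M (nat_lit 3917118927223)))))))) (T.h (T.h (P (nat_lit 0)) (T.h (T.h (P (nat_lit 0)) (T.h (M (nat_lit 29421065666285424082943)) (T.h (P (nat_lit 0)) (M (nat_lit 8542495069765631))))) (T.h (P (nat_lit 0)) (T.h (T.h (P (nat_lit 0)) (M (nat_lit 37222367485198335))) (P (nat_lit 0)))))) (T.h (T.h (T.h (M (nat_lit 8646979536603705119866879)) (T.h (P (nat_lit 0)) (T.h (P (nat_lit 13579710570847797248))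 (T.h (P (nat_lit 0)) (P (nat_lit 30886702576)))))) (T.h (P (nat_lit 0)) (T.h (T.h (P (nat_lit 45484840413231579136)) (T.h (P (nat_lit 0)) (M (nat_lit 25207542297807)))) (T.h (P (nat_lit 0)) (M (nat_lit 17546745548007)))))) (T.h (T.h (P (nat_lit 0)) (T.h (T.h (P (nat_lit 0)) (M (nat_lit 52297265206820863))) (P (nat_lit 0)))) (T.h (T.h (T.h (P (nat_lit 13069246296349474816)) (T.h (P (nat_lit 0)) (M (nat_lit 28380971078575)))) (T.h (P (nat_lit 0)) (P (nat_lit 8330655691304)))) (T.h (P (nat_lit 0)) (M (nat_lit 4159713623039))))))))]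
def lP12_33 : List (T ℤ) := [(T.h (T.h (T.h (P (nat_lit 0)) (T.h (P (nat_lit 20984392715099619162048167936)) (T.h (P (nat_lit 0)) (T.h (P (nat_lit 19697029159794532941824)) (T.h (P (nat_lit 0)) (P (nat_lit 15994898100060160))))))) (T.h (P (nat_lit 0)) (T.h (T.h (P (nat_lit 0)) (T.h (M (nat_lit 17505257867323948138495)) (T.h (P (nat_lit 0)) (M (nat_lit 33918669731856383))))) (T.h (P (nat_lit 0)) (T.h (T.h (P (nat_lit 0)) (M (nat_lit 93291811182837759))) (P (nat_lit 0))))))) (T.h (T.h (P (nat_lit 0)) (T.h (T.h (M (nat_lit 23016326667677892480073727)) (T.h (P (nat_lit 0)) (T.h (P (nat_lit 29677769012967112704)) (T.h (P (nat_lit 0)) (P (nat_lit 50708355223312)))))) (T.h (P (nat_lit 0)) (T.h (T.h (P (nat_lit 3997095405463535616)) (T.h (P (nat_lit 0)) (P (nat_lit 1500860940832)))) (T.h (P (nat_lit 0)) (P (nat_lit 40339979884256))))))) (T.h (T.h (T.h (P (nat_lit 0)) (T.h (M (nat_lit 8223931429363535314943)) (T.h (P (nat_lit 0)) (M (nat_lit 46708690346541055)))))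 (T.h (P (nat_lit 0)) (T.h (T.h (P (nat_lit 0)) (M (nat_lit 738227850690559))) (P (nat_lit 0))))) (T.h (T.h (P (nat_lit 0)) (T.h (T.h (M (nat_lit 4386139381002403839)) (T.h (P (nat_lit 0)) (M (nat_lit 4144068559599)))) (T.h (P (nat_lit 0)) (P (nat_lit 6020971354256))))) (T.h (T.h (T.h (P (nat_lit 0)) (P (nat_lit 26419758957936640))) (P (nat_lit 0))) (T.h (T.h (P (nat_lit 0)) (M (nat_lit 14450944174591))) (P (nat_lit 0)))))))), (T.h (T.h (T.h (M (nat_lit 4168691831228024538515816579071)) (T.h (P (nat_lit 0)) (T.h (M (nat_lit 20581040104725506187853823)) (T.h (P (nat_lit 0)) (T.h (P (nat_lit 5334716131976413184)) (T.h (P (nat_lit 0)) (P (nat_lit 8789193732672)))))))) (T.h (P (nat_lit 0)) (T.h (T.h (M (nat_lit 20581040104725506187853823)) (T.h (P (nat_lit 0)) (T.h (M (nat_lit 172217839794360680447)) (T.h (P (nat_lit 0)) (M (nat_lit 21055996758767)))))) (T.h (P (nat_lit 0)) (T.h (T.h (P (nat_lit 5334716131976413184)) (T.h (P (nat_lit 0)) (M (nat_lit 21055996758767))))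 (T.h (P (nat_lit 0)) (P (nat_lit 8789193732672)))))))) (T.h (T.h (P (nat_lit 0)) (T.h (T.h (P (nat_lit 0)) (T.h (P (nat_lit 541904080680451412328448)) (T.h (P (nat_lit 0)) (M (nat_lit 43772537527533567))))) (T.h (P (nat_lit 0)) (T.h (T.h (P (nat_lit 0)) (M (nat_lit 43772537527533567))) (P (nat_lit 0)))))) (T.h (T.h (T.h (M (nat_lit 31740962444818591447515135)) (T.h (P (nat_lit 0)) (T.h (M (nat_lit 217143004805688459263)) (T.h (P (nat_lit 0)) (P (nat_lit 17775325846896)))))) (T.h (P (nat_lit 0)) (T.h (T.h (M (nat_lit 217143004805688459263)) (T.h (P (nat_lit 0)) (P (nat_lit 12074435503008)))) (T.h (P (nat_lit 0)) (P (nat_lit 17775325846896)))))) (T.h (T.h (P (nat_lit 0)) (T.h (T.h (P (nat_lit 0)) (P (nat_lit 148306660745936896))) (P (nat_lit 0)))) (T.h (T.h (T.h (P (nat_lit 156268735856734371840)) (T.h (P (nat_lit 0)) (P (nat_lit 45145893431616)))) (T.h (P (nat_lit 0)) (P (nat_lit 45145893431616)))) (T.h (P (nat_lit 0)) (P (nat_lit 954741325344)))))))),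 (T.h (T.h (T.h (P (nat_lit 0)) (T.h (M (nat_lit 3204733460397538933508931583)) (T.h (P (nat_lit 0)) (T.h (M (nat_lit 69418260137388823019519)) (T.h (P (nat_lit 0)) (M (nat_lit 69814345750593535))))))) (T.h (P (nat_lit 0)) (T.h (T.h (P (nat_lit 0)) (T.h (M (nat_lit 58299763117793543716863)) (T.h (P (nat_lit 0)) (M (nat_lit 33821400822153215))))) (T.h (P (nat_lit 0)) (T.h (T.h (P (nat_lit 0)) (P (nat_lit 118297934862188544))) (P (nat_lit 0))))))) (T.h (T.h (P (nat_lit 0)) (T.h (T.h (P (nat_lit 10272478443104322537390080)) (T.h (P (nat_lit 0)) (T.h (M (nat_lit 25283953647354380287)) (T.h (P (nat_lit 0)) (M (nat_lit 139411251903167)))))) (T.h (P (nat_lit 0)) (T.h (T.h (P (nat_lit 103460306243349905408)) (T.h (P (nat_lit 0)) (M (nat_lit 215827605369791)))) (T.h (P (nat_lit 0)) (M (nat_lit 45849852608687))))))) (T.h (T.h (T.h (P (nat_lit 0)) (T.h (P (nat_lit 189533633965619006144512)) (T.h (P (nat_lit 0)) (P (nat_lit 58042506824548352))))) (T.h (P (nat_lit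 0)) (T.h (T.h (P (nat_lit 0)) (P (nat_lit 196731980638601216))) (P (nat_lit 0))))) (T.h (T.h (P (nat_lit 0)) (T.h (T.h (P (nat_lit 92046784355859693568)) (T.h (P (nat_lit 0)) (M (nat_lit 3247963595855)))) (T.h (P (nat_lit 0)) (P (nat_lit 12834186665184))))) (T.h (T.h (T.h (P (nat_lit 0)) (M (nat_lit 159947440549658623))) (P (nat_lit 0))) (T.h (T.h (P (nat_lit 0)) (P (nat_lit 32752559787552))) (P (nat_lit 0)))))))), (T.h (T.h (T.h (P (nat_lit 19245058767597118072917487255552)) (T.h (P (nat_lit 0)) (T.h (M (nat_lit 8849924118460195124805631)) (T.h (P (nat_lit 0)) (P (nat_lit 22472147538827804672)))))) (T.h (P (nat_lit 0)) (T.h (T.h (P (nat_lit 59825625941170914374713344)) (T.h (P (nat_lit 0)) (M (nat_lit 218013063006075748351)))) (T.h (P (nat_lit 0)) (P (nat_lit 12951678390250766336)))))) (T.h (T.h (P (nat_lit 0)) (T.h (T.h (P (nat_lit 0)) (T.h (M (nat_lit 171507145602860729761791)) (T.h (P (nat_lit 0)) (P (nat_lit 200573530775552000))))) (T.h (P (nat_lit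 0)) (T.h (T.h (P (nat_lit 0)) (P (nat_lit 189747104945602560))) (P (nat_lit 0)))))) (T.h (T.h (T.h (M (nat_lit 49064869503036694296788991)) (T.h (P (nat_lit 0)) (M (nat_lit 78300033919217565695)))) (T.h (P (nat_lit 0)) (M (nat_lit 45880012597962473471)))) (T.h (T.h (P (nat_lit 0)) (T.h (T.h (P (nat_lit 0)) (M (nat_lit 11742295132012543))) (P (nat_lit 0)))) (M (nat_lit 58062886536468234239)))))), (P (nat_lit 0)), (T.h (T.h (P (nat_lit 0)) (T.h (T.h (P (nat_lit 0)) (T.h (M (nat_lit 62165661571288698187677695)) (T.h (P (nat_lit 0)) (T.h (M (nat_lit 93125651326081957887)) (T.h (P (nat_lit 0)) (P (nat_lit 2741942744016))))))) (T.h (P (nat_lit 0)) (T.h (T.h (P (nat_lit 0)) (T.h (M (nat_lit 75668960632379539455)) (T.h (P (nat_lit 0)) (P (nat_lit 106333461033312))))) (T.h (P (nat_lit 0)) (T.h (T.h (P (nat_lit 0)) (P (nat_lit 16779312954192))) (P (nat_lit 0)))))))) (T.h (T.h (T.h (M (nat_lit 4103279261838482762610245631)) (T.h (P (nat_lit 0)) (T.h (P (nat_lit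 140193174544005107548160)) (T.h (P (nat_lit 0)) (P (nat_lit 82724585858465792)))))) (T.h (P (nat_lit 0)) (T.h (T.h (P (nat_lit 231309025578605017563136)) (T.h (P (nat_lit 0)) (M (nat_lit 136081663559663615)))) (T.h (P (nat_lit 0)) (M (nat_lit 74000631701471231)))))) (T.h (T.h (P (nat_lit 0)) (T.h (T.h (P (nat_lit 0)) (T.h (M (nat_lit 379523680709860392959)) (T.h (P (nat_lit 0)) (P (nat_lit 4724950018272))))) (T.h (P (nat_lit 0)) (T.h (T.h (P (nat_lit 0)) (M (nat_lit 47982439091855))) (P (nat_lit 0)))))) (T.h (T.h (T.h (P (nat_lit 35471310680108319113216)) (T.h (P (nat_lit 0)) (M (nat_lit 86723749151342591)))) (T.h (P (nat_lit 0)) (P (nat_lit 92186495700664320)))) (T.h (T.h (P (nat_lit 0)) (T.h (T.h (P (nat_lit 0)) (P (nat_lit 20145618234144))) (P (nat_lit 0)))) (M (nat_lit 1979149568606207))))))), (T.h (T.h (P (nat_lit 0)) (T.h (T.h (M (nat_lit 3204733460397538933508931583)) (T.h (P (nat_lit 0)) (T.h (M (nat_lit 58299763117793543716863)) (T.h (P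 (nat_lit 0)) (P (nat_lit 118297934862188544)))))) (T.h (P (nat_lit 0)) (T.h (T.h (M (nat_lit 69418260137388823019519)) (T.h (P (nat_lit 0)) (M (nat_lit 33821400822153215)))) (T.h (P (nat_lit 0)) (M (nat_lit 69814345750593535))))))) (T.h (T.h (T.h (P (nat_lit 0)) (T.h (P (nat_lit 10272478443104322537390080)) (T.h (P (nat_lit 0)) (T.h (P (nat_lit 103460306243349905408)) (T.h (P (nat_lit 0)) (M (nat_lit 45849852608687))))))) (T.h (P (nat_lit 0)) (T.h (T.h (P (nat_lit 0)) (T.h (M (nat_lit 25283953647354380287)) (T.h (P (nat_lit 0)) (M (nat_lit 215827605369791))))) (T.h (P (nat_lit 0)) (T.h (T.h (P (nat_lit 0)) (M (nat_lit 139411251903167))) (P (nat_lit 0))))))) (T.h (T.h (P (nat_lit 0)) (T.h (T.h (P (nat_lit 189533633965619006144512)) (T.h (P (nat_lit 0)) (P (nat_lit 196731980638601216)))) (T.h (P (nat_lit 0)) (P (nat_lit 58042506824548352))))) (T.h (T.h (T.h (P (nat_lit 0)) (T.h (P (nat_lit 92046784355859693568)) (T.h (P (nat_lit 0)) (P (nat_lit 12834186665184)))))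 (T.h (P (nat_lit 0)) (T.h (T.h (P (nat_lit 0)) (M (nat_lit 3247963595855))) (P (nat_lit 0))))) (T.h (T.h (P (nat_lit 0)) (M (nat_lit 159947440549658623))) (T.h (T.h (T.h (P (nat_lit 0)) (P (nat_lit 32752559787552))) (P (nat_lit 0))) (P (nat_lit 0)))))))), (T.h (T.h (P (nat_lit 0)) (T.h (T.h (P (nat_lit 0)) (T.h (P (nat_lit 24362427025986149431640064)) (T.h (P (nat_lit 0)) (M (nat_lit 270015642585305972735))))) (T.h (P (nat_lit 0)) (T.h (T.h (P (nat_lit 0)) (M (nat_lit 270015642585305972735))) (P (nat_lit 0)))))) (T.h (T.h (T.h (P (nat_lit 18533547533791401124823040000)) (T.h (P (nat_lit 0)) (T.h (P (nat_lit 203247636894042950729728)) (T.h (P (nat_lit 0)) (P (nat_lit 76937809590648832)))))) (T.h (P (nat_lit 0)) (T.h (T.h (P (nat_lit 203247636894042950729728)) (T.h (P (nat_lit 0)) (P (nat_lit 358055875133177856)))) (T.h (P (nat_lit 0)) (P (nat_lit 76937809590648832)))))) (T.h (T.h (P (nat_lit 0)) (T.h (T.h (P (nat_lit 0)) (M (nat_lit 99066322717822156799)))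 (P (nat_lit 0)))) (T.h (T.h (T.h (P (nat_lit 33280740286881974976512)) (T.h (P (nat_lit 0)) (P (nat_lit 14492751674703872)))) (T.h (P (nat_lit 0)) (P (nat_lit 14492751674703872)))) (T.h (P (nat_lit 0)) (P (nat_lit 27432103723925504)))))))]
def lP12_34 : List (T ℤ) := [(T.h (T.h (P (nat_lit 0)) (T.h (P (nat_lit 0)) (T.h (T.h (M (nat_lit 29207252523382090351247359)) (T.h (P (nat_lit 0)) (P (nat_lit 68142389338975502336)))) (T.h (P (nat_lit 0)) (P (nat_lit 43445316656885137408)))))) (T.h (T.h (P (nat_lit 0)) (T.h (P (nat_lit 0)) (T.h (P (nat_lit 0)) (T.h (T.h (P (nat_lit 0)) (P (nat_lit 74029523113017344))) (P (nat_lit 0)))))) (T.h (T.h (T.h (P (nat_lit 29207252523382090351247360)) (T.h (P (nat_lit 0)) (M (nat_lit 68142389338975502335)))) (P (nat_lit 0))) (T.h (T.h (P (nat_lit 0)) (T.h (T.h (P (nat_lit 0)) (M (nat_lit 74029523113017343))) (P (nat_lit 0)))) (M (nat_lit 43445316656885137407)))))), (T.h (T.h (T.h (P (nat_lit 0)) (T.h (M (nat_lit 72685983661459251017040265215))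 (T.h (P (nat_lit 0)) (T.h (P (nat_lit 1559377016144609148928)) (T.h (P (nat_lit 0)) (M (nat_lit 28653826021441535))))))) (T.h (P (nat_lit 0)) (T.h (T.h (P (nat_lit 0)) (T.h (P (nat_lit 83956052722079571640320)) (T.h (P (nat_lit 0)) (P (nat_lit 30734799568240640))))) (T.h (P (nat_lit 0)) (T.h (T.h (P (nat_lit 0)) (P (nat_lit 53580461240139776))) (P (nat_lit 0))))))) (T.h (T.h (P (nat_lit 0)) (T.h (T.h (M (nat_lit 40456280365528153312985087)) (T.h (P (nat_lit 0)) (T.h (P (nat_lit 369929869536337592320)) (T.h (P (nat_lit 0)) (M (nat_lit 36795851005967)))))) (T.h (P (nat_lit 0)) (T.h (T.h (P (nat_lit 167404106989858455552)) (T.h (P (nat_lit 0)) (P (nat_lit 3848439743712)))) (T.h (P (nat_lit 0)) (M (nat_lit 18638776481903))))))) (T.h (T.h (T.h (P (nat_lit 0)) (T.h (M (nat_lit 33414274095559754121215)) (T.h (P (nat_lit 0)) (M (nat_lit 67341317046075391))))) (T.h (P (nat_lit 0)) (T.h (T.h (P (nat_lit 0)) (M (nat_lit 392751489005174783))) (P (nat_lit 0)))))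 (T.h (T.h (P (nat_lit 0)) (T.h (T.h (P (nat_lit 62616020965616779264)) (T.h (P (nat_lit 0)) (P (nat_lit 73574799128352)))) (T.h (P (nat_lit 0)) (M (nat_lit 35467958383919))))) (T.h (T.h (T.h (P (nat_lit 0)) (P (nat_lit 6109213496131584))) (P (nat_lit 0))) (T.h (T.h (P (nat_lit 0)) (P (nat_lit 45005981788656))) (P (nat_lit 0)))))))), (T.h (T.h (T.h (P (nat_lit 19245058767597118072917487255552)) (T.h (P (nat_lit 0)) (T.h (P (nat_lit 59825625941170914374713344)) (T.h (P (nat_lit 0)) (P (nat_lit 12951678390250766336)))))) (T.h (P (nat_lit 0)) (T.h (T.h (M (nat_lit 8849924118460195124805631)) (T.h (P (nat_lit 0)) (M (nat_lit 218013063006075748351)))) (T.h (P (nat_lit 0)) (P (nat_lit 22472147538827804672)))))) (T.h (T.h (P (nat_lit 0)) (T.h (T.h (P (nat_lit 0)) (T.h (M (nat_lit 171507145602860729761791)) (T.h (P (nat_lit 0)) (P (nat_lit 189747104945602560))))) (T.h (P (nat_lit 0)) (T.h (T.h (P (nat_lit 0)) (P (nat_lit 200573530775552000))) (P (nat_lit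 0)))))) (T.h (T.h (T.h (M (nat_lit 49064869503036694296788991)) (T.h (P (nat_lit 0)) (M (nat_lit 45880012597962473471)))) (T.h (P (nat_lit 0)) (M (nat_lit 78300033919217565695)))) (T.h (T.h (P (nat_lit 0)) (T.h (T.h (P (nat_lit 0)) (M (nat_lit 11742295132012543))) (P (nat_lit 0)))) (M (nat_lit 58062886536468234239)))))), (P (nat_lit 0)), (T.h (T.h (P (nat_lit 0)) (T.h (T.h (P (nat_lit 0)) (T.h (P (nat_lit 33206684731157785694175232)) (T.h (P (nat_lit 0)) (M (nat_lit 13623357689722568703))))) (T.h (P (nat_lit 0)) (T.h (T.h (P (nat_lit 0)) (P (nat_lit 274170867548684288))) (P (nat_lit 0)))))) (T.h (T.h (T.h (M (nat_lit 11248579222122020348964634623)) (T.h (P (nat_lit 0)) (T.h (M (nat_lit 110268998513681254842367)) (T.h (P (nat_lit 0)) (M (nat_lit 25337783715266559)))))) (T.h (P (nat_lit 0)) (T.h (T.h (M (nat_lit 251163479293727797673983)) (T.h (P (nat_lit 0)) (M (nat_lit 22622444845334527)))) (T.h (P (nat_lit 0)) (P (nat_lit 1355874914500608))))))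 (T.h (T.h (P (nat_lit 0)) (T.h (T.h (P (nat_lit 0)) (P (nat_lit 352605878129642176512))) (P (nat_lit 0)))) (T.h (T.h (T.h (M (nat_lit 47210703150660263608319)) (T.h (P (nat_lit 0)) (M (nat_lit 83781578424385535)))) (T.h (P (nat_lit 0)) (M (nat_lit 15489028619730943)))) (T.h (P (nat_lit 0)) (M (nat_lit 113838962049777663))))))), (P (nat_lit 0)), (P (nat_lit 0)), (T.h (T.h (P (nat_lit 0)) (T.h (T.h (P (nat_lit 710954210904152826424852480)) (T.h (P (nat_lit 0)) (T.h (P (nat_lit 17082716061691805696000)) (T.h (P (nat_lit 0)) (M (nat_lit 5564813567361023)))))) (T.h (P (nat_lit 0)) (T.h (T.h (M (nat_lit 9420671387967214845951)) (T.h (P (nat_lit 0)) (P (nat_lit 13895150774747136)))) (T.h (P (nat_lit 0)) (P (nat_lit 1952468950286336))))))) (T.h (T.h (T.h (P (nat_lit 0)) (T.h (M (nat_lit 6274192122210616088723455)) (T.h (P (nat_lit 0)) (T.h (M (nat_lit 548043297952628735)) (T.h (P (nat_lit 0)) (P (nat_lit 2466909061456))))))) (T.h (P (nat_lit 0)) (T.h (T.h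 (P (nat_lit 0)) (T.h (P (nat_lit 25047407754376904704)) (T.h (P (nat_lit 0)) (M (nat_lit 3144249454231))))) (T.h (P (nat_lit 0)) (T.h (T.h (P (nat_lit 0)) (P (nat_lit 12835533098984))) (P (nat_lit 0))))))) (T.h (T.h (P (nat_lit 0)) (T.h (T.h (P (nat_lit 4201307133567005884416)) (T.h (P (nat_lit 0)) (M (nat_lit 31186157871955967)))) (T.h (P (nat_lit 0)) (M (nat_lit 9058048244482047))))) (T.h (T.h (T.h (P (nat_lit 0)) (T.h (P (nat_lit 3000206968196431872)) (T.h (P (nat_lit 0)) (P (nat_lit 1717778167640))))) (T.h (P (nat_lit 0)) (T.h (T.h (P (nat_lit 0)) (M (nat_lit 24882411374975))) (P (nat_lit 0))))) (T.h (T.h (P (nat_lit 0)) (M (nat_lit 16027981497696255))) (T.h (T.h (T.h (P (nat_lit 0)) (P (nat_lit 12972148589744))) (P (nat_lit 0))) (P (nat_lit 0))))))))]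
def lP12_35 : List (T ℤ) := [(P (nat_lit 0)), (T.h (T.h (P (nat_lit 0)) (T.h (T.h (M (nat_lit 1961451151794692003914055679)) (T.h (P (nat_lit 0)) (T.h (P (nat_lit 2445957634677247311872)) (T.h (P (nat_lit 0)) (P (nat_lit 12926663312408576)))))) (T.h (P (nat_lit 0)) (T.h (T.h (M (nat_lit 16688330030304506937343)) (T.h (P (nat_lit 0)) (P (nat_lit 21512074690560)))) (T.h (P (nat_lit 0)) (M (nat_lit 8705100237832191))))))) (T.h (T.h (T.h (P (nat_lit 0)) (T.h (P (nat_lit 42467558604649445625692160)) (T.h (P (nat_lit 0)) (M (nat_lit 85719545742742257663))))) (T.h (P (nat_lit 0)) (T.h (T.h (P (nat_lit 0)) (P (nat_lit 70852417380727914496))) (P (nat_lit 0))))) (T.h (T.h (P (nat_lit 0)) (T.h (T.h (P (nat_lit 41284771601533315842048)) (T.h (P (nat_lit 0)) (P (nat_lit 104996943365898240)))) (T.h (P (nat_lit 0)) (P (nat_lit 3654224209018880))))) (T.h (T.h (T.h (P (nat_lit 0)) (M (nat_lit 45331392311016292351))) (P (nat_lit 0))) (T.h (T.h (P (nat_lit 0)) (P (nat_lit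 53874126268694528))) (P (nat_lit 0))))))), (P (nat_lit 0)), (P (nat_lit 0)), (T.h (T.h (T.h (P (nat_lit 0)) (T.h (P (nat_lit 710954210904152826424852480)) (T.h (P (nat_lit 0)) (T.h (M (nat_lit 9420671387967214845951)) (T.h (P (nat_lit 0)) (P (nat_lit 1952468950286336))))))) (T.h (P (nat_lit 0)) (T.h (T.h (P (nat_lit 0)) (T.h (P (nat_lit 17082716061691805696000)) (T.h (P (nat_lit 0)) (P (nat_lit 13895150774747136))))) (T.h (P (nat_lit 0)) (T.h (T.h (P (nat_lit 0)) (M (nat_lit 5564813567361023))) (P (nat_lit 0))))))) (T.h (T.h (P (nat_lit 0)) (T.h (T.h (M (nat_lit 6274192122210616088723455)) (T.h (P (nat_lit 0)) (T.h (P (nat_lit 25047407754376904704)) (T.h (P (nat_lit 0)) (P (nat_lit 12835533098984)))))) (T.h (P (nat_lit 0)) (T.h (T.h (M (nat_lit 548043297952628735)) (T.h (P (nat_lit 0)) (M (nat_lit 3144249454231)))) (T.h (P (nat_lit 0)) (P (nat_lit 2466909061456))))))) (T.h (T.h (T.h (P (nat_lit 0)) (T.h (P (nat_lit 4201307133567005884416)) (T.h (P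 (nat_lit 0)) (M (nat_lit 9058048244482047))))) (T.h (P (nat_lit 0)) (T.h (T.h (P (nat_lit 0)) (M (nat_lit 31186157871955967))) (P (nat_lit 0))))) (T.h (T.h (P (nat_lit 0)) (T.h (T.h (P (nat_lit 3000206968196431872)) (T.h (P (nat_lit 0)) (M (nat_lit 24882411374975)))) (T.h (P (nat_lit 0)) (P (nat_lit 1717778167640))))) (T.h (T.h (T.h (P (nat_lit 0)) (M (nat_lit 16027981497696255))) (P (nat_lit 0))) (T.h (T.h (P (nat_lit 0)) (P (nat_lit 12972148589744))) (P (nat_lit 0)))))))), (T.h (T.h (T.h (P (nat_lit 105277720930526967885496854773760)) (T.h (P (nat_lit 0)) (T.h (M (nat_lit 1622784108497740811468799)) (T.h (P (nat_lit 0)) (T.h (P (nat_lit 8780194688519897088)) (T.h (P (nat_lit 0)) (P (nat_lit 56203593949792)))))))) (T.h (P (nat_lit 0)) (T.h (T.h (M (nat_lit 1622784108497740811468799)) (T.h (P (nat_lit 0)) (T.h (M (nat_lit 172485376140564758527)) (T.h (P (nat_lit 0)) (M (nat_lit 373272336818415)))))) (T.h (P (nat_lit 0)) (T.h (T.h (P (nat_lit 8780194688519897088))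 (T.h (P (nat_lit 0)) (M (nat_lit 373272336818415)))) (T.h (P (nat_lit 0)) (P (nat_lit 56203593949792)))))))) (T.h (T.h (P (nat_lit 0)) (T.h (T.h (P (nat_lit 0)) (T.h (P (nat_lit 20667592922045440065536)) (T.h (P (nat_lit 0)) (P (nat_lit 47636208037494784))))) (T.h (P (nat_lit 0)) (T.h (T.h (P (nat_lit 0)) (P (nat_lit 47636208037494784))) (P (nat_lit 0)))))) (T.h (T.h (T.h (M (nat_lit 9691530957154133055897599)) (T.h (P (nat_lit 0)) (T.h (M (nat_lit 5543786603966627839)) (T.h (P (nat_lit 0)) (M (nat_lit 104478078703183)))))) (T.h (P (nat_lit 0)) (T.h (T.h (M (nat_lit 5543786603966627839)) (T.h (P (nat_lit 0)) (P (nat_lit 5095877684832)))) (T.h (P (nat_lit 0)) (M (nat_lit 104478078703183)))))) (T.h (T.h (P (nat_lit 0)) (T.h (T.h (P (nat_lit 0)) (P (nat_lit 41585837830832128))) (P (nat_lit 0)))) (T.h (T.h (T.h (P (nat_lit 1752219728941678592)) (T.h (P (nat_lit 0)) (P (nat_lit 20467126355184)))) (T.h (P (nat_lit 0)) (P (nat_lit 20467126355184)))) (T.h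 (P (nat_lit 0)) (P (nat_lit 2914549128000)))))))), (T.h (T.h (T.h (P (nat_lit 0)) (T.h (M (nat_lit 14893574943667520458192846847)) (T.h (P (nat_lit 0)) (T.h (M (nat_lit 6542577853835188895743)) (T.h (P (nat_lit 0)) (M (nat_lit 52673506405253119))))))) (T.h (P (nat_lit 0)) (T.h (T.h (P (nat_lit 0)) (T.h (P (nat_lit 118278609105474186903552)) (T.h (P (nat_lit 0)) (P (nat_lit 472235936903856128))))) (T.h (P (nat_lit 0)) (T.h (T.h (P (nat_lit 0)) (P (nat_lit 128379978230956032))) (P (nat_lit 0))))))) (T.h (T.h (P (nat_lit 0)) (T.h (T.h (M (nat_lit 55860901572852079518547967)) (T.h (P (nat_lit 0)) (T.h (M (nat_lit 449964013879558143999)) (T.h (P (nat_lit 0)) (M (nat_lit 20837185961087)))))) (T.h (P (nat_lit 0)) (T.h (T.h (M (nat_lit 117752601434340196351)) (T.h (P (nat_lit 0)) (P (nat_lit 29719564744560)))) (T.h (P (nat_lit 0)) (M (nat_lit 11562789853775))))))) (T.h (T.h (T.h (P (nat_lit 0)) (T.h (P (nat_lit 111689488538506658578432)) (T.h (P (nat_lit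 0)) (P (nat_lit 233753997207306240))))) (T.h (P (nat_lit 0)) (T.h (T.h (P (nat_lit 0)) (P (nat_lit 78476441566609408))) (P (nat_lit 0))))) (T.h (T.h (P (nat_lit 0)) (T.h (T.h (M (nat_lit 5714239901193469951)) (T.h (P (nat_lit 0)) (M (nat_lit 8955757893743)))) (T.h (P (nat_lit 0)) (P (nat_lit 22388334389568))))) (T.h (T.h (T.h (P (nat_lit 0)) (M (nat_lit 73049312167985151))) (P (nat_lit 0))) (T.h (T.h (P (nat_lit 0)) (P (nat_lit 8815688868816))) (P (nat_lit 0)))))))), (T.h (T.h (T.h (M (nat_lit 202020782321028235702046130438143)) (T.h (P (nat_lit 0)) (T.h (M (nat_lit 35815997065927715062808575)) (T.h (P (nat_lit 0)) (T.h (M (nat_lit 2673562259325714431)) (T.h (P (nat_lit 0)) (P (nat_lit 8713460479392)))))))) (T.h (P (nat_lit 0)) (T.h (T.h (M (nat_lit 42337534151861017088360447)) (T.h (P (nat_lit 0)) (T.h (P (nat_lit 132043227812096638976)) (T.h (P (nat_lit 0)) (P (nat_lit 499241730033216)))))) (T.h (P (nat_lit 0)) (T.h (T.h (M (nat_lit 68615088356747902975))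 (T.h (P (nat_lit 0)) (P (nat_lit 352154342018448)))) (T.h (P (nat_lit 0)) (M (nat_lit 87410689135199)))))))) (T.h (T.h (P (nat_lit 0)) (T.h (T.h (P (nat_lit 0)) (T.h (P (nat_lit 9071748710483349209088)) (T.h (P (nat_lit 0)) (M (nat_lit 178490904560173055))))) (T.h (P (nat_lit 0)) (T.h (T.h (P (nat_lit 0)) (M (nat_lit 125759308696616959))) (P (nat_lit 0)))))) (T.h (T.h (T.h (P (nat_lit 23366883707900872915681280)) (T.h (P (nat_lit 0)) (T.h (P (nat_lit 15088578806786555904)) (T.h (P (nat_lit 0)) (P (nat_lit 134195146157664)))))) (T.h (P (nat_lit 0)) (T.h (T.h (P (nat_lit 34550124118083108864)) (T.h (P (nat_lit 0)) (P (nat_lit 14513604933888)))) (T.h (P (nat_lit 0)) (P (nat_lit 133240626359424)))))) (T.h (T.h (P (nat_lit 0)) (T.h (T.h (P (nat_lit 0)) (M (nat_lit 63102135297736703))) (P (nat_lit 0)))) (T.h (T.h (T.h (M (nat_lit 7131341328276783103)) (T.h (P (nat_lit 0)) (M (nat_lit 77309147628143)))) (T.h (P (nat_lit 0)) (P (nat_lit 26406644853168))))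 (T.h (P (nat_lit 0)) (P (nat_lit 14645707618464))))))))]
def lP12_36 : List (T ℤ) := [(T.h (T.h (T.h (P (nat_lit 0)) (T.h (M (nat_lit 485246316002040588049317887)) (T.h (P (nat_lit 0)) (T.h (M (nat_lit 47953310490409918529535)) (T.h (P (nat_lit 0)) (M (nat_lit 7655420903981055))))))) (T.h (P (nat_lit 0)) (T.h (T.h (P (nat_lit 0)) (T.h (M (nat_lit 156873228732256518930431)) (T.h (P (nat_lit 0)) (M (nat_lit 455296650780803071))))) (T.h (P (nat_lit 0)) (T.h (T.h (P (nat_lit 0)) (M (nat_lit 151896253560815615))) (P (nat_lit 0))))))) (T.h (T.h (P (nat_lit 0)) (T.h (T.h (P (nat_lit 28478335506665354741940224)) (T.h (P (nat_lit 0)) (P (nat_lit 379707384477398335488)))) (T.h (P (nat_lit 0)) (P (nat_lit 46219789068006326272))))) (T.h (T.h (T.h (P (nat_lit 0)) (T.h (M (nat_lit 116266967700160330596351)) (T.h (P (nat_lit 0)) (M (nat_lit 97934611223642111))))) (T.h (P (nat_lit 0)) (T.h (T.h (P (nat_lit 0)) (M (nat_lit 56832365739311103))) (P (nat_lit 0)))))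 (T.h (T.h (P (nat_lit 0)) (P (nat_lit 7399312085391245312))) (T.h (T.h (T.h (P (nat_lit 0)) (M (nat_lit 16022553870106623))) (P (nat_lit 0))) (P (nat_lit 0))))))), (P (nat_lit 0)), (T.h (T.h (P (nat_lit 0)) (T.h (T.h (M (nat_lit 14893574943667520458192846847)) (T.h (P (nat_lit 0)) (T.h (P (nat_lit 118278609105474186903552)) (T.h (P (nat_lit 0)) (P (nat_lit 128379978230956032)))))) (T.h (P (nat_lit 0)) (T.h (T.h (M (nat_lit 6542577853835188895743)) (T.h (P (nat_lit 0)) (P (nat_lit 472235936903856128)))) (T.h (P (nat_lit 0)) (M (nat_lit 52673506405253119))))))) (T.h (T.h (T.h (P (nat_lit 0)) (T.h (M (nat_lit 55860901572852079518547967)) (T.h (P (nat_lit 0)) (T.h (M (nat_lit 117752601434340196351)) (T.h (P (nat_lit 0)) (M (nat_lit 11562789853775))))))) (T.h (P (nat_lit 0)) (T.h (T.h (P (nat_lit 0)) (T.h (M (nat_lit 449964013879558143999)) (T.h (P (nat_lit 0)) (P (nat_lit 29719564744560))))) (T.h (P (nat_lit 0)) (T.h (T.h (P (nat_lit 0)) (M (nat_lit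 20837185961087))) (P (nat_lit 0))))))) (T.h (T.h (P (nat_lit 0)) (T.h (T.h (P (nat_lit 111689488538506658578432)) (T.h (P (nat_lit 0)) (P (nat_lit 78476441566609408)))) (T.h (P (nat_lit 0)) (P (nat_lit 233753997207306240))))) (T.h (T.h (T.h (P (nat_lit 0)) (T.h (M (nat_lit 5714239901193469951)) (T.h (P (nat_lit 0)) (P (nat_lit 22388334389568))))) (T.h (P (nat_lit 0)) (T.h (T.h (P (nat_lit 0)) (M (nat_lit 8955757893743))) (P (nat_lit 0))))) (T.h (T.h (P (nat_lit 0)) (M (nat_lit 73049312167985151))) (T.h (T.h (T.h (P (nat_lit 0)) (P (nat_lit 8815688868816))) (P (nat_lit 0))) (P (nat_lit 0)))))))), (T.h (T.h (P (nat_lit 0)) (T.h (T.h (P (nat_lit 0)) (T.h (P (nat_lit 26414870613408005553651712)) (T.h (P (nat_lit 0)) (T.h (P (nat_lit 17283595094275915776)) (T.h (P (nat_lit 0)) (P (nat_lit 68505149127168))))))) (T.h (P (nat_lit 0)) (T.h (T.h (P (nat_lit 0)) (T.h (P (nat_lit 17283595094275915776)) (T.h (P (nat_lit 0)) (P (nat_lit 31906044562176))))) (T.h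 (P (nat_lit 0)) (T.h (T.h (P (nat_lit 0)) (P (nat_lit 68505149127168))) (P (nat_lit 0)))))))) (T.h (T.h (T.h (M (nat_lit 15405244956953180929827799039)) (T.h (P (nat_lit 0)) (T.h (P (nat_lit 58377955448778397843456)) (T.h (P (nat_lit 0)) (P (nat_lit 25069513072984064)))))) (T.h (P (nat_lit 0)) (T.h (T.h (P (nat_lit 58377955448778397843456)) (T.h (P (nat_lit 0)) (M (nat_lit 20279104758906879)))) (T.h (P (nat_lit 0)) (P (nat_lit 25069513072984064)))))) (T.h (T.h (P (nat_lit 0)) (T.h (T.h (P (nat_lit 0)) (T.h (M (nat_lit 319395816159282462719)) (T.h (P (nat_lit 0)) (M (nat_lit 38582463213215))))) (T.h (P (nat_lit 0)) (T.h (T.h (P (nat_lit 0)) (M (nat_lit 38582463213215))) (P (nat_lit 0)))))) (T.h (T.h (T.h (P (nat_lit 34299267896437284798464)) (T.h (P (nat_lit 0)) (M (nat_lit 50331468078694399)))) (T.h (P (nat_lit 0)) (M (nat_lit 50331468078694399)))) (T.h (T.h (P (nat_lit 0)) (T.h (T.h (P (nat_lit 0)) (P (nat_lit 93337690111776))) (P (nat_lit 0))))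 (P (nat_lit 25436756187906048))))))), (T.h (T.h (P (nat_lit 0)) (T.h (T.h (M (nat_lit 1043116937690069580088606719)) (T.h (P (nat_lit 0)) (T.h (M (nat_lit 101464149854981390860287)) (T.h (P (nat_lit 0)) (M (nat_lit 273430289931173887)))))) (T.h (P (nat_lit 0)) (T.h (T.h (P (nat_lit 61764923110046956519424)) (T.h (P (nat_lit 0)) (M (nat_lit 293207130200866815)))) (T.h (P (nat_lit 0)) (P (nat_lit 114189388980387840))))))) (T.h (T.h (T.h (P (nat_lit 0)) (T.h (M (nat_lit 18488068673796538873413631)) (T.h (P (nat_lit 0)) (M (nat_lit 3412449340189310975))))) (T.h (P (nat_lit 0)) (T.h (T.h (P (nat_lit 0)) (M (nat_lit 3225623507505250303))) (P (nat_lit 0))))) (T.h (T.h (P (nat_lit 0)) (T.h (T.h (P (nat_lit 12925985027821664206848)) (T.h (P (nat_lit 0)) (P (nat_lit 21950935167303680)))) (T.h (P (nat_lit 0)) (M (nat_lit 121260396594069503))))) (T.h (T.h (T.h (P (nat_lit 0)) (P (nat_lit 13067073905649254400))) (P (nat_lit 0))) (T.h (T.h (P (nat_lit 0)) (M (nat_lit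 70522602099113983))) (P (nat_lit 0))))))), (T.h (T.h (T.h (P (nat_lit 0)) (T.h (M (nat_lit 1961451151794692003914055679)) (T.h (P (nat_lit 0)) (T.h (M (nat_lit 16688330030304506937343)) (T.h (P (nat_lit 0)) (M (nat_lit 8705100237832191))))))) (T.h (P (nat_lit 0)) (T.h (T.h (P (nat_lit 0)) (T.h (P (nat_lit 2445957634677247311872)) (T.h (P (nat_lit 0)) (P (nat_lit 21512074690560))))) (T.h (P (nat_lit 0)) (T.h (T.h (P (nat_lit 0)) (P (nat_lit 12926663312408576))) (P (nat_lit 0))))))) (T.h (T.h (P (nat_lit 0)) (T.h (T.h (P (nat_lit 42467558604649445625692160)) (T.h (P (nat_lit 0)) (P (nat_lit 70852417380727914496)))) (T.h (P (nat_lit 0)) (M (nat_lit 85719545742742257663))))) (T.h (T.h (T.h (P (nat_lit 0)) (T.h (P (nat_lit 41284771601533315842048)) (T.h (P (nat_lit 0)) (P (nat_lit 3654224209018880))))) (T.h (P (nat_lit 0)) (T.h (T.h (P (nat_lit 0)) (P (nat_lit 104996943365898240))) (P (nat_lit 0))))) (T.h (T.h (P (nat_lit 0)) (M (nat_lit 45331392311016292351)))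 (T.h (T.h (T.h (P (nat_lit 0)) (P (nat_lit 53874126268694528))) (P (nat_lit 0))) (P (nat_lit 0))))))), (T.h (T.h (T.h (M (nat_lit 202020782321028235702046130438143)) (T.h (P (nat_lit 0)) (T.h (M (nat_lit 42337534151861017088360447)) (T.h (P (nat_lit 0)) (T.h (M (nat_lit 68615088356747902975)) (T.h (P (nat_lit 0)) (M (nat_lit 87410689135199)))))))) (T.h (P (nat_lit 0)) (T.h (T.h (M (nat_lit 35815997065927715062808575)) (T.h (P (nat_lit 0)) (T.h (P (nat_lit 132043227812096638976)) (T.h (P (nat_lit 0)) (P (nat_lit 352154342018448)))))) (T.h (P (nat_lit 0)) (T.h (T.h (M (nat_lit 2673562259325714431)) (T.h (P (nat_lit 0)) (P (nat_lit 499241730033216)))) (T.h (P (nat_lit 0)) (P (nat_lit 8713460479392)))))))) (T.h (T.h (P (nat_lit 0)) (T.h (T.h (P (nat_lit 0)) (T.h (P (nat_lit 9071748710483349209088)) (T.h (P (nat_lit 0)) (M (nat_lit 125759308696616959))))) (T.h (P (nat_lit 0)) (T.h (T.h (P (nat_lit 0)) (M (nat_lit 178490904560173055))) (P (nat_lit 0))))))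 (T.h (T.h (T.h (P (nat_lit 23366883707900872915681280)) (T.h (P (nat_lit 0)) (T.h (P (nat_lit 34550124118083108864)) (T.h (P (nat_lit 0)) (P (nat_lit 133240626359424)))))) (T.h (P (nat_lit 0)) (T.h (T.h (P (nat_lit 15088578806786555904)) (T.h (P (nat_lit 0)) (P (nat_lit 14513604933888)))) (T.h (P (nat_lit 0)) (P (nat_lit 134195146157664)))))) (T.h (T.h (P (nat_lit 0)) (T.h (T.h (P (nat_lit 0)) (M (nat_lit 63102135297736703))) (P (nat_lit 0)))) (T.h (T.h (T.h (M (nat_lit 7131341328276783103)) (T.h (P (nat_lit 0)) (P (nat_lit 26406644853168)))) (T.h (P (nat_lit 0)) (M (nat_lit 77309147628143)))) (T.h (P (nat_lit 0)) (P (nat_lit 14645707618464)))))))), (T.h (T.h (T.h (P (nat_lit 0)) (T.h (M (nat_lit 1043116937690069580088606719)) (T.h (P (nat_lit 0)) (T.h (P (nat_lit 61764923110046956519424)) (T.h (P (nat_lit 0)) (P (nat_lit 114189388980387840))))))) (T.h (P (nat_lit 0)) (T.h (T.h (P (nat_lit 0)) (T.h (M (nat_lit 101464149854981390860287)) (T.h (P (nat_lit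 0)) (M (nat_lit 293207130200866815))))) (T.h (P (nat_lit 0)) (T.h (T.h (P (nat_lit 0)) (M (nat_lit 273430289931173887))) (P (nat_lit 0))))))) (T.h (T.h (P (nat_lit 0)) (T.h (T.h (M (nat_lit 18488068673796538873413631)) (T.h (P (nat_lit 0)) (M (nat_lit 3225623507505250303)))) (T.h (P (nat_lit 0)) (M (nat_lit 3412449340189310975))))) (T.h (T.h (T.h (P (nat_lit 0)) (T.h (P (nat_lit 12925985027821664206848)) (T.h (P (nat_lit 0)) (M (nat_lit 121260396594069503))))) (T.h (P (nat_lit 0)) (T.h (T.h (P (nat_lit 0)) (P (nat_lit 21950935167303680))) (P (nat_lit 0))))) (T.h (T.h (P (nat_lit 0)) (P (nat_lit 13067073905649254400))) (T.h (T.h (T.h (P (nat_lit 0)) (M (nat_lit 70522602099113983))) (P (nat_lit 0))) (P (nat_lit 0)))))))]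
def lP12_37 : List (T ℤ) := [(P (nat_lit 0)), (T.h (T.h (P (nat_lit 0)) (T.h (T.h (M (nat_lit 485246316002040588049317887)) (T.h (P (nat_lit 0)) (T.h (M (nat_lit 156873228732256518930431)) (T.h (P (nat_lit 0)) (M (nat_lit 151896253560815615)))))) (T.h (P (nat_lit 0)) (T.h (T.h (M (nat_lit 47953310490409918529535)) (T.h (P (nat_lit 0)) (M (nat_lit 455296650780803071)))) (T.h (P (nat_lit 0)) (M (nat_lit 7655420903981055))))))) (T.h (T.h (T.h (P (nat_lit 0)) (T.h (P (nat_lit 28478335506665354741940224)) (T.h (P (nat_lit 0)) (P (nat_lit 46219789068006326272))))) (T.h (P (nat_lit 0)) (T.h (T.h (P (nat_lit 0)) (P (nat_lit 379707384477398335488))) (P (nat_lit 0))))) (T.h (T.h (P (nat_lit 0)) (T.h (T.h (M (nat_lit 116266967700160330596351)) (T.h (P (nat_lit 0)) (M (nat_lit 56832365739311103)))) (T.h (P (nat_lit 0)) (M (nat_lit 97934611223642111))))) (T.h (T.h (T.h (P (nat_lit 0)) (P (nat_lit 7399312085391245312))) (P (nat_lit 0))) (T.h (T.h (P (nat_lit 0))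 (M (nat_lit 16022553870106623))) (P (nat_lit 0))))))), (P (nat_lit 0)), (T.h (T.h (T.h (P (nat_lit 0)) (T.h (P (nat_lit 0)) (T.h (M (nat_lit 1591513397136191070928895)) (T.h (P (nat_lit 0)) (T.h (P (nat_lit 5433633972192018432)) (T.h (P (nat_lit 0)) (P (nat_lit 207423927272)))))))) (T.h (P (nat_lit 0)) (T.h (T.h (M (nat_lit 1591513397136191070928895)) (T.h (P (nat_lit 0)) (T.h (P (nat_lit 878295484609855488)) (T.h (P (nat_lit 0)) (P (nat_lit 1743806021536)))))) (T.h (P (nat_lit 0)) (T.h (T.h (P (nat_lit 5433633972192018432)) (T.h (P (nat_lit 0)) (P (nat_lit 1743806021536)))) (T.h (P (nat_lit 0)) (P (nat_lit 207423927272)))))))) (T.h (T.h (P (nat_lit 0)) (T.h (T.h (P (nat_lit 0)) (T.h (P (nat_lit 4860484009838331822080)) (T.h (P (nat_lit 0)) (M (nat_lit 732223472074751))))) (T.h (P (nat_lit 0)) (T.h (T.h (P (nat_lit 0)) (M (nat_lit 732223472074751))) (P (nat_lit 0)))))) (T.h (T.h (T.h (P (nat_lit 1847437829613108580057088)) (T.h (P (nat_lit 0)) (T.h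 (M (nat_lit 6011736793303482367)) (T.h (P (nat_lit 0)) (P (nat_lit 3634953778984)))))) (T.h (P (nat_lit 0)) (T.h (T.h (M (nat_lit 6011736793303482367)) (T.h (P (nat_lit 0)) (P (nat_lit 1554604374768)))) (T.h (P (nat_lit 0)) (P (nat_lit 3634953778984)))))) (T.h (T.h (P (nat_lit 0)) (T.h (T.h (P (nat_lit 0)) (P (nat_lit 6817391644573696))) (P (nat_lit 0)))) (T.h (T.h (T.h (M (nat_lit 2811206516260995071)) (T.h (P (nat_lit 0)) (P (nat_lit 6169681091112)))) (T.h (P (nat_lit 0)) (P (nat_lit 6169681091112)))) (T.h (P (nat_lit 0)) (M (nat_lit 33450551519)))))))), (P (nat_lit 0)), (T.h (T.h (T.h (M (nat_lit 2165780065517618401437997334527)) (T.h (P (nat_lit 0)) (T.h (P (nat_lit 6991992543679142913114112)) (T.h (P (nat_lit 0)) (P (nat_lit 9099137864637087744)))))) (T.h (P (nat_lit 0)) (T.h (T.h (P (nat_lit 2082116690725692545957888)) (T.h (P (nat_lit 0)) (P (nat_lit 3431883597978533888)))) (T.h (P (nat_lit 0)) (P (nat_lit 22057285297450778624)))))) (T.h (T.h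 (P (nat_lit 0)) (T.h (T.h (P (nat_lit 0)) (T.h (M (nat_lit 48318337097879796056063)) (T.h (P (nat_lit 0)) (P (nat_lit 91461840683204608))))) (T.h (P (nat_lit 0)) (T.h (T.h (P (nat_lit 0)) (M (nat_lit 62138770787336191))) (P (nat_lit 0)))))) (T.h (T.h (T.h (M (nat_lit 2544460542919990686253055)) (T.h (P (nat_lit 0)) (M (nat_lit 50575015065614811135)))) (T.h (P (nat_lit 0)) (M (nat_lit 33560407381840494591)))) (T.h (T.h (P (nat_lit 0)) (T.h (T.h (P (nat_lit 0)) (P (nat_lit 100888534962077696))) (P (nat_lit 0)))) (P (nat_lit 5851157149417209856)))))), (P (nat_lit 0)), (P (nat_lit 0))]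
def lP12_38 : List (T ℤ) := [(P (nat_lit 0)), (T.h (T.h (P (nat_lit 0)) (T.h (T.h (P (nat_lit 0)) (T.h (M (nat_lit 26888268445053093333172223)) (T.h (P (nat_lit 0)) (T.h (M (nat_lit 10739764788268630015)) (T.h (P (nat_lit 0)) (P (nat_lit 11532992765952))))))) (T.h (P (nat_lit 0)) (T.h (T.h (P (nat_lit 0)) (T.h (M (nat_lit 10739764788268630015)) (T.h (P (nat_lit 0)) (P (nat_lit 60639230622912))))) (T.h (P (nat_lit 0)) (T.h (T.h (P (nat_lit 0)) (P (nat_lit 11532992765952))) (P (nat_lit 0)))))))) (T.h (T.h (T.h (P (nat_lit 5671756740629677463708893184)) (T.h (P (nat_lit 0)) (T.h (P (nat_lit 54590517603582439587840)) (T.h (P (nat_lit 0)) (P (nat_lit 46416516491411456)))))) (T.h (P (nat_lit 0)) (T.h (T.h (P (nat_lit 54590517603582439587840)) (T.h (P (nat_lit 0)) (P (nat_lit 34107976840642560)))) (T.h (P (nat_lit 0)) (P (nat_lit 46416516491411456)))))) (T.h (T.h (P (nat_lit 0)) (T.h (T.h (P (nat_lit 0)) (T.h (P (nat_lit 17613424447778193408)) (T.h (P (nat_lit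 0)) (M (nat_lit 32747249506607))))) (T.h (P (nat_lit 0)) (T.h (T.h (P (nat_lit 0)) (M (nat_lit 32747249506607))) (P (nat_lit 0)))))) (T.h (T.h (T.h (M (nat_lit 30378577100164479057919)) (T.h (P (nat_lit 0)) (M (nat_lit 41361448219803647)))) (T.h (P (nat_lit 0)) (M (nat_lit 41361448219803647)))) (T.h (T.h (P (nat_lit 0)) (T.h (T.h (P (nat_lit 0)) (P (nat_lit 40018750807968))) (P (nat_lit 0)))) (P (nat_lit 3128630824468480))))))), (T.h (T.h (P (nat_lit 0)) (T.h (T.h (M (nat_lit 20545763807070606543294562303)) (T.h (P (nat_lit 0)) (T.h (P (nat_lit 18225494033046599368704)) (T.h (P (nat_lit 0)) (P (nat_lit 79124825958711296)))))) (T.h (P (nat_lit 0)) (T.h (T.h (M (nat_lit 19160979863630824603647)) (T.h (P (nat_lit 0)) (P (nat_lit 54131820061376512)))) (T.h (P (nat_lit 0)) (M (nat_lit 14971273895362559))))))) (T.h (T.h (T.h (P (nat_lit 0)) (T.h (P (nat_lit 30576525179669562771111936)) (T.h (P (nat_lit 0)) (T.h (M (nat_lit 14785903864523522047)) (T.h (P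 (nat_lit 0)) (M (nat_lit 38574100311983))))))) (T.h (P (nat_lit 0)) (T.h (T.h (P (nat_lit 0)) (T.h (M (nat_lit 60109996656355704831)) (T.h (P (nat_lit 0)) (P (nat_lit 22287634534368))))) (T.h (P (nat_lit 0)) (T.h (T.h (P (nat_lit 0)) (M (nat_lit 53556555107663))) (P (nat_lit 0))))))) (T.h (T.h (P (nat_lit 0)) (T.h (T.h (P (nat_lit 12135496075166393303040)) (T.h (P (nat_lit 0)) (P (nat_lit 43606495874285568)))) (T.h (P (nat_lit 0)) (P (nat_lit 52158500142071808))))) (T.h (T.h (T.h (P (nat_lit 0)) (T.h (M (nat_lit 4299253708392235007)) (T.h (P (nat_lit 0)) (M (nat_lit 11727087712703))))) (T.h (P (nat_lit 0)) (T.h (T.h (P (nat_lit 0)) (P (nat_lit 18560116891440))) (P (nat_lit 0))))) (T.h (T.h (P (nat_lit 0)) (M (nat_lit 35881187698753535))) (T.h (T.h (T.h (P (nat_lit 0)) (P (nat_lit 8704128682512))) (P (nat_lit 0))) (P (nat_lit 0)))))))), (T.h (T.h (P (nat_lit 0)) (T.h (T.h (P (nat_lit 0)) (T.h (M (nat_lit 7968129611153399804329983)) (T.h (P (nat_lit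 0)) (M (nat_lit 28918869486353776639))))) (T.h (P (nat_lit 0)) (T.h (T.h (P (nat_lit 0)) (M (nat_lit 34246235936746635263))) (P (nat_lit 0)))))) (T.h (T.h (T.h (M (nat_lit 5287393795622230931927990271)) (T.h (P (nat_lit 0)) (T.h (M (nat_lit 37042947306702845771775)) (T.h (P (nat_lit 0)) (M (nat_lit 17184947940786175)))))) (T.h (P (nat_lit 0)) (T.h (T.h (M (nat_lit 11470395129475534684159)) (T.h (P (nat_lit 0)) (M (nat_lit 21820328043151359)))) (T.h (P (nat_lit 0)) (M (nat_lit 48452197856411647)))))) (T.h (T.h (P (nat_lit 0)) (T.h (T.h (P (nat_lit 0)) (P (nat_lit 28063542199158046720))) (P (nat_lit 0)))) (T.h (T.h (T.h (M (nat_lit 10997930159462676430847)) (T.h (P (nat_lit 0)) (P (nat_lit 78374196030734336)))) (T.h (P (nat_lit 0)) (M (nat_lit 28259372670091263)))) (T.h (P (nat_lit 0)) (M (nat_lit 21976945639718911))))))), (T.h (T.h (T.h (M (nat_lit 2165780065517618401437997334527)) (T.h (P (nat_lit 0)) (T.h (P (nat_lit 2082116690725692545957888))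 (T.h (P (nat_lit 0)) (P (nat_lit 22057285297450778624)))))) (T.h (P (nat_lit 0)) (T.h (T.h (P (nat_lit 6991992543679142913114112)) (T.h (P (nat_lit 0)) (P (nat_lit 3431883597978533888)))) (T.h (P (nat_lit 0)) (P (nat_lit 9099137864637087744)))))) (T.h (T.h (P (nat_lit 0)) (T.h (T.h (P (nat_lit 0)) (T.h (M (nat_lit 48318337097879796056063)) (T.h (P (nat_lit 0)) (M (nat_lit 62138770787336191))))) (T.h (P (nat_lit 0)) (T.h (T.h (P (nat_lit 0)) (P (nat_lit 91461840683204608))) (P (nat_lit 0)))))) (T.h (T.h (T.h (M (nat_lit 2544460542919990686253055)) (T.h (P (nat_lit 0)) (M (nat_lit 33560407381840494591)))) (T.h (P (nat_lit 0)) (M (nat_lit 50575015065614811135)))) (T.h (T.h (P (nat_lit 0)) (T.h (T.h (P (nat_lit 0)) (P (nat_lit 100888534962077696))) (P (nat_lit 0)))) (P (nat_lit 5851157149417209856)))))), (T.h (T.h (T.h (P (nat_lit 0)) (T.h (M (nat_lit 20545763807070606543294562303)) (T.h (P (nat_lit 0)) (T.h (M (nat_lit 19160979863630824603647)) (T.h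 (P (nat_lit 0)) (M (nat_lit 14971273895362559))))))) (T.h (P (nat_lit 0)) (T.h (T.h (P (nat_lit 0)) (T.h (P (nat_lit 18225494033046599368704)) (T.h (P (nat_lit 0)) (P (nat_lit 54131820061376512))))) (T.h (P (nat_lit 0)) (T.h (T.h (P (nat_lit 0)) (P (nat_lit 79124825958711296))) (P (nat_lit 0))))))) (T.h (T.h (P (nat_lit 0)) (T.h (T.h (P (nat_lit 30576525179669562771111936)) (T.h (P (nat_lit 0)) (T.h (M (nat_lit 60109996656355704831)) (T.h (P (nat_lit 0)) (M (nat_lit 53556555107663)))))) (T.h (P (nat_lit 0)) (T.h (T.h (M (nat_lit 14785903864523522047)) (T.h (P (nat_lit 0)) (P (nat_lit 22287634534368)))) (T.h (P (nat_lit 0)) (M (nat_lit 38574100311983))))))) (T.h (T.h (T.h (P (nat_lit 0)) (T.h (P (nat_lit 12135496075166393303040)) (T.h (P (nat_lit 0)) (P (nat_lit 52158500142071808))))) (T.h (P (nat_lit 0)) (T.h (T.h (P (nat_lit 0)) (P (nat_lit 43606495874285568))) (P (nat_lit 0))))) (T.h (T.h (P (nat_lit 0)) (T.h (T.h (M (nat_lit 4299253708392235007))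 (T.h (P (nat_lit 0)) (P (nat_lit 18560116891440)))) (T.h (P (nat_lit 0)) (M (nat_lit 11727087712703))))) (T.h (T.h (T.h (P (nat_lit 0)) (M (nat_lit 35881187698753535))) (P (nat_lit 0))) (T.h (T.h (P (nat_lit 0)) (P (nat_lit 8704128682512))) (P (nat_lit 0)))))))), (T.h (T.h (T.h (P (nat_lit 12287190180425606716005116018688)) (T.h (P (nat_lit 0)) (T.h (M (nat_lit 822633096902632366145535)) (T.h (P (nat_lit 0)) (M (nat_lit 6177230466576285695)))))) (T.h (P (nat_lit 0)) (T.h (T.h (M (nat_lit 822633096902632366145535)) (T.h (P (nat_lit 0)) (M (nat_lit 183649484888055218175)))) (T.h (P (nat_lit 0)) (M (nat_lit 6177230466576285695)))))) (T.h (T.h (P (nat_lit 0)) (T.h (T.h (P (nat_lit 0)) (T.h (P (nat_lit 126306685842223500623872)) (T.h (P (nat_lit 0)) (P (nat_lit 56164324190060544))))) (T.h (P (nat_lit 0)) (T.h (T.h (P (nat_lit 0)) (P (nat_lit 56164324190060544))) (P (nat_lit 0)))))) (T.h (T.h (T.h (M (nat_lit 3836605376147847800422399)) (T.h (P (nat_lit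 0)) (M (nat_lit 65115326894967881727)))) (T.h (P (nat_lit 0)) (M (nat_lit 65115326894967881727)))) (T.h (T.h (P (nat_lit 0)) (T.h (T.h (P (nat_lit 0)) (M (nat_lit 101851870552260607))) (P (nat_lit 0)))) (M (nat_lit 34747549758858985471)))))), (P (nat_lit 0))]
def lP12_39 : List (T ℤ) := [(T.h (T.h (P (nat_lit 0)) (T.h (T.h (P (nat_lit 0)) (T.h (M (nat_lit 7968129611153399804329983)) (T.h (P (nat_lit 0)) (M (nat_lit 34246235936746635263))))) (T.h (P (nat_lit 0)) (T.h (T.h (P (nat_lit 0)) (M (nat_lit 28918869486353776639))) (P (nat_lit 0)))))) (T.h (T.h (T.h (M (nat_lit 5287393795622230931927990271)) (T.h (P (nat_lit 0)) (T.h (M (nat_lit 11470395129475534684159)) (T.h (P (nat_lit 0)) (M (nat_lit 48452197856411647)))))) (T.h (P (nat_lit 0)) (T.h (T.h (M (nat_lit 37042947306702845771775)) (T.h (P (nat_lit 0)) (M (nat_lit 21820328043151359)))) (T.h (P (nat_lit 0)) (M (nat_lit 17184947940786175)))))) (T.h (T.h (P (nat_lit 0)) (T.h (T.h (P (nat_lit 0))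 (P (nat_lit 28063542199158046720))) (P (nat_lit 0)))) (T.h (T.h (T.h (M (nat_lit 10997930159462676430847)) (T.h (P (nat_lit 0)) (M (nat_lit 28259372670091263)))) (T.h (P (nat_lit 0)) (P (nat_lit 78374196030734336)))) (T.h (P (nat_lit 0)) (M (nat_lit 21976945639718911))))))), (P (nat_lit 0)), (P (nat_lit 0)), (T.h (T.h (P (nat_lit 0)) (T.h (T.h (M (nat_lit 1128989160014218046472191999)) (T.h (P (nat_lit 0)) (T.h (M (nat_lit 18293395885173516533759)) (T.h (P (nat_lit 0)) (P (nat_lit 1749237737390080)))))) (T.h (P (nat_lit 0)) (T.h (T.h (P (nat_lit 7470554262444017975296)) (T.h (P (nat_lit 0)) (M (nat_lit 28585714715820031)))) (T.h (P (nat_lit 0)) (M (nat_lit 2378303520079871))))))) (T.h (T.h (T.h (P (nat_lit 0)) (T.h (M (nat_lit 1777978301401615713697791)) (T.h (P (nat_lit 0)) (P (nat_lit 3113015239185006592))))) (T.h (P (nat_lit 0)) (T.h (T.h (P (nat_lit 0)) (P (nat_lit 14255254093198000128))) (P (nat_lit 0))))) (T.h (T.h (P (nat_lit 0)) (T.h (T.h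 (P (nat_lit 376144294005367111680)) (T.h (P (nat_lit 0)) (P (nat_lit 21605645460406272)))) (T.h (P (nat_lit 0)) (M (nat_lit 2766713556762623))))) (T.h (T.h (T.h (P (nat_lit 0)) (P (nat_lit 8784498254944403456))) (P (nat_lit 0))) (T.h (T.h (P (nat_lit 0)) (M (nat_lit 2587655356350463))) (P (nat_lit 0))))))), (P (nat_lit 0)), (P (nat_lit 0)), (T.h (T.h (T.h (P (nat_lit 0)) (T.h (M (nat_lit 1128989160014218046472191999)) (T.h (P (nat_lit 0)) (T.h (P (nat_lit 7470554262444017975296)) (T.h (P (nat_lit 0)) (M (nat_lit 2378303520079871))))))) (T.h (P (nat_lit 0)) (T.h (T.h (P (nat_lit 0)) (T.h (M (nat_lit 18293395885173516533759)) (T.h (P (nat_lit 0)) (M (nat_lit 28585714715820031))))) (T.h (P (nat_lit 0)) (T.h (T.h (P (nat_lit 0)) (P (nat_lit 1749237737390080))) (P (nat_lit 0))))))) (T.h (T.h (P (nat_lit 0)) (T.h (T.h (M (nat_lit 1777978301401615713697791)) (T.h (P (nat_lit 0)) (P (nat_lit 14255254093198000128)))) (T.h (P (nat_lit 0)) (P (nat_lit 3113015239185006592)))))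 (T.h (T.h (T.h (P (nat_lit 0)) (T.h (P (nat_lit 376144294005367111680)) (T.h (P (nat_lit 0)) (M (nat_lit 2766713556762623))))) (T.h (P (nat_lit 0)) (T.h (T.h (P (nat_lit 0)) (P (nat_lit 21605645460406272))) (P (nat_lit 0))))) (T.h (T.h (P (nat_lit 0)) (P (nat_lit 8784498254944403456))) (T.h (T.h (T.h (P (nat_lit 0)) (M (nat_lit 2587655356350463))) (P (nat_lit 0))) (P (nat_lit 0))))))), (T.h (T.h (T.h (M (nat_lit 99909648655724536380581048483839)) (T.h (P (nat_lit 0)) (T.h (P (nat_lit 1537303026863677219274752)) (T.h (P (nat_lit 0)) (T.h (M (nat_lit 7478722740816445439)) (T.h (P (nat_lit 0)) (M (nat_lit 56803544022671)))))))) (T.h (P (nat_lit 0)) (T.h (T.h (P (nat_lit 1537303026863677219274752)) (T.h (P (nat_lit 0)) (T.h (P (nat_lit 170199004916551254016)) (T.h (P (nat_lit 0)) (P (nat_lit 372699232900704)))))) (T.h (P (nat_lit 0)) (T.h (T.h (M (nat_lit 7478722740816445439)) (T.h (P (nat_lit 0)) (P (nat_lit 372699232900704)))) (T.h (P (nat_lit 0))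 (M (nat_lit 56803544022671)))))))) (T.h (T.h (P (nat_lit 0)) (T.h (T.h (P (nat_lit 0)) (T.h (M (nat_lit 24792577964494502756351)) (T.h (P (nat_lit 0)) (M (nat_lit 41970387647889407))))) (T.h (P (nat_lit 0)) (T.h (T.h (P (nat_lit 0)) (M (nat_lit 41970387647889407))) (P (nat_lit 0)))))) (T.h (T.h (T.h (P (nat_lit 10438904556057964207669248)) (T.h (P (nat_lit 0)) (T.h (P (nat_lit 3858024237247758336)) (T.h (P (nat_lit 0)) (P (nat_lit 101867935691088)))))) (T.h (P (nat_lit 0)) (T.h (T.h (P (nat_lit 3858024237247758336)) (T.h (P (nat_lit 0)) (P (nat_lit 911442555360)))) (T.h (P (nat_lit 0)) (P (nat_lit 101867935691088)))))) (T.h (T.h (P (nat_lit 0)) (T.h (T.h (P (nat_lit 0)) (M (nat_lit 38777993416015871))) (P (nat_lit 0)))) (T.h (T.h (T.h (M (nat_lit 3079660293249302527)) (T.h (P (nat_lit 0)) (M (nat_lit 20140321589711)))) (T.h (P (nat_lit 0)) (M (nat_lit 20140321589711)))) (T.h (P (nat_lit 0)) (M (nat_lit 1776113164223))))))))]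
def lP12_40 : List (T ℤ) := [(T.h (T.h (T.h (P (nat_lit 0)) (T.h (P (nat_lit 2431989740396183413638299648)) (T.h (P (nat_lit 0)) (T.h (P (nat_lit 13155666161854431887360)) (T.h (P (nat_lit 0)) (P (nat_lit 86333522932170752))))))) (T.h (P (nat_lit 0)) (T.h (T.h (P (nat_lit 0)) (T.h (M (nat_lit 67764700985457142398975)) (T.h (P (nat_lit 0)) (M (nat_lit 344310799049883647))))) (T.h (P (nat_lit 0)) (T.h (T.h (P (nat_lit 0)) (M (nat_lit 157432470344531967))) (P (nat_lit 0))))))) (T.h (T.h (P (nat_lit 0)) (T.h (T.h (P (nat_lit 2731529024111075150266368)) (T.h (P (nat_lit 0)) (P (nat_lit 43502318328160976896)))) (T.h (P (nat_lit 0)) (M (nat_lit 14446821862908362751))))) (T.h (T.h (T.h (P (nat_lit 0)) (T.h (M (nat_lit 2389731705158014861311)) (T.h (P (nat_lit 0)) (M (nat_lit 84716766919393279))))) (T.h (P (nat_lit 0)) (T.h (T.h (P (nat_lit 0)) (M (nat_lit 13085180765306879))) (P (nat_lit 0))))) (T.h (T.h (P (nat_lit 0)) (P (nat_lit 2922520119437426688)))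 (T.h (T.h (T.h (P (nat_lit 0)) (M (nat_lit 737280053051391))) (P (nat_lit 0))) (P (nat_lit 0))))))), (P (nat_lit 0)), (T.h (T.h (P (nat_lit 0)) (T.h (T.h (P (nat_lit 2431989740396183413638299648)) (T.h (P (nat_lit 0)) (T.h (M (nat_lit 67764700985457142398975)) (T.h (P (nat_lit 0)) (M (nat_lit 157432470344531967)))))) (T.h (P (nat_lit 0)) (T.h (T.h (P (nat_lit 13155666161854431887360)) (T.h (P (nat_lit 0)) (M (nat_lit 344310799049883647)))) (T.h (P (nat_lit 0)) (P (nat_lit 86333522932170752))))))) (T.h (T.h (T.h (P (nat_lit 0)) (T.h (P (nat_lit 2731529024111075150266368)) (T.h (P (nat_lit 0)) (M (nat_lit 14446821862908362751))))) (T.h (P (nat_lit 0)) (T.h (T.h (P (nat_lit 0)) (P (nat_lit 43502318328160976896))) (P (nat_lit 0))))) (T.h (T.h (P (nat_lit 0)) (T.h (T.h (M (nat_lit 2389731705158014861311)) (T.h (P (nat_lit 0)) (M (nat_lit 13085180765306879)))) (T.h (P (nat_lit 0)) (M (nat_lit 84716766919393279))))) (T.h (T.h (T.h (P (nat_lit 0)) (P (nat_lit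 2922520119437426688))) (P (nat_lit 0))) (T.h (T.h (P (nat_lit 0)) (M (nat_lit 737280053051391))) (P (nat_lit 0))))))), (P (nat_lit 0)), (T.h (T.h (T.h (M (nat_lit 956537394001454605016563187711)) (T.h (P (nat_lit 0)) (T.h (P (nat_lit 1666370363400297910370304)) (T.h (P (nat_lit 0)) (M (nat_lit 6279527691615993855)))))) (T.h (P (nat_lit 0)) (T.h (T.h (P (nat_lit 1666370363400297910370304)) (T.h (P (nat_lit 0)) (P (nat_lit 1570151647621939200)))) (T.h (P (nat_lit 0)) (M (nat_lit 6279527691615993855)))))) (T.h (T.h (P (nat_lit 0)) (T.h (T.h (P (nat_lit 0)) (T.h (M (nat_lit 512003772086032007167)) (T.h (P (nat_lit 0)) (M (nat_lit 7317009590779903))))) (T.h (P (nat_lit 0)) (T.h (T.h (P (nat_lit 0)) (M (nat_lit 7317009590779903))) (P (nat_lit 0)))))) (T.h (T.h (T.h (M (nat_lit 2599679799447928914837503)) (T.h (P (nat_lit 0)) (P (nat_lit 5480924979304333312)))) (T.h (P (nat_lit 0)) (P (nat_lit 5480924979304333312)))) (T.h (T.h (P (nat_lit 0)) (T.h (T.h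 (P (nat_lit 0)) (M (nat_lit 7872225239891967))) (P (nat_lit 0)))) (P (nat_lit 3056361256114978816)))))), (P (nat_lit 0)), (P (nat_lit 0)), (P (nat_lit 0))]
def lP12_41 : List (T ℤ) := [(T.h (T.h (P (nat_lit 0)) (T.h (T.h (P (nat_lit 0)) (T.h (P (nat_lit 5308504745692747890950144)) (T.h (P (nat_lit 0)) (P (nat_lit 14637703011229499392))))) (T.h (P (nat_lit 0)) (T.h (T.h (P (nat_lit 0)) (P (nat_lit 14637703011229499392))) (P (nat_lit 0)))))) (T.h (T.h (T.h (M (nat_lit 5327367447308101761250623487)) (T.h (P (nat_lit 0)) (T.h (M (nat_lit 10353613219124626849791)) (T.h (P (nat_lit 0)) (M (nat_lit 46361229398966271)))))) (T.h (P (nat_lit 0)) (T.h (T.h (M (nat_lit 10353613219124626849791)) (T.h (P (nat_lit 0)) (M (nat_lit 414807634083839)))) (T.h (P (nat_lit 0)) (M (nat_lit 46361229398966271)))))) (T.h (T.h (P (nat_lit 0)) (T.h (T.h (P (nat_lit 0)) (M (nat_lit 10827735736636145663))) (P (nat_lit 0)))) (T.h (T.h (T.h (P (nat_lit 11388161166645179449344))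 (T.h (P (nat_lit 0)) (P (nat_lit 18332168273657856)))) (T.h (P (nat_lit 0)) (P (nat_lit 18332168273657856)))) (T.h (P (nat_lit 0)) (P (nat_lit 2424986506887168))))))), (P (nat_lit 0)), (P (nat_lit 0)), (P (nat_lit 0)), (P (nat_lit 0)), (P (nat_lit 0))]

def CP12 : List (T ℤ) := lP12_0 ++ (lP12_1 ++ (lP12_2 ++ (lP12_3 ++ (lP12_4 ++ (lP12_5 ++ (lP12_6 ++ (lP12_7 ++ (lP12_8 ++ (lP12_9 ++ (lP12_10 ++ (lP12_11 ++ (lP12_12 ++ (lP12_13 ++ (lP12_14 ++ (lP12_15 ++ (lP12_16 ++ (lP12_17 ++ (lP12_18 ++ (lP12_19 ++ (lP12_20 ++ (lP12_21 ++ (lP12_22 ++ (lP12_23 ++ (lP12_24 ++ (lP12_25 ++ (lP12_26 ++ (lP12_27 ++ (lP12_28 ++ (lP12_29 ++ (lP12_30 ++ (lP12_31 ++ (lP12_32 ++ (lP12_33 ++ (lP12_34 ++ (lP12_35 ++ (lP12_36 ++ (lP12_37 ++ (lP12_38 ++ (lP12_39 ++ (lP12_40 ++ (lP12_41)))))))))))))))))))))))))))))))))))))))))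

/-- norms at radius 1536 -/
def NP12 : List ℕ := [(nat_lit 0), (nat_lit 0), (nat_lit 0), (nat_lit 0), (nat_lit 0), (nat_lit 0), (nat_lit 0), (nat_lit 0), (nat_lit 0), (nat_lit 4410501400340933843783516160000), (nat_lit 0), (nat_lit 0), (nat_lit 3756223005252276718210835665649664), (nat_lit 17177189557392064103058850197798912), (nat_lit 3620232047391109209893500820127744), (nat_lit 16882310440714948756570631321944064), (nat_lit 1490753395256961924432558808891392), (nat_lit 0), (nat_lit 0), (nat_lit 0), (nat_lit 2969041804505740692621462519939072), (nat_lit 3857606081888531261021123474620416), (nat_lit 9052407288532190030492060847439872), (nat_lit 5131500821166008947278716162015232), (nat_lit 6521345579313661719493692610314240), (nat_lit 0), (nat_lit 0), (nat_lit 3628007854245007948250249491906560), (nat_lit 7221372459522447028710201656082432), (nat_lit 8004105252429922702813890185527296), (nat_lit 22763389126611327784254947941416960), (nat_lit 2597724830614576168184769140490240),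 (nat_lit 0), (nat_lit 0), (nat_lit 3628007854245007948250249491906560), (nat_lit 9692352166873114829935389267984384), (nat_lit 12604708284404203975392225593917440), (nat_lit 11730946799148526506464012641763328), (nat_lit 10360602026175524279714487969251328), (nat_lit 0), (nat_lit 0), (nat_lit 2969041804505740692621462519939072), (nat_lit 7221372459522447028710201656082432), (nat_lit 12604708284404203975392225593917440), (nat_lit 16821195587341387545236495849750528), (nat_lit 5860242875994006585834733433782272), (nat_lit 0), (nat_lit 3756223005252276718210835665649664), (nat_lit 3857606081888531261021123474620416), (nat_lit 8004105252429922702813890185527296), (nat_lit 11730946799148526506464012641763328), (nat_lit 5860242875994006585834733433782272), (nat_lit 0), (nat_lit 17177189557392064103058850197798912), (nat_lit 9052407288532190030492060847439872), (nat_lit 22763389126611327784254947941416960), (nat_lit 10360602026175524279714487969251328),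 (nat_lit 0), (nat_lit 3620232047391109209893500820127744), (nat_lit 5131500821166008947278716162015232), (nat_lit 2597724830614576168184769140490240), (nat_lit 0), (nat_lit 16882310440714948756570631321944064), (nat_lit 6521345579313661719493692610314240), (nat_lit 0), (nat_lit 1490753395256961924432558808891392), (nat_lit 0), (nat_lit 0), (nat_lit 0), (nat_lit 577866090778697914898097924734976), (nat_lit 0), (nat_lit 365908600036405158798063808020480), (nat_lit 0), (nat_lit 0), (nat_lit 0), (nat_lit 0), (nat_lit 3686613022364021300515021384581120), (nat_lit 3857606081888531261021123474620416), (nat_lit 9622148179476703856102697905160192), (nat_lit 5131500821166008947278716162015232), (nat_lit 6521345579313661719493692610314240), (nat_lit 0), (nat_lit 0), (nat_lit 4480793022290770629731016222179328), (nat_lit 4369637692958130344958145962442752), (nat_lit 6244600663489201799228742782943232), (nat_lit 8741251812767513401666278550142976), (nat_lit 4323468627024796083222887440318464),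 (nat_lit 0), (nat_lit 0), (nat_lit 8210033345585630114721015804198912), (nat_lit 5300554311406679640570519242145792), (nat_lit 9503953985989181256408189106126848), (nat_lit 13759721456759856474476424443461632), (nat_lit 8441587529125923319536890406764544), (nat_lit 0), (nat_lit 0), (nat_lit 4480793022290770629731016222179328), (nat_lit 5300554311406679640570519242145792), (nat_lit 8868937325311871450140285786390528), (nat_lit 15940606710849970641926901781757952), (nat_lit 6781224102923839309586131817857024), (nat_lit 0), (nat_lit 3686613022364021300515021384581120), (nat_lit 4369637692958130344958145962442752), (nat_lit 9503953985989181256408189106126848), (nat_lit 15940606710849970641926901781757952), (nat_lit 7880726512684543243002803656851456), (nat_lit 577866090778697914898097924734976), (nat_lit 3857606081888531261021123474620416), (nat_lit 6244600663489201799228742782943232), (nat_lit 13759721456759856474476424443461632), (nat_lit 6781224102923839309586131817857024),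 (nat_lit 0), (nat_lit 9622148179476703856102697905160192), (nat_lit 8741251812767513401666278550142976), (nat_lit 8441587529125923319536890406764544), (nat_lit 365908600036405158798063808020480), (nat_lit 5131500821166008947278716162015232), (nat_lit 4323468627024796083222887440318464), (nat_lit 0), (nat_lit 6521345579313661719493692610314240), (nat_lit 0), (nat_lit 0), (nat_lit 0), (nat_lit 0), (nat_lit 1712459026028098584695764760395776), (nat_lit 0), (nat_lit 756425670641359158711000087134208), (nat_lit 0), (nat_lit 0), (nat_lit 0), (nat_lit 0), (nat_lit 7334060127956580824023486055841792), (nat_lit 7221372459522447028710201656082432), (nat_lit 5065479683075493060340577652965376), (nat_lit 22763389126611327784254947941416960), (nat_lit 2597724830614576168184769140490240), (nat_lit 0), (nat_lit 0), (nat_lit 7968748454497978979653985111113728), (nat_lit 5300554311406679640570519242145792), (nat_lit 11205070501934204320561745809637376), (nat_lit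 13759721456759856474476424443461632), (nat_lit 8441587529125923319536890406764544), (nat_lit 0), (nat_lit 0), (nat_lit 7968748454497978979653985111113728), (nat_lit 2637424264726756099983457621377024), (nat_lit 24150616000635869619600751683698688), (nat_lit 23402838713520520102061292535152640), (nat_lit 10096307846533176631012970748444672), (nat_lit 0), (nat_lit 7334060127956580824023486055841792), (nat_lit 5300554311406679640570519242145792), (nat_lit 24150616000635869619600751683698688), (nat_lit 28364428446217483777808080853532672), (nat_lit 12025657078116817927497359504179200), (nat_lit 1712459026028098584695764760395776), (nat_lit 7221372459522447028710201656082432), (nat_lit 11205070501934204320561745809637376), (nat_lit 23402838713520520102061292535152640), (nat_lit 12025657078116817927497359504179200), (nat_lit 0), (nat_lit 5065479683075493060340577652965376), (nat_lit 13759721456759856474476424443461632), (nat_lit 10096307846533176631012970748444672),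 (nat_lit 756425670641359158711000087134208), (nat_lit 22763389126611327784254947941416960), (nat_lit 8441587529125923319536890406764544), (nat_lit 0), (nat_lit 2597724830614576168184769140490240), (nat_lit 0), (nat_lit 0), (nat_lit 0), (nat_lit 2888320094732976931976035166060544), (nat_lit 0), (nat_lit 3073927536584880639005428834893824), (nat_lit 0), (nat_lit 0), (nat_lit 0), (nat_lit 0), (nat_lit 5225641967715455256105792005210112), (nat_lit 9692352166873114829935389267984384), (nat_lit 10767945272378693189530481200201728), (nat_lit 11730946799148526506464012641763328), (nat_lit 10360602026175524279714487969251328), (nat_lit 0), (nat_lit 0), (nat_lit 8129243546205400392050504582037504), (nat_lit 5300554311406679640570519242145792), (nat_lit 14096417774999210817497247189565440), (nat_lit 15940606710849970641926901781757952), (nat_lit 6781224102923839309586131817857024), (nat_lit 0), (nat_lit 5225641967715455256105792005210112), (nat_lit 5300554311406679640570519242145792),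 (nat_lit 18775566171291868153384831945801728), (nat_lit 28364428446217483777808080853532672), (nat_lit 12025657078116817927497359504179200), (nat_lit 2888320094732976931976035166060544), (nat_lit 9692352166873114829935389267984384), (nat_lit 14096417774999210817497247189565440), (nat_lit 28364428446217483777808080853532672), (nat_lit 22044641369475036311784609942601728), (nat_lit 0), (nat_lit 10767945272378693189530481200201728), (nat_lit 15940606710849970641926901781757952), (nat_lit 12025657078116817927497359504179200), (nat_lit 3073927536584880639005428834893824), (nat_lit 11730946799148526506464012641763328), (nat_lit 6781224102923839309586131817857024), (nat_lit 0), (nat_lit 10360602026175524279714487969251328), (nat_lit 0), (nat_lit 0), (nat_lit 0), (nat_lit 2533392788643023321697704975794176), (nat_lit 0), (nat_lit 3020698175788849915582247382024192), (nat_lit 0), (nat_lit 0), (nat_lit 0), (nat_lit 0), (nat_lit 5345858228304690179437167737044992),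 (nat_lit 7221372459522447028710201656082432), (nat_lit 9485807012720629674854722629009408), (nat_lit 16821195587341387545236495849750528), (nat_lit 5860242875994006585834733433782272), (nat_lit 0), (nat_lit 5345858228304690179437167737044992), (nat_lit 4369637692958130344958145962442752), (nat_lit 15503062834276018394439118177173504), (nat_lit 15940606710849970641926901781757952), (nat_lit 7880726512684543243002803656851456), (nat_lit 2533392788643023321697704975794176), (nat_lit 7221372459522447028710201656082432), (nat_lit 15503062834276018394439118177173504), (nat_lit 23402838713520520102061292535152640), (nat_lit 12025657078116817927497359504179200), (nat_lit 0), (nat_lit 9485807012720629674854722629009408), (nat_lit 15940606710849970641926901781757952), (nat_lit 12025657078116817927497359504179200), (nat_lit 3020698175788849915582247382024192), (nat_lit 16821195587341387545236495849750528), (nat_lit 7880726512684543243002803656851456), (nat_lit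 0), (nat_lit 5860242875994006585834733433782272), (nat_lit 0), (nat_lit 0), (nat_lit 0), (nat_lit 2888320094732976931976035166060544), (nat_lit 0), (nat_lit 2645948999593062084863619357474816), (nat_lit 0), (nat_lit 0), (nat_lit 0), (nat_lit 7136192416146487912616469379153920), (nat_lit 3857606081888531261021123474620416), (nat_lit 11339422347125230610483874707275776), (nat_lit 11730946799148526506464012641763328), (nat_lit 5860242875994006585834733433782272), (nat_lit 2888320094732976931976035166060544), (nat_lit 3857606081888531261021123474620416), (nat_lit 11069256635410323013392625634902016), (nat_lit 13759721456759856474476424443461632), (nat_lit 6781224102923839309586131817857024), (nat_lit 0), (nat_lit 11339422347125230610483874707275776), (nat_lit 13759721456759856474476424443461632), (nat_lit 10096307846533176631012970748444672), (nat_lit 2645948999593062084863619357474816), (nat_lit 11730946799148526506464012641763328), (nat_lit 6781224102923839309586131817857024),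 (nat_lit 0), (nat_lit 5860242875994006585834733433782272), (nat_lit 0), (nat_lit 0), (nat_lit 1712459026028098584695764760395776), (nat_lit 0), (nat_lit 3020698175788849915582247382024192), (nat_lit 0), (nat_lit 0), (nat_lit 1712459026028098584695764760395776), (nat_lit 17177189557392064103058850197798912), (nat_lit 14426374312578605777402803456573440), (nat_lit 22763389126611327784254947941416960), (nat_lit 10360602026175524279714487969251328), (nat_lit 0), (nat_lit 14426374312578605777402803456573440), (nat_lit 8741251812767513401666278550142976), (nat_lit 8441587529125923319536890406764544), (nat_lit 3020698175788849915582247382024192), (nat_lit 22763389126611327784254947941416960), (nat_lit 8441587529125923319536890406764544), (nat_lit 0), (nat_lit 10360602026175524279714487969251328), (nat_lit 0), (nat_lit 577866090778697914898097924734976), (nat_lit 0), (nat_lit 3073927536584880639005428834893824), (nat_lit 0), (nat_lit 0), (nat_lit 0), (nat_lit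 5099743530475378123161869500809216), (nat_lit 5131500821166008947278716162015232), (nat_lit 2597724830614576168184769140490240), (nat_lit 3073927536584880639005428834893824), (nat_lit 5131500821166008947278716162015232), (nat_lit 4323468627024796083222887440318464), (nat_lit 0), (nat_lit 2597724830614576168184769140490240), (nat_lit 0), (nat_lit 0), (nat_lit 756425670641359158711000087134208), (nat_lit 0), (nat_lit 0), (nat_lit 756425670641359158711000087134208), (nat_lit 16882310440714948756570631321944064), (nat_lit 6521345579313661719493692610314240), (nat_lit 0), (nat_lit 6521345579313661719493692610314240), (nat_lit 0), (nat_lit 365908600036405158798063808020480), (nat_lit 0), (nat_lit 0), (nat_lit 0), (nat_lit 1490753395256961924432558808891392), (nat_lit 0), (nat_lit 0), (nat_lit 0), (nat_lit 0), (nat_lit 0)]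


def lP22_0 : List (T ℤ) := [(P (nat_lit 0)), (M (nat_lit 4410501400340933843783516159999)), (P (nat_lit 0)), (P (nat_lit 0)), (T.h (T.h (T.h (P (nat_lit 0)) (T.h (P (nat_lit 7100087156579572138729537536)) (T.h (P (nat_lit 0)) (T.h (M (nat_lit 1237047663726686109695)) (T.h (P (nat_lit 0)) (P (nat_lit 5526414397538304))))))) (T.h (P (nat_lit 0)) (T.h (T.h (P (nat_lit 0)) (T.h (P (nat_lit 23223723856033470218240)) (T.h (P (nat_lit 0)) (M (nat_lit 21981539607871487))))) (T.h (P (nat_lit 0)) (T.h (T.h (P (nat_lit 0)) (P (nat_lit 18968879967698944))) (P (nat_lit 0))))))) (T.h (T.h (P (nat_lit 0)) (T.h (T.h (P (nat_lit 789217968431012492869632)) (T.h (P (nat_lit 0)) (T.h (M (nat_lit 2144806594884403199)) (T.h (P (nat_lit 0)) (M (nat_lit 40018750807967)))))) (T.h (P (nat_lit 0)) (T.h (T.h (M (nat_lit 41432928862544592895)) (T.h (P (nat_lit 0)) (P (nat_lit 36776393580296)))) (T.h (P (nat_lit 0)) (M (nat_lit 11610110242455))))))) (T.h (T.h (T.h (P (nat_lit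 0)) (T.h (P (nat_lit 18488458053379849977856)) (T.h (P (nat_lit 0)) (M (nat_lit 14916144344629247))))) (T.h (P (nat_lit 0)) (T.h (T.h (P (nat_lit 0)) (P (nat_lit 6405622491906048))) (P (nat_lit 0))))) (T.h (T.h (P (nat_lit 0)) (T.h (T.h (M (nat_lit 26309337614833942527)) (T.h (P (nat_lit 0)) (P (nat_lit 28718105432920)))) (T.h (P (nat_lit 0)) (M (nat_lit 60639230622911))))) (T.h (T.h (T.h (P (nat_lit 0)) (P (nat_lit 15699326535139328))) (P (nat_lit 0))) (T.h (T.h (P (nat_lit 0)) (M (nat_lit 11455875289447))) (P (nat_lit 0)))))))), (T.h (T.h (T.h (P (nat_lit 105277720930526967885496854773760)) (T.h (P (nat_lit 0)) (T.h (M (nat_lit 9691530957154133055897599)) (T.h (P (nat_lit 0)) (T.h (P (nat_lit 1752219728941678592)) (T.h (P (nat_lit 0)) (P (nat_lit 2914549128000)))))))) (T.h (P (nat_lit 0)) (T.h (T.h (M (nat_lit 1622784108497740811468799)) (T.h (P (nat_lit 0)) (T.h (M (nat_lit 5543786603966627839)) (T.h (P (nat_lit 0)) (P (nat_lit 20467126355184))))))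 (T.h (P (nat_lit 0)) (T.h (T.h (P (nat_lit 8780194688519897088)) (T.h (P (nat_lit 0)) (M (nat_lit 104478078703183)))) (T.h (P (nat_lit 0)) (P (nat_lit 56203593949792)))))))) (T.h (T.h (P (nat_lit 0)) (T.h (T.h (P (nat_lit 0)) (T.h (P (nat_lit 20667592922045440065536)) (T.h (P (nat_lit 0)) (P (nat_lit 41585837830832128))))) (T.h (P (nat_lit 0)) (T.h (T.h (P (nat_lit 0)) (P (nat_lit 47636208037494784))) (P (nat_lit 0)))))) (T.h (T.h (T.h (M (nat_lit 1622784108497740811468799)) (T.h (P (nat_lit 0)) (T.h (M (nat_lit 5543786603966627839)) (T.h (P (nat_lit 0)) (P (nat_lit 20467126355184)))))) (T.h (P (nat_lit 0)) (T.h (T.h (M (nat_lit 172485376140564758527)) (T.h (P (nat_lit 0)) (P (nat_lit 5095877684832)))) (T.h (P (nat_lit 0)) (M (nat_lit 373272336818415)))))) (T.h (T.h (P (nat_lit 0)) (T.h (T.h (P (nat_lit 0)) (P (nat_lit 47636208037494784))) (P (nat_lit 0)))) (T.h (T.h (T.h (P (nat_lit 8780194688519897088)) (T.h (P (nat_lit 0)) (M (nat_lit 104478078703183))))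 (T.h (P (nat_lit 0)) (M (nat_lit 373272336818415)))) (T.h (P (nat_lit 0)) (P (nat_lit 56203593949792)))))))), (T.h (T.h (T.h (P (nat_lit 0)) (T.h (M (nat_lit 1772719709271470377478914047)) (T.h (P (nat_lit 0)) (T.h (M (nat_lit 10151113502918493339647)) (T.h (P (nat_lit 0)) (M (nat_lit 7951400904425471))))))) (T.h (P (nat_lit 0)) (T.h (T.h (P (nat_lit 0)) (T.h (M (nat_lit 14350093689450101997567)) (T.h (P (nat_lit 0)) (P (nat_lit 6165034883907584))))) (T.h (P (nat_lit 0)) (T.h (T.h (P (nat_lit 0)) (P (nat_lit 28449082768031744))) (P (nat_lit 0))))))) (T.h (T.h (P (nat_lit 0)) (T.h (T.h (M (nat_lit 6097722714123760383819775)) (T.h (P (nat_lit 0)) (T.h (P (nat_lit 12972542331520548864)) (T.h (P (nat_lit 0)) (P (nat_lit 40018750807968)))))) (T.h (P (nat_lit 0)) (T.h (T.h (P (nat_lit 27470699705940312064)) (T.h (P (nat_lit 0)) (M (nat_lit 32747249506607)))) (T.h (P (nat_lit 0)) (P (nat_lit 11532992765952))))))) (T.h (T.h (T.h (P (nat_lit 0)) (T.h (M (nat_lit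 6654861781713964498943)) (T.h (P (nat_lit 0)) (M (nat_lit 5931687478722559))))) (T.h (P (nat_lit 0)) (T.h (T.h (P (nat_lit 0)) (M (nat_lit 5990814857822207))) (P (nat_lit 0))))) (T.h (T.h (P (nat_lit 0)) (T.h (T.h (P (nat_lit 10996160748979224576)) (T.h (P (nat_lit 0)) (M (nat_lit 32747249506607)))) (T.h (P (nat_lit 0)) (P (nat_lit 60639230622912))))) (T.h (T.h (T.h (P (nat_lit 0)) (P (nat_lit 29605169527062528))) (P (nat_lit 0))) (T.h (T.h (P (nat_lit 0)) (P (nat_lit 11532992765952))) (P (nat_lit 0)))))))), (T.h (T.h (T.h (M (nat_lit 99909648655724536380581048483839)) (T.h (P (nat_lit 0)) (T.h (P (nat_lit 10438904556057964207669248)) (T.h (P (nat_lit 0)) (T.h (M (nat_lit 3079660293249302527)) (T.h (P (nat_lit 0)) (M (nat_lit 1776113164223)))))))) (T.h (P (nat_lit 0)) (T.h (T.h (P (nat_lit 1537303026863677219274752)) (T.h (P (nat_lit 0)) (T.h (P (nat_lit 3858024237247758336)) (T.h (P (nat_lit 0)) (M (nat_lit 20140321589711)))))) (T.h (P (nat_lit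 0)) (T.h (T.h (M (nat_lit 7478722740816445439)) (T.h (P (nat_lit 0)) (P (nat_lit 101867935691088)))) (T.h (P (nat_lit 0)) (M (nat_lit 56803544022671)))))))) (T.h (T.h (P (nat_lit 0)) (T.h (T.h (P (nat_lit 0)) (T.h (M (nat_lit 24792577964494502756351)) (T.h (P (nat_lit 0)) (M (nat_lit 38777993416015871))))) (T.h (P (nat_lit 0)) (T.h (T.h (P (nat_lit 0)) (M (nat_lit 41970387647889407))) (P (nat_lit 0)))))) (T.h (T.h (T.h (P (nat_lit 1537303026863677219274752)) (T.h (P (nat_lit 0)) (T.h (P (nat_lit 3858024237247758336)) (T.h (P (nat_lit 0)) (M (nat_lit 20140321589711)))))) (T.h (P (nat_lit 0)) (T.h (T.h (P (nat_lit 170199004916551254016)) (T.h (P (nat_lit 0)) (P (nat_lit 911442555360)))) (T.h (P (nat_lit 0)) (P (nat_lit 372699232900704)))))) (T.h (T.h (P (nat_lit 0)) (T.h (T.h (P (nat_lit 0)) (M (nat_lit 41970387647889407))) (P (nat_lit 0)))) (T.h (T.h (T.h (M (nat_lit 7478722740816445439)) (T.h (P (nat_lit 0)) (P (nat_lit 101867935691088)))) (T.h (P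 (nat_lit 0)) (P (nat_lit 372699232900704)))) (T.h (P (nat_lit 0)) (M (nat_lit 56803544022671))))))))]
def lP22_1 : List (T ℤ) := [(T.h (T.h (T.h (P (nat_lit 0)) (T.h (M (nat_lit 5327367447308101761250623487)) (T.h (P (nat_lit 0)) (T.h (P (nat_lit 11388161166645179449344)) (T.h (P (nat_lit 0)) (P (nat_lit 2424986506887168))))))) (T.h (P (nat_lit 0)) (T.h (T.h (P (nat_lit 0)) (T.h (M (nat_lit 10353613219124626849791)) (T.h (P (nat_lit 0)) (P (nat_lit 18332168273657856))))) (T.h (P (nat_lit 0)) (T.h (T.h (P (nat_lit 0)) (M (nat_lit 46361229398966271))) (P (nat_lit 0))))))) (T.h (T.h (P (nat_lit 0)) (T.h (T.h (P (nat_lit 5308504745692747890950144)) (T.h (P (nat_lit 0)) (M (nat_lit 10827735736636145663)))) (T.h (P (nat_lit 0)) (P (nat_lit 14637703011229499392))))) (T.h (T.h (T.h (P (nat_lit 0)) (T.h (M (nat_lit 10353613219124626849791)) (T.h (P (nat_lit 0)) (P (nat_lit 18332168273657856))))) (T.h (P (nat_lit 0)) (T.h (T.h (P (nat_lit 0)) (M (nat_lit 414807634083839)))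 (P (nat_lit 0))))) (T.h (T.h (P (nat_lit 0)) (P (nat_lit 14637703011229499392))) (T.h (T.h (T.h (P (nat_lit 0)) (M (nat_lit 46361229398966271))) (P (nat_lit 0))) (P (nat_lit 0))))))), (P (nat_lit 0)), (P (nat_lit 0)), (P (nat_lit 0)), (T.h (T.h (P (nat_lit 0)) (T.h (T.h (M (nat_lit 782089061910025663233916927)) (T.h (P (nat_lit 0)) (T.h (P (nat_lit 18063952995519278612480)) (T.h (P (nat_lit 0)) (M (nat_lit 12606398353178623)))))) (T.h (P (nat_lit 0)) (T.h (T.h (M (nat_lit 16426708158251637145599)) (T.h (P (nat_lit 0)) (M (nat_lit 42949802790125567)))) (T.h (P (nat_lit 0)) (M (nat_lit 6131893213822975))))))) (T.h (T.h (T.h (P (nat_lit 0)) (T.h (P (nat_lit 6546479697134641121067008)) (T.h (P (nat_lit 0)) (T.h (M (nat_lit 4787399348545650687)) (T.h (P (nat_lit 0)) (M (nat_lit 11650405526287))))))) (T.h (P (nat_lit 0)) (T.h (T.h (P (nat_lit 0)) (T.h (P (nat_lit 24111187067511242752)) (T.h (P (nat_lit 0)) (P (nat_lit 29687087006240))))) (T.h (P (nat_lit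 0)) (T.h (T.h (P (nat_lit 0)) (P (nat_lit 17623647717064))) (P (nat_lit 0))))))) (T.h (T.h (P (nat_lit 0)) (T.h (T.h (M (nat_lit 14320835328243459424255)) (T.h (P (nat_lit 0)) (M (nat_lit 26618167397318655)))) (T.h (P (nat_lit 0)) (M (nat_lit 22042204530900991))))) (T.h (T.h (T.h (P (nat_lit 0)) (T.h (P (nat_lit 22831587893463482368)) (T.h (P (nat_lit 0)) (M (nat_lit 23872235273511))))) (T.h (P (nat_lit 0)) (T.h (T.h (P (nat_lit 0)) (M (nat_lit 11967238186615))) (P (nat_lit 0))))) (T.h (T.h (P (nat_lit 0)) (M (nat_lit 8925789642784767))) (T.h (T.h (T.h (P (nat_lit 0)) (P (nat_lit 16967370205168))) (P (nat_lit 0))) (P (nat_lit 0)))))))), (T.h (T.h (P (nat_lit 0)) (T.h (T.h (P (nat_lit 0)) (T.h (M (nat_lit 23016326667677892480073727)) (T.h (P (nat_lit 0)) (T.h (M (nat_lit 4386139381002403839)) (T.h (P (nat_lit 0)) (M (nat_lit 14450944174591))))))) (T.h (P (nat_lit 0)) (T.h (T.h (P (nat_lit 0)) (T.h (P (nat_lit 3997095405463535616)) (T.h (P (nat_lit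 0)) (P (nat_lit 6020971354256))))) (T.h (P (nat_lit 0)) (T.h (T.h (P (nat_lit 0)) (P (nat_lit 40339979884256))) (P (nat_lit 0)))))))) (T.h (T.h (T.h (P (nat_lit 20984392715099619162048167936)) (T.h (P (nat_lit 0)) (T.h (M (nat_lit 8223931429363535314943)) (T.h (P (nat_lit 0)) (P (nat_lit 26419758957936640)))))) (T.h (P (nat_lit 0)) (T.h (T.h (M (nat_lit 17505257867323948138495)) (T.h (P (nat_lit 0)) (M (nat_lit 738227850690559)))) (T.h (P (nat_lit 0)) (M (nat_lit 93291811182837759)))))) (T.h (T.h (P (nat_lit 0)) (T.h (T.h (P (nat_lit 0)) (T.h (P (nat_lit 29677769012967112704)) (T.h (P (nat_lit 0)) (M (nat_lit 4144068559599))))) (T.h (P (nat_lit 0)) (T.h (T.h (P (nat_lit 0)) (P (nat_lit 1500860940832))) (P (nat_lit 0)))))) (T.h (T.h (T.h (P (nat_lit 19697029159794532941824)) (T.h (P (nat_lit 0)) (M (nat_lit 46708690346541055)))) (T.h (P (nat_lit 0)) (M (nat_lit 33918669731856383)))) (T.h (T.h (P (nat_lit 0)) (T.h (T.h (P (nat_lit 0)) (P (nat_lit 50708355223312)))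 (P (nat_lit 0)))) (P (nat_lit 15994898100060160))))))), (T.h (T.h (P (nat_lit 0)) (T.h (T.h (M (nat_lit 3456173834636085084861497343)) (T.h (P (nat_lit 0)) (T.h (M (nat_lit 8138862492074314301439)) (T.h (P (nat_lit 0)) (M (nat_lit 5272400747659263)))))) (T.h (P (nat_lit 0)) (T.h (T.h (P (nat_lit 796842188950915252224)) (T.h (P (nat_lit 0)) (P (nat_lit 135300099771203584)))) (T.h (P (nat_lit 0)) (M (nat_lit 79130026373513215))))))) (T.h (T.h (T.h (P (nat_lit 0)) (T.h (M (nat_lit 10655501998343211475533823)) (T.h (P (nat_lit 0)) (T.h (P (nat_lit 12914465284454088704)) (T.h (P (nat_lit 0)) (P (nat_lit 8815688868816))))))) (T.h (P (nat_lit 0)) (T.h (T.h (P (nat_lit 0)) (T.h (M (nat_lit 74645592273925963775)) (T.h (P (nat_lit 0)) (M (nat_lit 8955757893743))))) (T.h (P (nat_lit 0)) (T.h (T.h (P (nat_lit 0)) (M (nat_lit 20837185961087))) (P (nat_lit 0))))))) (T.h (T.h (P (nat_lit 0)) (T.h (T.h (P (nat_lit 79018735785822008639488)) (T.h (P (nat_lit 0)) (P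 (nat_lit 43116961213710336)))) (T.h (P (nat_lit 0)) (P (nat_lit 358151747026976768))))) (T.h (T.h (T.h (P (nat_lit 0)) (T.h (P (nat_lit 14014821978452525056)) (T.h (P (nat_lit 0)) (P (nat_lit 22388334389568))))) (T.h (P (nat_lit 0)) (T.h (T.h (P (nat_lit 0)) (P (nat_lit 29719564744560))) (P (nat_lit 0))))) (T.h (T.h (P (nat_lit 0)) (P (nat_lit 173742578925305856))) (T.h (T.h (T.h (P (nat_lit 0)) (M (nat_lit 11562789853775))) (P (nat_lit 0))) (P (nat_lit 0)))))))), (T.h (T.h (P (nat_lit 0)) (T.h (T.h (P (nat_lit 0)) (T.h (P (nat_lit 30576525179669562771111936)) (T.h (P (nat_lit 0)) (T.h (M (nat_lit 4299253708392235007)) (T.h (P (nat_lit 0)) (P (nat_lit 8704128682512))))))) (T.h (P (nat_lit 0)) (T.h (T.h (P (nat_lit 0)) (T.h (M (nat_lit 14785903864523522047)) (T.h (P (nat_lit 0)) (M (nat_lit 11727087712703))))) (T.h (P (nat_lit 0)) (T.h (T.h (P (nat_lit 0)) (M (nat_lit 38574100311983))) (P (nat_lit 0)))))))) (T.h (T.h (T.h (M (nat_lit 20545763807070606543294562303))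 (T.h (P (nat_lit 0)) (T.h (P (nat_lit 12135496075166393303040)) (T.h (P (nat_lit 0)) (M (nat_lit 35881187698753535)))))) (T.h (P (nat_lit 0)) (T.h (T.h (P (nat_lit 18225494033046599368704)) (T.h (P (nat_lit 0)) (P (nat_lit 43606495874285568)))) (T.h (P (nat_lit 0)) (P (nat_lit 79124825958711296)))))) (T.h (T.h (P (nat_lit 0)) (T.h (T.h (P (nat_lit 0)) (T.h (M (nat_lit 60109996656355704831)) (T.h (P (nat_lit 0)) (P (nat_lit 18560116891440))))) (T.h (P (nat_lit 0)) (T.h (T.h (P (nat_lit 0)) (P (nat_lit 22287634534368))) (P (nat_lit 0)))))) (T.h (T.h (T.h (M (nat_lit 19160979863630824603647)) (T.h (P (nat_lit 0)) (P (nat_lit 52158500142071808)))) (T.h (P (nat_lit 0)) (P (nat_lit 54131820061376512)))) (T.h (T.h (P (nat_lit 0)) (T.h (T.h (P (nat_lit 0)) (M (nat_lit 53556555107663))) (P (nat_lit 0)))) (M (nat_lit 14971273895362559)))))))]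
def lP22_2 : List (T ℤ) := [(T.h (T.h (P (nat_lit 0)) (T.h (T.h (P (nat_lit 2431989740396183413638299648)) (T.h (P (nat_lit 0)) (T.h (M (nat_lit 2389731705158014861311)) (T.h (P (nat_lit 0)) (M (nat_lit 737280053051391)))))) (T.h (P (nat_lit 0)) (T.h (T.h (P (nat_lit 13155666161854431887360)) (T.h (P (nat_lit 0)) (M (nat_lit 84716766919393279)))) (T.h (P (nat_lit 0)) (P (nat_lit 86333522932170752))))))) (T.h (T.h (T.h (P (nat_lit 0)) (T.h (P (nat_lit 2731529024111075150266368)) (T.h (P (nat_lit 0)) (P (nat_lit 2922520119437426688))))) (T.h (P (nat_lit 0)) (T.h (T.h (P (nat_lit 0)) (P (nat_lit 43502318328160976896))) (P (nat_lit 0))))) (T.h (T.h (P (nat_lit 0)) (T.h (T.h (M (nat_lit 67764700985457142398975)) (T.h (P (nat_lit 0)) (M (nat_lit 13085180765306879)))) (T.h (P (nat_lit 0)) (M (nat_lit 344310799049883647))))) (T.h (T.h (T.h (P (nat_lit 0)) (M (nat_lit 14446821862908362751))) (P (nat_lit 0))) (T.h (T.h (P (nat_lit 0)) (M (nat_lit 157432470344531967)))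 (P (nat_lit 0))))))), (P (nat_lit 0)), (P (nat_lit 0)), (P (nat_lit 0)), (T.h (T.h (T.h (P (nat_lit 0)) (T.h (P (nat_lit 6801896442518516848624926720)) (T.h (P (nat_lit 0)) (T.h (M (nat_lit 16269053149684254638079)) (T.h (P (nat_lit 0)) (M (nat_lit 6062581201043455))))))) (T.h (P (nat_lit 0)) (T.h (T.h (P (nat_lit 0)) (T.h (M (nat_lit 61949671853687192944639)) (T.h (P (nat_lit 0)) (M (nat_lit 15777028889149439))))) (T.h (P (nat_lit 0)) (T.h (T.h (P (nat_lit 0)) (M (nat_lit 11674442002104319))) (P (nat_lit 0))))))) (T.h (T.h (P (nat_lit 0)) (T.h (T.h (P (nat_lit 16711225617270992577495040)) (T.h (P (nat_lit 0)) (T.h (P (nat_lit 95597895653135482880)) (T.h (P (nat_lit 0)) (P (nat_lit 27402727578760)))))) (T.h (P (nat_lit 0)) (T.h (T.h (P (nat_lit 18816914626879422464)) (T.h (P (nat_lit 0)) (P (nat_lit 40934921564768)))) (T.h (P (nat_lit 0)) (M (nat_lit 3640415834759))))))) (T.h (T.h (T.h (P (nat_lit 0)) (T.h (M (nat_lit 23673963548691115540479)) (T.h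 (P (nat_lit 0)) (P (nat_lit 3999630672232448))))) (T.h (P (nat_lit 0)) (T.h (T.h (P (nat_lit 0)) (P (nat_lit 11876745795108864))) (P (nat_lit 0))))) (T.h (T.h (P (nat_lit 0)) (T.h (T.h (P (nat_lit 29435310069868658688)) (T.h (P (nat_lit 0)) (M (nat_lit 47994939898575)))) (T.h (P (nat_lit 0)) (M (nat_lit 27481800065447))))) (T.h (T.h (T.h (P (nat_lit 0)) (M (nat_lit 3288468659404799))) (P (nat_lit 0))) (T.h (T.h (P (nat_lit 0)) (P (nat_lit 1624450826248))) (P (nat_lit 0)))))))), (T.h (T.h (T.h (P (nat_lit 116538236317700504972192617857024)) (T.h (P (nat_lit 0)) (T.h (M (nat_lit 11610262193131898743554047)) (T.h (P (nat_lit 0)) (T.h (P (nat_lit 4059346151223066624)) (T.h (P (nat_lit 0)) (M (nat_lit 15472739090591)))))))) (T.h (P (nat_lit 0)) (T.h (T.h (P (nat_lit 29852342430197712133554176)) (T.h (P (nat_lit 0)) (T.h (M (nat_lit 89283928821218672639)) (T.h (P (nat_lit 0)) (P (nat_lit 28335036564160)))))) (T.h (P (nat_lit 0)) (T.h (T.h (P (nat_lit 11257209192479457280))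 (T.h (P (nat_lit 0)) (M (nat_lit 8128876489663)))) (T.h (P (nat_lit 0)) (M (nat_lit 61045729373567)))))))) (T.h (T.h (P (nat_lit 0)) (T.h (T.h (P (nat_lit 0)) (T.h (P (nat_lit 35871329636008551514112)) (T.h (P (nat_lit 0)) (P (nat_lit 41843344361783296))))) (T.h (P (nat_lit 0)) (T.h (T.h (P (nat_lit 0)) (P (nat_lit 95266818162229248))) (P (nat_lit 0)))))) (T.h (T.h (T.h (P (nat_lit 32611548086002112509509632)) (T.h (P (nat_lit 0)) (T.h (P (nat_lit 18121256762693648384)) (T.h (P (nat_lit 0)) (M (nat_lit 35169845347711)))))) (T.h (P (nat_lit 0)) (T.h (T.h (P (nat_lit 14755860110806876160)) (T.h (P (nat_lit 0)) (M (nat_lit 22178401775167)))) (T.h (P (nat_lit 0)) (M (nat_lit 93345869782831)))))) (T.h (T.h (P (nat_lit 0)) (T.h (T.h (P (nat_lit 0)) (P (nat_lit 40345172097957888))) (P (nat_lit 0)))) (T.h (T.h (T.h (P (nat_lit 44292664539358429184)) (T.h (P (nat_lit 0)) (M (nat_lit 22396963694271)))) (T.h (P (nat_lit 0)) (M (nat_lit 7076939740079)))) (T.h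 (P (nat_lit 0)) (P (nat_lit 32079931261568)))))))), (T.h (T.h (T.h (P (nat_lit 0)) (T.h (M (nat_lit 13643277596547858818052128767)) (T.h (P (nat_lit 0)) (T.h (P (nat_lit 13578388150504331935744)) (T.h (P (nat_lit 0)) (P (nat_lit 62277197655441408))))))) (T.h (P (nat_lit 0)) (T.h (T.h (P (nat_lit 0)) (T.h (P (nat_lit 99357904463704478449664)) (T.h (P (nat_lit 0)) (M (nat_lit 25911504250404863))))) (T.h (P (nat_lit 0)) (T.h (T.h (P (nat_lit 0)) (M (nat_lit 12317872639180799))) (P (nat_lit 0))))))) (T.h (T.h (P (nat_lit 0)) (T.h (T.h (P (nat_lit 5538450431683356522446848)) (T.h (P (nat_lit 0)) (T.h (M (nat_lit 214692018084393254911)) (T.h (P (nat_lit 0)) (P (nat_lit 20145618234144)))))) (T.h (P (nat_lit 0)) (T.h (T.h (P (nat_lit 71019701946244136960)) (T.h (P (nat_lit 0)) (M (nat_lit 47982439091855)))) (T.h (P (nat_lit 0)) (P (nat_lit 16779312954192))))))) (T.h (T.h (T.h (P (nat_lit 0)) (T.h (M (nat_lit 72413172943302078496767)) (T.h (P (nat_lit 0))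 (P (nat_lit 104001452826558464))))) (T.h (P (nat_lit 0)) (T.h (T.h (P (nat_lit 0)) (M (nat_lit 40126139474247679))) (P (nat_lit 0))))) (T.h (T.h (P (nat_lit 0)) (T.h (T.h (P (nat_lit 56006648096966574080)) (T.h (P (nat_lit 0)) (P (nat_lit 4724950018272)))) (T.h (P (nat_lit 0)) (P (nat_lit 106333461033312))))) (T.h (T.h (T.h (P (nat_lit 0)) (M (nat_lit 81311443225575423))) (P (nat_lit 0))) (T.h (T.h (P (nat_lit 0)) (P (nat_lit 2741942744016))) (P (nat_lit 0)))))))), (T.h (T.h (T.h (M (nat_lit 202020782321028235702046130438143)) (T.h (P (nat_lit 0)) (T.h (P (nat_lit 23366883707900872915681280)) (T.h (P (nat_lit 0)) (T.h (M (nat_lit 7131341328276783103)) (T.h (P (nat_lit 0)) (P (nat_lit 14645707618464)))))))) (T.h (P (nat_lit 0)) (T.h (T.h (M (nat_lit 35815997065927715062808575)) (T.h (P (nat_lit 0)) (T.h (P (nat_lit 15088578806786555904)) (T.h (P (nat_lit 0)) (M (nat_lit 77309147628143)))))) (T.h (P (nat_lit 0)) (T.h (T.h (M (nat_lit 2673562259325714431))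 (T.h (P (nat_lit 0)) (P (nat_lit 134195146157664)))) (T.h (P (nat_lit 0)) (P (nat_lit 8713460479392)))))))) (T.h (T.h (P (nat_lit 0)) (T.h (T.h (P (nat_lit 0)) (T.h (P (nat_lit 9071748710483349209088)) (T.h (P (nat_lit 0)) (M (nat_lit 63102135297736703))))) (T.h (P (nat_lit 0)) (T.h (T.h (P (nat_lit 0)) (M (nat_lit 178490904560173055))) (P (nat_lit 0)))))) (T.h (T.h (T.h (M (nat_lit 42337534151861017088360447)) (T.h (P (nat_lit 0)) (T.h (P (nat_lit 34550124118083108864)) (T.h (P (nat_lit 0)) (P (nat_lit 26406644853168)))))) (T.h (P (nat_lit 0)) (T.h (T.h (P (nat_lit 132043227812096638976)) (T.h (P (nat_lit 0)) (P (nat_lit 14513604933888)))) (T.h (P (nat_lit 0)) (P (nat_lit 499241730033216)))))) (T.h (T.h (P (nat_lit 0)) (T.h (T.h (P (nat_lit 0)) (M (nat_lit 125759308696616959))) (P (nat_lit 0)))) (T.h (T.h (T.h (M (nat_lit 68615088356747902975)) (T.h (P (nat_lit 0)) (P (nat_lit 133240626359424)))) (T.h (P (nat_lit 0)) (P (nat_lit 352154342018448))))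 (T.h (P (nat_lit 0)) (M (nat_lit 87410689135199))))))))]
def lP22_3 : List (T ℤ) := [(T.h (T.h (T.h (P (nat_lit 0)) (T.h (M (nat_lit 5287393795622230931927990271)) (T.h (P (nat_lit 0)) (T.h (M (nat_lit 10997930159462676430847)) (T.h (P (nat_lit 0)) (M (nat_lit 21976945639718911))))))) (T.h (P (nat_lit 0)) (T.h (T.h (P (nat_lit 0)) (T.h (M (nat_lit 37042947306702845771775)) (T.h (P (nat_lit 0)) (P (nat_lit 78374196030734336))))) (T.h (P (nat_lit 0)) (T.h (T.h (P (nat_lit 0)) (M (nat_lit 17184947940786175))) (P (nat_lit 0))))))) (T.h (T.h (P (nat_lit 0)) (T.h (T.h (M (nat_lit 7968129611153399804329983)) (T.h (P (nat_lit 0)) (P (nat_lit 28063542199158046720)))) (T.h (P (nat_lit 0)) (M (nat_lit 28918869486353776639))))) (T.h (T.h (T.h (P (nat_lit 0)) (T.h (M (nat_lit 11470395129475534684159)) (T.h (P (nat_lit 0)) (M (nat_lit 28259372670091263))))) (T.h (P (nat_lit 0)) (T.h (T.h (P (nat_lit 0)) (M (nat_lit 21820328043151359))) (P (nat_lit 0))))) (T.h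 (T.h (P (nat_lit 0)) (M (nat_lit 34246235936746635263))) (T.h (T.h (T.h (P (nat_lit 0)) (M (nat_lit 48452197856411647))) (P (nat_lit 0))) (P (nat_lit 0))))))), (P (nat_lit 0)), (P (nat_lit 0)), (T.h (T.h (P (nat_lit 0)) (T.h (T.h (P (nat_lit 6801896442518516848624926720)) (T.h (P (nat_lit 0)) (T.h (M (nat_lit 61949671853687192944639)) (T.h (P (nat_lit 0)) (M (nat_lit 11674442002104319)))))) (T.h (P (nat_lit 0)) (T.h (T.h (M (nat_lit 16269053149684254638079)) (T.h (P (nat_lit 0)) (M (nat_lit 15777028889149439)))) (T.h (P (nat_lit 0)) (M (nat_lit 6062581201043455))))))) (T.h (T.h (T.h (P (nat_lit 0)) (T.h (P (nat_lit 16711225617270992577495040)) (T.h (P (nat_lit 0)) (T.h (P (nat_lit 18816914626879422464)) (T.h (P (nat_lit 0)) (M (nat_lit 3640415834759))))))) (T.h (P (nat_lit 0)) (T.h (T.h (P (nat_lit 0)) (T.h (P (nat_lit 95597895653135482880)) (T.h (P (nat_lit 0)) (P (nat_lit 40934921564768))))) (T.h (P (nat_lit 0)) (T.h (T.h (P (nat_lit 0)) (P (nat_lit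 27402727578760))) (P (nat_lit 0))))))) (T.h (T.h (P (nat_lit 0)) (T.h (T.h (M (nat_lit 23673963548691115540479)) (T.h (P (nat_lit 0)) (P (nat_lit 11876745795108864)))) (T.h (P (nat_lit 0)) (P (nat_lit 3999630672232448))))) (T.h (T.h (T.h (P (nat_lit 0)) (T.h (P (nat_lit 29435310069868658688)) (T.h (P (nat_lit 0)) (M (nat_lit 27481800065447))))) (T.h (P (nat_lit 0)) (T.h (T.h (P (nat_lit 0)) (M (nat_lit 47994939898575))) (P (nat_lit 0))))) (T.h (T.h (P (nat_lit 0)) (M (nat_lit 3288468659404799))) (T.h (T.h (T.h (P (nat_lit 0)) (P (nat_lit 1624450826248))) (P (nat_lit 0))) (P (nat_lit 0)))))))), (T.h (T.h (P (nat_lit 0)) (T.h (T.h (P (nat_lit 0)) (T.h (P (nat_lit 27976224509473404932325376)) (T.h (P (nat_lit 0)) (T.h (M (nat_lit 147501008737055801343)) (T.h (P (nat_lit 0)) (M (nat_lit 5456481312047))))))) (T.h (P (nat_lit 0)) (T.h (T.h (P (nat_lit 0)) (T.h (M (nat_lit 147501008737055801343)) (T.h (P (nat_lit 0)) (P (nat_lit 48640495562304))))) (T.h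 (P (nat_lit 0)) (T.h (T.h (P (nat_lit 0)) (M (nat_lit 5456481312047))) (P (nat_lit 0)))))))) (T.h (T.h (T.h (P (nat_lit 53722552701100346492772679680)) (T.h (P (nat_lit 0)) (T.h (M (nat_lit 40817385476115149094911)) (T.h (P (nat_lit 0)) (P (nat_lit 13953943454662656)))))) (T.h (P (nat_lit 0)) (T.h (T.h (M (nat_lit 40817385476115149094911)) (T.h (P (nat_lit 0)) (P (nat_lit 328107354602536960)))) (T.h (P (nat_lit 0)) (P (nat_lit 13953943454662656)))))) (T.h (T.h (P (nat_lit 0)) (T.h (T.h (P (nat_lit 0)) (T.h (M (nat_lit 251512460228226449407)) (T.h (P (nat_lit 0)) (M (nat_lit 64596591120223))))) (T.h (P (nat_lit 0)) (T.h (T.h (P (nat_lit 0)) (M (nat_lit 64596591120223))) (P (nat_lit 0)))))) (T.h (T.h (T.h (P (nat_lit 24104559975736356634624)) (T.h (P (nat_lit 0)) (M (nat_lit 5618166223650815)))) (T.h (P (nat_lit 0)) (M (nat_lit 5618166223650815)))) (T.h (T.h (P (nat_lit 0)) (T.h (T.h (P (nat_lit 0)) (P (nat_lit 18546753362336))) (P (nat_lit 0)))) (P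 (nat_lit 29987144081145856))))))), (T.h (T.h (P (nat_lit 0)) (T.h (T.h (M (nat_lit 6055445881416343606697918463)) (T.h (P (nat_lit 0)) (T.h (P (nat_lit 236814018518904771444736)) (T.h (P (nat_lit 0)) (P (nat_lit 94740330665148416)))))) (T.h (P (nat_lit 0)) (T.h (T.h (P (nat_lit 113709236032273398104064)) (T.h (P (nat_lit 0)) (M (nat_lit 19688161320828927)))) (T.h (P (nat_lit 0)) (P (nat_lit 101502339024453632))))))) (T.h (T.h (T.h (P (nat_lit 0)) (T.h (P (nat_lit 23435974083932209570381824)) (T.h (P (nat_lit 0)) (T.h (M (nat_lit 120330688800300728319)) (T.h (P (nat_lit 0)) (M (nat_lit 6261972315983))))))) (T.h (P (nat_lit 0)) (T.h (T.h (P (nat_lit 0)) (T.h (M (nat_lit 501728095527132725247)) (T.h (P (nat_lit 0)) (M (nat_lit 32116743668927))))) (T.h (P (nat_lit 0)) (T.h (T.h (P (nat_lit 0)) (M (nat_lit 95270745959327))) (P (nat_lit 0))))))) (T.h (T.h (P (nat_lit 0)) (T.h (T.h (P (nat_lit 30453367126282721034240)) (T.h (P (nat_lit 0)) (P (nat_lit 226577201689427968))))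 (T.h (P (nat_lit 0)) (P (nat_lit 128491958501376000))))) (T.h (T.h (T.h (P (nat_lit 0)) (T.h (P (nat_lit 69568742831935193088)) (T.h (P (nat_lit 0)) (P (nat_lit 14935521193248))))) (T.h (P (nat_lit 0)) (T.h (T.h (P (nat_lit 0)) (P (nat_lit 13001890599264))) (P (nat_lit 0))))) (T.h (T.h (P (nat_lit 0)) (M (nat_lit 25690900194066431))) (T.h (T.h (T.h (P (nat_lit 0)) (P (nat_lit 6554927866368))) (P (nat_lit 0))) (P (nat_lit 0)))))))), (T.h (T.h (P (nat_lit 0)) (T.h (T.h (P (nat_lit 0)) (T.h (M (nat_lit 40456280365528153312985087)) (T.h (P (nat_lit 0)) (T.h (P (nat_lit 62616020965616779264)) (T.h (P (nat_lit 0)) (P (nat_lit 45005981788656))))))) (T.h (P (nat_lit 0)) (T.h (T.h (P (nat_lit 0)) (T.h (P (nat_lit 167404106989858455552)) (T.h (P (nat_lit 0)) (M (nat_lit 35467958383919))))) (T.h (P (nat_lit 0)) (T.h (T.h (P (nat_lit 0)) (M (nat_lit 18638776481903))) (P (nat_lit 0)))))))) (T.h (T.h (T.h (M (nat_lit 72685983661459251017040265215)) (T.h (P (nat_lit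 0)) (T.h (M (nat_lit 33414274095559754121215)) (T.h (P (nat_lit 0)) (P (nat_lit 6109213496131584)))))) (T.h (P (nat_lit 0)) (T.h (T.h (P (nat_lit 83956052722079571640320)) (T.h (P (nat_lit 0)) (M (nat_lit 392751489005174783)))) (T.h (P (nat_lit 0)) (P (nat_lit 53580461240139776)))))) (T.h (T.h (P (nat_lit 0)) (T.h (T.h (P (nat_lit 0)) (T.h (P (nat_lit 369929869536337592320)) (T.h (P (nat_lit 0)) (P (nat_lit 73574799128352))))) (T.h (P (nat_lit 0)) (T.h (T.h (P (nat_lit 0)) (P (nat_lit 3848439743712))) (P (nat_lit 0)))))) (T.h (T.h (T.h (P (nat_lit 1559377016144609148928)) (T.h (P (nat_lit 0)) (M (nat_lit 67341317046075391)))) (T.h (P (nat_lit 0)) (P (nat_lit 30734799568240640)))) (T.h (T.h (P (nat_lit 0)) (T.h (T.h (P (nat_lit 0)) (M (nat_lit 36795851005967))) (P (nat_lit 0)))) (M (nat_lit 28653826021441535))))))), (T.h (T.h (P (nat_lit 0)) (T.h (T.h (M (nat_lit 485246316002040588049317887)) (T.h (P (nat_lit 0)) (T.h (M (nat_lit 116266967700160330596351))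 (T.h (P (nat_lit 0)) (M (nat_lit 16022553870106623)))))) (T.h (P (nat_lit 0)) (T.h (T.h (M (nat_lit 47953310490409918529535)) (T.h (P (nat_lit 0)) (M (nat_lit 97934611223642111)))) (T.h (P (nat_lit 0)) (M (nat_lit 7655420903981055))))))) (T.h (T.h (T.h (P (nat_lit 0)) (T.h (P (nat_lit 28478335506665354741940224)) (T.h (P (nat_lit 0)) (P (nat_lit 7399312085391245312))))) (T.h (P (nat_lit 0)) (T.h (T.h (P (nat_lit 0)) (P (nat_lit 379707384477398335488))) (P (nat_lit 0))))) (T.h (T.h (P (nat_lit 0)) (T.h (T.h (M (nat_lit 156873228732256518930431)) (T.h (P (nat_lit 0)) (M (nat_lit 56832365739311103)))) (T.h (P (nat_lit 0)) (M (nat_lit 455296650780803071))))) (T.h (T.h (T.h (P (nat_lit 0)) (P (nat_lit 46219789068006326272))) (P (nat_lit 0))) (T.h (T.h (P (nat_lit 0)) (M (nat_lit 151896253560815615))) (P (nat_lit 0)))))))]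
def lP22_4 : List (T ℤ) := [(P (nat_lit 0)), (P (nat_lit 0)), (T.h (T.h (T.h (P (nat_lit 0)) (T.h (M (nat_lit 782089061910025663233916927)) (T.h (P (nat_lit 0)) (T.h (M (nat_lit 16426708158251637145599)) (T.h (P (nat_lit 0)) (M (nat_lit 6131893213822975))))))) (T.h (P (nat_lit 0)) (T.h (T.h (P (nat_lit 0)) (T.h (P (nat_lit 18063952995519278612480)) (T.h (P (nat_lit 0)) (M (nat_lit 42949802790125567))))) (T.h (P (nat_lit 0)) (T.h (T.h (P (nat_lit 0)) (M (nat_lit 12606398353178623))) (P (nat_lit 0))))))) (T.h (T.h (P (nat_lit 0)) (T.h (T.h (P (nat_lit 6546479697134641121067008)) (T.h (P (nat_lit 0)) (T.h (P (nat_lit 24111187067511242752)) (T.h (P (nat_lit 0)) (P (nat_lit 17623647717064)))))) (T.h (P (nat_lit 0)) (T.h (T.h (M (nat_lit 4787399348545650687)) (T.h (P (nat_lit 0)) (P (nat_lit 29687087006240)))) (T.h (P (nat_lit 0)) (M (nat_lit 11650405526287))))))) (T.h (T.h (T.h (P (nat_lit 0)) (T.h (M (nat_lit 14320835328243459424255)) (T.h (P (nat_lit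 0)) (M (nat_lit 22042204530900991))))) (T.h (P (nat_lit 0)) (T.h (T.h (P (nat_lit 0)) (M (nat_lit 26618167397318655))) (P (nat_lit 0))))) (T.h (T.h (P (nat_lit 0)) (T.h (T.h (P (nat_lit 22831587893463482368)) (T.h (P (nat_lit 0)) (M (nat_lit 11967238186615)))) (T.h (P (nat_lit 0)) (M (nat_lit 23872235273511))))) (T.h (T.h (T.h (P (nat_lit 0)) (M (nat_lit 8925789642784767))) (P (nat_lit 0))) (T.h (T.h (P (nat_lit 0)) (P (nat_lit 16967370205168))) (P (nat_lit 0)))))))), (T.h (T.h (T.h (P (nat_lit 116538236317700504972192617857024)) (T.h (P (nat_lit 0)) (T.h (P (nat_lit 29852342430197712133554176)) (T.h (P (nat_lit 0)) (T.h (P (nat_lit 11257209192479457280)) (T.h (P (nat_lit 0)) (M (nat_lit 61045729373567)))))))) (T.h (P (nat_lit 0)) (T.h (T.h (M (nat_lit 11610262193131898743554047)) (T.h (P (nat_lit 0)) (T.h (M (nat_lit 89283928821218672639)) (T.h (P (nat_lit 0)) (M (nat_lit 8128876489663)))))) (T.h (P (nat_lit 0)) (T.h (T.h (P (nat_lit 4059346151223066624))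 (T.h (P (nat_lit 0)) (P (nat_lit 28335036564160)))) (T.h (P (nat_lit 0)) (M (nat_lit 15472739090591)))))))) (T.h (T.h (P (nat_lit 0)) (T.h (T.h (P (nat_lit 0)) (T.h (P (nat_lit 35871329636008551514112)) (T.h (P (nat_lit 0)) (P (nat_lit 95266818162229248))))) (T.h (P (nat_lit 0)) (T.h (T.h (P (nat_lit 0)) (P (nat_lit 41843344361783296))) (P (nat_lit 0)))))) (T.h (T.h (T.h (P (nat_lit 32611548086002112509509632)) (T.h (P (nat_lit 0)) (T.h (P (nat_lit 14755860110806876160)) (T.h (P (nat_lit 0)) (M (nat_lit 93345869782831)))))) (T.h (P (nat_lit 0)) (T.h (T.h (P (nat_lit 18121256762693648384)) (T.h (P (nat_lit 0)) (M (nat_lit 22178401775167)))) (T.h (P (nat_lit 0)) (M (nat_lit 35169845347711)))))) (T.h (T.h (P (nat_lit 0)) (T.h (T.h (P (nat_lit 0)) (P (nat_lit 40345172097957888))) (P (nat_lit 0)))) (T.h (T.h (T.h (P (nat_lit 44292664539358429184)) (T.h (P (nat_lit 0)) (M (nat_lit 7076939740079)))) (T.h (P (nat_lit 0)) (M (nat_lit 22396963694271)))) (T.h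 (P (nat_lit 0)) (P (nat_lit 32079931261568)))))))), (T.h (T.h (T.h (P (nat_lit 0)) (T.h (M (nat_lit 6055445881416343606697918463)) (T.h (P (nat_lit 0)) (T.h (P (nat_lit 113709236032273398104064)) (T.h (P (nat_lit 0)) (P (nat_lit 101502339024453632))))))) (T.h (P (nat_lit 0)) (T.h (T.h (P (nat_lit 0)) (T.h (P (nat_lit 236814018518904771444736)) (T.h (P (nat_lit 0)) (M (nat_lit 19688161320828927))))) (T.h (P (nat_lit 0)) (T.h (T.h (P (nat_lit 0)) (P (nat_lit 94740330665148416))) (P (nat_lit 0))))))) (T.h (T.h (P (nat_lit 0)) (T.h (T.h (P (nat_lit 23435974083932209570381824)) (T.h (P (nat_lit 0)) (T.h (M (nat_lit 501728095527132725247)) (T.h (P (nat_lit 0)) (M (nat_lit 95270745959327)))))) (T.h (P (nat_lit 0)) (T.h (T.h (M (nat_lit 120330688800300728319)) (T.h (P (nat_lit 0)) (M (nat_lit 32116743668927)))) (T.h (P (nat_lit 0)) (M (nat_lit 6261972315983))))))) (T.h (T.h (T.h (P (nat_lit 0)) (T.h (P (nat_lit 30453367126282721034240)) (T.h (P (nat_lit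 0)) (P (nat_lit 128491958501376000))))) (T.h (P (nat_lit 0)) (T.h (T.h (P (nat_lit 0)) (P (nat_lit 226577201689427968))) (P (nat_lit 0))))) (T.h (T.h (P (nat_lit 0)) (T.h (T.h (P (nat_lit 69568742831935193088)) (T.h (P (nat_lit 0)) (P (nat_lit 13001890599264)))) (T.h (P (nat_lit 0)) (P (nat_lit 14935521193248))))) (T.h (T.h (T.h (P (nat_lit 0)) (M (nat_lit 25690900194066431))) (P (nat_lit 0))) (T.h (T.h (P (nat_lit 0)) (P (nat_lit 6554927866368))) (P (nat_lit 0)))))))), (T.h (T.h (T.h (M (nat_lit 207245689897936580250291383828479)) (T.h (P (nat_lit 0)) (T.h (M (nat_lit 33468533096127654831063039)) (T.h (P (nat_lit 0)) (T.h (M (nat_lit 16190841554053627903)) (T.h (P (nat_lit 0)) (P (nat_lit 75877149067776)))))))) (T.h (P (nat_lit 0)) (T.h (T.h (M (nat_lit 33468533096127654831063039)) (T.h (P (nat_lit 0)) (T.h (P (nat_lit 333704964478410424320)) (T.h (P (nat_lit 0)) (P (nat_lit 43617723863328)))))) (T.h (P (nat_lit 0)) (T.h (T.h (M (nat_lit 16190841554053627903))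 (T.h (P (nat_lit 0)) (P (nat_lit 43617723863328)))) (T.h (P (nat_lit 0)) (P (nat_lit 75877149067776)))))))) (T.h (T.h (P (nat_lit 0)) (T.h (T.h (P (nat_lit 0)) (T.h (M (nat_lit 189858369728152055316479)) (T.h (P (nat_lit 0)) (M (nat_lit 47995793195532287))))) (T.h (P (nat_lit 0)) (T.h (T.h (P (nat_lit 0)) (M (nat_lit 47995793195532287))) (P (nat_lit 0)))))) (T.h (T.h (T.h (M (nat_lit 88680154785333492804747263)) (T.h (P (nat_lit 0)) (T.h (P (nat_lit 113789011323028242432)) (T.h (P (nat_lit 0)) (P (nat_lit 73651491357984)))))) (T.h (P (nat_lit 0)) (T.h (T.h (P (nat_lit 113789011323028242432)) (T.h (P (nat_lit 0)) (P (nat_lit 43934860796544)))) (T.h (P (nat_lit 0)) (P (nat_lit 73651491357984)))))) (T.h (T.h (P (nat_lit 0)) (T.h (T.h (P (nat_lit 0)) (M (nat_lit 246000128182583295))) (P (nat_lit 0)))) (T.h (T.h (T.h (M (nat_lit 144581075029341503487)) (T.h (P (nat_lit 0)) (P (nat_lit 74071766674224)))) (T.h (P (nat_lit 0)) (P (nat_lit 74071766674224))))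 (T.h (P (nat_lit 0)) (M (nat_lit 70822787459903)))))))), (T.h (T.h (T.h (P (nat_lit 0)) (T.h (M (nat_lit 11248579222122020348964634623)) (T.h (P (nat_lit 0)) (T.h (M (nat_lit 47210703150660263608319)) (T.h (P (nat_lit 0)) (M (nat_lit 113838962049777663))))))) (T.h (P (nat_lit 0)) (T.h (T.h (P (nat_lit 0)) (T.h (M (nat_lit 251163479293727797673983)) (T.h (P (nat_lit 0)) (M (nat_lit 15489028619730943))))) (T.h (P (nat_lit 0)) (T.h (T.h (P (nat_lit 0)) (P (nat_lit 1355874914500608))) (P (nat_lit 0))))))) (T.h (T.h (P (nat_lit 0)) (T.h (T.h (P (nat_lit 33206684731157785694175232)) (T.h (P (nat_lit 0)) (P (nat_lit 352605878129642176512)))) (T.h (P (nat_lit 0)) (P (nat_lit 274170867548684288))))) (T.h (T.h (T.h (P (nat_lit 0)) (T.h (M (nat_lit 110268998513681254842367)) (T.h (P (nat_lit 0)) (M (nat_lit 83781578424385535))))) (T.h (P (nat_lit 0)) (T.h (T.h (P (nat_lit 0)) (M (nat_lit 22622444845334527))) (P (nat_lit 0))))) (T.h (T.h (P (nat_lit 0)) (M (nat_lit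 13623357689722568703))) (T.h (T.h (T.h (P (nat_lit 0)) (M (nat_lit 25337783715266559))) (P (nat_lit 0))) (P (nat_lit 0))))))), (P (nat_lit 0))]
def lP22_5 : List (T ℤ) := [(P (nat_lit 0)), (T.h (T.h (P (nat_lit 0)) (T.h (T.h (P (nat_lit 7100087156579572138729537536)) (T.h (P (nat_lit 0)) (T.h (P (nat_lit 23223723856033470218240)) (T.h (P (nat_lit 0)) (P (nat_lit 18968879967698944)))))) (T.h (P (nat_lit 0)) (T.h (T.h (M (nat_lit 1237047663726686109695)) (T.h (P (nat_lit 0)) (M (nat_lit 21981539607871487)))) (T.h (P (nat_lit 0)) (P (nat_lit 5526414397538304))))))) (T.h (T.h (T.h (P (nat_lit 0)) (T.h (P (nat_lit 789217968431012492869632)) (T.h (P (nat_lit 0)) (T.h (M (nat_lit 41432928862544592895)) (T.h (P (nat_lit 0)) (M (nat_lit 11610110242455))))))) (T.h (P (nat_lit 0)) (T.h (T.h (P (nat_lit 0)) (T.h (M (nat_lit 2144806594884403199)) (T.h (P (nat_lit 0)) (P (nat_lit 36776393580296))))) (T.h (P (nat_lit 0)) (T.h (T.h (P (nat_lit 0)) (M (nat_lit 40018750807967)))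 (P (nat_lit 0))))))) (T.h (T.h (P (nat_lit 0)) (T.h (T.h (P (nat_lit 18488458053379849977856)) (T.h (P (nat_lit 0)) (P (nat_lit 6405622491906048)))) (T.h (P (nat_lit 0)) (M (nat_lit 14916144344629247))))) (T.h (T.h (T.h (P (nat_lit 0)) (T.h (M (nat_lit 26309337614833942527)) (T.h (P (nat_lit 0)) (M (nat_lit 60639230622911))))) (T.h (P (nat_lit 0)) (T.h (T.h (P (nat_lit 0)) (P (nat_lit 28718105432920))) (P (nat_lit 0))))) (T.h (T.h (P (nat_lit 0)) (P (nat_lit 15699326535139328))) (T.h (T.h (T.h (P (nat_lit 0)) (M (nat_lit 11455875289447))) (P (nat_lit 0))) (P (nat_lit 0)))))))), (T.h (T.h (P (nat_lit 0)) (T.h (T.h (P (nat_lit 0)) (T.h (M (nat_lit 23016326667677892480073727)) (T.h (P (nat_lit 0)) (T.h (P (nat_lit 3997095405463535616)) (T.h (P (nat_lit 0)) (P (nat_lit 40339979884256))))))) (T.h (P (nat_lit 0)) (T.h (T.h (P (nat_lit 0)) (T.h (M (nat_lit 4386139381002403839)) (T.h (P (nat_lit 0)) (P (nat_lit 6020971354256))))) (T.h (P (nat_lit 0)) (T.h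 (T.h (P (nat_lit 0)) (M (nat_lit 14450944174591))) (P (nat_lit 0)))))))) (T.h (T.h (T.h (P (nat_lit 20984392715099619162048167936)) (T.h (P (nat_lit 0)) (T.h (M (nat_lit 17505257867323948138495)) (T.h (P (nat_lit 0)) (M (nat_lit 93291811182837759)))))) (T.h (P (nat_lit 0)) (T.h (T.h (M (nat_lit 8223931429363535314943)) (T.h (P (nat_lit 0)) (M (nat_lit 738227850690559)))) (T.h (P (nat_lit 0)) (P (nat_lit 26419758957936640)))))) (T.h (T.h (P (nat_lit 0)) (T.h (T.h (P (nat_lit 0)) (T.h (P (nat_lit 29677769012967112704)) (T.h (P (nat_lit 0)) (P (nat_lit 1500860940832))))) (T.h (P (nat_lit 0)) (T.h (T.h (P (nat_lit 0)) (M (nat_lit 4144068559599))) (P (nat_lit 0)))))) (T.h (T.h (T.h (P (nat_lit 19697029159794532941824)) (T.h (P (nat_lit 0)) (M (nat_lit 33918669731856383)))) (T.h (P (nat_lit 0)) (M (nat_lit 46708690346541055)))) (T.h (T.h (P (nat_lit 0)) (T.h (T.h (P (nat_lit 0)) (P (nat_lit 50708355223312))) (P (nat_lit 0)))) (P (nat_lit 15994898100060160))))))),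 (T.h (T.h (P (nat_lit 0)) (T.h (T.h (M (nat_lit 13643277596547858818052128767)) (T.h (P (nat_lit 0)) (T.h (P (nat_lit 99357904463704478449664)) (T.h (P (nat_lit 0)) (M (nat_lit 12317872639180799)))))) (T.h (P (nat_lit 0)) (T.h (T.h (P (nat_lit 13578388150504331935744)) (T.h (P (nat_lit 0)) (M (nat_lit 25911504250404863)))) (T.h (P (nat_lit 0)) (P (nat_lit 62277197655441408))))))) (T.h (T.h (T.h (P (nat_lit 0)) (T.h (P (nat_lit 5538450431683356522446848)) (T.h (P (nat_lit 0)) (T.h (P (nat_lit 71019701946244136960)) (T.h (P (nat_lit 0)) (P (nat_lit 16779312954192))))))) (T.h (P (nat_lit 0)) (T.h (T.h (P (nat_lit 0)) (T.h (M (nat_lit 214692018084393254911)) (T.h (P (nat_lit 0)) (M (nat_lit 47982439091855))))) (T.h (P (nat_lit 0)) (T.h (T.h (P (nat_lit 0)) (P (nat_lit 20145618234144))) (P (nat_lit 0))))))) (T.h (T.h (P (nat_lit 0)) (T.h (T.h (M (nat_lit 72413172943302078496767)) (T.h (P (nat_lit 0)) (M (nat_lit 40126139474247679)))) (T.h (P (nat_lit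 0)) (P (nat_lit 104001452826558464))))) (T.h (T.h (T.h (P (nat_lit 0)) (T.h (P (nat_lit 56006648096966574080)) (T.h (P (nat_lit 0)) (P (nat_lit 106333461033312))))) (T.h (P (nat_lit 0)) (T.h (T.h (P (nat_lit 0)) (P (nat_lit 4724950018272))) (P (nat_lit 0))))) (T.h (T.h (P (nat_lit 0)) (M (nat_lit 81311443225575423))) (T.h (T.h (T.h (P (nat_lit 0)) (P (nat_lit 2741942744016))) (P (nat_lit 0))) (P (nat_lit 0)))))))), (T.h (T.h (P (nat_lit 0)) (T.h (T.h (P (nat_lit 0)) (T.h (M (nat_lit 40456280365528153312985087)) (T.h (P (nat_lit 0)) (T.h (P (nat_lit 167404106989858455552)) (T.h (P (nat_lit 0)) (M (nat_lit 18638776481903))))))) (T.h (P (nat_lit 0)) (T.h (T.h (P (nat_lit 0)) (T.h (P (nat_lit 62616020965616779264)) (T.h (P (nat_lit 0)) (M (nat_lit 35467958383919))))) (T.h (P (nat_lit 0)) (T.h (T.h (P (nat_lit 0)) (P (nat_lit 45005981788656))) (P (nat_lit 0)))))))) (T.h (T.h (T.h (M (nat_lit 72685983661459251017040265215)) (T.h (P (nat_lit 0)) (T.h (P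 (nat_lit 83956052722079571640320)) (T.h (P (nat_lit 0)) (P (nat_lit 53580461240139776)))))) (T.h (P (nat_lit 0)) (T.h (T.h (M (nat_lit 33414274095559754121215)) (T.h (P (nat_lit 0)) (M (nat_lit 392751489005174783)))) (T.h (P (nat_lit 0)) (P (nat_lit 6109213496131584)))))) (T.h (T.h (P (nat_lit 0)) (T.h (T.h (P (nat_lit 0)) (T.h (P (nat_lit 369929869536337592320)) (T.h (P (nat_lit 0)) (P (nat_lit 3848439743712))))) (T.h (P (nat_lit 0)) (T.h (T.h (P (nat_lit 0)) (P (nat_lit 73574799128352))) (P (nat_lit 0)))))) (T.h (T.h (T.h (P (nat_lit 1559377016144609148928)) (T.h (P (nat_lit 0)) (P (nat_lit 30734799568240640)))) (T.h (P (nat_lit 0)) (M (nat_lit 67341317046075391)))) (T.h (T.h (P (nat_lit 0)) (T.h (T.h (P (nat_lit 0)) (M (nat_lit 36795851005967))) (P (nat_lit 0)))) (M (nat_lit 28653826021441535))))))), (T.h (T.h (P (nat_lit 0)) (T.h (T.h (M (nat_lit 11248579222122020348964634623)) (T.h (P (nat_lit 0)) (T.h (M (nat_lit 251163479293727797673983))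 (T.h (P (nat_lit 0)) (P (nat_lit 1355874914500608)))))) (T.h (P (nat_lit 0)) (T.h (T.h (M (nat_lit 47210703150660263608319)) (T.h (P (nat_lit 0)) (M (nat_lit 15489028619730943)))) (T.h (P (nat_lit 0)) (M (nat_lit 113838962049777663))))))) (T.h (T.h (T.h (P (nat_lit 0)) (T.h (P (nat_lit 33206684731157785694175232)) (T.h (P (nat_lit 0)) (P (nat_lit 274170867548684288))))) (T.h (P (nat_lit 0)) (T.h (T.h (P (nat_lit 0)) (P (nat_lit 352605878129642176512))) (P (nat_lit 0))))) (T.h (T.h (P (nat_lit 0)) (T.h (T.h (M (nat_lit 110268998513681254842367)) (T.h (P (nat_lit 0)) (M (nat_lit 22622444845334527)))) (T.h (P (nat_lit 0)) (M (nat_lit 83781578424385535))))) (T.h (T.h (T.h (P (nat_lit 0)) (M (nat_lit 13623357689722568703))) (P (nat_lit 0))) (T.h (T.h (P (nat_lit 0)) (M (nat_lit 25337783715266559))) (P (nat_lit 0))))))), (P (nat_lit 0)), (P (nat_lit 0))]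
def lP22_6 : List (T ℤ) := [(T.h (T.h (T.h (P (nat_lit 105277720930526967885496854773760)) (T.h (P (nat_lit 0)) (T.h (M (nat_lit 1622784108497740811468799)) (T.h (P (nat_lit 0)) (T.h (P (nat_lit 8780194688519897088)) (T.h (P (nat_lit 0)) (P (nat_lit 56203593949792)))))))) (T.h (P (nat_lit 0)) (T.h (T.h (M (nat_lit 9691530957154133055897599)) (T.h (P (nat_lit 0)) (T.h (M (nat_lit 5543786603966627839)) (T.h (P (nat_lit 0)) (M (nat_lit 104478078703183)))))) (T.h (P (nat_lit 0)) (T.h (T.h (P (nat_lit 1752219728941678592)) (T.h (P (nat_lit 0)) (P (nat_lit 20467126355184)))) (T.h (P (nat_lit 0)) (P (nat_lit 2914549128000)))))))) (T.h (T.h (P (nat_lit 0)) (T.h (T.h (P (nat_lit 0)) (T.h (P (nat_lit 20667592922045440065536)) (T.h (P (nat_lit 0)) (P (nat_lit 47636208037494784))))) (T.h (P (nat_lit 0)) (T.h (T.h (P (nat_lit 0)) (P (nat_lit 41585837830832128))) (P (nat_lit 0)))))) (T.h (T.h (T.h (M (nat_lit 1622784108497740811468799)) (T.h (P (nat_lit 0)) (T.h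 (M (nat_lit 172485376140564758527)) (T.h (P (nat_lit 0)) (M (nat_lit 373272336818415)))))) (T.h (P (nat_lit 0)) (T.h (T.h (M (nat_lit 5543786603966627839)) (T.h (P (nat_lit 0)) (P (nat_lit 5095877684832)))) (T.h (P (nat_lit 0)) (P (nat_lit 20467126355184)))))) (T.h (T.h (P (nat_lit 0)) (T.h (T.h (P (nat_lit 0)) (P (nat_lit 47636208037494784))) (P (nat_lit 0)))) (T.h (T.h (T.h (P (nat_lit 8780194688519897088)) (T.h (P (nat_lit 0)) (M (nat_lit 373272336818415)))) (T.h (P (nat_lit 0)) (M (nat_lit 104478078703183)))) (T.h (P (nat_lit 0)) (P (nat_lit 56203593949792)))))))), (T.h (T.h (T.h (P (nat_lit 0)) (T.h (M (nat_lit 3456173834636085084861497343)) (T.h (P (nat_lit 0)) (T.h (P (nat_lit 796842188950915252224)) (T.h (P (nat_lit 0)) (M (nat_lit 79130026373513215))))))) (T.h (P (nat_lit 0)) (T.h (T.h (P (nat_lit 0)) (T.h (M (nat_lit 8138862492074314301439)) (T.h (P (nat_lit 0)) (P (nat_lit 135300099771203584))))) (T.h (P (nat_lit 0)) (T.h (T.h (P (nat_lit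 0)) (M (nat_lit 5272400747659263))) (P (nat_lit 0))))))) (T.h (T.h (P (nat_lit 0)) (T.h (T.h (M (nat_lit 10655501998343211475533823)) (T.h (P (nat_lit 0)) (T.h (M (nat_lit 74645592273925963775)) (T.h (P (nat_lit 0)) (M (nat_lit 20837185961087)))))) (T.h (P (nat_lit 0)) (T.h (T.h (P (nat_lit 12914465284454088704)) (T.h (P (nat_lit 0)) (M (nat_lit 8955757893743)))) (T.h (P (nat_lit 0)) (P (nat_lit 8815688868816))))))) (T.h (T.h (T.h (P (nat_lit 0)) (T.h (P (nat_lit 79018735785822008639488)) (T.h (P (nat_lit 0)) (P (nat_lit 358151747026976768))))) (T.h (P (nat_lit 0)) (T.h (T.h (P (nat_lit 0)) (P (nat_lit 43116961213710336))) (P (nat_lit 0))))) (T.h (T.h (P (nat_lit 0)) (T.h (T.h (P (nat_lit 14014821978452525056)) (T.h (P (nat_lit 0)) (P (nat_lit 29719564744560)))) (T.h (P (nat_lit 0)) (P (nat_lit 22388334389568))))) (T.h (T.h (T.h (P (nat_lit 0)) (P (nat_lit 173742578925305856))) (P (nat_lit 0))) (T.h (T.h (P (nat_lit 0)) (M (nat_lit 11562789853775)))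 (P (nat_lit 0)))))))), (T.h (T.h (T.h (M (nat_lit 202020782321028235702046130438143)) (T.h (P (nat_lit 0)) (T.h (M (nat_lit 35815997065927715062808575)) (T.h (P (nat_lit 0)) (T.h (M (nat_lit 2673562259325714431)) (T.h (P (nat_lit 0)) (P (nat_lit 8713460479392)))))))) (T.h (P (nat_lit 0)) (T.h (T.h (P (nat_lit 23366883707900872915681280)) (T.h (P (nat_lit 0)) (T.h (P (nat_lit 15088578806786555904)) (T.h (P (nat_lit 0)) (P (nat_lit 134195146157664)))))) (T.h (P (nat_lit 0)) (T.h (T.h (M (nat_lit 7131341328276783103)) (T.h (P (nat_lit 0)) (M (nat_lit 77309147628143)))) (T.h (P (nat_lit 0)) (P (nat_lit 14645707618464)))))))) (T.h (T.h (P (nat_lit 0)) (T.h (T.h (P (nat_lit 0)) (T.h (P (nat_lit 9071748710483349209088)) (T.h (P (nat_lit 0)) (M (nat_lit 178490904560173055))))) (T.h (P (nat_lit 0)) (T.h (T.h (P (nat_lit 0)) (M (nat_lit 63102135297736703))) (P (nat_lit 0)))))) (T.h (T.h (T.h (M (nat_lit 42337534151861017088360447)) (T.h (P (nat_lit 0)) (T.h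 (P (nat_lit 132043227812096638976)) (T.h (P (nat_lit 0)) (P (nat_lit 499241730033216)))))) (T.h (P (nat_lit 0)) (T.h (T.h (P (nat_lit 34550124118083108864)) (T.h (P (nat_lit 0)) (P (nat_lit 14513604933888)))) (T.h (P (nat_lit 0)) (P (nat_lit 26406644853168)))))) (T.h (T.h (P (nat_lit 0)) (T.h (T.h (P (nat_lit 0)) (M (nat_lit 125759308696616959))) (P (nat_lit 0)))) (T.h (T.h (T.h (M (nat_lit 68615088356747902975)) (T.h (P (nat_lit 0)) (P (nat_lit 352154342018448)))) (T.h (P (nat_lit 0)) (P (nat_lit 133240626359424)))) (T.h (P (nat_lit 0)) (M (nat_lit 87410689135199)))))))), (T.h (T.h (T.h (P (nat_lit 0)) (T.h (M (nat_lit 485246316002040588049317887)) (T.h (P (nat_lit 0)) (T.h (M (nat_lit 47953310490409918529535)) (T.h (P (nat_lit 0)) (M (nat_lit 7655420903981055))))))) (T.h (P (nat_lit 0)) (T.h (T.h (P (nat_lit 0)) (T.h (M (nat_lit 116266967700160330596351)) (T.h (P (nat_lit 0)) (M (nat_lit 97934611223642111))))) (T.h (P (nat_lit 0)) (T.h (T.h (P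 (nat_lit 0)) (M (nat_lit 16022553870106623))) (P (nat_lit 0))))))) (T.h (T.h (P (nat_lit 0)) (T.h (T.h (P (nat_lit 28478335506665354741940224)) (T.h (P (nat_lit 0)) (P (nat_lit 379707384477398335488)))) (T.h (P (nat_lit 0)) (P (nat_lit 7399312085391245312))))) (T.h (T.h (T.h (P (nat_lit 0)) (T.h (M (nat_lit 156873228732256518930431)) (T.h (P (nat_lit 0)) (M (nat_lit 455296650780803071))))) (T.h (P (nat_lit 0)) (T.h (T.h (P (nat_lit 0)) (M (nat_lit 56832365739311103))) (P (nat_lit 0))))) (T.h (T.h (P (nat_lit 0)) (P (nat_lit 46219789068006326272))) (T.h (T.h (T.h (P (nat_lit 0)) (M (nat_lit 151896253560815615))) (P (nat_lit 0))) (P (nat_lit 0))))))), (P (nat_lit 0)), (P (nat_lit 0)), (T.h (T.h (P (nat_lit 0)) (T.h (T.h (M (nat_lit 1772719709271470377478914047)) (T.h (P (nat_lit 0)) (T.h (M (nat_lit 14350093689450101997567)) (T.h (P (nat_lit 0)) (P (nat_lit 28449082768031744)))))) (T.h (P (nat_lit 0)) (T.h (T.h (M (nat_lit 10151113502918493339647))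 (T.h (P (nat_lit 0)) (P (nat_lit 6165034883907584)))) (T.h (P (nat_lit 0)) (M (nat_lit 7951400904425471))))))) (T.h (T.h (T.h (P (nat_lit 0)) (T.h (M (nat_lit 6097722714123760383819775)) (T.h (P (nat_lit 0)) (T.h (P (nat_lit 27470699705940312064)) (T.h (P (nat_lit 0)) (P (nat_lit 11532992765952))))))) (T.h (P (nat_lit 0)) (T.h (T.h (P (nat_lit 0)) (T.h (P (nat_lit 12972542331520548864)) (T.h (P (nat_lit 0)) (M (nat_lit 32747249506607))))) (T.h (P (nat_lit 0)) (T.h (T.h (P (nat_lit 0)) (P (nat_lit 40018750807968))) (P (nat_lit 0))))))) (T.h (T.h (P (nat_lit 0)) (T.h (T.h (M (nat_lit 6654861781713964498943)) (T.h (P (nat_lit 0)) (M (nat_lit 5990814857822207)))) (T.h (P (nat_lit 0)) (M (nat_lit 5931687478722559))))) (T.h (T.h (T.h (P (nat_lit 0)) (T.h (P (nat_lit 10996160748979224576)) (T.h (P (nat_lit 0)) (P (nat_lit 60639230622912))))) (T.h (P (nat_lit 0)) (T.h (T.h (P (nat_lit 0)) (M (nat_lit 32747249506607))) (P (nat_lit 0))))) (T.h (T.h (P (nat_lit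 0)) (P (nat_lit 29605169527062528))) (T.h (T.h (T.h (P (nat_lit 0)) (P (nat_lit 11532992765952))) (P (nat_lit 0))) (P (nat_lit 0)))))))), (T.h (T.h (P (nat_lit 0)) (T.h (T.h (P (nat_lit 0)) (T.h (P (nat_lit 30576525179669562771111936)) (T.h (P (nat_lit 0)) (T.h (M (nat_lit 14785903864523522047)) (T.h (P (nat_lit 0)) (M (nat_lit 38574100311983))))))) (T.h (P (nat_lit 0)) (T.h (T.h (P (nat_lit 0)) (T.h (M (nat_lit 4299253708392235007)) (T.h (P (nat_lit 0)) (M (nat_lit 11727087712703))))) (T.h (P (nat_lit 0)) (T.h (T.h (P (nat_lit 0)) (P (nat_lit 8704128682512))) (P (nat_lit 0)))))))) (T.h (T.h (T.h (M (nat_lit 20545763807070606543294562303)) (T.h (P (nat_lit 0)) (T.h (P (nat_lit 18225494033046599368704)) (T.h (P (nat_lit 0)) (P (nat_lit 79124825958711296)))))) (T.h (P (nat_lit 0)) (T.h (T.h (P (nat_lit 12135496075166393303040)) (T.h (P (nat_lit 0)) (P (nat_lit 43606495874285568)))) (T.h (P (nat_lit 0)) (M (nat_lit 35881187698753535)))))) (T.h (T.h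 (P (nat_lit 0)) (T.h (T.h (P (nat_lit 0)) (T.h (M (nat_lit 60109996656355704831)) (T.h (P (nat_lit 0)) (P (nat_lit 22287634534368))))) (T.h (P (nat_lit 0)) (T.h (T.h (P (nat_lit 0)) (P (nat_lit 18560116891440))) (P (nat_lit 0)))))) (T.h (T.h (T.h (M (nat_lit 19160979863630824603647)) (T.h (P (nat_lit 0)) (P (nat_lit 54131820061376512)))) (T.h (P (nat_lit 0)) (P (nat_lit 52158500142071808)))) (T.h (T.h (P (nat_lit 0)) (T.h (T.h (P (nat_lit 0)) (M (nat_lit 53556555107663))) (P (nat_lit 0)))) (M (nat_lit 14971273895362559)))))))]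
def lP22_7 : List (T ℤ) := [(T.h (T.h (P (nat_lit 0)) (T.h (T.h (M (nat_lit 5287393795622230931927990271)) (T.h (P (nat_lit 0)) (T.h (M (nat_lit 37042947306702845771775)) (T.h (P (nat_lit 0)) (M (nat_lit 17184947940786175)))))) (T.h (P (nat_lit 0)) (T.h (T.h (M (nat_lit 10997930159462676430847)) (T.h (P (nat_lit 0)) (P (nat_lit 78374196030734336)))) (T.h (P (nat_lit 0)) (M (nat_lit 21976945639718911))))))) (T.h (T.h (T.h (P (nat_lit 0)) (T.h (M (nat_lit 7968129611153399804329983)) (T.h (P (nat_lit 0)) (M (nat_lit 28918869486353776639))))) (T.h (P (nat_lit 0)) (T.h (T.h (P (nat_lit 0)) (P (nat_lit 28063542199158046720))) (P (nat_lit 0))))) (T.h (T.h (P (nat_lit 0)) (T.h (T.h (M (nat_lit 11470395129475534684159)) (T.h (P (nat_lit 0)) (M (nat_lit 21820328043151359)))) (T.h (P (nat_lit 0)) (M (nat_lit 28259372670091263))))) (T.h (T.h (T.h (P (nat_lit 0)) (M (nat_lit 34246235936746635263))) (P (nat_lit 0))) (T.h (T.h (P (nat_lit 0)) (M (nat_lit 48452197856411647)))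 (P (nat_lit 0))))))), (P (nat_lit 0)), (P (nat_lit 0)), (T.h (T.h (T.h (M (nat_lit 99909648655724536380581048483839)) (T.h (P (nat_lit 0)) (T.h (P (nat_lit 1537303026863677219274752)) (T.h (P (nat_lit 0)) (T.h (M (nat_lit 7478722740816445439)) (T.h (P (nat_lit 0)) (M (nat_lit 56803544022671)))))))) (T.h (P (nat_lit 0)) (T.h (T.h (P (nat_lit 10438904556057964207669248)) (T.h (P (nat_lit 0)) (T.h (P (nat_lit 3858024237247758336)) (T.h (P (nat_lit 0)) (P (nat_lit 101867935691088)))))) (T.h (P (nat_lit 0)) (T.h (T.h (M (nat_lit 3079660293249302527)) (T.h (P (nat_lit 0)) (M (nat_lit 20140321589711)))) (T.h (P (nat_lit 0)) (M (nat_lit 1776113164223)))))))) (T.h (T.h (P (nat_lit 0)) (T.h (T.h (P (nat_lit 0)) (T.h (M (nat_lit 24792577964494502756351)) (T.h (P (nat_lit 0)) (M (nat_lit 41970387647889407))))) (T.h (P (nat_lit 0)) (T.h (T.h (P (nat_lit 0)) (M (nat_lit 38777993416015871))) (P (nat_lit 0)))))) (T.h (T.h (T.h (P (nat_lit 1537303026863677219274752))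 (T.h (P (nat_lit 0)) (T.h (P (nat_lit 170199004916551254016)) (T.h (P (nat_lit 0)) (P (nat_lit 372699232900704)))))) (T.h (P (nat_lit 0)) (T.h (T.h (P (nat_lit 3858024237247758336)) (T.h (P (nat_lit 0)) (P (nat_lit 911442555360)))) (T.h (P (nat_lit 0)) (M (nat_lit 20140321589711)))))) (T.h (T.h (P (nat_lit 0)) (T.h (T.h (P (nat_lit 0)) (M (nat_lit 41970387647889407))) (P (nat_lit 0)))) (T.h (T.h (T.h (M (nat_lit 7478722740816445439)) (T.h (P (nat_lit 0)) (P (nat_lit 372699232900704)))) (T.h (P (nat_lit 0)) (P (nat_lit 101867935691088)))) (T.h (P (nat_lit 0)) (M (nat_lit 56803544022671)))))))), (T.h (T.h (T.h (P (nat_lit 0)) (T.h (P (nat_lit 2431989740396183413638299648)) (T.h (P (nat_lit 0)) (T.h (P (nat_lit 13155666161854431887360)) (T.h (P (nat_lit 0)) (P (nat_lit 86333522932170752))))))) (T.h (P (nat_lit 0)) (T.h (T.h (P (nat_lit 0)) (T.h (M (nat_lit 2389731705158014861311)) (T.h (P (nat_lit 0)) (M (nat_lit 84716766919393279))))) (T.h (P (nat_lit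 0)) (T.h (T.h (P (nat_lit 0)) (M (nat_lit 737280053051391))) (P (nat_lit 0))))))) (T.h (T.h (P (nat_lit 0)) (T.h (T.h (P (nat_lit 2731529024111075150266368)) (T.h (P (nat_lit 0)) (P (nat_lit 43502318328160976896)))) (T.h (P (nat_lit 0)) (P (nat_lit 2922520119437426688))))) (T.h (T.h (T.h (P (nat_lit 0)) (T.h (M (nat_lit 67764700985457142398975)) (T.h (P (nat_lit 0)) (M (nat_lit 344310799049883647))))) (T.h (P (nat_lit 0)) (T.h (T.h (P (nat_lit 0)) (M (nat_lit 13085180765306879))) (P (nat_lit 0))))) (T.h (T.h (P (nat_lit 0)) (M (nat_lit 14446821862908362751))) (T.h (T.h (T.h (P (nat_lit 0)) (M (nat_lit 157432470344531967))) (P (nat_lit 0))) (P (nat_lit 0))))))), (P (nat_lit 0)), (P (nat_lit 0)), (T.h (T.h (P (nat_lit 0)) (T.h (T.h (M (nat_lit 5327367447308101761250623487)) (T.h (P (nat_lit 0)) (T.h (M (nat_lit 10353613219124626849791)) (T.h (P (nat_lit 0)) (M (nat_lit 46361229398966271)))))) (T.h (P (nat_lit 0)) (T.h (T.h (P (nat_lit 11388161166645179449344))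 (T.h (P (nat_lit 0)) (P (nat_lit 18332168273657856)))) (T.h (P (nat_lit 0)) (P (nat_lit 2424986506887168))))))) (T.h (T.h (T.h (P (nat_lit 0)) (T.h (P (nat_lit 5308504745692747890950144)) (T.h (P (nat_lit 0)) (P (nat_lit 14637703011229499392))))) (T.h (P (nat_lit 0)) (T.h (T.h (P (nat_lit 0)) (M (nat_lit 10827735736636145663))) (P (nat_lit 0))))) (T.h (T.h (P (nat_lit 0)) (T.h (T.h (M (nat_lit 10353613219124626849791)) (T.h (P (nat_lit 0)) (M (nat_lit 414807634083839)))) (T.h (P (nat_lit 0)) (P (nat_lit 18332168273657856))))) (T.h (T.h (T.h (P (nat_lit 0)) (P (nat_lit 14637703011229499392))) (P (nat_lit 0))) (T.h (T.h (P (nat_lit 0)) (M (nat_lit 46361229398966271))) (P (nat_lit 0)))))))]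
def lP22_8 : List (T ℤ) := [(P (nat_lit 0)), (P (nat_lit 0)), (P (nat_lit 0)), (P (nat_lit 0)), (P (nat_lit 0)), (T.h (T.h (P (nat_lit 0)) (T.h (T.h (P (nat_lit 0)) (T.h (P (nat_lit 4343446238316046827126784)) (T.h (P (nat_lit 0)) (T.h (P (nat_lit 18860231165074210816)) (T.h (P (nat_lit 0)) (M (nat_lit 5980972211343))))))) (T.h (P (nat_lit 0)) (T.h (T.h (P (nat_lit 0)) (T.h (M (nat_lit 13799370759702839295)) (T.h (P (nat_lit 0)) (M (nat_lit 20904433505623))))) (T.h (P (nat_lit 0)) (T.h (T.h (P (nat_lit 0)) (P (nat_lit 6158209502384))) (P (nat_lit 0)))))))) (T.h (T.h (T.h (M (nat_lit 1019329464602023528524414975)) (T.h (P (nat_lit 0)) (T.h (P (nat_lit 28409884788917750726656)) (T.h (P (nat_lit 0)) (P (nat_lit 41846141237264384)))))) (T.h (P (nat_lit 0)) (T.h (T.h (P (nat_lit 24459377428626334023680)) (T.h (P (nat_lit 0)) (M (nat_lit 50291674965082111)))) (T.h (P (nat_lit 0)) (P (nat_lit 9790621656383488)))))) (T.h (T.h (P (nat_lit 0)) (T.h (T.h (P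 (nat_lit 0)) (T.h (P (nat_lit 27869085850803372032)) (T.h (P (nat_lit 0)) (M (nat_lit 11775571218751))))) (T.h (P (nat_lit 0)) (T.h (T.h (P (nat_lit 0)) (M (nat_lit 47471891302503))) (P (nat_lit 0)))))) (T.h (T.h (T.h (M (nat_lit 26089571169843059621887)) (T.h (P (nat_lit 0)) (M (nat_lit 57308400462299135)))) (T.h (P (nat_lit 0)) (M (nat_lit 48508369019109375)))) (T.h (T.h (P (nat_lit 0)) (T.h (T.h (P (nat_lit 0)) (P (nat_lit 24050724205112))) (P (nat_lit 0)))) (M (nat_lit 6792647816151039))))))), (T.h (T.h (P (nat_lit 0)) (T.h (T.h (P (nat_lit 20984392715099619162048167936)) (T.h (P (nat_lit 0)) (T.h (M (nat_lit 8223931429363535314943)) (T.h (P (nat_lit 0)) (P (nat_lit 26419758957936640)))))) (T.h (P (nat_lit 0)) (T.h (T.h (P (nat_lit 19697029159794532941824)) (T.h (P (nat_lit 0)) (M (nat_lit 46708690346541055)))) (T.h (P (nat_lit 0)) (P (nat_lit 15994898100060160))))))) (T.h (T.h (T.h (P (nat_lit 0)) (T.h (M (nat_lit 23016326667677892480073727))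 (T.h (P (nat_lit 0)) (T.h (M (nat_lit 4386139381002403839)) (T.h (P (nat_lit 0)) (M (nat_lit 14450944174591))))))) (T.h (P (nat_lit 0)) (T.h (T.h (P (nat_lit 0)) (T.h (P (nat_lit 29677769012967112704)) (T.h (P (nat_lit 0)) (M (nat_lit 4144068559599))))) (T.h (P (nat_lit 0)) (T.h (T.h (P (nat_lit 0)) (P (nat_lit 50708355223312))) (P (nat_lit 0))))))) (T.h (T.h (P (nat_lit 0)) (T.h (T.h (M (nat_lit 17505257867323948138495)) (T.h (P (nat_lit 0)) (M (nat_lit 738227850690559)))) (T.h (P (nat_lit 0)) (M (nat_lit 33918669731856383))))) (T.h (T.h (T.h (P (nat_lit 0)) (T.h (P (nat_lit 3997095405463535616)) (T.h (P (nat_lit 0)) (P (nat_lit 6020971354256))))) (T.h (P (nat_lit 0)) (T.h (T.h (P (nat_lit 0)) (P (nat_lit 1500860940832))) (P (nat_lit 0))))) (T.h (T.h (P (nat_lit 0)) (M (nat_lit 93291811182837759))) (T.h (T.h (T.h (P (nat_lit 0)) (P (nat_lit 40339979884256))) (P (nat_lit 0))) (P (nat_lit 0)))))))), (T.h (T.h (P (nat_lit 0)) (T.h (T.h (P (nat_lit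 0)) (T.h (M (nat_lit 5697481985329626773192703)) (T.h (P (nat_lit 0)) (T.h (M (nat_lit 32832337339857502207)) (T.h (P (nat_lit 0)) (P (nat_lit 8815688868816))))))) (T.h (P (nat_lit 0)) (T.h (T.h (P (nat_lit 0)) (T.h (P (nat_lit 5846604613603557376)) (T.h (P (nat_lit 0)) (P (nat_lit 22388334389568))))) (T.h (P (nat_lit 0)) (T.h (T.h (P (nat_lit 0)) (M (nat_lit 11562789853775))) (P (nat_lit 0)))))))) (T.h (T.h (T.h (P (nat_lit 393612880355767449343229952)) (T.h (P (nat_lit 0)) (T.h (M (nat_lit 33555511882046685315071)) (T.h (P (nat_lit 0)) (M (nat_lit 22492782030323711)))))) (T.h (P (nat_lit 0)) (T.h (T.h (P (nat_lit 46372124084709401559040)) (T.h (P (nat_lit 0)) (P (nat_lit 59963242679304192)))) (T.h (P (nat_lit 0)) (P (nat_lit 140257529750159360)))))) (T.h (T.h (P (nat_lit 0)) (T.h (T.h (P (nat_lit 0)) (T.h (M (nat_lit 64339317300710604799)) (T.h (P (nat_lit 0)) (M (nat_lit 8955757893743))))) (T.h (P (nat_lit 0)) (T.h (T.h (P (nat_lit 0)) (P (nat_lit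 29719564744560))) (P (nat_lit 0)))))) (T.h (T.h (T.h (P (nat_lit 15408104815434917740544)) (T.h (P (nat_lit 0)) (P (nat_lit 134391637320007680)))) (T.h (P (nat_lit 0)) (P (nat_lit 401020424622800896)))) (T.h (T.h (P (nat_lit 0)) (T.h (T.h (P (nat_lit 0)) (M (nat_lit 20837185961087))) (P (nat_lit 0)))) (M (nat_lit 80612478460854271)))))))]
def lP22_9 : List (T ℤ) := [(T.h (T.h (P (nat_lit 0)) (T.h (T.h (M (nat_lit 20545763807070606543294562303)) (T.h (P (nat_lit 0)) (T.h (P (nat_lit 12135496075166393303040)) (T.h (P (nat_lit 0)) (M (nat_lit 35881187698753535)))))) (T.h (P (nat_lit 0)) (T.h (T.h (M (nat_lit 19160979863630824603647)) (T.h (P (nat_lit 0)) (P (nat_lit 52158500142071808)))) (T.h (P (nat_lit 0)) (M (nat_lit 14971273895362559))))))) (T.h (T.h (T.h (P (nat_lit 0)) (T.h (P (nat_lit 30576525179669562771111936)) (T.h (P (nat_lit 0)) (T.h (M (nat_lit 4299253708392235007)) (T.h (P (nat_lit 0)) (P (nat_lit 8704128682512))))))) (T.h (P (nat_lit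 0)) (T.h (T.h (P (nat_lit 0)) (T.h (M (nat_lit 60109996656355704831)) (T.h (P (nat_lit 0)) (P (nat_lit 18560116891440))))) (T.h (P (nat_lit 0)) (T.h (T.h (P (nat_lit 0)) (M (nat_lit 53556555107663))) (P (nat_lit 0))))))) (T.h (T.h (P (nat_lit 0)) (T.h (T.h (P (nat_lit 18225494033046599368704)) (T.h (P (nat_lit 0)) (P (nat_lit 43606495874285568)))) (T.h (P (nat_lit 0)) (P (nat_lit 54131820061376512))))) (T.h (T.h (T.h (P (nat_lit 0)) (T.h (M (nat_lit 14785903864523522047)) (T.h (P (nat_lit 0)) (M (nat_lit 11727087712703))))) (T.h (P (nat_lit 0)) (T.h (T.h (P (nat_lit 0)) (P (nat_lit 22287634534368))) (P (nat_lit 0))))) (T.h (T.h (P (nat_lit 0)) (P (nat_lit 79124825958711296))) (T.h (T.h (T.h (P (nat_lit 0)) (M (nat_lit 38574100311983))) (P (nat_lit 0))) (P (nat_lit 0)))))))), (T.h (T.h (P (nat_lit 0)) (T.h (T.h (P (nat_lit 0)) (T.h (P (nat_lit 2731529024111075150266368)) (T.h (P (nat_lit 0)) (P (nat_lit 2922520119437426688))))) (T.h (P (nat_lit 0))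 (T.h (T.h (P (nat_lit 0)) (M (nat_lit 14446821862908362751))) (P (nat_lit 0)))))) (T.h (T.h (T.h (P (nat_lit 2431989740396183413638299648)) (T.h (P (nat_lit 0)) (T.h (M (nat_lit 2389731705158014861311)) (T.h (P (nat_lit 0)) (M (nat_lit 737280053051391)))))) (T.h (P (nat_lit 0)) (T.h (T.h (M (nat_lit 67764700985457142398975)) (T.h (P (nat_lit 0)) (M (nat_lit 13085180765306879)))) (T.h (P (nat_lit 0)) (M (nat_lit 157432470344531967)))))) (T.h (T.h (P (nat_lit 0)) (T.h (T.h (P (nat_lit 0)) (P (nat_lit 43502318328160976896))) (P (nat_lit 0)))) (T.h (T.h (T.h (P (nat_lit 13155666161854431887360)) (T.h (P (nat_lit 0)) (M (nat_lit 84716766919393279)))) (T.h (P (nat_lit 0)) (M (nat_lit 344310799049883647)))) (T.h (P (nat_lit 0)) (P (nat_lit 86333522932170752))))))), (P (nat_lit 0)), (P (nat_lit 0)), (T.h (T.h (T.h (P (nat_lit 0)) (T.h (P (nat_lit 0)) (T.h (M (nat_lit 13494300823078543525150719)) (T.h (P (nat_lit 0)) (T.h (P (nat_lit 17440683627481399296))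 (T.h (P (nat_lit 0)) (M (nat_lit 988191876863)))))))) (T.h (P (nat_lit 0)) (T.h (T.h (P (nat_lit 52258675845412972629327872)) (T.h (P (nat_lit 0)) (T.h (P (nat_lit 86667801961716252672)) (T.h (P (nat_lit 0)) (M (nat_lit 6655236442255)))))) (T.h (P (nat_lit 0)) (T.h (T.h (M (nat_lit 58351935496879341567)) (T.h (P (nat_lit 0)) (M (nat_lit 54719293742751)))) (T.h (P (nat_lit 0)) (M (nat_lit 9288634688367)))))))) (T.h (T.h (P (nat_lit 0)) (T.h (T.h (P (nat_lit 0)) (T.h (M (nat_lit 54076812567600110239743)) (T.h (P (nat_lit 0)) (M (nat_lit 57464550673154047))))) (T.h (P (nat_lit 0)) (T.h (T.h (P (nat_lit 0)) (M (nat_lit 5006680669683711))) (P (nat_lit 0)))))) (T.h (T.h (T.h (M (nat_lit 1609132170181007252652031)) (T.h (P (nat_lit 0)) (T.h (P (nat_lit 70884643624693268480)) (T.h (P (nat_lit 0)) (M (nat_lit 71297188238751)))))) (T.h (P (nat_lit 0)) (T.h (T.h (P (nat_lit 17689493109089501184)) (T.h (P (nat_lit 0)) (M (nat_lit 10519831128239)))) (T.h (P (nat_lit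 0)) (P (nat_lit 26623092074928)))))) (T.h (T.h (P (nat_lit 0)) (T.h (T.h (P (nat_lit 0)) (M (nat_lit 48449353735602175))) (P (nat_lit 0)))) (T.h (T.h (T.h (M (nat_lit 26733516278749724671)) (T.h (P (nat_lit 0)) (P (nat_lit 26438549606928)))) (T.h (P (nat_lit 0)) (P (nat_lit 18976513485680)))) (T.h (P (nat_lit 0)) (M (nat_lit 7874904922431)))))))), (T.h (T.h (T.h (P (nat_lit 0)) (T.h (P (nat_lit 1980409599325634221637107712)) (T.h (P (nat_lit 0)) (T.h (M (nat_lit 15055359175053937737727)) (T.h (P (nat_lit 0)) (P (nat_lit 3262392835637248))))))) (T.h (P (nat_lit 0)) (T.h (T.h (P (nat_lit 0)) (T.h (M (nat_lit 3622323455901260840959)) (T.h (P (nat_lit 0)) (M (nat_lit 38455619674882047))))) (T.h (P (nat_lit 0)) (T.h (T.h (P (nat_lit 0)) (M (nat_lit 32889710490746879))) (P (nat_lit 0))))))) (T.h (T.h (P (nat_lit 0)) (T.h (T.h (M (nat_lit 17906321837193087961530367)) (T.h (P (nat_lit 0)) (T.h (M (nat_lit 4387270251864129535)) (T.h (P (nat_lit 0)) (P (nat_lit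 3163502112640)))))) (T.h (P (nat_lit 0)) (T.h (T.h (M (nat_lit 28621299218955370495)) (T.h (P (nat_lit 0)) (P (nat_lit 7964610238816)))) (T.h (P (nat_lit 0)) (M (nat_lit 57105588554927))))))) (T.h (T.h (T.h (P (nat_lit 0)) (T.h (M (nat_lit 3622323455901260840959)) (T.h (P (nat_lit 0)) (M (nat_lit 38455619674882047))))) (T.h (P (nat_lit 0)) (T.h (T.h (P (nat_lit 0)) (P (nat_lit 53787962859716608))) (P (nat_lit 0))))) (T.h (T.h (P (nat_lit 0)) (T.h (T.h (M (nat_lit 28621299218955370495)) (T.h (P (nat_lit 0)) (P (nat_lit 7964610238816)))) (T.h (P (nat_lit 0)) (M (nat_lit 33666772764575))))) (T.h (T.h (T.h (P (nat_lit 0)) (M (nat_lit 32889710490746879))) (P (nat_lit 0))) (T.h (T.h (P (nat_lit 0)) (M (nat_lit 57105588554927))) (P (nat_lit 0)))))))), (T.h (T.h (T.h (M (nat_lit 13243727574427061321021679206399)) (T.h (P (nat_lit 0)) (T.h (P (nat_lit 16578664229391570990792704)) (T.h (P (nat_lit 0)) (T.h (P (nat_lit 17552020871231569920)) (T.h (P (nat_lit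 0)) (P (nat_lit 954741325344)))))))) (T.h (P (nat_lit 0)) (T.h (T.h (M (nat_lit 48396470324636890293075967)) (T.h (P (nat_lit 0)) (T.h (M (nat_lit 80909574209947041791)) (T.h (P (nat_lit 0)) (P (nat_lit 45145893431616)))))) (T.h (P (nat_lit 0)) (T.h (T.h (P (nat_lit 52169738701368197120)) (T.h (P (nat_lit 0)) (P (nat_lit 17775325846896)))) (T.h (P (nat_lit 0)) (P (nat_lit 8789193732672)))))))) (T.h (T.h (P (nat_lit 0)) (T.h (T.h (P (nat_lit 0)) (T.h (M (nat_lit 67881393036871090569215)) (T.h (P (nat_lit 0)) (P (nat_lit 158261587630096384))))) (T.h (P (nat_lit 0)) (T.h (T.h (P (nat_lit 0)) (P (nat_lit 13062960469180416))) (P (nat_lit 0)))))) (T.h (T.h (T.h (M (nat_lit 458093224261596672425983)) (T.h (P (nat_lit 0)) (T.h (P (nat_lit 52526158785474985984)) (T.h (P (nat_lit 0)) (P (nat_lit 45145893431616)))))) (T.h (P (nat_lit 0)) (T.h (T.h (P (nat_lit 168408438911197511680)) (T.h (P (nat_lit 0)) (P (nat_lit 12074435503008)))) (T.h (P (nat_lit 0)) (M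 (nat_lit 21055996758767)))))) (T.h (T.h (P (nat_lit 0)) (T.h (T.h (P (nat_lit 0)) (M (nat_lit 88034040569724927))) (P (nat_lit 0)))) (T.h (T.h (T.h (P (nat_lit 43578386568565489664)) (T.h (P (nat_lit 0)) (P (nat_lit 17775325846896)))) (T.h (P (nat_lit 0)) (M (nat_lit 21055996758767)))) (T.h (P (nat_lit 0)) (P (nat_lit 8789193732672)))))))), (T.h (T.h (T.h (P (nat_lit 0)) (T.h (M (nat_lit 15405244956953180929827799039)) (T.h (P (nat_lit 0)) (T.h (P (nat_lit 34299267896437284798464)) (T.h (P (nat_lit 0)) (P (nat_lit 25436756187906048))))))) (T.h (P (nat_lit 0)) (T.h (T.h (P (nat_lit 0)) (T.h (P (nat_lit 58377955448778397843456)) (T.h (P (nat_lit 0)) (M (nat_lit 50331468078694399))))) (T.h (P (nat_lit 0)) (T.h (T.h (P (nat_lit 0)) (P (nat_lit 25069513072984064))) (P (nat_lit 0))))))) (T.h (T.h (P (nat_lit 0)) (T.h (T.h (P (nat_lit 26414870613408005553651712)) (T.h (P (nat_lit 0)) (T.h (M (nat_lit 319395816159282462719)) (T.h (P (nat_lit 0)) (P (nat_lit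 93337690111776)))))) (T.h (P (nat_lit 0)) (T.h (T.h (P (nat_lit 17283595094275915776)) (T.h (P (nat_lit 0)) (M (nat_lit 38582463213215)))) (T.h (P (nat_lit 0)) (P (nat_lit 68505149127168))))))) (T.h (T.h (T.h (P (nat_lit 0)) (T.h (P (nat_lit 58377955448778397843456)) (T.h (P (nat_lit 0)) (M (nat_lit 50331468078694399))))) (T.h (P (nat_lit 0)) (T.h (T.h (P (nat_lit 0)) (M (nat_lit 20279104758906879))) (P (nat_lit 0))))) (T.h (T.h (P (nat_lit 0)) (T.h (T.h (P (nat_lit 17283595094275915776)) (T.h (P (nat_lit 0)) (M (nat_lit 38582463213215)))) (T.h (P (nat_lit 0)) (P (nat_lit 31906044562176))))) (T.h (T.h (T.h (P (nat_lit 0)) (P (nat_lit 25069513072984064))) (P (nat_lit 0))) (T.h (T.h (P (nat_lit 0)) (P (nat_lit 68505149127168))) (P (nat_lit 0))))))))]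
def lP22_10 : List (T ℤ) := [(T.h (T.h (T.h (P (nat_lit 12287190180425606716005116018688)) (T.h (P (nat_lit 0)) (T.h (M (nat_lit 3836605376147847800422399)) (T.h (P (nat_lit 0)) (M (nat_lit 34747549758858985471)))))) (T.h (P (nat_lit 0)) (T.h (T.h (M (nat_lit 822633096902632366145535)) (T.h (P (nat_lit 0)) (M (nat_lit 65115326894967881727)))) (T.h (P (nat_lit 0)) (M (nat_lit 6177230466576285695)))))) (T.h (T.h (P (nat_lit 0)) (T.h (T.h (P (nat_lit 0)) (T.h (P (nat_lit 126306685842223500623872)) (T.h (P (nat_lit 0)) (M (nat_lit 101851870552260607))))) (T.h (P (nat_lit 0)) (T.h (T.h (P (nat_lit 0)) (P (nat_lit 56164324190060544))) (P (nat_lit 0)))))) (T.h (T.h (T.h (M (nat_lit 822633096902632366145535)) (T.h (P (nat_lit 0)) (M (nat_lit 65115326894967881727)))) (T.h (P (nat_lit 0)) (M (nat_lit 183649484888055218175)))) (T.h (T.h (P (nat_lit 0)) (T.h (T.h (P (nat_lit 0)) (P (nat_lit 56164324190060544))) (P (nat_lit 0)))) (M (nat_lit 6177230466576285695)))))),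 (P (nat_lit 0)), (P (nat_lit 0)), (T.h (T.h (P (nat_lit 0)) (T.h (T.h (P (nat_lit 0)) (T.h (P (nat_lit 49272808432764750105935872)) (T.h (P (nat_lit 0)) (T.h (P (nat_lit 26070603246705049600)) (T.h (P (nat_lit 0)) (M (nat_lit 60155240630727))))))) (T.h (P (nat_lit 0)) (T.h (T.h (P (nat_lit 0)) (T.h (P (nat_lit 2582384139558715392)) (T.h (P (nat_lit 0)) (M (nat_lit 99518722208543))))) (T.h (P (nat_lit 0)) (T.h (T.h (P (nat_lit 0)) (M (nat_lit 41936298832791))) (P (nat_lit 0)))))))) (T.h (T.h (T.h (P (nat_lit 7067883162817083330290253824)) (T.h (P (nat_lit 0)) (T.h (M (nat_lit 59944548680957257842687)) (T.h (P (nat_lit 0)) (P (nat_lit 33043563204902912)))))) (T.h (P (nat_lit 0)) (T.h (T.h (M (nat_lit 91738289786465600667647)) (T.h (P (nat_lit 0)) (P (nat_lit 78475825977229312)))) (T.h (P (nat_lit 0)) (M (nat_lit 6688657935761407)))))) (T.h (T.h (P (nat_lit 0)) (T.h (T.h (P (nat_lit 0)) (T.h (M (nat_lit 23196300775184662527)) (T.h (P (nat_lit 0)) (P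 (nat_lit 136896221337896))))) (T.h (P (nat_lit 0)) (T.h (T.h (P (nat_lit 0)) (P (nat_lit 54142757789336))) (P (nat_lit 0)))))) (T.h (T.h (T.h (P (nat_lit 34241053326966138077184)) (T.h (P (nat_lit 0)) (M (nat_lit 14972462036058111)))) (T.h (P (nat_lit 0)) (M (nat_lit 87688970408525823)))) (T.h (T.h (P (nat_lit 0)) (T.h (T.h (P (nat_lit 0)) (P (nat_lit 10409735701408))) (P (nat_lit 0)))) (M (nat_lit 6241919175884799))))))), (T.h (T.h (P (nat_lit 0)) (T.h (T.h (M (nat_lit 17659951530170901767705853951)) (T.h (P (nat_lit 0)) (T.h (P (nat_lit 58650704618747651424256)) (T.h (P (nat_lit 0)) (P (nat_lit 71761040527261696)))))) (T.h (P (nat_lit 0)) (T.h (T.h (P (nat_lit 5564071054108727967744)) (T.h (P (nat_lit 0)) (P (nat_lit 34555186056429568)))) (T.h (P (nat_lit 0)) (P (nat_lit 11843724323946496))))))) (T.h (T.h (T.h (P (nat_lit 0)) (T.h (M (nat_lit 29958964082896697032703999)) (T.h (P (nat_lit 0)) (T.h (P (nat_lit 16255017564403400704)) (T.h (P (nat_lit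 0)) (M (nat_lit 35685065481487))))))) (T.h (P (nat_lit 0)) (T.h (T.h (P (nat_lit 0)) (T.h (M (nat_lit 110232834500051599359)) (T.h (P (nat_lit 0)) (M (nat_lit 1228216181215))))) (T.h (P (nat_lit 0)) (T.h (T.h (P (nat_lit 0)) (M (nat_lit 6049335980319))) (P (nat_lit 0))))))) (T.h (T.h (P (nat_lit 0)) (T.h (T.h (P (nat_lit 62838136550265211322368)) (T.h (P (nat_lit 0)) (M (nat_lit 116121369701367807)))) (T.h (P (nat_lit 0)) (P (nat_lit 17784403227607040))))) (T.h (T.h (T.h (P (nat_lit 0)) (T.h (M (nat_lit 38902030640963649535)) (T.h (P (nat_lit 0)) (M (nat_lit 13381475394175))))) (T.h (P (nat_lit 0)) (T.h (T.h (P (nat_lit 0)) (P (nat_lit 31589154588192))) (P (nat_lit 0))))) (T.h (T.h (P (nat_lit 0)) (P (nat_lit 35350754512633856))) (T.h (T.h (T.h (P (nat_lit 0)) (P (nat_lit 15958812818176))) (P (nat_lit 0))) (P (nat_lit 0)))))))), (T.h (T.h (P (nat_lit 0)) (T.h (T.h (P (nat_lit 0)) (T.h (M (nat_lit 53592014455914041329057791)) (T.h (P (nat_lit 0))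 (T.h (P (nat_lit 72060471283495731200)) (T.h (P (nat_lit 0)) (P (nat_lit 60196247186208))))))) (T.h (P (nat_lit 0)) (T.h (T.h (P (nat_lit 0)) (T.h (M (nat_lit 175397533885151576063)) (T.h (P (nat_lit 0)) (P (nat_lit 39743026870800))))) (T.h (P (nat_lit 0)) (T.h (T.h (P (nat_lit 0)) (M (nat_lit 1438918448639))) (P (nat_lit 0)))))))) (T.h (T.h (T.h (P (nat_lit 5611523352745672723763560448)) (T.h (P (nat_lit 0)) (T.h (P (nat_lit 14764572830191832793088)) (T.h (P (nat_lit 0)) (P (nat_lit 91456337990483968)))))) (T.h (P (nat_lit 0)) (T.h (T.h (P (nat_lit 58989293015579108573184)) (T.h (P (nat_lit 0)) (M (nat_lit 73423234274689023)))) (T.h (P (nat_lit 0)) (P (nat_lit 115278733525024768)))))) (T.h (T.h (P (nat_lit 0)) (T.h (T.h (P (nat_lit 0)) (T.h (P (nat_lit 178828070972899196928)) (T.h (P (nat_lit 0)) (M (nat_lit 95885928699887))))) (T.h (P (nat_lit 0)) (T.h (T.h (P (nat_lit 0)) (P (nat_lit 18532277689920))) (P (nat_lit 0)))))) (T.h (T.h (T.h (M (nat_lit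 130208512336740007018495)) (T.h (P (nat_lit 0)) (M (nat_lit 115038415315042303)))) (T.h (P (nat_lit 0)) (M (nat_lit 1666114179006463)))) (T.h (T.h (P (nat_lit 0)) (T.h (T.h (P (nat_lit 0)) (M (nat_lit 858351454991))) (P (nat_lit 0)))) (M (nat_lit 32489238541598719))))))), (T.h (T.h (P (nat_lit 0)) (T.h (T.h (M (nat_lit 3204733460397538933508931583)) (T.h (P (nat_lit 0)) (T.h (P (nat_lit 189533633965619006144512)) (T.h (P (nat_lit 0)) (M (nat_lit 159947440549658623)))))) (T.h (P (nat_lit 0)) (T.h (T.h (M (nat_lit 69418260137388823019519)) (T.h (P (nat_lit 0)) (P (nat_lit 58042506824548352)))) (T.h (P (nat_lit 0)) (M (nat_lit 69814345750593535))))))) (T.h (T.h (T.h (P (nat_lit 0)) (T.h (P (nat_lit 10272478443104322537390080)) (T.h (P (nat_lit 0)) (T.h (P (nat_lit 92046784355859693568)) (T.h (P (nat_lit 0)) (P (nat_lit 32752559787552))))))) (T.h (P (nat_lit 0)) (T.h (T.h (P (nat_lit 0)) (T.h (M (nat_lit 25283953647354380287)) (T.h (P (nat_lit 0)) (M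 (nat_lit 3247963595855))))) (T.h (P (nat_lit 0)) (T.h (T.h (P (nat_lit 0)) (M (nat_lit 139411251903167))) (P (nat_lit 0))))))) (T.h (T.h (P (nat_lit 0)) (T.h (T.h (M (nat_lit 58299763117793543716863)) (T.h (P (nat_lit 0)) (P (nat_lit 196731980638601216)))) (T.h (P (nat_lit 0)) (M (nat_lit 33821400822153215))))) (T.h (T.h (T.h (P (nat_lit 0)) (T.h (P (nat_lit 103460306243349905408)) (T.h (P (nat_lit 0)) (P (nat_lit 12834186665184))))) (T.h (P (nat_lit 0)) (T.h (T.h (P (nat_lit 0)) (M (nat_lit 215827605369791))) (P (nat_lit 0))))) (T.h (T.h (P (nat_lit 0)) (P (nat_lit 118297934862188544))) (T.h (T.h (T.h (P (nat_lit 0)) (M (nat_lit 45849852608687))) (P (nat_lit 0))) (P (nat_lit 0)))))))), (T.h (T.h (P (nat_lit 0)) (T.h (T.h (P (nat_lit 0)) (T.h (M (nat_lit 18488068673796538873413631)) (T.h (P (nat_lit 0)) (P (nat_lit 13067073905649254400))))) (T.h (P (nat_lit 0)) (T.h (T.h (P (nat_lit 0)) (M (nat_lit 3412449340189310975))) (P (nat_lit 0)))))) (T.h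 (T.h (T.h (M (nat_lit 1043116937690069580088606719)) (T.h (P (nat_lit 0)) (T.h (P (nat_lit 12925985027821664206848)) (T.h (P (nat_lit 0)) (M (nat_lit 70522602099113983)))))) (T.h (P (nat_lit 0)) (T.h (T.h (M (nat_lit 101464149854981390860287)) (T.h (P (nat_lit 0)) (P (nat_lit 21950935167303680)))) (T.h (P (nat_lit 0)) (M (nat_lit 273430289931173887)))))) (T.h (T.h (P (nat_lit 0)) (T.h (T.h (P (nat_lit 0)) (M (nat_lit 3225623507505250303))) (P (nat_lit 0)))) (T.h (T.h (T.h (P (nat_lit 61764923110046956519424)) (T.h (P (nat_lit 0)) (M (nat_lit 121260396594069503)))) (T.h (P (nat_lit 0)) (M (nat_lit 293207130200866815)))) (T.h (P (nat_lit 0)) (P (nat_lit 114189388980387840)))))))]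
def lP22_11 : List (T ℤ) := [(P (nat_lit 0)), (P (nat_lit 0)), (T.h (T.h (T.h (P (nat_lit 0)) (T.h (P (nat_lit 0)) (T.h (P (nat_lit 43317758592907383173808128)) (T.h (P (nat_lit 0)) (T.h (M (nat_lit 31900998194440437759)) (T.h (P (nat_lit 0)) (M (nat_lit 1454396833919)))))))) (T.h (P (nat_lit 0)) (T.h (T.h (P (nat_lit 3799658250128866714583040)) (T.h (P (nat_lit 0)) (T.h (M (nat_lit 4301878864746905599)) (T.h (P (nat_lit 0)) (M (nat_lit 19625802646735)))))) (T.h (P (nat_lit 0)) (T.h (T.h (M (nat_lit 8697808965217550335)) (T.h (P (nat_lit 0)) (M (nat_lit 23316547824863)))) (T.h (P (nat_lit 0)) (P (nat_lit 7331235369216)))))))) (T.h (T.h (P (nat_lit 0)) (T.h (T.h (P (nat_lit 0)) (T.h (P (nat_lit 4765318764970737926144)) (T.h (P (nat_lit 0)) (P (nat_lit 69438054300712960))))) (T.h (P (nat_lit 0)) (T.h (T.h (P (nat_lit 0)) (P (nat_lit 47129979740487680))) (P (nat_lit 0)))))) (T.h (T.h (T.h (M (nat_lit 25209046411597747371114495)) (T.h (P (nat_lit 0))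 (T.h (P (nat_lit 15337956339561267200)) (T.h (P (nat_lit 0)) (P (nat_lit 37463420197856)))))) (T.h (P (nat_lit 0)) (T.h (T.h (P (nat_lit 43725222482997673984)) (T.h (P (nat_lit 0)) (P (nat_lit 39895253467376)))) (T.h (P (nat_lit 0)) (M (nat_lit 14535246081599)))))) (T.h (T.h (P (nat_lit 0)) (T.h (T.h (P (nat_lit 0)) (M (nat_lit 31364363596070911))) (P (nat_lit 0)))) (T.h (T.h (T.h (P (nat_lit 6278840525973880832)) (T.h (P (nat_lit 0)) (P (nat_lit 6690205662128)))) (T.h (P (nat_lit 0)) (P (nat_lit 26376776201776)))) (T.h (P (nat_lit 0)) (M (nat_lit 9250229793791)))))))), (T.h (T.h (T.h (P (nat_lit 0)) (T.h (M (nat_lit 17659951530170901767705853951)) (T.h (P (nat_lit 0)) (T.h (P (nat_lit 5564071054108727967744)) (T.h (P (nat_lit 0)) (P (nat_lit 11843724323946496))))))) (T.h (P (nat_lit 0)) (T.h (T.h (P (nat_lit 0)) (T.h (P (nat_lit 58650704618747651424256)) (T.h (P (nat_lit 0)) (P (nat_lit 34555186056429568))))) (T.h (P (nat_lit 0)) (T.h (T.h (P (nat_lit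 0)) (P (nat_lit 71761040527261696))) (P (nat_lit 0))))))) (T.h (T.h (P (nat_lit 0)) (T.h (T.h (M (nat_lit 29958964082896697032703999)) (T.h (P (nat_lit 0)) (T.h (M (nat_lit 110232834500051599359)) (T.h (P (nat_lit 0)) (M (nat_lit 6049335980319)))))) (T.h (P (nat_lit 0)) (T.h (T.h (P (nat_lit 16255017564403400704)) (T.h (P (nat_lit 0)) (M (nat_lit 1228216181215)))) (T.h (P (nat_lit 0)) (M (nat_lit 35685065481487))))))) (T.h (T.h (T.h (P (nat_lit 0)) (T.h (P (nat_lit 62838136550265211322368)) (T.h (P (nat_lit 0)) (P (nat_lit 17784403227607040))))) (T.h (P (nat_lit 0)) (T.h (T.h (P (nat_lit 0)) (M (nat_lit 116121369701367807))) (P (nat_lit 0))))) (T.h (T.h (P (nat_lit 0)) (T.h (T.h (M (nat_lit 38902030640963649535)) (T.h (P (nat_lit 0)) (P (nat_lit 31589154588192)))) (T.h (P (nat_lit 0)) (M (nat_lit 13381475394175))))) (T.h (T.h (T.h (P (nat_lit 0)) (P (nat_lit 35350754512633856))) (P (nat_lit 0))) (T.h (T.h (P (nat_lit 0)) (P (nat_lit 15958812818176)))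 (P (nat_lit 0)))))))), (T.h (T.h (T.h (M (nat_lit 25335067314161138281779312984063)) (T.h (P (nat_lit 0)) (T.h (P (nat_lit 43096997095385071381118976)) (T.h (P (nat_lit 0)) (T.h (M (nat_lit 78755181996053364735)) (T.h (P (nat_lit 0)) (P (nat_lit 2902497922080)))))))) (T.h (P (nat_lit 0)) (T.h (T.h (M (nat_lit 15317507951379109321375743)) (T.h (P (nat_lit 0)) (T.h (P (nat_lit 74128886958156414976)) (T.h (P (nat_lit 0)) (P (nat_lit 16527146365152)))))) (T.h (P (nat_lit 0)) (T.h (T.h (P (nat_lit 8135451317716910080)) (T.h (P (nat_lit 0)) (P (nat_lit 16527146365152)))) (T.h (P (nat_lit 0)) (P (nat_lit 2902497922080)))))))) (T.h (T.h (P (nat_lit 0)) (T.h (T.h (P (nat_lit 0)) (T.h (P (nat_lit 281068597270204595044352)) (T.h (P (nat_lit 0)) (M (nat_lit 137938028490391551))))) (T.h (P (nat_lit 0)) (T.h (T.h (P (nat_lit 0)) (P (nat_lit 10121017735643136))) (P (nat_lit 0)))))) (T.h (T.h (T.h (P (nat_lit 84859068295587606585933824)) (T.h (P (nat_lit 0)) (T.h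 (P (nat_lit 85712211110724108288)) (T.h (P (nat_lit 0)) (P (nat_lit 4499002599360)))))) (T.h (P (nat_lit 0)) (T.h (T.h (P (nat_lit 221996989788675112960)) (T.h (P (nat_lit 0)) (M (nat_lit 47898110021855)))) (T.h (P (nat_lit 0)) (P (nat_lit 4499002599360)))))) (T.h (T.h (P (nat_lit 0)) (T.h (T.h (P (nat_lit 0)) (M (nat_lit 122666095770337279))) (P (nat_lit 0)))) (T.h (T.h (T.h (P (nat_lit 77219276455789199360)) (T.h (P (nat_lit 0)) (P (nat_lit 39655346396160)))) (T.h (P (nat_lit 0)) (P (nat_lit 39655346396160)))) (T.h (P (nat_lit 0)) (P (nat_lit 12970141598880)))))))), (T.h (T.h (T.h (P (nat_lit 0)) (T.h (P (nat_lit 67185566505562312745714450432)) (T.h (P (nat_lit 0)) (T.h (P (nat_lit 26688500089316853153792)) (T.h (P (nat_lit 0)) (P (nat_lit 30121564165390336))))))) (T.h (P (nat_lit 0)) (T.h (T.h (P (nat_lit 0)) (T.h (M (nat_lit 118456684448776665956351)) (T.h (P (nat_lit 0)) (P (nat_lit 114024985828311040))))) (T.h (P (nat_lit 0)) (T.h (T.h (P (nat_lit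 0)) (P (nat_lit 108129119820283904))) (P (nat_lit 0))))))) (T.h (T.h (P (nat_lit 0)) (T.h (T.h (P (nat_lit 84474593176145620608483328)) (T.h (P (nat_lit 0)) (T.h (P (nat_lit 291820826445081477120)) (T.h (P (nat_lit 0)) (M (nat_lit 22262947040159)))))) (T.h (P (nat_lit 0)) (T.h (T.h (P (nat_lit 70989944265199583232)) (T.h (P (nat_lit 0)) (M (nat_lit 165739260395375)))) (T.h (P (nat_lit 0)) (P (nat_lit 77442952494384))))))) (T.h (T.h (T.h (P (nat_lit 0)) (T.h (M (nat_lit 101452401124637860167679)) (T.h (P (nat_lit 0)) (P (nat_lit 91725410818899968))))) (T.h (P (nat_lit 0)) (T.h (T.h (P (nat_lit 0)) (P (nat_lit 368374066637406208))) (P (nat_lit 0))))) (T.h (T.h (P (nat_lit 0)) (T.h (T.h (P (nat_lit 67279472290785394688)) (T.h (P (nat_lit 0)) (M (nat_lit 127505483758511)))) (T.h (P (nat_lit 0)) (M (nat_lit 2395349943695))))) (T.h (T.h (T.h (P (nat_lit 0)) (M (nat_lit 75789866623516671))) (P (nat_lit 0))) (T.h (T.h (P (nat_lit 0)) (P (nat_lit 31976606021472)))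 (P (nat_lit 0)))))))), (T.h (T.h (T.h (P (nat_lit 19245058767597118072917487255552)) (T.h (P (nat_lit 0)) (T.h (M (nat_lit 49064869503036694296788991)) (T.h (P (nat_lit 0)) (M (nat_lit 58062886536468234239)))))) (T.h (P (nat_lit 0)) (T.h (T.h (M (nat_lit 8849924118460195124805631)) (T.h (P (nat_lit 0)) (M (nat_lit 78300033919217565695)))) (T.h (P (nat_lit 0)) (P (nat_lit 22472147538827804672)))))) (T.h (T.h (P (nat_lit 0)) (T.h (T.h (P (nat_lit 0)) (T.h (M (nat_lit 171507145602860729761791)) (T.h (P (nat_lit 0)) (M (nat_lit 11742295132012543))))) (T.h (P (nat_lit 0)) (T.h (T.h (P (nat_lit 0)) (P (nat_lit 200573530775552000))) (P (nat_lit 0)))))) (T.h (T.h (T.h (P (nat_lit 59825625941170914374713344)) (T.h (P (nat_lit 0)) (M (nat_lit 45880012597962473471)))) (T.h (P (nat_lit 0)) (M (nat_lit 218013063006075748351)))) (T.h (T.h (P (nat_lit 0)) (T.h (T.h (P (nat_lit 0)) (P (nat_lit 189747104945602560))) (P (nat_lit 0)))) (P (nat_lit 12951678390250766336)))))),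 (P (nat_lit 0))]
def lP22_12 : List (T ℤ) := [(P (nat_lit 0)), (T.h (T.h (P (nat_lit 0)) (T.h (T.h (P (nat_lit 0)) (T.h (P (nat_lit 16891830482737279004573696)) (T.h (P (nat_lit 0)) (T.h (M (nat_lit 12703284163797581823)) (T.h (P (nat_lit 0)) (P (nat_lit 1224391379472))))))) (T.h (P (nat_lit 0)) (T.h (T.h (P (nat_lit 0)) (T.h (P (nat_lit 12859817228681347072)) (T.h (P (nat_lit 0)) (M (nat_lit 24339989840903))))) (T.h (P (nat_lit 0)) (T.h (T.h (P (nat_lit 0)) (M (nat_lit 31925269390831))) (P (nat_lit 0)))))))) (T.h (T.h (T.h (M (nat_lit 2441237886410329181374119935)) (T.h (P (nat_lit 0)) (T.h (M (nat_lit 9706054694757277368319)) (T.h (P (nat_lit 0)) (P (nat_lit 20920248791105536)))))) (T.h (P (nat_lit 0)) (T.h (T.h (P (nat_lit 20007270521783738957824)) (T.h (P (nat_lit 0)) (P (nat_lit 12080640778829824)))) (T.h (P (nat_lit 0)) (P (nat_lit 73902104232656896)))))) (T.h (T.h (P (nat_lit 0)) (T.h (T.h (P (nat_lit 0)) (T.h (M (nat_lit 22225729657950437375))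 (T.h (P (nat_lit 0)) (M (nat_lit 41183392394039))))) (T.h (P (nat_lit 0)) (T.h (T.h (P (nat_lit 0)) (P (nat_lit 37989251531200))) (P (nat_lit 0)))))) (T.h (T.h (T.h (M (nat_lit 7248228393908629929983)) (T.h (P (nat_lit 0)) (M (nat_lit 76298670568603647)))) (T.h (P (nat_lit 0)) (M (nat_lit 39192303973335039)))) (T.h (T.h (P (nat_lit 0)) (T.h (T.h (P (nat_lit 0)) (M (nat_lit 1620341992855))) (P (nat_lit 0)))) (M (nat_lit 10697585716723711))))))), (T.h (T.h (P (nat_lit 0)) (T.h (T.h (P (nat_lit 1980409599325634221637107712)) (T.h (P (nat_lit 0)) (T.h (M (nat_lit 3622323455901260840959)) (T.h (P (nat_lit 0)) (M (nat_lit 32889710490746879)))))) (T.h (P (nat_lit 0)) (T.h (T.h (M (nat_lit 15055359175053937737727)) (T.h (P (nat_lit 0)) (M (nat_lit 38455619674882047)))) (T.h (P (nat_lit 0)) (P (nat_lit 3262392835637248))))))) (T.h (T.h (T.h (P (nat_lit 0)) (T.h (M (nat_lit 17906321837193087961530367)) (T.h (P (nat_lit 0)) (T.h (M (nat_lit 28621299218955370495))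 (T.h (P (nat_lit 0)) (M (nat_lit 57105588554927))))))) (T.h (P (nat_lit 0)) (T.h (T.h (P (nat_lit 0)) (T.h (M (nat_lit 4387270251864129535)) (T.h (P (nat_lit 0)) (P (nat_lit 7964610238816))))) (T.h (P (nat_lit 0)) (T.h (T.h (P (nat_lit 0)) (P (nat_lit 3163502112640))) (P (nat_lit 0))))))) (T.h (T.h (P (nat_lit 0)) (T.h (T.h (M (nat_lit 3622323455901260840959)) (T.h (P (nat_lit 0)) (P (nat_lit 53787962859716608)))) (T.h (P (nat_lit 0)) (M (nat_lit 38455619674882047))))) (T.h (T.h (T.h (P (nat_lit 0)) (T.h (M (nat_lit 28621299218955370495)) (T.h (P (nat_lit 0)) (M (nat_lit 33666772764575))))) (T.h (P (nat_lit 0)) (T.h (T.h (P (nat_lit 0)) (P (nat_lit 7964610238816))) (P (nat_lit 0))))) (T.h (T.h (P (nat_lit 0)) (M (nat_lit 32889710490746879))) (T.h (T.h (T.h (P (nat_lit 0)) (M (nat_lit 57105588554927))) (P (nat_lit 0))) (P (nat_lit 0)))))))), (T.h (T.h (P (nat_lit 0)) (T.h (T.h (P (nat_lit 0)) (T.h (M (nat_lit 138527131665212932580442111)) (T.h (P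 (nat_lit 0)) (T.h (M (nat_lit 3958442399667060735)) (T.h (P (nat_lit 0)) (M (nat_lit 1438918448639))))))) (T.h (P (nat_lit 0)) (T.h (T.h (P (nat_lit 0)) (T.h (P (nat_lit 162723255905528315904)) (T.h (P (nat_lit 0)) (P (nat_lit 39743026870800))))) (T.h (P (nat_lit 0)) (T.h (T.h (P (nat_lit 0)) (P (nat_lit 60196247186208))) (P (nat_lit 0)))))))) (T.h (T.h (T.h (P (nat_lit 9534425656335056731591671808)) (T.h (P (nat_lit 0)) (T.h (P (nat_lit 54097377746224613949440)) (T.h (P (nat_lit 0)) (P (nat_lit 89425406900207616)))))) (T.h (P (nat_lit 0)) (T.h (T.h (M (nat_lit 67804970372874798891007)) (T.h (P (nat_lit 0)) (M (nat_lit 283417121006485503)))) (T.h (P (nat_lit 0)) (M (nat_lit 16291914546905087)))))) (T.h (T.h (P (nat_lit 0)) (T.h (T.h (P (nat_lit 0)) (T.h (P (nat_lit 37123236211443367936)) (T.h (P (nat_lit 0)) (P (nat_lit 18532277689920))))) (T.h (P (nat_lit 0)) (T.h (T.h (P (nat_lit 0)) (M (nat_lit 95885928699887))) (P (nat_lit 0)))))) (T.h (T.h (T.h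 (M (nat_lit 96831852276130993143807)) (T.h (P (nat_lit 0)) (M (nat_lit 1709138328387583)))) (T.h (P (nat_lit 0)) (M (nat_lit 122346863733080063)))) (T.h (T.h (P (nat_lit 0)) (T.h (T.h (P (nat_lit 0)) (M (nat_lit 858351454991))) (P (nat_lit 0)))) (M (nat_lit 15079038065934335))))))), (T.h (T.h (P (nat_lit 0)) (T.h (T.h (P (nat_lit 67185566505562312745714450432)) (T.h (P (nat_lit 0)) (T.h (M (nat_lit 118456684448776665956351)) (T.h (P (nat_lit 0)) (P (nat_lit 108129119820283904)))))) (T.h (P (nat_lit 0)) (T.h (T.h (P (nat_lit 26688500089316853153792)) (T.h (P (nat_lit 0)) (P (nat_lit 114024985828311040)))) (T.h (P (nat_lit 0)) (P (nat_lit 30121564165390336))))))) (T.h (T.h (T.h (P (nat_lit 0)) (T.h (P (nat_lit 84474593176145620608483328)) (T.h (P (nat_lit 0)) (T.h (P (nat_lit 70989944265199583232)) (T.h (P (nat_lit 0)) (P (nat_lit 77442952494384))))))) (T.h (P (nat_lit 0)) (T.h (T.h (P (nat_lit 0)) (T.h (P (nat_lit 291820826445081477120)) (T.h (P (nat_lit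 0)) (M (nat_lit 165739260395375))))) (T.h (P (nat_lit 0)) (T.h (T.h (P (nat_lit 0)) (M (nat_lit 22262947040159))) (P (nat_lit 0))))))) (T.h (T.h (P (nat_lit 0)) (T.h (T.h (M (nat_lit 101452401124637860167679)) (T.h (P (nat_lit 0)) (P (nat_lit 368374066637406208)))) (T.h (P (nat_lit 0)) (P (nat_lit 91725410818899968))))) (T.h (T.h (T.h (P (nat_lit 0)) (T.h (P (nat_lit 67279472290785394688)) (T.h (P (nat_lit 0)) (M (nat_lit 2395349943695))))) (T.h (P (nat_lit 0)) (T.h (T.h (P (nat_lit 0)) (M (nat_lit 127505483758511))) (P (nat_lit 0))))) (T.h (T.h (P (nat_lit 0)) (M (nat_lit 75789866623516671))) (T.h (T.h (T.h (P (nat_lit 0)) (P (nat_lit 31976606021472))) (P (nat_lit 0))) (P (nat_lit 0)))))))), (T.h (T.h (P (nat_lit 0)) (T.h (T.h (P (nat_lit 0)) (T.h (P (nat_lit 120814795054612235002314752)) (T.h (P (nat_lit 0)) (M (nat_lit 107041884051731382271))))) (T.h (P (nat_lit 0)) (T.h (T.h (P (nat_lit 0)) (M (nat_lit 107041884051731382271))) (P (nat_lit 0))))))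 (T.h (T.h (T.h (M (nat_lit 29465771449952636056513806335)) (T.h (P (nat_lit 0)) (T.h (M (nat_lit 35933518468873375973375)) (T.h (P (nat_lit 0)) (M (nat_lit 116566425178505215)))))) (T.h (P (nat_lit 0)) (T.h (T.h (M (nat_lit 35933518468873375973375)) (T.h (P (nat_lit 0)) (P (nat_lit 206294093546192896)))) (T.h (P (nat_lit 0)) (M (nat_lit 116566425178505215)))))) (T.h (T.h (P (nat_lit 0)) (T.h (T.h (P (nat_lit 0)) (M (nat_lit 179113940030792400895))) (P (nat_lit 0)))) (T.h (T.h (T.h (M (nat_lit 3651158552685087555583)) (T.h (P (nat_lit 0)) (M (nat_lit 36771961311526911)))) (T.h (P (nat_lit 0)) (M (nat_lit 36771961311526911)))) (T.h (P (nat_lit 0)) (P (nat_lit 82143803782594560))))))), (P (nat_lit 0)), (T.h (T.h (T.h (P (nat_lit 0)) (T.h (P (nat_lit 0)) (T.h (P (nat_lit 3183026794272382141857792)) (T.h (P (nat_lit 0)) (T.h (M (nat_lit 10867267944384036863)) (T.h (P (nat_lit 0)) (M (nat_lit 414847854543)))))))) (T.h (P (nat_lit 0)) (T.h (T.h (M (nat_lit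 3694875659226217160114175)) (T.h (P (nat_lit 0)) (T.h (P (nat_lit 12023473586606964736)) (T.h (P (nat_lit 0)) (M (nat_lit 7269907557967)))))) (T.h (P (nat_lit 0)) (T.h (T.h (P (nat_lit 5622413032521990144)) (T.h (P (nat_lit 0)) (M (nat_lit 12339362182223)))) (T.h (P (nat_lit 0)) (P (nat_lit 66901103040)))))))) (T.h (T.h (P (nat_lit 0)) (T.h (T.h (P (nat_lit 0)) (T.h (M (nat_lit 9720968019676663644159)) (T.h (P (nat_lit 0)) (P (nat_lit 1464446944149504))))) (T.h (P (nat_lit 0)) (T.h (T.h (P (nat_lit 0)) (M (nat_lit 13634783289147391))) (P (nat_lit 0)))))) (T.h (T.h (T.h (P (nat_lit 3183026794272382141857792)) (T.h (P (nat_lit 0)) (T.h (M (nat_lit 1756590969219710975)) (T.h (P (nat_lit 0)) (M (nat_lit 3487612043071)))))) (T.h (P (nat_lit 0)) (T.h (T.h (P (nat_lit 12023473586606964736)) (T.h (P (nat_lit 0)) (M (nat_lit 3109208749535)))) (T.h (P (nat_lit 0)) (M (nat_lit 12339362182223)))))) (T.h (T.h (P (nat_lit 0)) (T.h (T.h (P (nat_lit 0)) (P (nat_lit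 1464446944149504))) (P (nat_lit 0)))) (T.h (T.h (T.h (M (nat_lit 10867267944384036863)) (T.h (P (nat_lit 0)) (M (nat_lit 3487612043071)))) (T.h (P (nat_lit 0)) (M (nat_lit 7269907557967)))) (T.h (P (nat_lit 0)) (M (nat_lit 414847854543))))))))]
def lP22_13 : List (T ℤ) := [(T.h (T.h (T.h (P (nat_lit 0)) (T.h (P (nat_lit 20984392715099619162048167936)) (T.h (P (nat_lit 0)) (T.h (P (nat_lit 19697029159794532941824)) (T.h (P (nat_lit 0)) (P (nat_lit 15994898100060160))))))) (T.h (P (nat_lit 0)) (T.h (T.h (P (nat_lit 0)) (T.h (M (nat_lit 8223931429363535314943)) (T.h (P (nat_lit 0)) (M (nat_lit 46708690346541055))))) (T.h (P (nat_lit 0)) (T.h (T.h (P (nat_lit 0)) (P (nat_lit 26419758957936640))) (P (nat_lit 0))))))) (T.h (T.h (P (nat_lit 0)) (T.h (T.h (M (nat_lit 23016326667677892480073727)) (T.h (P (nat_lit 0)) (T.h (P (nat_lit 29677769012967112704)) (T.h (P (nat_lit 0)) (P (nat_lit 50708355223312)))))) (T.h (P (nat_lit 0)) (T.h (T.h (M (nat_lit 4386139381002403839))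 (T.h (P (nat_lit 0)) (M (nat_lit 4144068559599)))) (T.h (P (nat_lit 0)) (M (nat_lit 14450944174591))))))) (T.h (T.h (T.h (P (nat_lit 0)) (T.h (M (nat_lit 17505257867323948138495)) (T.h (P (nat_lit 0)) (M (nat_lit 33918669731856383))))) (T.h (P (nat_lit 0)) (T.h (T.h (P (nat_lit 0)) (M (nat_lit 738227850690559))) (P (nat_lit 0))))) (T.h (T.h (P (nat_lit 0)) (T.h (T.h (P (nat_lit 3997095405463535616)) (T.h (P (nat_lit 0)) (P (nat_lit 1500860940832)))) (T.h (P (nat_lit 0)) (P (nat_lit 6020971354256))))) (T.h (T.h (T.h (P (nat_lit 0)) (M (nat_lit 93291811182837759))) (P (nat_lit 0))) (T.h (T.h (P (nat_lit 0)) (P (nat_lit 40339979884256))) (P (nat_lit 0)))))))), (T.h (T.h (T.h (M (nat_lit 8912167443391824518145684537343)) (T.h (P (nat_lit 0)) (T.h (M (nat_lit 62380455411995176119304191)) (T.h (P (nat_lit 0)) (T.h (P (nat_lit 33971462972094021632)) (T.h (P (nat_lit 0)) (P (nat_lit 8789193732672)))))))) (T.h (P (nat_lit 0)) (T.h (T.h (P (nat_lit 21667585315231552363298816))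 (T.h (P (nat_lit 0)) (T.h (P (nat_lit 20240455921282580480)) (T.h (P (nat_lit 0)) (P (nat_lit 17775325846896)))))) (T.h (P (nat_lit 0)) (T.h (T.h (P (nat_lit 5849706572397150208)) (T.h (P (nat_lit 0)) (P (nat_lit 45145893431616)))) (T.h (P (nat_lit 0)) (P (nat_lit 954741325344)))))))) (T.h (T.h (P (nat_lit 0)) (T.h (T.h (P (nat_lit 0)) (T.h (P (nat_lit 28755281158888501542912)) (T.h (P (nat_lit 0)) (M (nat_lit 169860720897228799))))) (T.h (P (nat_lit 0)) (T.h (T.h (P (nat_lit 0)) (M (nat_lit 43515482294059007))) (P (nat_lit 0)))))) (T.h (T.h (T.h (M (nat_lit 4622326605712981764341759)) (T.h (P (nat_lit 0)) (T.h (P (nat_lit 161544671715240443904)) (T.h (P (nat_lit 0)) (M (nat_lit 21055996758767)))))) (T.h (P (nat_lit 0)) (T.h (T.h (P (nat_lit 119646973549155975168)) (T.h (P (nat_lit 0)) (P (nat_lit 12074435503008)))) (T.h (P (nat_lit 0)) (P (nat_lit 45145893431616)))))) (T.h (T.h (P (nat_lit 0)) (T.h (T.h (P (nat_lit 0)) (P (nat_lit 36243501004947456)))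 (P (nat_lit 0)))) (T.h (T.h (T.h (M (nat_lit 536184026336067583)) (T.h (P (nat_lit 0)) (M (nat_lit 21055996758767)))) (T.h (P (nat_lit 0)) (P (nat_lit 17775325846896)))) (T.h (P (nat_lit 0)) (P (nat_lit 8789193732672)))))))), (T.h (T.h (T.h (P (nat_lit 0)) (T.h (M (nat_lit 3204733460397538933508931583)) (T.h (P (nat_lit 0)) (T.h (M (nat_lit 69418260137388823019519)) (T.h (P (nat_lit 0)) (M (nat_lit 69814345750593535))))))) (T.h (P (nat_lit 0)) (T.h (T.h (P (nat_lit 0)) (T.h (P (nat_lit 189533633965619006144512)) (T.h (P (nat_lit 0)) (P (nat_lit 58042506824548352))))) (T.h (P (nat_lit 0)) (T.h (T.h (P (nat_lit 0)) (M (nat_lit 159947440549658623))) (P (nat_lit 0))))))) (T.h (T.h (P (nat_lit 0)) (T.h (T.h (P (nat_lit 10272478443104322537390080)) (T.h (P (nat_lit 0)) (T.h (M (nat_lit 25283953647354380287)) (T.h (P (nat_lit 0)) (M (nat_lit 139411251903167)))))) (T.h (P (nat_lit 0)) (T.h (T.h (P (nat_lit 92046784355859693568)) (T.h (P (nat_lit 0)) (M (nat_lit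 3247963595855)))) (T.h (P (nat_lit 0)) (P (nat_lit 32752559787552))))))) (T.h (T.h (T.h (P (nat_lit 0)) (T.h (M (nat_lit 58299763117793543716863)) (T.h (P (nat_lit 0)) (M (nat_lit 33821400822153215))))) (T.h (P (nat_lit 0)) (T.h (T.h (P (nat_lit 0)) (P (nat_lit 196731980638601216))) (P (nat_lit 0))))) (T.h (T.h (P (nat_lit 0)) (T.h (T.h (P (nat_lit 103460306243349905408)) (T.h (P (nat_lit 0)) (M (nat_lit 215827605369791)))) (T.h (P (nat_lit 0)) (P (nat_lit 12834186665184))))) (T.h (T.h (T.h (P (nat_lit 0)) (P (nat_lit 118297934862188544))) (P (nat_lit 0))) (T.h (T.h (P (nat_lit 0)) (M (nat_lit 45849852608687))) (P (nat_lit 0)))))))), (T.h (T.h (T.h (P (nat_lit 19245058767597118072917487255552)) (T.h (P (nat_lit 0)) (T.h (M (nat_lit 8849924118460195124805631)) (T.h (P (nat_lit 0)) (P (nat_lit 22472147538827804672)))))) (T.h (P (nat_lit 0)) (T.h (T.h (M (nat_lit 49064869503036694296788991)) (T.h (P (nat_lit 0)) (M (nat_lit 78300033919217565695))))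 (T.h (P (nat_lit 0)) (M (nat_lit 58062886536468234239)))))) (T.h (T.h (P (nat_lit 0)) (T.h (T.h (P (nat_lit 0)) (T.h (M (nat_lit 171507145602860729761791)) (T.h (P (nat_lit 0)) (P (nat_lit 200573530775552000))))) (T.h (P (nat_lit 0)) (T.h (T.h (P (nat_lit 0)) (M (nat_lit 11742295132012543))) (P (nat_lit 0)))))) (T.h (T.h (T.h (P (nat_lit 59825625941170914374713344)) (T.h (P (nat_lit 0)) (M (nat_lit 218013063006075748351)))) (T.h (P (nat_lit 0)) (M (nat_lit 45880012597962473471)))) (T.h (T.h (P (nat_lit 0)) (T.h (T.h (P (nat_lit 0)) (P (nat_lit 189747104945602560))) (P (nat_lit 0)))) (P (nat_lit 12951678390250766336)))))), (P (nat_lit 0)), (P (nat_lit 0)), (T.h (T.h (P (nat_lit 0)) (T.h (T.h (P (nat_lit 0)) (T.h (M (nat_lit 2141525382526395345797119)) (T.h (P (nat_lit 0)) (T.h (M (nat_lit 379425864766455807)) (T.h (P (nat_lit 0)) (M (nat_lit 11562789853775))))))) (T.h (P (nat_lit 0)) (T.h (T.h (P (nat_lit 0)) (T.h (M (nat_lit 50401333849746309119))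 (T.h (P (nat_lit 0)) (P (nat_lit 22388334389568))))) (T.h (P (nat_lit 0)) (T.h (T.h (P (nat_lit 0)) (P (nat_lit 8815688868816))) (P (nat_lit 0)))))))) (T.h (T.h (T.h (P (nat_lit 2651591200384203542287613952)) (T.h (P (nat_lit 0)) (T.h (P (nat_lit 82958915855056434626560)) (T.h (P (nat_lit 0)) (P (nat_lit 136759054275379200)))))) (T.h (P (nat_lit 0)) (T.h (T.h (M (nat_lit 34307800470057419538431)) (T.h (P (nat_lit 0)) (P (nat_lit 16751951758491648)))) (T.h (P (nat_lit 0)) (M (nat_lit 17317471317622783)))))) (T.h (T.h (P (nat_lit 0)) (T.h (T.h (P (nat_lit 0)) (T.h (M (nat_lit 92849825487106605055)) (T.h (P (nat_lit 0)) (P (nat_lit 29719564744560))))) (T.h (P (nat_lit 0)) (T.h (T.h (P (nat_lit 0)) (M (nat_lit 8955757893743))) (P (nat_lit 0)))))) (T.h (T.h (T.h (P (nat_lit 466996290546881789952)) (T.h (P (nat_lit 0)) (P (nat_lit 458191854054440960)))) (T.h (P (nat_lit 0)) (P (nat_lit 139925064433532928)))) (T.h (T.h (P (nat_lit 0)) (T.h (T.h (P (nat_lit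 0)) (M (nat_lit 20837185961087))) (P (nat_lit 0)))) (M (nat_lit 75855871420694527))))))), (T.h (T.h (P (nat_lit 0)) (T.h (T.h (M (nat_lit 15405244956953180929827799039)) (T.h (P (nat_lit 0)) (T.h (P (nat_lit 58377955448778397843456)) (T.h (P (nat_lit 0)) (P (nat_lit 25069513072984064)))))) (T.h (P (nat_lit 0)) (T.h (T.h (P (nat_lit 34299267896437284798464)) (T.h (P (nat_lit 0)) (M (nat_lit 50331468078694399)))) (T.h (P (nat_lit 0)) (P (nat_lit 25436756187906048))))))) (T.h (T.h (T.h (P (nat_lit 0)) (T.h (P (nat_lit 26414870613408005553651712)) (T.h (P (nat_lit 0)) (T.h (P (nat_lit 17283595094275915776)) (T.h (P (nat_lit 0)) (P (nat_lit 68505149127168))))))) (T.h (P (nat_lit 0)) (T.h (T.h (P (nat_lit 0)) (T.h (M (nat_lit 319395816159282462719)) (T.h (P (nat_lit 0)) (M (nat_lit 38582463213215))))) (T.h (P (nat_lit 0)) (T.h (T.h (P (nat_lit 0)) (P (nat_lit 93337690111776))) (P (nat_lit 0))))))) (T.h (T.h (P (nat_lit 0)) (T.h (T.h (P (nat_lit 58377955448778397843456))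 (T.h (P (nat_lit 0)) (M (nat_lit 20279104758906879)))) (T.h (P (nat_lit 0)) (M (nat_lit 50331468078694399))))) (T.h (T.h (T.h (P (nat_lit 0)) (T.h (P (nat_lit 17283595094275915776)) (T.h (P (nat_lit 0)) (P (nat_lit 31906044562176))))) (T.h (P (nat_lit 0)) (T.h (T.h (P (nat_lit 0)) (M (nat_lit 38582463213215))) (P (nat_lit 0))))) (T.h (T.h (P (nat_lit 0)) (P (nat_lit 25069513072984064))) (T.h (T.h (T.h (P (nat_lit 0)) (P (nat_lit 68505149127168))) (P (nat_lit 0))) (P (nat_lit 0))))))))]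
def lP22_14 : List (T ℤ) := [(T.h (T.h (P (nat_lit 0)) (T.h (T.h (P (nat_lit 0)) (T.h (M (nat_lit 18488068673796538873413631)) (T.h (P (nat_lit 0)) (M (nat_lit 3412449340189310975))))) (T.h (P (nat_lit 0)) (T.h (T.h (P (nat_lit 0)) (P (nat_lit 13067073905649254400))) (P (nat_lit 0)))))) (T.h (T.h (T.h (M (nat_lit 1043116937690069580088606719)) (T.h (P (nat_lit 0)) (T.h (M (nat_lit 101464149854981390860287)) (T.h (P (nat_lit 0)) (M (nat_lit 273430289931173887)))))) (T.h (P (nat_lit 0)) (T.h (T.h (P (nat_lit 12925985027821664206848)) (T.h (P (nat_lit 0)) (P (nat_lit 21950935167303680)))) (T.h (P (nat_lit 0)) (M (nat_lit 70522602099113983)))))) (T.h (T.h (P (nat_lit 0)) (T.h (T.h (P (nat_lit 0)) (M (nat_lit 3225623507505250303))) (P (nat_lit 0)))) (T.h (T.h (T.h (P (nat_lit 61764923110046956519424)) (T.h (P (nat_lit 0)) (M (nat_lit 293207130200866815)))) (T.h (P (nat_lit 0)) (M (nat_lit 121260396594069503)))) (T.h (P (nat_lit 0)) (P (nat_lit 114189388980387840))))))),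 (P (nat_lit 0)), (T.h (T.h (T.h (P (nat_lit 1913074788002909210033126375424)) (T.h (P (nat_lit 0)) (T.h (M (nat_lit 3332740726800595820740607)) (T.h (P (nat_lit 0)) (P (nat_lit 12559055383231987712)))))) (T.h (P (nat_lit 0)) (T.h (T.h (P (nat_lit 5199359598895857829675008)) (T.h (P (nat_lit 0)) (M (nat_lit 10961849958608666623)))) (T.h (P (nat_lit 0)) (M (nat_lit 6112722512229957631)))))) (T.h (T.h (P (nat_lit 0)) (T.h (T.h (P (nat_lit 0)) (T.h (P (nat_lit 1024007544172064014336)) (T.h (P (nat_lit 0)) (P (nat_lit 14634019181559808))))) (T.h (P (nat_lit 0)) (T.h (T.h (P (nat_lit 0)) (P (nat_lit 15744450479783936))) (P (nat_lit 0)))))) (T.h (T.h (T.h (M (nat_lit 3332740726800595820740607)) (T.h (P (nat_lit 0)) (M (nat_lit 3140303295243878399)))) (T.h (P (nat_lit 0)) (M (nat_lit 10961849958608666623)))) (T.h (T.h (P (nat_lit 0)) (T.h (T.h (P (nat_lit 0)) (P (nat_lit 14634019181559808))) (P (nat_lit 0)))) (P (nat_lit 12559055383231987712)))))), (T.h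 (T.h (T.h (P (nat_lit 0)) (T.h (M (nat_lit 20545763807070606543294562303)) (T.h (P (nat_lit 0)) (T.h (M (nat_lit 19160979863630824603647)) (T.h (P (nat_lit 0)) (M (nat_lit 14971273895362559))))))) (T.h (P (nat_lit 0)) (T.h (T.h (P (nat_lit 0)) (T.h (P (nat_lit 12135496075166393303040)) (T.h (P (nat_lit 0)) (P (nat_lit 52158500142071808))))) (T.h (P (nat_lit 0)) (T.h (T.h (P (nat_lit 0)) (M (nat_lit 35881187698753535))) (P (nat_lit 0))))))) (T.h (T.h (P (nat_lit 0)) (T.h (T.h (P (nat_lit 30576525179669562771111936)) (T.h (P (nat_lit 0)) (T.h (M (nat_lit 60109996656355704831)) (T.h (P (nat_lit 0)) (M (nat_lit 53556555107663)))))) (T.h (P (nat_lit 0)) (T.h (T.h (M (nat_lit 4299253708392235007)) (T.h (P (nat_lit 0)) (P (nat_lit 18560116891440)))) (T.h (P (nat_lit 0)) (P (nat_lit 8704128682512))))))) (T.h (T.h (T.h (P (nat_lit 0)) (T.h (P (nat_lit 18225494033046599368704)) (T.h (P (nat_lit 0)) (P (nat_lit 54131820061376512))))) (T.h (P (nat_lit 0)) (T.h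 (T.h (P (nat_lit 0)) (P (nat_lit 43606495874285568))) (P (nat_lit 0))))) (T.h (T.h (P (nat_lit 0)) (T.h (T.h (M (nat_lit 14785903864523522047)) (T.h (P (nat_lit 0)) (P (nat_lit 22287634534368)))) (T.h (P (nat_lit 0)) (M (nat_lit 11727087712703))))) (T.h (T.h (T.h (P (nat_lit 0)) (P (nat_lit 79124825958711296))) (P (nat_lit 0))) (T.h (T.h (P (nat_lit 0)) (M (nat_lit 38574100311983))) (P (nat_lit 0)))))))), (T.h (T.h (T.h (P (nat_lit 12287190180425606716005116018688)) (T.h (P (nat_lit 0)) (T.h (M (nat_lit 822633096902632366145535)) (T.h (P (nat_lit 0)) (M (nat_lit 6177230466576285695)))))) (T.h (P (nat_lit 0)) (T.h (T.h (M (nat_lit 3836605376147847800422399)) (T.h (P (nat_lit 0)) (M (nat_lit 65115326894967881727)))) (T.h (P (nat_lit 0)) (M (nat_lit 34747549758858985471)))))) (T.h (T.h (P (nat_lit 0)) (T.h (T.h (P (nat_lit 0)) (T.h (P (nat_lit 126306685842223500623872)) (T.h (P (nat_lit 0)) (P (nat_lit 56164324190060544))))) (T.h (P (nat_lit 0)) (T.h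 (T.h (P (nat_lit 0)) (M (nat_lit 101851870552260607))) (P (nat_lit 0)))))) (T.h (T.h (T.h (M (nat_lit 822633096902632366145535)) (T.h (P (nat_lit 0)) (M (nat_lit 183649484888055218175)))) (T.h (P (nat_lit 0)) (M (nat_lit 65115326894967881727)))) (T.h (T.h (P (nat_lit 0)) (T.h (T.h (P (nat_lit 0)) (P (nat_lit 56164324190060544))) (P (nat_lit 0)))) (M (nat_lit 6177230466576285695)))))), (P (nat_lit 0)), (P (nat_lit 0)), (T.h (T.h (P (nat_lit 0)) (T.h (T.h (P (nat_lit 0)) (T.h (P (nat_lit 2731529024111075150266368)) (T.h (P (nat_lit 0)) (M (nat_lit 14446821862908362751))))) (T.h (P (nat_lit 0)) (T.h (T.h (P (nat_lit 0)) (P (nat_lit 2922520119437426688))) (P (nat_lit 0)))))) (T.h (T.h (T.h (P (nat_lit 2431989740396183413638299648)) (T.h (P (nat_lit 0)) (T.h (M (nat_lit 67764700985457142398975)) (T.h (P (nat_lit 0)) (M (nat_lit 157432470344531967)))))) (T.h (P (nat_lit 0)) (T.h (T.h (M (nat_lit 2389731705158014861311)) (T.h (P (nat_lit 0)) (M (nat_lit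 13085180765306879)))) (T.h (P (nat_lit 0)) (M (nat_lit 737280053051391)))))) (T.h (T.h (P (nat_lit 0)) (T.h (T.h (P (nat_lit 0)) (P (nat_lit 43502318328160976896))) (P (nat_lit 0)))) (T.h (T.h (T.h (P (nat_lit 13155666161854431887360)) (T.h (P (nat_lit 0)) (M (nat_lit 344310799049883647)))) (T.h (P (nat_lit 0)) (M (nat_lit 84716766919393279)))) (T.h (P (nat_lit 0)) (P (nat_lit 86333522932170752)))))))]
def lP22_15 : List (T ℤ) := [(P (nat_lit 0)), (P (nat_lit 0)), (P (nat_lit 0)), (M (nat_lit 4410501400340933843783516159999)), (P (nat_lit 0)), (P (nat_lit 0)), (T.h (T.h (T.h (P (nat_lit 0)) (T.h (M (nat_lit 1979003726842916632434573311)) (T.h (P (nat_lit 0)) (T.h (P (nat_lit 25426781780498710528000)) (T.h (P (nat_lit 0)) (M (nat_lit 31245948319891455))))))) (T.h (P (nat_lit 0)) (T.h (T.h (P (nat_lit 0)) (T.h (P (nat_lit 15521847690240391643136)) (T.h (P (nat_lit 0)) (P (nat_lit 17473273924747264))))) (T.h (P (nat_lit 0)) (T.h (T.h (P (nat_lit 0))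 (P (nat_lit 73809589357477888))) (P (nat_lit 0))))))) (T.h (T.h (P (nat_lit 0)) (T.h (T.h (P (nat_lit 6033007216961144628445184)) (T.h (P (nat_lit 0)) (T.h (P (nat_lit 36594049878014820352)) (T.h (P (nat_lit 0)) (M (nat_lit 27675213239079)))))) (T.h (P (nat_lit 0)) (T.h (T.h (P (nat_lit 100026648258754379776)) (T.h (P (nat_lit 0)) (P (nat_lit 9826934429112)))) (T.h (P (nat_lit 0)) (P (nat_lit 4347538975168))))))) (T.h (T.h (T.h (P (nat_lit 0)) (T.h (M (nat_lit 28442811896070351618047)) (T.h (P (nat_lit 0)) (M (nat_lit 3880718776664063))))) (T.h (P (nat_lit 0)) (T.h (T.h (P (nat_lit 0)) (M (nat_lit 39832931888037887))) (P (nat_lit 0))))) (T.h (T.h (P (nat_lit 0)) (T.h (T.h (M (nat_lit 4033459024174252031)) (T.h (P (nat_lit 0)) (P (nat_lit 18253563038648)))) (T.h (P (nat_lit 0)) (M (nat_lit 124545891378263))))) (T.h (T.h (T.h (P (nat_lit 0)) (M (nat_lit 22434746824687615))) (P (nat_lit 0))) (T.h (T.h (P (nat_lit 0)) (M (nat_lit 18308099831167))) (P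 (nat_lit 0)))))))), (T.h (T.h (T.h (P (nat_lit 221815957248227472857689472630784)) (T.h (P (nat_lit 0)) (T.h (M (nat_lit 21301793150286031799451647)) (T.h (P (nat_lit 0)) (T.h (P (nat_lit 5811565880164745216)) (T.h (P (nat_lit 0)) (M (nat_lit 12558189962591)))))))) (T.h (P (nat_lit 0)) (T.h (T.h (P (nat_lit 30988763977504371698040832)) (T.h (P (nat_lit 0)) (T.h (P (nat_lit 12577470158727020544)) (T.h (P (nat_lit 0)) (M (nat_lit 14702718992527)))))) (T.h (P (nat_lit 0)) (T.h (T.h (P (nat_lit 53072859227878326272)) (T.h (P (nat_lit 0)) (M (nat_lit 126875042397455)))) (T.h (P (nat_lit 0)) (P (nat_lit 88283525211360)))))))) (T.h (T.h (P (nat_lit 0)) (T.h (T.h (P (nat_lit 0)) (T.h (P (nat_lit 56538922558053991579648)) (T.h (P (nat_lit 0)) (P (nat_lit 83429182192615424))))) (T.h (P (nat_lit 0)) (T.h (T.h (P (nat_lit 0)) (P (nat_lit 87981380135452672))) (P (nat_lit 0)))))) (T.h (T.h (T.h (P (nat_lit 28229558321699971322085376)) (T.h (P (nat_lit 0)) (T.h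 (M (nat_lit 94827715425185300479)) (T.h (P (nat_lit 0)) (P (nat_lit 48802162919344)))))) (T.h (P (nat_lit 0)) (T.h (T.h (M (nat_lit 157729516029757882367)) (T.h (P (nat_lit 0)) (M (nat_lit 17082524090335)))) (T.h (P (nat_lit 0)) (M (nat_lit 380349276558495)))))) (T.h (T.h (P (nat_lit 0)) (T.h (T.h (P (nat_lit 0)) (P (nat_lit 142903026199724032))) (P (nat_lit 0)))) (T.h (T.h (T.h (P (nat_lit 20037403880999354368)) (T.h (P (nat_lit 0)) (M (nat_lit 112606955192847)))) (T.h (P (nat_lit 0)) (M (nat_lit 466618206601247)))) (T.h (P (nat_lit 0)) (M (nat_lit 4842135423775))))))))]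
def lP22_16 : List (T ℤ) := [(T.h (T.h (T.h (P (nat_lit 0)) (T.h (M (nat_lit 132369288350525572991942655)) (T.h (P (nat_lit 0)) (T.h (P (nat_lit 13122000031705116704768)) (T.h (P (nat_lit 0)) (P (nat_lit 10357380856741888))))))) (T.h (P (nat_lit 0)) (T.h (T.h (P (nat_lit 0)) (T.h (P (nat_lit 49960300879624666087424)) (T.h (P (nat_lit 0)) (M (nat_lit 11210096307503103))))) (T.h (P (nat_lit 0)) (T.h (T.h (P (nat_lit 0)) (P (nat_lit 27722015675285504))) (P (nat_lit 0))))))) (T.h (T.h (P (nat_lit 0)) (T.h (T.h (M (nat_lit 8616355234777971214516223)) (T.h (P (nat_lit 0)) (T.h (P (nat_lit 19834865608059518976)) (T.h (P (nat_lit 0)) (P (nat_lit 60164369042112)))))) (T.h (P (nat_lit 0)) (T.h (T.h (M (nat_lit 33920691208863088639)) (T.h (P (nat_lit 0)) (M (nat_lit 28022299488335)))) (T.h (P (nat_lit 0)) (P (nat_lit 14274935509968))))))) (T.h (T.h (T.h (P (nat_lit 0)) (T.h (P (nat_lit 14534661823462069239808)) (T.h (P (nat_lit 0)) (M (nat_lit 58464951468785663)))))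 (T.h (P (nat_lit 0)) (T.h (T.h (P (nat_lit 0)) (P (nat_lit 98496929035583488))) (P (nat_lit 0))))) (T.h (T.h (P (nat_lit 0)) (T.h (T.h (P (nat_lit 53739077057741062144)) (T.h (P (nat_lit 0)) (M (nat_lit 80729688598463)))) (T.h (P (nat_lit 0)) (P (nat_lit 166972691656224))))) (T.h (T.h (T.h (P (nat_lit 0)) (M (nat_lit 1289211891023871))) (P (nat_lit 0))) (T.h (T.h (P (nat_lit 0)) (P (nat_lit 28312305720144))) (P (nat_lit 0)))))))), (T.h (T.h (T.h (M (nat_lit 301930430976752772082627178921983)) (T.h (P (nat_lit 0)) (T.h (P (nat_lit 33805788263958837123350528)) (T.h (P (nat_lit 0)) (T.h (M (nat_lit 10211001621526085631)) (T.h (P (nat_lit 0)) (P (nat_lit 12869594454240)))))))) (T.h (P (nat_lit 0)) (T.h (T.h (M (nat_lit 40800231124997339869085695)) (T.h (P (nat_lit 0)) (T.h (P (nat_lit 38408148355330867200)) (T.h (P (nat_lit 0)) (P (nat_lit 6266323263456)))))) (T.h (P (nat_lit 0)) (T.h (T.h (M (nat_lit 76093811097564348415)) (T.h (P (nat_lit 0)) (P (nat_lit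 235108562050512)))) (T.h (P (nat_lit 0)) (M (nat_lit 144214233157871)))))))) (T.h (T.h (P (nat_lit 0)) (T.h (T.h (P (nat_lit 0)) (T.h (M (nat_lit 15720829254011153547263)) (T.h (P (nat_lit 0)) (M (nat_lit 101880128713752575))))) (T.h (P (nat_lit 0)) (T.h (T.h (P (nat_lit 0)) (M (nat_lit 167729696344506367))) (P (nat_lit 0)))))) (T.h (T.h (T.h (M (nat_lit 34278694039064037843533823)) (T.h (P (nat_lit 0)) (T.h (P (nat_lit 18946603044034314240)) (T.h (P (nat_lit 0)) (M (nat_lit 97449469217855)))))) (T.h (P (nat_lit 0)) (T.h (T.h (P (nat_lit 302242232728647892992)) (T.h (P (nat_lit 0)) (P (nat_lit 15425047489248)))) (T.h (P (nat_lit 0)) (P (nat_lit 724853574919152)))))) (T.h (T.h (P (nat_lit 0)) (T.h (T.h (P (nat_lit 0)) (M (nat_lit 220461292208062463))) (P (nat_lit 0)))) (T.h (T.h (T.h (M (nat_lit 10152285000142159871)) (T.h (P (nat_lit 0)) (P (nat_lit 236063081848752)))) (T.h (P (nat_lit 0)) (P (nat_lit 871940962933920)))) (T.h (P (nat_lit 0)) (M (nat_lit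 48090083543279)))))))), (T.h (T.h (T.h (P (nat_lit 0)) (T.h (M (nat_lit 10614761242930332693178613759)) (T.h (P (nat_lit 0)) (T.h (P (nat_lit 390231007182503018496)) (T.h (P (nat_lit 0)) (M (nat_lit 19551959132831743))))))) (T.h (P (nat_lit 0)) (T.h (T.h (P (nat_lit 0)) (T.h (M (nat_lit 21824008348600161533951)) (T.h (P (nat_lit 0)) (M (nat_lit 9927204396433407))))) (T.h (P (nat_lit 0)) (T.h (T.h (P (nat_lit 0)) (M (nat_lit 94813427255377919))) (P (nat_lit 0))))))) (T.h (T.h (P (nat_lit 0)) (T.h (T.h (M (nat_lit 2659624865460651913379839)) (T.h (P (nat_lit 0)) (P (nat_lit 17235806462521901056)))) (T.h (P (nat_lit 0)) (M (nat_lit 19608532925517135871))))) (T.h (T.h (T.h (P (nat_lit 0)) (T.h (M (nat_lit 47396560525827472621567)) (T.h (P (nat_lit 0)) (P (nat_lit 96706364304392192))))) (T.h (P (nat_lit 0)) (T.h (T.h (P (nat_lit 0)) (M (nat_lit 22235135677235199))) (P (nat_lit 0))))) (T.h (T.h (P (nat_lit 0)) (M (nat_lit 14281166475124277247))) (T.h (T.h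 (T.h (P (nat_lit 0)) (M (nat_lit 63546177339752447))) (P (nat_lit 0))) (P (nat_lit 0))))))), (P (nat_lit 0)), (P (nat_lit 0)), (T.h (T.h (P (nat_lit 0)) (T.h (T.h (P (nat_lit 6088348195122486763923177472)) (T.h (P (nat_lit 0)) (T.h (M (nat_lit 47295177347541491515391)) (T.h (P (nat_lit 0)) (P (nat_lit 29590114659729408)))))) (T.h (P (nat_lit 0)) (T.h (T.h (P (nat_lit 15278871285793812381696)) (T.h (P (nat_lit 0)) (P (nat_lit 173223522938322944)))) (T.h (P (nat_lit 0)) (M (nat_lit 39641499995897855))))))) (T.h (T.h (T.h (P (nat_lit 0)) (T.h (P (nat_lit 5586559612285185070989312)) (T.h (P (nat_lit 0)) (T.h (P (nat_lit 18303798455157391360)) (T.h (P (nat_lit 0)) (M (nat_lit 28311984350855))))))) (T.h (P (nat_lit 0)) (T.h (T.h (P (nat_lit 0)) (T.h (M (nat_lit 46472014677212659711)) (T.h (P (nat_lit 0)) (P (nat_lit 16886384530680))))) (T.h (P (nat_lit 0)) (T.h (T.h (P (nat_lit 0)) (M (nat_lit 7072690798567))) (P (nat_lit 0))))))) (T.h (T.h (P (nat_lit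 0)) (T.h (T.h (P (nat_lit 26273341414655028887552)) (T.h (P (nat_lit 0)) (P (nat_lit 71846498905096192)))) (T.h (P (nat_lit 0)) (M (nat_lit 88555637389066239))))) (T.h (T.h (T.h (P (nat_lit 0)) (T.h (M (nat_lit 38035878949488164863)) (T.h (P (nat_lit 0)) (P (nat_lit 44372658307848))))) (T.h (P (nat_lit 0)) (T.h (T.h (P (nat_lit 0)) (M (nat_lit 50023920775135))) (P (nat_lit 0))))) (T.h (T.h (P (nat_lit 0)) (P (nat_lit 28646689609252864))) (T.h (T.h (T.h (P (nat_lit 0)) (P (nat_lit 43589744350600))) (P (nat_lit 0))) (P (nat_lit 0)))))))), (T.h (T.h (P (nat_lit 0)) (T.h (T.h (P (nat_lit 0)) (T.h (M (nat_lit 52975290750574589512777727)) (T.h (P (nat_lit 0)) (T.h (P (nat_lit 11868878183400996864)) (T.h (P (nat_lit 0)) (M (nat_lit 50136009656079))))))) (T.h (P (nat_lit 0)) (T.h (T.h (P (nat_lit 0)) (T.h (M (nat_lit 34904935235500113919)) (T.h (P (nat_lit 0)) (M (nat_lit 7360504039919))))) (T.h (P (nat_lit 0)) (T.h (T.h (P (nat_lit 0)) (P (nat_lit 56298792702432)))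 (P (nat_lit 0)))))))) (T.h (T.h (T.h (P (nat_lit 3324441184928717394342313984)) (T.h (P (nat_lit 0)) (T.h (P (nat_lit 50426773189384116109312)) (T.h (P (nat_lit 0)) (P (nat_lit 98180799485198336)))))) (T.h (P (nat_lit 0)) (T.h (T.h (P (nat_lit 45332878682941263183872)) (T.h (P (nat_lit 0)) (M (nat_lit 116859597552058367)))) (T.h (P (nat_lit 0)) (M (nat_lit 57941056670203903)))))) (T.h (T.h (P (nat_lit 0)) (T.h (T.h (P (nat_lit 0)) (T.h (M (nat_lit 80555065487084486655)) (T.h (P (nat_lit 0)) (M (nat_lit 5372284740815))))) (T.h (P (nat_lit 0)) (T.h (T.h (P (nat_lit 0)) (P (nat_lit 33090015529024))) (P (nat_lit 0)))))) (T.h (T.h (T.h (P (nat_lit 25261100213903260909568)) (T.h (P (nat_lit 0)) (M (nat_lit 12153504290111487)))) (T.h (P (nat_lit 0)) (M (nat_lit 16134266504249343)))) (T.h (T.h (P (nat_lit 0)) (T.h (T.h (P (nat_lit 0)) (P (nat_lit 44659019242992))) (P (nat_lit 0)))) (P (nat_lit 27838622424006656))))))), (T.h (T.h (P (nat_lit 0)) (T.h (T.h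 (M (nat_lit 15090455622766928826954940415)) (T.h (P (nat_lit 0)) (T.h (P (nat_lit 34449875306500239392768)) (T.h (P (nat_lit 0)) (M (nat_lit 98869187456008191)))))) (T.h (P (nat_lit 0)) (T.h (T.h (P (nat_lit 6456252935342588428288)) (T.h (P (nat_lit 0)) (P (nat_lit 198833590393143296)))) (T.h (P (nat_lit 0)) (M (nat_lit 50528122080002047))))))) (T.h (T.h (T.h (P (nat_lit 0)) (T.h (P (nat_lit 10068552722795612291989504)) (T.h (P (nat_lit 0)) (T.h (M (nat_lit 119100335992120279039)) (T.h (P (nat_lit 0)) (P (nat_lit 69011936055024))))))) (T.h (P (nat_lit 0)) (T.h (T.h (P (nat_lit 0)) (T.h (M (nat_lit 39613226278748946431)) (T.h (P (nat_lit 0)) (M (nat_lit 104841686593631))))) (T.h (P (nat_lit 0)) (T.h (T.h (P (nat_lit 0)) (M (nat_lit 21695537416079))) (P (nat_lit 0))))))) (T.h (T.h (P (nat_lit 0)) (T.h (T.h (P (nat_lit 126012551805512213069824)) (T.h (P (nat_lit 0)) (M (nat_lit 72723711117164543)))) (T.h (P (nat_lit 0)) (P (nat_lit 452982372442505216)))))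 (T.h (T.h (T.h (P (nat_lit 0)) (T.h (P (nat_lit 221726420270263042048)) (T.h (P (nat_lit 0)) (P (nat_lit 62131361260368))))) (T.h (P (nat_lit 0)) (T.h (T.h (P (nat_lit 0)) (P (nat_lit 48251842434480))) (P (nat_lit 0))))) (T.h (T.h (P (nat_lit 0)) (P (nat_lit 251079679583748096))) (T.h (T.h (T.h (P (nat_lit 0)) (M (nat_lit 13001708302415))) (P (nat_lit 0))) (P (nat_lit 0))))))))]
def lP22_17 : List (T ℤ) := [(T.h (T.h (P (nat_lit 0)) (T.h (T.h (P (nat_lit 0)) (T.h (P (nat_lit 40849003622773885308502016)) (T.h (P (nat_lit 0)) (T.h (P (nat_lit 87747530647467458560)) (T.h (P (nat_lit 0)) (P (nat_lit 41456688470064))))))) (T.h (P (nat_lit 0)) (T.h (T.h (P (nat_lit 0)) (T.h (P (nat_lit 88674402378826383360)) (T.h (P (nat_lit 0)) (P (nat_lit 1107098952480))))) (T.h (P (nat_lit 0)) (T.h (T.h (P (nat_lit 0)) (M (nat_lit 84423952920671))) (P (nat_lit 0)))))))) (T.h (T.h (T.h (M (nat_lit 23750497267468145476803493887)) (T.h (P (nat_lit 0)) (T.h (P (nat_lit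 201669130040785399447552)) (T.h (P (nat_lit 0)) (M (nat_lit 195828628248412159)))))) (T.h (P (nat_lit 0)) (T.h (T.h (M (nat_lit 40074269084746944348159)) (T.h (P (nat_lit 0)) (P (nat_lit 240338476512886784)))) (T.h (P (nat_lit 0)) (P (nat_lit 197422760820899840)))))) (T.h (T.h (P (nat_lit 0)) (T.h (T.h (P (nat_lit 0)) (T.h (M (nat_lit 85393950303710085119)) (T.h (P (nat_lit 0)) (P (nat_lit 15312153295584))))) (T.h (P (nat_lit 0)) (T.h (T.h (P (nat_lit 0)) (M (nat_lit 193539970835423))) (P (nat_lit 0)))))) (T.h (T.h (T.h (M (nat_lit 88579240001019647623167)) (T.h (P (nat_lit 0)) (P (nat_lit 110201006966620160)))) (T.h (P (nat_lit 0)) (P (nat_lit 20310419239223296)))) (T.h (T.h (P (nat_lit 0)) (T.h (T.h (P (nat_lit 0)) (M (nat_lit 192967807010831))) (P (nat_lit 0)))) (M (nat_lit 84785619645956095))))))), (T.h (T.h (P (nat_lit 0)) (T.h (T.h (P (nat_lit 1388872802706113833549692928)) (T.h (P (nat_lit 0)) (T.h (P (nat_lit 10536253322663649345536)) (T.h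 (P (nat_lit 0)) (M (nat_lit 71259882152165375)))))) (T.h (P (nat_lit 0)) (T.h (T.h (P (nat_lit 74920589271901388406784)) (T.h (P (nat_lit 0)) (M (nat_lit 205977163513462783)))) (T.h (P (nat_lit 0)) (P (nat_lit 200522911912558592))))))) (T.h (T.h (T.h (P (nat_lit 0)) (T.h (M (nat_lit 15756539649685463723147263)) (T.h (P (nat_lit 0)) (P (nat_lit 15989594025086681088))))) (T.h (P (nat_lit 0)) (T.h (T.h (P (nat_lit 0)) (P (nat_lit 40276694820655726592))) (P (nat_lit 0))))) (T.h (T.h (P (nat_lit 0)) (T.h (T.h (M (nat_lit 169228850840438533259263)) (T.h (P (nat_lit 0)) (P (nat_lit 8865754401996800)))) (T.h (P (nat_lit 0)) (M (nat_lit 637517929250750463))))) (T.h (T.h (T.h (P (nat_lit 0)) (M (nat_lit 17859271203097673727))) (P (nat_lit 0))) (T.h (T.h (P (nat_lit 0)) (M (nat_lit 430862760275705855))) (P (nat_lit 0))))))), (P (nat_lit 0)), (P (nat_lit 0)), (T.h (T.h (T.h (P (nat_lit 0)) (T.h (M (nat_lit 25701860563623398398910005247)) (T.h (P (nat_lit 0))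 (T.h (M (nat_lit 11053740652807004880895)) (T.h (P (nat_lit 0)) (P (nat_lit 8209187272196096))))))) (T.h (P (nat_lit 0)) (T.h (T.h (P (nat_lit 0)) (T.h (P (nat_lit 171696789157313301708800)) (T.h (P (nat_lit 0)) (P (nat_lit 85651475047120896))))) (T.h (P (nat_lit 0)) (T.h (T.h (P (nat_lit 0)) (P (nat_lit 59794908404940800))) (P (nat_lit 0))))))) (T.h (T.h (P (nat_lit 0)) (T.h (T.h (M (nat_lit 43661592855513208723603455)) (T.h (P (nat_lit 0)) (T.h (M (nat_lit 171412489114109345791)) (T.h (P (nat_lit 0)) (M (nat_lit 16306529748567)))))) (T.h (P (nat_lit 0)) (T.h (T.h (M (nat_lit 69885795509410463743)) (T.h (P (nat_lit 0)) (M (nat_lit 24203224311751)))) (T.h (P (nat_lit 0)) (M (nat_lit 32594679829151))))))) (T.h (T.h (T.h (P (nat_lit 0)) (T.h (P (nat_lit 91696012296090950828032)) (T.h (P (nat_lit 0)) (M (nat_lit 27168631384899583))))) (T.h (P (nat_lit 0)) (T.h (T.h (P (nat_lit 0)) (M (nat_lit 5597458710626303))) (P (nat_lit 0))))) (T.h (T.h (P (nat_lit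 0)) (T.h (T.h (M (nat_lit 87661079254234300415)) (T.h (P (nat_lit 0)) (M (nat_lit 18221469937063)))) (T.h (P (nat_lit 0)) (P (nat_lit 60712894579320))))) (T.h (T.h (T.h (P (nat_lit 0)) (M (nat_lit 4811877612748799))) (P (nat_lit 0))) (T.h (T.h (P (nat_lit 0)) (P (nat_lit 10769450979968))) (P (nat_lit 0)))))))), (T.h (T.h (T.h (P (nat_lit 90919965927699648071075150954496)) (T.h (P (nat_lit 0)) (T.h (M (nat_lit 59069002839219290536673279)) (T.h (P (nat_lit 0)) (T.h (M (nat_lit 15046290345585278975)) (T.h (P (nat_lit 0)) (M (nat_lit 21456184609823)))))))) (T.h (P (nat_lit 0)) (T.h (T.h (M (nat_lit 17606398215889679659565055)) (T.h (P (nat_lit 0)) (T.h (M (nat_lit 36520639950911176703)) (T.h (P (nat_lit 0)) (P (nat_lit 23033258137024)))))) (T.h (P (nat_lit 0)) (T.h (T.h (M (nat_lit 7848427304328888319)) (T.h (P (nat_lit 0)) (M (nat_lit 13430654916799)))) (T.h (P (nat_lit 0)) (M (nat_lit 67029174892799)))))))) (T.h (T.h (P (nat_lit 0)) (T.h (T.h (P (nat_lit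 0)) (T.h (P (nat_lit 77741490753788796993536)) (T.h (P (nat_lit 0)) (P (nat_lit 31457375987564544))))) (T.h (P (nat_lit 0)) (T.h (T.h (P (nat_lit 0)) (P (nat_lit 84880849788010496))) (P (nat_lit 0)))))) (T.h (T.h (T.h (M (nat_lit 14847192560085279283609599)) (T.h (P (nat_lit 0)) (T.h (P (nat_lit 70884545633001144320)) (T.h (P (nat_lit 0)) (M (nat_lit 40471623774847)))))) (T.h (P (nat_lit 0)) (T.h (T.h (P (nat_lit 67519148981114372096)) (T.h (P (nat_lit 0)) (M (nat_lit 21861736655647)))) (T.h (P (nat_lit 0)) (M (nat_lit 98647648209967)))))) (T.h (T.h (P (nat_lit 0)) (T.h (T.h (P (nat_lit 0)) (P (nat_lit 29959203723739136))) (P (nat_lit 0)))) (T.h (T.h (T.h (P (nat_lit 25187028042550083584)) (T.h (P (nat_lit 0)) (M (nat_lit 27698742121407)))) (T.h (P (nat_lit 0)) (M (nat_lit 12378718167215)))) (T.h (P (nat_lit 0)) (P (nat_lit 26096485742336)))))))), (T.h (T.h (T.h (P (nat_lit 0)) (T.h (P (nat_lit 17082036413506276926519508992)) (T.h (P (nat_lit 0))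 (T.h (M (nat_lit 114527323423051584897023)) (T.h (P (nat_lit 0)) (M (nat_lit 9288448203948031))))))) (T.h (P (nat_lit 0)) (T.h (T.h (P (nat_lit 0)) (T.h (M (nat_lit 390753419711211322212351)) (T.h (P (nat_lit 0)) (P (nat_lit 133608228411277312))))) (T.h (P (nat_lit 0)) (T.h (T.h (P (nat_lit 0)) (P (nat_lit 69628086113042432))) (P (nat_lit 0))))))) (T.h (T.h (P (nat_lit 0)) (T.h (T.h (M (nat_lit 18234229295357103219671039)) (T.h (P (nat_lit 0)) (T.h (P (nat_lit 240577523003248607232)) (T.h (P (nat_lit 0)) (P (nat_lit 190615479019776)))))) (T.h (P (nat_lit 0)) (T.h (T.h (P (nat_lit 283096305960082210816)) (T.h (P (nat_lit 0)) (M (nat_lit 87152537813951)))) (T.h (P (nat_lit 0)) (P (nat_lit 43733501269728))))))) (T.h (T.h (T.h (P (nat_lit 0)) (T.h (M (nat_lit 269358145763738191396863)) (T.h (P (nat_lit 0)) (M (nat_lit 179654202756825087))))) (T.h (P (nat_lit 0)) (T.h (T.h (P (nat_lit 0)) (M (nat_lit 350429977944653823))) (P (nat_lit 0))))) (T.h (T.h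 (P (nat_lit 0)) (T.h (T.h (P (nat_lit 295544313700350427136)) (T.h (P (nat_lit 0)) (M (nat_lit 34445148703823)))) (T.h (P (nat_lit 0)) (P (nat_lit 63398187716256))))) (T.h (T.h (T.h (P (nat_lit 0)) (M (nat_lit 304326929354260479))) (P (nat_lit 0))) (T.h (T.h (P (nat_lit 0)) (P (nat_lit 29696131059552))) (P (nat_lit 0)))))))), (T.h (T.h (T.h (M (nat_lit 365859056997179494311217774723071)) (T.h (P (nat_lit 0)) (T.h (M (nat_lit 73227404190882109946068991)) (T.h (P (nat_lit 0)) (T.h (P (nat_lit 4577853697681260544)) (T.h (P (nat_lit 0)) (M (nat_lit 16363685155391)))))))) (T.h (P (nat_lit 0)) (T.h (T.h (P (nat_lit 95043781126207988461207552)) (T.h (P (nat_lit 0)) (T.h (M (nat_lit 318690438135297343487)) (T.h (P (nat_lit 0)) (M (nat_lit 102045009261311)))))) (T.h (P (nat_lit 0)) (T.h (T.h (P (nat_lit 45402449796753522688)) (T.h (P (nat_lit 0)) (P (nat_lit 149472599354640)))) (T.h (P (nat_lit 0)) (P (nat_lit 56467437188544)))))))) (T.h (T.h (P (nat_lit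 0)) (T.h (T.h (P (nat_lit 0)) (T.h (P (nat_lit 80005365493780478689280)) (T.h (P (nat_lit 0)) (M (nat_lit 168651984377249791))))) (T.h (P (nat_lit 0)) (T.h (T.h (P (nat_lit 0)) (P (nat_lit 484838152563261440))) (P (nat_lit 0)))))) (T.h (T.h (T.h (P (nat_lit 88522244040274686435655680)) (T.h (P (nat_lit 0)) (T.h (M (nat_lit 299228892824000790527)) (T.h (P (nat_lit 0)) (P (nat_lit 1670783220000)))))) (T.h (P (nat_lit 0)) (T.h (T.h (P (nat_lit 62140088511780356096)) (T.h (P (nat_lit 0)) (M (nat_lit 124747445216159)))) (T.h (P (nat_lit 0)) (P (nat_lit 523795312924848)))))) (T.h (T.h (P (nat_lit 0)) (T.h (T.h (P (nat_lit 0)) (P (nat_lit 537569748426817536))) (P (nat_lit 0)))) (T.h (T.h (T.h (M (nat_lit 20539076300668665855)) (T.h (P (nat_lit 0)) (P (nat_lit 148518079556400)))) (T.h (P (nat_lit 0)) (P (nat_lit 376707924910080)))) (T.h (P (nat_lit 0)) (M (nat_lit 39656712426047))))))))]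
def lP22_18 : List (T ℤ) := [(T.h (T.h (T.h (P (nat_lit 0)) (T.h (P (nat_lit 13246153738169170192895049728)) (T.h (P (nat_lit 0)) (T.h (P (nat_lit 22282810127419298545664)) (T.h (P (nat_lit 0)) (P (nat_lit 5455158084206592))))))) (T.h (P (nat_lit 0)) (T.h (T.h (P (nat_lit 0)) (T.h (P (nat_lit 166204689587340104957952)) (T.h (P (nat_lit 0)) (P (nat_lit 92866947705438208))))) (T.h (P (nat_lit 0)) (T.h (T.h (P (nat_lit 0)) (P (nat_lit 59752861649862656))) (P (nat_lit 0))))))) (T.h (T.h (P (nat_lit 0)) (T.h (T.h (P (nat_lit 16394297414832749627310080)) (T.h (P (nat_lit 0)) (M (nat_lit 71002780518664110079)))) (T.h (P (nat_lit 0)) (M (nat_lit 298934512071659749375))))) (T.h (T.h (T.h (P (nat_lit 0)) (T.h (P (nat_lit 191777241764567416045568)) (T.h (P (nat_lit 0)) (M (nat_lit 13766620995387391))))) (T.h (P (nat_lit 0)) (T.h (T.h (P (nat_lit 0)) (P (nat_lit 336235547090026496))) (P (nat_lit 0))))) (T.h (T.h (P (nat_lit 0)) (M (nat_lit 304261878522052607999)))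 (T.h (T.h (T.h (P (nat_lit 0)) (P (nat_lit 28485611734237184))) (P (nat_lit 0))) (P (nat_lit 0))))))), (P (nat_lit 0)), (P (nat_lit 0)), (T.h (T.h (P (nat_lit 0)) (T.h (T.h (M (nat_lit 32065154453898497941303197695)) (T.h (P (nat_lit 0)) (T.h (P (nat_lit 91741980436332451725312)) (T.h (P (nat_lit 0)) (P (nat_lit 21160284092170240)))))) (T.h (P (nat_lit 0)) (T.h (T.h (P (nat_lit 81758131380038498516992)) (T.h (P (nat_lit 0)) (M (nat_lit 19387694308065279)))) (T.h (P (nat_lit 0)) (M (nat_lit 3598955402100735))))))) (T.h (T.h (T.h (P (nat_lit 0)) (T.h (M (nat_lit 8543937776108218611662847)) (T.h (P (nat_lit 0)) (T.h (P (nat_lit 1136477394459164672)) (T.h (P (nat_lit 0)) (M (nat_lit 32083147781887))))))) (T.h (P (nat_lit 0)) (T.h (T.h (P (nat_lit 0)) (T.h (M (nat_lit 204734582535728660479)) (T.h (P (nat_lit 0)) (P (nat_lit 120764891693008))))) (T.h (P (nat_lit 0)) (T.h (T.h (P (nat_lit 0)) (M (nat_lit 308326662074127))) (P (nat_lit 0))))))) (T.h (T.h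 (P (nat_lit 0)) (T.h (T.h (P (nat_lit 91741980436332451725312)) (T.h (P (nat_lit 0)) (M (nat_lit 89733654143631359)))) (T.h (P (nat_lit 0)) (M (nat_lit 19387694308065279))))) (T.h (T.h (T.h (P (nat_lit 0)) (T.h (P (nat_lit 1136477394459164672)) (T.h (P (nat_lit 0)) (M (nat_lit 35555242524527))))) (T.h (P (nat_lit 0)) (T.h (T.h (P (nat_lit 0)) (P (nat_lit 120764891693008))) (P (nat_lit 0))))) (T.h (T.h (P (nat_lit 0)) (P (nat_lit 21160284092170240))) (T.h (T.h (T.h (P (nat_lit 0)) (M (nat_lit 32083147781887))) (P (nat_lit 0))) (P (nat_lit 0)))))))), (T.h (T.h (P (nat_lit 0)) (T.h (T.h (P (nat_lit 0)) (T.h (M (nat_lit 1982739573423292100378623)) (T.h (P (nat_lit 0)) (T.h (M (nat_lit 186403039378019450879)) (T.h (P (nat_lit 0)) (P (nat_lit 10502331506128))))))) (T.h (P (nat_lit 0)) (T.h (T.h (P (nat_lit 0)) (T.h (M (nat_lit 131245991172652400639)) (T.h (P (nat_lit 0)) (P (nat_lit 35259020168128))))) (T.h (P (nat_lit 0)) (T.h (T.h (P (nat_lit 0)) (M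 (nat_lit 41141546793535))) (P (nat_lit 0)))))))) (T.h (T.h (T.h (P (nat_lit 36062601170929444725066825728)) (T.h (P (nat_lit 0)) (T.h (P (nat_lit 22020751074150062227456)) (T.h (P (nat_lit 0)) (P (nat_lit 49304697967296512)))))) (T.h (P (nat_lit 0)) (T.h (T.h (P (nat_lit 17833319142632502329344)) (T.h (P (nat_lit 0)) (P (nat_lit 211985984901169152)))) (T.h (P (nat_lit 0)) (P (nat_lit 85714983981924352)))))) (T.h (T.h (P (nat_lit 0)) (T.h (T.h (P (nat_lit 0)) (T.h (M (nat_lit 361745294728278048767)) (T.h (P (nat_lit 0)) (M (nat_lit 33007436532031))))) (T.h (P (nat_lit 0)) (T.h (T.h (P (nat_lit 0)) (M (nat_lit 65824807301439))) (P (nat_lit 0)))))) (T.h (T.h (T.h (P (nat_lit 29668631029845084602368)) (T.h (P (nat_lit 0)) (P (nat_lit 12166237003956224)))) (T.h (P (nat_lit 0)) (P (nat_lit 28937019832778752)))) (T.h (T.h (P (nat_lit 0)) (T.h (T.h (P (nat_lit 0)) (P (nat_lit 12497417382016))) (P (nat_lit 0)))) (P (nat_lit 41830868405092352))))))), (T.h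 (T.h (P (nat_lit 0)) (T.h (T.h (P (nat_lit 58338322745655305359807479808)) (T.h (P (nat_lit 0)) (T.h (M (nat_lit 547303062642554096844799)) (T.h (P (nat_lit 0)) (P (nat_lit 198891281537531904)))))) (T.h (P (nat_lit 0)) (T.h (T.h (M (nat_lit 143992858799189258141695)) (T.h (P (nat_lit 0)) (P (nat_lit 35914537506177024)))) (T.h (P (nat_lit 0)) (P (nat_lit 127095104719126528))))))) (T.h (T.h (T.h (P (nat_lit 0)) (T.h (M (nat_lit 29977597977430621685809151)) (T.h (P (nat_lit 0)) (T.h (P (nat_lit 548058563199883018240)) (T.h (P (nat_lit 0)) (P (nat_lit 20692215999552))))))) (T.h (P (nat_lit 0)) (T.h (T.h (P (nat_lit 0)) (T.h (P (nat_lit 733060897668971102208)) (T.h (P (nat_lit 0)) (M (nat_lit 71286842391023))))) (T.h (P (nat_lit 0)) (T.h (T.h (P (nat_lit 0)) (P (nat_lit 75199114826304))) (P (nat_lit 0))))))) (T.h (T.h (P (nat_lit 0)) (T.h (T.h (M (nat_lit 196566714422856253439999)) (T.h (P (nat_lit 0)) (M (nat_lit 290464226375008255)))) (T.h (P (nat_lit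 0)) (M (nat_lit 133463193925386239))))) (T.h (T.h (T.h (P (nat_lit 0)) (T.h (P (nat_lit 235249386978065514496)) (T.h (P (nat_lit 0)) (M (nat_lit 27999752123807))))) (T.h (P (nat_lit 0)) (T.h (T.h (P (nat_lit 0)) (M (nat_lit 26168208122831))) (P (nat_lit 0))))) (T.h (T.h (P (nat_lit 0)) (M (nat_lit 295902911463981055))) (T.h (T.h (T.h (P (nat_lit 0)) (P (nat_lit 33509116181904))) (P (nat_lit 0))) (P (nat_lit 0)))))))), (T.h (T.h (P (nat_lit 0)) (T.h (T.h (P (nat_lit 0)) (T.h (M (nat_lit 18855536584253307631960063)) (T.h (P (nat_lit 0)) (T.h (M (nat_lit 157459183668635369471)) (T.h (P (nat_lit 0)) (P (nat_lit 17048348072064))))))) (T.h (P (nat_lit 0)) (T.h (T.h (P (nat_lit 0)) (T.h (M (nat_lit 52671097644393693183)) (T.h (P (nat_lit 0)) (M (nat_lit 10185240531311))))) (T.h (P (nat_lit 0)) (T.h (T.h (P (nat_lit 0)) (M (nat_lit 46596410198495))) (P (nat_lit 0)))))))) (T.h (T.h (T.h (M (nat_lit 164541358652724079579220672511)) (T.h (P (nat_lit 0)) (T.h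 (M (nat_lit 30443823574535712538623)) (T.h (P (nat_lit 0)) (M (nat_lit 9338296426364927)))))) (T.h (P (nat_lit 0)) (T.h (T.h (P (nat_lit 86926503243103613222912)) (T.h (P (nat_lit 0)) (P (nat_lit 228576517300535296)))) (T.h (P (nat_lit 0)) (P (nat_lit 38132951317643264)))))) (T.h (T.h (P (nat_lit 0)) (T.h (T.h (P (nat_lit 0)) (T.h (M (nat_lit 734604657569608761343)) (T.h (P (nat_lit 0)) (M (nat_lit 98400705361055))))) (T.h (P (nat_lit 0)) (T.h (T.h (P (nat_lit 0)) (M (nat_lit 168127064745695))) (P (nat_lit 0)))))) (T.h (T.h (T.h (M (nat_lit 205694808157285431377919)) (T.h (P (nat_lit 0)) (P (nat_lit 137989895693352960)))) (T.h (P (nat_lit 0)) (P (nat_lit 236066012307668992)))) (T.h (T.h (P (nat_lit 0)) (T.h (T.h (P (nat_lit 0)) (M (nat_lit 297989783130959))) (P (nat_lit 0)))) (M (nat_lit 110618415237251071))))))), (T.h (T.h (P (nat_lit 0)) (T.h (T.h (P (nat_lit 582142847540216020055621632)) (T.h (P (nat_lit 0)) (T.h (P (nat_lit 291093967612907788173312))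 (T.h (P (nat_lit 0)) (P (nat_lit 32110643246071808)))))) (T.h (P (nat_lit 0)) (T.h (T.h (M (nat_lit 38136091729712604250111)) (T.h (P (nat_lit 0)) (M (nat_lit 91385267866566655)))) (T.h (P (nat_lit 0)) (M (nat_lit 84116176310534143))))))) (T.h (T.h (T.h (P (nat_lit 0)) (T.h (M (nat_lit 97155157171162051183116287)) (T.h (P (nat_lit 0)) (M (nat_lit 111930520095617449983))))) (T.h (P (nat_lit 0)) (T.h (T.h (P (nat_lit 0)) (M (nat_lit 461555658556035825663))) (P (nat_lit 0))))) (T.h (T.h (P (nat_lit 0)) (T.h (T.h (M (nat_lit 172720657896388696211455)) (T.h (P (nat_lit 0)) (P (nat_lit 210992573506224128)))) (T.h (P (nat_lit 0)) (M (nat_lit 436876660536344575))))) (T.h (T.h (T.h (P (nat_lit 0)) (M (nat_lit 158818508046279376895))) (P (nat_lit 0))) (T.h (T.h (P (nat_lit 0)) (M (nat_lit 140017003359928319))) (P (nat_lit 0)))))))]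
def lP22_19 : List (T ℤ) := [(P (nat_lit 0)), (T.h (T.h (T.h (P (nat_lit 0)) (T.h (M (nat_lit 2441237886410329181374119935)) (T.h (P (nat_lit 0)) (T.h (M (nat_lit 7248228393908629929983)) (T.h (P (nat_lit 0)) (M (nat_lit 10697585716723711))))))) (T.h (P (nat_lit 0)) (T.h (T.h (P (nat_lit 0)) (T.h (P (nat_lit 20007270521783738957824)) (T.h (P (nat_lit 0)) (M (nat_lit 39192303973335039))))) (T.h (P (nat_lit 0)) (T.h (T.h (P (nat_lit 0)) (P (nat_lit 73902104232656896))) (P (nat_lit 0))))))) (T.h (T.h (P (nat_lit 0)) (T.h (T.h (P (nat_lit 16891830482737279004573696)) (T.h (P (nat_lit 0)) (T.h (M (nat_lit 22225729657950437375)) (T.h (P (nat_lit 0)) (M (nat_lit 1620341992855)))))) (T.h (P (nat_lit 0)) (T.h (T.h (P (nat_lit 12859817228681347072)) (T.h (P (nat_lit 0)) (P (nat_lit 37989251531200)))) (T.h (P (nat_lit 0)) (M (nat_lit 31925269390831))))))) (T.h (T.h (T.h (P (nat_lit 0)) (T.h (M (nat_lit 9706054694757277368319)) (T.h (P (nat_lit 0)) (M (nat_lit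 76298670568603647))))) (T.h (P (nat_lit 0)) (T.h (T.h (P (nat_lit 0)) (P (nat_lit 12080640778829824))) (P (nat_lit 0))))) (T.h (T.h (P (nat_lit 0)) (T.h (T.h (M (nat_lit 12703284163797581823)) (T.h (P (nat_lit 0)) (M (nat_lit 41183392394039)))) (T.h (P (nat_lit 0)) (M (nat_lit 24339989840903))))) (T.h (T.h (T.h (P (nat_lit 0)) (P (nat_lit 20920248791105536))) (P (nat_lit 0))) (T.h (T.h (P (nat_lit 0)) (P (nat_lit 1224391379472))) (P (nat_lit 0)))))))), (T.h (T.h (T.h (P (nat_lit 233076472635401009944385235714048)) (T.h (P (nat_lit 0)) (T.h (P (nat_lit 62463890516199824643063808)) (T.h (P (nat_lit 0)) (T.h (P (nat_lit 55549873731837886464)) (T.h (P (nat_lit 0)) (M (nat_lit 28965798111999)))))))) (T.h (P (nat_lit 0)) (T.h (T.h (M (nat_lit 23220524386263797487108095)) (T.h (P (nat_lit 0)) (T.h (M (nat_lit 71162672058525024255)) (T.h (P (nat_lit 0)) (M (nat_lit 30525840183935)))))) (T.h (P (nat_lit 0)) (T.h (T.h (P (nat_lit 8118692302446133248)) (T.h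 (P (nat_lit 0)) (M (nat_lit 6834808783551)))) (T.h (P (nat_lit 0)) (M (nat_lit 30945478181183)))))))) (T.h (T.h (P (nat_lit 0)) (T.h (T.h (P (nat_lit 0)) (T.h (P (nat_lit 71742659272017103028224)) (T.h (P (nat_lit 0)) (P (nat_lit 135611990260187136))))) (T.h (P (nat_lit 0)) (T.h (T.h (P (nat_lit 0)) (P (nat_lit 83686688723566592))) (P (nat_lit 0)))))) (T.h (T.h (T.h (P (nat_lit 62463890516199824643063808)) (T.h (P (nat_lit 0)) (T.h (P (nat_lit 29511720221613752320)) (T.h (P (nat_lit 0)) (M (nat_lit 100422809522911)))))) (T.h (P (nat_lit 0)) (T.h (T.h (M (nat_lit 71162672058525024255)) (T.h (P (nat_lit 0)) (M (nat_lit 44356803550335)))) (T.h (P (nat_lit 0)) (M (nat_lit 6834808783551)))))) (T.h (T.h (P (nat_lit 0)) (T.h (T.h (P (nat_lit 0)) (P (nat_lit 135611990260187136))) (P (nat_lit 0)))) (T.h (T.h (T.h (P (nat_lit 55549873731837886464)) (T.h (P (nat_lit 0)) (M (nat_lit 100422809522911)))) (T.h (P (nat_lit 0)) (M (nat_lit 30525840183935)))) (T.h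 (P (nat_lit 0)) (M (nat_lit 28965798111999)))))))), (T.h (T.h (T.h (P (nat_lit 0)) (T.h (P (nat_lit 29757050897655663289155190784)) (T.h (P (nat_lit 0)) (T.h (P (nat_lit 125722215563327124275200)) (T.h (P (nat_lit 0)) (P (nat_lit 97426712160305152))))))) (T.h (P (nat_lit 0)) (T.h (T.h (P (nat_lit 0)) (T.h (M (nat_lit 158799547454163062358015)) (T.h (P (nat_lit 0)) (M (nat_lit 119696626360287231))))) (T.h (P (nat_lit 0)) (T.h (T.h (P (nat_lit 0)) (P (nat_lit 11822702836023296))) (P (nat_lit 0))))))) (T.h (T.h (P (nat_lit 0)) (T.h (T.h (P (nat_lit 24009839790072748140658688)) (T.h (P (nat_lit 0)) (T.h (P (nat_lit 477568242238340726784)) (T.h (P (nat_lit 0)) (M (nat_lit 96129097414319)))))) (T.h (P (nat_lit 0)) (T.h (T.h (P (nat_lit 9085128935045332992)) (T.h (P (nat_lit 0)) (M (nat_lit 128002672368815)))) (T.h (P (nat_lit 0)) (P (nat_lit 53934274870224))))))) (T.h (T.h (T.h (P (nat_lit 0)) (T.h (P (nat_lit 184607465826028684836864)) (T.h (P (nat_lit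 0)) (M (nat_lit 52758806521675775))))) (T.h (P (nat_lit 0)) (T.h (T.h (P (nat_lit 0)) (M (nat_lit 401338149938692095))) (P (nat_lit 0))))) (T.h (T.h (P (nat_lit 0)) (T.h (T.h (P (nat_lit 227111329947579318272)) (T.h (P (nat_lit 0)) (P (nat_lit 31534168289184)))) (T.h (P (nat_lit 0)) (P (nat_lit 54678548064048))))) (T.h (T.h (T.h (P (nat_lit 0)) (P (nat_lit 251611445488877568))) (P (nat_lit 0))) (T.h (T.h (P (nat_lit 0)) (P (nat_lit 5116009417728))) (P (nat_lit 0)))))))), (T.h (T.h (T.h (M (nat_lit 371083964574087838859463028113407)) (T.h (P (nat_lit 0)) (T.h (P (nat_lit 97391245096008048692953088)) (T.h (P (nat_lit 0)) (T.h (P (nat_lit 31885170502025609216)) (T.h (P (nat_lit 0)) (P (nat_lit 123631125776928)))))))) (T.h (P (nat_lit 0)) (T.h (T.h (M (nat_lit 130062820994910637692813311)) (T.h (P (nat_lit 0)) (T.h (M (nat_lit 74052463673475071)) (T.h (P (nat_lit 0)) (P (nat_lit 58895177060304)))))) (T.h (P (nat_lit 0)) (T.h (T.h (M (nat_lit 4481646528095584255))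 (T.h (P (nat_lit 0)) (P (nat_lit 18881862230160)))) (T.h (P (nat_lit 0)) (P (nat_lit 44867756293920)))))))) (T.h (T.h (P (nat_lit 0)) (T.h (T.h (P (nat_lit 0)) (T.h (M (nat_lit 118924752944854925836287)) (T.h (P (nat_lit 0)) (P (nat_lit 615333263927902208))))) (T.h (P (nat_lit 0)) (T.h (T.h (P (nat_lit 0)) (M (nat_lit 153545642275045375))) (P (nat_lit 0)))))) (T.h (T.h (T.h (P (nat_lit 42179623406802210719268864)) (T.h (P (nat_lit 0)) (T.h (P (nat_lit 43885872022711959552)) (T.h (P (nat_lit 0)) (P (nat_lit 98205074249616)))))) (T.h (P (nat_lit 0)) (T.h (T.h (M (nat_lit 219990005619055656959)) (T.h (P (nat_lit 0)) (M (nat_lit 95326189353503)))) (T.h (P (nat_lit 0)) (P (nat_lit 48915629724816)))))) (T.h (T.h (P (nat_lit 0)) (T.h (T.h (P (nat_lit 0)) (P (nat_lit 417328928940851200))) (P (nat_lit 0)))) (T.h (T.h (T.h (M (nat_lit 96505062973262266367)) (T.h (P (nat_lit 0)) (P (nat_lit 98625349565856)))) (T.h (P (nat_lit 0)) (P (nat_lit 89349219871200))))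 (T.h (P (nat_lit 0)) (M (nat_lit 23068810750751)))))))), (T.h (T.h (T.h (P (nat_lit 0)) (T.h (M (nat_lit 10181190058579763740859695103)) (T.h (P (nat_lit 0)) (T.h (M (nat_lit 37393484389962949328895)) (T.h (P (nat_lit 0)) (M (nat_lit 190299717456330751))))))) (T.h (P (nat_lit 0)) (T.h (T.h (P (nat_lit 0)) (T.h (P (nat_lit 156197456019340321095680)) (T.h (P (nat_lit 0)) (M (nat_lit 8939685262655487))))) (T.h (P (nat_lit 0)) (T.h (T.h (P (nat_lit 0)) (P (nat_lit 49489072030679040))) (P (nat_lit 0))))))) (T.h (T.h (P (nat_lit 0)) (T.h (T.h (M (nat_lit 92426807946669620230881279)) (T.h (P (nat_lit 0)) (M (nat_lit 488657164903791984639)))) (T.h (P (nat_lit 0)) (M (nat_lit 119055661313460011007))))) (T.h (T.h (T.h (P (nat_lit 0)) (T.h (M (nat_lit 126116427677813432123391)) (T.h (P (nat_lit 0)) (M (nat_lit 65361588179927039))))) (T.h (P (nat_lit 0)) (T.h (T.h (P (nat_lit 0)) (P (nat_lit 245202494400200704))) (P (nat_lit 0))))) (T.h (T.h (P (nat_lit 0))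 (M (nat_lit 218661654804008271871))) (T.h (T.h (T.h (P (nat_lit 0)) (M (nat_lit 13458533514379263))) (P (nat_lit 0))) (P (nat_lit 0))))))), (T.h (T.h (P (nat_lit 0)) (T.h (T.h (P (nat_lit 7100087156579572138729537536)) (T.h (P (nat_lit 0)) (T.h (P (nat_lit 18488458053379849977856)) (T.h (P (nat_lit 0)) (P (nat_lit 15699326535139328)))))) (T.h (P (nat_lit 0)) (T.h (T.h (M (nat_lit 1237047663726686109695)) (T.h (P (nat_lit 0)) (M (nat_lit 14916144344629247)))) (T.h (P (nat_lit 0)) (P (nat_lit 5526414397538304))))))) (T.h (T.h (T.h (P (nat_lit 0)) (T.h (P (nat_lit 789217968431012492869632)) (T.h (P (nat_lit 0)) (T.h (M (nat_lit 26309337614833942527)) (T.h (P (nat_lit 0)) (M (nat_lit 11455875289447))))))) (T.h (P (nat_lit 0)) (T.h (T.h (P (nat_lit 0)) (T.h (M (nat_lit 2144806594884403199)) (T.h (P (nat_lit 0)) (P (nat_lit 28718105432920))))) (T.h (P (nat_lit 0)) (T.h (T.h (P (nat_lit 0)) (M (nat_lit 40018750807967))) (P (nat_lit 0))))))) (T.h (T.h (P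 (nat_lit 0)) (T.h (T.h (P (nat_lit 23223723856033470218240)) (T.h (P (nat_lit 0)) (P (nat_lit 6405622491906048)))) (T.h (P (nat_lit 0)) (M (nat_lit 21981539607871487))))) (T.h (T.h (T.h (P (nat_lit 0)) (T.h (M (nat_lit 41432928862544592895)) (T.h (P (nat_lit 0)) (M (nat_lit 60639230622911))))) (T.h (P (nat_lit 0)) (T.h (T.h (P (nat_lit 0)) (P (nat_lit 36776393580296))) (P (nat_lit 0))))) (T.h (T.h (P (nat_lit 0)) (P (nat_lit 18968879967698944))) (T.h (T.h (T.h (P (nat_lit 0)) (M (nat_lit 11610110242455))) (P (nat_lit 0))) (P (nat_lit 0)))))))), (T.h (T.h (P (nat_lit 0)) (T.h (T.h (P (nat_lit 0)) (T.h (M (nat_lit 23016326667677892480073727)) (T.h (P (nat_lit 0)) (T.h (P (nat_lit 3997095405463535616)) (T.h (P (nat_lit 0)) (P (nat_lit 40339979884256))))))) (T.h (P (nat_lit 0)) (T.h (T.h (P (nat_lit 0)) (T.h (M (nat_lit 4386139381002403839)) (T.h (P (nat_lit 0)) (P (nat_lit 6020971354256))))) (T.h (P (nat_lit 0)) (T.h (T.h (P (nat_lit 0)) (M (nat_lit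 14450944174591))) (P (nat_lit 0)))))))) (T.h (T.h (T.h (P (nat_lit 20984392715099619162048167936)) (T.h (P (nat_lit 0)) (T.h (M (nat_lit 17505257867323948138495)) (T.h (P (nat_lit 0)) (M (nat_lit 93291811182837759)))))) (T.h (P (nat_lit 0)) (T.h (T.h (M (nat_lit 8223931429363535314943)) (T.h (P (nat_lit 0)) (M (nat_lit 738227850690559)))) (T.h (P (nat_lit 0)) (P (nat_lit 26419758957936640)))))) (T.h (T.h (P (nat_lit 0)) (T.h (T.h (P (nat_lit 0)) (T.h (P (nat_lit 29677769012967112704)) (T.h (P (nat_lit 0)) (P (nat_lit 1500860940832))))) (T.h (P (nat_lit 0)) (T.h (T.h (P (nat_lit 0)) (M (nat_lit 4144068559599))) (P (nat_lit 0)))))) (T.h (T.h (T.h (P (nat_lit 19697029159794532941824)) (T.h (P (nat_lit 0)) (M (nat_lit 33918669731856383)))) (T.h (P (nat_lit 0)) (M (nat_lit 46708690346541055)))) (T.h (T.h (P (nat_lit 0)) (T.h (T.h (P (nat_lit 0)) (P (nat_lit 50708355223312))) (P (nat_lit 0)))) (P (nat_lit 15994898100060160)))))))]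
def lP22_20 : List (T ℤ) := [(T.h (T.h (P (nat_lit 0)) (T.h (T.h (M (nat_lit 11608252057960406073401671679)) (T.h (P (nat_lit 0)) (T.h (M (nat_lit 44686072504078143848447)) (T.h (P (nat_lit 0)) (M (nat_lit 66400229198561279)))))) (T.h (P (nat_lit 0)) (T.h (T.h (P (nat_lit 87001154263739191525376)) (T.h (P (nat_lit 0)) (P (nat_lit 13047848663318528)))) (T.h (P (nat_lit 0)) (P (nat_lit 14457500064546816))))))) (T.h (T.h (T.h (P (nat_lit 0)) (T.h (P (nat_lit 36543826420550244237312000)) (T.h (P (nat_lit 0)) (T.h (P (nat_lit 41297915425415233536)) (T.h (P (nat_lit 0)) (P (nat_lit 19521255698208))))))) (T.h (P (nat_lit 0)) (T.h (T.h (P (nat_lit 0)) (T.h (P (nat_lit 4442882320562651136)) (T.h (P (nat_lit 0)) (M (nat_lit 43257489073583))))) (T.h (P (nat_lit 0)) (T.h (T.h (P (nat_lit 0)) (P (nat_lit 40291236468288))) (P (nat_lit 0))))))) (T.h (T.h (P (nat_lit 0)) (T.h (T.h (M (nat_lit 44686072504078143848447)) (T.h (P (nat_lit 0)) (P (nat_lit 128777904389881856))))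 (T.h (P (nat_lit 0)) (P (nat_lit 13047848663318528))))) (T.h (T.h (T.h (P (nat_lit 0)) (T.h (P (nat_lit 41297915425415233536)) (T.h (P (nat_lit 0)) (P (nat_lit 212666922066624))))) (T.h (P (nat_lit 0)) (T.h (T.h (P (nat_lit 0)) (M (nat_lit 43257489073583))) (P (nat_lit 0))))) (T.h (T.h (P (nat_lit 0)) (M (nat_lit 66400229198561279))) (T.h (T.h (T.h (P (nat_lit 0)) (P (nat_lit 19521255698208))) (P (nat_lit 0))) (P (nat_lit 0)))))))), (T.h (T.h (P (nat_lit 0)) (T.h (T.h (P (nat_lit 0)) (T.h (M (nat_lit 30183801922423830775595007)) (T.h (P (nat_lit 0)) (T.h (P (nat_lit 270864413233208360960)) (T.h (P (nat_lit 0)) (M (nat_lit 64488629090591))))))) (T.h (P (nat_lit 0)) (T.h (T.h (P (nat_lit 0)) (T.h (P (nat_lit 154662805321476472832)) (T.h (P (nat_lit 0)) (M (nat_lit 22633771718735))))) (T.h (P (nat_lit 0)) (T.h (T.h (P (nat_lit 0)) (P (nat_lit 77758541576208))) (P (nat_lit 0)))))))) (T.h (T.h (T.h (M (nat_lit 75890717121856789950549196799)) (T.h (P (nat_lit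 0)) (T.h (P (nat_lit 25656289604286027923456)) (T.h (P (nat_lit 0)) (P (nat_lit 171878396102328320)))))) (T.h (P (nat_lit 0)) (T.h (T.h (P (nat_lit 156119359870059252023296)) (T.h (P (nat_lit 0)) (M (nat_lit 196019508366573567)))) (T.h (P (nat_lit 0)) (M (nat_lit 153838227053527039)))))) (T.h (T.h (P (nat_lit 0)) (T.h (T.h (P (nat_lit 0)) (T.h (P (nat_lit 344645915888983212032)) (T.h (P (nat_lit 0)) (M (nat_lit 211979165626079))))) (T.h (P (nat_lit 0)) (T.h (T.h (P (nat_lit 0)) (P (nat_lit 70326835532496))) (P (nat_lit 0)))))) (T.h (T.h (T.h (M (nat_lit 67858883121244213870591)) (T.h (P (nat_lit 0)) (M (nat_lit 3086601253912575)))) (T.h (P (nat_lit 0)) (M (nat_lit 9298810221527039)))) (T.h (T.h (P (nat_lit 0)) (T.h (T.h (P (nat_lit 0)) (M (nat_lit 176207102909135))) (P (nat_lit 0)))) (M (nat_lit 98468171772035071))))))), (T.h (T.h (P (nat_lit 0)) (T.h (T.h (P (nat_lit 7284968311669380775858405376)) (T.h (P (nat_lit 0)) (T.h (M (nat_lit 47915842399684846944255))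 (T.h (P (nat_lit 0)) (P (nat_lit 78293684505149440)))))) (T.h (P (nat_lit 0)) (T.h (T.h (M (nat_lit 13929962863778288631807)) (T.h (P (nat_lit 0)) (M (nat_lit 996276945027071)))) (T.h (P (nat_lit 0)) (M (nat_lit 86406858325852159))))))) (T.h (T.h (T.h (P (nat_lit 0)) (T.h (P (nat_lit 57569111757143935125815296)) (T.h (P (nat_lit 0)) (M (nat_lit 269741471717757288447))))) (T.h (P (nat_lit 0)) (T.h (T.h (P (nat_lit 0)) (P (nat_lit 253539555411820019712))) (P (nat_lit 0))))) (T.h (T.h (P (nat_lit 0)) (T.h (T.h (P (nat_lit 92978638380361695887360)) (T.h (P (nat_lit 0)) (P (nat_lit 335433430287843328)))) (T.h (P (nat_lit 0)) (M (nat_lit 69288826749681663))))) (T.h (T.h (T.h (P (nat_lit 0)) (M (nat_lit 283639000275028541439))) (P (nat_lit 0))) (T.h (T.h (P (nat_lit 0)) (P (nat_lit 51600025875382272))) (P (nat_lit 0))))))), (T.h (T.h (T.h (P (nat_lit 105277720930526967885496854773760)) (T.h (P (nat_lit 0)) (T.h (M (nat_lit 1622784108497740811468799)) (T.h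 (P (nat_lit 0)) (T.h (P (nat_lit 8780194688519897088)) (T.h (P (nat_lit 0)) (P (nat_lit 56203593949792)))))))) (T.h (P (nat_lit 0)) (T.h (T.h (M (nat_lit 9691530957154133055897599)) (T.h (P (nat_lit 0)) (T.h (M (nat_lit 5543786603966627839)) (T.h (P (nat_lit 0)) (M (nat_lit 104478078703183)))))) (T.h (P (nat_lit 0)) (T.h (T.h (P (nat_lit 1752219728941678592)) (T.h (P (nat_lit 0)) (P (nat_lit 20467126355184)))) (T.h (P (nat_lit 0)) (P (nat_lit 2914549128000)))))))) (T.h (T.h (P (nat_lit 0)) (T.h (T.h (P (nat_lit 0)) (T.h (P (nat_lit 20667592922045440065536)) (T.h (P (nat_lit 0)) (P (nat_lit 47636208037494784))))) (T.h (P (nat_lit 0)) (T.h (T.h (P (nat_lit 0)) (P (nat_lit 41585837830832128))) (P (nat_lit 0)))))) (T.h (T.h (T.h (M (nat_lit 1622784108497740811468799)) (T.h (P (nat_lit 0)) (T.h (M (nat_lit 172485376140564758527)) (T.h (P (nat_lit 0)) (M (nat_lit 373272336818415)))))) (T.h (P (nat_lit 0)) (T.h (T.h (M (nat_lit 5543786603966627839)) (T.h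 (P (nat_lit 0)) (P (nat_lit 5095877684832)))) (T.h (P (nat_lit 0)) (P (nat_lit 20467126355184)))))) (T.h (T.h (P (nat_lit 0)) (T.h (T.h (P (nat_lit 0)) (P (nat_lit 47636208037494784))) (P (nat_lit 0)))) (T.h (T.h (T.h (P (nat_lit 8780194688519897088)) (T.h (P (nat_lit 0)) (M (nat_lit 373272336818415)))) (T.h (P (nat_lit 0)) (M (nat_lit 104478078703183)))) (T.h (P (nat_lit 0)) (P (nat_lit 56203593949792)))))))), (T.h (T.h (T.h (P (nat_lit 0)) (T.h (P (nat_lit 2651591200384203542287613952)) (T.h (P (nat_lit 0)) (T.h (P (nat_lit 466996290546881789952)) (T.h (P (nat_lit 0)) (M (nat_lit 75855871420694527))))))) (T.h (P (nat_lit 0)) (T.h (T.h (P (nat_lit 0)) (T.h (M (nat_lit 34307800470057419538431)) (T.h (P (nat_lit 0)) (P (nat_lit 139925064433532928))))) (T.h (P (nat_lit 0)) (T.h (T.h (P (nat_lit 0)) (M (nat_lit 17317471317622783))) (P (nat_lit 0))))))) (T.h (T.h (P (nat_lit 0)) (T.h (T.h (M (nat_lit 2141525382526395345797119)) (T.h (P (nat_lit 0)) (T.h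 (M (nat_lit 92849825487106605055)) (T.h (P (nat_lit 0)) (M (nat_lit 20837185961087)))))) (T.h (P (nat_lit 0)) (T.h (T.h (M (nat_lit 50401333849746309119)) (T.h (P (nat_lit 0)) (M (nat_lit 8955757893743)))) (T.h (P (nat_lit 0)) (P (nat_lit 8815688868816))))))) (T.h (T.h (T.h (P (nat_lit 0)) (T.h (P (nat_lit 82958915855056434626560)) (T.h (P (nat_lit 0)) (P (nat_lit 458191854054440960))))) (T.h (P (nat_lit 0)) (T.h (T.h (P (nat_lit 0)) (P (nat_lit 16751951758491648))) (P (nat_lit 0))))) (T.h (T.h (P (nat_lit 0)) (T.h (T.h (M (nat_lit 379425864766455807)) (T.h (P (nat_lit 0)) (P (nat_lit 29719564744560)))) (T.h (P (nat_lit 0)) (P (nat_lit 22388334389568))))) (T.h (T.h (T.h (P (nat_lit 0)) (P (nat_lit 136759054275379200))) (P (nat_lit 0))) (T.h (T.h (P (nat_lit 0)) (M (nat_lit 11562789853775))) (P (nat_lit 0)))))))), (T.h (T.h (T.h (M (nat_lit 404041564642056471404092260876287)) (T.h (P (nat_lit 0)) (T.h (M (nat_lit 78153531217788732151169023)) (T.h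 (P (nat_lit 0)) (T.h (M (nat_lit 71288650616073617407)) (T.h (P (nat_lit 0)) (M (nat_lit 78697228655807)))))))) (T.h (P (nat_lit 0)) (T.h (T.h (P (nat_lit 46733767415801745831362560)) (T.h (P (nat_lit 0)) (T.h (P (nat_lit 49638702924869664768)) (T.h (P (nat_lit 0)) (P (nat_lit 267435772517088)))))) (T.h (P (nat_lit 0)) (T.h (T.h (M (nat_lit 14262682656553566207)) (T.h (P (nat_lit 0)) (M (nat_lit 50902502774975)))) (T.h (P (nat_lit 0)) (P (nat_lit 29291415236928)))))))) (T.h (T.h (P (nat_lit 0)) (T.h (T.h (P (nat_lit 0)) (T.h (P (nat_lit 18143497420966698418176)) (T.h (P (nat_lit 0)) (M (nat_lit 304250213256790015))))) (T.h (P (nat_lit 0)) (T.h (T.h (P (nat_lit 0)) (M (nat_lit 126204270595473407))) (P (nat_lit 0)))))) (T.h (T.h (T.h (M (nat_lit 78153531217788732151169023)) (T.h (P (nat_lit 0)) (T.h (P (nat_lit 264086455624193277952)) (T.h (P (nat_lit 0)) (P (nat_lit 851396072051664)))))) (T.h (P (nat_lit 0)) (T.h (T.h (P (nat_lit 49638702924869664768))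 (T.h (P (nat_lit 0)) (P (nat_lit 29027209867776)))) (T.h (P (nat_lit 0)) (M (nat_lit 50902502774975)))))) (T.h (T.h (P (nat_lit 0)) (T.h (T.h (P (nat_lit 0)) (M (nat_lit 304250213256790015))) (P (nat_lit 0)))) (T.h (T.h (T.h (M (nat_lit 71288650616073617407)) (T.h (P (nat_lit 0)) (P (nat_lit 851396072051664)))) (T.h (P (nat_lit 0)) (P (nat_lit 267435772517088)))) (T.h (P (nat_lit 0)) (M (nat_lit 78697228655807)))))))), (T.h (T.h (T.h (P (nat_lit 0)) (T.h (M (nat_lit 1528363253692110168137924607)) (T.h (P (nat_lit 0)) (T.h (P (nat_lit 13811612619637037989888)) (T.h (P (nat_lit 0)) (P (nat_lit 106533968076406784))))))) (T.h (P (nat_lit 0)) (T.h (T.h (P (nat_lit 0)) (T.h (M (nat_lit 103340982672338666389503)) (T.h (P (nat_lit 0)) (M (nat_lit 219195007817711615))))) (T.h (P (nat_lit 0)) (T.h (T.h (P (nat_lit 0)) (M (nat_lit 86545155969220607))) (P (nat_lit 0))))))) (T.h (T.h (P (nat_lit 0)) (T.h (T.h (P (nat_lit 9990266832868815868526592)) (T.h (P (nat_lit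 0)) (P (nat_lit 376481760969893085184)))) (T.h (P (nat_lit 0)) (P (nat_lit 20466385991040499712))))) (T.h (T.h (T.h (P (nat_lit 0)) (T.h (M (nat_lit 258337378587237909790719)) (T.h (P (nat_lit 0)) (M (nat_lit 748503780981669887))))) (T.h (P (nat_lit 0)) (T.h (T.h (P (nat_lit 0)) (M (nat_lit 34881430572007423))) (P (nat_lit 0))))) (T.h (T.h (P (nat_lit 0)) (P (nat_lit 42807339727817015296))) (T.h (T.h (T.h (P (nat_lit 0)) (M (nat_lit 425326543491989503))) (P (nat_lit 0))) (P (nat_lit 0))))))), (T.h (T.h (P (nat_lit 0)) (T.h (T.h (M (nat_lit 1772719709271470377478914047)) (T.h (P (nat_lit 0)) (T.h (M (nat_lit 6654861781713964498943)) (T.h (P (nat_lit 0)) (P (nat_lit 29605169527062528)))))) (T.h (P (nat_lit 0)) (T.h (T.h (M (nat_lit 10151113502918493339647)) (T.h (P (nat_lit 0)) (M (nat_lit 5931687478722559)))) (T.h (P (nat_lit 0)) (M (nat_lit 7951400904425471))))))) (T.h (T.h (T.h (P (nat_lit 0)) (T.h (M (nat_lit 6097722714123760383819775)) (T.h (P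 (nat_lit 0)) (T.h (P (nat_lit 10996160748979224576)) (T.h (P (nat_lit 0)) (P (nat_lit 11532992765952))))))) (T.h (P (nat_lit 0)) (T.h (T.h (P (nat_lit 0)) (T.h (P (nat_lit 12972542331520548864)) (T.h (P (nat_lit 0)) (M (nat_lit 32747249506607))))) (T.h (P (nat_lit 0)) (T.h (T.h (P (nat_lit 0)) (P (nat_lit 40018750807968))) (P (nat_lit 0))))))) (T.h (T.h (P (nat_lit 0)) (T.h (T.h (M (nat_lit 14350093689450101997567)) (T.h (P (nat_lit 0)) (M (nat_lit 5990814857822207)))) (T.h (P (nat_lit 0)) (P (nat_lit 6165034883907584))))) (T.h (T.h (T.h (P (nat_lit 0)) (T.h (P (nat_lit 27470699705940312064)) (T.h (P (nat_lit 0)) (P (nat_lit 60639230622912))))) (T.h (P (nat_lit 0)) (T.h (T.h (P (nat_lit 0)) (M (nat_lit 32747249506607))) (P (nat_lit 0))))) (T.h (T.h (P (nat_lit 0)) (P (nat_lit 28449082768031744))) (T.h (T.h (T.h (P (nat_lit 0)) (P (nat_lit 11532992765952))) (P (nat_lit 0))) (P (nat_lit 0))))))))]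
def lP22_21 : List (T ℤ) := [(T.h (T.h (P (nat_lit 0)) (T.h (T.h (P (nat_lit 0)) (T.h (P (nat_lit 30576525179669562771111936)) (T.h (P (nat_lit 0)) (T.h (M (nat_lit 14785903864523522047)) (T.h (P (nat_lit 0)) (M (nat_lit 38574100311983))))))) (T.h (P (nat_lit 0)) (T.h (T.h (P (nat_lit 0)) (T.h (M (nat_lit 4299253708392235007)) (T.h (P (nat_lit 0)) (M (nat_lit 11727087712703))))) (T.h (P (nat_lit 0)) (T.h (T.h (P (nat_lit 0)) (P (nat_lit 8704128682512))) (P (nat_lit 0)))))))) (T.h (T.h (T.h (M (nat_lit 20545763807070606543294562303)) (T.h (P (nat_lit 0)) (T.h (P (nat_lit 18225494033046599368704)) (T.h (P (nat_lit 0)) (P (nat_lit 79124825958711296)))))) (T.h (P (nat_lit 0)) (T.h (T.h (P (nat_lit 12135496075166393303040)) (T.h (P (nat_lit 0)) (P (nat_lit 43606495874285568)))) (T.h (P (nat_lit 0)) (M (nat_lit 35881187698753535)))))) (T.h (T.h (P (nat_lit 0)) (T.h (T.h (P (nat_lit 0)) (T.h (M (nat_lit 60109996656355704831)) (T.h (P (nat_lit 0)) (P (nat_lit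 22287634534368))))) (T.h (P (nat_lit 0)) (T.h (T.h (P (nat_lit 0)) (P (nat_lit 18560116891440))) (P (nat_lit 0)))))) (T.h (T.h (T.h (M (nat_lit 19160979863630824603647)) (T.h (P (nat_lit 0)) (P (nat_lit 54131820061376512)))) (T.h (P (nat_lit 0)) (P (nat_lit 52158500142071808)))) (T.h (T.h (P (nat_lit 0)) (T.h (T.h (P (nat_lit 0)) (M (nat_lit 53556555107663))) (P (nat_lit 0)))) (M (nat_lit 14971273895362559))))))), (T.h (T.h (P (nat_lit 0)) (T.h (T.h (M (nat_lit 10574787591244461863855980543)) (T.h (P (nat_lit 0)) (T.h (M (nat_lit 48513342436178380455935)) (T.h (P (nat_lit 0)) (M (nat_lit 65637145797197823)))))) (T.h (P (nat_lit 0)) (T.h (T.h (M (nat_lit 21995860318925352861695)) (T.h (P (nat_lit 0)) (P (nat_lit 50114823360643072)))) (T.h (P (nat_lit 0)) (M (nat_lit 43953891279437823))))))) (T.h (T.h (T.h (P (nat_lit 0)) (T.h (M (nat_lit 15936259222306799608659967)) (T.h (P (nat_lit 0)) (M (nat_lit 63165105423100411903))))) (T.h (P (nat_lit 0)) (T.h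 (T.h (P (nat_lit 0)) (P (nat_lit 56127084398316093440))) (P (nat_lit 0))))) (T.h (T.h (P (nat_lit 0)) (T.h (T.h (M (nat_lit 48513342436178380455935)) (T.h (P (nat_lit 0)) (M (nat_lit 43640656086302719)))) (T.h (P (nat_lit 0)) (P (nat_lit 50114823360643072))))) (T.h (T.h (T.h (P (nat_lit 0)) (M (nat_lit 63165105423100411903))) (P (nat_lit 0))) (T.h (T.h (P (nat_lit 0)) (M (nat_lit 65637145797197823))) (P (nat_lit 0))))))), (T.h (T.h (T.h (M (nat_lit 99909648655724536380581048483839)) (T.h (P (nat_lit 0)) (T.h (P (nat_lit 1537303026863677219274752)) (T.h (P (nat_lit 0)) (T.h (M (nat_lit 7478722740816445439)) (T.h (P (nat_lit 0)) (M (nat_lit 56803544022671)))))))) (T.h (P (nat_lit 0)) (T.h (T.h (P (nat_lit 10438904556057964207669248)) (T.h (P (nat_lit 0)) (T.h (P (nat_lit 3858024237247758336)) (T.h (P (nat_lit 0)) (P (nat_lit 101867935691088)))))) (T.h (P (nat_lit 0)) (T.h (T.h (M (nat_lit 3079660293249302527)) (T.h (P (nat_lit 0)) (M (nat_lit 20140321589711))))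 (T.h (P (nat_lit 0)) (M (nat_lit 1776113164223)))))))) (T.h (T.h (P (nat_lit 0)) (T.h (T.h (P (nat_lit 0)) (T.h (M (nat_lit 24792577964494502756351)) (T.h (P (nat_lit 0)) (M (nat_lit 41970387647889407))))) (T.h (P (nat_lit 0)) (T.h (T.h (P (nat_lit 0)) (M (nat_lit 38777993416015871))) (P (nat_lit 0)))))) (T.h (T.h (T.h (P (nat_lit 1537303026863677219274752)) (T.h (P (nat_lit 0)) (T.h (P (nat_lit 170199004916551254016)) (T.h (P (nat_lit 0)) (P (nat_lit 372699232900704)))))) (T.h (P (nat_lit 0)) (T.h (T.h (P (nat_lit 3858024237247758336)) (T.h (P (nat_lit 0)) (P (nat_lit 911442555360)))) (T.h (P (nat_lit 0)) (M (nat_lit 20140321589711)))))) (T.h (T.h (P (nat_lit 0)) (T.h (T.h (P (nat_lit 0)) (M (nat_lit 41970387647889407))) (P (nat_lit 0)))) (T.h (T.h (T.h (M (nat_lit 7478722740816445439)) (T.h (P (nat_lit 0)) (P (nat_lit 372699232900704)))) (T.h (P (nat_lit 0)) (P (nat_lit 101867935691088)))) (T.h (P (nat_lit 0)) (M (nat_lit 56803544022671)))))))),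 (T.h (T.h (T.h (P (nat_lit 0)) (T.h (P (nat_lit 2431989740396183413638299648)) (T.h (P (nat_lit 0)) (T.h (P (nat_lit 13155666161854431887360)) (T.h (P (nat_lit 0)) (P (nat_lit 86333522932170752))))))) (T.h (P (nat_lit 0)) (T.h (T.h (P (nat_lit 0)) (T.h (M (nat_lit 2389731705158014861311)) (T.h (P (nat_lit 0)) (M (nat_lit 84716766919393279))))) (T.h (P (nat_lit 0)) (T.h (T.h (P (nat_lit 0)) (M (nat_lit 737280053051391))) (P (nat_lit 0))))))) (T.h (T.h (P (nat_lit 0)) (T.h (T.h (P (nat_lit 2731529024111075150266368)) (T.h (P (nat_lit 0)) (P (nat_lit 43502318328160976896)))) (T.h (P (nat_lit 0)) (P (nat_lit 2922520119437426688))))) (T.h (T.h (T.h (P (nat_lit 0)) (T.h (M (nat_lit 67764700985457142398975)) (T.h (P (nat_lit 0)) (M (nat_lit 344310799049883647))))) (T.h (P (nat_lit 0)) (T.h (T.h (P (nat_lit 0)) (M (nat_lit 13085180765306879))) (P (nat_lit 0))))) (T.h (T.h (P (nat_lit 0)) (M (nat_lit 14446821862908362751))) (T.h (T.h (T.h (P (nat_lit 0))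 (M (nat_lit 157432470344531967))) (P (nat_lit 0))) (P (nat_lit 0))))))), (T.h (T.h (P (nat_lit 0)) (T.h (T.h (M (nat_lit 5327367447308101761250623487)) (T.h (P (nat_lit 0)) (T.h (M (nat_lit 10353613219124626849791)) (T.h (P (nat_lit 0)) (M (nat_lit 46361229398966271)))))) (T.h (P (nat_lit 0)) (T.h (T.h (P (nat_lit 11388161166645179449344)) (T.h (P (nat_lit 0)) (P (nat_lit 18332168273657856)))) (T.h (P (nat_lit 0)) (P (nat_lit 2424986506887168))))))) (T.h (T.h (T.h (P (nat_lit 0)) (T.h (P (nat_lit 5308504745692747890950144)) (T.h (P (nat_lit 0)) (P (nat_lit 14637703011229499392))))) (T.h (P (nat_lit 0)) (T.h (T.h (P (nat_lit 0)) (M (nat_lit 10827735736636145663))) (P (nat_lit 0))))) (T.h (T.h (P (nat_lit 0)) (T.h (T.h (M (nat_lit 10353613219124626849791)) (T.h (P (nat_lit 0)) (M (nat_lit 414807634083839)))) (T.h (P (nat_lit 0)) (P (nat_lit 18332168273657856))))) (T.h (T.h (T.h (P (nat_lit 0)) (P (nat_lit 14637703011229499392))) (P (nat_lit 0))) (T.h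 (T.h (P (nat_lit 0)) (M (nat_lit 46361229398966271))) (P (nat_lit 0))))))), (P (nat_lit 0)), (P (nat_lit 0)), (T.h (T.h (P (nat_lit 0)) (T.h (T.h (P (nat_lit 0)) (T.h (M (nat_lit 6104258270349006037057535)) (T.h (P (nat_lit 0)) (T.h (M (nat_lit 52241732874576855039)) (T.h (P (nat_lit 0)) (P (nat_lit 27814765993016))))))) (T.h (P (nat_lit 0)) (T.h (T.h (P (nat_lit 0)) (T.h (M (nat_lit 7201964852129038335)) (T.h (P (nat_lit 0)) (P (nat_lit 21482992952464))))) (T.h (P (nat_lit 0)) (T.h (T.h (P (nat_lit 0)) (M (nat_lit 31701676764151))) (P (nat_lit 0)))))))) (T.h (T.h (T.h (M (nat_lit 8796633139127483325699063807)) (T.h (P (nat_lit 0)) (T.h (M (nat_lit 28858893869128926363647)) (T.h (P (nat_lit 0)) (M (nat_lit 26974990662139903)))))) (T.h (P (nat_lit 0)) (T.h (T.h (M (nat_lit 63021520902504837021695)) (T.h (P (nat_lit 0)) (P (nat_lit 107283388228403200)))) (T.h (P (nat_lit 0)) (M (nat_lit 90201467688058879)))))) (T.h (T.h (P (nat_lit 0)) (T.h (T.h (P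 (nat_lit 0)) (T.h (P (nat_lit 28016122449327292416)) (T.h (P (nat_lit 0)) (M (nat_lit 6388521233151))))) (T.h (P (nat_lit 0)) (T.h (T.h (P (nat_lit 0)) (P (nat_lit 33958396886664))) (P (nat_lit 0)))))) (T.h (T.h (T.h (M (nat_lit 49568223524688045801471)) (T.h (P (nat_lit 0)) (P (nat_lit 90264541267427328)))) (T.h (P (nat_lit 0)) (P (nat_lit 73812048598401024)))) (T.h (T.h (P (nat_lit 0)) (T.h (T.h (P (nat_lit 0)) (P (nat_lit 145515116622832))) (P (nat_lit 0)))) (M (nat_lit 24550276827938815)))))))]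
def lP22_22 : List (T ℤ) := [(T.h (T.h (P (nat_lit 0)) (T.h (T.h (P (nat_lit 74706945416199965654820847616)) (T.h (P (nat_lit 0)) (T.h (M (nat_lit 49041316905478684409855)) (T.h (P (nat_lit 0)) (P (nat_lit 40373702412599296)))))) (T.h (P (nat_lit 0)) (T.h (T.h (P (nat_lit 43801589135530889576448)) (T.h (P (nat_lit 0)) (M (nat_lit 52326856570191871)))) (T.h (P (nat_lit 0)) (P (nat_lit 45982042181206016))))))) (T.h (T.h (T.h (P (nat_lit 0)) (T.h (P (nat_lit 4959897841795512452251648)) (T.h (P (nat_lit 0)) (T.h (M (nat_lit 151887148118058205183)) (T.h (P (nat_lit 0)) (M (nat_lit 19907425486639))))))) (T.h (P (nat_lit 0)) (T.h (T.h (P (nat_lit 0)) (T.h (M (nat_lit 221834691215259336703)) (T.h (P (nat_lit 0)) (M (nat_lit 68740659679823))))) (T.h (P (nat_lit 0)) (T.h (T.h (P (nat_lit 0)) (P (nat_lit 69255108585648))) (P (nat_lit 0))))))) (T.h (T.h (P (nat_lit 0)) (T.h (T.h (M (nat_lit 58322643343439097233407)) (T.h (P (nat_lit 0)) (P (nat_lit 327369126751846400))))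 (T.h (P (nat_lit 0)) (M (nat_lit 39536835955507199))))) (T.h (T.h (T.h (P (nat_lit 0)) (T.h (M (nat_lit 143503913331592265727)) (T.h (P (nat_lit 0)) (P (nat_lit 54661466916560))))) (T.h (P (nat_lit 0)) (T.h (T.h (P (nat_lit 0)) (M (nat_lit 63095730179391))) (P (nat_lit 0))))) (T.h (T.h (P (nat_lit 0)) (M (nat_lit 79337867728175103))) (T.h (T.h (T.h (P (nat_lit 0)) (P (nat_lit 34883498572208))) (P (nat_lit 0))) (P (nat_lit 0)))))))), (T.h (T.h (P (nat_lit 0)) (T.h (T.h (P (nat_lit 0)) (T.h (M (nat_lit 97780516078427023188426751)) (T.h (P (nat_lit 0)) (T.h (P (nat_lit 116756985124778672128)) (T.h (P (nat_lit 0)) (P (nat_lit 2553716552832))))))) (T.h (P (nat_lit 0)) (T.h (T.h (P (nat_lit 0)) (T.h (M (nat_lit 230120293191364116479)) (T.h (P (nat_lit 0)) (P (nat_lit 37323855582816))))) (T.h (P (nat_lit 0)) (T.h (T.h (P (nat_lit 0)) (M (nat_lit 5007861987407))) (P (nat_lit 0)))))))) (T.h (T.h (T.h (P (nat_lit 15060356633087551199724437504)) (T.h (P (nat_lit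 0)) (T.h (P (nat_lit 30129554316350015406080)) (T.h (P (nat_lit 0)) (M (nat_lit 35406734043938815)))))) (T.h (P (nat_lit 0)) (T.h (T.h (P (nat_lit 295152132231464845574144)) (T.h (P (nat_lit 0)) (M (nat_lit 171661555688308735)))) (T.h (P (nat_lit 0)) (P (nat_lit 257291722367041536)))))) (T.h (T.h (P (nat_lit 0)) (T.h (T.h (P (nat_lit 0)) (T.h (M (nat_lit 382746559242026614783)) (T.h (P (nat_lit 0)) (M (nat_lit 41072501562671))))) (T.h (P (nat_lit 0)) (T.h (T.h (P (nat_lit 0)) (P (nat_lit 42721455343824))) (P (nat_lit 0)))))) (T.h (T.h (T.h (P (nat_lit 106180806920314158055424)) (T.h (P (nat_lit 0)) (P (nat_lit 148977777661181952)))) (T.h (P (nat_lit 0)) (P (nat_lit 438730694843531264)))) (T.h (T.h (P (nat_lit 0)) (T.h (T.h (P (nat_lit 0)) (M (nat_lit 116107931920415))) (P (nat_lit 0)))) (P (nat_lit 42607821429800960))))))), (T.h (T.h (P (nat_lit 0)) (T.h (T.h (M (nat_lit 93231747468529857560334827519)) (T.h (P (nat_lit 0)) (T.h (M (nat_lit 21278778020393360818175))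 (T.h (P (nat_lit 0)) (M (nat_lit 29771974202621951)))))) (T.h (P (nat_lit 0)) (T.h (T.h (M (nat_lit 17601602847486215454719)) (T.h (P (nat_lit 0)) (M (nat_lit 15182816904003583)))) (T.h (P (nat_lit 0)) (M (nat_lit 43625099916804095))))))) (T.h (T.h (T.h (P (nat_lit 0)) (T.h (M (nat_lit 9879755185858590541873151)) (T.h (P (nat_lit 0)) (T.h (P (nat_lit 58316767257224544256)) (T.h (P (nat_lit 0)) (P (nat_lit 53710110471168))))))) (T.h (P (nat_lit 0)) (T.h (T.h (P (nat_lit 0)) (T.h (P (nat_lit 309819872879981887488)) (T.h (P (nat_lit 0)) (P (nat_lit 92134916019792))))) (T.h (P (nat_lit 0)) (T.h (T.h (P (nat_lit 0)) (M (nat_lit 90352406113631))) (P (nat_lit 0))))))) (T.h (T.h (P (nat_lit 0)) (T.h (T.h (P (nat_lit 102181546755126171009024)) (T.h (P (nat_lit 0)) (M (nat_lit 349144993130889215)))) (T.h (P (nat_lit 0)) (P (nat_lit 84866619629617152))))) (T.h (T.h (T.h (P (nat_lit 0)) (T.h (P (nat_lit 152618203125334933504)) (T.h (P (nat_lit 0)) (M (nat_lit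 47195046096623))))) (T.h (P (nat_lit 0)) (T.h (T.h (P (nat_lit 0)) (P (nat_lit 26136074278080))) (P (nat_lit 0))))) (T.h (T.h (P (nat_lit 0)) (P (nat_lit 132705287198851072))) (T.h (T.h (T.h (P (nat_lit 0)) (M (nat_lit 57212876793887))) (P (nat_lit 0))) (P (nat_lit 0)))))))), (T.h (T.h (P (nat_lit 0)) (T.h (T.h (P (nat_lit 0)) (T.h (P (nat_lit 31209864530776429892206592)) (T.h (P (nat_lit 0)) (P (nat_lit 10321832204828672000))))) (T.h (P (nat_lit 0)) (T.h (T.h (P (nat_lit 0)) (P (nat_lit 31772967205097963520))) (P (nat_lit 0)))))) (T.h (T.h (T.h (P (nat_lit 1946743424394142825588981760)) (T.h (P (nat_lit 0)) (T.h (M (nat_lit 118656699405318345457663)) (T.h (P (nat_lit 0)) (M (nat_lit 16759833923158015)))))) (T.h (P (nat_lit 0)) (T.h (T.h (M (nat_lit 224637929717713661329407)) (T.h (P (nat_lit 0)) (M (nat_lit 69917546504617983)))) (T.h (P (nat_lit 0)) (M (nat_lit 309328723905347583)))))) (T.h (T.h (P (nat_lit 0)) (T.h (T.h (P (nat_lit 0)) (P (nat_lit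 423209702805559312384))) (P (nat_lit 0)))) (T.h (T.h (T.h (M (nat_lit 34797644328555486642175)) (T.h (P (nat_lit 0)) (M (nat_lit 182651378143035391)))) (T.h (P (nat_lit 0)) (M (nat_lit 799607449830686719)))) (T.h (P (nat_lit 0)) (P (nat_lit 78678102028189696))))))), (P (nat_lit 0)), (P (nat_lit 0)), (T.h (T.h (T.h (P (nat_lit 0)) (T.h (P (nat_lit 0)) (T.h (P (nat_lit 8881041935992095357534208)) (T.h (P (nat_lit 0)) (T.h (M (nat_lit 8806519356235186175)) (T.h (P (nat_lit 0)) (M (nat_lit 11681834379455)))))))) (T.h (P (nat_lit 0)) (T.h (T.h (M (nat_lit 121867148607984511574081535)) (T.h (P (nat_lit 0)) (T.h (M (nat_lit 129531447598387298303)) (T.h (P (nat_lit 0)) (M (nat_lit 31926179314975)))))) (T.h (P (nat_lit 0)) (T.h (T.h (P (nat_lit 54595063063399890944)) (T.h (P (nat_lit 0)) (M (nat_lit 112377674656223)))) (T.h (P (nat_lit 0)) (M (nat_lit 7439823610175)))))))) (T.h (T.h (P (nat_lit 0)) (T.h (T.h (P (nat_lit 0)) (T.h (P (nat_lit 140874567660745577725952))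 (T.h (P (nat_lit 0)) (P (nat_lit 131301348672208896))))) (T.h (P (nat_lit 0)) (T.h (T.h (P (nat_lit 0)) (P (nat_lit 40040058953138176))) (P (nat_lit 0)))))) (T.h (T.h (T.h (P (nat_lit 8881041935992095357534208)) (T.h (P (nat_lit 0)) (T.h (M (nat_lit 164123130928195174399)) (T.h (P (nat_lit 0)) (P (nat_lit 9888057741296)))))) (T.h (P (nat_lit 0)) (T.h (T.h (M (nat_lit 129531447598387298303)) (T.h (P (nat_lit 0)) (P (nat_lit 16005713108960)))) (T.h (P (nat_lit 0)) (M (nat_lit 112377674656223)))))) (T.h (T.h (P (nat_lit 0)) (T.h (T.h (P (nat_lit 0)) (P (nat_lit 131301348672208896))) (P (nat_lit 0)))) (T.h (T.h (T.h (M (nat_lit 8806519356235186175)) (T.h (P (nat_lit 0)) (P (nat_lit 9888057741296)))) (T.h (P (nat_lit 0)) (M (nat_lit 31926179314975)))) (T.h (P (nat_lit 0)) (M (nat_lit 11681834379455)))))))), (T.h (T.h (T.h (P (nat_lit 0)) (T.h (M (nat_lit 15679541930845267546068746239)) (T.h (P (nat_lit 0)) (T.h (M (nat_lit 9491288120945209769983)) (T.h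 (P (nat_lit 0)) (P (nat_lit 15106117159583744))))))) (T.h (P (nat_lit 0)) (T.h (T.h (P (nat_lit 0)) (T.h (P (nat_lit 59215813094363950481408)) (T.h (P (nat_lit 0)) (M (nat_lit 20671216447275007))))) (T.h (P (nat_lit 0)) (T.h (T.h (P (nat_lit 0)) (P (nat_lit 2461044021886976))) (P (nat_lit 0))))))) (T.h (T.h (P (nat_lit 0)) (T.h (T.h (M (nat_lit 47865285920089784994234367)) (T.h (P (nat_lit 0)) (T.h (M (nat_lit 114620104751915728895)) (T.h (P (nat_lit 0)) (M (nat_lit 2885833867679)))))) (T.h (P (nat_lit 0)) (T.h (T.h (M (nat_lit 67523329859919020031)) (T.h (P (nat_lit 0)) (P (nat_lit 39553764827008)))) (T.h (P (nat_lit 0)) (M (nat_lit 41146775736751))))))) (T.h (T.h (T.h (P (nat_lit 0)) (T.h (P (nat_lit 55028381162846390583296)) (T.h (P (nat_lit 0)) (M (nat_lit 3900433618452479))))) (T.h (P (nat_lit 0)) (T.h (T.h (P (nat_lit 0)) (M (nat_lit 62333406841651199))) (P (nat_lit 0))))) (T.h (T.h (P (nat_lit 0)) (T.h (T.h (M (nat_lit 12366281654551969791))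 (T.h (P (nat_lit 0)) (P (nat_lit 6736394057600)))) (T.h (P (nat_lit 0)) (M (nat_lit 47048248158751))))) (T.h (T.h (T.h (P (nat_lit 0)) (P (nat_lit 38871330036514816))) (P (nat_lit 0))) (T.h (T.h (P (nat_lit 0)) (M (nat_lit 92790654036415))) (P (nat_lit 0))))))))]
def lP22_23 : List (T ℤ) := [(T.h (T.h (T.h (M (nat_lit 4242882777641273345909976989695)) (T.h (P (nat_lit 0)) (T.h (P (nat_lit 8050175121811723813650432)) (T.h (P (nat_lit 0)) (T.h (P (nat_lit 197932794725001068544)) (T.h (P (nat_lit 0)) (P (nat_lit 3857239247424)))))))) (T.h (P (nat_lit 0)) (T.h (T.h (M (nat_lit 81435322610540794773241855)) (T.h (P (nat_lit 0)) (T.h (M (nat_lit 212706809861143265279)) (T.h (P (nat_lit 0)) (P (nat_lit 49644896030976)))))) (T.h (P (nat_lit 0)) (T.h (T.h (M (nat_lit 73786473605289213951)) (T.h (P (nat_lit 0)) (P (nat_lit 57430672243056)))) (T.h (P (nat_lit 0)) (P (nat_lit 21759335331552)))))))) (T.h (T.h (P (nat_lit 0)) (T.h (T.h (P (nat_lit 0)) (T.h (P (nat_lit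 659800740818193481728)) (T.h (P (nat_lit 0)) (P (nat_lit 85632602970521600))))) (T.h (P (nat_lit 0)) (T.h (T.h (P (nat_lit 0)) (M (nat_lit 218391359425675263))) (P (nat_lit 0)))))) (T.h (T.h (T.h (M (nat_lit 14433217648238017074167807)) (T.h (P (nat_lit 0)) (T.h (P (nat_lit 65381694443668635648)) (T.h (P (nat_lit 0)) (P (nat_lit 61673039796768)))))) (T.h (P (nat_lit 0)) (T.h (T.h (P (nat_lit 89330338035105005568)) (T.h (P (nat_lit 0)) (M (nat_lit 35823674518847)))) (T.h (P (nat_lit 0)) (P (nat_lit 18599349637392)))))) (T.h (T.h (P (nat_lit 0)) (T.h (T.h (P (nat_lit 0)) (M (nat_lit 437285153641791487))) (P (nat_lit 0)))) (T.h (T.h (T.h (P (nat_lit 58306836868439736320)) (T.h (P (nat_lit 0)) (P (nat_lit 34302472212048)))) (T.h (P (nat_lit 0)) (M (nat_lit 16556994159407)))) (T.h (P (nat_lit 0)) (P (nat_lit 11691691654752)))))))), (T.h (T.h (T.h (P (nat_lit 0)) (T.h (P (nat_lit 51780321548609131815886651392)) (T.h (P (nat_lit 0)) (T.h (P (nat_lit 60987767985754137952256))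 (T.h (P (nat_lit 0)) (P (nat_lit 55558320353296384))))))) (T.h (P (nat_lit 0)) (T.h (T.h (P (nat_lit 0)) (T.h (M (nat_lit 43074445675859462324223)) (T.h (P (nat_lit 0)) (P (nat_lit 41393942740205568))))) (T.h (P (nat_lit 0)) (T.h (T.h (P (nat_lit 0)) (M (nat_lit 50720353550532607))) (P (nat_lit 0))))))) (T.h (T.h (P (nat_lit 0)) (T.h (T.h (P (nat_lit 110889463789553626162135040)) (T.h (P (nat_lit 0)) (T.h (M (nat_lit 27574989714200985599)) (T.h (P (nat_lit 0)) (P (nat_lit 71074743071616)))))) (T.h (P (nat_lit 0)) (T.h (T.h (P (nat_lit 84563067385061310464)) (T.h (P (nat_lit 0)) (M (nat_lit 166087946971727)))) (T.h (P (nat_lit 0)) (P (nat_lit 100481755148640))))))) (T.h (T.h (T.h (P (nat_lit 0)) (T.h (M (nat_lit 60078728999998268112895)) (T.h (P (nat_lit 0)) (P (nat_lit 63693517749616640))))) (T.h (P (nat_lit 0)) (T.h (T.h (P (nat_lit 0)) (P (nat_lit 348094961878499328))) (P (nat_lit 0))))) (T.h (T.h (P (nat_lit 0)) (T.h (T.h (P (nat_lit 88273539359475499008))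 (T.h (P (nat_lit 0)) (M (nat_lit 204321723608591)))) (T.h (P (nat_lit 0)) (P (nat_lit 29510694618480))))) (T.h (T.h (T.h (P (nat_lit 0)) (P (nat_lit 133198632893267968))) (P (nat_lit 0))) (T.h (T.h (P (nat_lit 0)) (P (nat_lit 145948101621552))) (P (nat_lit 0)))))))), (T.h (T.h (T.h (P (nat_lit 31532248948022724788922603274240)) (T.h (P (nat_lit 0)) (T.h (M (nat_lit 52901474879184542097211391)) (T.h (P (nat_lit 0)) (M (nat_lit 92810436295327219711)))))) (T.h (P (nat_lit 0)) (T.h (T.h (P (nat_lit 59002992844268282008567808)) (T.h (P (nat_lit 0)) (M (nat_lit 110995339492930355199)))) (T.h (P (nat_lit 0)) (P (nat_lit 6774447923674480640)))))) (T.h (T.h (P (nat_lit 0)) (T.h (T.h (P (nat_lit 0)) (T.h (M (nat_lit 45200459760637229137919)) (T.h (P (nat_lit 0)) (M (nat_lit 113594165684273151))))) (T.h (P (nat_lit 0)) (T.h (T.h (P (nat_lit 0)) (P (nat_lit 245911429135663104))) (P (nat_lit 0)))))) (T.h (T.h (T.h (M (nat_lit 9672557215362827490951167)) (T.h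 (P (nat_lit 0)) (M (nat_lit 143415360814185447423)))) (T.h (P (nat_lit 0)) (M (nat_lit 401662547894130966527)))) (T.h (T.h (P (nat_lit 0)) (T.h (T.h (P (nat_lit 0)) (P (nat_lit 256737854965612544))) (P (nat_lit 0)))) (P (nat_lit 16294917072251518976)))))), (P (nat_lit 0)), (P (nat_lit 0)), (T.h (T.h (P (nat_lit 0)) (T.h (T.h (P (nat_lit 0)) (T.h (M (nat_lit 43661592855513208723603455)) (T.h (P (nat_lit 0)) (T.h (M (nat_lit 87661079254234300415)) (T.h (P (nat_lit 0)) (P (nat_lit 10769450979968))))))) (T.h (P (nat_lit 0)) (T.h (T.h (P (nat_lit 0)) (T.h (M (nat_lit 69885795509410463743)) (T.h (P (nat_lit 0)) (P (nat_lit 60712894579320))))) (T.h (P (nat_lit 0)) (T.h (T.h (P (nat_lit 0)) (M (nat_lit 32594679829151))) (P (nat_lit 0)))))))) (T.h (T.h (T.h (M (nat_lit 25701860563623398398910005247)) (T.h (P (nat_lit 0)) (T.h (P (nat_lit 91696012296090950828032)) (T.h (P (nat_lit 0)) (M (nat_lit 4811877612748799)))))) (T.h (P (nat_lit 0)) (T.h (T.h (P (nat_lit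 171696789157313301708800)) (T.h (P (nat_lit 0)) (M (nat_lit 5597458710626303)))) (T.h (P (nat_lit 0)) (P (nat_lit 59794908404940800)))))) (T.h (T.h (P (nat_lit 0)) (T.h (T.h (P (nat_lit 0)) (T.h (M (nat_lit 171412489114109345791)) (T.h (P (nat_lit 0)) (M (nat_lit 18221469937063))))) (T.h (P (nat_lit 0)) (T.h (T.h (P (nat_lit 0)) (M (nat_lit 24203224311751))) (P (nat_lit 0)))))) (T.h (T.h (T.h (M (nat_lit 11053740652807004880895)) (T.h (P (nat_lit 0)) (M (nat_lit 27168631384899583)))) (T.h (P (nat_lit 0)) (P (nat_lit 85651475047120896)))) (T.h (T.h (P (nat_lit 0)) (T.h (T.h (P (nat_lit 0)) (M (nat_lit 16306529748567))) (P (nat_lit 0)))) (P (nat_lit 8209187272196096))))))), (T.h (T.h (P (nat_lit 0)) (T.h (T.h (M (nat_lit 35319903060341803535411707903)) (T.h (P (nat_lit 0)) (T.h (P (nat_lit 121488841169012862746624)) (T.h (P (nat_lit 0)) (P (nat_lit 107111795039895552)))))) (T.h (P (nat_lit 0)) (T.h (T.h (P (nat_lit 11128142108217455935488)) (T.h (P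 (nat_lit 0)) (P (nat_lit 52339589284036608)))) (T.h (P (nat_lit 0)) (P (nat_lit 23687448647892992))))))) (T.h (T.h (T.h (P (nat_lit 0)) (T.h (M (nat_lit 59917928165793394065407999)) (T.h (P (nat_lit 0)) (T.h (M (nat_lit 22647013076560248831)) (T.h (P (nat_lit 0)) (M (nat_lit 19726252663311))))))) (T.h (P (nat_lit 0)) (T.h (T.h (P (nat_lit 0)) (T.h (M (nat_lit 220465669000103198719)) (T.h (P (nat_lit 0)) (P (nat_lit 30360938406976))))) (T.h (P (nat_lit 0)) (T.h (T.h (P (nat_lit 0)) (M (nat_lit 12098671960639))) (P (nat_lit 0))))))) (T.h (T.h (P (nat_lit 0)) (T.h (T.h (P (nat_lit 121488841169012862746624)) (T.h (P (nat_lit 0)) (M (nat_lit 232242739402735615)))) (T.h (P (nat_lit 0)) (P (nat_lit 52339589284036608))))) (T.h (T.h (T.h (P (nat_lit 0)) (T.h (M (nat_lit 22647013076560248831)) (T.h (P (nat_lit 0)) (M (nat_lit 26762950788351))))) (T.h (P (nat_lit 0)) (T.h (T.h (P (nat_lit 0)) (P (nat_lit 30360938406976))) (P (nat_lit 0))))) (T.h (T.h (P (nat_lit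 0)) (P (nat_lit 107111795039895552))) (T.h (T.h (T.h (P (nat_lit 0)) (M (nat_lit 19726252663311))) (P (nat_lit 0))) (P (nat_lit 0)))))))), (T.h (T.h (P (nat_lit 0)) (T.h (T.h (P (nat_lit 0)) (T.h (P (nat_lit 264197221458303479611129856)) (T.h (P (nat_lit 0)) (T.h (M (nat_lit 181095631738026065919)) (T.h (P (nat_lit 0)) (P (nat_lit 87150435501744))))))) (T.h (P (nat_lit 0)) (T.h (T.h (P (nat_lit 0)) (T.h (P (nat_lit 107218120534636101632)) (T.h (P (nat_lit 0)) (M (nat_lit 3192246446255))))) (T.h (P (nat_lit 0)) (T.h (T.h (P (nat_lit 0)) (P (nat_lit 25515269866896))) (P (nat_lit 0)))))))) (T.h (T.h (T.h (M (nat_lit 14699444102260435898580598783)) (T.h (P (nat_lit 0)) (T.h (M (nat_lit 303776974185143931502591)) (T.h (P (nat_lit 0)) (M (nat_lit 468403644570140671)))))) (T.h (P (nat_lit 0)) (T.h (T.h (M (nat_lit 135293352118637519962111)) (T.h (P (nat_lit 0)) (P (nat_lit 2136137100165120)))) (T.h (P (nat_lit 0)) (P (nat_lit 3927096214618112)))))) (T.h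 (T.h (P (nat_lit 0)) (T.h (T.h (P (nat_lit 0)) (T.h (P (nat_lit 963625346863877586944)) (T.h (P (nat_lit 0)) (M (nat_lit 135056027421983))))) (T.h (P (nat_lit 0)) (T.h (T.h (P (nat_lit 0)) (M (nat_lit 20637821032175))) (P (nat_lit 0)))))) (T.h (T.h (T.h (M (nat_lit 21022155746184366391295)) (T.h (P (nat_lit 0)) (M (nat_lit 119008213731278847)))) (T.h (P (nat_lit 0)) (P (nat_lit 307060674230452224)))) (T.h (T.h (P (nat_lit 0)) (T.h (T.h (P (nat_lit 0)) (P (nat_lit 169611509330640))) (P (nat_lit 0)))) (P (nat_lit 8906030922694656)))))))]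
def lP22_24 : List (T ℤ) := [(T.h (T.h (P (nat_lit 0)) (T.h (T.h (M (nat_lit 95060108451662367495689338879)) (T.h (P (nat_lit 0)) (T.h (P (nat_lit 192504084486643047727104)) (T.h (P (nat_lit 0)) (M (nat_lit 175394950472155135)))))) (T.h (P (nat_lit 0)) (T.h (T.h (M (nat_lit 276672445310818863546367)) (T.h (P (nat_lit 0)) (P (nat_lit 263373719563976704)))) (T.h (P (nat_lit 0)) (M (nat_lit 151778934966403071))))))) (T.h (T.h (T.h (P (nat_lit 0)) (T.h (P (nat_lit 31873222224379168218415104)) (T.h (P (nat_lit 0)) (T.h (M (nat_lit 128028420278392455167)) (T.h (P (nat_lit 0)) (P (nat_lit 4794926070960))))))) (T.h (P (nat_lit 0)) (T.h (T.h (P (nat_lit 0)) (T.h (M (nat_lit 1129818480753300733951)) (T.h (P (nat_lit 0)) (M (nat_lit 175223468085263))))) (T.h (P (nat_lit 0)) (T.h (T.h (P (nat_lit 0)) (M (nat_lit 400605184028159))) (P (nat_lit 0))))))) (T.h (T.h (P (nat_lit 0)) (T.h (T.h (M (nat_lit 55329312596769502134271)) (T.h (P (nat_lit 0)) (P (nat_lit 818059986944311296))))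 (T.h (P (nat_lit 0)) (P (nat_lit 171509811917275136))))) (T.h (T.h (T.h (P (nat_lit 0)) (T.h (M (nat_lit 116614898390902243327)) (T.h (P (nat_lit 0)) (P (nat_lit 38116904517792))))) (T.h (P (nat_lit 0)) (T.h (T.h (P (nat_lit 0)) (M (nat_lit 387803109859199))) (P (nat_lit 0))))) (T.h (T.h (P (nat_lit 0)) (P (nat_lit 102850424939692032))) (T.h (T.h (T.h (P (nat_lit 0)) (M (nat_lit 73807486325279))) (P (nat_lit 0))) (P (nat_lit 0)))))))), (T.h (T.h (P (nat_lit 0)) (T.h (T.h (P (nat_lit 0)) (T.h (M (nat_lit 144121561351623944798470143)) (T.h (P (nat_lit 0)) (M (nat_lit 106262758275359440895))))) (T.h (P (nat_lit 0)) (T.h (T.h (P (nat_lit 0)) (M (nat_lit 208450746454475014143))) (P (nat_lit 0)))))) (T.h (T.h (T.h (P (nat_lit 24272225852187028016332800)) (T.h (P (nat_lit 0)) (T.h (P (nat_lit 420286920340889782976512)) (T.h (P (nat_lit 0)) (M (nat_lit 22389404982935551)))))) (T.h (P (nat_lit 0)) (T.h (T.h (M (nat_lit 117311579019113568141311)) (T.h (P (nat_lit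 0)) (P (nat_lit 289775874412838912)))) (T.h (P (nat_lit 0)) (M (nat_lit 261551039730286591)))))) (T.h (T.h (P (nat_lit 0)) (T.h (T.h (P (nat_lit 0)) (M (nat_lit 844488666540939411455))) (P (nat_lit 0)))) (T.h (T.h (T.h (P (nat_lit 71582141870744270798848)) (T.h (P (nat_lit 0)) (M (nat_lit 114711053236994047)))) (T.h (P (nat_lit 0)) (M (nat_lit 274787139956408319)))) (T.h (P (nat_lit 0)) (P (nat_lit 37728633573834752))))))), (P (nat_lit 0)), (T.h (T.h (T.h (P (nat_lit 0)) (T.h (P (nat_lit 0)) (T.h (M (nat_lit 25209046411597747371114495)) (T.h (P (nat_lit 0)) (T.h (P (nat_lit 6278840525973880832)) (T.h (P (nat_lit 0)) (M (nat_lit 9250229793791)))))))) (T.h (P (nat_lit 0)) (T.h (T.h (P (nat_lit 3799658250128866714583040)) (T.h (P (nat_lit 0)) (T.h (P (nat_lit 43725222482997673984)) (T.h (P (nat_lit 0)) (P (nat_lit 26376776201776)))))) (T.h (P (nat_lit 0)) (T.h (T.h (M (nat_lit 8697808965217550335)) (T.h (P (nat_lit 0)) (M (nat_lit 14535246081599))))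 (T.h (P (nat_lit 0)) (P (nat_lit 7331235369216)))))))) (T.h (T.h (P (nat_lit 0)) (T.h (T.h (P (nat_lit 0)) (T.h (P (nat_lit 4765318764970737926144)) (T.h (P (nat_lit 0)) (M (nat_lit 31364363596070911))))) (T.h (P (nat_lit 0)) (T.h (T.h (P (nat_lit 0)) (P (nat_lit 47129979740487680))) (P (nat_lit 0)))))) (T.h (T.h (T.h (P (nat_lit 43317758592907383173808128)) (T.h (P (nat_lit 0)) (T.h (P (nat_lit 15337956339561267200)) (T.h (P (nat_lit 0)) (P (nat_lit 6690205662128)))))) (T.h (P (nat_lit 0)) (T.h (T.h (M (nat_lit 4301878864746905599)) (T.h (P (nat_lit 0)) (P (nat_lit 39895253467376)))) (T.h (P (nat_lit 0)) (M (nat_lit 23316547824863)))))) (T.h (T.h (P (nat_lit 0)) (T.h (T.h (P (nat_lit 0)) (P (nat_lit 69438054300712960))) (P (nat_lit 0)))) (T.h (T.h (T.h (M (nat_lit 31900998194440437759)) (T.h (P (nat_lit 0)) (P (nat_lit 37463420197856)))) (T.h (P (nat_lit 0)) (M (nat_lit 19625802646735)))) (T.h (P (nat_lit 0)) (M (nat_lit 1454396833919)))))))), (T.h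 (T.h (T.h (P (nat_lit 0)) (T.h (P (nat_lit 36062601170929444725066825728)) (T.h (P (nat_lit 0)) (T.h (P (nat_lit 29668631029845084602368)) (T.h (P (nat_lit 0)) (P (nat_lit 41830868405092352))))))) (T.h (P (nat_lit 0)) (T.h (T.h (P (nat_lit 0)) (T.h (P (nat_lit 17833319142632502329344)) (T.h (P (nat_lit 0)) (P (nat_lit 28937019832778752))))) (T.h (P (nat_lit 0)) (T.h (T.h (P (nat_lit 0)) (P (nat_lit 85714983981924352))) (P (nat_lit 0))))))) (T.h (T.h (P (nat_lit 0)) (T.h (T.h (M (nat_lit 1982739573423292100378623)) (T.h (P (nat_lit 0)) (T.h (M (nat_lit 361745294728278048767)) (T.h (P (nat_lit 0)) (P (nat_lit 12497417382016)))))) (T.h (P (nat_lit 0)) (T.h (T.h (M (nat_lit 131245991172652400639)) (T.h (P (nat_lit 0)) (M (nat_lit 65824807301439)))) (T.h (P (nat_lit 0)) (M (nat_lit 41141546793535))))))) (T.h (T.h (T.h (P (nat_lit 0)) (T.h (P (nat_lit 22020751074150062227456)) (T.h (P (nat_lit 0)) (P (nat_lit 12166237003956224))))) (T.h (P (nat_lit 0))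 (T.h (T.h (P (nat_lit 0)) (P (nat_lit 211985984901169152))) (P (nat_lit 0))))) (T.h (T.h (P (nat_lit 0)) (T.h (T.h (M (nat_lit 186403039378019450879)) (T.h (P (nat_lit 0)) (M (nat_lit 33007436532031)))) (T.h (P (nat_lit 0)) (P (nat_lit 35259020168128))))) (T.h (T.h (T.h (P (nat_lit 0)) (P (nat_lit 49304697967296512))) (P (nat_lit 0))) (T.h (T.h (P (nat_lit 0)) (P (nat_lit 10502331506128))) (P (nat_lit 0)))))))), (T.h (T.h (T.h (M (nat_lit 148381892826497614788320821247)) (T.h (P (nat_lit 0)) (T.h (M (nat_lit 54706460049327799471702015)) (T.h (P (nat_lit 0)) (T.h (M (nat_lit 26149069000802303999)) (T.h (P (nat_lit 0)) (P (nat_lit 15872639520960)))))))) (T.h (P (nat_lit 0)) (T.h (T.h (P (nat_lit 79582275133260630522331136)) (T.h (P (nat_lit 0)) (T.h (P (nat_lit 286960894193902288896)) (T.h (P (nat_lit 0)) (P (nat_lit 56182492761312)))))) (T.h (P (nat_lit 0)) (T.h (T.h (P (nat_lit 83328117736533393408)) (T.h (P (nat_lit 0)) (P (nat_lit 21026148964512))))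 (T.h (P (nat_lit 0)) (P (nat_lit 5804995844160)))))))) (T.h (T.h (P (nat_lit 0)) (T.h (T.h (P (nat_lit 0)) (T.h (M (nat_lit 1082488559879266437693439)) (T.h (P (nat_lit 0)) (M (nat_lit 568131438012399615))))) (T.h (P (nat_lit 0)) (T.h (T.h (P (nat_lit 0)) (M (nat_lit 125348115550830591))) (P (nat_lit 0)))))) (T.h (T.h (T.h (M (nat_lit 54706460049327799471702015)) (T.h (P (nat_lit 0)) (T.h (P (nat_lit 523096355658931372032)) (T.h (P (nat_lit 0)) (P (nat_lit 44154348995520)))))) (T.h (P (nat_lit 0)) (T.h (T.h (P (nat_lit 286960894193902288896)) (T.h (P (nat_lit 0)) (M (nat_lit 95796220043711)))) (T.h (P (nat_lit 0)) (P (nat_lit 21026148964512)))))) (T.h (T.h (P (nat_lit 0)) (T.h (T.h (P (nat_lit 0)) (M (nat_lit 568131438012399615))) (P (nat_lit 0)))) (T.h (T.h (T.h (M (nat_lit 26149069000802303999)) (T.h (P (nat_lit 0)) (P (nat_lit 44154348995520)))) (T.h (P (nat_lit 0)) (P (nat_lit 56182492761312)))) (T.h (P (nat_lit 0)) (P (nat_lit 15872639520960)))))))),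 (T.h (T.h (T.h (P (nat_lit 0)) (T.h (M (nat_lit 24669808485702515816465956863)) (T.h (P (nat_lit 0)) (T.h (M (nat_lit 180565685084113187373055)) (T.h (P (nat_lit 0)) (M (nat_lit 51843025050419199))))))) (T.h (P (nat_lit 0)) (T.h (T.h (P (nat_lit 0)) (T.h (M (nat_lit 115486233927752624373759)) (T.h (P (nat_lit 0)) (P (nat_lit 319356198567739392))))) (T.h (P (nat_lit 0)) (T.h (T.h (P (nat_lit 0)) (P (nat_lit 92681609897787392))) (P (nat_lit 0))))))) (T.h (T.h (P (nat_lit 0)) (T.h (T.h (P (nat_lit 106075336957420466289508352)) (T.h (P (nat_lit 0)) (T.h (M (nat_lit 812713700660864876543)) (T.h (P (nat_lit 0)) (M (nat_lit 283456879165151)))))) (T.h (P (nat_lit 0)) (T.h (T.h (M (nat_lit 149085260369052565503)) (T.h (P (nat_lit 0)) (M (nat_lit 337714764884783)))) (T.h (P (nat_lit 0)) (P (nat_lit 49485318777792))))))) (T.h (T.h (T.h (P (nat_lit 0)) (T.h (M (nat_lit 98481950603613818585087)) (T.h (P (nat_lit 0)) (P (nat_lit 297056623558328320))))) (T.h (P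 (nat_lit 0)) (T.h (T.h (P (nat_lit 0)) (P (nat_lit 989702072943116288))) (P (nat_lit 0))))) (T.h (T.h (P (nat_lit 0)) (T.h (T.h (M (nat_lit 152795732343466754047)) (T.h (P (nat_lit 0)) (M (nat_lit 299480988247919)))) (T.h (P (nat_lit 0)) (P (nat_lit 22887367908912))))) (T.h (T.h (T.h (P (nat_lit 0)) (M (nat_lit 91237376546013183))) (P (nat_lit 0))) (T.h (T.h (P (nat_lit 0)) (P (nat_lit 4018972304880))) (P (nat_lit 0)))))))), (T.h (T.h (T.h (P (nat_lit 19467631606836864495099968487424)) (T.h (P (nat_lit 0)) (T.h (M (nat_lit 4005385083777552174022655)) (T.h (P (nat_lit 0)) (M (nat_lit 57748921945713278975)))))) (T.h (P (nat_lit 0)) (T.h (T.h (P (nat_lit 36209560300798946997960704)) (T.h (P (nat_lit 0)) (M (nat_lit 469977392837912690687)))) (T.h (P (nat_lit 0)) (P (nat_lit 22786112129582759936)))))) (T.h (T.h (P (nat_lit 0)) (T.h (T.h (P (nat_lit 0)) (T.h (P (nat_lit 1226617886430008346411008)) (T.h (P (nat_lit 0)) (P (nat_lit 382538152061894656)))))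 (T.h (P (nat_lit 0)) (T.h (T.h (P (nat_lit 0)) (P (nat_lit 594853977969459200))) (P (nat_lit 0)))))) (T.h (T.h (T.h (P (nat_lit 104885110360430056497479680)) (T.h (P (nat_lit 0)) (M (nat_lit 437557371516657598463)))) (T.h (P (nat_lit 0)) (M (nat_lit 609690421924770873343)))) (T.h (T.h (P (nat_lit 0)) (T.h (T.h (P (nat_lit 0)) (P (nat_lit 584027552139509760))) (P (nat_lit 0)))) (P (nat_lit 13265642981005721600))))))]
def lP22_25 : List (T ℤ) := [(T.h (T.h (P (nat_lit 0)) (T.h (T.h (P (nat_lit 0)) (T.h (P (nat_lit 6546479697134641121067008)) (T.h (P (nat_lit 0)) (T.h (P (nat_lit 22831587893463482368)) (T.h (P (nat_lit 0)) (P (nat_lit 16967370205168))))))) (T.h (P (nat_lit 0)) (T.h (T.h (P (nat_lit 0)) (T.h (M (nat_lit 4787399348545650687)) (T.h (P (nat_lit 0)) (M (nat_lit 23872235273511))))) (T.h (P (nat_lit 0)) (T.h (T.h (P (nat_lit 0)) (M (nat_lit 11650405526287))) (P (nat_lit 0)))))))) (T.h (T.h (T.h (M (nat_lit 782089061910025663233916927)) (T.h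 (P (nat_lit 0)) (T.h (M (nat_lit 14320835328243459424255)) (T.h (P (nat_lit 0)) (M (nat_lit 8925789642784767)))))) (T.h (P (nat_lit 0)) (T.h (T.h (P (nat_lit 18063952995519278612480)) (T.h (P (nat_lit 0)) (M (nat_lit 26618167397318655)))) (T.h (P (nat_lit 0)) (M (nat_lit 12606398353178623)))))) (T.h (T.h (P (nat_lit 0)) (T.h (T.h (P (nat_lit 0)) (T.h (P (nat_lit 24111187067511242752)) (T.h (P (nat_lit 0)) (M (nat_lit 11967238186615))))) (T.h (P (nat_lit 0)) (T.h (T.h (P (nat_lit 0)) (P (nat_lit 29687087006240))) (P (nat_lit 0)))))) (T.h (T.h (T.h (M (nat_lit 16426708158251637145599)) (T.h (P (nat_lit 0)) (M (nat_lit 22042204530900991)))) (T.h (P (nat_lit 0)) (M (nat_lit 42949802790125567)))) (T.h (T.h (P (nat_lit 0)) (T.h (T.h (P (nat_lit 0)) (P (nat_lit 17623647717064))) (P (nat_lit 0)))) (M (nat_lit 6131893213822975))))))), (T.h (T.h (P (nat_lit 0)) (T.h (T.h (P (nat_lit 1980409599325634221637107712)) (T.h (P (nat_lit 0)) (T.h (M (nat_lit 3622323455901260840959))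 (T.h (P (nat_lit 0)) (M (nat_lit 32889710490746879)))))) (T.h (P (nat_lit 0)) (T.h (T.h (M (nat_lit 15055359175053937737727)) (T.h (P (nat_lit 0)) (M (nat_lit 38455619674882047)))) (T.h (P (nat_lit 0)) (P (nat_lit 3262392835637248))))))) (T.h (T.h (T.h (P (nat_lit 0)) (T.h (M (nat_lit 17906321837193087961530367)) (T.h (P (nat_lit 0)) (T.h (M (nat_lit 28621299218955370495)) (T.h (P (nat_lit 0)) (M (nat_lit 57105588554927))))))) (T.h (P (nat_lit 0)) (T.h (T.h (P (nat_lit 0)) (T.h (M (nat_lit 4387270251864129535)) (T.h (P (nat_lit 0)) (P (nat_lit 7964610238816))))) (T.h (P (nat_lit 0)) (T.h (T.h (P (nat_lit 0)) (P (nat_lit 3163502112640))) (P (nat_lit 0))))))) (T.h (T.h (P (nat_lit 0)) (T.h (T.h (M (nat_lit 3622323455901260840959)) (T.h (P (nat_lit 0)) (P (nat_lit 53787962859716608)))) (T.h (P (nat_lit 0)) (M (nat_lit 38455619674882047))))) (T.h (T.h (T.h (P (nat_lit 0)) (T.h (M (nat_lit 28621299218955370495)) (T.h (P (nat_lit 0)) (M (nat_lit 33666772764575)))))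 (T.h (P (nat_lit 0)) (T.h (T.h (P (nat_lit 0)) (P (nat_lit 7964610238816))) (P (nat_lit 0))))) (T.h (T.h (P (nat_lit 0)) (M (nat_lit 32889710490746879))) (T.h (T.h (T.h (P (nat_lit 0)) (M (nat_lit 57105588554927))) (P (nat_lit 0))) (P (nat_lit 0)))))))), (T.h (T.h (P (nat_lit 0)) (T.h (T.h (P (nat_lit 0)) (T.h (P (nat_lit 24009839790072748140658688)) (T.h (P (nat_lit 0)) (T.h (P (nat_lit 227111329947579318272)) (T.h (P (nat_lit 0)) (P (nat_lit 5116009417728))))))) (T.h (P (nat_lit 0)) (T.h (T.h (P (nat_lit 0)) (T.h (P (nat_lit 9085128935045332992)) (T.h (P (nat_lit 0)) (P (nat_lit 54678548064048))))) (T.h (P (nat_lit 0)) (T.h (T.h (P (nat_lit 0)) (P (nat_lit 53934274870224))) (P (nat_lit 0)))))))) (T.h (T.h (T.h (P (nat_lit 29757050897655663289155190784)) (T.h (P (nat_lit 0)) (T.h (P (nat_lit 184607465826028684836864)) (T.h (P (nat_lit 0)) (P (nat_lit 251611445488877568)))))) (T.h (P (nat_lit 0)) (T.h (T.h (M (nat_lit 158799547454163062358015)) (T.h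 (P (nat_lit 0)) (M (nat_lit 401338149938692095)))) (T.h (P (nat_lit 0)) (P (nat_lit 11822702836023296)))))) (T.h (T.h (P (nat_lit 0)) (T.h (T.h (P (nat_lit 0)) (T.h (P (nat_lit 477568242238340726784)) (T.h (P (nat_lit 0)) (P (nat_lit 31534168289184))))) (T.h (P (nat_lit 0)) (T.h (T.h (P (nat_lit 0)) (M (nat_lit 128002672368815))) (P (nat_lit 0)))))) (T.h (T.h (T.h (P (nat_lit 125722215563327124275200)) (T.h (P (nat_lit 0)) (M (nat_lit 52758806521675775)))) (T.h (P (nat_lit 0)) (M (nat_lit 119696626360287231)))) (T.h (T.h (P (nat_lit 0)) (T.h (T.h (P (nat_lit 0)) (M (nat_lit 96129097414319))) (P (nat_lit 0)))) (P (nat_lit 97426712160305152))))))), (T.h (T.h (P (nat_lit 0)) (T.h (T.h (P (nat_lit 134371133011124625491428900864)) (T.h (P (nat_lit 0)) (T.h (M (nat_lit 219909085573414526124031)) (T.h (P (nat_lit 0)) (P (nat_lit 32339253196767232)))))) (T.h (P (nat_lit 0)) (T.h (T.h (P (nat_lit 53377000178633706307584)) (T.h (P (nat_lit 0)) (P (nat_lit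 205750396647211008)))) (T.h (P (nat_lit 0)) (P (nat_lit 60243128330780672))))))) (T.h (T.h (T.h (P (nat_lit 0)) (T.h (P (nat_lit 168949186352291241216966656)) (T.h (P (nat_lit 0)) (T.h (P (nat_lit 138269416555984977920)) (T.h (P (nat_lit 0)) (P (nat_lit 109419558515856))))))) (T.h (P (nat_lit 0)) (T.h (T.h (P (nat_lit 0)) (T.h (P (nat_lit 583641652890162954240)) (T.h (P (nat_lit 0)) (M (nat_lit 293244744153887))))) (T.h (P (nat_lit 0)) (T.h (T.h (P (nat_lit 0)) (M (nat_lit 44525894080319))) (P (nat_lit 0))))))) (T.h (T.h (P (nat_lit 0)) (T.h (T.h (M (nat_lit 219909085573414526124031)) (T.h (P (nat_lit 0)) (P (nat_lit 736748133274812416)))) (T.h (P (nat_lit 0)) (P (nat_lit 205750396647211008))))) (T.h (T.h (T.h (P (nat_lit 0)) (T.h (P (nat_lit 138269416555984977920)) (T.h (P (nat_lit 0)) (M (nat_lit 4790699887391))))) (T.h (P (nat_lit 0)) (T.h (T.h (P (nat_lit 0)) (M (nat_lit 293244744153887))) (P (nat_lit 0))))) (T.h (T.h (P (nat_lit 0)) (P (nat_lit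 32339253196767232))) (T.h (T.h (T.h (P (nat_lit 0)) (P (nat_lit 109419558515856))) (P (nat_lit 0))) (P (nat_lit 0)))))))), (T.h (T.h (P (nat_lit 0)) (T.h (T.h (P (nat_lit 0)) (T.h (M (nat_lit 4818697623215170922741759)) (T.h (P (nat_lit 0)) (M (nat_lit 312080181166017085439))))) (T.h (P (nat_lit 0)) (T.h (T.h (P (nat_lit 0)) (M (nat_lit 226371716232740077567))) (P (nat_lit 0)))))) (T.h (T.h (T.h (M (nat_lit 28398382286410379448408866815)) (T.h (P (nat_lit 0)) (T.h (M (nat_lit 51780947633005553254399)) (T.h (P (nat_lit 0)) (M (nat_lit 104687174977617919)))))) (T.h (P (nat_lit 0)) (T.h (T.h (P (nat_lit 371427416844194742796288)) (T.h (P (nat_lit 0)) (P (nat_lit 474119032791728128)))) (T.h (P (nat_lit 0)) (M (nat_lit 68433228062326783)))))) (T.h (T.h (P (nat_lit 0)) (T.h (T.h (P (nat_lit 0)) (M (nat_lit 1020376983064226562047))) (P (nat_lit 0)))) (T.h (T.h (T.h (P (nat_lit 6166060208012226723840)) (T.h (P (nat_lit 0)) (M (nat_lit 18351971067068415))))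 (T.h (P (nat_lit 0)) (M (nat_lit 30222617954451455)))) (T.h (P (nat_lit 0)) (P (nat_lit 5683048376041472))))))), (T.h (T.h (T.h (P (nat_lit 0)) (T.h (P (nat_lit 20984392715099619162048167936)) (T.h (P (nat_lit 0)) (T.h (P (nat_lit 19697029159794532941824)) (T.h (P (nat_lit 0)) (P (nat_lit 15994898100060160))))))) (T.h (P (nat_lit 0)) (T.h (T.h (P (nat_lit 0)) (T.h (M (nat_lit 8223931429363535314943)) (T.h (P (nat_lit 0)) (M (nat_lit 46708690346541055))))) (T.h (P (nat_lit 0)) (T.h (T.h (P (nat_lit 0)) (P (nat_lit 26419758957936640))) (P (nat_lit 0))))))) (T.h (T.h (P (nat_lit 0)) (T.h (T.h (M (nat_lit 23016326667677892480073727)) (T.h (P (nat_lit 0)) (T.h (P (nat_lit 29677769012967112704)) (T.h (P (nat_lit 0)) (P (nat_lit 50708355223312)))))) (T.h (P (nat_lit 0)) (T.h (T.h (M (nat_lit 4386139381002403839)) (T.h (P (nat_lit 0)) (M (nat_lit 4144068559599)))) (T.h (P (nat_lit 0)) (M (nat_lit 14450944174591))))))) (T.h (T.h (T.h (P (nat_lit 0)) (T.h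 (M (nat_lit 17505257867323948138495)) (T.h (P (nat_lit 0)) (M (nat_lit 33918669731856383))))) (T.h (P (nat_lit 0)) (T.h (T.h (P (nat_lit 0)) (M (nat_lit 738227850690559))) (P (nat_lit 0))))) (T.h (T.h (P (nat_lit 0)) (T.h (T.h (P (nat_lit 3997095405463535616)) (T.h (P (nat_lit 0)) (P (nat_lit 1500860940832)))) (T.h (P (nat_lit 0)) (P (nat_lit 6020971354256))))) (T.h (T.h (T.h (P (nat_lit 0)) (M (nat_lit 93291811182837759))) (P (nat_lit 0))) (T.h (T.h (P (nat_lit 0)) (P (nat_lit 40339979884256))) (P (nat_lit 0)))))))), (T.h (T.h (T.h (M (nat_lit 8912167443391824518145684537343)) (T.h (P (nat_lit 0)) (T.h (M (nat_lit 4622326605712981764341759)) (T.h (P (nat_lit 0)) (T.h (M (nat_lit 536184026336067583)) (T.h (P (nat_lit 0)) (P (nat_lit 8789193732672)))))))) (T.h (P (nat_lit 0)) (T.h (T.h (P (nat_lit 21667585315231552363298816)) (T.h (P (nat_lit 0)) (T.h (P (nat_lit 119646973549155975168)) (T.h (P (nat_lit 0)) (P (nat_lit 17775325846896)))))) (T.h (P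 (nat_lit 0)) (T.h (T.h (P (nat_lit 5849706572397150208)) (T.h (P (nat_lit 0)) (P (nat_lit 45145893431616)))) (T.h (P (nat_lit 0)) (P (nat_lit 954741325344)))))))) (T.h (T.h (P (nat_lit 0)) (T.h (T.h (P (nat_lit 0)) (T.h (P (nat_lit 28755281158888501542912)) (T.h (P (nat_lit 0)) (P (nat_lit 36243501004947456))))) (T.h (P (nat_lit 0)) (T.h (T.h (P (nat_lit 0)) (M (nat_lit 43515482294059007))) (P (nat_lit 0)))))) (T.h (T.h (T.h (M (nat_lit 62380455411995176119304191)) (T.h (P (nat_lit 0)) (T.h (P (nat_lit 161544671715240443904)) (T.h (P (nat_lit 0)) (M (nat_lit 21055996758767)))))) (T.h (P (nat_lit 0)) (T.h (T.h (P (nat_lit 20240455921282580480)) (T.h (P (nat_lit 0)) (P (nat_lit 12074435503008)))) (T.h (P (nat_lit 0)) (P (nat_lit 45145893431616)))))) (T.h (T.h (P (nat_lit 0)) (T.h (T.h (P (nat_lit 0)) (M (nat_lit 169860720897228799))) (P (nat_lit 0)))) (T.h (T.h (T.h (P (nat_lit 33971462972094021632)) (T.h (P (nat_lit 0)) (M (nat_lit 21055996758767))))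 (T.h (P (nat_lit 0)) (P (nat_lit 17775325846896)))) (T.h (P (nat_lit 0)) (P (nat_lit 8789193732672)))))))), (T.h (T.h (T.h (P (nat_lit 0)) (T.h (M (nat_lit 75890717121856789950549196799)) (T.h (P (nat_lit 0)) (T.h (M (nat_lit 67858883121244213870591)) (T.h (P (nat_lit 0)) (M (nat_lit 98468171772035071))))))) (T.h (P (nat_lit 0)) (T.h (T.h (P (nat_lit 0)) (T.h (P (nat_lit 156119359870059252023296)) (T.h (P (nat_lit 0)) (M (nat_lit 9298810221527039))))) (T.h (P (nat_lit 0)) (T.h (T.h (P (nat_lit 0)) (M (nat_lit 153838227053527039))) (P (nat_lit 0))))))) (T.h (T.h (P (nat_lit 0)) (T.h (T.h (M (nat_lit 30183801922423830775595007)) (T.h (P (nat_lit 0)) (T.h (P (nat_lit 344645915888983212032)) (T.h (P (nat_lit 0)) (M (nat_lit 176207102909135)))))) (T.h (P (nat_lit 0)) (T.h (T.h (P (nat_lit 154662805321476472832)) (T.h (P (nat_lit 0)) (P (nat_lit 70326835532496)))) (T.h (P (nat_lit 0)) (P (nat_lit 77758541576208))))))) (T.h (T.h (T.h (P (nat_lit 0)) (T.h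 (P (nat_lit 25656289604286027923456)) (T.h (P (nat_lit 0)) (M (nat_lit 3086601253912575))))) (T.h (P (nat_lit 0)) (T.h (T.h (P (nat_lit 0)) (M (nat_lit 196019508366573567))) (P (nat_lit 0))))) (T.h (T.h (P (nat_lit 0)) (T.h (T.h (P (nat_lit 270864413233208360960)) (T.h (P (nat_lit 0)) (M (nat_lit 211979165626079)))) (T.h (P (nat_lit 0)) (M (nat_lit 22633771718735))))) (T.h (T.h (T.h (P (nat_lit 0)) (P (nat_lit 171878396102328320))) (P (nat_lit 0))) (T.h (T.h (P (nat_lit 0)) (M (nat_lit 64488629090591))) (P (nat_lit 0))))))))]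
def lP22_26 : List (T ℤ) := [(T.h (T.h (T.h (P (nat_lit 38490117535194236145834974511104)) (T.h (P (nat_lit 0)) (T.h (P (nat_lit 50975701822710719249907712)) (T.h (P (nat_lit 0)) (P (nat_lit 35423825929078571008)))))) (T.h (P (nat_lit 0)) (T.h (T.h (M (nat_lit 98129739006073388593577983)) (T.h (P (nat_lit 0)) (M (nat_lit 124180046517180039167)))) (T.h (P (nat_lit 0)) (M (nat_lit 116125773072936468479)))))) (T.h (T.h (P (nat_lit 0)) (T.h (T.h (P (nat_lit 0)) (T.h (M (nat_lit 343014291205721459523583)) (T.h (P (nat_lit 0)) (P (nat_lit 390320635721154560))))) (T.h (P (nat_lit 0)) (T.h (T.h (P (nat_lit 0)) (M (nat_lit 23484590264025087))) (P (nat_lit 0)))))) (T.h (T.h (T.h (P (nat_lit 50975701822710719249907712)) (T.h (P (nat_lit 0)) (M (nat_lit 436026126012151496703)))) (T.h (P (nat_lit 0)) (M (nat_lit 124180046517180039167)))) (T.h (T.h (P (nat_lit 0)) (T.h (T.h (P (nat_lit 0)) (P (nat_lit 390320635721154560))) (P (nat_lit 0)))) (P (nat_lit 35423825929078571008)))))),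 (T.h (T.h (P (nat_lit 0)) (T.h (T.h (P (nat_lit 0)) (T.h (M (nat_lit 10655501998343211475533823)) (T.h (P (nat_lit 0)) (T.h (P (nat_lit 14014821978452525056)) (T.h (P (nat_lit 0)) (M (nat_lit 11562789853775))))))) (T.h (P (nat_lit 0)) (T.h (T.h (P (nat_lit 0)) (T.h (P (nat_lit 12914465284454088704)) (T.h (P (nat_lit 0)) (P (nat_lit 22388334389568))))) (T.h (P (nat_lit 0)) (T.h (T.h (P (nat_lit 0)) (P (nat_lit 8815688868816))) (P (nat_lit 0)))))))) (T.h (T.h (T.h (M (nat_lit 3456173834636085084861497343)) (T.h (P (nat_lit 0)) (T.h (P (nat_lit 79018735785822008639488)) (T.h (P (nat_lit 0)) (P (nat_lit 173742578925305856)))))) (T.h (P (nat_lit 0)) (T.h (T.h (M (nat_lit 8138862492074314301439)) (T.h (P (nat_lit 0)) (P (nat_lit 43116961213710336)))) (T.h (P (nat_lit 0)) (M (nat_lit 5272400747659263)))))) (T.h (T.h (P (nat_lit 0)) (T.h (T.h (P (nat_lit 0)) (T.h (M (nat_lit 74645592273925963775)) (T.h (P (nat_lit 0)) (P (nat_lit 29719564744560))))) (T.h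 (P (nat_lit 0)) (T.h (T.h (P (nat_lit 0)) (M (nat_lit 8955757893743))) (P (nat_lit 0)))))) (T.h (T.h (T.h (P (nat_lit 796842188950915252224)) (T.h (P (nat_lit 0)) (P (nat_lit 358151747026976768)))) (T.h (P (nat_lit 0)) (P (nat_lit 135300099771203584)))) (T.h (T.h (P (nat_lit 0)) (T.h (T.h (P (nat_lit 0)) (M (nat_lit 20837185961087))) (P (nat_lit 0)))) (M (nat_lit 79130026373513215))))))), (T.h (T.h (P (nat_lit 0)) (T.h (T.h (M (nat_lit 15405244956953180929827799039)) (T.h (P (nat_lit 0)) (T.h (P (nat_lit 58377955448778397843456)) (T.h (P (nat_lit 0)) (P (nat_lit 25069513072984064)))))) (T.h (P (nat_lit 0)) (T.h (T.h (P (nat_lit 34299267896437284798464)) (T.h (P (nat_lit 0)) (M (nat_lit 50331468078694399)))) (T.h (P (nat_lit 0)) (P (nat_lit 25436756187906048))))))) (T.h (T.h (T.h (P (nat_lit 0)) (T.h (P (nat_lit 26414870613408005553651712)) (T.h (P (nat_lit 0)) (T.h (P (nat_lit 17283595094275915776)) (T.h (P (nat_lit 0)) (P (nat_lit 68505149127168)))))))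 (T.h (P (nat_lit 0)) (T.h (T.h (P (nat_lit 0)) (T.h (M (nat_lit 319395816159282462719)) (T.h (P (nat_lit 0)) (M (nat_lit 38582463213215))))) (T.h (P (nat_lit 0)) (T.h (T.h (P (nat_lit 0)) (P (nat_lit 93337690111776))) (P (nat_lit 0))))))) (T.h (T.h (P (nat_lit 0)) (T.h (T.h (P (nat_lit 58377955448778397843456)) (T.h (P (nat_lit 0)) (M (nat_lit 20279104758906879)))) (T.h (P (nat_lit 0)) (M (nat_lit 50331468078694399))))) (T.h (T.h (T.h (P (nat_lit 0)) (T.h (P (nat_lit 17283595094275915776)) (T.h (P (nat_lit 0)) (P (nat_lit 31906044562176))))) (T.h (P (nat_lit 0)) (T.h (T.h (P (nat_lit 0)) (M (nat_lit 38582463213215))) (P (nat_lit 0))))) (T.h (T.h (P (nat_lit 0)) (P (nat_lit 25069513072984064))) (T.h (T.h (T.h (P (nat_lit 0)) (P (nat_lit 68505149127168))) (P (nat_lit 0))) (P (nat_lit 0)))))))), (T.h (T.h (P (nat_lit 0)) (T.h (T.h (P (nat_lit 0)) (T.h (P (nat_lit 9990266832868815868526592)) (T.h (P (nat_lit 0)) (P (nat_lit 42807339727817015296)))))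 (T.h (P (nat_lit 0)) (T.h (T.h (P (nat_lit 0)) (P (nat_lit 20466385991040499712))) (P (nat_lit 0)))))) (T.h (T.h (T.h (M (nat_lit 1528363253692110168137924607)) (T.h (P (nat_lit 0)) (T.h (M (nat_lit 258337378587237909790719)) (T.h (P (nat_lit 0)) (M (nat_lit 425326543491989503)))))) (T.h (P (nat_lit 0)) (T.h (T.h (M (nat_lit 103340982672338666389503)) (T.h (P (nat_lit 0)) (M (nat_lit 34881430572007423)))) (T.h (P (nat_lit 0)) (M (nat_lit 86545155969220607)))))) (T.h (T.h (P (nat_lit 0)) (T.h (T.h (P (nat_lit 0)) (P (nat_lit 376481760969893085184))) (P (nat_lit 0)))) (T.h (T.h (T.h (P (nat_lit 13811612619637037989888)) (T.h (P (nat_lit 0)) (M (nat_lit 748503780981669887)))) (T.h (P (nat_lit 0)) (M (nat_lit 219195007817711615)))) (T.h (P (nat_lit 0)) (P (nat_lit 106533968076406784))))))), (T.h (T.h (T.h (P (nat_lit 0)) (T.h (M (nat_lit 20545763807070606543294562303)) (T.h (P (nat_lit 0)) (T.h (M (nat_lit 19160979863630824603647)) (T.h (P (nat_lit 0))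 (M (nat_lit 14971273895362559))))))) (T.h (P (nat_lit 0)) (T.h (T.h (P (nat_lit 0)) (T.h (P (nat_lit 12135496075166393303040)) (T.h (P (nat_lit 0)) (P (nat_lit 52158500142071808))))) (T.h (P (nat_lit 0)) (T.h (T.h (P (nat_lit 0)) (M (nat_lit 35881187698753535))) (P (nat_lit 0))))))) (T.h (T.h (P (nat_lit 0)) (T.h (T.h (P (nat_lit 30576525179669562771111936)) (T.h (P (nat_lit 0)) (T.h (M (nat_lit 60109996656355704831)) (T.h (P (nat_lit 0)) (M (nat_lit 53556555107663)))))) (T.h (P (nat_lit 0)) (T.h (T.h (M (nat_lit 4299253708392235007)) (T.h (P (nat_lit 0)) (P (nat_lit 18560116891440)))) (T.h (P (nat_lit 0)) (P (nat_lit 8704128682512))))))) (T.h (T.h (T.h (P (nat_lit 0)) (T.h (P (nat_lit 18225494033046599368704)) (T.h (P (nat_lit 0)) (P (nat_lit 54131820061376512))))) (T.h (P (nat_lit 0)) (T.h (T.h (P (nat_lit 0)) (P (nat_lit 43606495874285568))) (P (nat_lit 0))))) (T.h (T.h (P (nat_lit 0)) (T.h (T.h (M (nat_lit 14785903864523522047)) (T.h (P (nat_lit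 0)) (P (nat_lit 22287634534368)))) (T.h (P (nat_lit 0)) (M (nat_lit 11727087712703))))) (T.h (T.h (T.h (P (nat_lit 0)) (P (nat_lit 79124825958711296))) (P (nat_lit 0))) (T.h (T.h (P (nat_lit 0)) (M (nat_lit 38574100311983))) (P (nat_lit 0)))))))), (T.h (T.h (T.h (P (nat_lit 12287190180425606716005116018688)) (T.h (P (nat_lit 0)) (T.h (M (nat_lit 822633096902632366145535)) (T.h (P (nat_lit 0)) (M (nat_lit 6177230466576285695)))))) (T.h (P (nat_lit 0)) (T.h (T.h (M (nat_lit 3836605376147847800422399)) (T.h (P (nat_lit 0)) (M (nat_lit 65115326894967881727)))) (T.h (P (nat_lit 0)) (M (nat_lit 34747549758858985471)))))) (T.h (T.h (P (nat_lit 0)) (T.h (T.h (P (nat_lit 0)) (T.h (P (nat_lit 126306685842223500623872)) (T.h (P (nat_lit 0)) (P (nat_lit 56164324190060544))))) (T.h (P (nat_lit 0)) (T.h (T.h (P (nat_lit 0)) (M (nat_lit 101851870552260607))) (P (nat_lit 0)))))) (T.h (T.h (T.h (M (nat_lit 822633096902632366145535)) (T.h (P (nat_lit 0)) (M (nat_lit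 183649484888055218175)))) (T.h (P (nat_lit 0)) (M (nat_lit 65115326894967881727)))) (T.h (T.h (P (nat_lit 0)) (T.h (T.h (P (nat_lit 0)) (P (nat_lit 56164324190060544))) (P (nat_lit 0)))) (M (nat_lit 6177230466576285695)))))), (T.h (T.h (P (nat_lit 0)) (T.h (T.h (P (nat_lit 0)) (T.h (P (nat_lit 2731529024111075150266368)) (T.h (P (nat_lit 0)) (M (nat_lit 14446821862908362751))))) (T.h (P (nat_lit 0)) (T.h (T.h (P (nat_lit 0)) (P (nat_lit 2922520119437426688))) (P (nat_lit 0)))))) (T.h (T.h (T.h (P (nat_lit 2431989740396183413638299648)) (T.h (P (nat_lit 0)) (T.h (M (nat_lit 67764700985457142398975)) (T.h (P (nat_lit 0)) (M (nat_lit 157432470344531967)))))) (T.h (P (nat_lit 0)) (T.h (T.h (M (nat_lit 2389731705158014861311)) (T.h (P (nat_lit 0)) (M (nat_lit 13085180765306879)))) (T.h (P (nat_lit 0)) (M (nat_lit 737280053051391)))))) (T.h (T.h (P (nat_lit 0)) (T.h (T.h (P (nat_lit 0)) (P (nat_lit 43502318328160976896))) (P (nat_lit 0)))) (T.h (T.h (T.h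 (P (nat_lit 13155666161854431887360)) (T.h (P (nat_lit 0)) (M (nat_lit 344310799049883647)))) (T.h (P (nat_lit 0)) (M (nat_lit 84716766919393279)))) (T.h (P (nat_lit 0)) (P (nat_lit 86333522932170752))))))), (P (nat_lit 0))]
def lP22_27 : List (T ℤ) := [(P (nat_lit 0)), (T.h (T.h (T.h (P (nat_lit 0)) (T.h (M (nat_lit 8796633139127483325699063807)) (T.h (P (nat_lit 0)) (T.h (M (nat_lit 49568223524688045801471)) (T.h (P (nat_lit 0)) (M (nat_lit 24550276827938815))))))) (T.h (P (nat_lit 0)) (T.h (T.h (P (nat_lit 0)) (T.h (M (nat_lit 63021520902504837021695)) (T.h (P (nat_lit 0)) (P (nat_lit 73812048598401024))))) (T.h (P (nat_lit 0)) (T.h (T.h (P (nat_lit 0)) (M (nat_lit 90201467688058879))) (P (nat_lit 0))))))) (T.h (T.h (P (nat_lit 0)) (T.h (T.h (M (nat_lit 6104258270349006037057535)) (T.h (P (nat_lit 0)) (T.h (P (nat_lit 28016122449327292416)) (T.h (P (nat_lit 0)) (P (nat_lit 145515116622832)))))) (T.h (P (nat_lit 0)) (T.h (T.h (M (nat_lit 7201964852129038335))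 (T.h (P (nat_lit 0)) (P (nat_lit 33958396886664)))) (T.h (P (nat_lit 0)) (M (nat_lit 31701676764151))))))) (T.h (T.h (T.h (P (nat_lit 0)) (T.h (M (nat_lit 28858893869128926363647)) (T.h (P (nat_lit 0)) (P (nat_lit 90264541267427328))))) (T.h (P (nat_lit 0)) (T.h (T.h (P (nat_lit 0)) (P (nat_lit 107283388228403200))) (P (nat_lit 0))))) (T.h (T.h (P (nat_lit 0)) (T.h (T.h (M (nat_lit 52241732874576855039)) (T.h (P (nat_lit 0)) (M (nat_lit 6388521233151)))) (T.h (P (nat_lit 0)) (P (nat_lit 21482992952464))))) (T.h (T.h (T.h (P (nat_lit 0)) (M (nat_lit 26974990662139903))) (P (nat_lit 0))) (T.h (T.h (P (nat_lit 0)) (P (nat_lit 27814765993016))) (P (nat_lit 0)))))))), (T.h (T.h (T.h (P (nat_lit 233076472635401009944385235714048)) (T.h (P (nat_lit 0)) (T.h (P (nat_lit 18242080237065813390000128)) (T.h (P (nat_lit 0)) (T.h (P (nat_lit 15316555343702523904)) (T.h (P (nat_lit 0)) (M (nat_lit 76518468464159)))))))) (T.h (P (nat_lit 0)) (T.h (T.h (P (nat_lit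 65223096172004225019019264)) (T.h (P (nat_lit 0)) (T.h (P (nat_lit 32877116873500524544)) (T.h (P (nat_lit 0)) (M (nat_lit 128515715130543)))))) (T.h (P (nat_lit 0)) (T.h (T.h (P (nat_lit 88585329078716858368)) (T.h (P (nat_lit 0)) (M (nat_lit 29473903434351)))) (T.h (P (nat_lit 0)) (P (nat_lit 64159862523136)))))))) (T.h (T.h (P (nat_lit 0)) (T.h (T.h (P (nat_lit 0)) (T.h (P (nat_lit 71742659272017103028224)) (T.h (P (nat_lit 0)) (P (nat_lit 137110162524012544))))) (T.h (P (nat_lit 0)) (T.h (T.h (P (nat_lit 0)) (P (nat_lit 80690344195915776))) (P (nat_lit 0)))))) (T.h (T.h (T.h (P (nat_lit 18242080237065813390000128)) (T.h (P (nat_lit 0)) (T.h (M (nat_lit 178567857642437345279)) (T.h (P (nat_lit 0)) (P (nat_lit 20206160074496)))))) (T.h (P (nat_lit 0)) (T.h (T.h (P (nat_lit 32877116873500524544)) (T.h (P (nat_lit 0)) (M (nat_lit 44356803550335)))) (T.h (P (nat_lit 0)) (M (nat_lit 29473903434351)))))) (T.h (T.h (P (nat_lit 0)) (T.h (T.h (P (nat_lit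 0)) (P (nat_lit 137110162524012544))) (P (nat_lit 0)))) (T.h (T.h (T.h (P (nat_lit 15316555343702523904)) (T.h (P (nat_lit 0)) (P (nat_lit 20206160074496)))) (T.h (P (nat_lit 0)) (M (nat_lit 128515715130543)))) (T.h (P (nat_lit 0)) (M (nat_lit 76518468464159)))))))), (T.h (T.h (T.h (P (nat_lit 0)) (T.h (P (nat_lit 33049727808472062908067479552)) (T.h (P (nat_lit 0)) (T.h (P (nat_lit 41477085984078964981760)) (T.h (P (nat_lit 0)) (P (nat_lit 132425253785862144))))))) (T.h (P (nat_lit 0)) (T.h (T.h (P (nat_lit 0)) (T.h (P (nat_lit 353177780428892153053184)) (T.h (P (nat_lit 0)) (M (nat_lit 127256489471246335))))) (T.h (P (nat_lit 0)) (T.h (T.h (P (nat_lit 0)) (P (nat_lit 173873189607211008))) (P (nat_lit 0))))))) (T.h (T.h (P (nat_lit 0)) (T.h (T.h (M (nat_lit 136074691824650914841493503)) (T.h (P (nat_lit 0)) (T.h (M (nat_lit 266563986753998290943)) (T.h (P (nat_lit 0)) (M (nat_lit 75125127725183)))))) (T.h (P (nat_lit 0)) (T.h (T.h (M (nat_lit 246546229374448828415))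 (T.h (P (nat_lit 0)) (P (nat_lit 17726840617536)))) (T.h (P (nat_lit 0)) (P (nat_lit 9296870610384))))))) (T.h (T.h (T.h (P (nat_lit 0)) (T.h (P (nat_lit 306068408225867260493824)) (T.h (P (nat_lit 0)) (P (nat_lit 86679300496228352))))) (T.h (P (nat_lit 0)) (T.h (T.h (P (nat_lit 0)) (M (nat_lit 212197575549681663))) (P (nat_lit 0))))) (T.h (T.h (P (nat_lit 0)) (T.h (T.h (P (nat_lit 113624335975041728512)) (T.h (P (nat_lit 0)) (M (nat_lit 80099182760783)))) (T.h (P (nat_lit 0)) (P (nat_lit 121268982226560))))) (T.h (T.h (T.h (P (nat_lit 0)) (M (nat_lit 18738067978452991))) (P (nat_lit 0))) (T.h (T.h (P (nat_lit 0)) (P (nat_lit 10517340638208))) (P (nat_lit 0)))))))), (T.h (T.h (T.h (M (nat_lit 409266472218964815952337514266623)) (T.h (P (nat_lit 0)) (T.h (M (nat_lit 10101649388226781915381759)) (T.h (P (nat_lit 0)) (T.h (M (nat_lit 23322182882330411007)) (T.h (P (nat_lit 0)) (P (nat_lit 90522856686240)))))))) (T.h (P (nat_lit 0)) (T.h (T.h (M (nat_lit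 131017688937194509893107711)) (T.h (P (nat_lit 0)) (T.h (P (nat_lit 148339135441111351296)) (T.h (P (nat_lit 0)) (P (nat_lit 100058136211152)))))) (T.h (P (nat_lit 0)) (T.h (T.h (M (nat_lit 213196163386089406463)) (T.h (P (nat_lit 0)) (P (nat_lit 207312393033648)))) (T.h (P (nat_lit 0)) (M (nat_lit 158233476595103)))))))) (T.h (T.h (P (nat_lit 0)) (T.h (T.h (P (nat_lit 0)) (T.h (M (nat_lit 180786621017668706107391)) (T.h (P (nat_lit 0)) (M (nat_lit 111097928493268991))))) (T.h (P (nat_lit 0)) (T.h (T.h (P (nat_lit 0)) (M (nat_lit 371759436879200255))) (P (nat_lit 0)))))) (T.h (T.h (T.h (M (nat_lit 69284530162055369893871615)) (T.h (P (nat_lit 0)) (T.h (P (nat_lit 348793543285196980224)) (T.h (P (nat_lit 0)) (M (nat_lit 33691423764815)))))) (T.h (P (nat_lit 0)) (T.h (T.h (P (nat_lit 245832239135124881408)) (T.h (P (nat_lit 0)) (P (nat_lit 58448465730432)))) (T.h (P (nat_lit 0)) (P (nat_lit 426226108692672)))))) (T.h (T.h (P (nat_lit 0)) (T.h (T.h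 (P (nat_lit 0)) (M (nat_lit 226486697755705343))) (P (nat_lit 0)))) (T.h (T.h (T.h (M (nat_lit 18864403813379342335)) (T.h (P (nat_lit 0)) (P (nat_lit 177812870020992)))) (T.h (P (nat_lit 0)) (P (nat_lit 572893221391200)))) (T.h (P (nat_lit 0)) (P (nat_lit 84590609547168)))))))), (T.h (T.h (T.h (P (nat_lit 0)) (T.h (M (nat_lit 16535973017744251280892624895)) (T.h (P (nat_lit 0)) (T.h (M (nat_lit 58208633310122940039167)) (T.h (P (nat_lit 0)) (M (nat_lit 135815907689496575))))))) (T.h (P (nat_lit 0)) (T.h (T.h (P (nat_lit 0)) (T.h (M (nat_lit 121739393643156789526527)) (T.h (P (nat_lit 0)) (M (nat_lit 112040951094476799))))) (T.h (P (nat_lit 0)) (T.h (T.h (P (nat_lit 0)) (M (nat_lit 73789981571678207))) (P (nat_lit 0))))))) (T.h (T.h (P (nat_lit 0)) (T.h (T.h (P (nat_lit 25238555120004385889845248)) (T.h (P (nat_lit 0)) (P (nat_lit 380669420328800223232)))) (T.h (P (nat_lit 0)) (M (nat_lit 47869593626469203967))))) (T.h (T.h (T.h (P (nat_lit 0)) (T.h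 (M (nat_lit 288206426600430643445759)) (T.h (P (nat_lit 0)) (P (nat_lit 62885167411003392))))) (T.h (P (nat_lit 0)) (T.h (T.h (P (nat_lit 0)) (M (nat_lit 44442772888485887))) (P (nat_lit 0))))) (T.h (T.h (P (nat_lit 0)) (M (nat_lit 28644698618805092351))) (T.h (T.h (T.h (P (nat_lit 0)) (M (nat_lit 15829073026285567))) (P (nat_lit 0))) (P (nat_lit 0))))))), (P (nat_lit 0)), (P (nat_lit 0))]
def lP22_28 : List (T ℤ) := [(T.h (T.h (P (nat_lit 0)) (T.h (T.h (P (nat_lit 6088348195122486763923177472)) (T.h (P (nat_lit 0)) (T.h (P (nat_lit 26273341414655028887552)) (T.h (P (nat_lit 0)) (P (nat_lit 28646689609252864)))))) (T.h (P (nat_lit 0)) (T.h (T.h (P (nat_lit 15278871285793812381696)) (T.h (P (nat_lit 0)) (M (nat_lit 88555637389066239)))) (T.h (P (nat_lit 0)) (M (nat_lit 39641499995897855))))))) (T.h (T.h (T.h (P (nat_lit 0)) (T.h (P (nat_lit 5586559612285185070989312)) (T.h (P (nat_lit 0)) (T.h (M (nat_lit 38035878949488164863)) (T.h (P (nat_lit 0))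 (P (nat_lit 43589744350600))))))) (T.h (P (nat_lit 0)) (T.h (T.h (P (nat_lit 0)) (T.h (M (nat_lit 46472014677212659711)) (T.h (P (nat_lit 0)) (M (nat_lit 50023920775135))))) (T.h (P (nat_lit 0)) (T.h (T.h (P (nat_lit 0)) (M (nat_lit 7072690798567))) (P (nat_lit 0))))))) (T.h (T.h (P (nat_lit 0)) (T.h (T.h (M (nat_lit 47295177347541491515391)) (T.h (P (nat_lit 0)) (P (nat_lit 71846498905096192)))) (T.h (P (nat_lit 0)) (P (nat_lit 173223522938322944))))) (T.h (T.h (T.h (P (nat_lit 0)) (T.h (P (nat_lit 18303798455157391360)) (T.h (P (nat_lit 0)) (P (nat_lit 44372658307848))))) (T.h (P (nat_lit 0)) (T.h (T.h (P (nat_lit 0)) (P (nat_lit 16886384530680))) (P (nat_lit 0))))) (T.h (T.h (P (nat_lit 0)) (P (nat_lit 29590114659729408))) (T.h (T.h (T.h (P (nat_lit 0)) (M (nat_lit 28311984350855))) (P (nat_lit 0))) (P (nat_lit 0)))))))), (T.h (T.h (P (nat_lit 0)) (T.h (T.h (P (nat_lit 0)) (T.h (M (nat_lit 47865285920089784994234367)) (T.h (P (nat_lit 0)) (T.h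 (M (nat_lit 12366281654551969791)) (T.h (P (nat_lit 0)) (M (nat_lit 92790654036415))))))) (T.h (P (nat_lit 0)) (T.h (T.h (P (nat_lit 0)) (T.h (M (nat_lit 67523329859919020031)) (T.h (P (nat_lit 0)) (M (nat_lit 47048248158751))))) (T.h (P (nat_lit 0)) (T.h (T.h (P (nat_lit 0)) (M (nat_lit 41146775736751))) (P (nat_lit 0)))))))) (T.h (T.h (T.h (M (nat_lit 15679541930845267546068746239)) (T.h (P (nat_lit 0)) (T.h (P (nat_lit 55028381162846390583296)) (T.h (P (nat_lit 0)) (P (nat_lit 38871330036514816)))))) (T.h (P (nat_lit 0)) (T.h (T.h (P (nat_lit 59215813094363950481408)) (T.h (P (nat_lit 0)) (M (nat_lit 62333406841651199)))) (T.h (P (nat_lit 0)) (P (nat_lit 2461044021886976)))))) (T.h (T.h (P (nat_lit 0)) (T.h (T.h (P (nat_lit 0)) (T.h (M (nat_lit 114620104751915728895)) (T.h (P (nat_lit 0)) (P (nat_lit 6736394057600))))) (T.h (P (nat_lit 0)) (T.h (T.h (P (nat_lit 0)) (P (nat_lit 39553764827008))) (P (nat_lit 0)))))) (T.h (T.h (T.h (M (nat_lit 9491288120945209769983))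 (T.h (P (nat_lit 0)) (M (nat_lit 3900433618452479)))) (T.h (P (nat_lit 0)) (M (nat_lit 20671216447275007)))) (T.h (T.h (P (nat_lit 0)) (T.h (T.h (P (nat_lit 0)) (M (nat_lit 2885833867679))) (P (nat_lit 0)))) (P (nat_lit 15106117159583744))))))), (T.h (T.h (P (nat_lit 0)) (T.h (T.h (P (nat_lit 18432704644176676824165646336)) (T.h (P (nat_lit 0)) (T.h (P (nat_lit 247978088137679796436992)) (T.h (P (nat_lit 0)) (M (nat_lit 19414704558178303)))))) (T.h (P (nat_lit 0)) (T.h (T.h (P (nat_lit 116422629219929520340992)) (T.h (P (nat_lit 0)) (P (nat_lit 331084446121787392)))) (T.h (P (nat_lit 0)) (M (nat_lit 20967521656307711))))))) (T.h (T.h (T.h (P (nat_lit 0)) (T.h (M (nat_lit 108077723834373033206743039)) (T.h (P (nat_lit 0)) (T.h (P (nat_lit 46241514640784752640)) (T.h (P (nat_lit 0)) (P (nat_lit 58757328737568))))))) (T.h (P (nat_lit 0)) (T.h (T.h (P (nat_lit 0)) (T.h (P (nat_lit 467769497859393585152)) (T.h (P (nat_lit 0)) (M (nat_lit 77353651009967)))))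 (T.h (P (nat_lit 0)) (T.h (T.h (P (nat_lit 0)) (M (nat_lit 1716702909983))) (P (nat_lit 0))))))) (T.h (T.h (P (nat_lit 0)) (T.h (T.h (P (nat_lit 247978088137679796436992)) (T.h (P (nat_lit 0)) (M (nat_lit 170559876401725439)))) (T.h (P (nat_lit 0)) (P (nat_lit 331084446121787392))))) (T.h (T.h (T.h (P (nat_lit 0)) (T.h (P (nat_lit 46241514640784752640)) (T.h (P (nat_lit 0)) (P (nat_lit 79486053741600))))) (T.h (P (nat_lit 0)) (T.h (T.h (P (nat_lit 0)) (M (nat_lit 77353651009967))) (P (nat_lit 0))))) (T.h (T.h (P (nat_lit 0)) (M (nat_lit 19414704558178303))) (T.h (T.h (T.h (P (nat_lit 0)) (P (nat_lit 58757328737568))) (P (nat_lit 0))) (P (nat_lit 0)))))))), (T.h (T.h (P (nat_lit 0)) (T.h (T.h (P (nat_lit 0)) (T.h (P (nat_lit 94747071619249943145873408)) (T.h (P (nat_lit 0)) (T.h (P (nat_lit 163036728621059276800)) (T.h (P (nat_lit 0)) (P (nat_lit 110195512281936))))))) (T.h (P (nat_lit 0)) (T.h (T.h (P (nat_lit 0)) (T.h (P (nat_lit 170739778534135300096))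 (T.h (P (nat_lit 0)) (P (nat_lit 10438836721488))))) (T.h (P (nat_lit 0)) (T.h (T.h (P (nat_lit 0)) (M (nat_lit 13873246587215))) (P (nat_lit 0)))))))) (T.h (T.h (T.h (P (nat_lit 63980833045164773812205518848)) (T.h (P (nat_lit 0)) (T.h (P (nat_lit 71076949516842340188160)) (T.h (P (nat_lit 0)) (M (nat_lit 51818320729374719)))))) (T.h (P (nat_lit 0)) (T.h (T.h (M (nat_lit 159752164242431403884543)) (T.h (P (nat_lit 0)) (P (nat_lit 565106047276007424)))) (T.h (P (nat_lit 0)) (P (nat_lit 42508068238671872)))))) (T.h (T.h (P (nat_lit 0)) (T.h (T.h (P (nat_lit 0)) (T.h (P (nat_lit 266536872797727096832)) (T.h (P (nat_lit 0)) (M (nat_lit 168987223991231))))) (T.h (P (nat_lit 0)) (T.h (T.h (P (nat_lit 0)) (M (nat_lit 343333089128303))) (P (nat_lit 0)))))) (T.h (T.h (T.h (M (nat_lit 42729760048071969865727)) (T.h (P (nat_lit 0)) (P (nat_lit 172067492652859392)))) (T.h (P (nat_lit 0)) (P (nat_lit 57904009996746752)))) (T.h (T.h (P (nat_lit 0)) (T.h (T.h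 (P (nat_lit 0)) (M (nat_lit 161674198943327))) (P (nat_lit 0)))) (M (nat_lit 39692781585203199))))))), (T.h (T.h (P (nat_lit 0)) (T.h (T.h (M (nat_lit 30508888387642705636602413055)) (T.h (P (nat_lit 0)) (T.h (M (nat_lit 23007533441051711766527)) (T.h (P (nat_lit 0)) (M (nat_lit 187089027277619199)))))) (T.h (P (nat_lit 0)) (T.h (T.h (P (nat_lit 58113764557361868963840)) (T.h (P (nat_lit 0)) (M (nat_lit 158032357905596415)))) (T.h (P (nat_lit 0)) (P (nat_lit 196333192762982400))))))) (T.h (T.h (T.h (P (nat_lit 0)) (T.h (P (nat_lit 102326726380815696128901120)) (T.h (P (nat_lit 0)) (M (nat_lit 93974810146082127871))))) (T.h (P (nat_lit 0)) (T.h (T.h (P (nat_lit 0)) (M (nat_lit 182339563538297651199))) (P (nat_lit 0))))) (T.h (T.h (P (nat_lit 0)) (T.h (T.h (M (nat_lit 137397668323854766833663)) (T.h (P (nat_lit 0)) (P (nat_lit 228245028713496576)))) (T.h (P (nat_lit 0)) (M (nat_lit 329979091512393727))))) (T.h (T.h (T.h (P (nat_lit 0)) (M (nat_lit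 110454333391920693247))) (P (nat_lit 0))) (T.h (T.h (P (nat_lit 0)) (M (nat_lit 389996715109679103))) (P (nat_lit 0))))))), (P (nat_lit 0)), (T.h (T.h (T.h (P (nat_lit 0)) (T.h (P (nat_lit 7067883162817083330290253824)) (T.h (P (nat_lit 0)) (T.h (P (nat_lit 34241053326966138077184)) (T.h (P (nat_lit 0)) (M (nat_lit 6241919175884799))))))) (T.h (P (nat_lit 0)) (T.h (T.h (P (nat_lit 0)) (T.h (M (nat_lit 91738289786465600667647)) (T.h (P (nat_lit 0)) (M (nat_lit 87688970408525823))))) (T.h (P (nat_lit 0)) (T.h (T.h (P (nat_lit 0)) (M (nat_lit 6688657935761407))) (P (nat_lit 0))))))) (T.h (T.h (P (nat_lit 0)) (T.h (T.h (P (nat_lit 49272808432764750105935872)) (T.h (P (nat_lit 0)) (T.h (M (nat_lit 23196300775184662527)) (T.h (P (nat_lit 0)) (P (nat_lit 10409735701408)))))) (T.h (P (nat_lit 0)) (T.h (T.h (P (nat_lit 2582384139558715392)) (T.h (P (nat_lit 0)) (P (nat_lit 54142757789336)))) (T.h (P (nat_lit 0)) (M (nat_lit 41936298832791))))))) (T.h (T.h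 (T.h (P (nat_lit 0)) (T.h (M (nat_lit 59944548680957257842687)) (T.h (P (nat_lit 0)) (M (nat_lit 14972462036058111))))) (T.h (P (nat_lit 0)) (T.h (T.h (P (nat_lit 0)) (P (nat_lit 78475825977229312))) (P (nat_lit 0))))) (T.h (T.h (P (nat_lit 0)) (T.h (T.h (P (nat_lit 26070603246705049600)) (T.h (P (nat_lit 0)) (P (nat_lit 136896221337896)))) (T.h (P (nat_lit 0)) (M (nat_lit 99518722208543))))) (T.h (T.h (T.h (P (nat_lit 0)) (P (nat_lit 33043563204902912))) (P (nat_lit 0))) (T.h (T.h (P (nat_lit 0)) (M (nat_lit 60155240630727))) (P (nat_lit 0)))))))), (T.h (T.h (T.h (P (nat_lit 90919965927699648071075150954496)) (T.h (P (nat_lit 0)) (T.h (M (nat_lit 14847192560085279283609599)) (T.h (P (nat_lit 0)) (T.h (P (nat_lit 25187028042550083584)) (T.h (P (nat_lit 0)) (P (nat_lit 26096485742336)))))))) (T.h (P (nat_lit 0)) (T.h (T.h (M (nat_lit 17606398215889679659565055)) (T.h (P (nat_lit 0)) (T.h (P (nat_lit 67519148981114372096)) (T.h (P (nat_lit 0)) (M (nat_lit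 12378718167215)))))) (T.h (P (nat_lit 0)) (T.h (T.h (M (nat_lit 7848427304328888319)) (T.h (P (nat_lit 0)) (M (nat_lit 98647648209967)))) (T.h (P (nat_lit 0)) (M (nat_lit 67029174892799)))))))) (T.h (T.h (P (nat_lit 0)) (T.h (T.h (P (nat_lit 0)) (T.h (P (nat_lit 77741490753788796993536)) (T.h (P (nat_lit 0)) (P (nat_lit 29959203723739136))))) (T.h (P (nat_lit 0)) (T.h (T.h (P (nat_lit 0)) (P (nat_lit 84880849788010496))) (P (nat_lit 0)))))) (T.h (T.h (T.h (M (nat_lit 59069002839219290536673279)) (T.h (P (nat_lit 0)) (T.h (P (nat_lit 70884545633001144320)) (T.h (P (nat_lit 0)) (M (nat_lit 27698742121407)))))) (T.h (P (nat_lit 0)) (T.h (T.h (M (nat_lit 36520639950911176703)) (T.h (P (nat_lit 0)) (M (nat_lit 21861736655647)))) (T.h (P (nat_lit 0)) (M (nat_lit 13430654916799)))))) (T.h (T.h (P (nat_lit 0)) (T.h (T.h (P (nat_lit 0)) (P (nat_lit 31457375987564544))) (P (nat_lit 0)))) (T.h (T.h (T.h (M (nat_lit 15046290345585278975)) (T.h (P (nat_lit 0))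 (M (nat_lit 40471623774847)))) (T.h (P (nat_lit 0)) (P (nat_lit 23033258137024)))) (T.h (P (nat_lit 0)) (M (nat_lit 21456184609823))))))))]
def lP22_29 : List (T ℤ) := [(T.h (T.h (T.h (P (nat_lit 0)) (T.h (M (nat_lit 14699444102260435898580598783)) (T.h (P (nat_lit 0)) (T.h (M (nat_lit 21022155746184366391295)) (T.h (P (nat_lit 0)) (P (nat_lit 8906030922694656))))))) (T.h (P (nat_lit 0)) (T.h (T.h (P (nat_lit 0)) (T.h (M (nat_lit 135293352118637519962111)) (T.h (P (nat_lit 0)) (P (nat_lit 307060674230452224))))) (T.h (P (nat_lit 0)) (T.h (T.h (P (nat_lit 0)) (P (nat_lit 3927096214618112))) (P (nat_lit 0))))))) (T.h (T.h (P (nat_lit 0)) (T.h (T.h (P (nat_lit 264197221458303479611129856)) (T.h (P (nat_lit 0)) (T.h (P (nat_lit 963625346863877586944)) (T.h (P (nat_lit 0)) (P (nat_lit 169611509330640)))))) (T.h (P (nat_lit 0)) (T.h (T.h (P (nat_lit 107218120534636101632)) (T.h (P (nat_lit 0)) (M (nat_lit 20637821032175)))) (T.h (P (nat_lit 0)) (P (nat_lit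 25515269866896))))))) (T.h (T.h (T.h (P (nat_lit 0)) (T.h (M (nat_lit 303776974185143931502591)) (T.h (P (nat_lit 0)) (M (nat_lit 119008213731278847))))) (T.h (P (nat_lit 0)) (T.h (T.h (P (nat_lit 0)) (P (nat_lit 2136137100165120))) (P (nat_lit 0))))) (T.h (T.h (P (nat_lit 0)) (T.h (T.h (M (nat_lit 181095631738026065919)) (T.h (P (nat_lit 0)) (M (nat_lit 135056027421983)))) (T.h (P (nat_lit 0)) (M (nat_lit 3192246446255))))) (T.h (T.h (T.h (P (nat_lit 0)) (M (nat_lit 468403644570140671))) (P (nat_lit 0))) (T.h (T.h (P (nat_lit 0)) (P (nat_lit 87150435501744))) (P (nat_lit 0)))))))), (T.h (T.h (T.h (M (nat_lit 327676549352302517218343288569855)) (T.h (P (nat_lit 0)) (T.h (P (nat_lit 34265490293352720662265856)) (T.h (P (nat_lit 0)) (T.h (P (nat_lit 59785207082037280768)) (T.h (P (nat_lit 0)) (P (nat_lit 16744583935296)))))))) (T.h (P (nat_lit 0)) (T.h (T.h (P (nat_lit 261719556384271407048032256)) (T.h (P (nat_lit 0)) (T.h (M (nat_lit 403682156242400182271))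 (T.h (P (nat_lit 0)) (M (nat_lit 182278741535)))))) (T.h (P (nat_lit 0)) (T.h (T.h (P (nat_lit 96152024112158474240)) (T.h (P (nat_lit 0)) (P (nat_lit 39831036088608)))) (T.h (P (nat_lit 0)) (P (nat_lit 95507953418304)))))))) (T.h (T.h (P (nat_lit 0)) (T.h (T.h (P (nat_lit 0)) (T.h (P (nat_lit 141867233566594258960384)) (T.h (P (nat_lit 0)) (P (nat_lit 557779208043921408))))) (T.h (P (nat_lit 0)) (T.h (T.h (P (nat_lit 0)) (P (nat_lit 1326658114246868992))) (P (nat_lit 0)))))) (T.h (T.h (T.h (P (nat_lit 34265490293352720662265856)) (T.h (P (nat_lit 0)) (T.h (M (nat_lit 667558033884167798783)) (T.h (P (nat_lit 0)) (M (nat_lit 9458408436191)))))) (T.h (P (nat_lit 0)) (T.h (T.h (M (nat_lit 403682156242400182271)) (T.h (P (nat_lit 0)) (M (nat_lit 278522100300095)))) (T.h (P (nat_lit 0)) (P (nat_lit 39831036088608)))))) (T.h (T.h (P (nat_lit 0)) (T.h (T.h (P (nat_lit 0)) (P (nat_lit 557779208043921408))) (P (nat_lit 0)))) (T.h (T.h (T.h (P (nat_lit 59785207082037280768))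 (T.h (P (nat_lit 0)) (M (nat_lit 9458408436191)))) (T.h (P (nat_lit 0)) (M (nat_lit 182278741535)))) (T.h (P (nat_lit 0)) (P (nat_lit 16744583935296)))))))), (T.h (T.h (T.h (P (nat_lit 0)) (T.h (P (nat_lit 19600936697333657732927979520)) (T.h (P (nat_lit 0)) (T.h (P (nat_lit 43097959047579289255936)) (T.h (P (nat_lit 0)) (M (nat_lit 49028651682627583))))))) (T.h (P (nat_lit 0)) (T.h (T.h (P (nat_lit 0)) (T.h (P (nat_lit 187400207729910773448704)) (T.h (P (nat_lit 0)) (P (nat_lit 32912741919162368))))) (T.h (P (nat_lit 0)) (T.h (T.h (P (nat_lit 0)) (P (nat_lit 88817059791536128))) (P (nat_lit 0))))))) (T.h (T.h (P (nat_lit 0)) (T.h (T.h (M (nat_lit 101271065651841256493416447)) (T.h (P (nat_lit 0)) (M (nat_lit 940329365751256317951)))) (T.h (P (nat_lit 0)) (M (nat_lit 475053939699591675903))))) (T.h (T.h (T.h (P (nat_lit 0)) (T.h (P (nat_lit 610608572207111069499392)) (T.h (P (nat_lit 0)) (P (nat_lit 21042095031779328))))) (T.h (P (nat_lit 0)) (T.h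 (T.h (P (nat_lit 0)) (P (nat_lit 625880814378713088))) (P (nat_lit 0))))) (T.h (T.h (P (nat_lit 0)) (M (nat_lit 389345474766314668031))) (T.h (T.h (T.h (P (nat_lit 0)) (P (nat_lit 125071006706827264))) (P (nat_lit 0))) (P (nat_lit 0))))))), (T.h (T.h (P (nat_lit 0)) (T.h (T.h (P (nat_lit 6801896442518516848624926720)) (T.h (P (nat_lit 0)) (T.h (M (nat_lit 23673963548691115540479)) (T.h (P (nat_lit 0)) (M (nat_lit 3288468659404799)))))) (T.h (P (nat_lit 0)) (T.h (T.h (M (nat_lit 16269053149684254638079)) (T.h (P (nat_lit 0)) (P (nat_lit 3999630672232448)))) (T.h (P (nat_lit 0)) (M (nat_lit 6062581201043455))))))) (T.h (T.h (T.h (P (nat_lit 0)) (T.h (P (nat_lit 16711225617270992577495040)) (T.h (P (nat_lit 0)) (T.h (P (nat_lit 29435310069868658688)) (T.h (P (nat_lit 0)) (P (nat_lit 1624450826248))))))) (T.h (P (nat_lit 0)) (T.h (T.h (P (nat_lit 0)) (T.h (P (nat_lit 95597895653135482880)) (T.h (P (nat_lit 0)) (M (nat_lit 47994939898575))))) (T.h (P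 (nat_lit 0)) (T.h (T.h (P (nat_lit 0)) (P (nat_lit 27402727578760))) (P (nat_lit 0))))))) (T.h (T.h (P (nat_lit 0)) (T.h (T.h (M (nat_lit 61949671853687192944639)) (T.h (P (nat_lit 0)) (P (nat_lit 11876745795108864)))) (T.h (P (nat_lit 0)) (M (nat_lit 15777028889149439))))) (T.h (T.h (T.h (P (nat_lit 0)) (T.h (P (nat_lit 18816914626879422464)) (T.h (P (nat_lit 0)) (M (nat_lit 27481800065447))))) (T.h (P (nat_lit 0)) (T.h (T.h (P (nat_lit 0)) (P (nat_lit 40934921564768))) (P (nat_lit 0))))) (T.h (T.h (P (nat_lit 0)) (M (nat_lit 11674442002104319))) (T.h (T.h (T.h (P (nat_lit 0)) (M (nat_lit 3640415834759))) (P (nat_lit 0))) (P (nat_lit 0)))))))), (T.h (T.h (P (nat_lit 0)) (T.h (T.h (P (nat_lit 0)) (T.h (M (nat_lit 29958964082896697032703999)) (T.h (P (nat_lit 0)) (T.h (M (nat_lit 38902030640963649535)) (T.h (P (nat_lit 0)) (P (nat_lit 15958812818176))))))) (T.h (P (nat_lit 0)) (T.h (T.h (P (nat_lit 0)) (T.h (P (nat_lit 16255017564403400704)) (T.h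 (P (nat_lit 0)) (M (nat_lit 13381475394175))))) (T.h (P (nat_lit 0)) (T.h (T.h (P (nat_lit 0)) (M (nat_lit 35685065481487))) (P (nat_lit 0)))))))) (T.h (T.h (T.h (M (nat_lit 17659951530170901767705853951)) (T.h (P (nat_lit 0)) (T.h (P (nat_lit 62838136550265211322368)) (T.h (P (nat_lit 0)) (P (nat_lit 35350754512633856)))))) (T.h (P (nat_lit 0)) (T.h (T.h (P (nat_lit 58650704618747651424256)) (T.h (P (nat_lit 0)) (M (nat_lit 116121369701367807)))) (T.h (P (nat_lit 0)) (P (nat_lit 71761040527261696)))))) (T.h (T.h (P (nat_lit 0)) (T.h (T.h (P (nat_lit 0)) (T.h (M (nat_lit 110232834500051599359)) (T.h (P (nat_lit 0)) (P (nat_lit 31589154588192))))) (T.h (P (nat_lit 0)) (T.h (T.h (P (nat_lit 0)) (M (nat_lit 1228216181215))) (P (nat_lit 0)))))) (T.h (T.h (T.h (P (nat_lit 5564071054108727967744)) (T.h (P (nat_lit 0)) (P (nat_lit 17784403227607040)))) (T.h (P (nat_lit 0)) (P (nat_lit 34555186056429568)))) (T.h (T.h (P (nat_lit 0)) (T.h (T.h (P (nat_lit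 0)) (M (nat_lit 6049335980319))) (P (nat_lit 0)))) (P (nat_lit 11843724323946496))))))), (T.h (T.h (P (nat_lit 0)) (T.h (T.h (P (nat_lit 58338322745655305359807479808)) (T.h (P (nat_lit 0)) (T.h (M (nat_lit 196566714422856253439999)) (T.h (P (nat_lit 0)) (M (nat_lit 295902911463981055)))))) (T.h (P (nat_lit 0)) (T.h (T.h (M (nat_lit 143992858799189258141695)) (T.h (P (nat_lit 0)) (M (nat_lit 133463193925386239)))) (T.h (P (nat_lit 0)) (P (nat_lit 127095104719126528))))))) (T.h (T.h (T.h (P (nat_lit 0)) (T.h (M (nat_lit 29977597977430621685809151)) (T.h (P (nat_lit 0)) (T.h (P (nat_lit 235249386978065514496)) (T.h (P (nat_lit 0)) (P (nat_lit 33509116181904))))))) (T.h (P (nat_lit 0)) (T.h (T.h (P (nat_lit 0)) (T.h (P (nat_lit 733060897668971102208)) (T.h (P (nat_lit 0)) (M (nat_lit 26168208122831))))) (T.h (P (nat_lit 0)) (T.h (T.h (P (nat_lit 0)) (P (nat_lit 75199114826304))) (P (nat_lit 0))))))) (T.h (T.h (P (nat_lit 0)) (T.h (T.h (M (nat_lit 547303062642554096844799))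 (T.h (P (nat_lit 0)) (M (nat_lit 290464226375008255)))) (T.h (P (nat_lit 0)) (P (nat_lit 35914537506177024))))) (T.h (T.h (T.h (P (nat_lit 0)) (T.h (P (nat_lit 548058563199883018240)) (T.h (P (nat_lit 0)) (M (nat_lit 27999752123807))))) (T.h (P (nat_lit 0)) (T.h (T.h (P (nat_lit 0)) (M (nat_lit 71286842391023))) (P (nat_lit 0))))) (T.h (T.h (P (nat_lit 0)) (P (nat_lit 198891281537531904))) (T.h (T.h (T.h (P (nat_lit 0)) (P (nat_lit 20692215999552))) (P (nat_lit 0))) (P (nat_lit 0)))))))), (T.h (T.h (P (nat_lit 0)) (T.h (T.h (P (nat_lit 0)) (T.h (P (nat_lit 106075336957420466289508352)) (T.h (P (nat_lit 0)) (T.h (M (nat_lit 152795732343466754047)) (T.h (P (nat_lit 0)) (P (nat_lit 4018972304880))))))) (T.h (P (nat_lit 0)) (T.h (T.h (P (nat_lit 0)) (T.h (M (nat_lit 149085260369052565503)) (T.h (P (nat_lit 0)) (P (nat_lit 22887367908912))))) (T.h (P (nat_lit 0)) (T.h (T.h (P (nat_lit 0)) (P (nat_lit 49485318777792))) (P (nat_lit 0)))))))) (T.h (T.h (T.h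 (M (nat_lit 24669808485702515816465956863)) (T.h (P (nat_lit 0)) (T.h (M (nat_lit 98481950603613818585087)) (T.h (P (nat_lit 0)) (M (nat_lit 91237376546013183)))))) (T.h (P (nat_lit 0)) (T.h (T.h (M (nat_lit 115486233927752624373759)) (T.h (P (nat_lit 0)) (P (nat_lit 989702072943116288)))) (T.h (P (nat_lit 0)) (P (nat_lit 92681609897787392)))))) (T.h (T.h (P (nat_lit 0)) (T.h (T.h (P (nat_lit 0)) (T.h (M (nat_lit 812713700660864876543)) (T.h (P (nat_lit 0)) (M (nat_lit 299480988247919))))) (T.h (P (nat_lit 0)) (T.h (T.h (P (nat_lit 0)) (M (nat_lit 337714764884783))) (P (nat_lit 0)))))) (T.h (T.h (T.h (M (nat_lit 180565685084113187373055)) (T.h (P (nat_lit 0)) (P (nat_lit 297056623558328320)))) (T.h (P (nat_lit 0)) (P (nat_lit 319356198567739392)))) (T.h (T.h (P (nat_lit 0)) (T.h (T.h (P (nat_lit 0)) (M (nat_lit 283456879165151))) (P (nat_lit 0)))) (M (nat_lit 51843025050419199))))))), (T.h (T.h (P (nat_lit 0)) (T.h (T.h (P (nat_lit 2134778327084513216209879040))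 (T.h (P (nat_lit 0)) (T.h (P (nat_lit 391513506148935941488640)) (T.h (P (nat_lit 0)) (P (nat_lit 60012447317065728)))))) (T.h (P (nat_lit 0)) (T.h (T.h (P (nat_lit 19634437521394628558848)) (T.h (P (nat_lit 0)) (P (nat_lit 24969333601533952)))) (T.h (P (nat_lit 0)) (M (nat_lit 152921510813106175))))))) (T.h (T.h (T.h (P (nat_lit 0)) (T.h (M (nat_lit 251266985355654811850113023)) (T.h (P (nat_lit 0)) (M (nat_lit 324368129295294398463))))) (T.h (P (nat_lit 0)) (T.h (T.h (P (nat_lit 0)) (M (nat_lit 1682526086066868322303))) (P (nat_lit 0))))) (T.h (T.h (P (nat_lit 0)) (T.h (T.h (P (nat_lit 391513506148935941488640)) (T.h (P (nat_lit 0)) (P (nat_lit 535649878491070464)))) (T.h (P (nat_lit 0)) (P (nat_lit 24969333601533952))))) (T.h (T.h (T.h (P (nat_lit 0)) (M (nat_lit 324368129295294398463))) (P (nat_lit 0))) (T.h (T.h (P (nat_lit 0)) (P (nat_lit 60012447317065728))) (P (nat_lit 0)))))))]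
def lP22_30 : List (T ℤ) := [(T.h (T.h (T.h (P (nat_lit 116538236317700504972192617857024)) (T.h (P (nat_lit 0)) (T.h (P (nat_lit 32611548086002112509509632)) (T.h (P (nat_lit 0)) (T.h (P (nat_lit 44292664539358429184)) (T.h (P (nat_lit 0)) (P (nat_lit 32079931261568)))))))) (T.h (P (nat_lit 0)) (T.h (T.h (M (nat_lit 11610262193131898743554047)) (T.h (P (nat_lit 0)) (T.h (P (nat_lit 18121256762693648384)) (T.h (P (nat_lit 0)) (M (nat_lit 22396963694271)))))) (T.h (P (nat_lit 0)) (T.h (T.h (P (nat_lit 4059346151223066624)) (T.h (P (nat_lit 0)) (M (nat_lit 35169845347711)))) (T.h (P (nat_lit 0)) (M (nat_lit 15472739090591)))))))) (T.h (T.h (P (nat_lit 0)) (T.h (T.h (P (nat_lit 0)) (T.h (P (nat_lit 35871329636008551514112)) (T.h (P (nat_lit 0)) (P (nat_lit 40345172097957888))))) (T.h (P (nat_lit 0)) (T.h (T.h (P (nat_lit 0)) (P (nat_lit 41843344361783296))) (P (nat_lit 0)))))) (T.h (T.h (T.h (P (nat_lit 29852342430197712133554176)) (T.h (P (nat_lit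 0)) (T.h (P (nat_lit 14755860110806876160)) (T.h (P (nat_lit 0)) (M (nat_lit 7076939740079)))))) (T.h (P (nat_lit 0)) (T.h (T.h (M (nat_lit 89283928821218672639)) (T.h (P (nat_lit 0)) (M (nat_lit 22178401775167)))) (T.h (P (nat_lit 0)) (P (nat_lit 28335036564160)))))) (T.h (T.h (P (nat_lit 0)) (T.h (T.h (P (nat_lit 0)) (P (nat_lit 95266818162229248))) (P (nat_lit 0)))) (T.h (T.h (T.h (P (nat_lit 11257209192479457280)) (T.h (P (nat_lit 0)) (M (nat_lit 93345869782831)))) (T.h (P (nat_lit 0)) (M (nat_lit 8128876489663)))) (T.h (P (nat_lit 0)) (M (nat_lit 61045729373567)))))))), (T.h (T.h (T.h (P (nat_lit 0)) (T.h (P (nat_lit 9534425656335056731591671808)) (T.h (P (nat_lit 0)) (T.h (M (nat_lit 96831852276130993143807)) (T.h (P (nat_lit 0)) (M (nat_lit 15079038065934335))))))) (T.h (P (nat_lit 0)) (T.h (T.h (P (nat_lit 0)) (T.h (M (nat_lit 67804970372874798891007)) (T.h (P (nat_lit 0)) (M (nat_lit 122346863733080063))))) (T.h (P (nat_lit 0)) (T.h (T.h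 (P (nat_lit 0)) (M (nat_lit 16291914546905087))) (P (nat_lit 0))))))) (T.h (T.h (P (nat_lit 0)) (T.h (T.h (M (nat_lit 138527131665212932580442111)) (T.h (P (nat_lit 0)) (T.h (P (nat_lit 37123236211443367936)) (T.h (P (nat_lit 0)) (M (nat_lit 858351454991)))))) (T.h (P (nat_lit 0)) (T.h (T.h (P (nat_lit 162723255905528315904)) (T.h (P (nat_lit 0)) (M (nat_lit 95885928699887)))) (T.h (P (nat_lit 0)) (P (nat_lit 60196247186208))))))) (T.h (T.h (T.h (P (nat_lit 0)) (T.h (P (nat_lit 54097377746224613949440)) (T.h (P (nat_lit 0)) (M (nat_lit 1709138328387583))))) (T.h (P (nat_lit 0)) (T.h (T.h (P (nat_lit 0)) (M (nat_lit 283417121006485503))) (P (nat_lit 0))))) (T.h (T.h (P (nat_lit 0)) (T.h (T.h (M (nat_lit 3958442399667060735)) (T.h (P (nat_lit 0)) (P (nat_lit 18532277689920)))) (T.h (P (nat_lit 0)) (P (nat_lit 39743026870800))))) (T.h (T.h (T.h (P (nat_lit 0)) (P (nat_lit 89425406900207616))) (P (nat_lit 0))) (T.h (T.h (P (nat_lit 0)) (M (nat_lit 1438918448639)))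 (P (nat_lit 0)))))))), (T.h (T.h (T.h (M (nat_lit 371083964574087838859463028113407)) (T.h (P (nat_lit 0)) (T.h (P (nat_lit 42179623406802210719268864)) (T.h (P (nat_lit 0)) (T.h (M (nat_lit 96505062973262266367)) (T.h (P (nat_lit 0)) (M (nat_lit 23068810750751)))))))) (T.h (P (nat_lit 0)) (T.h (T.h (M (nat_lit 130062820994910637692813311)) (T.h (P (nat_lit 0)) (T.h (M (nat_lit 219990005619055656959)) (T.h (P (nat_lit 0)) (P (nat_lit 89349219871200)))))) (T.h (P (nat_lit 0)) (T.h (T.h (M (nat_lit 4481646528095584255)) (T.h (P (nat_lit 0)) (P (nat_lit 48915629724816)))) (T.h (P (nat_lit 0)) (P (nat_lit 44867756293920)))))))) (T.h (T.h (P (nat_lit 0)) (T.h (T.h (P (nat_lit 0)) (T.h (M (nat_lit 118924752944854925836287)) (T.h (P (nat_lit 0)) (P (nat_lit 417328928940851200))))) (T.h (P (nat_lit 0)) (T.h (T.h (P (nat_lit 0)) (M (nat_lit 153545642275045375))) (P (nat_lit 0)))))) (T.h (T.h (T.h (P (nat_lit 97391245096008048692953088)) (T.h (P (nat_lit 0))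 (T.h (P (nat_lit 43885872022711959552)) (T.h (P (nat_lit 0)) (P (nat_lit 98625349565856)))))) (T.h (P (nat_lit 0)) (T.h (T.h (M (nat_lit 74052463673475071)) (T.h (P (nat_lit 0)) (M (nat_lit 95326189353503)))) (T.h (P (nat_lit 0)) (P (nat_lit 18881862230160)))))) (T.h (T.h (P (nat_lit 0)) (T.h (T.h (P (nat_lit 0)) (P (nat_lit 615333263927902208))) (P (nat_lit 0)))) (T.h (T.h (T.h (P (nat_lit 31885170502025609216)) (T.h (P (nat_lit 0)) (P (nat_lit 98205074249616)))) (T.h (P (nat_lit 0)) (P (nat_lit 58895177060304)))) (T.h (P (nat_lit 0)) (P (nat_lit 123631125776928)))))))), (T.h (T.h (T.h (P (nat_lit 0)) (T.h (M (nat_lit 28398382286410379448408866815)) (T.h (P (nat_lit 0)) (T.h (P (nat_lit 6166060208012226723840)) (T.h (P (nat_lit 0)) (P (nat_lit 5683048376041472))))))) (T.h (P (nat_lit 0)) (T.h (T.h (P (nat_lit 0)) (T.h (P (nat_lit 371427416844194742796288)) (T.h (P (nat_lit 0)) (M (nat_lit 30222617954451455))))) (T.h (P (nat_lit 0)) (T.h (T.h (P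 (nat_lit 0)) (M (nat_lit 68433228062326783))) (P (nat_lit 0))))))) (T.h (T.h (P (nat_lit 0)) (T.h (T.h (M (nat_lit 4818697623215170922741759)) (T.h (P (nat_lit 0)) (M (nat_lit 1020376983064226562047)))) (T.h (P (nat_lit 0)) (M (nat_lit 226371716232740077567))))) (T.h (T.h (T.h (P (nat_lit 0)) (T.h (M (nat_lit 51780947633005553254399)) (T.h (P (nat_lit 0)) (M (nat_lit 18351971067068415))))) (T.h (P (nat_lit 0)) (T.h (T.h (P (nat_lit 0)) (P (nat_lit 474119032791728128))) (P (nat_lit 0))))) (T.h (T.h (P (nat_lit 0)) (M (nat_lit 312080181166017085439))) (T.h (T.h (T.h (P (nat_lit 0)) (M (nat_lit 104687174977617919))) (P (nat_lit 0))) (P (nat_lit 0))))))), (T.h (T.h (P (nat_lit 0)) (T.h (T.h (M (nat_lit 13643277596547858818052128767)) (T.h (P (nat_lit 0)) (T.h (M (nat_lit 72413172943302078496767)) (T.h (P (nat_lit 0)) (M (nat_lit 81311443225575423)))))) (T.h (P (nat_lit 0)) (T.h (T.h (P (nat_lit 13578388150504331935744)) (T.h (P (nat_lit 0)) (P (nat_lit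 104001452826558464)))) (T.h (P (nat_lit 0)) (P (nat_lit 62277197655441408))))))) (T.h (T.h (T.h (P (nat_lit 0)) (T.h (P (nat_lit 5538450431683356522446848)) (T.h (P (nat_lit 0)) (T.h (P (nat_lit 56006648096966574080)) (T.h (P (nat_lit 0)) (P (nat_lit 2741942744016))))))) (T.h (P (nat_lit 0)) (T.h (T.h (P (nat_lit 0)) (T.h (M (nat_lit 214692018084393254911)) (T.h (P (nat_lit 0)) (P (nat_lit 4724950018272))))) (T.h (P (nat_lit 0)) (T.h (T.h (P (nat_lit 0)) (P (nat_lit 20145618234144))) (P (nat_lit 0))))))) (T.h (T.h (P (nat_lit 0)) (T.h (T.h (P (nat_lit 99357904463704478449664)) (T.h (P (nat_lit 0)) (M (nat_lit 40126139474247679)))) (T.h (P (nat_lit 0)) (M (nat_lit 25911504250404863))))) (T.h (T.h (T.h (P (nat_lit 0)) (T.h (P (nat_lit 71019701946244136960)) (T.h (P (nat_lit 0)) (P (nat_lit 106333461033312))))) (T.h (P (nat_lit 0)) (T.h (T.h (P (nat_lit 0)) (M (nat_lit 47982439091855))) (P (nat_lit 0))))) (T.h (T.h (P (nat_lit 0)) (M (nat_lit 12317872639180799)))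 (T.h (T.h (T.h (P (nat_lit 0)) (P (nat_lit 16779312954192))) (P (nat_lit 0))) (P (nat_lit 0)))))))), (T.h (T.h (P (nat_lit 0)) (T.h (T.h (P (nat_lit 0)) (T.h (P (nat_lit 10272478443104322537390080)) (T.h (P (nat_lit 0)) (T.h (P (nat_lit 103460306243349905408)) (T.h (P (nat_lit 0)) (M (nat_lit 45849852608687))))))) (T.h (P (nat_lit 0)) (T.h (T.h (P (nat_lit 0)) (T.h (P (nat_lit 92046784355859693568)) (T.h (P (nat_lit 0)) (P (nat_lit 12834186665184))))) (T.h (P (nat_lit 0)) (T.h (T.h (P (nat_lit 0)) (P (nat_lit 32752559787552))) (P (nat_lit 0)))))))) (T.h (T.h (T.h (M (nat_lit 3204733460397538933508931583)) (T.h (P (nat_lit 0)) (T.h (M (nat_lit 58299763117793543716863)) (T.h (P (nat_lit 0)) (P (nat_lit 118297934862188544)))))) (T.h (P (nat_lit 0)) (T.h (T.h (P (nat_lit 189533633965619006144512)) (T.h (P (nat_lit 0)) (P (nat_lit 196731980638601216)))) (T.h (P (nat_lit 0)) (M (nat_lit 159947440549658623)))))) (T.h (T.h (P (nat_lit 0)) (T.h (T.h (P (nat_lit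 0)) (T.h (M (nat_lit 25283953647354380287)) (T.h (P (nat_lit 0)) (M (nat_lit 215827605369791))))) (T.h (P (nat_lit 0)) (T.h (T.h (P (nat_lit 0)) (M (nat_lit 3247963595855))) (P (nat_lit 0)))))) (T.h (T.h (T.h (M (nat_lit 69418260137388823019519)) (T.h (P (nat_lit 0)) (M (nat_lit 33821400822153215)))) (T.h (P (nat_lit 0)) (P (nat_lit 58042506824548352)))) (T.h (T.h (P (nat_lit 0)) (T.h (T.h (P (nat_lit 0)) (M (nat_lit 139411251903167))) (P (nat_lit 0)))) (M (nat_lit 69814345750593535))))))), (T.h (T.h (P (nat_lit 0)) (T.h (T.h (P (nat_lit 7284968311669380775858405376)) (T.h (P (nat_lit 0)) (T.h (P (nat_lit 92978638380361695887360)) (T.h (P (nat_lit 0)) (P (nat_lit 51600025875382272)))))) (T.h (P (nat_lit 0)) (T.h (T.h (M (nat_lit 13929962863778288631807)) (T.h (P (nat_lit 0)) (M (nat_lit 69288826749681663)))) (T.h (P (nat_lit 0)) (M (nat_lit 86406858325852159))))))) (T.h (T.h (T.h (P (nat_lit 0)) (T.h (P (nat_lit 57569111757143935125815296)) (T.h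 (P (nat_lit 0)) (M (nat_lit 283639000275028541439))))) (T.h (P (nat_lit 0)) (T.h (T.h (P (nat_lit 0)) (P (nat_lit 253539555411820019712))) (P (nat_lit 0))))) (T.h (T.h (P (nat_lit 0)) (T.h (T.h (M (nat_lit 47915842399684846944255)) (T.h (P (nat_lit 0)) (P (nat_lit 335433430287843328)))) (T.h (P (nat_lit 0)) (M (nat_lit 996276945027071))))) (T.h (T.h (T.h (P (nat_lit 0)) (M (nat_lit 269741471717757288447))) (P (nat_lit 0))) (T.h (T.h (P (nat_lit 0)) (P (nat_lit 78293684505149440))) (P (nat_lit 0))))))), (T.h (T.h (T.h (M (nat_lit 202020782321028235702046130438143)) (T.h (P (nat_lit 0)) (T.h (M (nat_lit 42337534151861017088360447)) (T.h (P (nat_lit 0)) (T.h (M (nat_lit 68615088356747902975)) (T.h (P (nat_lit 0)) (M (nat_lit 87410689135199)))))))) (T.h (P (nat_lit 0)) (T.h (T.h (P (nat_lit 23366883707900872915681280)) (T.h (P (nat_lit 0)) (T.h (P (nat_lit 34550124118083108864)) (T.h (P (nat_lit 0)) (P (nat_lit 133240626359424)))))) (T.h (P (nat_lit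 0)) (T.h (T.h (M (nat_lit 7131341328276783103)) (T.h (P (nat_lit 0)) (P (nat_lit 26406644853168)))) (T.h (P (nat_lit 0)) (P (nat_lit 14645707618464)))))))) (T.h (T.h (P (nat_lit 0)) (T.h (T.h (P (nat_lit 0)) (T.h (P (nat_lit 9071748710483349209088)) (T.h (P (nat_lit 0)) (M (nat_lit 125759308696616959))))) (T.h (P (nat_lit 0)) (T.h (T.h (P (nat_lit 0)) (M (nat_lit 63102135297736703))) (P (nat_lit 0)))))) (T.h (T.h (T.h (M (nat_lit 35815997065927715062808575)) (T.h (P (nat_lit 0)) (T.h (P (nat_lit 132043227812096638976)) (T.h (P (nat_lit 0)) (P (nat_lit 352154342018448)))))) (T.h (P (nat_lit 0)) (T.h (T.h (P (nat_lit 15088578806786555904)) (T.h (P (nat_lit 0)) (P (nat_lit 14513604933888)))) (T.h (P (nat_lit 0)) (M (nat_lit 77309147628143)))))) (T.h (T.h (P (nat_lit 0)) (T.h (T.h (P (nat_lit 0)) (M (nat_lit 178490904560173055))) (P (nat_lit 0)))) (T.h (T.h (T.h (M (nat_lit 2673562259325714431)) (T.h (P (nat_lit 0)) (P (nat_lit 499241730033216)))) (T.h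 (P (nat_lit 0)) (P (nat_lit 134195146157664)))) (T.h (P (nat_lit 0)) (P (nat_lit 8713460479392))))))))]
def lP22_31 : List (T ℤ) := [(T.h (T.h (T.h (P (nat_lit 0)) (T.h (M (nat_lit 1043116937690069580088606719)) (T.h (P (nat_lit 0)) (T.h (P (nat_lit 61764923110046956519424)) (T.h (P (nat_lit 0)) (P (nat_lit 114189388980387840))))))) (T.h (P (nat_lit 0)) (T.h (T.h (P (nat_lit 0)) (T.h (P (nat_lit 12925985027821664206848)) (T.h (P (nat_lit 0)) (M (nat_lit 121260396594069503))))) (T.h (P (nat_lit 0)) (T.h (T.h (P (nat_lit 0)) (M (nat_lit 70522602099113983))) (P (nat_lit 0))))))) (T.h (T.h (P (nat_lit 0)) (T.h (T.h (M (nat_lit 18488068673796538873413631)) (T.h (P (nat_lit 0)) (M (nat_lit 3225623507505250303)))) (T.h (P (nat_lit 0)) (P (nat_lit 13067073905649254400))))) (T.h (T.h (T.h (P (nat_lit 0)) (T.h (M (nat_lit 101464149854981390860287)) (T.h (P (nat_lit 0)) (M (nat_lit 293207130200866815))))) (T.h (P (nat_lit 0)) (T.h (T.h (P (nat_lit 0)) (P (nat_lit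 21950935167303680))) (P (nat_lit 0))))) (T.h (T.h (P (nat_lit 0)) (M (nat_lit 3412449340189310975))) (T.h (T.h (T.h (P (nat_lit 0)) (M (nat_lit 273430289931173887))) (P (nat_lit 0))) (P (nat_lit 0))))))), (T.h (T.h (P (nat_lit 0)) (T.h (T.h (M (nat_lit 5287393795622230931927990271)) (T.h (P (nat_lit 0)) (T.h (M (nat_lit 11470395129475534684159)) (T.h (P (nat_lit 0)) (M (nat_lit 48452197856411647)))))) (T.h (P (nat_lit 0)) (T.h (T.h (M (nat_lit 10997930159462676430847)) (T.h (P (nat_lit 0)) (M (nat_lit 28259372670091263)))) (T.h (P (nat_lit 0)) (M (nat_lit 21976945639718911))))))) (T.h (T.h (T.h (P (nat_lit 0)) (T.h (M (nat_lit 7968129611153399804329983)) (T.h (P (nat_lit 0)) (M (nat_lit 34246235936746635263))))) (T.h (P (nat_lit 0)) (T.h (T.h (P (nat_lit 0)) (P (nat_lit 28063542199158046720))) (P (nat_lit 0))))) (T.h (T.h (P (nat_lit 0)) (T.h (T.h (M (nat_lit 37042947306702845771775)) (T.h (P (nat_lit 0)) (M (nat_lit 21820328043151359)))) (T.h (P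 (nat_lit 0)) (P (nat_lit 78374196030734336))))) (T.h (T.h (T.h (P (nat_lit 0)) (M (nat_lit 28918869486353776639))) (P (nat_lit 0))) (T.h (T.h (P (nat_lit 0)) (M (nat_lit 17184947940786175))) (P (nat_lit 0))))))), (P (nat_lit 0)), (P (nat_lit 0)), (T.h (T.h (P (nat_lit 0)) (T.h (T.h (P (nat_lit 0)) (T.h (P (nat_lit 6033007216961144628445184)) (T.h (P (nat_lit 0)) (T.h (M (nat_lit 4033459024174252031)) (T.h (P (nat_lit 0)) (M (nat_lit 18308099831167))))))) (T.h (P (nat_lit 0)) (T.h (T.h (P (nat_lit 0)) (T.h (P (nat_lit 100026648258754379776)) (T.h (P (nat_lit 0)) (M (nat_lit 124545891378263))))) (T.h (P (nat_lit 0)) (T.h (T.h (P (nat_lit 0)) (P (nat_lit 4347538975168))) (P (nat_lit 0)))))))) (T.h (T.h (T.h (M (nat_lit 1979003726842916632434573311)) (T.h (P (nat_lit 0)) (T.h (M (nat_lit 28442811896070351618047)) (T.h (P (nat_lit 0)) (M (nat_lit 22434746824687615)))))) (T.h (P (nat_lit 0)) (T.h (T.h (P (nat_lit 15521847690240391643136)) (T.h (P (nat_lit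 0)) (M (nat_lit 39832931888037887)))) (T.h (P (nat_lit 0)) (P (nat_lit 73809589357477888)))))) (T.h (T.h (P (nat_lit 0)) (T.h (T.h (P (nat_lit 0)) (T.h (P (nat_lit 36594049878014820352)) (T.h (P (nat_lit 0)) (P (nat_lit 18253563038648))))) (T.h (P (nat_lit 0)) (T.h (T.h (P (nat_lit 0)) (P (nat_lit 9826934429112))) (P (nat_lit 0)))))) (T.h (T.h (T.h (P (nat_lit 25426781780498710528000)) (T.h (P (nat_lit 0)) (M (nat_lit 3880718776664063)))) (T.h (P (nat_lit 0)) (P (nat_lit 17473273924747264)))) (T.h (T.h (P (nat_lit 0)) (T.h (T.h (P (nat_lit 0)) (M (nat_lit 27675213239079))) (P (nat_lit 0)))) (M (nat_lit 31245948319891455))))))), (T.h (T.h (P (nat_lit 0)) (T.h (T.h (P (nat_lit 74706945416199965654820847616)) (T.h (P (nat_lit 0)) (T.h (M (nat_lit 58322643343439097233407)) (T.h (P (nat_lit 0)) (M (nat_lit 79337867728175103)))))) (T.h (P (nat_lit 0)) (T.h (T.h (P (nat_lit 43801589135530889576448)) (T.h (P (nat_lit 0)) (M (nat_lit 39536835955507199))))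 (T.h (P (nat_lit 0)) (P (nat_lit 45982042181206016))))))) (T.h (T.h (T.h (P (nat_lit 0)) (T.h (P (nat_lit 4959897841795512452251648)) (T.h (P (nat_lit 0)) (T.h (M (nat_lit 143503913331592265727)) (T.h (P (nat_lit 0)) (P (nat_lit 34883498572208))))))) (T.h (P (nat_lit 0)) (T.h (T.h (P (nat_lit 0)) (T.h (M (nat_lit 221834691215259336703)) (T.h (P (nat_lit 0)) (M (nat_lit 63095730179391))))) (T.h (P (nat_lit 0)) (T.h (T.h (P (nat_lit 0)) (P (nat_lit 69255108585648))) (P (nat_lit 0))))))) (T.h (T.h (P (nat_lit 0)) (T.h (T.h (M (nat_lit 49041316905478684409855)) (T.h (P (nat_lit 0)) (P (nat_lit 327369126751846400)))) (T.h (P (nat_lit 0)) (M (nat_lit 52326856570191871))))) (T.h (T.h (T.h (P (nat_lit 0)) (T.h (M (nat_lit 151887148118058205183)) (T.h (P (nat_lit 0)) (P (nat_lit 54661466916560))))) (T.h (P (nat_lit 0)) (T.h (T.h (P (nat_lit 0)) (M (nat_lit 68740659679823))) (P (nat_lit 0))))) (T.h (T.h (P (nat_lit 0)) (P (nat_lit 40373702412599296))) (T.h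 (T.h (T.h (P (nat_lit 0)) (M (nat_lit 19907425486639))) (P (nat_lit 0))) (P (nat_lit 0)))))))), (T.h (T.h (P (nat_lit 0)) (T.h (T.h (P (nat_lit 0)) (T.h (M (nat_lit 136074691824650914841493503)) (T.h (P (nat_lit 0)) (T.h (P (nat_lit 113624335975041728512)) (T.h (P (nat_lit 0)) (P (nat_lit 10517340638208))))))) (T.h (P (nat_lit 0)) (T.h (T.h (P (nat_lit 0)) (T.h (M (nat_lit 246546229374448828415)) (T.h (P (nat_lit 0)) (P (nat_lit 121268982226560))))) (T.h (P (nat_lit 0)) (T.h (T.h (P (nat_lit 0)) (P (nat_lit 9296870610384))) (P (nat_lit 0)))))))) (T.h (T.h (T.h (P (nat_lit 33049727808472062908067479552)) (T.h (P (nat_lit 0)) (T.h (P (nat_lit 306068408225867260493824)) (T.h (P (nat_lit 0)) (M (nat_lit 18738067978452991)))))) (T.h (P (nat_lit 0)) (T.h (T.h (P (nat_lit 353177780428892153053184)) (T.h (P (nat_lit 0)) (M (nat_lit 212197575549681663)))) (T.h (P (nat_lit 0)) (P (nat_lit 173873189607211008)))))) (T.h (T.h (P (nat_lit 0)) (T.h (T.h (P (nat_lit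 0)) (T.h (M (nat_lit 266563986753998290943)) (T.h (P (nat_lit 0)) (M (nat_lit 80099182760783))))) (T.h (P (nat_lit 0)) (T.h (T.h (P (nat_lit 0)) (P (nat_lit 17726840617536))) (P (nat_lit 0)))))) (T.h (T.h (T.h (P (nat_lit 41477085984078964981760)) (T.h (P (nat_lit 0)) (P (nat_lit 86679300496228352)))) (T.h (P (nat_lit 0)) (M (nat_lit 127256489471246335)))) (T.h (T.h (P (nat_lit 0)) (T.h (T.h (P (nat_lit 0)) (M (nat_lit 75125127725183))) (P (nat_lit 0)))) (P (nat_lit 132425253785862144))))))), (T.h (T.h (P (nat_lit 0)) (T.h (T.h (M (nat_lit 145371967322918502034080530431)) (T.h (P (nat_lit 0)) (T.h (P (nat_lit 50541778626519817519104)) (T.h (P (nat_lit 0)) (P (nat_lit 59689674736271360)))))) (T.h (P (nat_lit 0)) (T.h (T.h (P (nat_lit 3118754032289218297856)) (T.h (P (nat_lit 0)) (M (nat_lit 36606517477834751)))) (T.h (P (nat_lit 0)) (M (nat_lit 57307652042883071))))))) (T.h (T.h (T.h (P (nat_lit 0)) (T.h (M (nat_lit 80912560731056306625970175)) (T.h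 (P (nat_lit 0)) (T.h (P (nat_lit 230020127955475234816)) (T.h (P (nat_lit 0)) (P (nat_lit 26367205306752))))))) (T.h (P (nat_lit 0)) (T.h (T.h (P (nat_lit 0)) (T.h (P (nat_lit 739859739072675184640)) (T.h (P (nat_lit 0)) (P (nat_lit 77423238872064))))) (T.h (P (nat_lit 0)) (T.h (T.h (P (nat_lit 0)) (M (nat_lit 73591702011935))) (P (nat_lit 0))))))) (T.h (T.h (P (nat_lit 0)) (T.h (T.h (P (nat_lit 50541778626519817519104)) (T.h (P (nat_lit 0)) (M (nat_lit 785502978010349567)))) (T.h (P (nat_lit 0)) (M (nat_lit 36606517477834751))))) (T.h (T.h (T.h (P (nat_lit 0)) (T.h (P (nat_lit 230020127955475234816)) (T.h (P (nat_lit 0)) (M (nat_lit 70935916767839))))) (T.h (P (nat_lit 0)) (T.h (T.h (P (nat_lit 0)) (P (nat_lit 77423238872064))) (P (nat_lit 0))))) (T.h (T.h (P (nat_lit 0)) (P (nat_lit 59689674736271360))) (T.h (T.h (T.h (P (nat_lit 0)) (P (nat_lit 26367205306752))) (P (nat_lit 0))) (P (nat_lit 0))))))))]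
def lP22_32 : List (T ℤ) := [(T.h (T.h (P (nat_lit 0)) (T.h (T.h (P (nat_lit 0)) (T.h (P (nat_lit 61685020237823140436115456)) (T.h (P (nat_lit 0)) (P (nat_lit 7673482952939929600))))) (T.h (P (nat_lit 0)) (T.h (T.h (P (nat_lit 0)) (P (nat_lit 32596431378283757568))) (P (nat_lit 0)))))) (T.h (T.h (T.h (M (nat_lit 11733825538124060937013952511)) (T.h (P (nat_lit 0)) (T.h (M (nat_lit 367430446993888128270335)) (T.h (P (nat_lit 0)) (M (nat_lit 14666678955606015)))))) (T.h (P (nat_lit 0)) (T.h (T.h (M (nat_lit 267142227245937773772799)) (T.h (P (nat_lit 0)) (M (nat_lit 79454810584645631)))) (T.h (P (nat_lit 0)) (M (nat_lit 177234037276082175)))))) (T.h (T.h (P (nat_lit 0)) (T.h (T.h (P (nat_lit 0)) (P (nat_lit 732313262607040512000))) (P (nat_lit 0)))) (T.h (T.h (T.h (M (nat_lit 95164013641070182137855)) (T.h (P (nat_lit 0)) (M (nat_lit 113423639843373055)))) (T.h (P (nat_lit 0)) (M (nat_lit 539078229205188607)))) (T.h (P (nat_lit 0)) (M (nat_lit 121494382953758719))))))),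 (P (nat_lit 0)), (T.h (T.h (T.h (P (nat_lit 0)) (T.h (P (nat_lit 0)) (T.h (M (nat_lit 1609132170181007252652031)) (T.h (P (nat_lit 0)) (T.h (M (nat_lit 26733516278749724671)) (T.h (P (nat_lit 0)) (M (nat_lit 7874904922431)))))))) (T.h (P (nat_lit 0)) (T.h (T.h (P (nat_lit 52258675845412972629327872)) (T.h (P (nat_lit 0)) (T.h (P (nat_lit 17689493109089501184)) (T.h (P (nat_lit 0)) (P (nat_lit 18976513485680)))))) (T.h (P (nat_lit 0)) (T.h (T.h (M (nat_lit 58351935496879341567)) (T.h (P (nat_lit 0)) (P (nat_lit 26623092074928)))) (T.h (P (nat_lit 0)) (M (nat_lit 9288634688367)))))))) (T.h (T.h (P (nat_lit 0)) (T.h (T.h (P (nat_lit 0)) (T.h (M (nat_lit 54076812567600110239743)) (T.h (P (nat_lit 0)) (M (nat_lit 48449353735602175))))) (T.h (P (nat_lit 0)) (T.h (T.h (P (nat_lit 0)) (M (nat_lit 5006680669683711))) (P (nat_lit 0)))))) (T.h (T.h (T.h (M (nat_lit 13494300823078543525150719)) (T.h (P (nat_lit 0)) (T.h (P (nat_lit 70884643624693268480)) (T.h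 (P (nat_lit 0)) (P (nat_lit 26438549606928)))))) (T.h (P (nat_lit 0)) (T.h (T.h (P (nat_lit 86667801961716252672)) (T.h (P (nat_lit 0)) (M (nat_lit 10519831128239)))) (T.h (P (nat_lit 0)) (M (nat_lit 54719293742751)))))) (T.h (T.h (P (nat_lit 0)) (T.h (T.h (P (nat_lit 0)) (M (nat_lit 57464550673154047))) (P (nat_lit 0)))) (T.h (T.h (T.h (P (nat_lit 17440683627481399296)) (T.h (P (nat_lit 0)) (M (nat_lit 71297188238751)))) (T.h (P (nat_lit 0)) (M (nat_lit 6655236442255)))) (T.h (P (nat_lit 0)) (M (nat_lit 988191876863)))))))), (T.h (T.h (T.h (P (nat_lit 0)) (T.h (P (nat_lit 3324441184928717394342313984)) (T.h (P (nat_lit 0)) (T.h (P (nat_lit 25261100213903260909568)) (T.h (P (nat_lit 0)) (P (nat_lit 27838622424006656))))))) (T.h (P (nat_lit 0)) (T.h (T.h (P (nat_lit 0)) (T.h (P (nat_lit 45332878682941263183872)) (T.h (P (nat_lit 0)) (M (nat_lit 16134266504249343))))) (T.h (P (nat_lit 0)) (T.h (T.h (P (nat_lit 0)) (M (nat_lit 57941056670203903))) (P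 (nat_lit 0))))))) (T.h (T.h (P (nat_lit 0)) (T.h (T.h (M (nat_lit 52975290750574589512777727)) (T.h (P (nat_lit 0)) (T.h (M (nat_lit 80555065487084486655)) (T.h (P (nat_lit 0)) (P (nat_lit 44659019242992)))))) (T.h (P (nat_lit 0)) (T.h (T.h (M (nat_lit 34904935235500113919)) (T.h (P (nat_lit 0)) (P (nat_lit 33090015529024)))) (T.h (P (nat_lit 0)) (P (nat_lit 56298792702432))))))) (T.h (T.h (T.h (P (nat_lit 0)) (T.h (P (nat_lit 50426773189384116109312)) (T.h (P (nat_lit 0)) (M (nat_lit 12153504290111487))))) (T.h (P (nat_lit 0)) (T.h (T.h (P (nat_lit 0)) (M (nat_lit 116859597552058367))) (P (nat_lit 0))))) (T.h (T.h (P (nat_lit 0)) (T.h (T.h (P (nat_lit 11868878183400996864)) (T.h (P (nat_lit 0)) (M (nat_lit 5372284740815)))) (T.h (P (nat_lit 0)) (M (nat_lit 7360504039919))))) (T.h (T.h (T.h (P (nat_lit 0)) (P (nat_lit 98180799485198336))) (P (nat_lit 0))) (T.h (T.h (P (nat_lit 0)) (M (nat_lit 50136009656079))) (P (nat_lit 0)))))))), (T.h (T.h (T.h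 (M (nat_lit 4242882777641273345909976989695)) (T.h (P (nat_lit 0)) (T.h (M (nat_lit 14433217648238017074167807)) (T.h (P (nat_lit 0)) (T.h (P (nat_lit 58306836868439736320)) (T.h (P (nat_lit 0)) (P (nat_lit 11691691654752)))))))) (T.h (P (nat_lit 0)) (T.h (T.h (M (nat_lit 81435322610540794773241855)) (T.h (P (nat_lit 0)) (T.h (P (nat_lit 89330338035105005568)) (T.h (P (nat_lit 0)) (M (nat_lit 16556994159407)))))) (T.h (P (nat_lit 0)) (T.h (T.h (M (nat_lit 73786473605289213951)) (T.h (P (nat_lit 0)) (P (nat_lit 18599349637392)))) (T.h (P (nat_lit 0)) (P (nat_lit 21759335331552)))))))) (T.h (T.h (P (nat_lit 0)) (T.h (T.h (P (nat_lit 0)) (T.h (P (nat_lit 659800740818193481728)) (T.h (P (nat_lit 0)) (M (nat_lit 437285153641791487))))) (T.h (P (nat_lit 0)) (T.h (T.h (P (nat_lit 0)) (M (nat_lit 218391359425675263))) (P (nat_lit 0)))))) (T.h (T.h (T.h (P (nat_lit 8050175121811723813650432)) (T.h (P (nat_lit 0)) (T.h (P (nat_lit 65381694443668635648)) (T.h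 (P (nat_lit 0)) (P (nat_lit 34302472212048)))))) (T.h (P (nat_lit 0)) (T.h (T.h (M (nat_lit 212706809861143265279)) (T.h (P (nat_lit 0)) (M (nat_lit 35823674518847)))) (T.h (P (nat_lit 0)) (P (nat_lit 57430672243056)))))) (T.h (T.h (P (nat_lit 0)) (T.h (T.h (P (nat_lit 0)) (P (nat_lit 85632602970521600))) (P (nat_lit 0)))) (T.h (T.h (T.h (P (nat_lit 197932794725001068544)) (T.h (P (nat_lit 0)) (P (nat_lit 61673039796768)))) (T.h (P (nat_lit 0)) (P (nat_lit 49644896030976)))) (T.h (P (nat_lit 0)) (P (nat_lit 3857239247424)))))))), (T.h (T.h (T.h (P (nat_lit 0)) (T.h (P (nat_lit 63980833045164773812205518848)) (T.h (P (nat_lit 0)) (T.h (M (nat_lit 42729760048071969865727)) (T.h (P (nat_lit 0)) (M (nat_lit 39692781585203199))))))) (T.h (P (nat_lit 0)) (T.h (T.h (P (nat_lit 0)) (T.h (M (nat_lit 159752164242431403884543)) (T.h (P (nat_lit 0)) (P (nat_lit 57904009996746752))))) (T.h (P (nat_lit 0)) (T.h (T.h (P (nat_lit 0)) (P (nat_lit 42508068238671872)))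 (P (nat_lit 0))))))) (T.h (T.h (P (nat_lit 0)) (T.h (T.h (P (nat_lit 94747071619249943145873408)) (T.h (P (nat_lit 0)) (T.h (P (nat_lit 266536872797727096832)) (T.h (P (nat_lit 0)) (M (nat_lit 161674198943327)))))) (T.h (P (nat_lit 0)) (T.h (T.h (P (nat_lit 170739778534135300096)) (T.h (P (nat_lit 0)) (M (nat_lit 343333089128303)))) (T.h (P (nat_lit 0)) (M (nat_lit 13873246587215))))))) (T.h (T.h (T.h (P (nat_lit 0)) (T.h (P (nat_lit 71076949516842340188160)) (T.h (P (nat_lit 0)) (P (nat_lit 172067492652859392))))) (T.h (P (nat_lit 0)) (T.h (T.h (P (nat_lit 0)) (P (nat_lit 565106047276007424))) (P (nat_lit 0))))) (T.h (T.h (P (nat_lit 0)) (T.h (T.h (P (nat_lit 163036728621059276800)) (T.h (P (nat_lit 0)) (M (nat_lit 168987223991231)))) (T.h (P (nat_lit 0)) (P (nat_lit 10438836721488))))) (T.h (T.h (T.h (P (nat_lit 0)) (M (nat_lit 51818320729374719))) (P (nat_lit 0))) (T.h (T.h (P (nat_lit 0)) (P (nat_lit 110195512281936))) (P (nat_lit 0)))))))),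 (T.h (T.h (T.h (P (nat_lit 38490117535194236145834974511104)) (T.h (P (nat_lit 0)) (T.h (M (nat_lit 57914793621496889421594623)) (T.h (P (nat_lit 0)) (M (nat_lit 35590738997640429567)))))) (T.h (P (nat_lit 0)) (T.h (T.h (P (nat_lit 119651251882341828749426688)) (T.h (P (nat_lit 0)) (M (nat_lit 263893075604038221823)))) (T.h (P (nat_lit 0)) (P (nat_lit 25903356780501532672)))))) (T.h (T.h (P (nat_lit 0)) (T.h (T.h (P (nat_lit 0)) (T.h (M (nat_lit 343014291205721459523583)) (T.h (P (nat_lit 0)) (P (nat_lit 188831235643539456))))) (T.h (P (nat_lit 0)) (T.h (T.h (P (nat_lit 0)) (P (nat_lit 379494209891205120))) (P (nat_lit 0)))))) (T.h (T.h (T.h (M (nat_lit 57914793621496889421594623)) (T.h (P (nat_lit 0)) (M (nat_lit 156600067838435131391)))) (T.h (P (nat_lit 0)) (M (nat_lit 263893075604038221823)))) (T.h (T.h (P (nat_lit 0)) (T.h (T.h (P (nat_lit 0)) (P (nat_lit 188831235643539456))) (P (nat_lit 0)))) (M (nat_lit 35590738997640429567)))))), (T.h (T.h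 (P (nat_lit 0)) (T.h (T.h (P (nat_lit 0)) (T.h (P (nat_lit 16711225617270992577495040)) (T.h (P (nat_lit 0)) (T.h (P (nat_lit 29435310069868658688)) (T.h (P (nat_lit 0)) (P (nat_lit 1624450826248))))))) (T.h (P (nat_lit 0)) (T.h (T.h (P (nat_lit 0)) (T.h (P (nat_lit 18816914626879422464)) (T.h (P (nat_lit 0)) (M (nat_lit 27481800065447))))) (T.h (P (nat_lit 0)) (T.h (T.h (P (nat_lit 0)) (M (nat_lit 3640415834759))) (P (nat_lit 0)))))))) (T.h (T.h (T.h (P (nat_lit 6801896442518516848624926720)) (T.h (P (nat_lit 0)) (T.h (M (nat_lit 23673963548691115540479)) (T.h (P (nat_lit 0)) (M (nat_lit 3288468659404799)))))) (T.h (P (nat_lit 0)) (T.h (T.h (M (nat_lit 61949671853687192944639)) (T.h (P (nat_lit 0)) (P (nat_lit 11876745795108864)))) (T.h (P (nat_lit 0)) (M (nat_lit 11674442002104319)))))) (T.h (T.h (P (nat_lit 0)) (T.h (T.h (P (nat_lit 0)) (T.h (P (nat_lit 95597895653135482880)) (T.h (P (nat_lit 0)) (M (nat_lit 47994939898575))))) (T.h (P (nat_lit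 0)) (T.h (T.h (P (nat_lit 0)) (P (nat_lit 40934921564768))) (P (nat_lit 0)))))) (T.h (T.h (T.h (M (nat_lit 16269053149684254638079)) (T.h (P (nat_lit 0)) (P (nat_lit 3999630672232448)))) (T.h (P (nat_lit 0)) (M (nat_lit 15777028889149439)))) (T.h (T.h (P (nat_lit 0)) (T.h (T.h (P (nat_lit 0)) (P (nat_lit 27402727578760))) (P (nat_lit 0)))) (M (nat_lit 6062581201043455)))))))]
def lP22_33 : List (T ℤ) := [(T.h (T.h (P (nat_lit 0)) (T.h (T.h (M (nat_lit 17659951530170901767705853951)) (T.h (P (nat_lit 0)) (T.h (P (nat_lit 62838136550265211322368)) (T.h (P (nat_lit 0)) (P (nat_lit 35350754512633856)))))) (T.h (P (nat_lit 0)) (T.h (T.h (P (nat_lit 5564071054108727967744)) (T.h (P (nat_lit 0)) (P (nat_lit 17784403227607040)))) (T.h (P (nat_lit 0)) (P (nat_lit 11843724323946496))))))) (T.h (T.h (T.h (P (nat_lit 0)) (T.h (M (nat_lit 29958964082896697032703999)) (T.h (P (nat_lit 0)) (T.h (M (nat_lit 38902030640963649535)) (T.h (P (nat_lit 0)) (P (nat_lit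 15958812818176))))))) (T.h (P (nat_lit 0)) (T.h (T.h (P (nat_lit 0)) (T.h (M (nat_lit 110232834500051599359)) (T.h (P (nat_lit 0)) (P (nat_lit 31589154588192))))) (T.h (P (nat_lit 0)) (T.h (T.h (P (nat_lit 0)) (M (nat_lit 6049335980319))) (P (nat_lit 0))))))) (T.h (T.h (P (nat_lit 0)) (T.h (T.h (P (nat_lit 58650704618747651424256)) (T.h (P (nat_lit 0)) (M (nat_lit 116121369701367807)))) (T.h (P (nat_lit 0)) (P (nat_lit 34555186056429568))))) (T.h (T.h (T.h (P (nat_lit 0)) (T.h (P (nat_lit 16255017564403400704)) (T.h (P (nat_lit 0)) (M (nat_lit 13381475394175))))) (T.h (P (nat_lit 0)) (T.h (T.h (P (nat_lit 0)) (M (nat_lit 1228216181215))) (P (nat_lit 0))))) (T.h (T.h (P (nat_lit 0)) (P (nat_lit 71761040527261696))) (T.h (T.h (T.h (P (nat_lit 0)) (M (nat_lit 35685065481487))) (P (nat_lit 0))) (P (nat_lit 0)))))))), (T.h (T.h (P (nat_lit 0)) (T.h (T.h (P (nat_lit 0)) (T.h (M (nat_lit 18234229295357103219671039)) (T.h (P (nat_lit 0)) (T.h (P (nat_lit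 295544313700350427136)) (T.h (P (nat_lit 0)) (P (nat_lit 29696131059552))))))) (T.h (P (nat_lit 0)) (T.h (T.h (P (nat_lit 0)) (T.h (P (nat_lit 283096305960082210816)) (T.h (P (nat_lit 0)) (P (nat_lit 63398187716256))))) (T.h (P (nat_lit 0)) (T.h (T.h (P (nat_lit 0)) (P (nat_lit 43733501269728))) (P (nat_lit 0)))))))) (T.h (T.h (T.h (P (nat_lit 17082036413506276926519508992)) (T.h (P (nat_lit 0)) (T.h (M (nat_lit 269358145763738191396863)) (T.h (P (nat_lit 0)) (M (nat_lit 304326929354260479)))))) (T.h (P (nat_lit 0)) (T.h (T.h (M (nat_lit 390753419711211322212351)) (T.h (P (nat_lit 0)) (M (nat_lit 350429977944653823)))) (T.h (P (nat_lit 0)) (P (nat_lit 69628086113042432)))))) (T.h (T.h (P (nat_lit 0)) (T.h (T.h (P (nat_lit 0)) (T.h (P (nat_lit 240577523003248607232)) (T.h (P (nat_lit 0)) (M (nat_lit 34445148703823))))) (T.h (P (nat_lit 0)) (T.h (T.h (P (nat_lit 0)) (M (nat_lit 87152537813951))) (P (nat_lit 0)))))) (T.h (T.h (T.h (M (nat_lit 114527323423051584897023))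 (T.h (P (nat_lit 0)) (M (nat_lit 179654202756825087)))) (T.h (P (nat_lit 0)) (P (nat_lit 133608228411277312)))) (T.h (T.h (P (nat_lit 0)) (T.h (T.h (P (nat_lit 0)) (P (nat_lit 190615479019776))) (P (nat_lit 0)))) (M (nat_lit 9288448203948031))))))), (T.h (T.h (P (nat_lit 0)) (T.h (T.h (M (nat_lit 95060108451662367495689338879)) (T.h (P (nat_lit 0)) (T.h (M (nat_lit 55329312596769502134271)) (T.h (P (nat_lit 0)) (P (nat_lit 102850424939692032)))))) (T.h (P (nat_lit 0)) (T.h (T.h (M (nat_lit 276672445310818863546367)) (T.h (P (nat_lit 0)) (P (nat_lit 171509811917275136)))) (T.h (P (nat_lit 0)) (M (nat_lit 151778934966403071))))))) (T.h (T.h (T.h (P (nat_lit 0)) (T.h (P (nat_lit 31873222224379168218415104)) (T.h (P (nat_lit 0)) (T.h (M (nat_lit 116614898390902243327)) (T.h (P (nat_lit 0)) (M (nat_lit 73807486325279))))))) (T.h (P (nat_lit 0)) (T.h (T.h (P (nat_lit 0)) (T.h (M (nat_lit 1129818480753300733951)) (T.h (P (nat_lit 0)) (M (nat_lit 387803109859199)))))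 (T.h (P (nat_lit 0)) (T.h (T.h (P (nat_lit 0)) (M (nat_lit 400605184028159))) (P (nat_lit 0))))))) (T.h (T.h (P (nat_lit 0)) (T.h (T.h (P (nat_lit 192504084486643047727104)) (T.h (P (nat_lit 0)) (P (nat_lit 818059986944311296)))) (T.h (P (nat_lit 0)) (P (nat_lit 263373719563976704))))) (T.h (T.h (T.h (P (nat_lit 0)) (T.h (M (nat_lit 128028420278392455167)) (T.h (P (nat_lit 0)) (P (nat_lit 38116904517792))))) (T.h (P (nat_lit 0)) (T.h (T.h (P (nat_lit 0)) (M (nat_lit 175223468085263))) (P (nat_lit 0))))) (T.h (T.h (P (nat_lit 0)) (M (nat_lit 175394950472155135))) (T.h (T.h (T.h (P (nat_lit 0)) (P (nat_lit 4794926070960))) (P (nat_lit 0))) (P (nat_lit 0)))))))), (T.h (T.h (P (nat_lit 0)) (T.h (T.h (P (nat_lit 0)) (T.h (M (nat_lit 101271065651841256493416447)) (T.h (P (nat_lit 0)) (M (nat_lit 389345474766314668031))))) (T.h (P (nat_lit 0)) (T.h (T.h (P (nat_lit 0)) (M (nat_lit 475053939699591675903))) (P (nat_lit 0)))))) (T.h (T.h (T.h (P (nat_lit 19600936697333657732927979520))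 (T.h (P (nat_lit 0)) (T.h (P (nat_lit 610608572207111069499392)) (T.h (P (nat_lit 0)) (P (nat_lit 125071006706827264)))))) (T.h (P (nat_lit 0)) (T.h (T.h (P (nat_lit 187400207729910773448704)) (T.h (P (nat_lit 0)) (P (nat_lit 625880814378713088)))) (T.h (P (nat_lit 0)) (P (nat_lit 88817059791536128)))))) (T.h (T.h (P (nat_lit 0)) (T.h (T.h (P (nat_lit 0)) (M (nat_lit 940329365751256317951))) (P (nat_lit 0)))) (T.h (T.h (T.h (P (nat_lit 43097959047579289255936)) (T.h (P (nat_lit 0)) (P (nat_lit 21042095031779328)))) (T.h (P (nat_lit 0)) (P (nat_lit 32912741919162368)))) (T.h (P (nat_lit 0)) (M (nat_lit 49028651682627583))))))), (T.h (T.h (T.h (P (nat_lit 0)) (T.h (P (nat_lit 53722552701100346492772679680)) (T.h (P (nat_lit 0)) (T.h (P (nat_lit 24104559975736356634624)) (T.h (P (nat_lit 0)) (P (nat_lit 29987144081145856))))))) (T.h (P (nat_lit 0)) (T.h (T.h (P (nat_lit 0)) (T.h (M (nat_lit 40817385476115149094911)) (T.h (P (nat_lit 0)) (M (nat_lit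 5618166223650815))))) (T.h (P (nat_lit 0)) (T.h (T.h (P (nat_lit 0)) (P (nat_lit 13953943454662656))) (P (nat_lit 0))))))) (T.h (T.h (P (nat_lit 0)) (T.h (T.h (P (nat_lit 27976224509473404932325376)) (T.h (P (nat_lit 0)) (T.h (M (nat_lit 251512460228226449407)) (T.h (P (nat_lit 0)) (P (nat_lit 18546753362336)))))) (T.h (P (nat_lit 0)) (T.h (T.h (M (nat_lit 147501008737055801343)) (T.h (P (nat_lit 0)) (M (nat_lit 64596591120223)))) (T.h (P (nat_lit 0)) (M (nat_lit 5456481312047))))))) (T.h (T.h (T.h (P (nat_lit 0)) (T.h (M (nat_lit 40817385476115149094911)) (T.h (P (nat_lit 0)) (M (nat_lit 5618166223650815))))) (T.h (P (nat_lit 0)) (T.h (T.h (P (nat_lit 0)) (P (nat_lit 328107354602536960))) (P (nat_lit 0))))) (T.h (T.h (P (nat_lit 0)) (T.h (T.h (M (nat_lit 147501008737055801343)) (T.h (P (nat_lit 0)) (M (nat_lit 64596591120223)))) (T.h (P (nat_lit 0)) (P (nat_lit 48640495562304))))) (T.h (T.h (T.h (P (nat_lit 0)) (P (nat_lit 13953943454662656))) (P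 (nat_lit 0))) (T.h (T.h (P (nat_lit 0)) (M (nat_lit 5456481312047))) (P (nat_lit 0)))))))), (T.h (T.h (T.h (M (nat_lit 25335067314161138281779312984063)) (T.h (P (nat_lit 0)) (T.h (P (nat_lit 84859068295587606585933824)) (T.h (P (nat_lit 0)) (T.h (P (nat_lit 77219276455789199360)) (T.h (P (nat_lit 0)) (P (nat_lit 12970141598880)))))))) (T.h (P (nat_lit 0)) (T.h (T.h (M (nat_lit 15317507951379109321375743)) (T.h (P (nat_lit 0)) (T.h (P (nat_lit 221996989788675112960)) (T.h (P (nat_lit 0)) (P (nat_lit 39655346396160)))))) (T.h (P (nat_lit 0)) (T.h (T.h (P (nat_lit 8135451317716910080)) (T.h (P (nat_lit 0)) (P (nat_lit 4499002599360)))) (T.h (P (nat_lit 0)) (P (nat_lit 2902497922080)))))))) (T.h (T.h (P (nat_lit 0)) (T.h (T.h (P (nat_lit 0)) (T.h (P (nat_lit 281068597270204595044352)) (T.h (P (nat_lit 0)) (M (nat_lit 122666095770337279))))) (T.h (P (nat_lit 0)) (T.h (T.h (P (nat_lit 0)) (P (nat_lit 10121017735643136))) (P (nat_lit 0)))))) (T.h (T.h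 (T.h (P (nat_lit 43096997095385071381118976)) (T.h (P (nat_lit 0)) (T.h (P (nat_lit 85712211110724108288)) (T.h (P (nat_lit 0)) (P (nat_lit 39655346396160)))))) (T.h (P (nat_lit 0)) (T.h (T.h (P (nat_lit 74128886958156414976)) (T.h (P (nat_lit 0)) (M (nat_lit 47898110021855)))) (T.h (P (nat_lit 0)) (P (nat_lit 16527146365152)))))) (T.h (T.h (P (nat_lit 0)) (T.h (T.h (P (nat_lit 0)) (M (nat_lit 137938028490391551))) (P (nat_lit 0)))) (T.h (T.h (T.h (M (nat_lit 78755181996053364735)) (T.h (P (nat_lit 0)) (P (nat_lit 4499002599360)))) (T.h (P (nat_lit 0)) (P (nat_lit 16527146365152)))) (T.h (P (nat_lit 0)) (P (nat_lit 2902497922080)))))))), (T.h (T.h (T.h (P (nat_lit 0)) (T.h (M (nat_lit 164541358652724079579220672511)) (T.h (P (nat_lit 0)) (T.h (M (nat_lit 205694808157285431377919)) (T.h (P (nat_lit 0)) (M (nat_lit 110618415237251071))))))) (T.h (P (nat_lit 0)) (T.h (T.h (P (nat_lit 0)) (T.h (P (nat_lit 86926503243103613222912)) (T.h (P (nat_lit 0))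 (P (nat_lit 236066012307668992))))) (T.h (P (nat_lit 0)) (T.h (T.h (P (nat_lit 0)) (P (nat_lit 38132951317643264))) (P (nat_lit 0))))))) (T.h (T.h (P (nat_lit 0)) (T.h (T.h (M (nat_lit 18855536584253307631960063)) (T.h (P (nat_lit 0)) (T.h (M (nat_lit 734604657569608761343)) (T.h (P (nat_lit 0)) (M (nat_lit 297989783130959)))))) (T.h (P (nat_lit 0)) (T.h (T.h (M (nat_lit 52671097644393693183)) (T.h (P (nat_lit 0)) (M (nat_lit 168127064745695)))) (T.h (P (nat_lit 0)) (M (nat_lit 46596410198495))))))) (T.h (T.h (T.h (P (nat_lit 0)) (T.h (M (nat_lit 30443823574535712538623)) (T.h (P (nat_lit 0)) (P (nat_lit 137989895693352960))))) (T.h (P (nat_lit 0)) (T.h (T.h (P (nat_lit 0)) (P (nat_lit 228576517300535296))) (P (nat_lit 0))))) (T.h (T.h (P (nat_lit 0)) (T.h (T.h (M (nat_lit 157459183668635369471)) (T.h (P (nat_lit 0)) (M (nat_lit 98400705361055)))) (T.h (P (nat_lit 0)) (M (nat_lit 10185240531311))))) (T.h (T.h (T.h (P (nat_lit 0)) (M (nat_lit 9338296426364927)))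 (P (nat_lit 0))) (T.h (T.h (P (nat_lit 0)) (P (nat_lit 17048348072064))) (P (nat_lit 0)))))))), (T.h (T.h (T.h (P (nat_lit 19467631606836864495099968487424)) (T.h (P (nat_lit 0)) (T.h (P (nat_lit 104885110360430056497479680)) (T.h (P (nat_lit 0)) (P (nat_lit 13265642981005721600)))))) (T.h (P (nat_lit 0)) (T.h (T.h (P (nat_lit 36209560300798946997960704)) (T.h (P (nat_lit 0)) (M (nat_lit 609690421924770873343)))) (T.h (P (nat_lit 0)) (P (nat_lit 22786112129582759936)))))) (T.h (T.h (P (nat_lit 0)) (T.h (T.h (P (nat_lit 0)) (T.h (P (nat_lit 1226617886430008346411008)) (T.h (P (nat_lit 0)) (P (nat_lit 584027552139509760))))) (T.h (P (nat_lit 0)) (T.h (T.h (P (nat_lit 0)) (P (nat_lit 594853977969459200))) (P (nat_lit 0)))))) (T.h (T.h (T.h (M (nat_lit 4005385083777552174022655)) (T.h (P (nat_lit 0)) (M (nat_lit 437557371516657598463)))) (T.h (P (nat_lit 0)) (M (nat_lit 469977392837912690687)))) (T.h (T.h (P (nat_lit 0)) (T.h (T.h (P (nat_lit 0)) (P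 (nat_lit 382538152061894656))) (P (nat_lit 0)))) (M (nat_lit 57748921945713278975))))))]
def lP22_34 : List (T ℤ) := [(T.h (T.h (P (nat_lit 0)) (T.h (T.h (P (nat_lit 0)) (T.h (P (nat_lit 23435974083932209570381824)) (T.h (P (nat_lit 0)) (T.h (P (nat_lit 69568742831935193088)) (T.h (P (nat_lit 0)) (P (nat_lit 6554927866368))))))) (T.h (P (nat_lit 0)) (T.h (T.h (P (nat_lit 0)) (T.h (M (nat_lit 120330688800300728319)) (T.h (P (nat_lit 0)) (P (nat_lit 14935521193248))))) (T.h (P (nat_lit 0)) (T.h (T.h (P (nat_lit 0)) (M (nat_lit 6261972315983))) (P (nat_lit 0)))))))) (T.h (T.h (T.h (M (nat_lit 6055445881416343606697918463)) (T.h (P (nat_lit 0)) (T.h (P (nat_lit 30453367126282721034240)) (T.h (P (nat_lit 0)) (M (nat_lit 25690900194066431)))))) (T.h (P (nat_lit 0)) (T.h (T.h (P (nat_lit 236814018518904771444736)) (T.h (P (nat_lit 0)) (P (nat_lit 226577201689427968)))) (T.h (P (nat_lit 0)) (P (nat_lit 94740330665148416)))))) (T.h (T.h (P (nat_lit 0)) (T.h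 (T.h (P (nat_lit 0)) (T.h (M (nat_lit 501728095527132725247)) (T.h (P (nat_lit 0)) (P (nat_lit 13001890599264))))) (T.h (P (nat_lit 0)) (T.h (T.h (P (nat_lit 0)) (M (nat_lit 32116743668927))) (P (nat_lit 0)))))) (T.h (T.h (T.h (P (nat_lit 113709236032273398104064)) (T.h (P (nat_lit 0)) (P (nat_lit 128491958501376000)))) (T.h (P (nat_lit 0)) (M (nat_lit 19688161320828927)))) (T.h (T.h (P (nat_lit 0)) (T.h (T.h (P (nat_lit 0)) (M (nat_lit 95270745959327))) (P (nat_lit 0)))) (P (nat_lit 101502339024453632))))))), (T.h (T.h (P (nat_lit 0)) (T.h (T.h (P (nat_lit 67185566505562312745714450432)) (T.h (P (nat_lit 0)) (T.h (M (nat_lit 101452401124637860167679)) (T.h (P (nat_lit 0)) (M (nat_lit 75789866623516671)))))) (T.h (P (nat_lit 0)) (T.h (T.h (P (nat_lit 26688500089316853153792)) (T.h (P (nat_lit 0)) (P (nat_lit 91725410818899968)))) (T.h (P (nat_lit 0)) (P (nat_lit 30121564165390336))))))) (T.h (T.h (T.h (P (nat_lit 0)) (T.h (P (nat_lit 84474593176145620608483328))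 (T.h (P (nat_lit 0)) (T.h (P (nat_lit 67279472290785394688)) (T.h (P (nat_lit 0)) (P (nat_lit 31976606021472))))))) (T.h (P (nat_lit 0)) (T.h (T.h (P (nat_lit 0)) (T.h (P (nat_lit 291820826445081477120)) (T.h (P (nat_lit 0)) (M (nat_lit 127505483758511))))) (T.h (P (nat_lit 0)) (T.h (T.h (P (nat_lit 0)) (M (nat_lit 22262947040159))) (P (nat_lit 0))))))) (T.h (T.h (P (nat_lit 0)) (T.h (T.h (M (nat_lit 118456684448776665956351)) (T.h (P (nat_lit 0)) (P (nat_lit 368374066637406208)))) (T.h (P (nat_lit 0)) (P (nat_lit 114024985828311040))))) (T.h (T.h (T.h (P (nat_lit 0)) (T.h (P (nat_lit 70989944265199583232)) (T.h (P (nat_lit 0)) (M (nat_lit 2395349943695))))) (T.h (P (nat_lit 0)) (T.h (T.h (P (nat_lit 0)) (M (nat_lit 165739260395375))) (P (nat_lit 0))))) (T.h (T.h (P (nat_lit 0)) (P (nat_lit 108129119820283904))) (T.h (T.h (T.h (P (nat_lit 0)) (P (nat_lit 77442952494384))) (P (nat_lit 0))) (P (nat_lit 0)))))))), (T.h (T.h (P (nat_lit 0)) (T.h (T.h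 (P (nat_lit 0)) (T.h (M (nat_lit 92426807946669620230881279)) (T.h (P (nat_lit 0)) (M (nat_lit 218661654804008271871))))) (T.h (P (nat_lit 0)) (T.h (T.h (P (nat_lit 0)) (M (nat_lit 119055661313460011007))) (P (nat_lit 0)))))) (T.h (T.h (T.h (M (nat_lit 10181190058579763740859695103)) (T.h (P (nat_lit 0)) (T.h (M (nat_lit 126116427677813432123391)) (T.h (P (nat_lit 0)) (M (nat_lit 13458533514379263)))))) (T.h (P (nat_lit 0)) (T.h (T.h (P (nat_lit 156197456019340321095680)) (T.h (P (nat_lit 0)) (P (nat_lit 245202494400200704)))) (T.h (P (nat_lit 0)) (P (nat_lit 49489072030679040)))))) (T.h (T.h (P (nat_lit 0)) (T.h (T.h (P (nat_lit 0)) (M (nat_lit 488657164903791984639))) (P (nat_lit 0)))) (T.h (T.h (T.h (M (nat_lit 37393484389962949328895)) (T.h (P (nat_lit 0)) (M (nat_lit 65361588179927039)))) (T.h (P (nat_lit 0)) (M (nat_lit 8939685262655487)))) (T.h (P (nat_lit 0)) (M (nat_lit 190299717456330751))))))), (T.h (T.h (T.h (P (nat_lit 0)) (T.h (M (nat_lit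 72685983661459251017040265215)) (T.h (P (nat_lit 0)) (T.h (P (nat_lit 1559377016144609148928)) (T.h (P (nat_lit 0)) (M (nat_lit 28653826021441535))))))) (T.h (P (nat_lit 0)) (T.h (T.h (P (nat_lit 0)) (T.h (M (nat_lit 33414274095559754121215)) (T.h (P (nat_lit 0)) (M (nat_lit 67341317046075391))))) (T.h (P (nat_lit 0)) (T.h (T.h (P (nat_lit 0)) (P (nat_lit 6109213496131584))) (P (nat_lit 0))))))) (T.h (T.h (P (nat_lit 0)) (T.h (T.h (M (nat_lit 40456280365528153312985087)) (T.h (P (nat_lit 0)) (T.h (P (nat_lit 369929869536337592320)) (T.h (P (nat_lit 0)) (M (nat_lit 36795851005967)))))) (T.h (P (nat_lit 0)) (T.h (T.h (P (nat_lit 62616020965616779264)) (T.h (P (nat_lit 0)) (P (nat_lit 73574799128352)))) (T.h (P (nat_lit 0)) (P (nat_lit 45005981788656))))))) (T.h (T.h (T.h (P (nat_lit 0)) (T.h (P (nat_lit 83956052722079571640320)) (T.h (P (nat_lit 0)) (P (nat_lit 30734799568240640))))) (T.h (P (nat_lit 0)) (T.h (T.h (P (nat_lit 0)) (M (nat_lit 392751489005174783)))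 (P (nat_lit 0))))) (T.h (T.h (P (nat_lit 0)) (T.h (T.h (P (nat_lit 167404106989858455552)) (T.h (P (nat_lit 0)) (P (nat_lit 3848439743712)))) (T.h (P (nat_lit 0)) (M (nat_lit 35467958383919))))) (T.h (T.h (T.h (P (nat_lit 0)) (P (nat_lit 53580461240139776))) (P (nat_lit 0))) (T.h (T.h (P (nat_lit 0)) (M (nat_lit 18638776481903))) (P (nat_lit 0)))))))), (T.h (T.h (T.h (P (nat_lit 19245058767597118072917487255552)) (T.h (P (nat_lit 0)) (T.h (P (nat_lit 59825625941170914374713344)) (T.h (P (nat_lit 0)) (P (nat_lit 12951678390250766336)))))) (T.h (P (nat_lit 0)) (T.h (T.h (M (nat_lit 49064869503036694296788991)) (T.h (P (nat_lit 0)) (M (nat_lit 45880012597962473471)))) (T.h (P (nat_lit 0)) (M (nat_lit 58062886536468234239)))))) (T.h (T.h (P (nat_lit 0)) (T.h (T.h (P (nat_lit 0)) (T.h (M (nat_lit 171507145602860729761791)) (T.h (P (nat_lit 0)) (P (nat_lit 189747104945602560))))) (T.h (P (nat_lit 0)) (T.h (T.h (P (nat_lit 0)) (M (nat_lit 11742295132012543)))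 (P (nat_lit 0)))))) (T.h (T.h (T.h (M (nat_lit 8849924118460195124805631)) (T.h (P (nat_lit 0)) (M (nat_lit 218013063006075748351)))) (T.h (P (nat_lit 0)) (M (nat_lit 78300033919217565695)))) (T.h (T.h (P (nat_lit 0)) (T.h (T.h (P (nat_lit 0)) (P (nat_lit 200573530775552000))) (P (nat_lit 0)))) (P (nat_lit 22472147538827804672)))))), (T.h (T.h (P (nat_lit 0)) (T.h (T.h (P (nat_lit 0)) (T.h (P (nat_lit 28478335506665354741940224)) (T.h (P (nat_lit 0)) (P (nat_lit 46219789068006326272))))) (T.h (P (nat_lit 0)) (T.h (T.h (P (nat_lit 0)) (P (nat_lit 7399312085391245312))) (P (nat_lit 0)))))) (T.h (T.h (T.h (M (nat_lit 485246316002040588049317887)) (T.h (P (nat_lit 0)) (T.h (M (nat_lit 156873228732256518930431)) (T.h (P (nat_lit 0)) (M (nat_lit 151896253560815615)))))) (T.h (P (nat_lit 0)) (T.h (T.h (M (nat_lit 116266967700160330596351)) (T.h (P (nat_lit 0)) (M (nat_lit 56832365739311103)))) (T.h (P (nat_lit 0)) (M (nat_lit 16022553870106623)))))) (T.h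 (T.h (P (nat_lit 0)) (T.h (T.h (P (nat_lit 0)) (P (nat_lit 379707384477398335488))) (P (nat_lit 0)))) (T.h (T.h (T.h (M (nat_lit 47953310490409918529535)) (T.h (P (nat_lit 0)) (M (nat_lit 455296650780803071)))) (T.h (P (nat_lit 0)) (M (nat_lit 97934611223642111)))) (T.h (P (nat_lit 0)) (M (nat_lit 7655420903981055))))))), (P (nat_lit 0)), (T.h (T.h (T.h (P (nat_lit 0)) (T.h (M (nat_lit 1019329464602023528524414975)) (T.h (P (nat_lit 0)) (T.h (M (nat_lit 26089571169843059621887)) (T.h (P (nat_lit 0)) (M (nat_lit 6792647816151039))))))) (T.h (P (nat_lit 0)) (T.h (T.h (P (nat_lit 0)) (T.h (P (nat_lit 24459377428626334023680)) (T.h (P (nat_lit 0)) (M (nat_lit 48508369019109375))))) (T.h (P (nat_lit 0)) (T.h (T.h (P (nat_lit 0)) (P (nat_lit 9790621656383488))) (P (nat_lit 0))))))) (T.h (T.h (P (nat_lit 0)) (T.h (T.h (P (nat_lit 4343446238316046827126784)) (T.h (P (nat_lit 0)) (T.h (P (nat_lit 27869085850803372032)) (T.h (P (nat_lit 0)) (P (nat_lit 24050724205112))))))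 (T.h (P (nat_lit 0)) (T.h (T.h (M (nat_lit 13799370759702839295)) (T.h (P (nat_lit 0)) (M (nat_lit 47471891302503)))) (T.h (P (nat_lit 0)) (P (nat_lit 6158209502384))))))) (T.h (T.h (T.h (P (nat_lit 0)) (T.h (P (nat_lit 28409884788917750726656)) (T.h (P (nat_lit 0)) (M (nat_lit 57308400462299135))))) (T.h (P (nat_lit 0)) (T.h (T.h (P (nat_lit 0)) (M (nat_lit 50291674965082111))) (P (nat_lit 0))))) (T.h (T.h (P (nat_lit 0)) (T.h (T.h (P (nat_lit 18860231165074210816)) (T.h (P (nat_lit 0)) (M (nat_lit 11775571218751)))) (T.h (P (nat_lit 0)) (M (nat_lit 20904433505623))))) (T.h (T.h (T.h (P (nat_lit 0)) (P (nat_lit 41846141237264384))) (P (nat_lit 0))) (T.h (T.h (P (nat_lit 0)) (M (nat_lit 5980972211343))) (P (nat_lit 0))))))))]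
def lP22_35 : List (T ℤ) := [(T.h (T.h (T.h (P (nat_lit 221815957248227472857689472630784)) (T.h (P (nat_lit 0)) (T.h (P (nat_lit 28229558321699971322085376)) (T.h (P (nat_lit 0)) (T.h (P (nat_lit 20037403880999354368)) (T.h (P (nat_lit 0)) (M (nat_lit 4842135423775)))))))) (T.h (P (nat_lit 0)) (T.h (T.h (P (nat_lit 30988763977504371698040832)) (T.h (P (nat_lit 0)) (T.h (M (nat_lit 157729516029757882367)) (T.h (P (nat_lit 0)) (M (nat_lit 466618206601247)))))) (T.h (P (nat_lit 0)) (T.h (T.h (P (nat_lit 53072859227878326272)) (T.h (P (nat_lit 0)) (M (nat_lit 380349276558495)))) (T.h (P (nat_lit 0)) (P (nat_lit 88283525211360)))))))) (T.h (T.h (P (nat_lit 0)) (T.h (T.h (P (nat_lit 0)) (T.h (P (nat_lit 56538922558053991579648)) (T.h (P (nat_lit 0)) (P (nat_lit 142903026199724032))))) (T.h (P (nat_lit 0)) (T.h (T.h (P (nat_lit 0)) (P (nat_lit 87981380135452672))) (P (nat_lit 0)))))) (T.h (T.h (T.h (M (nat_lit 21301793150286031799451647)) (T.h (P (nat_lit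 0)) (T.h (M (nat_lit 94827715425185300479)) (T.h (P (nat_lit 0)) (M (nat_lit 112606955192847)))))) (T.h (P (nat_lit 0)) (T.h (T.h (P (nat_lit 12577470158727020544)) (T.h (P (nat_lit 0)) (M (nat_lit 17082524090335)))) (T.h (P (nat_lit 0)) (M (nat_lit 126875042397455)))))) (T.h (T.h (P (nat_lit 0)) (T.h (T.h (P (nat_lit 0)) (P (nat_lit 83429182192615424))) (P (nat_lit 0)))) (T.h (T.h (T.h (P (nat_lit 5811565880164745216)) (T.h (P (nat_lit 0)) (P (nat_lit 48802162919344)))) (T.h (P (nat_lit 0)) (M (nat_lit 14702718992527)))) (T.h (P (nat_lit 0)) (M (nat_lit 12558189962591)))))))), (T.h (T.h (T.h (P (nat_lit 0)) (T.h (P (nat_lit 15060356633087551199724437504)) (T.h (P (nat_lit 0)) (T.h (P (nat_lit 106180806920314158055424)) (T.h (P (nat_lit 0)) (P (nat_lit 42607821429800960))))))) (T.h (P (nat_lit 0)) (T.h (T.h (P (nat_lit 0)) (T.h (P (nat_lit 295152132231464845574144)) (T.h (P (nat_lit 0)) (P (nat_lit 438730694843531264))))) (T.h (P (nat_lit 0)) (T.h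 (T.h (P (nat_lit 0)) (P (nat_lit 257291722367041536))) (P (nat_lit 0))))))) (T.h (T.h (P (nat_lit 0)) (T.h (T.h (M (nat_lit 97780516078427023188426751)) (T.h (P (nat_lit 0)) (T.h (M (nat_lit 382746559242026614783)) (T.h (P (nat_lit 0)) (M (nat_lit 116107931920415)))))) (T.h (P (nat_lit 0)) (T.h (T.h (M (nat_lit 230120293191364116479)) (T.h (P (nat_lit 0)) (P (nat_lit 42721455343824)))) (T.h (P (nat_lit 0)) (M (nat_lit 5007861987407))))))) (T.h (T.h (T.h (P (nat_lit 0)) (T.h (P (nat_lit 30129554316350015406080)) (T.h (P (nat_lit 0)) (P (nat_lit 148977777661181952))))) (T.h (P (nat_lit 0)) (T.h (T.h (P (nat_lit 0)) (M (nat_lit 171661555688308735))) (P (nat_lit 0))))) (T.h (T.h (P (nat_lit 0)) (T.h (T.h (P (nat_lit 116756985124778672128)) (T.h (P (nat_lit 0)) (M (nat_lit 41072501562671)))) (T.h (P (nat_lit 0)) (P (nat_lit 37323855582816))))) (T.h (T.h (T.h (P (nat_lit 0)) (M (nat_lit 35406734043938815))) (P (nat_lit 0))) (T.h (T.h (P (nat_lit 0)) (P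 (nat_lit 2553716552832))) (P (nat_lit 0)))))))), (T.h (T.h (T.h (M (nat_lit 409266472218964815952337514266623)) (T.h (P (nat_lit 0)) (T.h (M (nat_lit 69284530162055369893871615)) (T.h (P (nat_lit 0)) (T.h (M (nat_lit 18864403813379342335)) (T.h (P (nat_lit 0)) (P (nat_lit 84590609547168)))))))) (T.h (P (nat_lit 0)) (T.h (T.h (M (nat_lit 131017688937194509893107711)) (T.h (P (nat_lit 0)) (T.h (P (nat_lit 245832239135124881408)) (T.h (P (nat_lit 0)) (P (nat_lit 572893221391200)))))) (T.h (P (nat_lit 0)) (T.h (T.h (M (nat_lit 213196163386089406463)) (T.h (P (nat_lit 0)) (P (nat_lit 426226108692672)))) (T.h (P (nat_lit 0)) (M (nat_lit 158233476595103)))))))) (T.h (T.h (P (nat_lit 0)) (T.h (T.h (P (nat_lit 0)) (T.h (M (nat_lit 180786621017668706107391)) (T.h (P (nat_lit 0)) (M (nat_lit 226486697755705343))))) (T.h (P (nat_lit 0)) (T.h (T.h (P (nat_lit 0)) (M (nat_lit 371759436879200255))) (P (nat_lit 0)))))) (T.h (T.h (T.h (M (nat_lit 10101649388226781915381759))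 (T.h (P (nat_lit 0)) (T.h (P (nat_lit 348793543285196980224)) (T.h (P (nat_lit 0)) (P (nat_lit 177812870020992)))))) (T.h (P (nat_lit 0)) (T.h (T.h (P (nat_lit 148339135441111351296)) (T.h (P (nat_lit 0)) (P (nat_lit 58448465730432)))) (T.h (P (nat_lit 0)) (P (nat_lit 207312393033648)))))) (T.h (T.h (P (nat_lit 0)) (T.h (T.h (P (nat_lit 0)) (M (nat_lit 111097928493268991))) (P (nat_lit 0)))) (T.h (T.h (T.h (M (nat_lit 23322182882330411007)) (T.h (P (nat_lit 0)) (M (nat_lit 33691423764815)))) (T.h (P (nat_lit 0)) (P (nat_lit 100058136211152)))) (T.h (P (nat_lit 0)) (P (nat_lit 90522856686240)))))))), (T.h (T.h (T.h (P (nat_lit 0)) (T.h (M (nat_lit 11733825538124060937013952511)) (T.h (P (nat_lit 0)) (T.h (M (nat_lit 95164013641070182137855)) (T.h (P (nat_lit 0)) (M (nat_lit 121494382953758719))))))) (T.h (P (nat_lit 0)) (T.h (T.h (P (nat_lit 0)) (T.h (M (nat_lit 267142227245937773772799)) (T.h (P (nat_lit 0)) (M (nat_lit 539078229205188607))))) (T.h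 (P (nat_lit 0)) (T.h (T.h (P (nat_lit 0)) (M (nat_lit 177234037276082175))) (P (nat_lit 0))))))) (T.h (T.h (P (nat_lit 0)) (T.h (T.h (P (nat_lit 61685020237823140436115456)) (T.h (P (nat_lit 0)) (P (nat_lit 732313262607040512000)))) (T.h (P (nat_lit 0)) (P (nat_lit 32596431378283757568))))) (T.h (T.h (T.h (P (nat_lit 0)) (T.h (M (nat_lit 367430446993888128270335)) (T.h (P (nat_lit 0)) (M (nat_lit 113423639843373055))))) (T.h (P (nat_lit 0)) (T.h (T.h (P (nat_lit 0)) (M (nat_lit 79454810584645631))) (P (nat_lit 0))))) (T.h (T.h (P (nat_lit 0)) (P (nat_lit 7673482952939929600))) (T.h (T.h (T.h (P (nat_lit 0)) (M (nat_lit 14666678955606015))) (P (nat_lit 0))) (P (nat_lit 0))))))), (T.h (T.h (P (nat_lit 0)) (T.h (T.h (M (nat_lit 782089061910025663233916927)) (T.h (P (nat_lit 0)) (T.h (M (nat_lit 14320835328243459424255)) (T.h (P (nat_lit 0)) (M (nat_lit 8925789642784767)))))) (T.h (P (nat_lit 0)) (T.h (T.h (M (nat_lit 16426708158251637145599)) (T.h (P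 (nat_lit 0)) (M (nat_lit 22042204530900991)))) (T.h (P (nat_lit 0)) (M (nat_lit 6131893213822975))))))) (T.h (T.h (T.h (P (nat_lit 0)) (T.h (P (nat_lit 6546479697134641121067008)) (T.h (P (nat_lit 0)) (T.h (P (nat_lit 22831587893463482368)) (T.h (P (nat_lit 0)) (P (nat_lit 16967370205168))))))) (T.h (P (nat_lit 0)) (T.h (T.h (P (nat_lit 0)) (T.h (P (nat_lit 24111187067511242752)) (T.h (P (nat_lit 0)) (M (nat_lit 11967238186615))))) (T.h (P (nat_lit 0)) (T.h (T.h (P (nat_lit 0)) (P (nat_lit 17623647717064))) (P (nat_lit 0))))))) (T.h (T.h (P (nat_lit 0)) (T.h (T.h (P (nat_lit 18063952995519278612480)) (T.h (P (nat_lit 0)) (M (nat_lit 26618167397318655)))) (T.h (P (nat_lit 0)) (M (nat_lit 42949802790125567))))) (T.h (T.h (T.h (P (nat_lit 0)) (T.h (M (nat_lit 4787399348545650687)) (T.h (P (nat_lit 0)) (M (nat_lit 23872235273511))))) (T.h (P (nat_lit 0)) (T.h (T.h (P (nat_lit 0)) (P (nat_lit 29687087006240))) (P (nat_lit 0))))) (T.h (T.h (P (nat_lit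 0)) (M (nat_lit 12606398353178623))) (T.h (T.h (T.h (P (nat_lit 0)) (M (nat_lit 11650405526287))) (P (nat_lit 0))) (P (nat_lit 0)))))))), (T.h (T.h (P (nat_lit 0)) (T.h (T.h (P (nat_lit 0)) (T.h (M (nat_lit 17906321837193087961530367)) (T.h (P (nat_lit 0)) (T.h (M (nat_lit 28621299218955370495)) (T.h (P (nat_lit 0)) (M (nat_lit 57105588554927))))))) (T.h (P (nat_lit 0)) (T.h (T.h (P (nat_lit 0)) (T.h (M (nat_lit 28621299218955370495)) (T.h (P (nat_lit 0)) (M (nat_lit 33666772764575))))) (T.h (P (nat_lit 0)) (T.h (T.h (P (nat_lit 0)) (M (nat_lit 57105588554927))) (P (nat_lit 0)))))))) (T.h (T.h (T.h (P (nat_lit 1980409599325634221637107712)) (T.h (P (nat_lit 0)) (T.h (M (nat_lit 3622323455901260840959)) (T.h (P (nat_lit 0)) (M (nat_lit 32889710490746879)))))) (T.h (P (nat_lit 0)) (T.h (T.h (M (nat_lit 3622323455901260840959)) (T.h (P (nat_lit 0)) (P (nat_lit 53787962859716608)))) (T.h (P (nat_lit 0)) (M (nat_lit 32889710490746879)))))) (T.h (T.h (P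 (nat_lit 0)) (T.h (T.h (P (nat_lit 0)) (T.h (M (nat_lit 4387270251864129535)) (T.h (P (nat_lit 0)) (P (nat_lit 7964610238816))))) (T.h (P (nat_lit 0)) (T.h (T.h (P (nat_lit 0)) (P (nat_lit 7964610238816))) (P (nat_lit 0)))))) (T.h (T.h (T.h (M (nat_lit 15055359175053937737727)) (T.h (P (nat_lit 0)) (M (nat_lit 38455619674882047)))) (T.h (P (nat_lit 0)) (M (nat_lit 38455619674882047)))) (T.h (T.h (P (nat_lit 0)) (T.h (T.h (P (nat_lit 0)) (P (nat_lit 3163502112640))) (P (nat_lit 0)))) (P (nat_lit 3262392835637248))))))), (T.h (T.h (P (nat_lit 0)) (T.h (T.h (M (nat_lit 15090455622766928826954940415)) (T.h (P (nat_lit 0)) (T.h (P (nat_lit 126012551805512213069824)) (T.h (P (nat_lit 0)) (P (nat_lit 251079679583748096)))))) (T.h (P (nat_lit 0)) (T.h (T.h (P (nat_lit 6456252935342588428288)) (T.h (P (nat_lit 0)) (P (nat_lit 452982372442505216)))) (T.h (P (nat_lit 0)) (M (nat_lit 50528122080002047))))))) (T.h (T.h (T.h (P (nat_lit 0)) (T.h (P (nat_lit 10068552722795612291989504))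 (T.h (P (nat_lit 0)) (T.h (P (nat_lit 221726420270263042048)) (T.h (P (nat_lit 0)) (M (nat_lit 13001708302415))))))) (T.h (P (nat_lit 0)) (T.h (T.h (P (nat_lit 0)) (T.h (M (nat_lit 39613226278748946431)) (T.h (P (nat_lit 0)) (P (nat_lit 48251842434480))))) (T.h (P (nat_lit 0)) (T.h (T.h (P (nat_lit 0)) (M (nat_lit 21695537416079))) (P (nat_lit 0))))))) (T.h (T.h (P (nat_lit 0)) (T.h (T.h (P (nat_lit 34449875306500239392768)) (T.h (P (nat_lit 0)) (M (nat_lit 72723711117164543)))) (T.h (P (nat_lit 0)) (P (nat_lit 198833590393143296))))) (T.h (T.h (T.h (P (nat_lit 0)) (T.h (M (nat_lit 119100335992120279039)) (T.h (P (nat_lit 0)) (P (nat_lit 62131361260368))))) (T.h (P (nat_lit 0)) (T.h (T.h (P (nat_lit 0)) (M (nat_lit 104841686593631))) (P (nat_lit 0))))) (T.h (T.h (P (nat_lit 0)) (M (nat_lit 98869187456008191))) (T.h (T.h (T.h (P (nat_lit 0)) (P (nat_lit 69011936055024))) (P (nat_lit 0))) (P (nat_lit 0)))))))), (T.h (T.h (P (nat_lit 0)) (T.h (T.h (P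 (nat_lit 0)) (T.h (P (nat_lit 110889463789553626162135040)) (T.h (P (nat_lit 0)) (T.h (P (nat_lit 88273539359475499008)) (T.h (P (nat_lit 0)) (P (nat_lit 145948101621552))))))) (T.h (P (nat_lit 0)) (T.h (T.h (P (nat_lit 0)) (T.h (P (nat_lit 84563067385061310464)) (T.h (P (nat_lit 0)) (P (nat_lit 29510694618480))))) (T.h (P (nat_lit 0)) (T.h (T.h (P (nat_lit 0)) (P (nat_lit 100481755148640))) (P (nat_lit 0)))))))) (T.h (T.h (T.h (P (nat_lit 51780321548609131815886651392)) (T.h (P (nat_lit 0)) (T.h (M (nat_lit 60078728999998268112895)) (T.h (P (nat_lit 0)) (P (nat_lit 133198632893267968)))))) (T.h (P (nat_lit 0)) (T.h (T.h (M (nat_lit 43074445675859462324223)) (T.h (P (nat_lit 0)) (P (nat_lit 348094961878499328)))) (T.h (P (nat_lit 0)) (M (nat_lit 50720353550532607)))))) (T.h (T.h (P (nat_lit 0)) (T.h (T.h (P (nat_lit 0)) (T.h (M (nat_lit 27574989714200985599)) (T.h (P (nat_lit 0)) (M (nat_lit 204321723608591))))) (T.h (P (nat_lit 0)) (T.h (T.h (P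 (nat_lit 0)) (M (nat_lit 166087946971727))) (P (nat_lit 0)))))) (T.h (T.h (T.h (P (nat_lit 60987767985754137952256)) (T.h (P (nat_lit 0)) (P (nat_lit 63693517749616640)))) (T.h (P (nat_lit 0)) (P (nat_lit 41393942740205568)))) (T.h (T.h (P (nat_lit 0)) (T.h (T.h (P (nat_lit 0)) (P (nat_lit 71074743071616))) (P (nat_lit 0)))) (P (nat_lit 55558320353296384)))))))]
def lP22_36 : List (T ℤ) := [(T.h (T.h (P (nat_lit 0)) (T.h (T.h (M (nat_lit 30508888387642705636602413055)) (T.h (P (nat_lit 0)) (T.h (M (nat_lit 137397668323854766833663)) (T.h (P (nat_lit 0)) (M (nat_lit 389996715109679103)))))) (T.h (P (nat_lit 0)) (T.h (T.h (P (nat_lit 58113764557361868963840)) (T.h (P (nat_lit 0)) (M (nat_lit 329979091512393727)))) (T.h (P (nat_lit 0)) (P (nat_lit 196333192762982400))))))) (T.h (T.h (T.h (P (nat_lit 0)) (T.h (P (nat_lit 102326726380815696128901120)) (T.h (P (nat_lit 0)) (M (nat_lit 110454333391920693247))))) (T.h (P (nat_lit 0)) (T.h (T.h (P (nat_lit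 0)) (M (nat_lit 182339563538297651199))) (P (nat_lit 0))))) (T.h (T.h (P (nat_lit 0)) (T.h (T.h (M (nat_lit 23007533441051711766527)) (T.h (P (nat_lit 0)) (P (nat_lit 228245028713496576)))) (T.h (P (nat_lit 0)) (M (nat_lit 158032357905596415))))) (T.h (T.h (T.h (P (nat_lit 0)) (M (nat_lit 93974810146082127871))) (P (nat_lit 0))) (T.h (T.h (P (nat_lit 0)) (M (nat_lit 187089027277619199))) (P (nat_lit 0))))))), (T.h (T.h (T.h (P (nat_lit 116538236317700504972192617857024)) (T.h (P (nat_lit 0)) (T.h (P (nat_lit 32611548086002112509509632)) (T.h (P (nat_lit 0)) (T.h (P (nat_lit 44292664539358429184)) (T.h (P (nat_lit 0)) (P (nat_lit 32079931261568)))))))) (T.h (P (nat_lit 0)) (T.h (T.h (P (nat_lit 29852342430197712133554176)) (T.h (P (nat_lit 0)) (T.h (P (nat_lit 14755860110806876160)) (T.h (P (nat_lit 0)) (M (nat_lit 7076939740079)))))) (T.h (P (nat_lit 0)) (T.h (T.h (P (nat_lit 11257209192479457280)) (T.h (P (nat_lit 0)) (M (nat_lit 93345869782831))))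 (T.h (P (nat_lit 0)) (M (nat_lit 61045729373567)))))))) (T.h (T.h (P (nat_lit 0)) (T.h (T.h (P (nat_lit 0)) (T.h (P (nat_lit 35871329636008551514112)) (T.h (P (nat_lit 0)) (P (nat_lit 40345172097957888))))) (T.h (P (nat_lit 0)) (T.h (T.h (P (nat_lit 0)) (P (nat_lit 95266818162229248))) (P (nat_lit 0)))))) (T.h (T.h (T.h (M (nat_lit 11610262193131898743554047)) (T.h (P (nat_lit 0)) (T.h (P (nat_lit 18121256762693648384)) (T.h (P (nat_lit 0)) (M (nat_lit 22396963694271)))))) (T.h (P (nat_lit 0)) (T.h (T.h (M (nat_lit 89283928821218672639)) (T.h (P (nat_lit 0)) (M (nat_lit 22178401775167)))) (T.h (P (nat_lit 0)) (M (nat_lit 8128876489663)))))) (T.h (T.h (P (nat_lit 0)) (T.h (T.h (P (nat_lit 0)) (P (nat_lit 41843344361783296))) (P (nat_lit 0)))) (T.h (T.h (T.h (P (nat_lit 4059346151223066624)) (T.h (P (nat_lit 0)) (M (nat_lit 35169845347711)))) (T.h (P (nat_lit 0)) (P (nat_lit 28335036564160)))) (T.h (P (nat_lit 0)) (M (nat_lit 15472739090591)))))))),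 (T.h (T.h (T.h (P (nat_lit 0)) (T.h (P (nat_lit 5611523352745672723763560448)) (T.h (P (nat_lit 0)) (T.h (M (nat_lit 130208512336740007018495)) (T.h (P (nat_lit 0)) (M (nat_lit 32489238541598719))))))) (T.h (P (nat_lit 0)) (T.h (T.h (P (nat_lit 0)) (T.h (P (nat_lit 58989293015579108573184)) (T.h (P (nat_lit 0)) (M (nat_lit 1666114179006463))))) (T.h (P (nat_lit 0)) (T.h (T.h (P (nat_lit 0)) (P (nat_lit 115278733525024768))) (P (nat_lit 0))))))) (T.h (T.h (P (nat_lit 0)) (T.h (T.h (M (nat_lit 53592014455914041329057791)) (T.h (P (nat_lit 0)) (T.h (P (nat_lit 178828070972899196928)) (T.h (P (nat_lit 0)) (M (nat_lit 858351454991)))))) (T.h (P (nat_lit 0)) (T.h (T.h (M (nat_lit 175397533885151576063)) (T.h (P (nat_lit 0)) (P (nat_lit 18532277689920)))) (T.h (P (nat_lit 0)) (M (nat_lit 1438918448639))))))) (T.h (T.h (T.h (P (nat_lit 0)) (T.h (P (nat_lit 14764572830191832793088)) (T.h (P (nat_lit 0)) (M (nat_lit 115038415315042303))))) (T.h (P (nat_lit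 0)) (T.h (T.h (P (nat_lit 0)) (M (nat_lit 73423234274689023))) (P (nat_lit 0))))) (T.h (T.h (P (nat_lit 0)) (T.h (T.h (P (nat_lit 72060471283495731200)) (T.h (P (nat_lit 0)) (M (nat_lit 95885928699887)))) (T.h (P (nat_lit 0)) (P (nat_lit 39743026870800))))) (T.h (T.h (T.h (P (nat_lit 0)) (P (nat_lit 91456337990483968))) (P (nat_lit 0))) (T.h (T.h (P (nat_lit 0)) (P (nat_lit 60196247186208))) (P (nat_lit 0)))))))), (T.h (T.h (T.h (M (nat_lit 365859056997179494311217774723071)) (T.h (P (nat_lit 0)) (T.h (P (nat_lit 88522244040274686435655680)) (T.h (P (nat_lit 0)) (T.h (M (nat_lit 20539076300668665855)) (T.h (P (nat_lit 0)) (M (nat_lit 39656712426047)))))))) (T.h (P (nat_lit 0)) (T.h (T.h (P (nat_lit 95043781126207988461207552)) (T.h (P (nat_lit 0)) (T.h (P (nat_lit 62140088511780356096)) (T.h (P (nat_lit 0)) (P (nat_lit 376707924910080)))))) (T.h (P (nat_lit 0)) (T.h (T.h (P (nat_lit 45402449796753522688)) (T.h (P (nat_lit 0)) (P (nat_lit 523795312924848))))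 (T.h (P (nat_lit 0)) (P (nat_lit 56467437188544)))))))) (T.h (T.h (P (nat_lit 0)) (T.h (T.h (P (nat_lit 0)) (T.h (P (nat_lit 80005365493780478689280)) (T.h (P (nat_lit 0)) (P (nat_lit 537569748426817536))))) (T.h (P (nat_lit 0)) (T.h (T.h (P (nat_lit 0)) (P (nat_lit 484838152563261440))) (P (nat_lit 0)))))) (T.h (T.h (T.h (M (nat_lit 73227404190882109946068991)) (T.h (P (nat_lit 0)) (T.h (M (nat_lit 299228892824000790527)) (T.h (P (nat_lit 0)) (P (nat_lit 148518079556400)))))) (T.h (P (nat_lit 0)) (T.h (T.h (M (nat_lit 318690438135297343487)) (T.h (P (nat_lit 0)) (M (nat_lit 124747445216159)))) (T.h (P (nat_lit 0)) (P (nat_lit 149472599354640)))))) (T.h (T.h (P (nat_lit 0)) (T.h (T.h (P (nat_lit 0)) (M (nat_lit 168651984377249791))) (P (nat_lit 0)))) (T.h (T.h (T.h (P (nat_lit 4577853697681260544)) (T.h (P (nat_lit 0)) (P (nat_lit 1670783220000)))) (T.h (P (nat_lit 0)) (M (nat_lit 102045009261311)))) (T.h (P (nat_lit 0)) (M (nat_lit 16363685155391)))))))),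 (T.h (T.h (T.h (P (nat_lit 0)) (T.h (P (nat_lit 24272225852187028016332800)) (T.h (P (nat_lit 0)) (T.h (P (nat_lit 71582141870744270798848)) (T.h (P (nat_lit 0)) (P (nat_lit 37728633573834752))))))) (T.h (P (nat_lit 0)) (T.h (T.h (P (nat_lit 0)) (T.h (M (nat_lit 117311579019113568141311)) (T.h (P (nat_lit 0)) (M (nat_lit 274787139956408319))))) (T.h (P (nat_lit 0)) (T.h (T.h (P (nat_lit 0)) (M (nat_lit 261551039730286591))) (P (nat_lit 0))))))) (T.h (T.h (P (nat_lit 0)) (T.h (T.h (M (nat_lit 144121561351623944798470143)) (T.h (P (nat_lit 0)) (M (nat_lit 844488666540939411455)))) (T.h (P (nat_lit 0)) (M (nat_lit 208450746454475014143))))) (T.h (T.h (T.h (P (nat_lit 0)) (T.h (P (nat_lit 420286920340889782976512)) (T.h (P (nat_lit 0)) (M (nat_lit 114711053236994047))))) (T.h (P (nat_lit 0)) (T.h (T.h (P (nat_lit 0)) (P (nat_lit 289775874412838912))) (P (nat_lit 0))))) (T.h (T.h (P (nat_lit 0)) (M (nat_lit 106262758275359440895))) (T.h (T.h (T.h (P (nat_lit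 0)) (M (nat_lit 22389404982935551))) (P (nat_lit 0))) (P (nat_lit 0))))))), (T.h (T.h (P (nat_lit 0)) (T.h (T.h (M (nat_lit 6055445881416343606697918463)) (T.h (P (nat_lit 0)) (T.h (P (nat_lit 30453367126282721034240)) (T.h (P (nat_lit 0)) (M (nat_lit 25690900194066431)))))) (T.h (P (nat_lit 0)) (T.h (T.h (P (nat_lit 113709236032273398104064)) (T.h (P (nat_lit 0)) (P (nat_lit 128491958501376000)))) (T.h (P (nat_lit 0)) (P (nat_lit 101502339024453632))))))) (T.h (T.h (T.h (P (nat_lit 0)) (T.h (P (nat_lit 23435974083932209570381824)) (T.h (P (nat_lit 0)) (T.h (P (nat_lit 69568742831935193088)) (T.h (P (nat_lit 0)) (P (nat_lit 6554927866368))))))) (T.h (P (nat_lit 0)) (T.h (T.h (P (nat_lit 0)) (T.h (M (nat_lit 501728095527132725247)) (T.h (P (nat_lit 0)) (P (nat_lit 13001890599264))))) (T.h (P (nat_lit 0)) (T.h (T.h (P (nat_lit 0)) (M (nat_lit 95270745959327))) (P (nat_lit 0))))))) (T.h (T.h (P (nat_lit 0)) (T.h (T.h (P (nat_lit 236814018518904771444736))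 (T.h (P (nat_lit 0)) (P (nat_lit 226577201689427968)))) (T.h (P (nat_lit 0)) (M (nat_lit 19688161320828927))))) (T.h (T.h (T.h (P (nat_lit 0)) (T.h (M (nat_lit 120330688800300728319)) (T.h (P (nat_lit 0)) (P (nat_lit 14935521193248))))) (T.h (P (nat_lit 0)) (T.h (T.h (P (nat_lit 0)) (M (nat_lit 32116743668927))) (P (nat_lit 0))))) (T.h (T.h (P (nat_lit 0)) (P (nat_lit 94740330665148416))) (T.h (T.h (T.h (P (nat_lit 0)) (M (nat_lit 6261972315983))) (P (nat_lit 0))) (P (nat_lit 0)))))))), (T.h (T.h (P (nat_lit 0)) (T.h (T.h (P (nat_lit 0)) (T.h (P (nat_lit 84474593176145620608483328)) (T.h (P (nat_lit 0)) (T.h (P (nat_lit 67279472290785394688)) (T.h (P (nat_lit 0)) (P (nat_lit 31976606021472))))))) (T.h (P (nat_lit 0)) (T.h (T.h (P (nat_lit 0)) (T.h (P (nat_lit 70989944265199583232)) (T.h (P (nat_lit 0)) (M (nat_lit 2395349943695))))) (T.h (P (nat_lit 0)) (T.h (T.h (P (nat_lit 0)) (P (nat_lit 77442952494384))) (P (nat_lit 0)))))))) (T.h (T.h (T.h (P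 (nat_lit 67185566505562312745714450432)) (T.h (P (nat_lit 0)) (T.h (M (nat_lit 101452401124637860167679)) (T.h (P (nat_lit 0)) (M (nat_lit 75789866623516671)))))) (T.h (P (nat_lit 0)) (T.h (T.h (M (nat_lit 118456684448776665956351)) (T.h (P (nat_lit 0)) (P (nat_lit 368374066637406208)))) (T.h (P (nat_lit 0)) (P (nat_lit 108129119820283904)))))) (T.h (T.h (P (nat_lit 0)) (T.h (T.h (P (nat_lit 0)) (T.h (P (nat_lit 291820826445081477120)) (T.h (P (nat_lit 0)) (M (nat_lit 127505483758511))))) (T.h (P (nat_lit 0)) (T.h (T.h (P (nat_lit 0)) (M (nat_lit 165739260395375))) (P (nat_lit 0)))))) (T.h (T.h (T.h (P (nat_lit 26688500089316853153792)) (T.h (P (nat_lit 0)) (P (nat_lit 91725410818899968)))) (T.h (P (nat_lit 0)) (P (nat_lit 114024985828311040)))) (T.h (T.h (P (nat_lit 0)) (T.h (T.h (P (nat_lit 0)) (M (nat_lit 22262947040159))) (P (nat_lit 0)))) (P (nat_lit 30121564165390336))))))), (T.h (T.h (P (nat_lit 0)) (T.h (T.h (P (nat_lit 582142847540216020055621632))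 (T.h (P (nat_lit 0)) (T.h (M (nat_lit 172720657896388696211455)) (T.h (P (nat_lit 0)) (M (nat_lit 140017003359928319)))))) (T.h (P (nat_lit 0)) (T.h (T.h (M (nat_lit 38136091729712604250111)) (T.h (P (nat_lit 0)) (M (nat_lit 436876660536344575)))) (T.h (P (nat_lit 0)) (M (nat_lit 84116176310534143))))))) (T.h (T.h (T.h (P (nat_lit 0)) (T.h (M (nat_lit 97155157171162051183116287)) (T.h (P (nat_lit 0)) (M (nat_lit 158818508046279376895))))) (T.h (P (nat_lit 0)) (T.h (T.h (P (nat_lit 0)) (M (nat_lit 461555658556035825663))) (P (nat_lit 0))))) (T.h (T.h (P (nat_lit 0)) (T.h (T.h (P (nat_lit 291093967612907788173312)) (T.h (P (nat_lit 0)) (P (nat_lit 210992573506224128)))) (T.h (P (nat_lit 0)) (M (nat_lit 91385267866566655))))) (T.h (T.h (T.h (P (nat_lit 0)) (M (nat_lit 111930520095617449983))) (P (nat_lit 0))) (T.h (T.h (P (nat_lit 0)) (P (nat_lit 32110643246071808))) (P (nat_lit 0)))))))]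
def lP22_37 : List (T ℤ) := [(T.h (T.h (T.h (M (nat_lit 207245689897936580250291383828479)) (T.h (P (nat_lit 0)) (T.h (M (nat_lit 88680154785333492804747263)) (T.h (P (nat_lit 0)) (T.h (M (nat_lit 144581075029341503487)) (T.h (P (nat_lit 0)) (M (nat_lit 70822787459903)))))))) (T.h (P (nat_lit 0)) (T.h (T.h (M (nat_lit 33468533096127654831063039)) (T.h (P (nat_lit 0)) (T.h (P (nat_lit 113789011323028242432)) (T.h (P (nat_lit 0)) (P (nat_lit 74071766674224)))))) (T.h (P (nat_lit 0)) (T.h (T.h (M (nat_lit 16190841554053627903)) (T.h (P (nat_lit 0)) (P (nat_lit 73651491357984)))) (T.h (P (nat_lit 0)) (P (nat_lit 75877149067776)))))))) (T.h (T.h (P (nat_lit 0)) (T.h (T.h (P (nat_lit 0)) (T.h (M (nat_lit 189858369728152055316479)) (T.h (P (nat_lit 0)) (M (nat_lit 246000128182583295))))) (T.h (P (nat_lit 0)) (T.h (T.h (P (nat_lit 0)) (M (nat_lit 47995793195532287))) (P (nat_lit 0)))))) (T.h (T.h (T.h (M (nat_lit 33468533096127654831063039)) (T.h (P (nat_lit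 0)) (T.h (P (nat_lit 113789011323028242432)) (T.h (P (nat_lit 0)) (P (nat_lit 74071766674224)))))) (T.h (P (nat_lit 0)) (T.h (T.h (P (nat_lit 333704964478410424320)) (T.h (P (nat_lit 0)) (P (nat_lit 43934860796544)))) (T.h (P (nat_lit 0)) (P (nat_lit 43617723863328)))))) (T.h (T.h (P (nat_lit 0)) (T.h (T.h (P (nat_lit 0)) (M (nat_lit 47995793195532287))) (P (nat_lit 0)))) (T.h (T.h (T.h (M (nat_lit 16190841554053627903)) (T.h (P (nat_lit 0)) (P (nat_lit 73651491357984)))) (T.h (P (nat_lit 0)) (P (nat_lit 43617723863328)))) (T.h (P (nat_lit 0)) (P (nat_lit 75877149067776)))))))), (T.h (T.h (T.h (P (nat_lit 0)) (T.h (M (nat_lit 29465771449952636056513806335)) (T.h (P (nat_lit 0)) (T.h (M (nat_lit 3651158552685087555583)) (T.h (P (nat_lit 0)) (P (nat_lit 82143803782594560))))))) (T.h (P (nat_lit 0)) (T.h (T.h (P (nat_lit 0)) (T.h (M (nat_lit 35933518468873375973375)) (T.h (P (nat_lit 0)) (M (nat_lit 36771961311526911))))) (T.h (P (nat_lit 0)) (T.h (T.h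 (P (nat_lit 0)) (M (nat_lit 116566425178505215))) (P (nat_lit 0))))))) (T.h (T.h (P (nat_lit 0)) (T.h (T.h (P (nat_lit 120814795054612235002314752)) (T.h (P (nat_lit 0)) (M (nat_lit 179113940030792400895)))) (T.h (P (nat_lit 0)) (M (nat_lit 107041884051731382271))))) (T.h (T.h (T.h (P (nat_lit 0)) (T.h (M (nat_lit 35933518468873375973375)) (T.h (P (nat_lit 0)) (M (nat_lit 36771961311526911))))) (T.h (P (nat_lit 0)) (T.h (T.h (P (nat_lit 0)) (P (nat_lit 206294093546192896))) (P (nat_lit 0))))) (T.h (T.h (P (nat_lit 0)) (M (nat_lit 107041884051731382271))) (T.h (T.h (T.h (P (nat_lit 0)) (M (nat_lit 116566425178505215))) (P (nat_lit 0))) (P (nat_lit 0))))))), (T.h (T.h (P (nat_lit 0)) (T.h (T.h (M (nat_lit 11248579222122020348964634623)) (T.h (P (nat_lit 0)) (T.h (M (nat_lit 110268998513681254842367)) (T.h (P (nat_lit 0)) (M (nat_lit 25337783715266559)))))) (T.h (P (nat_lit 0)) (T.h (T.h (M (nat_lit 47210703150660263608319)) (T.h (P (nat_lit 0)) (M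 (nat_lit 83781578424385535)))) (T.h (P (nat_lit 0)) (M (nat_lit 113838962049777663))))))) (T.h (T.h (T.h (P (nat_lit 0)) (T.h (P (nat_lit 33206684731157785694175232)) (T.h (P (nat_lit 0)) (M (nat_lit 13623357689722568703))))) (T.h (P (nat_lit 0)) (T.h (T.h (P (nat_lit 0)) (P (nat_lit 352605878129642176512))) (P (nat_lit 0))))) (T.h (T.h (P (nat_lit 0)) (T.h (T.h (M (nat_lit 251163479293727797673983)) (T.h (P (nat_lit 0)) (M (nat_lit 22622444845334527)))) (T.h (P (nat_lit 0)) (M (nat_lit 15489028619730943))))) (T.h (T.h (T.h (P (nat_lit 0)) (P (nat_lit 274170867548684288))) (P (nat_lit 0))) (T.h (T.h (P (nat_lit 0)) (P (nat_lit 1355874914500608))) (P (nat_lit 0))))))), (T.h (T.h (P (nat_lit 0)) (T.h (T.h (P (nat_lit 0)) (T.h (P (nat_lit 789217968431012492869632)) (T.h (P (nat_lit 0)) (T.h (M (nat_lit 26309337614833942527)) (T.h (P (nat_lit 0)) (M (nat_lit 11455875289447))))))) (T.h (P (nat_lit 0)) (T.h (T.h (P (nat_lit 0)) (T.h (M (nat_lit 41432928862544592895))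 (T.h (P (nat_lit 0)) (M (nat_lit 60639230622911))))) (T.h (P (nat_lit 0)) (T.h (T.h (P (nat_lit 0)) (M (nat_lit 11610110242455))) (P (nat_lit 0)))))))) (T.h (T.h (T.h (P (nat_lit 7100087156579572138729537536)) (T.h (P (nat_lit 0)) (T.h (P (nat_lit 18488458053379849977856)) (T.h (P (nat_lit 0)) (P (nat_lit 15699326535139328)))))) (T.h (P (nat_lit 0)) (T.h (T.h (P (nat_lit 23223723856033470218240)) (T.h (P (nat_lit 0)) (P (nat_lit 6405622491906048)))) (T.h (P (nat_lit 0)) (P (nat_lit 18968879967698944)))))) (T.h (T.h (P (nat_lit 0)) (T.h (T.h (P (nat_lit 0)) (T.h (M (nat_lit 2144806594884403199)) (T.h (P (nat_lit 0)) (P (nat_lit 28718105432920))))) (T.h (P (nat_lit 0)) (T.h (T.h (P (nat_lit 0)) (P (nat_lit 36776393580296))) (P (nat_lit 0)))))) (T.h (T.h (T.h (M (nat_lit 1237047663726686109695)) (T.h (P (nat_lit 0)) (M (nat_lit 14916144344629247)))) (T.h (P (nat_lit 0)) (M (nat_lit 21981539607871487)))) (T.h (T.h (P (nat_lit 0)) (T.h (T.h (P (nat_lit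 0)) (M (nat_lit 40018750807967))) (P (nat_lit 0)))) (P (nat_lit 5526414397538304))))))), (T.h (T.h (P (nat_lit 0)) (T.h (T.h (P (nat_lit 20984392715099619162048167936)) (T.h (P (nat_lit 0)) (T.h (M (nat_lit 17505257867323948138495)) (T.h (P (nat_lit 0)) (M (nat_lit 93291811182837759)))))) (T.h (P (nat_lit 0)) (T.h (T.h (P (nat_lit 19697029159794532941824)) (T.h (P (nat_lit 0)) (M (nat_lit 33918669731856383)))) (T.h (P (nat_lit 0)) (P (nat_lit 15994898100060160))))))) (T.h (T.h (T.h (P (nat_lit 0)) (T.h (M (nat_lit 23016326667677892480073727)) (T.h (P (nat_lit 0)) (T.h (P (nat_lit 3997095405463535616)) (T.h (P (nat_lit 0)) (P (nat_lit 40339979884256))))))) (T.h (P (nat_lit 0)) (T.h (T.h (P (nat_lit 0)) (T.h (P (nat_lit 29677769012967112704)) (T.h (P (nat_lit 0)) (P (nat_lit 1500860940832))))) (T.h (P (nat_lit 0)) (T.h (T.h (P (nat_lit 0)) (P (nat_lit 50708355223312))) (P (nat_lit 0))))))) (T.h (T.h (P (nat_lit 0)) (T.h (T.h (M (nat_lit 8223931429363535314943))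 (T.h (P (nat_lit 0)) (M (nat_lit 738227850690559)))) (T.h (P (nat_lit 0)) (M (nat_lit 46708690346541055))))) (T.h (T.h (T.h (P (nat_lit 0)) (T.h (M (nat_lit 4386139381002403839)) (T.h (P (nat_lit 0)) (P (nat_lit 6020971354256))))) (T.h (P (nat_lit 0)) (T.h (T.h (P (nat_lit 0)) (M (nat_lit 4144068559599))) (P (nat_lit 0))))) (T.h (T.h (P (nat_lit 0)) (P (nat_lit 26419758957936640))) (T.h (T.h (T.h (P (nat_lit 0)) (M (nat_lit 14450944174591))) (P (nat_lit 0))) (P (nat_lit 0)))))))), (T.h (T.h (P (nat_lit 0)) (T.h (T.h (P (nat_lit 0)) (T.h (M (nat_lit 8616355234777971214516223)) (T.h (P (nat_lit 0)) (T.h (P (nat_lit 53739077057741062144)) (T.h (P (nat_lit 0)) (P (nat_lit 28312305720144))))))) (T.h (P (nat_lit 0)) (T.h (T.h (P (nat_lit 0)) (T.h (M (nat_lit 33920691208863088639)) (T.h (P (nat_lit 0)) (P (nat_lit 166972691656224))))) (T.h (P (nat_lit 0)) (T.h (T.h (P (nat_lit 0)) (P (nat_lit 14274935509968))) (P (nat_lit 0)))))))) (T.h (T.h (T.h (M (nat_lit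 132369288350525572991942655)) (T.h (P (nat_lit 0)) (T.h (P (nat_lit 14534661823462069239808)) (T.h (P (nat_lit 0)) (M (nat_lit 1289211891023871)))))) (T.h (P (nat_lit 0)) (T.h (T.h (P (nat_lit 49960300879624666087424)) (T.h (P (nat_lit 0)) (P (nat_lit 98496929035583488)))) (T.h (P (nat_lit 0)) (P (nat_lit 27722015675285504)))))) (T.h (T.h (P (nat_lit 0)) (T.h (T.h (P (nat_lit 0)) (T.h (P (nat_lit 19834865608059518976)) (T.h (P (nat_lit 0)) (M (nat_lit 80729688598463))))) (T.h (P (nat_lit 0)) (T.h (T.h (P (nat_lit 0)) (M (nat_lit 28022299488335))) (P (nat_lit 0)))))) (T.h (T.h (T.h (P (nat_lit 13122000031705116704768)) (T.h (P (nat_lit 0)) (M (nat_lit 58464951468785663)))) (T.h (P (nat_lit 0)) (M (nat_lit 11210096307503103)))) (T.h (T.h (P (nat_lit 0)) (T.h (T.h (P (nat_lit 0)) (P (nat_lit 60164369042112))) (P (nat_lit 0)))) (P (nat_lit 10357380856741888))))))), (T.h (T.h (P (nat_lit 0)) (T.h (T.h (M (nat_lit 93231747468529857560334827519)) (T.h (P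 (nat_lit 0)) (T.h (P (nat_lit 102181546755126171009024)) (T.h (P (nat_lit 0)) (P (nat_lit 132705287198851072)))))) (T.h (P (nat_lit 0)) (T.h (T.h (M (nat_lit 17601602847486215454719)) (T.h (P (nat_lit 0)) (P (nat_lit 84866619629617152)))) (T.h (P (nat_lit 0)) (M (nat_lit 43625099916804095))))))) (T.h (T.h (T.h (P (nat_lit 0)) (T.h (M (nat_lit 9879755185858590541873151)) (T.h (P (nat_lit 0)) (T.h (P (nat_lit 152618203125334933504)) (T.h (P (nat_lit 0)) (M (nat_lit 57212876793887))))))) (T.h (P (nat_lit 0)) (T.h (T.h (P (nat_lit 0)) (T.h (P (nat_lit 309819872879981887488)) (T.h (P (nat_lit 0)) (P (nat_lit 26136074278080))))) (T.h (P (nat_lit 0)) (T.h (T.h (P (nat_lit 0)) (M (nat_lit 90352406113631))) (P (nat_lit 0))))))) (T.h (T.h (P (nat_lit 0)) (T.h (T.h (M (nat_lit 21278778020393360818175)) (T.h (P (nat_lit 0)) (M (nat_lit 349144993130889215)))) (T.h (P (nat_lit 0)) (M (nat_lit 15182816904003583))))) (T.h (T.h (T.h (P (nat_lit 0)) (T.h (P (nat_lit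 58316767257224544256)) (T.h (P (nat_lit 0)) (M (nat_lit 47195046096623))))) (T.h (P (nat_lit 0)) (T.h (T.h (P (nat_lit 0)) (P (nat_lit 92134916019792))) (P (nat_lit 0))))) (T.h (T.h (P (nat_lit 0)) (M (nat_lit 29771974202621951))) (T.h (T.h (T.h (P (nat_lit 0)) (P (nat_lit 53710110471168))) (P (nat_lit 0))) (P (nat_lit 0)))))))), (T.h (T.h (P (nat_lit 0)) (T.h (T.h (P (nat_lit 0)) (T.h (P (nat_lit 25238555120004385889845248)) (T.h (P (nat_lit 0)) (M (nat_lit 28644698618805092351))))) (T.h (P (nat_lit 0)) (T.h (T.h (P (nat_lit 0)) (M (nat_lit 47869593626469203967))) (P (nat_lit 0)))))) (T.h (T.h (T.h (M (nat_lit 16535973017744251280892624895)) (T.h (P (nat_lit 0)) (T.h (M (nat_lit 288206426600430643445759)) (T.h (P (nat_lit 0)) (M (nat_lit 15829073026285567)))))) (T.h (P (nat_lit 0)) (T.h (T.h (M (nat_lit 121739393643156789526527)) (T.h (P (nat_lit 0)) (M (nat_lit 44442772888485887)))) (T.h (P (nat_lit 0)) (M (nat_lit 73789981571678207)))))) (T.h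 (T.h (P (nat_lit 0)) (T.h (T.h (P (nat_lit 0)) (P (nat_lit 380669420328800223232))) (P (nat_lit 0)))) (T.h (T.h (T.h (M (nat_lit 58208633310122940039167)) (T.h (P (nat_lit 0)) (P (nat_lit 62885167411003392)))) (T.h (P (nat_lit 0)) (M (nat_lit 112040951094476799)))) (T.h (P (nat_lit 0)) (M (nat_lit 135815907689496575)))))))]
def lP22_38 : List (T ℤ) := [(T.h (T.h (T.h (P (nat_lit 0)) (T.h (P (nat_lit 20984392715099619162048167936)) (T.h (P (nat_lit 0)) (T.h (P (nat_lit 19697029159794532941824)) (T.h (P (nat_lit 0)) (P (nat_lit 15994898100060160))))))) (T.h (P (nat_lit 0)) (T.h (T.h (P (nat_lit 0)) (T.h (M (nat_lit 17505257867323948138495)) (T.h (P (nat_lit 0)) (M (nat_lit 33918669731856383))))) (T.h (P (nat_lit 0)) (T.h (T.h (P (nat_lit 0)) (M (nat_lit 93291811182837759))) (P (nat_lit 0))))))) (T.h (T.h (P (nat_lit 0)) (T.h (T.h (M (nat_lit 23016326667677892480073727)) (T.h (P (nat_lit 0)) (T.h (P (nat_lit 29677769012967112704)) (T.h (P (nat_lit 0))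 (P (nat_lit 50708355223312)))))) (T.h (P (nat_lit 0)) (T.h (T.h (P (nat_lit 3997095405463535616)) (T.h (P (nat_lit 0)) (P (nat_lit 1500860940832)))) (T.h (P (nat_lit 0)) (P (nat_lit 40339979884256))))))) (T.h (T.h (T.h (P (nat_lit 0)) (T.h (M (nat_lit 8223931429363535314943)) (T.h (P (nat_lit 0)) (M (nat_lit 46708690346541055))))) (T.h (P (nat_lit 0)) (T.h (T.h (P (nat_lit 0)) (M (nat_lit 738227850690559))) (P (nat_lit 0))))) (T.h (T.h (P (nat_lit 0)) (T.h (T.h (M (nat_lit 4386139381002403839)) (T.h (P (nat_lit 0)) (M (nat_lit 4144068559599)))) (T.h (P (nat_lit 0)) (P (nat_lit 6020971354256))))) (T.h (T.h (T.h (P (nat_lit 0)) (P (nat_lit 26419758957936640))) (P (nat_lit 0))) (T.h (T.h (P (nat_lit 0)) (M (nat_lit 14450944174591))) (P (nat_lit 0)))))))), (T.h (T.h (T.h (M (nat_lit 13243727574427061321021679206399)) (T.h (P (nat_lit 0)) (T.h (M (nat_lit 458093224261596672425983)) (T.h (P (nat_lit 0)) (T.h (P (nat_lit 43578386568565489664)) (T.h (P (nat_lit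 0)) (P (nat_lit 8789193732672)))))))) (T.h (P (nat_lit 0)) (T.h (T.h (M (nat_lit 48396470324636890293075967)) (T.h (P (nat_lit 0)) (T.h (P (nat_lit 168408438911197511680)) (T.h (P (nat_lit 0)) (M (nat_lit 21055996758767)))))) (T.h (P (nat_lit 0)) (T.h (T.h (P (nat_lit 52169738701368197120)) (T.h (P (nat_lit 0)) (M (nat_lit 21055996758767)))) (T.h (P (nat_lit 0)) (P (nat_lit 8789193732672)))))))) (T.h (T.h (P (nat_lit 0)) (T.h (T.h (P (nat_lit 0)) (T.h (M (nat_lit 67881393036871090569215)) (T.h (P (nat_lit 0)) (M (nat_lit 88034040569724927))))) (T.h (P (nat_lit 0)) (T.h (T.h (P (nat_lit 0)) (P (nat_lit 13062960469180416))) (P (nat_lit 0)))))) (T.h (T.h (T.h (P (nat_lit 16578664229391570990792704)) (T.h (P (nat_lit 0)) (T.h (P (nat_lit 52526158785474985984)) (T.h (P (nat_lit 0)) (P (nat_lit 17775325846896)))))) (T.h (P (nat_lit 0)) (T.h (T.h (M (nat_lit 80909574209947041791)) (T.h (P (nat_lit 0)) (P (nat_lit 12074435503008)))) (T.h (P (nat_lit 0))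 (P (nat_lit 17775325846896)))))) (T.h (T.h (P (nat_lit 0)) (T.h (T.h (P (nat_lit 0)) (P (nat_lit 158261587630096384))) (P (nat_lit 0)))) (T.h (T.h (T.h (P (nat_lit 17552020871231569920)) (T.h (P (nat_lit 0)) (P (nat_lit 45145893431616)))) (T.h (P (nat_lit 0)) (P (nat_lit 45145893431616)))) (T.h (P (nat_lit 0)) (P (nat_lit 954741325344)))))))), (T.h (T.h (T.h (P (nat_lit 0)) (T.h (M (nat_lit 23750497267468145476803493887)) (T.h (P (nat_lit 0)) (T.h (M (nat_lit 88579240001019647623167)) (T.h (P (nat_lit 0)) (M (nat_lit 84785619645956095))))))) (T.h (P (nat_lit 0)) (T.h (T.h (P (nat_lit 0)) (T.h (M (nat_lit 40074269084746944348159)) (T.h (P (nat_lit 0)) (P (nat_lit 20310419239223296))))) (T.h (P (nat_lit 0)) (T.h (T.h (P (nat_lit 0)) (P (nat_lit 197422760820899840))) (P (nat_lit 0))))))) (T.h (T.h (P (nat_lit 0)) (T.h (T.h (P (nat_lit 40849003622773885308502016)) (T.h (P (nat_lit 0)) (T.h (M (nat_lit 85393950303710085119)) (T.h (P (nat_lit 0)) (M (nat_lit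 192967807010831)))))) (T.h (P (nat_lit 0)) (T.h (T.h (P (nat_lit 88674402378826383360)) (T.h (P (nat_lit 0)) (M (nat_lit 193539970835423)))) (T.h (P (nat_lit 0)) (M (nat_lit 84423952920671))))))) (T.h (T.h (T.h (P (nat_lit 0)) (T.h (P (nat_lit 201669130040785399447552)) (T.h (P (nat_lit 0)) (P (nat_lit 110201006966620160))))) (T.h (P (nat_lit 0)) (T.h (T.h (P (nat_lit 0)) (P (nat_lit 240338476512886784))) (P (nat_lit 0))))) (T.h (T.h (P (nat_lit 0)) (T.h (T.h (P (nat_lit 87747530647467458560)) (T.h (P (nat_lit 0)) (P (nat_lit 15312153295584)))) (T.h (P (nat_lit 0)) (P (nat_lit 1107098952480))))) (T.h (T.h (T.h (P (nat_lit 0)) (M (nat_lit 195828628248412159))) (P (nat_lit 0))) (T.h (T.h (P (nat_lit 0)) (P (nat_lit 41456688470064))) (P (nat_lit 0)))))))), (T.h (T.h (T.h (P (nat_lit 31532248948022724788922603274240)) (T.h (P (nat_lit 0)) (T.h (M (nat_lit 9672557215362827490951167)) (T.h (P (nat_lit 0)) (P (nat_lit 16294917072251518976)))))) (T.h (P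 (nat_lit 0)) (T.h (T.h (P (nat_lit 59002992844268282008567808)) (T.h (P (nat_lit 0)) (M (nat_lit 401662547894130966527)))) (T.h (P (nat_lit 0)) (P (nat_lit 6774447923674480640)))))) (T.h (T.h (P (nat_lit 0)) (T.h (T.h (P (nat_lit 0)) (T.h (M (nat_lit 45200459760637229137919)) (T.h (P (nat_lit 0)) (P (nat_lit 256737854965612544))))) (T.h (P (nat_lit 0)) (T.h (T.h (P (nat_lit 0)) (P (nat_lit 245911429135663104))) (P (nat_lit 0)))))) (T.h (T.h (T.h (M (nat_lit 52901474879184542097211391)) (T.h (P (nat_lit 0)) (M (nat_lit 143415360814185447423)))) (T.h (P (nat_lit 0)) (M (nat_lit 110995339492930355199)))) (T.h (T.h (P (nat_lit 0)) (T.h (T.h (P (nat_lit 0)) (M (nat_lit 113594165684273151))) (P (nat_lit 0)))) (M (nat_lit 92810436295327219711)))))), (T.h (T.h (P (nat_lit 0)) (T.h (T.h (P (nat_lit 0)) (T.h (P (nat_lit 5538450431683356522446848)) (T.h (P (nat_lit 0)) (T.h (P (nat_lit 56006648096966574080)) (T.h (P (nat_lit 0)) (P (nat_lit 2741942744016)))))))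 (T.h (P (nat_lit 0)) (T.h (T.h (P (nat_lit 0)) (T.h (P (nat_lit 71019701946244136960)) (T.h (P (nat_lit 0)) (P (nat_lit 106333461033312))))) (T.h (P (nat_lit 0)) (T.h (T.h (P (nat_lit 0)) (P (nat_lit 16779312954192))) (P (nat_lit 0)))))))) (T.h (T.h (T.h (M (nat_lit 13643277596547858818052128767)) (T.h (P (nat_lit 0)) (T.h (M (nat_lit 72413172943302078496767)) (T.h (P (nat_lit 0)) (M (nat_lit 81311443225575423)))))) (T.h (P (nat_lit 0)) (T.h (T.h (P (nat_lit 99357904463704478449664)) (T.h (P (nat_lit 0)) (M (nat_lit 40126139474247679)))) (T.h (P (nat_lit 0)) (M (nat_lit 12317872639180799)))))) (T.h (T.h (P (nat_lit 0)) (T.h (T.h (P (nat_lit 0)) (T.h (M (nat_lit 214692018084393254911)) (T.h (P (nat_lit 0)) (P (nat_lit 4724950018272))))) (T.h (P (nat_lit 0)) (T.h (T.h (P (nat_lit 0)) (M (nat_lit 47982439091855))) (P (nat_lit 0)))))) (T.h (T.h (T.h (P (nat_lit 13578388150504331935744)) (T.h (P (nat_lit 0)) (P (nat_lit 104001452826558464)))) (T.h (P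 (nat_lit 0)) (M (nat_lit 25911504250404863)))) (T.h (T.h (P (nat_lit 0)) (T.h (T.h (P (nat_lit 0)) (P (nat_lit 20145618234144))) (P (nat_lit 0)))) (P (nat_lit 62277197655441408))))))), (T.h (T.h (P (nat_lit 0)) (T.h (T.h (M (nat_lit 3204733460397538933508931583)) (T.h (P (nat_lit 0)) (T.h (M (nat_lit 58299763117793543716863)) (T.h (P (nat_lit 0)) (P (nat_lit 118297934862188544)))))) (T.h (P (nat_lit 0)) (T.h (T.h (M (nat_lit 69418260137388823019519)) (T.h (P (nat_lit 0)) (M (nat_lit 33821400822153215)))) (T.h (P (nat_lit 0)) (M (nat_lit 69814345750593535))))))) (T.h (T.h (T.h (P (nat_lit 0)) (T.h (P (nat_lit 10272478443104322537390080)) (T.h (P (nat_lit 0)) (T.h (P (nat_lit 103460306243349905408)) (T.h (P (nat_lit 0)) (M (nat_lit 45849852608687))))))) (T.h (P (nat_lit 0)) (T.h (T.h (P (nat_lit 0)) (T.h (M (nat_lit 25283953647354380287)) (T.h (P (nat_lit 0)) (M (nat_lit 215827605369791))))) (T.h (P (nat_lit 0)) (T.h (T.h (P (nat_lit 0)) (M (nat_lit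 139411251903167))) (P (nat_lit 0))))))) (T.h (T.h (P (nat_lit 0)) (T.h (T.h (P (nat_lit 189533633965619006144512)) (T.h (P (nat_lit 0)) (P (nat_lit 196731980638601216)))) (T.h (P (nat_lit 0)) (P (nat_lit 58042506824548352))))) (T.h (T.h (T.h (P (nat_lit 0)) (T.h (P (nat_lit 92046784355859693568)) (T.h (P (nat_lit 0)) (P (nat_lit 12834186665184))))) (T.h (P (nat_lit 0)) (T.h (T.h (P (nat_lit 0)) (M (nat_lit 3247963595855))) (P (nat_lit 0))))) (T.h (T.h (P (nat_lit 0)) (M (nat_lit 159947440549658623))) (T.h (T.h (T.h (P (nat_lit 0)) (P (nat_lit 32752559787552))) (P (nat_lit 0))) (P (nat_lit 0)))))))), (T.h (T.h (P (nat_lit 0)) (T.h (T.h (P (nat_lit 0)) (T.h (P (nat_lit 16394297414832749627310080)) (T.h (P (nat_lit 0)) (M (nat_lit 304261878522052607999))))) (T.h (P (nat_lit 0)) (T.h (T.h (P (nat_lit 0)) (M (nat_lit 298934512071659749375))) (P (nat_lit 0)))))) (T.h (T.h (T.h (P (nat_lit 13246153738169170192895049728)) (T.h (P (nat_lit 0)) (T.h (P (nat_lit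 191777241764567416045568)) (T.h (P (nat_lit 0)) (P (nat_lit 28485611734237184)))))) (T.h (P (nat_lit 0)) (T.h (T.h (P (nat_lit 166204689587340104957952)) (T.h (P (nat_lit 0)) (P (nat_lit 336235547090026496)))) (T.h (P (nat_lit 0)) (P (nat_lit 59752861649862656)))))) (T.h (T.h (P (nat_lit 0)) (T.h (T.h (P (nat_lit 0)) (M (nat_lit 71002780518664110079))) (P (nat_lit 0)))) (T.h (T.h (T.h (P (nat_lit 22282810127419298545664)) (T.h (P (nat_lit 0)) (M (nat_lit 13766620995387391)))) (T.h (P (nat_lit 0)) (P (nat_lit 92866947705438208)))) (T.h (P (nat_lit 0)) (P (nat_lit 5455158084206592))))))), (T.h (T.h (T.h (P (nat_lit 0)) (T.h (M (nat_lit 72685983661459251017040265215)) (T.h (P (nat_lit 0)) (T.h (P (nat_lit 1559377016144609148928)) (T.h (P (nat_lit 0)) (M (nat_lit 28653826021441535))))))) (T.h (P (nat_lit 0)) (T.h (T.h (P (nat_lit 0)) (T.h (P (nat_lit 83956052722079571640320)) (T.h (P (nat_lit 0)) (P (nat_lit 30734799568240640))))) (T.h (P (nat_lit 0))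 (T.h (T.h (P (nat_lit 0)) (P (nat_lit 53580461240139776))) (P (nat_lit 0))))))) (T.h (T.h (P (nat_lit 0)) (T.h (T.h (M (nat_lit 40456280365528153312985087)) (T.h (P (nat_lit 0)) (T.h (P (nat_lit 369929869536337592320)) (T.h (P (nat_lit 0)) (M (nat_lit 36795851005967)))))) (T.h (P (nat_lit 0)) (T.h (T.h (P (nat_lit 167404106989858455552)) (T.h (P (nat_lit 0)) (P (nat_lit 3848439743712)))) (T.h (P (nat_lit 0)) (M (nat_lit 18638776481903))))))) (T.h (T.h (T.h (P (nat_lit 0)) (T.h (M (nat_lit 33414274095559754121215)) (T.h (P (nat_lit 0)) (M (nat_lit 67341317046075391))))) (T.h (P (nat_lit 0)) (T.h (T.h (P (nat_lit 0)) (M (nat_lit 392751489005174783))) (P (nat_lit 0))))) (T.h (T.h (P (nat_lit 0)) (T.h (T.h (P (nat_lit 62616020965616779264)) (T.h (P (nat_lit 0)) (P (nat_lit 73574799128352)))) (T.h (P (nat_lit 0)) (M (nat_lit 35467958383919))))) (T.h (T.h (T.h (P (nat_lit 0)) (P (nat_lit 6109213496131584))) (P (nat_lit 0))) (T.h (T.h (P (nat_lit 0)) (P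 (nat_lit 45005981788656))) (P (nat_lit 0))))))))]
def lP22_39 : List (T ℤ) := [(T.h (T.h (T.h (P (nat_lit 19245058767597118072917487255552)) (T.h (P (nat_lit 0)) (T.h (P (nat_lit 59825625941170914374713344)) (T.h (P (nat_lit 0)) (P (nat_lit 12951678390250766336)))))) (T.h (P (nat_lit 0)) (T.h (T.h (M (nat_lit 8849924118460195124805631)) (T.h (P (nat_lit 0)) (M (nat_lit 218013063006075748351)))) (T.h (P (nat_lit 0)) (P (nat_lit 22472147538827804672)))))) (T.h (T.h (P (nat_lit 0)) (T.h (T.h (P (nat_lit 0)) (T.h (M (nat_lit 171507145602860729761791)) (T.h (P (nat_lit 0)) (P (nat_lit 189747104945602560))))) (T.h (P (nat_lit 0)) (T.h (T.h (P (nat_lit 0)) (P (nat_lit 200573530775552000))) (P (nat_lit 0)))))) (T.h (T.h (T.h (M (nat_lit 49064869503036694296788991)) (T.h (P (nat_lit 0)) (M (nat_lit 45880012597962473471)))) (T.h (P (nat_lit 0)) (M (nat_lit 78300033919217565695)))) (T.h (T.h (P (nat_lit 0)) (T.h (T.h (P (nat_lit 0)) (M (nat_lit 11742295132012543)))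 (P (nat_lit 0)))) (M (nat_lit 58062886536468234239)))))), (T.h (T.h (P (nat_lit 0)) (T.h (T.h (P (nat_lit 0)) (T.h (P (nat_lit 33206684731157785694175232)) (T.h (P (nat_lit 0)) (M (nat_lit 13623357689722568703))))) (T.h (P (nat_lit 0)) (T.h (T.h (P (nat_lit 0)) (P (nat_lit 274170867548684288))) (P (nat_lit 0)))))) (T.h (T.h (T.h (M (nat_lit 11248579222122020348964634623)) (T.h (P (nat_lit 0)) (T.h (M (nat_lit 110268998513681254842367)) (T.h (P (nat_lit 0)) (M (nat_lit 25337783715266559)))))) (T.h (P (nat_lit 0)) (T.h (T.h (M (nat_lit 251163479293727797673983)) (T.h (P (nat_lit 0)) (M (nat_lit 22622444845334527)))) (T.h (P (nat_lit 0)) (P (nat_lit 1355874914500608)))))) (T.h (T.h (P (nat_lit 0)) (T.h (T.h (P (nat_lit 0)) (P (nat_lit 352605878129642176512))) (P (nat_lit 0)))) (T.h (T.h (T.h (M (nat_lit 47210703150660263608319)) (T.h (P (nat_lit 0)) (M (nat_lit 83781578424385535)))) (T.h (P (nat_lit 0)) (M (nat_lit 15489028619730943)))) (T.h (P (nat_lit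 0)) (M (nat_lit 113838962049777663))))))), (T.h (T.h (T.h (P (nat_lit 105277720930526967885496854773760)) (T.h (P (nat_lit 0)) (T.h (M (nat_lit 1622784108497740811468799)) (T.h (P (nat_lit 0)) (T.h (P (nat_lit 8780194688519897088)) (T.h (P (nat_lit 0)) (P (nat_lit 56203593949792)))))))) (T.h (P (nat_lit 0)) (T.h (T.h (M (nat_lit 1622784108497740811468799)) (T.h (P (nat_lit 0)) (T.h (M (nat_lit 172485376140564758527)) (T.h (P (nat_lit 0)) (M (nat_lit 373272336818415)))))) (T.h (P (nat_lit 0)) (T.h (T.h (P (nat_lit 8780194688519897088)) (T.h (P (nat_lit 0)) (M (nat_lit 373272336818415)))) (T.h (P (nat_lit 0)) (P (nat_lit 56203593949792)))))))) (T.h (T.h (P (nat_lit 0)) (T.h (T.h (P (nat_lit 0)) (T.h (P (nat_lit 20667592922045440065536)) (T.h (P (nat_lit 0)) (P (nat_lit 47636208037494784))))) (T.h (P (nat_lit 0)) (T.h (T.h (P (nat_lit 0)) (P (nat_lit 47636208037494784))) (P (nat_lit 0)))))) (T.h (T.h (T.h (M (nat_lit 9691530957154133055897599)) (T.h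 (P (nat_lit 0)) (T.h (M (nat_lit 5543786603966627839)) (T.h (P (nat_lit 0)) (M (nat_lit 104478078703183)))))) (T.h (P (nat_lit 0)) (T.h (T.h (M (nat_lit 5543786603966627839)) (T.h (P (nat_lit 0)) (P (nat_lit 5095877684832)))) (T.h (P (nat_lit 0)) (M (nat_lit 104478078703183)))))) (T.h (T.h (P (nat_lit 0)) (T.h (T.h (P (nat_lit 0)) (P (nat_lit 41585837830832128))) (P (nat_lit 0)))) (T.h (T.h (T.h (P (nat_lit 1752219728941678592)) (T.h (P (nat_lit 0)) (P (nat_lit 20467126355184)))) (T.h (P (nat_lit 0)) (P (nat_lit 20467126355184)))) (T.h (P (nat_lit 0)) (P (nat_lit 2914549128000)))))))), (T.h (T.h (T.h (P (nat_lit 0)) (T.h (P (nat_lit 393612880355767449343229952)) (T.h (P (nat_lit 0)) (T.h (P (nat_lit 15408104815434917740544)) (T.h (P (nat_lit 0)) (M (nat_lit 80612478460854271))))))) (T.h (P (nat_lit 0)) (T.h (T.h (P (nat_lit 0)) (T.h (P (nat_lit 46372124084709401559040)) (T.h (P (nat_lit 0)) (P (nat_lit 401020424622800896))))) (T.h (P (nat_lit 0))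 (T.h (T.h (P (nat_lit 0)) (P (nat_lit 140257529750159360))) (P (nat_lit 0))))))) (T.h (T.h (P (nat_lit 0)) (T.h (T.h (M (nat_lit 5697481985329626773192703)) (T.h (P (nat_lit 0)) (T.h (M (nat_lit 64339317300710604799)) (T.h (P (nat_lit 0)) (M (nat_lit 20837185961087)))))) (T.h (P (nat_lit 0)) (T.h (T.h (P (nat_lit 5846604613603557376)) (T.h (P (nat_lit 0)) (P (nat_lit 29719564744560)))) (T.h (P (nat_lit 0)) (M (nat_lit 11562789853775))))))) (T.h (T.h (T.h (P (nat_lit 0)) (T.h (M (nat_lit 33555511882046685315071)) (T.h (P (nat_lit 0)) (P (nat_lit 134391637320007680))))) (T.h (P (nat_lit 0)) (T.h (T.h (P (nat_lit 0)) (P (nat_lit 59963242679304192))) (P (nat_lit 0))))) (T.h (T.h (P (nat_lit 0)) (T.h (T.h (M (nat_lit 32832337339857502207)) (T.h (P (nat_lit 0)) (M (nat_lit 8955757893743)))) (T.h (P (nat_lit 0)) (P (nat_lit 22388334389568))))) (T.h (T.h (T.h (P (nat_lit 0)) (M (nat_lit 22492782030323711))) (P (nat_lit 0))) (T.h (T.h (P (nat_lit 0)) (P (nat_lit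 8815688868816))) (P (nat_lit 0)))))))), (T.h (T.h (T.h (M (nat_lit 301930430976752772082627178921983)) (T.h (P (nat_lit 0)) (T.h (M (nat_lit 34278694039064037843533823)) (T.h (P (nat_lit 0)) (T.h (M (nat_lit 10152285000142159871)) (T.h (P (nat_lit 0)) (M (nat_lit 48090083543279)))))))) (T.h (P (nat_lit 0)) (T.h (T.h (M (nat_lit 40800231124997339869085695)) (T.h (P (nat_lit 0)) (T.h (P (nat_lit 302242232728647892992)) (T.h (P (nat_lit 0)) (P (nat_lit 871940962933920)))))) (T.h (P (nat_lit 0)) (T.h (T.h (M (nat_lit 76093811097564348415)) (T.h (P (nat_lit 0)) (P (nat_lit 724853574919152)))) (T.h (P (nat_lit 0)) (M (nat_lit 144214233157871)))))))) (T.h (T.h (P (nat_lit 0)) (T.h (T.h (P (nat_lit 0)) (T.h (M (nat_lit 15720829254011153547263)) (T.h (P (nat_lit 0)) (M (nat_lit 220461292208062463))))) (T.h (P (nat_lit 0)) (T.h (T.h (P (nat_lit 0)) (M (nat_lit 167729696344506367))) (P (nat_lit 0)))))) (T.h (T.h (T.h (P (nat_lit 33805788263958837123350528))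 (T.h (P (nat_lit 0)) (T.h (P (nat_lit 18946603044034314240)) (T.h (P (nat_lit 0)) (P (nat_lit 236063081848752)))))) (T.h (P (nat_lit 0)) (T.h (T.h (P (nat_lit 38408148355330867200)) (T.h (P (nat_lit 0)) (P (nat_lit 15425047489248)))) (T.h (P (nat_lit 0)) (P (nat_lit 235108562050512)))))) (T.h (T.h (P (nat_lit 0)) (T.h (T.h (P (nat_lit 0)) (M (nat_lit 101880128713752575))) (P (nat_lit 0)))) (T.h (T.h (T.h (M (nat_lit 10211001621526085631)) (T.h (P (nat_lit 0)) (M (nat_lit 97449469217855)))) (T.h (P (nat_lit 0)) (P (nat_lit 6266323263456)))) (T.h (P (nat_lit 0)) (P (nat_lit 12869594454240)))))))), (T.h (T.h (T.h (P (nat_lit 0)) (T.h (P (nat_lit 1946743424394142825588981760)) (T.h (P (nat_lit 0)) (T.h (M (nat_lit 34797644328555486642175)) (T.h (P (nat_lit 0)) (P (nat_lit 78678102028189696))))))) (T.h (P (nat_lit 0)) (T.h (T.h (P (nat_lit 0)) (T.h (M (nat_lit 224637929717713661329407)) (T.h (P (nat_lit 0)) (M (nat_lit 799607449830686719))))) (T.h (P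 (nat_lit 0)) (T.h (T.h (P (nat_lit 0)) (M (nat_lit 309328723905347583))) (P (nat_lit 0))))))) (T.h (T.h (P (nat_lit 0)) (T.h (T.h (P (nat_lit 31209864530776429892206592)) (T.h (P (nat_lit 0)) (P (nat_lit 423209702805559312384)))) (T.h (P (nat_lit 0)) (P (nat_lit 31772967205097963520))))) (T.h (T.h (T.h (P (nat_lit 0)) (T.h (M (nat_lit 118656699405318345457663)) (T.h (P (nat_lit 0)) (M (nat_lit 182651378143035391))))) (T.h (P (nat_lit 0)) (T.h (T.h (P (nat_lit 0)) (M (nat_lit 69917546504617983))) (P (nat_lit 0))))) (T.h (T.h (P (nat_lit 0)) (P (nat_lit 10321832204828672000))) (T.h (T.h (T.h (P (nat_lit 0)) (M (nat_lit 16759833923158015))) (P (nat_lit 0))) (P (nat_lit 0))))))), (T.h (T.h (P (nat_lit 0)) (T.h (T.h (M (nat_lit 3456173834636085084861497343)) (T.h (P (nat_lit 0)) (T.h (P (nat_lit 79018735785822008639488)) (T.h (P (nat_lit 0)) (P (nat_lit 173742578925305856)))))) (T.h (P (nat_lit 0)) (T.h (T.h (P (nat_lit 796842188950915252224)) (T.h (P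 (nat_lit 0)) (P (nat_lit 358151747026976768)))) (T.h (P (nat_lit 0)) (M (nat_lit 79130026373513215))))))) (T.h (T.h (T.h (P (nat_lit 0)) (T.h (M (nat_lit 10655501998343211475533823)) (T.h (P (nat_lit 0)) (T.h (P (nat_lit 14014821978452525056)) (T.h (P (nat_lit 0)) (M (nat_lit 11562789853775))))))) (T.h (P (nat_lit 0)) (T.h (T.h (P (nat_lit 0)) (T.h (M (nat_lit 74645592273925963775)) (T.h (P (nat_lit 0)) (P (nat_lit 29719564744560))))) (T.h (P (nat_lit 0)) (T.h (T.h (P (nat_lit 0)) (M (nat_lit 20837185961087))) (P (nat_lit 0))))))) (T.h (T.h (P (nat_lit 0)) (T.h (T.h (M (nat_lit 8138862492074314301439)) (T.h (P (nat_lit 0)) (P (nat_lit 43116961213710336)))) (T.h (P (nat_lit 0)) (P (nat_lit 135300099771203584))))) (T.h (T.h (T.h (P (nat_lit 0)) (T.h (P (nat_lit 12914465284454088704)) (T.h (P (nat_lit 0)) (P (nat_lit 22388334389568))))) (T.h (P (nat_lit 0)) (T.h (T.h (P (nat_lit 0)) (M (nat_lit 8955757893743))) (P (nat_lit 0))))) (T.h (T.h (P (nat_lit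 0)) (M (nat_lit 5272400747659263))) (T.h (T.h (T.h (P (nat_lit 0)) (P (nat_lit 8815688868816))) (P (nat_lit 0))) (P (nat_lit 0)))))))), (T.h (T.h (P (nat_lit 0)) (T.h (T.h (P (nat_lit 0)) (T.h (P (nat_lit 26414870613408005553651712)) (T.h (P (nat_lit 0)) (T.h (P (nat_lit 17283595094275915776)) (T.h (P (nat_lit 0)) (P (nat_lit 68505149127168))))))) (T.h (P (nat_lit 0)) (T.h (T.h (P (nat_lit 0)) (T.h (P (nat_lit 17283595094275915776)) (T.h (P (nat_lit 0)) (P (nat_lit 31906044562176))))) (T.h (P (nat_lit 0)) (T.h (T.h (P (nat_lit 0)) (P (nat_lit 68505149127168))) (P (nat_lit 0)))))))) (T.h (T.h (T.h (M (nat_lit 15405244956953180929827799039)) (T.h (P (nat_lit 0)) (T.h (P (nat_lit 58377955448778397843456)) (T.h (P (nat_lit 0)) (P (nat_lit 25069513072984064)))))) (T.h (P (nat_lit 0)) (T.h (T.h (P (nat_lit 58377955448778397843456)) (T.h (P (nat_lit 0)) (M (nat_lit 20279104758906879)))) (T.h (P (nat_lit 0)) (P (nat_lit 25069513072984064)))))) (T.h (T.h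 (P (nat_lit 0)) (T.h (T.h (P (nat_lit 0)) (T.h (M (nat_lit 319395816159282462719)) (T.h (P (nat_lit 0)) (M (nat_lit 38582463213215))))) (T.h (P (nat_lit 0)) (T.h (T.h (P (nat_lit 0)) (M (nat_lit 38582463213215))) (P (nat_lit 0)))))) (T.h (T.h (T.h (P (nat_lit 34299267896437284798464)) (T.h (P (nat_lit 0)) (M (nat_lit 50331468078694399)))) (T.h (P (nat_lit 0)) (M (nat_lit 50331468078694399)))) (T.h (T.h (P (nat_lit 0)) (T.h (T.h (P (nat_lit 0)) (P (nat_lit 93337690111776))) (P (nat_lit 0)))) (P (nat_lit 25436756187906048)))))))]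
def lP22_40 : List (T ℤ) := [(T.h (T.h (P (nat_lit 0)) (T.h (T.h (P (nat_lit 1388872802706113833549692928)) (T.h (P (nat_lit 0)) (T.h (M (nat_lit 169228850840438533259263)) (T.h (P (nat_lit 0)) (M (nat_lit 430862760275705855)))))) (T.h (P (nat_lit 0)) (T.h (T.h (P (nat_lit 74920589271901388406784)) (T.h (P (nat_lit 0)) (M (nat_lit 637517929250750463)))) (T.h (P (nat_lit 0)) (P (nat_lit 200522911912558592))))))) (T.h (T.h (T.h (P (nat_lit 0)) (T.h (M (nat_lit 15756539649685463723147263)) (T.h (P (nat_lit 0)) (M (nat_lit 17859271203097673727))))) (T.h (P (nat_lit 0)) (T.h (T.h (P (nat_lit 0)) (P (nat_lit 40276694820655726592))) (P (nat_lit 0))))) (T.h (T.h (P (nat_lit 0)) (T.h (T.h (P (nat_lit 10536253322663649345536)) (T.h (P (nat_lit 0)) (P (nat_lit 8865754401996800)))) (T.h (P (nat_lit 0)) (M (nat_lit 205977163513462783))))) (T.h (T.h (T.h (P (nat_lit 0)) (P (nat_lit 15989594025086681088))) (P (nat_lit 0))) (T.h (T.h (P (nat_lit 0)) (M (nat_lit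 71259882152165375))) (P (nat_lit 0))))))), (T.h (T.h (T.h (M (nat_lit 202020782321028235702046130438143)) (T.h (P (nat_lit 0)) (T.h (M (nat_lit 42337534151861017088360447)) (T.h (P (nat_lit 0)) (T.h (M (nat_lit 68615088356747902975)) (T.h (P (nat_lit 0)) (M (nat_lit 87410689135199)))))))) (T.h (P (nat_lit 0)) (T.h (T.h (M (nat_lit 35815997065927715062808575)) (T.h (P (nat_lit 0)) (T.h (P (nat_lit 132043227812096638976)) (T.h (P (nat_lit 0)) (P (nat_lit 352154342018448)))))) (T.h (P (nat_lit 0)) (T.h (T.h (M (nat_lit 2673562259325714431)) (T.h (P (nat_lit 0)) (P (nat_lit 499241730033216)))) (T.h (P (nat_lit 0)) (P (nat_lit 8713460479392)))))))) (T.h (T.h (P (nat_lit 0)) (T.h (T.h (P (nat_lit 0)) (T.h (P (nat_lit 9071748710483349209088)) (T.h (P (nat_lit 0)) (M (nat_lit 125759308696616959))))) (T.h (P (nat_lit 0)) (T.h (T.h (P (nat_lit 0)) (M (nat_lit 178490904560173055))) (P (nat_lit 0)))))) (T.h (T.h (T.h (P (nat_lit 23366883707900872915681280))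 (T.h (P (nat_lit 0)) (T.h (P (nat_lit 34550124118083108864)) (T.h (P (nat_lit 0)) (P (nat_lit 133240626359424)))))) (T.h (P (nat_lit 0)) (T.h (T.h (P (nat_lit 15088578806786555904)) (T.h (P (nat_lit 0)) (P (nat_lit 14513604933888)))) (T.h (P (nat_lit 0)) (P (nat_lit 134195146157664)))))) (T.h (T.h (P (nat_lit 0)) (T.h (T.h (P (nat_lit 0)) (M (nat_lit 63102135297736703))) (P (nat_lit 0)))) (T.h (T.h (T.h (M (nat_lit 7131341328276783103)) (T.h (P (nat_lit 0)) (P (nat_lit 26406644853168)))) (T.h (P (nat_lit 0)) (M (nat_lit 77309147628143)))) (T.h (P (nat_lit 0)) (P (nat_lit 14645707618464)))))))), (T.h (T.h (T.h (P (nat_lit 0)) (T.h (M (nat_lit 1043116937690069580088606719)) (T.h (P (nat_lit 0)) (T.h (P (nat_lit 61764923110046956519424)) (T.h (P (nat_lit 0)) (P (nat_lit 114189388980387840))))))) (T.h (P (nat_lit 0)) (T.h (T.h (P (nat_lit 0)) (T.h (M (nat_lit 101464149854981390860287)) (T.h (P (nat_lit 0)) (M (nat_lit 293207130200866815))))) (T.h (P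 (nat_lit 0)) (T.h (T.h (P (nat_lit 0)) (M (nat_lit 273430289931173887))) (P (nat_lit 0))))))) (T.h (T.h (P (nat_lit 0)) (T.h (T.h (M (nat_lit 18488068673796538873413631)) (T.h (P (nat_lit 0)) (M (nat_lit 3225623507505250303)))) (T.h (P (nat_lit 0)) (M (nat_lit 3412449340189310975))))) (T.h (T.h (T.h (P (nat_lit 0)) (T.h (P (nat_lit 12925985027821664206848)) (T.h (P (nat_lit 0)) (M (nat_lit 121260396594069503))))) (T.h (P (nat_lit 0)) (T.h (T.h (P (nat_lit 0)) (P (nat_lit 21950935167303680))) (P (nat_lit 0))))) (T.h (T.h (P (nat_lit 0)) (P (nat_lit 13067073905649254400))) (T.h (T.h (T.h (P (nat_lit 0)) (M (nat_lit 70522602099113983))) (P (nat_lit 0))) (P (nat_lit 0))))))), (T.h (T.h (P (nat_lit 0)) (T.h (T.h (M (nat_lit 485246316002040588049317887)) (T.h (P (nat_lit 0)) (T.h (M (nat_lit 156873228732256518930431)) (T.h (P (nat_lit 0)) (M (nat_lit 151896253560815615)))))) (T.h (P (nat_lit 0)) (T.h (T.h (M (nat_lit 47953310490409918529535)) (T.h (P (nat_lit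 0)) (M (nat_lit 455296650780803071)))) (T.h (P (nat_lit 0)) (M (nat_lit 7655420903981055))))))) (T.h (T.h (T.h (P (nat_lit 0)) (T.h (P (nat_lit 28478335506665354741940224)) (T.h (P (nat_lit 0)) (P (nat_lit 46219789068006326272))))) (T.h (P (nat_lit 0)) (T.h (T.h (P (nat_lit 0)) (P (nat_lit 379707384477398335488))) (P (nat_lit 0))))) (T.h (T.h (P (nat_lit 0)) (T.h (T.h (M (nat_lit 116266967700160330596351)) (T.h (P (nat_lit 0)) (M (nat_lit 56832365739311103)))) (T.h (P (nat_lit 0)) (M (nat_lit 97934611223642111))))) (T.h (T.h (T.h (P (nat_lit 0)) (P (nat_lit 7399312085391245312))) (P (nat_lit 0))) (T.h (T.h (P (nat_lit 0)) (M (nat_lit 16022553870106623))) (P (nat_lit 0))))))), (T.h (T.h (P (nat_lit 0)) (T.h (T.h (P (nat_lit 0)) (T.h (M (nat_lit 6097722714123760383819775)) (T.h (P (nat_lit 0)) (T.h (P (nat_lit 10996160748979224576)) (T.h (P (nat_lit 0)) (P (nat_lit 11532992765952))))))) (T.h (P (nat_lit 0)) (T.h (T.h (P (nat_lit 0)) (T.h (P (nat_lit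 27470699705940312064)) (T.h (P (nat_lit 0)) (P (nat_lit 60639230622912))))) (T.h (P (nat_lit 0)) (T.h (T.h (P (nat_lit 0)) (P (nat_lit 11532992765952))) (P (nat_lit 0)))))))) (T.h (T.h (T.h (M (nat_lit 1772719709271470377478914047)) (T.h (P (nat_lit 0)) (T.h (M (nat_lit 6654861781713964498943)) (T.h (P (nat_lit 0)) (P (nat_lit 29605169527062528)))))) (T.h (P (nat_lit 0)) (T.h (T.h (M (nat_lit 14350093689450101997567)) (T.h (P (nat_lit 0)) (M (nat_lit 5990814857822207)))) (T.h (P (nat_lit 0)) (P (nat_lit 28449082768031744)))))) (T.h (T.h (P (nat_lit 0)) (T.h (T.h (P (nat_lit 0)) (T.h (P (nat_lit 12972542331520548864)) (T.h (P (nat_lit 0)) (M (nat_lit 32747249506607))))) (T.h (P (nat_lit 0)) (T.h (T.h (P (nat_lit 0)) (M (nat_lit 32747249506607))) (P (nat_lit 0)))))) (T.h (T.h (T.h (M (nat_lit 10151113502918493339647)) (T.h (P (nat_lit 0)) (M (nat_lit 5931687478722559)))) (T.h (P (nat_lit 0)) (P (nat_lit 6165034883907584)))) (T.h (T.h (P (nat_lit 0))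 (T.h (T.h (P (nat_lit 0)) (P (nat_lit 40018750807968))) (P (nat_lit 0)))) (M (nat_lit 7951400904425471))))))), (T.h (T.h (P (nat_lit 0)) (T.h (T.h (M (nat_lit 20545763807070606543294562303)) (T.h (P (nat_lit 0)) (T.h (P (nat_lit 18225494033046599368704)) (T.h (P (nat_lit 0)) (P (nat_lit 79124825958711296)))))) (T.h (P (nat_lit 0)) (T.h (T.h (M (nat_lit 19160979863630824603647)) (T.h (P (nat_lit 0)) (P (nat_lit 54131820061376512)))) (T.h (P (nat_lit 0)) (M (nat_lit 14971273895362559))))))) (T.h (T.h (T.h (P (nat_lit 0)) (T.h (P (nat_lit 30576525179669562771111936)) (T.h (P (nat_lit 0)) (T.h (M (nat_lit 14785903864523522047)) (T.h (P (nat_lit 0)) (M (nat_lit 38574100311983))))))) (T.h (P (nat_lit 0)) (T.h (T.h (P (nat_lit 0)) (T.h (M (nat_lit 60109996656355704831)) (T.h (P (nat_lit 0)) (P (nat_lit 22287634534368))))) (T.h (P (nat_lit 0)) (T.h (T.h (P (nat_lit 0)) (M (nat_lit 53556555107663))) (P (nat_lit 0))))))) (T.h (T.h (P (nat_lit 0)) (T.h (T.h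 (P (nat_lit 12135496075166393303040)) (T.h (P (nat_lit 0)) (P (nat_lit 43606495874285568)))) (T.h (P (nat_lit 0)) (P (nat_lit 52158500142071808))))) (T.h (T.h (T.h (P (nat_lit 0)) (T.h (M (nat_lit 4299253708392235007)) (T.h (P (nat_lit 0)) (M (nat_lit 11727087712703))))) (T.h (P (nat_lit 0)) (T.h (T.h (P (nat_lit 0)) (P (nat_lit 18560116891440))) (P (nat_lit 0))))) (T.h (T.h (P (nat_lit 0)) (M (nat_lit 35881187698753535))) (T.h (T.h (T.h (P (nat_lit 0)) (P (nat_lit 8704128682512))) (P (nat_lit 0))) (P (nat_lit 0)))))))), (T.h (T.h (P (nat_lit 0)) (T.h (T.h (P (nat_lit 0)) (T.h (M (nat_lit 2659624865460651913379839)) (T.h (P (nat_lit 0)) (M (nat_lit 14281166475124277247))))) (T.h (P (nat_lit 0)) (T.h (T.h (P (nat_lit 0)) (M (nat_lit 19608532925517135871))) (P (nat_lit 0)))))) (T.h (T.h (T.h (M (nat_lit 10614761242930332693178613759)) (T.h (P (nat_lit 0)) (T.h (M (nat_lit 47396560525827472621567)) (T.h (P (nat_lit 0)) (M (nat_lit 63546177339752447))))))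 (T.h (P (nat_lit 0)) (T.h (T.h (M (nat_lit 21824008348600161533951)) (T.h (P (nat_lit 0)) (M (nat_lit 22235135677235199)))) (T.h (P (nat_lit 0)) (M (nat_lit 94813427255377919)))))) (T.h (T.h (P (nat_lit 0)) (T.h (T.h (P (nat_lit 0)) (P (nat_lit 17235806462521901056))) (P (nat_lit 0)))) (T.h (T.h (T.h (P (nat_lit 390231007182503018496)) (T.h (P (nat_lit 0)) (P (nat_lit 96706364304392192)))) (T.h (P (nat_lit 0)) (M (nat_lit 9927204396433407)))) (T.h (P (nat_lit 0)) (M (nat_lit 19551959132831743))))))), (T.h (T.h (T.h (P (nat_lit 0)) (T.h (M (nat_lit 20545763807070606543294562303)) (T.h (P (nat_lit 0)) (T.h (M (nat_lit 19160979863630824603647)) (T.h (P (nat_lit 0)) (M (nat_lit 14971273895362559))))))) (T.h (P (nat_lit 0)) (T.h (T.h (P (nat_lit 0)) (T.h (P (nat_lit 18225494033046599368704)) (T.h (P (nat_lit 0)) (P (nat_lit 54131820061376512))))) (T.h (P (nat_lit 0)) (T.h (T.h (P (nat_lit 0)) (P (nat_lit 79124825958711296))) (P (nat_lit 0))))))) (T.h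 (T.h (P (nat_lit 0)) (T.h (T.h (P (nat_lit 30576525179669562771111936)) (T.h (P (nat_lit 0)) (T.h (M (nat_lit 60109996656355704831)) (T.h (P (nat_lit 0)) (M (nat_lit 53556555107663)))))) (T.h (P (nat_lit 0)) (T.h (T.h (M (nat_lit 14785903864523522047)) (T.h (P (nat_lit 0)) (P (nat_lit 22287634534368)))) (T.h (P (nat_lit 0)) (M (nat_lit 38574100311983))))))) (T.h (T.h (T.h (P (nat_lit 0)) (T.h (P (nat_lit 12135496075166393303040)) (T.h (P (nat_lit 0)) (P (nat_lit 52158500142071808))))) (T.h (P (nat_lit 0)) (T.h (T.h (P (nat_lit 0)) (P (nat_lit 43606495874285568))) (P (nat_lit 0))))) (T.h (T.h (P (nat_lit 0)) (T.h (T.h (M (nat_lit 4299253708392235007)) (T.h (P (nat_lit 0)) (P (nat_lit 18560116891440)))) (T.h (P (nat_lit 0)) (M (nat_lit 11727087712703))))) (T.h (T.h (T.h (P (nat_lit 0)) (M (nat_lit 35881187698753535))) (P (nat_lit 0))) (T.h (T.h (P (nat_lit 0)) (P (nat_lit 8704128682512))) (P (nat_lit 0))))))))]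
def lP22_41 : List (T ℤ) := [(T.h (T.h (T.h (P (nat_lit 12287190180425606716005116018688)) (T.h (P (nat_lit 0)) (T.h (M (nat_lit 822633096902632366145535)) (T.h (P (nat_lit 0)) (M (nat_lit 6177230466576285695)))))) (T.h (P (nat_lit 0)) (T.h (T.h (M (nat_lit 822633096902632366145535)) (T.h (P (nat_lit 0)) (M (nat_lit 183649484888055218175)))) (T.h (P (nat_lit 0)) (M (nat_lit 6177230466576285695)))))) (T.h (T.h (P (nat_lit 0)) (T.h (T.h (P (nat_lit 0)) (T.h (P (nat_lit 126306685842223500623872)) (T.h (P (nat_lit 0)) (P (nat_lit 56164324190060544))))) (T.h (P (nat_lit 0)) (T.h (T.h (P (nat_lit 0)) (P (nat_lit 56164324190060544))) (P (nat_lit 0)))))) (T.h (T.h (T.h (M (nat_lit 3836605376147847800422399)) (T.h (P (nat_lit 0)) (M (nat_lit 65115326894967881727)))) (T.h (P (nat_lit 0)) (M (nat_lit 65115326894967881727)))) (T.h (T.h (P (nat_lit 0)) (T.h (T.h (P (nat_lit 0)) (M (nat_lit 101851870552260607))) (P (nat_lit 0)))) (M (nat_lit 34747549758858985471)))))),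 (T.h (T.h (P (nat_lit 0)) (T.h (T.h (P (nat_lit 0)) (T.h (M (nat_lit 7968129611153399804329983)) (T.h (P (nat_lit 0)) (M (nat_lit 34246235936746635263))))) (T.h (P (nat_lit 0)) (T.h (T.h (P (nat_lit 0)) (M (nat_lit 28918869486353776639))) (P (nat_lit 0)))))) (T.h (T.h (T.h (M (nat_lit 5287393795622230931927990271)) (T.h (P (nat_lit 0)) (T.h (M (nat_lit 11470395129475534684159)) (T.h (P (nat_lit 0)) (M (nat_lit 48452197856411647)))))) (T.h (P (nat_lit 0)) (T.h (T.h (M (nat_lit 37042947306702845771775)) (T.h (P (nat_lit 0)) (M (nat_lit 21820328043151359)))) (T.h (P (nat_lit 0)) (M (nat_lit 17184947940786175)))))) (T.h (T.h (P (nat_lit 0)) (T.h (T.h (P (nat_lit 0)) (P (nat_lit 28063542199158046720))) (P (nat_lit 0)))) (T.h (T.h (T.h (M (nat_lit 10997930159462676430847)) (T.h (P (nat_lit 0)) (M (nat_lit 28259372670091263)))) (T.h (P (nat_lit 0)) (P (nat_lit 78374196030734336)))) (T.h (P (nat_lit 0)) (M (nat_lit 21976945639718911))))))), (T.h (T.h (T.h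 (M (nat_lit 99909648655724536380581048483839)) (T.h (P (nat_lit 0)) (T.h (P (nat_lit 1537303026863677219274752)) (T.h (P (nat_lit 0)) (T.h (M (nat_lit 7478722740816445439)) (T.h (P (nat_lit 0)) (M (nat_lit 56803544022671)))))))) (T.h (P (nat_lit 0)) (T.h (T.h (P (nat_lit 1537303026863677219274752)) (T.h (P (nat_lit 0)) (T.h (P (nat_lit 170199004916551254016)) (T.h (P (nat_lit 0)) (P (nat_lit 372699232900704)))))) (T.h (P (nat_lit 0)) (T.h (T.h (M (nat_lit 7478722740816445439)) (T.h (P (nat_lit 0)) (P (nat_lit 372699232900704)))) (T.h (P (nat_lit 0)) (M (nat_lit 56803544022671)))))))) (T.h (T.h (P (nat_lit 0)) (T.h (T.h (P (nat_lit 0)) (T.h (M (nat_lit 24792577964494502756351)) (T.h (P (nat_lit 0)) (M (nat_lit 41970387647889407))))) (T.h (P (nat_lit 0)) (T.h (T.h (P (nat_lit 0)) (M (nat_lit 41970387647889407))) (P (nat_lit 0)))))) (T.h (T.h (T.h (P (nat_lit 10438904556057964207669248)) (T.h (P (nat_lit 0)) (T.h (P (nat_lit 3858024237247758336)) (T.h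 (P (nat_lit 0)) (P (nat_lit 101867935691088)))))) (T.h (P (nat_lit 0)) (T.h (T.h (P (nat_lit 3858024237247758336)) (T.h (P (nat_lit 0)) (P (nat_lit 911442555360)))) (T.h (P (nat_lit 0)) (P (nat_lit 101867935691088)))))) (T.h (T.h (P (nat_lit 0)) (T.h (T.h (P (nat_lit 0)) (M (nat_lit 38777993416015871))) (P (nat_lit 0)))) (T.h (T.h (T.h (M (nat_lit 3079660293249302527)) (T.h (P (nat_lit 0)) (M (nat_lit 20140321589711)))) (T.h (P (nat_lit 0)) (M (nat_lit 20140321589711)))) (T.h (P (nat_lit 0)) (M (nat_lit 1776113164223)))))))), (T.h (T.h (T.h (P (nat_lit 0)) (T.h (P (nat_lit 2431989740396183413638299648)) (T.h (P (nat_lit 0)) (T.h (P (nat_lit 13155666161854431887360)) (T.h (P (nat_lit 0)) (P (nat_lit 86333522932170752))))))) (T.h (P (nat_lit 0)) (T.h (T.h (P (nat_lit 0)) (T.h (M (nat_lit 67764700985457142398975)) (T.h (P (nat_lit 0)) (M (nat_lit 344310799049883647))))) (T.h (P (nat_lit 0)) (T.h (T.h (P (nat_lit 0)) (M (nat_lit 157432470344531967)))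 (P (nat_lit 0))))))) (T.h (T.h (P (nat_lit 0)) (T.h (T.h (P (nat_lit 2731529024111075150266368)) (T.h (P (nat_lit 0)) (P (nat_lit 43502318328160976896)))) (T.h (P (nat_lit 0)) (M (nat_lit 14446821862908362751))))) (T.h (T.h (T.h (P (nat_lit 0)) (T.h (M (nat_lit 2389731705158014861311)) (T.h (P (nat_lit 0)) (M (nat_lit 84716766919393279))))) (T.h (P (nat_lit 0)) (T.h (T.h (P (nat_lit 0)) (M (nat_lit 13085180765306879))) (P (nat_lit 0))))) (T.h (T.h (P (nat_lit 0)) (P (nat_lit 2922520119437426688))) (T.h (T.h (T.h (P (nat_lit 0)) (M (nat_lit 737280053051391))) (P (nat_lit 0))) (P (nat_lit 0))))))), (T.h (T.h (P (nat_lit 0)) (T.h (T.h (P (nat_lit 2431989740396183413638299648)) (T.h (P (nat_lit 0)) (T.h (M (nat_lit 67764700985457142398975)) (T.h (P (nat_lit 0)) (M (nat_lit 157432470344531967)))))) (T.h (P (nat_lit 0)) (T.h (T.h (P (nat_lit 13155666161854431887360)) (T.h (P (nat_lit 0)) (M (nat_lit 344310799049883647)))) (T.h (P (nat_lit 0)) (P (nat_lit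 86333522932170752))))))) (T.h (T.h (T.h (P (nat_lit 0)) (T.h (P (nat_lit 2731529024111075150266368)) (T.h (P (nat_lit 0)) (M (nat_lit 14446821862908362751))))) (T.h (P (nat_lit 0)) (T.h (T.h (P (nat_lit 0)) (P (nat_lit 43502318328160976896))) (P (nat_lit 0))))) (T.h (T.h (P (nat_lit 0)) (T.h (T.h (M (nat_lit 2389731705158014861311)) (T.h (P (nat_lit 0)) (M (nat_lit 13085180765306879)))) (T.h (P (nat_lit 0)) (M (nat_lit 84716766919393279))))) (T.h (T.h (T.h (P (nat_lit 0)) (P (nat_lit 2922520119437426688))) (P (nat_lit 0))) (T.h (T.h (P (nat_lit 0)) (M (nat_lit 737280053051391))) (P (nat_lit 0))))))), (T.h (T.h (P (nat_lit 0)) (T.h (T.h (P (nat_lit 0)) (T.h (P (nat_lit 5308504745692747890950144)) (T.h (P (nat_lit 0)) (P (nat_lit 14637703011229499392))))) (T.h (P (nat_lit 0)) (T.h (T.h (P (nat_lit 0)) (P (nat_lit 14637703011229499392))) (P (nat_lit 0)))))) (T.h (T.h (T.h (M (nat_lit 5327367447308101761250623487)) (T.h (P (nat_lit 0)) (T.h (M (nat_lit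 10353613219124626849791)) (T.h (P (nat_lit 0)) (M (nat_lit 46361229398966271)))))) (T.h (P (nat_lit 0)) (T.h (T.h (M (nat_lit 10353613219124626849791)) (T.h (P (nat_lit 0)) (M (nat_lit 414807634083839)))) (T.h (P (nat_lit 0)) (M (nat_lit 46361229398966271)))))) (T.h (T.h (P (nat_lit 0)) (T.h (T.h (P (nat_lit 0)) (M (nat_lit 10827735736636145663))) (P (nat_lit 0)))) (T.h (T.h (T.h (P (nat_lit 11388161166645179449344)) (T.h (P (nat_lit 0)) (P (nat_lit 18332168273657856)))) (T.h (P (nat_lit 0)) (P (nat_lit 18332168273657856)))) (T.h (P (nat_lit 0)) (P (nat_lit 2424986506887168)))))))]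

def CP22 : List (T ℤ) := lP22_0 ++ (lP22_1 ++ (lP22_2 ++ (lP22_3 ++ (lP22_4 ++ (lP22_5 ++ (lP22_6 ++ (lP22_7 ++ (lP22_8 ++ (lP22_9 ++ (lP22_10 ++ (lP22_11 ++ (lP22_12 ++ (lP22_13 ++ (lP22_14 ++ (lP22_15 ++ (lP22_16 ++ (lP22_17 ++ (lP22_18 ++ (lP22_19 ++ (lP22_20 ++ (lP22_21 ++ (lP22_22 ++ (lP22_23 ++ (lP22_24 ++ (lP22_25 ++ (lP22_26 ++ (lP22_27 ++ (lP22_28 ++ (lP22_29 ++ (lP22_30 ++ (lP22_31 ++ (lP22_32 ++ (lP22_33 ++ (lP22_34 ++ (lP22_35 ++ (lP22_36 ++ (lP22_37 ++ (lP22_38 ++ (lP22_39 ++ (lP22_40 ++ (lP22_41)))))))))))))))))))))))))))))))))))))))))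

/-- norms at radius 1536 -/
def NP22 : List ℕ := [(nat_lit 0), (nat_lit 4410501400340933843783516160000), (nat_lit 0), (nat_lit 0), (nat_lit 3756223005252276718210835665649664), (nat_lit 17177189557392064103058850197798912), (nat_lit 3620232047391109209893500820127744), (nat_lit 16882310440714948756570631321944064), (nat_lit 1490753395256961924432558808891392), (nat_lit 0), (nat_lit 0), (nat_lit 0), (nat_lit 2969041804505740692621462519939072), (nat_lit 3857606081888531261021123474620416), (nat_lit 9052407288532190030492060847439872), (nat_lit 5131500821166008947278716162015232), (nat_lit 6521345579313661719493692610314240), (nat_lit 0), (nat_lit 0), (nat_lit 0), (nat_lit 3628007854245007948250249491906560), (nat_lit 7221372459522447028710201656082432), (nat_lit 8004105252429922702813890185527296), (nat_lit 22763389126611327784254947941416960), (nat_lit 2597724830614576168184769140490240), (nat_lit 0), (nat_lit 0), (nat_lit 3628007854245007948250249491906560),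 (nat_lit 9692352166873114829935389267984384), (nat_lit 12604708284404203975392225593917440), (nat_lit 11730946799148526506464012641763328), (nat_lit 10360602026175524279714487969251328), (nat_lit 0), (nat_lit 0), (nat_lit 2969041804505740692621462519939072), (nat_lit 7221372459522447028710201656082432), (nat_lit 12604708284404203975392225593917440), (nat_lit 16821195587341387545236495849750528), (nat_lit 5860242875994006585834733433782272), (nat_lit 0), (nat_lit 0), (nat_lit 3756223005252276718210835665649664), (nat_lit 3857606081888531261021123474620416), (nat_lit 8004105252429922702813890185527296), (nat_lit 11730946799148526506464012641763328), (nat_lit 5860242875994006585834733433782272), (nat_lit 0), (nat_lit 0), (nat_lit 17177189557392064103058850197798912), (nat_lit 9052407288532190030492060847439872), (nat_lit 22763389126611327784254947941416960), (nat_lit 10360602026175524279714487969251328), (nat_lit 0), (nat_lit 0), (nat_lit 3620232047391109209893500820127744),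 (nat_lit 5131500821166008947278716162015232), (nat_lit 2597724830614576168184769140490240), (nat_lit 0), (nat_lit 0), (nat_lit 16882310440714948756570631321944064), (nat_lit 6521345579313661719493692610314240), (nat_lit 0), (nat_lit 0), (nat_lit 1490753395256961924432558808891392), (nat_lit 0), (nat_lit 0), (nat_lit 0), (nat_lit 0), (nat_lit 0), (nat_lit 3996984457372215462631370448175104), (nat_lit 3857606081888531261021123474620416), (nat_lit 9447187849459326585988581131550720), (nat_lit 5131500821166008947278716162015232), (nat_lit 6521345579313661719493692610314240), (nat_lit 0), (nat_lit 0), (nat_lit 5914259157720683232552521727737856), (nat_lit 4369637692958130344958145962442752), (nat_lit 7549501949730544193060250348158976), (nat_lit 8741251812767513401666278550142976), (nat_lit 4323468627024796083222887440318464), (nat_lit 0), (nat_lit 0), (nat_lit 8324406753164789809936767834390528), (nat_lit 5300554311406679640570519242145792), (nat_lit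 9763113429989002159573821938466816), (nat_lit 13759721456759856474476424443461632), (nat_lit 8441587529125923319536890406764544), (nat_lit 0), (nat_lit 0), (nat_lit 4508187513925934191590905223315456), (nat_lit 5300554311406679640570519242145792), (nat_lit 9204848160725936457174161878417408), (nat_lit 15940606710849970641926901781757952), (nat_lit 6781224102923839309586131817857024), (nat_lit 0), (nat_lit 0), (nat_lit 4252435629776482651394506418552832), (nat_lit 4369637692958130344958145962442752), (nat_lit 9630389883438412764838229874573312), (nat_lit 15940606710849970641926901781757952), (nat_lit 7880726512684543243002803656851456), (nat_lit 0), (nat_lit 1155732181557395829796195849469952), (nat_lit 3857606081888531261021123474620416), (nat_lit 6966626326730679643297377041776640), (nat_lit 13759721456759856474476424443461632), (nat_lit 6781224102923839309586131817857024), (nat_lit 0), (nat_lit 0), (nat_lit 9801332488889751659216121228165120),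 (nat_lit 8741251812767513401666278550142976), (nat_lit 8441587529125923319536890406764544), (nat_lit 0), (nat_lit 731817200072810317596127616040960), (nat_lit 5131500821166008947278716162015232), (nat_lit 4323468627024796083222887440318464), (nat_lit 0), (nat_lit 0), (nat_lit 6521345579313661719493692610314240), (nat_lit 0), (nat_lit 0), (nat_lit 0), (nat_lit 4410501400340933843783516160000), (nat_lit 0), (nat_lit 0), (nat_lit 5330147766158530452671989102411776), (nat_lit 21933110827910882304036181710471168), (nat_lit 7644920837023725403945246736252928), (nat_lit 38760947938033242772596867448438784), (nat_lit 3182329644287557604362584456167424), (nat_lit 0), (nat_lit 0), (nat_lit 7104610681969066356710181156421632), (nat_lit 6677217110626565398506109994532864), (nat_lit 16576532011941826883958465733066752), (nat_lit 16989624976649731330470705497112576), (nat_lit 14669858634630277319371098691731456), (nat_lit 0), (nat_lit 0), (nat_lit 6741216525583221771322028351029248),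 (nat_lit 7704709989513130686063465920987136), (nat_lit 22284574931306703283729695057641472), (nat_lit 35839653114034896009548894870437888), (nat_lit 9777343601064459801569931785404416), (nat_lit 0), (nat_lit 0), (nat_lit 12204786715904227185327239445086208), (nat_lit 10372897955807060942180835919921152), (nat_lit 24413844302170889330803190720888832), (nat_lit 21613747660074617338541511014350848), (nat_lit 14636645605348341028418159552495616), (nat_lit 0), (nat_lit 4252435629776482651394506418552832), (nat_lit 10865675718187674189913696298336256), (nat_lit 18617619380788656997787327067586560), (nat_lit 22978538613634100076373188714430464), (nat_lit 10889019650587715920610957344112640), (nat_lit 3756223005252276718210835665649664), (nat_lit 3857606081888531261021123474620416), (nat_lit 8781705626500823506176903305232384), (nat_lit 18974660611725011042701490163548160), (nat_lit 10517758597255993659097934444101632), (nat_lit 17177189557392064103058850197798912),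 (nat_lit 9801332488889751659216121228165120), (nat_lit 43681919609900578550433088568033280), (nat_lit 17693557841085872879791163874213888), (nat_lit 3620232047391109209893500820127744), (nat_lit 5131500821166008947278716162015232), (nat_lit 4229001450132292342001344261914624), (nat_lit 16882310440714948756570631321944064), (nat_lit 6521345579313661719493692610314240), (nat_lit 1490753395256961924432558808891392), (nat_lit 0), (nat_lit 0), (nat_lit 8063698831263353673369072376479744), (nat_lit 12632501436586401458926227598344192), (nat_lit 18452617236983883597036339496747008), (nat_lit 13995259202567068231320680578154496), (nat_lit 16493373138578025012000207075803136), (nat_lit 0), (nat_lit 0), (nat_lit 10849547256749458162748213088485376), (nat_lit 5916265959358518474231651634249728), (nat_lit 14560690725358383127853861949145088), (nat_lit 17395213763238630749063077422956544), (nat_lit 10047834135440774117054677063303168), (nat_lit 0), (nat_lit 0),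 (nat_lit 6741216525583221771322028351029248), (nat_lit 9336354467530894352006942640046080), (nat_lit 22850981000899846670979610101940224), (nat_lit 38349341355294778205571613445849088), (nat_lit 17557966655296856236788991307808768), (nat_lit 0), (nat_lit 4508187513925934191590905223315456), (nat_lit 10372897955807060942180835919921152), (nat_lit 26955387298648881461674283297144832), (nat_lit 36763406613101815899258460015951872), (nat_lit 27124162965182065796178250465017856), (nat_lit 2969041804505740692621462519939072), (nat_lit 4369637692958130344958145962442752), (nat_lit 18617619380788656997787327067586560), (nat_lit 29289259882154834595200592632610816), (nat_lit 16285525138790397419511371242930176), (nat_lit 3857606081888531261021123474620416), (nat_lit 6966626326730679643297377041776640), (nat_lit 18974660611725011042701490163548160), (nat_lit 13478929843555731961103569922293760), (nat_lit 9052407288532190030492060847439872), (nat_lit 8741251812767513401666278550142976),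 (nat_lit 17693557841085872879791163874213888), (nat_lit 5131500821166008947278716162015232), (nat_lit 4323468627024796083222887440318464), (nat_lit 6521345579313661719493692610314240), (nat_lit 0), (nat_lit 0), (nat_lit 8063698831263353673369072376479744), (nat_lit 13906166969806175850486229805039616), (nat_lit 16946128449781532187680605080649728), (nat_lit 38262956877258375009375187795705856), (nat_lit 8129275937722693002468490544676864), (nat_lit 0), (nat_lit 0), (nat_lit 7104610681969066356710181156421632), (nat_lit 5916265959358518474231651634249728), (nat_lit 17893274794594409485568361275326464), (nat_lit 23215910536544715799542963728547840), (nat_lit 15969459353307917165164299678646272), (nat_lit 0), (nat_lit 8324406753164789809936767834390528), (nat_lit 7704709989513130686063465920987136), (nat_lit 22850981000899846670979610101940224), (nat_lit 38563131199267962786874276041457664), (nat_lit 21423072117307265454349129076441088), (nat_lit 3628007854245007948250249491906560),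 (nat_lit 5300554311406679640570519242145792), (nat_lit 24413844302170889330803190720888832), (nat_lit 36763406613101815899258460015951872), (nat_lit 23821597515032153782948675058663424), (nat_lit 7221372459522447028710201656082432), (nat_lit 9630389883438412764838229874573312), (nat_lit 22978538613634100076373188714430464), (nat_lit 16285525138790397419511371242930176), (nat_lit 8004105252429922702813890185527296), (nat_lit 13759721456759856474476424443461632), (nat_lit 10517758597255993659097934444101632), (nat_lit 22763389126611327784254947941416960), (nat_lit 8441587529125923319536890406764544), (nat_lit 2597724830614576168184769140490240), (nat_lit 0), (nat_lit 0), (nat_lit 5330147766158530452671989102411776), (nat_lit 12632501436586401458926227598344192), (nat_lit 16946128449781532187680605080649728), (nat_lit 20947335976232733928608263974158336), (nat_lit 16045997195009981693480229987680256), (nat_lit 0), (nat_lit 5914259157720683232552521727737856),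 (nat_lit 6677217110626565398506109994532864), (nat_lit 14560690725358383127853861949145088), (nat_lit 23215910536544715799542963728547840), (nat_lit 12660526145336124100267922123915264), (nat_lit 3628007854245007948250249491906560), (nat_lit 5300554311406679640570519242145792), (nat_lit 22284574931306703283729695057641472), (nat_lit 38349341355294778205571613445849088), (nat_lit 21423072117307265454349129076441088), (nat_lit 9692352166873114829935389267984384), (nat_lit 9204848160725936457174161878417408), (nat_lit 21613747660074617338541511014350848), (nat_lit 27124162965182065796178250465017856), (nat_lit 12604708284404203975392225593917440), (nat_lit 15940606710849970641926901781757952), (nat_lit 10889019650587715920610957344112640), (nat_lit 11730946799148526506464012641763328), (nat_lit 6781224102923839309586131817857024), (nat_lit 10360602026175524279714487969251328), (nat_lit 0), (nat_lit 3996984457372215462631370448175104), (nat_lit 21933110827910882304036181710471168),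 (nat_lit 18452617236983883597036339496747008), (nat_lit 38262956877258375009375187795705856), (nat_lit 16045997195009981693480229987680256), (nat_lit 2969041804505740692621462519939072), (nat_lit 4369637692958130344958145962442752), (nat_lit 16576532011941826883958465733066752), (nat_lit 17395213763238630749063077422956544), (nat_lit 15969459353307917165164299678646272), (nat_lit 7221372459522447028710201656082432), (nat_lit 9763113429989002159573821938466816), (nat_lit 35839653114034896009548894870437888), (nat_lit 17557966655296856236788991307808768), (nat_lit 12604708284404203975392225593917440), (nat_lit 15940606710849970641926901781757952), (nat_lit 14636645605348341028418159552495616), (nat_lit 16821195587341387545236495849750528), (nat_lit 7880726512684543243002803656851456), (nat_lit 5860242875994006585834733433782272), (nat_lit 3756223005252276718210835665649664), (nat_lit 3857606081888531261021123474620416), (nat_lit 7644920837023725403945246736252928),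 (nat_lit 13995259202567068231320680578154496), (nat_lit 8129275937722693002468490544676864), (nat_lit 3857606081888531261021123474620416), (nat_lit 7549501949730544193060250348158976), (nat_lit 16989624976649731330470705497112576), (nat_lit 10047834135440774117054677063303168), (nat_lit 8004105252429922702813890185527296), (nat_lit 13759721456759856474476424443461632), (nat_lit 9777343601064459801569931785404416), (nat_lit 11730946799148526506464012641763328), (nat_lit 6781224102923839309586131817857024), (nat_lit 5860242875994006585834733433782272), (nat_lit 17177189557392064103058850197798912), (nat_lit 9447187849459326585988581131550720), (nat_lit 38760947938033242772596867448438784), (nat_lit 16493373138578025012000207075803136), (nat_lit 9052407288532190030492060847439872), (nat_lit 8741251812767513401666278550142976), (nat_lit 14669858634630277319371098691731456), (nat_lit 22763389126611327784254947941416960), (nat_lit 8441587529125923319536890406764544),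 (nat_lit 10360602026175524279714487969251328), (nat_lit 3620232047391109209893500820127744), (nat_lit 5131500821166008947278716162015232), (nat_lit 3182329644287557604362584456167424), (nat_lit 5131500821166008947278716162015232), (nat_lit 4323468627024796083222887440318464), (nat_lit 2597724830614576168184769140490240), (nat_lit 16882310440714948756570631321944064), (nat_lit 6521345579313661719493692610314240), (nat_lit 6521345579313661719493692610314240), (nat_lit 1490753395256961924432558808891392)]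


end Pool.Agent.TOPR.R6109
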