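import Pool.Agent.TOPR.R6109.Cert
import Pool.Agent.Helper6.TOP.Rng

set_option autoImplicit false
set_option linter.all false
set_option maxRecDepth 100000

namespace Pool.Agent.TOPR.R6109

open Helper80.CW.DL Pool.Agent.Helper6.TOP Pool.Agent.Helper45.TOP

/-- the constraints of state 0 -/
def row0 : List Cv := [(Cv.mk (Int.ofNat (nat_lit 730333184)) (Int.ofNat (nat_lit 730333184)) (Int.ofNat (nat_lit 0)) (Int.ofNat (nat_lit 0)) (Int.ofNat (nat_lit 0)) (Int.ofNat (nat_lit 0)) (Int.ofNat (nat_lit 0)) (Int.ofNat (nat_lit 0)) (Int.negSucc (nat_lit 272971834))),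
  (Cv.mk (Int.ofNat (nat_lit 730333184)) (Int.negSucc (nat_lit 730333183)) (Int.ofNat (nat_lit 0)) (Int.ofNat (nat_lit 0)) (Int.ofNat (nat_lit 0)) (Int.ofNat (nat_lit 0)) (Int.ofNat (nat_lit 0)) (Int.ofNat (nat_lit 0)) (Int.negSucc (nat_lit 272971834))),
  (Cv.mk (Int.ofNat (nat_lit 730333184)) (Int.ofNat (nat_lit 730333184)) (Int.negSucc (nat_lit 524165779)) (Int.negSucc (nat_lit 511262279)) (Int.negSucc (nat_lit 511262279)) (Int.negSucc (nat_lit 524165779)) (Int.negSucc (nat_lit 511262279)) (Int.negSucc (nat_lit 511262279)) (Int.negSucc (nat_lit 457392577))),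
  (Cv.mk (Int.ofNat (nat_lit 730333184)) (Int.negSucc (nat_lit 730333183)) (Int.negSucc (nat_lit 524165779)) (Int.negSucc (nat_lit 511262279)) (Int.negSucc (nat_lit 511262279)) (Int.ofNat (nat_lit 524165780)) (Int.ofNat (nat_lit 511262280)) (Int.ofNat (nat_lit 511262280)) (Int.negSucc (nat_lit 457392577))),
  (Cv.mk (Int.ofNat (nat_lit 730333184)) (Int.ofNat (nat_lit 730333184)) (Int.negSucc (nat_lit 524165779)) (Int.ofNat (nat_lit 511262280)) (Int.ofNat (nat_lit 511262280)) (Int.negSucc (nat_lit 524165779)) (Int.ofNat (nat_lit 511262280)) (Int.ofNat (nat_lit 511262280)) (Int.negSucc (nat_lit 457392577))),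
  (Cv.mk (Int.ofNat (nat_lit 730333184)) (Int.negSucc (nat_lit 730333183)) (Int.negSucc (nat_lit 524165779)) (Int.ofNat (nat_lit 511262280)) (Int.ofNat (nat_lit 511262280)) (Int.ofNat (nat_lit 524165780)) (Int.negSucc (nat_lit 511262279)) (Int.negSucc (nat_lit 511262279)) (Int.negSucc (nat_lit 457392577))),
  (Cv.mk (Int.ofNat (nat_lit 730333184)) (Int.ofNat (nat_lit 730333184)) (Int.ofNat (nat_lit 513842980)) (Int.negSucc (nat_lit 516423679)) (Int.ofNat (nat_lit 516423680)) (Int.ofNat (nat_lit 513842980)) (Int.negSucc (nat_lit 516423679)) (Int.ofNat (nat_lit 516423680)) (Int.negSucc (nat_lit 457392577))),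
  (Cv.mk (Int.ofNat (nat_lit 730333184)) (Int.negSucc (nat_lit 730333183)) (Int.ofNat (nat_lit 513842980)) (Int.negSucc (nat_lit 516423679)) (Int.ofNat (nat_lit 516423680)) (Int.negSucc (nat_lit 513842979)) (Int.ofNat (nat_lit 516423680)) (Int.negSucc (nat_lit 516423679)) (Int.negSucc (nat_lit 457392577))),
  (Cv.mk (Int.ofNat (nat_lit 730333184)) (Int.ofNat (nat_lit 730333184)) (Int.ofNat (nat_lit 513842980)) (Int.ofNat (nat_lit 516423680)) (Int.negSucc (nat_lit 516423679)) (Int.ofNat (nat_lit 513842980)) (Int.ofNat (nat_lit 516423680)) (Int.negSucc (nat_lit 516423679)) (Int.negSucc (nat_lit 457392577))),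
  (Cv.mk (Int.ofNat (nat_lit 730333184)) (Int.negSucc (nat_lit 730333183)) (Int.ofNat (nat_lit 513842980)) (Int.ofNat (nat_lit 516423680)) (Int.negSucc (nat_lit 516423679)) (Int.negSucc (nat_lit 513842979)) (Int.negSucc (nat_lit 516423679)) (Int.ofNat (nat_lit 516423680)) (Int.negSucc (nat_lit 457392577))),
  (Cv.mk (Int.ofNat (nat_lit 730333184)) (Int.ofNat (nat_lit 730333184)) (Int.ofNat (nat_lit 0)) (Int.ofNat (nat_lit 0)) (Int.ofNat (nat_lit 0)) (Int.ofNat (nat_lit 0)) (Int.ofNat (nat_lit 0)) (Int.ofNat (nat_lit 0)) (Int.negSucc (nat_lit 272961256))),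
  (Cv.mk (Int.ofNat (nat_lit 730333184)) (Int.negSucc (nat_lit 730333183)) (Int.ofNat (nat_lit 0)) (Int.ofNat (nat_lit 0)) (Int.ofNat (nat_lit 0)) (Int.ofNat (nat_lit 0)) (Int.ofNat (nat_lit 0)) (Int.ofNat (nat_lit 0)) (Int.negSucc (nat_lit 272961256)))]

/-- the constraints of state 1 -/
def row1 : List Cv := [(Cv.mk (Int.ofNat (nat_lit 730333184)) (Int.ofNat (nat_lit 730333184)) (Int.ofNat (nat_lit 0)) (Int.ofNat (nat_lit 0)) (Int.ofNat (nat_lit 0)) (Int.ofNat (nat_lit 0)) (Int.ofNat (nat_lit 0)) (Int.ofNat (nat_lit 0)) (Int.negSucc (nat_lit 272559306))),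
  (Cv.mk (Int.ofNat (nat_lit 730333184)) (Int.negSucc (nat_lit 730333183)) (Int.ofNat (nat_lit 0)) (Int.ofNat (nat_lit 0)) (Int.ofNat (nat_lit 0)) (Int.ofNat (nat_lit 0)) (Int.ofNat (nat_lit 0)) (Int.ofNat (nat_lit 0)) (Int.negSucc (nat_lit 272559306))),
  (Cv.mk (Int.ofNat (nat_lit 730333184)) (Int.ofNat (nat_lit 730333184)) (Int.negSucc (nat_lit 527759059)) (Int.negSucc (nat_lit 508866759)) (Int.negSucc (nat_lit 508866759)) (Int.negSucc (nat_lit 527759059)) (Int.negSucc (nat_lit 508866759)) (Int.negSucc (nat_lit 508866759)) (Int.negSucc (nat_lit 457841585))),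
  (Cv.mk (Int.ofNat (nat_lit 730333184)) (Int.negSucc (nat_lit 730333183)) (Int.negSucc (nat_lit 527759059)) (Int.negSucc (nat_lit 508866759)) (Int.negSucc (nat_lit 508866759)) (Int.ofNat (nat_lit 527759060)) (Int.ofNat (nat_lit 508866760)) (Int.ofNat (nat_lit 508866760)) (Int.negSucc (nat_lit 457841585))),
  (Cv.mk (Int.ofNat (nat_lit 730333184)) (Int.ofNat (nat_lit 730333184)) (Int.negSucc (nat_lit 527759059)) (Int.ofNat (nat_lit 508866760)) (Int.ofNat (nat_lit 508866760)) (Int.negSucc (nat_lit 527759059)) (Int.ofNat (nat_lit 508866760)) (Int.ofNat (nat_lit 508866760)) (Int.negSucc (nat_lit 457841585))),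
  (Cv.mk (Int.ofNat (nat_lit 730333184)) (Int.negSucc (nat_lit 730333183)) (Int.negSucc (nat_lit 527759059)) (Int.ofNat (nat_lit 508866760)) (Int.ofNat (nat_lit 508866760)) (Int.ofNat (nat_lit 527759060)) (Int.negSucc (nat_lit 508866759)) (Int.negSucc (nat_lit 508866759)) (Int.negSucc (nat_lit 457841585))),
  (Cv.mk (Int.ofNat (nat_lit 730333184)) (Int.ofNat (nat_lit 730333184)) (Int.ofNat (nat_lit 512645220)) (Int.negSucc (nat_lit 516423679)) (Int.ofNat (nat_lit 516423680)) (Int.ofNat (nat_lit 512645220)) (Int.negSucc (nat_lit 516423679)) (Int.ofNat (nat_lit 516423680)) (Int.negSucc (nat_lit 457841585))),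
  (Cv.mk (Int.ofNat (nat_lit 730333184)) (Int.negSucc (nat_lit 730333183)) (Int.ofNat (nat_lit 512645220)) (Int.negSucc (nat_lit 516423679)) (Int.ofNat (nat_lit 516423680)) (Int.negSucc (nat_lit 512645219)) (Int.ofNat (nat_lit 516423680)) (Int.negSucc (nat_lit 516423679)) (Int.negSucc (nat_lit 457841585))),
  (Cv.mk (Int.ofNat (nat_lit 730333184)) (Int.ofNat (nat_lit 730333184)) (Int.ofNat (nat_lit 512645220)) (Int.ofNat (nat_lit 516423680)) (Int.negSucc (nat_lit 516423679)) (Int.ofNat (nat_lit 512645220)) (Int.ofNat (nat_lit 516423680)) (Int.negSucc (nat_lit 516423679)) (Int.negSucc (nat_lit 457841585))),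
  (Cv.mk (Int.ofNat (nat_lit 730333184)) (Int.negSucc (nat_lit 730333183)) (Int.ofNat (nat_lit 512645220)) (Int.ofNat (nat_lit 516423680)) (Int.negSucc (nat_lit 516423679)) (Int.negSucc (nat_lit 512645219)) (Int.negSucc (nat_lit 516423679)) (Int.ofNat (nat_lit 516423680)) (Int.negSucc (nat_lit 457841585))),
  (Cv.mk (Int.ofNat (nat_lit 730333184)) (Int.ofNat (nat_lit 730333184)) (Int.ofNat (nat_lit 0)) (Int.ofNat (nat_lit 0)) (Int.ofNat (nat_lit 0)) (Int.ofNat (nat_lit 0)) (Int.ofNat (nat_lit 0)) (Int.ofNat (nat_lit 0)) (Int.negSucc (nat_lit 272961256))),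
  (Cv.mk (Int.ofNat (nat_lit 730333184)) (Int.negSucc (nat_lit 730333183)) (Int.ofNat (nat_lit 0)) (Int.ofNat (nat_lit 0)) (Int.ofNat (nat_lit 0)) (Int.ofNat (nat_lit 0)) (Int.ofNat (nat_lit 0)) (Int.ofNat (nat_lit 0)) (Int.negSucc (nat_lit 272961256)))]

/-- the constraints of state 2 -/
def row2 : List Cv := [(Cv.mk (Int.ofNat (nat_lit 730333184)) (Int.ofNat (nat_lit 730333184)) (Int.ofNat (nat_lit 0)) (Int.ofNat (nat_lit 0)) (Int.ofNat (nat_lit 0)) (Int.ofNat (nat_lit 0)) (Int.ofNat (nat_lit 0)) (Int.ofNat (nat_lit 0)) (Int.negSucc (nat_lit 272971834))),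
  (Cv.mk (Int.ofNat (nat_lit 730333184)) (Int.negSucc (nat_lit 730333183)) (Int.ofNat (nat_lit 0)) (Int.ofNat (nat_lit 0)) (Int.ofNat (nat_lit 0)) (Int.ofNat (nat_lit 0)) (Int.ofNat (nat_lit 0)) (Int.ofNat (nat_lit 0)) (Int.negSucc (nat_lit 272971834))),
  (Cv.mk (Int.ofNat (nat_lit 730333184)) (Int.ofNat (nat_lit 730333184)) (Int.negSucc (nat_lit 513842979)) (Int.negSucc (nat_lit 516423679)) (Int.negSucc (nat_lit 516423679)) (Int.negSucc (nat_lit 513842979)) (Int.negSucc (nat_lit 516423679)) (Int.negSucc (nat_lit 516423679)) (Int.negSucc (nat_lit 457392577))),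
  (Cv.mk (Int.ofNat (nat_lit 730333184)) (Int.negSucc (nat_lit 730333183)) (Int.negSucc (nat_lit 513842979)) (Int.negSucc (nat_lit 516423679)) (Int.negSucc (nat_lit 516423679)) (Int.ofNat (nat_lit 513842980)) (Int.ofNat (nat_lit 516423680)) (Int.ofNat (nat_lit 516423680)) (Int.negSucc (nat_lit 457392577))),
  (Cv.mk (Int.ofNat (nat_lit 730333184)) (Int.ofNat (nat_lit 730333184)) (Int.negSucc (nat_lit 513842979)) (Int.ofNat (nat_lit 516423680)) (Int.ofNat (nat_lit 516423680)) (Int.negSucc (nat_lit 513842979)) (Int.ofNat (nat_lit 516423680)) (Int.ofNat (nat_lit 516423680)) (Int.negSucc (nat_lit 457392577))),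
  (Cv.mk (Int.ofNat (nat_lit 730333184)) (Int.negSucc (nat_lit 730333183)) (Int.negSucc (nat_lit 513842979)) (Int.ofNat (nat_lit 516423680)) (Int.ofNat (nat_lit 516423680)) (Int.ofNat (nat_lit 513842980)) (Int.negSucc (nat_lit 516423679)) (Int.negSucc (nat_lit 516423679)) (Int.negSucc (nat_lit 457392577))),
  (Cv.mk (Int.ofNat (nat_lit 730333184)) (Int.ofNat (nat_lit 730333184)) (Int.ofNat (nat_lit 524165780)) (Int.negSucc (nat_lit 511262279)) (Int.ofNat (nat_lit 511262280)) (Int.ofNat (nat_lit 524165780)) (Int.negSucc (nat_lit 511262279)) (Int.ofNat (nat_lit 511262280)) (Int.negSucc (nat_lit 457392577))),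
  (Cv.mk (Int.ofNat (nat_lit 730333184)) (Int.negSucc (nat_lit 730333183)) (Int.ofNat (nat_lit 524165780)) (Int.negSucc (nat_lit 511262279)) (Int.ofNat (nat_lit 511262280)) (Int.negSucc (nat_lit 524165779)) (Int.ofNat (nat_lit 511262280)) (Int.negSucc (nat_lit 511262279)) (Int.negSucc (nat_lit 457392577))),
  (Cv.mk (Int.ofNat (nat_lit 730333184)) (Int.ofNat (nat_lit 730333184)) (Int.ofNat (nat_lit 524165780)) (Int.ofNat (nat_lit 511262280)) (Int.negSucc (nat_lit 511262279)) (Int.ofNat (nat_lit 524165780)) (Int.ofNat (nat_lit 511262280)) (Int.negSucc (nat_lit 511262279)) (Int.negSucc (nat_lit 457392577))),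
  (Cv.mk (Int.ofNat (nat_lit 730333184)) (Int.negSucc (nat_lit 730333183)) (Int.ofNat (nat_lit 524165780)) (Int.ofNat (nat_lit 511262280)) (Int.negSucc (nat_lit 511262279)) (Int.negSucc (nat_lit 524165779)) (Int.negSucc (nat_lit 511262279)) (Int.ofNat (nat_lit 511262280)) (Int.negSucc (nat_lit 457392577))),
  (Cv.mk (Int.ofNat (nat_lit 730333184)) (Int.ofNat (nat_lit 730333184)) (Int.ofNat (nat_lit 0)) (Int.ofNat (nat_lit 0)) (Int.ofNat (nat_lit 0)) (Int.ofNat (nat_lit 0)) (Int.ofNat (nat_lit 0)) (Int.ofNat (nat_lit 0)) (Int.negSucc (nat_lit 272961256))),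
  (Cv.mk (Int.ofNat (nat_lit 730333184)) (Int.negSucc (nat_lit 730333183)) (Int.ofNat (nat_lit 0)) (Int.ofNat (nat_lit 0)) (Int.ofNat (nat_lit 0)) (Int.ofNat (nat_lit 0)) (Int.ofNat (nat_lit 0)) (Int.ofNat (nat_lit 0)) (Int.negSucc (nat_lit 272961256)))]

/-- the constraints of state 3 -/
def row3 : List Cv := [(Cv.mk (Int.ofNat (nat_lit 730333184)) (Int.ofNat (nat_lit 730333184)) (Int.ofNat (nat_lit 0)) (Int.ofNat (nat_lit 0)) (Int.ofNat (nat_lit 0)) (Int.ofNat (nat_lit 0)) (Int.ofNat (nat_lit 0)) (Int.ofNat (nat_lit 0)) (Int.negSucc (nat_lit 272559306))),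
  (Cv.mk (Int.ofNat (nat_lit 730333184)) (Int.negSucc (nat_lit 730333183)) (Int.ofNat (nat_lit 0)) (Int.ofNat (nat_lit 0)) (Int.ofNat (nat_lit 0)) (Int.ofNat (nat_lit 0)) (Int.ofNat (nat_lit 0)) (Int.ofNat (nat_lit 0)) (Int.negSucc (nat_lit 272559306))),
  (Cv.mk (Int.ofNat (nat_lit 730333184)) (Int.ofNat (nat_lit 730333184)) (Int.negSucc (nat_lit 512645219)) (Int.negSucc (nat_lit 516423679)) (Int.negSucc (nat_lit 516423679)) (Int.negSucc (nat_lit 512645219)) (Int.negSucc (nat_lit 516423679)) (Int.negSucc (nat_lit 516423679)) (Int.negSucc (nat_lit 457841585))),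
  (Cv.mk (Int.ofNat (nat_lit 730333184)) (Int.negSucc (nat_lit 730333183)) (Int.negSucc (nat_lit 512645219)) (Int.negSucc (nat_lit 516423679)) (Int.negSucc (nat_lit 516423679)) (Int.ofNat (nat_lit 512645220)) (Int.ofNat (nat_lit 516423680)) (Int.ofNat (nat_lit 516423680)) (Int.negSucc (nat_lit 457841585))),
  (Cv.mk (Int.ofNat (nat_lit 730333184)) (Int.ofNat (nat_lit 730333184)) (Int.negSucc (nat_lit 512645219)) (Int.ofNat (nat_lit 516423680)) (Int.ofNat (nat_lit 516423680)) (Int.negSucc (nat_lit 512645219)) (Int.ofNat (nat_lit 516423680)) (Int.ofNat (nat_lit 516423680)) (Int.negSucc (nat_lit 457841585))),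
  (Cv.mk (Int.ofNat (nat_lit 730333184)) (Int.negSucc (nat_lit 730333183)) (Int.negSucc (nat_lit 512645219)) (Int.ofNat (nat_lit 516423680)) (Int.ofNat (nat_lit 516423680)) (Int.ofNat (nat_lit 512645220)) (Int.negSucc (nat_lit 516423679)) (Int.negSucc (nat_lit 516423679)) (Int.negSucc (nat_lit 457841585))),
  (Cv.mk (Int.ofNat (nat_lit 730333184)) (Int.ofNat (nat_lit 730333184)) (Int.ofNat (nat_lit 527759060)) (Int.negSucc (nat_lit 508866759)) (Int.ofNat (nat_lit 508866760)) (Int.ofNat (nat_lit 527759060)) (Int.negSucc (nat_lit 508866759)) (Int.ofNat (nat_lit 508866760)) (Int.negSucc (nat_lit 457841585))),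
  (Cv.mk (Int.ofNat (nat_lit 730333184)) (Int.negSucc (nat_lit 730333183)) (Int.ofNat (nat_lit 527759060)) (Int.negSucc (nat_lit 508866759)) (Int.ofNat (nat_lit 508866760)) (Int.negSucc (nat_lit 527759059)) (Int.ofNat (nat_lit 508866760)) (Int.negSucc (nat_lit 508866759)) (Int.negSucc (nat_lit 457841585))),
  (Cv.mk (Int.ofNat (nat_lit 730333184)) (Int.ofNat (nat_lit 730333184)) (Int.ofNat (nat_lit 527759060)) (Int.ofNat (nat_lit 508866760)) (Int.negSucc (nat_lit 508866759)) (Int.ofNat (nat_lit 527759060)) (Int.ofNat (nat_lit 508866760)) (Int.negSucc (nat_lit 508866759)) (Int.negSucc (nat_lit 457841585))),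
  (Cv.mk (Int.ofNat (nat_lit 730333184)) (Int.negSucc (nat_lit 730333183)) (Int.ofNat (nat_lit 527759060)) (Int.ofNat (nat_lit 508866760)) (Int.negSucc (nat_lit 508866759)) (Int.negSucc (nat_lit 527759059)) (Int.negSucc (nat_lit 508866759)) (Int.ofNat (nat_lit 508866760)) (Int.negSucc (nat_lit 457841585))),
  (Cv.mk (Int.ofNat (nat_lit 730333184)) (Int.ofNat (nat_lit 730333184)) (Int.ofNat (nat_lit 0)) (Int.ofNat (nat_lit 0)) (Int.ofNat (nat_lit 0)) (Int.ofNat (nat_lit 0)) (Int.ofNat (nat_lit 0)) (Int.ofNat (nat_lit 0)) (Int.negSucc (nat_lit 272961256))),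
  (Cv.mk (Int.ofNat (nat_lit 730333184)) (Int.negSucc (nat_lit 730333183)) (Int.ofNat (nat_lit 0)) (Int.ofNat (nat_lit 0)) (Int.ofNat (nat_lit 0)) (Int.ofNat (nat_lit 0)) (Int.ofNat (nat_lit 0)) (Int.ofNat (nat_lit 0)) (Int.negSucc (nat_lit 272961256)))]

/-- the constraints of state 4 -/
def row4 : List Cv := [(Cv.mk (Int.ofNat (nat_lit 730333184)) (Int.ofNat (nat_lit 730333184)) (Int.ofNat (nat_lit 0)) (Int.ofNat (nat_lit 0)) (Int.ofNat (nat_lit 0)) (Int.ofNat (nat_lit 0)) (Int.ofNat (nat_lit 0)) (Int.ofNat (nat_lit 0)) (Int.negSucc (nat_lit 272971834))),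
  (Cv.mk (Int.ofNat (nat_lit 730333184)) (Int.negSucc (nat_lit 730333183)) (Int.ofNat (nat_lit 0)) (Int.ofNat (nat_lit 0)) (Int.ofNat (nat_lit 0)) (Int.ofNat (nat_lit 0)) (Int.ofNat (nat_lit 0)) (Int.ofNat (nat_lit 0)) (Int.negSucc (nat_lit 272971834))),
  (Cv.mk (Int.ofNat (nat_lit 730333184)) (Int.ofNat (nat_lit 730333184)) (Int.negSucc (nat_lit 511262279)) (Int.negSucc (nat_lit 524165779)) (Int.negSucc (nat_lit 511262279)) (Int.negSucc (nat_lit 511262279)) (Int.negSucc (nat_lit 524165779)) (Int.negSucc (nat_lit 511262279)) (Int.negSucc (nat_lit 457392577))),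
  (Cv.mk (Int.ofNat (nat_lit 730333184)) (Int.negSucc (nat_lit 730333183)) (Int.negSucc (nat_lit 511262279)) (Int.negSucc (nat_lit 524165779)) (Int.negSucc (nat_lit 511262279)) (Int.ofNat (nat_lit 511262280)) (Int.ofNat (nat_lit 524165780)) (Int.ofNat (nat_lit 511262280)) (Int.negSucc (nat_lit 457392577))),
  (Cv.mk (Int.ofNat (nat_lit 730333184)) (Int.ofNat (nat_lit 730333184)) (Int.negSucc (nat_lit 516423679)) (Int.ofNat (nat_lit 513842980)) (Int.ofNat (nat_lit 516423680)) (Int.negSucc (nat_lit 516423679)) (Int.ofNat (nat_lit 513842980)) (Int.ofNat (nat_lit 516423680)) (Int.negSucc (nat_lit 457392577))),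
  (Cv.mk (Int.ofNat (nat_lit 730333184)) (Int.negSucc (nat_lit 730333183)) (Int.negSucc (nat_lit 516423679)) (Int.ofNat (nat_lit 513842980)) (Int.ofNat (nat_lit 516423680)) (Int.ofNat (nat_lit 516423680)) (Int.negSucc (nat_lit 513842979)) (Int.negSucc (nat_lit 516423679)) (Int.negSucc (nat_lit 457392577))),
  (Cv.mk (Int.ofNat (nat_lit 730333184)) (Int.ofNat (nat_lit 730333184)) (Int.ofNat (nat_lit 511262280)) (Int.negSucc (nat_lit 524165779)) (Int.ofNat (nat_lit 511262280)) (Int.ofNat (nat_lit 511262280)) (Int.negSucc (nat_lit 524165779)) (Int.ofNat (nat_lit 511262280)) (Int.negSucc (nat_lit 457392577))),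
  (Cv.mk (Int.ofNat (nat_lit 730333184)) (Int.negSucc (nat_lit 730333183)) (Int.ofNat (nat_lit 511262280)) (Int.negSucc (nat_lit 524165779)) (Int.ofNat (nat_lit 511262280)) (Int.negSucc (nat_lit 511262279)) (Int.ofNat (nat_lit 524165780)) (Int.negSucc (nat_lit 511262279)) (Int.negSucc (nat_lit 457392577))),
  (Cv.mk (Int.ofNat (nat_lit 730333184)) (Int.ofNat (nat_lit 730333184)) (Int.ofNat (nat_lit 516423680)) (Int.ofNat (nat_lit 513842980)) (Int.negSucc (nat_lit 516423679)) (Int.ofNat (nat_lit 516423680)) (Int.ofNat (nat_lit 513842980)) (Int.negSucc (nat_lit 516423679)) (Int.negSucc (nat_lit 457392577))),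
  (Cv.mk (Int.ofNat (nat_lit 730333184)) (Int.negSucc (nat_lit 730333183)) (Int.ofNat (nat_lit 516423680)) (Int.ofNat (nat_lit 513842980)) (Int.negSucc (nat_lit 516423679)) (Int.negSucc (nat_lit 516423679)) (Int.negSucc (nat_lit 513842979)) (Int.ofNat (nat_lit 516423680)) (Int.negSucc (nat_lit 457392577))),
  (Cv.mk (Int.ofNat (nat_lit 730333184)) (Int.ofNat (nat_lit 730333184)) (Int.ofNat (nat_lit 0)) (Int.ofNat (nat_lit 0)) (Int.ofNat (nat_lit 0)) (Int.ofNat (nat_lit 0)) (Int.ofNat (nat_lit 0)) (Int.ofNat (nat_lit 0)) (Int.negSucc (nat_lit 272961256))),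
  (Cv.mk (Int.ofNat (nat_lit 730333184)) (Int.negSucc (nat_lit 730333183)) (Int.ofNat (nat_lit 0)) (Int.ofNat (nat_lit 0)) (Int.ofNat (nat_lit 0)) (Int.ofNat (nat_lit 0)) (Int.ofNat (nat_lit 0)) (Int.ofNat (nat_lit 0)) (Int.negSucc (nat_lit 272961256)))]

/-- the constraints of state 5 -/
def row5 : List Cv := [(Cv.mk (Int.ofNat (nat_lit 730333184)) (Int.ofNat (nat_lit 730333184)) (Int.ofNat (nat_lit 0)) (Int.ofNat (nat_lit 0)) (Int.ofNat (nat_lit 0)) (Int.ofNat (nat_lit 0)) (Int.ofNat (nat_lit 0)) (Int.ofNat (nat_lit 0)) (Int.negSucc (nat_lit 272559306))),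
  (Cv.mk (Int.ofNat (nat_lit 730333184)) (Int.negSucc (nat_lit 730333183)) (Int.ofNat (nat_lit 0)) (Int.ofNat (nat_lit 0)) (Int.ofNat (nat_lit 0)) (Int.ofNat (nat_lit 0)) (Int.ofNat (nat_lit 0)) (Int.ofNat (nat_lit 0)) (Int.negSucc (nat_lit 272559306))),
  (Cv.mk (Int.ofNat (nat_lit 730333184)) (Int.ofNat (nat_lit 730333184)) (Int.negSucc (nat_lit 508866759)) (Int.negSucc (nat_lit 527759059)) (Int.negSucc (nat_lit 508866759)) (Int.negSucc (nat_lit 508866759)) (Int.negSucc (nat_lit 527759059)) (Int.negSucc (nat_lit 508866759)) (Int.negSucc (nat_lit 457841585))),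
  (Cv.mk (Int.ofNat (nat_lit 730333184)) (Int.negSucc (nat_lit 730333183)) (Int.negSucc (nat_lit 508866759)) (Int.negSucc (nat_lit 527759059)) (Int.negSucc (nat_lit 508866759)) (Int.ofNat (nat_lit 508866760)) (Int.ofNat (nat_lit 527759060)) (Int.ofNat (nat_lit 508866760)) (Int.negSucc (nat_lit 457841585))),
  (Cv.mk (Int.ofNat (nat_lit 730333184)) (Int.ofNat (nat_lit 730333184)) (Int.negSucc (nat_lit 516423679)) (Int.ofNat (nat_lit 512645220)) (Int.ofNat (nat_lit 516423680)) (Int.negSucc (nat_lit 516423679)) (Int.ofNat (nat_lit 512645220)) (Int.ofNat (nat_lit 516423680)) (Int.negSucc (nat_lit 457841585))),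
  (Cv.mk (Int.ofNat (nat_lit 730333184)) (Int.negSucc (nat_lit 730333183)) (Int.negSucc (nat_lit 516423679)) (Int.ofNat (nat_lit 512645220)) (Int.ofNat (nat_lit 516423680)) (Int.ofNat (nat_lit 516423680)) (Int.negSucc (nat_lit 512645219)) (Int.negSucc (nat_lit 516423679)) (Int.negSucc (nat_lit 457841585))),
  (Cv.mk (Int.ofNat (nat_lit 730333184)) (Int.ofNat (nat_lit 730333184)) (Int.ofNat (nat_lit 508866760)) (Int.negSucc (nat_lit 527759059)) (Int.ofNat (nat_lit 508866760)) (Int.ofNat (nat_lit 508866760)) (Int.negSucc (nat_lit 527759059)) (Int.ofNat (nat_lit 508866760)) (Int.negSucc (nat_lit 457841585))),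
  (Cv.mk (Int.ofNat (nat_lit 730333184)) (Int.negSucc (nat_lit 730333183)) (Int.ofNat (nat_lit 508866760)) (Int.negSucc (nat_lit 527759059)) (Int.ofNat (nat_lit 508866760)) (Int.negSucc (nat_lit 508866759)) (Int.ofNat (nat_lit 527759060)) (Int.negSucc (nat_lit 508866759)) (Int.negSucc (nat_lit 457841585))),
  (Cv.mk (Int.ofNat (nat_lit 730333184)) (Int.ofNat (nat_lit 730333184)) (Int.ofNat (nat_lit 516423680)) (Int.ofNat (nat_lit 512645220)) (Int.negSucc (nat_lit 516423679)) (Int.ofNat (nat_lit 516423680)) (Int.ofNat (nat_lit 512645220)) (Int.negSucc (nat_lit 516423679)) (Int.negSucc (nat_lit 457841585))),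
  (Cv.mk (Int.ofNat (nat_lit 730333184)) (Int.negSucc (nat_lit 730333183)) (Int.ofNat (nat_lit 516423680)) (Int.ofNat (nat_lit 512645220)) (Int.negSucc (nat_lit 516423679)) (Int.negSucc (nat_lit 516423679)) (Int.negSucc (nat_lit 512645219)) (Int.ofNat (nat_lit 516423680)) (Int.negSucc (nat_lit 457841585))),
  (Cv.mk (Int.ofNat (nat_lit 730333184)) (Int.ofNat (nat_lit 730333184)) (Int.ofNat (nat_lit 0)) (Int.ofNat (nat_lit 0)) (Int.ofNat (nat_lit 0)) (Int.ofNat (nat_lit 0)) (Int.ofNat (nat_lit 0)) (Int.ofNat (nat_lit 0)) (Int.negSucc (nat_lit 272961256))),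
  (Cv.mk (Int.ofNat (nat_lit 730333184)) (Int.negSucc (nat_lit 730333183)) (Int.ofNat (nat_lit 0)) (Int.ofNat (nat_lit 0)) (Int.ofNat (nat_lit 0)) (Int.ofNat (nat_lit 0)) (Int.ofNat (nat_lit 0)) (Int.ofNat (nat_lit 0)) (Int.negSucc (nat_lit 272961256)))]

/-- the constraints of state 6 -/
def row6 : List Cv := [(Cv.mk (Int.ofNat (nat_lit 730333184)) (Int.ofNat (nat_lit 730333184)) (Int.ofNat (nat_lit 0)) (Int.ofNat (nat_lit 0)) (Int.ofNat (nat_lit 0)) (Int.ofNat (nat_lit 0)) (Int.ofNat (nat_lit 0)) (Int.ofNat (nat_lit 0)) (Int.negSucc (nat_lit 272971834))),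
  (Cv.mk (Int.ofNat (nat_lit 730333184)) (Int.negSucc (nat_lit 730333183)) (Int.ofNat (nat_lit 0)) (Int.ofNat (nat_lit 0)) (Int.ofNat (nat_lit 0)) (Int.ofNat (nat_lit 0)) (Int.ofNat (nat_lit 0)) (Int.ofNat (nat_lit 0)) (Int.negSucc (nat_lit 272971834))),
  (Cv.mk (Int.ofNat (nat_lit 730333184)) (Int.ofNat (nat_lit 730333184)) (Int.negSucc (nat_lit 516423679)) (Int.negSucc (nat_lit 513842979)) (Int.negSucc (nat_lit 516423679)) (Int.negSucc (nat_lit 516423679)) (Int.negSucc (nat_lit 513842979)) (Int.negSucc (nat_lit 516423679)) (Int.negSucc (nat_lit 457392577))),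
  (Cv.mk (Int.ofNat (nat_lit 730333184)) (Int.negSucc (nat_lit 730333183)) (Int.negSucc (nat_lit 516423679)) (Int.negSucc (nat_lit 513842979)) (Int.negSucc (nat_lit 516423679)) (Int.ofNat (nat_lit 516423680)) (Int.ofNat (nat_lit 513842980)) (Int.ofNat (nat_lit 516423680)) (Int.negSucc (nat_lit 457392577))),
  (Cv.mk (Int.ofNat (nat_lit 730333184)) (Int.ofNat (nat_lit 730333184)) (Int.negSucc (nat_lit 511262279)) (Int.ofNat (nat_lit 524165780)) (Int.ofNat (nat_lit 511262280)) (Int.negSucc (nat_lit 511262279)) (Int.ofNat (nat_lit 524165780)) (Int.ofNat (nat_lit 511262280)) (Int.negSucc (nat_lit 457392577))),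
  (Cv.mk (Int.ofNat (nat_lit 730333184)) (Int.negSucc (nat_lit 730333183)) (Int.negSucc (nat_lit 511262279)) (Int.ofNat (nat_lit 524165780)) (Int.ofNat (nat_lit 511262280)) (Int.ofNat (nat_lit 511262280)) (Int.negSucc (nat_lit 524165779)) (Int.negSucc (nat_lit 511262279)) (Int.negSucc (nat_lit 457392577))),
  (Cv.mk (Int.ofNat (nat_lit 730333184)) (Int.ofNat (nat_lit 730333184)) (Int.ofNat (nat_lit 516423680)) (Int.negSucc (nat_lit 513842979)) (Int.ofNat (nat_lit 516423680)) (Int.ofNat (nat_lit 516423680)) (Int.negSucc (nat_lit 513842979)) (Int.ofNat (nat_lit 516423680)) (Int.negSucc (nat_lit 457392577))),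
  (Cv.mk (Int.ofNat (nat_lit 730333184)) (Int.negSucc (nat_lit 730333183)) (Int.ofNat (nat_lit 516423680)) (Int.negSucc (nat_lit 513842979)) (Int.ofNat (nat_lit 516423680)) (Int.negSucc (nat_lit 516423679)) (Int.ofNat (nat_lit 513842980)) (Int.negSucc (nat_lit 516423679)) (Int.negSucc (nat_lit 457392577))),
  (Cv.mk (Int.ofNat (nat_lit 730333184)) (Int.ofNat (nat_lit 730333184)) (Int.ofNat (nat_lit 511262280)) (Int.ofNat (nat_lit 524165780)) (Int.negSucc (nat_lit 511262279)) (Int.ofNat (nat_lit 511262280)) (Int.ofNat (nat_lit 524165780)) (Int.negSucc (nat_lit 511262279)) (Int.negSucc (nat_lit 457392577))),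
  (Cv.mk (Int.ofNat (nat_lit 730333184)) (Int.negSucc (nat_lit 730333183)) (Int.ofNat (nat_lit 511262280)) (Int.ofNat (nat_lit 524165780)) (Int.negSucc (nat_lit 511262279)) (Int.negSucc (nat_lit 511262279)) (Int.negSucc (nat_lit 524165779)) (Int.ofNat (nat_lit 511262280)) (Int.negSucc (nat_lit 457392577))),
  (Cv.mk (Int.ofNat (nat_lit 730333184)) (Int.ofNat (nat_lit 730333184)) (Int.ofNat (nat_lit 0)) (Int.ofNat (nat_lit 0)) (Int.ofNat (nat_lit 0)) (Int.ofNat (nat_lit 0)) (Int.ofNat (nat_lit 0)) (Int.ofNat (nat_lit 0)) (Int.negSucc (nat_lit 272961256))),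
  (Cv.mk (Int.ofNat (nat_lit 730333184)) (Int.negSucc (nat_lit 730333183)) (Int.ofNat (nat_lit 0)) (Int.ofNat (nat_lit 0)) (Int.ofNat (nat_lit 0)) (Int.ofNat (nat_lit 0)) (Int.ofNat (nat_lit 0)) (Int.ofNat (nat_lit 0)) (Int.negSucc (nat_lit 272961256)))]

/-- the constraints of state 7 -/
def row7 : List Cv := [(Cv.mk (Int.ofNat (nat_lit 730333184)) (Int.ofNat (nat_lit 730333184)) (Int.ofNat (nat_lit 0)) (Int.ofNat (nat_lit 0)) (Int.ofNat (nat_lit 0)) (Int.ofNat (nat_lit 0)) (Int.ofNat (nat_lit 0)) (Int.ofNat (nat_lit 0)) (Int.negSucc (nat_lit 272559306))),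
  (Cv.mk (Int.ofNat (nat_lit 730333184)) (Int.negSucc (nat_lit 730333183)) (Int.ofNat (nat_lit 0)) (Int.ofNat (nat_lit 0)) (Int.ofNat (nat_lit 0)) (Int.ofNat (nat_lit 0)) (Int.ofNat (nat_lit 0)) (Int.ofNat (nat_lit 0)) (Int.negSucc (nat_lit 272559306))),
  (Cv.mk (Int.ofNat (nat_lit 730333184)) (Int.ofNat (nat_lit 730333184)) (Int.negSucc (nat_lit 516423679)) (Int.negSucc (nat_lit 512645219)) (Int.negSucc (nat_lit 516423679)) (Int.negSucc (nat_lit 516423679)) (Int.negSucc (nat_lit 512645219)) (Int.negSucc (nat_lit 516423679)) (Int.negSucc (nat_lit 457841585))),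
  (Cv.mk (Int.ofNat (nat_lit 730333184)) (Int.negSucc (nat_lit 730333183)) (Int.negSucc (nat_lit 516423679)) (Int.negSucc (nat_lit 512645219)) (Int.negSucc (nat_lit 516423679)) (Int.ofNat (nat_lit 516423680)) (Int.ofNat (nat_lit 512645220)) (Int.ofNat (nat_lit 516423680)) (Int.negSucc (nat_lit 457841585))),
  (Cv.mk (Int.ofNat (nat_lit 730333184)) (Int.ofNat (nat_lit 730333184)) (Int.negSucc (nat_lit 508866759)) (Int.ofNat (nat_lit 527759060)) (Int.ofNat (nat_lit 508866760)) (Int.negSucc (nat_lit 508866759)) (Int.ofNat (nat_lit 527759060)) (Int.ofNat (nat_lit 508866760)) (Int.negSucc (nat_lit 457841585))),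
  (Cv.mk (Int.ofNat (nat_lit 730333184)) (Int.negSucc (nat_lit 730333183)) (Int.negSucc (nat_lit 508866759)) (Int.ofNat (nat_lit 527759060)) (Int.ofNat (nat_lit 508866760)) (Int.ofNat (nat_lit 508866760)) (Int.negSucc (nat_lit 527759059)) (Int.negSucc (nat_lit 508866759)) (Int.negSucc (nat_lit 457841585))),
  (Cv.mk (Int.ofNat (nat_lit 730333184)) (Int.ofNat (nat_lit 730333184)) (Int.ofNat (nat_lit 516423680)) (Int.negSucc (nat_lit 512645219)) (Int.ofNat (nat_lit 516423680)) (Int.ofNat (nat_lit 516423680)) (Int.negSucc (nat_lit 512645219)) (Int.ofNat (nat_lit 516423680)) (Int.negSucc (nat_lit 457841585))),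
  (Cv.mk (Int.ofNat (nat_lit 730333184)) (Int.negSucc (nat_lit 730333183)) (Int.ofNat (nat_lit 516423680)) (Int.negSucc (nat_lit 512645219)) (Int.ofNat (nat_lit 516423680)) (Int.negSucc (nat_lit 516423679)) (Int.ofNat (nat_lit 512645220)) (Int.negSucc (nat_lit 516423679)) (Int.negSucc (nat_lit 457841585))),
  (Cv.mk (Int.ofNat (nat_lit 730333184)) (Int.ofNat (nat_lit 730333184)) (Int.ofNat (nat_lit 508866760)) (Int.ofNat (nat_lit 527759060)) (Int.negSucc (nat_lit 508866759)) (Int.ofNat (nat_lit 508866760)) (Int.ofNat (nat_lit 527759060)) (Int.negSucc (nat_lit 508866759)) (Int.negSucc (nat_lit 457841585))),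
  (Cv.mk (Int.ofNat (nat_lit 730333184)) (Int.negSucc (nat_lit 730333183)) (Int.ofNat (nat_lit 508866760)) (Int.ofNat (nat_lit 527759060)) (Int.negSucc (nat_lit 508866759)) (Int.negSucc (nat_lit 508866759)) (Int.negSucc (nat_lit 527759059)) (Int.ofNat (nat_lit 508866760)) (Int.negSucc (nat_lit 457841585))),
  (Cv.mk (Int.ofNat (nat_lit 730333184)) (Int.ofNat (nat_lit 730333184)) (Int.ofNat (nat_lit 0)) (Int.ofNat (nat_lit 0)) (Int.ofNat (nat_lit 0)) (Int.ofNat (nat_lit 0)) (Int.ofNat (nat_lit 0)) (Int.ofNat (nat_lit 0)) (Int.negSucc (nat_lit 272961256))),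
  (Cv.mk (Int.ofNat (nat_lit 730333184)) (Int.negSucc (nat_lit 730333183)) (Int.ofNat (nat_lit 0)) (Int.ofNat (nat_lit 0)) (Int.ofNat (nat_lit 0)) (Int.ofNat (nat_lit 0)) (Int.ofNat (nat_lit 0)) (Int.ofNat (nat_lit 0)) (Int.negSucc (nat_lit 272961256)))]

/-- the constraints of state 8 -/
def row8 : List Cv := [(Cv.mk (Int.ofNat (nat_lit 730333184)) (Int.ofNat (nat_lit 730333184)) (Int.ofNat (nat_lit 0)) (Int.ofNat (nat_lit 0)) (Int.ofNat (nat_lit 0)) (Int.ofNat (nat_lit 0)) (Int.ofNat (nat_lit 0)) (Int.ofNat (nat_lit 0)) (Int.negSucc (nat_lit 272971834))),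
  (Cv.mk (Int.ofNat (nat_lit 730333184)) (Int.negSucc (nat_lit 730333183)) (Int.ofNat (nat_lit 0)) (Int.ofNat (nat_lit 0)) (Int.ofNat (nat_lit 0)) (Int.ofNat (nat_lit 0)) (Int.ofNat (nat_lit 0)) (Int.ofNat (nat_lit 0)) (Int.negSucc (nat_lit 272971834))),
  (Cv.mk (Int.ofNat (nat_lit 730333184)) (Int.ofNat (nat_lit 730333184)) (Int.negSucc (nat_lit 511262279)) (Int.negSucc (nat_lit 511262279)) (Int.negSucc (nat_lit 524165779)) (Int.negSucc (nat_lit 511262279)) (Int.negSucc (nat_lit 511262279)) (Int.negSucc (nat_lit 524165779)) (Int.negSucc (nat_lit 457392577))),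
  (Cv.mk (Int.ofNat (nat_lit 730333184)) (Int.negSucc (nat_lit 730333183)) (Int.negSucc (nat_lit 511262279)) (Int.negSucc (nat_lit 511262279)) (Int.negSucc (nat_lit 524165779)) (Int.ofNat (nat_lit 511262280)) (Int.ofNat (nat_lit 511262280)) (Int.ofNat (nat_lit 524165780)) (Int.negSucc (nat_lit 457392577))),
  (Cv.mk (Int.ofNat (nat_lit 730333184)) (Int.ofNat (nat_lit 730333184)) (Int.negSucc (nat_lit 516423679)) (Int.ofNat (nat_lit 516423680)) (Int.ofNat (nat_lit 513842980)) (Int.negSucc (nat_lit 516423679)) (Int.ofNat (nat_lit 516423680)) (Int.ofNat (nat_lit 513842980)) (Int.negSucc (nat_lit 457392577))),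
  (Cv.mk (Int.ofNat (nat_lit 730333184)) (Int.negSucc (nat_lit 730333183)) (Int.negSucc (nat_lit 516423679)) (Int.ofNat (nat_lit 516423680)) (Int.ofNat (nat_lit 513842980)) (Int.ofNat (nat_lit 516423680)) (Int.negSucc (nat_lit 516423679)) (Int.negSucc (nat_lit 513842979)) (Int.negSucc (nat_lit 457392577))),
  (Cv.mk (Int.ofNat (nat_lit 730333184)) (Int.ofNat (nat_lit 730333184)) (Int.ofNat (nat_lit 516423680)) (Int.negSucc (nat_lit 516423679)) (Int.ofNat (nat_lit 513842980)) (Int.ofNat (nat_lit 516423680)) (Int.negSucc (nat_lit 516423679)) (Int.ofNat (nat_lit 513842980)) (Int.negSucc (nat_lit 457392577))),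
  (Cv.mk (Int.ofNat (nat_lit 730333184)) (Int.negSucc (nat_lit 730333183)) (Int.ofNat (nat_lit 516423680)) (Int.negSucc (nat_lit 516423679)) (Int.ofNat (nat_lit 513842980)) (Int.negSucc (nat_lit 516423679)) (Int.ofNat (nat_lit 516423680)) (Int.negSucc (nat_lit 513842979)) (Int.negSucc (nat_lit 457392577))),
  (Cv.mk (Int.ofNat (nat_lit 730333184)) (Int.ofNat (nat_lit 730333184)) (Int.ofNat (nat_lit 511262280)) (Int.ofNat (nat_lit 511262280)) (Int.negSucc (nat_lit 524165779)) (Int.ofNat (nat_lit 511262280)) (Int.ofNat (nat_lit 511262280)) (Int.negSucc (nat_lit 524165779)) (Int.negSucc (nat_lit 457392577))),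
  (Cv.mk (Int.ofNat (nat_lit 730333184)) (Int.negSucc (nat_lit 730333183)) (Int.ofNat (nat_lit 511262280)) (Int.ofNat (nat_lit 511262280)) (Int.negSucc (nat_lit 524165779)) (Int.negSucc (nat_lit 511262279)) (Int.negSucc (nat_lit 511262279)) (Int.ofNat (nat_lit 524165780)) (Int.negSucc (nat_lit 457392577))),
  (Cv.mk (Int.ofNat (nat_lit 730333184)) (Int.ofNat (nat_lit 730333184)) (Int.ofNat (nat_lit 0)) (Int.ofNat (nat_lit 0)) (Int.ofNat (nat_lit 0)) (Int.ofNat (nat_lit 0)) (Int.ofNat (nat_lit 0)) (Int.ofNat (nat_lit 0)) (Int.negSucc (nat_lit 272961256))),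
  (Cv.mk (Int.ofNat (nat_lit 730333184)) (Int.negSucc (nat_lit 730333183)) (Int.ofNat (nat_lit 0)) (Int.ofNat (nat_lit 0)) (Int.ofNat (nat_lit 0)) (Int.ofNat (nat_lit 0)) (Int.ofNat (nat_lit 0)) (Int.ofNat (nat_lit 0)) (Int.negSucc (nat_lit 272961256)))]

/-- the constraints of state 9 -/
def row9 : List Cv := [(Cv.mk (Int.ofNat (nat_lit 730333184)) (Int.ofNat (nat_lit 730333184)) (Int.ofNat (nat_lit 0)) (Int.ofNat (nat_lit 0)) (Int.ofNat (nat_lit 0)) (Int.ofNat (nat_lit 0)) (Int.ofNat (nat_lit 0)) (Int.ofNat (nat_lit 0)) (Int.negSucc (nat_lit 272559306))),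
  (Cv.mk (Int.ofNat (nat_lit 730333184)) (Int.negSucc (nat_lit 730333183)) (Int.ofNat (nat_lit 0)) (Int.ofNat (nat_lit 0)) (Int.ofNat (nat_lit 0)) (Int.ofNat (nat_lit 0)) (Int.ofNat (nat_lit 0)) (Int.ofNat (nat_lit 0)) (Int.negSucc (nat_lit 272559306))),
  (Cv.mk (Int.ofNat (nat_lit 730333184)) (Int.ofNat (nat_lit 730333184)) (Int.negSucc (nat_lit 508866759)) (Int.negSucc (nat_lit 508866759)) (Int.negSucc (nat_lit 527759059)) (Int.negSucc (nat_lit 508866759)) (Int.negSucc (nat_lit 508866759)) (Int.negSucc (nat_lit 527759059)) (Int.negSucc (nat_lit 457841585))),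
  (Cv.mk (Int.ofNat (nat_lit 730333184)) (Int.negSucc (nat_lit 730333183)) (Int.negSucc (nat_lit 508866759)) (Int.negSucc (nat_lit 508866759)) (Int.negSucc (nat_lit 527759059)) (Int.ofNat (nat_lit 508866760)) (Int.ofNat (nat_lit 508866760)) (Int.ofNat (nat_lit 527759060)) (Int.negSucc (nat_lit 457841585))),
  (Cv.mk (Int.ofNat (nat_lit 730333184)) (Int.ofNat (nat_lit 730333184)) (Int.negSucc (nat_lit 516423679)) (Int.ofNat (nat_lit 516423680)) (Int.ofNat (nat_lit 512645220)) (Int.negSucc (nat_lit 516423679)) (Int.ofNat (nat_lit 516423680)) (Int.ofNat (nat_lit 512645220)) (Int.negSucc (nat_lit 457841585))),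
  (Cv.mk (Int.ofNat (nat_lit 730333184)) (Int.negSucc (nat_lit 730333183)) (Int.negSucc (nat_lit 516423679)) (Int.ofNat (nat_lit 516423680)) (Int.ofNat (nat_lit 512645220)) (Int.ofNat (nat_lit 516423680)) (Int.negSucc (nat_lit 516423679)) (Int.negSucc (nat_lit 512645219)) (Int.negSucc (nat_lit 457841585))),
  (Cv.mk (Int.ofNat (nat_lit 730333184)) (Int.ofNat (nat_lit 730333184)) (Int.ofNat (nat_lit 516423680)) (Int.negSucc (nat_lit 516423679)) (Int.ofNat (nat_lit 512645220)) (Int.ofNat (nat_lit 516423680)) (Int.negSucc (nat_lit 516423679)) (Int.ofNat (nat_lit 512645220)) (Int.negSucc (nat_lit 457841585))),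
  (Cv.mk (Int.ofNat (nat_lit 730333184)) (Int.negSucc (nat_lit 730333183)) (Int.ofNat (nat_lit 516423680)) (Int.negSucc (nat_lit 516423679)) (Int.ofNat (nat_lit 512645220)) (Int.negSucc (nat_lit 516423679)) (Int.ofNat (nat_lit 516423680)) (Int.negSucc (nat_lit 512645219)) (Int.negSucc (nat_lit 457841585))),
  (Cv.mk (Int.ofNat (nat_lit 730333184)) (Int.ofNat (nat_lit 730333184)) (Int.ofNat (nat_lit 508866760)) (Int.ofNat (nat_lit 508866760)) (Int.negSucc (nat_lit 527759059)) (Int.ofNat (nat_lit 508866760)) (Int.ofNat (nat_lit 508866760)) (Int.negSucc (nat_lit 527759059)) (Int.negSucc (nat_lit 457841585))),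
  (Cv.mk (Int.ofNat (nat_lit 730333184)) (Int.negSucc (nat_lit 730333183)) (Int.ofNat (nat_lit 508866760)) (Int.ofNat (nat_lit 508866760)) (Int.negSucc (nat_lit 527759059)) (Int.negSucc (nat_lit 508866759)) (Int.negSucc (nat_lit 508866759)) (Int.ofNat (nat_lit 527759060)) (Int.negSucc (nat_lit 457841585))),
  (Cv.mk (Int.ofNat (nat_lit 730333184)) (Int.ofNat (nat_lit 730333184)) (Int.ofNat (nat_lit 0)) (Int.ofNat (nat_lit 0)) (Int.ofNat (nat_lit 0)) (Int.ofNat (nat_lit 0)) (Int.ofNat (nat_lit 0)) (Int.ofNat (nat_lit 0)) (Int.negSucc (nat_lit 272961256))),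
  (Cv.mk (Int.ofNat (nat_lit 730333184)) (Int.negSucc (nat_lit 730333183)) (Int.ofNat (nat_lit 0)) (Int.ofNat (nat_lit 0)) (Int.ofNat (nat_lit 0)) (Int.ofNat (nat_lit 0)) (Int.ofNat (nat_lit 0)) (Int.ofNat (nat_lit 0)) (Int.negSucc (nat_lit 272961256)))]

/-- the constraints of state 10 -/
def row10 : List Cv := [(Cv.mk (Int.ofNat (nat_lit 730333184)) (Int.ofNat (nat_lit 730333184)) (Int.ofNat (nat_lit 0)) (Int.ofNat (nat_lit 0)) (Int.ofNat (nat_lit 0)) (Int.ofNat (nat_lit 0)) (Int.ofNat (nat_lit 0)) (Int.ofNat (nat_lit 0)) (Int.negSucc (nat_lit 272971834))),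
  (Cv.mk (Int.ofNat (nat_lit 730333184)) (Int.negSucc (nat_lit 730333183)) (Int.ofNat (nat_lit 0)) (Int.ofNat (nat_lit 0)) (Int.ofNat (nat_lit 0)) (Int.ofNat (nat_lit 0)) (Int.ofNat (nat_lit 0)) (Int.ofNat (nat_lit 0)) (Int.negSucc (nat_lit 272971834))),
  (Cv.mk (Int.ofNat (nat_lit 730333184)) (Int.ofNat (nat_lit 730333184)) (Int.negSucc (nat_lit 516423679)) (Int.negSucc (nat_lit 516423679)) (Int.negSucc (nat_lit 513842979)) (Int.negSucc (nat_lit 516423679)) (Int.negSucc (nat_lit 516423679)) (Int.negSucc (nat_lit 513842979)) (Int.negSucc (nat_lit 457392577))),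
  (Cv.mk (Int.ofNat (nat_lit 730333184)) (Int.negSucc (nat_lit 730333183)) (Int.negSucc (nat_lit 516423679)) (Int.negSucc (nat_lit 516423679)) (Int.negSucc (nat_lit 513842979)) (Int.ofNat (nat_lit 516423680)) (Int.ofNat (nat_lit 516423680)) (Int.ofNat (nat_lit 513842980)) (Int.negSucc (nat_lit 457392577))),
  (Cv.mk (Int.ofNat (nat_lit 730333184)) (Int.ofNat (nat_lit 730333184)) (Int.negSucc (nat_lit 511262279)) (Int.ofNat (nat_lit 511262280)) (Int.ofNat (nat_lit 524165780)) (Int.negSucc (nat_lit 511262279)) (Int.ofNat (nat_lit 511262280)) (Int.ofNat (nat_lit 524165780)) (Int.negSucc (nat_lit 457392577))),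
  (Cv.mk (Int.ofNat (nat_lit 730333184)) (Int.negSucc (nat_lit 730333183)) (Int.negSucc (nat_lit 511262279)) (Int.ofNat (nat_lit 511262280)) (Int.ofNat (nat_lit 524165780)) (Int.ofNat (nat_lit 511262280)) (Int.negSucc (nat_lit 511262279)) (Int.negSucc (nat_lit 524165779)) (Int.negSucc (nat_lit 457392577))),
  (Cv.mk (Int.ofNat (nat_lit 730333184)) (Int.ofNat (nat_lit 730333184)) (Int.ofNat (nat_lit 511262280)) (Int.negSucc (nat_lit 511262279)) (Int.ofNat (nat_lit 524165780)) (Int.ofNat (nat_lit 511262280)) (Int.negSucc (nat_lit 511262279)) (Int.ofNat (nat_lit 524165780)) (Int.negSucc (nat_lit 457392577))),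
  (Cv.mk (Int.ofNat (nat_lit 730333184)) (Int.negSucc (nat_lit 730333183)) (Int.ofNat (nat_lit 511262280)) (Int.negSucc (nat_lit 511262279)) (Int.ofNat (nat_lit 524165780)) (Int.negSucc (nat_lit 511262279)) (Int.ofNat (nat_lit 511262280)) (Int.negSucc (nat_lit 524165779)) (Int.negSucc (nat_lit 457392577))),
  (Cv.mk (Int.ofNat (nat_lit 730333184)) (Int.ofNat (nat_lit 730333184)) (Int.ofNat (nat_lit 516423680)) (Int.ofNat (nat_lit 516423680)) (Int.negSucc (nat_lit 513842979)) (Int.ofNat (nat_lit 516423680)) (Int.ofNat (nat_lit 516423680)) (Int.negSucc (nat_lit 513842979)) (Int.negSucc (nat_lit 457392577))),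
  (Cv.mk (Int.ofNat (nat_lit 730333184)) (Int.negSucc (nat_lit 730333183)) (Int.ofNat (nat_lit 516423680)) (Int.ofNat (nat_lit 516423680)) (Int.negSucc (nat_lit 513842979)) (Int.negSucc (nat_lit 516423679)) (Int.negSucc (nat_lit 516423679)) (Int.ofNat (nat_lit 513842980)) (Int.negSucc (nat_lit 457392577))),
  (Cv.mk (Int.ofNat (nat_lit 730333184)) (Int.ofNat (nat_lit 730333184)) (Int.ofNat (nat_lit 0)) (Int.ofNat (nat_lit 0)) (Int.ofNat (nat_lit 0)) (Int.ofNat (nat_lit 0)) (Int.ofNat (nat_lit 0)) (Int.ofNat (nat_lit 0)) (Int.negSucc (nat_lit 272961256))),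
  (Cv.mk (Int.ofNat (nat_lit 730333184)) (Int.negSucc (nat_lit 730333183)) (Int.ofNat (nat_lit 0)) (Int.ofNat (nat_lit 0)) (Int.ofNat (nat_lit 0)) (Int.ofNat (nat_lit 0)) (Int.ofNat (nat_lit 0)) (Int.ofNat (nat_lit 0)) (Int.negSucc (nat_lit 272961256)))]

/-- the constraints of state 11 -/
def row11 : List Cv := [(Cv.mk (Int.ofNat (nat_lit 730333184)) (Int.ofNat (nat_lit 730333184)) (Int.ofNat (nat_lit 0)) (Int.ofNat (nat_lit 0)) (Int.ofNat (nat_lit 0)) (Int.ofNat (nat_lit 0)) (Int.ofNat (nat_lit 0)) (Int.ofNat (nat_lit 0)) (Int.negSucc (nat_lit 272559306))),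
  (Cv.mk (Int.ofNat (nat_lit 730333184)) (Int.negSucc (nat_lit 730333183)) (Int.ofNat (nat_lit 0)) (Int.ofNat (nat_lit 0)) (Int.ofNat (nat_lit 0)) (Int.ofNat (nat_lit 0)) (Int.ofNat (nat_lit 0)) (Int.ofNat (nat_lit 0)) (Int.negSucc (nat_lit 272559306))),
  (Cv.mk (Int.ofNat (nat_lit 730333184)) (Int.ofNat (nat_lit 730333184)) (Int.negSucc (nat_lit 516423679)) (Int.negSucc (nat_lit 516423679)) (Int.negSucc (nat_lit 512645219)) (Int.negSucc (nat_lit 516423679)) (Int.negSucc (nat_lit 516423679)) (Int.negSucc (nat_lit 512645219)) (Int.negSucc (nat_lit 457841585))),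
  (Cv.mk (Int.ofNat (nat_lit 730333184)) (Int.negSucc (nat_lit 730333183)) (Int.negSucc (nat_lit 516423679)) (Int.negSucc (nat_lit 516423679)) (Int.negSucc (nat_lit 512645219)) (Int.ofNat (nat_lit 516423680)) (Int.ofNat (nat_lit 516423680)) (Int.ofNat (nat_lit 512645220)) (Int.negSucc (nat_lit 457841585))),
  (Cv.mk (Int.ofNat (nat_lit 730333184)) (Int.ofNat (nat_lit 730333184)) (Int.negSucc (nat_lit 508866759)) (Int.ofNat (nat_lit 508866760)) (Int.ofNat (nat_lit 527759060)) (Int.negSucc (nat_lit 508866759)) (Int.ofNat (nat_lit 508866760)) (Int.ofNat (nat_lit 527759060)) (Int.negSucc (nat_lit 457841585))),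
  (Cv.mk (Int.ofNat (nat_lit 730333184)) (Int.negSucc (nat_lit 730333183)) (Int.negSucc (nat_lit 508866759)) (Int.ofNat (nat_lit 508866760)) (Int.ofNat (nat_lit 527759060)) (Int.ofNat (nat_lit 508866760)) (Int.negSucc (nat_lit 508866759)) (Int.negSucc (nat_lit 527759059)) (Int.negSucc (nat_lit 457841585))),
  (Cv.mk (Int.ofNat (nat_lit 730333184)) (Int.ofNat (nat_lit 730333184)) (Int.ofNat (nat_lit 508866760)) (Int.negSucc (nat_lit 508866759)) (Int.ofNat (nat_lit 527759060)) (Int.ofNat (nat_lit 508866760)) (Int.negSucc (nat_lit 508866759)) (Int.ofNat (nat_lit 527759060)) (Int.negSucc (nat_lit 457841585))),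
  (Cv.mk (Int.ofNat (nat_lit 730333184)) (Int.negSucc (nat_lit 730333183)) (Int.ofNat (nat_lit 508866760)) (Int.negSucc (nat_lit 508866759)) (Int.ofNat (nat_lit 527759060)) (Int.negSucc (nat_lit 508866759)) (Int.ofNat (nat_lit 508866760)) (Int.negSucc (nat_lit 527759059)) (Int.negSucc (nat_lit 457841585))),
  (Cv.mk (Int.ofNat (nat_lit 730333184)) (Int.ofNat (nat_lit 730333184)) (Int.ofNat (nat_lit 516423680)) (Int.ofNat (nat_lit 516423680)) (Int.negSucc (nat_lit 512645219)) (Int.ofNat (nat_lit 516423680)) (Int.ofNat (nat_lit 516423680)) (Int.negSucc (nat_lit 512645219)) (Int.negSucc (nat_lit 457841585))),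
  (Cv.mk (Int.ofNat (nat_lit 730333184)) (Int.negSucc (nat_lit 730333183)) (Int.ofNat (nat_lit 516423680)) (Int.ofNat (nat_lit 516423680)) (Int.negSucc (nat_lit 512645219)) (Int.negSucc (nat_lit 516423679)) (Int.negSucc (nat_lit 516423679)) (Int.ofNat (nat_lit 512645220)) (Int.negSucc (nat_lit 457841585))),
  (Cv.mk (Int.ofNat (nat_lit 730333184)) (Int.ofNat (nat_lit 730333184)) (Int.ofNat (nat_lit 0)) (Int.ofNat (nat_lit 0)) (Int.ofNat (nat_lit 0)) (Int.ofNat (nat_lit 0)) (Int.ofNat (nat_lit 0)) (Int.ofNat (nat_lit 0)) (Int.negSucc (nat_lit 272961256))),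
  (Cv.mk (Int.ofNat (nat_lit 730333184)) (Int.negSucc (nat_lit 730333183)) (Int.ofNat (nat_lit 0)) (Int.ofNat (nat_lit 0)) (Int.ofNat (nat_lit 0)) (Int.ofNat (nat_lit 0)) (Int.ofNat (nat_lit 0)) (Int.ofNat (nat_lit 0)) (Int.negSucc (nat_lit 272961256)))]

/-- the rows -/
def rows : List (List Cv) := [row0, row1, row2, row3, row4, row5, row6, row7, row8, row9, row10, row11]

/-- the constraint 0 at the states -/
def col0 : List Cv := [(Cv.mk (Int.ofNat (nat_lit 730333184)) (Int.ofNat (nat_lit 730333184)) (Int.ofNat (nat_lit 0)) (Int.ofNat (nat_lit 0)) (Int.ofNat (nat_lit 0)) (Int.ofNat (nat_lit 0)) (Int.ofNat (nat_lit 0)) (Int.ofNat (nat_lit 0)) (Int.negSucc (nat_lit 272971834))),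
  (Cv.mk (Int.ofNat (nat_lit 730333184)) (Int.ofNat (nat_lit 730333184)) (Int.ofNat (nat_lit 0)) (Int.ofNat (nat_lit 0)) (Int.ofNat (nat_lit 0)) (Int.ofNat (nat_lit 0)) (Int.ofNat (nat_lit 0)) (Int.ofNat (nat_lit 0)) (Int.negSucc (nat_lit 272559306))),
  (Cv.mk (Int.ofNat (nat_lit 730333184)) (Int.ofNat (nat_lit 730333184)) (Int.ofNat (nat_lit 0)) (Int.ofNat (nat_lit 0)) (Int.ofNat (nat_lit 0)) (Int.ofNat (nat_lit 0)) (Int.ofNat (nat_lit 0)) (Int.ofNat (nat_lit 0)) (Int.negSucc (nat_lit 272971834))),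
  (Cv.mk (Int.ofNat (nat_lit 730333184)) (Int.ofNat (nat_lit 730333184)) (Int.ofNat (nat_lit 0)) (Int.ofNat (nat_lit 0)) (Int.ofNat (nat_lit 0)) (Int.ofNat (nat_lit 0)) (Int.ofNat (nat_lit 0)) (Int.ofNat (nat_lit 0)) (Int.negSucc (nat_lit 272559306))),
  (Cv.mk (Int.ofNat (nat_lit 730333184)) (Int.ofNat (nat_lit 730333184)) (Int.ofNat (nat_lit 0)) (Int.ofNat (nat_lit 0)) (Int.ofNat (nat_lit 0)) (Int.ofNat (nat_lit 0)) (Int.ofNat (nat_lit 0)) (Int.ofNat (nat_lit 0)) (Int.negSucc (nat_lit 272971834))),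
  (Cv.mk (Int.ofNat (nat_lit 730333184)) (Int.ofNat (nat_lit 730333184)) (Int.ofNat (nat_lit 0)) (Int.ofNat (nat_lit 0)) (Int.ofNat (nat_lit 0)) (Int.ofNat (nat_lit 0)) (Int.ofNat (nat_lit 0)) (Int.ofNat (nat_lit 0)) (Int.negSucc (nat_lit 272559306))),
  (Cv.mk (Int.ofNat (nat_lit 730333184)) (Int.ofNat (nat_lit 730333184)) (Int.ofNat (nat_lit 0)) (Int.ofNat (nat_lit 0)) (Int.ofNat (nat_lit 0)) (Int.ofNat (nat_lit 0)) (Int.ofNat (nat_lit 0)) (Int.ofNat (nat_lit 0)) (Int.negSucc (nat_lit 272971834))),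
  (Cv.mk (Int.ofNat (nat_lit 730333184)) (Int.ofNat (nat_lit 730333184)) (Int.ofNat (nat_lit 0)) (Int.ofNat (nat_lit 0)) (Int.ofNat (nat_lit 0)) (Int.ofNat (nat_lit 0)) (Int.ofNat (nat_lit 0)) (Int.ofNat (nat_lit 0)) (Int.negSucc (nat_lit 272559306))),
  (Cv.mk (Int.ofNat (nat_lit 730333184)) (Int.ofNat (nat_lit 730333184)) (Int.ofNat (nat_lit 0)) (Int.ofNat (nat_lit 0)) (Int.ofNat (nat_lit 0)) (Int.ofNat (nat_lit 0)) (Int.ofNat (nat_lit 0)) (Int.ofNat (nat_lit 0)) (Int.negSucc (nat_lit 272971834))),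
  (Cv.mk (Int.ofNat (nat_lit 730333184)) (Int.ofNat (nat_lit 730333184)) (Int.ofNat (nat_lit 0)) (Int.ofNat (nat_lit 0)) (Int.ofNat (nat_lit 0)) (Int.ofNat (nat_lit 0)) (Int.ofNat (nat_lit 0)) (Int.ofNat (nat_lit 0)) (Int.negSucc (nat_lit 272559306))),
  (Cv.mk (Int.ofNat (nat_lit 730333184)) (Int.ofNat (nat_lit 730333184)) (Int.ofNat (nat_lit 0)) (Int.ofNat (nat_lit 0)) (Int.ofNat (nat_lit 0)) (Int.ofNat (nat_lit 0)) (Int.ofNat (nat_lit 0)) (Int.ofNat (nat_lit 0)) (Int.negSucc (nat_lit 272971834))),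
  (Cv.mk (Int.ofNat (nat_lit 730333184)) (Int.ofNat (nat_lit 730333184)) (Int.ofNat (nat_lit 0)) (Int.ofNat (nat_lit 0)) (Int.ofNat (nat_lit 0)) (Int.ofNat (nat_lit 0)) (Int.ofNat (nat_lit 0)) (Int.ofNat (nat_lit 0)) (Int.negSucc (nat_lit 272559306)))]

/-- the constraint 1 at the states -/
def col1 : List Cv := [(Cv.mk (Int.ofNat (nat_lit 730333184)) (Int.negSucc (nat_lit 730333183)) (Int.ofNat (nat_lit 0)) (Int.ofNat (nat_lit 0)) (Int.ofNat (nat_lit 0)) (Int.ofNat (nat_lit 0)) (Int.ofNat (nat_lit 0)) (Int.ofNat (nat_lit 0)) (Int.negSucc (nat_lit 272971834))),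
  (Cv.mk (Int.ofNat (nat_lit 730333184)) (Int.negSucc (nat_lit 730333183)) (Int.ofNat (nat_lit 0)) (Int.ofNat (nat_lit 0)) (Int.ofNat (nat_lit 0)) (Int.ofNat (nat_lit 0)) (Int.ofNat (nat_lit 0)) (Int.ofNat (nat_lit 0)) (Int.negSucc (nat_lit 272559306))),
  (Cv.mk (Int.ofNat (nat_lit 730333184)) (Int.negSucc (nat_lit 730333183)) (Int.ofNat (nat_lit 0)) (Int.ofNat (nat_lit 0)) (Int.ofNat (nat_lit 0)) (Int.ofNat (nat_lit 0)) (Int.ofNat (nat_lit 0)) (Int.ofNat (nat_lit 0)) (Int.negSucc (nat_lit 272971834))),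
  (Cv.mk (Int.ofNat (nat_lit 730333184)) (Int.negSucc (nat_lit 730333183)) (Int.ofNat (nat_lit 0)) (Int.ofNat (nat_lit 0)) (Int.ofNat (nat_lit 0)) (Int.ofNat (nat_lit 0)) (Int.ofNat (nat_lit 0)) (Int.ofNat (nat_lit 0)) (Int.negSucc (nat_lit 272559306))),
  (Cv.mk (Int.ofNat (nat_lit 730333184)) (Int.negSucc (nat_lit 730333183)) (Int.ofNat (nat_lit 0)) (Int.ofNat (nat_lit 0)) (Int.ofNat (nat_lit 0)) (Int.ofNat (nat_lit 0)) (Int.ofNat (nat_lit 0)) (Int.ofNat (nat_lit 0)) (Int.negSucc (nat_lit 272971834))),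
  (Cv.mk (Int.ofNat (nat_lit 730333184)) (Int.negSucc (nat_lit 730333183)) (Int.ofNat (nat_lit 0)) (Int.ofNat (nat_lit 0)) (Int.ofNat (nat_lit 0)) (Int.ofNat (nat_lit 0)) (Int.ofNat (nat_lit 0)) (Int.ofNat (nat_lit 0)) (Int.negSucc (nat_lit 272559306))),
  (Cv.mk (Int.ofNat (nat_lit 730333184)) (Int.negSucc (nat_lit 730333183)) (Int.ofNat (nat_lit 0)) (Int.ofNat (nat_lit 0)) (Int.ofNat (nat_lit 0)) (Int.ofNat (nat_lit 0)) (Int.ofNat (nat_lit 0)) (Int.ofNat (nat_lit 0)) (Int.negSucc (nat_lit 272971834))),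
  (Cv.mk (Int.ofNat (nat_lit 730333184)) (Int.negSucc (nat_lit 730333183)) (Int.ofNat (nat_lit 0)) (Int.ofNat (nat_lit 0)) (Int.ofNat (nat_lit 0)) (Int.ofNat (nat_lit 0)) (Int.ofNat (nat_lit 0)) (Int.ofNat (nat_lit 0)) (Int.negSucc (nat_lit 272559306))),
  (Cv.mk (Int.ofNat (nat_lit 730333184)) (Int.negSucc (nat_lit 730333183)) (Int.ofNat (nat_lit 0)) (Int.ofNat (nat_lit 0)) (Int.ofNat (nat_lit 0)) (Int.ofNat (nat_lit 0)) (Int.ofNat (nat_lit 0)) (Int.ofNat (nat_lit 0)) (Int.negSucc (nat_lit 272971834))),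
  (Cv.mk (Int.ofNat (nat_lit 730333184)) (Int.negSucc (nat_lit 730333183)) (Int.ofNat (nat_lit 0)) (Int.ofNat (nat_lit 0)) (Int.ofNat (nat_lit 0)) (Int.ofNat (nat_lit 0)) (Int.ofNat (nat_lit 0)) (Int.ofNat (nat_lit 0)) (Int.negSucc (nat_lit 272559306))),
  (Cv.mk (Int.ofNat (nat_lit 730333184)) (Int.negSucc (nat_lit 730333183)) (Int.ofNat (nat_lit 0)) (Int.ofNat (nat_lit 0)) (Int.ofNat (nat_lit 0)) (Int.ofNat (nat_lit 0)) (Int.ofNat (nat_lit 0)) (Int.ofNat (nat_lit 0)) (Int.negSucc (nat_lit 272971834))),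
  (Cv.mk (Int.ofNat (nat_lit 730333184)) (Int.negSucc (nat_lit 730333183)) (Int.ofNat (nat_lit 0)) (Int.ofNat (nat_lit 0)) (Int.ofNat (nat_lit 0)) (Int.ofNat (nat_lit 0)) (Int.ofNat (nat_lit 0)) (Int.ofNat (nat_lit 0)) (Int.negSucc (nat_lit 272559306)))]

/-- the constraint 2 at the states -/
def col2 : List Cv := [(Cv.mk (Int.ofNat (nat_lit 730333184)) (Int.ofNat (nat_lit 730333184)) (Int.negSucc (nat_lit 524165779)) (Int.negSucc (nat_lit 511262279)) (Int.negSucc (nat_lit 511262279)) (Int.negSucc (nat_lit 524165779)) (Int.negSucc (nat_lit 511262279)) (Int.negSucc (nat_lit 511262279)) (Int.negSucc (nat_lit 457392577))),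
  (Cv.mk (Int.ofNat (nat_lit 730333184)) (Int.ofNat (nat_lit 730333184)) (Int.negSucc (nat_lit 527759059)) (Int.negSucc (nat_lit 508866759)) (Int.negSucc (nat_lit 508866759)) (Int.negSucc (nat_lit 527759059)) (Int.negSucc (nat_lit 508866759)) (Int.negSucc (nat_lit 508866759)) (Int.negSucc (nat_lit 457841585))),
  (Cv.mk (Int.ofNat (nat_lit 730333184)) (Int.ofNat (nat_lit 730333184)) (Int.negSucc (nat_lit 513842979)) (Int.negSucc (nat_lit 516423679)) (Int.negSucc (nat_lit 516423679)) (Int.negSucc (nat_lit 513842979)) (Int.negSucc (nat_lit 516423679)) (Int.negSucc (nat_lit 516423679)) (Int.negSucc (nat_lit 457392577))),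
  (Cv.mk (Int.ofNat (nat_lit 730333184)) (Int.ofNat (nat_lit 730333184)) (Int.negSucc (nat_lit 512645219)) (Int.negSucc (nat_lit 516423679)) (Int.negSucc (nat_lit 516423679)) (Int.negSucc (nat_lit 512645219)) (Int.negSucc (nat_lit 516423679)) (Int.negSucc (nat_lit 516423679)) (Int.negSucc (nat_lit 457841585))),
  (Cv.mk (Int.ofNat (nat_lit 730333184)) (Int.ofNat (nat_lit 730333184)) (Int.negSucc (nat_lit 511262279)) (Int.negSucc (nat_lit 524165779)) (Int.negSucc (nat_lit 511262279)) (Int.negSucc (nat_lit 511262279)) (Int.negSucc (nat_lit 524165779)) (Int.negSucc (nat_lit 511262279)) (Int.negSucc (nat_lit 457392577))),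
  (Cv.mk (Int.ofNat (nat_lit 730333184)) (Int.ofNat (nat_lit 730333184)) (Int.negSucc (nat_lit 508866759)) (Int.negSucc (nat_lit 527759059)) (Int.negSucc (nat_lit 508866759)) (Int.negSucc (nat_lit 508866759)) (Int.negSucc (nat_lit 527759059)) (Int.negSucc (nat_lit 508866759)) (Int.negSucc (nat_lit 457841585))),
  (Cv.mk (Int.ofNat (nat_lit 730333184)) (Int.ofNat (nat_lit 730333184)) (Int.negSucc (nat_lit 516423679)) (Int.negSucc (nat_lit 513842979)) (Int.negSucc (nat_lit 516423679)) (Int.negSucc (nat_lit 516423679)) (Int.negSucc (nat_lit 513842979)) (Int.negSucc (nat_lit 516423679)) (Int.negSucc (nat_lit 457392577))),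
  (Cv.mk (Int.ofNat (nat_lit 730333184)) (Int.ofNat (nat_lit 730333184)) (Int.negSucc (nat_lit 516423679)) (Int.negSucc (nat_lit 512645219)) (Int.negSucc (nat_lit 516423679)) (Int.negSucc (nat_lit 516423679)) (Int.negSucc (nat_lit 512645219)) (Int.negSucc (nat_lit 516423679)) (Int.negSucc (nat_lit 457841585))),
  (Cv.mk (Int.ofNat (nat_lit 730333184)) (Int.ofNat (nat_lit 730333184)) (Int.negSucc (nat_lit 511262279)) (Int.negSucc (nat_lit 511262279)) (Int.negSucc (nat_lit 524165779)) (Int.negSucc (nat_lit 511262279)) (Int.negSucc (nat_lit 511262279)) (Int.negSucc (nat_lit 524165779)) (Int.negSucc (nat_lit 457392577))),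
  (Cv.mk (Int.ofNat (nat_lit 730333184)) (Int.ofNat (nat_lit 730333184)) (Int.negSucc (nat_lit 508866759)) (Int.negSucc (nat_lit 508866759)) (Int.negSucc (nat_lit 527759059)) (Int.negSucc (nat_lit 508866759)) (Int.negSucc (nat_lit 508866759)) (Int.negSucc (nat_lit 527759059)) (Int.negSucc (nat_lit 457841585))),
  (Cv.mk (Int.ofNat (nat_lit 730333184)) (Int.ofNat (nat_lit 730333184)) (Int.negSucc (nat_lit 516423679)) (Int.negSucc (nat_lit 516423679)) (Int.negSucc (nat_lit 513842979)) (Int.negSucc (nat_lit 516423679)) (Int.negSucc (nat_lit 516423679)) (Int.negSucc (nat_lit 513842979)) (Int.negSucc (nat_lit 457392577))),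
  (Cv.mk (Int.ofNat (nat_lit 730333184)) (Int.ofNat (nat_lit 730333184)) (Int.negSucc (nat_lit 516423679)) (Int.negSucc (nat_lit 516423679)) (Int.negSucc (nat_lit 512645219)) (Int.negSucc (nat_lit 516423679)) (Int.negSucc (nat_lit 516423679)) (Int.negSucc (nat_lit 512645219)) (Int.negSucc (nat_lit 457841585)))]

/-- the constraint 3 at the states -/
def col3 : List Cv := [(Cv.mk (Int.ofNat (nat_lit 730333184)) (Int.negSucc (nat_lit 730333183)) (Int.negSucc (nat_lit 524165779)) (Int.negSucc (nat_lit 511262279)) (Int.negSucc (nat_lit 511262279)) (Int.ofNat (nat_lit 524165780)) (Int.ofNat (nat_lit 511262280)) (Int.ofNat (nat_lit 511262280)) (Int.negSucc (nat_lit 457392577))),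
  (Cv.mk (Int.ofNat (nat_lit 730333184)) (Int.negSucc (nat_lit 730333183)) (Int.negSucc (nat_lit 527759059)) (Int.negSucc (nat_lit 508866759)) (Int.negSucc (nat_lit 508866759)) (Int.ofNat (nat_lit 527759060)) (Int.ofNat (nat_lit 508866760)) (Int.ofNat (nat_lit 508866760)) (Int.negSucc (nat_lit 457841585))),
  (Cv.mk (Int.ofNat (nat_lit 730333184)) (Int.negSucc (nat_lit 730333183)) (Int.negSucc (nat_lit 513842979)) (Int.negSucc (nat_lit 516423679)) (Int.negSucc (nat_lit 516423679)) (Int.ofNat (nat_lit 513842980)) (Int.ofNat (nat_lit 516423680)) (Int.ofNat (nat_lit 516423680)) (Int.negSucc (nat_lit 457392577))),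
  (Cv.mk (Int.ofNat (nat_lit 730333184)) (Int.negSucc (nat_lit 730333183)) (Int.negSucc (nat_lit 512645219)) (Int.negSucc (nat_lit 516423679)) (Int.negSucc (nat_lit 516423679)) (Int.ofNat (nat_lit 512645220)) (Int.ofNat (nat_lit 516423680)) (Int.ofNat (nat_lit 516423680)) (Int.negSucc (nat_lit 457841585))),
  (Cv.mk (Int.ofNat (nat_lit 730333184)) (Int.negSucc (nat_lit 730333183)) (Int.negSucc (nat_lit 511262279)) (Int.negSucc (nat_lit 524165779)) (Int.negSucc (nat_lit 511262279)) (Int.ofNat (nat_lit 511262280)) (Int.ofNat (nat_lit 524165780)) (Int.ofNat (nat_lit 511262280)) (Int.negSucc (nat_lit 457392577))),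
  (Cv.mk (Int.ofNat (nat_lit 730333184)) (Int.negSucc (nat_lit 730333183)) (Int.negSucc (nat_lit 508866759)) (Int.negSucc (nat_lit 527759059)) (Int.negSucc (nat_lit 508866759)) (Int.ofNat (nat_lit 508866760)) (Int.ofNat (nat_lit 527759060)) (Int.ofNat (nat_lit 508866760)) (Int.negSucc (nat_lit 457841585))),
  (Cv.mk (Int.ofNat (nat_lit 730333184)) (Int.negSucc (nat_lit 730333183)) (Int.negSucc (nat_lit 516423679)) (Int.negSucc (nat_lit 513842979)) (Int.negSucc (nat_lit 516423679)) (Int.ofNat (nat_lit 516423680)) (Int.ofNat (nat_lit 513842980)) (Int.ofNat (nat_lit 516423680)) (Int.negSucc (nat_lit 457392577))),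
  (Cv.mk (Int.ofNat (nat_lit 730333184)) (Int.negSucc (nat_lit 730333183)) (Int.negSucc (nat_lit 516423679)) (Int.negSucc (nat_lit 512645219)) (Int.negSucc (nat_lit 516423679)) (Int.ofNat (nat_lit 516423680)) (Int.ofNat (nat_lit 512645220)) (Int.ofNat (nat_lit 516423680)) (Int.negSucc (nat_lit 457841585))),
  (Cv.mk (Int.ofNat (nat_lit 730333184)) (Int.negSucc (nat_lit 730333183)) (Int.negSucc (nat_lit 511262279)) (Int.negSucc (nat_lit 511262279)) (Int.negSucc (nat_lit 524165779)) (Int.ofNat (nat_lit 511262280)) (Int.ofNat (nat_lit 511262280)) (Int.ofNat (nat_lit 524165780)) (Int.negSucc (nat_lit 457392577))),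
  (Cv.mk (Int.ofNat (nat_lit 730333184)) (Int.negSucc (nat_lit 730333183)) (Int.negSucc (nat_lit 508866759)) (Int.negSucc (nat_lit 508866759)) (Int.negSucc (nat_lit 527759059)) (Int.ofNat (nat_lit 508866760)) (Int.ofNat (nat_lit 508866760)) (Int.ofNat (nat_lit 527759060)) (Int.negSucc (nat_lit 457841585))),
  (Cv.mk (Int.ofNat (nat_lit 730333184)) (Int.negSucc (nat_lit 730333183)) (Int.negSucc (nat_lit 516423679)) (Int.negSucc (nat_lit 516423679)) (Int.negSucc (nat_lit 513842979)) (Int.ofNat (nat_lit 516423680)) (Int.ofNat (nat_lit 516423680)) (Int.ofNat (nat_lit 513842980)) (Int.negSucc (nat_lit 457392577))),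
  (Cv.mk (Int.ofNat (nat_lit 730333184)) (Int.negSucc (nat_lit 730333183)) (Int.negSucc (nat_lit 516423679)) (Int.negSucc (nat_lit 516423679)) (Int.negSucc (nat_lit 512645219)) (Int.ofNat (nat_lit 516423680)) (Int.ofNat (nat_lit 516423680)) (Int.ofNat (nat_lit 512645220)) (Int.negSucc (nat_lit 457841585)))]

/-- the constraint 4 at the states -/
def col4 : List Cv := [(Cv.mk (Int.ofNat (nat_lit 730333184)) (Int.ofNat (nat_lit 730333184)) (Int.negSucc (nat_lit 524165779)) (Int.ofNat (nat_lit 511262280)) (Int.ofNat (nat_lit 511262280)) (Int.negSucc (nat_lit 524165779)) (Int.ofNat (nat_lit 511262280)) (Int.ofNat (nat_lit 511262280)) (Int.negSucc (nat_lit 457392577))),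
  (Cv.mk (Int.ofNat (nat_lit 730333184)) (Int.ofNat (nat_lit 730333184)) (Int.negSucc (nat_lit 527759059)) (Int.ofNat (nat_lit 508866760)) (Int.ofNat (nat_lit 508866760)) (Int.negSucc (nat_lit 527759059)) (Int.ofNat (nat_lit 508866760)) (Int.ofNat (nat_lit 508866760)) (Int.negSucc (nat_lit 457841585))),
  (Cv.mk (Int.ofNat (nat_lit 730333184)) (Int.ofNat (nat_lit 730333184)) (Int.negSucc (nat_lit 513842979)) (Int.ofNat (nat_lit 516423680)) (Int.ofNat (nat_lit 516423680)) (Int.negSucc (nat_lit 513842979)) (Int.ofNat (nat_lit 516423680)) (Int.ofNat (nat_lit 516423680)) (Int.negSucc (nat_lit 457392577))),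
  (Cv.mk (Int.ofNat (nat_lit 730333184)) (Int.ofNat (nat_lit 730333184)) (Int.negSucc (nat_lit 512645219)) (Int.ofNat (nat_lit 516423680)) (Int.ofNat (nat_lit 516423680)) (Int.negSucc (nat_lit 512645219)) (Int.ofNat (nat_lit 516423680)) (Int.ofNat (nat_lit 516423680)) (Int.negSucc (nat_lit 457841585))),
  (Cv.mk (Int.ofNat (nat_lit 730333184)) (Int.ofNat (nat_lit 730333184)) (Int.negSucc (nat_lit 516423679)) (Int.ofNat (nat_lit 513842980)) (Int.ofNat (nat_lit 516423680)) (Int.negSucc (nat_lit 516423679)) (Int.ofNat (nat_lit 513842980)) (Int.ofNat (nat_lit 516423680)) (Int.negSucc (nat_lit 457392577))),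
  (Cv.mk (Int.ofNat (nat_lit 730333184)) (Int.ofNat (nat_lit 730333184)) (Int.negSucc (nat_lit 516423679)) (Int.ofNat (nat_lit 512645220)) (Int.ofNat (nat_lit 516423680)) (Int.negSucc (nat_lit 516423679)) (Int.ofNat (nat_lit 512645220)) (Int.ofNat (nat_lit 516423680)) (Int.negSucc (nat_lit 457841585))),
  (Cv.mk (Int.ofNat (nat_lit 730333184)) (Int.ofNat (nat_lit 730333184)) (Int.negSucc (nat_lit 511262279)) (Int.ofNat (nat_lit 524165780)) (Int.ofNat (nat_lit 511262280)) (Int.negSucc (nat_lit 511262279)) (Int.ofNat (nat_lit 524165780)) (Int.ofNat (nat_lit 511262280)) (Int.negSucc (nat_lit 457392577))),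
  (Cv.mk (Int.ofNat (nat_lit 730333184)) (Int.ofNat (nat_lit 730333184)) (Int.negSucc (nat_lit 508866759)) (Int.ofNat (nat_lit 527759060)) (Int.ofNat (nat_lit 508866760)) (Int.negSucc (nat_lit 508866759)) (Int.ofNat (nat_lit 527759060)) (Int.ofNat (nat_lit 508866760)) (Int.negSucc (nat_lit 457841585))),
  (Cv.mk (Int.ofNat (nat_lit 730333184)) (Int.ofNat (nat_lit 730333184)) (Int.negSucc (nat_lit 516423679)) (Int.ofNat (nat_lit 516423680)) (Int.ofNat (nat_lit 513842980)) (Int.negSucc (nat_lit 516423679)) (Int.ofNat (nat_lit 516423680)) (Int.ofNat (nat_lit 513842980)) (Int.negSucc (nat_lit 457392577))),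
  (Cv.mk (Int.ofNat (nat_lit 730333184)) (Int.ofNat (nat_lit 730333184)) (Int.negSucc (nat_lit 516423679)) (Int.ofNat (nat_lit 516423680)) (Int.ofNat (nat_lit 512645220)) (Int.negSucc (nat_lit 516423679)) (Int.ofNat (nat_lit 516423680)) (Int.ofNat (nat_lit 512645220)) (Int.negSucc (nat_lit 457841585))),
  (Cv.mk (Int.ofNat (nat_lit 730333184)) (Int.ofNat (nat_lit 730333184)) (Int.negSucc (nat_lit 511262279)) (Int.ofNat (nat_lit 511262280)) (Int.ofNat (nat_lit 524165780)) (Int.negSucc (nat_lit 511262279)) (Int.ofNat (nat_lit 511262280)) (Int.ofNat (nat_lit 524165780)) (Int.negSucc (nat_lit 457392577))),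
  (Cv.mk (Int.ofNat (nat_lit 730333184)) (Int.ofNat (nat_lit 730333184)) (Int.negSucc (nat_lit 508866759)) (Int.ofNat (nat_lit 508866760)) (Int.ofNat (nat_lit 527759060)) (Int.negSucc (nat_lit 508866759)) (Int.ofNat (nat_lit 508866760)) (Int.ofNat (nat_lit 527759060)) (Int.negSucc (nat_lit 457841585)))]

/-- the constraint 5 at the states -/
def col5 : List Cv := [(Cv.mk (Int.ofNat (nat_lit 730333184)) (Int.negSucc (nat_lit 730333183)) (Int.negSucc (nat_lit 524165779)) (Int.ofNat (nat_lit 511262280)) (Int.ofNat (nat_lit 511262280)) (Int.ofNat (nat_lit 524165780)) (Int.negSucc (nat_lit 511262279)) (Int.negSucc (nat_lit 511262279)) (Int.negSucc (nat_lit 457392577))),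
  (Cv.mk (Int.ofNat (nat_lit 730333184)) (Int.negSucc (nat_lit 730333183)) (Int.negSucc (nat_lit 527759059)) (Int.ofNat (nat_lit 508866760)) (Int.ofNat (nat_lit 508866760)) (Int.ofNat (nat_lit 527759060)) (Int.negSucc (nat_lit 508866759)) (Int.negSucc (nat_lit 508866759)) (Int.negSucc (nat_lit 457841585))),
  (Cv.mk (Int.ofNat (nat_lit 730333184)) (Int.negSucc (nat_lit 730333183)) (Int.negSucc (nat_lit 513842979)) (Int.ofNat (nat_lit 516423680)) (Int.ofNat (nat_lit 516423680)) (Int.ofNat (nat_lit 513842980)) (Int.negSucc (nat_lit 516423679)) (Int.negSucc (nat_lit 516423679)) (Int.negSucc (nat_lit 457392577))),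
  (Cv.mk (Int.ofNat (nat_lit 730333184)) (Int.negSucc (nat_lit 730333183)) (Int.negSucc (nat_lit 512645219)) (Int.ofNat (nat_lit 516423680)) (Int.ofNat (nat_lit 516423680)) (Int.ofNat (nat_lit 512645220)) (Int.negSucc (nat_lit 516423679)) (Int.negSucc (nat_lit 516423679)) (Int.negSucc (nat_lit 457841585))),
  (Cv.mk (Int.ofNat (nat_lit 730333184)) (Int.negSucc (nat_lit 730333183)) (Int.negSucc (nat_lit 516423679)) (Int.ofNat (nat_lit 513842980)) (Int.ofNat (nat_lit 516423680)) (Int.ofNat (nat_lit 516423680)) (Int.negSucc (nat_lit 513842979)) (Int.negSucc (nat_lit 516423679)) (Int.negSucc (nat_lit 457392577))),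
  (Cv.mk (Int.ofNat (nat_lit 730333184)) (Int.negSucc (nat_lit 730333183)) (Int.negSucc (nat_lit 516423679)) (Int.ofNat (nat_lit 512645220)) (Int.ofNat (nat_lit 516423680)) (Int.ofNat (nat_lit 516423680)) (Int.negSucc (nat_lit 512645219)) (Int.negSucc (nat_lit 516423679)) (Int.negSucc (nat_lit 457841585))),
  (Cv.mk (Int.ofNat (nat_lit 730333184)) (Int.negSucc (nat_lit 730333183)) (Int.negSucc (nat_lit 511262279)) (Int.ofNat (nat_lit 524165780)) (Int.ofNat (nat_lit 511262280)) (Int.ofNat (nat_lit 511262280)) (Int.negSucc (nat_lit 524165779)) (Int.negSucc (nat_lit 511262279)) (Int.negSucc (nat_lit 457392577))),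
  (Cv.mk (Int.ofNat (nat_lit 730333184)) (Int.negSucc (nat_lit 730333183)) (Int.negSucc (nat_lit 508866759)) (Int.ofNat (nat_lit 527759060)) (Int.ofNat (nat_lit 508866760)) (Int.ofNat (nat_lit 508866760)) (Int.negSucc (nat_lit 527759059)) (Int.negSucc (nat_lit 508866759)) (Int.negSucc (nat_lit 457841585))),
  (Cv.mk (Int.ofNat (nat_lit 730333184)) (Int.negSucc (nat_lit 730333183)) (Int.negSucc (nat_lit 516423679)) (Int.ofNat (nat_lit 516423680)) (Int.ofNat (nat_lit 513842980)) (Int.ofNat (nat_lit 516423680)) (Int.negSucc (nat_lit 516423679)) (Int.negSucc (nat_lit 513842979)) (Int.negSucc (nat_lit 457392577))),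
  (Cv.mk (Int.ofNat (nat_lit 730333184)) (Int.negSucc (nat_lit 730333183)) (Int.negSucc (nat_lit 516423679)) (Int.ofNat (nat_lit 516423680)) (Int.ofNat (nat_lit 512645220)) (Int.ofNat (nat_lit 516423680)) (Int.negSucc (nat_lit 516423679)) (Int.negSucc (nat_lit 512645219)) (Int.negSucc (nat_lit 457841585))),
  (Cv.mk (Int.ofNat (nat_lit 730333184)) (Int.negSucc (nat_lit 730333183)) (Int.negSucc (nat_lit 511262279)) (Int.ofNat (nat_lit 511262280)) (Int.ofNat (nat_lit 524165780)) (Int.ofNat (nat_lit 511262280)) (Int.negSucc (nat_lit 511262279)) (Int.negSucc (nat_lit 524165779)) (Int.negSucc (nat_lit 457392577))),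
  (Cv.mk (Int.ofNat (nat_lit 730333184)) (Int.negSucc (nat_lit 730333183)) (Int.negSucc (nat_lit 508866759)) (Int.ofNat (nat_lit 508866760)) (Int.ofNat (nat_lit 527759060)) (Int.ofNat (nat_lit 508866760)) (Int.negSucc (nat_lit 508866759)) (Int.negSucc (nat_lit 527759059)) (Int.negSucc (nat_lit 457841585)))]

/-- the constraint 6 at the states -/
def col6 : List Cv := [(Cv.mk (Int.ofNat (nat_lit 730333184)) (Int.ofNat (nat_lit 730333184)) (Int.ofNat (nat_lit 513842980)) (Int.negSucc (nat_lit 516423679)) (Int.ofNat (nat_lit 516423680)) (Int.ofNat (nat_lit 513842980)) (Int.negSucc (nat_lit 516423679)) (Int.ofNat (nat_lit 516423680)) (Int.negSucc (nat_lit 457392577))),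
  (Cv.mk (Int.ofNat (nat_lit 730333184)) (Int.ofNat (nat_lit 730333184)) (Int.ofNat (nat_lit 512645220)) (Int.negSucc (nat_lit 516423679)) (Int.ofNat (nat_lit 516423680)) (Int.ofNat (nat_lit 512645220)) (Int.negSucc (nat_lit 516423679)) (Int.ofNat (nat_lit 516423680)) (Int.negSucc (nat_lit 457841585))),
  (Cv.mk (Int.ofNat (nat_lit 730333184)) (Int.ofNat (nat_lit 730333184)) (Int.ofNat (nat_lit 524165780)) (Int.negSucc (nat_lit 511262279)) (Int.ofNat (nat_lit 511262280)) (Int.ofNat (nat_lit 524165780)) (Int.negSucc (nat_lit 511262279)) (Int.ofNat (nat_lit 511262280)) (Int.negSucc (nat_lit 457392577))),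
  (Cv.mk (Int.ofNat (nat_lit 730333184)) (Int.ofNat (nat_lit 730333184)) (Int.ofNat (nat_lit 527759060)) (Int.negSucc (nat_lit 508866759)) (Int.ofNat (nat_lit 508866760)) (Int.ofNat (nat_lit 527759060)) (Int.negSucc (nat_lit 508866759)) (Int.ofNat (nat_lit 508866760)) (Int.negSucc (nat_lit 457841585))),
  (Cv.mk (Int.ofNat (nat_lit 730333184)) (Int.ofNat (nat_lit 730333184)) (Int.ofNat (nat_lit 511262280)) (Int.negSucc (nat_lit 524165779)) (Int.ofNat (nat_lit 511262280)) (Int.ofNat (nat_lit 511262280)) (Int.negSucc (nat_lit 524165779)) (Int.ofNat (nat_lit 511262280)) (Int.negSucc (nat_lit 457392577))),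
  (Cv.mk (Int.ofNat (nat_lit 730333184)) (Int.ofNat (nat_lit 730333184)) (Int.ofNat (nat_lit 508866760)) (Int.negSucc (nat_lit 527759059)) (Int.ofNat (nat_lit 508866760)) (Int.ofNat (nat_lit 508866760)) (Int.negSucc (nat_lit 527759059)) (Int.ofNat (nat_lit 508866760)) (Int.negSucc (nat_lit 457841585))),
  (Cv.mk (Int.ofNat (nat_lit 730333184)) (Int.ofNat (nat_lit 730333184)) (Int.ofNat (nat_lit 516423680)) (Int.negSucc (nat_lit 513842979)) (Int.ofNat (nat_lit 516423680)) (Int.ofNat (nat_lit 516423680)) (Int.negSucc (nat_lit 513842979)) (Int.ofNat (nat_lit 516423680)) (Int.negSucc (nat_lit 457392577))),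
  (Cv.mk (Int.ofNat (nat_lit 730333184)) (Int.ofNat (nat_lit 730333184)) (Int.ofNat (nat_lit 516423680)) (Int.negSucc (nat_lit 512645219)) (Int.ofNat (nat_lit 516423680)) (Int.ofNat (nat_lit 516423680)) (Int.negSucc (nat_lit 512645219)) (Int.ofNat (nat_lit 516423680)) (Int.negSucc (nat_lit 457841585))),
  (Cv.mk (Int.ofNat (nat_lit 730333184)) (Int.ofNat (nat_lit 730333184)) (Int.ofNat (nat_lit 516423680)) (Int.negSucc (nat_lit 516423679)) (Int.ofNat (nat_lit 513842980)) (Int.ofNat (nat_lit 516423680)) (Int.negSucc (nat_lit 516423679)) (Int.ofNat (nat_lit 513842980)) (Int.negSucc (nat_lit 457392577))),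
  (Cv.mk (Int.ofNat (nat_lit 730333184)) (Int.ofNat (nat_lit 730333184)) (Int.ofNat (nat_lit 516423680)) (Int.negSucc (nat_lit 516423679)) (Int.ofNat (nat_lit 512645220)) (Int.ofNat (nat_lit 516423680)) (Int.negSucc (nat_lit 516423679)) (Int.ofNat (nat_lit 512645220)) (Int.negSucc (nat_lit 457841585))),
  (Cv.mk (Int.ofNat (nat_lit 730333184)) (Int.ofNat (nat_lit 730333184)) (Int.ofNat (nat_lit 511262280)) (Int.negSucc (nat_lit 511262279)) (Int.ofNat (nat_lit 524165780)) (Int.ofNat (nat_lit 511262280)) (Int.negSucc (nat_lit 511262279)) (Int.ofNat (nat_lit 524165780)) (Int.negSucc (nat_lit 457392577))),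
  (Cv.mk (Int.ofNat (nat_lit 730333184)) (Int.ofNat (nat_lit 730333184)) (Int.ofNat (nat_lit 508866760)) (Int.negSucc (nat_lit 508866759)) (Int.ofNat (nat_lit 527759060)) (Int.ofNat (nat_lit 508866760)) (Int.negSucc (nat_lit 508866759)) (Int.ofNat (nat_lit 527759060)) (Int.negSucc (nat_lit 457841585)))]

/-- the constraint 7 at the states -/
def col7 : List Cv := [(Cv.mk (Int.ofNat (nat_lit 730333184)) (Int.negSucc (nat_lit 730333183)) (Int.ofNat (nat_lit 513842980)) (Int.negSucc (nat_lit 516423679)) (Int.ofNat (nat_lit 516423680)) (Int.negSucc (nat_lit 513842979)) (Int.ofNat (nat_lit 516423680)) (Int.negSucc (nat_lit 516423679)) (Int.negSucc (nat_lit 457392577))),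
  (Cv.mk (Int.ofNat (nat_lit 730333184)) (Int.negSucc (nat_lit 730333183)) (Int.ofNat (nat_lit 512645220)) (Int.negSucc (nat_lit 516423679)) (Int.ofNat (nat_lit 516423680)) (Int.negSucc (nat_lit 512645219)) (Int.ofNat (nat_lit 516423680)) (Int.negSucc (nat_lit 516423679)) (Int.negSucc (nat_lit 457841585))),
  (Cv.mk (Int.ofNat (nat_lit 730333184)) (Int.negSucc (nat_lit 730333183)) (Int.ofNat (nat_lit 524165780)) (Int.negSucc (nat_lit 511262279)) (Int.ofNat (nat_lit 511262280)) (Int.negSucc (nat_lit 524165779)) (Int.ofNat (nat_lit 511262280)) (Int.negSucc (nat_lit 511262279)) (Int.negSucc (nat_lit 457392577))),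
  (Cv.mk (Int.ofNat (nat_lit 730333184)) (Int.negSucc (nat_lit 730333183)) (Int.ofNat (nat_lit 527759060)) (Int.negSucc (nat_lit 508866759)) (Int.ofNat (nat_lit 508866760)) (Int.negSucc (nat_lit 527759059)) (Int.ofNat (nat_lit 508866760)) (Int.negSucc (nat_lit 508866759)) (Int.negSucc (nat_lit 457841585))),
  (Cv.mk (Int.ofNat (nat_lit 730333184)) (Int.negSucc (nat_lit 730333183)) (Int.ofNat (nat_lit 511262280)) (Int.negSucc (nat_lit 524165779)) (Int.ofNat (nat_lit 511262280)) (Int.negSucc (nat_lit 511262279)) (Int.ofNat (nat_lit 524165780)) (Int.negSucc (nat_lit 511262279)) (Int.negSucc (nat_lit 457392577))),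
  (Cv.mk (Int.ofNat (nat_lit 730333184)) (Int.negSucc (nat_lit 730333183)) (Int.ofNat (nat_lit 508866760)) (Int.negSucc (nat_lit 527759059)) (Int.ofNat (nat_lit 508866760)) (Int.negSucc (nat_lit 508866759)) (Int.ofNat (nat_lit 527759060)) (Int.negSucc (nat_lit 508866759)) (Int.negSucc (nat_lit 457841585))),
  (Cv.mk (Int.ofNat (nat_lit 730333184)) (Int.negSucc (nat_lit 730333183)) (Int.ofNat (nat_lit 516423680)) (Int.negSucc (nat_lit 513842979)) (Int.ofNat (nat_lit 516423680)) (Int.negSucc (nat_lit 516423679)) (Int.ofNat (nat_lit 513842980)) (Int.negSucc (nat_lit 516423679)) (Int.negSucc (nat_lit 457392577))),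
  (Cv.mk (Int.ofNat (nat_lit 730333184)) (Int.negSucc (nat_lit 730333183)) (Int.ofNat (nat_lit 516423680)) (Int.negSucc (nat_lit 512645219)) (Int.ofNat (nat_lit 516423680)) (Int.negSucc (nat_lit 516423679)) (Int.ofNat (nat_lit 512645220)) (Int.negSucc (nat_lit 516423679)) (Int.negSucc (nat_lit 457841585))),
  (Cv.mk (Int.ofNat (nat_lit 730333184)) (Int.negSucc (nat_lit 730333183)) (Int.ofNat (nat_lit 516423680)) (Int.negSucc (nat_lit 516423679)) (Int.ofNat (nat_lit 513842980)) (Int.negSucc (nat_lit 516423679)) (Int.ofNat (nat_lit 516423680)) (Int.negSucc (nat_lit 513842979)) (Int.negSucc (nat_lit 457392577))),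
  (Cv.mk (Int.ofNat (nat_lit 730333184)) (Int.negSucc (nat_lit 730333183)) (Int.ofNat (nat_lit 516423680)) (Int.negSucc (nat_lit 516423679)) (Int.ofNat (nat_lit 512645220)) (Int.negSucc (nat_lit 516423679)) (Int.ofNat (nat_lit 516423680)) (Int.negSucc (nat_lit 512645219)) (Int.negSucc (nat_lit 457841585))),
  (Cv.mk (Int.ofNat (nat_lit 730333184)) (Int.negSucc (nat_lit 730333183)) (Int.ofNat (nat_lit 511262280)) (Int.negSucc (nat_lit 511262279)) (Int.ofNat (nat_lit 524165780)) (Int.negSucc (nat_lit 511262279)) (Int.ofNat (nat_lit 511262280)) (Int.negSucc (nat_lit 524165779)) (Int.negSucc (nat_lit 457392577))),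
  (Cv.mk (Int.ofNat (nat_lit 730333184)) (Int.negSucc (nat_lit 730333183)) (Int.ofNat (nat_lit 508866760)) (Int.negSucc (nat_lit 508866759)) (Int.ofNat (nat_lit 527759060)) (Int.negSucc (nat_lit 508866759)) (Int.ofNat (nat_lit 508866760)) (Int.negSucc (nat_lit 527759059)) (Int.negSucc (nat_lit 457841585)))]

/-- the constraint 8 at the states -/
def col8 : List Cv := [(Cv.mk (Int.ofNat (nat_lit 730333184)) (Int.ofNat (nat_lit 730333184)) (Int.ofNat (nat_lit 513842980)) (Int.ofNat (nat_lit 516423680)) (Int.negSucc (nat_lit 516423679)) (Int.ofNat (nat_lit 513842980)) (Int.ofNat (nat_lit 516423680)) (Int.negSucc (nat_lit 516423679)) (Int.negSucc (nat_lit 457392577))),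
  (Cv.mk (Int.ofNat (nat_lit 730333184)) (Int.ofNat (nat_lit 730333184)) (Int.ofNat (nat_lit 512645220)) (Int.ofNat (nat_lit 516423680)) (Int.negSucc (nat_lit 516423679)) (Int.ofNat (nat_lit 512645220)) (Int.ofNat (nat_lit 516423680)) (Int.negSucc (nat_lit 516423679)) (Int.negSucc (nat_lit 457841585))),
  (Cv.mk (Int.ofNat (nat_lit 730333184)) (Int.ofNat (nat_lit 730333184)) (Int.ofNat (nat_lit 524165780)) (Int.ofNat (nat_lit 511262280)) (Int.negSucc (nat_lit 511262279)) (Int.ofNat (nat_lit 524165780)) (Int.ofNat (nat_lit 511262280)) (Int.negSucc (nat_lit 511262279)) (Int.negSucc (nat_lit 457392577))),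
  (Cv.mk (Int.ofNat (nat_lit 730333184)) (Int.ofNat (nat_lit 730333184)) (Int.ofNat (nat_lit 527759060)) (Int.ofNat (nat_lit 508866760)) (Int.negSucc (nat_lit 508866759)) (Int.ofNat (nat_lit 527759060)) (Int.ofNat (nat_lit 508866760)) (Int.negSucc (nat_lit 508866759)) (Int.negSucc (nat_lit 457841585))),
  (Cv.mk (Int.ofNat (nat_lit 730333184)) (Int.ofNat (nat_lit 730333184)) (Int.ofNat (nat_lit 516423680)) (Int.ofNat (nat_lit 513842980)) (Int.negSucc (nat_lit 516423679)) (Int.ofNat (nat_lit 516423680)) (Int.ofNat (nat_lit 513842980)) (Int.negSucc (nat_lit 516423679)) (Int.negSucc (nat_lit 457392577))),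
  (Cv.mk (Int.ofNat (nat_lit 730333184)) (Int.ofNat (nat_lit 730333184)) (Int.ofNat (nat_lit 516423680)) (Int.ofNat (nat_lit 512645220)) (Int.negSucc (nat_lit 516423679)) (Int.ofNat (nat_lit 516423680)) (Int.ofNat (nat_lit 512645220)) (Int.negSucc (nat_lit 516423679)) (Int.negSucc (nat_lit 457841585))),
  (Cv.mk (Int.ofNat (nat_lit 730333184)) (Int.ofNat (nat_lit 730333184)) (Int.ofNat (nat_lit 511262280)) (Int.ofNat (nat_lit 524165780)) (Int.negSucc (nat_lit 511262279)) (Int.ofNat (nat_lit 511262280)) (Int.ofNat (nat_lit 524165780)) (Int.negSucc (nat_lit 511262279)) (Int.negSucc (nat_lit 457392577))),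
  (Cv.mk (Int.ofNat (nat_lit 730333184)) (Int.ofNat (nat_lit 730333184)) (Int.ofNat (nat_lit 508866760)) (Int.ofNat (nat_lit 527759060)) (Int.negSucc (nat_lit 508866759)) (Int.ofNat (nat_lit 508866760)) (Int.ofNat (nat_lit 527759060)) (Int.negSucc (nat_lit 508866759)) (Int.negSucc (nat_lit 457841585))),
  (Cv.mk (Int.ofNat (nat_lit 730333184)) (Int.ofNat (nat_lit 730333184)) (Int.ofNat (nat_lit 511262280)) (Int.ofNat (nat_lit 511262280)) (Int.negSucc (nat_lit 524165779)) (Int.ofNat (nat_lit 511262280)) (Int.ofNat (nat_lit 511262280)) (Int.negSucc (nat_lit 524165779)) (Int.negSucc (nat_lit 457392577))),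
  (Cv.mk (Int.ofNat (nat_lit 730333184)) (Int.ofNat (nat_lit 730333184)) (Int.ofNat (nat_lit 508866760)) (Int.ofNat (nat_lit 508866760)) (Int.negSucc (nat_lit 527759059)) (Int.ofNat (nat_lit 508866760)) (Int.ofNat (nat_lit 508866760)) (Int.negSucc (nat_lit 527759059)) (Int.negSucc (nat_lit 457841585))),
  (Cv.mk (Int.ofNat (nat_lit 730333184)) (Int.ofNat (nat_lit 730333184)) (Int.ofNat (nat_lit 516423680)) (Int.ofNat (nat_lit 516423680)) (Int.negSucc (nat_lit 513842979)) (Int.ofNat (nat_lit 516423680)) (Int.ofNat (nat_lit 516423680)) (Int.negSucc (nat_lit 513842979)) (Int.negSucc (nat_lit 457392577))),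
  (Cv.mk (Int.ofNat (nat_lit 730333184)) (Int.ofNat (nat_lit 730333184)) (Int.ofNat (nat_lit 516423680)) (Int.ofNat (nat_lit 516423680)) (Int.negSucc (nat_lit 512645219)) (Int.ofNat (nat_lit 516423680)) (Int.ofNat (nat_lit 516423680)) (Int.negSucc (nat_lit 512645219)) (Int.negSucc (nat_lit 457841585)))]

/-- the constraint 9 at the states -/
def col9 : List Cv := [(Cv.mk (Int.ofNat (nat_lit 730333184)) (Int.negSucc (nat_lit 730333183)) (Int.ofNat (nat_lit 513842980)) (Int.ofNat (nat_lit 516423680)) (Int.negSucc (nat_lit 516423679)) (Int.negSucc (nat_lit 513842979)) (Int.negSucc (nat_lit 516423679)) (Int.ofNat (nat_lit 516423680)) (Int.negSucc (nat_lit 457392577))),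
  (Cv.mk (Int.ofNat (nat_lit 730333184)) (Int.negSucc (nat_lit 730333183)) (Int.ofNat (nat_lit 512645220)) (Int.ofNat (nat_lit 516423680)) (Int.negSucc (nat_lit 516423679)) (Int.negSucc (nat_lit 512645219)) (Int.negSucc (nat_lit 516423679)) (Int.ofNat (nat_lit 516423680)) (Int.negSucc (nat_lit 457841585))),
  (Cv.mk (Int.ofNat (nat_lit 730333184)) (Int.negSucc (nat_lit 730333183)) (Int.ofNat (nat_lit 524165780)) (Int.ofNat (nat_lit 511262280)) (Int.negSucc (nat_lit 511262279)) (Int.negSucc (nat_lit 524165779)) (Int.negSucc (nat_lit 511262279)) (Int.ofNat (nat_lit 511262280)) (Int.negSucc (nat_lit 457392577))),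
  (Cv.mk (Int.ofNat (nat_lit 730333184)) (Int.negSucc (nat_lit 730333183)) (Int.ofNat (nat_lit 527759060)) (Int.ofNat (nat_lit 508866760)) (Int.negSucc (nat_lit 508866759)) (Int.negSucc (nat_lit 527759059)) (Int.negSucc (nat_lit 508866759)) (Int.ofNat (nat_lit 508866760)) (Int.negSucc (nat_lit 457841585))),
  (Cv.mk (Int.ofNat (nat_lit 730333184)) (Int.negSucc (nat_lit 730333183)) (Int.ofNat (nat_lit 516423680)) (Int.ofNat (nat_lit 513842980)) (Int.negSucc (nat_lit 516423679)) (Int.negSucc (nat_lit 516423679)) (Int.negSucc (nat_lit 513842979)) (Int.ofNat (nat_lit 516423680)) (Int.negSucc (nat_lit 457392577))),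
  (Cv.mk (Int.ofNat (nat_lit 730333184)) (Int.negSucc (nat_lit 730333183)) (Int.ofNat (nat_lit 516423680)) (Int.ofNat (nat_lit 512645220)) (Int.negSucc (nat_lit 516423679)) (Int.negSucc (nat_lit 516423679)) (Int.negSucc (nat_lit 512645219)) (Int.ofNat (nat_lit 516423680)) (Int.negSucc (nat_lit 457841585))),
  (Cv.mk (Int.ofNat (nat_lit 730333184)) (Int.negSucc (nat_lit 730333183)) (Int.ofNat (nat_lit 511262280)) (Int.ofNat (nat_lit 524165780)) (Int.negSucc (nat_lit 511262279)) (Int.negSucc (nat_lit 511262279)) (Int.negSucc (nat_lit 524165779)) (Int.ofNat (nat_lit 511262280)) (Int.negSucc (nat_lit 457392577))),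
  (Cv.mk (Int.ofNat (nat_lit 730333184)) (Int.negSucc (nat_lit 730333183)) (Int.ofNat (nat_lit 508866760)) (Int.ofNat (nat_lit 527759060)) (Int.negSucc (nat_lit 508866759)) (Int.negSucc (nat_lit 508866759)) (Int.negSucc (nat_lit 527759059)) (Int.ofNat (nat_lit 508866760)) (Int.negSucc (nat_lit 457841585))),
  (Cv.mk (Int.ofNat (nat_lit 730333184)) (Int.negSucc (nat_lit 730333183)) (Int.ofNat (nat_lit 511262280)) (Int.ofNat (nat_lit 511262280)) (Int.negSucc (nat_lit 524165779)) (Int.negSucc (nat_lit 511262279)) (Int.negSucc (nat_lit 511262279)) (Int.ofNat (nat_lit 524165780)) (Int.negSucc (nat_lit 457392577))),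
  (Cv.mk (Int.ofNat (nat_lit 730333184)) (Int.negSucc (nat_lit 730333183)) (Int.ofNat (nat_lit 508866760)) (Int.ofNat (nat_lit 508866760)) (Int.negSucc (nat_lit 527759059)) (Int.negSucc (nat_lit 508866759)) (Int.negSucc (nat_lit 508866759)) (Int.ofNat (nat_lit 527759060)) (Int.negSucc (nat_lit 457841585))),
  (Cv.mk (Int.ofNat (nat_lit 730333184)) (Int.negSucc (nat_lit 730333183)) (Int.ofNat (nat_lit 516423680)) (Int.ofNat (nat_lit 516423680)) (Int.negSucc (nat_lit 513842979)) (Int.negSucc (nat_lit 516423679)) (Int.negSucc (nat_lit 516423679)) (Int.ofNat (nat_lit 513842980)) (Int.negSucc (nat_lit 457392577))),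
  (Cv.mk (Int.ofNat (nat_lit 730333184)) (Int.negSucc (nat_lit 730333183)) (Int.ofNat (nat_lit 516423680)) (Int.ofNat (nat_lit 516423680)) (Int.negSucc (nat_lit 512645219)) (Int.negSucc (nat_lit 516423679)) (Int.negSucc (nat_lit 516423679)) (Int.ofNat (nat_lit 512645220)) (Int.negSucc (nat_lit 457841585)))]

/-- the constraint 10 at the states -/
def col10 : List Cv := [(Cv.mk (Int.ofNat (nat_lit 730333184)) (Int.ofNat (nat_lit 730333184)) (Int.ofNat (nat_lit 0)) (Int.ofNat (nat_lit 0)) (Int.ofNat (nat_lit 0)) (Int.ofNat (nat_lit 0)) (Int.ofNat (nat_lit 0)) (Int.ofNat (nat_lit 0)) (Int.negSucc (nat_lit 272961256))),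
  (Cv.mk (Int.ofNat (nat_lit 730333184)) (Int.ofNat (nat_lit 730333184)) (Int.ofNat (nat_lit 0)) (Int.ofNat (nat_lit 0)) (Int.ofNat (nat_lit 0)) (Int.ofNat (nat_lit 0)) (Int.ofNat (nat_lit 0)) (Int.ofNat (nat_lit 0)) (Int.negSucc (nat_lit 272961256))),
  (Cv.mk (Int.ofNat (nat_lit 730333184)) (Int.ofNat (nat_lit 730333184)) (Int.ofNat (nat_lit 0)) (Int.ofNat (nat_lit 0)) (Int.ofNat (nat_lit 0)) (Int.ofNat (nat_lit 0)) (Int.ofNat (nat_lit 0)) (Int.ofNat (nat_lit 0)) (Int.negSucc (nat_lit 272961256))),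
  (Cv.mk (Int.ofNat (nat_lit 730333184)) (Int.ofNat (nat_lit 730333184)) (Int.ofNat (nat_lit 0)) (Int.ofNat (nat_lit 0)) (Int.ofNat (nat_lit 0)) (Int.ofNat (nat_lit 0)) (Int.ofNat (nat_lit 0)) (Int.ofNat (nat_lit 0)) (Int.negSucc (nat_lit 272961256))),
  (Cv.mk (Int.ofNat (nat_lit 730333184)) (Int.ofNat (nat_lit 730333184)) (Int.ofNat (nat_lit 0)) (Int.ofNat (nat_lit 0)) (Int.ofNat (nat_lit 0)) (Int.ofNat (nat_lit 0)) (Int.ofNat (nat_lit 0)) (Int.ofNat (nat_lit 0)) (Int.negSucc (nat_lit 272961256))),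
  (Cv.mk (Int.ofNat (nat_lit 730333184)) (Int.ofNat (nat_lit 730333184)) (Int.ofNat (nat_lit 0)) (Int.ofNat (nat_lit 0)) (Int.ofNat (nat_lit 0)) (Int.ofNat (nat_lit 0)) (Int.ofNat (nat_lit 0)) (Int.ofNat (nat_lit 0)) (Int.negSucc (nat_lit 272961256))),
  (Cv.mk (Int.ofNat (nat_lit 730333184)) (Int.ofNat (nat_lit 730333184)) (Int.ofNat (nat_lit 0)) (Int.ofNat (nat_lit 0)) (Int.ofNat (nat_lit 0)) (Int.ofNat (nat_lit 0)) (Int.ofNat (nat_lit 0)) (Int.ofNat (nat_lit 0)) (Int.negSucc (nat_lit 272961256))),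
  (Cv.mk (Int.ofNat (nat_lit 730333184)) (Int.ofNat (nat_lit 730333184)) (Int.ofNat (nat_lit 0)) (Int.ofNat (nat_lit 0)) (Int.ofNat (nat_lit 0)) (Int.ofNat (nat_lit 0)) (Int.ofNat (nat_lit 0)) (Int.ofNat (nat_lit 0)) (Int.negSucc (nat_lit 272961256))),
  (Cv.mk (Int.ofNat (nat_lit 730333184)) (Int.ofNat (nat_lit 730333184)) (Int.ofNat (nat_lit 0)) (Int.ofNat (nat_lit 0)) (Int.ofNat (nat_lit 0)) (Int.ofNat (nat_lit 0)) (Int.ofNat (nat_lit 0)) (Int.ofNat (nat_lit 0)) (Int.negSucc (nat_lit 272961256))),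
  (Cv.mk (Int.ofNat (nat_lit 730333184)) (Int.ofNat (nat_lit 730333184)) (Int.ofNat (nat_lit 0)) (Int.ofNat (nat_lit 0)) (Int.ofNat (nat_lit 0)) (Int.ofNat (nat_lit 0)) (Int.ofNat (nat_lit 0)) (Int.ofNat (nat_lit 0)) (Int.negSucc (nat_lit 272961256))),
  (Cv.mk (Int.ofNat (nat_lit 730333184)) (Int.ofNat (nat_lit 730333184)) (Int.ofNat (nat_lit 0)) (Int.ofNat (nat_lit 0)) (Int.ofNat (nat_lit 0)) (Int.ofNat (nat_lit 0)) (Int.ofNat (nat_lit 0)) (Int.ofNat (nat_lit 0)) (Int.negSucc (nat_lit 272961256))),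
  (Cv.mk (Int.ofNat (nat_lit 730333184)) (Int.ofNat (nat_lit 730333184)) (Int.ofNat (nat_lit 0)) (Int.ofNat (nat_lit 0)) (Int.ofNat (nat_lit 0)) (Int.ofNat (nat_lit 0)) (Int.ofNat (nat_lit 0)) (Int.ofNat (nat_lit 0)) (Int.negSucc (nat_lit 272961256)))]

/-- the constraint 11 at the states -/
def col11 : List Cv := [(Cv.mk (Int.ofNat (nat_lit 730333184)) (Int.negSucc (nat_lit 730333183)) (Int.ofNat (nat_lit 0)) (Int.ofNat (nat_lit 0)) (Int.ofNat (nat_lit 0)) (Int.ofNat (nat_lit 0)) (Int.ofNat (nat_lit 0)) (Int.ofNat (nat_lit 0)) (Int.negSucc (nat_lit 272961256))),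
  (Cv.mk (Int.ofNat (nat_lit 730333184)) (Int.negSucc (nat_lit 730333183)) (Int.ofNat (nat_lit 0)) (Int.ofNat (nat_lit 0)) (Int.ofNat (nat_lit 0)) (Int.ofNat (nat_lit 0)) (Int.ofNat (nat_lit 0)) (Int.ofNat (nat_lit 0)) (Int.negSucc (nat_lit 272961256))),
  (Cv.mk (Int.ofNat (nat_lit 730333184)) (Int.negSucc (nat_lit 730333183)) (Int.ofNat (nat_lit 0)) (Int.ofNat (nat_lit 0)) (Int.ofNat (nat_lit 0)) (Int.ofNat (nat_lit 0)) (Int.ofNat (nat_lit 0)) (Int.ofNat (nat_lit 0)) (Int.negSucc (nat_lit 272961256))),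
  (Cv.mk (Int.ofNat (nat_lit 730333184)) (Int.negSucc (nat_lit 730333183)) (Int.ofNat (nat_lit 0)) (Int.ofNat (nat_lit 0)) (Int.ofNat (nat_lit 0)) (Int.ofNat (nat_lit 0)) (Int.ofNat (nat_lit 0)) (Int.ofNat (nat_lit 0)) (Int.negSucc (nat_lit 272961256))),
  (Cv.mk (Int.ofNat (nat_lit 730333184)) (Int.negSucc (nat_lit 730333183)) (Int.ofNat (nat_lit 0)) (Int.ofNat (nat_lit 0)) (Int.ofNat (nat_lit 0)) (Int.ofNat (nat_lit 0)) (Int.ofNat (nat_lit 0)) (Int.ofNat (nat_lit 0)) (Int.negSucc (nat_lit 272961256))),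
  (Cv.mk (Int.ofNat (nat_lit 730333184)) (Int.negSucc (nat_lit 730333183)) (Int.ofNat (nat_lit 0)) (Int.ofNat (nat_lit 0)) (Int.ofNat (nat_lit 0)) (Int.ofNat (nat_lit 0)) (Int.ofNat (nat_lit 0)) (Int.ofNat (nat_lit 0)) (Int.negSucc (nat_lit 272961256))),
  (Cv.mk (Int.ofNat (nat_lit 730333184)) (Int.negSucc (nat_lit 730333183)) (Int.ofNat (nat_lit 0)) (Int.ofNat (nat_lit 0)) (Int.ofNat (nat_lit 0)) (Int.ofNat (nat_lit 0)) (Int.ofNat (nat_lit 0)) (Int.ofNat (nat_lit 0)) (Int.negSucc (nat_lit 272961256))),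
  (Cv.mk (Int.ofNat (nat_lit 730333184)) (Int.negSucc (nat_lit 730333183)) (Int.ofNat (nat_lit 0)) (Int.ofNat (nat_lit 0)) (Int.ofNat (nat_lit 0)) (Int.ofNat (nat_lit 0)) (Int.ofNat (nat_lit 0)) (Int.ofNat (nat_lit 0)) (Int.negSucc (nat_lit 272961256))),
  (Cv.mk (Int.ofNat (nat_lit 730333184)) (Int.negSucc (nat_lit 730333183)) (Int.ofNat (nat_lit 0)) (Int.ofNat (nat_lit 0)) (Int.ofNat (nat_lit 0)) (Int.ofNat (nat_lit 0)) (Int.ofNat (nat_lit 0)) (Int.ofNat (nat_lit 0)) (Int.negSucc (nat_lit 272961256))),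
  (Cv.mk (Int.ofNat (nat_lit 730333184)) (Int.negSucc (nat_lit 730333183)) (Int.ofNat (nat_lit 0)) (Int.ofNat (nat_lit 0)) (Int.ofNat (nat_lit 0)) (Int.ofNat (nat_lit 0)) (Int.ofNat (nat_lit 0)) (Int.ofNat (nat_lit 0)) (Int.negSucc (nat_lit 272961256))),
  (Cv.mk (Int.ofNat (nat_lit 730333184)) (Int.negSucc (nat_lit 730333183)) (Int.ofNat (nat_lit 0)) (Int.ofNat (nat_lit 0)) (Int.ofNat (nat_lit 0)) (Int.ofNat (nat_lit 0)) (Int.ofNat (nat_lit 0)) (Int.ofNat (nat_lit 0)) (Int.negSucc (nat_lit 272961256))),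
  (Cv.mk (Int.ofNat (nat_lit 730333184)) (Int.negSucc (nat_lit 730333183)) (Int.ofNat (nat_lit 0)) (Int.ofNat (nat_lit 0)) (Int.ofNat (nat_lit 0)) (Int.ofNat (nat_lit 0)) (Int.ofNat (nat_lit 0)) (Int.ofNat (nat_lit 0)) (Int.negSucc (nat_lit 272961256)))]

/-- the columns -/
def cols : List (List Cv) := [col0, col1, col2, col3, col4, col5, col6, col7, col8, col9, col10, col11]

/-- bound of the constraints -/
def cmx : ℕ := nat_lit 5011439626

theorem rows_eq : c.ct.cvs12 = rows := req_sound (by decide +kernel)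

theorem cols_eq : c.ct.cfs.map (fun F => Ct.vix.map F) = cols := req_sound (by decide +kernel)

end Pool.Agent.TOPR.R6109
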