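import Pool.Agent.TOPR.R6109.Cert

set_option autoImplicit false
set_option linter.all false
set_option maxRecDepth 100000

namespace Pool.Agent.TOPR.R6109

open Helper10.PC hiding V3
open Helper80.CW.DL Pool.Agent.Helper6.TOP

def et0_0 : T ℤ := (T.h (T.h (T.h (T.h (T.h (M (nat_lit 5426404687)) (T.h (P (nat_lit 0)) (T.h (M (nat_lit 4998976911)) (T.h (P (nat_lit 0)) (T.h (M (nat_lit 209888618679)) (T.h (P (nat_lit 0)) (M (nat_lit 14050898487447)))))))) (T.h (P (nat_lit 0)) (T.h (T.h (P (nat_lit 10040290624)) (T.h (P (nat_lit 0)) (T.h (P (nat_lit 362058880828)) (T.h (P (nat_lit 0)) (P (nat_lit 26119519675796)))))) (T.h (P (nat_lit 0)) (T.h (T.h (M (nat_lit 174222079567)) (T.h (P (nat_lit 0)) (M (nat_lit 5116781588795)))) (T.h (P (nat_lit 0)) (M (nat_lit 728637281999)))))))) (T.h (T.h (P (nat_lit 0)) (T.h (T.h (P (nat_lit 0)) (T.h (M (nat_lit 83822244079)) (T.h (P (nat_lit 0)) (M (nat_lit 4059658928451)))))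 (T.h (P (nat_lit 0)) (T.h (T.h (P (nat_lit 0)) (P (nat_lit 1083088603856))) (P (nat_lit 0)))))) (T.h (T.h (T.h (M (nat_lit 4998976911)) (T.h (P (nat_lit 0)) (T.h (P (nat_lit 2503805115496)) (T.h (P (nat_lit 0)) (P (nat_lit 93318084204604)))))) (T.h (P (nat_lit 0)) (T.h (T.h (P (nat_lit 362058880828)) (T.h (P (nat_lit 0)) (M (nat_lit 1273969421207)))) (T.h (P (nat_lit 0)) (M (nat_lit 5116781588795)))))) (T.h (T.h (P (nat_lit 0)) (T.h (T.h (P (nat_lit 0)) (M (nat_lit 4059658928451))) (P (nat_lit 0)))) (T.h (T.h (T.h (M (nat_lit 209888618679)) (T.h (P (nat_lit 0)) (P (nat_lit 93318084204604)))) (T.h (P (nat_lit 0)) (P (nat_lit 26119519675796)))) (T.h (P (nat_lit 0)) (M (nat_lit 14050898487447)))))))) (T.h (P (nat_lit 0)) (T.h (T.h (T.h (T.h (P (nat_lit 10786339656)) (T.h (P (nat_lit 0)) (T.h (P (nat_lit 2295225072)) (T.h (P (nat_lit 0)) (T.h (M (nat_lit 163008652103)) (T.h (P (nat_lit 0)) (M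 (nat_lit 2178365119847)))))))) (T.h (P (nat_lit 0)) (T.h (T.h (M (nat_lit 10107434951)) (T.h (P (nat_lit 0)) (T.h (M (nat_lit 1307429283203)) (T.h (P (nat_lit 0)) (M (nat_lit 33548786539415)))))) (T.h (P (nat_lit 0)) (T.h (T.h (M (nat_lit 223504714043)) (T.h (P (nat_lit 0)) (P (nat_lit 19327286907036)))) (T.h (P (nat_lit 0)) (M (nat_lit 3661426904615)))))))) (T.h (T.h (P (nat_lit 0)) (T.h (T.h (P (nat_lit 0)) (T.h (P (nat_lit 193032154260)) (T.h (P (nat_lit 0)) (P (nat_lit 14629920707952))))) (T.h (P (nat_lit 0)) (T.h (T.h (P (nat_lit 0)) (P (nat_lit 2545803747000))) (P (nat_lit 0)))))) (T.h (T.h (T.h (P (nat_lit 40706917308)) (T.h (P (nat_lit 0)) (T.h (M (nat_lit 2560661499563)) (T.h (P (nat_lit 0)) (M (nat_lit 124810432508303)))))) (T.h (P (nat_lit 0)) (T.h (T.h (M (nat_lit 660404701511)) (T.h (P (nat_lit 0)) (M (nat_lit 3628401233471)))) (T.h (P (nat_lit 0)) (M (nat_lit 6601661213291))))))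 (T.h (T.h (P (nat_lit 0)) (T.h (T.h (P (nat_lit 0)) (P (nat_lit 6240550941072))) (P (nat_lit 0)))) (T.h (T.h (T.h (P (nat_lit 1243913809680)) (T.h (P (nat_lit 0)) (M (nat_lit 88038585504611)))) (T.h (P (nat_lit 0)) (M (nat_lit 33310156589855)))) (T.h (P (nat_lit 0)) (P (nat_lit 21852672283800)))))))) (P (nat_lit 0))))) (T.h (T.h (P (nat_lit 0)) (T.h (T.h (T.h (P (nat_lit 0)) (T.h (T.h (P (nat_lit 0)) (T.h (M (nat_lit 422503919)) (T.h (P (nat_lit 0)) (T.h (P (nat_lit 63050778612)) (T.h (P (nat_lit 0)) (P (nat_lit 9643525077996))))))) (T.h (P (nat_lit 0)) (T.h (T.h (P (nat_lit 0)) (T.h (P (nat_lit 173834593020)) (T.h (P (nat_lit 0)) (P (nat_lit 2931771928176))))) (T.h (P (nat_lit 0)) (T.h (T.h (P (nat_lit 0)) (M (nat_lit 2176032170627))) (P (nat_lit 0)))))))) (T.h (T.h (T.h (P (nat_lit 4916574432)) (T.h (P (nat_lit 0)) (T.h (M (nat_lit 160210164023)) (T.h (P (nat_lit 0)) (M (nat_lit 5596641487907))))))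 (T.h (P (nat_lit 0)) (T.h (T.h (M (nat_lit 20599328015)) (T.h (P (nat_lit 0)) (M (nat_lit 55091326679)))) (T.h (P (nat_lit 0)) (P (nat_lit 437988998628)))))) (T.h (T.h (P (nat_lit 0)) (T.h (T.h (P (nat_lit 0)) (T.h (P (nat_lit 569686424004)) (T.h (P (nat_lit 0)) (M (nat_lit 5571908633591))))) (T.h (P (nat_lit 0)) (T.h (T.h (P (nat_lit 0)) (M (nat_lit 4640029222859))) (P (nat_lit 0)))))) (T.h (T.h (T.h (P (nat_lit 33255242460)) (T.h (P (nat_lit 0)) (M (nat_lit 7713053608319)))) (T.h (P (nat_lit 0)) (M (nat_lit 3900538740563)))) (T.h (T.h (P (nat_lit 0)) (T.h (T.h (P (nat_lit 0)) (P (nat_lit 13389138776916))) (P (nat_lit 0)))) (P (nat_lit 914394814128))))))) (P (nat_lit 0)))) (T.h (T.h (T.h (T.h (T.h (P (nat_lit 5417471592)) (T.h (P (nat_lit 0)) (T.h (P (nat_lit 4957435368)) (T.h (P (nat_lit 0)) (T.h (P (nat_lit 199607461452)) (T.h (P (nat_lit 0)) (P (nat_lit 14200886005668)))))))) (T.h (P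 (nat_lit 0)) (T.h (T.h (M (nat_lit 10396698047)) (T.h (P (nat_lit 0)) (T.h (M (nat_lit 338996029211)) (T.h (P (nat_lit 0)) (M (nat_lit 25466983922771)))))) (T.h (P (nat_lit 0)) (T.h (T.h (P (nat_lit 186434500392)) (T.h (P (nat_lit 0)) (P (nat_lit 5035080397428)))) (T.h (P (nat_lit 0)) (P (nat_lit 444028291056)))))))) (T.h (T.h (P (nat_lit 0)) (T.h (T.h (P (nat_lit 0)) (T.h (P (nat_lit 84868188408)) (T.h (P (nat_lit 0)) (P (nat_lit 3926137897404))))) (T.h (P (nat_lit 0)) (T.h (T.h (P (nat_lit 0)) (M (nat_lit 968075013455))) (P (nat_lit 0)))))) (T.h (T.h (T.h (P (nat_lit 4957435368)) (T.h (P (nat_lit 0)) (T.h (M (nat_lit 2503582126487)) (T.h (P (nat_lit 0)) (M (nat_lit 93174808225175)))))) (T.h (P (nat_lit 0)) (T.h (T.h (M (nat_lit 338996029211)) (T.h (P (nat_lit 0)) (M (nat_lit 227860638839)))) (T.h (P (nat_lit 0)) (P (nat_lit 5035080397428)))))) (T.h (T.h (P (nat_lit 0)) (T.h (T.h (P (nat_lit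 0)) (P (nat_lit 3926137897404))) (P (nat_lit 0)))) (T.h (T.h (T.h (P (nat_lit 199607461452)) (T.h (P (nat_lit 0)) (M (nat_lit 93174808225175)))) (T.h (P (nat_lit 0)) (M (nat_lit 25466983922771)))) (T.h (P (nat_lit 0)) (P (nat_lit 14200886005668)))))))) (P (nat_lit 0))) (P (nat_lit 0)))))
def et0_1 : T ℤ := (T.h (T.h (P (nat_lit 0)) (T.h (P (nat_lit 0)) (T.h (T.h (T.h (T.h (M (nat_lit 5382558623)) (T.h (P (nat_lit 0)) (T.h (P (nat_lit 2927247776)) (T.h (P (nat_lit 0)) (T.h (P (nat_lit 371287167520)) (T.h (P (nat_lit 0)) (P (nat_lit 15261432343392)))))))) (T.h (P (nat_lit 0)) (T.h (T.h (P (nat_lit 6197216376)) (T.h (P (nat_lit 0)) (T.h (P (nat_lit 1021668496320)) (T.h (P (nat_lit 0)) (P (nat_lit 2032219122416)))))) (T.h (P (nat_lit 0)) (T.h (T.h (P (nat_lit 185981923992)) (T.h (P (nat_lit 0)) (M (nat_lit 7083759141039)))) (T.h (P (nat_lit 0)) (P (nat_lit 3868184772648)))))))) (T.h (T.h (P (nat_lit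 0)) (T.h (T.h (P (nat_lit 0)) (T.h (M (nat_lit 174113064867)) (T.h (P (nat_lit 0)) (M (nat_lit 7930128116723))))) (T.h (P (nat_lit 0)) (T.h (T.h (P (nat_lit 0)) (M (nat_lit 2324408448295))) (P (nat_lit 0)))))) (T.h (T.h (T.h (M (nat_lit 30483592911)) (T.h (P (nat_lit 0)) (T.h (P (nat_lit 345544741468)) (T.h (P (nat_lit 0)) (P (nat_lit 23336467445708)))))) (T.h (P (nat_lit 0)) (T.h (T.h (M (nat_lit 13362565703)) (T.h (P (nat_lit 0)) (P (nat_lit 5544600443792)))) (T.h (P (nat_lit 0)) (P (nat_lit 8792461336928)))))) (T.h (T.h (P (nat_lit 0)) (T.h (T.h (P (nat_lit 0)) (M (nat_lit 1333565389895))) (P (nat_lit 0)))) (T.h (T.h (T.h (M (nat_lit 766074816543)) (T.h (P (nat_lit 0)) (P (nat_lit 1769234935020)))) (T.h (P (nat_lit 0)) (P (nat_lit 5599240923568)))) (T.h (P (nat_lit 0)) (M (nat_lit 8019982815391)))))))) (T.h (P (nat_lit 0)) (T.h (T.h (T.h (T.h (P (nat_lit 10921318128)) (T.h (P (nat_lit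 0)) (T.h (M (nat_lit 18710106983)) (T.h (P (nat_lit 0)) (T.h (M (nat_lit 356321652731)) (T.h (P (nat_lit 0)) (M (nat_lit 18969287266943)))))))) (T.h (P (nat_lit 0)) (T.h (T.h (M (nat_lit 18710106983)) (T.h (P (nat_lit 0)) (T.h (M (nat_lit 4491364208759)) (T.h (P (nat_lit 0)) (M (nat_lit 10904430965831)))))) (T.h (P (nat_lit 0)) (T.h (T.h (M (nat_lit 356321652731)) (T.h (P (nat_lit 0)) (M (nat_lit 10904430965831)))) (T.h (P (nat_lit 0)) (M (nat_lit 18969287266943)))))))) (T.h (T.h (P (nat_lit 0)) (T.h (T.h (P (nat_lit 0)) (T.h (P (nat_lit 1057580241192)) (T.h (P (nat_lit 0)) (P (nat_lit 12206857219848))))) (T.h (P (nat_lit 0)) (T.h (T.h (P (nat_lit 0)) (P (nat_lit 12206857219848))) (P (nat_lit 0)))))) (T.h (T.h (T.h (P (nat_lit 48139197192)) (T.h (P (nat_lit 0)) (T.h (M (nat_lit 1034754682859)) (T.h (P (nat_lit 0)) (M (nat_lit 18412872839495)))))) (T.h (P (nat_lit 0)) (T.h (T.h (M (nat_lit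 1034754682859)) (T.h (P (nat_lit 0)) (M (nat_lit 10983715199135)))) (T.h (P (nat_lit 0)) (M (nat_lit 18412872839495)))))) (T.h (T.h (P (nat_lit 0)) (T.h (T.h (P (nat_lit 0)) (P (nat_lit 13931165377872))) (P (nat_lit 0)))) (T.h (T.h (T.h (P (nat_lit 1633512584736)) (T.h (P (nat_lit 0)) (M (nat_lit 18517941668555)))) (T.h (P (nat_lit 0)) (M (nat_lit 18517941668555)))) (T.h (P (nat_lit 0)) (P (nat_lit 17705696864976)))))))) (P (nat_lit 0))))))) (T.h (T.h (P (nat_lit 0)) (T.h (T.h (T.h (P (nat_lit 0)) (T.h (T.h (P (nat_lit 0)) (T.h (M (nat_lit 1652854531)) (T.h (P (nat_lit 0)) (T.h (M (nat_lit 85148755599)) (T.h (P (nat_lit 0)) (M (nat_lit 10084994971063))))))) (T.h (P (nat_lit 0)) (T.h (T.h (P (nat_lit 0)) (T.h (M (nat_lit 48375966963)) (T.h (P (nat_lit 0)) (M (nat_lit 1505242838563))))) (T.h (P (nat_lit 0)) (T.h (T.h (P (nat_lit 0)) (P (nat_lit 3612736043648))) (P (nat_lit 0)))))))) (T.h (T.h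 (T.h (M (nat_lit 4848497011)) (T.h (P (nat_lit 0)) (T.h (P (nat_lit 176192823212)) (T.h (P (nat_lit 0)) (P (nat_lit 6283166357272)))))) (T.h (P (nat_lit 0)) (T.h (T.h (M (nat_lit 10360317751)) (T.h (P (nat_lit 0)) (M (nat_lit 429801099807)))) (T.h (P (nat_lit 0)) (P (nat_lit 491682438944)))))) (T.h (T.h (P (nat_lit 0)) (T.h (T.h (P (nat_lit 0)) (T.h (M (nat_lit 206417411539)) (T.h (P (nat_lit 0)) (M (nat_lit 375215235207))))) (T.h (P (nat_lit 0)) (T.h (T.h (P (nat_lit 0)) (P (nat_lit 1036017139900))) (P (nat_lit 0)))))) (T.h (T.h (T.h (M (nat_lit 39872001987)) (T.h (P (nat_lit 0)) (P (nat_lit 6906450321804)))) (T.h (P (nat_lit 0)) (P (nat_lit 3194717887472)))) (T.h (T.h (P (nat_lit 0)) (T.h (T.h (P (nat_lit 0)) (M (nat_lit 12677088805827))) (P (nat_lit 0)))) (M (nat_lit 1138588799775))))))) (T.h (P (nat_lit 0)) (T.h (T.h (T.h (P (nat_lit 0)) (T.h (T.h (P (nat_lit 0)) (T.h (M (nat_lit 6484428539))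 (T.h (P (nat_lit 0)) (T.h (M (nat_lit 2488121682875)) (T.h (P (nat_lit 0)) (P (nat_lit 4659694120476))))))) (T.h (P (nat_lit 0)) (T.h (T.h (P (nat_lit 0)) (T.h (M (nat_lit 1666241064611)) (T.h (P (nat_lit 0)) (P (nat_lit 8866989595980))))) (T.h (P (nat_lit 0)) (T.h (T.h (P (nat_lit 0)) (M (nat_lit 11251495447163))) (P (nat_lit 0)))))))) (T.h (T.h (T.h (P (nat_lit 17266977972)) (T.h (P (nat_lit 0)) (T.h (M (nat_lit 263348973683)) (T.h (P (nat_lit 0)) (M (nat_lit 3033329715647)))))) (T.h (P (nat_lit 0)) (T.h (T.h (P (nat_lit 131128510104)) (T.h (P (nat_lit 0)) (P (nat_lit 28977847421400)))) (T.h (P (nat_lit 0)) (M (nat_lit 140288397263)))))) (T.h (T.h (P (nat_lit 0)) (T.h (T.h (P (nat_lit 0)) (T.h (M (nat_lit 5151303668375)) (T.h (P (nat_lit 0)) (M (nat_lit 962109935927))))) (T.h (P (nat_lit 0)) (T.h (T.h (P (nat_lit 0)) (M (nat_lit 18393699782087))) (P (nat_lit 0)))))) (T.h (T.h (T.h (P (nat_lit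 86352588684)) (T.h (P (nat_lit 0)) (M (nat_lit 8792617329359)))) (T.h (P (nat_lit 0)) (P (nat_lit 3078281274696)))) (T.h (T.h (P (nat_lit 0)) (T.h (T.h (P (nat_lit 0)) (P (nat_lit 9198962751492))) (P (nat_lit 0)))) (P (nat_lit 1555205943996))))))) (P (nat_lit 0)))))) et0_0))
def et0_2 : T ℤ := (T.h (T.h (P (nat_lit 0)) (T.h (P (nat_lit 0)) (T.h (P (nat_lit 0)) (T.h (P (nat_lit 0)) (T.h (T.h (T.h (T.h (M (nat_lit 5382558623)) (T.h (P (nat_lit 0)) (T.h (P (nat_lit 6197216376)) (T.h (P (nat_lit 0)) (T.h (P (nat_lit 185981923992)) (T.h (P (nat_lit 0)) (P (nat_lit 3868184772648)))))))) (T.h (P (nat_lit 0)) (T.h (T.h (P (nat_lit 2927247776)) (T.h (P (nat_lit 0)) (T.h (P (nat_lit 1021668496320)) (T.h (P (nat_lit 0)) (M (nat_lit 7083759141039)))))) (T.h (P (nat_lit 0)) (T.h (T.h (P (nat_lit 371287167520)) (T.h (P (nat_lit 0)) (P (nat_lit 2032219122416)))) (T.h (P (nat_lit 0)) (P (nat_lit 15261432343392))))))))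 (T.h (T.h (P (nat_lit 0)) (T.h (T.h (P (nat_lit 0)) (T.h (M (nat_lit 174113064867)) (T.h (P (nat_lit 0)) (M (nat_lit 2324408448295))))) (T.h (P (nat_lit 0)) (T.h (T.h (P (nat_lit 0)) (M (nat_lit 7930128116723))) (P (nat_lit 0)))))) (T.h (T.h (T.h (M (nat_lit 30483592911)) (T.h (P (nat_lit 0)) (T.h (M (nat_lit 13362565703)) (T.h (P (nat_lit 0)) (P (nat_lit 8792461336928)))))) (T.h (P (nat_lit 0)) (T.h (T.h (P (nat_lit 345544741468)) (T.h (P (nat_lit 0)) (P (nat_lit 5544600443792)))) (T.h (P (nat_lit 0)) (P (nat_lit 23336467445708)))))) (T.h (T.h (P (nat_lit 0)) (T.h (T.h (P (nat_lit 0)) (M (nat_lit 1333565389895))) (P (nat_lit 0)))) (T.h (T.h (T.h (M (nat_lit 766074816543)) (T.h (P (nat_lit 0)) (P (nat_lit 5599240923568)))) (T.h (P (nat_lit 0)) (P (nat_lit 1769234935020)))) (T.h (P (nat_lit 0)) (M (nat_lit 8019982815391)))))))) (T.h (P (nat_lit 0)) (T.h (T.h (T.h (T.h (P (nat_lit 10786339656))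 (T.h (P (nat_lit 0)) (T.h (M (nat_lit 10107434951)) (T.h (P (nat_lit 0)) (T.h (M (nat_lit 223504714043)) (T.h (P (nat_lit 0)) (M (nat_lit 3661426904615)))))))) (T.h (P (nat_lit 0)) (T.h (T.h (P (nat_lit 2295225072)) (T.h (P (nat_lit 0)) (T.h (M (nat_lit 1307429283203)) (T.h (P (nat_lit 0)) (P (nat_lit 19327286907036)))))) (T.h (P (nat_lit 0)) (T.h (T.h (M (nat_lit 163008652103)) (T.h (P (nat_lit 0)) (M (nat_lit 33548786539415)))) (T.h (P (nat_lit 0)) (M (nat_lit 2178365119847)))))))) (T.h (T.h (P (nat_lit 0)) (T.h (T.h (P (nat_lit 0)) (T.h (P (nat_lit 193032154260)) (T.h (P (nat_lit 0)) (P (nat_lit 2545803747000))))) (T.h (P (nat_lit 0)) (T.h (T.h (P (nat_lit 0)) (P (nat_lit 14629920707952))) (P (nat_lit 0)))))) (T.h (T.h (T.h (P (nat_lit 40706917308)) (T.h (P (nat_lit 0)) (T.h (M (nat_lit 660404701511)) (T.h (P (nat_lit 0)) (M (nat_lit 6601661213291)))))) (T.h (P (nat_lit 0)) (T.h (T.h (M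 (nat_lit 2560661499563)) (T.h (P (nat_lit 0)) (M (nat_lit 3628401233471)))) (T.h (P (nat_lit 0)) (M (nat_lit 124810432508303)))))) (T.h (T.h (P (nat_lit 0)) (T.h (T.h (P (nat_lit 0)) (P (nat_lit 6240550941072))) (P (nat_lit 0)))) (T.h (T.h (T.h (P (nat_lit 1243913809680)) (T.h (P (nat_lit 0)) (M (nat_lit 33310156589855)))) (T.h (P (nat_lit 0)) (M (nat_lit 88038585504611)))) (T.h (P (nat_lit 0)) (P (nat_lit 21852672283800)))))))) (P (nat_lit 0))))))))) (T.h (T.h (P (nat_lit 0)) (T.h (P (nat_lit 0)) (T.h (P (nat_lit 0)) (T.h (T.h (T.h (P (nat_lit 0)) (T.h (T.h (P (nat_lit 0)) (T.h (P (nat_lit 2166085064)) (T.h (P (nat_lit 0)) (T.h (P (nat_lit 1443182165296)) (T.h (P (nat_lit 0)) (P (nat_lit 1364120328012))))))) (T.h (P (nat_lit 0)) (T.h (T.h (P (nat_lit 0)) (T.h (P (nat_lit 1443182165296)) (T.h (P (nat_lit 0)) (M (nat_lit 12160123890575))))) (T.h (P (nat_lit 0)) (T.h (T.h (P (nat_lit 0)) (P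 (nat_lit 1364120328012))) (P (nat_lit 0)))))))) (T.h (T.h (T.h (M (nat_lit 12157190879)) (T.h (P (nat_lit 0)) (T.h (P (nat_lit 48183741720)) (T.h (P (nat_lit 0)) (M (nat_lit 3331137129531)))))) (T.h (P (nat_lit 0)) (T.h (T.h (P (nat_lit 48183741720)) (T.h (P (nat_lit 0)) (M (nat_lit 21650801153983)))) (T.h (P (nat_lit 0)) (M (nat_lit 3331137129531)))))) (T.h (T.h (P (nat_lit 0)) (T.h (T.h (P (nat_lit 0)) (T.h (P (nat_lit 2764822230096)) (T.h (P (nat_lit 0)) (P (nat_lit 16149147780056))))) (T.h (P (nat_lit 0)) (T.h (T.h (P (nat_lit 0)) (P (nat_lit 16149147780056))) (P (nat_lit 0)))))) (T.h (T.h (T.h (M (nat_lit 87784015959)) (T.h (P (nat_lit 0)) (P (nat_lit 27808039900)))) (T.h (P (nat_lit 0)) (P (nat_lit 27808039900)))) (T.h (T.h (P (nat_lit 0)) (T.h (T.h (P (nat_lit 0)) (M (nat_lit 4636688340583))) (P (nat_lit 0)))) (M (nat_lit 928895833471))))))) (T.h (P (nat_lit 0)) (T.h (T.h (T.h (P (nat_lit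 0)) (T.h (T.h (P (nat_lit 0)) (T.h (M (nat_lit 6484428539)) (T.h (P (nat_lit 0)) (T.h (M (nat_lit 1666241064611)) (T.h (P (nat_lit 0)) (M (nat_lit 11251495447163))))))) (T.h (P (nat_lit 0)) (T.h (T.h (P (nat_lit 0)) (T.h (M (nat_lit 2488121682875)) (T.h (P (nat_lit 0)) (P (nat_lit 8866989595980))))) (T.h (P (nat_lit 0)) (T.h (T.h (P (nat_lit 0)) (P (nat_lit 4659694120476))) (P (nat_lit 0)))))))) (T.h (T.h (T.h (P (nat_lit 17266977972)) (T.h (P (nat_lit 0)) (T.h (P (nat_lit 131128510104)) (T.h (P (nat_lit 0)) (M (nat_lit 140288397263)))))) (T.h (P (nat_lit 0)) (T.h (T.h (M (nat_lit 263348973683)) (T.h (P (nat_lit 0)) (P (nat_lit 28977847421400)))) (T.h (P (nat_lit 0)) (M (nat_lit 3033329715647)))))) (T.h (T.h (P (nat_lit 0)) (T.h (T.h (P (nat_lit 0)) (T.h (M (nat_lit 5151303668375)) (T.h (P (nat_lit 0)) (M (nat_lit 18393699782087))))) (T.h (P (nat_lit 0)) (T.h (T.h (P (nat_lit 0)) (M (nat_lit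 962109935927))) (P (nat_lit 0)))))) (T.h (T.h (T.h (P (nat_lit 86352588684)) (T.h (P (nat_lit 0)) (P (nat_lit 3078281274696)))) (T.h (P (nat_lit 0)) (M (nat_lit 8792617329359)))) (T.h (T.h (P (nat_lit 0)) (T.h (T.h (P (nat_lit 0)) (P (nat_lit 9198962751492))) (P (nat_lit 0)))) (P (nat_lit 1555205943996))))))) (P (nat_lit 0)))))))) et0_1))
def et0_3 : T ℤ := (T.h (T.h (P (nat_lit 0)) (T.h (P (nat_lit 0)) (T.h (P (nat_lit 0)) (T.h (P (nat_lit 0)) (T.h (P (nat_lit 0)) (T.h (P (nat_lit 0)) (T.h (T.h (T.h (T.h (M (nat_lit 5426404687)) (T.h (P (nat_lit 0)) (T.h (P (nat_lit 10040290624)) (T.h (P (nat_lit 0)) (T.h (M (nat_lit 174222079567)) (T.h (P (nat_lit 0)) (M (nat_lit 728637281999)))))))) (T.h (P (nat_lit 0)) (T.h (T.h (M (nat_lit 4998976911)) (T.h (P (nat_lit 0)) (T.h (P (nat_lit 362058880828)) (T.h (P (nat_lit 0)) (M (nat_lit 5116781588795)))))) (T.h (P (nat_lit 0)) (T.h (T.h (M (nat_lit 209888618679))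 (T.h (P (nat_lit 0)) (P (nat_lit 26119519675796)))) (T.h (P (nat_lit 0)) (M (nat_lit 14050898487447)))))))) (T.h (T.h (P (nat_lit 0)) (T.h (T.h (P (nat_lit 0)) (T.h (M (nat_lit 83822244079)) (T.h (P (nat_lit 0)) (P (nat_lit 1083088603856))))) (T.h (P (nat_lit 0)) (T.h (T.h (P (nat_lit 0)) (M (nat_lit 4059658928451))) (P (nat_lit 0)))))) (T.h (T.h (T.h (M (nat_lit 4998976911)) (T.h (P (nat_lit 0)) (T.h (P (nat_lit 362058880828)) (T.h (P (nat_lit 0)) (M (nat_lit 5116781588795)))))) (T.h (P (nat_lit 0)) (T.h (T.h (P (nat_lit 2503805115496)) (T.h (P (nat_lit 0)) (M (nat_lit 1273969421207)))) (T.h (P (nat_lit 0)) (P (nat_lit 93318084204604)))))) (T.h (T.h (P (nat_lit 0)) (T.h (T.h (P (nat_lit 0)) (M (nat_lit 4059658928451))) (P (nat_lit 0)))) (T.h (T.h (T.h (M (nat_lit 209888618679)) (T.h (P (nat_lit 0)) (P (nat_lit 26119519675796)))) (T.h (P (nat_lit 0)) (P (nat_lit 93318084204604)))) (T.h (P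 (nat_lit 0)) (M (nat_lit 14050898487447)))))))) (T.h (P (nat_lit 0)) (T.h (T.h (T.h (T.h (P (nat_lit 5417471592)) (T.h (P (nat_lit 0)) (T.h (M (nat_lit 10396698047)) (T.h (P (nat_lit 0)) (T.h (P (nat_lit 186434500392)) (T.h (P (nat_lit 0)) (P (nat_lit 444028291056)))))))) (T.h (P (nat_lit 0)) (T.h (T.h (P (nat_lit 4957435368)) (T.h (P (nat_lit 0)) (T.h (M (nat_lit 338996029211)) (T.h (P (nat_lit 0)) (P (nat_lit 5035080397428)))))) (T.h (P (nat_lit 0)) (T.h (T.h (P (nat_lit 199607461452)) (T.h (P (nat_lit 0)) (M (nat_lit 25466983922771)))) (T.h (P (nat_lit 0)) (P (nat_lit 14200886005668)))))))) (T.h (T.h (P (nat_lit 0)) (T.h (T.h (P (nat_lit 0)) (T.h (P (nat_lit 84868188408)) (T.h (P (nat_lit 0)) (M (nat_lit 968075013455))))) (T.h (P (nat_lit 0)) (T.h (T.h (P (nat_lit 0)) (P (nat_lit 3926137897404))) (P (nat_lit 0)))))) (T.h (T.h (T.h (P (nat_lit 4957435368)) (T.h (P (nat_lit 0)) (T.h (M (nat_lit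 338996029211)) (T.h (P (nat_lit 0)) (P (nat_lit 5035080397428)))))) (T.h (P (nat_lit 0)) (T.h (T.h (M (nat_lit 2503582126487)) (T.h (P (nat_lit 0)) (M (nat_lit 227860638839)))) (T.h (P (nat_lit 0)) (M (nat_lit 93174808225175)))))) (T.h (T.h (P (nat_lit 0)) (T.h (T.h (P (nat_lit 0)) (P (nat_lit 3926137897404))) (P (nat_lit 0)))) (T.h (T.h (T.h (P (nat_lit 199607461452)) (T.h (P (nat_lit 0)) (M (nat_lit 25466983922771)))) (T.h (P (nat_lit 0)) (M (nat_lit 93174808225175)))) (T.h (P (nat_lit 0)) (P (nat_lit 14200886005668)))))))) (P (nat_lit 0))))))))))) (T.h (T.h (P (nat_lit 0)) (T.h (P (nat_lit 0)) (T.h (P (nat_lit 0)) (T.h (P (nat_lit 0)) (T.h (P (nat_lit 0)) (T.h (T.h (T.h (P (nat_lit 0)) (T.h (T.h (P (nat_lit 0)) (T.h (M (nat_lit 1652854531)) (T.h (P (nat_lit 0)) (T.h (M (nat_lit 48375966963)) (T.h (P (nat_lit 0)) (P (nat_lit 3612736043648))))))) (T.h (P (nat_lit 0)) (T.h (T.h (P (nat_lit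 0)) (T.h (M (nat_lit 85148755599)) (T.h (P (nat_lit 0)) (M (nat_lit 1505242838563))))) (T.h (P (nat_lit 0)) (T.h (T.h (P (nat_lit 0)) (M (nat_lit 10084994971063))) (P (nat_lit 0)))))))) (T.h (T.h (T.h (M (nat_lit 4848497011)) (T.h (P (nat_lit 0)) (T.h (M (nat_lit 10360317751)) (T.h (P (nat_lit 0)) (P (nat_lit 491682438944)))))) (T.h (P (nat_lit 0)) (T.h (T.h (P (nat_lit 176192823212)) (T.h (P (nat_lit 0)) (M (nat_lit 429801099807)))) (T.h (P (nat_lit 0)) (P (nat_lit 6283166357272)))))) (T.h (T.h (P (nat_lit 0)) (T.h (T.h (P (nat_lit 0)) (T.h (M (nat_lit 206417411539)) (T.h (P (nat_lit 0)) (P (nat_lit 1036017139900))))) (T.h (P (nat_lit 0)) (T.h (T.h (P (nat_lit 0)) (M (nat_lit 375215235207))) (P (nat_lit 0)))))) (T.h (T.h (T.h (M (nat_lit 39872001987)) (T.h (P (nat_lit 0)) (P (nat_lit 3194717887472)))) (T.h (P (nat_lit 0)) (P (nat_lit 6906450321804)))) (T.h (T.h (P (nat_lit 0)) (T.h (T.h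 (P (nat_lit 0)) (M (nat_lit 12677088805827))) (P (nat_lit 0)))) (M (nat_lit 1138588799775))))))) (T.h (P (nat_lit 0)) (T.h (T.h (T.h (P (nat_lit 0)) (T.h (T.h (P (nat_lit 0)) (T.h (M (nat_lit 422503919)) (T.h (P (nat_lit 0)) (T.h (P (nat_lit 173834593020)) (T.h (P (nat_lit 0)) (M (nat_lit 2176032170627))))))) (T.h (P (nat_lit 0)) (T.h (T.h (P (nat_lit 0)) (T.h (P (nat_lit 63050778612)) (T.h (P (nat_lit 0)) (P (nat_lit 2931771928176))))) (T.h (P (nat_lit 0)) (T.h (T.h (P (nat_lit 0)) (P (nat_lit 9643525077996))) (P (nat_lit 0)))))))) (T.h (T.h (T.h (P (nat_lit 4916574432)) (T.h (P (nat_lit 0)) (T.h (M (nat_lit 20599328015)) (T.h (P (nat_lit 0)) (P (nat_lit 437988998628)))))) (T.h (P (nat_lit 0)) (T.h (T.h (M (nat_lit 160210164023)) (T.h (P (nat_lit 0)) (M (nat_lit 55091326679)))) (T.h (P (nat_lit 0)) (M (nat_lit 5596641487907)))))) (T.h (T.h (P (nat_lit 0)) (T.h (T.h (P (nat_lit 0)) (T.h (P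 (nat_lit 569686424004)) (T.h (P (nat_lit 0)) (M (nat_lit 4640029222859))))) (T.h (P (nat_lit 0)) (T.h (T.h (P (nat_lit 0)) (M (nat_lit 5571908633591))) (P (nat_lit 0)))))) (T.h (T.h (T.h (P (nat_lit 33255242460)) (T.h (P (nat_lit 0)) (M (nat_lit 3900538740563)))) (T.h (P (nat_lit 0)) (M (nat_lit 7713053608319)))) (T.h (T.h (P (nat_lit 0)) (T.h (T.h (P (nat_lit 0)) (P (nat_lit 13389138776916))) (P (nat_lit 0)))) (P (nat_lit 914394814128))))))) (P (nat_lit 0)))))))))) et0_2))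
def et0_4 : T ℤ := (T.h (T.h (T.h (T.h (T.h (P (nat_lit 0)) (T.h (M (nat_lit 4848497011)) (T.h (P (nat_lit 0)) (T.h (M (nat_lit 39872001987)) (T.h (P (nat_lit 0)) (M (nat_lit 1138588799775))))))) (T.h (P (nat_lit 0)) (T.h (T.h (P (nat_lit 0)) (T.h (M (nat_lit 10360317751)) (T.h (P (nat_lit 0)) (P (nat_lit 3194717887472))))) (T.h (P (nat_lit 0)) (T.h (T.h (P (nat_lit 0)) (P (nat_lit 491682438944))) (P (nat_lit 0))))))) (T.h (T.h (P (nat_lit 0)) (T.h (T.h (M (nat_lit 1652854531)) (T.h (P (nat_lit 0)) (T.h (M (nat_lit 206417411539)) (T.h (P (nat_lit 0)) (M (nat_lit 12677088805827)))))) (T.h (P (nat_lit 0)) (T.h (T.h (M (nat_lit 48375966963)) (T.h (P (nat_lit 0)) (P (nat_lit 1036017139900)))) (T.h (P (nat_lit 0)) (P (nat_lit 3612736043648))))))) (T.h (T.h (T.h (P (nat_lit 0)) (T.h (P (nat_lit 176192823212)) (T.h (P (nat_lit 0)) (P (nat_lit 6906450321804))))) (T.h (P (nat_lit 0)) (T.h (T.h (P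 (nat_lit 0)) (M (nat_lit 429801099807))) (P (nat_lit 0))))) (T.h (T.h (P (nat_lit 0)) (T.h (T.h (M (nat_lit 85148755599)) (T.h (P (nat_lit 0)) (M (nat_lit 375215235207)))) (T.h (P (nat_lit 0)) (M (nat_lit 1505242838563))))) (T.h (T.h (T.h (P (nat_lit 0)) (P (nat_lit 6283166357272))) (P (nat_lit 0))) (T.h (T.h (P (nat_lit 0)) (M (nat_lit 10084994971063))) (P (nat_lit 0)))))))) (T.h (P (nat_lit 0)) (T.h (T.h (T.h (T.h (P (nat_lit 0)) (T.h (P (nat_lit 8205566796)) (T.h (P (nat_lit 0)) (T.h (M (nat_lit 32204832335)) (T.h (P (nat_lit 0)) (P (nat_lit 2842888732596))))))) (T.h (P (nat_lit 0)) (T.h (T.h (P (nat_lit 0)) (T.h (M (nat_lit 291595236983)) (T.h (P (nat_lit 0)) (M (nat_lit 6508215658763))))) (T.h (P (nat_lit 0)) (T.h (T.h (P (nat_lit 0)) (P (nat_lit 1191195337644))) (P (nat_lit 0))))))) (T.h (T.h (P (nat_lit 0)) (T.h (T.h (M (nat_lit 50303715875)) (T.h (P (nat_lit 0)) (T.h (P (nat_lit 696508299864))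 (T.h (P (nat_lit 0)) (P (nat_lit 34852812975792)))))) (T.h (P (nat_lit 0)) (T.h (T.h (M (nat_lit 276295630967)) (T.h (P (nat_lit 0)) (P (nat_lit 811990898964)))) (T.h (P (nat_lit 0)) (M (nat_lit 8188139946887))))))) (T.h (T.h (T.h (P (nat_lit 0)) (T.h (P (nat_lit 388925759772)) (T.h (P (nat_lit 0)) (M (nat_lit 3212969552783))))) (T.h (P (nat_lit 0)) (T.h (T.h (P (nat_lit 0)) (M (nat_lit 6813107489339))) (P (nat_lit 0))))) (T.h (T.h (P (nat_lit 0)) (T.h (T.h (M (nat_lit 191256247367)) (T.h (P (nat_lit 0)) (P (nat_lit 53956901342448)))) (T.h (P (nat_lit 0)) (M (nat_lit 3208546666295))))) (T.h (T.h (T.h (P (nat_lit 0)) (M (nat_lit 6610736453939))) (P (nat_lit 0))) (T.h (T.h (P (nat_lit 0)) (P (nat_lit 11462463152172))) (P (nat_lit 0)))))))) (P (nat_lit 0))))) (T.h (T.h (P (nat_lit 0)) (T.h (T.h (T.h (P (nat_lit 0)) (T.h (T.h (P (nat_lit 1875462912)) (T.h (P (nat_lit 0)) (T.h (P (nat_lit 47292827292))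 (T.h (P (nat_lit 0)) (M (nat_lit 632194907183)))))) (T.h (P (nat_lit 0)) (T.h (T.h (M (nat_lit 6712655255)) (T.h (P (nat_lit 0)) (M (nat_lit 1902861377387)))) (T.h (P (nat_lit 0)) (M (nat_lit 2039199423623))))))) (T.h (T.h (T.h (P (nat_lit 0)) (T.h (M (nat_lit 35181537479)) (T.h (P (nat_lit 0)) (T.h (M (nat_lit 739808328023)) (T.h (P (nat_lit 0)) (M (nat_lit 17126287281791))))))) (T.h (P (nat_lit 0)) (T.h (T.h (P (nat_lit 0)) (T.h (P (nat_lit 2996136568584)) (T.h (P (nat_lit 0)) (P (nat_lit 9645615803304))))) (T.h (P (nat_lit 0)) (T.h (T.h (P (nat_lit 0)) (M (nat_lit 23334422527943))) (P (nat_lit 0))))))) (T.h (T.h (P (nat_lit 0)) (T.h (T.h (P (nat_lit 47292827292)) (T.h (P (nat_lit 0)) (M (nat_lit 2980308744791)))) (T.h (P (nat_lit 0)) (M (nat_lit 1902861377387))))) (T.h (T.h (T.h (P (nat_lit 0)) (T.h (M (nat_lit 739808328023)) (T.h (P (nat_lit 0)) (M (nat_lit 7976511140543))))) (T.h (P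 (nat_lit 0)) (T.h (T.h (P (nat_lit 0)) (P (nat_lit 9645615803304))) (P (nat_lit 0))))) (T.h (T.h (P (nat_lit 0)) (M (nat_lit 632194907183))) (T.h (T.h (T.h (P (nat_lit 0)) (M (nat_lit 17126287281791))) (P (nat_lit 0))) (P (nat_lit 0)))))))) (P (nat_lit 0)))) (T.h (T.h (T.h (T.h (T.h (P (nat_lit 0)) (T.h (P (nat_lit 4916574432)) (T.h (P (nat_lit 0)) (T.h (P (nat_lit 33255242460)) (T.h (P (nat_lit 0)) (P (nat_lit 914394814128))))))) (T.h (P (nat_lit 0)) (T.h (T.h (P (nat_lit 0)) (T.h (M (nat_lit 20599328015)) (T.h (P (nat_lit 0)) (M (nat_lit 3900538740563))))) (T.h (P (nat_lit 0)) (T.h (T.h (P (nat_lit 0)) (P (nat_lit 437988998628))) (P (nat_lit 0))))))) (T.h (T.h (P (nat_lit 0)) (T.h (T.h (M (nat_lit 422503919)) (T.h (P (nat_lit 0)) (T.h (P (nat_lit 569686424004)) (T.h (P (nat_lit 0)) (P (nat_lit 13389138776916)))))) (T.h (P (nat_lit 0)) (T.h (T.h (P (nat_lit 173834593020)) (T.h (P (nat_lit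 0)) (M (nat_lit 4640029222859)))) (T.h (P (nat_lit 0)) (M (nat_lit 2176032170627))))))) (T.h (T.h (T.h (P (nat_lit 0)) (T.h (M (nat_lit 160210164023)) (T.h (P (nat_lit 0)) (M (nat_lit 7713053608319))))) (T.h (P (nat_lit 0)) (T.h (T.h (P (nat_lit 0)) (M (nat_lit 55091326679))) (P (nat_lit 0))))) (T.h (T.h (P (nat_lit 0)) (T.h (T.h (P (nat_lit 63050778612)) (T.h (P (nat_lit 0)) (M (nat_lit 5571908633591)))) (T.h (P (nat_lit 0)) (P (nat_lit 2931771928176))))) (T.h (T.h (T.h (P (nat_lit 0)) (M (nat_lit 5596641487907))) (P (nat_lit 0))) (T.h (T.h (P (nat_lit 0)) (P (nat_lit 9643525077996))) (P (nat_lit 0)))))))) (P (nat_lit 0))) (P (nat_lit 0)))))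
def et0_5 : T ℤ := (T.h (T.h (P (nat_lit 0)) (T.h (P (nat_lit 0)) (T.h (T.h (T.h (T.h (P (nat_lit 0)) (T.h (P (nat_lit 821821392)) (T.h (P (nat_lit 0)) (T.h (P (nat_lit 72279742208)) (T.h (P (nat_lit 0)) (P (nat_lit 352028450656))))))) (T.h (P (nat_lit 0)) (T.h (T.h (P (nat_lit 0)) (T.h (M (nat_lit 37959753323)) (T.h (P (nat_lit 0)) (P (nat_lit 382030830148))))) (T.h (P (nat_lit 0)) (T.h (T.h (P (nat_lit 0)) (P (nat_lit 114473944424))) (P (nat_lit 0))))))) (T.h (T.h (P (nat_lit 0)) (T.h (T.h (P (nat_lit 16324090312)) (T.h (P (nat_lit 0)) (T.h (P (nat_lit 953211264776)) (T.h (P (nat_lit 0)) (P (nat_lit 1512333995080)))))) (T.h (P (nat_lit 0)) (T.h (T.h (M (nat_lit 27865707483)) (T.h (P (nat_lit 0)) (P (nat_lit 307054045304)))) (T.h (P (nat_lit 0)) (P (nat_lit 8921266370372))))))) (T.h (T.h (T.h (P (nat_lit 0)) (T.h (M (nat_lit 93727969543)) (T.h (P (nat_lit 0)) (M (nat_lit 735474673015)))))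 (T.h (P (nat_lit 0)) (T.h (T.h (P (nat_lit 0)) (M (nat_lit 1079531690071))) (P (nat_lit 0))))) (T.h (T.h (P (nat_lit 0)) (T.h (T.h (M (nat_lit 4179062891)) (T.h (P (nat_lit 0)) (M (nat_lit 7897288647047)))) (T.h (P (nat_lit 0)) (P (nat_lit 3345368848544))))) (T.h (T.h (T.h (P (nat_lit 0)) (P (nat_lit 1167531406008))) (P (nat_lit 0))) (T.h (T.h (P (nat_lit 0)) (M (nat_lit 3989703204543))) (P (nat_lit 0)))))))) (T.h (P (nat_lit 0)) (T.h (T.h (T.h (T.h (P (nat_lit 0)) (T.h (M (nat_lit 7133696063)) (T.h (P (nat_lit 0)) (T.h (M (nat_lit 207981240587)) (T.h (P (nat_lit 0)) (M (nat_lit 3324917342051))))))) (T.h (P (nat_lit 0)) (T.h (T.h (P (nat_lit 0)) (T.h (P (nat_lit 218477861568)) (T.h (P (nat_lit 0)) (M (nat_lit 10151635376519))))) (T.h (P (nat_lit 0)) (T.h (T.h (P (nat_lit 0)) (M (nat_lit 5153614276067))) (P (nat_lit 0))))))) (T.h (T.h (P (nat_lit 0)) (T.h (T.h (M (nat_lit 105643533347)) (T.h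 (P (nat_lit 0)) (T.h (M (nat_lit 1160658880199)) (T.h (P (nat_lit 0)) (P (nat_lit 5565736760040)))))) (T.h (P (nat_lit 0)) (T.h (T.h (P (nat_lit 292370476716)) (T.h (P (nat_lit 0)) (P (nat_lit 41434815098844)))) (T.h (P (nat_lit 0)) (M (nat_lit 19360738123595))))))) (T.h (T.h (T.h (P (nat_lit 0)) (T.h (P (nat_lit 308461412484)) (T.h (P (nat_lit 0)) (M (nat_lit 4909238224703))))) (T.h (P (nat_lit 0)) (T.h (T.h (P (nat_lit 0)) (M (nat_lit 22458899649491))) (P (nat_lit 0))))) (T.h (T.h (P (nat_lit 0)) (T.h (T.h (M (nat_lit 3386570706395)) (T.h (P (nat_lit 0)) (P (nat_lit 31876370939628)))) (T.h (P (nat_lit 0)) (P (nat_lit 598837485924))))) (T.h (T.h (T.h (P (nat_lit 0)) (P (nat_lit 2308617587592))) (P (nat_lit 0))) (T.h (T.h (P (nat_lit 0)) (M (nat_lit 7994151505367))) (P (nat_lit 0)))))))) (P (nat_lit 0))))))) (T.h (T.h (P (nat_lit 0)) (T.h (T.h (T.h (P (nat_lit 0)) (T.h (T.h (M (nat_lit 316548111))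 (T.h (P (nat_lit 0)) (T.h (M (nat_lit 24384487415)) (T.h (P (nat_lit 0)) (P (nat_lit 821362409764)))))) (T.h (P (nat_lit 0)) (T.h (T.h (P (nat_lit 16753389872)) (T.h (P (nat_lit 0)) (P (nat_lit 2225041592872)))) (T.h (P (nat_lit 0)) (M (nat_lit 252615475703))))))) (T.h (T.h (T.h (P (nat_lit 0)) (T.h (P (nat_lit 8973040992)) (T.h (P (nat_lit 0)) (T.h (P (nat_lit 436650853740)) (T.h (P (nat_lit 0)) (P (nat_lit 14276397138732))))))) (T.h (P (nat_lit 0)) (T.h (T.h (P (nat_lit 0)) (T.h (M (nat_lit 111700817327)) (T.h (P (nat_lit 0)) (M (nat_lit 1991152559703))))) (T.h (P (nat_lit 0)) (T.h (T.h (P (nat_lit 0)) (M (nat_lit 790875528159))) (P (nat_lit 0))))))) (T.h (T.h (P (nat_lit 0)) (T.h (T.h (M (nat_lit 24384487415)) (T.h (P (nat_lit 0)) (M (nat_lit 655031440463)))) (T.h (P (nat_lit 0)) (P (nat_lit 2225041592872))))) (T.h (T.h (T.h (P (nat_lit 0)) (T.h (P (nat_lit 436650853740)) (T.h (P (nat_lit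 0)) (P (nat_lit 8416693191144))))) (T.h (P (nat_lit 0)) (T.h (T.h (P (nat_lit 0)) (M (nat_lit 1991152559703))) (P (nat_lit 0))))) (T.h (T.h (P (nat_lit 0)) (P (nat_lit 821362409764))) (T.h (T.h (T.h (P (nat_lit 0)) (P (nat_lit 14276397138732))) (P (nat_lit 0))) (P (nat_lit 0)))))))) (T.h (P (nat_lit 0)) (T.h (T.h (T.h (P (nat_lit 0)) (T.h (T.h (M (nat_lit 7133696063)) (T.h (P (nat_lit 0)) (T.h (P (nat_lit 218477861568)) (T.h (P (nat_lit 0)) (M (nat_lit 5153614276067)))))) (T.h (P (nat_lit 0)) (T.h (T.h (M (nat_lit 207981240587)) (T.h (P (nat_lit 0)) (M (nat_lit 10151635376519)))) (T.h (P (nat_lit 0)) (M (nat_lit 3324917342051))))))) (T.h (T.h (T.h (P (nat_lit 0)) (T.h (M (nat_lit 105643533347)) (T.h (P (nat_lit 0)) (T.h (P (nat_lit 292370476716)) (T.h (P (nat_lit 0)) (M (nat_lit 19360738123595))))))) (T.h (P (nat_lit 0)) (T.h (T.h (P (nat_lit 0)) (T.h (M (nat_lit 1160658880199)) (T.h (P (nat_lit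 0)) (P (nat_lit 41434815098844))))) (T.h (P (nat_lit 0)) (T.h (T.h (P (nat_lit 0)) (P (nat_lit 5565736760040))) (P (nat_lit 0))))))) (T.h (T.h (P (nat_lit 0)) (T.h (T.h (P (nat_lit 308461412484)) (T.h (P (nat_lit 0)) (M (nat_lit 22458899649491)))) (T.h (P (nat_lit 0)) (M (nat_lit 4909238224703))))) (T.h (T.h (T.h (P (nat_lit 0)) (T.h (M (nat_lit 3386570706395)) (T.h (P (nat_lit 0)) (P (nat_lit 598837485924))))) (T.h (P (nat_lit 0)) (T.h (T.h (P (nat_lit 0)) (P (nat_lit 31876370939628))) (P (nat_lit 0))))) (T.h (T.h (P (nat_lit 0)) (P (nat_lit 2308617587592))) (T.h (T.h (T.h (P (nat_lit 0)) (M (nat_lit 7994151505367))) (P (nat_lit 0))) (P (nat_lit 0)))))))) (P (nat_lit 0)))))) et0_4))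
def et0_6 : T ℤ := (T.h (T.h (P (nat_lit 0)) (T.h (P (nat_lit 0)) (T.h (P (nat_lit 0)) (T.h (P (nat_lit 0)) (T.h (T.h (T.h (T.h (P (nat_lit 0)) (T.h (M (nat_lit 316548111)) (T.h (P (nat_lit 0)) (T.h (P (nat_lit 16753389872)) (T.h (P (nat_lit 0)) (M (nat_lit 252615475703))))))) (T.h (P (nat_lit 0)) (T.h (T.h (P (nat_lit 0)) (T.h (M (nat_lit 24384487415)) (T.h (P (nat_lit 0)) (P (nat_lit 2225041592872))))) (T.h (P (nat_lit 0)) (T.h (T.h (P (nat_lit 0)) (P (nat_lit 821362409764))) (P (nat_lit 0))))))) (T.h (T.h (P (nat_lit 0)) (T.h (T.h (P (nat_lit 8973040992)) (T.h (P (nat_lit 0)) (T.h (M (nat_lit 111700817327)) (T.h (P (nat_lit 0)) (M (nat_lit 790875528159)))))) (T.h (P (nat_lit 0)) (T.h (T.h (P (nat_lit 436650853740)) (T.h (P (nat_lit 0)) (M (nat_lit 1991152559703)))) (T.h (P (nat_lit 0)) (P (nat_lit 14276397138732))))))) (T.h (T.h (T.h (P (nat_lit 0)) (T.h (M (nat_lit 24384487415)) (T.h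 (P (nat_lit 0)) (P (nat_lit 2225041592872))))) (T.h (P (nat_lit 0)) (T.h (T.h (P (nat_lit 0)) (M (nat_lit 655031440463))) (P (nat_lit 0))))) (T.h (T.h (P (nat_lit 0)) (T.h (T.h (P (nat_lit 436650853740)) (T.h (P (nat_lit 0)) (M (nat_lit 1991152559703)))) (T.h (P (nat_lit 0)) (P (nat_lit 8416693191144))))) (T.h (T.h (T.h (P (nat_lit 0)) (P (nat_lit 821362409764))) (P (nat_lit 0))) (T.h (T.h (P (nat_lit 0)) (P (nat_lit 14276397138732))) (P (nat_lit 0)))))))) (T.h (P (nat_lit 0)) (T.h (T.h (T.h (T.h (P (nat_lit 0)) (T.h (P (nat_lit 1875462912)) (T.h (P (nat_lit 0)) (T.h (M (nat_lit 6712655255)) (T.h (P (nat_lit 0)) (M (nat_lit 2039199423623))))))) (T.h (P (nat_lit 0)) (T.h (T.h (P (nat_lit 0)) (T.h (P (nat_lit 47292827292)) (T.h (P (nat_lit 0)) (M (nat_lit 1902861377387))))) (T.h (P (nat_lit 0)) (T.h (T.h (P (nat_lit 0)) (M (nat_lit 632194907183))) (P (nat_lit 0))))))) (T.h (T.h (P (nat_lit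 0)) (T.h (T.h (M (nat_lit 35181537479)) (T.h (P (nat_lit 0)) (T.h (P (nat_lit 2996136568584)) (T.h (P (nat_lit 0)) (M (nat_lit 23334422527943)))))) (T.h (P (nat_lit 0)) (T.h (T.h (M (nat_lit 739808328023)) (T.h (P (nat_lit 0)) (P (nat_lit 9645615803304)))) (T.h (P (nat_lit 0)) (M (nat_lit 17126287281791))))))) (T.h (T.h (T.h (P (nat_lit 0)) (T.h (P (nat_lit 47292827292)) (T.h (P (nat_lit 0)) (M (nat_lit 1902861377387))))) (T.h (P (nat_lit 0)) (T.h (T.h (P (nat_lit 0)) (M (nat_lit 2980308744791))) (P (nat_lit 0))))) (T.h (T.h (P (nat_lit 0)) (T.h (T.h (M (nat_lit 739808328023)) (T.h (P (nat_lit 0)) (P (nat_lit 9645615803304)))) (T.h (P (nat_lit 0)) (M (nat_lit 7976511140543))))) (T.h (T.h (T.h (P (nat_lit 0)) (M (nat_lit 632194907183))) (P (nat_lit 0))) (T.h (T.h (P (nat_lit 0)) (M (nat_lit 17126287281791))) (P (nat_lit 0)))))))) (P (nat_lit 0))))))))) (T.h (T.h (P (nat_lit 0)) (T.h (P (nat_lit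 0)) (T.h (P (nat_lit 0)) (T.h (T.h (T.h (P (nat_lit 0)) (T.h (T.h (P (nat_lit 821821392)) (T.h (P (nat_lit 0)) (T.h (M (nat_lit 37959753323)) (T.h (P (nat_lit 0)) (P (nat_lit 114473944424)))))) (T.h (P (nat_lit 0)) (T.h (T.h (P (nat_lit 72279742208)) (T.h (P (nat_lit 0)) (P (nat_lit 382030830148)))) (T.h (P (nat_lit 0)) (P (nat_lit 352028450656))))))) (T.h (T.h (T.h (P (nat_lit 0)) (T.h (P (nat_lit 16324090312)) (T.h (P (nat_lit 0)) (T.h (M (nat_lit 27865707483)) (T.h (P (nat_lit 0)) (P (nat_lit 8921266370372))))))) (T.h (P (nat_lit 0)) (T.h (T.h (P (nat_lit 0)) (T.h (P (nat_lit 953211264776)) (T.h (P (nat_lit 0)) (P (nat_lit 307054045304))))) (T.h (P (nat_lit 0)) (T.h (T.h (P (nat_lit 0)) (P (nat_lit 1512333995080))) (P (nat_lit 0))))))) (T.h (T.h (P (nat_lit 0)) (T.h (T.h (M (nat_lit 93727969543)) (T.h (P (nat_lit 0)) (M (nat_lit 1079531690071)))) (T.h (P (nat_lit 0)) (M (nat_lit 735474673015)))))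 (T.h (T.h (T.h (P (nat_lit 0)) (T.h (M (nat_lit 4179062891)) (T.h (P (nat_lit 0)) (P (nat_lit 3345368848544))))) (T.h (P (nat_lit 0)) (T.h (T.h (P (nat_lit 0)) (M (nat_lit 7897288647047))) (P (nat_lit 0))))) (T.h (T.h (P (nat_lit 0)) (P (nat_lit 1167531406008))) (T.h (T.h (T.h (P (nat_lit 0)) (M (nat_lit 3989703204543))) (P (nat_lit 0))) (P (nat_lit 0)))))))) (T.h (P (nat_lit 0)) (T.h (T.h (T.h (P (nat_lit 0)) (T.h (T.h (P (nat_lit 8205566796)) (T.h (P (nat_lit 0)) (T.h (M (nat_lit 291595236983)) (T.h (P (nat_lit 0)) (P (nat_lit 1191195337644)))))) (T.h (P (nat_lit 0)) (T.h (T.h (M (nat_lit 32204832335)) (T.h (P (nat_lit 0)) (M (nat_lit 6508215658763)))) (T.h (P (nat_lit 0)) (P (nat_lit 2842888732596))))))) (T.h (T.h (T.h (P (nat_lit 0)) (T.h (M (nat_lit 50303715875)) (T.h (P (nat_lit 0)) (T.h (M (nat_lit 276295630967)) (T.h (P (nat_lit 0)) (M (nat_lit 8188139946887))))))) (T.h (P (nat_lit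 0)) (T.h (T.h (P (nat_lit 0)) (T.h (P (nat_lit 696508299864)) (T.h (P (nat_lit 0)) (P (nat_lit 811990898964))))) (T.h (P (nat_lit 0)) (T.h (T.h (P (nat_lit 0)) (P (nat_lit 34852812975792))) (P (nat_lit 0))))))) (T.h (T.h (P (nat_lit 0)) (T.h (T.h (P (nat_lit 388925759772)) (T.h (P (nat_lit 0)) (M (nat_lit 6813107489339)))) (T.h (P (nat_lit 0)) (M (nat_lit 3212969552783))))) (T.h (T.h (T.h (P (nat_lit 0)) (T.h (M (nat_lit 191256247367)) (T.h (P (nat_lit 0)) (M (nat_lit 3208546666295))))) (T.h (P (nat_lit 0)) (T.h (T.h (P (nat_lit 0)) (P (nat_lit 53956901342448))) (P (nat_lit 0))))) (T.h (T.h (P (nat_lit 0)) (M (nat_lit 6610736453939))) (T.h (T.h (T.h (P (nat_lit 0)) (P (nat_lit 11462463152172))) (P (nat_lit 0))) (P (nat_lit 0)))))))) (P (nat_lit 0)))))))) et0_5))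
def et0_7 : T ℤ := (T.h (T.h (T.h (T.h (T.h (M (nat_lit 5382558623)) (T.h (P (nat_lit 0)) (T.h (M (nat_lit 30483592911)) (T.h (P (nat_lit 0)) (T.h (M (nat_lit 766074816543)) (T.h (P (nat_lit 0)) (M (nat_lit 8019982815391)))))))) (T.h (P (nat_lit 0)) (T.h (T.h (P (nat_lit 6197216376)) (T.h (P (nat_lit 0)) (T.h (M (nat_lit 13362565703)) (T.h (P (nat_lit 0)) (P (nat_lit 5599240923568)))))) (T.h (P (nat_lit 0)) (T.h (T.h (P (nat_lit 185981923992)) (T.h (P (nat_lit 0)) (P (nat_lit 8792461336928)))) (T.h (P (nat_lit 0)) (P (nat_lit 3868184772648)))))))) (T.h (T.h (P (nat_lit 0)) (T.h (T.h (P (nat_lit 0)) (T.h (M (nat_lit 174113064867)) (T.h (P (nat_lit 0)) (M (nat_lit 1333565389895))))) (T.h (P (nat_lit 0)) (T.h (T.h (P (nat_lit 0)) (M (nat_lit 2324408448295))) (P (nat_lit 0)))))) (T.h (T.h (T.h (P (nat_lit 2927247776)) (T.h (P (nat_lit 0)) (T.h (P (nat_lit 345544741468)) (T.h (P (nat_lit 0)) (P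 (nat_lit 1769234935020)))))) (T.h (P (nat_lit 0)) (T.h (T.h (P (nat_lit 1021668496320)) (T.h (P (nat_lit 0)) (P (nat_lit 5544600443792)))) (T.h (P (nat_lit 0)) (M (nat_lit 7083759141039)))))) (T.h (T.h (P (nat_lit 0)) (T.h (T.h (P (nat_lit 0)) (M (nat_lit 7930128116723))) (P (nat_lit 0)))) (T.h (T.h (T.h (P (nat_lit 371287167520)) (T.h (P (nat_lit 0)) (P (nat_lit 23336467445708)))) (T.h (P (nat_lit 0)) (P (nat_lit 2032219122416)))) (T.h (P (nat_lit 0)) (P (nat_lit 15261432343392)))))))) (T.h (P (nat_lit 0)) (T.h (T.h (T.h (T.h (P (nat_lit 8113003560)) (T.h (P (nat_lit 0)) (T.h (M (nat_lit 54566293535)) (T.h (P (nat_lit 0)) (T.h (M (nat_lit 1133165517767)) (T.h (P (nat_lit 0)) (M (nat_lit 11938494177287)))))))) (T.h (P (nat_lit 0)) (T.h (T.h (P (nat_lit 86473118376)) (T.h (P (nat_lit 0)) (T.h (P (nat_lit 6593325581628)) (T.h (P (nat_lit 0)) (M (nat_lit 3819363299243)))))) (T.h (P (nat_lit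 0)) (T.h (T.h (P (nat_lit 682983640800)) (T.h (P (nat_lit 0)) (P (nat_lit 6183965408292)))) (T.h (P (nat_lit 0)) (P (nat_lit 7752348193464)))))))) (T.h (T.h (P (nat_lit 0)) (T.h (T.h (P (nat_lit 0)) (T.h (M (nat_lit 1166215764239)) (T.h (P (nat_lit 0)) (M (nat_lit 39554954149103))))) (T.h (P (nat_lit 0)) (T.h (T.h (P (nat_lit 0)) (P (nat_lit 226923856920))) (P (nat_lit 0)))))) (T.h (T.h (T.h (M (nat_lit 54566293535)) (T.h (P (nat_lit 0)) (T.h (M (nat_lit 3068541297719)) (T.h (P (nat_lit 0)) (M (nat_lit 6138395722907)))))) (T.h (P (nat_lit 0)) (T.h (T.h (P (nat_lit 6593325581628)) (T.h (P (nat_lit 0)) (P (nat_lit 34815262537512)))) (T.h (P (nat_lit 0)) (P (nat_lit 6183965408292)))))) (T.h (T.h (P (nat_lit 0)) (T.h (T.h (P (nat_lit 0)) (M (nat_lit 39554954149103))) (P (nat_lit 0)))) (T.h (T.h (T.h (M (nat_lit 1133165517767)) (T.h (P (nat_lit 0)) (M (nat_lit 6138395722907)))) (T.h (P (nat_lit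 0)) (M (nat_lit 3819363299243)))) (T.h (P (nat_lit 0)) (M (nat_lit 11938494177287)))))))) (P (nat_lit 0))))) (T.h (T.h (P (nat_lit 0)) (T.h (T.h (T.h (P (nat_lit 0)) (T.h (T.h (P (nat_lit 0)) (T.h (M (nat_lit 50303715875)) (T.h (P (nat_lit 0)) (T.h (M (nat_lit 191256247367)) (T.h (P (nat_lit 0)) (P (nat_lit 11462463152172))))))) (T.h (P (nat_lit 0)) (T.h (T.h (P (nat_lit 0)) (T.h (M (nat_lit 276295630967)) (T.h (P (nat_lit 0)) (M (nat_lit 3208546666295))))) (T.h (P (nat_lit 0)) (T.h (T.h (P (nat_lit 0)) (M (nat_lit 8188139946887))) (P (nat_lit 0)))))))) (T.h (T.h (T.h (P (nat_lit 8205566796)) (T.h (P (nat_lit 0)) (T.h (P (nat_lit 388925759772)) (T.h (P (nat_lit 0)) (M (nat_lit 6610736453939)))))) (T.h (P (nat_lit 0)) (T.h (T.h (M (nat_lit 291595236983)) (T.h (P (nat_lit 0)) (M (nat_lit 6813107489339)))) (T.h (P (nat_lit 0)) (P (nat_lit 1191195337644)))))) (T.h (T.h (P (nat_lit 0)) (T.h (T.h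 (P (nat_lit 0)) (T.h (P (nat_lit 696508299864)) (T.h (P (nat_lit 0)) (P (nat_lit 53956901342448))))) (T.h (P (nat_lit 0)) (T.h (T.h (P (nat_lit 0)) (P (nat_lit 811990898964))) (P (nat_lit 0)))))) (T.h (T.h (T.h (M (nat_lit 32204832335)) (T.h (P (nat_lit 0)) (M (nat_lit 3212969552783)))) (T.h (P (nat_lit 0)) (M (nat_lit 6508215658763)))) (T.h (T.h (P (nat_lit 0)) (T.h (T.h (P (nat_lit 0)) (P (nat_lit 34852812975792))) (P (nat_lit 0)))) (P (nat_lit 2842888732596))))))) (P (nat_lit 0)))) (T.h (T.h (T.h (T.h (T.h (P (nat_lit 10786339656)) (T.h (P (nat_lit 0)) (T.h (P (nat_lit 40706917308)) (T.h (P (nat_lit 0)) (T.h (P (nat_lit 1243913809680)) (T.h (P (nat_lit 0)) (P (nat_lit 21852672283800)))))))) (T.h (P (nat_lit 0)) (T.h (T.h (M (nat_lit 10107434951)) (T.h (P (nat_lit 0)) (T.h (M (nat_lit 660404701511)) (T.h (P (nat_lit 0)) (M (nat_lit 33310156589855)))))) (T.h (P (nat_lit 0)) (T.h (T.h (M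 (nat_lit 223504714043)) (T.h (P (nat_lit 0)) (M (nat_lit 6601661213291)))) (T.h (P (nat_lit 0)) (M (nat_lit 3661426904615)))))))) (T.h (T.h (P (nat_lit 0)) (T.h (T.h (P (nat_lit 0)) (T.h (P (nat_lit 193032154260)) (T.h (P (nat_lit 0)) (P (nat_lit 6240550941072))))) (T.h (P (nat_lit 0)) (T.h (T.h (P (nat_lit 0)) (P (nat_lit 2545803747000))) (P (nat_lit 0)))))) (T.h (T.h (T.h (P (nat_lit 2295225072)) (T.h (P (nat_lit 0)) (T.h (M (nat_lit 2560661499563)) (T.h (P (nat_lit 0)) (M (nat_lit 88038585504611)))))) (T.h (P (nat_lit 0)) (T.h (T.h (M (nat_lit 1307429283203)) (T.h (P (nat_lit 0)) (M (nat_lit 3628401233471)))) (T.h (P (nat_lit 0)) (P (nat_lit 19327286907036)))))) (T.h (T.h (P (nat_lit 0)) (T.h (T.h (P (nat_lit 0)) (P (nat_lit 14629920707952))) (P (nat_lit 0)))) (T.h (T.h (T.h (M (nat_lit 163008652103)) (T.h (P (nat_lit 0)) (M (nat_lit 124810432508303)))) (T.h (P (nat_lit 0)) (M (nat_lit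 33548786539415)))) (T.h (P (nat_lit 0)) (M (nat_lit 2178365119847)))))))) (P (nat_lit 0))) (P (nat_lit 0)))))
def et0_8 : T ℤ := (T.h (T.h (P (nat_lit 0)) (T.h (P (nat_lit 0)) (T.h (T.h (T.h (T.h (P (nat_lit 2722405968)) (T.h (P (nat_lit 0)) (T.h (P (nat_lit 20326187448)) (T.h (P (nat_lit 0)) (T.h (P (nat_lit 79159206192)) (T.h (P (nat_lit 0)) (P (nat_lit 1495861379808)))))))) (T.h (P (nat_lit 0)) (T.h (T.h (P (nat_lit 20326187448)) (T.h (P (nat_lit 0)) (T.h (M (nat_lit 1140426465575)) (T.h (P (nat_lit 0)) (P (nat_lit 1325444606784)))))) (T.h (P (nat_lit 0)) (T.h (T.h (P (nat_lit 79159206192)) (T.h (P (nat_lit 0)) (P (nat_lit 1325444606784)))) (T.h (P (nat_lit 0)) (P (nat_lit 1495861379808)))))))) (T.h (T.h (P (nat_lit 0)) (T.h (T.h (P (nat_lit 0)) (T.h (M (nat_lit 1196944991)) (T.h (P (nat_lit 0)) (P (nat_lit 4651571752224))))) (T.h (P (nat_lit 0)) (T.h (T.h (P (nat_lit 0)) (P (nat_lit 4651571752224)))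 (P (nat_lit 0)))))) (T.h (T.h (T.h (P (nat_lit 20326187448)) (T.h (P (nat_lit 0)) (T.h (M (nat_lit 1140426465575)) (T.h (P (nat_lit 0)) (P (nat_lit 1325444606784)))))) (T.h (P (nat_lit 0)) (T.h (T.h (M (nat_lit 1140426465575)) (T.h (P (nat_lit 0)) (M (nat_lit 79166279879)))) (T.h (P (nat_lit 0)) (P (nat_lit 1325444606784)))))) (T.h (T.h (P (nat_lit 0)) (T.h (T.h (P (nat_lit 0)) (P (nat_lit 4651571752224))) (P (nat_lit 0)))) (T.h (T.h (T.h (P (nat_lit 79159206192)) (T.h (P (nat_lit 0)) (P (nat_lit 1325444606784)))) (T.h (P (nat_lit 0)) (P (nat_lit 1325444606784)))) (T.h (P (nat_lit 0)) (P (nat_lit 1495861379808)))))))) (T.h (P (nat_lit 0)) (T.h (T.h (T.h (T.h (P (nat_lit 8113003560)) (T.h (P (nat_lit 0)) (T.h (P (nat_lit 86473118376)) (T.h (P (nat_lit 0)) (T.h (P (nat_lit 682983640800)) (T.h (P (nat_lit 0)) (P (nat_lit 7752348193464)))))))) (T.h (P (nat_lit 0)) (T.h (T.h (M (nat_lit 54566293535))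 (T.h (P (nat_lit 0)) (T.h (P (nat_lit 6593325581628)) (T.h (P (nat_lit 0)) (P (nat_lit 6183965408292)))))) (T.h (P (nat_lit 0)) (T.h (T.h (M (nat_lit 1133165517767)) (T.h (P (nat_lit 0)) (M (nat_lit 3819363299243)))) (T.h (P (nat_lit 0)) (M (nat_lit 11938494177287)))))))) (T.h (T.h (P (nat_lit 0)) (T.h (T.h (P (nat_lit 0)) (T.h (M (nat_lit 1166215764239)) (T.h (P (nat_lit 0)) (P (nat_lit 226923856920))))) (T.h (P (nat_lit 0)) (T.h (T.h (P (nat_lit 0)) (M (nat_lit 39554954149103))) (P (nat_lit 0)))))) (T.h (T.h (T.h (M (nat_lit 54566293535)) (T.h (P (nat_lit 0)) (T.h (P (nat_lit 6593325581628)) (T.h (P (nat_lit 0)) (P (nat_lit 6183965408292)))))) (T.h (P (nat_lit 0)) (T.h (T.h (M (nat_lit 3068541297719)) (T.h (P (nat_lit 0)) (P (nat_lit 34815262537512)))) (T.h (P (nat_lit 0)) (M (nat_lit 6138395722907)))))) (T.h (T.h (P (nat_lit 0)) (T.h (T.h (P (nat_lit 0)) (M (nat_lit 39554954149103))) (P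 (nat_lit 0)))) (T.h (T.h (T.h (M (nat_lit 1133165517767)) (T.h (P (nat_lit 0)) (M (nat_lit 3819363299243)))) (T.h (P (nat_lit 0)) (M (nat_lit 6138395722907)))) (T.h (P (nat_lit 0)) (M (nat_lit 11938494177287)))))))) (P (nat_lit 0))))))) (T.h (T.h (P (nat_lit 0)) (T.h (T.h (T.h (P (nat_lit 0)) (T.h (T.h (P (nat_lit 0)) (T.h (P (nat_lit 16324090312)) (T.h (P (nat_lit 0)) (T.h (M (nat_lit 4179062891)) (T.h (P (nat_lit 0)) (M (nat_lit 3989703204543))))))) (T.h (P (nat_lit 0)) (T.h (T.h (P (nat_lit 0)) (T.h (M (nat_lit 27865707483)) (T.h (P (nat_lit 0)) (P (nat_lit 3345368848544))))) (T.h (P (nat_lit 0)) (T.h (T.h (P (nat_lit 0)) (P (nat_lit 8921266370372))) (P (nat_lit 0)))))))) (T.h (T.h (T.h (P (nat_lit 821821392)) (T.h (P (nat_lit 0)) (T.h (M (nat_lit 93727969543)) (T.h (P (nat_lit 0)) (P (nat_lit 1167531406008)))))) (T.h (P (nat_lit 0)) (T.h (T.h (M (nat_lit 37959753323)) (T.h (P (nat_lit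 0)) (M (nat_lit 1079531690071)))) (T.h (P (nat_lit 0)) (P (nat_lit 114473944424)))))) (T.h (T.h (P (nat_lit 0)) (T.h (T.h (P (nat_lit 0)) (T.h (P (nat_lit 953211264776)) (T.h (P (nat_lit 0)) (M (nat_lit 7897288647047))))) (T.h (P (nat_lit 0)) (T.h (T.h (P (nat_lit 0)) (P (nat_lit 307054045304))) (P (nat_lit 0)))))) (T.h (T.h (T.h (P (nat_lit 72279742208)) (T.h (P (nat_lit 0)) (M (nat_lit 735474673015)))) (T.h (P (nat_lit 0)) (P (nat_lit 382030830148)))) (T.h (T.h (P (nat_lit 0)) (T.h (T.h (P (nat_lit 0)) (P (nat_lit 1512333995080))) (P (nat_lit 0)))) (P (nat_lit 352028450656))))))) (T.h (P (nat_lit 0)) (T.h (T.h (T.h (P (nat_lit 0)) (T.h (T.h (P (nat_lit 0)) (T.h (P (nat_lit 218942276760)) (T.h (P (nat_lit 0)) (T.h (P (nat_lit 4883158602684)) (T.h (P (nat_lit 0)) (P (nat_lit 6989408429148))))))) (T.h (P (nat_lit 0)) (T.h (T.h (P (nat_lit 0)) (T.h (P (nat_lit 4883158602684)) (T.h (P (nat_lit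 0)) (M (nat_lit 6320679463151))))) (T.h (P (nat_lit 0)) (T.h (T.h (P (nat_lit 0)) (P (nat_lit 6989408429148))) (P (nat_lit 0)))))))) (T.h (T.h (T.h (P (nat_lit 70697448)) (T.h (P (nat_lit 0)) (T.h (M (nat_lit 729618143255)) (T.h (P (nat_lit 0)) (M (nat_lit 5603800642415)))))) (T.h (P (nat_lit 0)) (T.h (T.h (M (nat_lit 729618143255)) (T.h (P (nat_lit 0)) (M (nat_lit 31030835022863)))) (T.h (P (nat_lit 0)) (M (nat_lit 5603800642415)))))) (T.h (T.h (P (nat_lit 0)) (T.h (T.h (P (nat_lit 0)) (T.h (P (nat_lit 15259047708600)) (T.h (P (nat_lit 0)) (P (nat_lit 42993876122352))))) (T.h (P (nat_lit 0)) (T.h (T.h (P (nat_lit 0)) (P (nat_lit 42993876122352))) (P (nat_lit 0)))))) (T.h (T.h (T.h (P (nat_lit 726537265488)) (T.h (P (nat_lit 0)) (M (nat_lit 12337536546539)))) (T.h (P (nat_lit 0)) (M (nat_lit 12337536546539)))) (T.h (T.h (P (nat_lit 0)) (T.h (T.h (P (nat_lit 0)) (P (nat_lit 65298483031248)))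 (P (nat_lit 0)))) (P (nat_lit 2258362630080))))))) (P (nat_lit 0)))))) et0_7))
def et0_9 : T ℤ := (T.h (T.h (P (nat_lit 0)) (T.h (P (nat_lit 0)) (T.h (P (nat_lit 0)) (T.h (P (nat_lit 0)) (T.h (T.h (T.h (T.h (M (nat_lit 5382558623)) (T.h (P (nat_lit 0)) (T.h (P (nat_lit 6197216376)) (T.h (P (nat_lit 0)) (T.h (P (nat_lit 185981923992)) (T.h (P (nat_lit 0)) (P (nat_lit 3868184772648)))))))) (T.h (P (nat_lit 0)) (T.h (T.h (M (nat_lit 30483592911)) (T.h (P (nat_lit 0)) (T.h (M (nat_lit 13362565703)) (T.h (P (nat_lit 0)) (P (nat_lit 8792461336928)))))) (T.h (P (nat_lit 0)) (T.h (T.h (M (nat_lit 766074816543)) (T.h (P (nat_lit 0)) (P (nat_lit 5599240923568)))) (T.h (P (nat_lit 0)) (M (nat_lit 8019982815391)))))))) (T.h (T.h (P (nat_lit 0)) (T.h (T.h (P (nat_lit 0)) (T.h (M (nat_lit 174113064867)) (T.h (P (nat_lit 0)) (M (nat_lit 2324408448295))))) (T.h (P (nat_lit 0)) (T.h (T.h (P (nat_lit 0)) (M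 (nat_lit 1333565389895))) (P (nat_lit 0)))))) (T.h (T.h (T.h (P (nat_lit 2927247776)) (T.h (P (nat_lit 0)) (T.h (P (nat_lit 1021668496320)) (T.h (P (nat_lit 0)) (M (nat_lit 7083759141039)))))) (T.h (P (nat_lit 0)) (T.h (T.h (P (nat_lit 345544741468)) (T.h (P (nat_lit 0)) (P (nat_lit 5544600443792)))) (T.h (P (nat_lit 0)) (P (nat_lit 1769234935020)))))) (T.h (T.h (P (nat_lit 0)) (T.h (T.h (P (nat_lit 0)) (M (nat_lit 7930128116723))) (P (nat_lit 0)))) (T.h (T.h (T.h (P (nat_lit 371287167520)) (T.h (P (nat_lit 0)) (P (nat_lit 2032219122416)))) (T.h (P (nat_lit 0)) (P (nat_lit 23336467445708)))) (T.h (P (nat_lit 0)) (P (nat_lit 15261432343392)))))))) (T.h (P (nat_lit 0)) (T.h (T.h (T.h (T.h (P (nat_lit 10786339656)) (T.h (P (nat_lit 0)) (T.h (M (nat_lit 10107434951)) (T.h (P (nat_lit 0)) (T.h (M (nat_lit 223504714043)) (T.h (P (nat_lit 0)) (M (nat_lit 3661426904615)))))))) (T.h (P (nat_lit 0))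 (T.h (T.h (P (nat_lit 40706917308)) (T.h (P (nat_lit 0)) (T.h (M (nat_lit 660404701511)) (T.h (P (nat_lit 0)) (M (nat_lit 6601661213291)))))) (T.h (P (nat_lit 0)) (T.h (T.h (P (nat_lit 1243913809680)) (T.h (P (nat_lit 0)) (M (nat_lit 33310156589855)))) (T.h (P (nat_lit 0)) (P (nat_lit 21852672283800)))))))) (T.h (T.h (P (nat_lit 0)) (T.h (T.h (P (nat_lit 0)) (T.h (P (nat_lit 193032154260)) (T.h (P (nat_lit 0)) (P (nat_lit 2545803747000))))) (T.h (P (nat_lit 0)) (T.h (T.h (P (nat_lit 0)) (P (nat_lit 6240550941072))) (P (nat_lit 0)))))) (T.h (T.h (T.h (P (nat_lit 2295225072)) (T.h (P (nat_lit 0)) (T.h (M (nat_lit 1307429283203)) (T.h (P (nat_lit 0)) (P (nat_lit 19327286907036)))))) (T.h (P (nat_lit 0)) (T.h (T.h (M (nat_lit 2560661499563)) (T.h (P (nat_lit 0)) (M (nat_lit 3628401233471)))) (T.h (P (nat_lit 0)) (M (nat_lit 88038585504611)))))) (T.h (T.h (P (nat_lit 0)) (T.h (T.h (P (nat_lit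 0)) (P (nat_lit 14629920707952))) (P (nat_lit 0)))) (T.h (T.h (T.h (M (nat_lit 163008652103)) (T.h (P (nat_lit 0)) (M (nat_lit 33548786539415)))) (T.h (P (nat_lit 0)) (M (nat_lit 124810432508303)))) (T.h (P (nat_lit 0)) (M (nat_lit 2178365119847)))))))) (P (nat_lit 0))))))))) (T.h (T.h (P (nat_lit 0)) (T.h (P (nat_lit 0)) (T.h (P (nat_lit 0)) (T.h (T.h (T.h (P (nat_lit 0)) (T.h (T.h (P (nat_lit 0)) (T.h (P (nat_lit 16324090312)) (T.h (P (nat_lit 0)) (T.h (M (nat_lit 27865707483)) (T.h (P (nat_lit 0)) (P (nat_lit 8921266370372))))))) (T.h (P (nat_lit 0)) (T.h (T.h (P (nat_lit 0)) (T.h (M (nat_lit 4179062891)) (T.h (P (nat_lit 0)) (P (nat_lit 3345368848544))))) (T.h (P (nat_lit 0)) (T.h (T.h (P (nat_lit 0)) (M (nat_lit 3989703204543))) (P (nat_lit 0)))))))) (T.h (T.h (T.h (P (nat_lit 821821392)) (T.h (P (nat_lit 0)) (T.h (M (nat_lit 37959753323)) (T.h (P (nat_lit 0)) (P (nat_lit 114473944424))))))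 (T.h (P (nat_lit 0)) (T.h (T.h (M (nat_lit 93727969543)) (T.h (P (nat_lit 0)) (M (nat_lit 1079531690071)))) (T.h (P (nat_lit 0)) (P (nat_lit 1167531406008)))))) (T.h (T.h (P (nat_lit 0)) (T.h (T.h (P (nat_lit 0)) (T.h (P (nat_lit 953211264776)) (T.h (P (nat_lit 0)) (P (nat_lit 307054045304))))) (T.h (P (nat_lit 0)) (T.h (T.h (P (nat_lit 0)) (M (nat_lit 7897288647047))) (P (nat_lit 0)))))) (T.h (T.h (T.h (P (nat_lit 72279742208)) (T.h (P (nat_lit 0)) (P (nat_lit 382030830148)))) (T.h (P (nat_lit 0)) (M (nat_lit 735474673015)))) (T.h (T.h (P (nat_lit 0)) (T.h (T.h (P (nat_lit 0)) (P (nat_lit 1512333995080))) (P (nat_lit 0)))) (P (nat_lit 352028450656))))))) (T.h (P (nat_lit 0)) (T.h (T.h (T.h (P (nat_lit 0)) (T.h (T.h (P (nat_lit 0)) (T.h (M (nat_lit 50303715875)) (T.h (P (nat_lit 0)) (T.h (M (nat_lit 276295630967)) (T.h (P (nat_lit 0)) (M (nat_lit 8188139946887))))))) (T.h (P (nat_lit 0))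 (T.h (T.h (P (nat_lit 0)) (T.h (M (nat_lit 191256247367)) (T.h (P (nat_lit 0)) (M (nat_lit 3208546666295))))) (T.h (P (nat_lit 0)) (T.h (T.h (P (nat_lit 0)) (P (nat_lit 11462463152172))) (P (nat_lit 0)))))))) (T.h (T.h (T.h (P (nat_lit 8205566796)) (T.h (P (nat_lit 0)) (T.h (M (nat_lit 291595236983)) (T.h (P (nat_lit 0)) (P (nat_lit 1191195337644)))))) (T.h (P (nat_lit 0)) (T.h (T.h (P (nat_lit 388925759772)) (T.h (P (nat_lit 0)) (M (nat_lit 6813107489339)))) (T.h (P (nat_lit 0)) (M (nat_lit 6610736453939)))))) (T.h (T.h (P (nat_lit 0)) (T.h (T.h (P (nat_lit 0)) (T.h (P (nat_lit 696508299864)) (T.h (P (nat_lit 0)) (P (nat_lit 811990898964))))) (T.h (P (nat_lit 0)) (T.h (T.h (P (nat_lit 0)) (P (nat_lit 53956901342448))) (P (nat_lit 0)))))) (T.h (T.h (T.h (M (nat_lit 32204832335)) (T.h (P (nat_lit 0)) (M (nat_lit 6508215658763)))) (T.h (P (nat_lit 0)) (M (nat_lit 3212969552783)))) (T.h (T.h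 (P (nat_lit 0)) (T.h (T.h (P (nat_lit 0)) (P (nat_lit 34852812975792))) (P (nat_lit 0)))) (P (nat_lit 2842888732596))))))) (P (nat_lit 0)))))))) et0_8))
def et0_10 : T ℤ := (T.h (T.h (T.h (T.h (T.h (P (nat_lit 0)) (T.h (M (nat_lit 12157190879)) (T.h (P (nat_lit 0)) (T.h (M (nat_lit 87784015959)) (T.h (P (nat_lit 0)) (M (nat_lit 928895833471))))))) (T.h (P (nat_lit 0)) (T.h (T.h (P (nat_lit 0)) (T.h (P (nat_lit 48183741720)) (T.h (P (nat_lit 0)) (P (nat_lit 27808039900))))) (T.h (P (nat_lit 0)) (T.h (T.h (P (nat_lit 0)) (M (nat_lit 3331137129531))) (P (nat_lit 0))))))) (T.h (T.h (P (nat_lit 0)) (T.h (T.h (P (nat_lit 2166085064)) (T.h (P (nat_lit 0)) (T.h (P (nat_lit 2764822230096)) (T.h (P (nat_lit 0)) (M (nat_lit 4636688340583)))))) (T.h (P (nat_lit 0)) (T.h (T.h (P (nat_lit 1443182165296)) (T.h (P (nat_lit 0)) (P (nat_lit 16149147780056)))) (T.h (P (nat_lit 0)) (P (nat_lit 1364120328012)))))))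 (T.h (T.h (T.h (P (nat_lit 0)) (T.h (P (nat_lit 48183741720)) (T.h (P (nat_lit 0)) (P (nat_lit 27808039900))))) (T.h (P (nat_lit 0)) (T.h (T.h (P (nat_lit 0)) (M (nat_lit 21650801153983))) (P (nat_lit 0))))) (T.h (T.h (P (nat_lit 0)) (T.h (T.h (P (nat_lit 1443182165296)) (T.h (P (nat_lit 0)) (P (nat_lit 16149147780056)))) (T.h (P (nat_lit 0)) (M (nat_lit 12160123890575))))) (T.h (T.h (T.h (P (nat_lit 0)) (M (nat_lit 3331137129531))) (P (nat_lit 0))) (T.h (T.h (P (nat_lit 0)) (P (nat_lit 1364120328012))) (P (nat_lit 0)))))))) (T.h (P (nat_lit 0)) (T.h (T.h (T.h (T.h (P (nat_lit 0)) (T.h (P (nat_lit 70697448)) (T.h (P (nat_lit 0)) (T.h (P (nat_lit 726537265488)) (T.h (P (nat_lit 0)) (P (nat_lit 2258362630080))))))) (T.h (P (nat_lit 0)) (T.h (T.h (P (nat_lit 0)) (T.h (M (nat_lit 729618143255)) (T.h (P (nat_lit 0)) (M (nat_lit 12337536546539))))) (T.h (P (nat_lit 0)) (T.h (T.h (P (nat_lit 0))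 (M (nat_lit 5603800642415))) (P (nat_lit 0))))))) (T.h (T.h (P (nat_lit 0)) (T.h (T.h (P (nat_lit 218942276760)) (T.h (P (nat_lit 0)) (T.h (P (nat_lit 15259047708600)) (T.h (P (nat_lit 0)) (P (nat_lit 65298483031248)))))) (T.h (P (nat_lit 0)) (T.h (T.h (P (nat_lit 4883158602684)) (T.h (P (nat_lit 0)) (P (nat_lit 42993876122352)))) (T.h (P (nat_lit 0)) (P (nat_lit 6989408429148))))))) (T.h (T.h (T.h (P (nat_lit 0)) (T.h (M (nat_lit 729618143255)) (T.h (P (nat_lit 0)) (M (nat_lit 12337536546539))))) (T.h (P (nat_lit 0)) (T.h (T.h (P (nat_lit 0)) (M (nat_lit 31030835022863))) (P (nat_lit 0))))) (T.h (T.h (P (nat_lit 0)) (T.h (T.h (P (nat_lit 4883158602684)) (T.h (P (nat_lit 0)) (P (nat_lit 42993876122352)))) (T.h (P (nat_lit 0)) (M (nat_lit 6320679463151))))) (T.h (T.h (T.h (P (nat_lit 0)) (M (nat_lit 5603800642415))) (P (nat_lit 0))) (T.h (T.h (P (nat_lit 0)) (P (nat_lit 6989408429148))) (P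 (nat_lit 0)))))))) (P (nat_lit 0))))) (T.h (T.h (P (nat_lit 0)) (T.h (T.h (T.h (P (nat_lit 0)) (T.h (T.h (M (nat_lit 7133696063)) (T.h (P (nat_lit 0)) (T.h (P (nat_lit 308461412484)) (T.h (P (nat_lit 0)) (P (nat_lit 2308617587592)))))) (T.h (P (nat_lit 0)) (T.h (T.h (M (nat_lit 207981240587)) (T.h (P (nat_lit 0)) (M (nat_lit 4909238224703)))) (T.h (P (nat_lit 0)) (M (nat_lit 3324917342051))))))) (T.h (T.h (T.h (P (nat_lit 0)) (T.h (M (nat_lit 105643533347)) (T.h (P (nat_lit 0)) (T.h (M (nat_lit 3386570706395)) (T.h (P (nat_lit 0)) (M (nat_lit 7994151505367))))))) (T.h (P (nat_lit 0)) (T.h (T.h (P (nat_lit 0)) (T.h (M (nat_lit 1160658880199)) (T.h (P (nat_lit 0)) (P (nat_lit 31876370939628))))) (T.h (P (nat_lit 0)) (T.h (T.h (P (nat_lit 0)) (P (nat_lit 5565736760040))) (P (nat_lit 0))))))) (T.h (T.h (P (nat_lit 0)) (T.h (T.h (P (nat_lit 218477861568)) (T.h (P (nat_lit 0)) (M (nat_lit 22458899649491))))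 (T.h (P (nat_lit 0)) (M (nat_lit 10151635376519))))) (T.h (T.h (T.h (P (nat_lit 0)) (T.h (P (nat_lit 292370476716)) (T.h (P (nat_lit 0)) (P (nat_lit 598837485924))))) (T.h (P (nat_lit 0)) (T.h (T.h (P (nat_lit 0)) (P (nat_lit 41434815098844))) (P (nat_lit 0))))) (T.h (T.h (P (nat_lit 0)) (M (nat_lit 5153614276067))) (T.h (T.h (T.h (P (nat_lit 0)) (M (nat_lit 19360738123595))) (P (nat_lit 0))) (P (nat_lit 0)))))))) (P (nat_lit 0)))) (T.h (T.h (T.h (T.h (T.h (P (nat_lit 0)) (T.h (P (nat_lit 17266977972)) (T.h (P (nat_lit 0)) (T.h (P (nat_lit 86352588684)) (T.h (P (nat_lit 0)) (P (nat_lit 1555205943996))))))) (T.h (P (nat_lit 0)) (T.h (T.h (P (nat_lit 0)) (T.h (P (nat_lit 131128510104)) (T.h (P (nat_lit 0)) (P (nat_lit 3078281274696))))) (T.h (P (nat_lit 0)) (T.h (T.h (P (nat_lit 0)) (M (nat_lit 140288397263))) (P (nat_lit 0))))))) (T.h (T.h (P (nat_lit 0)) (T.h (T.h (M (nat_lit 6484428539))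 (T.h (P (nat_lit 0)) (T.h (M (nat_lit 5151303668375)) (T.h (P (nat_lit 0)) (P (nat_lit 9198962751492)))))) (T.h (P (nat_lit 0)) (T.h (T.h (M (nat_lit 1666241064611)) (T.h (P (nat_lit 0)) (M (nat_lit 18393699782087)))) (T.h (P (nat_lit 0)) (M (nat_lit 11251495447163))))))) (T.h (T.h (T.h (P (nat_lit 0)) (T.h (M (nat_lit 263348973683)) (T.h (P (nat_lit 0)) (M (nat_lit 8792617329359))))) (T.h (P (nat_lit 0)) (T.h (T.h (P (nat_lit 0)) (P (nat_lit 28977847421400))) (P (nat_lit 0))))) (T.h (T.h (P (nat_lit 0)) (T.h (T.h (M (nat_lit 2488121682875)) (T.h (P (nat_lit 0)) (M (nat_lit 962109935927)))) (T.h (P (nat_lit 0)) (P (nat_lit 8866989595980))))) (T.h (T.h (T.h (P (nat_lit 0)) (M (nat_lit 3033329715647))) (P (nat_lit 0))) (T.h (T.h (P (nat_lit 0)) (P (nat_lit 4659694120476))) (P (nat_lit 0)))))))) (P (nat_lit 0))) (P (nat_lit 0)))))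
def et0_11 : T ℤ := (T.h (T.h (P (nat_lit 0)) (T.h (P (nat_lit 0)) (T.h (T.h (T.h (T.h (P (nat_lit 0)) (T.h (P (nat_lit 821821392)) (T.h (P (nat_lit 0)) (T.h (P (nat_lit 72279742208)) (T.h (P (nat_lit 0)) (P (nat_lit 352028450656))))))) (T.h (P (nat_lit 0)) (T.h (T.h (P (nat_lit 0)) (T.h (M (nat_lit 93727969543)) (T.h (P (nat_lit 0)) (M (nat_lit 735474673015))))) (T.h (P (nat_lit 0)) (T.h (T.h (P (nat_lit 0)) (P (nat_lit 1167531406008))) (P (nat_lit 0))))))) (T.h (T.h (P (nat_lit 0)) (T.h (T.h (P (nat_lit 16324090312)) (T.h (P (nat_lit 0)) (T.h (P (nat_lit 953211264776)) (T.h (P (nat_lit 0)) (P (nat_lit 1512333995080)))))) (T.h (P (nat_lit 0)) (T.h (T.h (M (nat_lit 4179062891)) (T.h (P (nat_lit 0)) (M (nat_lit 7897288647047)))) (T.h (P (nat_lit 0)) (M (nat_lit 3989703204543))))))) (T.h (T.h (T.h (P (nat_lit 0)) (T.h (M (nat_lit 37959753323)) (T.h (P (nat_lit 0)) (P (nat_lit 382030830148)))))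 (T.h (P (nat_lit 0)) (T.h (T.h (P (nat_lit 0)) (M (nat_lit 1079531690071))) (P (nat_lit 0))))) (T.h (T.h (P (nat_lit 0)) (T.h (T.h (M (nat_lit 27865707483)) (T.h (P (nat_lit 0)) (P (nat_lit 307054045304)))) (T.h (P (nat_lit 0)) (P (nat_lit 3345368848544))))) (T.h (T.h (T.h (P (nat_lit 0)) (P (nat_lit 114473944424))) (P (nat_lit 0))) (T.h (T.h (P (nat_lit 0)) (P (nat_lit 8921266370372))) (P (nat_lit 0)))))))) (T.h (P (nat_lit 0)) (T.h (T.h (T.h (T.h (P (nat_lit 0)) (T.h (M (nat_lit 7133696063)) (T.h (P (nat_lit 0)) (T.h (M (nat_lit 207981240587)) (T.h (P (nat_lit 0)) (M (nat_lit 3324917342051))))))) (T.h (P (nat_lit 0)) (T.h (T.h (P (nat_lit 0)) (T.h (P (nat_lit 308461412484)) (T.h (P (nat_lit 0)) (M (nat_lit 4909238224703))))) (T.h (P (nat_lit 0)) (T.h (T.h (P (nat_lit 0)) (P (nat_lit 2308617587592))) (P (nat_lit 0))))))) (T.h (T.h (P (nat_lit 0)) (T.h (T.h (M (nat_lit 105643533347)) (T.h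 (P (nat_lit 0)) (T.h (M (nat_lit 1160658880199)) (T.h (P (nat_lit 0)) (P (nat_lit 5565736760040)))))) (T.h (P (nat_lit 0)) (T.h (T.h (M (nat_lit 3386570706395)) (T.h (P (nat_lit 0)) (P (nat_lit 31876370939628)))) (T.h (P (nat_lit 0)) (M (nat_lit 7994151505367))))))) (T.h (T.h (T.h (P (nat_lit 0)) (T.h (P (nat_lit 218477861568)) (T.h (P (nat_lit 0)) (M (nat_lit 10151635376519))))) (T.h (P (nat_lit 0)) (T.h (T.h (P (nat_lit 0)) (M (nat_lit 22458899649491))) (P (nat_lit 0))))) (T.h (T.h (P (nat_lit 0)) (T.h (T.h (P (nat_lit 292370476716)) (T.h (P (nat_lit 0)) (P (nat_lit 41434815098844)))) (T.h (P (nat_lit 0)) (P (nat_lit 598837485924))))) (T.h (T.h (T.h (P (nat_lit 0)) (M (nat_lit 5153614276067))) (P (nat_lit 0))) (T.h (T.h (P (nat_lit 0)) (M (nat_lit 19360738123595))) (P (nat_lit 0)))))))) (P (nat_lit 0))))))) (T.h (T.h (P (nat_lit 0)) (T.h (T.h (T.h (P (nat_lit 0)) (T.h (T.h (P (nat_lit 821821392))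 (T.h (P (nat_lit 0)) (T.h (M (nat_lit 93727969543)) (T.h (P (nat_lit 0)) (P (nat_lit 1167531406008)))))) (T.h (P (nat_lit 0)) (T.h (T.h (P (nat_lit 72279742208)) (T.h (P (nat_lit 0)) (M (nat_lit 735474673015)))) (T.h (P (nat_lit 0)) (P (nat_lit 352028450656))))))) (T.h (T.h (T.h (P (nat_lit 0)) (T.h (P (nat_lit 16324090312)) (T.h (P (nat_lit 0)) (T.h (M (nat_lit 4179062891)) (T.h (P (nat_lit 0)) (M (nat_lit 3989703204543))))))) (T.h (P (nat_lit 0)) (T.h (T.h (P (nat_lit 0)) (T.h (P (nat_lit 953211264776)) (T.h (P (nat_lit 0)) (M (nat_lit 7897288647047))))) (T.h (P (nat_lit 0)) (T.h (T.h (P (nat_lit 0)) (P (nat_lit 1512333995080))) (P (nat_lit 0))))))) (T.h (T.h (P (nat_lit 0)) (T.h (T.h (M (nat_lit 37959753323)) (T.h (P (nat_lit 0)) (M (nat_lit 1079531690071)))) (T.h (P (nat_lit 0)) (P (nat_lit 382030830148))))) (T.h (T.h (T.h (P (nat_lit 0)) (T.h (M (nat_lit 27865707483)) (T.h (P (nat_lit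 0)) (P (nat_lit 3345368848544))))) (T.h (P (nat_lit 0)) (T.h (T.h (P (nat_lit 0)) (P (nat_lit 307054045304))) (P (nat_lit 0))))) (T.h (T.h (P (nat_lit 0)) (P (nat_lit 114473944424))) (T.h (T.h (T.h (P (nat_lit 0)) (P (nat_lit 8921266370372))) (P (nat_lit 0))) (P (nat_lit 0)))))))) (T.h (P (nat_lit 0)) (T.h (T.h (T.h (P (nat_lit 0)) (T.h (T.h (P (nat_lit 70697448)) (T.h (P (nat_lit 0)) (T.h (M (nat_lit 729618143255)) (T.h (P (nat_lit 0)) (M (nat_lit 5603800642415)))))) (T.h (P (nat_lit 0)) (T.h (T.h (P (nat_lit 726537265488)) (T.h (P (nat_lit 0)) (M (nat_lit 12337536546539)))) (T.h (P (nat_lit 0)) (P (nat_lit 2258362630080))))))) (T.h (T.h (T.h (P (nat_lit 0)) (T.h (P (nat_lit 218942276760)) (T.h (P (nat_lit 0)) (T.h (P (nat_lit 4883158602684)) (T.h (P (nat_lit 0)) (P (nat_lit 6989408429148))))))) (T.h (P (nat_lit 0)) (T.h (T.h (P (nat_lit 0)) (T.h (P (nat_lit 15259047708600)) (T.h (P (nat_lit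 0)) (P (nat_lit 42993876122352))))) (T.h (P (nat_lit 0)) (T.h (T.h (P (nat_lit 0)) (P (nat_lit 65298483031248))) (P (nat_lit 0))))))) (T.h (T.h (P (nat_lit 0)) (T.h (T.h (M (nat_lit 729618143255)) (T.h (P (nat_lit 0)) (M (nat_lit 31030835022863)))) (T.h (P (nat_lit 0)) (M (nat_lit 12337536546539))))) (T.h (T.h (T.h (P (nat_lit 0)) (T.h (P (nat_lit 4883158602684)) (T.h (P (nat_lit 0)) (M (nat_lit 6320679463151))))) (T.h (P (nat_lit 0)) (T.h (T.h (P (nat_lit 0)) (P (nat_lit 42993876122352))) (P (nat_lit 0))))) (T.h (T.h (P (nat_lit 0)) (M (nat_lit 5603800642415))) (T.h (T.h (T.h (P (nat_lit 0)) (P (nat_lit 6989408429148))) (P (nat_lit 0))) (P (nat_lit 0)))))))) (P (nat_lit 0)))))) et0_10))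
def et0_12 : T ℤ := (T.h (T.h (T.h (T.h (T.h (M (nat_lit 5382558623)) (T.h (P (nat_lit 0)) (T.h (M (nat_lit 30483592911)) (T.h (P (nat_lit 0)) (T.h (M (nat_lit 766074816543)) (T.h (P (nat_lit 0)) (M (nat_lit 8019982815391)))))))) (T.h (P (nat_lit 0)) (T.h (T.h (P (nat_lit 2927247776)) (T.h (P (nat_lit 0)) (T.h (P (nat_lit 345544741468)) (T.h (P (nat_lit 0)) (P (nat_lit 1769234935020)))))) (T.h (P (nat_lit 0)) (T.h (T.h (P (nat_lit 371287167520)) (T.h (P (nat_lit 0)) (P (nat_lit 23336467445708)))) (T.h (P (nat_lit 0)) (P (nat_lit 15261432343392)))))))) (T.h (T.h (P (nat_lit 0)) (T.h (T.h (P (nat_lit 0)) (T.h (M (nat_lit 174113064867)) (T.h (P (nat_lit 0)) (M (nat_lit 1333565389895))))) (T.h (P (nat_lit 0)) (T.h (T.h (P (nat_lit 0)) (M (nat_lit 7930128116723))) (P (nat_lit 0)))))) (T.h (T.h (T.h (P (nat_lit 6197216376)) (T.h (P (nat_lit 0)) (T.h (M (nat_lit 13362565703)) (T.h (P (nat_lit 0))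 (P (nat_lit 5599240923568)))))) (T.h (P (nat_lit 0)) (T.h (T.h (P (nat_lit 1021668496320)) (T.h (P (nat_lit 0)) (P (nat_lit 5544600443792)))) (T.h (P (nat_lit 0)) (P (nat_lit 2032219122416)))))) (T.h (T.h (P (nat_lit 0)) (T.h (T.h (P (nat_lit 0)) (M (nat_lit 2324408448295))) (P (nat_lit 0)))) (T.h (T.h (T.h (P (nat_lit 185981923992)) (T.h (P (nat_lit 0)) (P (nat_lit 8792461336928)))) (T.h (P (nat_lit 0)) (M (nat_lit 7083759141039)))) (T.h (P (nat_lit 0)) (P (nat_lit 3868184772648)))))))) (T.h (P (nat_lit 0)) (T.h (T.h (T.h (T.h (P (nat_lit 8113003560)) (T.h (P (nat_lit 0)) (T.h (M (nat_lit 54566293535)) (T.h (P (nat_lit 0)) (T.h (M (nat_lit 1133165517767)) (T.h (P (nat_lit 0)) (M (nat_lit 11938494177287)))))))) (T.h (P (nat_lit 0)) (T.h (T.h (M (nat_lit 54566293535)) (T.h (P (nat_lit 0)) (T.h (M (nat_lit 3068541297719)) (T.h (P (nat_lit 0)) (M (nat_lit 6138395722907)))))) (T.h (P (nat_lit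 0)) (T.h (T.h (M (nat_lit 1133165517767)) (T.h (P (nat_lit 0)) (M (nat_lit 6138395722907)))) (T.h (P (nat_lit 0)) (M (nat_lit 11938494177287)))))))) (T.h (T.h (P (nat_lit 0)) (T.h (T.h (P (nat_lit 0)) (T.h (M (nat_lit 1166215764239)) (T.h (P (nat_lit 0)) (M (nat_lit 39554954149103))))) (T.h (P (nat_lit 0)) (T.h (T.h (P (nat_lit 0)) (M (nat_lit 39554954149103))) (P (nat_lit 0)))))) (T.h (T.h (T.h (P (nat_lit 86473118376)) (T.h (P (nat_lit 0)) (T.h (P (nat_lit 6593325581628)) (T.h (P (nat_lit 0)) (M (nat_lit 3819363299243)))))) (T.h (P (nat_lit 0)) (T.h (T.h (P (nat_lit 6593325581628)) (T.h (P (nat_lit 0)) (P (nat_lit 34815262537512)))) (T.h (P (nat_lit 0)) (M (nat_lit 3819363299243)))))) (T.h (T.h (P (nat_lit 0)) (T.h (T.h (P (nat_lit 0)) (P (nat_lit 226923856920))) (P (nat_lit 0)))) (T.h (T.h (T.h (P (nat_lit 682983640800)) (T.h (P (nat_lit 0)) (P (nat_lit 6183965408292)))) (T.h (P (nat_lit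 0)) (P (nat_lit 6183965408292)))) (T.h (P (nat_lit 0)) (P (nat_lit 7752348193464)))))))) (P (nat_lit 0))))) (T.h (T.h (P (nat_lit 0)) (T.h (T.h (T.h (P (nat_lit 0)) (T.h (T.h (P (nat_lit 0)) (T.h (M (nat_lit 105643533347)) (T.h (P (nat_lit 0)) (T.h (M (nat_lit 3386570706395)) (T.h (P (nat_lit 0)) (M (nat_lit 7994151505367))))))) (T.h (P (nat_lit 0)) (T.h (T.h (P (nat_lit 0)) (T.h (P (nat_lit 292370476716)) (T.h (P (nat_lit 0)) (P (nat_lit 598837485924))))) (T.h (P (nat_lit 0)) (T.h (T.h (P (nat_lit 0)) (M (nat_lit 19360738123595))) (P (nat_lit 0)))))))) (T.h (T.h (T.h (M (nat_lit 7133696063)) (T.h (P (nat_lit 0)) (T.h (P (nat_lit 308461412484)) (T.h (P (nat_lit 0)) (P (nat_lit 2308617587592)))))) (T.h (P (nat_lit 0)) (T.h (T.h (P (nat_lit 218477861568)) (T.h (P (nat_lit 0)) (M (nat_lit 22458899649491)))) (T.h (P (nat_lit 0)) (M (nat_lit 5153614276067)))))) (T.h (T.h (P (nat_lit 0)) (T.h (T.h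 (P (nat_lit 0)) (T.h (M (nat_lit 1160658880199)) (T.h (P (nat_lit 0)) (P (nat_lit 31876370939628))))) (T.h (P (nat_lit 0)) (T.h (T.h (P (nat_lit 0)) (P (nat_lit 41434815098844))) (P (nat_lit 0)))))) (T.h (T.h (T.h (M (nat_lit 207981240587)) (T.h (P (nat_lit 0)) (M (nat_lit 4909238224703)))) (T.h (P (nat_lit 0)) (M (nat_lit 10151635376519)))) (T.h (T.h (P (nat_lit 0)) (T.h (T.h (P (nat_lit 0)) (P (nat_lit 5565736760040))) (P (nat_lit 0)))) (M (nat_lit 3324917342051))))))) (P (nat_lit 0)))) (T.h (T.h (T.h (T.h (T.h (P (nat_lit 10921318128)) (T.h (P (nat_lit 0)) (T.h (P (nat_lit 48139197192)) (T.h (P (nat_lit 0)) (T.h (P (nat_lit 1633512584736)) (T.h (P (nat_lit 0)) (P (nat_lit 17705696864976)))))))) (T.h (P (nat_lit 0)) (T.h (T.h (M (nat_lit 18710106983)) (T.h (P (nat_lit 0)) (T.h (M (nat_lit 1034754682859)) (T.h (P (nat_lit 0)) (M (nat_lit 18517941668555)))))) (T.h (P (nat_lit 0)) (T.h (T.h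 (M (nat_lit 356321652731)) (T.h (P (nat_lit 0)) (M (nat_lit 18412872839495)))) (T.h (P (nat_lit 0)) (M (nat_lit 18969287266943)))))))) (T.h (T.h (P (nat_lit 0)) (T.h (T.h (P (nat_lit 0)) (T.h (P (nat_lit 1057580241192)) (T.h (P (nat_lit 0)) (P (nat_lit 13931165377872))))) (T.h (P (nat_lit 0)) (T.h (T.h (P (nat_lit 0)) (P (nat_lit 12206857219848))) (P (nat_lit 0)))))) (T.h (T.h (T.h (M (nat_lit 18710106983)) (T.h (P (nat_lit 0)) (T.h (M (nat_lit 1034754682859)) (T.h (P (nat_lit 0)) (M (nat_lit 18517941668555)))))) (T.h (P (nat_lit 0)) (T.h (T.h (M (nat_lit 4491364208759)) (T.h (P (nat_lit 0)) (M (nat_lit 10983715199135)))) (T.h (P (nat_lit 0)) (M (nat_lit 10904430965831)))))) (T.h (T.h (P (nat_lit 0)) (T.h (T.h (P (nat_lit 0)) (P (nat_lit 12206857219848))) (P (nat_lit 0)))) (T.h (T.h (T.h (M (nat_lit 356321652731)) (T.h (P (nat_lit 0)) (M (nat_lit 18412872839495)))) (T.h (P (nat_lit 0)) (M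 (nat_lit 10904430965831)))) (T.h (P (nat_lit 0)) (M (nat_lit 18969287266943)))))))) (P (nat_lit 0))) (P (nat_lit 0)))))
def et0_13 : T ℤ := (T.h (T.h (P (nat_lit 0)) (T.h (P (nat_lit 0)) (T.h (T.h (T.h (T.h (M (nat_lit 5382558623)) (T.h (P (nat_lit 0)) (T.h (P (nat_lit 2927247776)) (T.h (P (nat_lit 0)) (T.h (P (nat_lit 371287167520)) (T.h (P (nat_lit 0)) (P (nat_lit 15261432343392)))))))) (T.h (P (nat_lit 0)) (T.h (T.h (M (nat_lit 30483592911)) (T.h (P (nat_lit 0)) (T.h (P (nat_lit 345544741468)) (T.h (P (nat_lit 0)) (P (nat_lit 23336467445708)))))) (T.h (P (nat_lit 0)) (T.h (T.h (M (nat_lit 766074816543)) (T.h (P (nat_lit 0)) (P (nat_lit 1769234935020)))) (T.h (P (nat_lit 0)) (M (nat_lit 8019982815391)))))))) (T.h (T.h (P (nat_lit 0)) (T.h (T.h (P (nat_lit 0)) (T.h (M (nat_lit 174113064867)) (T.h (P (nat_lit 0)) (M (nat_lit 7930128116723))))) (T.h (P (nat_lit 0)) (T.h (T.h (P (nat_lit 0))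 (M (nat_lit 1333565389895))) (P (nat_lit 0)))))) (T.h (T.h (T.h (P (nat_lit 6197216376)) (T.h (P (nat_lit 0)) (T.h (P (nat_lit 1021668496320)) (T.h (P (nat_lit 0)) (P (nat_lit 2032219122416)))))) (T.h (P (nat_lit 0)) (T.h (T.h (M (nat_lit 13362565703)) (T.h (P (nat_lit 0)) (P (nat_lit 5544600443792)))) (T.h (P (nat_lit 0)) (P (nat_lit 5599240923568)))))) (T.h (T.h (P (nat_lit 0)) (T.h (T.h (P (nat_lit 0)) (M (nat_lit 2324408448295))) (P (nat_lit 0)))) (T.h (T.h (T.h (P (nat_lit 185981923992)) (T.h (P (nat_lit 0)) (M (nat_lit 7083759141039)))) (T.h (P (nat_lit 0)) (P (nat_lit 8792461336928)))) (T.h (P (nat_lit 0)) (P (nat_lit 3868184772648)))))))) (T.h (P (nat_lit 0)) (T.h (T.h (T.h (T.h (P (nat_lit 10921318128)) (T.h (P (nat_lit 0)) (T.h (M (nat_lit 18710106983)) (T.h (P (nat_lit 0)) (T.h (M (nat_lit 356321652731)) (T.h (P (nat_lit 0)) (M (nat_lit 18969287266943)))))))) (T.h (P (nat_lit 0))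 (T.h (T.h (P (nat_lit 48139197192)) (T.h (P (nat_lit 0)) (T.h (M (nat_lit 1034754682859)) (T.h (P (nat_lit 0)) (M (nat_lit 18412872839495)))))) (T.h (P (nat_lit 0)) (T.h (T.h (P (nat_lit 1633512584736)) (T.h (P (nat_lit 0)) (M (nat_lit 18517941668555)))) (T.h (P (nat_lit 0)) (P (nat_lit 17705696864976)))))))) (T.h (T.h (P (nat_lit 0)) (T.h (T.h (P (nat_lit 0)) (T.h (P (nat_lit 1057580241192)) (T.h (P (nat_lit 0)) (P (nat_lit 12206857219848))))) (T.h (P (nat_lit 0)) (T.h (T.h (P (nat_lit 0)) (P (nat_lit 13931165377872))) (P (nat_lit 0)))))) (T.h (T.h (T.h (M (nat_lit 18710106983)) (T.h (P (nat_lit 0)) (T.h (M (nat_lit 4491364208759)) (T.h (P (nat_lit 0)) (M (nat_lit 10904430965831)))))) (T.h (P (nat_lit 0)) (T.h (T.h (M (nat_lit 1034754682859)) (T.h (P (nat_lit 0)) (M (nat_lit 10983715199135)))) (T.h (P (nat_lit 0)) (M (nat_lit 18517941668555)))))) (T.h (T.h (P (nat_lit 0)) (T.h (T.h (P (nat_lit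 0)) (P (nat_lit 12206857219848))) (P (nat_lit 0)))) (T.h (T.h (T.h (M (nat_lit 356321652731)) (T.h (P (nat_lit 0)) (M (nat_lit 10904430965831)))) (T.h (P (nat_lit 0)) (M (nat_lit 18412872839495)))) (T.h (P (nat_lit 0)) (M (nat_lit 18969287266943)))))))) (P (nat_lit 0))))))) (T.h (T.h (P (nat_lit 0)) (T.h (T.h (T.h (P (nat_lit 0)) (T.h (T.h (P (nat_lit 0)) (T.h (P (nat_lit 8973040992)) (T.h (P (nat_lit 0)) (T.h (P (nat_lit 436650853740)) (T.h (P (nat_lit 0)) (P (nat_lit 14276397138732))))))) (T.h (P (nat_lit 0)) (T.h (T.h (P (nat_lit 0)) (T.h (P (nat_lit 436650853740)) (T.h (P (nat_lit 0)) (P (nat_lit 8416693191144))))) (T.h (P (nat_lit 0)) (T.h (T.h (P (nat_lit 0)) (P (nat_lit 14276397138732))) (P (nat_lit 0)))))))) (T.h (T.h (T.h (M (nat_lit 316548111)) (T.h (P (nat_lit 0)) (T.h (M (nat_lit 24384487415)) (T.h (P (nat_lit 0)) (P (nat_lit 821362409764)))))) (T.h (P (nat_lit 0)) (T.h (T.h (M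 (nat_lit 24384487415)) (T.h (P (nat_lit 0)) (M (nat_lit 655031440463)))) (T.h (P (nat_lit 0)) (P (nat_lit 821362409764)))))) (T.h (T.h (P (nat_lit 0)) (T.h (T.h (P (nat_lit 0)) (T.h (M (nat_lit 111700817327)) (T.h (P (nat_lit 0)) (M (nat_lit 1991152559703))))) (T.h (P (nat_lit 0)) (T.h (T.h (P (nat_lit 0)) (M (nat_lit 1991152559703))) (P (nat_lit 0)))))) (T.h (T.h (T.h (P (nat_lit 16753389872)) (T.h (P (nat_lit 0)) (P (nat_lit 2225041592872)))) (T.h (P (nat_lit 0)) (P (nat_lit 2225041592872)))) (T.h (T.h (P (nat_lit 0)) (T.h (T.h (P (nat_lit 0)) (M (nat_lit 790875528159))) (P (nat_lit 0)))) (M (nat_lit 252615475703))))))) (T.h (P (nat_lit 0)) (T.h (T.h (T.h (P (nat_lit 0)) (T.h (T.h (P (nat_lit 0)) (T.h (M (nat_lit 105643533347)) (T.h (P (nat_lit 0)) (T.h (P (nat_lit 292370476716)) (T.h (P (nat_lit 0)) (M (nat_lit 19360738123595))))))) (T.h (P (nat_lit 0)) (T.h (T.h (P (nat_lit 0)) (T.h (M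 (nat_lit 3386570706395)) (T.h (P (nat_lit 0)) (P (nat_lit 598837485924))))) (T.h (P (nat_lit 0)) (T.h (T.h (P (nat_lit 0)) (M (nat_lit 7994151505367))) (P (nat_lit 0)))))))) (T.h (T.h (T.h (M (nat_lit 7133696063)) (T.h (P (nat_lit 0)) (T.h (P (nat_lit 218477861568)) (T.h (P (nat_lit 0)) (M (nat_lit 5153614276067)))))) (T.h (P (nat_lit 0)) (T.h (T.h (P (nat_lit 308461412484)) (T.h (P (nat_lit 0)) (M (nat_lit 22458899649491)))) (T.h (P (nat_lit 0)) (P (nat_lit 2308617587592)))))) (T.h (T.h (P (nat_lit 0)) (T.h (T.h (P (nat_lit 0)) (T.h (M (nat_lit 1160658880199)) (T.h (P (nat_lit 0)) (P (nat_lit 41434815098844))))) (T.h (P (nat_lit 0)) (T.h (T.h (P (nat_lit 0)) (P (nat_lit 31876370939628))) (P (nat_lit 0)))))) (T.h (T.h (T.h (M (nat_lit 207981240587)) (T.h (P (nat_lit 0)) (M (nat_lit 10151635376519)))) (T.h (P (nat_lit 0)) (M (nat_lit 4909238224703)))) (T.h (T.h (P (nat_lit 0)) (T.h (T.h (P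 (nat_lit 0)) (P (nat_lit 5565736760040))) (P (nat_lit 0)))) (M (nat_lit 3324917342051))))))) (P (nat_lit 0)))))) et0_12))
def et0_14 : T ℤ := (T.h (T.h (T.h (T.h (T.h (P (nat_lit 0)) (T.h (M (nat_lit 4848497011)) (T.h (P (nat_lit 0)) (T.h (M (nat_lit 39872001987)) (T.h (P (nat_lit 0)) (M (nat_lit 1138588799775))))))) (T.h (P (nat_lit 0)) (T.h (T.h (P (nat_lit 0)) (T.h (P (nat_lit 176192823212)) (T.h (P (nat_lit 0)) (P (nat_lit 6906450321804))))) (T.h (P (nat_lit 0)) (T.h (T.h (P (nat_lit 0)) (P (nat_lit 6283166357272))) (P (nat_lit 0))))))) (T.h (T.h (P (nat_lit 0)) (T.h (T.h (M (nat_lit 1652854531)) (T.h (P (nat_lit 0)) (T.h (M (nat_lit 206417411539)) (T.h (P (nat_lit 0)) (M (nat_lit 12677088805827)))))) (T.h (P (nat_lit 0)) (T.h (T.h (M (nat_lit 85148755599)) (T.h (P (nat_lit 0)) (M (nat_lit 375215235207)))) (T.h (P (nat_lit 0)) (M (nat_lit 10084994971063))))))) (T.h (T.h (T.h (P (nat_lit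 0)) (T.h (M (nat_lit 10360317751)) (T.h (P (nat_lit 0)) (P (nat_lit 3194717887472))))) (T.h (P (nat_lit 0)) (T.h (T.h (P (nat_lit 0)) (M (nat_lit 429801099807))) (P (nat_lit 0))))) (T.h (T.h (P (nat_lit 0)) (T.h (T.h (M (nat_lit 48375966963)) (T.h (P (nat_lit 0)) (P (nat_lit 1036017139900)))) (T.h (P (nat_lit 0)) (M (nat_lit 1505242838563))))) (T.h (T.h (T.h (P (nat_lit 0)) (P (nat_lit 491682438944))) (P (nat_lit 0))) (T.h (T.h (P (nat_lit 0)) (P (nat_lit 3612736043648))) (P (nat_lit 0)))))))) (T.h (P (nat_lit 0)) (T.h (T.h (T.h (T.h (P (nat_lit 0)) (T.h (P (nat_lit 8205566796)) (T.h (P (nat_lit 0)) (T.h (M (nat_lit 32204832335)) (T.h (P (nat_lit 0)) (P (nat_lit 2842888732596))))))) (T.h (P (nat_lit 0)) (T.h (T.h (P (nat_lit 0)) (T.h (P (nat_lit 388925759772)) (T.h (P (nat_lit 0)) (M (nat_lit 3212969552783))))) (T.h (P (nat_lit 0)) (T.h (T.h (P (nat_lit 0)) (M (nat_lit 6610736453939))) (P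 (nat_lit 0))))))) (T.h (T.h (P (nat_lit 0)) (T.h (T.h (M (nat_lit 50303715875)) (T.h (P (nat_lit 0)) (T.h (P (nat_lit 696508299864)) (T.h (P (nat_lit 0)) (P (nat_lit 34852812975792)))))) (T.h (P (nat_lit 0)) (T.h (T.h (M (nat_lit 191256247367)) (T.h (P (nat_lit 0)) (P (nat_lit 53956901342448)))) (T.h (P (nat_lit 0)) (P (nat_lit 11462463152172))))))) (T.h (T.h (T.h (P (nat_lit 0)) (T.h (M (nat_lit 291595236983)) (T.h (P (nat_lit 0)) (M (nat_lit 6508215658763))))) (T.h (P (nat_lit 0)) (T.h (T.h (P (nat_lit 0)) (M (nat_lit 6813107489339))) (P (nat_lit 0))))) (T.h (T.h (P (nat_lit 0)) (T.h (T.h (M (nat_lit 276295630967)) (T.h (P (nat_lit 0)) (P (nat_lit 811990898964)))) (T.h (P (nat_lit 0)) (M (nat_lit 3208546666295))))) (T.h (T.h (T.h (P (nat_lit 0)) (P (nat_lit 1191195337644))) (P (nat_lit 0))) (T.h (T.h (P (nat_lit 0)) (M (nat_lit 8188139946887))) (P (nat_lit 0)))))))) (P (nat_lit 0))))) (T.h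 (T.h (P (nat_lit 0)) (T.h (T.h (T.h (P (nat_lit 0)) (T.h (T.h (P (nat_lit 8205566796)) (T.h (P (nat_lit 0)) (T.h (P (nat_lit 388925759772)) (T.h (P (nat_lit 0)) (M (nat_lit 6610736453939)))))) (T.h (P (nat_lit 0)) (T.h (T.h (M (nat_lit 32204832335)) (T.h (P (nat_lit 0)) (M (nat_lit 3212969552783)))) (T.h (P (nat_lit 0)) (P (nat_lit 2842888732596))))))) (T.h (T.h (T.h (P (nat_lit 0)) (T.h (M (nat_lit 50303715875)) (T.h (P (nat_lit 0)) (T.h (M (nat_lit 191256247367)) (T.h (P (nat_lit 0)) (P (nat_lit 11462463152172))))))) (T.h (P (nat_lit 0)) (T.h (T.h (P (nat_lit 0)) (T.h (P (nat_lit 696508299864)) (T.h (P (nat_lit 0)) (P (nat_lit 53956901342448))))) (T.h (P (nat_lit 0)) (T.h (T.h (P (nat_lit 0)) (P (nat_lit 34852812975792))) (P (nat_lit 0))))))) (T.h (T.h (P (nat_lit 0)) (T.h (T.h (M (nat_lit 291595236983)) (T.h (P (nat_lit 0)) (M (nat_lit 6813107489339)))) (T.h (P (nat_lit 0)) (M (nat_lit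 6508215658763))))) (T.h (T.h (T.h (P (nat_lit 0)) (T.h (M (nat_lit 276295630967)) (T.h (P (nat_lit 0)) (M (nat_lit 3208546666295))))) (T.h (P (nat_lit 0)) (T.h (T.h (P (nat_lit 0)) (P (nat_lit 811990898964))) (P (nat_lit 0))))) (T.h (T.h (P (nat_lit 0)) (P (nat_lit 1191195337644))) (T.h (T.h (T.h (P (nat_lit 0)) (M (nat_lit 8188139946887))) (P (nat_lit 0))) (P (nat_lit 0)))))))) (P (nat_lit 0)))) (T.h (T.h (T.h (T.h (T.h (P (nat_lit 0)) (T.h (P (nat_lit 17266977972)) (T.h (P (nat_lit 0)) (T.h (P (nat_lit 86352588684)) (T.h (P (nat_lit 0)) (P (nat_lit 1555205943996))))))) (T.h (P (nat_lit 0)) (T.h (T.h (P (nat_lit 0)) (T.h (M (nat_lit 263348973683)) (T.h (P (nat_lit 0)) (M (nat_lit 8792617329359))))) (T.h (P (nat_lit 0)) (T.h (T.h (P (nat_lit 0)) (M (nat_lit 3033329715647))) (P (nat_lit 0))))))) (T.h (T.h (P (nat_lit 0)) (T.h (T.h (M (nat_lit 6484428539)) (T.h (P (nat_lit 0)) (T.h (M (nat_lit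 5151303668375)) (T.h (P (nat_lit 0)) (P (nat_lit 9198962751492)))))) (T.h (P (nat_lit 0)) (T.h (T.h (M (nat_lit 2488121682875)) (T.h (P (nat_lit 0)) (M (nat_lit 962109935927)))) (T.h (P (nat_lit 0)) (P (nat_lit 4659694120476))))))) (T.h (T.h (T.h (P (nat_lit 0)) (T.h (P (nat_lit 131128510104)) (T.h (P (nat_lit 0)) (P (nat_lit 3078281274696))))) (T.h (P (nat_lit 0)) (T.h (T.h (P (nat_lit 0)) (P (nat_lit 28977847421400))) (P (nat_lit 0))))) (T.h (T.h (P (nat_lit 0)) (T.h (T.h (M (nat_lit 1666241064611)) (T.h (P (nat_lit 0)) (M (nat_lit 18393699782087)))) (T.h (P (nat_lit 0)) (P (nat_lit 8866989595980))))) (T.h (T.h (T.h (P (nat_lit 0)) (M (nat_lit 140288397263))) (P (nat_lit 0))) (T.h (T.h (P (nat_lit 0)) (M (nat_lit 11251495447163))) (P (nat_lit 0)))))))) (P (nat_lit 0))) (P (nat_lit 0)))))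
def et0_15 : T ℤ := (T.h (T.h (T.h (T.h (T.h (M (nat_lit 5426404687)) (T.h (P (nat_lit 0)) (T.h (M (nat_lit 4998976911)) (T.h (P (nat_lit 0)) (T.h (M (nat_lit 209888618679)) (T.h (P (nat_lit 0)) (M (nat_lit 14050898487447)))))))) (T.h (P (nat_lit 0)) (T.h (T.h (M (nat_lit 4998976911)) (T.h (P (nat_lit 0)) (T.h (P (nat_lit 2503805115496)) (T.h (P (nat_lit 0)) (P (nat_lit 93318084204604)))))) (T.h (P (nat_lit 0)) (T.h (T.h (M (nat_lit 209888618679)) (T.h (P (nat_lit 0)) (P (nat_lit 93318084204604)))) (T.h (P (nat_lit 0)) (M (nat_lit 14050898487447)))))))) (T.h (T.h (P (nat_lit 0)) (T.h (T.h (P (nat_lit 0)) (T.h (M (nat_lit 83822244079)) (T.h (P (nat_lit 0)) (M (nat_lit 4059658928451))))) (T.h (P (nat_lit 0)) (T.h (T.h (P (nat_lit 0)) (M (nat_lit 4059658928451))) (P (nat_lit 0)))))) (T.h (T.h (T.h (P (nat_lit 10040290624)) (T.h (P (nat_lit 0)) (T.h (P (nat_lit 362058880828)) (T.h (P (nat_lit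 0)) (P (nat_lit 26119519675796)))))) (T.h (P (nat_lit 0)) (T.h (T.h (P (nat_lit 362058880828)) (T.h (P (nat_lit 0)) (M (nat_lit 1273969421207)))) (T.h (P (nat_lit 0)) (P (nat_lit 26119519675796)))))) (T.h (T.h (P (nat_lit 0)) (T.h (T.h (P (nat_lit 0)) (P (nat_lit 1083088603856))) (P (nat_lit 0)))) (T.h (T.h (T.h (M (nat_lit 174222079567)) (T.h (P (nat_lit 0)) (M (nat_lit 5116781588795)))) (T.h (P (nat_lit 0)) (M (nat_lit 5116781588795)))) (T.h (P (nat_lit 0)) (M (nat_lit 728637281999)))))))) (T.h (P (nat_lit 0)) (T.h (T.h (T.h (T.h (P (nat_lit 10786339656)) (T.h (P (nat_lit 0)) (T.h (P (nat_lit 2295225072)) (T.h (P (nat_lit 0)) (T.h (M (nat_lit 163008652103)) (T.h (P (nat_lit 0)) (M (nat_lit 2178365119847)))))))) (T.h (P (nat_lit 0)) (T.h (T.h (P (nat_lit 40706917308)) (T.h (P (nat_lit 0)) (T.h (M (nat_lit 2560661499563)) (T.h (P (nat_lit 0)) (M (nat_lit 124810432508303)))))) (T.h (P (nat_lit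 0)) (T.h (T.h (P (nat_lit 1243913809680)) (T.h (P (nat_lit 0)) (M (nat_lit 88038585504611)))) (T.h (P (nat_lit 0)) (P (nat_lit 21852672283800)))))))) (T.h (T.h (P (nat_lit 0)) (T.h (T.h (P (nat_lit 0)) (T.h (P (nat_lit 193032154260)) (T.h (P (nat_lit 0)) (P (nat_lit 14629920707952))))) (T.h (P (nat_lit 0)) (T.h (T.h (P (nat_lit 0)) (P (nat_lit 6240550941072))) (P (nat_lit 0)))))) (T.h (T.h (T.h (M (nat_lit 10107434951)) (T.h (P (nat_lit 0)) (T.h (M (nat_lit 1307429283203)) (T.h (P (nat_lit 0)) (M (nat_lit 33548786539415)))))) (T.h (P (nat_lit 0)) (T.h (T.h (M (nat_lit 660404701511)) (T.h (P (nat_lit 0)) (M (nat_lit 3628401233471)))) (T.h (P (nat_lit 0)) (M (nat_lit 33310156589855)))))) (T.h (T.h (P (nat_lit 0)) (T.h (T.h (P (nat_lit 0)) (P (nat_lit 2545803747000))) (P (nat_lit 0)))) (T.h (T.h (T.h (M (nat_lit 223504714043)) (T.h (P (nat_lit 0)) (P (nat_lit 19327286907036)))) (T.h (P (nat_lit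 0)) (M (nat_lit 6601661213291)))) (T.h (P (nat_lit 0)) (M (nat_lit 3661426904615)))))))) (P (nat_lit 0))))) (T.h (T.h (P (nat_lit 0)) (T.h (T.h (T.h (P (nat_lit 0)) (T.h (T.h (P (nat_lit 0)) (T.h (M (nat_lit 35181537479)) (T.h (P (nat_lit 0)) (T.h (M (nat_lit 739808328023)) (T.h (P (nat_lit 0)) (M (nat_lit 17126287281791))))))) (T.h (P (nat_lit 0)) (T.h (T.h (P (nat_lit 0)) (T.h (M (nat_lit 739808328023)) (T.h (P (nat_lit 0)) (M (nat_lit 7976511140543))))) (T.h (P (nat_lit 0)) (T.h (T.h (P (nat_lit 0)) (M (nat_lit 17126287281791))) (P (nat_lit 0)))))))) (T.h (T.h (T.h (P (nat_lit 1875462912)) (T.h (P (nat_lit 0)) (T.h (P (nat_lit 47292827292)) (T.h (P (nat_lit 0)) (M (nat_lit 632194907183)))))) (T.h (P (nat_lit 0)) (T.h (T.h (P (nat_lit 47292827292)) (T.h (P (nat_lit 0)) (M (nat_lit 2980308744791)))) (T.h (P (nat_lit 0)) (M (nat_lit 632194907183)))))) (T.h (T.h (P (nat_lit 0)) (T.h (T.h (P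 (nat_lit 0)) (T.h (P (nat_lit 2996136568584)) (T.h (P (nat_lit 0)) (P (nat_lit 9645615803304))))) (T.h (P (nat_lit 0)) (T.h (T.h (P (nat_lit 0)) (P (nat_lit 9645615803304))) (P (nat_lit 0)))))) (T.h (T.h (T.h (M (nat_lit 6712655255)) (T.h (P (nat_lit 0)) (M (nat_lit 1902861377387)))) (T.h (P (nat_lit 0)) (M (nat_lit 1902861377387)))) (T.h (T.h (P (nat_lit 0)) (T.h (T.h (P (nat_lit 0)) (M (nat_lit 23334422527943))) (P (nat_lit 0)))) (M (nat_lit 2039199423623))))))) (P (nat_lit 0)))) (T.h (T.h (T.h (T.h (T.h (P (nat_lit 10786339656)) (T.h (P (nat_lit 0)) (T.h (P (nat_lit 40706917308)) (T.h (P (nat_lit 0)) (T.h (P (nat_lit 1243913809680)) (T.h (P (nat_lit 0)) (P (nat_lit 21852672283800)))))))) (T.h (P (nat_lit 0)) (T.h (T.h (P (nat_lit 2295225072)) (T.h (P (nat_lit 0)) (T.h (M (nat_lit 2560661499563)) (T.h (P (nat_lit 0)) (M (nat_lit 88038585504611)))))) (T.h (P (nat_lit 0)) (T.h (T.h (M (nat_lit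 163008652103)) (T.h (P (nat_lit 0)) (M (nat_lit 124810432508303)))) (T.h (P (nat_lit 0)) (M (nat_lit 2178365119847)))))))) (T.h (T.h (P (nat_lit 0)) (T.h (T.h (P (nat_lit 0)) (T.h (P (nat_lit 193032154260)) (T.h (P (nat_lit 0)) (P (nat_lit 6240550941072))))) (T.h (P (nat_lit 0)) (T.h (T.h (P (nat_lit 0)) (P (nat_lit 14629920707952))) (P (nat_lit 0)))))) (T.h (T.h (T.h (M (nat_lit 10107434951)) (T.h (P (nat_lit 0)) (T.h (M (nat_lit 660404701511)) (T.h (P (nat_lit 0)) (M (nat_lit 33310156589855)))))) (T.h (P (nat_lit 0)) (T.h (T.h (M (nat_lit 1307429283203)) (T.h (P (nat_lit 0)) (M (nat_lit 3628401233471)))) (T.h (P (nat_lit 0)) (M (nat_lit 33548786539415)))))) (T.h (T.h (P (nat_lit 0)) (T.h (T.h (P (nat_lit 0)) (P (nat_lit 2545803747000))) (P (nat_lit 0)))) (T.h (T.h (T.h (M (nat_lit 223504714043)) (T.h (P (nat_lit 0)) (M (nat_lit 6601661213291)))) (T.h (P (nat_lit 0)) (P (nat_lit 19327286907036))))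 (T.h (P (nat_lit 0)) (M (nat_lit 3661426904615)))))))) (P (nat_lit 0))) (P (nat_lit 0)))))
def et0_16 : T ℤ := (T.h (T.h (T.h (P (nat_lit 0)) (T.h (T.h (T.h (P (nat_lit 0)) (T.h (T.h (P (nat_lit 4916574432)) (T.h (P (nat_lit 0)) (T.h (M (nat_lit 160210164023)) (T.h (P (nat_lit 0)) (M (nat_lit 5596641487907)))))) (T.h (P (nat_lit 0)) (T.h (T.h (P (nat_lit 33255242460)) (T.h (P (nat_lit 0)) (M (nat_lit 7713053608319)))) (T.h (P (nat_lit 0)) (P (nat_lit 914394814128))))))) (T.h (T.h (T.h (P (nat_lit 0)) (T.h (M (nat_lit 422503919)) (T.h (P (nat_lit 0)) (T.h (P (nat_lit 63050778612)) (T.h (P (nat_lit 0)) (P (nat_lit 9643525077996))))))) (T.h (P (nat_lit 0)) (T.h (T.h (P (nat_lit 0)) (T.h (P (nat_lit 569686424004)) (T.h (P (nat_lit 0)) (M (nat_lit 5571908633591))))) (T.h (P (nat_lit 0)) (T.h (T.h (P (nat_lit 0)) (P (nat_lit 13389138776916))) (P (nat_lit 0))))))) (T.h (T.h (P (nat_lit 0)) (T.h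 (T.h (M (nat_lit 20599328015)) (T.h (P (nat_lit 0)) (M (nat_lit 55091326679)))) (T.h (P (nat_lit 0)) (M (nat_lit 3900538740563))))) (T.h (T.h (T.h (P (nat_lit 0)) (T.h (P (nat_lit 173834593020)) (T.h (P (nat_lit 0)) (P (nat_lit 2931771928176))))) (T.h (P (nat_lit 0)) (T.h (T.h (P (nat_lit 0)) (M (nat_lit 4640029222859))) (P (nat_lit 0))))) (T.h (T.h (P (nat_lit 0)) (P (nat_lit 437988998628))) (T.h (T.h (T.h (P (nat_lit 0)) (M (nat_lit 2176032170627))) (P (nat_lit 0))) (P (nat_lit 0)))))))) (P (nat_lit 0)))) (T.h (T.h (T.h (T.h (T.h (P (nat_lit 0)) (T.h (P (nat_lit 4916574432)) (T.h (P (nat_lit 0)) (T.h (P (nat_lit 33255242460)) (T.h (P (nat_lit 0)) (P (nat_lit 914394814128))))))) (T.h (P (nat_lit 0)) (T.h (T.h (P (nat_lit 0)) (T.h (M (nat_lit 160210164023)) (T.h (P (nat_lit 0)) (M (nat_lit 7713053608319))))) (T.h (P (nat_lit 0)) (T.h (T.h (P (nat_lit 0)) (M (nat_lit 5596641487907))) (P (nat_lit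 0))))))) (T.h (T.h (P (nat_lit 0)) (T.h (T.h (M (nat_lit 422503919)) (T.h (P (nat_lit 0)) (T.h (P (nat_lit 569686424004)) (T.h (P (nat_lit 0)) (P (nat_lit 13389138776916)))))) (T.h (P (nat_lit 0)) (T.h (T.h (P (nat_lit 63050778612)) (T.h (P (nat_lit 0)) (M (nat_lit 5571908633591)))) (T.h (P (nat_lit 0)) (P (nat_lit 9643525077996))))))) (T.h (T.h (T.h (P (nat_lit 0)) (T.h (M (nat_lit 20599328015)) (T.h (P (nat_lit 0)) (M (nat_lit 3900538740563))))) (T.h (P (nat_lit 0)) (T.h (T.h (P (nat_lit 0)) (M (nat_lit 55091326679))) (P (nat_lit 0))))) (T.h (T.h (P (nat_lit 0)) (T.h (T.h (P (nat_lit 173834593020)) (T.h (P (nat_lit 0)) (M (nat_lit 4640029222859)))) (T.h (P (nat_lit 0)) (P (nat_lit 2931771928176))))) (T.h (T.h (T.h (P (nat_lit 0)) (P (nat_lit 437988998628))) (P (nat_lit 0))) (T.h (T.h (P (nat_lit 0)) (M (nat_lit 2176032170627))) (P (nat_lit 0)))))))) (P (nat_lit 0))) (P (nat_lit 0)))) (T.h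 (T.h (T.h (T.h (T.h (T.h (P (nat_lit 5417471592)) (T.h (P (nat_lit 0)) (T.h (P (nat_lit 4957435368)) (T.h (P (nat_lit 0)) (T.h (P (nat_lit 199607461452)) (T.h (P (nat_lit 0)) (P (nat_lit 14200886005668)))))))) (T.h (P (nat_lit 0)) (T.h (T.h (P (nat_lit 4957435368)) (T.h (P (nat_lit 0)) (T.h (M (nat_lit 2503582126487)) (T.h (P (nat_lit 0)) (M (nat_lit 93174808225175)))))) (T.h (P (nat_lit 0)) (T.h (T.h (P (nat_lit 199607461452)) (T.h (P (nat_lit 0)) (M (nat_lit 93174808225175)))) (T.h (P (nat_lit 0)) (P (nat_lit 14200886005668)))))))) (T.h (T.h (P (nat_lit 0)) (T.h (T.h (P (nat_lit 0)) (T.h (P (nat_lit 84868188408)) (T.h (P (nat_lit 0)) (P (nat_lit 3926137897404))))) (T.h (P (nat_lit 0)) (T.h (T.h (P (nat_lit 0)) (P (nat_lit 3926137897404))) (P (nat_lit 0)))))) (T.h (T.h (T.h (M (nat_lit 10396698047)) (T.h (P (nat_lit 0)) (T.h (M (nat_lit 338996029211)) (T.h (P (nat_lit 0)) (M (nat_lit 25466983922771))))))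 (T.h (P (nat_lit 0)) (T.h (T.h (M (nat_lit 338996029211)) (T.h (P (nat_lit 0)) (M (nat_lit 227860638839)))) (T.h (P (nat_lit 0)) (M (nat_lit 25466983922771)))))) (T.h (T.h (P (nat_lit 0)) (T.h (T.h (P (nat_lit 0)) (M (nat_lit 968075013455))) (P (nat_lit 0)))) (T.h (T.h (T.h (P (nat_lit 186434500392)) (T.h (P (nat_lit 0)) (P (nat_lit 5035080397428)))) (T.h (P (nat_lit 0)) (P (nat_lit 5035080397428)))) (T.h (P (nat_lit 0)) (P (nat_lit 444028291056)))))))) (P (nat_lit 0))) (P (nat_lit 0))) (P (nat_lit 0))))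
def et0_17 : T ℤ := (T.h (T.h (T.h (P (nat_lit 0)) (T.h (P (nat_lit 0)) (T.h (P (nat_lit 0)) (T.h (T.h (T.h (P (nat_lit 0)) (T.h (T.h (M (nat_lit 12157190879)) (T.h (P (nat_lit 0)) (T.h (P (nat_lit 48183741720)) (T.h (P (nat_lit 0)) (M (nat_lit 3331137129531)))))) (T.h (P (nat_lit 0)) (T.h (T.h (M (nat_lit 87784015959)) (T.h (P (nat_lit 0)) (P (nat_lit 27808039900)))) (T.h (P (nat_lit 0)) (M (nat_lit 928895833471))))))) (T.h (T.h (T.h (P (nat_lit 0)) (T.h (P (nat_lit 2166085064)) (T.h (P (nat_lit 0)) (T.h (P (nat_lit 1443182165296)) (T.h (P (nat_lit 0)) (P (nat_lit 1364120328012))))))) (T.h (P (nat_lit 0)) (T.h (T.h (P (nat_lit 0)) (T.h (P (nat_lit 2764822230096)) (T.h (P (nat_lit 0)) (P (nat_lit 16149147780056))))) (T.h (P (nat_lit 0)) (T.h (T.h (P (nat_lit 0)) (M (nat_lit 4636688340583))) (P (nat_lit 0))))))) (T.h (T.h (P (nat_lit 0)) (T.h (T.h (P (nat_lit 48183741720)) (T.h (P (nat_lit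 0)) (M (nat_lit 21650801153983)))) (T.h (P (nat_lit 0)) (P (nat_lit 27808039900))))) (T.h (T.h (T.h (P (nat_lit 0)) (T.h (P (nat_lit 1443182165296)) (T.h (P (nat_lit 0)) (M (nat_lit 12160123890575))))) (T.h (P (nat_lit 0)) (T.h (T.h (P (nat_lit 0)) (P (nat_lit 16149147780056))) (P (nat_lit 0))))) (T.h (T.h (P (nat_lit 0)) (M (nat_lit 3331137129531))) (T.h (T.h (T.h (P (nat_lit 0)) (P (nat_lit 1364120328012))) (P (nat_lit 0))) (P (nat_lit 0)))))))) (T.h (P (nat_lit 0)) (T.h (T.h (T.h (P (nat_lit 0)) (T.h (T.h (P (nat_lit 17266977972)) (T.h (P (nat_lit 0)) (T.h (P (nat_lit 131128510104)) (T.h (P (nat_lit 0)) (M (nat_lit 140288397263)))))) (T.h (P (nat_lit 0)) (T.h (T.h (P (nat_lit 86352588684)) (T.h (P (nat_lit 0)) (P (nat_lit 3078281274696)))) (T.h (P (nat_lit 0)) (P (nat_lit 1555205943996))))))) (T.h (T.h (T.h (P (nat_lit 0)) (T.h (M (nat_lit 6484428539)) (T.h (P (nat_lit 0)) (T.h (M (nat_lit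 1666241064611)) (T.h (P (nat_lit 0)) (M (nat_lit 11251495447163))))))) (T.h (P (nat_lit 0)) (T.h (T.h (P (nat_lit 0)) (T.h (M (nat_lit 5151303668375)) (T.h (P (nat_lit 0)) (M (nat_lit 18393699782087))))) (T.h (P (nat_lit 0)) (T.h (T.h (P (nat_lit 0)) (P (nat_lit 9198962751492))) (P (nat_lit 0))))))) (T.h (T.h (P (nat_lit 0)) (T.h (T.h (M (nat_lit 263348973683)) (T.h (P (nat_lit 0)) (P (nat_lit 28977847421400)))) (T.h (P (nat_lit 0)) (M (nat_lit 8792617329359))))) (T.h (T.h (T.h (P (nat_lit 0)) (T.h (M (nat_lit 2488121682875)) (T.h (P (nat_lit 0)) (P (nat_lit 8866989595980))))) (T.h (P (nat_lit 0)) (T.h (T.h (P (nat_lit 0)) (M (nat_lit 962109935927))) (P (nat_lit 0))))) (T.h (T.h (P (nat_lit 0)) (M (nat_lit 3033329715647))) (T.h (T.h (T.h (P (nat_lit 0)) (P (nat_lit 4659694120476))) (P (nat_lit 0))) (P (nat_lit 0)))))))) (P (nat_lit 0)))))))) et0_11) (T.h et0_13 (T.h (T.h (T.h (P (nat_lit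 0)) (T.h (T.h (T.h (P (nat_lit 0)) (T.h (T.h (M (nat_lit 4848497011)) (T.h (P (nat_lit 0)) (T.h (P (nat_lit 176192823212)) (T.h (P (nat_lit 0)) (P (nat_lit 6283166357272)))))) (T.h (P (nat_lit 0)) (T.h (T.h (M (nat_lit 39872001987)) (T.h (P (nat_lit 0)) (P (nat_lit 6906450321804)))) (T.h (P (nat_lit 0)) (M (nat_lit 1138588799775))))))) (T.h (T.h (T.h (P (nat_lit 0)) (T.h (M (nat_lit 1652854531)) (T.h (P (nat_lit 0)) (T.h (M (nat_lit 85148755599)) (T.h (P (nat_lit 0)) (M (nat_lit 10084994971063))))))) (T.h (P (nat_lit 0)) (T.h (T.h (P (nat_lit 0)) (T.h (M (nat_lit 206417411539)) (T.h (P (nat_lit 0)) (M (nat_lit 375215235207))))) (T.h (P (nat_lit 0)) (T.h (T.h (P (nat_lit 0)) (M (nat_lit 12677088805827))) (P (nat_lit 0))))))) (T.h (T.h (P (nat_lit 0)) (T.h (T.h (M (nat_lit 10360317751)) (T.h (P (nat_lit 0)) (M (nat_lit 429801099807)))) (T.h (P (nat_lit 0)) (P (nat_lit 3194717887472))))) (T.h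 (T.h (T.h (P (nat_lit 0)) (T.h (M (nat_lit 48375966963)) (T.h (P (nat_lit 0)) (M (nat_lit 1505242838563))))) (T.h (P (nat_lit 0)) (T.h (T.h (P (nat_lit 0)) (P (nat_lit 1036017139900))) (P (nat_lit 0))))) (T.h (T.h (P (nat_lit 0)) (P (nat_lit 491682438944))) (T.h (T.h (T.h (P (nat_lit 0)) (P (nat_lit 3612736043648))) (P (nat_lit 0))) (P (nat_lit 0)))))))) (T.h (P (nat_lit 0)) (T.h (T.h (T.h (P (nat_lit 0)) (T.h (T.h (P (nat_lit 17266977972)) (T.h (P (nat_lit 0)) (T.h (M (nat_lit 263348973683)) (T.h (P (nat_lit 0)) (M (nat_lit 3033329715647)))))) (T.h (P (nat_lit 0)) (T.h (T.h (P (nat_lit 86352588684)) (T.h (P (nat_lit 0)) (M (nat_lit 8792617329359)))) (T.h (P (nat_lit 0)) (P (nat_lit 1555205943996))))))) (T.h (T.h (T.h (P (nat_lit 0)) (T.h (M (nat_lit 6484428539)) (T.h (P (nat_lit 0)) (T.h (M (nat_lit 2488121682875)) (T.h (P (nat_lit 0)) (P (nat_lit 4659694120476))))))) (T.h (P (nat_lit 0))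 (T.h (T.h (P (nat_lit 0)) (T.h (M (nat_lit 5151303668375)) (T.h (P (nat_lit 0)) (M (nat_lit 962109935927))))) (T.h (P (nat_lit 0)) (T.h (T.h (P (nat_lit 0)) (P (nat_lit 9198962751492))) (P (nat_lit 0))))))) (T.h (T.h (P (nat_lit 0)) (T.h (T.h (P (nat_lit 131128510104)) (T.h (P (nat_lit 0)) (P (nat_lit 28977847421400)))) (T.h (P (nat_lit 0)) (P (nat_lit 3078281274696))))) (T.h (T.h (T.h (P (nat_lit 0)) (T.h (M (nat_lit 1666241064611)) (T.h (P (nat_lit 0)) (P (nat_lit 8866989595980))))) (T.h (P (nat_lit 0)) (T.h (T.h (P (nat_lit 0)) (M (nat_lit 18393699782087))) (P (nat_lit 0))))) (T.h (T.h (P (nat_lit 0)) (M (nat_lit 140288397263))) (T.h (T.h (T.h (P (nat_lit 0)) (M (nat_lit 11251495447163))) (P (nat_lit 0))) (P (nat_lit 0)))))))) (P (nat_lit 0)))))) et0_14) (T.h et0_15 et0_16))))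

def t0 : T ℤ := (T.h et0_3 (T.h (T.h (T.h (P (nat_lit 0)) (T.h (P (nat_lit 0)) (T.h (P (nat_lit 0)) (T.h (P (nat_lit 0)) (T.h (P (nat_lit 0)) (T.h (T.h (T.h (P (nat_lit 0)) (T.h (T.h (M (nat_lit 4848497011)) (T.h (P (nat_lit 0)) (T.h (M (nat_lit 10360317751)) (T.h (P (nat_lit 0)) (P (nat_lit 491682438944)))))) (T.h (P (nat_lit 0)) (T.h (T.h (M (nat_lit 39872001987)) (T.h (P (nat_lit 0)) (P (nat_lit 3194717887472)))) (T.h (P (nat_lit 0)) (M (nat_lit 1138588799775))))))) (T.h (T.h (T.h (P (nat_lit 0)) (T.h (M (nat_lit 1652854531)) (T.h (P (nat_lit 0)) (T.h (M (nat_lit 48375966963)) (T.h (P (nat_lit 0)) (P (nat_lit 3612736043648))))))) (T.h (P (nat_lit 0)) (T.h (T.h (P (nat_lit 0)) (T.h (M (nat_lit 206417411539)) (T.h (P (nat_lit 0)) (P (nat_lit 1036017139900))))) (T.h (P (nat_lit 0)) (T.h (T.h (P (nat_lit 0)) (M (nat_lit 12677088805827))) (P (nat_lit 0))))))) (T.h (T.h (P (nat_lit 0)) (T.h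 (T.h (P (nat_lit 176192823212)) (T.h (P (nat_lit 0)) (M (nat_lit 429801099807)))) (T.h (P (nat_lit 0)) (P (nat_lit 6906450321804))))) (T.h (T.h (T.h (P (nat_lit 0)) (T.h (M (nat_lit 85148755599)) (T.h (P (nat_lit 0)) (M (nat_lit 1505242838563))))) (T.h (P (nat_lit 0)) (T.h (T.h (P (nat_lit 0)) (M (nat_lit 375215235207))) (P (nat_lit 0))))) (T.h (T.h (P (nat_lit 0)) (P (nat_lit 6283166357272))) (T.h (T.h (T.h (P (nat_lit 0)) (M (nat_lit 10084994971063))) (P (nat_lit 0))) (P (nat_lit 0)))))))) (T.h (P (nat_lit 0)) (T.h (T.h (T.h (P (nat_lit 0)) (T.h (T.h (P (nat_lit 4916574432)) (T.h (P (nat_lit 0)) (T.h (M (nat_lit 20599328015)) (T.h (P (nat_lit 0)) (P (nat_lit 437988998628)))))) (T.h (P (nat_lit 0)) (T.h (T.h (P (nat_lit 33255242460)) (T.h (P (nat_lit 0)) (M (nat_lit 3900538740563)))) (T.h (P (nat_lit 0)) (P (nat_lit 914394814128))))))) (T.h (T.h (T.h (P (nat_lit 0)) (T.h (M (nat_lit 422503919))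 (T.h (P (nat_lit 0)) (T.h (P (nat_lit 173834593020)) (T.h (P (nat_lit 0)) (M (nat_lit 2176032170627))))))) (T.h (P (nat_lit 0)) (T.h (T.h (P (nat_lit 0)) (T.h (P (nat_lit 569686424004)) (T.h (P (nat_lit 0)) (M (nat_lit 4640029222859))))) (T.h (P (nat_lit 0)) (T.h (T.h (P (nat_lit 0)) (P (nat_lit 13389138776916))) (P (nat_lit 0))))))) (T.h (T.h (P (nat_lit 0)) (T.h (T.h (M (nat_lit 160210164023)) (T.h (P (nat_lit 0)) (M (nat_lit 55091326679)))) (T.h (P (nat_lit 0)) (M (nat_lit 7713053608319))))) (T.h (T.h (T.h (P (nat_lit 0)) (T.h (P (nat_lit 63050778612)) (T.h (P (nat_lit 0)) (P (nat_lit 2931771928176))))) (T.h (P (nat_lit 0)) (T.h (T.h (P (nat_lit 0)) (M (nat_lit 5571908633591))) (P (nat_lit 0))))) (T.h (T.h (P (nat_lit 0)) (M (nat_lit 5596641487907))) (T.h (T.h (T.h (P (nat_lit 0)) (P (nat_lit 9643525077996))) (P (nat_lit 0))) (P (nat_lit 0)))))))) (P (nat_lit 0)))))))))) et0_6) (T.h et0_9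 et0_17)))

theorem h_t0 : chkT (c.G g0) t0 = true := by decide +kernel


end Pool.Agent.TOPR.R6109
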