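import Pool.Agent.TOPR.R6109.Cert

set_option autoImplicit false
set_option linter.all false
set_option maxRecDepth 100000

namespace Pool.Agent.TOPR.R6109

open Helper10.PC hiding V3
open Helper80.CW.DL Pool.Agent.Helper6.TOP

def et1_0 : T ℤ := (T.h (T.h (T.h (T.h (P (nat_lit 0)) (T.h (T.h (M (nat_lit 4344264175)) (T.h (P (nat_lit 0)) (T.h (M (nat_lit 182998891323)) (T.h (P (nat_lit 0)) (M (nat_lit 3013546143815)))))) (T.h (P (nat_lit 0)) (T.h (T.h (P (nat_lit 16367578120)) (T.h (P (nat_lit 0)) (P (nat_lit 2079003993364)))) (T.h (P (nat_lit 0)) (M (nat_lit 298208825527))))))) (T.h (T.h (T.h (P (nat_lit 0)) (T.h (P (nat_lit 1542420488)) (T.h (P (nat_lit 0)) (T.h (P (nat_lit 1143409201116)) (T.h (P (nat_lit 0)) (P (nat_lit 6786866055228))))))) (T.h (P (nat_lit 0)) (T.h (T.h (P (nat_lit 0)) (T.h (M (nat_lit 2902668135)) (T.h (P (nat_lit 0)) (M (nat_lit 14078136771851))))) (T.h (P (nat_lit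 0)) (T.h (T.h (P (nat_lit 0)) (P (nat_lit 12190171002552))) (P (nat_lit 0))))))) (T.h (T.h (P (nat_lit 0)) (T.h (T.h (M (nat_lit 182998891323)) (T.h (P (nat_lit 0)) (M (nat_lit 995292458271)))) (T.h (P (nat_lit 0)) (P (nat_lit 2079003993364))))) (T.h (T.h (T.h (P (nat_lit 0)) (T.h (P (nat_lit 1143409201116)) (T.h (P (nat_lit 0)) (P (nat_lit 41450369296840))))) (T.h (P (nat_lit 0)) (T.h (T.h (P (nat_lit 0)) (M (nat_lit 14078136771851))) (P (nat_lit 0))))) (T.h (T.h (P (nat_lit 0)) (M (nat_lit 3013546143815))) (T.h (T.h (T.h (P (nat_lit 0)) (P (nat_lit 6786866055228))) (P (nat_lit 0))) (P (nat_lit 0)))))))) (T.h (P (nat_lit 0)) (T.h (T.h (T.h (P (nat_lit 0)) (T.h (T.h (P (nat_lit 3016281492)) (T.h (P (nat_lit 0)) (T.h (M (nat_lit 285084945823)) (T.h (P (nat_lit 0)) (M (nat_lit 1078106303035)))))) (T.h (P (nat_lit 0)) (T.h (T.h (P (nat_lit 33617814412)) (T.h (P (nat_lit 0)) (M (nat_lit 2965037139035))))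 (T.h (P (nat_lit 0)) (M (nat_lit 2263130756263))))))) (T.h (T.h (T.h (P (nat_lit 0)) (T.h (P (nat_lit 24385553668)) (T.h (P (nat_lit 0)) (T.h (M (nat_lit 463292779571)) (T.h (P (nat_lit 0)) (M (nat_lit 9787932556611))))))) (T.h (P (nat_lit 0)) (T.h (T.h (P (nat_lit 0)) (T.h (P (nat_lit 2260828943436)) (T.h (P (nat_lit 0)) (P (nat_lit 27989756136916))))) (T.h (P (nat_lit 0)) (T.h (T.h (P (nat_lit 0)) (M (nat_lit 11751610636583))) (P (nat_lit 0))))))) (T.h (T.h (P (nat_lit 0)) (T.h (T.h (P (nat_lit 43870626156)) (T.h (P (nat_lit 0)) (M (nat_lit 1534565686107)))) (T.h (P (nat_lit 0)) (P (nat_lit 466891700912))))) (T.h (T.h (T.h (P (nat_lit 0)) (T.h (P (nat_lit 1793276133628)) (T.h (P (nat_lit 0)) (M (nat_lit 62027852269431))))) (T.h (P (nat_lit 0)) (T.h (T.h (P (nat_lit 0)) (M (nat_lit 2756220843991))) (P (nat_lit 0))))) (T.h (T.h (P (nat_lit 0)) (P (nat_lit 6139558213628))) (T.h (T.h (T.h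 (P (nat_lit 0)) (M (nat_lit 1599466600675))) (P (nat_lit 0))) (P (nat_lit 0)))))))) (P (nat_lit 0))))) (T.h (T.h (P (nat_lit 0)) (T.h (T.h (T.h (T.h (P (nat_lit 0)) (T.h (M (nat_lit 455723771)) (T.h (P (nat_lit 0)) (T.h (M (nat_lit 180452210343)) (T.h (P (nat_lit 0)) (M (nat_lit 920326611427))))))) (T.h (P (nat_lit 0)) (T.h (T.h (P (nat_lit 0)) (T.h (P (nat_lit 197249309768)) (T.h (P (nat_lit 0)) (M (nat_lit 7139154284331))))) (T.h (P (nat_lit 0)) (T.h (T.h (P (nat_lit 0)) (P (nat_lit 2082094321580))) (P (nat_lit 0))))))) (T.h (T.h (P (nat_lit 0)) (T.h (T.h (P (nat_lit 11284230076)) (T.h (P (nat_lit 0)) (T.h (P (nat_lit 903660829932)) (T.h (P (nat_lit 0)) (P (nat_lit 12155025143968)))))) (T.h (P (nat_lit 0)) (T.h (T.h (P (nat_lit 244651791244)) (T.h (P (nat_lit 0)) (P (nat_lit 5224192104684)))) (T.h (P (nat_lit 0)) (M (nat_lit 5142485173475))))))) (T.h (T.h (T.h (P (nat_lit 0)) (T.h (P (nat_lit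 43031101512)) (T.h (P (nat_lit 0)) (M (nat_lit 5023742826843))))) (T.h (P (nat_lit 0)) (T.h (T.h (P (nat_lit 0)) (M (nat_lit 5476571620043))) (P (nat_lit 0))))) (T.h (T.h (P (nat_lit 0)) (T.h (T.h (P (nat_lit 157022277356)) (T.h (P (nat_lit 0)) (M (nat_lit 17336412767659)))) (T.h (P (nat_lit 0)) (M (nat_lit 13059861727247))))) (T.h (T.h (T.h (P (nat_lit 0)) (P (nat_lit 61582683260))) (P (nat_lit 0))) (T.h (T.h (P (nat_lit 0)) (P (nat_lit 6744960748036))) (P (nat_lit 0)))))))) (P (nat_lit 0)))) (T.h (T.h (T.h (T.h (P (nat_lit 0)) (T.h (T.h (P (nat_lit 3592367296)) (T.h (P (nat_lit 0)) (T.h (P (nat_lit 177039372748)) (T.h (P (nat_lit 0)) (P (nat_lit 2468642634276)))))) (T.h (P (nat_lit 0)) (T.h (T.h (M (nat_lit 10500824095)) (T.h (P (nat_lit 0)) (M (nat_lit 2627398556187)))) (T.h (P (nat_lit 0)) (P (nat_lit 787046321264))))))) (T.h (T.h (T.h (P (nat_lit 0)) (T.h (P (nat_lit 1635588192)) (T.h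 (P (nat_lit 0)) (T.h (M (nat_lit 1177678171151)) (T.h (P (nat_lit 0)) (M (nat_lit 6727579113471))))))) (T.h (P (nat_lit 0)) (T.h (T.h (P (nat_lit 0)) (T.h (M (nat_lit 74573587199)) (T.h (P (nat_lit 0)) (P (nat_lit 19102562212188))))) (T.h (P (nat_lit 0)) (T.h (T.h (P (nat_lit 0)) (M (nat_lit 23344271304647))) (P (nat_lit 0))))))) (T.h (T.h (P (nat_lit 0)) (T.h (T.h (P (nat_lit 177039372748)) (T.h (P (nat_lit 0)) (P (nat_lit 912259062568)))) (T.h (P (nat_lit 0)) (M (nat_lit 2627398556187))))) (T.h (T.h (T.h (P (nat_lit 0)) (T.h (M (nat_lit 1177678171151)) (T.h (P (nat_lit 0)) (M (nat_lit 35372884530031))))) (T.h (P (nat_lit 0)) (T.h (T.h (P (nat_lit 0)) (P (nat_lit 19102562212188))) (P (nat_lit 0))))) (T.h (T.h (P (nat_lit 0)) (P (nat_lit 2468642634276))) (T.h (T.h (T.h (P (nat_lit 0)) (M (nat_lit 6727579113471))) (P (nat_lit 0))) (P (nat_lit 0)))))))) (P (nat_lit 0))) (P (nat_lit 0)))))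
def et1_1 : T ℤ := (T.h (T.h (P (nat_lit 0)) (T.h (P (nat_lit 0)) (T.h (T.h (T.h (P (nat_lit 0)) (T.h (T.h (M (nat_lit 1754862519)) (T.h (P (nat_lit 0)) (T.h (P (nat_lit 257433153716)) (T.h (P (nat_lit 0)) (P (nat_lit 982117332356)))))) (T.h (P (nat_lit 0)) (T.h (T.h (P (nat_lit 62786160244)) (T.h (P (nat_lit 0)) (P (nat_lit 1163860095260)))) (T.h (P (nat_lit 0)) (P (nat_lit 679510214264))))))) (T.h (T.h (T.h (P (nat_lit 0)) (T.h (M (nat_lit 20910070759)) (T.h (P (nat_lit 0)) (T.h (M (nat_lit 230128153691)) (T.h (P (nat_lit 0)) (P (nat_lit 4675513752828))))))) (T.h (P (nat_lit 0)) (T.h (T.h (P (nat_lit 0)) (T.h (M (nat_lit 1589910968679)) (T.h (P (nat_lit 0)) (M (nat_lit 12394677460127))))) (T.h (P (nat_lit 0)) (T.h (T.h (P (nat_lit 0)) (M (nat_lit 4364827805715))) (P (nat_lit 0))))))) (T.h (T.h (P (nat_lit 0)) (T.h (T.h (P (nat_lit 80462194420)) (T.h (P (nat_lit 0)) (M (nat_lit 739850220899))))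 (T.h (P (nat_lit 0)) (P (nat_lit 56257550636))))) (T.h (T.h (T.h (P (nat_lit 0)) (T.h (M (nat_lit 647975650827)) (T.h (P (nat_lit 0)) (P (nat_lit 11872776324316))))) (T.h (P (nat_lit 0)) (T.h (T.h (P (nat_lit 0)) (P (nat_lit 11099583237568))) (P (nat_lit 0))))) (T.h (T.h (P (nat_lit 0)) (M (nat_lit 231856545083))) (T.h (T.h (T.h (P (nat_lit 0)) (P (nat_lit 2431640405300))) (P (nat_lit 0))) (P (nat_lit 0)))))))) (T.h (P (nat_lit 0)) (T.h (T.h (T.h (P (nat_lit 0)) (T.h (T.h (M (nat_lit 702482787)) (T.h (P (nat_lit 0)) (T.h (M (nat_lit 308750586003)) (T.h (P (nat_lit 0)) (M (nat_lit 3649808930683)))))) (T.h (P (nat_lit 0)) (T.h (T.h (M (nat_lit 349153738975)) (T.h (P (nat_lit 0)) (P (nat_lit 2245727204560)))) (T.h (P (nat_lit 0)) (M (nat_lit 2616508572383))))))) (T.h (T.h (T.h (P (nat_lit 0)) (T.h (P (nat_lit 17774541736)) (T.h (P (nat_lit 0)) (T.h (M (nat_lit 664307482971)) (T.h (P (nat_lit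 0)) (P (nat_lit 3652817184324))))))) (T.h (P (nat_lit 0)) (T.h (T.h (P (nat_lit 0)) (T.h (P (nat_lit 2568156610404)) (T.h (P (nat_lit 0)) (P (nat_lit 18734767140208))))) (T.h (P (nat_lit 0)) (T.h (T.h (P (nat_lit 0)) (P (nat_lit 55574601809608))) (P (nat_lit 0))))))) (T.h (T.h (P (nat_lit 0)) (T.h (T.h (M (nat_lit 428744435615)) (T.h (P (nat_lit 0)) (P (nat_lit 6589698958164)))) (T.h (P (nat_lit 0)) (P (nat_lit 3971215038840))))) (T.h (T.h (T.h (P (nat_lit 0)) (T.h (P (nat_lit 783439804560)) (T.h (P (nat_lit 0)) (M (nat_lit 8712387362727))))) (T.h (P (nat_lit 0)) (T.h (T.h (P (nat_lit 0)) (M (nat_lit 7584436182903))) (P (nat_lit 0))))) (T.h (T.h (P (nat_lit 0)) (M (nat_lit 7292786477983))) (T.h (T.h (T.h (P (nat_lit 0)) (M (nat_lit 3823707922047))) (P (nat_lit 0))) (P (nat_lit 0)))))))) (P (nat_lit 0))))))) (T.h (T.h (P (nat_lit 0)) (T.h (T.h (T.h (T.h (P (nat_lit 0)) (T.h (M (nat_lit 579793471))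 (T.h (P (nat_lit 0)) (T.h (P (nat_lit 120833560092)) (T.h (P (nat_lit 0)) (P (nat_lit 1744104809892))))))) (T.h (P (nat_lit 0)) (T.h (T.h (P (nat_lit 0)) (T.h (M (nat_lit 105707377155)) (T.h (P (nat_lit 0)) (P (nat_lit 3819133715372))))) (T.h (P (nat_lit 0)) (T.h (T.h (P (nat_lit 0)) (M (nat_lit 134056533359))) (P (nat_lit 0))))))) (T.h (T.h (P (nat_lit 0)) (T.h (T.h (M (nat_lit 13698061399)) (T.h (P (nat_lit 0)) (T.h (M (nat_lit 485327890231)) (T.h (P (nat_lit 0)) (M (nat_lit 10088308345923)))))) (T.h (P (nat_lit 0)) (T.h (T.h (P (nat_lit 57851842256)) (T.h (P (nat_lit 0)) (M (nat_lit 6355622937031)))) (T.h (P (nat_lit 0)) (P (nat_lit 5033501168984))))))) (T.h (T.h (T.h (P (nat_lit 0)) (T.h (P (nat_lit 72282754072)) (T.h (P (nat_lit 0)) (P (nat_lit 3986152091684))))) (T.h (P (nat_lit 0)) (T.h (T.h (P (nat_lit 0)) (P (nat_lit 2181708031288))) (P (nat_lit 0))))) (T.h (T.h (P (nat_lit 0))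 (T.h (T.h (M (nat_lit 535704454663)) (T.h (P (nat_lit 0)) (P (nat_lit 9334918948572)))) (T.h (P (nat_lit 0)) (P (nat_lit 6975023039828))))) (T.h (T.h (T.h (P (nat_lit 0)) (P (nat_lit 153033541076))) (P (nat_lit 0))) (T.h (T.h (P (nat_lit 0)) (M (nat_lit 9857134351127))) (P (nat_lit 0)))))))) (T.h (P (nat_lit 0)) (T.h (T.h (T.h (T.h (P (nat_lit 0)) (T.h (M (nat_lit 702482787)) (T.h (P (nat_lit 0)) (T.h (M (nat_lit 349153738975)) (T.h (P (nat_lit 0)) (M (nat_lit 2616508572383))))))) (T.h (P (nat_lit 0)) (T.h (T.h (P (nat_lit 0)) (T.h (M (nat_lit 308750586003)) (T.h (P (nat_lit 0)) (P (nat_lit 2245727204560))))) (T.h (P (nat_lit 0)) (T.h (T.h (P (nat_lit 0)) (M (nat_lit 3649808930683))) (P (nat_lit 0))))))) (T.h (T.h (P (nat_lit 0)) (T.h (T.h (P (nat_lit 17774541736)) (T.h (P (nat_lit 0)) (T.h (P (nat_lit 2568156610404)) (T.h (P (nat_lit 0)) (P (nat_lit 55574601809608)))))) (T.h (P (nat_lit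 0)) (T.h (T.h (M (nat_lit 664307482971)) (T.h (P (nat_lit 0)) (P (nat_lit 18734767140208)))) (T.h (P (nat_lit 0)) (P (nat_lit 3652817184324))))))) (T.h (T.h (T.h (P (nat_lit 0)) (T.h (M (nat_lit 428744435615)) (T.h (P (nat_lit 0)) (P (nat_lit 3971215038840))))) (T.h (P (nat_lit 0)) (T.h (T.h (P (nat_lit 0)) (P (nat_lit 6589698958164))) (P (nat_lit 0))))) (T.h (T.h (P (nat_lit 0)) (T.h (T.h (P (nat_lit 783439804560)) (T.h (P (nat_lit 0)) (M (nat_lit 7584436182903)))) (T.h (P (nat_lit 0)) (M (nat_lit 8712387362727))))) (T.h (T.h (T.h (P (nat_lit 0)) (M (nat_lit 7292786477983))) (P (nat_lit 0))) (T.h (T.h (P (nat_lit 0)) (M (nat_lit 3823707922047))) (P (nat_lit 0)))))))) (P (nat_lit 0)))))) et1_0))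
def et1_2 : T ℤ := (T.h (T.h (P (nat_lit 0)) (T.h (P (nat_lit 0)) (T.h (P (nat_lit 0)) (T.h (P (nat_lit 0)) (T.h (T.h (T.h (P (nat_lit 0)) (T.h (T.h (M (nat_lit 579793471)) (T.h (P (nat_lit 0)) (T.h (M (nat_lit 105707377155)) (T.h (P (nat_lit 0)) (M (nat_lit 134056533359)))))) (T.h (P (nat_lit 0)) (T.h (T.h (P (nat_lit 120833560092)) (T.h (P (nat_lit 0)) (P (nat_lit 3819133715372)))) (T.h (P (nat_lit 0)) (P (nat_lit 1744104809892))))))) (T.h (T.h (T.h (P (nat_lit 0)) (T.h (M (nat_lit 13698061399)) (T.h (P (nat_lit 0)) (T.h (P (nat_lit 57851842256)) (T.h (P (nat_lit 0)) (P (nat_lit 5033501168984))))))) (T.h (P (nat_lit 0)) (T.h (T.h (P (nat_lit 0)) (T.h (M (nat_lit 485327890231)) (T.h (P (nat_lit 0)) (M (nat_lit 6355622937031))))) (T.h (P (nat_lit 0)) (T.h (T.h (P (nat_lit 0)) (M (nat_lit 10088308345923))) (P (nat_lit 0))))))) (T.h (T.h (P (nat_lit 0)) (T.h (T.h (P (nat_lit 72282754072))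 (T.h (P (nat_lit 0)) (P (nat_lit 2181708031288)))) (T.h (P (nat_lit 0)) (P (nat_lit 3986152091684))))) (T.h (T.h (T.h (P (nat_lit 0)) (T.h (M (nat_lit 535704454663)) (T.h (P (nat_lit 0)) (P (nat_lit 6975023039828))))) (T.h (P (nat_lit 0)) (T.h (T.h (P (nat_lit 0)) (P (nat_lit 9334918948572))) (P (nat_lit 0))))) (T.h (T.h (P (nat_lit 0)) (P (nat_lit 153033541076))) (T.h (T.h (T.h (P (nat_lit 0)) (M (nat_lit 9857134351127))) (P (nat_lit 0))) (P (nat_lit 0)))))))) (T.h (P (nat_lit 0)) (T.h (T.h (T.h (P (nat_lit 0)) (T.h (T.h (M (nat_lit 455723771)) (T.h (P (nat_lit 0)) (T.h (P (nat_lit 197249309768)) (T.h (P (nat_lit 0)) (P (nat_lit 2082094321580)))))) (T.h (P (nat_lit 0)) (T.h (T.h (M (nat_lit 180452210343)) (T.h (P (nat_lit 0)) (M (nat_lit 7139154284331)))) (T.h (P (nat_lit 0)) (M (nat_lit 920326611427))))))) (T.h (T.h (T.h (P (nat_lit 0)) (T.h (P (nat_lit 11284230076)) (T.h (P (nat_lit 0))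 (T.h (P (nat_lit 244651791244)) (T.h (P (nat_lit 0)) (M (nat_lit 5142485173475))))))) (T.h (P (nat_lit 0)) (T.h (T.h (P (nat_lit 0)) (T.h (P (nat_lit 903660829932)) (T.h (P (nat_lit 0)) (P (nat_lit 5224192104684))))) (T.h (P (nat_lit 0)) (T.h (T.h (P (nat_lit 0)) (P (nat_lit 12155025143968))) (P (nat_lit 0))))))) (T.h (T.h (P (nat_lit 0)) (T.h (T.h (P (nat_lit 43031101512)) (T.h (P (nat_lit 0)) (M (nat_lit 5476571620043)))) (T.h (P (nat_lit 0)) (M (nat_lit 5023742826843))))) (T.h (T.h (T.h (P (nat_lit 0)) (T.h (P (nat_lit 157022277356)) (T.h (P (nat_lit 0)) (M (nat_lit 13059861727247))))) (T.h (P (nat_lit 0)) (T.h (T.h (P (nat_lit 0)) (M (nat_lit 17336412767659))) (P (nat_lit 0))))) (T.h (T.h (P (nat_lit 0)) (P (nat_lit 61582683260))) (T.h (T.h (T.h (P (nat_lit 0)) (P (nat_lit 6744960748036))) (P (nat_lit 0))) (P (nat_lit 0)))))))) (P (nat_lit 0))))))))) (T.h (T.h (P (nat_lit 0)) (T.h (P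 (nat_lit 0)) (T.h (P (nat_lit 0)) (T.h (T.h (T.h (T.h (P (nat_lit 0)) (T.h (M (nat_lit 1754862519)) (T.h (P (nat_lit 0)) (T.h (P (nat_lit 62786160244)) (T.h (P (nat_lit 0)) (P (nat_lit 679510214264))))))) (T.h (P (nat_lit 0)) (T.h (T.h (P (nat_lit 0)) (T.h (P (nat_lit 257433153716)) (T.h (P (nat_lit 0)) (P (nat_lit 1163860095260))))) (T.h (P (nat_lit 0)) (T.h (T.h (P (nat_lit 0)) (P (nat_lit 982117332356))) (P (nat_lit 0))))))) (T.h (T.h (P (nat_lit 0)) (T.h (T.h (M (nat_lit 20910070759)) (T.h (P (nat_lit 0)) (T.h (M (nat_lit 1589910968679)) (T.h (P (nat_lit 0)) (M (nat_lit 4364827805715)))))) (T.h (P (nat_lit 0)) (T.h (T.h (M (nat_lit 230128153691)) (T.h (P (nat_lit 0)) (M (nat_lit 12394677460127)))) (T.h (P (nat_lit 0)) (P (nat_lit 4675513752828))))))) (T.h (T.h (T.h (P (nat_lit 0)) (T.h (P (nat_lit 80462194420)) (T.h (P (nat_lit 0)) (P (nat_lit 56257550636))))) (T.h (P (nat_lit 0)) (T.h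 (T.h (P (nat_lit 0)) (M (nat_lit 739850220899))) (P (nat_lit 0))))) (T.h (T.h (P (nat_lit 0)) (T.h (T.h (M (nat_lit 647975650827)) (T.h (P (nat_lit 0)) (P (nat_lit 11099583237568)))) (T.h (P (nat_lit 0)) (P (nat_lit 11872776324316))))) (T.h (T.h (T.h (P (nat_lit 0)) (M (nat_lit 231856545083))) (P (nat_lit 0))) (T.h (T.h (P (nat_lit 0)) (P (nat_lit 2431640405300))) (P (nat_lit 0)))))))) (T.h (P (nat_lit 0)) (T.h (T.h (T.h (T.h (P (nat_lit 0)) (T.h (P (nat_lit 3016281492)) (T.h (P (nat_lit 0)) (T.h (P (nat_lit 33617814412)) (T.h (P (nat_lit 0)) (M (nat_lit 2263130756263))))))) (T.h (P (nat_lit 0)) (T.h (T.h (P (nat_lit 0)) (T.h (M (nat_lit 285084945823)) (T.h (P (nat_lit 0)) (M (nat_lit 2965037139035))))) (T.h (P (nat_lit 0)) (T.h (T.h (P (nat_lit 0)) (M (nat_lit 1078106303035))) (P (nat_lit 0))))))) (T.h (T.h (P (nat_lit 0)) (T.h (T.h (P (nat_lit 24385553668)) (T.h (P (nat_lit 0)) (T.h (P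 (nat_lit 2260828943436)) (T.h (P (nat_lit 0)) (M (nat_lit 11751610636583)))))) (T.h (P (nat_lit 0)) (T.h (T.h (M (nat_lit 463292779571)) (T.h (P (nat_lit 0)) (P (nat_lit 27989756136916)))) (T.h (P (nat_lit 0)) (M (nat_lit 9787932556611))))))) (T.h (T.h (T.h (P (nat_lit 0)) (T.h (P (nat_lit 43870626156)) (T.h (P (nat_lit 0)) (P (nat_lit 466891700912))))) (T.h (P (nat_lit 0)) (T.h (T.h (P (nat_lit 0)) (M (nat_lit 1534565686107))) (P (nat_lit 0))))) (T.h (T.h (P (nat_lit 0)) (T.h (T.h (P (nat_lit 1793276133628)) (T.h (P (nat_lit 0)) (M (nat_lit 2756220843991)))) (T.h (P (nat_lit 0)) (M (nat_lit 62027852269431))))) (T.h (T.h (T.h (P (nat_lit 0)) (P (nat_lit 6139558213628))) (P (nat_lit 0))) (T.h (T.h (P (nat_lit 0)) (M (nat_lit 1599466600675))) (P (nat_lit 0)))))))) (P (nat_lit 0)))))))) et1_1))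
def et1_3 : T ℤ := (T.h (T.h (T.h (T.h (P (nat_lit 0)) (T.h (T.h (P (nat_lit 0)) (T.h (M (nat_lit 13698061399)) (T.h (P (nat_lit 0)) (T.h (M (nat_lit 535704454663)) (T.h (P (nat_lit 0)) (M (nat_lit 9857134351127))))))) (T.h (P (nat_lit 0)) (T.h (T.h (P (nat_lit 0)) (T.h (P (nat_lit 57851842256)) (T.h (P (nat_lit 0)) (P (nat_lit 6975023039828))))) (T.h (P (nat_lit 0)) (T.h (T.h (P (nat_lit 0)) (P (nat_lit 5033501168984))) (P (nat_lit 0)))))))) (T.h (T.h (T.h (M (nat_lit 579793471)) (T.h (P (nat_lit 0)) (T.h (P (nat_lit 72282754072)) (T.h (P (nat_lit 0)) (P (nat_lit 153033541076)))))) (T.h (P (nat_lit 0)) (T.h (T.h (M (nat_lit 105707377155)) (T.h (P (nat_lit 0)) (P (nat_lit 2181708031288)))) (T.h (P (nat_lit 0)) (M (nat_lit 134056533359)))))) (T.h (T.h (P (nat_lit 0)) (T.h (T.h (P (nat_lit 0)) (T.h (M (nat_lit 485327890231)) (T.h (P (nat_lit 0)) (P (nat_lit 9334918948572))))) (T.h (P (nat_lit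 0)) (T.h (T.h (P (nat_lit 0)) (M (nat_lit 6355622937031))) (P (nat_lit 0)))))) (T.h (T.h (T.h (P (nat_lit 120833560092)) (T.h (P (nat_lit 0)) (P (nat_lit 3986152091684)))) (T.h (P (nat_lit 0)) (P (nat_lit 3819133715372)))) (T.h (T.h (P (nat_lit 0)) (T.h (T.h (P (nat_lit 0)) (M (nat_lit 10088308345923))) (P (nat_lit 0)))) (P (nat_lit 1744104809892))))))) (T.h (P (nat_lit 0)) (T.h (T.h (T.h (P (nat_lit 0)) (T.h (T.h (P (nat_lit 0)) (T.h (P (nat_lit 74349177140)) (T.h (P (nat_lit 0)) (T.h (M (nat_lit 837190580407)) (T.h (P (nat_lit 0)) (P (nat_lit 839369095040))))))) (T.h (P (nat_lit 0)) (T.h (T.h (P (nat_lit 0)) (T.h (P (nat_lit 994999042436)) (T.h (P (nat_lit 0)) (M (nat_lit 23183432341299))))) (T.h (P (nat_lit 0)) (T.h (T.h (P (nat_lit 0)) (M (nat_lit 35114477525287))) (P (nat_lit 0)))))))) (T.h (T.h (T.h (P (nat_lit 2710684480)) (T.h (P (nat_lit 0)) (T.h (M (nat_lit 319048935407)) (T.h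 (P (nat_lit 0)) (P (nat_lit 3053262972536)))))) (T.h (P (nat_lit 0)) (T.h (T.h (M (nat_lit 370241461827)) (T.h (P (nat_lit 0)) (P (nat_lit 11564338782024)))) (T.h (P (nat_lit 0)) (P (nat_lit 9722396593028)))))) (T.h (T.h (P (nat_lit 0)) (T.h (T.h (P (nat_lit 0)) (T.h (M (nat_lit 1597549308767)) (T.h (P (nat_lit 0)) (M (nat_lit 10810495319119))))) (T.h (P (nat_lit 0)) (T.h (T.h (P (nat_lit 0)) (P (nat_lit 55933458408268))) (P (nat_lit 0)))))) (T.h (T.h (T.h (P (nat_lit 179414124148)) (T.h (P (nat_lit 0)) (M (nat_lit 17983021530795)))) (T.h (P (nat_lit 0)) (P (nat_lit 8477898137436)))) (T.h (T.h (P (nat_lit 0)) (T.h (T.h (P (nat_lit 0)) (P (nat_lit 500705015412))) (P (nat_lit 0)))) (M (nat_lit 4029002219843))))))) (P (nat_lit 0))))) (T.h (T.h (P (nat_lit 0)) (T.h (T.h (T.h (T.h (P (nat_lit 0)) (T.h (P (nat_lit 0)) (T.h (P (nat_lit 55781748596)) (T.h (P (nat_lit 0)) (T.h (M (nat_lit 1668108100791))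 (T.h (P (nat_lit 0)) (M (nat_lit 5127029677391)))))))) (T.h (P (nat_lit 0)) (T.h (T.h (M (nat_lit 31794469447)) (T.h (P (nat_lit 0)) (T.h (P (nat_lit 2948024457224)) (T.h (P (nat_lit 0)) (M (nat_lit 10368940077355)))))) (T.h (P (nat_lit 0)) (T.h (T.h (P (nat_lit 704145585528)) (T.h (P (nat_lit 0)) (M (nat_lit 26335104501775)))) (T.h (P (nat_lit 0)) (M (nat_lit 556932439783)))))))) (T.h (T.h (P (nat_lit 0)) (T.h (T.h (P (nat_lit 0)) (T.h (M (nat_lit 500296150423)) (T.h (P (nat_lit 0)) (M (nat_lit 3702200441771))))) (T.h (P (nat_lit 0)) (T.h (T.h (P (nat_lit 0)) (M (nat_lit 9154736251303))) (P (nat_lit 0)))))) (T.h (T.h (T.h (P (nat_lit 55781748596)) (T.h (P (nat_lit 0)) (T.h (P (nat_lit 584514853216)) (T.h (P (nat_lit 0)) (P (nat_lit 12282664775948)))))) (T.h (P (nat_lit 0)) (T.h (T.h (P (nat_lit 2948024457224)) (T.h (P (nat_lit 0)) (M (nat_lit 7043420710087)))) (T.h (P (nat_lit 0)) (M (nat_lit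 26335104501775)))))) (T.h (T.h (P (nat_lit 0)) (T.h (T.h (P (nat_lit 0)) (M (nat_lit 3702200441771))) (P (nat_lit 0)))) (T.h (T.h (T.h (M (nat_lit 1668108100791)) (T.h (P (nat_lit 0)) (P (nat_lit 12282664775948)))) (T.h (P (nat_lit 0)) (M (nat_lit 10368940077355)))) (T.h (P (nat_lit 0)) (M (nat_lit 5127029677391)))))))) (P (nat_lit 0)))) (T.h (T.h (T.h (T.h (P (nat_lit 0)) (T.h (T.h (P (nat_lit 0)) (T.h (P (nat_lit 11284230076)) (T.h (P (nat_lit 0)) (T.h (P (nat_lit 157022277356)) (T.h (P (nat_lit 0)) (P (nat_lit 6744960748036))))))) (T.h (P (nat_lit 0)) (T.h (T.h (P (nat_lit 0)) (T.h (P (nat_lit 244651791244)) (T.h (P (nat_lit 0)) (M (nat_lit 13059861727247))))) (T.h (P (nat_lit 0)) (T.h (T.h (P (nat_lit 0)) (M (nat_lit 5142485173475))) (P (nat_lit 0)))))))) (T.h (T.h (T.h (M (nat_lit 455723771)) (T.h (P (nat_lit 0)) (T.h (P (nat_lit 43031101512)) (T.h (P (nat_lit 0)) (P (nat_lit 61582683260))))))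 (T.h (P (nat_lit 0)) (T.h (T.h (P (nat_lit 197249309768)) (T.h (P (nat_lit 0)) (M (nat_lit 5476571620043)))) (T.h (P (nat_lit 0)) (P (nat_lit 2082094321580)))))) (T.h (T.h (P (nat_lit 0)) (T.h (T.h (P (nat_lit 0)) (T.h (P (nat_lit 903660829932)) (T.h (P (nat_lit 0)) (M (nat_lit 17336412767659))))) (T.h (P (nat_lit 0)) (T.h (T.h (P (nat_lit 0)) (P (nat_lit 5224192104684))) (P (nat_lit 0)))))) (T.h (T.h (T.h (M (nat_lit 180452210343)) (T.h (P (nat_lit 0)) (M (nat_lit 5023742826843)))) (T.h (P (nat_lit 0)) (M (nat_lit 7139154284331)))) (T.h (T.h (P (nat_lit 0)) (T.h (T.h (P (nat_lit 0)) (P (nat_lit 12155025143968))) (P (nat_lit 0)))) (M (nat_lit 920326611427))))))) (P (nat_lit 0))) (P (nat_lit 0)))))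
def et1_4 : T ℤ := (T.h (T.h (P (nat_lit 0)) (T.h (P (nat_lit 0)) (T.h (T.h (T.h (P (nat_lit 0)) (T.h (T.h (P (nat_lit 0)) (T.h (M (nat_lit 21043234527)) (T.h (P (nat_lit 0)) (T.h (M (nat_lit 61613966839)) (T.h (P (nat_lit 0)) (P (nat_lit 1134557140804))))))) (T.h (P (nat_lit 0)) (T.h (T.h (P (nat_lit 0)) (T.h (M (nat_lit 61613966839)) (T.h (P (nat_lit 0)) (P (nat_lit 7881023720240))))) (T.h (P (nat_lit 0)) (T.h (T.h (P (nat_lit 0)) (P (nat_lit 1134557140804))) (P (nat_lit 0)))))))) (T.h (T.h (T.h (M (nat_lit 6679625727)) (T.h (P (nat_lit 0)) (T.h (P (nat_lit 87173659668)) (T.h (P (nat_lit 0)) (P (nat_lit 605121902152)))))) (T.h (P (nat_lit 0)) (T.h (T.h (P (nat_lit 87173659668)) (T.h (P (nat_lit 0)) (M (nat_lit 1341374357975)))) (T.h (P (nat_lit 0)) (P (nat_lit 605121902152)))))) (T.h (T.h (P (nat_lit 0)) (T.h (T.h (P (nat_lit 0)) (T.h (M (nat_lit 421752748087)) (T.h (P (nat_lit 0)) (P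 (nat_lit 612880408956))))) (T.h (P (nat_lit 0)) (T.h (T.h (P (nat_lit 0)) (P (nat_lit 612880408956))) (P (nat_lit 0)))))) (T.h (T.h (T.h (M (nat_lit 65000247887)) (T.h (P (nat_lit 0)) (P (nat_lit 746044619564)))) (T.h (P (nat_lit 0)) (P (nat_lit 746044619564)))) (T.h (T.h (P (nat_lit 0)) (T.h (T.h (P (nat_lit 0)) (M (nat_lit 20261644890247))) (P (nat_lit 0)))) (P (nat_lit 573741233600))))))) (T.h (P (nat_lit 0)) (T.h (T.h (T.h (P (nat_lit 0)) (T.h (T.h (P (nat_lit 0)) (T.h (P (nat_lit 74349177140)) (T.h (P (nat_lit 0)) (T.h (P (nat_lit 994999042436)) (T.h (P (nat_lit 0)) (M (nat_lit 35114477525287))))))) (T.h (P (nat_lit 0)) (T.h (T.h (P (nat_lit 0)) (T.h (M (nat_lit 837190580407)) (T.h (P (nat_lit 0)) (M (nat_lit 23183432341299))))) (T.h (P (nat_lit 0)) (T.h (T.h (P (nat_lit 0)) (P (nat_lit 839369095040))) (P (nat_lit 0)))))))) (T.h (T.h (T.h (P (nat_lit 2710684480)) (T.h (P (nat_lit 0))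 (T.h (M (nat_lit 370241461827)) (T.h (P (nat_lit 0)) (P (nat_lit 9722396593028)))))) (T.h (P (nat_lit 0)) (T.h (T.h (M (nat_lit 319048935407)) (T.h (P (nat_lit 0)) (P (nat_lit 11564338782024)))) (T.h (P (nat_lit 0)) (P (nat_lit 3053262972536)))))) (T.h (T.h (P (nat_lit 0)) (T.h (T.h (P (nat_lit 0)) (T.h (M (nat_lit 1597549308767)) (T.h (P (nat_lit 0)) (P (nat_lit 55933458408268))))) (T.h (P (nat_lit 0)) (T.h (T.h (P (nat_lit 0)) (M (nat_lit 10810495319119))) (P (nat_lit 0)))))) (T.h (T.h (T.h (P (nat_lit 179414124148)) (T.h (P (nat_lit 0)) (P (nat_lit 8477898137436)))) (T.h (P (nat_lit 0)) (M (nat_lit 17983021530795)))) (T.h (T.h (P (nat_lit 0)) (T.h (T.h (P (nat_lit 0)) (P (nat_lit 500705015412))) (P (nat_lit 0)))) (M (nat_lit 4029002219843))))))) (P (nat_lit 0))))))) (T.h (T.h (P (nat_lit 0)) (T.h (T.h (T.h (T.h (P (nat_lit 0)) (T.h (P (nat_lit 0)) (T.h (M (nat_lit 6977587895)) (T.h (P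 (nat_lit 0)) (T.h (P (nat_lit 257778406920)) (T.h (P (nat_lit 0)) (P (nat_lit 4830152847736)))))))) (T.h (P (nat_lit 0)) (T.h (T.h (P (nat_lit 411404864)) (T.h (P (nat_lit 0)) (T.h (M (nat_lit 481133573135)) (T.h (P (nat_lit 0)) (M (nat_lit 246693916023)))))) (T.h (P (nat_lit 0)) (T.h (T.h (P (nat_lit 25169333360)) (T.h (P (nat_lit 0)) (P (nat_lit 1607244015232)))) (T.h (P (nat_lit 0)) (P (nat_lit 1000924528624)))))))) (T.h (T.h (P (nat_lit 0)) (T.h (T.h (P (nat_lit 0)) (T.h (M (nat_lit 2804739887)) (T.h (P (nat_lit 0)) (P (nat_lit 1075779897416))))) (T.h (P (nat_lit 0)) (T.h (T.h (P (nat_lit 0)) (P (nat_lit 47771204320))) (P (nat_lit 0)))))) (T.h (T.h (T.h (M (nat_lit 6977587895)) (T.h (P (nat_lit 0)) (T.h (P (nat_lit 160253677088)) (T.h (P (nat_lit 0)) (M (nat_lit 717501130239)))))) (T.h (P (nat_lit 0)) (T.h (T.h (M (nat_lit 481133573135)) (T.h (P (nat_lit 0)) (M (nat_lit 318726992175))))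 (T.h (P (nat_lit 0)) (P (nat_lit 1607244015232)))))) (T.h (T.h (P (nat_lit 0)) (T.h (T.h (P (nat_lit 0)) (P (nat_lit 1075779897416))) (P (nat_lit 0)))) (T.h (T.h (T.h (P (nat_lit 257778406920)) (T.h (P (nat_lit 0)) (M (nat_lit 717501130239)))) (T.h (P (nat_lit 0)) (M (nat_lit 246693916023)))) (T.h (P (nat_lit 0)) (P (nat_lit 4830152847736)))))))) (T.h (P (nat_lit 0)) (T.h (T.h (T.h (T.h (P (nat_lit 0)) (T.h (P (nat_lit 0)) (T.h (P (nat_lit 58026059728)) (T.h (P (nat_lit 0)) (T.h (M (nat_lit 858896189955)) (T.h (P (nat_lit 0)) (M (nat_lit 1693123787879)))))))) (T.h (P (nat_lit 0)) (T.h (T.h (P (nat_lit 58026059728)) (T.h (P (nat_lit 0)) (T.h (M (nat_lit 3002803078799)) (T.h (P (nat_lit 0)) (M (nat_lit 9640835379671)))))) (T.h (P (nat_lit 0)) (T.h (T.h (M (nat_lit 858896189955)) (T.h (P (nat_lit 0)) (M (nat_lit 9640835379671)))) (T.h (P (nat_lit 0)) (M (nat_lit 1693123787879)))))))) (T.h (T.h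 (P (nat_lit 0)) (T.h (T.h (P (nat_lit 0)) (T.h (P (nat_lit 638366107120)) (T.h (P (nat_lit 0)) (P (nat_lit 17650204254088))))) (T.h (P (nat_lit 0)) (T.h (T.h (P (nat_lit 0)) (P (nat_lit 17650204254088))) (P (nat_lit 0)))))) (T.h (T.h (T.h (M (nat_lit 178523372383)) (T.h (P (nat_lit 0)) (T.h (M (nat_lit 1225068870759)) (T.h (P (nat_lit 0)) (M (nat_lit 2624418182959)))))) (T.h (P (nat_lit 0)) (T.h (T.h (M (nat_lit 1225068870759)) (T.h (P (nat_lit 0)) (P (nat_lit 27940564179416)))) (T.h (P (nat_lit 0)) (M (nat_lit 2624418182959)))))) (T.h (T.h (P (nat_lit 0)) (T.h (T.h (P (nat_lit 0)) (M (nat_lit 1615607479583))) (P (nat_lit 0)))) (T.h (T.h (T.h (P (nat_lit 1167429508784)) (T.h (P (nat_lit 0)) (M (nat_lit 23132285397759)))) (T.h (P (nat_lit 0)) (M (nat_lit 23132285397759)))) (T.h (P (nat_lit 0)) (M (nat_lit 7565915932679)))))))) (P (nat_lit 0)))))) et1_3))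
def et1_5 : T ℤ := (T.h (T.h (P (nat_lit 0)) (T.h (P (nat_lit 0)) (T.h (P (nat_lit 0)) (T.h (P (nat_lit 0)) (T.h (T.h (T.h (P (nat_lit 0)) (T.h (T.h (P (nat_lit 0)) (T.h (M (nat_lit 13698061399)) (T.h (P (nat_lit 0)) (T.h (P (nat_lit 57851842256)) (T.h (P (nat_lit 0)) (P (nat_lit 5033501168984))))))) (T.h (P (nat_lit 0)) (T.h (T.h (P (nat_lit 0)) (T.h (M (nat_lit 535704454663)) (T.h (P (nat_lit 0)) (P (nat_lit 6975023039828))))) (T.h (P (nat_lit 0)) (T.h (T.h (P (nat_lit 0)) (M (nat_lit 9857134351127))) (P (nat_lit 0)))))))) (T.h (T.h (T.h (M (nat_lit 579793471)) (T.h (P (nat_lit 0)) (T.h (M (nat_lit 105707377155)) (T.h (P (nat_lit 0)) (M (nat_lit 134056533359)))))) (T.h (P (nat_lit 0)) (T.h (T.h (P (nat_lit 72282754072)) (T.h (P (nat_lit 0)) (P (nat_lit 2181708031288)))) (T.h (P (nat_lit 0)) (P (nat_lit 153033541076)))))) (T.h (T.h (P (nat_lit 0)) (T.h (T.h (P (nat_lit 0)) (T.h (M (nat_lit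 485327890231)) (T.h (P (nat_lit 0)) (M (nat_lit 6355622937031))))) (T.h (P (nat_lit 0)) (T.h (T.h (P (nat_lit 0)) (P (nat_lit 9334918948572))) (P (nat_lit 0)))))) (T.h (T.h (T.h (P (nat_lit 120833560092)) (T.h (P (nat_lit 0)) (P (nat_lit 3819133715372)))) (T.h (P (nat_lit 0)) (P (nat_lit 3986152091684)))) (T.h (T.h (P (nat_lit 0)) (T.h (T.h (P (nat_lit 0)) (M (nat_lit 10088308345923))) (P (nat_lit 0)))) (P (nat_lit 1744104809892))))))) (T.h (P (nat_lit 0)) (T.h (T.h (T.h (P (nat_lit 0)) (T.h (T.h (P (nat_lit 0)) (T.h (P (nat_lit 11284230076)) (T.h (P (nat_lit 0)) (T.h (P (nat_lit 244651791244)) (T.h (P (nat_lit 0)) (M (nat_lit 5142485173475))))))) (T.h (P (nat_lit 0)) (T.h (T.h (P (nat_lit 0)) (T.h (P (nat_lit 157022277356)) (T.h (P (nat_lit 0)) (M (nat_lit 13059861727247))))) (T.h (P (nat_lit 0)) (T.h (T.h (P (nat_lit 0)) (P (nat_lit 6744960748036))) (P (nat_lit 0)))))))) (T.h (T.h (T.h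 (M (nat_lit 455723771)) (T.h (P (nat_lit 0)) (T.h (P (nat_lit 197249309768)) (T.h (P (nat_lit 0)) (P (nat_lit 2082094321580)))))) (T.h (P (nat_lit 0)) (T.h (T.h (P (nat_lit 43031101512)) (T.h (P (nat_lit 0)) (M (nat_lit 5476571620043)))) (T.h (P (nat_lit 0)) (P (nat_lit 61582683260)))))) (T.h (T.h (P (nat_lit 0)) (T.h (T.h (P (nat_lit 0)) (T.h (P (nat_lit 903660829932)) (T.h (P (nat_lit 0)) (P (nat_lit 5224192104684))))) (T.h (P (nat_lit 0)) (T.h (T.h (P (nat_lit 0)) (M (nat_lit 17336412767659))) (P (nat_lit 0)))))) (T.h (T.h (T.h (M (nat_lit 180452210343)) (T.h (P (nat_lit 0)) (M (nat_lit 7139154284331)))) (T.h (P (nat_lit 0)) (M (nat_lit 5023742826843)))) (T.h (T.h (P (nat_lit 0)) (T.h (T.h (P (nat_lit 0)) (P (nat_lit 12155025143968))) (P (nat_lit 0)))) (M (nat_lit 920326611427))))))) (P (nat_lit 0))))))))) (T.h (T.h (P (nat_lit 0)) (T.h (P (nat_lit 0)) (T.h (P (nat_lit 0)) (T.h (T.h (T.h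 (T.h (P (nat_lit 0)) (T.h (P (nat_lit 0)) (T.h (P (nat_lit 411404864)) (T.h (P (nat_lit 0)) (T.h (P (nat_lit 25169333360)) (T.h (P (nat_lit 0)) (P (nat_lit 1000924528624)))))))) (T.h (P (nat_lit 0)) (T.h (T.h (M (nat_lit 6977587895)) (T.h (P (nat_lit 0)) (T.h (M (nat_lit 481133573135)) (T.h (P (nat_lit 0)) (P (nat_lit 1607244015232)))))) (T.h (P (nat_lit 0)) (T.h (T.h (P (nat_lit 257778406920)) (T.h (P (nat_lit 0)) (M (nat_lit 246693916023)))) (T.h (P (nat_lit 0)) (P (nat_lit 4830152847736)))))))) (T.h (T.h (P (nat_lit 0)) (T.h (T.h (P (nat_lit 0)) (T.h (M (nat_lit 2804739887)) (T.h (P (nat_lit 0)) (P (nat_lit 47771204320))))) (T.h (P (nat_lit 0)) (T.h (T.h (P (nat_lit 0)) (P (nat_lit 1075779897416))) (P (nat_lit 0)))))) (T.h (T.h (T.h (M (nat_lit 6977587895)) (T.h (P (nat_lit 0)) (T.h (M (nat_lit 481133573135)) (T.h (P (nat_lit 0)) (P (nat_lit 1607244015232)))))) (T.h (P (nat_lit 0)) (T.h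 (T.h (P (nat_lit 160253677088)) (T.h (P (nat_lit 0)) (M (nat_lit 318726992175)))) (T.h (P (nat_lit 0)) (M (nat_lit 717501130239)))))) (T.h (T.h (P (nat_lit 0)) (T.h (T.h (P (nat_lit 0)) (P (nat_lit 1075779897416))) (P (nat_lit 0)))) (T.h (T.h (T.h (P (nat_lit 257778406920)) (T.h (P (nat_lit 0)) (M (nat_lit 246693916023)))) (T.h (P (nat_lit 0)) (M (nat_lit 717501130239)))) (T.h (P (nat_lit 0)) (P (nat_lit 4830152847736)))))))) (T.h (P (nat_lit 0)) (T.h (T.h (T.h (T.h (P (nat_lit 0)) (T.h (P (nat_lit 0)) (T.h (M (nat_lit 31794469447)) (T.h (P (nat_lit 0)) (T.h (P (nat_lit 704145585528)) (T.h (P (nat_lit 0)) (M (nat_lit 556932439783)))))))) (T.h (P (nat_lit 0)) (T.h (T.h (P (nat_lit 55781748596)) (T.h (P (nat_lit 0)) (T.h (P (nat_lit 2948024457224)) (T.h (P (nat_lit 0)) (M (nat_lit 26335104501775)))))) (T.h (P (nat_lit 0)) (T.h (T.h (M (nat_lit 1668108100791)) (T.h (P (nat_lit 0)) (M (nat_lit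 10368940077355)))) (T.h (P (nat_lit 0)) (M (nat_lit 5127029677391)))))))) (T.h (T.h (P (nat_lit 0)) (T.h (T.h (P (nat_lit 0)) (T.h (M (nat_lit 500296150423)) (T.h (P (nat_lit 0)) (M (nat_lit 9154736251303))))) (T.h (P (nat_lit 0)) (T.h (T.h (P (nat_lit 0)) (M (nat_lit 3702200441771))) (P (nat_lit 0)))))) (T.h (T.h (T.h (P (nat_lit 55781748596)) (T.h (P (nat_lit 0)) (T.h (P (nat_lit 2948024457224)) (T.h (P (nat_lit 0)) (M (nat_lit 26335104501775)))))) (T.h (P (nat_lit 0)) (T.h (T.h (P (nat_lit 584514853216)) (T.h (P (nat_lit 0)) (M (nat_lit 7043420710087)))) (T.h (P (nat_lit 0)) (P (nat_lit 12282664775948)))))) (T.h (T.h (P (nat_lit 0)) (T.h (T.h (P (nat_lit 0)) (M (nat_lit 3702200441771))) (P (nat_lit 0)))) (T.h (T.h (T.h (M (nat_lit 1668108100791)) (T.h (P (nat_lit 0)) (M (nat_lit 10368940077355)))) (T.h (P (nat_lit 0)) (P (nat_lit 12282664775948)))) (T.h (P (nat_lit 0)) (M (nat_lit 5127029677391))))))))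 (P (nat_lit 0)))))))) et1_4))
def et1_6 : T ℤ := (T.h (T.h (T.h (T.h (P (nat_lit 0)) (T.h (T.h (M (nat_lit 1754862519)) (T.h (P (nat_lit 0)) (T.h (P (nat_lit 80462194420)) (T.h (P (nat_lit 0)) (M (nat_lit 231856545083)))))) (T.h (P (nat_lit 0)) (T.h (T.h (P (nat_lit 62786160244)) (T.h (P (nat_lit 0)) (P (nat_lit 56257550636)))) (T.h (P (nat_lit 0)) (P (nat_lit 679510214264))))))) (T.h (T.h (T.h (P (nat_lit 0)) (T.h (M (nat_lit 20910070759)) (T.h (P (nat_lit 0)) (T.h (M (nat_lit 647975650827)) (T.h (P (nat_lit 0)) (P (nat_lit 2431640405300))))))) (T.h (P (nat_lit 0)) (T.h (T.h (P (nat_lit 0)) (T.h (M (nat_lit 1589910968679)) (T.h (P (nat_lit 0)) (P (nat_lit 11099583237568))))) (T.h (P (nat_lit 0)) (T.h (T.h (P (nat_lit 0)) (M (nat_lit 4364827805715))) (P (nat_lit 0))))))) (T.h (T.h (P (nat_lit 0)) (T.h (T.h (P (nat_lit 257433153716)) (T.h (P (nat_lit 0)) (M (nat_lit 739850220899)))) (T.h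 (P (nat_lit 0)) (P (nat_lit 1163860095260))))) (T.h (T.h (T.h (P (nat_lit 0)) (T.h (M (nat_lit 230128153691)) (T.h (P (nat_lit 0)) (P (nat_lit 11872776324316))))) (T.h (P (nat_lit 0)) (T.h (T.h (P (nat_lit 0)) (M (nat_lit 12394677460127))) (P (nat_lit 0))))) (T.h (T.h (P (nat_lit 0)) (P (nat_lit 982117332356))) (T.h (T.h (T.h (P (nat_lit 0)) (P (nat_lit 4675513752828))) (P (nat_lit 0))) (P (nat_lit 0)))))))) (T.h (P (nat_lit 0)) (T.h (T.h (T.h (P (nat_lit 0)) (T.h (T.h (M (nat_lit 21115998455)) (T.h (P (nat_lit 0)) (T.h (P (nat_lit 1507301611872)) (T.h (P (nat_lit 0)) (P (nat_lit 5421988974920)))))) (T.h (P (nat_lit 0)) (T.h (T.h (P (nat_lit 253175767600)) (T.h (P (nat_lit 0)) (P (nat_lit 2783874974356)))) (T.h (P (nat_lit 0)) (P (nat_lit 912841125448))))))) (T.h (T.h (T.h (P (nat_lit 0)) (T.h (M (nat_lit 99338295279)) (T.h (P (nat_lit 0)) (T.h (M (nat_lit 2719145967523)) (T.h (P (nat_lit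 0)) (M (nat_lit 15723276517395))))))) (T.h (P (nat_lit 0)) (T.h (T.h (P (nat_lit 0)) (T.h (M (nat_lit 9519152157871)) (T.h (P (nat_lit 0)) (P (nat_lit 22849224254556))))) (T.h (P (nat_lit 0)) (T.h (T.h (P (nat_lit 0)) (M (nat_lit 99440752124951))) (P (nat_lit 0))))))) (T.h (T.h (P (nat_lit 0)) (T.h (T.h (P (nat_lit 1507301611872)) (T.h (P (nat_lit 0)) (M (nat_lit 7186889658143)))) (T.h (P (nat_lit 0)) (P (nat_lit 2783874974356))))) (T.h (T.h (T.h (P (nat_lit 0)) (T.h (M (nat_lit 2719145967523)) (T.h (P (nat_lit 0)) (P (nat_lit 25045576101616))))) (T.h (P (nat_lit 0)) (T.h (T.h (P (nat_lit 0)) (P (nat_lit 22849224254556))) (P (nat_lit 0))))) (T.h (T.h (P (nat_lit 0)) (P (nat_lit 5421988974920))) (T.h (T.h (T.h (P (nat_lit 0)) (M (nat_lit 15723276517395))) (P (nat_lit 0))) (P (nat_lit 0)))))))) (P (nat_lit 0))))) (T.h (T.h (P (nat_lit 0)) (T.h (T.h (T.h (T.h (P (nat_lit 0)) (T.h (P (nat_lit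 2710684480)) (T.h (P (nat_lit 0)) (T.h (P (nat_lit 179414124148)) (T.h (P (nat_lit 0)) (M (nat_lit 4029002219843))))))) (T.h (P (nat_lit 0)) (T.h (T.h (P (nat_lit 0)) (T.h (M (nat_lit 370241461827)) (T.h (P (nat_lit 0)) (P (nat_lit 8477898137436))))) (T.h (P (nat_lit 0)) (T.h (T.h (P (nat_lit 0)) (P (nat_lit 9722396593028))) (P (nat_lit 0))))))) (T.h (T.h (P (nat_lit 0)) (T.h (T.h (P (nat_lit 74349177140)) (T.h (P (nat_lit 0)) (T.h (M (nat_lit 1597549308767)) (T.h (P (nat_lit 0)) (P (nat_lit 500705015412)))))) (T.h (P (nat_lit 0)) (T.h (T.h (P (nat_lit 994999042436)) (T.h (P (nat_lit 0)) (P (nat_lit 55933458408268)))) (T.h (P (nat_lit 0)) (M (nat_lit 35114477525287))))))) (T.h (T.h (T.h (P (nat_lit 0)) (T.h (M (nat_lit 319048935407)) (T.h (P (nat_lit 0)) (M (nat_lit 17983021530795))))) (T.h (P (nat_lit 0)) (T.h (T.h (P (nat_lit 0)) (P (nat_lit 11564338782024))) (P (nat_lit 0))))) (T.h (T.h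 (P (nat_lit 0)) (T.h (T.h (M (nat_lit 837190580407)) (T.h (P (nat_lit 0)) (M (nat_lit 10810495319119)))) (T.h (P (nat_lit 0)) (M (nat_lit 23183432341299))))) (T.h (T.h (T.h (P (nat_lit 0)) (P (nat_lit 3053262972536))) (P (nat_lit 0))) (T.h (T.h (P (nat_lit 0)) (P (nat_lit 839369095040))) (P (nat_lit 0)))))))) (P (nat_lit 0)))) (T.h (T.h (T.h (T.h (P (nat_lit 0)) (T.h (T.h (P (nat_lit 3016281492)) (T.h (P (nat_lit 0)) (T.h (P (nat_lit 43870626156)) (T.h (P (nat_lit 0)) (P (nat_lit 6139558213628)))))) (T.h (P (nat_lit 0)) (T.h (T.h (P (nat_lit 33617814412)) (T.h (P (nat_lit 0)) (P (nat_lit 466891700912)))) (T.h (P (nat_lit 0)) (M (nat_lit 2263130756263))))))) (T.h (T.h (T.h (P (nat_lit 0)) (T.h (P (nat_lit 24385553668)) (T.h (P (nat_lit 0)) (T.h (P (nat_lit 1793276133628)) (T.h (P (nat_lit 0)) (M (nat_lit 1599466600675))))))) (T.h (P (nat_lit 0)) (T.h (T.h (P (nat_lit 0)) (T.h (P (nat_lit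 2260828943436)) (T.h (P (nat_lit 0)) (M (nat_lit 2756220843991))))) (T.h (P (nat_lit 0)) (T.h (T.h (P (nat_lit 0)) (M (nat_lit 11751610636583))) (P (nat_lit 0))))))) (T.h (T.h (P (nat_lit 0)) (T.h (T.h (M (nat_lit 285084945823)) (T.h (P (nat_lit 0)) (M (nat_lit 1534565686107)))) (T.h (P (nat_lit 0)) (M (nat_lit 2965037139035))))) (T.h (T.h (T.h (P (nat_lit 0)) (T.h (M (nat_lit 463292779571)) (T.h (P (nat_lit 0)) (M (nat_lit 62027852269431))))) (T.h (P (nat_lit 0)) (T.h (T.h (P (nat_lit 0)) (P (nat_lit 27989756136916))) (P (nat_lit 0))))) (T.h (T.h (P (nat_lit 0)) (M (nat_lit 1078106303035))) (T.h (T.h (T.h (P (nat_lit 0)) (M (nat_lit 9787932556611))) (P (nat_lit 0))) (P (nat_lit 0)))))))) (P (nat_lit 0))) (P (nat_lit 0)))))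
def et1_7 : T ℤ := (T.h (T.h (P (nat_lit 0)) (T.h (P (nat_lit 0)) (T.h (T.h (T.h (P (nat_lit 0)) (T.h (T.h (M (nat_lit 6679625727)) (T.h (P (nat_lit 0)) (T.h (P (nat_lit 87173659668)) (T.h (P (nat_lit 0)) (P (nat_lit 605121902152)))))) (T.h (P (nat_lit 0)) (T.h (T.h (M (nat_lit 65000247887)) (T.h (P (nat_lit 0)) (P (nat_lit 746044619564)))) (T.h (P (nat_lit 0)) (P (nat_lit 573741233600))))))) (T.h (T.h (T.h (P (nat_lit 0)) (T.h (M (nat_lit 21043234527)) (T.h (P (nat_lit 0)) (T.h (M (nat_lit 61613966839)) (T.h (P (nat_lit 0)) (P (nat_lit 1134557140804))))))) (T.h (P (nat_lit 0)) (T.h (T.h (P (nat_lit 0)) (T.h (M (nat_lit 421752748087)) (T.h (P (nat_lit 0)) (P (nat_lit 612880408956))))) (T.h (P (nat_lit 0)) (T.h (T.h (P (nat_lit 0)) (M (nat_lit 20261644890247))) (P (nat_lit 0))))))) (T.h (T.h (P (nat_lit 0)) (T.h (T.h (P (nat_lit 87173659668)) (T.h (P (nat_lit 0)) (M (nat_lit 1341374357975))))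 (T.h (P (nat_lit 0)) (P (nat_lit 746044619564))))) (T.h (T.h (T.h (P (nat_lit 0)) (T.h (M (nat_lit 61613966839)) (T.h (P (nat_lit 0)) (P (nat_lit 7881023720240))))) (T.h (P (nat_lit 0)) (T.h (T.h (P (nat_lit 0)) (P (nat_lit 612880408956))) (P (nat_lit 0))))) (T.h (T.h (P (nat_lit 0)) (P (nat_lit 605121902152))) (T.h (T.h (T.h (P (nat_lit 0)) (P (nat_lit 1134557140804))) (P (nat_lit 0))) (P (nat_lit 0)))))))) (T.h (P (nat_lit 0)) (T.h (T.h (T.h (P (nat_lit 0)) (T.h (T.h (P (nat_lit 2710684480)) (T.h (P (nat_lit 0)) (T.h (M (nat_lit 370241461827)) (T.h (P (nat_lit 0)) (P (nat_lit 9722396593028)))))) (T.h (P (nat_lit 0)) (T.h (T.h (P (nat_lit 179414124148)) (T.h (P (nat_lit 0)) (P (nat_lit 8477898137436)))) (T.h (P (nat_lit 0)) (M (nat_lit 4029002219843))))))) (T.h (T.h (T.h (P (nat_lit 0)) (T.h (P (nat_lit 74349177140)) (T.h (P (nat_lit 0)) (T.h (P (nat_lit 994999042436)) (T.h (P (nat_lit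 0)) (M (nat_lit 35114477525287))))))) (T.h (P (nat_lit 0)) (T.h (T.h (P (nat_lit 0)) (T.h (M (nat_lit 1597549308767)) (T.h (P (nat_lit 0)) (P (nat_lit 55933458408268))))) (T.h (P (nat_lit 0)) (T.h (T.h (P (nat_lit 0)) (P (nat_lit 500705015412))) (P (nat_lit 0))))))) (T.h (T.h (P (nat_lit 0)) (T.h (T.h (M (nat_lit 319048935407)) (T.h (P (nat_lit 0)) (P (nat_lit 11564338782024)))) (T.h (P (nat_lit 0)) (M (nat_lit 17983021530795))))) (T.h (T.h (T.h (P (nat_lit 0)) (T.h (M (nat_lit 837190580407)) (T.h (P (nat_lit 0)) (M (nat_lit 23183432341299))))) (T.h (P (nat_lit 0)) (T.h (T.h (P (nat_lit 0)) (M (nat_lit 10810495319119))) (P (nat_lit 0))))) (T.h (T.h (P (nat_lit 0)) (P (nat_lit 3053262972536))) (T.h (T.h (T.h (P (nat_lit 0)) (P (nat_lit 839369095040))) (P (nat_lit 0))) (P (nat_lit 0)))))))) (P (nat_lit 0))))))) (T.h (T.h (P (nat_lit 0)) (T.h (T.h (T.h (T.h (P (nat_lit 0)) (T.h (M (nat_lit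 6679625727)) (T.h (P (nat_lit 0)) (T.h (M (nat_lit 65000247887)) (T.h (P (nat_lit 0)) (P (nat_lit 573741233600))))))) (T.h (P (nat_lit 0)) (T.h (T.h (P (nat_lit 0)) (T.h (P (nat_lit 87173659668)) (T.h (P (nat_lit 0)) (P (nat_lit 746044619564))))) (T.h (P (nat_lit 0)) (T.h (T.h (P (nat_lit 0)) (P (nat_lit 605121902152))) (P (nat_lit 0))))))) (T.h (T.h (P (nat_lit 0)) (T.h (T.h (M (nat_lit 21043234527)) (T.h (P (nat_lit 0)) (T.h (M (nat_lit 421752748087)) (T.h (P (nat_lit 0)) (M (nat_lit 20261644890247)))))) (T.h (P (nat_lit 0)) (T.h (T.h (M (nat_lit 61613966839)) (T.h (P (nat_lit 0)) (P (nat_lit 612880408956)))) (T.h (P (nat_lit 0)) (P (nat_lit 1134557140804))))))) (T.h (T.h (T.h (P (nat_lit 0)) (T.h (P (nat_lit 87173659668)) (T.h (P (nat_lit 0)) (P (nat_lit 746044619564))))) (T.h (P (nat_lit 0)) (T.h (T.h (P (nat_lit 0)) (M (nat_lit 1341374357975))) (P (nat_lit 0))))) (T.h (T.h (P (nat_lit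 0)) (T.h (T.h (M (nat_lit 61613966839)) (T.h (P (nat_lit 0)) (P (nat_lit 612880408956)))) (T.h (P (nat_lit 0)) (P (nat_lit 7881023720240))))) (T.h (T.h (T.h (P (nat_lit 0)) (P (nat_lit 605121902152))) (P (nat_lit 0))) (T.h (T.h (P (nat_lit 0)) (P (nat_lit 1134557140804))) (P (nat_lit 0)))))))) (T.h (P (nat_lit 0)) (T.h (T.h (T.h (T.h (P (nat_lit 0)) (T.h (M (nat_lit 21115998455)) (T.h (P (nat_lit 0)) (T.h (P (nat_lit 253175767600)) (T.h (P (nat_lit 0)) (P (nat_lit 912841125448))))))) (T.h (P (nat_lit 0)) (T.h (T.h (P (nat_lit 0)) (T.h (P (nat_lit 1507301611872)) (T.h (P (nat_lit 0)) (P (nat_lit 2783874974356))))) (T.h (P (nat_lit 0)) (T.h (T.h (P (nat_lit 0)) (P (nat_lit 5421988974920))) (P (nat_lit 0))))))) (T.h (T.h (P (nat_lit 0)) (T.h (T.h (M (nat_lit 99338295279)) (T.h (P (nat_lit 0)) (T.h (M (nat_lit 9519152157871)) (T.h (P (nat_lit 0)) (M (nat_lit 99440752124951)))))) (T.h (P (nat_lit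 0)) (T.h (T.h (M (nat_lit 2719145967523)) (T.h (P (nat_lit 0)) (P (nat_lit 22849224254556)))) (T.h (P (nat_lit 0)) (M (nat_lit 15723276517395))))))) (T.h (T.h (T.h (P (nat_lit 0)) (T.h (P (nat_lit 1507301611872)) (T.h (P (nat_lit 0)) (P (nat_lit 2783874974356))))) (T.h (P (nat_lit 0)) (T.h (T.h (P (nat_lit 0)) (M (nat_lit 7186889658143))) (P (nat_lit 0))))) (T.h (T.h (P (nat_lit 0)) (T.h (T.h (M (nat_lit 2719145967523)) (T.h (P (nat_lit 0)) (P (nat_lit 22849224254556)))) (T.h (P (nat_lit 0)) (P (nat_lit 25045576101616))))) (T.h (T.h (T.h (P (nat_lit 0)) (P (nat_lit 5421988974920))) (P (nat_lit 0))) (T.h (T.h (P (nat_lit 0)) (M (nat_lit 15723276517395))) (P (nat_lit 0)))))))) (P (nat_lit 0)))))) et1_6))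
def et1_8 : T ℤ := (T.h (T.h (T.h (T.h (P (nat_lit 0)) (T.h (T.h (P (nat_lit 0)) (T.h (M (nat_lit 20910070759)) (T.h (P (nat_lit 0)) (T.h (M (nat_lit 647975650827)) (T.h (P (nat_lit 0)) (P (nat_lit 2431640405300))))))) (T.h (P (nat_lit 0)) (T.h (T.h (P (nat_lit 0)) (T.h (M (nat_lit 230128153691)) (T.h (P (nat_lit 0)) (P (nat_lit 11872776324316))))) (T.h (P (nat_lit 0)) (T.h (T.h (P (nat_lit 0)) (P (nat_lit 4675513752828))) (P (nat_lit 0)))))))) (T.h (T.h (T.h (M (nat_lit 1754862519)) (T.h (P (nat_lit 0)) (T.h (P (nat_lit 80462194420)) (T.h (P (nat_lit 0)) (M (nat_lit 231856545083)))))) (T.h (P (nat_lit 0)) (T.h (T.h (P (nat_lit 257433153716)) (T.h (P (nat_lit 0)) (M (nat_lit 739850220899)))) (T.h (P (nat_lit 0)) (P (nat_lit 982117332356)))))) (T.h (T.h (P (nat_lit 0)) (T.h (T.h (P (nat_lit 0)) (T.h (M (nat_lit 1589910968679)) (T.h (P (nat_lit 0)) (P (nat_lit 11099583237568))))) (T.h (P (nat_lit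 0)) (T.h (T.h (P (nat_lit 0)) (M (nat_lit 12394677460127))) (P (nat_lit 0)))))) (T.h (T.h (T.h (P (nat_lit 62786160244)) (T.h (P (nat_lit 0)) (P (nat_lit 56257550636)))) (T.h (P (nat_lit 0)) (P (nat_lit 1163860095260)))) (T.h (T.h (P (nat_lit 0)) (T.h (T.h (P (nat_lit 0)) (M (nat_lit 4364827805715))) (P (nat_lit 0)))) (P (nat_lit 679510214264))))))) (T.h (P (nat_lit 0)) (T.h (T.h (T.h (P (nat_lit 0)) (T.h (T.h (P (nat_lit 0)) (T.h (M (nat_lit 99338295279)) (T.h (P (nat_lit 0)) (T.h (M (nat_lit 2719145967523)) (T.h (P (nat_lit 0)) (M (nat_lit 15723276517395))))))) (T.h (P (nat_lit 0)) (T.h (T.h (P (nat_lit 0)) (T.h (M (nat_lit 2719145967523)) (T.h (P (nat_lit 0)) (P (nat_lit 25045576101616))))) (T.h (P (nat_lit 0)) (T.h (T.h (P (nat_lit 0)) (M (nat_lit 15723276517395))) (P (nat_lit 0)))))))) (T.h (T.h (T.h (M (nat_lit 21115998455)) (T.h (P (nat_lit 0)) (T.h (P (nat_lit 1507301611872)) (T.h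 (P (nat_lit 0)) (P (nat_lit 5421988974920)))))) (T.h (P (nat_lit 0)) (T.h (T.h (P (nat_lit 1507301611872)) (T.h (P (nat_lit 0)) (M (nat_lit 7186889658143)))) (T.h (P (nat_lit 0)) (P (nat_lit 5421988974920)))))) (T.h (T.h (P (nat_lit 0)) (T.h (T.h (P (nat_lit 0)) (T.h (M (nat_lit 9519152157871)) (T.h (P (nat_lit 0)) (P (nat_lit 22849224254556))))) (T.h (P (nat_lit 0)) (T.h (T.h (P (nat_lit 0)) (P (nat_lit 22849224254556))) (P (nat_lit 0)))))) (T.h (T.h (T.h (P (nat_lit 253175767600)) (T.h (P (nat_lit 0)) (P (nat_lit 2783874974356)))) (T.h (P (nat_lit 0)) (P (nat_lit 2783874974356)))) (T.h (T.h (P (nat_lit 0)) (T.h (T.h (P (nat_lit 0)) (M (nat_lit 99440752124951))) (P (nat_lit 0)))) (P (nat_lit 912841125448))))))) (P (nat_lit 0))))) (T.h (T.h (P (nat_lit 0)) (T.h (T.h (T.h (T.h (P (nat_lit 0)) (T.h (P (nat_lit 0)) (T.h (M (nat_lit 178523372383)) (T.h (P (nat_lit 0)) (T.h (P (nat_lit 1167429508784))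 (T.h (P (nat_lit 0)) (M (nat_lit 7565915932679)))))))) (T.h (P (nat_lit 0)) (T.h (T.h (P (nat_lit 58026059728)) (T.h (P (nat_lit 0)) (T.h (M (nat_lit 1225068870759)) (T.h (P (nat_lit 0)) (M (nat_lit 23132285397759)))))) (T.h (P (nat_lit 0)) (T.h (T.h (M (nat_lit 858896189955)) (T.h (P (nat_lit 0)) (M (nat_lit 2624418182959)))) (T.h (P (nat_lit 0)) (M (nat_lit 1693123787879)))))))) (T.h (T.h (P (nat_lit 0)) (T.h (T.h (P (nat_lit 0)) (T.h (P (nat_lit 638366107120)) (T.h (P (nat_lit 0)) (M (nat_lit 1615607479583))))) (T.h (P (nat_lit 0)) (T.h (T.h (P (nat_lit 0)) (P (nat_lit 17650204254088))) (P (nat_lit 0)))))) (T.h (T.h (T.h (P (nat_lit 58026059728)) (T.h (P (nat_lit 0)) (T.h (M (nat_lit 1225068870759)) (T.h (P (nat_lit 0)) (M (nat_lit 23132285397759)))))) (T.h (P (nat_lit 0)) (T.h (T.h (M (nat_lit 3002803078799)) (T.h (P (nat_lit 0)) (P (nat_lit 27940564179416)))) (T.h (P (nat_lit 0)) (M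 (nat_lit 9640835379671)))))) (T.h (T.h (P (nat_lit 0)) (T.h (T.h (P (nat_lit 0)) (P (nat_lit 17650204254088))) (P (nat_lit 0)))) (T.h (T.h (T.h (M (nat_lit 858896189955)) (T.h (P (nat_lit 0)) (M (nat_lit 2624418182959)))) (T.h (P (nat_lit 0)) (M (nat_lit 9640835379671)))) (T.h (P (nat_lit 0)) (M (nat_lit 1693123787879)))))))) (P (nat_lit 0)))) (T.h (T.h (T.h (T.h (P (nat_lit 0)) (T.h (T.h (P (nat_lit 0)) (T.h (P (nat_lit 17774541736)) (T.h (P (nat_lit 0)) (T.h (P (nat_lit 783439804560)) (T.h (P (nat_lit 0)) (M (nat_lit 3823707922047))))))) (T.h (P (nat_lit 0)) (T.h (T.h (P (nat_lit 0)) (T.h (M (nat_lit 664307482971)) (T.h (P (nat_lit 0)) (M (nat_lit 8712387362727))))) (T.h (P (nat_lit 0)) (T.h (T.h (P (nat_lit 0)) (P (nat_lit 3652817184324))) (P (nat_lit 0)))))))) (T.h (T.h (T.h (M (nat_lit 702482787)) (T.h (P (nat_lit 0)) (T.h (M (nat_lit 428744435615)) (T.h (P (nat_lit 0)) (M (nat_lit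 7292786477983)))))) (T.h (P (nat_lit 0)) (T.h (T.h (M (nat_lit 308750586003)) (T.h (P (nat_lit 0)) (P (nat_lit 6589698958164)))) (T.h (P (nat_lit 0)) (M (nat_lit 3649808930683)))))) (T.h (T.h (P (nat_lit 0)) (T.h (T.h (P (nat_lit 0)) (T.h (P (nat_lit 2568156610404)) (T.h (P (nat_lit 0)) (M (nat_lit 7584436182903))))) (T.h (P (nat_lit 0)) (T.h (T.h (P (nat_lit 0)) (P (nat_lit 18734767140208))) (P (nat_lit 0)))))) (T.h (T.h (T.h (M (nat_lit 349153738975)) (T.h (P (nat_lit 0)) (P (nat_lit 3971215038840)))) (T.h (P (nat_lit 0)) (P (nat_lit 2245727204560)))) (T.h (T.h (P (nat_lit 0)) (T.h (T.h (P (nat_lit 0)) (P (nat_lit 55574601809608))) (P (nat_lit 0)))) (M (nat_lit 2616508572383))))))) (P (nat_lit 0))) (P (nat_lit 0)))))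
def et1_9 : T ℤ := (T.h (T.h (P (nat_lit 0)) (T.h (P (nat_lit 0)) (T.h (T.h (T.h (P (nat_lit 0)) (T.h (T.h (P (nat_lit 0)) (T.h (M (nat_lit 20910070759)) (T.h (P (nat_lit 0)) (T.h (M (nat_lit 230128153691)) (T.h (P (nat_lit 0)) (P (nat_lit 4675513752828))))))) (T.h (P (nat_lit 0)) (T.h (T.h (P (nat_lit 0)) (T.h (M (nat_lit 647975650827)) (T.h (P (nat_lit 0)) (P (nat_lit 11872776324316))))) (T.h (P (nat_lit 0)) (T.h (T.h (P (nat_lit 0)) (P (nat_lit 2431640405300))) (P (nat_lit 0)))))))) (T.h (T.h (T.h (M (nat_lit 1754862519)) (T.h (P (nat_lit 0)) (T.h (P (nat_lit 257433153716)) (T.h (P (nat_lit 0)) (P (nat_lit 982117332356)))))) (T.h (P (nat_lit 0)) (T.h (T.h (P (nat_lit 80462194420)) (T.h (P (nat_lit 0)) (M (nat_lit 739850220899)))) (T.h (P (nat_lit 0)) (M (nat_lit 231856545083)))))) (T.h (T.h (P (nat_lit 0)) (T.h (T.h (P (nat_lit 0)) (T.h (M (nat_lit 1589910968679)) (T.h (P (nat_lit 0))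 (M (nat_lit 12394677460127))))) (T.h (P (nat_lit 0)) (T.h (T.h (P (nat_lit 0)) (P (nat_lit 11099583237568))) (P (nat_lit 0)))))) (T.h (T.h (T.h (P (nat_lit 62786160244)) (T.h (P (nat_lit 0)) (P (nat_lit 1163860095260)))) (T.h (P (nat_lit 0)) (P (nat_lit 56257550636)))) (T.h (T.h (P (nat_lit 0)) (T.h (T.h (P (nat_lit 0)) (M (nat_lit 4364827805715))) (P (nat_lit 0)))) (P (nat_lit 679510214264))))))) (T.h (P (nat_lit 0)) (T.h (T.h (T.h (P (nat_lit 0)) (T.h (T.h (P (nat_lit 0)) (T.h (P (nat_lit 17774541736)) (T.h (P (nat_lit 0)) (T.h (M (nat_lit 664307482971)) (T.h (P (nat_lit 0)) (P (nat_lit 3652817184324))))))) (T.h (P (nat_lit 0)) (T.h (T.h (P (nat_lit 0)) (T.h (P (nat_lit 783439804560)) (T.h (P (nat_lit 0)) (M (nat_lit 8712387362727))))) (T.h (P (nat_lit 0)) (T.h (T.h (P (nat_lit 0)) (M (nat_lit 3823707922047))) (P (nat_lit 0)))))))) (T.h (T.h (T.h (M (nat_lit 702482787)) (T.h (P (nat_lit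 0)) (T.h (M (nat_lit 308750586003)) (T.h (P (nat_lit 0)) (M (nat_lit 3649808930683)))))) (T.h (P (nat_lit 0)) (T.h (T.h (M (nat_lit 428744435615)) (T.h (P (nat_lit 0)) (P (nat_lit 6589698958164)))) (T.h (P (nat_lit 0)) (M (nat_lit 7292786477983)))))) (T.h (T.h (P (nat_lit 0)) (T.h (T.h (P (nat_lit 0)) (T.h (P (nat_lit 2568156610404)) (T.h (P (nat_lit 0)) (P (nat_lit 18734767140208))))) (T.h (P (nat_lit 0)) (T.h (T.h (P (nat_lit 0)) (M (nat_lit 7584436182903))) (P (nat_lit 0)))))) (T.h (T.h (T.h (M (nat_lit 349153738975)) (T.h (P (nat_lit 0)) (P (nat_lit 2245727204560)))) (T.h (P (nat_lit 0)) (P (nat_lit 3971215038840)))) (T.h (T.h (P (nat_lit 0)) (T.h (T.h (P (nat_lit 0)) (P (nat_lit 55574601809608))) (P (nat_lit 0)))) (M (nat_lit 2616508572383))))))) (P (nat_lit 0))))))) (T.h (T.h (P (nat_lit 0)) (T.h (T.h (T.h (T.h (P (nat_lit 0)) (T.h (P (nat_lit 0)) (T.h (M (nat_lit 6977587895)) (T.h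 (P (nat_lit 0)) (T.h (P (nat_lit 257778406920)) (T.h (P (nat_lit 0)) (P (nat_lit 4830152847736)))))))) (T.h (P (nat_lit 0)) (T.h (T.h (M (nat_lit 6977587895)) (T.h (P (nat_lit 0)) (T.h (P (nat_lit 160253677088)) (T.h (P (nat_lit 0)) (M (nat_lit 717501130239)))))) (T.h (P (nat_lit 0)) (T.h (T.h (P (nat_lit 257778406920)) (T.h (P (nat_lit 0)) (M (nat_lit 717501130239)))) (T.h (P (nat_lit 0)) (P (nat_lit 4830152847736)))))))) (T.h (T.h (P (nat_lit 0)) (T.h (T.h (P (nat_lit 0)) (T.h (M (nat_lit 2804739887)) (T.h (P (nat_lit 0)) (P (nat_lit 1075779897416))))) (T.h (P (nat_lit 0)) (T.h (T.h (P (nat_lit 0)) (P (nat_lit 1075779897416))) (P (nat_lit 0)))))) (T.h (T.h (T.h (P (nat_lit 411404864)) (T.h (P (nat_lit 0)) (T.h (M (nat_lit 481133573135)) (T.h (P (nat_lit 0)) (M (nat_lit 246693916023)))))) (T.h (P (nat_lit 0)) (T.h (T.h (M (nat_lit 481133573135)) (T.h (P (nat_lit 0)) (M (nat_lit 318726992175))))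 (T.h (P (nat_lit 0)) (M (nat_lit 246693916023)))))) (T.h (T.h (P (nat_lit 0)) (T.h (T.h (P (nat_lit 0)) (P (nat_lit 47771204320))) (P (nat_lit 0)))) (T.h (T.h (T.h (P (nat_lit 25169333360)) (T.h (P (nat_lit 0)) (P (nat_lit 1607244015232)))) (T.h (P (nat_lit 0)) (P (nat_lit 1607244015232)))) (T.h (P (nat_lit 0)) (P (nat_lit 1000924528624)))))))) (T.h (P (nat_lit 0)) (T.h (T.h (T.h (T.h (P (nat_lit 0)) (T.h (P (nat_lit 0)) (T.h (P (nat_lit 58026059728)) (T.h (P (nat_lit 0)) (T.h (M (nat_lit 858896189955)) (T.h (P (nat_lit 0)) (M (nat_lit 1693123787879)))))))) (T.h (P (nat_lit 0)) (T.h (T.h (M (nat_lit 178523372383)) (T.h (P (nat_lit 0)) (T.h (M (nat_lit 1225068870759)) (T.h (P (nat_lit 0)) (M (nat_lit 2624418182959)))))) (T.h (P (nat_lit 0)) (T.h (T.h (P (nat_lit 1167429508784)) (T.h (P (nat_lit 0)) (M (nat_lit 23132285397759)))) (T.h (P (nat_lit 0)) (M (nat_lit 7565915932679)))))))) (T.h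 (T.h (P (nat_lit 0)) (T.h (T.h (P (nat_lit 0)) (T.h (P (nat_lit 638366107120)) (T.h (P (nat_lit 0)) (P (nat_lit 17650204254088))))) (T.h (P (nat_lit 0)) (T.h (T.h (P (nat_lit 0)) (M (nat_lit 1615607479583))) (P (nat_lit 0)))))) (T.h (T.h (T.h (P (nat_lit 58026059728)) (T.h (P (nat_lit 0)) (T.h (M (nat_lit 3002803078799)) (T.h (P (nat_lit 0)) (M (nat_lit 9640835379671)))))) (T.h (P (nat_lit 0)) (T.h (T.h (M (nat_lit 1225068870759)) (T.h (P (nat_lit 0)) (P (nat_lit 27940564179416)))) (T.h (P (nat_lit 0)) (M (nat_lit 23132285397759)))))) (T.h (T.h (P (nat_lit 0)) (T.h (T.h (P (nat_lit 0)) (P (nat_lit 17650204254088))) (P (nat_lit 0)))) (T.h (T.h (T.h (M (nat_lit 858896189955)) (T.h (P (nat_lit 0)) (M (nat_lit 9640835379671)))) (T.h (P (nat_lit 0)) (M (nat_lit 2624418182959)))) (T.h (P (nat_lit 0)) (M (nat_lit 1693123787879)))))))) (P (nat_lit 0)))))) et1_8))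
def et1_10 : T ℤ := (T.h (T.h (T.h (T.h (P (nat_lit 0)) (T.h (T.h (M (nat_lit 579793471)) (T.h (P (nat_lit 0)) (T.h (P (nat_lit 72282754072)) (T.h (P (nat_lit 0)) (P (nat_lit 153033541076)))))) (T.h (P (nat_lit 0)) (T.h (T.h (P (nat_lit 120833560092)) (T.h (P (nat_lit 0)) (P (nat_lit 3986152091684)))) (T.h (P (nat_lit 0)) (P (nat_lit 1744104809892))))))) (T.h (T.h (T.h (P (nat_lit 0)) (T.h (M (nat_lit 13698061399)) (T.h (P (nat_lit 0)) (T.h (M (nat_lit 535704454663)) (T.h (P (nat_lit 0)) (M (nat_lit 9857134351127))))))) (T.h (P (nat_lit 0)) (T.h (T.h (P (nat_lit 0)) (T.h (M (nat_lit 485327890231)) (T.h (P (nat_lit 0)) (P (nat_lit 9334918948572))))) (T.h (P (nat_lit 0)) (T.h (T.h (P (nat_lit 0)) (M (nat_lit 10088308345923))) (P (nat_lit 0))))))) (T.h (T.h (P (nat_lit 0)) (T.h (T.h (M (nat_lit 105707377155)) (T.h (P (nat_lit 0)) (P (nat_lit 2181708031288)))) (T.h (P (nat_lit 0)) (P (nat_lit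 3819133715372))))) (T.h (T.h (T.h (P (nat_lit 0)) (T.h (P (nat_lit 57851842256)) (T.h (P (nat_lit 0)) (P (nat_lit 6975023039828))))) (T.h (P (nat_lit 0)) (T.h (T.h (P (nat_lit 0)) (M (nat_lit 6355622937031))) (P (nat_lit 0))))) (T.h (T.h (P (nat_lit 0)) (M (nat_lit 134056533359))) (T.h (T.h (T.h (P (nat_lit 0)) (P (nat_lit 5033501168984))) (P (nat_lit 0))) (P (nat_lit 0)))))))) (T.h (P (nat_lit 0)) (T.h (T.h (T.h (P (nat_lit 0)) (T.h (T.h (P (nat_lit 2710684480)) (T.h (P (nat_lit 0)) (T.h (M (nat_lit 319048935407)) (T.h (P (nat_lit 0)) (P (nat_lit 3053262972536)))))) (T.h (P (nat_lit 0)) (T.h (T.h (P (nat_lit 179414124148)) (T.h (P (nat_lit 0)) (M (nat_lit 17983021530795)))) (T.h (P (nat_lit 0)) (M (nat_lit 4029002219843))))))) (T.h (T.h (T.h (P (nat_lit 0)) (T.h (P (nat_lit 74349177140)) (T.h (P (nat_lit 0)) (T.h (M (nat_lit 837190580407)) (T.h (P (nat_lit 0)) (P (nat_lit 839369095040)))))))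 (T.h (P (nat_lit 0)) (T.h (T.h (P (nat_lit 0)) (T.h (M (nat_lit 1597549308767)) (T.h (P (nat_lit 0)) (M (nat_lit 10810495319119))))) (T.h (P (nat_lit 0)) (T.h (T.h (P (nat_lit 0)) (P (nat_lit 500705015412))) (P (nat_lit 0))))))) (T.h (T.h (P (nat_lit 0)) (T.h (T.h (M (nat_lit 370241461827)) (T.h (P (nat_lit 0)) (P (nat_lit 11564338782024)))) (T.h (P (nat_lit 0)) (P (nat_lit 8477898137436))))) (T.h (T.h (T.h (P (nat_lit 0)) (T.h (P (nat_lit 994999042436)) (T.h (P (nat_lit 0)) (M (nat_lit 23183432341299))))) (T.h (P (nat_lit 0)) (T.h (T.h (P (nat_lit 0)) (P (nat_lit 55933458408268))) (P (nat_lit 0))))) (T.h (T.h (P (nat_lit 0)) (P (nat_lit 9722396593028))) (T.h (T.h (T.h (P (nat_lit 0)) (M (nat_lit 35114477525287))) (P (nat_lit 0))) (P (nat_lit 0)))))))) (P (nat_lit 0))))) (T.h (T.h (P (nat_lit 0)) (T.h (T.h (T.h (T.h (P (nat_lit 0)) (T.h (P (nat_lit 2710684480)) (T.h (P (nat_lit 0)) (T.h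 (P (nat_lit 179414124148)) (T.h (P (nat_lit 0)) (M (nat_lit 4029002219843))))))) (T.h (P (nat_lit 0)) (T.h (T.h (P (nat_lit 0)) (T.h (M (nat_lit 319048935407)) (T.h (P (nat_lit 0)) (M (nat_lit 17983021530795))))) (T.h (P (nat_lit 0)) (T.h (T.h (P (nat_lit 0)) (P (nat_lit 3053262972536))) (P (nat_lit 0))))))) (T.h (T.h (P (nat_lit 0)) (T.h (T.h (P (nat_lit 74349177140)) (T.h (P (nat_lit 0)) (T.h (M (nat_lit 1597549308767)) (T.h (P (nat_lit 0)) (P (nat_lit 500705015412)))))) (T.h (P (nat_lit 0)) (T.h (T.h (M (nat_lit 837190580407)) (T.h (P (nat_lit 0)) (M (nat_lit 10810495319119)))) (T.h (P (nat_lit 0)) (P (nat_lit 839369095040))))))) (T.h (T.h (T.h (P (nat_lit 0)) (T.h (M (nat_lit 370241461827)) (T.h (P (nat_lit 0)) (P (nat_lit 8477898137436))))) (T.h (P (nat_lit 0)) (T.h (T.h (P (nat_lit 0)) (P (nat_lit 11564338782024))) (P (nat_lit 0))))) (T.h (T.h (P (nat_lit 0)) (T.h (T.h (P (nat_lit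 994999042436)) (T.h (P (nat_lit 0)) (P (nat_lit 55933458408268)))) (T.h (P (nat_lit 0)) (M (nat_lit 23183432341299))))) (T.h (T.h (T.h (P (nat_lit 0)) (P (nat_lit 9722396593028))) (P (nat_lit 0))) (T.h (T.h (P (nat_lit 0)) (M (nat_lit 35114477525287))) (P (nat_lit 0)))))))) (P (nat_lit 0)))) (T.h (T.h (T.h (T.h (P (nat_lit 0)) (T.h (T.h (M (nat_lit 702482787)) (T.h (P (nat_lit 0)) (T.h (M (nat_lit 428744435615)) (T.h (P (nat_lit 0)) (M (nat_lit 7292786477983)))))) (T.h (P (nat_lit 0)) (T.h (T.h (M (nat_lit 349153738975)) (T.h (P (nat_lit 0)) (P (nat_lit 3971215038840)))) (T.h (P (nat_lit 0)) (M (nat_lit 2616508572383))))))) (T.h (T.h (T.h (P (nat_lit 0)) (T.h (P (nat_lit 17774541736)) (T.h (P (nat_lit 0)) (T.h (P (nat_lit 783439804560)) (T.h (P (nat_lit 0)) (M (nat_lit 3823707922047))))))) (T.h (P (nat_lit 0)) (T.h (T.h (P (nat_lit 0)) (T.h (P (nat_lit 2568156610404)) (T.h (P (nat_lit 0))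 (M (nat_lit 7584436182903))))) (T.h (P (nat_lit 0)) (T.h (T.h (P (nat_lit 0)) (P (nat_lit 55574601809608))) (P (nat_lit 0))))))) (T.h (T.h (P (nat_lit 0)) (T.h (T.h (M (nat_lit 308750586003)) (T.h (P (nat_lit 0)) (P (nat_lit 6589698958164)))) (T.h (P (nat_lit 0)) (P (nat_lit 2245727204560))))) (T.h (T.h (T.h (P (nat_lit 0)) (T.h (M (nat_lit 664307482971)) (T.h (P (nat_lit 0)) (M (nat_lit 8712387362727))))) (T.h (P (nat_lit 0)) (T.h (T.h (P (nat_lit 0)) (P (nat_lit 18734767140208))) (P (nat_lit 0))))) (T.h (T.h (P (nat_lit 0)) (M (nat_lit 3649808930683))) (T.h (T.h (T.h (P (nat_lit 0)) (P (nat_lit 3652817184324))) (P (nat_lit 0))) (P (nat_lit 0)))))))) (P (nat_lit 0))) (P (nat_lit 0)))))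
def et1_11 : T ℤ := (T.h (T.h (T.h (T.h (P (nat_lit 0)) (T.h (T.h (P (nat_lit 0)) (T.h (P (nat_lit 1542420488)) (T.h (P (nat_lit 0)) (T.h (P (nat_lit 1143409201116)) (T.h (P (nat_lit 0)) (P (nat_lit 6786866055228))))))) (T.h (P (nat_lit 0)) (T.h (T.h (P (nat_lit 0)) (T.h (P (nat_lit 1143409201116)) (T.h (P (nat_lit 0)) (P (nat_lit 41450369296840))))) (T.h (P (nat_lit 0)) (T.h (T.h (P (nat_lit 0)) (P (nat_lit 6786866055228))) (P (nat_lit 0)))))))) (T.h (T.h (T.h (M (nat_lit 4344264175)) (T.h (P (nat_lit 0)) (T.h (M (nat_lit 182998891323)) (T.h (P (nat_lit 0)) (M (nat_lit 3013546143815)))))) (T.h (P (nat_lit 0)) (T.h (T.h (M (nat_lit 182998891323)) (T.h (P (nat_lit 0)) (M (nat_lit 995292458271)))) (T.h (P (nat_lit 0)) (M (nat_lit 3013546143815)))))) (T.h (T.h (P (nat_lit 0)) (T.h (T.h (P (nat_lit 0)) (T.h (M (nat_lit 2902668135)) (T.h (P (nat_lit 0)) (M (nat_lit 14078136771851))))) (T.h (P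 (nat_lit 0)) (T.h (T.h (P (nat_lit 0)) (M (nat_lit 14078136771851))) (P (nat_lit 0)))))) (T.h (T.h (T.h (P (nat_lit 16367578120)) (T.h (P (nat_lit 0)) (P (nat_lit 2079003993364)))) (T.h (P (nat_lit 0)) (P (nat_lit 2079003993364)))) (T.h (T.h (P (nat_lit 0)) (T.h (T.h (P (nat_lit 0)) (P (nat_lit 12190171002552))) (P (nat_lit 0)))) (M (nat_lit 298208825527))))))) (T.h (P (nat_lit 0)) (T.h (T.h (T.h (P (nat_lit 0)) (T.h (T.h (P (nat_lit 0)) (T.h (P (nat_lit 24385553668)) (T.h (P (nat_lit 0)) (T.h (M (nat_lit 463292779571)) (T.h (P (nat_lit 0)) (M (nat_lit 9787932556611))))))) (T.h (P (nat_lit 0)) (T.h (T.h (P (nat_lit 0)) (T.h (P (nat_lit 1793276133628)) (T.h (P (nat_lit 0)) (M (nat_lit 62027852269431))))) (T.h (P (nat_lit 0)) (T.h (T.h (P (nat_lit 0)) (M (nat_lit 1599466600675))) (P (nat_lit 0)))))))) (T.h (T.h (T.h (P (nat_lit 3016281492)) (T.h (P (nat_lit 0)) (T.h (M (nat_lit 285084945823))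 (T.h (P (nat_lit 0)) (M (nat_lit 1078106303035)))))) (T.h (P (nat_lit 0)) (T.h (T.h (P (nat_lit 43870626156)) (T.h (P (nat_lit 0)) (M (nat_lit 1534565686107)))) (T.h (P (nat_lit 0)) (P (nat_lit 6139558213628)))))) (T.h (T.h (P (nat_lit 0)) (T.h (T.h (P (nat_lit 0)) (T.h (P (nat_lit 2260828943436)) (T.h (P (nat_lit 0)) (P (nat_lit 27989756136916))))) (T.h (P (nat_lit 0)) (T.h (T.h (P (nat_lit 0)) (M (nat_lit 2756220843991))) (P (nat_lit 0)))))) (T.h (T.h (T.h (P (nat_lit 33617814412)) (T.h (P (nat_lit 0)) (M (nat_lit 2965037139035)))) (T.h (P (nat_lit 0)) (P (nat_lit 466891700912)))) (T.h (T.h (P (nat_lit 0)) (T.h (T.h (P (nat_lit 0)) (M (nat_lit 11751610636583))) (P (nat_lit 0)))) (M (nat_lit 2263130756263))))))) (P (nat_lit 0))))) (T.h (T.h (P (nat_lit 0)) (T.h (T.h (T.h (T.h (P (nat_lit 0)) (T.h (P (nat_lit 0)) (T.h (P (nat_lit 55781748596)) (T.h (P (nat_lit 0)) (T.h (M (nat_lit 1668108100791))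 (T.h (P (nat_lit 0)) (M (nat_lit 5127029677391)))))))) (T.h (P (nat_lit 0)) (T.h (T.h (P (nat_lit 55781748596)) (T.h (P (nat_lit 0)) (T.h (P (nat_lit 584514853216)) (T.h (P (nat_lit 0)) (P (nat_lit 12282664775948)))))) (T.h (P (nat_lit 0)) (T.h (T.h (M (nat_lit 1668108100791)) (T.h (P (nat_lit 0)) (P (nat_lit 12282664775948)))) (T.h (P (nat_lit 0)) (M (nat_lit 5127029677391)))))))) (T.h (T.h (P (nat_lit 0)) (T.h (T.h (P (nat_lit 0)) (T.h (M (nat_lit 500296150423)) (T.h (P (nat_lit 0)) (M (nat_lit 3702200441771))))) (T.h (P (nat_lit 0)) (T.h (T.h (P (nat_lit 0)) (M (nat_lit 3702200441771))) (P (nat_lit 0)))))) (T.h (T.h (T.h (M (nat_lit 31794469447)) (T.h (P (nat_lit 0)) (T.h (P (nat_lit 2948024457224)) (T.h (P (nat_lit 0)) (M (nat_lit 10368940077355)))))) (T.h (P (nat_lit 0)) (T.h (T.h (P (nat_lit 2948024457224)) (T.h (P (nat_lit 0)) (M (nat_lit 7043420710087)))) (T.h (P (nat_lit 0)) (M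 (nat_lit 10368940077355)))))) (T.h (T.h (P (nat_lit 0)) (T.h (T.h (P (nat_lit 0)) (M (nat_lit 9154736251303))) (P (nat_lit 0)))) (T.h (T.h (T.h (P (nat_lit 704145585528)) (T.h (P (nat_lit 0)) (M (nat_lit 26335104501775)))) (T.h (P (nat_lit 0)) (M (nat_lit 26335104501775)))) (T.h (P (nat_lit 0)) (M (nat_lit 556932439783)))))))) (P (nat_lit 0)))) (T.h (T.h (T.h (T.h (P (nat_lit 0)) (T.h (T.h (P (nat_lit 0)) (T.h (P (nat_lit 24385553668)) (T.h (P (nat_lit 0)) (T.h (P (nat_lit 1793276133628)) (T.h (P (nat_lit 0)) (M (nat_lit 1599466600675))))))) (T.h (P (nat_lit 0)) (T.h (T.h (P (nat_lit 0)) (T.h (M (nat_lit 463292779571)) (T.h (P (nat_lit 0)) (M (nat_lit 62027852269431))))) (T.h (P (nat_lit 0)) (T.h (T.h (P (nat_lit 0)) (M (nat_lit 9787932556611))) (P (nat_lit 0)))))))) (T.h (T.h (T.h (P (nat_lit 3016281492)) (T.h (P (nat_lit 0)) (T.h (P (nat_lit 43870626156)) (T.h (P (nat_lit 0)) (P (nat_lit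 6139558213628)))))) (T.h (P (nat_lit 0)) (T.h (T.h (M (nat_lit 285084945823)) (T.h (P (nat_lit 0)) (M (nat_lit 1534565686107)))) (T.h (P (nat_lit 0)) (M (nat_lit 1078106303035)))))) (T.h (T.h (P (nat_lit 0)) (T.h (T.h (P (nat_lit 0)) (T.h (P (nat_lit 2260828943436)) (T.h (P (nat_lit 0)) (M (nat_lit 2756220843991))))) (T.h (P (nat_lit 0)) (T.h (T.h (P (nat_lit 0)) (P (nat_lit 27989756136916))) (P (nat_lit 0)))))) (T.h (T.h (T.h (P (nat_lit 33617814412)) (T.h (P (nat_lit 0)) (P (nat_lit 466891700912)))) (T.h (P (nat_lit 0)) (M (nat_lit 2965037139035)))) (T.h (T.h (P (nat_lit 0)) (T.h (T.h (P (nat_lit 0)) (M (nat_lit 11751610636583))) (P (nat_lit 0)))) (M (nat_lit 2263130756263))))))) (P (nat_lit 0))) (P (nat_lit 0)))))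
def et1_12 : T ℤ := (T.h (T.h (T.h (P (nat_lit 0)) (T.h (T.h (T.h (T.h (P (nat_lit 0)) (T.h (M (nat_lit 455723771)) (T.h (P (nat_lit 0)) (T.h (M (nat_lit 180452210343)) (T.h (P (nat_lit 0)) (M (nat_lit 920326611427))))))) (T.h (P (nat_lit 0)) (T.h (T.h (P (nat_lit 0)) (T.h (P (nat_lit 43031101512)) (T.h (P (nat_lit 0)) (M (nat_lit 5023742826843))))) (T.h (P (nat_lit 0)) (T.h (T.h (P (nat_lit 0)) (P (nat_lit 61582683260))) (P (nat_lit 0))))))) (T.h (T.h (P (nat_lit 0)) (T.h (T.h (P (nat_lit 11284230076)) (T.h (P (nat_lit 0)) (T.h (P (nat_lit 903660829932)) (T.h (P (nat_lit 0)) (P (nat_lit 12155025143968)))))) (T.h (P (nat_lit 0)) (T.h (T.h (P (nat_lit 157022277356)) (T.h (P (nat_lit 0)) (M (nat_lit 17336412767659)))) (T.h (P (nat_lit 0)) (P (nat_lit 6744960748036))))))) (T.h (T.h (T.h (P (nat_lit 0)) (T.h (P (nat_lit 197249309768)) (T.h (P (nat_lit 0)) (M (nat_lit 7139154284331))))) (T.h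 (P (nat_lit 0)) (T.h (T.h (P (nat_lit 0)) (M (nat_lit 5476571620043))) (P (nat_lit 0))))) (T.h (T.h (P (nat_lit 0)) (T.h (T.h (P (nat_lit 244651791244)) (T.h (P (nat_lit 0)) (P (nat_lit 5224192104684)))) (T.h (P (nat_lit 0)) (M (nat_lit 13059861727247))))) (T.h (T.h (T.h (P (nat_lit 0)) (P (nat_lit 2082094321580))) (P (nat_lit 0))) (T.h (T.h (P (nat_lit 0)) (M (nat_lit 5142485173475))) (P (nat_lit 0)))))))) (P (nat_lit 0)))) (T.h (T.h (T.h (T.h (P (nat_lit 0)) (T.h (T.h (M (nat_lit 455723771)) (T.h (P (nat_lit 0)) (T.h (P (nat_lit 43031101512)) (T.h (P (nat_lit 0)) (P (nat_lit 61582683260)))))) (T.h (P (nat_lit 0)) (T.h (T.h (M (nat_lit 180452210343)) (T.h (P (nat_lit 0)) (M (nat_lit 5023742826843)))) (T.h (P (nat_lit 0)) (M (nat_lit 920326611427))))))) (T.h (T.h (T.h (P (nat_lit 0)) (T.h (P (nat_lit 11284230076)) (T.h (P (nat_lit 0)) (T.h (P (nat_lit 157022277356)) (T.h (P (nat_lit 0))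 (P (nat_lit 6744960748036))))))) (T.h (P (nat_lit 0)) (T.h (T.h (P (nat_lit 0)) (T.h (P (nat_lit 903660829932)) (T.h (P (nat_lit 0)) (M (nat_lit 17336412767659))))) (T.h (P (nat_lit 0)) (T.h (T.h (P (nat_lit 0)) (P (nat_lit 12155025143968))) (P (nat_lit 0))))))) (T.h (T.h (P (nat_lit 0)) (T.h (T.h (P (nat_lit 197249309768)) (T.h (P (nat_lit 0)) (M (nat_lit 5476571620043)))) (T.h (P (nat_lit 0)) (M (nat_lit 7139154284331))))) (T.h (T.h (T.h (P (nat_lit 0)) (T.h (P (nat_lit 244651791244)) (T.h (P (nat_lit 0)) (M (nat_lit 13059861727247))))) (T.h (P (nat_lit 0)) (T.h (T.h (P (nat_lit 0)) (P (nat_lit 5224192104684))) (P (nat_lit 0))))) (T.h (T.h (P (nat_lit 0)) (P (nat_lit 2082094321580))) (T.h (T.h (T.h (P (nat_lit 0)) (M (nat_lit 5142485173475))) (P (nat_lit 0))) (P (nat_lit 0)))))))) (P (nat_lit 0))) (P (nat_lit 0)))) (T.h (T.h (T.h (T.h (T.h (P (nat_lit 0)) (T.h (T.h (P (nat_lit 0)) (T.h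 (P (nat_lit 1635588192)) (T.h (P (nat_lit 0)) (T.h (M (nat_lit 1177678171151)) (T.h (P (nat_lit 0)) (M (nat_lit 6727579113471))))))) (T.h (P (nat_lit 0)) (T.h (T.h (P (nat_lit 0)) (T.h (M (nat_lit 1177678171151)) (T.h (P (nat_lit 0)) (M (nat_lit 35372884530031))))) (T.h (P (nat_lit 0)) (T.h (T.h (P (nat_lit 0)) (M (nat_lit 6727579113471))) (P (nat_lit 0)))))))) (T.h (T.h (T.h (P (nat_lit 3592367296)) (T.h (P (nat_lit 0)) (T.h (P (nat_lit 177039372748)) (T.h (P (nat_lit 0)) (P (nat_lit 2468642634276)))))) (T.h (P (nat_lit 0)) (T.h (T.h (P (nat_lit 177039372748)) (T.h (P (nat_lit 0)) (P (nat_lit 912259062568)))) (T.h (P (nat_lit 0)) (P (nat_lit 2468642634276)))))) (T.h (T.h (P (nat_lit 0)) (T.h (T.h (P (nat_lit 0)) (T.h (M (nat_lit 74573587199)) (T.h (P (nat_lit 0)) (P (nat_lit 19102562212188))))) (T.h (P (nat_lit 0)) (T.h (T.h (P (nat_lit 0)) (P (nat_lit 19102562212188))) (P (nat_lit 0))))))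 (T.h (T.h (T.h (M (nat_lit 10500824095)) (T.h (P (nat_lit 0)) (M (nat_lit 2627398556187)))) (T.h (P (nat_lit 0)) (M (nat_lit 2627398556187)))) (T.h (T.h (P (nat_lit 0)) (T.h (T.h (P (nat_lit 0)) (M (nat_lit 23344271304647))) (P (nat_lit 0)))) (P (nat_lit 787046321264))))))) (P (nat_lit 0))) (P (nat_lit 0))) (P (nat_lit 0))))
def et1_13 : T ℤ := (T.h (T.h (T.h (P (nat_lit 0)) (T.h (P (nat_lit 0)) (T.h (P (nat_lit 0)) (T.h (T.h (T.h (T.h (P (nat_lit 0)) (T.h (M (nat_lit 1754862519)) (T.h (P (nat_lit 0)) (T.h (P (nat_lit 62786160244)) (T.h (P (nat_lit 0)) (P (nat_lit 679510214264))))))) (T.h (P (nat_lit 0)) (T.h (T.h (P (nat_lit 0)) (T.h (P (nat_lit 80462194420)) (T.h (P (nat_lit 0)) (P (nat_lit 56257550636))))) (T.h (P (nat_lit 0)) (T.h (T.h (P (nat_lit 0)) (M (nat_lit 231856545083))) (P (nat_lit 0))))))) (T.h (T.h (P (nat_lit 0)) (T.h (T.h (M (nat_lit 20910070759)) (T.h (P (nat_lit 0)) (T.h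 (M (nat_lit 1589910968679)) (T.h (P (nat_lit 0)) (M (nat_lit 4364827805715)))))) (T.h (P (nat_lit 0)) (T.h (T.h (M (nat_lit 647975650827)) (T.h (P (nat_lit 0)) (P (nat_lit 11099583237568)))) (T.h (P (nat_lit 0)) (P (nat_lit 2431640405300))))))) (T.h (T.h (T.h (P (nat_lit 0)) (T.h (P (nat_lit 257433153716)) (T.h (P (nat_lit 0)) (P (nat_lit 1163860095260))))) (T.h (P (nat_lit 0)) (T.h (T.h (P (nat_lit 0)) (M (nat_lit 739850220899))) (P (nat_lit 0))))) (T.h (T.h (P (nat_lit 0)) (T.h (T.h (M (nat_lit 230128153691)) (T.h (P (nat_lit 0)) (M (nat_lit 12394677460127)))) (T.h (P (nat_lit 0)) (P (nat_lit 11872776324316))))) (T.h (T.h (T.h (P (nat_lit 0)) (P (nat_lit 982117332356))) (P (nat_lit 0))) (T.h (T.h (P (nat_lit 0)) (P (nat_lit 4675513752828))) (P (nat_lit 0)))))))) (T.h (P (nat_lit 0)) (T.h (T.h (T.h (T.h (P (nat_lit 0)) (T.h (P (nat_lit 3016281492)) (T.h (P (nat_lit 0)) (T.h (P (nat_lit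 33617814412)) (T.h (P (nat_lit 0)) (M (nat_lit 2263130756263))))))) (T.h (P (nat_lit 0)) (T.h (T.h (P (nat_lit 0)) (T.h (P (nat_lit 43870626156)) (T.h (P (nat_lit 0)) (P (nat_lit 466891700912))))) (T.h (P (nat_lit 0)) (T.h (T.h (P (nat_lit 0)) (P (nat_lit 6139558213628))) (P (nat_lit 0))))))) (T.h (T.h (P (nat_lit 0)) (T.h (T.h (P (nat_lit 24385553668)) (T.h (P (nat_lit 0)) (T.h (P (nat_lit 2260828943436)) (T.h (P (nat_lit 0)) (M (nat_lit 11751610636583)))))) (T.h (P (nat_lit 0)) (T.h (T.h (P (nat_lit 1793276133628)) (T.h (P (nat_lit 0)) (M (nat_lit 2756220843991)))) (T.h (P (nat_lit 0)) (M (nat_lit 1599466600675))))))) (T.h (T.h (T.h (P (nat_lit 0)) (T.h (M (nat_lit 285084945823)) (T.h (P (nat_lit 0)) (M (nat_lit 2965037139035))))) (T.h (P (nat_lit 0)) (T.h (T.h (P (nat_lit 0)) (M (nat_lit 1534565686107))) (P (nat_lit 0))))) (T.h (T.h (P (nat_lit 0)) (T.h (T.h (M (nat_lit 463292779571))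 (T.h (P (nat_lit 0)) (P (nat_lit 27989756136916)))) (T.h (P (nat_lit 0)) (M (nat_lit 62027852269431))))) (T.h (T.h (T.h (P (nat_lit 0)) (M (nat_lit 1078106303035))) (P (nat_lit 0))) (T.h (T.h (P (nat_lit 0)) (M (nat_lit 9787932556611))) (P (nat_lit 0)))))))) (P (nat_lit 0)))))))) et1_7) (T.h et1_9 (T.h (T.h (T.h (P (nat_lit 0)) (T.h (T.h (T.h (T.h (P (nat_lit 0)) (T.h (M (nat_lit 579793471)) (T.h (P (nat_lit 0)) (T.h (P (nat_lit 120833560092)) (T.h (P (nat_lit 0)) (P (nat_lit 1744104809892))))))) (T.h (P (nat_lit 0)) (T.h (T.h (P (nat_lit 0)) (T.h (P (nat_lit 72282754072)) (T.h (P (nat_lit 0)) (P (nat_lit 3986152091684))))) (T.h (P (nat_lit 0)) (T.h (T.h (P (nat_lit 0)) (P (nat_lit 153033541076))) (P (nat_lit 0))))))) (T.h (T.h (P (nat_lit 0)) (T.h (T.h (M (nat_lit 13698061399)) (T.h (P (nat_lit 0)) (T.h (M (nat_lit 485327890231)) (T.h (P (nat_lit 0)) (M (nat_lit 10088308345923)))))) (T.h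 (P (nat_lit 0)) (T.h (T.h (M (nat_lit 535704454663)) (T.h (P (nat_lit 0)) (P (nat_lit 9334918948572)))) (T.h (P (nat_lit 0)) (M (nat_lit 9857134351127))))))) (T.h (T.h (T.h (P (nat_lit 0)) (T.h (M (nat_lit 105707377155)) (T.h (P (nat_lit 0)) (P (nat_lit 3819133715372))))) (T.h (P (nat_lit 0)) (T.h (T.h (P (nat_lit 0)) (P (nat_lit 2181708031288))) (P (nat_lit 0))))) (T.h (T.h (P (nat_lit 0)) (T.h (T.h (P (nat_lit 57851842256)) (T.h (P (nat_lit 0)) (M (nat_lit 6355622937031)))) (T.h (P (nat_lit 0)) (P (nat_lit 6975023039828))))) (T.h (T.h (T.h (P (nat_lit 0)) (M (nat_lit 134056533359))) (P (nat_lit 0))) (T.h (T.h (P (nat_lit 0)) (P (nat_lit 5033501168984))) (P (nat_lit 0)))))))) (T.h (P (nat_lit 0)) (T.h (T.h (T.h (T.h (P (nat_lit 0)) (T.h (M (nat_lit 702482787)) (T.h (P (nat_lit 0)) (T.h (M (nat_lit 349153738975)) (T.h (P (nat_lit 0)) (M (nat_lit 2616508572383))))))) (T.h (P (nat_lit 0))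 (T.h (T.h (P (nat_lit 0)) (T.h (M (nat_lit 428744435615)) (T.h (P (nat_lit 0)) (P (nat_lit 3971215038840))))) (T.h (P (nat_lit 0)) (T.h (T.h (P (nat_lit 0)) (M (nat_lit 7292786477983))) (P (nat_lit 0))))))) (T.h (T.h (P (nat_lit 0)) (T.h (T.h (P (nat_lit 17774541736)) (T.h (P (nat_lit 0)) (T.h (P (nat_lit 2568156610404)) (T.h (P (nat_lit 0)) (P (nat_lit 55574601809608)))))) (T.h (P (nat_lit 0)) (T.h (T.h (P (nat_lit 783439804560)) (T.h (P (nat_lit 0)) (M (nat_lit 7584436182903)))) (T.h (P (nat_lit 0)) (M (nat_lit 3823707922047))))))) (T.h (T.h (T.h (P (nat_lit 0)) (T.h (M (nat_lit 308750586003)) (T.h (P (nat_lit 0)) (P (nat_lit 2245727204560))))) (T.h (P (nat_lit 0)) (T.h (T.h (P (nat_lit 0)) (P (nat_lit 6589698958164))) (P (nat_lit 0))))) (T.h (T.h (P (nat_lit 0)) (T.h (T.h (M (nat_lit 664307482971)) (T.h (P (nat_lit 0)) (P (nat_lit 18734767140208)))) (T.h (P (nat_lit 0)) (M (nat_lit 8712387362727)))))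 (T.h (T.h (T.h (P (nat_lit 0)) (M (nat_lit 3649808930683))) (P (nat_lit 0))) (T.h (T.h (P (nat_lit 0)) (P (nat_lit 3652817184324))) (P (nat_lit 0)))))))) (P (nat_lit 0)))))) et1_10) (T.h et1_11 et1_12))))

def t1 : T ℤ := (T.h (T.h (T.h (P (nat_lit 0)) (T.h (P (nat_lit 0)) (T.h (P (nat_lit 0)) (T.h (P (nat_lit 0)) (T.h (P (nat_lit 0)) (T.h (T.h (T.h (T.h (P (nat_lit 0)) (T.h (M (nat_lit 4344264175)) (T.h (P (nat_lit 0)) (T.h (P (nat_lit 16367578120)) (T.h (P (nat_lit 0)) (M (nat_lit 298208825527))))))) (T.h (P (nat_lit 0)) (T.h (T.h (P (nat_lit 0)) (T.h (M (nat_lit 182998891323)) (T.h (P (nat_lit 0)) (P (nat_lit 2079003993364))))) (T.h (P (nat_lit 0)) (T.h (T.h (P (nat_lit 0)) (M (nat_lit 3013546143815))) (P (nat_lit 0))))))) (T.h (T.h (P (nat_lit 0)) (T.h (T.h (P (nat_lit 1542420488)) (T.h (P (nat_lit 0)) (T.h (M (nat_lit 2902668135)) (T.h (P (nat_lit 0)) (P (nat_lit 12190171002552))))))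 (T.h (P (nat_lit 0)) (T.h (T.h (P (nat_lit 1143409201116)) (T.h (P (nat_lit 0)) (M (nat_lit 14078136771851)))) (T.h (P (nat_lit 0)) (P (nat_lit 6786866055228))))))) (T.h (T.h (T.h (P (nat_lit 0)) (T.h (M (nat_lit 182998891323)) (T.h (P (nat_lit 0)) (P (nat_lit 2079003993364))))) (T.h (P (nat_lit 0)) (T.h (T.h (P (nat_lit 0)) (M (nat_lit 995292458271))) (P (nat_lit 0))))) (T.h (T.h (P (nat_lit 0)) (T.h (T.h (P (nat_lit 1143409201116)) (T.h (P (nat_lit 0)) (M (nat_lit 14078136771851)))) (T.h (P (nat_lit 0)) (P (nat_lit 41450369296840))))) (T.h (T.h (T.h (P (nat_lit 0)) (M (nat_lit 3013546143815))) (P (nat_lit 0))) (T.h (T.h (P (nat_lit 0)) (P (nat_lit 6786866055228))) (P (nat_lit 0)))))))) (T.h (P (nat_lit 0)) (T.h (T.h (T.h (T.h (P (nat_lit 0)) (T.h (P (nat_lit 3592367296)) (T.h (P (nat_lit 0)) (T.h (M (nat_lit 10500824095)) (T.h (P (nat_lit 0)) (P (nat_lit 787046321264))))))) (T.h (P (nat_lit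 0)) (T.h (T.h (P (nat_lit 0)) (T.h (P (nat_lit 177039372748)) (T.h (P (nat_lit 0)) (M (nat_lit 2627398556187))))) (T.h (P (nat_lit 0)) (T.h (T.h (P (nat_lit 0)) (P (nat_lit 2468642634276))) (P (nat_lit 0))))))) (T.h (T.h (P (nat_lit 0)) (T.h (T.h (P (nat_lit 1635588192)) (T.h (P (nat_lit 0)) (T.h (M (nat_lit 74573587199)) (T.h (P (nat_lit 0)) (M (nat_lit 23344271304647)))))) (T.h (P (nat_lit 0)) (T.h (T.h (M (nat_lit 1177678171151)) (T.h (P (nat_lit 0)) (P (nat_lit 19102562212188)))) (T.h (P (nat_lit 0)) (M (nat_lit 6727579113471))))))) (T.h (T.h (T.h (P (nat_lit 0)) (T.h (P (nat_lit 177039372748)) (T.h (P (nat_lit 0)) (M (nat_lit 2627398556187))))) (T.h (P (nat_lit 0)) (T.h (T.h (P (nat_lit 0)) (P (nat_lit 912259062568))) (P (nat_lit 0))))) (T.h (T.h (P (nat_lit 0)) (T.h (T.h (M (nat_lit 1177678171151)) (T.h (P (nat_lit 0)) (P (nat_lit 19102562212188)))) (T.h (P (nat_lit 0)) (M (nat_lit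 35372884530031))))) (T.h (T.h (T.h (P (nat_lit 0)) (P (nat_lit 2468642634276))) (P (nat_lit 0))) (T.h (T.h (P (nat_lit 0)) (M (nat_lit 6727579113471))) (P (nat_lit 0)))))))) (P (nat_lit 0)))))))))) et1_2) (T.h et1_5 et1_13))

theorem h_t1 : chkT (c.G g1) t1 = true := by decide +kernel


end Pool.Agent.TOPR.R6109
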