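import Pool.Agent.TOPR.R6109.Cert

set_option autoImplicit false
set_option linter.all false
set_option maxRecDepth 100000

namespace Pool.Agent.TOPR.R6109

open Helper10.PC hiding V3
open Helper80.CW.DL Pool.Agent.Helper6.TOP

def et2_0 : T ℤ := (T.h (T.h (P (nat_lit 0)) (T.h (T.h (T.h (P (nat_lit 0)) (T.h (T.h (P (nat_lit 0)) (T.h (M (nat_lit 88381836715)) (T.h (P (nat_lit 0)) (M (nat_lit 102349570623))))) (T.h (P (nat_lit 0)) (T.h (T.h (P (nat_lit 0)) (M (nat_lit 454938147595))) (P (nat_lit 0)))))) (T.h (T.h (T.h (M (nat_lit 1192928711)) (T.h (P (nat_lit 0)) (T.h (P (nat_lit 450036264312)) (T.h (P (nat_lit 0)) (P (nat_lit 2356344339528)))))) (T.h (P (nat_lit 0)) (T.h (T.h (M (nat_lit 161115224011)) (T.h (P (nat_lit 0)) (M (nat_lit 1899435808091)))) (T.h (P (nat_lit 0)) (P (nat_lit 8416866220116)))))) (T.h (T.h (P (nat_lit 0)) (T.h (T.h (P (nat_lit 0)) (P (nat_lit 943263233584))) (P (nat_lit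 0)))) (T.h (T.h (T.h (P (nat_lit 127141490632)) (T.h (P (nat_lit 0)) (P (nat_lit 19344876059712)))) (T.h (P (nat_lit 0)) (P (nat_lit 1375382695752)))) (T.h (P (nat_lit 0)) (M (nat_lit 649350780143))))))) (T.h (P (nat_lit 0)) (T.h (T.h (T.h (P (nat_lit 0)) (T.h (T.h (P (nat_lit 0)) (T.h (M (nat_lit 169667294807)) (T.h (P (nat_lit 0)) (P (nat_lit 25575599568))))) (T.h (P (nat_lit 0)) (T.h (T.h (P (nat_lit 0)) (M (nat_lit 2932758571543))) (P (nat_lit 0)))))) (T.h (T.h (T.h (P (nat_lit 6022870772)) (T.h (P (nat_lit 0)) (T.h (P (nat_lit 168325467384)) (T.h (P (nat_lit 0)) (P (nat_lit 947848432364)))))) (T.h (P (nat_lit 0)) (T.h (T.h (P (nat_lit 38272356360)) (T.h (P (nat_lit 0)) (P (nat_lit 20024795690196)))) (T.h (P (nat_lit 0)) (P (nat_lit 930353612148)))))) (T.h (T.h (P (nat_lit 0)) (T.h (T.h (P (nat_lit 0)) (P (nat_lit 1444323792016))) (P (nat_lit 0)))) (T.h (T.h (T.h (P (nat_lit 368102276884))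 (T.h (P (nat_lit 0)) (M (nat_lit 27666856141599)))) (T.h (P (nat_lit 0)) (M (nat_lit 4127626133167)))) (T.h (P (nat_lit 0)) (M (nat_lit 774739217531))))))) (P (nat_lit 0)))))) (T.h (T.h (T.h (T.h (T.h (P (nat_lit 587805808)) (T.h (P (nat_lit 0)) (T.h (M (nat_lit 25761194947)) (T.h (P (nat_lit 0)) (M (nat_lit 316214089251)))))) (T.h (P (nat_lit 0)) (T.h (T.h (P (nat_lit 5729927896)) (T.h (P (nat_lit 0)) (P (nat_lit 1117800092072)))) (T.h (P (nat_lit 0)) (M (nat_lit 592447883759)))))) (T.h (T.h (P (nat_lit 0)) (T.h (T.h (P (nat_lit 0)) (T.h (M (nat_lit 34535916143)) (T.h (P (nat_lit 0)) (M (nat_lit 4608702110903))))) (T.h (P (nat_lit 0)) (T.h (T.h (P (nat_lit 0)) (P (nat_lit 14485146854592))) (P (nat_lit 0)))))) (T.h (T.h (T.h (M (nat_lit 25761194947)) (T.h (P (nat_lit 0)) (M (nat_lit 265709111823)))) (T.h (P (nat_lit 0)) (P (nat_lit 1117800092072)))) (T.h (T.h (P (nat_lit 0)) (T.h (T.h (P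 (nat_lit 0)) (M (nat_lit 4608702110903))) (P (nat_lit 0)))) (M (nat_lit 316214089251)))))) (T.h (P (nat_lit 0)) (T.h (T.h (T.h (T.h (P (nat_lit 365793960)) (T.h (P (nat_lit 0)) (T.h (M (nat_lit 118063082407)) (T.h (P (nat_lit 0)) (M (nat_lit 811391337167)))))) (T.h (P (nat_lit 0)) (T.h (T.h (P (nat_lit 42586107572)) (T.h (P (nat_lit 0)) (M (nat_lit 4330367752871)))) (T.h (P (nat_lit 0)) (M (nat_lit 1319079922819)))))) (T.h (T.h (P (nat_lit 0)) (T.h (T.h (P (nat_lit 0)) (T.h (P (nat_lit 904139935248)) (T.h (P (nat_lit 0)) (P (nat_lit 14942801835672))))) (T.h (P (nat_lit 0)) (T.h (T.h (P (nat_lit 0)) (M (nat_lit 5222579762423))) (P (nat_lit 0)))))) (T.h (T.h (T.h (P (nat_lit 12414532524)) (T.h (P (nat_lit 0)) (M (nat_lit 2372256309519)))) (T.h (P (nat_lit 0)) (M (nat_lit 582270931043)))) (T.h (T.h (P (nat_lit 0)) (T.h (T.h (P (nat_lit 0)) (M (nat_lit 5740752460471))) (P (nat_lit 0)))) (P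 (nat_lit 885877270984)))))) (P (nat_lit 0))))) (T.h (T.h (P (nat_lit 0)) (T.h (T.h (T.h (P (nat_lit 0)) (T.h (T.h (P (nat_lit 0)) (T.h (P (nat_lit 106939623576)) (T.h (P (nat_lit 0)) (M (nat_lit 629105433079))))) (T.h (P (nat_lit 0)) (T.h (T.h (P (nat_lit 0)) (P (nat_lit 439082881992))) (P (nat_lit 0)))))) (T.h (T.h (T.h (P (nat_lit 1845688324)) (T.h (P (nat_lit 0)) (T.h (M (nat_lit 375624811931)) (T.h (P (nat_lit 0)) (M (nat_lit 3068981489055)))))) (T.h (P (nat_lit 0)) (T.h (T.h (P (nat_lit 94197398076)) (T.h (P (nat_lit 0)) (P (nat_lit 10425751850088)))) (T.h (P (nat_lit 0)) (M (nat_lit 7008099596003)))))) (T.h (T.h (P (nat_lit 0)) (T.h (T.h (P (nat_lit 0)) (M (nat_lit 1304089302135))) (P (nat_lit 0)))) (T.h (T.h (T.h (M (nat_lit 145807984827)) (T.h (P (nat_lit 0)) (M (nat_lit 17636438051107)))) (T.h (P (nat_lit 0)) (M (nat_lit 2868146138507)))) (T.h (P (nat_lit 0)) (P (nat_lit 2483090652)))))))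 (P (nat_lit 0)))) (T.h (T.h (T.h (T.h (T.h (P (nat_lit 513195328)) (T.h (P (nat_lit 0)) (T.h (P (nat_lit 25291338964)) (T.h (P (nat_lit 0)) (P (nat_lit 352663233468)))))) (T.h (P (nat_lit 0)) (T.h (T.h (M (nat_lit 4500353183)) (T.h (P (nat_lit 0)) (M (nat_lit 1126027952651)))) (T.h (P (nat_lit 0)) (P (nat_lit 562175943760)))))) (T.h (T.h (P (nat_lit 0)) (T.h (T.h (P (nat_lit 0)) (T.h (M (nat_lit 21306739199)) (T.h (P (nat_lit 0)) (P (nat_lit 5457874917768))))) (T.h (P (nat_lit 0)) (T.h (T.h (P (nat_lit 0)) (M (nat_lit 13339583602655))) (P (nat_lit 0)))))) (T.h (T.h (T.h (P (nat_lit 25291338964)) (T.h (P (nat_lit 0)) (P (nat_lit 130322723224)))) (T.h (P (nat_lit 0)) (M (nat_lit 1126027952651)))) (T.h (T.h (P (nat_lit 0)) (T.h (T.h (P (nat_lit 0)) (P (nat_lit 5457874917768))) (P (nat_lit 0)))) (P (nat_lit 352663233468)))))) (P (nat_lit 0))) (P (nat_lit 0))))))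
def et2_1 : T ℤ := (T.h (T.h (P (nat_lit 0)) (T.h (P (nat_lit 0)) (T.h (P (nat_lit 0)) (T.h (P (nat_lit 0)) (T.h (T.h (T.h (T.h (P (nat_lit 3147696948)) (T.h (P (nat_lit 0)) (T.h (M (nat_lit 16459071803)) (T.h (P (nat_lit 0)) (P (nat_lit 985883581332)))))) (T.h (P (nat_lit 0)) (T.h (T.h (P (nat_lit 117765816400)) (T.h (P (nat_lit 0)) (M (nat_lit 1235062876259)))) (T.h (P (nat_lit 0)) (P (nat_lit 2156130625160)))))) (T.h (T.h (P (nat_lit 0)) (T.h (T.h (P (nat_lit 0)) (T.h (M (nat_lit 174455711479)) (T.h (P (nat_lit 0)) (P (nat_lit 918026451392))))) (T.h (P (nat_lit 0)) (T.h (T.h (P (nat_lit 0)) (M (nat_lit 8462011939007))) (P (nat_lit 0)))))) (T.h (T.h (T.h (M (nat_lit 6074878675)) (T.h (P (nat_lit 0)) (P (nat_lit 1026660809408)))) (T.h (P (nat_lit 0)) (P (nat_lit 2261696766132)))) (T.h (T.h (P (nat_lit 0)) (T.h (T.h (P (nat_lit 0)) (P (nat_lit 4515633972144))) (P (nat_lit 0)))) (M (nat_lit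 424250730151)))))) (T.h (P (nat_lit 0)) (T.h (T.h (T.h (T.h (P (nat_lit 365793960)) (T.h (P (nat_lit 0)) (T.h (P (nat_lit 42586107572)) (T.h (P (nat_lit 0)) (M (nat_lit 1319079922819)))))) (T.h (P (nat_lit 0)) (T.h (T.h (M (nat_lit 118063082407)) (T.h (P (nat_lit 0)) (M (nat_lit 4330367752871)))) (T.h (P (nat_lit 0)) (M (nat_lit 811391337167)))))) (T.h (T.h (P (nat_lit 0)) (T.h (T.h (P (nat_lit 0)) (T.h (P (nat_lit 904139935248)) (T.h (P (nat_lit 0)) (M (nat_lit 5222579762423))))) (T.h (P (nat_lit 0)) (T.h (T.h (P (nat_lit 0)) (P (nat_lit 14942801835672))) (P (nat_lit 0)))))) (T.h (T.h (T.h (P (nat_lit 12414532524)) (T.h (P (nat_lit 0)) (M (nat_lit 582270931043)))) (T.h (P (nat_lit 0)) (M (nat_lit 2372256309519)))) (T.h (T.h (P (nat_lit 0)) (T.h (T.h (P (nat_lit 0)) (M (nat_lit 5740752460471))) (P (nat_lit 0)))) (P (nat_lit 885877270984)))))) (P (nat_lit 0))))))))) (T.h (T.h (P (nat_lit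 0)) (T.h (P (nat_lit 0)) (T.h (P (nat_lit 0)) (T.h (T.h (T.h (P (nat_lit 0)) (T.h (T.h (P (nat_lit 0)) (T.h (P (nat_lit 108055855752)) (T.h (P (nat_lit 0)) (M (nat_lit 3019016568599))))) (T.h (P (nat_lit 0)) (T.h (T.h (P (nat_lit 0)) (M (nat_lit 3019016568599))) (P (nat_lit 0)))))) (T.h (T.h (T.h (M (nat_lit 2031876839)) (T.h (P (nat_lit 0)) (T.h (M (nat_lit 401236166411)) (T.h (P (nat_lit 0)) (M (nat_lit 9917824041891)))))) (T.h (P (nat_lit 0)) (T.h (T.h (M (nat_lit 401236166411)) (T.h (P (nat_lit 0)) (M (nat_lit 6498869996175)))) (T.h (P (nat_lit 0)) (M (nat_lit 9917824041891)))))) (T.h (T.h (P (nat_lit 0)) (T.h (T.h (P (nat_lit 0)) (M (nat_lit 3932021928103))) (P (nat_lit 0)))) (T.h (T.h (T.h (M (nat_lit 368550455)) (T.h (P (nat_lit 0)) (M (nat_lit 1260390453595)))) (T.h (P (nat_lit 0)) (M (nat_lit 1260390453595)))) (T.h (P (nat_lit 0)) (P (nat_lit 3605496764048))))))) (T.h (P (nat_lit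 0)) (T.h (T.h (T.h (P (nat_lit 0)) (T.h (T.h (P (nat_lit 0)) (T.h (M (nat_lit 169667294807)) (T.h (P (nat_lit 0)) (M (nat_lit 2932758571543))))) (T.h (P (nat_lit 0)) (T.h (T.h (P (nat_lit 0)) (P (nat_lit 25575599568))) (P (nat_lit 0)))))) (T.h (T.h (T.h (P (nat_lit 6022870772)) (T.h (P (nat_lit 0)) (T.h (P (nat_lit 38272356360)) (T.h (P (nat_lit 0)) (P (nat_lit 930353612148)))))) (T.h (P (nat_lit 0)) (T.h (T.h (P (nat_lit 168325467384)) (T.h (P (nat_lit 0)) (P (nat_lit 20024795690196)))) (T.h (P (nat_lit 0)) (P (nat_lit 947848432364)))))) (T.h (T.h (P (nat_lit 0)) (T.h (T.h (P (nat_lit 0)) (P (nat_lit 1444323792016))) (P (nat_lit 0)))) (T.h (T.h (T.h (P (nat_lit 368102276884)) (T.h (P (nat_lit 0)) (M (nat_lit 4127626133167)))) (T.h (P (nat_lit 0)) (M (nat_lit 27666856141599)))) (T.h (P (nat_lit 0)) (M (nat_lit 774739217531))))))) (P (nat_lit 0)))))))) (T.h (T.h (P (nat_lit 0)) (T.h (P (nat_lit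 0)) (T.h (T.h (T.h (T.h (P (nat_lit 3147696948)) (T.h (P (nat_lit 0)) (T.h (P (nat_lit 117765816400)) (T.h (P (nat_lit 0)) (P (nat_lit 2156130625160)))))) (T.h (P (nat_lit 0)) (T.h (T.h (M (nat_lit 16459071803)) (T.h (P (nat_lit 0)) (M (nat_lit 1235062876259)))) (T.h (P (nat_lit 0)) (P (nat_lit 985883581332)))))) (T.h (T.h (P (nat_lit 0)) (T.h (T.h (P (nat_lit 0)) (T.h (M (nat_lit 174455711479)) (T.h (P (nat_lit 0)) (M (nat_lit 8462011939007))))) (T.h (P (nat_lit 0)) (T.h (T.h (P (nat_lit 0)) (P (nat_lit 918026451392))) (P (nat_lit 0)))))) (T.h (T.h (T.h (M (nat_lit 6074878675)) (T.h (P (nat_lit 0)) (P (nat_lit 2261696766132)))) (T.h (P (nat_lit 0)) (P (nat_lit 1026660809408)))) (T.h (T.h (P (nat_lit 0)) (T.h (T.h (P (nat_lit 0)) (P (nat_lit 4515633972144))) (P (nat_lit 0)))) (M (nat_lit 424250730151)))))) (T.h (P (nat_lit 0)) (T.h (T.h (T.h (T.h (M (nat_lit 200709367)) (T.h (P (nat_lit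 0)) (T.h (M (nat_lit 193744543275)) (T.h (P (nat_lit 0)) (M (nat_lit 2390335970371)))))) (T.h (P (nat_lit 0)) (T.h (T.h (M (nat_lit 193744543275)) (T.h (P (nat_lit 0)) (P (nat_lit 1924909032480)))) (T.h (P (nat_lit 0)) (M (nat_lit 2390335970371)))))) (T.h (T.h (P (nat_lit 0)) (T.h (T.h (P (nat_lit 0)) (T.h (P (nat_lit 1467518063088)) (T.h (P (nat_lit 0)) (P (nat_lit 37109705931264))))) (T.h (P (nat_lit 0)) (T.h (T.h (P (nat_lit 0)) (P (nat_lit 37109705931264))) (P (nat_lit 0)))))) (T.h (T.h (T.h (M (nat_lit 122498410175)) (T.h (P (nat_lit 0)) (P (nat_lit 2643334867812)))) (T.h (P (nat_lit 0)) (P (nat_lit 2643334867812)))) (T.h (T.h (P (nat_lit 0)) (T.h (T.h (P (nat_lit 0)) (M (nat_lit 4333963533087))) (P (nat_lit 0)))) (M (nat_lit 2083653279423)))))) (P (nat_lit 0))))))) et2_0)))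
def et2_2 : T ℤ := (T.h (T.h (P (nat_lit 0)) (T.h (P (nat_lit 0)) (T.h (P (nat_lit 0)) (T.h (P (nat_lit 0)) (T.h (P (nat_lit 0)) (T.h (P (nat_lit 0)) (T.h (T.h (T.h (T.h (P (nat_lit 587805808)) (T.h (P (nat_lit 0)) (T.h (P (nat_lit 5729927896)) (T.h (P (nat_lit 0)) (M (nat_lit 592447883759)))))) (T.h (P (nat_lit 0)) (T.h (T.h (M (nat_lit 25761194947)) (T.h (P (nat_lit 0)) (P (nat_lit 1117800092072)))) (T.h (P (nat_lit 0)) (M (nat_lit 316214089251)))))) (T.h (T.h (P (nat_lit 0)) (T.h (T.h (P (nat_lit 0)) (T.h (M (nat_lit 34535916143)) (T.h (P (nat_lit 0)) (P (nat_lit 14485146854592))))) (T.h (P (nat_lit 0)) (T.h (T.h (P (nat_lit 0)) (M (nat_lit 4608702110903))) (P (nat_lit 0)))))) (T.h (T.h (T.h (M (nat_lit 25761194947)) (T.h (P (nat_lit 0)) (P (nat_lit 1117800092072)))) (T.h (P (nat_lit 0)) (M (nat_lit 265709111823)))) (T.h (T.h (P (nat_lit 0)) (T.h (T.h (P (nat_lit 0)) (M (nat_lit 4608702110903)))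 (P (nat_lit 0)))) (M (nat_lit 316214089251)))))) (T.h (P (nat_lit 0)) (T.h (T.h (T.h (T.h (P (nat_lit 513195328)) (T.h (P (nat_lit 0)) (T.h (M (nat_lit 4500353183)) (T.h (P (nat_lit 0)) (P (nat_lit 562175943760)))))) (T.h (P (nat_lit 0)) (T.h (T.h (P (nat_lit 25291338964)) (T.h (P (nat_lit 0)) (M (nat_lit 1126027952651)))) (T.h (P (nat_lit 0)) (P (nat_lit 352663233468)))))) (T.h (T.h (P (nat_lit 0)) (T.h (T.h (P (nat_lit 0)) (T.h (M (nat_lit 21306739199)) (T.h (P (nat_lit 0)) (M (nat_lit 13339583602655))))) (T.h (P (nat_lit 0)) (T.h (T.h (P (nat_lit 0)) (P (nat_lit 5457874917768))) (P (nat_lit 0)))))) (T.h (T.h (T.h (P (nat_lit 25291338964)) (T.h (P (nat_lit 0)) (M (nat_lit 1126027952651)))) (T.h (P (nat_lit 0)) (P (nat_lit 130322723224)))) (T.h (T.h (P (nat_lit 0)) (T.h (T.h (P (nat_lit 0)) (P (nat_lit 5457874917768))) (P (nat_lit 0)))) (P (nat_lit 352663233468)))))) (P (nat_lit 0)))))))))))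 (T.h (T.h (P (nat_lit 0)) (T.h (P (nat_lit 0)) (T.h (P (nat_lit 0)) (T.h (P (nat_lit 0)) (T.h (P (nat_lit 0)) (T.h (T.h (T.h (P (nat_lit 0)) (T.h (T.h (P (nat_lit 0)) (T.h (M (nat_lit 88381836715)) (T.h (P (nat_lit 0)) (M (nat_lit 454938147595))))) (T.h (P (nat_lit 0)) (T.h (T.h (P (nat_lit 0)) (M (nat_lit 102349570623))) (P (nat_lit 0)))))) (T.h (T.h (T.h (M (nat_lit 1192928711)) (T.h (P (nat_lit 0)) (T.h (M (nat_lit 161115224011)) (T.h (P (nat_lit 0)) (P (nat_lit 8416866220116)))))) (T.h (P (nat_lit 0)) (T.h (T.h (P (nat_lit 450036264312)) (T.h (P (nat_lit 0)) (M (nat_lit 1899435808091)))) (T.h (P (nat_lit 0)) (P (nat_lit 2356344339528)))))) (T.h (T.h (P (nat_lit 0)) (T.h (T.h (P (nat_lit 0)) (P (nat_lit 943263233584))) (P (nat_lit 0)))) (T.h (T.h (T.h (P (nat_lit 127141490632)) (T.h (P (nat_lit 0)) (P (nat_lit 1375382695752)))) (T.h (P (nat_lit 0)) (P (nat_lit 19344876059712)))) (T.h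 (P (nat_lit 0)) (M (nat_lit 649350780143))))))) (T.h (P (nat_lit 0)) (T.h (T.h (T.h (P (nat_lit 0)) (T.h (T.h (P (nat_lit 0)) (T.h (P (nat_lit 106939623576)) (T.h (P (nat_lit 0)) (P (nat_lit 439082881992))))) (T.h (P (nat_lit 0)) (T.h (T.h (P (nat_lit 0)) (M (nat_lit 629105433079))) (P (nat_lit 0)))))) (T.h (T.h (T.h (P (nat_lit 1845688324)) (T.h (P (nat_lit 0)) (T.h (P (nat_lit 94197398076)) (T.h (P (nat_lit 0)) (M (nat_lit 7008099596003)))))) (T.h (P (nat_lit 0)) (T.h (T.h (M (nat_lit 375624811931)) (T.h (P (nat_lit 0)) (P (nat_lit 10425751850088)))) (T.h (P (nat_lit 0)) (M (nat_lit 3068981489055)))))) (T.h (T.h (P (nat_lit 0)) (T.h (T.h (P (nat_lit 0)) (M (nat_lit 1304089302135))) (P (nat_lit 0)))) (T.h (T.h (T.h (M (nat_lit 145807984827)) (T.h (P (nat_lit 0)) (M (nat_lit 2868146138507)))) (T.h (P (nat_lit 0)) (M (nat_lit 17636438051107)))) (T.h (P (nat_lit 0)) (P (nat_lit 2483090652)))))))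 (P (nat_lit 0)))))))))) et2_1))
def et2_3 : T ℤ := (T.h (T.h (T.h (T.h (T.h (P (nat_lit 0)) (T.h (M (nat_lit 1192928711)) (T.h (P (nat_lit 0)) (T.h (P (nat_lit 127141490632)) (T.h (P (nat_lit 0)) (M (nat_lit 649350780143))))))) (T.h (P (nat_lit 0)) (T.h (T.h (P (nat_lit 0)) (T.h (M (nat_lit 161115224011)) (T.h (P (nat_lit 0)) (P (nat_lit 1375382695752))))) (T.h (P (nat_lit 0)) (T.h (T.h (P (nat_lit 0)) (P (nat_lit 8416866220116))) (P (nat_lit 0))))))) (T.h (T.h (P (nat_lit 0)) (T.h (T.h (M (nat_lit 88381836715)) (T.h (P (nat_lit 0)) (P (nat_lit 943263233584)))) (T.h (P (nat_lit 0)) (M (nat_lit 454938147595))))) (T.h (T.h (T.h (P (nat_lit 0)) (T.h (P (nat_lit 450036264312)) (T.h (P (nat_lit 0)) (P (nat_lit 19344876059712))))) (T.h (P (nat_lit 0)) (T.h (T.h (P (nat_lit 0)) (M (nat_lit 1899435808091))) (P (nat_lit 0))))) (T.h (T.h (P (nat_lit 0)) (M (nat_lit 102349570623))) (T.h (T.h (T.h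 (P (nat_lit 0)) (P (nat_lit 2356344339528))) (P (nat_lit 0))) (P (nat_lit 0))))))) (T.h (P (nat_lit 0)) (T.h (T.h (T.h (T.h (P (nat_lit 0)) (T.h (P (nat_lit 30042604000)) (T.h (P (nat_lit 0)) (T.h (M (nat_lit 1138987966163)) (T.h (P (nat_lit 0)) (M (nat_lit 5672963075131))))))) (T.h (P (nat_lit 0)) (T.h (T.h (P (nat_lit 0)) (T.h (P (nat_lit 1591696426456)) (T.h (P (nat_lit 0)) (M (nat_lit 11862328742343))))) (T.h (P (nat_lit 0)) (T.h (T.h (P (nat_lit 0)) (M (nat_lit 34284886752367))) (P (nat_lit 0))))))) (T.h (T.h (P (nat_lit 0)) (T.h (T.h (M (nat_lit 164719688823)) (T.h (P (nat_lit 0)) (P (nat_lit 1278992123788)))) (T.h (P (nat_lit 0)) (P (nat_lit 4381233360376))))) (T.h (T.h (T.h (P (nat_lit 0)) (T.h (P (nat_lit 707329828364)) (T.h (P (nat_lit 0)) (M (nat_lit 21109056146231))))) (T.h (P (nat_lit 0)) (T.h (T.h (P (nat_lit 0)) (P (nat_lit 20777838753236))) (P (nat_lit 0))))) (T.h (T.h (P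 (nat_lit 0)) (P (nat_lit 5401689812516))) (T.h (T.h (T.h (P (nat_lit 0)) (P (nat_lit 2438385937704))) (P (nat_lit 0))) (P (nat_lit 0))))))) (P (nat_lit 0))))) (T.h (T.h (P (nat_lit 0)) (T.h (T.h (T.h (P (nat_lit 0)) (T.h (T.h (M (nat_lit 5860068391)) (T.h (P (nat_lit 0)) (T.h (P (nat_lit 1038682368064)) (T.h (P (nat_lit 0)) (P (nat_lit 3591706961348)))))) (T.h (P (nat_lit 0)) (T.h (T.h (P (nat_lit 472269417800)) (T.h (P (nat_lit 0)) (M (nat_lit 19899401583451)))) (T.h (P (nat_lit 0)) (M (nat_lit 1946652140807))))))) (T.h (T.h (T.h (P (nat_lit 0)) (T.h (M (nat_lit 46881677767)) (T.h (P (nat_lit 0)) (M (nat_lit 1929050766059))))) (T.h (P (nat_lit 0)) (T.h (T.h (P (nat_lit 0)) (M (nat_lit 7052927890583))) (P (nat_lit 0))))) (T.h (T.h (P (nat_lit 0)) (T.h (T.h (P (nat_lit 1038682368064)) (T.h (P (nat_lit 0)) (M (nat_lit 16872188289447)))) (T.h (P (nat_lit 0)) (M (nat_lit 19899401583451)))))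 (T.h (T.h (T.h (P (nat_lit 0)) (M (nat_lit 1929050766059))) (P (nat_lit 0))) (T.h (T.h (P (nat_lit 0)) (P (nat_lit 3591706961348))) (P (nat_lit 0))))))) (P (nat_lit 0)))) (T.h (T.h (T.h (T.h (T.h (P (nat_lit 0)) (T.h (P (nat_lit 1845688324)) (T.h (P (nat_lit 0)) (T.h (M (nat_lit 145807984827)) (T.h (P (nat_lit 0)) (P (nat_lit 2483090652))))))) (T.h (P (nat_lit 0)) (T.h (T.h (P (nat_lit 0)) (T.h (P (nat_lit 94197398076)) (T.h (P (nat_lit 0)) (M (nat_lit 2868146138507))))) (T.h (P (nat_lit 0)) (T.h (T.h (P (nat_lit 0)) (M (nat_lit 7008099596003))) (P (nat_lit 0))))))) (T.h (T.h (P (nat_lit 0)) (T.h (T.h (P (nat_lit 106939623576)) (T.h (P (nat_lit 0)) (M (nat_lit 1304089302135)))) (T.h (P (nat_lit 0)) (P (nat_lit 439082881992))))) (T.h (T.h (T.h (P (nat_lit 0)) (T.h (M (nat_lit 375624811931)) (T.h (P (nat_lit 0)) (M (nat_lit 17636438051107))))) (T.h (P (nat_lit 0)) (T.h (T.h (P (nat_lit 0))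 (P (nat_lit 10425751850088))) (P (nat_lit 0))))) (T.h (T.h (P (nat_lit 0)) (M (nat_lit 629105433079))) (T.h (T.h (T.h (P (nat_lit 0)) (M (nat_lit 3068981489055))) (P (nat_lit 0))) (P (nat_lit 0))))))) (P (nat_lit 0))) (P (nat_lit 0)))))
def et2_4 : T ℤ := (T.h (T.h (P (nat_lit 0)) (T.h (P (nat_lit 0)) (T.h (T.h (T.h (T.h (P (nat_lit 0)) (T.h (M (nat_lit 12030280683)) (T.h (P (nat_lit 0)) (T.h (P (nat_lit 370086859136)) (T.h (P (nat_lit 0)) (P (nat_lit 4299648061400))))))) (T.h (P (nat_lit 0)) (T.h (T.h (P (nat_lit 0)) (T.h (P (nat_lit 701641068400)) (T.h (P (nat_lit 0)) (P (nat_lit 9964448041400))))) (T.h (P (nat_lit 0)) (T.h (T.h (P (nat_lit 0)) (P (nat_lit 17977681062672))) (P (nat_lit 0))))))) (T.h (T.h (P (nat_lit 0)) (T.h (T.h (M (nat_lit 41139260251)) (T.h (P (nat_lit 0)) (M (nat_lit 2757543883855)))) (T.h (P (nat_lit 0)) (P (nat_lit 857411717808))))) (T.h (T.h (T.h (P (nat_lit 0))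 (T.h (P (nat_lit 539503358012)) (T.h (P (nat_lit 0)) (P (nat_lit 1399996627176))))) (T.h (P (nat_lit 0)) (T.h (T.h (P (nat_lit 0)) (M (nat_lit 32668070535035))) (P (nat_lit 0))))) (T.h (T.h (P (nat_lit 0)) (M (nat_lit 2335457968963))) (T.h (T.h (T.h (P (nat_lit 0)) (P (nat_lit 13300680924968))) (P (nat_lit 0))) (P (nat_lit 0))))))) (T.h (P (nat_lit 0)) (T.h (T.h (T.h (T.h (P (nat_lit 0)) (T.h (P (nat_lit 29739405476)) (T.h (P (nat_lit 0)) (T.h (M (nat_lit 443556171479)) (T.h (P (nat_lit 0)) (M (nat_lit 5945771866891))))))) (T.h (P (nat_lit 0)) (T.h (T.h (P (nat_lit 0)) (T.h (M (nat_lit 849860184059)) (T.h (P (nat_lit 0)) (M (nat_lit 12768410200339))))) (T.h (P (nat_lit 0)) (T.h (T.h (P (nat_lit 0)) (P (nat_lit 5784253789352))) (P (nat_lit 0))))))) (T.h (T.h (P (nat_lit 0)) (T.h (T.h (M (nat_lit 122460090703)) (T.h (P (nat_lit 0)) (P (nat_lit 12751241177520)))) (T.h (P (nat_lit 0)) (P (nat_lit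 5400812317416))))) (T.h (T.h (T.h (P (nat_lit 0)) (T.h (M (nat_lit 242481090943)) (T.h (P (nat_lit 0)) (P (nat_lit 2756946226892))))) (T.h (P (nat_lit 0)) (T.h (T.h (P (nat_lit 0)) (P (nat_lit 99476264680))) (P (nat_lit 0))))) (T.h (T.h (P (nat_lit 0)) (M (nat_lit 9536113779015))) (T.h (T.h (T.h (P (nat_lit 0)) (M (nat_lit 9268915055763))) (P (nat_lit 0))) (P (nat_lit 0))))))) (P (nat_lit 0))))))) (T.h (T.h (P (nat_lit 0)) (T.h (T.h (T.h (P (nat_lit 0)) (T.h (T.h (P (nat_lit 451539064)) (T.h (P (nat_lit 0)) (T.h (M (nat_lit 150249693523)) (T.h (P (nat_lit 0)) (M (nat_lit 4744264836223)))))) (T.h (P (nat_lit 0)) (T.h (T.h (M (nat_lit 152070750959)) (T.h (P (nat_lit 0)) (M (nat_lit 488412650699)))) (T.h (P (nat_lit 0)) (M (nat_lit 213979276927))))))) (T.h (T.h (T.h (P (nat_lit 0)) (T.h (M (nat_lit 27723870559)) (T.h (P (nat_lit 0)) (P (nat_lit 40641042004))))) (T.h (P (nat_lit 0)) (T.h (T.h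 (P (nat_lit 0)) (M (nat_lit 708304954207))) (P (nat_lit 0))))) (T.h (T.h (P (nat_lit 0)) (T.h (T.h (M (nat_lit 150249693523)) (T.h (P (nat_lit 0)) (P (nat_lit 10511701108192)))) (T.h (P (nat_lit 0)) (M (nat_lit 488412650699))))) (T.h (T.h (T.h (P (nat_lit 0)) (P (nat_lit 40641042004))) (P (nat_lit 0))) (T.h (T.h (P (nat_lit 0)) (M (nat_lit 4744264836223))) (P (nat_lit 0))))))) (T.h (P (nat_lit 0)) (T.h (T.h (T.h (P (nat_lit 0)) (T.h (T.h (P (nat_lit 29739405476)) (T.h (P (nat_lit 0)) (T.h (M (nat_lit 849860184059)) (T.h (P (nat_lit 0)) (P (nat_lit 5784253789352)))))) (T.h (P (nat_lit 0)) (T.h (T.h (M (nat_lit 443556171479)) (T.h (P (nat_lit 0)) (M (nat_lit 12768410200339)))) (T.h (P (nat_lit 0)) (M (nat_lit 5945771866891))))))) (T.h (T.h (T.h (P (nat_lit 0)) (T.h (M (nat_lit 122460090703)) (T.h (P (nat_lit 0)) (P (nat_lit 5400812317416))))) (T.h (P (nat_lit 0)) (T.h (T.h (P (nat_lit 0))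 (P (nat_lit 12751241177520))) (P (nat_lit 0))))) (T.h (T.h (P (nat_lit 0)) (T.h (T.h (M (nat_lit 242481090943)) (T.h (P (nat_lit 0)) (P (nat_lit 99476264680)))) (T.h (P (nat_lit 0)) (P (nat_lit 2756946226892))))) (T.h (T.h (T.h (P (nat_lit 0)) (M (nat_lit 9536113779015))) (P (nat_lit 0))) (T.h (T.h (P (nat_lit 0)) (M (nat_lit 9268915055763))) (P (nat_lit 0))))))) (P (nat_lit 0)))))) et2_3))
def et2_5 : T ℤ := (T.h (T.h (P (nat_lit 0)) (T.h (P (nat_lit 0)) (T.h (P (nat_lit 0)) (T.h (P (nat_lit 0)) (T.h (T.h (T.h (T.h (P (nat_lit 0)) (T.h (P (nat_lit 451539064)) (T.h (P (nat_lit 0)) (T.h (M (nat_lit 152070750959)) (T.h (P (nat_lit 0)) (M (nat_lit 213979276927))))))) (T.h (P (nat_lit 0)) (T.h (T.h (P (nat_lit 0)) (T.h (M (nat_lit 150249693523)) (T.h (P (nat_lit 0)) (M (nat_lit 488412650699))))) (T.h (P (nat_lit 0)) (T.h (T.h (P (nat_lit 0)) (M (nat_lit 4744264836223))) (P (nat_lit 0)))))))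 (T.h (T.h (P (nat_lit 0)) (T.h (T.h (M (nat_lit 27723870559)) (T.h (P (nat_lit 0)) (M (nat_lit 708304954207)))) (T.h (P (nat_lit 0)) (P (nat_lit 40641042004))))) (T.h (T.h (T.h (P (nat_lit 0)) (T.h (M (nat_lit 150249693523)) (T.h (P (nat_lit 0)) (M (nat_lit 488412650699))))) (T.h (P (nat_lit 0)) (T.h (T.h (P (nat_lit 0)) (P (nat_lit 10511701108192))) (P (nat_lit 0))))) (T.h (T.h (P (nat_lit 0)) (P (nat_lit 40641042004))) (T.h (T.h (T.h (P (nat_lit 0)) (M (nat_lit 4744264836223))) (P (nat_lit 0))) (P (nat_lit 0))))))) (T.h (P (nat_lit 0)) (T.h (T.h (T.h (T.h (P (nat_lit 0)) (T.h (M (nat_lit 5860068391)) (T.h (P (nat_lit 0)) (T.h (P (nat_lit 472269417800)) (T.h (P (nat_lit 0)) (M (nat_lit 1946652140807))))))) (T.h (P (nat_lit 0)) (T.h (T.h (P (nat_lit 0)) (T.h (P (nat_lit 1038682368064)) (T.h (P (nat_lit 0)) (M (nat_lit 19899401583451))))) (T.h (P (nat_lit 0)) (T.h (T.h (P (nat_lit 0)) (P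 (nat_lit 3591706961348))) (P (nat_lit 0))))))) (T.h (T.h (P (nat_lit 0)) (T.h (T.h (M (nat_lit 46881677767)) (T.h (P (nat_lit 0)) (M (nat_lit 7052927890583)))) (T.h (P (nat_lit 0)) (M (nat_lit 1929050766059))))) (T.h (T.h (T.h (P (nat_lit 0)) (T.h (P (nat_lit 1038682368064)) (T.h (P (nat_lit 0)) (M (nat_lit 19899401583451))))) (T.h (P (nat_lit 0)) (T.h (T.h (P (nat_lit 0)) (M (nat_lit 16872188289447))) (P (nat_lit 0))))) (T.h (T.h (P (nat_lit 0)) (M (nat_lit 1929050766059))) (T.h (T.h (T.h (P (nat_lit 0)) (P (nat_lit 3591706961348))) (P (nat_lit 0))) (P (nat_lit 0))))))) (P (nat_lit 0))))))))) (T.h (T.h (P (nat_lit 0)) (T.h (P (nat_lit 0)) (T.h (P (nat_lit 0)) (T.h (T.h (T.h (P (nat_lit 0)) (T.h (T.h (M (nat_lit 12030280683)) (T.h (P (nat_lit 0)) (T.h (P (nat_lit 701641068400)) (T.h (P (nat_lit 0)) (P (nat_lit 17977681062672)))))) (T.h (P (nat_lit 0)) (T.h (T.h (P (nat_lit 370086859136))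 (T.h (P (nat_lit 0)) (P (nat_lit 9964448041400)))) (T.h (P (nat_lit 0)) (P (nat_lit 4299648061400))))))) (T.h (T.h (T.h (P (nat_lit 0)) (T.h (M (nat_lit 41139260251)) (T.h (P (nat_lit 0)) (P (nat_lit 857411717808))))) (T.h (P (nat_lit 0)) (T.h (T.h (P (nat_lit 0)) (M (nat_lit 2757543883855))) (P (nat_lit 0))))) (T.h (T.h (P (nat_lit 0)) (T.h (T.h (P (nat_lit 539503358012)) (T.h (P (nat_lit 0)) (M (nat_lit 32668070535035)))) (T.h (P (nat_lit 0)) (P (nat_lit 1399996627176))))) (T.h (T.h (T.h (P (nat_lit 0)) (M (nat_lit 2335457968963))) (P (nat_lit 0))) (T.h (T.h (P (nat_lit 0)) (P (nat_lit 13300680924968))) (P (nat_lit 0))))))) (T.h (P (nat_lit 0)) (T.h (T.h (T.h (P (nat_lit 0)) (T.h (T.h (P (nat_lit 30042604000)) (T.h (P (nat_lit 0)) (T.h (P (nat_lit 1591696426456)) (T.h (P (nat_lit 0)) (M (nat_lit 34284886752367)))))) (T.h (P (nat_lit 0)) (T.h (T.h (M (nat_lit 1138987966163)) (T.h (P (nat_lit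 0)) (M (nat_lit 11862328742343)))) (T.h (P (nat_lit 0)) (M (nat_lit 5672963075131))))))) (T.h (T.h (T.h (P (nat_lit 0)) (T.h (M (nat_lit 164719688823)) (T.h (P (nat_lit 0)) (P (nat_lit 4381233360376))))) (T.h (P (nat_lit 0)) (T.h (T.h (P (nat_lit 0)) (P (nat_lit 1278992123788))) (P (nat_lit 0))))) (T.h (T.h (P (nat_lit 0)) (T.h (T.h (P (nat_lit 707329828364)) (T.h (P (nat_lit 0)) (P (nat_lit 20777838753236)))) (T.h (P (nat_lit 0)) (M (nat_lit 21109056146231))))) (T.h (T.h (T.h (P (nat_lit 0)) (P (nat_lit 5401689812516))) (P (nat_lit 0))) (T.h (T.h (P (nat_lit 0)) (P (nat_lit 2438385937704))) (P (nat_lit 0))))))) (P (nat_lit 0)))))))) et2_4))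
def et2_6 : T ℤ := (T.h (T.h (P (nat_lit 0)) (T.h (T.h (T.h (P (nat_lit 0)) (T.h (T.h (P (nat_lit 0)) (T.h (M (nat_lit 41139260251)) (T.h (P (nat_lit 0)) (M (nat_lit 2335457968963))))) (T.h (P (nat_lit 0)) (T.h (T.h (P (nat_lit 0)) (P (nat_lit 857411717808))) (P (nat_lit 0)))))) (T.h (T.h (T.h (M (nat_lit 12030280683)) (T.h (P (nat_lit 0)) (T.h (P (nat_lit 539503358012)) (T.h (P (nat_lit 0)) (P (nat_lit 13300680924968)))))) (T.h (P (nat_lit 0)) (T.h (T.h (P (nat_lit 701641068400)) (T.h (P (nat_lit 0)) (M (nat_lit 32668070535035)))) (T.h (P (nat_lit 0)) (P (nat_lit 17977681062672)))))) (T.h (T.h (P (nat_lit 0)) (T.h (T.h (P (nat_lit 0)) (M (nat_lit 2757543883855))) (P (nat_lit 0)))) (T.h (T.h (T.h (P (nat_lit 370086859136)) (T.h (P (nat_lit 0)) (P (nat_lit 1399996627176)))) (T.h (P (nat_lit 0)) (P (nat_lit 9964448041400)))) (T.h (P (nat_lit 0)) (P (nat_lit 4299648061400))))))) (T.h (P (nat_lit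 0)) (T.h (T.h (T.h (P (nat_lit 0)) (T.h (T.h (P (nat_lit 0)) (T.h (P (nat_lit 952510364944)) (T.h (P (nat_lit 0)) (P (nat_lit 6415130014640))))) (T.h (P (nat_lit 0)) (T.h (T.h (P (nat_lit 0)) (P (nat_lit 6415130014640))) (P (nat_lit 0)))))) (T.h (T.h (T.h (M (nat_lit 79389047903)) (T.h (P (nat_lit 0)) (T.h (M (nat_lit 2875246828851)) (T.h (P (nat_lit 0)) (M (nat_lit 26186567296835)))))) (T.h (P (nat_lit 0)) (T.h (T.h (M (nat_lit 2875246828851)) (T.h (P (nat_lit 0)) (P (nat_lit 27568067698024)))) (T.h (P (nat_lit 0)) (M (nat_lit 26186567296835)))))) (T.h (T.h (P (nat_lit 0)) (T.h (T.h (P (nat_lit 0)) (M (nat_lit 4799197295903))) (P (nat_lit 0)))) (T.h (T.h (T.h (M (nat_lit 109796271415)) (T.h (P (nat_lit 0)) (P (nat_lit 779544424052)))) (T.h (P (nat_lit 0)) (P (nat_lit 779544424052)))) (T.h (P (nat_lit 0)) (M (nat_lit 10977435518695))))))) (P (nat_lit 0)))))) (T.h (T.h (T.h (T.h (T.h (P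 (nat_lit 3147696948)) (T.h (P (nat_lit 0)) (T.h (M (nat_lit 6074878675)) (T.h (P (nat_lit 0)) (M (nat_lit 424250730151)))))) (T.h (P (nat_lit 0)) (T.h (T.h (M (nat_lit 16459071803)) (T.h (P (nat_lit 0)) (P (nat_lit 1026660809408)))) (T.h (P (nat_lit 0)) (P (nat_lit 985883581332)))))) (T.h (T.h (P (nat_lit 0)) (T.h (T.h (P (nat_lit 0)) (T.h (M (nat_lit 174455711479)) (T.h (P (nat_lit 0)) (P (nat_lit 4515633972144))))) (T.h (P (nat_lit 0)) (T.h (T.h (P (nat_lit 0)) (P (nat_lit 918026451392))) (P (nat_lit 0)))))) (T.h (T.h (T.h (P (nat_lit 117765816400)) (T.h (P (nat_lit 0)) (P (nat_lit 2261696766132)))) (T.h (P (nat_lit 0)) (M (nat_lit 1235062876259)))) (T.h (T.h (P (nat_lit 0)) (T.h (T.h (P (nat_lit 0)) (M (nat_lit 8462011939007))) (P (nat_lit 0)))) (P (nat_lit 2156130625160)))))) (T.h (P (nat_lit 0)) (T.h (T.h (T.h (T.h (M (nat_lit 2242089927)) (T.h (P (nat_lit 0)) (T.h (P (nat_lit 246642149844))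 (T.h (P (nat_lit 0)) (M (nat_lit 1667108450251)))))) (T.h (P (nat_lit 0)) (T.h (T.h (P (nat_lit 2720625592)) (T.h (P (nat_lit 0)) (P (nat_lit 6478522588200)))) (T.h (P (nat_lit 0)) (P (nat_lit 3429856973328)))))) (T.h (T.h (P (nat_lit 0)) (T.h (T.h (P (nat_lit 0)) (T.h (M (nat_lit 3632643078687)) (T.h (P (nat_lit 0)) (P (nat_lit 3725753990360))))) (T.h (P (nat_lit 0)) (T.h (T.h (P (nat_lit 0)) (M (nat_lit 24861310695247))) (P (nat_lit 0)))))) (T.h (T.h (T.h (P (nat_lit 246642149844)) (T.h (P (nat_lit 0)) (M (nat_lit 16440716977559)))) (T.h (P (nat_lit 0)) (P (nat_lit 6478522588200)))) (T.h (T.h (P (nat_lit 0)) (T.h (T.h (P (nat_lit 0)) (P (nat_lit 3725753990360))) (P (nat_lit 0)))) (M (nat_lit 1667108450251)))))) (P (nat_lit 0))))) (T.h (T.h (P (nat_lit 0)) (T.h (T.h (T.h (P (nat_lit 0)) (T.h (T.h (P (nat_lit 0)) (T.h (M (nat_lit 164719688823)) (T.h (P (nat_lit 0)) (P (nat_lit 5401689812516)))))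 (T.h (P (nat_lit 0)) (T.h (T.h (P (nat_lit 0)) (P (nat_lit 4381233360376))) (P (nat_lit 0)))))) (T.h (T.h (T.h (P (nat_lit 30042604000)) (T.h (P (nat_lit 0)) (T.h (P (nat_lit 707329828364)) (T.h (P (nat_lit 0)) (P (nat_lit 2438385937704)))))) (T.h (P (nat_lit 0)) (T.h (T.h (P (nat_lit 1591696426456)) (T.h (P (nat_lit 0)) (P (nat_lit 20777838753236)))) (T.h (P (nat_lit 0)) (M (nat_lit 34284886752367)))))) (T.h (T.h (P (nat_lit 0)) (T.h (T.h (P (nat_lit 0)) (P (nat_lit 1278992123788))) (P (nat_lit 0)))) (T.h (T.h (T.h (M (nat_lit 1138987966163)) (T.h (P (nat_lit 0)) (M (nat_lit 21109056146231)))) (T.h (P (nat_lit 0)) (M (nat_lit 11862328742343)))) (T.h (P (nat_lit 0)) (M (nat_lit 5672963075131))))))) (P (nat_lit 0)))) (T.h (T.h (T.h (T.h (T.h (P (nat_lit 365793960)) (T.h (P (nat_lit 0)) (T.h (P (nat_lit 12414532524)) (T.h (P (nat_lit 0)) (P (nat_lit 885877270984)))))) (T.h (P (nat_lit 0))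 (T.h (T.h (P (nat_lit 42586107572)) (T.h (P (nat_lit 0)) (M (nat_lit 582270931043)))) (T.h (P (nat_lit 0)) (M (nat_lit 1319079922819)))))) (T.h (T.h (P (nat_lit 0)) (T.h (T.h (P (nat_lit 0)) (T.h (P (nat_lit 904139935248)) (T.h (P (nat_lit 0)) (M (nat_lit 5740752460471))))) (T.h (P (nat_lit 0)) (T.h (T.h (P (nat_lit 0)) (M (nat_lit 5222579762423))) (P (nat_lit 0)))))) (T.h (T.h (T.h (M (nat_lit 118063082407)) (T.h (P (nat_lit 0)) (M (nat_lit 2372256309519)))) (T.h (P (nat_lit 0)) (M (nat_lit 4330367752871)))) (T.h (T.h (P (nat_lit 0)) (T.h (T.h (P (nat_lit 0)) (P (nat_lit 14942801835672))) (P (nat_lit 0)))) (M (nat_lit 811391337167)))))) (P (nat_lit 0))) (P (nat_lit 0))))))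
def et2_7 : T ℤ := (T.h (T.h (P (nat_lit 0)) (T.h (P (nat_lit 0)) (T.h (P (nat_lit 0)) (T.h (P (nat_lit 0)) (T.h (T.h (T.h (T.h (P (nat_lit 3147696948)) (T.h (P (nat_lit 0)) (T.h (M (nat_lit 16459071803)) (T.h (P (nat_lit 0)) (P (nat_lit 985883581332)))))) (T.h (P (nat_lit 0)) (T.h (T.h (M (nat_lit 6074878675)) (T.h (P (nat_lit 0)) (P (nat_lit 1026660809408)))) (T.h (P (nat_lit 0)) (M (nat_lit 424250730151)))))) (T.h (T.h (P (nat_lit 0)) (T.h (T.h (P (nat_lit 0)) (T.h (M (nat_lit 174455711479)) (T.h (P (nat_lit 0)) (P (nat_lit 918026451392))))) (T.h (P (nat_lit 0)) (T.h (T.h (P (nat_lit 0)) (P (nat_lit 4515633972144))) (P (nat_lit 0)))))) (T.h (T.h (T.h (P (nat_lit 117765816400)) (T.h (P (nat_lit 0)) (M (nat_lit 1235062876259)))) (T.h (P (nat_lit 0)) (P (nat_lit 2261696766132)))) (T.h (T.h (P (nat_lit 0)) (T.h (T.h (P (nat_lit 0)) (M (nat_lit 8462011939007))) (P (nat_lit 0)))) (P (nat_lit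 2156130625160)))))) (T.h (P (nat_lit 0)) (T.h (T.h (T.h (T.h (P (nat_lit 365793960)) (T.h (P (nat_lit 0)) (T.h (P (nat_lit 42586107572)) (T.h (P (nat_lit 0)) (M (nat_lit 1319079922819)))))) (T.h (P (nat_lit 0)) (T.h (T.h (P (nat_lit 12414532524)) (T.h (P (nat_lit 0)) (M (nat_lit 582270931043)))) (T.h (P (nat_lit 0)) (P (nat_lit 885877270984)))))) (T.h (T.h (P (nat_lit 0)) (T.h (T.h (P (nat_lit 0)) (T.h (P (nat_lit 904139935248)) (T.h (P (nat_lit 0)) (M (nat_lit 5222579762423))))) (T.h (P (nat_lit 0)) (T.h (T.h (P (nat_lit 0)) (M (nat_lit 5740752460471))) (P (nat_lit 0)))))) (T.h (T.h (T.h (M (nat_lit 118063082407)) (T.h (P (nat_lit 0)) (M (nat_lit 4330367752871)))) (T.h (P (nat_lit 0)) (M (nat_lit 2372256309519)))) (T.h (T.h (P (nat_lit 0)) (T.h (T.h (P (nat_lit 0)) (P (nat_lit 14942801835672))) (P (nat_lit 0)))) (M (nat_lit 811391337167)))))) (P (nat_lit 0))))))))) (T.h (T.h (P (nat_lit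 0)) (T.h (P (nat_lit 0)) (T.h (P (nat_lit 0)) (T.h (T.h (T.h (P (nat_lit 0)) (T.h (T.h (P (nat_lit 0)) (T.h (M (nat_lit 41139260251)) (T.h (P (nat_lit 0)) (P (nat_lit 857411717808))))) (T.h (P (nat_lit 0)) (T.h (T.h (P (nat_lit 0)) (M (nat_lit 2335457968963))) (P (nat_lit 0)))))) (T.h (T.h (T.h (M (nat_lit 12030280683)) (T.h (P (nat_lit 0)) (T.h (P (nat_lit 701641068400)) (T.h (P (nat_lit 0)) (P (nat_lit 17977681062672)))))) (T.h (P (nat_lit 0)) (T.h (T.h (P (nat_lit 539503358012)) (T.h (P (nat_lit 0)) (M (nat_lit 32668070535035)))) (T.h (P (nat_lit 0)) (P (nat_lit 13300680924968)))))) (T.h (T.h (P (nat_lit 0)) (T.h (T.h (P (nat_lit 0)) (M (nat_lit 2757543883855))) (P (nat_lit 0)))) (T.h (T.h (T.h (P (nat_lit 370086859136)) (T.h (P (nat_lit 0)) (P (nat_lit 9964448041400)))) (T.h (P (nat_lit 0)) (P (nat_lit 1399996627176)))) (T.h (P (nat_lit 0)) (P (nat_lit 4299648061400))))))) (T.h (P (nat_lit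 0)) (T.h (T.h (T.h (P (nat_lit 0)) (T.h (T.h (P (nat_lit 0)) (T.h (M (nat_lit 164719688823)) (T.h (P (nat_lit 0)) (P (nat_lit 4381233360376))))) (T.h (P (nat_lit 0)) (T.h (T.h (P (nat_lit 0)) (P (nat_lit 5401689812516))) (P (nat_lit 0)))))) (T.h (T.h (T.h (P (nat_lit 30042604000)) (T.h (P (nat_lit 0)) (T.h (P (nat_lit 1591696426456)) (T.h (P (nat_lit 0)) (M (nat_lit 34284886752367)))))) (T.h (P (nat_lit 0)) (T.h (T.h (P (nat_lit 707329828364)) (T.h (P (nat_lit 0)) (P (nat_lit 20777838753236)))) (T.h (P (nat_lit 0)) (P (nat_lit 2438385937704)))))) (T.h (T.h (P (nat_lit 0)) (T.h (T.h (P (nat_lit 0)) (P (nat_lit 1278992123788))) (P (nat_lit 0)))) (T.h (T.h (T.h (M (nat_lit 1138987966163)) (T.h (P (nat_lit 0)) (M (nat_lit 11862328742343)))) (T.h (P (nat_lit 0)) (M (nat_lit 21109056146231)))) (T.h (P (nat_lit 0)) (M (nat_lit 5672963075131))))))) (P (nat_lit 0)))))))) (T.h (T.h (P (nat_lit 0))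 (T.h (P (nat_lit 0)) (T.h (T.h (T.h (T.h (P (nat_lit 5464744104)) (T.h (P (nat_lit 0)) (T.h (M (nat_lit 87302567279)) (T.h (P (nat_lit 0)) (M (nat_lit 822147851831)))))) (T.h (P (nat_lit 0)) (T.h (T.h (M (nat_lit 87302567279)) (T.h (P (nat_lit 0)) (M (nat_lit 1416768772007)))) (T.h (P (nat_lit 0)) (M (nat_lit 822147851831)))))) (T.h (T.h (P (nat_lit 0)) (T.h (T.h (P (nat_lit 0)) (T.h (P (nat_lit 604503255216)) (T.h (P (nat_lit 0)) (P (nat_lit 16070650198784))))) (T.h (P (nat_lit 0)) (T.h (T.h (P (nat_lit 0)) (P (nat_lit 16070650198784))) (P (nat_lit 0)))))) (T.h (T.h (T.h (M (nat_lit 87302567279)) (T.h (P (nat_lit 0)) (M (nat_lit 1416768772007)))) (T.h (P (nat_lit 0)) (M (nat_lit 1416768772007)))) (T.h (T.h (P (nat_lit 0)) (T.h (T.h (P (nat_lit 0)) (P (nat_lit 16070650198784))) (P (nat_lit 0)))) (M (nat_lit 822147851831)))))) (T.h (P (nat_lit 0)) (T.h (T.h (T.h (T.h (M (nat_lit 2242089927))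 (T.h (P (nat_lit 0)) (T.h (P (nat_lit 2720625592)) (T.h (P (nat_lit 0)) (P (nat_lit 3429856973328)))))) (T.h (P (nat_lit 0)) (T.h (T.h (P (nat_lit 246642149844)) (T.h (P (nat_lit 0)) (P (nat_lit 6478522588200)))) (T.h (P (nat_lit 0)) (M (nat_lit 1667108450251)))))) (T.h (T.h (P (nat_lit 0)) (T.h (T.h (P (nat_lit 0)) (T.h (M (nat_lit 3632643078687)) (T.h (P (nat_lit 0)) (M (nat_lit 24861310695247))))) (T.h (P (nat_lit 0)) (T.h (T.h (P (nat_lit 0)) (P (nat_lit 3725753990360))) (P (nat_lit 0)))))) (T.h (T.h (T.h (P (nat_lit 246642149844)) (T.h (P (nat_lit 0)) (P (nat_lit 6478522588200)))) (T.h (P (nat_lit 0)) (M (nat_lit 16440716977559)))) (T.h (T.h (P (nat_lit 0)) (T.h (T.h (P (nat_lit 0)) (P (nat_lit 3725753990360))) (P (nat_lit 0)))) (M (nat_lit 1667108450251)))))) (P (nat_lit 0))))))) et2_6)))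
def et2_8 : T ℤ := (T.h (T.h (T.h (T.h (T.h (P (nat_lit 0)) (T.h (M (nat_lit 2031876839)) (T.h (P (nat_lit 0)) (T.h (M (nat_lit 368550455)) (T.h (P (nat_lit 0)) (P (nat_lit 3605496764048))))))) (T.h (P (nat_lit 0)) (T.h (T.h (P (nat_lit 0)) (T.h (M (nat_lit 401236166411)) (T.h (P (nat_lit 0)) (M (nat_lit 1260390453595))))) (T.h (P (nat_lit 0)) (T.h (T.h (P (nat_lit 0)) (M (nat_lit 9917824041891))) (P (nat_lit 0))))))) (T.h (T.h (P (nat_lit 0)) (T.h (T.h (P (nat_lit 108055855752)) (T.h (P (nat_lit 0)) (M (nat_lit 3932021928103)))) (T.h (P (nat_lit 0)) (M (nat_lit 3019016568599))))) (T.h (T.h (T.h (P (nat_lit 0)) (T.h (M (nat_lit 401236166411)) (T.h (P (nat_lit 0)) (M (nat_lit 1260390453595))))) (T.h (P (nat_lit 0)) (T.h (T.h (P (nat_lit 0)) (M (nat_lit 6498869996175))) (P (nat_lit 0))))) (T.h (T.h (P (nat_lit 0)) (M (nat_lit 3019016568599))) (T.h (T.h (T.h (P (nat_lit 0)) (M (nat_lit 9917824041891)))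 (P (nat_lit 0))) (P (nat_lit 0))))))) (T.h (P (nat_lit 0)) (T.h (T.h (T.h (T.h (P (nat_lit 0)) (T.h (M (nat_lit 79389047903)) (T.h (P (nat_lit 0)) (T.h (M (nat_lit 109796271415)) (T.h (P (nat_lit 0)) (M (nat_lit 10977435518695))))))) (T.h (P (nat_lit 0)) (T.h (T.h (P (nat_lit 0)) (T.h (M (nat_lit 2875246828851)) (T.h (P (nat_lit 0)) (P (nat_lit 779544424052))))) (T.h (P (nat_lit 0)) (T.h (T.h (P (nat_lit 0)) (M (nat_lit 26186567296835))) (P (nat_lit 0))))))) (T.h (T.h (P (nat_lit 0)) (T.h (T.h (P (nat_lit 952510364944)) (T.h (P (nat_lit 0)) (M (nat_lit 4799197295903)))) (T.h (P (nat_lit 0)) (P (nat_lit 6415130014640))))) (T.h (T.h (T.h (P (nat_lit 0)) (T.h (M (nat_lit 2875246828851)) (T.h (P (nat_lit 0)) (P (nat_lit 779544424052))))) (T.h (P (nat_lit 0)) (T.h (T.h (P (nat_lit 0)) (P (nat_lit 27568067698024))) (P (nat_lit 0))))) (T.h (T.h (P (nat_lit 0)) (P (nat_lit 6415130014640))) (T.h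 (T.h (T.h (P (nat_lit 0)) (M (nat_lit 26186567296835))) (P (nat_lit 0))) (P (nat_lit 0))))))) (P (nat_lit 0))))) (T.h (T.h (P (nat_lit 0)) (T.h (T.h (T.h (P (nat_lit 0)) (T.h (T.h (P (nat_lit 29739405476)) (T.h (P (nat_lit 0)) (T.h (M (nat_lit 242481090943)) (T.h (P (nat_lit 0)) (M (nat_lit 9268915055763)))))) (T.h (P (nat_lit 0)) (T.h (T.h (M (nat_lit 443556171479)) (T.h (P (nat_lit 0)) (P (nat_lit 2756946226892)))) (T.h (P (nat_lit 0)) (M (nat_lit 5945771866891))))))) (T.h (T.h (T.h (P (nat_lit 0)) (T.h (M (nat_lit 122460090703)) (T.h (P (nat_lit 0)) (M (nat_lit 9536113779015))))) (T.h (P (nat_lit 0)) (T.h (T.h (P (nat_lit 0)) (P (nat_lit 12751241177520))) (P (nat_lit 0))))) (T.h (T.h (P (nat_lit 0)) (T.h (T.h (M (nat_lit 849860184059)) (T.h (P (nat_lit 0)) (P (nat_lit 99476264680)))) (T.h (P (nat_lit 0)) (M (nat_lit 12768410200339))))) (T.h (T.h (T.h (P (nat_lit 0)) (P (nat_lit 5400812317416)))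 (P (nat_lit 0))) (T.h (T.h (P (nat_lit 0)) (P (nat_lit 5784253789352))) (P (nat_lit 0))))))) (P (nat_lit 0)))) (T.h (T.h (T.h (T.h (T.h (P (nat_lit 0)) (T.h (P (nat_lit 6022870772)) (T.h (P (nat_lit 0)) (T.h (P (nat_lit 368102276884)) (T.h (P (nat_lit 0)) (M (nat_lit 774739217531))))))) (T.h (P (nat_lit 0)) (T.h (T.h (P (nat_lit 0)) (T.h (P (nat_lit 38272356360)) (T.h (P (nat_lit 0)) (M (nat_lit 4127626133167))))) (T.h (P (nat_lit 0)) (T.h (T.h (P (nat_lit 0)) (P (nat_lit 930353612148))) (P (nat_lit 0))))))) (T.h (T.h (P (nat_lit 0)) (T.h (T.h (M (nat_lit 169667294807)) (T.h (P (nat_lit 0)) (P (nat_lit 1444323792016)))) (T.h (P (nat_lit 0)) (M (nat_lit 2932758571543))))) (T.h (T.h (T.h (P (nat_lit 0)) (T.h (P (nat_lit 168325467384)) (T.h (P (nat_lit 0)) (M (nat_lit 27666856141599))))) (T.h (P (nat_lit 0)) (T.h (T.h (P (nat_lit 0)) (P (nat_lit 20024795690196))) (P (nat_lit 0))))) (T.h (T.h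 (P (nat_lit 0)) (P (nat_lit 25575599568))) (T.h (T.h (T.h (P (nat_lit 0)) (P (nat_lit 947848432364))) (P (nat_lit 0))) (P (nat_lit 0))))))) (P (nat_lit 0))) (P (nat_lit 0)))))
def et2_9 : T ℤ := (T.h (T.h (P (nat_lit 0)) (T.h (P (nat_lit 0)) (T.h (T.h (T.h (T.h (P (nat_lit 0)) (T.h (M (nat_lit 12030280683)) (T.h (P (nat_lit 0)) (T.h (P (nat_lit 370086859136)) (T.h (P (nat_lit 0)) (P (nat_lit 4299648061400))))))) (T.h (P (nat_lit 0)) (T.h (T.h (P (nat_lit 0)) (T.h (P (nat_lit 539503358012)) (T.h (P (nat_lit 0)) (P (nat_lit 1399996627176))))) (T.h (P (nat_lit 0)) (T.h (T.h (P (nat_lit 0)) (P (nat_lit 13300680924968))) (P (nat_lit 0))))))) (T.h (T.h (P (nat_lit 0)) (T.h (T.h (M (nat_lit 41139260251)) (T.h (P (nat_lit 0)) (M (nat_lit 2757543883855)))) (T.h (P (nat_lit 0)) (M (nat_lit 2335457968963))))) (T.h (T.h (T.h (P (nat_lit 0)) (T.h (P (nat_lit 701641068400)) (T.h (P (nat_lit 0)) (P (nat_lit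 9964448041400))))) (T.h (P (nat_lit 0)) (T.h (T.h (P (nat_lit 0)) (M (nat_lit 32668070535035))) (P (nat_lit 0))))) (T.h (T.h (P (nat_lit 0)) (P (nat_lit 857411717808))) (T.h (T.h (T.h (P (nat_lit 0)) (P (nat_lit 17977681062672))) (P (nat_lit 0))) (P (nat_lit 0))))))) (T.h (P (nat_lit 0)) (T.h (T.h (T.h (T.h (P (nat_lit 0)) (T.h (P (nat_lit 29739405476)) (T.h (P (nat_lit 0)) (T.h (M (nat_lit 443556171479)) (T.h (P (nat_lit 0)) (M (nat_lit 5945771866891))))))) (T.h (P (nat_lit 0)) (T.h (T.h (P (nat_lit 0)) (T.h (M (nat_lit 242481090943)) (T.h (P (nat_lit 0)) (P (nat_lit 2756946226892))))) (T.h (P (nat_lit 0)) (T.h (T.h (P (nat_lit 0)) (M (nat_lit 9268915055763))) (P (nat_lit 0))))))) (T.h (T.h (P (nat_lit 0)) (T.h (T.h (M (nat_lit 122460090703)) (T.h (P (nat_lit 0)) (P (nat_lit 12751241177520)))) (T.h (P (nat_lit 0)) (M (nat_lit 9536113779015))))) (T.h (T.h (T.h (P (nat_lit 0)) (T.h (M (nat_lit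 849860184059)) (T.h (P (nat_lit 0)) (M (nat_lit 12768410200339))))) (T.h (P (nat_lit 0)) (T.h (T.h (P (nat_lit 0)) (P (nat_lit 99476264680))) (P (nat_lit 0))))) (T.h (T.h (P (nat_lit 0)) (P (nat_lit 5400812317416))) (T.h (T.h (T.h (P (nat_lit 0)) (P (nat_lit 5784253789352))) (P (nat_lit 0))) (P (nat_lit 0))))))) (P (nat_lit 0))))))) (T.h (T.h (P (nat_lit 0)) (T.h (T.h (T.h (P (nat_lit 0)) (T.h (T.h (M (nat_lit 12030280683)) (T.h (P (nat_lit 0)) (T.h (P (nat_lit 539503358012)) (T.h (P (nat_lit 0)) (P (nat_lit 13300680924968)))))) (T.h (P (nat_lit 0)) (T.h (T.h (P (nat_lit 370086859136)) (T.h (P (nat_lit 0)) (P (nat_lit 1399996627176)))) (T.h (P (nat_lit 0)) (P (nat_lit 4299648061400))))))) (T.h (T.h (T.h (P (nat_lit 0)) (T.h (M (nat_lit 41139260251)) (T.h (P (nat_lit 0)) (M (nat_lit 2335457968963))))) (T.h (P (nat_lit 0)) (T.h (T.h (P (nat_lit 0)) (M (nat_lit 2757543883855))) (P (nat_lit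 0))))) (T.h (T.h (P (nat_lit 0)) (T.h (T.h (P (nat_lit 701641068400)) (T.h (P (nat_lit 0)) (M (nat_lit 32668070535035)))) (T.h (P (nat_lit 0)) (P (nat_lit 9964448041400))))) (T.h (T.h (T.h (P (nat_lit 0)) (P (nat_lit 857411717808))) (P (nat_lit 0))) (T.h (T.h (P (nat_lit 0)) (P (nat_lit 17977681062672))) (P (nat_lit 0))))))) (T.h (P (nat_lit 0)) (T.h (T.h (T.h (P (nat_lit 0)) (T.h (T.h (M (nat_lit 79389047903)) (T.h (P (nat_lit 0)) (T.h (M (nat_lit 2875246828851)) (T.h (P (nat_lit 0)) (M (nat_lit 26186567296835)))))) (T.h (P (nat_lit 0)) (T.h (T.h (M (nat_lit 109796271415)) (T.h (P (nat_lit 0)) (P (nat_lit 779544424052)))) (T.h (P (nat_lit 0)) (M (nat_lit 10977435518695))))))) (T.h (T.h (T.h (P (nat_lit 0)) (T.h (P (nat_lit 952510364944)) (T.h (P (nat_lit 0)) (P (nat_lit 6415130014640))))) (T.h (P (nat_lit 0)) (T.h (T.h (P (nat_lit 0)) (M (nat_lit 4799197295903))) (P (nat_lit 0))))) (T.h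 (T.h (P (nat_lit 0)) (T.h (T.h (M (nat_lit 2875246828851)) (T.h (P (nat_lit 0)) (P (nat_lit 27568067698024)))) (T.h (P (nat_lit 0)) (P (nat_lit 779544424052))))) (T.h (T.h (T.h (P (nat_lit 0)) (P (nat_lit 6415130014640))) (P (nat_lit 0))) (T.h (T.h (P (nat_lit 0)) (M (nat_lit 26186567296835))) (P (nat_lit 0))))))) (P (nat_lit 0)))))) et2_8))
def et2_10 : T ℤ := (T.h (T.h (P (nat_lit 0)) (T.h (T.h (T.h (P (nat_lit 0)) (T.h (T.h (P (nat_lit 0)) (T.h (M (nat_lit 27723870559)) (T.h (P (nat_lit 0)) (P (nat_lit 40641042004))))) (T.h (P (nat_lit 0)) (T.h (T.h (P (nat_lit 0)) (P (nat_lit 40641042004))) (P (nat_lit 0)))))) (T.h (T.h (T.h (P (nat_lit 451539064)) (T.h (P (nat_lit 0)) (T.h (M (nat_lit 150249693523)) (T.h (P (nat_lit 0)) (M (nat_lit 4744264836223)))))) (T.h (P (nat_lit 0)) (T.h (T.h (M (nat_lit 150249693523)) (T.h (P (nat_lit 0)) (P (nat_lit 10511701108192)))) (T.h (P (nat_lit 0)) (M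 (nat_lit 4744264836223)))))) (T.h (T.h (P (nat_lit 0)) (T.h (T.h (P (nat_lit 0)) (M (nat_lit 708304954207))) (P (nat_lit 0)))) (T.h (T.h (T.h (M (nat_lit 152070750959)) (T.h (P (nat_lit 0)) (M (nat_lit 488412650699)))) (T.h (P (nat_lit 0)) (M (nat_lit 488412650699)))) (T.h (P (nat_lit 0)) (M (nat_lit 213979276927))))))) (T.h (P (nat_lit 0)) (T.h (T.h (T.h (P (nat_lit 0)) (T.h (T.h (P (nat_lit 0)) (T.h (M (nat_lit 122460090703)) (T.h (P (nat_lit 0)) (P (nat_lit 5400812317416))))) (T.h (P (nat_lit 0)) (T.h (T.h (P (nat_lit 0)) (M (nat_lit 9536113779015))) (P (nat_lit 0)))))) (T.h (T.h (T.h (P (nat_lit 29739405476)) (T.h (P (nat_lit 0)) (T.h (M (nat_lit 849860184059)) (T.h (P (nat_lit 0)) (P (nat_lit 5784253789352)))))) (T.h (P (nat_lit 0)) (T.h (T.h (M (nat_lit 242481090943)) (T.h (P (nat_lit 0)) (P (nat_lit 99476264680)))) (T.h (P (nat_lit 0)) (M (nat_lit 9268915055763)))))) (T.h (T.h (P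 (nat_lit 0)) (T.h (T.h (P (nat_lit 0)) (P (nat_lit 12751241177520))) (P (nat_lit 0)))) (T.h (T.h (T.h (M (nat_lit 443556171479)) (T.h (P (nat_lit 0)) (M (nat_lit 12768410200339)))) (T.h (P (nat_lit 0)) (P (nat_lit 2756946226892)))) (T.h (P (nat_lit 0)) (M (nat_lit 5945771866891))))))) (P (nat_lit 0)))))) (T.h (T.h (T.h (T.h (T.h (P (nat_lit 3147696948)) (T.h (P (nat_lit 0)) (T.h (M (nat_lit 6074878675)) (T.h (P (nat_lit 0)) (M (nat_lit 424250730151)))))) (T.h (P (nat_lit 0)) (T.h (T.h (P (nat_lit 117765816400)) (T.h (P (nat_lit 0)) (P (nat_lit 2261696766132)))) (T.h (P (nat_lit 0)) (P (nat_lit 2156130625160)))))) (T.h (T.h (P (nat_lit 0)) (T.h (T.h (P (nat_lit 0)) (T.h (M (nat_lit 174455711479)) (T.h (P (nat_lit 0)) (P (nat_lit 4515633972144))))) (T.h (P (nat_lit 0)) (T.h (T.h (P (nat_lit 0)) (M (nat_lit 8462011939007))) (P (nat_lit 0)))))) (T.h (T.h (T.h (M (nat_lit 16459071803)) (T.h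 (P (nat_lit 0)) (P (nat_lit 1026660809408)))) (T.h (P (nat_lit 0)) (M (nat_lit 1235062876259)))) (T.h (T.h (P (nat_lit 0)) (T.h (T.h (P (nat_lit 0)) (P (nat_lit 918026451392))) (P (nat_lit 0)))) (P (nat_lit 985883581332)))))) (T.h (P (nat_lit 0)) (T.h (T.h (T.h (T.h (M (nat_lit 2242089927)) (T.h (P (nat_lit 0)) (T.h (P (nat_lit 246642149844)) (T.h (P (nat_lit 0)) (M (nat_lit 1667108450251)))))) (T.h (P (nat_lit 0)) (T.h (T.h (P (nat_lit 246642149844)) (T.h (P (nat_lit 0)) (M (nat_lit 16440716977559)))) (T.h (P (nat_lit 0)) (M (nat_lit 1667108450251)))))) (T.h (T.h (P (nat_lit 0)) (T.h (T.h (P (nat_lit 0)) (T.h (M (nat_lit 3632643078687)) (T.h (P (nat_lit 0)) (P (nat_lit 3725753990360))))) (T.h (P (nat_lit 0)) (T.h (T.h (P (nat_lit 0)) (P (nat_lit 3725753990360))) (P (nat_lit 0)))))) (T.h (T.h (T.h (P (nat_lit 2720625592)) (T.h (P (nat_lit 0)) (P (nat_lit 6478522588200)))) (T.h (P (nat_lit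 0)) (P (nat_lit 6478522588200)))) (T.h (T.h (P (nat_lit 0)) (T.h (T.h (P (nat_lit 0)) (M (nat_lit 24861310695247))) (P (nat_lit 0)))) (P (nat_lit 3429856973328)))))) (P (nat_lit 0))))) (T.h (T.h (P (nat_lit 0)) (T.h (T.h (T.h (P (nat_lit 0)) (T.h (T.h (P (nat_lit 0)) (T.h (M (nat_lit 122460090703)) (T.h (P (nat_lit 0)) (M (nat_lit 9536113779015))))) (T.h (P (nat_lit 0)) (T.h (T.h (P (nat_lit 0)) (P (nat_lit 5400812317416))) (P (nat_lit 0)))))) (T.h (T.h (T.h (P (nat_lit 29739405476)) (T.h (P (nat_lit 0)) (T.h (M (nat_lit 242481090943)) (T.h (P (nat_lit 0)) (M (nat_lit 9268915055763)))))) (T.h (P (nat_lit 0)) (T.h (T.h (M (nat_lit 849860184059)) (T.h (P (nat_lit 0)) (P (nat_lit 99476264680)))) (T.h (P (nat_lit 0)) (P (nat_lit 5784253789352)))))) (T.h (T.h (P (nat_lit 0)) (T.h (T.h (P (nat_lit 0)) (P (nat_lit 12751241177520))) (P (nat_lit 0)))) (T.h (T.h (T.h (M (nat_lit 443556171479)) (T.h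 (P (nat_lit 0)) (P (nat_lit 2756946226892)))) (T.h (P (nat_lit 0)) (M (nat_lit 12768410200339)))) (T.h (P (nat_lit 0)) (M (nat_lit 5945771866891))))))) (P (nat_lit 0)))) (T.h (T.h (T.h (T.h (T.h (M (nat_lit 200709367)) (T.h (P (nat_lit 0)) (T.h (M (nat_lit 122498410175)) (T.h (P (nat_lit 0)) (M (nat_lit 2083653279423)))))) (T.h (P (nat_lit 0)) (T.h (T.h (M (nat_lit 193744543275)) (T.h (P (nat_lit 0)) (P (nat_lit 2643334867812)))) (T.h (P (nat_lit 0)) (M (nat_lit 2390335970371)))))) (T.h (T.h (P (nat_lit 0)) (T.h (T.h (P (nat_lit 0)) (T.h (P (nat_lit 1467518063088)) (T.h (P (nat_lit 0)) (M (nat_lit 4333963533087))))) (T.h (P (nat_lit 0)) (T.h (T.h (P (nat_lit 0)) (P (nat_lit 37109705931264))) (P (nat_lit 0)))))) (T.h (T.h (T.h (M (nat_lit 193744543275)) (T.h (P (nat_lit 0)) (P (nat_lit 2643334867812)))) (T.h (P (nat_lit 0)) (P (nat_lit 1924909032480)))) (T.h (T.h (P (nat_lit 0)) (T.h (T.h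 (P (nat_lit 0)) (P (nat_lit 37109705931264))) (P (nat_lit 0)))) (M (nat_lit 2390335970371)))))) (P (nat_lit 0))) (P (nat_lit 0))))))
def et2_11 : T ℤ := (T.h (T.h (T.h (T.h (T.h (P (nat_lit 0)) (T.h (M (nat_lit 1192928711)) (T.h (P (nat_lit 0)) (T.h (P (nat_lit 127141490632)) (T.h (P (nat_lit 0)) (M (nat_lit 649350780143))))))) (T.h (P (nat_lit 0)) (T.h (T.h (P (nat_lit 0)) (T.h (P (nat_lit 450036264312)) (T.h (P (nat_lit 0)) (P (nat_lit 19344876059712))))) (T.h (P (nat_lit 0)) (T.h (T.h (P (nat_lit 0)) (P (nat_lit 2356344339528))) (P (nat_lit 0))))))) (T.h (T.h (P (nat_lit 0)) (T.h (T.h (M (nat_lit 88381836715)) (T.h (P (nat_lit 0)) (P (nat_lit 943263233584)))) (T.h (P (nat_lit 0)) (M (nat_lit 102349570623))))) (T.h (T.h (T.h (P (nat_lit 0)) (T.h (M (nat_lit 161115224011)) (T.h (P (nat_lit 0)) (P (nat_lit 1375382695752))))) (T.h (P (nat_lit 0)) (T.h (T.h (P (nat_lit 0)) (M (nat_lit 1899435808091)))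 (P (nat_lit 0))))) (T.h (T.h (P (nat_lit 0)) (M (nat_lit 454938147595))) (T.h (T.h (T.h (P (nat_lit 0)) (P (nat_lit 8416866220116))) (P (nat_lit 0))) (P (nat_lit 0))))))) (T.h (P (nat_lit 0)) (T.h (T.h (T.h (T.h (P (nat_lit 0)) (T.h (P (nat_lit 30042604000)) (T.h (P (nat_lit 0)) (T.h (M (nat_lit 1138987966163)) (T.h (P (nat_lit 0)) (M (nat_lit 5672963075131))))))) (T.h (P (nat_lit 0)) (T.h (T.h (P (nat_lit 0)) (T.h (P (nat_lit 707329828364)) (T.h (P (nat_lit 0)) (M (nat_lit 21109056146231))))) (T.h (P (nat_lit 0)) (T.h (T.h (P (nat_lit 0)) (P (nat_lit 2438385937704))) (P (nat_lit 0))))))) (T.h (T.h (P (nat_lit 0)) (T.h (T.h (M (nat_lit 164719688823)) (T.h (P (nat_lit 0)) (P (nat_lit 1278992123788)))) (T.h (P (nat_lit 0)) (P (nat_lit 5401689812516))))) (T.h (T.h (T.h (P (nat_lit 0)) (T.h (P (nat_lit 1591696426456)) (T.h (P (nat_lit 0)) (M (nat_lit 11862328742343))))) (T.h (P (nat_lit 0))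 (T.h (T.h (P (nat_lit 0)) (P (nat_lit 20777838753236))) (P (nat_lit 0))))) (T.h (T.h (P (nat_lit 0)) (P (nat_lit 4381233360376))) (T.h (T.h (T.h (P (nat_lit 0)) (M (nat_lit 34284886752367))) (P (nat_lit 0))) (P (nat_lit 0))))))) (P (nat_lit 0))))) (T.h (T.h (P (nat_lit 0)) (T.h (T.h (T.h (P (nat_lit 0)) (T.h (T.h (P (nat_lit 30042604000)) (T.h (P (nat_lit 0)) (T.h (P (nat_lit 707329828364)) (T.h (P (nat_lit 0)) (P (nat_lit 2438385937704)))))) (T.h (P (nat_lit 0)) (T.h (T.h (M (nat_lit 1138987966163)) (T.h (P (nat_lit 0)) (M (nat_lit 21109056146231)))) (T.h (P (nat_lit 0)) (M (nat_lit 5672963075131))))))) (T.h (T.h (T.h (P (nat_lit 0)) (T.h (M (nat_lit 164719688823)) (T.h (P (nat_lit 0)) (P (nat_lit 5401689812516))))) (T.h (P (nat_lit 0)) (T.h (T.h (P (nat_lit 0)) (P (nat_lit 1278992123788))) (P (nat_lit 0))))) (T.h (T.h (P (nat_lit 0)) (T.h (T.h (P (nat_lit 1591696426456)) (T.h (P (nat_lit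 0)) (P (nat_lit 20777838753236)))) (T.h (P (nat_lit 0)) (M (nat_lit 11862328742343))))) (T.h (T.h (T.h (P (nat_lit 0)) (P (nat_lit 4381233360376))) (P (nat_lit 0))) (T.h (T.h (P (nat_lit 0)) (M (nat_lit 34284886752367))) (P (nat_lit 0))))))) (P (nat_lit 0)))) (T.h (T.h (T.h (T.h (T.h (P (nat_lit 0)) (T.h (P (nat_lit 6022870772)) (T.h (P (nat_lit 0)) (T.h (P (nat_lit 368102276884)) (T.h (P (nat_lit 0)) (M (nat_lit 774739217531))))))) (T.h (P (nat_lit 0)) (T.h (T.h (P (nat_lit 0)) (T.h (P (nat_lit 168325467384)) (T.h (P (nat_lit 0)) (M (nat_lit 27666856141599))))) (T.h (P (nat_lit 0)) (T.h (T.h (P (nat_lit 0)) (P (nat_lit 947848432364))) (P (nat_lit 0))))))) (T.h (T.h (P (nat_lit 0)) (T.h (T.h (M (nat_lit 169667294807)) (T.h (P (nat_lit 0)) (P (nat_lit 1444323792016)))) (T.h (P (nat_lit 0)) (P (nat_lit 25575599568))))) (T.h (T.h (T.h (P (nat_lit 0)) (T.h (P (nat_lit 38272356360)) (T.h (P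 (nat_lit 0)) (M (nat_lit 4127626133167))))) (T.h (P (nat_lit 0)) (T.h (T.h (P (nat_lit 0)) (P (nat_lit 20024795690196))) (P (nat_lit 0))))) (T.h (T.h (P (nat_lit 0)) (M (nat_lit 2932758571543))) (T.h (T.h (T.h (P (nat_lit 0)) (P (nat_lit 930353612148))) (P (nat_lit 0))) (P (nat_lit 0))))))) (P (nat_lit 0))) (P (nat_lit 0)))))
def et2_12 : T ℤ := (T.h (T.h (T.h (T.h (T.h (T.h (P (nat_lit 587805808)) (T.h (P (nat_lit 0)) (T.h (M (nat_lit 25761194947)) (T.h (P (nat_lit 0)) (M (nat_lit 316214089251)))))) (T.h (P (nat_lit 0)) (T.h (T.h (M (nat_lit 25761194947)) (T.h (P (nat_lit 0)) (M (nat_lit 265709111823)))) (T.h (P (nat_lit 0)) (M (nat_lit 316214089251)))))) (T.h (T.h (P (nat_lit 0)) (T.h (T.h (P (nat_lit 0)) (T.h (M (nat_lit 34535916143)) (T.h (P (nat_lit 0)) (M (nat_lit 4608702110903))))) (T.h (P (nat_lit 0)) (T.h (T.h (P (nat_lit 0)) (M (nat_lit 4608702110903))) (P (nat_lit 0)))))) (T.h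 (T.h (T.h (P (nat_lit 5729927896)) (T.h (P (nat_lit 0)) (P (nat_lit 1117800092072)))) (T.h (P (nat_lit 0)) (P (nat_lit 1117800092072)))) (T.h (T.h (P (nat_lit 0)) (T.h (T.h (P (nat_lit 0)) (P (nat_lit 14485146854592))) (P (nat_lit 0)))) (M (nat_lit 592447883759)))))) (T.h (P (nat_lit 0)) (T.h (T.h (T.h (T.h (P (nat_lit 365793960)) (T.h (P (nat_lit 0)) (T.h (M (nat_lit 118063082407)) (T.h (P (nat_lit 0)) (M (nat_lit 811391337167)))))) (T.h (P (nat_lit 0)) (T.h (T.h (P (nat_lit 12414532524)) (T.h (P (nat_lit 0)) (M (nat_lit 2372256309519)))) (T.h (P (nat_lit 0)) (P (nat_lit 885877270984)))))) (T.h (T.h (P (nat_lit 0)) (T.h (T.h (P (nat_lit 0)) (T.h (P (nat_lit 904139935248)) (T.h (P (nat_lit 0)) (P (nat_lit 14942801835672))))) (T.h (P (nat_lit 0)) (T.h (T.h (P (nat_lit 0)) (M (nat_lit 5740752460471))) (P (nat_lit 0)))))) (T.h (T.h (T.h (P (nat_lit 42586107572)) (T.h (P (nat_lit 0)) (M (nat_lit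 4330367752871)))) (T.h (P (nat_lit 0)) (M (nat_lit 582270931043)))) (T.h (T.h (P (nat_lit 0)) (T.h (T.h (P (nat_lit 0)) (M (nat_lit 5222579762423))) (P (nat_lit 0)))) (M (nat_lit 1319079922819)))))) (P (nat_lit 0))))) (T.h (T.h (P (nat_lit 0)) (T.h (T.h (T.h (P (nat_lit 0)) (T.h (T.h (P (nat_lit 0)) (T.h (M (nat_lit 46881677767)) (T.h (P (nat_lit 0)) (M (nat_lit 1929050766059))))) (T.h (P (nat_lit 0)) (T.h (T.h (P (nat_lit 0)) (M (nat_lit 1929050766059))) (P (nat_lit 0)))))) (T.h (T.h (T.h (M (nat_lit 5860068391)) (T.h (P (nat_lit 0)) (T.h (P (nat_lit 1038682368064)) (T.h (P (nat_lit 0)) (P (nat_lit 3591706961348)))))) (T.h (P (nat_lit 0)) (T.h (T.h (P (nat_lit 1038682368064)) (T.h (P (nat_lit 0)) (M (nat_lit 16872188289447)))) (T.h (P (nat_lit 0)) (P (nat_lit 3591706961348)))))) (T.h (T.h (P (nat_lit 0)) (T.h (T.h (P (nat_lit 0)) (M (nat_lit 7052927890583))) (P (nat_lit 0)))) (T.h (T.h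 (T.h (P (nat_lit 472269417800)) (T.h (P (nat_lit 0)) (M (nat_lit 19899401583451)))) (T.h (P (nat_lit 0)) (M (nat_lit 19899401583451)))) (T.h (P (nat_lit 0)) (M (nat_lit 1946652140807))))))) (P (nat_lit 0)))) (T.h (T.h (T.h (T.h (T.h (P (nat_lit 365793960)) (T.h (P (nat_lit 0)) (T.h (P (nat_lit 12414532524)) (T.h (P (nat_lit 0)) (P (nat_lit 885877270984)))))) (T.h (P (nat_lit 0)) (T.h (T.h (M (nat_lit 118063082407)) (T.h (P (nat_lit 0)) (M (nat_lit 2372256309519)))) (T.h (P (nat_lit 0)) (M (nat_lit 811391337167)))))) (T.h (T.h (P (nat_lit 0)) (T.h (T.h (P (nat_lit 0)) (T.h (P (nat_lit 904139935248)) (T.h (P (nat_lit 0)) (M (nat_lit 5740752460471))))) (T.h (P (nat_lit 0)) (T.h (T.h (P (nat_lit 0)) (P (nat_lit 14942801835672))) (P (nat_lit 0)))))) (T.h (T.h (T.h (P (nat_lit 42586107572)) (T.h (P (nat_lit 0)) (M (nat_lit 582270931043)))) (T.h (P (nat_lit 0)) (M (nat_lit 4330367752871)))) (T.h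 (T.h (P (nat_lit 0)) (T.h (T.h (P (nat_lit 0)) (M (nat_lit 5222579762423))) (P (nat_lit 0)))) (M (nat_lit 1319079922819)))))) (P (nat_lit 0))) (P (nat_lit 0))))) (T.h (T.h (T.h (P (nat_lit 0)) (T.h (T.h (T.h (P (nat_lit 0)) (T.h (T.h (P (nat_lit 1845688324)) (T.h (P (nat_lit 0)) (T.h (M (nat_lit 375624811931)) (T.h (P (nat_lit 0)) (M (nat_lit 3068981489055)))))) (T.h (P (nat_lit 0)) (T.h (T.h (M (nat_lit 145807984827)) (T.h (P (nat_lit 0)) (M (nat_lit 17636438051107)))) (T.h (P (nat_lit 0)) (P (nat_lit 2483090652))))))) (T.h (T.h (T.h (P (nat_lit 0)) (T.h (P (nat_lit 106939623576)) (T.h (P (nat_lit 0)) (M (nat_lit 629105433079))))) (T.h (P (nat_lit 0)) (T.h (T.h (P (nat_lit 0)) (M (nat_lit 1304089302135))) (P (nat_lit 0))))) (T.h (T.h (P (nat_lit 0)) (T.h (T.h (P (nat_lit 94197398076)) (T.h (P (nat_lit 0)) (P (nat_lit 10425751850088)))) (T.h (P (nat_lit 0)) (M (nat_lit 2868146138507)))))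 (T.h (T.h (T.h (P (nat_lit 0)) (P (nat_lit 439082881992))) (P (nat_lit 0))) (T.h (T.h (P (nat_lit 0)) (M (nat_lit 7008099596003))) (P (nat_lit 0))))))) (P (nat_lit 0)))) (T.h (T.h (T.h (T.h (T.h (P (nat_lit 0)) (T.h (P (nat_lit 1845688324)) (T.h (P (nat_lit 0)) (T.h (M (nat_lit 145807984827)) (T.h (P (nat_lit 0)) (P (nat_lit 2483090652))))))) (T.h (P (nat_lit 0)) (T.h (T.h (P (nat_lit 0)) (T.h (M (nat_lit 375624811931)) (T.h (P (nat_lit 0)) (M (nat_lit 17636438051107))))) (T.h (P (nat_lit 0)) (T.h (T.h (P (nat_lit 0)) (M (nat_lit 3068981489055))) (P (nat_lit 0))))))) (T.h (T.h (P (nat_lit 0)) (T.h (T.h (P (nat_lit 106939623576)) (T.h (P (nat_lit 0)) (M (nat_lit 1304089302135)))) (T.h (P (nat_lit 0)) (M (nat_lit 629105433079))))) (T.h (T.h (T.h (P (nat_lit 0)) (T.h (P (nat_lit 94197398076)) (T.h (P (nat_lit 0)) (M (nat_lit 2868146138507))))) (T.h (P (nat_lit 0)) (T.h (T.h (P (nat_lit 0))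 (P (nat_lit 10425751850088))) (P (nat_lit 0))))) (T.h (T.h (P (nat_lit 0)) (P (nat_lit 439082881992))) (T.h (T.h (T.h (P (nat_lit 0)) (M (nat_lit 7008099596003))) (P (nat_lit 0))) (P (nat_lit 0))))))) (P (nat_lit 0))) (P (nat_lit 0)))) (T.h (T.h (T.h (T.h (T.h (T.h (P (nat_lit 513195328)) (T.h (P (nat_lit 0)) (T.h (P (nat_lit 25291338964)) (T.h (P (nat_lit 0)) (P (nat_lit 352663233468)))))) (T.h (P (nat_lit 0)) (T.h (T.h (P (nat_lit 25291338964)) (T.h (P (nat_lit 0)) (P (nat_lit 130322723224)))) (T.h (P (nat_lit 0)) (P (nat_lit 352663233468)))))) (T.h (T.h (P (nat_lit 0)) (T.h (T.h (P (nat_lit 0)) (T.h (M (nat_lit 21306739199)) (T.h (P (nat_lit 0)) (P (nat_lit 5457874917768))))) (T.h (P (nat_lit 0)) (T.h (T.h (P (nat_lit 0)) (P (nat_lit 5457874917768))) (P (nat_lit 0)))))) (T.h (T.h (T.h (M (nat_lit 4500353183)) (T.h (P (nat_lit 0)) (M (nat_lit 1126027952651)))) (T.h (P (nat_lit 0)) (M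 (nat_lit 1126027952651)))) (T.h (T.h (P (nat_lit 0)) (T.h (T.h (P (nat_lit 0)) (M (nat_lit 13339583602655))) (P (nat_lit 0)))) (P (nat_lit 562175943760)))))) (P (nat_lit 0))) (P (nat_lit 0))) (P (nat_lit 0)))))
def et2_13 : T ℤ := (T.h (T.h (T.h (P (nat_lit 0)) (T.h (P (nat_lit 0)) (T.h (P (nat_lit 0)) (T.h (T.h (T.h (P (nat_lit 0)) (T.h (T.h (M (nat_lit 2031876839)) (T.h (P (nat_lit 0)) (T.h (M (nat_lit 401236166411)) (T.h (P (nat_lit 0)) (M (nat_lit 9917824041891)))))) (T.h (P (nat_lit 0)) (T.h (T.h (M (nat_lit 368550455)) (T.h (P (nat_lit 0)) (M (nat_lit 1260390453595)))) (T.h (P (nat_lit 0)) (P (nat_lit 3605496764048))))))) (T.h (T.h (T.h (P (nat_lit 0)) (T.h (P (nat_lit 108055855752)) (T.h (P (nat_lit 0)) (M (nat_lit 3019016568599))))) (T.h (P (nat_lit 0)) (T.h (T.h (P (nat_lit 0)) (M (nat_lit 3932021928103))) (P (nat_lit 0))))) (T.h (T.h (P (nat_lit 0)) (T.h (T.h (M (nat_lit 401236166411))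 (T.h (P (nat_lit 0)) (M (nat_lit 6498869996175)))) (T.h (P (nat_lit 0)) (M (nat_lit 1260390453595))))) (T.h (T.h (T.h (P (nat_lit 0)) (M (nat_lit 3019016568599))) (P (nat_lit 0))) (T.h (T.h (P (nat_lit 0)) (M (nat_lit 9917824041891))) (P (nat_lit 0))))))) (T.h (P (nat_lit 0)) (T.h (T.h (T.h (P (nat_lit 0)) (T.h (T.h (P (nat_lit 6022870772)) (T.h (P (nat_lit 0)) (T.h (P (nat_lit 38272356360)) (T.h (P (nat_lit 0)) (P (nat_lit 930353612148)))))) (T.h (P (nat_lit 0)) (T.h (T.h (P (nat_lit 368102276884)) (T.h (P (nat_lit 0)) (M (nat_lit 4127626133167)))) (T.h (P (nat_lit 0)) (M (nat_lit 774739217531))))))) (T.h (T.h (T.h (P (nat_lit 0)) (T.h (M (nat_lit 169667294807)) (T.h (P (nat_lit 0)) (M (nat_lit 2932758571543))))) (T.h (P (nat_lit 0)) (T.h (T.h (P (nat_lit 0)) (P (nat_lit 1444323792016))) (P (nat_lit 0))))) (T.h (T.h (P (nat_lit 0)) (T.h (T.h (P (nat_lit 168325467384)) (T.h (P (nat_lit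 0)) (P (nat_lit 20024795690196)))) (T.h (P (nat_lit 0)) (M (nat_lit 27666856141599))))) (T.h (T.h (T.h (P (nat_lit 0)) (P (nat_lit 25575599568))) (P (nat_lit 0))) (T.h (T.h (P (nat_lit 0)) (P (nat_lit 947848432364))) (P (nat_lit 0))))))) (P (nat_lit 0)))))))) et2_9) (T.h (T.h (T.h (P (nat_lit 0)) (T.h (P (nat_lit 0)) (T.h (T.h (T.h (T.h (P (nat_lit 3147696948)) (T.h (P (nat_lit 0)) (T.h (P (nat_lit 117765816400)) (T.h (P (nat_lit 0)) (P (nat_lit 2156130625160)))))) (T.h (P (nat_lit 0)) (T.h (T.h (M (nat_lit 6074878675)) (T.h (P (nat_lit 0)) (P (nat_lit 2261696766132)))) (T.h (P (nat_lit 0)) (M (nat_lit 424250730151)))))) (T.h (T.h (P (nat_lit 0)) (T.h (T.h (P (nat_lit 0)) (T.h (M (nat_lit 174455711479)) (T.h (P (nat_lit 0)) (M (nat_lit 8462011939007))))) (T.h (P (nat_lit 0)) (T.h (T.h (P (nat_lit 0)) (P (nat_lit 4515633972144))) (P (nat_lit 0)))))) (T.h (T.h (T.h (M (nat_lit 16459071803))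 (T.h (P (nat_lit 0)) (M (nat_lit 1235062876259)))) (T.h (P (nat_lit 0)) (P (nat_lit 1026660809408)))) (T.h (T.h (P (nat_lit 0)) (T.h (T.h (P (nat_lit 0)) (P (nat_lit 918026451392))) (P (nat_lit 0)))) (P (nat_lit 985883581332)))))) (T.h (P (nat_lit 0)) (T.h (T.h (T.h (T.h (M (nat_lit 200709367)) (T.h (P (nat_lit 0)) (T.h (M (nat_lit 193744543275)) (T.h (P (nat_lit 0)) (M (nat_lit 2390335970371)))))) (T.h (P (nat_lit 0)) (T.h (T.h (M (nat_lit 122498410175)) (T.h (P (nat_lit 0)) (P (nat_lit 2643334867812)))) (T.h (P (nat_lit 0)) (M (nat_lit 2083653279423)))))) (T.h (T.h (P (nat_lit 0)) (T.h (T.h (P (nat_lit 0)) (T.h (P (nat_lit 1467518063088)) (T.h (P (nat_lit 0)) (P (nat_lit 37109705931264))))) (T.h (P (nat_lit 0)) (T.h (T.h (P (nat_lit 0)) (M (nat_lit 4333963533087))) (P (nat_lit 0)))))) (T.h (T.h (T.h (M (nat_lit 193744543275)) (T.h (P (nat_lit 0)) (P (nat_lit 1924909032480)))) (T.h (P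 (nat_lit 0)) (P (nat_lit 2643334867812)))) (T.h (T.h (P (nat_lit 0)) (T.h (T.h (P (nat_lit 0)) (P (nat_lit 37109705931264))) (P (nat_lit 0)))) (M (nat_lit 2390335970371)))))) (P (nat_lit 0))))))) et2_10) (T.h (T.h (T.h (P (nat_lit 0)) (T.h (T.h (T.h (P (nat_lit 0)) (T.h (T.h (M (nat_lit 1192928711)) (T.h (P (nat_lit 0)) (T.h (P (nat_lit 450036264312)) (T.h (P (nat_lit 0)) (P (nat_lit 2356344339528)))))) (T.h (P (nat_lit 0)) (T.h (T.h (P (nat_lit 127141490632)) (T.h (P (nat_lit 0)) (P (nat_lit 19344876059712)))) (T.h (P (nat_lit 0)) (M (nat_lit 649350780143))))))) (T.h (T.h (T.h (P (nat_lit 0)) (T.h (M (nat_lit 88381836715)) (T.h (P (nat_lit 0)) (M (nat_lit 102349570623))))) (T.h (P (nat_lit 0)) (T.h (T.h (P (nat_lit 0)) (P (nat_lit 943263233584))) (P (nat_lit 0))))) (T.h (T.h (P (nat_lit 0)) (T.h (T.h (M (nat_lit 161115224011)) (T.h (P (nat_lit 0)) (M (nat_lit 1899435808091)))) (T.h (P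 (nat_lit 0)) (P (nat_lit 1375382695752))))) (T.h (T.h (T.h (P (nat_lit 0)) (M (nat_lit 454938147595))) (P (nat_lit 0))) (T.h (T.h (P (nat_lit 0)) (P (nat_lit 8416866220116))) (P (nat_lit 0))))))) (T.h (P (nat_lit 0)) (T.h (T.h (T.h (P (nat_lit 0)) (T.h (T.h (P (nat_lit 6022870772)) (T.h (P (nat_lit 0)) (T.h (P (nat_lit 168325467384)) (T.h (P (nat_lit 0)) (P (nat_lit 947848432364)))))) (T.h (P (nat_lit 0)) (T.h (T.h (P (nat_lit 368102276884)) (T.h (P (nat_lit 0)) (M (nat_lit 27666856141599)))) (T.h (P (nat_lit 0)) (M (nat_lit 774739217531))))))) (T.h (T.h (T.h (P (nat_lit 0)) (T.h (M (nat_lit 169667294807)) (T.h (P (nat_lit 0)) (P (nat_lit 25575599568))))) (T.h (P (nat_lit 0)) (T.h (T.h (P (nat_lit 0)) (P (nat_lit 1444323792016))) (P (nat_lit 0))))) (T.h (T.h (P (nat_lit 0)) (T.h (T.h (P (nat_lit 38272356360)) (T.h (P (nat_lit 0)) (P (nat_lit 20024795690196)))) (T.h (P (nat_lit 0)) (M (nat_lit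 4127626133167))))) (T.h (T.h (T.h (P (nat_lit 0)) (M (nat_lit 2932758571543))) (P (nat_lit 0))) (T.h (T.h (P (nat_lit 0)) (P (nat_lit 930353612148))) (P (nat_lit 0))))))) (P (nat_lit 0)))))) et2_11) et2_12)))

def t2 : T ℤ := (T.h et2_2 (T.h (T.h (T.h (P (nat_lit 0)) (T.h (P (nat_lit 0)) (T.h (P (nat_lit 0)) (T.h (P (nat_lit 0)) (T.h (P (nat_lit 0)) (T.h (T.h (T.h (P (nat_lit 0)) (T.h (T.h (M (nat_lit 1192928711)) (T.h (P (nat_lit 0)) (T.h (M (nat_lit 161115224011)) (T.h (P (nat_lit 0)) (P (nat_lit 8416866220116)))))) (T.h (P (nat_lit 0)) (T.h (T.h (P (nat_lit 127141490632)) (T.h (P (nat_lit 0)) (P (nat_lit 1375382695752)))) (T.h (P (nat_lit 0)) (M (nat_lit 649350780143))))))) (T.h (T.h (T.h (P (nat_lit 0)) (T.h (M (nat_lit 88381836715)) (T.h (P (nat_lit 0)) (M (nat_lit 454938147595))))) (T.h (P (nat_lit 0)) (T.h (T.h (P (nat_lit 0)) (P (nat_lit 943263233584))) (P (nat_lit 0))))) (T.h (T.h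 (P (nat_lit 0)) (T.h (T.h (P (nat_lit 450036264312)) (T.h (P (nat_lit 0)) (M (nat_lit 1899435808091)))) (T.h (P (nat_lit 0)) (P (nat_lit 19344876059712))))) (T.h (T.h (T.h (P (nat_lit 0)) (M (nat_lit 102349570623))) (P (nat_lit 0))) (T.h (T.h (P (nat_lit 0)) (P (nat_lit 2356344339528))) (P (nat_lit 0))))))) (T.h (P (nat_lit 0)) (T.h (T.h (T.h (P (nat_lit 0)) (T.h (T.h (P (nat_lit 1845688324)) (T.h (P (nat_lit 0)) (T.h (P (nat_lit 94197398076)) (T.h (P (nat_lit 0)) (M (nat_lit 7008099596003)))))) (T.h (P (nat_lit 0)) (T.h (T.h (M (nat_lit 145807984827)) (T.h (P (nat_lit 0)) (M (nat_lit 2868146138507)))) (T.h (P (nat_lit 0)) (P (nat_lit 2483090652))))))) (T.h (T.h (T.h (P (nat_lit 0)) (T.h (P (nat_lit 106939623576)) (T.h (P (nat_lit 0)) (P (nat_lit 439082881992))))) (T.h (P (nat_lit 0)) (T.h (T.h (P (nat_lit 0)) (M (nat_lit 1304089302135))) (P (nat_lit 0))))) (T.h (T.h (P (nat_lit 0)) (T.h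 (T.h (M (nat_lit 375624811931)) (T.h (P (nat_lit 0)) (P (nat_lit 10425751850088)))) (T.h (P (nat_lit 0)) (M (nat_lit 17636438051107))))) (T.h (T.h (T.h (P (nat_lit 0)) (M (nat_lit 629105433079))) (P (nat_lit 0))) (T.h (T.h (P (nat_lit 0)) (M (nat_lit 3068981489055))) (P (nat_lit 0))))))) (P (nat_lit 0)))))))))) et2_5) (T.h et2_7 et2_13)))

theorem h_t2 : chkT (c.G g2) t2 = true := by decide +kernel


end Pool.Agent.TOPR.R6109
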