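import Pool.Agent.TOPR.R6109.Cert

set_option autoImplicit false
set_option linter.all false
set_option maxRecDepth 100000

namespace Pool.Agent.TOPR.R6109

open Helper10.PC hiding V3
open Helper80.CW.DL Pool.Agent.Helper6.TOP

def en11_0 : T ℤ := (T.h (T.h (T.h (T.h (P (nat_lit 0)) (T.h (T.h (P (nat_lit 3079171968)) (T.h (P (nat_lit 0)) (T.h (P (nat_lit 151748033784)) (T.h (P (nat_lit 0)) (P (nat_lit 2115979400808)))))) (T.h (P (nat_lit 0)) (T.h (T.h (M (nat_lit 9000706367)) (T.h (P (nat_lit 0)) (M (nat_lit 2252055905303)))) (T.h (P (nat_lit 0)) (P (nat_lit 674611132512))))))) (T.h (T.h (T.h (P (nat_lit 0)) (T.h (P (nat_lit 1401932736)) (T.h (P (nat_lit 0)) (T.h (M (nat_lit 1009438432415)) (T.h (P (nat_lit 0)) (M (nat_lit 5766496382975))))))) (T.h (P (nat_lit 0)) (T.h (T.h (P (nat_lit 0)) (T.h (M (nat_lit 63920217599)) (T.h (P (nat_lit 0)) (P (nat_lit 16373624753304))))) (T.h (P (nat_lit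 0)) (T.h (T.h (P (nat_lit 0)) (M (nat_lit 20009375403983))) (P (nat_lit 0))))))) (T.h (T.h (P (nat_lit 0)) (T.h (T.h (P (nat_lit 151748033784)) (T.h (P (nat_lit 0)) (P (nat_lit 781936339344)))) (T.h (P (nat_lit 0)) (M (nat_lit 2252055905303))))) (T.h (T.h (T.h (P (nat_lit 0)) (T.h (M (nat_lit 1009438432415)) (T.h (P (nat_lit 0)) (M (nat_lit 30319615311455))))) (T.h (P (nat_lit 0)) (T.h (T.h (P (nat_lit 0)) (P (nat_lit 16373624753304))) (P (nat_lit 0))))) (T.h (T.h (P (nat_lit 0)) (P (nat_lit 2115979400808))) (T.h (T.h (T.h (P (nat_lit 0)) (M (nat_lit 5766496382975))) (P (nat_lit 0))) (P (nat_lit 0)))))))) (T.h (P (nat_lit 0)) (T.h (T.h (T.h (P (nat_lit 0)) (T.h (T.h (P (nat_lit 292126736)) (T.h (P (nat_lit 0)) (T.h (P (nat_lit 267570622712)) (T.h (P (nat_lit 0)) (P (nat_lit 1348091116848)))))) (T.h (P (nat_lit 0)) (T.h (T.h (P (nat_lit 157770364768)) (T.h (P (nat_lit 0)) (M (nat_lit 9837534629343))))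 (T.h (P (nat_lit 0)) (P (nat_lit 3590797103280))))))) (T.h (T.h (T.h (P (nat_lit 0)) (T.h (M (nat_lit 12541190591)) (T.h (P (nat_lit 0)) (M (nat_lit 1408875750927))))) (T.h (P (nat_lit 0)) (T.h (T.h (P (nat_lit 0)) (M (nat_lit 1343813305751))) (P (nat_lit 0))))) (T.h (T.h (P (nat_lit 0)) (T.h (T.h (M (nat_lit 27064786767)) (T.h (P (nat_lit 0)) (P (nat_lit 2257505747744)))) (T.h (P (nat_lit 0)) (P (nat_lit 8984132773088))))) (T.h (T.h (T.h (P (nat_lit 0)) (P (nat_lit 95930575952))) (P (nat_lit 0))) (T.h (T.h (P (nat_lit 0)) (P (nat_lit 885720773488))) (P (nat_lit 0))))))) (P (nat_lit 0))))) (T.h (T.h (P (nat_lit 0)) (T.h (T.h (T.h (T.h (P (nat_lit 0)) (T.h (M (nat_lit 84097787)) (T.h (P (nat_lit 0)) (T.h (P (nat_lit 2015611652)) (T.h (P (nat_lit 0)) (M (nat_lit 1117043220383))))))) (T.h (P (nat_lit 0)) (T.h (T.h (P (nat_lit 0)) (T.h (M (nat_lit 36143505011)) (T.h (P (nat_lit 0)) (M (nat_lit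 1955823897683))))) (T.h (P (nat_lit 0)) (T.h (T.h (P (nat_lit 0)) (P (nat_lit 1974070232960))) (P (nat_lit 0))))))) (T.h (T.h (P (nat_lit 0)) (T.h (T.h (M (nat_lit 40330543)) (T.h (P (nat_lit 0)) (M (nat_lit 76683507831)))) (T.h (P (nat_lit 0)) (M (nat_lit 12488450191))))) (T.h (T.h (T.h (P (nat_lit 0)) (T.h (M (nat_lit 64229820991)) (T.h (P (nat_lit 0)) (P (nat_lit 769034346984))))) (T.h (P (nat_lit 0)) (T.h (T.h (P (nat_lit 0)) (P (nat_lit 825952661292))) (P (nat_lit 0))))) (T.h (T.h (P (nat_lit 0)) (P (nat_lit 1005324590560))) (T.h (T.h (T.h (P (nat_lit 0)) (M (nat_lit 1785946191999))) (P (nat_lit 0))) (P (nat_lit 0))))))) (P (nat_lit 0)))) (T.h (T.h (T.h (T.h (P (nat_lit 0)) (T.h (T.h (P (nat_lit 2310377344)) (T.h (P (nat_lit 0)) (T.h (P (nat_lit 75332450936)) (T.h (P (nat_lit 0)) (P (nat_lit 5659329760616)))))) (T.h (P (nat_lit 0)) (T.h (T.h (M (nat_lit 82859777951)) (T.h (P (nat_lit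 0)) (M (nat_lit 2237813509967)))) (T.h (P (nat_lit 0)) (M (nat_lit 296018860703))))))) (T.h (T.h (T.h (P (nat_lit 0)) (T.h (M (nat_lit 9429798711)) (T.h (P (nat_lit 0)) (M (nat_lit 436237544155))))) (T.h (P (nat_lit 0)) (T.h (T.h (P (nat_lit 0)) (P (nat_lit 322691671152))) (P (nat_lit 0))))) (T.h (T.h (P (nat_lit 0)) (T.h (T.h (P (nat_lit 75332450936)) (T.h (P (nat_lit 0)) (P (nat_lit 50635697520)))) (T.h (P (nat_lit 0)) (M (nat_lit 2237813509967))))) (T.h (T.h (T.h (P (nat_lit 0)) (M (nat_lit 436237544155))) (P (nat_lit 0))) (T.h (T.h (P (nat_lit 0)) (P (nat_lit 5659329760616))) (P (nat_lit 0))))))) (P (nat_lit 0))) (P (nat_lit 0)))))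
def en11_1 : T ℤ := (T.h (T.h (P (nat_lit 0)) (T.h (P (nat_lit 0)) (T.h (T.h (T.h (P (nat_lit 0)) (T.h (T.h (M (nat_lit 806594991)) (T.h (P (nat_lit 0)) (T.h (M (nat_lit 259860991679)) (T.h (P (nat_lit 0)) (M (nat_lit 2810309639855)))))) (T.h (P (nat_lit 0)) (T.h (T.h (P (nat_lit 33943923168)) (T.h (P (nat_lit 0)) (M (nat_lit 1177935752751)))) (T.h (P (nat_lit 0)) (M (nat_lit 540412961039))))))) (T.h (T.h (T.h (P (nat_lit 0)) (T.h (P (nat_lit 19823308544)) (T.h (P (nat_lit 0)) (T.h (P (nat_lit 453920948240)) (T.h (P (nat_lit 0)) (M (nat_lit 3475247497055))))))) (T.h (P (nat_lit 0)) (T.h (T.h (P (nat_lit 0)) (T.h (P (nat_lit 1158256481920)) (T.h (P (nat_lit 0)) (P (nat_lit 16555978253168))))) (T.h (P (nat_lit 0)) (T.h (T.h (P (nat_lit 0)) (M (nat_lit 22353614880911))) (P (nat_lit 0))))))) (T.h (T.h (P (nat_lit 0)) (T.h (T.h (M (nat_lit 2979192575)) (T.h (P (nat_lit 0)) (M (nat_lit 1303606915631))))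 (T.h (P (nat_lit 0)) (M (nat_lit 941783573935))))) (T.h (T.h (T.h (P (nat_lit 0)) (T.h (P (nat_lit 841952614592)) (T.h (P (nat_lit 0)) (M (nat_lit 13182979040335))))) (T.h (P (nat_lit 0)) (T.h (T.h (P (nat_lit 0)) (P (nat_lit 7045136697168))) (P (nat_lit 0))))) (T.h (T.h (P (nat_lit 0)) (P (nat_lit 2112300902448))) (T.h (T.h (T.h (P (nat_lit 0)) (P (nat_lit 1049640953328))) (P (nat_lit 0))) (P (nat_lit 0)))))))) (T.h (P (nat_lit 0)) (T.h (T.h (T.h (P (nat_lit 0)) (T.h (T.h (M (nat_lit 766855039)) (T.h (P (nat_lit 0)) (T.h (P (nat_lit 499040467640)) (T.h (P (nat_lit 0)) (P (nat_lit 2913868897784)))))) (T.h (P (nat_lit 0)) (T.h (T.h (P (nat_lit 119445757536)) (T.h (P (nat_lit 0)) (M (nat_lit 981324032975)))) (T.h (P (nat_lit 0)) (P (nat_lit 9600879833640))))))) (T.h (T.h (T.h (P (nat_lit 0)) (T.h (M (nat_lit 58754457843)) (T.h (P (nat_lit 0)) (M (nat_lit 285573088143))))) (T.h (P (nat_lit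 0)) (T.h (T.h (P (nat_lit 0)) (M (nat_lit 3212233142183))) (P (nat_lit 0))))) (T.h (T.h (P (nat_lit 0)) (T.h (T.h (P (nat_lit 227325101448)) (T.h (P (nat_lit 0)) (P (nat_lit 1220412799904)))) (T.h (P (nat_lit 0)) (P (nat_lit 9202526908912))))) (T.h (T.h (T.h (P (nat_lit 0)) (M (nat_lit 773953632103))) (P (nat_lit 0))) (T.h (T.h (P (nat_lit 0)) (P (nat_lit 2318626710824))) (P (nat_lit 0))))))) (P (nat_lit 0))))))) (T.h (T.h (P (nat_lit 0)) (T.h (T.h (T.h (T.h (P (nat_lit 0)) (T.h (P (nat_lit 2426985860)) (T.h (P (nat_lit 0)) (T.h (M (nat_lit 103434234299)) (T.h (P (nat_lit 0)) (M (nat_lit 611654745519))))))) (T.h (P (nat_lit 0)) (T.h (T.h (P (nat_lit 0)) (T.h (P (nat_lit 143966300900)) (T.h (P (nat_lit 0)) (M (nat_lit 5417282938239))))) (T.h (P (nat_lit 0)) (T.h (T.h (P (nat_lit 0)) (P (nat_lit 1411530379700))) (P (nat_lit 0))))))) (T.h (T.h (P (nat_lit 0)) (T.h (T.h (P (nat_lit 11234550060))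 (T.h (P (nat_lit 0)) (T.h (P (nat_lit 575668702200)) (T.h (P (nat_lit 0)) (P (nat_lit 14496082227980)))))) (T.h (P (nat_lit 0)) (T.h (T.h (P (nat_lit 50563078560)) (T.h (P (nat_lit 0)) (P (nat_lit 5163519853980)))) (T.h (P (nat_lit 0)) (M (nat_lit 6321422910759))))))) (T.h (T.h (T.h (P (nat_lit 0)) (T.h (M (nat_lit 47993383819)) (T.h (P (nat_lit 0)) (M (nat_lit 3701209723959))))) (T.h (P (nat_lit 0)) (T.h (T.h (P (nat_lit 0)) (M (nat_lit 2999315111779))) (P (nat_lit 0))))) (T.h (T.h (P (nat_lit 0)) (T.h (T.h (P (nat_lit 331333128660)) (T.h (P (nat_lit 0)) (M (nat_lit 21888062781459)))) (T.h (P (nat_lit 0)) (M (nat_lit 6715556231539))))) (T.h (T.h (T.h (P (nat_lit 0)) (M (nat_lit 2373675519))) (P (nat_lit 0))) (T.h (T.h (P (nat_lit 0)) (P (nat_lit 9023332071640))) (P (nat_lit 0)))))))) (T.h (P (nat_lit 0)) (T.h (T.h (T.h (T.h (P (nat_lit 0)) (T.h (P (nat_lit 332762936)) (T.h (P (nat_lit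 0)) (T.h (P (nat_lit 268598040564)) (T.h (P (nat_lit 0)) (P (nat_lit 517980764084))))))) (T.h (P (nat_lit 0)) (T.h (T.h (P (nat_lit 0)) (T.h (P (nat_lit 637592579748)) (T.h (P (nat_lit 0)) (M (nat_lit 5256228927455))))) (T.h (P (nat_lit 0)) (T.h (T.h (P (nat_lit 0)) (M (nat_lit 79591327179))) (P (nat_lit 0))))))) (T.h (T.h (P (nat_lit 0)) (T.h (T.h (P (nat_lit 5604656600)) (T.h (P (nat_lit 0)) (M (nat_lit 6181966887815)))) (T.h (P (nat_lit 0)) (M (nat_lit 2303779396911))))) (T.h (T.h (T.h (P (nat_lit 0)) (T.h (P (nat_lit 396427933128)) (T.h (P (nat_lit 0)) (P (nat_lit 2252951229392))))) (T.h (P (nat_lit 0)) (T.h (T.h (P (nat_lit 0)) (P (nat_lit 9540056464476))) (P (nat_lit 0))))) (T.h (T.h (P (nat_lit 0)) (M (nat_lit 961139028455))) (T.h (T.h (T.h (P (nat_lit 0)) (M (nat_lit 594611212791))) (P (nat_lit 0))) (P (nat_lit 0))))))) (P (nat_lit 0)))))) en11_0))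
def en11_2 : T ℤ := (T.h (T.h (P (nat_lit 0)) (T.h (P (nat_lit 0)) (T.h (P (nat_lit 0)) (T.h (P (nat_lit 0)) (T.h (T.h (T.h (P (nat_lit 0)) (T.h (T.h (M (nat_lit 2306677655)) (T.h (P (nat_lit 0)) (T.h (M (nat_lit 25396334151)) (T.h (P (nat_lit 0)) (M (nat_lit 2113935606255)))))) (T.h (P (nat_lit 0)) (T.h (T.h (M (nat_lit 16742561895)) (T.h (P (nat_lit 0)) (P (nat_lit 886268156352)))) (T.h (P (nat_lit 0)) (M (nat_lit 634658719839))))))) (T.h (T.h (T.h (P (nat_lit 0)) (T.h (P (nat_lit 1428922632)) (T.h (P (nat_lit 0)) (T.h (M (nat_lit 150826809079)) (T.h (P (nat_lit 0)) (P (nat_lit 892070944696))))))) (T.h (P (nat_lit 0)) (T.h (T.h (P (nat_lit 0)) (T.h (P (nat_lit 26279927984)) (T.h (P (nat_lit 0)) (P (nat_lit 5436063366096))))) (T.h (P (nat_lit 0)) (T.h (T.h (P (nat_lit 0)) (M (nat_lit 5046016125751))) (P (nat_lit 0))))))) (T.h (T.h (P (nat_lit 0)) (T.h (T.h (M (nat_lit 40246888639)) (T.h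 (P (nat_lit 0)) (P (nat_lit 283817089952)))) (T.h (P (nat_lit 0)) (P (nat_lit 362784280480))))) (T.h (T.h (T.h (P (nat_lit 0)) (T.h (P (nat_lit 276736270184)) (T.h (P (nat_lit 0)) (M (nat_lit 2740014106751))))) (T.h (P (nat_lit 0)) (T.h (T.h (P (nat_lit 0)) (P (nat_lit 14228793760520))) (P (nat_lit 0))))) (T.h (T.h (P (nat_lit 0)) (M (nat_lit 618930060519))) (T.h (T.h (T.h (P (nat_lit 0)) (P (nat_lit 147077655216))) (P (nat_lit 0))) (P (nat_lit 0)))))))) (T.h (P (nat_lit 0)) (T.h (T.h (T.h (P (nat_lit 0)) (T.h (T.h (M (nat_lit 656982775)) (T.h (P (nat_lit 0)) (T.h (P (nat_lit 22969218000)) (T.h (P (nat_lit 0)) (P (nat_lit 623814668664)))))) (T.h (P (nat_lit 0)) (T.h (T.h (M (nat_lit 106287706975)) (T.h (P (nat_lit 0)) (P (nat_lit 12214389561600)))) (T.h (P (nat_lit 0)) (M (nat_lit 9232752292679))))))) (T.h (T.h (T.h (P (nat_lit 0)) (T.h (M (nat_lit 8906826547)) (T.h (P (nat_lit 0)) (P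 (nat_lit 165070685584))))) (T.h (P (nat_lit 0)) (T.h (T.h (P (nat_lit 0)) (M (nat_lit 650012983199))) (P (nat_lit 0))))) (T.h (T.h (P (nat_lit 0)) (T.h (T.h (P (nat_lit 556574572672)) (T.h (P (nat_lit 0)) (M (nat_lit 1451194362527)))) (T.h (P (nat_lit 0)) (P (nat_lit 40595664937648))))) (T.h (T.h (T.h (P (nat_lit 0)) (M (nat_lit 789325124959))) (P (nat_lit 0))) (T.h (T.h (P (nat_lit 0)) (P (nat_lit 21399745367888))) (P (nat_lit 0))))))) (P (nat_lit 0))))))))) (T.h (T.h (P (nat_lit 0)) (T.h (P (nat_lit 0)) (T.h (P (nat_lit 0)) (T.h (T.h (T.h (T.h (P (nat_lit 0)) (T.h (P (nat_lit 3158952432)) (T.h (P (nat_lit 0)) (T.h (M (nat_lit 124523473859)) (T.h (P (nat_lit 0)) (M (nat_lit 169372736975))))))) (T.h (P (nat_lit 0)) (T.h (T.h (P (nat_lit 0)) (T.h (M (nat_lit 94227178487)) (T.h (P (nat_lit 0)) (M (nat_lit 366947718287))))) (T.h (P (nat_lit 0)) (T.h (T.h (P (nat_lit 0)) (P (nat_lit 1606699581948)))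 (P (nat_lit 0))))))) (T.h (T.h (P (nat_lit 0)) (T.h (T.h (P (nat_lit 5474276796)) (T.h (P (nat_lit 0)) (T.h (P (nat_lit 1061218655340)) (T.h (P (nat_lit 0)) (P (nat_lit 31386710678460)))))) (T.h (P (nat_lit 0)) (T.h (T.h (M (nat_lit 58462993367)) (T.h (P (nat_lit 0)) (M (nat_lit 124909131911)))) (T.h (P (nat_lit 0)) (P (nat_lit 227386661952))))))) (T.h (T.h (T.h (P (nat_lit 0)) (T.h (M (nat_lit 123377282303)) (T.h (P (nat_lit 0)) (P (nat_lit 1157772881640))))) (T.h (P (nat_lit 0)) (T.h (T.h (P (nat_lit 0)) (P (nat_lit 2398431061428))) (P (nat_lit 0))))) (T.h (T.h (P (nat_lit 0)) (T.h (T.h (M (nat_lit 79344489035)) (T.h (P (nat_lit 0)) (M (nat_lit 24593663290595)))) (T.h (P (nat_lit 0)) (P (nat_lit 376140861816))))) (T.h (T.h (T.h (P (nat_lit 0)) (M (nat_lit 2197084828355))) (P (nat_lit 0))) (T.h (T.h (P (nat_lit 0)) (M (nat_lit 1859348449415))) (P (nat_lit 0)))))))) (T.h (P (nat_lit 0))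 (T.h (T.h (T.h (T.h (P (nat_lit 0)) (T.h (P (nat_lit 387729124)) (T.h (P (nat_lit 0)) (T.h (M (nat_lit 27392963847)) (T.h (P (nat_lit 0)) (P (nat_lit 1266084426232))))))) (T.h (P (nat_lit 0)) (T.h (T.h (P (nat_lit 0)) (T.h (P (nat_lit 23579772600)) (T.h (P (nat_lit 0)) (P (nat_lit 2300565728796))))) (T.h (P (nat_lit 0)) (T.h (T.h (P (nat_lit 0)) (M (nat_lit 5178622776239))) (P (nat_lit 0))))))) (T.h (T.h (P (nat_lit 0)) (T.h (T.h (P (nat_lit 36034627752)) (T.h (P (nat_lit 0)) (M (nat_lit 257554761383)))) (T.h (P (nat_lit 0)) (P (nat_lit 3916800417328))))) (T.h (T.h (T.h (P (nat_lit 0)) (T.h (P (nat_lit 175939141136)) (T.h (P (nat_lit 0)) (M (nat_lit 1136274401259))))) (T.h (P (nat_lit 0)) (T.h (T.h (P (nat_lit 0)) (M (nat_lit 6438150376199))) (P (nat_lit 0))))) (T.h (T.h (P (nat_lit 0)) (P (nat_lit 1114060220368))) (T.h (T.h (T.h (P (nat_lit 0)) (M (nat_lit 427495759595))) (P (nat_lit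 0))) (P (nat_lit 0))))))) (P (nat_lit 0)))))))) en11_1))
def en11_3 : T ℤ := (T.h (T.h (T.h (T.h (P (nat_lit 0)) (T.h (T.h (P (nat_lit 0)) (T.h (P (nat_lit 11234550060)) (T.h (P (nat_lit 0)) (T.h (P (nat_lit 331333128660)) (T.h (P (nat_lit 0)) (P (nat_lit 9023332071640))))))) (T.h (P (nat_lit 0)) (T.h (T.h (P (nat_lit 0)) (T.h (P (nat_lit 50563078560)) (T.h (P (nat_lit 0)) (M (nat_lit 6715556231539))))) (T.h (P (nat_lit 0)) (T.h (T.h (P (nat_lit 0)) (M (nat_lit 6321422910759))) (P (nat_lit 0)))))))) (T.h (T.h (T.h (P (nat_lit 2426985860)) (T.h (P (nat_lit 0)) (T.h (M (nat_lit 47993383819)) (T.h (P (nat_lit 0)) (M (nat_lit 2373675519)))))) (T.h (P (nat_lit 0)) (T.h (T.h (P (nat_lit 143966300900)) (T.h (P (nat_lit 0)) (M (nat_lit 2999315111779)))) (T.h (P (nat_lit 0)) (P (nat_lit 1411530379700)))))) (T.h (T.h (P (nat_lit 0)) (T.h (T.h (P (nat_lit 0)) (T.h (P (nat_lit 575668702200)) (T.h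 (P (nat_lit 0)) (M (nat_lit 21888062781459))))) (T.h (P (nat_lit 0)) (T.h (T.h (P (nat_lit 0)) (P (nat_lit 5163519853980))) (P (nat_lit 0)))))) (T.h (T.h (T.h (M (nat_lit 103434234299)) (T.h (P (nat_lit 0)) (M (nat_lit 3701209723959)))) (T.h (P (nat_lit 0)) (M (nat_lit 5417282938239)))) (T.h (T.h (P (nat_lit 0)) (T.h (T.h (P (nat_lit 0)) (P (nat_lit 14496082227980))) (P (nat_lit 0)))) (M (nat_lit 611654745519))))))) (T.h (P (nat_lit 0)) (T.h (T.h (T.h (P (nat_lit 0)) (T.h (T.h (P (nat_lit 0)) (T.h (M (nat_lit 5891545199)) (T.h (P (nat_lit 0)) (P (nat_lit 1079287844912))))) (T.h (P (nat_lit 0)) (T.h (T.h (P (nat_lit 0)) (M (nat_lit 1054828994239))) (P (nat_lit 0)))))) (T.h (T.h (T.h (P (nat_lit 3501727608)) (T.h (P (nat_lit 0)) (T.h (P (nat_lit 282941937972)) (T.h (P (nat_lit 0)) (M (nat_lit 1363320660347)))))) (T.h (P (nat_lit 0)) (T.h (T.h (M (nat_lit 152291432927)) (T.h (P (nat_lit 0))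 (P (nat_lit 256803730908)))) (T.h (P (nat_lit 0)) (P (nat_lit 15017997516000)))))) (T.h (T.h (P (nat_lit 0)) (T.h (T.h (P (nat_lit 0)) (M (nat_lit 1460683773415))) (P (nat_lit 0)))) (T.h (T.h (T.h (M (nat_lit 78502411123)) (T.h (P (nat_lit 0)) (M (nat_lit 5975526118375)))) (T.h (P (nat_lit 0)) (P (nat_lit 3699256504272)))) (T.h (P (nat_lit 0)) (M (nat_lit 986612444531))))))) (P (nat_lit 0))))) (T.h (T.h (P (nat_lit 0)) (T.h (T.h (T.h (T.h (M (nat_lit 225773647)) (T.h (P (nat_lit 0)) (T.h (M (nat_lit 9035723735)) (T.h (P (nat_lit 0)) (P (nat_lit 267030163060)))))) (T.h (P (nat_lit 0)) (T.h (T.h (P (nat_lit 24300798528)) (T.h (P (nat_lit 0)) (P (nat_lit 2049505519320)))) (T.h (P (nat_lit 0)) (M (nat_lit 2013180686999)))))) (T.h (T.h (P (nat_lit 0)) (T.h (T.h (P (nat_lit 0)) (T.h (M (nat_lit 173699704607)) (T.h (P (nat_lit 0)) (M (nat_lit 1070675197423))))) (T.h (P (nat_lit 0)) (T.h (T.h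 (P (nat_lit 0)) (M (nat_lit 1283835406143))) (P (nat_lit 0)))))) (T.h (T.h (T.h (M (nat_lit 9035723735)) (T.h (P (nat_lit 0)) (M (nat_lit 392203672991)))) (T.h (P (nat_lit 0)) (P (nat_lit 2049505519320)))) (T.h (T.h (P (nat_lit 0)) (T.h (T.h (P (nat_lit 0)) (M (nat_lit 1070675197423))) (P (nat_lit 0)))) (P (nat_lit 267030163060)))))) (P (nat_lit 0)))) (T.h (T.h (T.h (T.h (P (nat_lit 0)) (T.h (T.h (P (nat_lit 0)) (T.h (M (nat_lit 40330543)) (T.h (P (nat_lit 0)) (P (nat_lit 1005324590560))))) (T.h (P (nat_lit 0)) (T.h (T.h (P (nat_lit 0)) (M (nat_lit 12488450191))) (P (nat_lit 0)))))) (T.h (T.h (T.h (M (nat_lit 84097787)) (T.h (P (nat_lit 0)) (T.h (M (nat_lit 64229820991)) (T.h (P (nat_lit 0)) (M (nat_lit 1785946191999)))))) (T.h (P (nat_lit 0)) (T.h (T.h (M (nat_lit 36143505011)) (T.h (P (nat_lit 0)) (P (nat_lit 825952661292)))) (T.h (P (nat_lit 0)) (P (nat_lit 1974070232960)))))) (T.h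 (T.h (P (nat_lit 0)) (T.h (T.h (P (nat_lit 0)) (M (nat_lit 76683507831))) (P (nat_lit 0)))) (T.h (T.h (T.h (P (nat_lit 2015611652)) (T.h (P (nat_lit 0)) (P (nat_lit 769034346984)))) (T.h (P (nat_lit 0)) (M (nat_lit 1955823897683)))) (T.h (P (nat_lit 0)) (M (nat_lit 1117043220383))))))) (P (nat_lit 0))) (P (nat_lit 0)))))
def en11_4 : T ℤ := (T.h (T.h (P (nat_lit 0)) (T.h (P (nat_lit 0)) (T.h (T.h (T.h (P (nat_lit 0)) (T.h (T.h (P (nat_lit 0)) (T.h (P (nat_lit 15937773144)) (T.h (P (nat_lit 0)) (T.h (P (nat_lit 20365916484)) (T.h (P (nat_lit 0)) (P (nat_lit 6042730188972))))))) (T.h (P (nat_lit 0)) (T.h (T.h (P (nat_lit 0)) (T.h (P (nat_lit 258222346404)) (T.h (P (nat_lit 0)) (M (nat_lit 5650327594799))))) (T.h (P (nat_lit 0)) (T.h (T.h (P (nat_lit 0)) (M (nat_lit 8784094264391))) (P (nat_lit 0)))))))) (T.h (T.h (T.h (P (nat_lit 5161394232)) (T.h (P (nat_lit 0)) (T.h (M (nat_lit 101547636287))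 (T.h (P (nat_lit 0)) (M (nat_lit 495550064159)))))) (T.h (P (nat_lit 0)) (T.h (T.h (M (nat_lit 131185032947)) (T.h (P (nat_lit 0)) (P (nat_lit 987437851788)))) (T.h (P (nat_lit 0)) (M (nat_lit 582445152023)))))) (T.h (T.h (P (nat_lit 0)) (T.h (T.h (P (nat_lit 0)) (T.h (P (nat_lit 311626916580)) (T.h (P (nat_lit 0)) (M (nat_lit 15020202235475))))) (T.h (P (nat_lit 0)) (T.h (T.h (P (nat_lit 0)) (P (nat_lit 12704075428968))) (P (nat_lit 0)))))) (T.h (T.h (T.h (P (nat_lit 51918938040)) (T.h (P (nat_lit 0)) (M (nat_lit 3283857824927)))) (T.h (P (nat_lit 0)) (P (nat_lit 1959973390428)))) (T.h (T.h (P (nat_lit 0)) (T.h (T.h (P (nat_lit 0)) (P (nat_lit 15000108193596))) (P (nat_lit 0)))) (M (nat_lit 356725524359))))))) (T.h (P (nat_lit 0)) (T.h (T.h (T.h (P (nat_lit 0)) (T.h (T.h (P (nat_lit 0)) (T.h (P (nat_lit 20998536776)) (T.h (P (nat_lit 0)) (M (nat_lit 708886048127))))) (T.h (P (nat_lit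 0)) (T.h (T.h (P (nat_lit 0)) (M (nat_lit 3007192571535))) (P (nat_lit 0)))))) (T.h (T.h (T.h (P (nat_lit 227976308)) (T.h (P (nat_lit 0)) (T.h (P (nat_lit 80637111048)) (T.h (P (nat_lit 0)) (P (nat_lit 203479682380)))))) (T.h (P (nat_lit 0)) (T.h (T.h (P (nat_lit 169506069804)) (T.h (P (nat_lit 0)) (P (nat_lit 3313010201484)))) (T.h (P (nat_lit 0)) (P (nat_lit 1662512324680)))))) (T.h (T.h (P (nat_lit 0)) (T.h (T.h (P (nat_lit 0)) (P (nat_lit 652993462248))) (P (nat_lit 0)))) (T.h (T.h (T.h (M (nat_lit 31733666747)) (T.h (P (nat_lit 0)) (M (nat_lit 761569016899)))) (T.h (P (nat_lit 0)) (P (nat_lit 7866645791748)))) (T.h (P (nat_lit 0)) (P (nat_lit 1470702928400))))))) (P (nat_lit 0))))))) (T.h (T.h (P (nat_lit 0)) (T.h (T.h (T.h (T.h (P (nat_lit 0)) (T.h (P (nat_lit 0)) (T.h (P (nat_lit 20566902080)) (T.h (P (nat_lit 0)) (T.h (M (nat_lit 305464983519)) (T.h (P (nat_lit 0)) (M (nat_lit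 2514883389679)))))))) (T.h (P (nat_lit 0)) (T.h (T.h (M (nat_lit 5041432959)) (T.h (P (nat_lit 0)) (T.h (P (nat_lit 967930532032)) (T.h (P (nat_lit 0)) (P (nat_lit 1344798942336)))))) (T.h (P (nat_lit 0)) (T.h (T.h (P (nat_lit 67246974432)) (T.h (P (nat_lit 0)) (M (nat_lit 2709268961647)))) (T.h (P (nat_lit 0)) (M (nat_lit 385148211487)))))))) (T.h (T.h (P (nat_lit 0)) (T.h (T.h (P (nat_lit 0)) (T.h (M (nat_lit 144424811967)) (T.h (P (nat_lit 0)) (M (nat_lit 2473074101807))))) (T.h (P (nat_lit 0)) (T.h (T.h (P (nat_lit 0)) (M (nat_lit 1902473343935))) (P (nat_lit 0)))))) (T.h (T.h (T.h (P (nat_lit 20566902080)) (T.h (P (nat_lit 0)) (T.h (P (nat_lit 438709468288)) (T.h (P (nat_lit 0)) (P (nat_lit 10506277629328)))))) (T.h (P (nat_lit 0)) (T.h (T.h (P (nat_lit 967930532032)) (T.h (P (nat_lit 0)) (M (nat_lit 915603084799)))) (T.h (P (nat_lit 0)) (M (nat_lit 2709268961647)))))) (T.h (T.h (P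 (nat_lit 0)) (T.h (T.h (P (nat_lit 0)) (M (nat_lit 2473074101807))) (P (nat_lit 0)))) (T.h (T.h (T.h (M (nat_lit 305464983519)) (T.h (P (nat_lit 0)) (P (nat_lit 10506277629328)))) (T.h (P (nat_lit 0)) (P (nat_lit 1344798942336)))) (T.h (P (nat_lit 0)) (M (nat_lit 2514883389679)))))))) (T.h (P (nat_lit 0)) (T.h (T.h (T.h (T.h (P (nat_lit 810356248)) (T.h (P (nat_lit 0)) (T.h (M (nat_lit 31002694859)) (T.h (P (nat_lit 0)) (P (nat_lit 629382630640)))))) (T.h (P (nat_lit 0)) (T.h (T.h (P (nat_lit 30586069752)) (T.h (P (nat_lit 0)) (M (nat_lit 2159728568171)))) (T.h (P (nat_lit 0)) (P (nat_lit 312420419600)))))) (T.h (T.h (P (nat_lit 0)) (T.h (T.h (P (nat_lit 0)) (T.h (P (nat_lit 740194682240)) (T.h (P (nat_lit 0)) (P (nat_lit 101833819568))))) (T.h (P (nat_lit 0)) (T.h (T.h (P (nat_lit 0)) (P (nat_lit 19121606668928))) (P (nat_lit 0)))))) (T.h (T.h (T.h (P (nat_lit 20836600272)) (T.h (P (nat_lit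 0)) (P (nat_lit 490343898648)))) (T.h (P (nat_lit 0)) (P (nat_lit 10003213848)))) (T.h (T.h (P (nat_lit 0)) (T.h (T.h (P (nat_lit 0)) (P (nat_lit 9470296009840))) (P (nat_lit 0)))) (P (nat_lit 368563643352)))))) (P (nat_lit 0)))))) en11_3))
def en11_5 : T ℤ := (T.h (T.h (P (nat_lit 0)) (T.h (P (nat_lit 0)) (T.h (P (nat_lit 0)) (T.h (P (nat_lit 0)) (T.h (T.h (T.h (P (nat_lit 0)) (T.h (T.h (P (nat_lit 0)) (T.h (P (nat_lit 1034588708)) (T.h (P (nat_lit 0)) (T.h (P (nat_lit 42411888264)) (T.h (P (nat_lit 0)) (P (nat_lit 395850797080))))))) (T.h (P (nat_lit 0)) (T.h (T.h (P (nat_lit 0)) (T.h (M (nat_lit 72364944179)) (T.h (P (nat_lit 0)) (P (nat_lit 2480547298464))))) (T.h (P (nat_lit 0)) (T.h (T.h (P (nat_lit 0)) (P (nat_lit 686724624272))) (P (nat_lit 0)))))))) (T.h (T.h (T.h (P (nat_lit 459485268)) (T.h (P (nat_lit 0)) (T.h (M (nat_lit 12862589591)) (T.h (P (nat_lit 0)) (P (nat_lit 836461759916))))))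 (T.h (P (nat_lit 0)) (T.h (T.h (P (nat_lit 15957518388)) (T.h (P (nat_lit 0)) (P (nat_lit 533789990540)))) (T.h (P (nat_lit 0)) (P (nat_lit 468270194964)))))) (T.h (T.h (P (nat_lit 0)) (T.h (T.h (P (nat_lit 0)) (T.h (M (nat_lit 116620739951)) (T.h (P (nat_lit 0)) (M (nat_lit 4243960283043))))) (T.h (P (nat_lit 0)) (T.h (T.h (P (nat_lit 0)) (M (nat_lit 1675649927631))) (P (nat_lit 0)))))) (T.h (T.h (T.h (M (nat_lit 656763895)) (T.h (P (nat_lit 0)) (P (nat_lit 711881066516)))) (T.h (P (nat_lit 0)) (M (nat_lit 647726648203)))) (T.h (T.h (P (nat_lit 0)) (T.h (T.h (P (nat_lit 0)) (P (nat_lit 638242243696))) (P (nat_lit 0)))) (M (nat_lit 497791344531))))))) (T.h (P (nat_lit 0)) (T.h (T.h (T.h (P (nat_lit 0)) (T.h (T.h (P (nat_lit 0)) (T.h (P (nat_lit 308619552)) (T.h (P (nat_lit 0)) (M (nat_lit 442000357831))))) (T.h (P (nat_lit 0)) (T.h (T.h (P (nat_lit 0)) (M (nat_lit 336265300655))) (P (nat_lit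 0)))))) (T.h (T.h (T.h (P (nat_lit 1148416284)) (T.h (P (nat_lit 0)) (T.h (M (nat_lit 123027105435)) (T.h (P (nat_lit 0)) (P (nat_lit 1456836232876)))))) (T.h (P (nat_lit 0)) (T.h (T.h (M (nat_lit 119476021919)) (T.h (P (nat_lit 0)) (M (nat_lit 1194338384891)))) (T.h (P (nat_lit 0)) (M (nat_lit 1647796885159)))))) (T.h (T.h (P (nat_lit 0)) (T.h (T.h (P (nat_lit 0)) (P (nat_lit 723349089080))) (P (nat_lit 0)))) (T.h (T.h (T.h (P (nat_lit 44603437836)) (T.h (P (nat_lit 0)) (M (nat_lit 138284695579)))) (T.h (P (nat_lit 0)) (P (nat_lit 1951068882780)))) (T.h (P (nat_lit 0)) (P (nat_lit 98482915708))))))) (P (nat_lit 0))))))))) (T.h (T.h (P (nat_lit 0)) (T.h (P (nat_lit 0)) (T.h (P (nat_lit 0)) (T.h (T.h (T.h (T.h (P (nat_lit 0)) (T.h (P (nat_lit 0)) (T.h (P (nat_lit 2315014048)) (T.h (P (nat_lit 0)) (T.h (M (nat_lit 46208153895)) (T.h (P (nat_lit 0)) (M (nat_lit 307888158567)))))))) (T.h (P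 (nat_lit 0)) (T.h (T.h (P (nat_lit 11105204216)) (T.h (P (nat_lit 0)) (T.h (M (nat_lit 330299246223)) (T.h (P (nat_lit 0)) (P (nat_lit 1330744036480)))))) (T.h (P (nat_lit 0)) (T.h (T.h (M (nat_lit 105772848391)) (T.h (P (nat_lit 0)) (M (nat_lit 138864392735)))) (T.h (P (nat_lit 0)) (M (nat_lit 1628746179999)))))))) (T.h (T.h (P (nat_lit 0)) (T.h (T.h (P (nat_lit 0)) (T.h (P (nat_lit 73614775928)) (T.h (P (nat_lit 0)) (P (nat_lit 927351069808))))) (T.h (P (nat_lit 0)) (T.h (T.h (P (nat_lit 0)) (P (nat_lit 1872799888304))) (P (nat_lit 0)))))) (T.h (T.h (T.h (M (nat_lit 24694518399)) (T.h (P (nat_lit 0)) (T.h (M (nat_lit 156497712671)) (T.h (P (nat_lit 0)) (M (nat_lit 228719090063)))))) (T.h (P (nat_lit 0)) (T.h (T.h (M (nat_lit 299481572687)) (T.h (P (nat_lit 0)) (P (nat_lit 617165038488)))) (T.h (P (nat_lit 0)) (P (nat_lit 402275944352)))))) (T.h (T.h (P (nat_lit 0)) (T.h (T.h (P (nat_lit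 0)) (M (nat_lit 475505683911))) (P (nat_lit 0)))) (T.h (T.h (T.h (P (nat_lit 153459424992)) (T.h (P (nat_lit 0)) (M (nat_lit 959240633575)))) (T.h (P (nat_lit 0)) (M (nat_lit 10191052443439)))) (T.h (P (nat_lit 0)) (M (nat_lit 686523278055)))))))) (T.h (P (nat_lit 0)) (T.h (T.h (T.h (T.h (M (nat_lit 633592739)) (T.h (P (nat_lit 0)) (T.h (P (nat_lit 24504999392)) (T.h (P (nat_lit 0)) (M (nat_lit 672649783615)))))) (T.h (P (nat_lit 0)) (T.h (T.h (M (nat_lit 46699495931)) (T.h (P (nat_lit 0)) (M (nat_lit 294997221527)))) (T.h (P (nat_lit 0)) (M (nat_lit 106860690599)))))) (T.h (T.h (P (nat_lit 0)) (T.h (T.h (P (nat_lit 0)) (T.h (M (nat_lit 345833535719)) (T.h (P (nat_lit 0)) (P (nat_lit 3313321239672))))) (T.h (P (nat_lit 0)) (T.h (T.h (P (nat_lit 0)) (M (nat_lit 4425680538543))) (P (nat_lit 0)))))) (T.h (T.h (T.h (P (nat_lit 27295472444)) (T.h (P (nat_lit 0)) (P (nat_lit 57804185072))))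 (T.h (P (nat_lit 0)) (P (nat_lit 1810680590868)))) (T.h (T.h (P (nat_lit 0)) (T.h (T.h (P (nat_lit 0)) (M (nat_lit 1394642132623))) (P (nat_lit 0)))) (P (nat_lit 938509381424)))))) (P (nat_lit 0)))))))) en11_4))
def en11_6 : T ℤ := (T.h (T.h (T.h (T.h (P (nat_lit 0)) (T.h (T.h (M (nat_lit 806594991)) (T.h (P (nat_lit 0)) (T.h (M (nat_lit 2979192575)) (T.h (P (nat_lit 0)) (P (nat_lit 2112300902448)))))) (T.h (P (nat_lit 0)) (T.h (T.h (P (nat_lit 33943923168)) (T.h (P (nat_lit 0)) (M (nat_lit 941783573935)))) (T.h (P (nat_lit 0)) (M (nat_lit 540412961039))))))) (T.h (T.h (T.h (P (nat_lit 0)) (T.h (P (nat_lit 19823308544)) (T.h (P (nat_lit 0)) (T.h (P (nat_lit 841952614592)) (T.h (P (nat_lit 0)) (P (nat_lit 1049640953328))))))) (T.h (P (nat_lit 0)) (T.h (T.h (P (nat_lit 0)) (T.h (P (nat_lit 1158256481920)) (T.h (P (nat_lit 0)) (P (nat_lit 7045136697168))))) (T.h (P (nat_lit 0)) (T.h (T.h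 (P (nat_lit 0)) (M (nat_lit 22353614880911))) (P (nat_lit 0))))))) (T.h (T.h (P (nat_lit 0)) (T.h (T.h (M (nat_lit 259860991679)) (T.h (P (nat_lit 0)) (M (nat_lit 1303606915631)))) (T.h (P (nat_lit 0)) (M (nat_lit 1177935752751))))) (T.h (T.h (T.h (P (nat_lit 0)) (T.h (P (nat_lit 453920948240)) (T.h (P (nat_lit 0)) (M (nat_lit 13182979040335))))) (T.h (P (nat_lit 0)) (T.h (T.h (P (nat_lit 0)) (P (nat_lit 16555978253168))) (P (nat_lit 0))))) (T.h (T.h (P (nat_lit 0)) (M (nat_lit 2810309639855))) (T.h (T.h (T.h (P (nat_lit 0)) (M (nat_lit 3475247497055))) (P (nat_lit 0))) (P (nat_lit 0)))))))) (T.h (P (nat_lit 0)) (T.h (T.h (T.h (P (nat_lit 0)) (T.h (T.h (M (nat_lit 11535907119)) (T.h (P (nat_lit 0)) (T.h (M (nat_lit 774283590279)) (T.h (P (nat_lit 0)) (P (nat_lit 672315023312)))))) (T.h (P (nat_lit 0)) (T.h (T.h (P (nat_lit 19816499680)) (T.h (P (nat_lit 0)) (P (nat_lit 575882644112))))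 (T.h (P (nat_lit 0)) (P (nat_lit 2593391697984))))))) (T.h (T.h (T.h (P (nat_lit 0)) (T.h (M (nat_lit 132993887)) (T.h (P (nat_lit 0)) (P (nat_lit 1559868498700))))) (T.h (P (nat_lit 0)) (T.h (T.h (P (nat_lit 0)) (M (nat_lit 4707639239975))) (P (nat_lit 0))))) (T.h (T.h (P (nat_lit 0)) (T.h (T.h (M (nat_lit 774283590279)) (T.h (P (nat_lit 0)) (M (nat_lit 17592506639)))) (T.h (P (nat_lit 0)) (P (nat_lit 575882644112))))) (T.h (T.h (T.h (P (nat_lit 0)) (P (nat_lit 1559868498700))) (P (nat_lit 0))) (T.h (T.h (P (nat_lit 0)) (P (nat_lit 672315023312))) (P (nat_lit 0))))))) (P (nat_lit 0))))) (T.h (T.h (P (nat_lit 0)) (T.h (T.h (T.h (T.h (P (nat_lit 0)) (T.h (P (nat_lit 3501727608)) (T.h (P (nat_lit 0)) (T.h (M (nat_lit 78502411123)) (T.h (P (nat_lit 0)) (M (nat_lit 986612444531))))))) (T.h (P (nat_lit 0)) (T.h (T.h (P (nat_lit 0)) (T.h (M (nat_lit 152291432927)) (T.h (P (nat_lit 0)) (P (nat_lit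 3699256504272))))) (T.h (P (nat_lit 0)) (T.h (T.h (P (nat_lit 0)) (P (nat_lit 15017997516000))) (P (nat_lit 0))))))) (T.h (T.h (P (nat_lit 0)) (T.h (T.h (M (nat_lit 5891545199)) (T.h (P (nat_lit 0)) (M (nat_lit 1460683773415)))) (T.h (P (nat_lit 0)) (M (nat_lit 1054828994239))))) (T.h (T.h (T.h (P (nat_lit 0)) (T.h (P (nat_lit 282941937972)) (T.h (P (nat_lit 0)) (M (nat_lit 5975526118375))))) (T.h (P (nat_lit 0)) (T.h (T.h (P (nat_lit 0)) (P (nat_lit 256803730908))) (P (nat_lit 0))))) (T.h (T.h (P (nat_lit 0)) (P (nat_lit 1079287844912))) (T.h (T.h (T.h (P (nat_lit 0)) (M (nat_lit 1363320660347))) (P (nat_lit 0))) (P (nat_lit 0))))))) (P (nat_lit 0)))) (T.h (T.h (T.h (T.h (P (nat_lit 0)) (T.h (T.h (P (nat_lit 292126736)) (T.h (P (nat_lit 0)) (T.h (M (nat_lit 27064786767)) (T.h (P (nat_lit 0)) (P (nat_lit 885720773488)))))) (T.h (P (nat_lit 0)) (T.h (T.h (P (nat_lit 157770364768)) (T.h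 (P (nat_lit 0)) (P (nat_lit 8984132773088)))) (T.h (P (nat_lit 0)) (P (nat_lit 3590797103280))))))) (T.h (T.h (T.h (P (nat_lit 0)) (T.h (M (nat_lit 12541190591)) (T.h (P (nat_lit 0)) (P (nat_lit 95930575952))))) (T.h (P (nat_lit 0)) (T.h (T.h (P (nat_lit 0)) (M (nat_lit 1343813305751))) (P (nat_lit 0))))) (T.h (T.h (P (nat_lit 0)) (T.h (T.h (P (nat_lit 267570622712)) (T.h (P (nat_lit 0)) (P (nat_lit 2257505747744)))) (T.h (P (nat_lit 0)) (M (nat_lit 9837534629343))))) (T.h (T.h (T.h (P (nat_lit 0)) (M (nat_lit 1408875750927))) (P (nat_lit 0))) (T.h (T.h (P (nat_lit 0)) (P (nat_lit 1348091116848))) (P (nat_lit 0))))))) (P (nat_lit 0))) (P (nat_lit 0)))))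
def en11_7 : T ℤ := (T.h (T.h (P (nat_lit 0)) (T.h (P (nat_lit 0)) (T.h (T.h (T.h (P (nat_lit 0)) (T.h (T.h (M (nat_lit 3643162735)) (T.h (P (nat_lit 0)) (T.h (P (nat_lit 145559009568)) (T.h (P (nat_lit 0)) (P (nat_lit 472873314032)))))) (T.h (P (nat_lit 0)) (T.h (T.h (M (nat_lit 38837628191)) (T.h (P (nat_lit 0)) (P (nat_lit 577839814936)))) (T.h (P (nat_lit 0)) (P (nat_lit 139709815120))))))) (T.h (T.h (T.h (P (nat_lit 0)) (T.h (M (nat_lit 10832311759)) (T.h (P (nat_lit 0)) (T.h (M (nat_lit 216974296047)) (T.h (P (nat_lit 0)) (P (nat_lit 1606806934616))))))) (T.h (P (nat_lit 0)) (T.h (T.h (P (nat_lit 0)) (T.h (M (nat_lit 201501085071)) (T.h (P (nat_lit 0)) (P (nat_lit 1703246397552))))) (T.h (P (nat_lit 0)) (T.h (T.h (P (nat_lit 0)) (M (nat_lit 9738571496943))) (P (nat_lit 0))))))) (T.h (T.h (P (nat_lit 0)) (T.h (T.h (P (nat_lit 145559009568)) (T.h (P (nat_lit 0)) (M (nat_lit 633501345599))))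 (T.h (P (nat_lit 0)) (P (nat_lit 577839814936))))) (T.h (T.h (T.h (P (nat_lit 0)) (T.h (M (nat_lit 216974296047)) (T.h (P (nat_lit 0)) (P (nat_lit 3419631469360))))) (T.h (P (nat_lit 0)) (T.h (T.h (P (nat_lit 0)) (P (nat_lit 1703246397552))) (P (nat_lit 0))))) (T.h (T.h (P (nat_lit 0)) (P (nat_lit 472873314032))) (T.h (T.h (T.h (P (nat_lit 0)) (P (nat_lit 1606806934616))) (P (nat_lit 0))) (P (nat_lit 0)))))))) (T.h (P (nat_lit 0)) (T.h (T.h (T.h (P (nat_lit 0)) (T.h (T.h (M (nat_lit 7837903239)) (T.h (P (nat_lit 0)) (T.h (P (nat_lit 100737651536)) (T.h (P (nat_lit 0)) (M (nat_lit 3346867455159)))))) (T.h (P (nat_lit 0)) (T.h (T.h (P (nat_lit 227633151248)) (T.h (P (nat_lit 0)) (P (nat_lit 2760927332928)))) (T.h (P (nat_lit 0)) (M (nat_lit 1581145442495))))))) (T.h (T.h (T.h (P (nat_lit 0)) (T.h (P (nat_lit 64856261624)) (T.h (P (nat_lit 0)) (P (nat_lit 771999659056))))) (T.h (P (nat_lit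 0)) (T.h (T.h (P (nat_lit 0)) (P (nat_lit 1525927879968))) (P (nat_lit 0))))) (T.h (T.h (P (nat_lit 0)) (T.h (T.h (M (nat_lit 53192402007)) (T.h (P (nat_lit 0)) (M (nat_lit 3859566250847)))) (T.h (P (nat_lit 0)) (P (nat_lit 11521332032656))))) (T.h (T.h (T.h (P (nat_lit 0)) (P (nat_lit 2326483780100))) (P (nat_lit 0))) (T.h (T.h (P (nat_lit 0)) (M (nat_lit 4319951470391))) (P (nat_lit 0))))))) (P (nat_lit 0))))))) (T.h (T.h (P (nat_lit 0)) (T.h (T.h (T.h (T.h (P (nat_lit 0)) (T.h (P (nat_lit 5161394232)) (T.h (P (nat_lit 0)) (T.h (P (nat_lit 51918938040)) (T.h (P (nat_lit 0)) (M (nat_lit 356725524359))))))) (T.h (P (nat_lit 0)) (T.h (T.h (P (nat_lit 0)) (T.h (M (nat_lit 131185032947)) (T.h (P (nat_lit 0)) (P (nat_lit 1959973390428))))) (T.h (P (nat_lit 0)) (T.h (T.h (P (nat_lit 0)) (M (nat_lit 582445152023))) (P (nat_lit 0))))))) (T.h (T.h (P (nat_lit 0)) (T.h (T.h (P (nat_lit 15937773144))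 (T.h (P (nat_lit 0)) (T.h (P (nat_lit 311626916580)) (T.h (P (nat_lit 0)) (P (nat_lit 15000108193596)))))) (T.h (P (nat_lit 0)) (T.h (T.h (P (nat_lit 258222346404)) (T.h (P (nat_lit 0)) (P (nat_lit 12704075428968)))) (T.h (P (nat_lit 0)) (M (nat_lit 8784094264391))))))) (T.h (T.h (T.h (P (nat_lit 0)) (T.h (M (nat_lit 101547636287)) (T.h (P (nat_lit 0)) (M (nat_lit 3283857824927))))) (T.h (P (nat_lit 0)) (T.h (T.h (P (nat_lit 0)) (P (nat_lit 987437851788))) (P (nat_lit 0))))) (T.h (T.h (P (nat_lit 0)) (T.h (T.h (P (nat_lit 20365916484)) (T.h (P (nat_lit 0)) (M (nat_lit 15020202235475)))) (T.h (P (nat_lit 0)) (M (nat_lit 5650327594799))))) (T.h (T.h (T.h (P (nat_lit 0)) (M (nat_lit 495550064159))) (P (nat_lit 0))) (T.h (T.h (P (nat_lit 0)) (P (nat_lit 6042730188972))) (P (nat_lit 0)))))))) (T.h (P (nat_lit 0)) (T.h (T.h (T.h (T.h (P (nat_lit 0)) (T.h (M (nat_lit 11915450607)) (T.h (P (nat_lit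 0)) (T.h (P (nat_lit 11038490592)) (T.h (P (nat_lit 0)) (M (nat_lit 4317861830575))))))) (T.h (P (nat_lit 0)) (T.h (T.h (P (nat_lit 0)) (T.h (M (nat_lit 216834696131)) (T.h (P (nat_lit 0)) (M (nat_lit 1731283296767))))) (T.h (P (nat_lit 0)) (T.h (T.h (P (nat_lit 0)) (P (nat_lit 20926952802920))) (P (nat_lit 0))))))) (T.h (T.h (P (nat_lit 0)) (T.h (T.h (P (nat_lit 111306552072)) (T.h (P (nat_lit 0)) (P (nat_lit 370804160816)))) (T.h (P (nat_lit 0)) (M (nat_lit 2236916607871))))) (T.h (T.h (T.h (P (nat_lit 0)) (T.h (M (nat_lit 644424255235)) (T.h (P (nat_lit 0)) (M (nat_lit 94050829295))))) (T.h (P (nat_lit 0)) (T.h (T.h (P (nat_lit 0)) (P (nat_lit 2699057717544))) (P (nat_lit 0))))) (T.h (T.h (P (nat_lit 0)) (P (nat_lit 1817737852848))) (T.h (T.h (T.h (P (nat_lit 0)) (M (nat_lit 3687794182611))) (P (nat_lit 0))) (P (nat_lit 0))))))) (P (nat_lit 0)))))) en11_6))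
def en11_8 : T ℤ := (T.h (T.h (T.h (T.h (P (nat_lit 0)) (T.h (T.h (P (nat_lit 0)) (T.h (P (nat_lit 5474276796)) (T.h (P (nat_lit 0)) (T.h (M (nat_lit 79344489035)) (T.h (P (nat_lit 0)) (M (nat_lit 1859348449415))))))) (T.h (P (nat_lit 0)) (T.h (T.h (P (nat_lit 0)) (T.h (M (nat_lit 58462993367)) (T.h (P (nat_lit 0)) (P (nat_lit 376140861816))))) (T.h (P (nat_lit 0)) (T.h (T.h (P (nat_lit 0)) (P (nat_lit 227386661952))) (P (nat_lit 0)))))))) (T.h (T.h (T.h (P (nat_lit 3158952432)) (T.h (P (nat_lit 0)) (T.h (M (nat_lit 123377282303)) (T.h (P (nat_lit 0)) (M (nat_lit 2197084828355)))))) (T.h (P (nat_lit 0)) (T.h (T.h (M (nat_lit 94227178487)) (T.h (P (nat_lit 0)) (P (nat_lit 2398431061428)))) (T.h (P (nat_lit 0)) (P (nat_lit 1606699581948)))))) (T.h (T.h (P (nat_lit 0)) (T.h (T.h (P (nat_lit 0)) (T.h (P (nat_lit 1061218655340)) (T.h (P (nat_lit 0)) (M (nat_lit 24593663290595))))) (T.h (P (nat_lit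 0)) (T.h (T.h (P (nat_lit 0)) (M (nat_lit 124909131911))) (P (nat_lit 0)))))) (T.h (T.h (T.h (M (nat_lit 124523473859)) (T.h (P (nat_lit 0)) (P (nat_lit 1157772881640)))) (T.h (P (nat_lit 0)) (M (nat_lit 366947718287)))) (T.h (T.h (P (nat_lit 0)) (T.h (T.h (P (nat_lit 0)) (P (nat_lit 31386710678460))) (P (nat_lit 0)))) (M (nat_lit 169372736975))))))) (T.h (P (nat_lit 0)) (T.h (T.h (T.h (P (nat_lit 0)) (T.h (T.h (P (nat_lit 0)) (T.h (P (nat_lit 111306552072)) (T.h (P (nat_lit 0)) (P (nat_lit 1817737852848))))) (T.h (P (nat_lit 0)) (T.h (T.h (P (nat_lit 0)) (M (nat_lit 2236916607871))) (P (nat_lit 0)))))) (T.h (T.h (T.h (M (nat_lit 11915450607)) (T.h (P (nat_lit 0)) (T.h (M (nat_lit 644424255235)) (T.h (P (nat_lit 0)) (M (nat_lit 3687794182611)))))) (T.h (P (nat_lit 0)) (T.h (T.h (M (nat_lit 216834696131)) (T.h (P (nat_lit 0)) (P (nat_lit 2699057717544)))) (T.h (P (nat_lit 0)) (P (nat_lit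 20926952802920)))))) (T.h (T.h (P (nat_lit 0)) (T.h (T.h (P (nat_lit 0)) (P (nat_lit 370804160816))) (P (nat_lit 0)))) (T.h (T.h (T.h (P (nat_lit 11038490592)) (T.h (P (nat_lit 0)) (M (nat_lit 94050829295)))) (T.h (P (nat_lit 0)) (M (nat_lit 1731283296767)))) (T.h (P (nat_lit 0)) (M (nat_lit 4317861830575))))))) (P (nat_lit 0))))) (T.h (T.h (P (nat_lit 0)) (T.h (T.h (T.h (T.h (P (nat_lit 810356248)) (T.h (P (nat_lit 0)) (T.h (P (nat_lit 20836600272)) (T.h (P (nat_lit 0)) (P (nat_lit 368563643352)))))) (T.h (P (nat_lit 0)) (T.h (T.h (P (nat_lit 30586069752)) (T.h (P (nat_lit 0)) (P (nat_lit 10003213848)))) (T.h (P (nat_lit 0)) (P (nat_lit 312420419600)))))) (T.h (T.h (P (nat_lit 0)) (T.h (T.h (P (nat_lit 0)) (T.h (P (nat_lit 740194682240)) (T.h (P (nat_lit 0)) (P (nat_lit 9470296009840))))) (T.h (P (nat_lit 0)) (T.h (T.h (P (nat_lit 0)) (P (nat_lit 19121606668928))) (P (nat_lit 0))))))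 (T.h (T.h (T.h (M (nat_lit 31002694859)) (T.h (P (nat_lit 0)) (P (nat_lit 490343898648)))) (T.h (P (nat_lit 0)) (M (nat_lit 2159728568171)))) (T.h (T.h (P (nat_lit 0)) (T.h (T.h (P (nat_lit 0)) (P (nat_lit 101833819568))) (P (nat_lit 0)))) (P (nat_lit 629382630640)))))) (P (nat_lit 0)))) (T.h (T.h (T.h (T.h (P (nat_lit 0)) (T.h (T.h (P (nat_lit 0)) (T.h (P (nat_lit 5604656600)) (T.h (P (nat_lit 0)) (M (nat_lit 961139028455))))) (T.h (P (nat_lit 0)) (T.h (T.h (P (nat_lit 0)) (M (nat_lit 2303779396911))) (P (nat_lit 0)))))) (T.h (T.h (T.h (P (nat_lit 332762936)) (T.h (P (nat_lit 0)) (T.h (P (nat_lit 396427933128)) (T.h (P (nat_lit 0)) (M (nat_lit 594611212791)))))) (T.h (P (nat_lit 0)) (T.h (T.h (P (nat_lit 637592579748)) (T.h (P (nat_lit 0)) (P (nat_lit 9540056464476)))) (T.h (P (nat_lit 0)) (M (nat_lit 79591327179)))))) (T.h (T.h (P (nat_lit 0)) (T.h (T.h (P (nat_lit 0)) (M (nat_lit 6181966887815)))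 (P (nat_lit 0)))) (T.h (T.h (T.h (P (nat_lit 268598040564)) (T.h (P (nat_lit 0)) (P (nat_lit 2252951229392)))) (T.h (P (nat_lit 0)) (M (nat_lit 5256228927455)))) (T.h (P (nat_lit 0)) (P (nat_lit 517980764084))))))) (P (nat_lit 0))) (P (nat_lit 0)))))
def en11_9 : T ℤ := (T.h (T.h (P (nat_lit 0)) (T.h (P (nat_lit 0)) (T.h (T.h (T.h (P (nat_lit 0)) (T.h (T.h (P (nat_lit 0)) (T.h (M (nat_lit 4387514579)) (T.h (P (nat_lit 0)) (T.h (M (nat_lit 165329801179)) (T.h (P (nat_lit 0)) (M (nat_lit 1427652917723))))))) (T.h (P (nat_lit 0)) (T.h (T.h (P (nat_lit 0)) (T.h (M (nat_lit 114632474727)) (T.h (P (nat_lit 0)) (P (nat_lit 934061854204))))) (T.h (P (nat_lit 0)) (T.h (T.h (P (nat_lit 0)) (M (nat_lit 1621932909211))) (P (nat_lit 0)))))))) (T.h (T.h (T.h (M (nat_lit 597494919)) (T.h (P (nat_lit 0)) (T.h (P (nat_lit 96655016452)) (T.h (P (nat_lit 0)) (P (nat_lit 221492725552)))))) (T.h (P (nat_lit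 0)) (T.h (T.h (P (nat_lit 45894280460)) (T.h (P (nat_lit 0)) (M (nat_lit 354973924895)))) (T.h (P (nat_lit 0)) (P (nat_lit 316640470992)))))) (T.h (T.h (P (nat_lit 0)) (T.h (T.h (P (nat_lit 0)) (T.h (M (nat_lit 629564168579)) (T.h (P (nat_lit 0)) (M (nat_lit 4036391661127))))) (T.h (P (nat_lit 0)) (T.h (T.h (P (nat_lit 0)) (P (nat_lit 6448943355860))) (P (nat_lit 0)))))) (T.h (T.h (T.h (P (nat_lit 27793390448)) (T.h (P (nat_lit 0)) (P (nat_lit 381023375780)))) (T.h (P (nat_lit 0)) (M (nat_lit 272246858339)))) (T.h (T.h (P (nat_lit 0)) (T.h (T.h (P (nat_lit 0)) (M (nat_lit 4668267991831))) (P (nat_lit 0)))) (P (nat_lit 30275483752))))))) (T.h (P (nat_lit 0)) (T.h (T.h (T.h (P (nat_lit 0)) (T.h (T.h (P (nat_lit 0)) (T.h (M (nat_lit 110015775583)) (T.h (P (nat_lit 0)) (P (nat_lit 1566187909680))))) (T.h (P (nat_lit 0)) (T.h (T.h (P (nat_lit 0)) (M (nat_lit 4479922595023))) (P (nat_lit 0))))))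 (T.h (T.h (T.h (P (nat_lit 2794167032)) (T.h (P (nat_lit 0)) (T.h (M (nat_lit 321772354367)) (T.h (P (nat_lit 0)) (M (nat_lit 5602296545171)))))) (T.h (P (nat_lit 0)) (T.h (T.h (P (nat_lit 769670856684)) (T.h (P (nat_lit 0)) (M (nat_lit 22546193943935)))) (T.h (P (nat_lit 0)) (P (nat_lit 11111071551400)))))) (T.h (T.h (P (nat_lit 0)) (T.h (T.h (P (nat_lit 0)) (P (nat_lit 3357185329232))) (P (nat_lit 0)))) (T.h (T.h (T.h (M (nat_lit 140025150203)) (T.h (P (nat_lit 0)) (M (nat_lit 5759121987927)))) (T.h (P (nat_lit 0)) (M (nat_lit 7633473994415)))) (T.h (P (nat_lit 0)) (M (nat_lit 28840012999))))))) (P (nat_lit 0))))))) (T.h (T.h (P (nat_lit 0)) (T.h (T.h (T.h (T.h (P (nat_lit 0)) (T.h (P (nat_lit 0)) (T.h (M (nat_lit 24694518399)) (T.h (P (nat_lit 0)) (T.h (P (nat_lit 153459424992)) (T.h (P (nat_lit 0)) (M (nat_lit 686523278055)))))))) (T.h (P (nat_lit 0)) (T.h (T.h (P (nat_lit 11105204216))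 (T.h (P (nat_lit 0)) (T.h (M (nat_lit 299481572687)) (T.h (P (nat_lit 0)) (M (nat_lit 10191052443439)))))) (T.h (P (nat_lit 0)) (T.h (T.h (M (nat_lit 105772848391)) (T.h (P (nat_lit 0)) (P (nat_lit 402275944352)))) (T.h (P (nat_lit 0)) (M (nat_lit 1628746179999)))))))) (T.h (T.h (P (nat_lit 0)) (T.h (T.h (P (nat_lit 0)) (T.h (P (nat_lit 73614775928)) (T.h (P (nat_lit 0)) (M (nat_lit 475505683911))))) (T.h (P (nat_lit 0)) (T.h (T.h (P (nat_lit 0)) (P (nat_lit 1872799888304))) (P (nat_lit 0)))))) (T.h (T.h (T.h (P (nat_lit 2315014048)) (T.h (P (nat_lit 0)) (T.h (M (nat_lit 156497712671)) (T.h (P (nat_lit 0)) (M (nat_lit 959240633575)))))) (T.h (P (nat_lit 0)) (T.h (T.h (M (nat_lit 330299246223)) (T.h (P (nat_lit 0)) (P (nat_lit 617165038488)))) (T.h (P (nat_lit 0)) (M (nat_lit 138864392735)))))) (T.h (T.h (P (nat_lit 0)) (T.h (T.h (P (nat_lit 0)) (P (nat_lit 927351069808))) (P (nat_lit 0))))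 (T.h (T.h (T.h (M (nat_lit 46208153895)) (T.h (P (nat_lit 0)) (M (nat_lit 228719090063)))) (T.h (P (nat_lit 0)) (P (nat_lit 1330744036480)))) (T.h (P (nat_lit 0)) (M (nat_lit 307888158567)))))))) (T.h (P (nat_lit 0)) (T.h (T.h (T.h (T.h (P (nat_lit 657810080)) (T.h (P (nat_lit 0)) (T.h (M (nat_lit 8000304279)) (T.h (P (nat_lit 0)) (P (nat_lit 1541296144420)))))) (T.h (P (nat_lit 0)) (T.h (T.h (M (nat_lit 105520431911)) (T.h (P (nat_lit 0)) (P (nat_lit 811129840164)))) (T.h (P (nat_lit 0)) (M (nat_lit 4772737151039)))))) (T.h (T.h (P (nat_lit 0)) (T.h (T.h (P (nat_lit 0)) (T.h (M (nat_lit 813202469855)) (T.h (P (nat_lit 0)) (M (nat_lit 11165464846959))))) (T.h (P (nat_lit 0)) (T.h (T.h (P (nat_lit 0)) (P (nat_lit 480805447008))) (P (nat_lit 0)))))) (T.h (T.h (T.h (M (nat_lit 8000304279)) (T.h (P (nat_lit 0)) (P (nat_lit 3077066397280)))) (T.h (P (nat_lit 0)) (P (nat_lit 811129840164))))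 (T.h (T.h (P (nat_lit 0)) (T.h (T.h (P (nat_lit 0)) (M (nat_lit 11165464846959))) (P (nat_lit 0)))) (P (nat_lit 1541296144420)))))) (P (nat_lit 0)))))) en11_8))
def en11_10 : T ℤ := (T.h (T.h (T.h (T.h (P (nat_lit 0)) (T.h (T.h (M (nat_lit 2306677655)) (T.h (P (nat_lit 0)) (T.h (M (nat_lit 40246888639)) (T.h (P (nat_lit 0)) (M (nat_lit 618930060519)))))) (T.h (P (nat_lit 0)) (T.h (T.h (M (nat_lit 16742561895)) (T.h (P (nat_lit 0)) (P (nat_lit 362784280480)))) (T.h (P (nat_lit 0)) (M (nat_lit 634658719839))))))) (T.h (T.h (T.h (P (nat_lit 0)) (T.h (P (nat_lit 1428922632)) (T.h (P (nat_lit 0)) (T.h (P (nat_lit 276736270184)) (T.h (P (nat_lit 0)) (P (nat_lit 147077655216))))))) (T.h (P (nat_lit 0)) (T.h (T.h (P (nat_lit 0)) (T.h (P (nat_lit 26279927984)) (T.h (P (nat_lit 0)) (P (nat_lit 14228793760520))))) (T.h (P (nat_lit 0)) (T.h (T.h (P (nat_lit 0)) (M (nat_lit 5046016125751))) (P (nat_lit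 0))))))) (T.h (T.h (P (nat_lit 0)) (T.h (T.h (M (nat_lit 25396334151)) (T.h (P (nat_lit 0)) (P (nat_lit 283817089952)))) (T.h (P (nat_lit 0)) (P (nat_lit 886268156352))))) (T.h (T.h (T.h (P (nat_lit 0)) (T.h (M (nat_lit 150826809079)) (T.h (P (nat_lit 0)) (M (nat_lit 2740014106751))))) (T.h (P (nat_lit 0)) (T.h (T.h (P (nat_lit 0)) (P (nat_lit 5436063366096))) (P (nat_lit 0))))) (T.h (T.h (P (nat_lit 0)) (M (nat_lit 2113935606255))) (T.h (T.h (T.h (P (nat_lit 0)) (P (nat_lit 892070944696))) (P (nat_lit 0))) (P (nat_lit 0)))))))) (T.h (P (nat_lit 0)) (T.h (T.h (T.h (P (nat_lit 0)) (T.h (T.h (M (nat_lit 7837903239)) (T.h (P (nat_lit 0)) (T.h (M (nat_lit 53192402007)) (T.h (P (nat_lit 0)) (M (nat_lit 4319951470391)))))) (T.h (P (nat_lit 0)) (T.h (T.h (P (nat_lit 227633151248)) (T.h (P (nat_lit 0)) (P (nat_lit 11521332032656)))) (T.h (P (nat_lit 0)) (M (nat_lit 1581145442495))))))) (T.h (T.h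 (T.h (P (nat_lit 0)) (T.h (P (nat_lit 64856261624)) (T.h (P (nat_lit 0)) (P (nat_lit 2326483780100))))) (T.h (P (nat_lit 0)) (T.h (T.h (P (nat_lit 0)) (P (nat_lit 1525927879968))) (P (nat_lit 0))))) (T.h (T.h (P (nat_lit 0)) (T.h (T.h (P (nat_lit 100737651536)) (T.h (P (nat_lit 0)) (M (nat_lit 3859566250847)))) (T.h (P (nat_lit 0)) (P (nat_lit 2760927332928))))) (T.h (T.h (T.h (P (nat_lit 0)) (P (nat_lit 771999659056))) (P (nat_lit 0))) (T.h (T.h (P (nat_lit 0)) (M (nat_lit 3346867455159))) (P (nat_lit 0))))))) (P (nat_lit 0))))) (T.h (T.h (P (nat_lit 0)) (T.h (T.h (T.h (T.h (P (nat_lit 0)) (T.h (P (nat_lit 227976308)) (T.h (P (nat_lit 0)) (T.h (M (nat_lit 31733666747)) (T.h (P (nat_lit 0)) (P (nat_lit 1470702928400))))))) (T.h (P (nat_lit 0)) (T.h (T.h (P (nat_lit 0)) (T.h (P (nat_lit 169506069804)) (T.h (P (nat_lit 0)) (P (nat_lit 7866645791748))))) (T.h (P (nat_lit 0)) (T.h (T.h (P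 (nat_lit 0)) (P (nat_lit 1662512324680))) (P (nat_lit 0))))))) (T.h (T.h (P (nat_lit 0)) (T.h (T.h (P (nat_lit 20998536776)) (T.h (P (nat_lit 0)) (P (nat_lit 652993462248)))) (T.h (P (nat_lit 0)) (M (nat_lit 3007192571535))))) (T.h (T.h (T.h (P (nat_lit 0)) (T.h (P (nat_lit 80637111048)) (T.h (P (nat_lit 0)) (M (nat_lit 761569016899))))) (T.h (P (nat_lit 0)) (T.h (T.h (P (nat_lit 0)) (P (nat_lit 3313010201484))) (P (nat_lit 0))))) (T.h (T.h (P (nat_lit 0)) (M (nat_lit 708886048127))) (T.h (T.h (T.h (P (nat_lit 0)) (P (nat_lit 203479682380))) (P (nat_lit 0))) (P (nat_lit 0))))))) (P (nat_lit 0)))) (T.h (T.h (T.h (T.h (P (nat_lit 0)) (T.h (T.h (M (nat_lit 766855039)) (T.h (P (nat_lit 0)) (T.h (P (nat_lit 227325101448)) (T.h (P (nat_lit 0)) (P (nat_lit 2318626710824)))))) (T.h (P (nat_lit 0)) (T.h (T.h (P (nat_lit 119445757536)) (T.h (P (nat_lit 0)) (P (nat_lit 9202526908912)))) (T.h (P (nat_lit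 0)) (P (nat_lit 9600879833640))))))) (T.h (T.h (T.h (P (nat_lit 0)) (T.h (M (nat_lit 58754457843)) (T.h (P (nat_lit 0)) (M (nat_lit 773953632103))))) (T.h (P (nat_lit 0)) (T.h (T.h (P (nat_lit 0)) (M (nat_lit 3212233142183))) (P (nat_lit 0))))) (T.h (T.h (P (nat_lit 0)) (T.h (T.h (P (nat_lit 499040467640)) (T.h (P (nat_lit 0)) (P (nat_lit 1220412799904)))) (T.h (P (nat_lit 0)) (M (nat_lit 981324032975))))) (T.h (T.h (T.h (P (nat_lit 0)) (M (nat_lit 285573088143))) (P (nat_lit 0))) (T.h (T.h (P (nat_lit 0)) (P (nat_lit 2913868897784))) (P (nat_lit 0))))))) (P (nat_lit 0))) (P (nat_lit 0)))))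
def en11_11 : T ℤ := (T.h (T.h (T.h (T.h (P (nat_lit 0)) (T.h (T.h (P (nat_lit 0)) (T.h (M (nat_lit 1472176611)) (T.h (P (nat_lit 0)) (T.h (P (nat_lit 45694151156)) (T.h (P (nat_lit 0)) (M (nat_lit 490905466999))))))) (T.h (P (nat_lit 0)) (T.h (T.h (P (nat_lit 0)) (T.h (M (nat_lit 179664919855)) (T.h (P (nat_lit 0)) (M (nat_lit 5565376992691))))) (T.h (P (nat_lit 0)) (T.h (T.h (P (nat_lit 0)) (M (nat_lit 529464205251))) (P (nat_lit 0)))))))) (T.h (T.h (T.h (P (nat_lit 632546104)) (T.h (P (nat_lit 0)) (T.h (P (nat_lit 7012030452)) (T.h (P (nat_lit 0)) (P (nat_lit 349004519192)))))) (T.h (P (nat_lit 0)) (T.h (T.h (P (nat_lit 24238827088)) (T.h (P (nat_lit 0)) (P (nat_lit 106678059464)))) (T.h (P (nat_lit 0)) (P (nat_lit 548562223816)))))) (T.h (T.h (P (nat_lit 0)) (T.h (T.h (P (nat_lit 0)) (T.h (P (nat_lit 33411442868)) (T.h (P (nat_lit 0)) (M (nat_lit 2155030009147))))) (T.h (P (nat_lit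 0)) (T.h (T.h (P (nat_lit 0)) (M (nat_lit 140457972303))) (P (nat_lit 0)))))) (T.h (T.h (T.h (M (nat_lit 3683435875)) (T.h (P (nat_lit 0)) (P (nat_lit 302144707900)))) (T.h (P (nat_lit 0)) (M (nat_lit 129092795959)))) (T.h (T.h (P (nat_lit 0)) (T.h (T.h (P (nat_lit 0)) (P (nat_lit 3909602200716))) (P (nat_lit 0)))) (M (nat_lit 188201153491))))))) (T.h (P (nat_lit 0)) (T.h (T.h (T.h (P (nat_lit 0)) (T.h (T.h (P (nat_lit 0)) (T.h (M (nat_lit 7246730287)) (T.h (P (nat_lit 0)) (P (nat_lit 788480709896))))) (T.h (P (nat_lit 0)) (T.h (T.h (P (nat_lit 0)) (M (nat_lit 1996231214943))) (P (nat_lit 0)))))) (T.h (T.h (T.h (P (nat_lit 4011300208)) (T.h (P (nat_lit 0)) (T.h (M (nat_lit 187414981207)) (T.h (P (nat_lit 0)) (M (nat_lit 1402793980103)))))) (T.h (P (nat_lit 0)) (T.h (T.h (P (nat_lit 638146137564)) (T.h (P (nat_lit 0)) (P (nat_lit 2032907773248)))) (T.h (P (nat_lit 0)) (P (nat_lit 5121459829440))))))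 (T.h (T.h (P (nat_lit 0)) (T.h (T.h (P (nat_lit 0)) (P (nat_lit 2859099289792))) (P (nat_lit 0)))) (T.h (T.h (T.h (P (nat_lit 2766354772)) (T.h (P (nat_lit 0)) (M (nat_lit 1832483074467)))) (T.h (P (nat_lit 0)) (M (nat_lit 5247824361659)))) (T.h (P (nat_lit 0)) (M (nat_lit 805489087399))))))) (P (nat_lit 0))))) (T.h (T.h (P (nat_lit 0)) (T.h (T.h (T.h (T.h (M (nat_lit 633592739)) (T.h (P (nat_lit 0)) (T.h (P (nat_lit 27295472444)) (T.h (P (nat_lit 0)) (P (nat_lit 938509381424)))))) (T.h (P (nat_lit 0)) (T.h (T.h (M (nat_lit 46699495931)) (T.h (P (nat_lit 0)) (P (nat_lit 1810680590868)))) (T.h (P (nat_lit 0)) (M (nat_lit 106860690599)))))) (T.h (T.h (P (nat_lit 0)) (T.h (T.h (P (nat_lit 0)) (T.h (M (nat_lit 345833535719)) (T.h (P (nat_lit 0)) (M (nat_lit 1394642132623))))) (T.h (P (nat_lit 0)) (T.h (T.h (P (nat_lit 0)) (M (nat_lit 4425680538543))) (P (nat_lit 0)))))) (T.h (T.h (T.h (P (nat_lit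 24504999392)) (T.h (P (nat_lit 0)) (P (nat_lit 57804185072)))) (T.h (P (nat_lit 0)) (M (nat_lit 294997221527)))) (T.h (T.h (P (nat_lit 0)) (T.h (T.h (P (nat_lit 0)) (P (nat_lit 3313321239672))) (P (nat_lit 0)))) (M (nat_lit 672649783615)))))) (P (nat_lit 0)))) (T.h (T.h (T.h (T.h (P (nat_lit 0)) (T.h (T.h (P (nat_lit 0)) (T.h (P (nat_lit 36034627752)) (T.h (P (nat_lit 0)) (P (nat_lit 1114060220368))))) (T.h (P (nat_lit 0)) (T.h (T.h (P (nat_lit 0)) (P (nat_lit 3916800417328))) (P (nat_lit 0)))))) (T.h (T.h (T.h (P (nat_lit 387729124)) (T.h (P (nat_lit 0)) (T.h (P (nat_lit 175939141136)) (T.h (P (nat_lit 0)) (M (nat_lit 427495759595)))))) (T.h (P (nat_lit 0)) (T.h (T.h (P (nat_lit 23579772600)) (T.h (P (nat_lit 0)) (M (nat_lit 6438150376199)))) (T.h (P (nat_lit 0)) (M (nat_lit 5178622776239)))))) (T.h (T.h (P (nat_lit 0)) (T.h (T.h (P (nat_lit 0)) (M (nat_lit 257554761383))) (P (nat_lit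 0)))) (T.h (T.h (T.h (M (nat_lit 27392963847)) (T.h (P (nat_lit 0)) (M (nat_lit 1136274401259)))) (T.h (P (nat_lit 0)) (P (nat_lit 2300565728796)))) (T.h (P (nat_lit 0)) (P (nat_lit 1266084426232))))))) (P (nat_lit 0))) (P (nat_lit 0)))))
def en11_12 : T ℤ := (T.h (T.h (T.h (P (nat_lit 0)) (T.h (T.h (T.h (T.h (P (nat_lit 0)) (T.h (P (nat_lit 459485268)) (T.h (P (nat_lit 0)) (T.h (M (nat_lit 656763895)) (T.h (P (nat_lit 0)) (M (nat_lit 497791344531))))))) (T.h (P (nat_lit 0)) (T.h (T.h (P (nat_lit 0)) (T.h (P (nat_lit 15957518388)) (T.h (P (nat_lit 0)) (M (nat_lit 647726648203))))) (T.h (P (nat_lit 0)) (T.h (T.h (P (nat_lit 0)) (P (nat_lit 468270194964))) (P (nat_lit 0))))))) (T.h (T.h (P (nat_lit 0)) (T.h (T.h (P (nat_lit 1034588708)) (T.h (P (nat_lit 0)) (T.h (M (nat_lit 116620739951)) (T.h (P (nat_lit 0)) (P (nat_lit 638242243696)))))) (T.h (P (nat_lit 0)) (T.h (T.h (M (nat_lit 72364944179))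 (T.h (P (nat_lit 0)) (M (nat_lit 1675649927631)))) (T.h (P (nat_lit 0)) (P (nat_lit 686724624272))))))) (T.h (T.h (T.h (P (nat_lit 0)) (T.h (M (nat_lit 12862589591)) (T.h (P (nat_lit 0)) (P (nat_lit 711881066516))))) (T.h (P (nat_lit 0)) (T.h (T.h (P (nat_lit 0)) (P (nat_lit 533789990540))) (P (nat_lit 0))))) (T.h (T.h (P (nat_lit 0)) (T.h (T.h (P (nat_lit 42411888264)) (T.h (P (nat_lit 0)) (M (nat_lit 4243960283043)))) (T.h (P (nat_lit 0)) (P (nat_lit 2480547298464))))) (T.h (T.h (T.h (P (nat_lit 0)) (P (nat_lit 836461759916))) (P (nat_lit 0))) (T.h (T.h (P (nat_lit 0)) (P (nat_lit 395850797080))) (P (nat_lit 0)))))))) (T.h (P (nat_lit 0)) (T.h (T.h (T.h (T.h (P (nat_lit 0)) (T.h (P (nat_lit 2794167032)) (T.h (P (nat_lit 0)) (T.h (M (nat_lit 140025150203)) (T.h (P (nat_lit 0)) (M (nat_lit 28840012999))))))) (T.h (P (nat_lit 0)) (T.h (T.h (P (nat_lit 0)) (T.h (P (nat_lit 769670856684))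 (T.h (P (nat_lit 0)) (M (nat_lit 7633473994415))))) (T.h (P (nat_lit 0)) (T.h (T.h (P (nat_lit 0)) (P (nat_lit 11111071551400))) (P (nat_lit 0))))))) (T.h (T.h (P (nat_lit 0)) (T.h (T.h (M (nat_lit 110015775583)) (T.h (P (nat_lit 0)) (P (nat_lit 3357185329232)))) (T.h (P (nat_lit 0)) (M (nat_lit 4479922595023))))) (T.h (T.h (T.h (P (nat_lit 0)) (T.h (M (nat_lit 321772354367)) (T.h (P (nat_lit 0)) (M (nat_lit 5759121987927))))) (T.h (P (nat_lit 0)) (T.h (T.h (P (nat_lit 0)) (M (nat_lit 22546193943935))) (P (nat_lit 0))))) (T.h (T.h (P (nat_lit 0)) (P (nat_lit 1566187909680))) (T.h (T.h (T.h (P (nat_lit 0)) (M (nat_lit 5602296545171))) (P (nat_lit 0))) (P (nat_lit 0))))))) (P (nat_lit 0)))))) en11_10) (T.h en11_11 (T.h (T.h (T.h (P (nat_lit 0)) (T.h (T.h (T.h (T.h (P (nat_lit 0)) (T.h (P (nat_lit 1148416284)) (T.h (P (nat_lit 0)) (T.h (P (nat_lit 44603437836)) (T.h (P (nat_lit 0)) (P (nat_lit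 98482915708))))))) (T.h (P (nat_lit 0)) (T.h (T.h (P (nat_lit 0)) (T.h (M (nat_lit 119476021919)) (T.h (P (nat_lit 0)) (P (nat_lit 1951068882780))))) (T.h (P (nat_lit 0)) (T.h (T.h (P (nat_lit 0)) (M (nat_lit 1647796885159))) (P (nat_lit 0))))))) (T.h (T.h (P (nat_lit 0)) (T.h (T.h (P (nat_lit 308619552)) (T.h (P (nat_lit 0)) (P (nat_lit 723349089080)))) (T.h (P (nat_lit 0)) (M (nat_lit 336265300655))))) (T.h (T.h (T.h (P (nat_lit 0)) (T.h (M (nat_lit 123027105435)) (T.h (P (nat_lit 0)) (M (nat_lit 138284695579))))) (T.h (P (nat_lit 0)) (T.h (T.h (P (nat_lit 0)) (M (nat_lit 1194338384891))) (P (nat_lit 0))))) (T.h (T.h (P (nat_lit 0)) (M (nat_lit 442000357831))) (T.h (T.h (T.h (P (nat_lit 0)) (P (nat_lit 1456836232876))) (P (nat_lit 0))) (P (nat_lit 0))))))) (P (nat_lit 0)))) (T.h (T.h (T.h (T.h (P (nat_lit 0)) (T.h (T.h (M (nat_lit 656982775)) (T.h (P (nat_lit 0)) (T.h (P (nat_lit 556574572672))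 (T.h (P (nat_lit 0)) (P (nat_lit 21399745367888)))))) (T.h (P (nat_lit 0)) (T.h (T.h (M (nat_lit 106287706975)) (T.h (P (nat_lit 0)) (P (nat_lit 40595664937648)))) (T.h (P (nat_lit 0)) (M (nat_lit 9232752292679))))))) (T.h (T.h (T.h (P (nat_lit 0)) (T.h (M (nat_lit 8906826547)) (T.h (P (nat_lit 0)) (M (nat_lit 789325124959))))) (T.h (P (nat_lit 0)) (T.h (T.h (P (nat_lit 0)) (M (nat_lit 650012983199))) (P (nat_lit 0))))) (T.h (T.h (P (nat_lit 0)) (T.h (T.h (P (nat_lit 22969218000)) (T.h (P (nat_lit 0)) (M (nat_lit 1451194362527)))) (T.h (P (nat_lit 0)) (P (nat_lit 12214389561600))))) (T.h (T.h (T.h (P (nat_lit 0)) (P (nat_lit 165070685584))) (P (nat_lit 0))) (T.h (T.h (P (nat_lit 0)) (P (nat_lit 623814668664))) (P (nat_lit 0))))))) (P (nat_lit 0))) (P (nat_lit 0)))) (T.h (T.h (T.h (T.h (T.h (P (nat_lit 0)) (T.h (T.h (P (nat_lit 0)) (T.h (M (nat_lit 2018648999)) (T.h (P (nat_lit 0)) (M (nat_lit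 15598055199))))) (T.h (P (nat_lit 0)) (T.h (T.h (P (nat_lit 0)) (P (nat_lit 229891705392))) (P (nat_lit 0)))))) (T.h (T.h (T.h (P (nat_lit 131042668)) (T.h (P (nat_lit 0)) (T.h (P (nat_lit 931329436)) (T.h (P (nat_lit 0)) (P (nat_lit 298264105676)))))) (T.h (P (nat_lit 0)) (T.h (T.h (M (nat_lit 27063761159)) (T.h (P (nat_lit 0)) (M (nat_lit 449800163087)))) (T.h (P (nat_lit 0)) (P (nat_lit 227702169700)))))) (T.h (T.h (P (nat_lit 0)) (T.h (T.h (P (nat_lit 0)) (P (nat_lit 88926024872))) (P (nat_lit 0)))) (T.h (T.h (T.h (M (nat_lit 7267119775)) (T.h (P (nat_lit 0)) (P (nat_lit 240241248776)))) (T.h (P (nat_lit 0)) (P (nat_lit 978566588292)))) (T.h (P (nat_lit 0)) (M (nat_lit 153032694299))))))) (P (nat_lit 0))) (P (nat_lit 0))) (P (nat_lit 0))))))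
def en11_13 : T ℤ := (T.h (T.h (T.h (P (nat_lit 0)) (T.h (P (nat_lit 0)) (T.h (P (nat_lit 0)) (T.h (P (nat_lit 0)) (T.h (P (nat_lit 0)) (T.h (T.h (T.h (T.h (P (nat_lit 0)) (T.h (P (nat_lit 632546104)) (T.h (P (nat_lit 0)) (T.h (M (nat_lit 3683435875)) (T.h (P (nat_lit 0)) (M (nat_lit 188201153491))))))) (T.h (P (nat_lit 0)) (T.h (T.h (P (nat_lit 0)) (T.h (P (nat_lit 24238827088)) (T.h (P (nat_lit 0)) (M (nat_lit 129092795959))))) (T.h (P (nat_lit 0)) (T.h (T.h (P (nat_lit 0)) (P (nat_lit 548562223816))) (P (nat_lit 0))))))) (T.h (T.h (P (nat_lit 0)) (T.h (T.h (M (nat_lit 1472176611)) (T.h (P (nat_lit 0)) (T.h (P (nat_lit 33411442868)) (T.h (P (nat_lit 0)) (P (nat_lit 3909602200716)))))) (T.h (P (nat_lit 0)) (T.h (T.h (M (nat_lit 179664919855)) (T.h (P (nat_lit 0)) (M (nat_lit 140457972303)))) (T.h (P (nat_lit 0)) (M (nat_lit 529464205251))))))) (T.h (T.h (T.h (P (nat_lit 0)) (T.h (P (nat_lit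 7012030452)) (T.h (P (nat_lit 0)) (P (nat_lit 302144707900))))) (T.h (P (nat_lit 0)) (T.h (T.h (P (nat_lit 0)) (P (nat_lit 106678059464))) (P (nat_lit 0))))) (T.h (T.h (P (nat_lit 0)) (T.h (T.h (P (nat_lit 45694151156)) (T.h (P (nat_lit 0)) (M (nat_lit 2155030009147)))) (T.h (P (nat_lit 0)) (M (nat_lit 5565376992691))))) (T.h (T.h (T.h (P (nat_lit 0)) (P (nat_lit 349004519192))) (P (nat_lit 0))) (T.h (T.h (P (nat_lit 0)) (M (nat_lit 490905466999))) (P (nat_lit 0)))))))) (T.h (P (nat_lit 0)) (T.h (T.h (T.h (T.h (P (nat_lit 0)) (T.h (P (nat_lit 131042668)) (T.h (P (nat_lit 0)) (T.h (M (nat_lit 7267119775)) (T.h (P (nat_lit 0)) (M (nat_lit 153032694299))))))) (T.h (P (nat_lit 0)) (T.h (T.h (P (nat_lit 0)) (T.h (M (nat_lit 27063761159)) (T.h (P (nat_lit 0)) (P (nat_lit 978566588292))))) (T.h (P (nat_lit 0)) (T.h (T.h (P (nat_lit 0)) (P (nat_lit 227702169700))) (P (nat_lit 0))))))) (T.h (T.h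 (P (nat_lit 0)) (T.h (T.h (M (nat_lit 2018648999)) (T.h (P (nat_lit 0)) (P (nat_lit 88926024872)))) (T.h (P (nat_lit 0)) (P (nat_lit 229891705392))))) (T.h (T.h (T.h (P (nat_lit 0)) (T.h (P (nat_lit 931329436)) (T.h (P (nat_lit 0)) (P (nat_lit 240241248776))))) (T.h (P (nat_lit 0)) (T.h (T.h (P (nat_lit 0)) (M (nat_lit 449800163087))) (P (nat_lit 0))))) (T.h (T.h (P (nat_lit 0)) (M (nat_lit 15598055199))) (T.h (T.h (T.h (P (nat_lit 0)) (P (nat_lit 298264105676))) (P (nat_lit 0))) (P (nat_lit 0))))))) (P (nat_lit 0)))))))))) en11_2) (T.h en11_5 (T.h (T.h (T.h (P (nat_lit 0)) (T.h (P (nat_lit 0)) (T.h (P (nat_lit 0)) (T.h (T.h (T.h (T.h (P (nat_lit 0)) (T.h (M (nat_lit 597494919)) (T.h (P (nat_lit 0)) (T.h (P (nat_lit 27793390448)) (T.h (P (nat_lit 0)) (P (nat_lit 30275483752))))))) (T.h (P (nat_lit 0)) (T.h (T.h (P (nat_lit 0)) (T.h (P (nat_lit 45894280460)) (T.h (P (nat_lit 0)) (M (nat_lit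 272246858339))))) (T.h (P (nat_lit 0)) (T.h (T.h (P (nat_lit 0)) (P (nat_lit 316640470992))) (P (nat_lit 0))))))) (T.h (T.h (P (nat_lit 0)) (T.h (T.h (M (nat_lit 4387514579)) (T.h (P (nat_lit 0)) (T.h (M (nat_lit 629564168579)) (T.h (P (nat_lit 0)) (M (nat_lit 4668267991831)))))) (T.h (P (nat_lit 0)) (T.h (T.h (M (nat_lit 114632474727)) (T.h (P (nat_lit 0)) (P (nat_lit 6448943355860)))) (T.h (P (nat_lit 0)) (M (nat_lit 1621932909211))))))) (T.h (T.h (T.h (P (nat_lit 0)) (T.h (P (nat_lit 96655016452)) (T.h (P (nat_lit 0)) (P (nat_lit 381023375780))))) (T.h (P (nat_lit 0)) (T.h (T.h (P (nat_lit 0)) (M (nat_lit 354973924895))) (P (nat_lit 0))))) (T.h (T.h (P (nat_lit 0)) (T.h (T.h (M (nat_lit 165329801179)) (T.h (P (nat_lit 0)) (M (nat_lit 4036391661127)))) (T.h (P (nat_lit 0)) (P (nat_lit 934061854204))))) (T.h (T.h (T.h (P (nat_lit 0)) (P (nat_lit 221492725552))) (P (nat_lit 0))) (T.h (T.h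 (P (nat_lit 0)) (M (nat_lit 1427652917723))) (P (nat_lit 0)))))))) (T.h (P (nat_lit 0)) (T.h (T.h (T.h (T.h (P (nat_lit 0)) (T.h (P (nat_lit 4011300208)) (T.h (P (nat_lit 0)) (T.h (P (nat_lit 2766354772)) (T.h (P (nat_lit 0)) (M (nat_lit 805489087399))))))) (T.h (P (nat_lit 0)) (T.h (T.h (P (nat_lit 0)) (T.h (P (nat_lit 638146137564)) (T.h (P (nat_lit 0)) (M (nat_lit 5247824361659))))) (T.h (P (nat_lit 0)) (T.h (T.h (P (nat_lit 0)) (P (nat_lit 5121459829440))) (P (nat_lit 0))))))) (T.h (T.h (P (nat_lit 0)) (T.h (T.h (M (nat_lit 7246730287)) (T.h (P (nat_lit 0)) (P (nat_lit 2859099289792)))) (T.h (P (nat_lit 0)) (M (nat_lit 1996231214943))))) (T.h (T.h (T.h (P (nat_lit 0)) (T.h (M (nat_lit 187414981207)) (T.h (P (nat_lit 0)) (M (nat_lit 1832483074467))))) (T.h (P (nat_lit 0)) (T.h (T.h (P (nat_lit 0)) (P (nat_lit 2032907773248))) (P (nat_lit 0))))) (T.h (T.h (P (nat_lit 0)) (P (nat_lit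 788480709896))) (T.h (T.h (T.h (P (nat_lit 0)) (M (nat_lit 1402793980103))) (P (nat_lit 0))) (P (nat_lit 0))))))) (P (nat_lit 0)))))))) en11_7) (T.h en11_9 en11_12))))

def n11 : T ℤ := en11_13

theorem h_n11 : chkT (c.Nn 1 1) n11 = true := by decide +kernel


end Pool.Agent.TOPR.R6109
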