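import Pool.Agent.TOPR.R6109.Cert

set_option autoImplicit false
set_option linter.all false
set_option maxRecDepth 100000

namespace Pool.Agent.TOPR.R6109

open Helper10.PC hiding V3
open Helper80.CW.DL Pool.Agent.Helper6.TOP

def en12_0 : T ℤ := (T.h (T.h (T.h (T.h (T.h (P (nat_lit 0)) (T.h (M (nat_lit 2817606235)) (T.h (P (nat_lit 0)) (T.h (M (nat_lit 51239088851)) (T.h (P (nat_lit 0)) (M (nat_lit 177196635703))))))) (T.h (P (nat_lit 0)) (T.h (T.h (P (nat_lit 0)) (T.h (P (nat_lit 25104536044)) (T.h (P (nat_lit 0)) (M (nat_lit 701992162615))))) (T.h (P (nat_lit 0)) (T.h (T.h (P (nat_lit 0)) (P (nat_lit 373121895940))) (P (nat_lit 0))))))) (T.h (T.h (P (nat_lit 0)) (T.h (T.h (M (nat_lit 1562352851)) (T.h (P (nat_lit 0)) (T.h (P (nat_lit 198897723456)) (T.h (P (nat_lit 0)) (M (nat_lit 4077489247435)))))) (T.h (P (nat_lit 0)) (T.h (T.h (P (nat_lit 159138456792)) (T.h (P (nat_lit 0)) (M (nat_lit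 685640907107)))) (T.h (P (nat_lit 0)) (P (nat_lit 1913578476352))))))) (T.h (T.h (T.h (P (nat_lit 0)) (T.h (P (nat_lit 84877185116)) (T.h (P (nat_lit 0)) (M (nat_lit 604855556191))))) (T.h (P (nat_lit 0)) (T.h (T.h (P (nat_lit 0)) (M (nat_lit 1694889133971))) (P (nat_lit 0))))) (T.h (T.h (P (nat_lit 0)) (T.h (T.h (M (nat_lit 196742605211)) (T.h (P (nat_lit 0)) (P (nat_lit 7028280409180)))) (T.h (P (nat_lit 0)) (M (nat_lit 4478610963243))))) (T.h (T.h (T.h (P (nat_lit 0)) (P (nat_lit 55158832600))) (P (nat_lit 0))) (T.h (T.h (P (nat_lit 0)) (M (nat_lit 3241937144751))) (P (nat_lit 0)))))))) (T.h (P (nat_lit 0)) (T.h (T.h (T.h (T.h (P (nat_lit 0)) (T.h (P (nat_lit 534661884)) (T.h (P (nat_lit 0)) (T.h (P (nat_lit 186595921000)) (T.h (P (nat_lit 0)) (P (nat_lit 9649271150664))))))) (T.h (P (nat_lit 0)) (T.h (T.h (P (nat_lit 0)) (T.h (P (nat_lit 185391731168)) (T.h (P (nat_lit 0)) (P (nat_lit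 4996747962492))))) (T.h (P (nat_lit 0)) (T.h (T.h (P (nat_lit 0)) (P (nat_lit 1411654816488))) (P (nat_lit 0))))))) (T.h (T.h (P (nat_lit 0)) (T.h (T.h (M (nat_lit 47285516103)) (T.h (P (nat_lit 0)) (M (nat_lit 4484182014167)))) (T.h (P (nat_lit 0)) (P (nat_lit 1918192027112))))) (T.h (T.h (T.h (P (nat_lit 0)) (T.h (P (nat_lit 188400457256)) (T.h (P (nat_lit 0)) (P (nat_lit 12729588273976))))) (T.h (P (nat_lit 0)) (T.h (T.h (P (nat_lit 0)) (M (nat_lit 1151317456035))) (P (nat_lit 0))))) (T.h (T.h (P (nat_lit 0)) (P (nat_lit 373007098920))) (T.h (T.h (T.h (P (nat_lit 0)) (M (nat_lit 2263111015347))) (P (nat_lit 0))) (P (nat_lit 0))))))) (P (nat_lit 0))))) (T.h (T.h (P (nat_lit 0)) (T.h (T.h (T.h (P (nat_lit 0)) (T.h (T.h (P (nat_lit 1869872132)) (T.h (P (nat_lit 0)) (T.h (P (nat_lit 29016052956)) (T.h (P (nat_lit 0)) (P (nat_lit 521978678880)))))) (T.h (P (nat_lit 0)) (T.h (T.h (M (nat_lit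 70482771307)) (T.h (P (nat_lit 0)) (M (nat_lit 708194560355)))) (T.h (P (nat_lit 0)) (M (nat_lit 755031786943))))))) (T.h (T.h (T.h (P (nat_lit 0)) (T.h (P (nat_lit 28714081124)) (T.h (P (nat_lit 0)) (P (nat_lit 2040833517056))))) (T.h (P (nat_lit 0)) (T.h (T.h (P (nat_lit 0)) (P (nat_lit 418528548920))) (P (nat_lit 0))))) (T.h (T.h (P (nat_lit 0)) (T.h (T.h (P (nat_lit 109591566112)) (T.h (P (nat_lit 0)) (P (nat_lit 855908678424)))) (T.h (P (nat_lit 0)) (M (nat_lit 5774743568971))))) (T.h (T.h (T.h (P (nat_lit 0)) (P (nat_lit 940284843200))) (P (nat_lit 0))) (T.h (T.h (P (nat_lit 0)) (P (nat_lit 4730590054480))) (P (nat_lit 0))))))) (P (nat_lit 0)))) (T.h (T.h (T.h (T.h (T.h (P (nat_lit 0)) (T.h (M (nat_lit 970609635)) (T.h (P (nat_lit 0)) (T.h (M (nat_lit 97735681031)) (T.h (P (nat_lit 0)) (M (nat_lit 9421716903171))))))) (T.h (P (nat_lit 0)) (T.h (T.h (P (nat_lit 0)) (T.h (P (nat_lit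 53531091608)) (T.h (P (nat_lit 0)) (P (nat_lit 12297226109524))))) (T.h (P (nat_lit 0)) (T.h (T.h (P (nat_lit 0)) (M (nat_lit 1884070226483))) (P (nat_lit 0))))))) (T.h (T.h (P (nat_lit 0)) (T.h (T.h (M (nat_lit 4811839719)) (T.h (P (nat_lit 0)) (M (nat_lit 1219786607595)))) (T.h (P (nat_lit 0)) (M (nat_lit 74609436591))))) (T.h (T.h (T.h (P (nat_lit 0)) (T.h (P (nat_lit 557282913100)) (T.h (P (nat_lit 0)) (P (nat_lit 41261092490160))))) (T.h (P (nat_lit 0)) (T.h (T.h (P (nat_lit 0)) (P (nat_lit 771359443848))) (P (nat_lit 0))))) (T.h (T.h (P (nat_lit 0)) (M (nat_lit 574775747923))) (T.h (T.h (T.h (P (nat_lit 0)) (P (nat_lit 21003777044604))) (P (nat_lit 0))) (P (nat_lit 0))))))) (P (nat_lit 0))) (P (nat_lit 0)))))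
def en12_1 : T ℤ := (T.h (T.h (P (nat_lit 0)) (T.h (P (nat_lit 0)) (T.h (T.h (T.h (T.h (P (nat_lit 0)) (T.h (M (nat_lit 1454402879)) (T.h (P (nat_lit 0)) (T.h (M (nat_lit 158008597651)) (T.h (P (nat_lit 0)) (M (nat_lit 1438690176655))))))) (T.h (P (nat_lit 0)) (T.h (T.h (P (nat_lit 0)) (T.h (M (nat_lit 145019846791)) (T.h (P (nat_lit 0)) (P (nat_lit 1405588594416))))) (T.h (P (nat_lit 0)) (T.h (T.h (P (nat_lit 0)) (M (nat_lit 2621171630563))) (P (nat_lit 0))))))) (T.h (T.h (P (nat_lit 0)) (T.h (T.h (P (nat_lit 8332122060)) (T.h (P (nat_lit 0)) (T.h (P (nat_lit 1113778511308)) (T.h (P (nat_lit 0)) (P (nat_lit 21294678426956)))))) (T.h (P (nat_lit 0)) (T.h (T.h (M (nat_lit 360116611527)) (T.h (P (nat_lit 0)) (P (nat_lit 10747217600280)))) (T.h (P (nat_lit 0)) (P (nat_lit 2011528551344))))))) (T.h (T.h (T.h (P (nat_lit 0)) (T.h (M (nat_lit 203871059583)) (T.h (P (nat_lit 0)) (P (nat_lit 1883341442600)))))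 (T.h (P (nat_lit 0)) (T.h (T.h (P (nat_lit 0)) (P (nat_lit 2966065241332))) (P (nat_lit 0))))) (T.h (T.h (P (nat_lit 0)) (T.h (T.h (P (nat_lit 474128051332)) (T.h (P (nat_lit 0)) (P (nat_lit 3863924230444)))) (T.h (P (nat_lit 0)) (M (nat_lit 5103887351687))))) (T.h (T.h (T.h (P (nat_lit 0)) (M (nat_lit 3434944949395))) (P (nat_lit 0))) (T.h (T.h (P (nat_lit 0)) (M (nat_lit 1565193138983))) (P (nat_lit 0)))))))) (T.h (P (nat_lit 0)) (T.h (T.h (T.h (T.h (P (nat_lit 0)) (T.h (P (nat_lit 5257419528)) (T.h (P (nat_lit 0)) (T.h (P (nat_lit 251450281372)) (T.h (P (nat_lit 0)) (P (nat_lit 3029393412220))))))) (T.h (P (nat_lit 0)) (T.h (T.h (P (nat_lit 0)) (T.h (P (nat_lit 1304834589332)) (T.h (P (nat_lit 0)) (P (nat_lit 571508868112))))) (T.h (P (nat_lit 0)) (T.h (T.h (P (nat_lit 0)) (P (nat_lit 2099241803932))) (P (nat_lit 0))))))) (T.h (T.h (P (nat_lit 0)) (T.h (T.h (M (nat_lit 36267091443))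 (T.h (P (nat_lit 0)) (M (nat_lit 7038686152247)))) (T.h (P (nat_lit 0)) (M (nat_lit 3639398257767))))) (T.h (T.h (T.h (P (nat_lit 0)) (T.h (P (nat_lit 399048316760)) (T.h (P (nat_lit 0)) (P (nat_lit 2160990952356))))) (T.h (P (nat_lit 0)) (T.h (T.h (P (nat_lit 0)) (P (nat_lit 7979266488080))) (P (nat_lit 0))))) (T.h (T.h (P (nat_lit 0)) (P (nat_lit 65901109608))) (T.h (T.h (T.h (P (nat_lit 0)) (P (nat_lit 1201860224952))) (P (nat_lit 0))) (P (nat_lit 0))))))) (P (nat_lit 0))))))) (T.h (T.h (P (nat_lit 0)) (T.h (T.h (T.h (P (nat_lit 0)) (T.h (T.h (P (nat_lit 2759433024)) (T.h (P (nat_lit 0)) (T.h (M (nat_lit 8736360399)) (T.h (P (nat_lit 0)) (P (nat_lit 1337656299152)))))) (T.h (P (nat_lit 0)) (T.h (T.h (M (nat_lit 1445217795)) (T.h (P (nat_lit 0)) (M (nat_lit 1234431856175)))) (T.h (P (nat_lit 0)) (M (nat_lit 1211212247979))))))) (T.h (T.h (T.h (P (nat_lit 0)) (T.h (P (nat_lit 2550771212))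 (T.h (P (nat_lit 0)) (T.h (M (nat_lit 671364125159)) (T.h (P (nat_lit 0)) (M (nat_lit 4384944774787))))))) (T.h (P (nat_lit 0)) (T.h (T.h (P (nat_lit 0)) (T.h (P (nat_lit 746185455300)) (T.h (P (nat_lit 0)) (P (nat_lit 7575699265064))))) (T.h (P (nat_lit 0)) (T.h (T.h (P (nat_lit 0)) (P (nat_lit 8371203563124))) (P (nat_lit 0))))))) (T.h (T.h (P (nat_lit 0)) (T.h (T.h (P (nat_lit 33570555972)) (T.h (P (nat_lit 0)) (M (nat_lit 118413160495)))) (T.h (P (nat_lit 0)) (P (nat_lit 1039831752532))))) (T.h (T.h (T.h (P (nat_lit 0)) (T.h (P (nat_lit 649447063076)) (T.h (P (nat_lit 0)) (M (nat_lit 34418374483627))))) (T.h (P (nat_lit 0)) (T.h (T.h (P (nat_lit 0)) (M (nat_lit 7252581697155))) (P (nat_lit 0))))) (T.h (T.h (P (nat_lit 0)) (P (nat_lit 2801173047184))) (T.h (T.h (T.h (P (nat_lit 0)) (M (nat_lit 1929706858335))) (P (nat_lit 0))) (P (nat_lit 0)))))))) (T.h (P (nat_lit 0)) (T.h (T.h (T.h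 (P (nat_lit 0)) (T.h (T.h (P (nat_lit 5257419528)) (T.h (P (nat_lit 0)) (T.h (P (nat_lit 1304834589332)) (T.h (P (nat_lit 0)) (P (nat_lit 2099241803932)))))) (T.h (P (nat_lit 0)) (T.h (T.h (P (nat_lit 251450281372)) (T.h (P (nat_lit 0)) (P (nat_lit 571508868112)))) (T.h (P (nat_lit 0)) (P (nat_lit 3029393412220))))))) (T.h (T.h (T.h (P (nat_lit 0)) (T.h (M (nat_lit 36267091443)) (T.h (P (nat_lit 0)) (M (nat_lit 3639398257767))))) (T.h (P (nat_lit 0)) (T.h (T.h (P (nat_lit 0)) (M (nat_lit 7038686152247))) (P (nat_lit 0))))) (T.h (T.h (P (nat_lit 0)) (T.h (T.h (P (nat_lit 399048316760)) (T.h (P (nat_lit 0)) (P (nat_lit 7979266488080)))) (T.h (P (nat_lit 0)) (P (nat_lit 2160990952356))))) (T.h (T.h (T.h (P (nat_lit 0)) (P (nat_lit 65901109608))) (P (nat_lit 0))) (T.h (T.h (P (nat_lit 0)) (P (nat_lit 1201860224952))) (P (nat_lit 0))))))) (P (nat_lit 0)))))) en12_0))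
def en12_2 : T ℤ := (T.h (T.h (P (nat_lit 0)) (T.h (P (nat_lit 0)) (T.h (P (nat_lit 0)) (T.h (P (nat_lit 0)) (T.h (T.h (T.h (T.h (P (nat_lit 0)) (T.h (P (nat_lit 2759433024)) (T.h (P (nat_lit 0)) (T.h (M (nat_lit 1445217795)) (T.h (P (nat_lit 0)) (M (nat_lit 1211212247979))))))) (T.h (P (nat_lit 0)) (T.h (T.h (P (nat_lit 0)) (T.h (M (nat_lit 8736360399)) (T.h (P (nat_lit 0)) (M (nat_lit 1234431856175))))) (T.h (P (nat_lit 0)) (T.h (T.h (P (nat_lit 0)) (P (nat_lit 1337656299152))) (P (nat_lit 0))))))) (T.h (T.h (P (nat_lit 0)) (T.h (T.h (P (nat_lit 2550771212)) (T.h (P (nat_lit 0)) (T.h (P (nat_lit 746185455300)) (T.h (P (nat_lit 0)) (P (nat_lit 8371203563124)))))) (T.h (P (nat_lit 0)) (T.h (T.h (M (nat_lit 671364125159)) (T.h (P (nat_lit 0)) (P (nat_lit 7575699265064)))) (T.h (P (nat_lit 0)) (M (nat_lit 4384944774787))))))) (T.h (T.h (T.h (P (nat_lit 0)) (T.h (P (nat_lit 33570555972))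 (T.h (P (nat_lit 0)) (P (nat_lit 1039831752532))))) (T.h (P (nat_lit 0)) (T.h (T.h (P (nat_lit 0)) (M (nat_lit 118413160495))) (P (nat_lit 0))))) (T.h (T.h (P (nat_lit 0)) (T.h (T.h (P (nat_lit 649447063076)) (T.h (P (nat_lit 0)) (M (nat_lit 7252581697155)))) (T.h (P (nat_lit 0)) (M (nat_lit 34418374483627))))) (T.h (T.h (T.h (P (nat_lit 0)) (P (nat_lit 2801173047184))) (P (nat_lit 0))) (T.h (T.h (P (nat_lit 0)) (M (nat_lit 1929706858335))) (P (nat_lit 0)))))))) (T.h (P (nat_lit 0)) (T.h (T.h (T.h (T.h (P (nat_lit 0)) (T.h (P (nat_lit 1869872132)) (T.h (P (nat_lit 0)) (T.h (M (nat_lit 70482771307)) (T.h (P (nat_lit 0)) (M (nat_lit 755031786943))))))) (T.h (P (nat_lit 0)) (T.h (T.h (P (nat_lit 0)) (T.h (P (nat_lit 29016052956)) (T.h (P (nat_lit 0)) (M (nat_lit 708194560355))))) (T.h (P (nat_lit 0)) (T.h (T.h (P (nat_lit 0)) (P (nat_lit 521978678880))) (P (nat_lit 0))))))) (T.h (T.h (P (nat_lit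 0)) (T.h (T.h (P (nat_lit 28714081124)) (T.h (P (nat_lit 0)) (P (nat_lit 418528548920)))) (T.h (P (nat_lit 0)) (P (nat_lit 2040833517056))))) (T.h (T.h (T.h (P (nat_lit 0)) (T.h (P (nat_lit 109591566112)) (T.h (P (nat_lit 0)) (M (nat_lit 5774743568971))))) (T.h (P (nat_lit 0)) (T.h (T.h (P (nat_lit 0)) (P (nat_lit 855908678424))) (P (nat_lit 0))))) (T.h (T.h (P (nat_lit 0)) (P (nat_lit 940284843200))) (T.h (T.h (T.h (P (nat_lit 0)) (P (nat_lit 4730590054480))) (P (nat_lit 0))) (P (nat_lit 0))))))) (P (nat_lit 0))))))))) (T.h (T.h (P (nat_lit 0)) (T.h (P (nat_lit 0)) (T.h (P (nat_lit 0)) (T.h (T.h (T.h (P (nat_lit 0)) (T.h (T.h (M (nat_lit 1454402879)) (T.h (P (nat_lit 0)) (T.h (M (nat_lit 145019846791)) (T.h (P (nat_lit 0)) (M (nat_lit 2621171630563)))))) (T.h (P (nat_lit 0)) (T.h (T.h (M (nat_lit 158008597651)) (T.h (P (nat_lit 0)) (P (nat_lit 1405588594416)))) (T.h (P (nat_lit 0)) (M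 (nat_lit 1438690176655))))))) (T.h (T.h (T.h (P (nat_lit 0)) (T.h (P (nat_lit 8332122060)) (T.h (P (nat_lit 0)) (T.h (M (nat_lit 360116611527)) (T.h (P (nat_lit 0)) (P (nat_lit 2011528551344))))))) (T.h (P (nat_lit 0)) (T.h (T.h (P (nat_lit 0)) (T.h (P (nat_lit 1113778511308)) (T.h (P (nat_lit 0)) (P (nat_lit 10747217600280))))) (T.h (P (nat_lit 0)) (T.h (T.h (P (nat_lit 0)) (P (nat_lit 21294678426956))) (P (nat_lit 0))))))) (T.h (T.h (P (nat_lit 0)) (T.h (T.h (M (nat_lit 203871059583)) (T.h (P (nat_lit 0)) (P (nat_lit 2966065241332)))) (T.h (P (nat_lit 0)) (P (nat_lit 1883341442600))))) (T.h (T.h (T.h (P (nat_lit 0)) (T.h (P (nat_lit 474128051332)) (T.h (P (nat_lit 0)) (M (nat_lit 5103887351687))))) (T.h (P (nat_lit 0)) (T.h (T.h (P (nat_lit 0)) (P (nat_lit 3863924230444))) (P (nat_lit 0))))) (T.h (T.h (P (nat_lit 0)) (M (nat_lit 3434944949395))) (T.h (T.h (T.h (P (nat_lit 0)) (M (nat_lit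 1565193138983))) (P (nat_lit 0))) (P (nat_lit 0)))))))) (T.h (P (nat_lit 0)) (T.h (T.h (T.h (P (nat_lit 0)) (T.h (T.h (P (nat_lit 534661884)) (T.h (P (nat_lit 0)) (T.h (P (nat_lit 185391731168)) (T.h (P (nat_lit 0)) (P (nat_lit 1411654816488)))))) (T.h (P (nat_lit 0)) (T.h (T.h (P (nat_lit 186595921000)) (T.h (P (nat_lit 0)) (P (nat_lit 4996747962492)))) (T.h (P (nat_lit 0)) (P (nat_lit 9649271150664))))))) (T.h (T.h (T.h (P (nat_lit 0)) (T.h (M (nat_lit 47285516103)) (T.h (P (nat_lit 0)) (P (nat_lit 1918192027112))))) (T.h (P (nat_lit 0)) (T.h (T.h (P (nat_lit 0)) (M (nat_lit 4484182014167))) (P (nat_lit 0))))) (T.h (T.h (P (nat_lit 0)) (T.h (T.h (P (nat_lit 188400457256)) (T.h (P (nat_lit 0)) (M (nat_lit 1151317456035)))) (T.h (P (nat_lit 0)) (P (nat_lit 12729588273976))))) (T.h (T.h (T.h (P (nat_lit 0)) (P (nat_lit 373007098920))) (P (nat_lit 0))) (T.h (T.h (P (nat_lit 0)) (M (nat_lit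 2263111015347))) (P (nat_lit 0))))))) (P (nat_lit 0)))))))) en12_1))
def en12_3 : T ℤ := (T.h (T.h (T.h (T.h (T.h (P (nat_lit 0)) (T.h (P (nat_lit 0)) (T.h (P (nat_lit 6187213800)) (T.h (P (nat_lit 0)) (T.h (M (nat_lit 375244080279)) (T.h (P (nat_lit 0)) (M (nat_lit 1182395986739)))))))) (T.h (P (nat_lit 0)) (T.h (T.h (M (nat_lit 9464630299)) (T.h (P (nat_lit 0)) (T.h (P (nat_lit 485397468028)) (T.h (P (nat_lit 0)) (P (nat_lit 6347426050984)))))) (T.h (P (nat_lit 0)) (T.h (T.h (P (nat_lit 226262950848)) (T.h (P (nat_lit 0)) (M (nat_lit 15689931015591)))) (T.h (P (nat_lit 0)) (M (nat_lit 54473863471)))))))) (T.h (T.h (P (nat_lit 0)) (T.h (T.h (P (nat_lit 0)) (T.h (M (nat_lit 124517892091)) (T.h (P (nat_lit 0)) (M (nat_lit 546424038451))))) (T.h (P (nat_lit 0)) (T.h (T.h (P (nat_lit 0)) (M (nat_lit 2556121157203))) (P (nat_lit 0)))))) (T.h (T.h (T.h (P (nat_lit 18231715780)) (T.h (P (nat_lit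 0)) (T.h (P (nat_lit 44239254112)) (T.h (P (nat_lit 0)) (P (nat_lit 4787653750652)))))) (T.h (P (nat_lit 0)) (T.h (T.h (P (nat_lit 894386388108)) (T.h (P (nat_lit 0)) (M (nat_lit 2172156239659)))) (T.h (P (nat_lit 0)) (M (nat_lit 1088906193011)))))) (T.h (T.h (P (nat_lit 0)) (T.h (T.h (P (nat_lit 0)) (M (nat_lit 243199272171))) (P (nat_lit 0)))) (T.h (T.h (T.h (M (nat_lit 587162968359)) (T.h (P (nat_lit 0)) (M (nat_lit 3894029989827)))) (T.h (P (nat_lit 0)) (M (nat_lit 14762411027275)))) (T.h (P (nat_lit 0)) (M (nat_lit 593605526279)))))))) (T.h (P (nat_lit 0)) (T.h (T.h (T.h (T.h (M (nat_lit 32815467)) (T.h (P (nat_lit 0)) (T.h (P (nat_lit 75934186876)) (T.h (P (nat_lit 0)) (M (nat_lit 1425600705623)))))) (T.h (P (nat_lit 0)) (T.h (T.h (M (nat_lit 20756728355)) (T.h (P (nat_lit 0)) (P (nat_lit 555602695176)))) (T.h (P (nat_lit 0)) (P (nat_lit 1936999265560)))))) (T.h (T.h (P (nat_lit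 0)) (T.h (T.h (P (nat_lit 0)) (T.h (P (nat_lit 727158098040)) (T.h (P (nat_lit 0)) (M (nat_lit 3244609173735))))) (T.h (P (nat_lit 0)) (T.h (T.h (P (nat_lit 0)) (P (nat_lit 985121216792))) (P (nat_lit 0)))))) (T.h (T.h (T.h (M (nat_lit 66988283363)) (T.h (P (nat_lit 0)) (M (nat_lit 1595915073659)))) (T.h (P (nat_lit 0)) (M (nat_lit 1453214223507)))) (T.h (T.h (P (nat_lit 0)) (T.h (T.h (P (nat_lit 0)) (M (nat_lit 13474190270551))) (P (nat_lit 0)))) (P (nat_lit 789978635088)))))) (P (nat_lit 0))))) (T.h (T.h (P (nat_lit 0)) (T.h (T.h (T.h (P (nat_lit 0)) (T.h (T.h (P (nat_lit 0)) (T.h (P (nat_lit 30938551312)) (T.h (P (nat_lit 0)) (P (nat_lit 871455837888))))) (T.h (P (nat_lit 0)) (T.h (T.h (P (nat_lit 0)) (M (nat_lit 1324262121583))) (P (nat_lit 0)))))) (T.h (T.h (T.h (M (nat_lit 311498899)) (T.h (P (nat_lit 0)) (T.h (P (nat_lit 59351716560)) (T.h (P (nat_lit 0)) (P (nat_lit 9563566217424))))))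 (T.h (P (nat_lit 0)) (T.h (T.h (P (nat_lit 149241059964)) (T.h (P (nat_lit 0)) (P (nat_lit 3363969063372)))) (T.h (P (nat_lit 0)) (M (nat_lit 6762544293375)))))) (T.h (T.h (P (nat_lit 0)) (T.h (T.h (P (nat_lit 0)) (M (nat_lit 668798975839))) (P (nat_lit 0)))) (T.h (T.h (T.h (M (nat_lit 35539445771)) (T.h (P (nat_lit 0)) (M (nat_lit 1940621785023)))) (T.h (P (nat_lit 0)) (P (nat_lit 2082745814108)))) (T.h (P (nat_lit 0)) (P (nat_lit 822710732148))))))) (P (nat_lit 0)))) (T.h (T.h (T.h (T.h (T.h (M (nat_lit 588230275)) (T.h (P (nat_lit 0)) (T.h (M (nat_lit 8980027151)) (T.h (P (nat_lit 0)) (M (nat_lit 721735026483)))))) (T.h (P (nat_lit 0)) (T.h (T.h (M (nat_lit 11051788659)) (T.h (P (nat_lit 0)) (P (nat_lit 844986349092)))) (T.h (P (nat_lit 0)) (P (nat_lit 1569912515292)))))) (T.h (T.h (P (nat_lit 0)) (T.h (T.h (P (nat_lit 0)) (T.h (M (nat_lit 374513852855)) (T.h (P (nat_lit 0)) (M (nat_lit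 7940010357927))))) (T.h (P (nat_lit 0)) (T.h (T.h (P (nat_lit 0)) (P (nat_lit 6377980039032))) (P (nat_lit 0)))))) (T.h (T.h (T.h (P (nat_lit 22437109208)) (T.h (P (nat_lit 0)) (P (nat_lit 2956089496780)))) (T.h (P (nat_lit 0)) (M (nat_lit 790559610691)))) (T.h (T.h (P (nat_lit 0)) (T.h (T.h (P (nat_lit 0)) (P (nat_lit 1261499302808))) (P (nat_lit 0)))) (P (nat_lit 451656168544)))))) (P (nat_lit 0))) (P (nat_lit 0)))))
def en12_4 : T ℤ := (T.h (T.h (P (nat_lit 0)) (T.h (P (nat_lit 0)) (T.h (T.h (T.h (T.h (P (nat_lit 0)) (T.h (P (nat_lit 0)) (T.h (P (nat_lit 20130327396)) (T.h (P (nat_lit 0)) (T.h (M (nat_lit 227971503431)) (T.h (P (nat_lit 0)) (M (nat_lit 2904951507851)))))))) (T.h (P (nat_lit 0)) (T.h (T.h (P (nat_lit 20130327396)) (T.h (P (nat_lit 0)) (T.h (M (nat_lit 990897738671)) (T.h (P (nat_lit 0)) (P (nat_lit 1787819465616)))))) (T.h (P (nat_lit 0)) (T.h (T.h (M (nat_lit 227971503431))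 (T.h (P (nat_lit 0)) (P (nat_lit 1787819465616)))) (T.h (P (nat_lit 0)) (M (nat_lit 2904951507851)))))))) (T.h (T.h (P (nat_lit 0)) (T.h (T.h (P (nat_lit 0)) (T.h (P (nat_lit 220844327784)) (T.h (P (nat_lit 0)) (P (nat_lit 4200226437168))))) (T.h (P (nat_lit 0)) (T.h (T.h (P (nat_lit 0)) (P (nat_lit 4200226437168))) (P (nat_lit 0)))))) (T.h (T.h (T.h (M (nat_lit 74083555199)) (T.h (P (nat_lit 0)) (T.h (M (nat_lit 683968928039)) (T.h (P (nat_lit 0)) (P (nat_lit 260335281432)))))) (T.h (P (nat_lit 0)) (T.h (T.h (M (nat_lit 683968928039)) (T.h (P (nat_lit 0)) (P (nat_lit 1851495115464)))) (T.h (P (nat_lit 0)) (P (nat_lit 260335281432)))))) (T.h (T.h (P (nat_lit 0)) (T.h (T.h (P (nat_lit 0)) (M (nat_lit 1426517051735))) (P (nat_lit 0)))) (T.h (T.h (T.h (P (nat_lit 460378274976)) (T.h (P (nat_lit 0)) (M (nat_lit 16725439615523)))) (T.h (P (nat_lit 0)) (M (nat_lit 16725439615523)))) (T.h (P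 (nat_lit 0)) (M (nat_lit 2059569834167)))))))) (T.h (P (nat_lit 0)) (T.h (T.h (T.h (T.h (M (nat_lit 32815467)) (T.h (P (nat_lit 0)) (T.h (M (nat_lit 20756728355)) (T.h (P (nat_lit 0)) (P (nat_lit 1936999265560)))))) (T.h (P (nat_lit 0)) (T.h (T.h (P (nat_lit 75934186876)) (T.h (P (nat_lit 0)) (P (nat_lit 555602695176)))) (T.h (P (nat_lit 0)) (M (nat_lit 1425600705623)))))) (T.h (T.h (P (nat_lit 0)) (T.h (T.h (P (nat_lit 0)) (T.h (P (nat_lit 727158098040)) (T.h (P (nat_lit 0)) (P (nat_lit 985121216792))))) (T.h (P (nat_lit 0)) (T.h (T.h (P (nat_lit 0)) (M (nat_lit 3244609173735))) (P (nat_lit 0)))))) (T.h (T.h (T.h (M (nat_lit 66988283363)) (T.h (P (nat_lit 0)) (M (nat_lit 1453214223507)))) (T.h (P (nat_lit 0)) (M (nat_lit 1595915073659)))) (T.h (T.h (P (nat_lit 0)) (T.h (T.h (P (nat_lit 0)) (M (nat_lit 13474190270551))) (P (nat_lit 0)))) (P (nat_lit 789978635088)))))) (P (nat_lit 0)))))))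 (T.h (T.h (P (nat_lit 0)) (T.h (T.h (T.h (P (nat_lit 0)) (T.h (T.h (P (nat_lit 0)) (T.h (P (nat_lit 14763536928)) (T.h (P (nat_lit 0)) (T.h (M (nat_lit 275882499063)) (T.h (P (nat_lit 0)) (P (nat_lit 6775385289736))))))) (T.h (P (nat_lit 0)) (T.h (T.h (P (nat_lit 0)) (T.h (P (nat_lit 341795783992)) (T.h (P (nat_lit 0)) (P (nat_lit 6155304130656))))) (T.h (P (nat_lit 0)) (T.h (T.h (P (nat_lit 0)) (M (nat_lit 4272659654607))) (P (nat_lit 0)))))))) (T.h (T.h (T.h (P (nat_lit 5278870560)) (T.h (P (nat_lit 0)) (T.h (M (nat_lit 3868350639)) (T.h (P (nat_lit 0)) (P (nat_lit 1542714070416)))))) (T.h (P (nat_lit 0)) (T.h (T.h (M (nat_lit 138907046999)) (T.h (P (nat_lit 0)) (P (nat_lit 2793451863352)))) (T.h (P (nat_lit 0)) (P (nat_lit 2957550271648)))))) (T.h (T.h (P (nat_lit 0)) (T.h (T.h (P (nat_lit 0)) (T.h (M (nat_lit 258731682087)) (T.h (P (nat_lit 0)) (M (nat_lit 16716067867511))))) (T.h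 (P (nat_lit 0)) (T.h (T.h (P (nat_lit 0)) (M (nat_lit 8506457512863))) (P (nat_lit 0)))))) (T.h (T.h (T.h (P (nat_lit 31985569776)) (T.h (P (nat_lit 0)) (M (nat_lit 4780145142767)))) (T.h (P (nat_lit 0)) (P (nat_lit 4154173193016)))) (T.h (T.h (P (nat_lit 0)) (T.h (T.h (P (nat_lit 0)) (P (nat_lit 12553041103848))) (P (nat_lit 0)))) (M (nat_lit 2228982394367))))))) (T.h (P (nat_lit 0)) (T.h (T.h (T.h (P (nat_lit 0)) (T.h (T.h (P (nat_lit 0)) (T.h (M (nat_lit 124010779439)) (T.h (P (nat_lit 0)) (P (nat_lit 1077711477112))))) (T.h (P (nat_lit 0)) (T.h (T.h (P (nat_lit 0)) (P (nat_lit 1077711477112))) (P (nat_lit 0)))))) (T.h (T.h (T.h (P (nat_lit 17432054064)) (T.h (P (nat_lit 0)) (T.h (P (nat_lit 523209896356)) (T.h (P (nat_lit 0)) (P (nat_lit 14018055031772)))))) (T.h (P (nat_lit 0)) (T.h (T.h (P (nat_lit 523209896356)) (T.h (P (nat_lit 0)) (P (nat_lit 305501458704)))) (T.h (P (nat_lit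 0)) (P (nat_lit 14018055031772)))))) (T.h (T.h (P (nat_lit 0)) (T.h (T.h (P (nat_lit 0)) (P (nat_lit 1961375594592))) (P (nat_lit 0)))) (T.h (T.h (T.h (P (nat_lit 302924697128)) (T.h (P (nat_lit 0)) (P (nat_lit 4302363712280)))) (T.h (P (nat_lit 0)) (P (nat_lit 4302363712280)))) (T.h (P (nat_lit 0)) (M (nat_lit 5609356365055))))))) (P (nat_lit 0)))))) en12_3))
def en12_5 : T ℤ := (T.h (T.h (P (nat_lit 0)) (T.h (P (nat_lit 0)) (T.h (P (nat_lit 0)) (T.h (P (nat_lit 0)) (T.h (T.h (T.h (T.h (P (nat_lit 0)) (T.h (P (nat_lit 0)) (T.h (M (nat_lit 9464630299)) (T.h (P (nat_lit 0)) (T.h (P (nat_lit 226262950848)) (T.h (P (nat_lit 0)) (M (nat_lit 54473863471)))))))) (T.h (P (nat_lit 0)) (T.h (T.h (P (nat_lit 6187213800)) (T.h (P (nat_lit 0)) (T.h (P (nat_lit 485397468028)) (T.h (P (nat_lit 0)) (M (nat_lit 15689931015591)))))) (T.h (P (nat_lit 0)) (T.h (T.h (M (nat_lit 375244080279)) (T.h (P (nat_lit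 0)) (P (nat_lit 6347426050984)))) (T.h (P (nat_lit 0)) (M (nat_lit 1182395986739)))))))) (T.h (T.h (P (nat_lit 0)) (T.h (T.h (P (nat_lit 0)) (T.h (M (nat_lit 124517892091)) (T.h (P (nat_lit 0)) (M (nat_lit 2556121157203))))) (T.h (P (nat_lit 0)) (T.h (T.h (P (nat_lit 0)) (M (nat_lit 546424038451))) (P (nat_lit 0)))))) (T.h (T.h (T.h (P (nat_lit 18231715780)) (T.h (P (nat_lit 0)) (T.h (P (nat_lit 894386388108)) (T.h (P (nat_lit 0)) (M (nat_lit 1088906193011)))))) (T.h (P (nat_lit 0)) (T.h (T.h (P (nat_lit 44239254112)) (T.h (P (nat_lit 0)) (M (nat_lit 2172156239659)))) (T.h (P (nat_lit 0)) (P (nat_lit 4787653750652)))))) (T.h (T.h (P (nat_lit 0)) (T.h (T.h (P (nat_lit 0)) (M (nat_lit 243199272171))) (P (nat_lit 0)))) (T.h (T.h (T.h (M (nat_lit 587162968359)) (T.h (P (nat_lit 0)) (M (nat_lit 14762411027275)))) (T.h (P (nat_lit 0)) (M (nat_lit 3894029989827)))) (T.h (P (nat_lit 0)) (M (nat_lit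 593605526279)))))))) (T.h (P (nat_lit 0)) (T.h (T.h (T.h (T.h (M (nat_lit 588230275)) (T.h (P (nat_lit 0)) (T.h (M (nat_lit 11051788659)) (T.h (P (nat_lit 0)) (P (nat_lit 1569912515292)))))) (T.h (P (nat_lit 0)) (T.h (T.h (M (nat_lit 8980027151)) (T.h (P (nat_lit 0)) (P (nat_lit 844986349092)))) (T.h (P (nat_lit 0)) (M (nat_lit 721735026483)))))) (T.h (T.h (P (nat_lit 0)) (T.h (T.h (P (nat_lit 0)) (T.h (M (nat_lit 374513852855)) (T.h (P (nat_lit 0)) (P (nat_lit 6377980039032))))) (T.h (P (nat_lit 0)) (T.h (T.h (P (nat_lit 0)) (M (nat_lit 7940010357927))) (P (nat_lit 0)))))) (T.h (T.h (T.h (P (nat_lit 22437109208)) (T.h (P (nat_lit 0)) (M (nat_lit 790559610691)))) (T.h (P (nat_lit 0)) (P (nat_lit 2956089496780)))) (T.h (T.h (P (nat_lit 0)) (T.h (T.h (P (nat_lit 0)) (P (nat_lit 1261499302808))) (P (nat_lit 0)))) (P (nat_lit 451656168544)))))) (P (nat_lit 0))))))))) (T.h (T.h (P (nat_lit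 0)) (T.h (P (nat_lit 0)) (T.h (P (nat_lit 0)) (T.h (T.h (T.h (P (nat_lit 0)) (T.h (T.h (P (nat_lit 0)) (T.h (P (nat_lit 14763536928)) (T.h (P (nat_lit 0)) (T.h (P (nat_lit 341795783992)) (T.h (P (nat_lit 0)) (M (nat_lit 4272659654607))))))) (T.h (P (nat_lit 0)) (T.h (T.h (P (nat_lit 0)) (T.h (M (nat_lit 275882499063)) (T.h (P (nat_lit 0)) (P (nat_lit 6155304130656))))) (T.h (P (nat_lit 0)) (T.h (T.h (P (nat_lit 0)) (P (nat_lit 6775385289736))) (P (nat_lit 0)))))))) (T.h (T.h (T.h (P (nat_lit 5278870560)) (T.h (P (nat_lit 0)) (T.h (M (nat_lit 138907046999)) (T.h (P (nat_lit 0)) (P (nat_lit 2957550271648)))))) (T.h (P (nat_lit 0)) (T.h (T.h (M (nat_lit 3868350639)) (T.h (P (nat_lit 0)) (P (nat_lit 2793451863352)))) (T.h (P (nat_lit 0)) (P (nat_lit 1542714070416)))))) (T.h (T.h (P (nat_lit 0)) (T.h (T.h (P (nat_lit 0)) (T.h (M (nat_lit 258731682087)) (T.h (P (nat_lit 0)) (M (nat_lit 8506457512863)))))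 (T.h (P (nat_lit 0)) (T.h (T.h (P (nat_lit 0)) (M (nat_lit 16716067867511))) (P (nat_lit 0)))))) (T.h (T.h (T.h (P (nat_lit 31985569776)) (T.h (P (nat_lit 0)) (P (nat_lit 4154173193016)))) (T.h (P (nat_lit 0)) (M (nat_lit 4780145142767)))) (T.h (T.h (P (nat_lit 0)) (T.h (T.h (P (nat_lit 0)) (P (nat_lit 12553041103848))) (P (nat_lit 0)))) (M (nat_lit 2228982394367))))))) (T.h (P (nat_lit 0)) (T.h (T.h (T.h (P (nat_lit 0)) (T.h (T.h (P (nat_lit 0)) (T.h (P (nat_lit 30938551312)) (T.h (P (nat_lit 0)) (M (nat_lit 1324262121583))))) (T.h (P (nat_lit 0)) (T.h (T.h (P (nat_lit 0)) (P (nat_lit 871455837888))) (P (nat_lit 0)))))) (T.h (T.h (T.h (M (nat_lit 311498899)) (T.h (P (nat_lit 0)) (T.h (P (nat_lit 149241059964)) (T.h (P (nat_lit 0)) (M (nat_lit 6762544293375)))))) (T.h (P (nat_lit 0)) (T.h (T.h (P (nat_lit 59351716560)) (T.h (P (nat_lit 0)) (P (nat_lit 3363969063372)))) (T.h (P (nat_lit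 0)) (P (nat_lit 9563566217424)))))) (T.h (T.h (P (nat_lit 0)) (T.h (T.h (P (nat_lit 0)) (M (nat_lit 668798975839))) (P (nat_lit 0)))) (T.h (T.h (T.h (M (nat_lit 35539445771)) (T.h (P (nat_lit 0)) (P (nat_lit 2082745814108)))) (T.h (P (nat_lit 0)) (M (nat_lit 1940621785023)))) (T.h (P (nat_lit 0)) (P (nat_lit 822710732148))))))) (P (nat_lit 0)))))))) en12_4))
def en12_6 : T ℤ := (T.h (T.h (T.h (T.h (T.h (P (nat_lit 0)) (T.h (M (nat_lit 5450372743)) (T.h (P (nat_lit 0)) (T.h (P (nat_lit 53230474200)) (T.h (P (nat_lit 0)) (P (nat_lit 45603919720))))))) (T.h (P (nat_lit 0)) (T.h (T.h (P (nat_lit 0)) (T.h (M (nat_lit 28931158299)) (T.h (P (nat_lit 0)) (P (nat_lit 37015564900))))) (T.h (P (nat_lit 0)) (T.h (T.h (P (nat_lit 0)) (P (nat_lit 2792253308376))) (P (nat_lit 0))))))) (T.h (T.h (P (nat_lit 0)) (T.h (T.h (P (nat_lit 22409116104)) (T.h (P (nat_lit 0)) (T.h (M (nat_lit 758029276067)) (T.h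 (P (nat_lit 0)) (M (nat_lit 17266960016715)))))) (T.h (P (nat_lit 0)) (T.h (T.h (P (nat_lit 140700981932)) (T.h (P (nat_lit 0)) (P (nat_lit 36233741936504)))) (T.h (P (nat_lit 0)) (M (nat_lit 12864724652663))))))) (T.h (T.h (T.h (P (nat_lit 0)) (T.h (M (nat_lit 144596114639)) (T.h (P (nat_lit 0)) (M (nat_lit 4401247885567))))) (T.h (P (nat_lit 0)) (T.h (T.h (P (nat_lit 0)) (P (nat_lit 3485595775780))) (P (nat_lit 0))))) (T.h (T.h (P (nat_lit 0)) (T.h (T.h (M (nat_lit 209300757139)) (T.h (P (nat_lit 0)) (P (nat_lit 15545376049364)))) (T.h (P (nat_lit 0)) (M (nat_lit 17519537222655))))) (T.h (T.h (T.h (P (nat_lit 0)) (P (nat_lit 367190982896))) (P (nat_lit 0))) (T.h (T.h (P (nat_lit 0)) (M (nat_lit 8309989203179))) (P (nat_lit 0)))))))) (T.h (P (nat_lit 0)) (T.h (T.h (T.h (T.h (P (nat_lit 0)) (T.h (P (nat_lit 627898768)) (T.h (P (nat_lit 0)) (T.h (M (nat_lit 29413677755)) (T.h (P (nat_lit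 0)) (P (nat_lit 4384556091400))))))) (T.h (P (nat_lit 0)) (T.h (T.h (P (nat_lit 0)) (T.h (M (nat_lit 741168118503)) (T.h (P (nat_lit 0)) (M (nat_lit 386653250143))))) (T.h (P (nat_lit 0)) (T.h (T.h (P (nat_lit 0)) (M (nat_lit 21301367830823))) (P (nat_lit 0))))))) (T.h (T.h (P (nat_lit 0)) (T.h (T.h (P (nat_lit 66698427768)) (T.h (P (nat_lit 0)) (P (nat_lit 5050409656916)))) (T.h (P (nat_lit 0)) (M (nat_lit 3006902986503))))) (T.h (T.h (T.h (P (nat_lit 0)) (T.h (P (nat_lit 143858614940)) (T.h (P (nat_lit 0)) (P (nat_lit 746432690824))))) (T.h (P (nat_lit 0)) (T.h (T.h (P (nat_lit 0)) (M (nat_lit 299744994527))) (P (nat_lit 0))))) (T.h (T.h (P (nat_lit 0)) (P (nat_lit 1943052207196))) (T.h (T.h (T.h (P (nat_lit 0)) (M (nat_lit 3764420790123))) (P (nat_lit 0))) (P (nat_lit 0))))))) (P (nat_lit 0))))) (T.h (T.h (P (nat_lit 0)) (T.h (T.h (T.h (P (nat_lit 0)) (T.h (T.h (M (nat_lit 338443095))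 (T.h (P (nat_lit 0)) (T.h (M (nat_lit 134769581835)) (T.h (P (nat_lit 0)) (M (nat_lit 3552598556195)))))) (T.h (P (nat_lit 0)) (T.h (T.h (M (nat_lit 212446203215)) (T.h (P (nat_lit 0)) (M (nat_lit 2994478406047)))) (T.h (P (nat_lit 0)) (M (nat_lit 877212410279))))))) (T.h (T.h (T.h (P (nat_lit 0)) (T.h (M (nat_lit 68915899591)) (T.h (P (nat_lit 0)) (P (nat_lit 1688941406544))))) (T.h (P (nat_lit 0)) (T.h (T.h (P (nat_lit 0)) (P (nat_lit 855315203752))) (P (nat_lit 0))))) (T.h (T.h (P (nat_lit 0)) (T.h (T.h (M (nat_lit 508695585867)) (T.h (P (nat_lit 0)) (M (nat_lit 21786144605975)))) (T.h (P (nat_lit 0)) (P (nat_lit 3455024439492))))) (T.h (T.h (T.h (P (nat_lit 0)) (P (nat_lit 1044875910244))) (P (nat_lit 0))) (T.h (T.h (P (nat_lit 0)) (M (nat_lit 2567351950291))) (P (nat_lit 0))))))) (P (nat_lit 0)))) (T.h (T.h (T.h (T.h (T.h (P (nat_lit 0)) (T.h (M (nat_lit 3405276495)) (T.h (P (nat_lit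 0)) (T.h (M (nat_lit 227869426331)) (T.h (P (nat_lit 0)) (M (nat_lit 4742318951087))))))) (T.h (P (nat_lit 0)) (T.h (T.h (P (nat_lit 0)) (T.h (M (nat_lit 18765722451)) (T.h (P (nat_lit 0)) (M (nat_lit 3476382814683))))) (T.h (P (nat_lit 0)) (T.h (T.h (P (nat_lit 0)) (P (nat_lit 464620949544))) (P (nat_lit 0))))))) (T.h (T.h (P (nat_lit 0)) (T.h (T.h (P (nat_lit 9139297376)) (T.h (P (nat_lit 0)) (P (nat_lit 3146891017648)))) (T.h (P (nat_lit 0)) (P (nat_lit 2768070210056))))) (T.h (T.h (T.h (P (nat_lit 0)) (T.h (M (nat_lit 174953665087)) (T.h (P (nat_lit 0)) (M (nat_lit 2993594587087))))) (T.h (P (nat_lit 0)) (T.h (T.h (P (nat_lit 0)) (M (nat_lit 3239943475659))) (P (nat_lit 0))))) (T.h (T.h (P (nat_lit 0)) (M (nat_lit 845228635095))) (T.h (T.h (T.h (P (nat_lit 0)) (P (nat_lit 6035025219584))) (P (nat_lit 0))) (P (nat_lit 0))))))) (P (nat_lit 0))) (P (nat_lit 0)))))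
def en12_7 : T ℤ := (T.h (T.h (P (nat_lit 0)) (T.h (P (nat_lit 0)) (T.h (T.h (T.h (T.h (P (nat_lit 0)) (T.h (M (nat_lit 5435647495)) (T.h (P (nat_lit 0)) (T.h (P (nat_lit 44542543152)) (T.h (P (nat_lit 0)) (P (nat_lit 230536266376))))))) (T.h (P (nat_lit 0)) (T.h (T.h (P (nat_lit 0)) (T.h (P (nat_lit 283241850948)) (T.h (P (nat_lit 0)) (M (nat_lit 238900760083))))) (T.h (P (nat_lit 0)) (T.h (T.h (P (nat_lit 0)) (P (nat_lit 1422794727008))) (P (nat_lit 0))))))) (T.h (T.h (P (nat_lit 0)) (T.h (T.h (M (nat_lit 23994855499)) (T.h (P (nat_lit 0)) (T.h (M (nat_lit 2090193590811)) (T.h (P (nat_lit 0)) (M (nat_lit 23743375472439)))))) (T.h (P (nat_lit 0)) (T.h (T.h (M (nat_lit 560871720231)) (T.h (P (nat_lit 0)) (P (nat_lit 21050076465132)))) (T.h (P (nat_lit 0)) (M (nat_lit 3258991793019))))))) (T.h (T.h (T.h (P (nat_lit 0)) (T.h (P (nat_lit 435524058924)) (T.h (P (nat_lit 0)) (P (nat_lit 1720909942276)))))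 (T.h (P (nat_lit 0)) (T.h (T.h (P (nat_lit 0)) (M (nat_lit 1698423120287))) (P (nat_lit 0))))) (T.h (T.h (P (nat_lit 0)) (T.h (T.h (M (nat_lit 712963699587)) (T.h (P (nat_lit 0)) (M (nat_lit 10405928585831)))) (T.h (P (nat_lit 0)) (P (nat_lit 6221817031972))))) (T.h (T.h (T.h (P (nat_lit 0)) (P (nat_lit 1137351490688))) (P (nat_lit 0))) (T.h (T.h (P (nat_lit 0)) (M (nat_lit 2676151818555))) (P (nat_lit 0)))))))) (T.h (P (nat_lit 0)) (T.h (T.h (T.h (T.h (P (nat_lit 0)) (T.h (M (nat_lit 338443095)) (T.h (P (nat_lit 0)) (T.h (M (nat_lit 212446203215)) (T.h (P (nat_lit 0)) (M (nat_lit 877212410279))))))) (T.h (P (nat_lit 0)) (T.h (T.h (P (nat_lit 0)) (T.h (M (nat_lit 134769581835)) (T.h (P (nat_lit 0)) (M (nat_lit 2994478406047))))) (T.h (P (nat_lit 0)) (T.h (T.h (P (nat_lit 0)) (M (nat_lit 3552598556195))) (P (nat_lit 0))))))) (T.h (T.h (P (nat_lit 0)) (T.h (T.h (M (nat_lit 68915899591))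 (T.h (P (nat_lit 0)) (P (nat_lit 855315203752)))) (T.h (P (nat_lit 0)) (P (nat_lit 1688941406544))))) (T.h (T.h (T.h (P (nat_lit 0)) (T.h (M (nat_lit 508695585867)) (T.h (P (nat_lit 0)) (P (nat_lit 3455024439492))))) (T.h (P (nat_lit 0)) (T.h (T.h (P (nat_lit 0)) (M (nat_lit 21786144605975))) (P (nat_lit 0))))) (T.h (T.h (P (nat_lit 0)) (P (nat_lit 1044875910244))) (T.h (T.h (T.h (P (nat_lit 0)) (M (nat_lit 2567351950291))) (P (nat_lit 0))) (P (nat_lit 0))))))) (P (nat_lit 0))))))) (T.h (T.h (P (nat_lit 0)) (T.h (T.h (T.h (P (nat_lit 0)) (T.h (T.h (M (nat_lit 5435647495)) (T.h (P (nat_lit 0)) (T.h (P (nat_lit 283241850948)) (T.h (P (nat_lit 0)) (P (nat_lit 1422794727008)))))) (T.h (P (nat_lit 0)) (T.h (T.h (P (nat_lit 44542543152)) (T.h (P (nat_lit 0)) (M (nat_lit 238900760083)))) (T.h (P (nat_lit 0)) (P (nat_lit 230536266376))))))) (T.h (T.h (T.h (P (nat_lit 0)) (T.h (M (nat_lit 23994855499))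 (T.h (P (nat_lit 0)) (T.h (M (nat_lit 560871720231)) (T.h (P (nat_lit 0)) (M (nat_lit 3258991793019))))))) (T.h (P (nat_lit 0)) (T.h (T.h (P (nat_lit 0)) (T.h (M (nat_lit 2090193590811)) (T.h (P (nat_lit 0)) (P (nat_lit 21050076465132))))) (T.h (P (nat_lit 0)) (T.h (T.h (P (nat_lit 0)) (M (nat_lit 23743375472439))) (P (nat_lit 0))))))) (T.h (T.h (P (nat_lit 0)) (T.h (T.h (P (nat_lit 435524058924)) (T.h (P (nat_lit 0)) (M (nat_lit 1698423120287)))) (T.h (P (nat_lit 0)) (P (nat_lit 1720909942276))))) (T.h (T.h (T.h (P (nat_lit 0)) (T.h (M (nat_lit 712963699587)) (T.h (P (nat_lit 0)) (P (nat_lit 6221817031972))))) (T.h (P (nat_lit 0)) (T.h (T.h (P (nat_lit 0)) (M (nat_lit 10405928585831))) (P (nat_lit 0))))) (T.h (T.h (P (nat_lit 0)) (P (nat_lit 1137351490688))) (T.h (T.h (T.h (P (nat_lit 0)) (M (nat_lit 2676151818555))) (P (nat_lit 0))) (P (nat_lit 0)))))))) (T.h (P (nat_lit 0)) (T.h (T.h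 (T.h (P (nat_lit 0)) (T.h (T.h (P (nat_lit 627898768)) (T.h (P (nat_lit 0)) (T.h (M (nat_lit 741168118503)) (T.h (P (nat_lit 0)) (M (nat_lit 21301367830823)))))) (T.h (P (nat_lit 0)) (T.h (T.h (M (nat_lit 29413677755)) (T.h (P (nat_lit 0)) (M (nat_lit 386653250143)))) (T.h (P (nat_lit 0)) (P (nat_lit 4384556091400))))))) (T.h (T.h (T.h (P (nat_lit 0)) (T.h (P (nat_lit 66698427768)) (T.h (P (nat_lit 0)) (M (nat_lit 3006902986503))))) (T.h (P (nat_lit 0)) (T.h (T.h (P (nat_lit 0)) (P (nat_lit 5050409656916))) (P (nat_lit 0))))) (T.h (T.h (P (nat_lit 0)) (T.h (T.h (P (nat_lit 143858614940)) (T.h (P (nat_lit 0)) (M (nat_lit 299744994527)))) (T.h (P (nat_lit 0)) (P (nat_lit 746432690824))))) (T.h (T.h (T.h (P (nat_lit 0)) (P (nat_lit 1943052207196))) (P (nat_lit 0))) (T.h (T.h (P (nat_lit 0)) (M (nat_lit 3764420790123))) (P (nat_lit 0))))))) (P (nat_lit 0)))))) en12_6))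
def en12_8 : T ℤ := (T.h (T.h (T.h (T.h (T.h (P (nat_lit 0)) (T.h (P (nat_lit 0)) (T.h (M (nat_lit 14773720735)) (T.h (P (nat_lit 0)) (T.h (P (nat_lit 116678369856)) (T.h (P (nat_lit 0)) (M (nat_lit 1526227204579)))))))) (T.h (P (nat_lit 0)) (T.h (T.h (P (nat_lit 10290586024)) (T.h (P (nat_lit 0)) (T.h (P (nat_lit 9198625656)) (T.h (P (nat_lit 0)) (P (nat_lit 1716076794764)))))) (T.h (P (nat_lit 0)) (T.h (T.h (M (nat_lit 193013287887)) (T.h (P (nat_lit 0)) (M (nat_lit 1183947959095)))) (T.h (P (nat_lit 0)) (P (nat_lit 1364953937332)))))))) (T.h (T.h (P (nat_lit 0)) (T.h (T.h (P (nat_lit 0)) (T.h (P (nat_lit 89548534660)) (T.h (P (nat_lit 0)) (P (nat_lit 496361004244))))) (T.h (P (nat_lit 0)) (T.h (T.h (P (nat_lit 0)) (P (nat_lit 4300546758736))) (P (nat_lit 0)))))) (T.h (T.h (T.h (P (nat_lit 5895490940)) (T.h (P (nat_lit 0)) (T.h (P (nat_lit 80690555664)) (T.h (P (nat_lit 0)) (P (nat_lit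 6331982699696)))))) (T.h (P (nat_lit 0)) (T.h (T.h (M (nat_lit 461167489639)) (T.h (P (nat_lit 0)) (P (nat_lit 10431614909244)))) (T.h (P (nat_lit 0)) (M (nat_lit 5989038253271)))))) (T.h (T.h (P (nat_lit 0)) (T.h (T.h (P (nat_lit 0)) (P (nat_lit 3827822349488))) (P (nat_lit 0)))) (T.h (T.h (T.h (M (nat_lit 163230940639)) (T.h (P (nat_lit 0)) (M (nat_lit 1499445476303)))) (T.h (P (nat_lit 0)) (M (nat_lit 5254234038663)))) (T.h (P (nat_lit 0)) (P (nat_lit 2025382948048)))))))) (T.h (P (nat_lit 0)) (T.h (T.h (T.h (T.h (M (nat_lit 665665351)) (T.h (P (nat_lit 0)) (T.h (M (nat_lit 12676052255)) (T.h (P (nat_lit 0)) (P (nat_lit 1199816470752)))))) (T.h (P (nat_lit 0)) (T.h (T.h (M (nat_lit 12676052255)) (T.h (P (nat_lit 0)) (P (nat_lit 5453213558544)))) (T.h (P (nat_lit 0)) (P (nat_lit 1199816470752)))))) (T.h (T.h (P (nat_lit 0)) (T.h (T.h (P (nat_lit 0)) (T.h (M (nat_lit 2577697020943)) (T.h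 (P (nat_lit 0)) (M (nat_lit 12951804918751))))) (T.h (P (nat_lit 0)) (T.h (T.h (P (nat_lit 0)) (M (nat_lit 12951804918751))) (P (nat_lit 0)))))) (T.h (T.h (T.h (P (nat_lit 66831421656)) (T.h (P (nat_lit 0)) (P (nat_lit 760177643152)))) (T.h (P (nat_lit 0)) (P (nat_lit 760177643152)))) (T.h (T.h (P (nat_lit 0)) (T.h (T.h (P (nat_lit 0)) (M (nat_lit 376203317183))) (P (nat_lit 0)))) (M (nat_lit 718844953255)))))) (P (nat_lit 0))))) (T.h (T.h (P (nat_lit 0)) (T.h (T.h (T.h (P (nat_lit 0)) (T.h (T.h (P (nat_lit 0)) (T.h (P (nat_lit 25672591984)) (T.h (P (nat_lit 0)) (P (nat_lit 2015007800184))))) (T.h (P (nat_lit 0)) (T.h (T.h (P (nat_lit 0)) (P (nat_lit 6171853386912))) (P (nat_lit 0)))))) (T.h (T.h (T.h (P (nat_lit 8220008608)) (T.h (P (nat_lit 0)) (T.h (P (nat_lit 47785810764)) (T.h (P (nat_lit 0)) (M (nat_lit 13903189550887)))))) (T.h (P (nat_lit 0)) (T.h (T.h (M (nat_lit 1073902968751))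 (T.h (P (nat_lit 0)) (M (nat_lit 2542753255679)))) (T.h (P (nat_lit 0)) (P (nat_lit 1559753334332)))))) (T.h (T.h (P (nat_lit 0)) (T.h (T.h (P (nat_lit 0)) (P (nat_lit 7134820591856))) (P (nat_lit 0)))) (T.h (T.h (T.h (M (nat_lit 430295918211)) (T.h (P (nat_lit 0)) (M (nat_lit 6015516716119)))) (T.h (P (nat_lit 0)) (P (nat_lit 5620376657704)))) (T.h (P (nat_lit 0)) (P (nat_lit 1203401006328))))))) (P (nat_lit 0)))) (T.h (T.h (T.h (T.h (T.h (M (nat_lit 1822678503)) (T.h (P (nat_lit 0)) (T.h (M (nat_lit 74736839787)) (T.h (P (nat_lit 0)) (M (nat_lit 1103948400795)))))) (T.h (P (nat_lit 0)) (T.h (T.h (P (nat_lit 59354294500)) (T.h (P (nat_lit 0)) (P (nat_lit 907573321836)))) (T.h (P (nat_lit 0)) (M (nat_lit 1241895481807)))))) (T.h (T.h (P (nat_lit 0)) (T.h (T.h (P (nat_lit 0)) (T.h (P (nat_lit 149311157520)) (T.h (P (nat_lit 0)) (M (nat_lit 17409240813791))))) (T.h (P (nat_lit 0)) (T.h (T.h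 (P (nat_lit 0)) (M (nat_lit 16049148537703))) (P (nat_lit 0)))))) (T.h (T.h (T.h (P (nat_lit 7471791720)) (T.h (P (nat_lit 0)) (P (nat_lit 2938374777184)))) (T.h (P (nat_lit 0)) (P (nat_lit 3515952655296)))) (T.h (T.h (P (nat_lit 0)) (T.h (T.h (P (nat_lit 0)) (M (nat_lit 7012341517071))) (P (nat_lit 0)))) (P (nat_lit 52875851436)))))) (P (nat_lit 0))) (P (nat_lit 0)))))
def en12_9 : T ℤ := (T.h (T.h (P (nat_lit 0)) (T.h (P (nat_lit 0)) (T.h (T.h (T.h (T.h (P (nat_lit 0)) (T.h (P (nat_lit 0)) (T.h (P (nat_lit 10290586024)) (T.h (P (nat_lit 0)) (T.h (M (nat_lit 193013287887)) (T.h (P (nat_lit 0)) (P (nat_lit 1364953937332)))))))) (T.h (P (nat_lit 0)) (T.h (T.h (M (nat_lit 14773720735)) (T.h (P (nat_lit 0)) (T.h (P (nat_lit 9198625656)) (T.h (P (nat_lit 0)) (M (nat_lit 1183947959095)))))) (T.h (P (nat_lit 0)) (T.h (T.h (P (nat_lit 116678369856)) (T.h (P (nat_lit 0)) (P (nat_lit 1716076794764))))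 (T.h (P (nat_lit 0)) (M (nat_lit 1526227204579)))))))) (T.h (T.h (P (nat_lit 0)) (T.h (T.h (P (nat_lit 0)) (T.h (P (nat_lit 89548534660)) (T.h (P (nat_lit 0)) (P (nat_lit 4300546758736))))) (T.h (P (nat_lit 0)) (T.h (T.h (P (nat_lit 0)) (P (nat_lit 496361004244))) (P (nat_lit 0)))))) (T.h (T.h (T.h (P (nat_lit 5895490940)) (T.h (P (nat_lit 0)) (T.h (M (nat_lit 461167489639)) (T.h (P (nat_lit 0)) (M (nat_lit 5989038253271)))))) (T.h (P (nat_lit 0)) (T.h (T.h (P (nat_lit 80690555664)) (T.h (P (nat_lit 0)) (P (nat_lit 10431614909244)))) (T.h (P (nat_lit 0)) (P (nat_lit 6331982699696)))))) (T.h (T.h (P (nat_lit 0)) (T.h (T.h (P (nat_lit 0)) (P (nat_lit 3827822349488))) (P (nat_lit 0)))) (T.h (T.h (T.h (M (nat_lit 163230940639)) (T.h (P (nat_lit 0)) (M (nat_lit 5254234038663)))) (T.h (P (nat_lit 0)) (M (nat_lit 1499445476303)))) (T.h (P (nat_lit 0)) (P (nat_lit 2025382948048)))))))) (T.h (P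 (nat_lit 0)) (T.h (T.h (T.h (T.h (M (nat_lit 1822678503)) (T.h (P (nat_lit 0)) (T.h (P (nat_lit 59354294500)) (T.h (P (nat_lit 0)) (M (nat_lit 1241895481807)))))) (T.h (P (nat_lit 0)) (T.h (T.h (M (nat_lit 74736839787)) (T.h (P (nat_lit 0)) (P (nat_lit 907573321836)))) (T.h (P (nat_lit 0)) (M (nat_lit 1103948400795)))))) (T.h (T.h (P (nat_lit 0)) (T.h (T.h (P (nat_lit 0)) (T.h (P (nat_lit 149311157520)) (T.h (P (nat_lit 0)) (M (nat_lit 16049148537703))))) (T.h (P (nat_lit 0)) (T.h (T.h (P (nat_lit 0)) (M (nat_lit 17409240813791))) (P (nat_lit 0)))))) (T.h (T.h (T.h (P (nat_lit 7471791720)) (T.h (P (nat_lit 0)) (P (nat_lit 3515952655296)))) (T.h (P (nat_lit 0)) (P (nat_lit 2938374777184)))) (T.h (T.h (P (nat_lit 0)) (T.h (T.h (P (nat_lit 0)) (M (nat_lit 7012341517071))) (P (nat_lit 0)))) (P (nat_lit 52875851436)))))) (P (nat_lit 0))))))) (T.h (T.h (P (nat_lit 0)) (T.h (T.h (T.h (P (nat_lit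 0)) (T.h (T.h (P (nat_lit 0)) (T.h (M (nat_lit 17550058319)) (T.h (P (nat_lit 0)) (T.h (M (nat_lit 559924551815)) (T.h (P (nat_lit 0)) (M (nat_lit 6099171653871))))))) (T.h (P (nat_lit 0)) (T.h (T.h (P (nat_lit 0)) (T.h (M (nat_lit 559924551815)) (T.h (P (nat_lit 0)) (P (nat_lit 3736247416816))))) (T.h (P (nat_lit 0)) (T.h (T.h (P (nat_lit 0)) (M (nat_lit 6099171653871))) (P (nat_lit 0)))))))) (T.h (T.h (T.h (M (nat_lit 2389979679)) (T.h (P (nat_lit 0)) (T.h (P (nat_lit 285098593824)) (T.h (P (nat_lit 0)) (P (nat_lit 1076266393088)))))) (T.h (P (nat_lit 0)) (T.h (T.h (P (nat_lit 285098593824)) (T.h (P (nat_lit 0)) (M (nat_lit 1419895699583)))) (T.h (P (nat_lit 0)) (P (nat_lit 1076266393088)))))) (T.h (T.h (P (nat_lit 0)) (T.h (T.h (P (nat_lit 0)) (T.h (M (nat_lit 2518256674319)) (T.h (P (nat_lit 0)) (P (nat_lit 4825103389464))))) (T.h (P (nat_lit 0)) (T.h (T.h (P (nat_lit 0)) (P (nat_lit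 4825103389464))) (P (nat_lit 0)))))) (T.h (T.h (T.h (P (nat_lit 111173561792)) (T.h (P (nat_lit 0)) (P (nat_lit 217553034880)))) (T.h (P (nat_lit 0)) (P (nat_lit 217553034880)))) (T.h (T.h (P (nat_lit 0)) (T.h (T.h (P (nat_lit 0)) (M (nat_lit 18673071967327))) (P (nat_lit 0)))) (P (nat_lit 121101935008))))))) (T.h (P (nat_lit 0)) (T.h (T.h (T.h (P (nat_lit 0)) (T.h (T.h (P (nat_lit 0)) (T.h (P (nat_lit 25672591984)) (T.h (P (nat_lit 0)) (P (nat_lit 6171853386912))))) (T.h (P (nat_lit 0)) (T.h (T.h (P (nat_lit 0)) (P (nat_lit 2015007800184))) (P (nat_lit 0)))))) (T.h (T.h (T.h (P (nat_lit 8220008608)) (T.h (P (nat_lit 0)) (T.h (M (nat_lit 1073902968751)) (T.h (P (nat_lit 0)) (P (nat_lit 1559753334332)))))) (T.h (P (nat_lit 0)) (T.h (T.h (P (nat_lit 47785810764)) (T.h (P (nat_lit 0)) (M (nat_lit 2542753255679)))) (T.h (P (nat_lit 0)) (M (nat_lit 13903189550887)))))) (T.h (T.h (P (nat_lit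 0)) (T.h (T.h (P (nat_lit 0)) (P (nat_lit 7134820591856))) (P (nat_lit 0)))) (T.h (T.h (T.h (M (nat_lit 430295918211)) (T.h (P (nat_lit 0)) (P (nat_lit 5620376657704)))) (T.h (P (nat_lit 0)) (M (nat_lit 6015516716119)))) (T.h (P (nat_lit 0)) (P (nat_lit 1203401006328))))))) (P (nat_lit 0)))))) en12_8))
def en12_10 : T ℤ := (T.h (T.h (T.h (T.h (T.h (P (nat_lit 0)) (T.h (M (nat_lit 3125933475)) (T.h (P (nat_lit 0)) (T.h (P (nat_lit 17305316864)) (T.h (P (nat_lit 0)) (M (nat_lit 415535130611))))))) (T.h (P (nat_lit 0)) (T.h (T.h (P (nat_lit 0)) (T.h (M (nat_lit 39415932883)) (T.h (P (nat_lit 0)) (M (nat_lit 2301040953499))))) (T.h (P (nat_lit 0)) (T.h (T.h (P (nat_lit 0)) (P (nat_lit 734457363772))) (P (nat_lit 0))))))) (T.h (T.h (P (nat_lit 0)) (T.h (T.h (P (nat_lit 9582851236)) (T.h (P (nat_lit 0)) (T.h (M (nat_lit 547573197415)) (T.h (P (nat_lit 0)) (M (nat_lit 10495255796927)))))) (T.h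 (P (nat_lit 0)) (T.h (T.h (M (nat_lit 180409642163)) (T.h (P (nat_lit 0)) (P (nat_lit 8600405136296)))) (T.h (P (nat_lit 0)) (M (nat_lit 4475391675479))))))) (T.h (T.h (T.h (P (nat_lit 0)) (T.h (M (nat_lit 5463996583)) (T.h (P (nat_lit 0)) (P (nat_lit 403726617228))))) (T.h (P (nat_lit 0)) (T.h (T.h (P (nat_lit 0)) (P (nat_lit 2112014903132))) (P (nat_lit 0))))) (T.h (T.h (P (nat_lit 0)) (T.h (T.h (P (nat_lit 69725321496)) (T.h (P (nat_lit 0)) (P (nat_lit 11755564780380)))) (T.h (P (nat_lit 0)) (M (nat_lit 5337500047063))))) (T.h (T.h (T.h (P (nat_lit 0)) (P (nat_lit 2329662606108))) (P (nat_lit 0))) (T.h (T.h (P (nat_lit 0)) (M (nat_lit 4572495818519))) (P (nat_lit 0)))))))) (T.h (P (nat_lit 0)) (T.h (T.h (T.h (T.h (P (nat_lit 0)) (T.h (P (nat_lit 7648373180)) (T.h (P (nat_lit 0)) (T.h (P (nat_lit 289633436740)) (T.h (P (nat_lit 0)) (P (nat_lit 9673478494808))))))) (T.h (P (nat_lit 0))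 (T.h (T.h (P (nat_lit 0)) (T.h (M (nat_lit 148393402251)) (T.h (P (nat_lit 0)) (M (nat_lit 773257149035))))) (T.h (P (nat_lit 0)) (T.h (T.h (P (nat_lit 0)) (P (nat_lit 13114180658328))) (P (nat_lit 0))))))) (T.h (T.h (P (nat_lit 0)) (T.h (T.h (P (nat_lit 64651856112)) (T.h (P (nat_lit 0)) (P (nat_lit 7632444802548)))) (T.h (P (nat_lit 0)) (P (nat_lit 2488258387120))))) (T.h (T.h (T.h (P (nat_lit 0)) (T.h (M (nat_lit 711000412791)) (T.h (P (nat_lit 0)) (M (nat_lit 1303725846059))))) (T.h (P (nat_lit 0)) (T.h (T.h (P (nat_lit 0)) (M (nat_lit 6144273301547))) (P (nat_lit 0))))) (T.h (T.h (P (nat_lit 0)) (P (nat_lit 290084767856))) (T.h (T.h (T.h (P (nat_lit 0)) (P (nat_lit 1888191280308))) (P (nat_lit 0))) (P (nat_lit 0))))))) (P (nat_lit 0))))) (T.h (T.h (P (nat_lit 0)) (T.h (T.h (T.h (P (nat_lit 0)) (T.h (T.h (P (nat_lit 7648373180)) (T.h (P (nat_lit 0)) (T.h (M (nat_lit 148393402251))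 (T.h (P (nat_lit 0)) (P (nat_lit 13114180658328)))))) (T.h (P (nat_lit 0)) (T.h (T.h (P (nat_lit 289633436740)) (T.h (P (nat_lit 0)) (M (nat_lit 773257149035)))) (T.h (P (nat_lit 0)) (P (nat_lit 9673478494808))))))) (T.h (T.h (T.h (P (nat_lit 0)) (T.h (P (nat_lit 64651856112)) (T.h (P (nat_lit 0)) (P (nat_lit 2488258387120))))) (T.h (P (nat_lit 0)) (T.h (T.h (P (nat_lit 0)) (P (nat_lit 7632444802548))) (P (nat_lit 0))))) (T.h (T.h (P (nat_lit 0)) (T.h (T.h (M (nat_lit 711000412791)) (T.h (P (nat_lit 0)) (M (nat_lit 6144273301547)))) (T.h (P (nat_lit 0)) (M (nat_lit 1303725846059))))) (T.h (T.h (T.h (P (nat_lit 0)) (P (nat_lit 290084767856))) (P (nat_lit 0))) (T.h (T.h (P (nat_lit 0)) (P (nat_lit 1888191280308))) (P (nat_lit 0))))))) (P (nat_lit 0)))) (T.h (T.h (T.h (T.h (T.h (P (nat_lit 0)) (T.h (M (nat_lit 2554632655)) (T.h (P (nat_lit 0)) (T.h (M (nat_lit 106445844379)) (T.h (P (nat_lit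 0)) (M (nat_lit 3679684644711))))))) (T.h (P (nat_lit 0)) (T.h (T.h (P (nat_lit 0)) (T.h (M (nat_lit 192750349163)) (T.h (P (nat_lit 0)) (M (nat_lit 2996220572767))))) (T.h (P (nat_lit 0)) (T.h (T.h (P (nat_lit 0)) (P (nat_lit 4457063389456))) (P (nat_lit 0))))))) (T.h (T.h (P (nat_lit 0)) (T.h (T.h (M (nat_lit 66298240803)) (T.h (P (nat_lit 0)) (P (nat_lit 1035324432920)))) (T.h (P (nat_lit 0)) (P (nat_lit 1709412902056))))) (T.h (T.h (T.h (P (nat_lit 0)) (T.h (M (nat_lit 319151970735)) (T.h (P (nat_lit 0)) (M (nat_lit 3922455105823))))) (T.h (P (nat_lit 0)) (T.h (T.h (P (nat_lit 0)) (M (nat_lit 16056953163879))) (P (nat_lit 0))))) (T.h (T.h (P (nat_lit 0)) (P (nat_lit 4119050977992))) (T.h (T.h (T.h (P (nat_lit 0)) (M (nat_lit 6111810479739))) (P (nat_lit 0))) (P (nat_lit 0))))))) (P (nat_lit 0))) (P (nat_lit 0)))))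
def en12_11 : T ℤ := (T.h (T.h (T.h (T.h (T.h (P (nat_lit 0)) (T.h (P (nat_lit 0)) (T.h (P (nat_lit 2827095708)) (T.h (P (nat_lit 0)) (T.h (M (nat_lit 161934911375)) (T.h (P (nat_lit 0)) (M (nat_lit 103711963635)))))))) (T.h (P (nat_lit 0)) (T.h (T.h (P (nat_lit 2827095708)) (T.h (P (nat_lit 0)) (T.h (M (nat_lit 26175245183)) (T.h (P (nat_lit 0)) (M (nat_lit 871903010767)))))) (T.h (P (nat_lit 0)) (T.h (T.h (M (nat_lit 161934911375)) (T.h (P (nat_lit 0)) (M (nat_lit 871903010767)))) (T.h (P (nat_lit 0)) (M (nat_lit 103711963635)))))))) (T.h (T.h (P (nat_lit 0)) (T.h (T.h (P (nat_lit 0)) (T.h (M (nat_lit 35364675639)) (T.h (P (nat_lit 0)) (P (nat_lit 89382748056))))) (T.h (P (nat_lit 0)) (T.h (T.h (P (nat_lit 0)) (P (nat_lit 89382748056))) (P (nat_lit 0)))))) (T.h (T.h (T.h (M (nat_lit 3281708823)) (T.h (P (nat_lit 0)) (T.h (P (nat_lit 179163718024)) (T.h (P (nat_lit 0)) (M (nat_lit 1817476889491))))))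 (T.h (P (nat_lit 0)) (T.h (T.h (P (nat_lit 179163718024)) (T.h (P (nat_lit 0)) (M (nat_lit 777302187383)))) (T.h (P (nat_lit 0)) (M (nat_lit 1817476889491)))))) (T.h (T.h (P (nat_lit 0)) (T.h (T.h (P (nat_lit 0)) (M (nat_lit 832201128487))) (P (nat_lit 0)))) (T.h (T.h (T.h (P (nat_lit 83780482896)) (T.h (P (nat_lit 0)) (M (nat_lit 3084840545555)))) (T.h (P (nat_lit 0)) (M (nat_lit 3084840545555)))) (T.h (P (nat_lit 0)) (P (nat_lit 16725275760)))))))) (T.h (P (nat_lit 0)) (T.h (T.h (T.h (T.h (M (nat_lit 358919391)) (T.h (P (nat_lit 0)) (T.h (P (nat_lit 10016835432)) (T.h (P (nat_lit 0)) (P (nat_lit 180480728452)))))) (T.h (P (nat_lit 0)) (T.h (T.h (M (nat_lit 12678609375)) (T.h (P (nat_lit 0)) (P (nat_lit 2853811395396)))) (T.h (P (nat_lit 0)) (M (nat_lit 1379093353915)))))) (T.h (T.h (P (nat_lit 0)) (T.h (T.h (P (nat_lit 0)) (T.h (M (nat_lit 22951680143)) (T.h (P (nat_lit 0)) (M (nat_lit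 9903276171215))))) (T.h (P (nat_lit 0)) (T.h (T.h (P (nat_lit 0)) (M (nat_lit 354711189551))) (P (nat_lit 0)))))) (T.h (T.h (T.h (M (nat_lit 6531918771)) (T.h (P (nat_lit 0)) (P (nat_lit 716693293056)))) (T.h (P (nat_lit 0)) (P (nat_lit 1845164429348)))) (T.h (T.h (P (nat_lit 0)) (T.h (T.h (P (nat_lit 0)) (M (nat_lit 5937514951455))) (P (nat_lit 0)))) (P (nat_lit 1395534443584)))))) (P (nat_lit 0))))) (T.h (T.h (P (nat_lit 0)) (T.h (T.h (T.h (P (nat_lit 0)) (T.h (T.h (P (nat_lit 0)) (T.h (P (nat_lit 109181889776)) (T.h (P (nat_lit 0)) (P (nat_lit 4961157919608))))) (T.h (P (nat_lit 0)) (T.h (T.h (P (nat_lit 0)) (P (nat_lit 4961157919608))) (P (nat_lit 0)))))) (T.h (T.h (T.h (M (nat_lit 3847452103)) (T.h (P (nat_lit 0)) (T.h (M (nat_lit 511803589595)) (T.h (P (nat_lit 0)) (M (nat_lit 7662852825955)))))) (T.h (P (nat_lit 0)) (T.h (T.h (M (nat_lit 511803589595)) (T.h (P (nat_lit 0)) (M (nat_lit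 4183926397871)))) (T.h (P (nat_lit 0)) (M (nat_lit 7662852825955)))))) (T.h (T.h (P (nat_lit 0)) (T.h (T.h (P (nat_lit 0)) (P (nat_lit 231216740288))) (P (nat_lit 0)))) (T.h (T.h (T.h (P (nat_lit 157393941512)) (T.h (P (nat_lit 0)) (P (nat_lit 4274744032656)))) (T.h (P (nat_lit 0)) (P (nat_lit 4274744032656)))) (T.h (P (nat_lit 0)) (M (nat_lit 2576634176735))))))) (P (nat_lit 0)))) (T.h (T.h (T.h (T.h (T.h (M (nat_lit 358919391)) (T.h (P (nat_lit 0)) (T.h (M (nat_lit 12678609375)) (T.h (P (nat_lit 0)) (M (nat_lit 1379093353915)))))) (T.h (P (nat_lit 0)) (T.h (T.h (P (nat_lit 10016835432)) (T.h (P (nat_lit 0)) (P (nat_lit 2853811395396)))) (T.h (P (nat_lit 0)) (P (nat_lit 180480728452)))))) (T.h (T.h (P (nat_lit 0)) (T.h (T.h (P (nat_lit 0)) (T.h (M (nat_lit 22951680143)) (T.h (P (nat_lit 0)) (M (nat_lit 354711189551))))) (T.h (P (nat_lit 0)) (T.h (T.h (P (nat_lit 0)) (M (nat_lit 9903276171215)))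 (P (nat_lit 0)))))) (T.h (T.h (T.h (M (nat_lit 6531918771)) (T.h (P (nat_lit 0)) (P (nat_lit 1845164429348)))) (T.h (P (nat_lit 0)) (P (nat_lit 716693293056)))) (T.h (T.h (P (nat_lit 0)) (T.h (T.h (P (nat_lit 0)) (M (nat_lit 5937514951455))) (P (nat_lit 0)))) (P (nat_lit 1395534443584)))))) (P (nat_lit 0))) (P (nat_lit 0)))))
def en12_12 : T ℤ := (T.h (T.h (T.h (P (nat_lit 0)) (T.h (T.h (T.h (P (nat_lit 0)) (T.h (T.h (M (nat_lit 3125933475)) (T.h (P (nat_lit 0)) (T.h (M (nat_lit 39415932883)) (T.h (P (nat_lit 0)) (P (nat_lit 734457363772)))))) (T.h (P (nat_lit 0)) (T.h (T.h (P (nat_lit 17305316864)) (T.h (P (nat_lit 0)) (M (nat_lit 2301040953499)))) (T.h (P (nat_lit 0)) (M (nat_lit 415535130611))))))) (T.h (T.h (T.h (P (nat_lit 0)) (T.h (P (nat_lit 9582851236)) (T.h (P (nat_lit 0)) (T.h (M (nat_lit 180409642163)) (T.h (P (nat_lit 0)) (M (nat_lit 4475391675479))))))) (T.h (P (nat_lit 0))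 (T.h (T.h (P (nat_lit 0)) (T.h (M (nat_lit 547573197415)) (T.h (P (nat_lit 0)) (P (nat_lit 8600405136296))))) (T.h (P (nat_lit 0)) (T.h (T.h (P (nat_lit 0)) (M (nat_lit 10495255796927))) (P (nat_lit 0))))))) (T.h (T.h (P (nat_lit 0)) (T.h (T.h (M (nat_lit 5463996583)) (T.h (P (nat_lit 0)) (P (nat_lit 2112014903132)))) (T.h (P (nat_lit 0)) (P (nat_lit 403726617228))))) (T.h (T.h (T.h (P (nat_lit 0)) (T.h (P (nat_lit 69725321496)) (T.h (P (nat_lit 0)) (M (nat_lit 5337500047063))))) (T.h (P (nat_lit 0)) (T.h (T.h (P (nat_lit 0)) (P (nat_lit 11755564780380))) (P (nat_lit 0))))) (T.h (T.h (P (nat_lit 0)) (P (nat_lit 2329662606108))) (T.h (T.h (T.h (P (nat_lit 0)) (M (nat_lit 4572495818519))) (P (nat_lit 0))) (P (nat_lit 0)))))))) (T.h (P (nat_lit 0)) (T.h (T.h (T.h (P (nat_lit 0)) (T.h (T.h (M (nat_lit 2554632655)) (T.h (P (nat_lit 0)) (T.h (M (nat_lit 192750349163)) (T.h (P (nat_lit 0)) (P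 (nat_lit 4457063389456)))))) (T.h (P (nat_lit 0)) (T.h (T.h (M (nat_lit 106445844379)) (T.h (P (nat_lit 0)) (M (nat_lit 2996220572767)))) (T.h (P (nat_lit 0)) (M (nat_lit 3679684644711))))))) (T.h (T.h (T.h (P (nat_lit 0)) (T.h (M (nat_lit 66298240803)) (T.h (P (nat_lit 0)) (P (nat_lit 1709412902056))))) (T.h (P (nat_lit 0)) (T.h (T.h (P (nat_lit 0)) (P (nat_lit 1035324432920))) (P (nat_lit 0))))) (T.h (T.h (P (nat_lit 0)) (T.h (T.h (M (nat_lit 319151970735)) (T.h (P (nat_lit 0)) (M (nat_lit 16056953163879)))) (T.h (P (nat_lit 0)) (M (nat_lit 3922455105823))))) (T.h (T.h (T.h (P (nat_lit 0)) (P (nat_lit 4119050977992))) (P (nat_lit 0))) (T.h (T.h (P (nat_lit 0)) (M (nat_lit 6111810479739))) (P (nat_lit 0))))))) (P (nat_lit 0)))))) en12_10) (T.h en12_11 (T.h (T.h (T.h (P (nat_lit 0)) (T.h (T.h (T.h (P (nat_lit 0)) (T.h (T.h (M (nat_lit 480988635)) (T.h (P (nat_lit 0)) (T.h (P (nat_lit 690384886180))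 (T.h (P (nat_lit 0)) (P (nat_lit 20790247047364)))))) (T.h (P (nat_lit 0)) (T.h (T.h (M (nat_lit 152091117199)) (T.h (P (nat_lit 0)) (P (nat_lit 44750559618556)))) (T.h (P (nat_lit 0)) (M (nat_lit 9131396649255))))))) (T.h (T.h (T.h (P (nat_lit 0)) (T.h (M (nat_lit 1653515803)) (T.h (P (nat_lit 0)) (M (nat_lit 667550831679))))) (T.h (P (nat_lit 0)) (T.h (T.h (P (nat_lit 0)) (M (nat_lit 1644626285799))) (P (nat_lit 0))))) (T.h (T.h (P (nat_lit 0)) (T.h (T.h (P (nat_lit 50794281668)) (T.h (P (nat_lit 0)) (M (nat_lit 1866048449267)))) (T.h (P (nat_lit 0)) (P (nat_lit 12634959697996))))) (T.h (T.h (T.h (P (nat_lit 0)) (M (nat_lit 336407885599))) (P (nat_lit 0))) (T.h (T.h (P (nat_lit 0)) (M (nat_lit 1568194328491))) (P (nat_lit 0))))))) (P (nat_lit 0)))) (T.h (T.h (T.h (T.h (T.h (P (nat_lit 0)) (T.h (M (nat_lit 480988635)) (T.h (P (nat_lit 0)) (T.h (M (nat_lit 152091117199)) (T.h (P (nat_lit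 0)) (M (nat_lit 9131396649255))))))) (T.h (P (nat_lit 0)) (T.h (T.h (P (nat_lit 0)) (T.h (P (nat_lit 690384886180)) (T.h (P (nat_lit 0)) (P (nat_lit 44750559618556))))) (T.h (P (nat_lit 0)) (T.h (T.h (P (nat_lit 0)) (P (nat_lit 20790247047364))) (P (nat_lit 0))))))) (T.h (T.h (P (nat_lit 0)) (T.h (T.h (M (nat_lit 1653515803)) (T.h (P (nat_lit 0)) (M (nat_lit 1644626285799)))) (T.h (P (nat_lit 0)) (M (nat_lit 667550831679))))) (T.h (T.h (T.h (P (nat_lit 0)) (T.h (P (nat_lit 50794281668)) (T.h (P (nat_lit 0)) (P (nat_lit 12634959697996))))) (T.h (P (nat_lit 0)) (T.h (T.h (P (nat_lit 0)) (M (nat_lit 1866048449267))) (P (nat_lit 0))))) (T.h (T.h (P (nat_lit 0)) (M (nat_lit 336407885599))) (T.h (T.h (T.h (P (nat_lit 0)) (M (nat_lit 1568194328491))) (P (nat_lit 0))) (P (nat_lit 0))))))) (P (nat_lit 0))) (P (nat_lit 0)))) (T.h (T.h (T.h (T.h (T.h (T.h (P (nat_lit 101277336)) (T.h (P (nat_lit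 0)) (T.h (M (nat_lit 2960068391)) (T.h (P (nat_lit 0)) (P (nat_lit 187144508708)))))) (T.h (P (nat_lit 0)) (T.h (T.h (M (nat_lit 2960068391)) (T.h (P (nat_lit 0)) (M (nat_lit 46794165599)))) (T.h (P (nat_lit 0)) (P (nat_lit 187144508708)))))) (T.h (T.h (P (nat_lit 0)) (T.h (T.h (P (nat_lit 0)) (T.h (P (nat_lit 3725317744)) (T.h (P (nat_lit 0)) (P (nat_lit 893189647312))))) (T.h (P (nat_lit 0)) (T.h (T.h (P (nat_lit 0)) (P (nat_lit 893189647312))) (P (nat_lit 0)))))) (T.h (T.h (T.h (P (nat_lit 4617958992)) (T.h (P (nat_lit 0)) (M (nat_lit 163344293215)))) (T.h (P (nat_lit 0)) (M (nat_lit 163344293215)))) (T.h (T.h (P (nat_lit 0)) (T.h (T.h (P (nat_lit 0)) (P (nat_lit 960964995104))) (P (nat_lit 0)))) (M (nat_lit 91086663487)))))) (P (nat_lit 0))) (P (nat_lit 0))) (P (nat_lit 0))))))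
def en12_13 : T ℤ := (T.h (T.h (T.h (P (nat_lit 0)) (T.h (P (nat_lit 0)) (T.h (P (nat_lit 0)) (T.h (P (nat_lit 0)) (T.h (P (nat_lit 0)) (T.h (T.h (T.h (P (nat_lit 0)) (T.h (T.h (M (nat_lit 2817606235)) (T.h (P (nat_lit 0)) (T.h (P (nat_lit 25104536044)) (T.h (P (nat_lit 0)) (P (nat_lit 373121895940)))))) (T.h (P (nat_lit 0)) (T.h (T.h (M (nat_lit 51239088851)) (T.h (P (nat_lit 0)) (M (nat_lit 701992162615)))) (T.h (P (nat_lit 0)) (M (nat_lit 177196635703))))))) (T.h (T.h (T.h (P (nat_lit 0)) (T.h (M (nat_lit 1562352851)) (T.h (P (nat_lit 0)) (T.h (P (nat_lit 159138456792)) (T.h (P (nat_lit 0)) (P (nat_lit 1913578476352))))))) (T.h (P (nat_lit 0)) (T.h (T.h (P (nat_lit 0)) (T.h (P (nat_lit 198897723456)) (T.h (P (nat_lit 0)) (M (nat_lit 685640907107))))) (T.h (P (nat_lit 0)) (T.h (T.h (P (nat_lit 0)) (M (nat_lit 4077489247435))) (P (nat_lit 0))))))) (T.h (T.h (P (nat_lit 0)) (T.h (T.h (P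 (nat_lit 84877185116)) (T.h (P (nat_lit 0)) (M (nat_lit 1694889133971)))) (T.h (P (nat_lit 0)) (M (nat_lit 604855556191))))) (T.h (T.h (T.h (P (nat_lit 0)) (T.h (M (nat_lit 196742605211)) (T.h (P (nat_lit 0)) (M (nat_lit 4478610963243))))) (T.h (P (nat_lit 0)) (T.h (T.h (P (nat_lit 0)) (P (nat_lit 7028280409180))) (P (nat_lit 0))))) (T.h (T.h (P (nat_lit 0)) (P (nat_lit 55158832600))) (T.h (T.h (T.h (P (nat_lit 0)) (M (nat_lit 3241937144751))) (P (nat_lit 0))) (P (nat_lit 0)))))))) (T.h (P (nat_lit 0)) (T.h (T.h (T.h (P (nat_lit 0)) (T.h (T.h (M (nat_lit 970609635)) (T.h (P (nat_lit 0)) (T.h (P (nat_lit 53531091608)) (T.h (P (nat_lit 0)) (M (nat_lit 1884070226483)))))) (T.h (P (nat_lit 0)) (T.h (T.h (M (nat_lit 97735681031)) (T.h (P (nat_lit 0)) (P (nat_lit 12297226109524)))) (T.h (P (nat_lit 0)) (M (nat_lit 9421716903171))))))) (T.h (T.h (T.h (P (nat_lit 0)) (T.h (M (nat_lit 4811839719))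 (T.h (P (nat_lit 0)) (M (nat_lit 74609436591))))) (T.h (P (nat_lit 0)) (T.h (T.h (P (nat_lit 0)) (M (nat_lit 1219786607595))) (P (nat_lit 0))))) (T.h (T.h (P (nat_lit 0)) (T.h (T.h (P (nat_lit 557282913100)) (T.h (P (nat_lit 0)) (P (nat_lit 771359443848)))) (T.h (P (nat_lit 0)) (P (nat_lit 41261092490160))))) (T.h (T.h (T.h (P (nat_lit 0)) (M (nat_lit 574775747923))) (P (nat_lit 0))) (T.h (T.h (P (nat_lit 0)) (P (nat_lit 21003777044604))) (P (nat_lit 0))))))) (P (nat_lit 0)))))))))) en12_2) (T.h en12_5 (T.h (T.h (T.h (P (nat_lit 0)) (T.h (P (nat_lit 0)) (T.h (P (nat_lit 0)) (T.h (T.h (T.h (P (nat_lit 0)) (T.h (T.h (M (nat_lit 5450372743)) (T.h (P (nat_lit 0)) (T.h (M (nat_lit 28931158299)) (T.h (P (nat_lit 0)) (P (nat_lit 2792253308376)))))) (T.h (P (nat_lit 0)) (T.h (T.h (P (nat_lit 53230474200)) (T.h (P (nat_lit 0)) (P (nat_lit 37015564900)))) (T.h (P (nat_lit 0)) (P (nat_lit 45603919720)))))))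 (T.h (T.h (T.h (P (nat_lit 0)) (T.h (P (nat_lit 22409116104)) (T.h (P (nat_lit 0)) (T.h (P (nat_lit 140700981932)) (T.h (P (nat_lit 0)) (M (nat_lit 12864724652663))))))) (T.h (P (nat_lit 0)) (T.h (T.h (P (nat_lit 0)) (T.h (M (nat_lit 758029276067)) (T.h (P (nat_lit 0)) (P (nat_lit 36233741936504))))) (T.h (P (nat_lit 0)) (T.h (T.h (P (nat_lit 0)) (M (nat_lit 17266960016715))) (P (nat_lit 0))))))) (T.h (T.h (P (nat_lit 0)) (T.h (T.h (M (nat_lit 144596114639)) (T.h (P (nat_lit 0)) (P (nat_lit 3485595775780)))) (T.h (P (nat_lit 0)) (M (nat_lit 4401247885567))))) (T.h (T.h (T.h (P (nat_lit 0)) (T.h (M (nat_lit 209300757139)) (T.h (P (nat_lit 0)) (M (nat_lit 17519537222655))))) (T.h (P (nat_lit 0)) (T.h (T.h (P (nat_lit 0)) (P (nat_lit 15545376049364))) (P (nat_lit 0))))) (T.h (T.h (P (nat_lit 0)) (P (nat_lit 367190982896))) (T.h (T.h (T.h (P (nat_lit 0)) (M (nat_lit 8309989203179))) (P (nat_lit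 0))) (P (nat_lit 0)))))))) (T.h (P (nat_lit 0)) (T.h (T.h (T.h (P (nat_lit 0)) (T.h (T.h (M (nat_lit 3405276495)) (T.h (P (nat_lit 0)) (T.h (M (nat_lit 18765722451)) (T.h (P (nat_lit 0)) (P (nat_lit 464620949544)))))) (T.h (P (nat_lit 0)) (T.h (T.h (M (nat_lit 227869426331)) (T.h (P (nat_lit 0)) (M (nat_lit 3476382814683)))) (T.h (P (nat_lit 0)) (M (nat_lit 4742318951087))))))) (T.h (T.h (T.h (P (nat_lit 0)) (T.h (P (nat_lit 9139297376)) (T.h (P (nat_lit 0)) (P (nat_lit 2768070210056))))) (T.h (P (nat_lit 0)) (T.h (T.h (P (nat_lit 0)) (P (nat_lit 3146891017648))) (P (nat_lit 0))))) (T.h (T.h (P (nat_lit 0)) (T.h (T.h (M (nat_lit 174953665087)) (T.h (P (nat_lit 0)) (M (nat_lit 3239943475659)))) (T.h (P (nat_lit 0)) (M (nat_lit 2993594587087))))) (T.h (T.h (T.h (P (nat_lit 0)) (M (nat_lit 845228635095))) (P (nat_lit 0))) (T.h (T.h (P (nat_lit 0)) (P (nat_lit 6035025219584))) (P (nat_lit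 0))))))) (P (nat_lit 0)))))))) en12_7) (T.h en12_9 en12_12))))

def n12 : T ℤ := en12_13

theorem h_n12 : chkT (c.Nn 1 2 ++ c.Nn 2 1) n12 = true := by decide +kernel


end Pool.Agent.TOPR.R6109
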